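import Mathlib

set_option autoImplicit false

namespace Pool.Agent.MP_6216ea_lc

variable {P R : Type} [Fintype P] [DecidableEq P] [Fintype R] [DecidableEq R]

/-- overwrite `y` by `z` on `A` -/
def ow (A : Finset P) (z y : P → R) : P → R := fun p => if p ∈ A then z p else y p

theorem card_le_overwrite (A : Finset P) (z : P → R) (S : Finset (P → R))
    (hS : ∀ y ∈ S, ow A z y ∈ S) :
    S.card ≤ Fintype.card R ^ A.card * (S.filter (fun y => ∀ p ∈ A, y p = z p)).card := by
  apply Finset.card_le_mul_card_image_of_maps_to (f := ow A z)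
  · intro y hy
    rw [Finset.mem_filter]
    exact ⟨hS y hy, fun p hp => by simp [ow, hp]⟩
  · intro b _
    have h1 : (S.filter (fun y => ow A z y = b)).card ≤
        (Finset.univ : Finset (A → R)).card := by
      apply Finset.card_le_card_of_injOn (fun y (p : A) => y p)
      · intro y _; simp
      · intro y hy y' hy' hyy
        simp only [Finset.coe_filter, Set.mem_ofPred_eq] at hy hy'
        funext p
        by_cases hp : p ∈ A
        · exact congrFun hyy ⟨p, hp⟩
        · have h2 := congrFun hy.2 p
          have h3 := congrFun hy'.2 p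
          simp only [ow, hp, if_false] at h2 h3
          rw [h2, h3]
    refine h1.trans (le_of_eq ?_)
    simp

/-- The functions that agree with `z` on none of the sets `B i`, `i ∈ S`. -/
def badSet {ι : Type} [DecidableEq ι] (z : P → R) (B : ι → Finset P) (S : Finset ι) :
    Finset (P → R) :=
  Finset.univ.filter (fun y => ∀ i ∈ S, ∃ p ∈ B i, y p ≠ z p)

theorem card_badSet_le {ι : Type} [DecidableEq ι] [Nonempty R] (z : P → R) (B : ι → Finset P) (d : ℕ)
    (S : Finset ι) (hd : ∀ i ∈ S, (B i).card ≤ d)
    (hdisj : ∀ i ∈ S, ∀ j ∈ S, i ≠ j → Disjoint (B i) (B j)) :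
    ((badSet z B S).card : ℝ) ≤
      (1 - 1 / (Fintype.card R : ℝ) ^ d) ^ S.card * Fintype.card (P → R) := by
  have hc : (0 : ℝ) < Fintype.card R := by exact_mod_cast Fintype.card_pos
  have hc1 : (1 : ℝ) ≤ Fintype.card R := by exact_mod_cast Nat.succ_le_of_lt Fintype.card_pos
  induction S using Finset.induction_on with
  | empty =>
    simp [badSet]
  | insert i S hi ih =>
    have ih' := ih (fun j hj => hd j (Finset.mem_insert_of_mem hj))
      (fun j hj j' hj' => hdisj j (Finset.mem_insert_of_mem hj) j' (Finset.mem_insert_of_mem hj'))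
    have h1 := card_le_overwrite (B i) z (badSet z B S) (by
      intro y hy
      simp only [badSet, Finset.mem_filter, Finset.mem_univ, true_and] at hy ⊢
      intro j hj
      obtain ⟨p, hp, hpz⟩ := hy j hj
      refine ⟨p, hp, ?_⟩
      have hij : i ≠ j := by rintro rfl; exact hi hj
      have hdj := hdisj i (Finset.mem_insert_self _ _) j (Finset.mem_insert_of_mem hj) hij
      have hpi : p ∉ B i := fun hpi => (Finset.disjoint_left.1 hdj hpi) hp
      simpa [ow, hpi] using hpz)
    have h2 : badSet z B (insert i S) = (badSet z B S).filter (fun y => ¬ ∀ p ∈ B i, y p = z p) := by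
      ext y
      simp only [badSet, Finset.mem_filter, Finset.mem_univ, true_and, Finset.mem_insert,
        forall_eq_or_imp]
      push Not
      tauto
    have h3 := Finset.card_filter_add_card_filter_not (s := badSet z B S)
      (fun y => ∀ p ∈ B i, y p = z p)
    rw [← h2] at h3
    have h4 : ((badSet z B S).card : ℝ) ≤
        (Fintype.card R : ℝ) ^ d * ((badSet z B S).filter (fun y => ∀ p ∈ B i, y p = z p)).card := by
      have h5 : ((badSet z B S).card : ℝ) ≤ (Fintype.card R : ℝ) ^ (B i).card *
          ((badSet z B S).filter (fun y => ∀ p ∈ B i, y p = z p)).card := by exact_mod_cast h1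
      refine h5.trans ?_
      apply mul_le_mul_of_nonneg_right _ (Nat.cast_nonneg _)
      exact pow_le_pow_right₀ hc1 (hd i (Finset.mem_insert_self _ _))
    have h6 : ((badSet z B (insert i S)).card : ℝ) = (badSet z B S).card -
        ((badSet z B S).filter (fun y => ∀ p ∈ B i, y p = z p)).card := by
      have : (((badSet z B S).filter (fun y => ∀ p ∈ B i, y p = z p)).card : ℝ) +
        (badSet z B (insert i S)).card = (badSet z B S).card := by exact_mod_cast h3
      linarith
    rw [h6, Finset.card_insert_of_notMem hi, pow_succ]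
    have hcd : (0 : ℝ) < (Fintype.card R : ℝ) ^ d := pow_pos hc d
    have h7 : ((badSet z B S).card : ℝ) / (Fintype.card R : ℝ) ^ d ≤
        ((badSet z B S).filter (fun y => ∀ p ∈ B i, y p = z p)).card := by
      rw [div_le_iff₀ hcd]; linarith [h4, mul_comm ((Fintype.card R : ℝ) ^ d)
        (((badSet z B S).filter (fun y => ∀ p ∈ B i, y p = z p)).card : ℝ)]
    have h8 : 0 ≤ 1 - 1 / (Fintype.card R : ℝ) ^ d := by
      rw [sub_nonneg, div_le_one hcd]
      exact one_le_pow₀ hc1
    calc ((badSet z B S).card : ℝ) -
          ((badSet z B S).filter (fun y => ∀ p ∈ B i, y p = z p)).card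
        ≤ (badSet z B S).card - (badSet z B S).card / (Fintype.card R : ℝ) ^ d := by linarith
      _ = (1 - 1 / (Fintype.card R : ℝ) ^ d) * (badSet z B S).card := by ring
      _ ≤ (1 - 1 / (Fintype.card R : ℝ) ^ d) *
          ((1 - 1 / (Fintype.card R : ℝ) ^ d) ^ S.card * Fintype.card (P → R)) :=
          mul_le_mul_of_nonneg_left ih' h8
      _ = _ := by ring

/-- number of functions that agree with `z` on `A` -/
theorem card_agree_ge (A : Finset P) (z : P → R) :
    Fintype.card (P → R) ≤ Fintype.card R ^ A.card *
      ((Finset.univ : Finset (P → R)).filter (fun y => ∀ p ∈ A, y p = z p)).card := by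
  have := card_le_overwrite A z Finset.univ (fun y _ => Finset.mem_univ _)
  rwa [Finset.card_univ] at this

/-- number of functions whose graph contains `A` -/
theorem card_graph_le {N K : Type} [Fintype N] [DecidableEq N] [Fintype K] [DecidableEq K]
    (A : Finset (N × K)) :
    ((Finset.univ : Finset (N → K)).filter (fun x => ∀ p ∈ A, x p.1 = p.2)).card *
      Fintype.card K ^ A.card ≤ Fintype.card (N → K) := by
  classical
  by_cases hne : ∃ x0 : N → K, ∀ p ∈ A, x0 p.1 = p.2
  swap
  · push Not at hne
    have : (Finset.univ : Finset (N → K)).filter (fun x => ∀ p ∈ A, x p.1 = p.2) = ∅ := by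
      rw [Finset.filter_eq_empty_iff]
      intro x _ hx
      obtain ⟨p, hp, hne⟩ := hne x
      exact hne (hx p hp)
    rw [this]; simp
  obtain ⟨x0, hx0⟩ := hne
  have hA : A.card = (A.image Prod.fst).card := by
    rw [Finset.card_image_of_injOn]
    intro p hp q hq hpq
    have h1 := hx0 p hp
    have h2 := hx0 q hq
    ext
    · exact hpq
    · rw [← h1, ← h2, hpq]
  rw [hA]
  have h3 : ((Finset.univ : Finset (N → K)).filter (fun x => ∀ p ∈ A, x p.1 = p.2)).card *
      Fintype.card K ^ (A.image Prod.fst).card =
      (((Finset.univ : Finset (N → K)).filter (fun x => ∀ p ∈ A, x p.1 = p.2)) ×ˢ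
        (Finset.univ : Finset ((A.image Prod.fst) → K))).card := by
    rw [Finset.card_product, Finset.card_univ, Fintype.card_fun, Fintype.card_coe]
  rw [h3, ← Finset.card_univ]
  apply Finset.card_le_card_of_injOn
    (fun xg n => if hn : n ∈ A.image Prod.fst then xg.2 ⟨n, hn⟩ else xg.1 n)
  · intro y _; simp
  · rintro ⟨x, g⟩ hx ⟨x', g'⟩ hx' hyy
    simp only [Finset.coe_product, Set.mem_prod, Finset.coe_filter, Set.mem_ofPred_eq,
      Finset.mem_univ, true_and, Finset.coe_univ, Set.mem_univ, and_true] at hx hx'
    have hg : g = g' := by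
      funext n
      have := congrFun hyy n.1
      simpa [n.2] using this
    have hxx : x = x' := by
      funext n
      by_cases hn : n ∈ A.image Prod.fst
      · obtain ⟨p, hp, rfl⟩ := Finset.mem_image.1 hn
        rw [hx p hp, hx' p hp]
      · have := congrFun hyy n
        simpa [hn] using this
    rw [hg, hxx]

end Pool.Agent.MP_6216ea_lc
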