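import Mathlib

/-!
# The sunflower lemma
-/

set_option autoImplicit false

namespace Pool.Agent.MP_6216ea_lc

/-- r sets of F of which any two meet exactly in the common part K -/
def HasSunflower {α : Type} [DecidableEq α] (r : ℕ) (F : Finset (Finset α)) : Prop :=
  ∃ K : Finset α, ∃ S : Finset (Finset α), S ⊆ F ∧ S.card = r ∧ (∀ A ∈ S, K ⊆ A) ∧
    (∀ A ∈ S, ∀ B ∈ S, A ≠ B → Disjoint (A \ K) (B \ K))

theorem card_le_of_no_sunflower {α : Type} [DecidableEq α] (r j : ℕ) (hr : 1 ≤ r)
    (F : Finset (Finset α)) (hF : ∀ A ∈ F, A.card = j) (h : ¬ HasSunflower r F) :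
    F.card ≤ (j * r) ^ j := by
  induction j generalizing F with
  | zero =>
    rw [pow_zero, Finset.card_le_one]
    intro A hA B hB
    rw [Finset.card_eq_zero.mp (hF A hA), Finset.card_eq_zero.mp (hF B hB)]
  | succ j ih =>
    classical
    -- a maximal pairwise disjoint subfamily
    let P : Finset (Finset (Finset α)) := F.powerset.filter
      (fun S => ∀ A ∈ S, ∀ B ∈ S, A ≠ B → Disjoint A B)
    have hP : P.Nonempty := ⟨∅, by simp [P]⟩
    obtain ⟨S, hS, hmax⟩ := P.exists_max_image Finset.card hP
    rw [Finset.mem_filter, Finset.mem_powerset] at hS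
    obtain ⟨hSF, hdis⟩ := hS
    have hSr : S.card < r := by
      by_contra hcon
      push Not at hcon
      obtain ⟨S', hS', hc⟩ := Finset.exists_subset_card_eq hcon
      exact h ⟨∅, S', hS'.trans hSF, hc, fun A _ => Finset.empty_subset A, fun A hA B hB hAB => by
        simpa using hdis A (hS' hA) B (hS' hB) hAB⟩
    set U : Finset α := S.biUnion id with hU
    have hUc : U.card ≤ r * (j + 1) := by
      calc U.card ≤ S.card * (j + 1) :=
            Finset.card_biUnion_le_card_mul _ _ _ fun A hA => (hF A (hSF hA)).le
        _ ≤ r * (j + 1) := Nat.mul_le_mul_right _ hSr.le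
    have hmeet : ∀ A ∈ F, ∃ p ∈ U, p ∈ A := by
      intro A hA
      by_contra hcon
      push Not at hcon
      have hAne : A.Nonempty := by
        rw [← Finset.card_pos, hF A hA]
        omega
      have hAS : A ∉ S := by
        intro hAS
        obtain ⟨p, hp⟩ := hAne
        exact hcon p (Finset.mem_biUnion.mpr ⟨A, hAS, hp⟩) hp
      have hAd : ∀ B ∈ S, Disjoint A B := by
        intro B hB
        rw [Finset.disjoint_left]
        intro p hpA hpB
        exact hcon p (Finset.mem_biUnion.mpr ⟨B, hB, hpB⟩) hpA
      have h1 : insert A S ∈ P := by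
        rw [Finset.mem_filter, Finset.mem_powerset]
        refine ⟨Finset.insert_subset hA hSF, ?_⟩
        intro B hB C hC hBC
        rw [Finset.mem_insert] at hB hC
        rcases hB with rfl | hB <;> rcases hC with rfl | hC
        · exact absurd rfl hBC
        · exact hAd C hC
        · exact (hAd B hB).symm
        · exact hdis B hB C hC hBC
      have h2 := hmax _ h1
      rw [Finset.card_insert_of_notMem hAS] at h2
      omega
    -- the links
    have hlink : ∀ p ∈ U, (F.filter (fun A => p ∈ A)).card ≤ (j * r) ^ j := by
      intro p _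
      set G : Finset (Finset α) := (F.filter (fun A => p ∈ A)).image (fun A => A.erase p) with hG
      have hinj : Set.InjOn (fun A : Finset α => A.erase p) (F.filter (fun A => p ∈ A)) := by
        intro A hA B hB hAB
        rw [Finset.mem_coe, Finset.mem_filter] at hA hB
        have := congrArg (insert p) hAB
        simpa [Finset.insert_erase hA.2, Finset.insert_erase hB.2] using this
      have hGc : G.card = (F.filter (fun A => p ∈ A)).card := Finset.card_image_of_injOn hinj
      rw [← hGc]
      apply ih G
      · intro A hA
        obtain ⟨B, hB, rfl⟩ := Finset.mem_image.mp hA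
        rw [Finset.mem_filter] at hB
        rw [Finset.card_erase_of_mem hB.2, hF B hB.1]
        rfl
      · rintro ⟨K, S', hS', hc, hK, hd⟩
        have hnot : ∀ A ∈ S', p ∉ A := by
          intro A hA
          obtain ⟨B, -, rfl⟩ := Finset.mem_image.mp (hS' hA)
          exact Finset.notMem_erase p B
        apply h
        refine ⟨insert p K, S'.image (fun A => insert p A), ?_, ?_, ?_, ?_⟩
        · intro A hA
          obtain ⟨B, hB, rfl⟩ := Finset.mem_image.mp hA
          obtain ⟨C, hC, rfl⟩ := Finset.mem_image.mp (hS' hB)
          rw [Finset.mem_filter] at hC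
          simpa [Finset.insert_erase hC.2] using hC.1
        · rw [Finset.card_image_of_injOn, hc]
          intro A hA B hB hAB
          have := congrArg (fun C => Finset.erase C p) hAB
          simpa [Finset.erase_insert (hnot A hA), Finset.erase_insert (hnot B hB)] using this
        · intro A hA
          obtain ⟨B, hB, rfl⟩ := Finset.mem_image.mp hA
          exact Finset.insert_subset_insert p (hK B hB)
        · intro A hA B hB hAB
          obtain ⟨A', hA', rfl⟩ := Finset.mem_image.mp hA
          obtain ⟨B', hB', rfl⟩ := Finset.mem_image.mp hB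
          have hne : A' ≠ B' := fun e => hAB (by rw [e])
          have := hd A' hA' B' hB' hne
          rw [Finset.disjoint_left] at this ⊢
          intro x hx hy
          simp only [Finset.mem_sdiff, Finset.mem_insert, not_or] at hx hy
          apply this (a := x)
          · rw [Finset.mem_sdiff]
            tauto
          · rw [Finset.mem_sdiff]
            tauto
    have hcover : F ⊆ U.biUnion (fun p => F.filter (fun A => p ∈ A)) := by
      intro A hA
      obtain ⟨p, hp, hpA⟩ := hmeet A hA
      exact Finset.mem_biUnion.mpr ⟨p, hp, Finset.mem_filter.mpr ⟨hA, hpA⟩⟩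
    calc F.card ≤ (U.biUnion (fun p => F.filter (fun A => p ∈ A))).card :=
          Finset.card_le_card hcover
      _ ≤ U.card * (j * r) ^ j := Finset.card_biUnion_le_card_mul _ _ _ hlink
      _ ≤ (r * (j + 1)) * (j * r) ^ j := Nat.mul_le_mul_right _ hUc
      _ ≤ (r * (j + 1)) * ((j + 1) * r) ^ j := by gcongr; omega
      _ = ((j + 1) * r) ^ (j + 1) := by ring

end Pool.Agent.MP_6216ea_lc
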