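import Mathlib

set_option autoImplicit false

namespace Pool.Agent.MP_6216ea_lc

/-- Variables of the tree function: `(v, b, a, a')` says that state `a` at the node `v` may be
joined with state `a'` at its child `b :: v`. -/
abbrev Var (k : ℕ) : Type := List Bool × Bool × Fin k × Fin k

/-- State `a` at node `v` can be extended to the subtree of height `m` below `v`. -/
def G {k : ℕ} (X : Var k → Prop) : ℕ → List Bool → Fin k → Prop
  | 0, _, _ => True
  | m + 1, v, a => ∀ b : Bool, ∃ a' : Fin k, X (v, b, a, a') ∧ G X m (b :: v) a'

/-- One step along an open edge. -/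
def Step {k : ℕ} {V : Type} (E : V → Option (Var k) → V → Prop) (X : Var k → Prop) (u v : V) :
    Prop := ∃ l, E u l v ∧ ∀ i ∈ l, X i

/-- Reachability along open edges. -/
def Reach {k : ℕ} {V : Type} (E : V → Option (Var k) → V → Prop) (X : Var k → Prop) (s t : V) :
    Prop := Relation.ReflTransGen (Step E X) s t

end Pool.Agent.MP_6216ea_lc
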