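import Mathlib

set_option autoImplicit false

namespace Pool.Agent.MP_6216ea_lc

/-- `SW m n`: the integer `n` is a signed sum of at most `m` powers of two. -/
inductive SW : ℕ → ℤ → Prop
  | zero : SW 0 0
  | dbl {m : ℕ} {n : ℤ} : SW m n → SW m (2 * n)
  | succ {m : ℕ} {n : ℤ} : SW m n → SW (m + 1) (n + 1)
  | pred {m : ℕ} {n : ℤ} : SW m n → SW (m + 1) (n - 1)
  | weak {m : ℕ} {n : ℤ} : SW m n → SW (m + 1) n

theorem SW.mono {m m' : ℕ} {n : ℤ} (h : SW m n) (hm : m ≤ m') : SW m' n := by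
  induction hm with
  | refl => exact h
  | step _ ih => exact ih.weak

theorem SW.inv {m : ℕ} {n : ℤ} (h : SW m n) :
    (∀ j : ℤ, n = 2 * j → SW m j) ∧
    (∀ j : ℤ, n = 2 * j + 1 → ∃ m', m = m' + 1 ∧ (SW m' j ∨ SW m' (j + 1))) := by
  induction h with
  | zero =>
    refine ⟨fun j hj => ?_, fun j hj => ?_⟩
    · have : j = 0 := by omega
      subst this; exact SW.zero
    · omega
  | @dbl m n h ih =>
    refine ⟨fun j hj => ?_, fun j hj => ?_⟩
    · have : j = n := by omega
      subst this; exact h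
    · omega
  | @succ m n h ih =>
    refine ⟨fun j hj => ?_, fun j hj => ?_⟩
    · obtain ⟨m', rfl, h1 | h1⟩ := ih.2 (j - 1) (by omega)
      · have := h1.succ.weak
        simpa using this
      · have := h1.weak.weak
        simpa using this
    · exact ⟨m, rfl, Or.inl (ih.1 j (by omega))⟩
  | @pred m n h ih =>
    refine ⟨fun j hj => ?_, fun j hj => ?_⟩
    · obtain ⟨m', rfl, h1 | h1⟩ := ih.2 j (by omega)
      · exact h1.weak.weak
      · have := h1.pred.weak
        simpa using this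
    · exact ⟨m, rfl, Or.inr (ih.1 (j + 1) (by omega))⟩
  | @weak m n h ih =>
    refine ⟨fun j hj => (ih.1 j hj).weak, fun j hj => ?_⟩
    obtain ⟨m', rfl, h1 | h1⟩ := ih.2 j hj
    · exact ⟨m' + 1, rfl, Or.inl h1.weak⟩
    · exact ⟨m' + 1, rfl, Or.inr h1.weak⟩

theorem SW.inv4 {m : ℕ} {j : ℤ} (h : SW m (4 * j + 1)) : ∃ m', m = m' + 1 ∧ SW m' j := by
  obtain ⟨m', rfl, h1 | h1⟩ := h.inv.2 (2 * j) (by ring)
  · exact ⟨m', rfl, h1.inv.1 j rfl⟩
  · obtain ⟨m'', rfl, h2 | h2⟩ := h1.inv.2 j rfl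
    · exact ⟨m'' + 1, rfl, h2.weak⟩
    · refine ⟨m'' + 1, rfl, ?_⟩
      have := h2.pred
      simpa using this

/-- `1 + 4 + ... + 4^(t-1)` -/
def crit : ℕ → ℕ
  | 0 => 0
  | t + 1 => 4 * crit t + 1

theorem SW.crit_le {t m : ℕ} (h : SW m (crit t : ℤ)) : t ≤ m := by
  induction t generalizing m with
  | zero => exact Nat.zero_le _
  | succ t ih =>
    have h' : SW m (4 * (crit t : ℤ) + 1) := by simpa [crit] using h
    obtain ⟨m', rfl, h1⟩ := h'.inv4
    exact Nat.succ_le_succ (ih h1)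

theorem crit_lt (t : ℕ) : crit t < 4 ^ t := by
  induction t with
  | zero => simp [crit]
  | succ t ih => simp only [crit, pow_succ]; omega

theorem SW.add_nat {m : ℕ} {n : ℤ} (h : SW m n) (a : ℕ) : SW (m + a) (n + a) := by
  induction a with
  | zero => simpa using h
  | succ a ih =>
    have e : n + ((a + 1 : ℕ) : ℤ) = n + a + 1 := by push_cast; ring
    rw [e]
    exact ih.succ

theorem SW.sub_nat {m : ℕ} {n : ℤ} (h : SW m n) (a : ℕ) : SW (m + a) (n - a) := by
  induction a with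
  | zero => simpa using h
  | succ a ih =>
    have e : n - ((a + 1 : ℕ) : ℤ) = n - a - 1 := by push_cast; ring
    rw [e]
    exact ih.pred

theorem SW.add_int {m : ℕ} {n : ℤ} (h : SW m n) (a : ℤ) : SW (m + a.natAbs) (n + a) := by
  rcases Int.natAbs_eq a with ha | ha
  · have := h.add_nat a.natAbs
    rwa [← ha] at this
  · have := h.sub_nat a.natAbs
    have e : n - (a.natAbs : ℤ) = n + a := by omega
    rwa [e] at this

end Pool.Agent.MP_6216ea_lc
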