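import Mathlib
import Pool.Agent.Lib.MP_6216ea_lc.Signed

set_option autoImplicit false

namespace Pool.Agent.MP_6216ea_lc

/-- The nodes of depth `j` of the binary tree: the lists of Booleans of length `j`
(the children of `v` are `false :: v` and `true :: v`). -/
def lv : ℕ → Finset (List Bool)
  | 0 => {[]}
  | j + 1 => (lv j).image (List.cons false) ∪ (lv j).image (List.cons true)

theorem mem_lv {j : ℕ} {l : List Bool} : l ∈ lv j ↔ l.length = j := by
  induction j generalizing l with
  | zero => simp [lv]
  | succ j ih =>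
    cases l with
    | nil => simp [lv]
    | cons b v =>
      simp only [lv, Finset.mem_union, Finset.mem_image, List.length_cons, Nat.add_right_cancel_iff]
      constructor
      · rintro (⟨a, ha, hab⟩ | ⟨a, ha, hab⟩)
        · rw [ih] at ha; simp only [List.cons.injEq] at hab; rw [← hab.2]; exact ha
        · rw [ih] at ha; simp only [List.cons.injEq] at hab; rw [← hab.2]; exact ha
      · intro h
        cases b
        · exact Or.inl ⟨v, ih.2 h, rfl⟩
        · exact Or.inr ⟨v, ih.2 h, rfl⟩

theorem disj_lv (j : ℕ) :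
    Disjoint ((lv j).image (List.cons false)) ((lv j).image (List.cons true)) := by
  rw [Finset.disjoint_left]
  intro a ha hb
  simp only [Finset.mem_image] at ha hb
  obtain ⟨x, _, rfl⟩ := ha
  obtain ⟨y, _, hy⟩ := hb
  simp at hy

theorem sum_lv_succ {M : Type} [AddCommMonoid M] (j : ℕ) (f : List Bool → M) :
    ∑ w ∈ lv (j + 1), f w = ∑ v ∈ lv j, (f (false :: v) + f (true :: v)) := by
  have h : lv (j + 1) = (lv j).image (List.cons false) ∪ (lv j).image (List.cons true) := rfl
  rw [h, Finset.sum_union (disj_lv j), Finset.sum_image, Finset.sum_image,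
    Finset.sum_add_distrib]
  · intro a _ b _ hab; simpa using hab
  · intro a _ b _ hab; simpa using hab

theorem card_lv (j : ℕ) : (lv j).card = 2 ^ j := by
  induction j with
  | zero => simp [lv]
  | succ j ih =>
    have := sum_lv_succ j (fun _ => (1 : ℕ))
    simp only [Finset.sum_const, smul_eq_mul, mul_one] at this
    rw [this, ih, pow_succ]

/-- The nodes of the complete binary tree of height `h`. -/
def nodes (h : ℕ) : Finset (List Bool) := (Finset.range (h + 1)).biUnion lv

theorem mem_nodes {h : ℕ} {l : List Bool} : l ∈ nodes h ↔ l.length ≤ h := by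
  simp only [nodes, Finset.mem_biUnion, Finset.mem_range, mem_lv]
  constructor
  · rintro ⟨a, ha, rfl⟩; omega
  · intro hl; exact ⟨l.length, by omega, rfl⟩

theorem card_nodes_le (h : ℕ) : (nodes h).card ≤ 2 ^ (h + 1) := by
  refine Finset.card_biUnion_le.trans ?_
  simp only [card_lv]
  have := Nat.geomSum_eq (m := 2) le_rfl (h + 1)
  rw [this]
  simp

/-- The direction, seen from the node `v`, of the edge above the node `w`: `some b` if this edge
lies in the subtree of the child `b :: v` or is the edge to it, `none` (up) otherwise. -/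
def dir (v w : List Bool) : Option Bool :=
  if (true :: v) <:+ w then some true else if (false :: v) <:+ w then some false else none

theorem suffix_unique {b c : Bool} {v w : List Bool} (h1 : (b :: v) <:+ w) (h2 : (c :: v) <:+ w) :
    b = c := by
  have h3 := List.suffix_of_suffix_length_le h1 h2 (by simp)
  have h4 := h3.eq_of_length (by simp)
  simpa using h4

theorem dir_eq_some {v w : List Bool} {b : Bool} : dir v w = some b ↔ (b :: v) <:+ w := by
  unfold dir
  by_cases h1 : (true :: v) <:+ w
  · rw [if_pos h1]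
    constructor
    · intro h; simp only [Option.some.injEq] at h; rw [← h]; exact h1
    · intro h; rw [suffix_unique h1 h]
  · rw [if_neg h1]
    by_cases h2 : (false :: v) <:+ w
    · rw [if_pos h2]
      constructor
      · intro h; simp only [Option.some.injEq] at h; rw [← h]; exact h2
      · intro h; rw [suffix_unique h2 h]
    · rw [if_neg h2]
      constructor
      · intro h; simp at h
      · intro h; cases b
        · exact absurd h h2
        · exact absurd h h1

theorem dir_congr {u w w' : List Bool} (h : ∀ c : Bool, (c :: u) <:+ w ↔ (c :: u) <:+ w') :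
    dir u w = dir u w' := by
  ext c
  simp only [dir_eq_some, h]

theorem dir_cons_of_ne {u v : List Bool} (b : Bool) (h : u ≠ v) : dir u (b :: v) = dir u v := by
  apply dir_congr
  intro c
  rw [List.suffix_cons_iff]
  constructor
  · rintro (h1 | h1)
    · simp only [List.cons.injEq] at h1; exact absurd h1.2 h
    · exact h1
  · exact Or.inr

theorem dir_crit {v w : List Bool} {b : Bool} (hw : w ≠ b :: v) (h : dir v w = some b) :
    dir (b :: v) w ≠ none := by
  rw [dir_eq_some] at h
  obtain ⟨u, hu⟩ := h
  rcases List.eq_nil_or_concat u with rfl | ⟨u', c, rfl⟩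
  · exact absurd hu.symm hw
  · have : (c :: b :: v) <:+ w := ⟨u', by simp [← hu]⟩
    rw [dir_eq_some.2 this]
    simp

theorem dir_root {w : List Bool} (hw : w ≠ []) : dir [] w ≠ none := by
  rcases List.eq_nil_or_concat w with rfl | ⟨u', c, rfl⟩
  · exact absurd rfl hw
  · have : ([c] : List Bool) <:+ u'.concat c := ⟨u', by simp⟩
    rw [dir_eq_some.2 this]
    simp

theorem dir_leaf {v w : List Bool} (h : w.length ≤ v.length) : dir v w = none := by
  by_contra hne
  obtain ⟨b, hb⟩ := Option.ne_none_iff_exists'.1 hne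
  rw [dir_eq_some] at hb
  have := hb.length_le
  simp only [List.length_cons] at this
  omega

/-- `Q` does not distinguish two edges (named by their lower nodes) that are seen in the same
direction from all nodes of `I`. -/
def Saturated (h : ℕ) (I : Finset (List Bool)) (Q : Finset (List Bool)) : Prop :=
  (∀ w ∈ Q, w ≠ [] ∧ w.length ≤ h) ∧
  ∀ w w' : List Bool, w ∈ Q → w' ≠ [] → w'.length ≤ h → (∀ v ∈ I, dir v w = dir v w') → w' ∈ Q

/-- The edges `p` that differ from the edge above them with respect to membership in `Q`. -/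
def bd (h : ℕ) (Q : Finset (List Bool)) : Finset (List Bool) :=
  (nodes h).filter (fun p => p ≠ [] ∧ ¬ (p ∈ Q ↔ p.tail ∈ Q))

theorem Saturated.bd_tail {h : ℕ} {I Q : Finset (List Bool)} (hQ : Saturated h I Q) {b : Bool}
    {v : List Bool} (hp : (b :: v) ∈ bd h Q) : v ∈ insert [] I := by
  rw [Finset.mem_insert]
  by_contra hcon
  push Not at hcon
  obtain ⟨hv0, hvI⟩ := hcon
  simp only [bd, Finset.mem_filter, mem_nodes, List.length_cons, List.tail_cons] at hp
  obtain ⟨hlen, _, hiff⟩ := hp
  apply hiff
  have hd : ∀ u ∈ I, dir u (b :: v) = dir u v := by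
    intro u hu
    apply dir_cons_of_ne
    rintro rfl
    exact hvI hu
  constructor
  · intro hb
    exact hQ.2 _ _ hb hv0 (by omega) hd
  · intro hb
    exact hQ.2 _ _ hb (by simp) (by simpa using hlen) (fun u hu => (hd u hu).symm)

theorem Saturated.card_bd {h : ℕ} {I Q : Finset (List Bool)} (hQ : Saturated h I Q) :
    (bd h Q).card ≤ 2 * (I.card + 1) := by
  have hsub : bd h Q ⊆ (insert [] I).image (List.cons false) ∪
      (insert [] I).image (List.cons true) := by
    intro p hp
    have hp0 : p ≠ [] := by
      simp only [bd, Finset.mem_filter] at hp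
      exact hp.2.1
    obtain ⟨b, v, rfl⟩ := List.exists_cons_of_ne_nil hp0
    have hv := hQ.bd_tail hp
    simp only [Finset.mem_union, Finset.mem_image]
    cases b
    · exact Or.inl ⟨v, hv, rfl⟩
    · exact Or.inr ⟨v, hv, rfl⟩
  calc (bd h Q).card ≤ _ := Finset.card_le_card hsub
    _ ≤ _ := Finset.card_union_le _ _
    _ ≤ (insert [] I).card + (insert [] I).card :=
        Nat.add_le_add Finset.card_image_le Finset.card_image_le
    _ ≤ 2 * (I.card + 1) := by
        have := Finset.card_insert_le ([] : List Bool) I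
        omega

/-- `Q` is determined by its boundary. -/
theorem bd_injective {h : ℕ} {Q Q' : Finset (List Bool)}
    (hQ : ∀ w ∈ Q, w ≠ [] ∧ w.length ≤ h) (hQ' : ∀ w ∈ Q', w ≠ [] ∧ w.length ≤ h)
    (hb : bd h Q = bd h Q') : Q = Q' := by
  ext p
  induction p with
  | nil =>
    constructor
    · intro hp; exact absurd rfl (hQ _ hp).1
    · intro hp; exact absurd rfl (hQ' _ hp).1
  | cons b v ih =>
    by_cases hlen : (b :: v).length ≤ h
    · have h1 : (b :: v) ∈ bd h Q ↔ (b :: v) ∈ bd h Q' := by rw [hb]
      simp only [bd, Finset.mem_filter, mem_nodes, hlen, true_and, ne_eq, reduceCtorEq,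
        not_false_eq_true, List.tail_cons] at h1
      tauto
    · constructor
      · intro hp; exact absurd (hQ _ hp).2 hlen
      · intro hp; exact absurd (hQ' _ hp).2 hlen

/-- The number of leaf edges in `Q`. -/
def wt (h : ℕ) (Q : Finset (List Bool)) : ℕ := ((lv h).filter (· ∈ Q)).card

theorem sum_ite_abs_le (s : Finset (List Bool)) (Q : Finset (List Bool)) (b : Bool) :
    (∑ v ∈ s, ((if b :: v ∈ Q then (1 : ℤ) else 0) - (if v ∈ Q then 1 else 0))).natAbs ≤
      (s.filter (fun v => ¬ (b :: v ∈ Q ↔ v ∈ Q))).card := by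
  refine (Int.natAbs_sum_le _ _).trans ?_
  rw [Finset.card_filter]
  apply Finset.sum_le_sum
  intro v _
  by_cases h1 : b :: v ∈ Q <;> by_cases h2 : v ∈ Q <;> simp [h1, h2]

theorem wt_eq_sum (h : ℕ) (Q : Finset (List Bool)) :
    (wt h Q : ℤ) = ∑ w ∈ lv h, (if w ∈ Q then (1 : ℤ) else 0) := by
  unfold wt
  rw [Finset.card_filter]
  push_cast
  rfl

theorem wt_SW_aux (h : ℕ) (Q : Finset (List Bool)) (hQ : ([] : List Bool) ∉ Q) (j : ℕ) :
    SW (∑ i ∈ Finset.range j, ∑ b : Bool,
      ((lv i).filter (fun v => ¬ (b :: v ∈ Q ↔ v ∈ Q))).card)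
      (wt j Q : ℤ) := by
  induction j with
  | zero =>
    have : (wt 0 Q : ℤ) = 0 := by
      simp [wt, lv, hQ]
    rw [this]
    simpa using SW.zero
  | succ j ih =>
    rw [Finset.sum_range_succ, wt_eq_sum, sum_lv_succ]
    have e : ∑ v ∈ lv j, ((if false :: v ∈ Q then (1 : ℤ) else 0) +
        (if true :: v ∈ Q then (1 : ℤ) else 0)) =
        (2 * (wt j Q : ℤ) +
          ∑ v ∈ lv j, ((if false :: v ∈ Q then (1 : ℤ) else 0) - (if v ∈ Q then 1 else 0))) +
          ∑ v ∈ lv j, ((if true :: v ∈ Q then (1 : ℤ) else 0) - (if v ∈ Q then 1 else 0)) := by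
      rw [wt_eq_sum, Finset.sum_add_distrib, Finset.sum_sub_distrib, Finset.sum_sub_distrib]
      ring
    rw [e]
    refine ((ih.dbl.add_int _).add_int _).mono ?_
    simp only [Fintype.univ_bool, Finset.mem_singleton, Bool.true_eq_false, not_false_eq_true,
      Finset.sum_insert, Finset.sum_singleton]
    have h1 := sum_ite_abs_le (lv j) Q false
    have h2 := sum_ite_abs_le (lv j) Q true
    omega

theorem Saturated.wt_SW {h : ℕ} {I Q : Finset (List Bool)} (hQ : Saturated h I Q) :
    SW (2 * (I.card + 1)) (wt h Q : ℤ) := by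
  have h0 : ([] : List Bool) ∉ Q := fun h0 => (hQ.1 _ h0).1 rfl
  refine (wt_SW_aux h Q h0 h).mono ?_
  rw [Finset.sum_comm]
  have key : ∀ b : Bool, ∑ i ∈ Finset.range h,
      ((lv i).filter (fun v => ¬ (b :: v ∈ Q ↔ v ∈ Q))).card ≤ I.card + 1 := by
    intro b
    rw [← Finset.card_biUnion]
    · refine (Finset.card_le_card (t := insert [] I) ?_).trans (Finset.card_insert_le _ _)
      intro v hv
      simp only [Finset.mem_biUnion, Finset.mem_range, Finset.mem_filter, mem_lv] at hv
      obtain ⟨i, hi, hvi, hiff⟩ := hv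
      apply hQ.bd_tail (b := b)
      simp only [bd, Finset.mem_filter, mem_nodes, List.length_cons, ne_eq, reduceCtorEq,
        not_false_eq_true, List.tail_cons, true_and]
      exact ⟨by omega, hiff⟩
    · intro i _ i' _ hii
      rw [Function.onFun, Finset.disjoint_left]
      intro v hv hv'
      simp only [Finset.mem_filter, mem_lv] at hv hv'
      exact hii (hv.1.symm.trans hv'.1)
  rw [Fintype.sum_bool]
  have h1 := key true
  have h2 := key false
  omega

theorem wt_sdiff_le (h : ℕ) (Q Q' : Finset (List Bool)) (e : List Bool)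
    (hsub : ∀ w ∈ Q, w ≠ e → w ∈ Q') : wt h Q ≤ wt h Q' + 1 := by
  unfold wt
  have : (lv h).filter (· ∈ Q) ⊆ insert e ((lv h).filter (· ∈ Q')) := by
    intro w hw
    simp only [Finset.mem_filter, Finset.mem_insert] at hw ⊢
    by_cases hwe : w = e
    · exact Or.inl hwe
    · exact Or.inr ⟨hw.1, hsub w hw.2 hwe⟩
  exact (Finset.card_le_card this).trans (Finset.card_insert_le _ _)

theorem wt_mono {h : ℕ} {Q Q' : Finset (List Bool)} (hsub : Q ⊆ Q') : wt h Q ≤ wt h Q' := by
  unfold wt
  apply Finset.card_le_card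
  intro w hw
  simp only [Finset.mem_filter] at hw ⊢
  exact ⟨hw.1, hsub hw.2⟩

end Pool.Agent.MP_6216ea_lc
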