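import Mathlib
import Pool.Agent.Lib.MP_6216ea_lc.Tree
import Pool.Agent.Lib.MP_6216ea_lc.MDefs

set_option autoImplicit false

namespace Pool.Agent.MP_6216ea_lc

variable {k : ℕ}

/-- The minterm of a state assignment. -/
def minX (x : List Bool → Fin k) : Var k → Prop := fun i => x i.1 = i.2.2.1 ∧ x (i.2.1 :: i.1) = i.2.2.2

theorem G_minX (x : List Bool → Fin k) (m : ℕ) (v : List Bool) : G (minX x) m v (x v) := by
  induction m generalizing v with
  | zero => trivial
  | succ m ih => exact fun b => ⟨x (b :: v), ⟨rfl, rfl⟩, ih _⟩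

/-- The effective label of a node: leaves always point up, the root never does. -/
def eff (h : ℕ) (v : List Bool) (l : Option Bool) : Option Bool :=
  if v.length = h then none else if v = [] ∧ l = none then some false else l

/-- The maxterm of a labelling: `X (v,b,a,a')` fails exactly if `(v,a)` points down to the child
`b` and `(b :: v, a')` points up. -/
def maxX (h : ℕ) (y : List Bool → Fin k → Option Bool) : Var k → Prop := fun i =>
  ¬ (eff h i.1 (y i.1 i.2.2.1) = some i.2.1 ∧
    eff h (i.2.1 :: i.1) (y (i.2.1 :: i.1) i.2.2.2) = none)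

theorem not_G_maxX (h : ℕ) (y : List Bool → Fin k → Option Bool) (m : ℕ) (v : List Bool)
    (hm : v.length + m = h) (a : Fin k) (ha : eff h v (y v a) ≠ none) :
    ¬ G (maxX h y) m v a := by
  induction m generalizing v a with
  | zero =>
    exfalso
    apply ha
    simp only [Nat.add_zero] at hm
    simp [eff, hm]
  | succ m ih =>
    intro hG
    obtain ⟨b, hb⟩ := Option.ne_none_iff_exists'.1 ha
    obtain ⟨a', hX, hG'⟩ := hG b
    refine ih (b :: v) (by simp; omega) a' ?_ hG'
    intro hn
    exact hX ⟨hb, hn⟩

theorem not_F_maxX (h : ℕ) (hh : h ≠ 0) (y : List Bool → Fin k → Option Bool) (a : Fin k) :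
    ¬ G (maxX h y) h [] a := by
  apply not_G_maxX h y h [] (by simp) a
  unfold eff
  rw [if_neg (by simpa using hh.symm)]
  split_ifs with h1
  · simp
  · intro h2; exact h1 ⟨rfl, h2⟩

theorem eff_dir {h : ℕ} {v w : List Bool} (hw : w ≠ []) (hwh : w.length ≤ h) :
    eff h v (dir v w) = dir v w := by
  unfold eff
  split_ifs with h1 h2
  · rw [dir_leaf (by omega)]
  · exact absurd h2.2 (by rw [h2.1]; exact dir_root hw)
  · rfl

end Pool.Agent.MP_6216ea_lc
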