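import Mathlib
import Pool.Agent.Lib.MP_6216ea_lc.Terms
import Pool.Agent.Lib.MP_6216ea_lc.Count
import Pool.Agent.Lib.MP_6216ea_lc.Sunflower

set_option autoImplicit false

namespace Pool.Agent.MP_6216ea_lc

open Classical Finset

noncomputable section

/-- Nodes of the tree of height `h` as a type. -/
abbrev Nd (h : ℕ) : Type := {v : List Bool // v ∈ nodes h}

/-- Positions: a node and a state. -/
abbrev Pos (h k : ℕ) : Type := Nd h × Fin k

variable {h k : ℕ} {V : Type}

/-- Extension of a labelling of the positions by `none`. -/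
def extY (y : Pos h k → Option Bool) : List Bool → Fin k → Option Bool := fun v a =>
  if hv : v ∈ nodes h then y (⟨v, hv⟩, a) else none

/-- Edges, named by their lower nodes. -/
def edges (h : ℕ) : Finset (List Bool) := (nodes h).filter (· ≠ [])

theorem mem_edges {h : ℕ} {w : List Bool} : w ∈ edges h ↔ w ≠ [] ∧ w.length ≤ h := by
  simp [edges, mem_nodes, and_comm]

/-- `y` is accepted by the fact `(A, w)`. -/
def Acc (A : Finset (Pos h k)) (w : List Bool) (y : Pos h k → Option Bool) : Prop :=
  ∀ p ∈ A, eff h p.1.1 (y p) = dir p.1.1 w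

/-- The labellings accepted by a fact `(u, A, w)` under which `u` is not reachable. -/
def Err (E : V → Option (Var k) → V → Prop) (s : V) (f : V × Finset (Pos h k) × List Bool) :
    Finset (Pos h k → Option Bool) :=
  univ.filter (fun y => Acc f.2.1 f.2.2 y ∧ ¬ Reach E (maxX h (extY y)) s f.1)

theorem mem_Err {E : V → Option (Var k) → V → Prop} {s u : V} {A : Finset (Pos h k)}
    {w : List Bool} {y : Pos h k → Option Bool} :
    y ∈ Err E s (u, A, w) ↔ Acc A w y ∧ ¬ Reach E (maxX h (extY y)) s u := by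
  simp [Err]

/-- The facts of width at most `d`. -/
def Facts (V : Type) [Fintype V] (h k d : ℕ) : Finset (V × Finset (Pos h k) × List Bool) :=
  univ ×ˢ ((univ.filter (fun A : Finset (Pos h k) => A.card ≤ d)) ×ˢ edges h)

theorem mem_Facts [Fintype V] {d : ℕ} {u : V} {A : Finset (Pos h k)} {w : List Bool} :
    (u, A, w) ∈ Facts V h k d ↔ A.card ≤ d ∧ w ∈ edges h := by
  simp [Facts]

/-- A maximal set of facts that are valid for most labellings. -/
theorem exists_approx [Fintype V] (E : V → Option (Var k) → V → Prop) (s : V) (d : ℕ) (δ : ℝ)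
    (hδ : 0 ≤ δ) :
    ∃ D : Finset (V × Finset (Pos h k) × List Bool), D ⊆ Facts V h k d ∧
      ((D.biUnion (Err E s)).card : ℝ) ≤ D.card * δ ∧
      ∀ f ∈ Facts V h k d, ∀ N : Finset (Pos h k → Option Bool), (N.card : ℝ) ≤ δ →
        Err E s f ⊆ D.biUnion (Err E s) ∪ N → f ∈ D := by
  let good : Finset (V × Finset (Pos h k) × List Bool) → Prop := fun D =>
    ((D.biUnion (Err E s)).card : ℝ) ≤ D.card * δ
  have hne : ((Facts V h k d).powerset.filter good).Nonempty := by
    refine ⟨∅, ?_⟩
    simp [good]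
  obtain ⟨D, hD, hmax⟩ := exists_max_image _ Finset.card hne
  rw [mem_filter, mem_powerset] at hD
  refine ⟨D, hD.1, hD.2, ?_⟩
  intro f hf N hN hsub
  by_contra hfD
  have hgood : good (insert f D) := by
    simp only [good]
    have h1 : (insert f D).biUnion (Err E s) ⊆ D.biUnion (Err E s) ∪ N := by
      rw [biUnion_insert]
      exact union_subset hsub subset_union_left
    have h2 := (card_le_card h1).trans (card_union_le _ _)
    have h3 : (((insert f D).biUnion (Err E s)).card : ℝ) ≤
        (D.biUnion (Err E s)).card + N.card := by exact_mod_cast h2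
    rw [card_insert_of_notMem hfD]
    push_cast
    have h4 : ((D.biUnion (Err E s)).card : ℝ) ≤ D.card * δ := hD.2
    linarith
  have := hmax (insert f D) (by
    rw [mem_filter, mem_powerset]
    exact ⟨insert_subset hf hD.1, hgood⟩)
  rw [card_insert_of_notMem hfD] at this
  omega

/-- The edges `w` for which the fact `(u, A, w)` is in `D`. -/
def QQ (h : ℕ) (D : Finset (V × Finset (Pos h k) × List Bool)) (u : V) (A : Finset (Pos h k)) :
    Finset (List Bool) := (edges h).filter (fun w => (u, A, w) ∈ D)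

theorem mem_QQ {D : Finset (V × Finset (Pos h k) × List Bool)} {u : V} {A : Finset (Pos h k)}
    {w : List Bool} : w ∈ QQ h D u A ↔ w ∈ edges h ∧ (u, A, w) ∈ D := by
  simp [QQ]

/-- All closure properties of the maximal set of facts. -/
structure Approx [Fintype V] (E : V → Option (Var k) → V → Prop) (s : V) (d r : ℕ) (δ : ℝ)
    (D : Finset (V × Finset (Pos h k) × List Bool)) : Prop where
  err : ((D.biUnion (Err E s)).card : ℝ) ≤ D.card * δ
  sub : D ⊆ Facts V h k d
  start : ∀ w ∈ edges h, (s, ∅, w) ∈ D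
  same : ∀ u A w w', (u, A, w) ∈ D → w' ∈ edges h → (∀ p ∈ A, dir p.1.1 w = dir p.1.1 w') →
    (u, A, w') ∈ D
  free : ∀ u u' A w, (u, A, w) ∈ D →
    (∀ y : Pos h k → Option Bool, Step E (maxX h (extY y)) u u') → (u', A, w) ∈ D
  step : ∀ u u' A w (v : List Bool) (b : Bool) (a a' : Fin k) (hv : v ∈ nodes h)
    (hbv : (b :: v) ∈ nodes h),
    (u, A, w) ∈ D → E u (some (v, b, a, a')) u' → w ≠ b :: v →
    (A ∪ {(⟨v, hv⟩, a), (⟨b :: v, hbv⟩, a')}).card ≤ d →
    (u', A ∪ {(⟨v, hv⟩, a), (⟨b :: v, hbv⟩, a')}, w) ∈ D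
  core : ∀ u K w (S : Finset (Finset (Pos h k))), w ∈ edges h → K.card ≤ d → S.card = r →
    (∀ A ∈ S, K ⊆ A) → (∀ A ∈ S, ∀ B ∈ S, A ≠ B → Disjoint (A \ K) (B \ K)) →
    (∀ A ∈ S, (u, A, w) ∈ D) → (u, K, w) ∈ D

theorem exists_Approx [Fintype V] (E : V → Option (Var k) → V → Prop) (s : V) (d r : ℕ) :
    ∃ D : Finset (V × Finset (Pos h k) × List Bool),
      Approx E s d r ((1 - 1 / (3 : ℝ) ^ d) ^ r * Fintype.card (Pos h k → Option Bool)) D := by
  have h3d : (0 : ℝ) < 3 ^ d := by positivity
  have h01 : (0 : ℝ) ≤ 1 - 1 / (3 : ℝ) ^ d := by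
    rw [sub_nonneg, div_le_one h3d]
    exact one_le_pow₀ (by norm_num)
  have hδ : (0 : ℝ) ≤ (1 - 1 / (3 : ℝ) ^ d) ^ r * Fintype.card (Pos h k → Option Bool) := by
    positivity
  obtain ⟨D, hsub, herr, hcl⟩ := exists_approx (h := h) E s d _ hδ
  have hcl0 : ∀ f ∈ Facts V h k d, Err E s f ⊆ D.biUnion (Err E s) → f ∈ D := by
    intro f hf hs
    refine hcl f hf ∅ (by simpa using hδ) ?_
    simpa using hs
  have hsubE : ∀ f ∈ D, Err E s f ⊆ D.biUnion (Err E s) := fun f hf =>
    subset_biUnion_of_mem (Err E s) hf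
  refine ⟨D, herr, hsub, ?_, ?_, ?_, ?_, ?_⟩
  · intro w hw
    apply hcl0 _ (mem_Facts.2 ⟨by simp, hw⟩)
    intro y hy
    rw [mem_Err] at hy
    exact absurd Relation.ReflTransGen.refl hy.2
  · intro u A w w' hD hw' hdir
    have hA := (mem_Facts.1 (hsub hD)).1
    apply hcl0 _ (mem_Facts.2 ⟨hA, hw'⟩)
    refine subset_trans ?_ (hsubE _ hD)
    intro y hy
    rw [mem_Err] at hy ⊢
    exact ⟨fun p hp => by rw [hy.1 p hp, hdir p hp], hy.2⟩
  · intro u u' A w hD hstep
    have hA := mem_Facts.1 (hsub hD)
    apply hcl0 _ (mem_Facts.2 hA)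
    refine subset_trans ?_ (hsubE _ hD)
    intro y hy
    rw [mem_Err] at hy ⊢
    exact ⟨hy.1, fun hr => hy.2 (hr.tail (hstep y))⟩
  · intro u u' A w v b a a' hv hbv hD hE hw hcard
    have hA := mem_Facts.1 (hsub hD)
    apply hcl0 _ (mem_Facts.2 ⟨hcard, hA.2⟩)
    refine subset_trans ?_ (hsubE _ hD)
    intro y hy
    rw [mem_Err] at hy ⊢
    refine ⟨fun p hp => hy.1 p (mem_union_left _ hp), fun hr => hy.2 (hr.tail ?_)⟩
    refine ⟨_, hE, ?_⟩
    intro i hi
    simp only [Option.mem_def, Option.some.injEq] at hi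
    subst hi
    rintro ⟨h1, h2⟩
    have e1 := hy.1 (⟨v, hv⟩, a) (by simp)
    have e2 := hy.1 (⟨b :: v, hbv⟩, a') (by simp)
    simp only [extY, hv, hbv, dif_pos] at h1 h2
    simp only at e1 e2
    rw [e1] at h1
    rw [e2] at h2
    exact dir_crit hw h1 h2
  · intro u K w S hw hK hS hKS hdisj hDS
    have hw' := mem_edges.1 hw
    refine hcl _ (mem_Facts.2 ⟨hK, hw⟩)
      (badSet (fun p : Pos h k => dir p.1.1 w) (fun A => A \ K) S) ?_ ?_
    · have := card_badSet_le (fun p : Pos h k => dir p.1.1 w) (fun A => A \ K) d S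
        (fun A hA => (card_le_card sdiff_subset).trans (mem_Facts.1 (hsub (hDS A hA))).1) hdisj
      rw [hS] at this
      have hc : (Fintype.card (Option Bool) : ℝ) = 3 := by
        have : Fintype.card (Option Bool) = 3 := by simp
        rw [this]; norm_num
      rw [hc] at this
      exact this
    · intro y hy
      rw [mem_Err] at hy
      rw [mem_union]
      by_cases hex : ∃ A ∈ S, Acc A w y
      · obtain ⟨A, hA, hacc⟩ := hex
        exact Or.inl (hsubE _ (hDS A hA) (mem_Err.2 ⟨hacc, hy.2⟩))
      · right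
        push Not at hex
        simp only [badSet, mem_filter, mem_univ, true_and]
        intro A hA
        have := hex A hA
        simp only [Acc] at this
        push Not at this
        obtain ⟨p, hp, hne⟩ := this
        refine ⟨p, ?_, ?_⟩
        · rw [mem_sdiff]
          exact ⟨hp, fun hpK => hne (hy.1 p hpK)⟩
        · intro hyp
          apply hne
          rw [hyp]
          exact eff_dir hw'.1 hw'.2

theorem Approx.saturated [Fintype V] {E : V → Option (Var k) → V → Prop} {s : V} {d r : ℕ} {δ : ℝ}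
    {D : Finset (V × Finset (Pos h k) × List Bool)} (hD : Approx E s d r δ D) (u : V)
    (A : Finset (Pos h k)) :
    Saturated h (A.image (fun p => p.1.1)) (QQ h D u A) := by
  constructor
  · intro w hw
    exact mem_edges.1 (mem_QQ.1 hw).1
  · intro w w' hw hw0 hwh hdir
    have hw' := mem_edges.2 ⟨hw0, hwh⟩
    refine mem_QQ.2 ⟨hw', hD.same _ _ _ _ (mem_QQ.1 hw).2 hw' ?_⟩
    intro p hp
    exact hdir _ (mem_image_of_mem _ hp)

/-- At the target no fact is left. -/
theorem Approx.target [Fintype V] {E : V → Option (Var k) → V → Prop} {s : V} {d r : ℕ} {δ : ℝ}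
    {D : Finset (V × Finset (Pos h k) × List Bool)} (hD : Approx E s d r δ D) (t : V)
    (ht : ∀ y : Pos h k → Option Bool, ¬ Reach E (maxX h (extY y)) s t)
    (hδ : ((Facts V h k d).card : ℝ) * δ * 3 ^ d < Fintype.card (Pos h k → Option Bool))
    (hδ0 : 0 ≤ δ)
    (A : Finset (Pos h k)) (w : List Bool) : (t, A, w) ∉ D := by
  intro hmem
  have hF := mem_Facts.1 (hD.sub hmem)
  have hw := mem_edges.1 hF.2
  have h1 : (univ : Finset (Pos h k → Option Bool)).filter (fun y => ∀ p ∈ A, y p = dir p.1.1 w) ⊆
      D.biUnion (Err E s) := by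
    refine subset_trans ?_ (subset_biUnion_of_mem (Err E s) hmem)
    intro y hy
    simp only [mem_filter, mem_univ, true_and] at hy
    refine mem_Err.2 ⟨fun p hp => ?_, ht y⟩
    rw [hy p hp]
    exact eff_dir hw.1 hw.2
  have h2 := card_agree_ge A (fun p : Pos h k => dir p.1.1 w)
  have hc : Fintype.card (Option Bool) = 3 := by simp
  rw [hc] at h2
  have h3 : (Fintype.card (Pos h k → Option Bool) : ℝ) ≤ 3 ^ A.card *
      ((univ : Finset (Pos h k → Option Bool)).filter (fun y => ∀ p ∈ A, y p = dir p.1.1 w)).card := by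
    exact_mod_cast h2
  have h4 : (((univ : Finset (Pos h k → Option Bool)).filter
      (fun y => ∀ p ∈ A, y p = dir p.1.1 w)).card : ℝ) ≤ (D.biUnion (Err E s)).card := by
    exact_mod_cast card_le_card h1
  have h5 : ((D.card : ℝ)) ≤ (Facts V h k d).card := by exact_mod_cast card_le_card hD.sub
  have h6 : (3 : ℝ) ^ A.card ≤ 3 ^ d := pow_le_pow_right₀ (by norm_num) hF.1
  have h7 := hD.err
  have h8 : (Fintype.card (Pos h k → Option Bool) : ℝ) ≤ 3 ^ d * ((Facts V h k d).card * δ) := by
    calc _ ≤ _ := h3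
      _ ≤ (3 : ℝ) ^ d * ((Facts V h k d).card * δ) := by
        apply mul_le_mul h6 _ (Nat.cast_nonneg _) (by positivity)
        exact h4.trans (h7.trans (mul_le_mul_of_nonneg_right h5 hδ0))
  linarith [mul_comm ((3 : ℝ) ^ d) ((Facts V h k d).card * δ)]

/-- The number of subsets of `U` with at most `m` elements. -/
theorem card_small_subsets_le {α : Type} (U : Finset α) (m : ℕ) :
    (U.powerset.filter (fun S => S.card ≤ m)).card ≤ (U.card + 1) ^ m := by
  induction m with
  | zero =>
    have : U.powerset.filter (fun S => S.card ≤ 0) ⊆ {∅} := by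
      intro S hS
      simp only [mem_filter, Nat.le_zero, card_eq_zero] at hS
      simp [hS.2]
    simpa using card_le_card this
  | succ m ih =>
    let T := U.powerset.filter (fun S => S.card ≤ m)
    have hsub : U.powerset.filter (fun S => S.card ≤ m + 1) ⊆
        T ∪ (U ×ˢ T).image (fun p => insert p.1 p.2) := by
      intro S hS
      simp only [mem_filter, mem_powerset] at hS
      by_cases hc : S.card ≤ m
      · exact mem_union_left _ (by simp only [T, mem_filter, mem_powerset]; exact ⟨hS.1, hc⟩)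
      · have hne : S.Nonempty := by rw [← card_pos]; omega
        obtain ⟨x, hx⟩ := hne
        apply mem_union_right
        rw [mem_image]
        refine ⟨(x, S.erase x), ?_, ?_⟩
        · rw [mem_product]
          refine ⟨hS.1 hx, ?_⟩
          simp only [T, mem_filter, mem_powerset]
          refine ⟨(erase_subset _ _).trans hS.1, ?_⟩
          rw [card_erase_of_mem hx]
          omega
        · exact insert_erase hx
    calc _ ≤ _ := card_le_card hsub
      _ ≤ T.card + ((U ×ˢ T).image (fun p => insert p.1 p.2)).card := card_union_le _ _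
      _ ≤ T.card + U.card * T.card := by
          have := card_image_le (s := U ×ˢ T) (f := fun p : α × Finset α => insert p.1 p.2)
          rw [card_product] at this
          omega
      _ = (U.card + 1) * T.card := by ring
      _ ≤ (U.card + 1) * (U.card + 1) ^ m := Nat.mul_le_mul_left _ ih
      _ = _ := by ring

theorem card_Facts_le [Fintype V] (d : ℕ) :
    (Facts V h k d).card ≤ Fintype.card V * ((2 ^ (h + 1) * k + 1) ^ d * 2 ^ (h + 1)) := by
  unfold Facts
  rw [card_product, card_product, card_univ]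
  apply Nat.mul_le_mul_left
  apply Nat.mul_le_mul
  · have h1 := card_small_subsets_le (univ : Finset (Pos h k)) d
    have h2 : (univ : Finset (Pos h k)).powerset = univ := by ext; simp
    rw [h2] at h1
    refine h1.trans ?_
    apply Nat.pow_le_pow_left
    rw [card_univ, Fintype.card_prod, Fintype.card_coe, Fintype.card_fin]
    have := card_nodes_le h
    have := Nat.mul_le_mul_right k this
    omega
  · refine (card_le_card (filter_subset _ _)).trans (card_nodes_le h)

/-- The irreducible sets of size `j` at `u`. -/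
def Irr (D : Finset (V × Finset (Pos h k) × List Bool)) (u : V) (j : ℕ) :
    Finset (Finset (Pos h k)) :=
  univ.filter (fun A => A.card = j ∧ ∀ K, K ⊂ A → ¬ QQ h D u A ⊆ QQ h D u K)

theorem Approx.card_Irr_le [Fintype V] {E : V → Option (Var k) → V → Prop} {s : V} {d r : ℕ} {δ : ℝ}
    {D : Finset (V × Finset (Pos h k) × List Bool)} (hD : Approx E s d r δ D) (hr : 2 ≤ r)
    (u : V) (j : ℕ) (hj : j ≤ d) :
    (Irr D u j).card ≤ (j * r) ^ j * (2 ^ (h + 1) + 1) ^ (2 * (d + 1)) := by
  have h1 : (Irr D u j).card ≤ (j * r) ^ j *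
      ((nodes h).powerset.filter (fun S => S.card ≤ 2 * (d + 1))).card := by
    apply Finset.card_le_mul_card_image_of_maps_to (f := fun A => bd h (QQ h D u A))
    · intro A hA
      simp only [Irr, mem_filter, mem_univ, true_and] at hA
      simp only [mem_filter, mem_powerset]
      refine ⟨filter_subset _ _, ?_⟩
      refine (hD.saturated u A).card_bd.trans ?_
      have : (A.image (fun p => (p.1.1 : List Bool))).card ≤ A.card := card_image_le
      omega
    · intro b _
      apply card_le_of_no_sunflower r j (by omega)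
      · intro A hA
        simp only [Irr, mem_filter, mem_univ, true_and] at hA
        exact hA.1.1
      · rintro ⟨K, S, hS, hSr, hK, hdisj⟩
        have hmem : ∀ A ∈ S, A.card = j ∧ (∀ K, K ⊂ A → ¬ QQ h D u A ⊆ QQ h D u K) ∧
            bd h (QQ h D u A) = b := by
          intro A hA
          have := hS hA
          simp only [Irr, mem_filter, mem_univ, true_and] at this
          exact ⟨this.1.1, this.1.2, this.2⟩
        obtain ⟨A, hA, B, hB, hAB⟩ := one_lt_card.1 (show 1 < S.card by omega)
        have hKA : K ⊂ A := by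
          refine ⟨hK A hA, fun hAK => hAB ?_⟩
          exact eq_of_subset_of_card_le (hAK.trans (hK B hB)) (by rw [(hmem A hA).1, (hmem B hB).1])
        apply (hmem A hA).2.1 K hKA
        intro w hw
        have hwe := (mem_QQ.1 hw).1
        refine mem_QQ.2 ⟨hwe, hD.core u K w S hwe ?_ hSr hK hdisj ?_⟩
        · have := card_le_card (hK A hA)
          rw [(hmem A hA).1] at this
          omega
        · intro A' hA'
          have hQ : QQ h D u A' = QQ h D u A := by
            apply bd_injective (h := h)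
            · intro w hw; exact mem_edges.1 (mem_QQ.1 hw).1
            · intro w hw; exact mem_edges.1 (mem_QQ.1 hw).1
            · rw [(hmem A' hA').2.2, (hmem A hA).2.2]
          rw [← hQ] at hw
          exact (mem_QQ.1 hw).2
  refine h1.trans (Nat.mul_le_mul_left _ ?_)
  refine (card_small_subsets_le (nodes h) _).trans ?_
  apply Nat.pow_le_pow_left
  have := card_nodes_le h
  omega

/-- The state assignments that contain an irreducible set. -/
def badX [Fintype V] (D : Finset (V × Finset (Pos h k) × List Bool)) (d : ℕ) :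
    Finset (Nd h → Fin k) :=
  univ.biUnion (fun u : V => ((Irr D u (d - 1)) ∪ (Irr D u d)).biUnion
    (fun A => univ.filter (fun x => ∀ p ∈ A, x p.1 = p.2)))

theorem Approx.card_badX_le [Fintype V] {E : V → Option (Var k) → V → Prop} {s : V} {d r : ℕ} {δ : ℝ}
    {D : Finset (V × Finset (Pos h k) × List Bool)} (hD : Approx E s d r δ D) (hr : 2 ≤ r)
    (hd : 2 ≤ d) (hk : 1 ≤ k) :
    (badX D d).card * k ^ (d - 1) ≤
      Fintype.card V * (2 * (d * r) ^ d * (2 ^ (h + 1) + 1) ^ (2 * (d + 1))) *
        Fintype.card (Nd h → Fin k) := by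
  have hI : ∀ u : V, ((Irr D u (d - 1)) ∪ (Irr D u d)).card ≤
      2 * (d * r) ^ d * (2 ^ (h + 1) + 1) ^ (2 * (d + 1)) := by
    intro u
    have h1 := hD.card_Irr_le hr u (d - 1) (by omega)
    have h2 := hD.card_Irr_le hr u d le_rfl
    have h3 : ((d - 1) * r) ^ (d - 1) ≤ (d * r) ^ d := by
      calc ((d - 1) * r) ^ (d - 1) ≤ (d * r) ^ (d - 1) :=
            Nat.pow_le_pow_left (Nat.mul_le_mul_right _ (by omega)) _
        _ ≤ (d * r) ^ d := Nat.pow_le_pow_right (by
            have : 0 < d * r := Nat.mul_pos (by omega) (by omega)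
            omega) (by omega)
    have h4 := Nat.mul_le_mul_right ((2 ^ (h + 1) + 1) ^ (2 * (d + 1))) h3
    calc _ ≤ (Irr D u (d - 1)).card + (Irr D u d).card := card_union_le _ _
      _ ≤ _ := by
        have e : 2 * (d * r) ^ d * (2 ^ (h + 1) + 1) ^ (2 * (d + 1)) =
          (d * r) ^ d * (2 ^ (h + 1) + 1) ^ (2 * (d + 1)) +
          (d * r) ^ d * (2 ^ (h + 1) + 1) ^ (2 * (d + 1)) := by ring
        rw [e]
        exact Nat.add_le_add (h1.trans h4) h2
  have hA : ∀ u : V, ∀ A ∈ (Irr D u (d - 1)) ∪ (Irr D u d),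
      ((univ : Finset (Nd h → Fin k)).filter (fun x => ∀ p ∈ A, x p.1 = p.2)).card * k ^ (d - 1) ≤
        Fintype.card (Nd h → Fin k) := by
    intro u A hA
    have h1 := card_graph_le (N := Nd h) (K := Fin k) A
    rw [Fintype.card_fin] at h1
    have hcard : d - 1 ≤ A.card := by
      rw [mem_union] at hA
      simp only [Irr, mem_filter, mem_univ, true_and] at hA
      omega
    refine le_trans (Nat.mul_le_mul_left _ (Nat.pow_le_pow_right hk hcard)) h1
  calc (badX D d).card * k ^ (d - 1)
      ≤ (∑ u : V, ∑ A ∈ (Irr D u (d - 1)) ∪ (Irr D u d),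
          ((univ : Finset (Nd h → Fin k)).filter (fun x => ∀ p ∈ A, x p.1 = p.2)).card) *
            k ^ (d - 1) := by
        apply Nat.mul_le_mul_right
        refine card_biUnion_le.trans (sum_le_sum fun u _ => card_biUnion_le)
    _ = ∑ u : V, ∑ A ∈ (Irr D u (d - 1)) ∪ (Irr D u d),
          ((univ : Finset (Nd h → Fin k)).filter (fun x => ∀ p ∈ A, x p.1 = p.2)).card *
            k ^ (d - 1) := by
        rw [sum_mul]
        exact sum_congr rfl fun u _ => sum_mul _ _ _
    _ ≤ ∑ u : V, ∑ A ∈ (Irr D u (d - 1)) ∪ (Irr D u d), Fintype.card (Nd h → Fin k) :=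
        sum_le_sum fun u _ => sum_le_sum fun A hA' => hA u A hA'
    _ = ∑ u : V, ((Irr D u (d - 1)) ∪ (Irr D u d)).card * Fintype.card (Nd h → Fin k) := by
        simp only [sum_const, smul_eq_mul]
    _ ≤ ∑ u : V, (2 * (d * r) ^ d * (2 ^ (h + 1) + 1) ^ (2 * (d + 1))) *
          Fintype.card (Nd h → Fin k) :=
        sum_le_sum fun u _ => Nat.mul_le_mul_right _ (hI u)
    _ = _ := by
        simp only [sum_const, smul_eq_mul, card_univ]
        ring

/-- Shrinking a set inside the graph of a good state assignment. -/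
theorem exists_shrink [Fintype V] {D : Finset (V × Finset (Pos h k) × List Bool)} {d : ℕ}
    (hd : 2 ≤ d) {x : Nd h → Fin k} (hx : x ∉ badX D d) (u : V) (A : Finset (Pos h k))
    (hA : A.card ≤ d) (hAx : ∀ p ∈ A, x p.1 = p.2) :
    ∃ A' : Finset (Pos h k), A' ⊆ A ∧ A'.card + 2 ≤ d ∧ QQ h D u A ⊆ QQ h D u A' := by
  have hne : (A.powerset.filter (fun A' => QQ h D u A ⊆ QQ h D u A')).Nonempty :=
    ⟨A, by simp⟩
  obtain ⟨A', hA', hmin⟩ := exists_min_image _ Finset.card hne
  rw [mem_filter, mem_powerset] at hA'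
  refine ⟨A', hA'.1, ?_, hA'.2⟩
  by_contra hcon
  apply hx
  have hle := card_le_card hA'.1
  have hirr : ∀ K, K ⊂ A' → ¬ QQ h D u A' ⊆ QQ h D u K := by
    intro K hK hsub
    have := hmin K (by
      rw [mem_filter, mem_powerset]
      exact ⟨hK.1.trans hA'.1, hA'.2.trans hsub⟩)
    have := card_lt_card hK
    omega
  simp only [badX, mem_biUnion, mem_univ, true_and, mem_filter]
  refine ⟨u, A', ?_, fun p hp => hAx p (hA'.1 hp)⟩
  rw [mem_union]
  simp only [Irr, mem_filter, mem_univ, true_and]
  by_cases hc : A'.card = d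
  · exact Or.inr ⟨hc, hirr⟩
  · exact Or.inl ⟨by omega, hirr⟩

/-- **Main lower bound** in combinatorial form. -/
theorem core_bound [Fintype V] (E : V → Option (Var k) → V → Prop) (s t : V) (c d r : ℕ)
    (hh : 2 * c ≤ h) (hc1 : 1 ≤ c) (hd : 2 ≤ d) (hdc : 2 * d - 2 < c) (hr : 2 ≤ r) (hk : 1 ≤ k)
    (h1 : ((Fintype.card V * ((2 ^ (h + 1) * k + 1) ^ d * 2 ^ (h + 1)) : ℕ) : ℝ) *
      (1 - 1 / (3 : ℝ) ^ d) ^ r * 3 ^ d < 1)
    (h2 : Fintype.card V * (2 * (d * r) ^ d * (2 ^ (h + 1) + 1) ^ (2 * (d + 1))) < k ^ (d - 1))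
    (hF : ∀ X : Var k → Prop, Reach E X s t ↔ ∃ a, G X h [] a) : False := by
  obtain ⟨D, hD⟩ := exists_Approx (h := h) E s d r
  have h3d : (0 : ℝ) < 3 ^ d := by positivity
  have h01 : (0 : ℝ) ≤ 1 - 1 / (3 : ℝ) ^ d := by
    rw [sub_nonneg, div_le_one h3d]
    exact one_le_pow₀ (by norm_num)
  have hY : (0 : ℝ) < Fintype.card (Pos h k → Option Bool) := by
    exact_mod_cast Fintype.card_pos
  have hδ0 : (0 : ℝ) ≤ (1 - 1 / (3 : ℝ) ^ d) ^ r * Fintype.card (Pos h k → Option Bool) := by
    positivity
  have htar := hD.target t (fun y hr => by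
    obtain ⟨a, ha⟩ := (hF _).1 hr
    exact not_F_maxX h (by omega) _ a ha) (by
      have h5 : ((Facts V h k d).card : ℝ) ≤
          ((Fintype.card V * ((2 ^ (h + 1) * k + 1) ^ d * 2 ^ (h + 1)) : ℕ) : ℝ) := by
        exact_mod_cast card_Facts_le d
      calc ((Facts V h k d).card : ℝ) *
            ((1 - 1 / (3 : ℝ) ^ d) ^ r * Fintype.card (Pos h k → Option Bool)) * 3 ^ d
          ≤ ((Fintype.card V * ((2 ^ (h + 1) * k + 1) ^ d * 2 ^ (h + 1)) : ℕ) : ℝ) *
            ((1 - 1 / (3 : ℝ) ^ d) ^ r * Fintype.card (Pos h k → Option Bool)) * 3 ^ d := by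
            apply mul_le_mul_of_nonneg_right _ h3d.le
            exact mul_le_mul_of_nonneg_right h5 hδ0
        _ = (((Fintype.card V * ((2 ^ (h + 1) * k + 1) ^ d * 2 ^ (h + 1)) : ℕ) : ℝ) *
            (1 - 1 / (3 : ℝ) ^ d) ^ r * 3 ^ d) * Fintype.card (Pos h k → Option Bool) := by ring
        _ < 1 * Fintype.card (Pos h k → Option Bool) := mul_lt_mul_of_pos_right h1 hY
        _ = _ := one_mul _) hδ0
  -- a good state assignment
  have hbad : (badX D d).card < Fintype.card (Nd h → Fin k) := by
    have h3 := hD.card_badX_le hr hd hk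
    have hX : 0 < Fintype.card (Nd h → Fin k) := by
      haveI : Nonempty (Fin k) := ⟨⟨0, by omega⟩⟩
      exact Fintype.card_pos
    by_contra hcon
    push Not at hcon
    have h4 := Nat.mul_le_mul_right (k ^ (d - 1)) hcon
    have h5 := (Nat.mul_lt_mul_right hX).2 h2
    have h6 := lt_of_le_of_lt (h4.trans h3) h5
    rw [mul_comm (k ^ (d - 1))] at h6
    exact lt_irrefl _ h6
  obtain ⟨x, hx⟩ : ∃ x : Nd h → Fin k, x ∉ badX D d := by
    by_contra hcon
    push Not at hcon
    have : badX D d = univ := by ext x; simp [hcon x]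
    rw [this, card_univ] at hbad
    exact lt_irrefl _ hbad
  have hroot : ([] : List Bool) ∈ nodes h := by simp [mem_nodes]
  let xx : List Bool → Fin k := fun v => if hv : v ∈ nodes h then x ⟨v, hv⟩ else x ⟨[], hroot⟩
  have hreach : Reach E (minX xx) s t := (hF _).2 ⟨xx [], G_minX xx h []⟩
  -- the invariant
  have hinv : ∀ u, Reach E (minX xx) s u → ∃ A : Finset (Pos h k), (∀ p ∈ A, x p.1 = p.2) ∧
      A.card + 2 ≤ d ∧ crit c < wt h (QQ h D u A) := by
    intro u hu
    induction hu with
    | refl =>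
      refine ⟨∅, by simp, by simpa using hd, ?_⟩
      have : wt h (QQ h D s ∅) = 2 ^ h := by
        rw [← card_lv h]
        unfold wt
        congr 1
        rw [filter_eq_self]
        intro w hw
        rw [mem_lv] at hw
        have hwe : w ∈ edges h := mem_edges.2 ⟨by
          rintro rfl
          simp only [List.length_nil] at hw
          omega, hw.le⟩
        exact mem_QQ.2 ⟨hwe, hD.start w hwe⟩
      rw [this]
      refine (crit_lt c).trans_le ?_
      have : (4 : ℕ) ^ c = 2 ^ (2 * c) := by rw [pow_mul]; norm_num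
      rw [this]
      exact Nat.pow_le_pow_right (by norm_num) hh
    | @tail u u' _ hstep ih =>
      obtain ⟨A, hAx, hAd, hAc⟩ := ih
      -- a set A1 at u' of size at most d that has lost at most one edge
      obtain ⟨A1, hA1x, hA1d, hA1c⟩ : ∃ A1 : Finset (Pos h k), (∀ p ∈ A1, x p.1 = p.2) ∧
          A1.card ≤ d ∧ wt h (QQ h D u A) ≤ wt h (QQ h D u' A1) + 1 := by
        obtain ⟨l, hl, hlX⟩ := hstep
        cases l with
        | none =>
          refine ⟨A, hAx, by omega, ?_⟩
          refine (wt_mono ?_).trans (Nat.le_succ _)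
          intro w hw
          refine mem_QQ.2 ⟨(mem_QQ.1 hw).1, hD.free u u' A w (mem_QQ.1 hw).2 ?_⟩
          intro y
          exact ⟨none, hl, by simp⟩
        | some i =>
          obtain ⟨v, b, a, a'⟩ := i
          have hX := hlX _ rfl
          by_cases hvl : v.length < h
          · have hv : v ∈ nodes h := mem_nodes.2 hvl.le
            have hbv : (b :: v) ∈ nodes h := mem_nodes.2 (by simpa using hvl)
            have hX1 : x ⟨v, hv⟩ = a := by
              have := hX.1
              simpa [xx, hv] using this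
            have hX2 : x ⟨b :: v, hbv⟩ = a' := by
              have := hX.2
              simpa [xx, hbv] using this
            have hcard : (A ∪ {((⟨v, hv⟩ : Nd h), a), (⟨b :: v, hbv⟩, a')}).card ≤ d := by
              have h1 := card_union_le A ({((⟨v, hv⟩ : Nd h), a), (⟨b :: v, hbv⟩, a')})
              have h2 : ({((⟨v, hv⟩ : Nd h), a), (⟨b :: v, hbv⟩, a')} :
                Finset (Pos h k)).card ≤ 2 := card_le_two
              omega
            refine ⟨A ∪ {((⟨v, hv⟩ : Nd h), a), (⟨b :: v, hbv⟩, a')}, ?_, hcard, ?_⟩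
            · intro p hp
              rw [mem_union, mem_insert, mem_singleton] at hp
              rcases hp with hp | rfl | rfl
              · exact hAx p hp
              · exact hX1
              · exact hX2
            · apply wt_sdiff_le h _ _ (b :: v)
              intro w hw hwne
              refine mem_QQ.2 ⟨(mem_QQ.1 hw).1, ?_⟩
              exact hD.step u u' A w v b a a' hv hbv (mem_QQ.1 hw).2 hl hwne hcard
          · refine ⟨A, hAx, by omega, ?_⟩
            refine (wt_mono ?_).trans (Nat.le_succ _)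
            intro w hw
            refine mem_QQ.2 ⟨(mem_QQ.1 hw).1, hD.free u u' A w (mem_QQ.1 hw).2 ?_⟩
            intro y
            refine ⟨_, hl, ?_⟩
            intro i hi
            simp only [Option.mem_def, Option.some.injEq] at hi
            subst hi
            rintro ⟨h1, _⟩
            simp only at h1
            unfold eff at h1
            by_cases hvh : v.length = h
            · rw [if_pos hvh] at h1; simp at h1
            · rw [if_neg hvh, if_neg (by
                rintro ⟨rfl, _⟩
                simp only [List.length_nil] at hvl hvh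
                omega)] at h1
              have hvn : v ∉ nodes h := by rw [mem_nodes]; omega
              simp [extY, hvn] at h1
      obtain ⟨A2, hA2, hA2d, hA2c⟩ := exists_shrink hd hx u' A1 hA1d hA1x
      refine ⟨A2, fun p hp => hA1x p (hA2 hp), hA2d, ?_⟩
      have h3 : wt h (QQ h D u A) ≤ wt h (QQ h D u' A2) + 1 :=
        hA1c.trans (Nat.add_le_add_right (wt_mono hA2c) 1)
      have h4 : wt h (QQ h D u' A2) ≠ crit c := by
        intro he
        have h5 := (hD.saturated u' A2).wt_SW
        rw [he] at h5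
        have h6 := h5.crit_le
        have h7 : (A2.image (fun p => (p.1.1 : List Bool))).card ≤ A2.card := card_image_le
        omega
      omega
  obtain ⟨A, _, _, hA⟩ := hinv t hreach
  have hne : (QQ h D t A).Nonempty := by
    rw [nonempty_iff_ne_empty]
    intro he
    rw [he] at hA
    simp [wt] at hA
  obtain ⟨w, hw⟩ := hne
  exact htar A w (mem_QQ.1 hw).2

end

end Pool.Agent.MP_6216ea_lc
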