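import Mathlib
import Pool.Agent.Lib.MP_6216ea_lc.Core

set_option autoImplicit false

namespace Pool.Agent.MP_6216ea_lc

theorem three_pow_le (d : ℕ) : 3 ^ d ≤ 2 ^ (2 * d) := by
  rw [pow_mul]
  exact Nat.pow_le_pow_left (by norm_num) d

/-- **Lower bound**: for `d ≥ 3` a network for the tree function of height `4 d` with
`2 ^ (32 d)` states has at least `2 ^ (d ^ 2)` vertices. -/
theorem lower_bound {V : Type} [Fintype V] (d : ℕ) (hd : 3 ≤ d)
    (E : V → Option (Var (2 ^ (32 * d))) → V → Prop) (s t : V)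
    (hF : ∀ X : Var (2 ^ (32 * d)) → Prop, Reach E X s t ↔ ∃ a, G X (4 * d) [] a) :
    2 ^ (d ^ 2) ≤ Fintype.card V := by
  by_contra hV
  push Not at hV
  set R := 37 * d ^ 2 + 8 * d + 1 with hR
  have h3d : (0 : ℝ) < 3 ^ d := by positivity
  refine core_bound E s t (2 * d) d (3 ^ d * R) (by omega) (by omega) (by omega) (by omega) ?_
    Nat.one_le_two_pow ?_ ?_ hF
  · have h1 : 1 ≤ 3 ^ d := Nat.one_le_pow _ _ (by norm_num)
    have h2 : 2 ≤ R := by rw [hR]; nlinarith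
    calc 2 ≤ 1 * R := by omega
      _ ≤ 3 ^ d * R := Nat.mul_le_mul_right _ h1
  · -- the first inequality
    have h1 : (1 - 1 / (3 : ℝ) ^ d) ^ (3 ^ d * R) ≤ (1 / 2) ^ R := by
      rw [pow_mul]
      apply pow_le_pow_left₀
      · apply pow_nonneg
        rw [sub_nonneg, div_le_one h3d]
        exact one_le_pow₀ (by norm_num)
      · have h2 : (1 - 1 / (3 : ℝ) ^ d) ≤ Real.exp (-(1 / (3 : ℝ) ^ d)) := by
          have := Real.add_one_le_exp (-(1 / (3 : ℝ) ^ d))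
          linarith
        have h3 : (0 : ℝ) ≤ 1 - 1 / (3 : ℝ) ^ d := by
          rw [sub_nonneg, div_le_one h3d]
          exact one_le_pow₀ (by norm_num)
        calc (1 - 1 / (3 : ℝ) ^ d) ^ (3 ^ d) ≤ Real.exp (-(1 / (3 : ℝ) ^ d)) ^ (3 ^ d) :=
              pow_le_pow_left₀ h3 h2 _
          _ = Real.exp (-1) := by
              rw [← Real.exp_nat_mul]
              congr 1
              push_cast
              field_simp
          _ ≤ 1 / 2 := by
              have := Real.exp_one_gt_d9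
              rw [Real.exp_neg, inv_eq_one_div]
              apply one_div_le_one_div_of_le (by norm_num)
              linarith
    have hk : 2 ^ (4 * d + 1) * 2 ^ (32 * d) + 1 ≤ 2 ^ (36 * d + 2) := by
      have e1 : 2 ^ (4 * d + 1) * 2 ^ (32 * d) = 2 ^ (36 * d + 1) := by
        rw [← pow_add]; congr 1; ring
      have e2 : 2 ^ (36 * d + 2) = 2 * 2 ^ (36 * d + 1) := by ring
      have e3 : 1 ≤ 2 ^ (36 * d + 1) := Nat.one_le_two_pow
      omega
    have h4 : (2 ^ (4 * d + 1) * 2 ^ (32 * d) + 1) ^ d * 2 ^ (4 * d + 1) * 3 ^ d ≤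
        2 ^ (36 * d ^ 2 + 8 * d + 1) := by
      calc _ ≤ (2 ^ (36 * d + 2)) ^ d * 2 ^ (4 * d + 1) * 2 ^ (2 * d) :=
            Nat.mul_le_mul (Nat.mul_le_mul_right _ (Nat.pow_le_pow_left hk d)) (three_pow_le d)
        _ = 2 ^ (36 * d ^ 2 + 8 * d + 1) := by
            rw [← pow_mul, ← pow_add, ← pow_add]; congr 1; ring
    have h5 : Fintype.card V * ((2 ^ (4 * d + 1) * 2 ^ (32 * d) + 1) ^ d * 2 ^ (4 * d + 1)) * 3 ^ d
        < 2 ^ R := by
      calc _ = Fintype.card V *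
            ((2 ^ (4 * d + 1) * 2 ^ (32 * d) + 1) ^ d * 2 ^ (4 * d + 1) * 3 ^ d) := by ring
        _ ≤ Fintype.card V * 2 ^ (36 * d ^ 2 + 8 * d + 1) := Nat.mul_le_mul_left _ h4
        _ < 2 ^ (d ^ 2) * 2 ^ (36 * d ^ 2 + 8 * d + 1) :=
            Nat.mul_lt_mul_of_pos_right hV (by positivity)
        _ = 2 ^ R := by rw [← pow_add]; congr 1; rw [hR]; ring
    have h6 : ((Fintype.card V * ((2 ^ (4 * d + 1) * 2 ^ (32 * d) + 1) ^ d * 2 ^ (4 * d + 1)) : ℕ)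
        : ℝ) * 3 ^ d < 2 ^ R := by exact_mod_cast h5
    calc ((Fintype.card V * ((2 ^ (4 * d + 1) * 2 ^ (32 * d) + 1) ^ d * 2 ^ (4 * d + 1)) : ℕ) : ℝ) *
          (1 - 1 / (3 : ℝ) ^ d) ^ (3 ^ d * R) * 3 ^ d
        = ((Fintype.card V * ((2 ^ (4 * d + 1) * 2 ^ (32 * d) + 1) ^ d * 2 ^ (4 * d + 1)) : ℕ) : ℝ)
          * 3 ^ d * (1 - 1 / (3 : ℝ) ^ d) ^ (3 ^ d * R) := by ring
      _ ≤ ((Fintype.card V * ((2 ^ (4 * d + 1) * 2 ^ (32 * d) + 1) ^ d * 2 ^ (4 * d + 1)) : ℕ) : ℝ)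
          * 3 ^ d * (1 / 2) ^ R := mul_le_mul_of_nonneg_left h1 (by positivity)
      _ < 2 ^ R * (1 / 2) ^ R := mul_lt_mul_of_pos_right h6 (by positivity)
      _ = 1 := by rw [← mul_pow]; norm_num
  · -- the second inequality
    have hR2 : R ≤ 46 * d ^ 2 := by rw [hR]; nlinarith
    have hd2 : d ≤ 2 ^ d := Nat.lt_two_pow_self.le
    have h1 : d * (3 ^ d * R) ≤ 2 ^ (5 * d + 6) := by
      calc d * (3 ^ d * R) ≤ d * (2 ^ (2 * d) * (46 * d ^ 2)) :=
            Nat.mul_le_mul_left _ (Nat.mul_le_mul (three_pow_le d) hR2)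
        _ = 2 ^ (2 * d) * (46 * d ^ 3) := by ring
        _ ≤ 2 ^ (2 * d) * (2 ^ 6 * (2 ^ d) ^ 3) :=
            Nat.mul_le_mul_left _ (Nat.mul_le_mul (by norm_num) (Nat.pow_le_pow_left hd2 3))
        _ = 2 ^ (5 * d + 6) := by rw [← pow_mul, ← pow_add, ← pow_add]; congr 1; ring
    have h2 : 2 ^ (4 * d + 1) + 1 ≤ 2 ^ (4 * d + 2) := by
      have e2 : 2 ^ (4 * d + 2) = 2 * 2 ^ (4 * d + 1) := by ring
      have e3 : 1 ≤ 2 ^ (4 * d + 1) := Nat.one_le_two_pow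
      omega
    have h3 : 2 * (d * (3 ^ d * R)) ^ d * (2 ^ (4 * d + 1) + 1) ^ (2 * (d + 1)) ≤
        2 ^ (13 * d ^ 2 + 18 * d + 5) := by
      calc _ ≤ 2 * (2 ^ (5 * d + 6)) ^ d * (2 ^ (4 * d + 2)) ^ (2 * (d + 1)) :=
            Nat.mul_le_mul (Nat.mul_le_mul_left _ (Nat.pow_le_pow_left h1 d))
              (Nat.pow_le_pow_left h2 _)
        _ = 2 ^ 1 * 2 ^ ((5 * d + 6) * d) * 2 ^ ((4 * d + 2) * (2 * (d + 1))) := by
            rw [← pow_mul, ← pow_mul, pow_one]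
        _ = 2 ^ (13 * d ^ 2 + 18 * d + 5) := by
            rw [← pow_add, ← pow_add]; congr 1; ring
    calc Fintype.card V * (2 * (d * (3 ^ d * R)) ^ d * (2 ^ (4 * d + 1) + 1) ^ (2 * (d + 1)))
        ≤ Fintype.card V * 2 ^ (13 * d ^ 2 + 18 * d + 5) := Nat.mul_le_mul_left _ h3
      _ < 2 ^ (d ^ 2) * 2 ^ (13 * d ^ 2 + 18 * d + 5) :=
          Nat.mul_lt_mul_of_pos_right hV (by positivity)
      _ = 2 ^ (14 * d ^ 2 + 18 * d + 5) := by rw [← pow_add]; congr 1; ring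
      _ ≤ 2 ^ (32 * d * (d - 1)) := by
          apply Nat.pow_le_pow_right (by norm_num)
          obtain ⟨e, rfl⟩ := Nat.exists_eq_add_of_le hd
          have : 3 + e - 1 = 2 + e := by omega
          rw [this]
          nlinarith
      _ = (2 ^ (32 * d)) ^ (d - 1) := by rw [← pow_mul]

end Pool.Agent.MP_6216ea_lc
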