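import Mathlib

/-!
# The tree evaluation problem and nondeterministic thrifty branching programs
-/

namespace Pool.Agent.Lib.MP_6216ea_lc

/-- The variables of the tree evaluation problem on the complete binary tree of depth `n` over the
values `Fin k`. The nodes of the tree are the lists of Booleans of length at most `n`, the root is
`[]` and the children of `x` are `false :: x` and `true :: x`; the leaves have length `n`.
There is one variable for each leaf (its value) and one for each internal node `x` and each pair
`a, b` of values (the value of the function of the node `x` at `(a, b)`).
An input is a map `Var n k → Fin k`. -/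
inductive Var (n k : ℕ) where
  | leaf (x : List Bool) (hx : x.length = n) : Var n k
  | fn (x : List Bool) (hx : x.length < n) (a b : Fin k) : Var n k

/-- The value, on the input `I`, of the node `x`, whose subtree has height `m`. -/
def value {n k : ℕ} (I : Var n k → Fin k) :
    (m : ℕ) → (x : List Bool) → x.length + m = n → Fin k
  | 0, x, h => I (Var.leaf x h)
  | m + 1, x, h => I (Var.fn x (by omega)
      (value I m (false :: x) (by rw [List.length_cons]; omega))
      (value I m (true :: x) (by rw [List.length_cons]; omega)))

/-- A nondeterministic branching program with set of states `Q`: a start state, accepting states,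
an optional query (a variable) at each state, the transitions `edge q c q'` (from the state `q`,
if the answer to the query at `q` is `c`, one may go to `q'`), and the free moves, which need no
query. -/
structure NBP (n k : ℕ) (Q : Type) where
  start : Q
  accept : Q → Prop
  label : Q → Option (Var n k)
  edge : Q → Fin k → Q → Prop
  free : Q → Q → Prop

/-- `Path P I q l q'`: on the input `I` the program `P` has a computation from `q` to `q'` whose
sequence of queries is `l`. -/
inductive Path {n k : ℕ} {Q : Type} (P : NBP n k Q) (I : Var n k → Fin k) :
    Q → List (Var n k) → Q → Prop
  | nil (q : Q) : Path P I q [] q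
  | free (q q' q'' : Q) (l : List (Var n k)) (h : P.free q q') (h' : Path P I q' l q'') :
      Path P I q l q''
  | query (q q' q'' : Q) (X : Var n k) (l : List (Var n k)) (hX : P.label q = some X)
      (h : P.edge q (I X) q') (h' : Path P I q' l q'') : Path P I q (X :: l) q''

/-- `Accepts P I l`: on the input `I` the program `P` has an accepting computation whose
sequence of queries is `l`. -/
def Accepts {n k : ℕ} {Q : Type} (P : NBP n k Q) (I : Var n k → Fin k) (l : List (Var n k)) :
    Prop :=
  ∃ q, P.accept q ∧ Path P I P.start l q

/-- `P` accepts exactly the inputs on which the value of the root is `r`. -/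
def Solves {n k : ℕ} {Q : Type} (P : NBP n k Q) (r : Fin k) : Prop :=
  ∀ I : Var n k → Fin k, (∃ l, Accepts P I l) ↔ value I n [] (Nat.zero_add n) = r

/-- `P` is thrifty: every accepting computation queries the functions of internal nodes only at
the correct pair of values of the two children. -/
def Thrifty {n k : ℕ} {Q : Type} (P : NBP n k Q) : Prop :=
  ∀ (I : Var n k → Fin k) (l : List (Var n k)), Accepts P I l →
    ∀ (m : ℕ) (x : List Bool) (h : x.length + (m + 1) = n) (a b : Fin k),
      Var.fn x (by omega) a b ∈ l →
        a = value I m (false :: x) (by rw [List.length_cons]; omega) ∧
        b = value I m (true :: x) (by rw [List.length_cons]; omega)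

/-- Every input on which the value of the root is `r` has an accepting computation of `P` with at
most `T` queries. -/
def TimeAtMost {n k : ℕ} {Q : Type} (P : NBP n k Q) (r : Fin k) (T : ℕ) : Prop :=
  ∀ I : Var n k → Fin k, value I n [] (Nat.zero_add n) = r → ∃ l, Accepts P I l ∧ l.length ≤ T

end Pool.Agent.Lib.MP_6216ea_lc
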