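import Mathlib
import Pool.Agent.Lib.MP_6216ea_lc.Catalytic

/-!
# From lists of instructions to branching programs
-/

namespace Pool.Agent.Lib.MP_6216ea_lc.Catalytic

open Pool.Agent.Lib.MP_6216ea_lc

section compile

variable {n k : ℕ} {G H : Type} [AddCommGroup G] [AddCommGroup H]
variable (t : Fin k → G) (χ : Fin k → G →+ H) (r : Fin k) (p : List (List Bool × Role))

/-- the states: position, memory, and the guessed values of the two children -/
abbrev St (L n k : ℕ) (G H : Type) : Type := Fin (L + 1) × Mem n G H × Option (Fin k × Fin k)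

/-- the label of a state -/
def lab (q : St p.length n k G H) : Option (Var n k) :=
  match q.2.2 with
  | none => none
  | some g => match p[q.1.val]? with
    | none => none
    | some i => var n i.1 g.1 g.2

/-- the branching program of a list of instructions -/
def nbp : NBP n k (St p.length n k G H) where
  start := (0, (0, none))
  accept q := q.1.val = p.length ∧ q.2.2 = none
  label := lab p
  edge q c q' := ∃ i a b, p[q.1.val]? = some i ∧ q.2.2 = some (a, b) ∧ q'.1.val = q.1.val + 1 ∧
    Step t χ r i q.2.1 a b c q'.2.1 ∧ q'.2.2 = none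
  free q q' := q.2.2 = none ∧ q'.1 = q.1 ∧ q'.2.1 = q.2.1 ∧ ∃ a b, q'.2.2 = some (a, b)

variable {t χ r p}

theorem run_of_path {I : Var n k → Fin k} {q q' : St p.length n k G H} {l : List (Var n k)}
    (h : Path (nbp t χ r p) I q l q') : (nbp t χ r p).accept q' →
    (q.2.2 = none → ∃ μ', Run t χ r I (p.drop q.1.val) q.2.1 l μ') ∧
    (∀ a b, q.2.2 = some (a, b) → ∃ i X l' μ1 μ', p[q.1.val]? = some i ∧
      var n i.1 a b = some X ∧ l = X :: l' ∧ Step t χ r i q.2.1 a b (I X) μ1 ∧
      Run t χ r I (p.drop (q.1.val + 1)) μ1 l' μ') := by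
  induction h with
  | nil q =>
    intro hacc
    obtain ⟨h1, h2⟩ := hacc
    refine ⟨fun _ => ⟨q.2.1, ?_⟩, fun a b hab => ?_⟩
    · rw [h1, List.drop_length]
      exact ⟨rfl, rfl⟩
    · rw [h2] at hab
      exact absurd hab (by simp)
  | free q q' q'' l h _ ih =>
    intro hacc
    obtain ⟨h1, h2, h3, a, b, h4⟩ := h
    obtain ⟨i, X, l', μ1, μ', h5, h6, h7, h8, h9⟩ := (ih hacc).2 a b h4
    refine ⟨fun _ => ⟨μ', ?_⟩, fun a b hab => ?_⟩
    · rw [h2] at h5 h9
      rw [h3] at h8
      obtain ⟨hlt, hget⟩ := List.getElem?_eq_some_iff.mp h5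
      rw [List.drop_eq_getElem_cons hlt, hget]
      exact ⟨a, b, X, l', μ1, h6, h8, h7, h9⟩
    · rw [h1] at hab
      exact absurd hab (by simp)
  | query q q' q'' X l hX h _ ih =>
    intro hacc
    obtain ⟨i, a, b, h1, h2, h3, h4, h5⟩ := h
    obtain ⟨μ', h6⟩ := (ih hacc).1 h5
    refine ⟨fun hn => ?_, fun a' b' hab => ?_⟩
    · rw [h2] at hn
      exact absurd hn (by simp)
    · rw [h2] at hab
      have hX' : lab p q = some X := hX
      unfold lab at hX'
      simp only [h2, h1] at hX'
      simp only [Option.some.injEq, Prod.mk.injEq] at hab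
      obtain ⟨rfl, rfl⟩ := hab
      rw [h3] at h6
      exact ⟨i, X, l, q'.2.1, μ', h1, hX', rfl, h4, h6⟩

theorem path_of_run {I : Var n k → Fin k} :
    ∀ (p2 p1 : List (List Bool × Role)) (hp : p = p1 ++ p2) (μ μ' : Mem n G H)
      (l : List (Var n k)), Run t χ r I p2 μ l μ' →
      Path (nbp t χ r p) I
        ((⟨p1.length, by rw [hp, List.length_append]; omega⟩, (μ, none)) : St p.length n k G H) l
        ((⟨p.length, by omega⟩, (μ', none)) : St p.length n k G H) := by
  intro p2
  induction p2 with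
  | nil =>
    intro p1 hp μ μ' l h
    obtain ⟨h1, h2⟩ := h
    subst h1 h2
    have : p.length = p1.length := by rw [hp, List.append_nil]
    simp only [this]
    exact Path.nil _
  | cons i p2 ih =>
    intro p1 hp μ μ' l h
    obtain ⟨a, b, X, l', μ1, h1, h2, h3, h4⟩ := h
    subst h3
    have hp' : p = (p1 ++ [i]) ++ p2 := by rw [hp]; simp
    have hlen : p1.length < p.length := by rw [hp, List.length_append, List.length_cons]; omega
    have hget : p[p1.length]? = some i := by
      rw [hp, List.getElem?_append_right le_rfl]; simp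
    have hpath := ih (p1 ++ [i]) hp' μ1 μ' l' h4
    refine Path.free _ ((⟨p1.length, by omega⟩, (μ, some (a, b))) : St p.length n k G H) _ _
      ⟨rfl, rfl, rfl, a, b, rfl⟩ ?_
    refine Path.query _ ((⟨(p1 ++ [i]).length, by simp; omega⟩, (μ1, none)) :
      St p.length n k G H) _ X l' ?_ ⟨i, a, b, hget, rfl, by simp, h2, rfl⟩ hpath
    simp only [nbp, lab, hget]
    exact h1

end compile

section main

variable {n k : ℕ} {G H : Type} [AddCommGroup G] [AddCommGroup H] [Fintype G] [Fintype H]

/-- small thrifty nondeterministic programs from a pair of families `t`, `χ` -/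
theorem exists_nbp {t : Fin k → G} {χ : Fin k → G →+ H} (r : Fin k)
    (hχ : ∀ c c', χ c (t c') = χ c (t c) → c' = c) (n : ℕ) :
    ∃ (Q : Type) (_ : Fintype Q) (P : NBP n k Q), Solves P r ∧ Thrifty P ∧
      TimeAtMost P r ((4 ^ (n + 1) - 1) / 3) ∧
      Fintype.card Q ≤ 4 ^ (n + 1) * (k ^ 2 + 1) *
        (Fintype.card G ^ 4 * Fintype.card H ^ (2 * (n + 1))) := by
  classical
  have hlen := length_pass n [] Role.root
  set p := pass n [] Role.root with hp
  have hrun : ∀ (I : Var n k → Fin k) (l : List (Var n k)), Accepts (nbp t χ r p) I l →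
      value I n [] (Nat.zero_add n) = r ∧ Good I l := by
    intro I l hl
    obtain ⟨q, hq, hpath⟩ := hl
    obtain ⟨μ', hμ'⟩ := (run_of_path hpath hq).1 rfl
    have hμ : Run t χ r I p (0 : Mem n G H) l μ' := by
      have h0 : p.drop ((0 : Fin (p.length + 1)) : ℕ) = p := by simp
      rw [← h0]; exact hμ'
    obtain ⟨h1, _, h3⟩ := run_pass hχ I n [] Role.root _ _ _ (Nat.zero_add n) hμ
    exact ⟨h1, h3⟩
  have hcomp : ∀ I : Var n k → Fin k, value I n [] (Nat.zero_add n) = r →
      ∃ l, Accepts (nbp (G := G) (H := H) t χ r p) I l ∧ l.length ≤ (4 ^ (n + 1) - 1) / 3 := by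
    intro I hI
    obtain ⟨l, μ', h1, h2⟩ := exists_run (G := G) (H := H) (t := t) (χ := χ) (r := r) hχ I n []
      Role.root 0 (Nat.zero_add n) hI
    refine ⟨l, ⟨_, ⟨rfl, rfl⟩, path_of_run p [] rfl 0 μ' l h1⟩, ?_⟩
    rw [h2, ← hp]
    omega
  refine ⟨St p.length n k G H, inferInstance, nbp t χ r p, ?_, ?_, hcomp, ?_⟩
  · intro I
    constructor
    · rintro ⟨l, hl⟩
      exact (hrun I l hl).1
    · intro hI
      obtain ⟨l, hl, _⟩ := hcomp I hI
      exact ⟨l, hl⟩
  · intro I l hl
    exact (hrun I l hl).2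
  · have hcard : Fintype.card (St p.length n k G H) = (p.length + 1) *
        (((Fintype.card G ^ 2) ^ 2 * (Fintype.card H ^ 2) ^ (n + 1)) * (k * k + 1)) := by
      simp only [Fintype.card_prod, Fintype.card_fun, Fintype.card_fin, Fintype.card_bool,
        Fintype.card_option]
    rw [hcard]
    have h1 : p.length + 1 ≤ 4 ^ (n + 1) := by omega
    have h2 : (Fintype.card G ^ 2) ^ 2 = Fintype.card G ^ 4 := by rw [← pow_mul]
    have h3 : (Fintype.card H ^ 2) ^ (n + 1) = Fintype.card H ^ (2 * (n + 1)) := by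
      rw [← pow_mul]
    rw [h2, h3]
    calc _ ≤ 4 ^ (n + 1) * ((Fintype.card G ^ 4 * Fintype.card H ^ (2 * (n + 1))) *
          (k * k + 1)) := Nat.mul_le_mul_right _ h1
      _ = _ := by ring

end main

end Pool.Agent.Lib.MP_6216ea_lc.Catalytic
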