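import Pool.Agent.Lib.MP_6216ea_lc.DCSplitS

/-! The lowest level of the time-splitting recursion, and all levels. -/

set_option autoImplicit false

namespace Pool.Agent.MP_6216ea_lc

namespace PushProg

variable {ι α : Type} (P : PushProg ι α) {T : ℕ}

open QA Prot

/-- The position read by the question. -/
def qpos (q : QA P.S T) : Option ι :=
  match P.instr q.s with
  | .read i _ => some i
  | _ => none

/-- One step. -/
def qbas (q : QA P.S T) (a : Option α) : QA P.S T :=
  if q.r.val = 0 then QA.ins q.t.val q.s 0 q.s
  else
    match P.instr q.s with
    | .jump s' => QA.ins q.t.val q.s 1 s'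
    | .read _ f =>
      match a with
      | some a => QA.ins q.t.val q.s 1 (f a)
      | none => q
    | .push _ s' => QA.ins q.t.val q.s 1 s'
    | .pop f =>
      if q.t.val = 0 then QA.exi q.s 1
      else
        match P.instr q.c with
        | .push g _ => QA.ins 0 (f g) 0 (f g)
        | _ => QA.exi q.s 1

theorem base_good (x : ι → α) (hT : 1 ≤ T) :
    Good P x (fun q : QA P.S T => P.qbas q ((P.qpos q).map x)) 1 := by
  intro c t s r s₀ z ht hr hz
  have hqt : (ask c t s r : QA P.S T).t.val = t := val_clip (by omega)
  have hqr : (ask c t s r : QA P.S T).r.val = r := val_clip (by omega)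
  have hqs : (ask c t s r : QA P.S T).s = s := rfl
  have hqc : (ask c t s r : QA P.S T).c = c := rfl
  change P.Fin' x c t s r z (P.qbas (ask c t s r) ((P.qpos (ask c t s r)).map x))
  unfold qbas qpos
  rw [hqr, hqs, hqt, hqc]
  by_cases hr0 : r = 0
  · rw [if_pos hr0]
    subst hr0
    exact fin_ins le_rfl le_rfl (by omega) (by omega) hz rfl rfl
  · rw [if_neg hr0]
    have hr1 : r = 1 := by omega
    subst hr1
    have key : ∀ (s' : P.S) (z₁ : List P.Γ), P.next x s [] = some (s', z₁) →
        P.Fin' x c t s 1 z (QA.ins t s 1 s' : QA P.S T) := by
      intro s' z₁ h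
      refine fin_ins le_rfl le_rfl (by omega) (by omega) hz (z'' := z₁) rfl ?_
      rw [conf, h]; rfl
    cases hi : P.instr s with
    | jump s' =>
      refine key s' [] ?_
      unfold next; rw [hi]
    | read i f =>
      refine key (f (x i)) [] ?_
      unfold next; rw [hi]
    | push g s' =>
      refine key s' [g] ?_
      unfold next; rw [hi]
    | pop f =>
      have hexit : z = [] → P.Fin' x c t s 1 z (QA.exi s 1 : QA P.S T) := by
        rintro rfl
        have h1 : (clip T 1).val = 1 := val_clip hT
        refine Or.inl ⟨rfl, ?_, ?_, ?_, ⟨f, hi⟩⟩
        · change 1 ≤ (clip T 1).val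
          rw [h1]
        · change (clip T 1).val ≤ 1
          rw [h1]
        · change P.conf x (1 - (clip T 1).val) s [] = some (s, [])
          rw [h1]; rfl
      by_cases ht0 : t = 0
      · subst ht0
        simp only [if_true]
        apply hexit
        simp only [conf, Option.some.injEq, Prod.mk.injEq] at hz
        exact hz.2.symm
      · simp only [if_neg ht0]
        have ht1 : t = 1 := by omega
        subst ht1
        rw [conf] at hz
        cases hc : P.instr c with
        | jump c' =>
          simp only
          apply hexit
          have : P.next x c [] = some (c', []) := by unfold next; rw [hc]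
          rw [this] at hz
          simp only [Option.bind_some, conf, Option.some.injEq, Prod.mk.injEq] at hz
          exact hz.2.symm
        | read i g =>
          simp only
          apply hexit
          have : P.next x c [] = some (g (x i), []) := by unfold next; rw [hc]
          rw [this] at hz
          simp only [Option.bind_some, conf, Option.some.injEq, Prod.mk.injEq] at hz
          exact hz.2.symm
        | push g c' =>
          simp only
          have : P.next x c [] = some (c', [g]) := by unfold next; rw [hc]
          rw [this] at hz
          simp only [Option.bind_some, conf, Option.some.injEq, Prod.mk.injEq] at hz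
          have hz2 := hz.2
          subst hz2
          refine fin_ins (Nat.zero_le _) (Nat.zero_le _) hT hT (z'' := [])
            (show P.conf x 0 c [] = some (c, []) from rfl) ?_ rfl
          rw [Nat.sub_zero, conf]
          have h2 : P.next x s [g] = some (f g, []) := by unfold next; rw [hi]
          rw [h2]; rfl
        | pop g =>
          have : P.next x c [] = none := by unfold next; rw [hc]
          rw [this] at hz
          simp at hz

/-- The answers for times up to `2 ^ j`. -/
def lev (T : ℕ) (x : ι → α) : ℕ → QA P.S T → QA P.S T
  | 0 => fun q => P.qbas q ((P.qpos q).map x)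
  | j + 1 => fun q => eval (lev T x j) (split (2 ^ j) q)

theorem lev_good (x : ι → α) (j : ℕ) (hT : 2 ^ j ≤ T) : Good P x (P.lev T x j) (2 ^ j) := by
  induction j with
  | zero => exact P.base_good x (by simpa using hT)
  | succ j ih =>
    rw [pow_succ, mul_comm] at hT ⊢
    exact split_good (ih (by omega)) hT

/-- Accepting nodes become loops. -/
def absorb : PushProg ι α where
  S := P.S
  Γ := P.Γ
  fin := P.fin
  instr s := if P.acc s = true then .jump s else P.instr s
  start := P.start
  acc := P.acc

theorem absorb_conf (x : ι → α) (T : ℕ) (s : P.S) (z : List P.Γ) :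
    (∃ t ≤ T, ∃ s' z', P.conf x t s z = some (s', z') ∧ P.acc s' = true) ↔
      ∃ s' z', P.absorb.conf x T s z = some (s', z') ∧ P.acc s' = true := by
  induction T generalizing s z with
  | zero =>
    constructor
    · rintro ⟨t, ht, s', z', h, ha⟩
      have : t = 0 := by omega
      subst this
      exact ⟨s', z', h, ha⟩
    · rintro ⟨s', z', h, ha⟩
      exact ⟨0, le_rfl, s', z', h, ha⟩
  | succ T ih =>
    by_cases hs : P.acc s = true
    · have hn : P.absorb.next x s z = some (s, z) := by
        have hi : P.absorb.instr s = PInstr.jump s := if_pos hs
        unfold next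
        rw [hi]
        rfl
      have hL : ∃ t ≤ T + 1, ∃ s' z', P.conf x t s z = some (s', z') ∧ P.acc s' = true :=
        ⟨0, by omega, s, z, rfl, hs⟩
      have hL' : ∃ t ≤ T, ∃ s' z', P.conf x t s z = some (s', z') ∧ P.acc s' = true :=
        ⟨0, by omega, s, z, rfl, hs⟩
      have hR := (ih s z).1 hL'
      refine iff_of_true hL ?_
      change ∃ s' z', (P.absorb.next x s z).bind (fun c => P.absorb.conf x T c.1 c.2) =
        some (s', z') ∧ P.acc s' = true
      rw [hn]
      exact hR
    · have hn : P.absorb.next x s z = P.next x s z := by
        have hi : P.absorb.instr s = P.instr s := if_neg hs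
        cases h : P.instr s with
        | jump s' => rw [h] at hi; unfold next; rw [hi, h]; rfl
        | read i f => rw [h] at hi; unfold next; rw [hi, h]; rfl
        | push g s' => rw [h] at hi; unfold next; rw [hi, h]; rfl
        | pop f => rw [h] at hi; unfold next; rw [hi, h]; cases z <;> rfl
      change _ ↔ ∃ s' z', (P.absorb.next x s z).bind (fun c => P.absorb.conf x T c.1 c.2) =
        some (s', z') ∧ P.acc s' = true
      rw [hn]
      cases hc : P.next x s z with
      | none =>
        constructor
        · rintro ⟨t, ht, s', z', h, ha⟩
          cases t with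
          | zero =>
            simp only [conf, Option.some.injEq, Prod.mk.injEq] at h
            rw [← h.1] at ha
            exact absurd ha hs
          | succ t =>
            rw [conf, hc] at h
            cases h
        · rintro ⟨s', z', h, _⟩
          cases h
      | some c =>
        refine Iff.trans ?_ (ih c.1 c.2)
        constructor
        · rintro ⟨t, ht, s', z', h, ha⟩
          cases t with
          | zero =>
            simp only [conf, Option.some.injEq, Prod.mk.injEq] at h
            rw [← h.1] at ha
            exact absurd ha hs
          | succ t =>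
            rw [conf, hc] at h
            exact ⟨t, by omega, s', z', h, ha⟩
        · rintro ⟨t, ht, s', z', h, ha⟩
          refine ⟨t + 1, by omega, s', z', ?_, ha⟩
          rw [conf, hc]
          exact h

/-- The accepting answers. -/
def QAcc (a : QA P.S T) : Prop := a.b = false ∧ P.acc a.c = true

theorem accepts_lev (x : ι → α) (j t : ℕ) (hT : 2 ^ j ≤ T) (ht : t ≤ 2 ^ j) :
    P.AcceptsIn x t ↔
      P.absorb.QAcc (P.absorb.lev T x j (ask P.absorb.start 0 P.absorb.start t)) := by
  unfold AcceptsIn
  rw [P.absorb_conf x t P.start []]
  have h := P.absorb.lev_good x j hT P.absorb.start 0 P.absorb.start t P.absorb.start []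
    (Nat.zero_le _) ht rfl
  generalize P.absorb.lev T x j (ask P.absorb.start 0 P.absorb.start t) = a at h ⊢
  constructor
  · rintro ⟨s', z', h1, h2⟩
    have hb : a.b = false := by
      rcases bool_cases a.b with hb | hb
      · have h3 := h.none hb
        have h1 : P.absorb.conf x t P.absorb.start [] = some (s', z') := h1
        rw [h1] at h3
        cases h3
      · exact hb
    refine ⟨hb, ?_⟩
    obtain ⟨z₃, h3⟩ := h.last hb
    have h1 : P.absorb.conf x t P.absorb.start [] = some (s', z') := h1
    rw [h1] at h3
    simp only [Option.some.injEq, Prod.mk.injEq] at h3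
    rw [← h3.1]
    exact h2
  · rintro ⟨hb, ha⟩
    obtain ⟨z₃, h3⟩ := h.last hb
    exact ⟨a.c, z₃, h3, ha⟩

end PushProg

end Pool.Agent.MP_6216ea_lc
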