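import Pool.Agent.Lib.MP_6216ea_lc.DCHeadDefs

/-! Multi-head pushdown automata are simulated by pushdown programs of polynomial size. -/

set_option autoImplicit false

namespace Pool.Agent.MP_6216ea_lc

variable {α : Type}

/-- The nodes of the program: the start node, and for every state and every position of the heads
the main node, the waiting node and the node which puts back the bottom marker. -/
abbrev HeadPDA.Node (M : HeadPDA α) (n : ℕ) : Type :=
  Option ((M.Q × (Fin M.k → Fin (n + 1))) ⊕ (M.Q × (Fin M.k → Fin (n + 1))) ⊕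
    (M.Q × (Fin M.k → Fin (n + 1))))

/-- The instructions. -/
def HeadPDA.nodeInstr (M : HeadPDA α) (n : ℕ) :
    M.Node n → PInstr (Fin n) α (Option M.Γ) (M.Node n)
  | none => .push none (some (.inl (M.start, fun _ => 0)))
  | some (.inl (q, p)) =>
    match M.instr q with
    | .look h f =>
      if hp : (p h).val < n then .read ⟨_, hp⟩ fun a => some (.inr (.inl (f (some a), p)))
      else .jump (some (.inr (.inl (f none, p))))
    | .right h q' =>
      .jump (some (.inr (.inl (q', Function.update p h ⟨min ((p h).val + 1) n, by omega⟩))))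
    | .left h q' q'' =>
      if (p h).val = 0 then .jump (some (.inr (.inl (q'', p))))
      else .jump (some (.inr (.inl (q', Function.update p h ⟨(p h).val - 1, by omega⟩))))
    | .push g q' => .push (some g) (some (.inr (.inl (q', p))))
    | .pop f => .pop fun g =>
      match g with
      | some g => some (.inr (.inl (f (some g), p)))
      | none => some (.inr (.inr (f none, p)))
  | some (.inr (.inl (q, p))) => .jump (some (.inl (q, p)))
  | some (.inr (.inr (q, p))) => .push none (some (.inl (q, p)))

/-- The accepting nodes. -/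
def HeadPDA.nodeAcc (M : HeadPDA α) (n : ℕ) : M.Node n → Bool
  | some (.inl (q, _)) => M.acc q
  | _ => false

/-- The program. -/
def HeadPDA.prog (M : HeadPDA α) (n : ℕ) : PushProg (Fin n) α where
  S := M.Node n
  Γ := Option M.Γ
  fin := inferInstance
  instr := M.nodeInstr n
  start := none
  acc := M.nodeAcc n

/-- The stack with the bottom marker. -/
def HeadPDA.stk (M : HeadPDA α) (z : List M.Γ) : List (Option M.Γ) := z.map some ++ [none]

/-- One step of the automaton is two steps of the program. -/
theorem HeadPDA.prog_step (M : HeadPDA α) {n : ℕ} (x : Fin n → α) (c : M.Conf n) :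
    ∃ (m : M.Node n) (w : List (Option M.Γ)),
      (M.prog n).next x (some (.inl (c.1, c.2.1))) (M.stk c.2.2) = some (m, w) ∧
      M.nodeAcc n m = false ∧
      (M.prog n).next x m w =
        some (some (.inl ((M.step x c).1, (M.step x c).2.1)), M.stk (M.step x c).2.2) := by
  obtain ⟨q, p, z⟩ := c
  rcases hq : M.instr q with ⟨h, f⟩ | ⟨h, q'⟩ | ⟨h, q', q''⟩ | ⟨g, q'⟩ | ⟨f⟩
  · by_cases hp : (p h).val < n
    · refine ⟨some (.inr (.inl (f (some (x ⟨_, hp⟩)), p))), M.stk z, ?_, rfl, ?_⟩
      · simp only [PushProg.next, HeadPDA.prog, HeadPDA.nodeInstr, hq, hp, dite_true]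
      · simp only [PushProg.next, HeadPDA.prog, HeadPDA.nodeInstr, HeadPDA.step, hq, hp, dite_true]
    · refine ⟨some (.inr (.inl (f none, p))), M.stk z, ?_, rfl, ?_⟩
      · simp only [PushProg.next, HeadPDA.prog, HeadPDA.nodeInstr, hq, hp, dite_false]
      · simp only [PushProg.next, HeadPDA.prog, HeadPDA.nodeInstr, HeadPDA.step, hq, hp,
          dite_false]
  · refine ⟨some (.inr (.inl (q', Function.update p h ⟨min ((p h).val + 1) n, by omega⟩))),
      M.stk z, ?_, rfl, ?_⟩
    · simp only [PushProg.next, HeadPDA.prog, HeadPDA.nodeInstr, hq]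
    · simp only [PushProg.next, HeadPDA.prog, HeadPDA.nodeInstr, HeadPDA.step, hq]
  · by_cases hp : (p h).val = 0
    · refine ⟨some (.inr (.inl (q'', p))), M.stk z, ?_, rfl, ?_⟩
      · simp only [PushProg.next, HeadPDA.prog, HeadPDA.nodeInstr, hq, hp, if_true]
      · simp only [PushProg.next, HeadPDA.prog, HeadPDA.nodeInstr, HeadPDA.step, hq, hp, if_true]
    · refine ⟨some (.inr (.inl (q', Function.update p h ⟨(p h).val - 1, by omega⟩))),
        M.stk z, ?_, rfl, ?_⟩
      · simp only [PushProg.next, HeadPDA.prog, HeadPDA.nodeInstr, hq, hp, if_false]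
      · simp only [PushProg.next, HeadPDA.prog, HeadPDA.nodeInstr, HeadPDA.step, hq, hp, if_false]
  · refine ⟨some (.inr (.inl (q', p))), some g :: M.stk z, ?_, rfl, ?_⟩
    · simp only [PushProg.next, HeadPDA.prog, HeadPDA.nodeInstr, hq]
    · simp only [PushProg.next, HeadPDA.prog, HeadPDA.nodeInstr, HeadPDA.step, hq, HeadPDA.stk,
        List.map_cons, List.cons_append]
  · rcases z with _ | ⟨g, z⟩
    · refine ⟨some (.inr (.inr (f none, p))), [], ?_, rfl, ?_⟩
      · simp only [PushProg.next, HeadPDA.prog, HeadPDA.nodeInstr, hq, HeadPDA.stk, List.map_nil,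
          List.nil_append]
      · simp only [PushProg.next, HeadPDA.prog, HeadPDA.nodeInstr, HeadPDA.step, hq, HeadPDA.stk,
          List.head?_nil, List.tail_nil, List.map_nil, List.nil_append]
    · refine ⟨some (.inr (.inl (f (some g), p))), M.stk z, ?_, rfl, ?_⟩
      · simp only [PushProg.next, HeadPDA.prog, HeadPDA.nodeInstr, hq, HeadPDA.stk, List.map_cons,
          List.cons_append]
      · simp only [PushProg.next, HeadPDA.prog, HeadPDA.nodeInstr, HeadPDA.step, hq,
          List.head?_cons, List.tail_cons]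

theorem dch_conf_succ {ι : Type} (P : PushProg ι α) (x : ι → α) (t : ℕ) {s s' : P.S}
    {z z' : List P.Γ} (h : P.next x s z = some (s', z')) :
    P.conf x (t + 1) s z = P.conf x t s' z' := by
  rw [PushProg.conf, h, Option.bind_some]

/-- The configurations after an even number of steps. -/
theorem HeadPDA.prog_even (M : HeadPDA α) {n : ℕ} (x : Fin n → α) (u : ℕ) :
    ∀ c : M.Conf n, (M.prog n).conf x (2 * u) (some (.inl (c.1, c.2.1))) (M.stk c.2.2) =
      some (some (.inl (((M.step x)^[u] c).1, ((M.step x)^[u] c).2.1)),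
        M.stk ((M.step x)^[u] c).2.2) := by
  induction u with
  | zero => intro c; rfl
  | succ u ih =>
    intro c
    obtain ⟨m, w, h1, -, h2⟩ := M.prog_step x c
    refine (dch_conf_succ (M.prog n) x (2 * u + 1) h1).trans
      ((dch_conf_succ (M.prog n) x (2 * u) h2).trans ?_)
    rw [Function.iterate_succ_apply]
    exact ih (M.step x c)

/-- The configurations after an odd number of steps are not accepting. -/
theorem HeadPDA.prog_odd (M : HeadPDA α) {n : ℕ} (x : Fin n → α) (u : ℕ) :
    ∀ c : M.Conf n, ∃ (m : M.Node n) (w : List (Option M.Γ)),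
      (M.prog n).conf x (2 * u + 1) (some (.inl (c.1, c.2.1))) (M.stk c.2.2) = some (m, w) ∧
      M.nodeAcc n m = false := by
  induction u with
  | zero =>
    intro c
    obtain ⟨m, w, h1, h3, -⟩ := M.prog_step x c
    exact ⟨m, w, dch_conf_succ (M.prog n) x 0 h1, h3⟩
  | succ u ih =>
    intro c
    obtain ⟨m, w, h1, -, h2⟩ := M.prog_step x c
    obtain ⟨m', w', h4, h5⟩ := ih (M.step x c)
    exact ⟨m', w', (dch_conf_succ (M.prog n) x (2 * u + 1 + 1) h1).trans
      ((dch_conf_succ (M.prog n) x (2 * u + 1) h2).trans h4), h5⟩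

theorem HeadPDA.prog_start (M : HeadPDA α) {n : ℕ} (x : Fin n → α) (t : ℕ) :
    (M.prog n).conf x (t + 1) (M.prog n).start [] =
      (M.prog n).conf x t (some (.inl (M.start, fun _ => 0))) (M.stk []) := by
  rfl

theorem head_prog {α : Type} (M : HeadPDA α) : ∃ c : ℕ, ∀ n : ℕ, ∃ P : PushProg (Fin n) α,
    Fintype.card P.S ≤ c * (n + 1) ^ M.k ∧
    ∀ (x : Fin n → α) (T : ℕ), P.AcceptsIn x (2 * T + 1) ↔ M.AcceptsIn x T := by
  refine ⟨3 * Fintype.card M.Q + 1, fun n => ⟨M.prog n, ?_, fun x T => ⟨?_, ?_⟩⟩⟩
  · have h1 : Fintype.card (M.prog n).S = Fintype.card (M.Node n) := rfl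
    rw [h1]
    simp only [HeadPDA.Node, Fintype.card_option, Fintype.card_sum, Fintype.card_prod,
      Fintype.card_fun, Fintype.card_fin]
    have h2 : 1 ≤ (n + 1) ^ M.k := Nat.one_le_pow _ _ (Nat.succ_pos n)
    nlinarith
  · rintro ⟨t, ht, s, z, h1, h2⟩
    rcases t with _ | t
    · have h3 : (M.prog n).start = s := congrArg Prod.fst (Option.some.inj h1)
      subst h3
      exact absurd h2 Bool.false_ne_true
    · rw [M.prog_start x t] at h1
      rcases Nat.even_or_odd' t with ⟨u, rfl | rfl⟩
      · have h3 := congrArg Prod.fst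
          (Option.some.inj (h1.symm.trans (M.prog_even x u (M.start, fun _ => 0, []))))
        subst h3
        exact ⟨u, by omega, h2⟩
      · obtain ⟨m, w, h3, h4⟩ := M.prog_odd x u (M.start, fun _ => 0, [])
        have h5 := congrArg Prod.fst (Option.some.inj (h1.symm.trans h3))
        subst h5
        exact absurd (h2.symm.trans h4) (by decide)
  · rintro ⟨u, hu, h1⟩
    exact ⟨2 * u + 1, by omega, some (.inl (((M.step x)^[u] (M.start, fun _ => 0, [])).1,
      ((M.step x)^[u] (M.start, fun _ => 0, [])).2.1)),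
      M.stk ((M.step x)^[u] (M.start, fun _ => 0, [])).2.2,
      M.prog_even x u (M.start, fun _ => 0, []), h1⟩

end Pool.Agent.MP_6216ea_lc
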