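import Pool.Agent.Lib.MP_6216ea_lc.DCMain
import Pool.Agent.Lib.MP_6216ea_lc.DCHead

/-! The bound for polynomial size and time; multi-head pushdown automata. -/

set_option autoImplicit false

namespace Pool.Agent.MP_6216ea_lc

theorem pow_bound {C : ℝ} (hC : 0 < C) {n e : ℕ} (hn : 3 ≤ n) (he : 1 ≤ e) :
    ((n ^ e : ℕ) : ℝ) ^ (C * Real.log ((n ^ e : ℕ) : ℝ) / Real.log (Real.log ((n ^ e : ℕ) : ℝ))) ≤
      (n : ℝ) ^ (C * (e : ℝ) ^ 2 * Real.log n / Real.log (Real.log n)) := by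
  have hn' : (3 : ℝ) ≤ n := by exact_mod_cast hn
  have hn0 : (0 : ℝ) < n := by linarith
  have he' : (1 : ℝ) ≤ e := by exact_mod_cast he
  have hlog1 : 1 < Real.log n := by
    rw [Real.lt_log_iff_exp_lt hn0]
    exact lt_of_lt_of_le (Real.exp_one_lt_d9.trans (by norm_num)) hn'
  have hll : 0 < Real.log (Real.log n) := Real.log_pos hlog1
  have h1 : Real.log ((n ^ e : ℕ) : ℝ) = e * Real.log n := by
    rw [Nat.cast_pow, Real.log_pow]
  have hmul : Real.log n ≤ e * Real.log n := by nlinarith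
  have h2 : Real.log (Real.log n) ≤ Real.log (e * Real.log n) :=
    Real.log_le_log (by linarith) hmul
  rw [h1, Nat.cast_pow, ← Real.rpow_natCast (n : ℝ) e, ← Real.rpow_mul hn0.le]
  apply Real.rpow_le_rpow_of_exponent_le (by linarith)
  rw [← mul_div_assoc, show (e : ℝ) * (C * (e * Real.log n)) = C * (e : ℝ) ^ 2 * Real.log n by ring]
  apply div_le_div_of_nonneg_left _ hll h2
  positivity

/-- Polynomial size and polynomial time. -/
theorem push_poly (c : ℕ) : ∃ C : ℝ, ∀ (ι α : Type) (P : PushProg ι α) (n T : ℕ), 3 ≤ n →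
    Fintype.card P.S ≤ n ^ c → T ≤ n ^ c → ∃ B : LetterNBP ι α,
      (Fintype.card B.V : ℝ) ≤ (n : ℝ) ^ (C * Real.log n / Real.log (Real.log n)) ∧
        ∀ x, B.Accepts x ↔ P.AcceptsIn x T := by
  obtain ⟨C, hC, h⟩ := push_main
  refine ⟨C * ((c + 1 : ℕ) : ℝ) ^ 2, fun ι α P n T hn hS hT => ?_⟩
  have hmono : n ^ c ≤ n ^ (c + 1) := Nat.pow_le_pow_right (by omega) (by omega)
  have h3 : 3 ≤ n ^ (c + 1) := hn.trans (Nat.le_self_pow (by omega) n)
  obtain ⟨B, hB, hacc⟩ := h ι α P T (n ^ (c + 1)) h3 (hS.trans hmono) (hT.trans hmono)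
  exact ⟨B, hB.trans (pow_bound hC hn (by omega)), hacc⟩

/-- Two-way multi-head deterministic pushdown automata in polynomial time. -/
theorem head_main {α : Type} (M : HeadPDA α) (c : ℕ) : ∃ C : ℝ, ∀ n : ℕ, 3 ≤ n →
    ∃ B : LetterNBP (Fin n) α,
      (Fintype.card B.V : ℝ) ≤ (n : ℝ) ^ (C * Real.log n / Real.log (Real.log n)) ∧
        ∀ x, B.Accepts x ↔ M.AcceptsIn x (n ^ c) := by
  obtain ⟨c', h⟩ := head_prog M
  obtain ⟨C, hC⟩ := push_poly (c' + 2 * M.k + c + 2)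
  refine ⟨C, fun n hn => ?_⟩
  obtain ⟨P, hP, hacc⟩ := h n
  have h1 : c' * (n + 1) ^ M.k ≤ n ^ (c' + 2 * M.k + c + 2) := by
    have h2 : n + 1 ≤ n ^ 2 := by nlinarith
    have h3 : c' ≤ n ^ c' := (Nat.lt_pow_self (by omega)).le
    calc c' * (n + 1) ^ M.k ≤ n ^ c' * (n ^ 2) ^ M.k := by gcongr
      _ = n ^ (c' + 2 * M.k) := by rw [← pow_mul, ← pow_add]
      _ ≤ _ := Nat.pow_le_pow_right (by omega) (by omega)
  have h2 : 2 * n ^ c + 1 ≤ n ^ (c' + 2 * M.k + c + 2) := by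
    have h3 : 1 ≤ n ^ c := Nat.one_le_pow _ _ (by omega)
    calc 2 * n ^ c + 1 ≤ n ^ c * 3 := by omega
      _ ≤ n ^ c * n := Nat.mul_le_mul_left _ hn
      _ = n ^ (c + 1) := (pow_succ _ _).symm
      _ ≤ _ := Nat.pow_le_pow_right (by omega) (by omega)
  obtain ⟨B, hB, hB'⟩ := hC (Fin n) α P n (2 * n ^ c + 1) hn (hP.trans h1) h2
  exact ⟨B, hB, fun x => (hB' x).trans (hacc x _)⟩

end Pool.Agent.MP_6216ea_lc
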