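import Mathlib

set_option autoImplicit false

namespace Pool.Agent.MP_6216ea_lc

/-- A nondeterministic branching program over the variables `x i`, `i : ι`: a finite directed
graph with a source and a target. An edge with label `none` is always open, an edge with label
`some (i, b)` is open iff `x i = b`. -/
structure NBP (ι : Type) where
  V : Type
  fin : Fintype V
  edge : V → Option (ι × Bool) → V → Prop
  source : V
  target : V

attribute [instance] NBP.fin

/-- The edges with label `l` are open on the input `x`. -/
def Opens {ι : Type} (x : ι → Bool) (l : Option (ι × Bool)) : Prop :=
  ∀ i b, l = some (i, b) → x i = b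

/-- Reachability along edges that are open on the input `x`. -/
def NBP.Reach {ι : Type} (P : NBP ι) (x : ι → Bool) : P.V → P.V → Prop :=
  Relation.ReflTransGen (fun u v => ∃ l, P.edge u l v ∧ Opens x l)

/-- The program accepts `x` if the target can be reached from the source along open edges. -/
def NBP.Accepts {ι : Type} (P : NBP ι) (x : ι → Bool) : Prop := P.Reach x P.source P.target

/-- `P.Walk i u v r`: some walk from `u` to `v` (along arbitrary edges, consistent or not) has
exactly `r` edges whose label tests the variable `i`. -/
inductive NBP.Walk {ι : Type} (P : NBP ι) (i : ι) : P.V → P.V → ℕ → Prop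
  | nil (u : P.V) : NBP.Walk P i u u 0
  | skip {u v w : P.V} {l : Option (ι × Bool)} {r : ℕ} : NBP.Walk P i u v r → P.edge v l w →
      (∀ b, l ≠ some (i, b)) → NBP.Walk P i u w r
  | read {u v w : P.V} {b : Bool} {r : ℕ} : NBP.Walk P i u v r → P.edge v (some (i, b)) w →
      NBP.Walk P i u w (r + 1)

/-- Syntactic read-`k`-times: every walk from the source to the target tests every variable at
most `k` times. -/
def NBP.ReadAtMost {ι : Type} (P : NBP ι) (k : ℕ) : Prop :=
  ∀ i r, P.Walk i P.source P.target r → r ≤ k

/-- A realtime deterministic pushdown automaton. In state `q`, reading the letter `t` with top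
stack symbol `s.head?` (`none` if the stack is empty) it stops (`none`), or it changes to the
state `q'` and replaces the top symbol by the string `γ` (`some (q', γ)`). -/
structure DPDA (T : Type) where
  Q : Type
  S : Type
  finQ : Fintype Q
  finS : Fintype S
  start : Q
  accept : Q → Bool
  step : Q → T → Option S → Option (Q × List S)

attribute [instance] DPDA.finQ DPDA.finS

/-- The computation on a word from a state and a stack (top first). -/
def DPDA.run {T : Type} (M : DPDA T) : M.Q → List M.S → List T → Option (M.Q × List M.S)
  | q, s, [] => some (q, s)
  | q, s, t :: w => match M.step q t s.head? with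
    | none => none
    | some (q', γ) => DPDA.run M q' (γ ++ s.tail) w

/-- The language accepted by final state and empty stack, starting from the empty stack. -/
def DPDA.language {T : Type} (M : DPDA T) : Language T :=
  {w | ∃ q, M.accept q = true ∧ M.run M.start [] w = some (q, [])}

/-- The word with letters `g i` and bits `x i`. -/
def word {Γ : Type} {n : ℕ} (g : Fin n → Γ) (x : Fin n → Bool) : List (Γ × Bool) :=
  List.ofFn fun i => (g i, x i)

end Pool.Agent.MP_6216ea_lc
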