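import Pool.Agent.Lib.MP_6216ea_lc.DCModel
import Pool.Agent.Lib.MP_6216ea_lc.RKDefs

/-! Realtime deterministic pushdown automata as deterministic pushdown programs of linear size and
time. -/

set_option autoImplicit false

namespace Pool.Agent.MP_6216ea_lc

namespace DCDpda

variable {α : Type}

/-- The symbols pushed at the transition `(q, a, o)`, top first (with the bottom marker `none` if
it was popped). -/
def pushes (M : DPDA α) (q : M.Q) (a : α) (o : Option M.S) : List (Option M.S) :=
  match M.step q a o with
  | none => []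
  | some p => p.2.map some ++ (match o with | none => [none] | some _ => [])

/-- The maximal number of symbols pushed at a transition. -/
def bd [Fintype α] (M : DPDA α) : ℕ :=
  Finset.univ.sup fun p : M.Q × α × Option M.S => (pushes M p.1 p.2.1 p.2.2).length

theorem length_le [Fintype α] (M : DPDA α) (q : M.Q) (a : α) (o : Option M.S) :
    (pushes M q a o).length ≤ bd M :=
  Finset.le_sup (f := fun p : M.Q × α × Option M.S => (pushes M p.1 p.2.1 p.2.2).length)
    (Finset.mem_univ (q, a, o))

/-- The kinds of nodes at one time. -/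
abbrev Nd [Fintype α] (M : DPDA α) : Type :=
  M.Q ⊕ (M.Q × Option M.S) ⊕ (M.Q × α × Option M.S × Fin (bd M + 1))

/-- The nodes: `none` is the start node. -/
abbrev St [Fintype α] (M : DPDA α) (n : ℕ) : Type := Option (Fin (n + 1) × Nd M)

/-- The instructions. -/
def ins [Fintype α] (M : DPDA α) (n : ℕ) : St M n → PInstr (Fin n) α (Option M.S) (St M n)
  | none => .push none (some (0, .inl M.start))
  | some (i, .inl q) => .pop fun o => some (i, .inr (.inl (q, o)))
  | some (i, .inr (.inl (q, o))) =>
    if h : (i : ℕ) < n then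
      .read ⟨i, h⟩ fun a => some (⟨i + 1, Nat.succ_lt_succ h⟩,
        .inr (.inr (q, a, o, ⟨(pushes M q a o).length, Nat.lt_succ_of_le (length_le M q a o)⟩)))
    else .jump (some (i, .inr (.inl (q, o))))
  | some (i, .inr (.inr (q, a, o, ⟨0, h⟩))) =>
    match M.step q a o with
    | none => .jump (some (i, .inr (.inr (q, a, o, ⟨0, h⟩))))
    | some p => .jump (some (i, .inl p.1))
  | some (i, .inr (.inr (q, a, o, ⟨j + 1, h⟩))) =>
    .push ((pushes M q a o).getD j none)
      (some (i, .inr (.inr (q, a, o, ⟨j, Nat.lt_of_succ_lt h⟩))))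

/-- The accepting nodes. -/
def ac [Fintype α] (M : DPDA α) (n : ℕ) : St M n → Bool
  | some (i, .inr (.inl (q, none))) => decide ((i : ℕ) = n) && M.accept q
  | _ => false

/-- The program. -/
def prog [Fintype α] (M : DPDA α) (n : ℕ) : PushProg (Fin n) α where
  S := St M n
  Γ := Option M.S
  fin := inferInstance
  instr := ins M n
  start := none
  acc := ac M n

/-- The stack of the program. -/
def enc (M : DPDA α) (s : List M.S) : List (Option M.S) := s.map some ++ [none]

theorem conf_add {ι β : Type} (P : PushProg ι β) (x : ι → β) (k l : ℕ) (s : P.S)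
    (z : List P.Γ) :
    P.conf x (k + l) s z = (P.conf x k s z).bind fun c => P.conf x l c.1 c.2 := by
  induction k generalizing s z with
  | zero => simp [PushProg.conf]
  | succ k ih =>
    rw [Nat.succ_add]
    simp only [PushProg.conf]
    cases hn : P.next x s z with
    | none => simp
    | some c => simp [ih]

theorem conf_trans {ι β : Type} {P : PushProg ι β} {x : ι → β} {k l : ℕ} {s s' : P.S}
    {z z' : List P.Γ} {r : Option (P.S × List P.Γ)}
    (h1 : P.conf x k s z = some (s', z')) (h2 : P.conf x l s' z' = r) :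
    P.conf x (k + l) s z = r := by
  rw [conf_add, h1]
  exact h2

theorem conf_one {ι β : Type} {P : PushProg ι β} {x : ι → β} {s : P.S}
    {z : List P.Γ} : P.conf x 1 s z = P.next x s z := by
  simp only [PushProg.conf]
  cases P.next x s z with
  | none => rfl
  | some c => rfl

theorem conf_stay {ι β : Type} {P : PushProg ι β} {x : ι → β} {s : P.S}
    {z : List P.Γ} (h : P.instr s = .jump s) (k : ℕ) : P.conf x k s z = some (s, z) := by
  induction k with
  | zero => rfl
  | succ k ih =>
    simp only [PushProg.conf, PushProg.next, h]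
    exact ih

/-- Two nodes that jump to themselves, both reached, are equal. -/
theorem stay_unique {ι β : Type} {P : PushProg ι β} {x : ι → β} {s₀ s s' : P.S}
    {z₀ z z' : List P.Γ} (h : P.instr s = .jump s) (h' : P.instr s' = .jump s') {k l : ℕ}
    (hk : P.conf x k s₀ z₀ = some (s, z)) (hl : P.conf x l s₀ z₀ = some (s', z')) :
    s = s' ∧ z = z' := by
  have e1 := conf_trans hk (conf_stay (x := x) (z := z) h l)
  have e2 := conf_trans hl (conf_stay (x := x) (z := z') h' k)
  rw [Nat.add_comm l k, e1] at e2
  simpa using e2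

theorem conf_push [Fintype α] (M : DPDA α) (n : ℕ) (x : Fin n → α) (i : Fin (n + 1)) (q : M.Q)
    (a : α) (o : Option M.S) (j : ℕ) (hj : j < bd M + 1) (hl : j ≤ (pushes M q a o).length)
    (z : List (Option M.S)) :
    (prog M n).conf x j (some (i, .inr (.inr (q, a, o, ⟨j, hj⟩))) : St M n) z =
      some ((some (i, .inr (.inr (q, a, o, ⟨0, Nat.succ_pos _⟩))) : St M n),
        (pushes M q a o).take j ++ z) := by
  induction j generalizing z with
  | zero => rfl
  | succ j ih =>
    have h1 := ih (Nat.lt_of_succ_lt hj) (Nat.le_of_succ_le hl)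
      ((pushes M q a o).getD j none :: z)
    simp only [PushProg.conf]
    have h2 : (prog M n).next x (some (i, .inr (.inr (q, a, o, ⟨j + 1, hj⟩))) : St M n) z =
        some ((some (i, .inr (.inr (q, a, o, ⟨j, Nat.lt_of_succ_lt hj⟩))) : St M n),
          (pushes M q a o).getD j none :: z) := rfl
    rw [h2]
    refine h1.trans ?_
    have h3 : (pushes M q a o).take (j + 1) =
        (pushes M q a o).take j ++ [(pushes M q a o).getD j none] := by
      rw [List.take_add_one, List.getD_eq_getElem?_getD,
        List.getElem?_eq_getElem (Nat.lt_of_succ_le hl)]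
      rfl
    rw [h3]
    simp

/-- From time `i` to the end of the pushes of the transition. -/
theorem conf_mid [Fintype α] (M : DPDA α) (n : ℕ) (x : Fin n → α) (i : ℕ) (hi : i < n) (q : M.Q)
    (s : List M.S) :
    (prog M n).conf x (2 + (pushes M q (x ⟨i, hi⟩) s.head?).length)
      (some (⟨i, Nat.lt_succ_of_lt hi⟩, .inl q) : St M n) (enc M s) =
      some ((some (⟨i + 1, Nat.succ_lt_succ hi⟩,
        .inr (.inr (q, x ⟨i, hi⟩, s.head?, ⟨0, Nat.succ_pos _⟩))) : St M n),
        pushes M q (x ⟨i, hi⟩) s.head? ++ (enc M s).tail) := by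
  have h1 : (prog M n).next x (some (⟨i, Nat.lt_succ_of_lt hi⟩, .inl q) : St M n) (enc M s) =
      some ((some (⟨i, Nat.lt_succ_of_lt hi⟩, .inr (.inl (q, s.head?))) : St M n),
        (enc M s).tail) := by
    cases s <;> rfl
  have h2 : (prog M n).next x
      (some (⟨i, Nat.lt_succ_of_lt hi⟩, .inr (.inl (q, s.head?))) : St M n) (enc M s).tail =
      some ((some (⟨i + 1, Nat.succ_lt_succ hi⟩, .inr (.inr (q, x ⟨i, hi⟩, s.head?,
        ⟨(pushes M q (x ⟨i, hi⟩) s.head?).length,
          Nat.lt_succ_of_le (length_le M q (x ⟨i, hi⟩) s.head?)⟩))) : St M n),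
        (enc M s).tail) := by
    simp only [PushProg.next, prog, ins]
    rw [dif_pos hi]
  have h3 := conf_push M n x ⟨i + 1, Nat.succ_lt_succ hi⟩ q (x ⟨i, hi⟩) s.head? _
    (Nat.lt_succ_of_le (length_le M q (x ⟨i, hi⟩) s.head?)) le_rfl (enc M s).tail
  rw [List.take_length] at h3
  exact conf_trans (k := 2) (conf_trans (k := 1) (conf_one.trans h1) (conf_one.trans h2)) h3

theorem pushes_enc (M : DPDA α) (q : M.Q) (a : α) (s : List M.S) (q' : M.Q) (γ : List M.S)
    (h : M.step q a s.head? = some (q', γ)) :
    pushes M q a s.head? ++ (enc M s).tail = enc M (γ ++ s.tail) := by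
  unfold pushes enc
  rw [h]
  cases s <;> simp

/-- One letter. -/
theorem conf_letter [Fintype α] (M : DPDA α) (n : ℕ) (x : Fin n → α) (i : ℕ) (hi : i < n)
    (q : M.Q) (s : List M.S) (q' : M.Q) (γ : List M.S)
    (h : M.step q (x ⟨i, hi⟩) s.head? = some (q', γ)) :
    (prog M n).conf x (2 + (pushes M q (x ⟨i, hi⟩) s.head?).length + 1)
      (some (⟨i, Nat.lt_succ_of_lt hi⟩, .inl q) : St M n) (enc M s) =
      some ((some (⟨i + 1, Nat.succ_lt_succ hi⟩, .inl q') : St M n), enc M (γ ++ s.tail)) := by
  refine conf_trans (conf_mid M n x i hi q s) ?_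
  rw [conf_one, ← pushes_enc M q (x ⟨i, hi⟩) s q' γ h]
  simp only [PushProg.next, prog, ins]
  rw [h]

theorem drop_ofFn {n : ℕ} (x : Fin n → α) (i : ℕ) (hi : i < n) :
    (List.ofFn x).drop i = x ⟨i, hi⟩ :: (List.ofFn x).drop (i + 1) := by
  rw [List.drop_eq_getElem_cons (by simpa using hi)]
  simp

/-- The whole run. -/
theorem conf_run [Fintype α] (M : DPDA α) (n : ℕ) (x : Fin n → α) (k : ℕ) : ∀ (i : ℕ)
    (hi : i + k = n) (q : M.Q) (s : List M.S),
    (∀ q' s', M.run q s ((List.ofFn x).drop i) = some (q', s') →
      ∃ t ≤ (bd M + 3) * k, (prog M n).conf x t (some (⟨i, by omega⟩, .inl q) : St M n) (enc M s) =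
        some ((some (⟨n, Nat.lt_succ_self n⟩, .inl q') : St M n), enc M s')) ∧
    (M.run q s ((List.ofFn x).drop i) = none →
      ∃ t z, ∃ (j : Fin (n + 1)) (q' : M.Q) (a : α) (o : Option M.S), M.step q' a o = none ∧
        (prog M n).conf x t (some (⟨i, by omega⟩, .inl q) : St M n) (enc M s) =
        some ((some (j, .inr (.inr (q', a, o, ⟨0, Nat.succ_pos _⟩))) : St M n), z)) := by
  induction k with
  | zero =>
    intro i hi q s
    have hin : i = n := by omega
    subst hin
    have h0 : (List.ofFn x).drop i = [] := by simp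
    rw [h0]
    constructor
    · intro q' s' h
      have h' : q = q' ∧ s = s' := by simpa [DPDA.run] using h
      obtain ⟨rfl, rfl⟩ := h'
      exact ⟨0, Nat.zero_le _, rfl⟩
    · intro h
      simp [DPDA.run] at h
  | succ k ih =>
    intro i hi q s
    have hin : i < n := by omega
    rw [drop_ofFn x i hin]
    cases hst : M.step q (x ⟨i, hin⟩) s.head? with
    | none =>
      constructor
      · intro q' s' h
        simp [DPDA.run, hst] at h
      · intro _
        exact ⟨_, _, _, q, x ⟨i, hin⟩, s.head?, hst, conf_mid M n x i hin q s⟩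
    | some p =>
      obtain ⟨q₁, γ⟩ := p
      have h1 := conf_letter M n x i hin q s q₁ γ hst
      have h2 := ih (i + 1) (by omega) q₁ (γ ++ s.tail)
      have h3 : M.run q s (x ⟨i, hin⟩ :: (List.ofFn x).drop (i + 1)) =
          M.run q₁ (γ ++ s.tail) ((List.ofFn x).drop (i + 1)) := by
        simp only [DPDA.run, hst]
      rw [h3]
      constructor
      · intro q' s' h
        obtain ⟨t, ht, hc⟩ := h2.1 q' s' h
        refine ⟨_, ?_, conf_trans h1 hc⟩
        have hl := length_le M q (x ⟨i, hin⟩) s.head?
        calc 2 + (pushes M q (x ⟨i, hin⟩) s.head?).length + 1 + t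
            ≤ 2 + bd M + 1 + (bd M + 3) * k := by omega
          _ = (bd M + 3) * (k + 1) := by ring
      · intro h
        obtain ⟨t, z, j, q', a, o, hn, hc⟩ := h2.2 h
        exact ⟨_, z, j, q', a, o, hn, conf_trans h1 hc⟩

theorem stay_acc [Fintype α] (M : DPDA α) (n : ℕ) (s : St M n) (h : ac M n s = true) :
    ins M n s = .jump s ∧ ∃ q, M.accept q = true ∧
      s = some (⟨n, Nat.lt_succ_self n⟩, .inr (.inl (q, none))) := by
  match s, h with
  | some (i, .inr (.inl (q, none))), h =>
    have h' : (i : ℕ) = n ∧ M.accept q = true := by simpa [ac] using h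
    refine ⟨?_, q, h'.2, ?_⟩
    · simp only [ins]
      rw [dif_neg (by omega)]
    · have : i = ⟨n, Nat.lt_succ_self n⟩ := Fin.ext h'.1
      rw [this]

end DCDpda

open DCDpda in
/-- Realtime deterministic pushdown automata can be simulated by deterministic pushdown programs
of linear size in linear time. -/
theorem dpda_prog {α : Type} [Fintype α] (M : DPDA α) :
    ∃ c : ℕ, ∀ n : ℕ, ∃ P : PushProg (Fin n) α, Fintype.card P.S ≤ c * (n + 1) ∧
      ∀ x : Fin n → α, P.AcceptsIn x (c * (n + 1)) ↔ List.ofFn x ∈ M.language := by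
  refine ⟨Fintype.card (Nd M) + bd M + 3, fun n => ⟨prog M n, ?_, fun x => ?_⟩⟩
  · have h1 : Fintype.card (prog M n).S = (n + 1) * Fintype.card (Nd M) + 1 := by
      have : Fintype.card (prog M n).S = Fintype.card (Option (Fin (n + 1) × Nd M)) := rfl
      rw [this, Fintype.card_option, Fintype.card_prod, Fintype.card_fin]
    rw [h1]
    nlinarith [Nat.zero_le (bd M), Nat.zero_le n, Nat.zero_le (bd M * n)]
  · have hs : (prog M n).conf x 1 (none : St M n) [] =
        some ((some (0, .inl M.start) : St M n), enc M []) := rfl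
    have hr := conf_run M n x n 0 (by omega) M.start []
    rw [List.drop_zero] at hr
    constructor
    · rintro ⟨t, _, s, z, hc, ha⟩
      obtain ⟨hst, q, hq, hsq⟩ := stay_acc M n s ha
      cases hrun : M.run M.start [] (List.ofFn x) with
      | none =>
        obtain ⟨t', z', j, q', a, o, hn, hc'⟩ := hr.2 hrun
        have hj : (prog M n).instr (some (j, .inr (.inr (q', a, o, ⟨0, Nat.succ_pos _⟩))) : St M n)
            = .jump (some (j, .inr (.inr (q', a, o, ⟨0, Nat.succ_pos _⟩))) : St M n) := by
          simp only [prog, ins]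
          rw [hn]
        have h5 := (stay_unique hst hj hc (conf_trans hs hc')).1
        rw [hsq] at h5
        have h6 := congrArg Prod.snd (Option.some.inj h5)
        simp at h6
      | some p =>
        obtain ⟨q', s'⟩ := p
        obtain ⟨t', _, hc'⟩ := hr.1 q' s' hrun
        have h1 : (prog M n).next x (some (⟨n, Nat.lt_succ_self n⟩, .inl q') : St M n)
            (enc M s') =
            some ((some (⟨n, Nat.lt_succ_self n⟩, .inr (.inl (q', s'.head?))) : St M n),
              (enc M s').tail) := by
          cases s' <;> rfl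
        have hj : (prog M n).instr
            (some (⟨n, Nat.lt_succ_self n⟩, .inr (.inl (q', s'.head?))) : St M n)
            = .jump (some (⟨n, Nat.lt_succ_self n⟩, .inr (.inl (q', s'.head?))) : St M n) := by
          simp only [prog, ins]
          rw [dif_neg (lt_irrefl n)]
        have h5 := (stay_unique hst hj hc
          (conf_trans (conf_trans hs hc') (conf_one.trans h1))).1
        rw [hsq] at h5
        have h6 := congrArg Prod.snd (Option.some.inj h5)
        have h2 : q = q' ∧ none = s'.head? := by simpa using h6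
        obtain ⟨rfl, h3⟩ := h2
        have h4 : s' = [] := by
          cases s' with
          | nil => rfl
          | cons b s' => simp at h3
        subst h4
        exact ⟨q, hq, hrun⟩
    · rintro ⟨q, hq, hrun⟩
      obtain ⟨t, ht, hc⟩ := hr.1 q [] hrun
      have h1 : (prog M n).next x (some (⟨n, Nat.lt_succ_self n⟩, .inl q) : St M n)
          (enc M []) =
          some ((some (⟨n, Nat.lt_succ_self n⟩, .inr (.inl (q, none))) : St M n), []) := rfl
      have h7 : ac M n (some (⟨n, Nat.lt_succ_self n⟩, .inr (.inl (q, none)))) = true := by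
        simp [ac, hq]
      refine ⟨1 + t + 1, ?_, _, _, conf_trans (conf_trans hs hc) (conf_one.trans h1), h7⟩
      nlinarith [Nat.zero_le (Fintype.card (Nd M)), Nat.zero_le n,
        Nat.zero_le (Fintype.card (Nd M) * n), Nat.zero_le (bd M)]

end Pool.Agent.MP_6216ea_lc
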