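import Mathlib

/-! Perfect fingerprints of masked values. -/

set_option autoImplicit false

namespace Pool.Agent.MP_6216ea_lc

/-- A family of translations `t x` and linear maps `χ x` such that the fingerprint of `t y` under
`χ x` differs from that of `t x` unless `y = x`. -/
structure FPS (X Md F : Type) [AddCommGroup Md] [AddCommGroup F] where
  t : X → Md
  χ : X → Md →+ F
  sep : ∀ x y, χ x (t y) = χ x (t x) → y = x

/-- The value of a bit in `ZMod (D + 1)`. -/
def bitv (D : ℕ) (b : Bool) : ZMod (D + 1) := if b then 1 else 0

theorem bitv_dist (D : ℕ) (a b : Bool) :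
    bitv D b - 2 * (bitv D a * bitv D b) - (bitv D a - 2 * (bitv D a * bitv D a)) =
      if a = b then 0 else 1 := by
  cases a <;> cases b <;> simp [bitv]
  all_goals ring

theorem sum_ite_zmod {D : ℕ} (u v : Fin D → Bool)
    (h : (∑ i, (if u i = v i then (0 : ZMod (D + 1)) else 1)) = 0) : u = v := by
  have h1 : (∑ i, (if u i = v i then (0 : ZMod (D + 1)) else 1)) =
      (((Finset.univ.filter fun i => ¬ u i = v i).card : ℕ) : ZMod (D + 1)) := by
    rw [Finset.card_filter, Nat.cast_sum]
    refine Finset.sum_congr rfl fun i _ => ?_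
    split_ifs <;> simp
  rw [h1, ZMod.natCast_eq_zero_iff] at h
  have h2 : (Finset.univ.filter fun i => ¬ u i = v i).card ≤ D := by
    calc _ ≤ (Finset.univ : Finset (Fin D)).card := Finset.card_le_card (Finset.filter_subset _ _)
      _ = D := by simp
  have h3 : (Finset.univ.filter fun i => ¬ u i = v i).card = 0 :=
    Nat.eq_zero_of_dvd_of_lt h (by omega)
  rw [Finset.card_eq_zero, Finset.filter_eq_empty_iff] at h3
  funext i
  have := h3 (Finset.mem_univ i)
  simpa using this

/-- The fingerprints given by an injective code with `D` bits. -/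
def fps {X : Type} {D : ℕ} (code : X → Fin D → Bool) (hc : Function.Injective code) :
    FPS X ((Fin D → ZMod (D + 1)) × ZMod (D + 1)) (ZMod (D + 1)) where
  t x := (fun i => bitv D (code x i), ∑ i, bitv D (code x i))
  χ x :=
    { toFun := fun m => m.2 - 2 * ∑ i, bitv D (code x i) * m.1 i
      map_zero' := by simp
      map_add' := by
        intro m m'
        simp only [Prod.snd_add, Prod.fst_add, Pi.add_apply, mul_add, Finset.sum_add_distrib]
        ring }
  sep := by
    intro x y h
    simp only [AddMonoidHom.coe_mk, ZeroHom.coe_mk] at h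
    apply hc
    symm
    apply sum_ite_zmod
    rw [← sub_eq_zero] at h
    refine Eq.trans ?_ h
    rw [Finset.mul_sum, Finset.mul_sum, ← Finset.sum_sub_distrib, ← Finset.sum_sub_distrib,
      ← Finset.sum_sub_distrib]
    exact Finset.sum_congr rfl fun i _ => (bitv_dist D _ _).symm

end Pool.Agent.MP_6216ea_lc
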