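import Pool.Agent.Lib.MP_6216ea_lc.DCModel

/-! Deterministic two-way multi-head pushdown automata. -/

set_option autoImplicit false

namespace Pool.Agent.MP_6216ea_lc

/-- The action in a state: `look h f` reads the letter at head `h` (`none` at the right end of the
input); `right h q` moves head `h` one cell to the right (not beyond the right end);
`left h q q'` moves head `h` one cell to the left and goes to `q`, or goes to `q'` if the head is
at the first cell; `push g q` pushes `g`; `pop f` removes the top symbol `g` and goes to
`f (some g)`, or goes to `f none` if the stack is empty. -/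
inductive HInstr (k : ℕ) (α Γ Q : Type) : Type where
  | look (h : Fin k) (f : Option α → Q)
  | right (h : Fin k) (q : Q)
  | left (h : Fin k) (q q' : Q)
  | push (g : Γ) (q : Q)
  | pop (f : Option Γ → Q)

/-- A deterministic two-way `k`-head pushdown automaton over the alphabet `α`. -/
structure HeadPDA (α : Type) where
  k : ℕ
  Q : Type
  Γ : Type
  finQ : Fintype Q
  finΓ : Fintype Γ
  instr : Q → HInstr k α Γ Q
  start : Q
  acc : Q → Bool

attribute [instance] HeadPDA.finQ HeadPDA.finΓ

/-- A configuration on inputs of length `n`: state, head positions (`n` is the right end) and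
stack (top first). -/
abbrev HeadPDA.Conf {α : Type} (M : HeadPDA α) (n : ℕ) : Type :=
  M.Q × (Fin M.k → Fin (n + 1)) × List M.Γ

/-- One step. -/
def HeadPDA.step {α : Type} (M : HeadPDA α) {n : ℕ} (x : Fin n → α) (c : M.Conf n) : M.Conf n :=
  match M.instr c.1 with
  | .look h f => (f (if hp : (c.2.1 h).val < n then some (x ⟨_, hp⟩) else none), c.2.1, c.2.2)
  | .right h q => (q, Function.update c.2.1 h ⟨min ((c.2.1 h).val + 1) n, by omega⟩, c.2.2)
  | .left h q q' =>
    if (c.2.1 h).val = 0 then (q', c.2.1, c.2.2)
    else (q, Function.update c.2.1 h ⟨(c.2.1 h).val - 1, by omega⟩, c.2.2)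
  | .push g q => (q, c.2.1, g :: c.2.2)
  | .pop f => (f c.2.2.head?, c.2.1, c.2.2.tail)

/-- An accepting state is reached within `T` steps from the start state with all heads on the
first cell and the empty stack. -/
def HeadPDA.AcceptsIn {α : Type} (M : HeadPDA α) {n : ℕ} (x : Fin n → α) (T : ℕ) : Prop :=
  ∃ t ≤ T, M.acc ((M.step x)^[t] (M.start, fun _ => 0, [])).1 = true

end Pool.Agent.MP_6216ea_lc
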