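import Mathlib

/-! Adaptive protocols: trees of calls of an oracle `A : X → X`. -/

set_option autoImplicit false

namespace Pool.Agent.MP_6216ea_lc

/-- An adaptive protocol: return a value, or ask a question and continue with the answer. -/
inductive Prot (X : Type) : Type where
  | ret (x : X) : Prot X
  | call (q : X) (k : X → Prot X) : Prot X

namespace Prot

variable {X : Type}

/-- The value of a protocol when questions are answered by `A`. -/
def eval (A : X → X) : Prot X → X
  | ret x => x
  | call q k => eval A (k (A q))

/-- At most `n` calls on every branch. -/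
def Hgt : ℕ → Prot X → Prop
  | _, ret _ => True
  | 0, call _ _ => False
  | n + 1, call _ k => ∀ a, Hgt n (k a)

/-- Sequential composition. -/
def bind : Prot X → (X → Prot X) → Prot X
  | ret x, f => f x
  | call q k, f => call q fun a => (k a).bind f

/-- Replace every call of `q` by the protocol `p q`. -/
def subst (p : X → Prot X) : Prot X → Prot X
  | ret x => ret x
  | call q k => (p q).bind fun a => subst p (k a)

theorem eval_bind (A : X → X) (P : Prot X) (f : X → Prot X) :
    eval A (P.bind f) = eval A (f (eval A P)) := by
  induction P with
  | ret x => rfl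
  | call q k ih => exact ih (A q)

theorem eval_subst (A : X → X) (p : X → Prot X) (P : Prot X) :
    eval A (subst p P) = eval (fun q => eval A (p q)) P := by
  induction P with
  | ret x => rfl
  | call q k ih =>
    simp only [subst, eval, eval_bind]
    exact ih _

theorem Hgt.mono {m n : ℕ} (h : m ≤ n) {P : Prot X} (hP : Hgt m P) : Hgt n P := by
  induction P generalizing m n with
  | ret x => cases n <;> trivial
  | call q k ih =>
    cases m with
    | zero => exact hP.elim
    | succ m =>
      cases n with
      | zero => omega
      | succ n =>
        intro a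
        exact ih a (by omega) (hP a)

theorem Hgt.bind {m n : ℕ} {P : Prot X} {f : X → Prot X} (hP : Hgt m P)
    (hf : ∀ a, Hgt n (f a)) : Hgt (m + n) (P.bind f) := by
  induction P generalizing m with
  | ret x => exact (hf x).mono (by omega)
  | call q k ih =>
    cases m with
    | zero => exact hP.elim
    | succ m =>
      have : m + 1 + n = (m + n) + 1 := by omega
      rw [this]
      intro a
      exact ih a (hP a)

theorem Hgt.subst {m n : ℕ} {p : X → Prot X} {P : Prot X} (hp : ∀ q, Hgt m (p q))
    (hP : Hgt n P) : Hgt (m * n) (subst p P) := by
  induction P generalizing n with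
  | ret x => exact (show Hgt 0 (ret x) from trivial).mono (by omega)
  | call q k ih =>
    cases n with
    | zero => exact hP.elim
    | succ n =>
      have : m * (n + 1) = m + m * n := by ring
      rw [this]
      exact (hp q).bind fun a => ih a (hP a)

/-- The protocol which computes level `i + b` from level `i`. -/
def comp (p : ℕ → X → Prot X) (i : ℕ) : ℕ → X → Prot X
  | 0, q => call q ret
  | b + 1, q => subst (comp p i b) (p (i + b) q)

theorem eval_comp (p : ℕ → X → Prot X) (A : ℕ → X → X)
    (hA : ∀ i q, A (i + 1) q = eval (A i) (p i q)) (i b : ℕ) (q : X) :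
    eval (A i) (comp p i b q) = A (i + b) q := by
  induction b generalizing q with
  | zero => rfl
  | succ b ih =>
    rw [comp, eval_subst, show i + (b + 1) = (i + b) + 1 from rfl, hA]
    congr 1
    funext q'
    exact ih q'

theorem hgt_comp {p : ℕ → X → Prot X} {c : ℕ} (hp : ∀ i q, Hgt c (p i q)) (i b : ℕ) (q : X) :
    Hgt (c ^ b) (comp p i b q) := by
  induction b generalizing q with
  | zero => intro a; trivial
  | succ b ih =>
    rw [pow_succ]
    exact Hgt.subst (fun q' => ih q') (hp _ _)

/-- Continue after the answer `a`. -/
def feed : Prot X → X → Prot X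
  | ret x, _ => ret x
  | call _ k, a => k a

/-- The rest of the protocol after `n` calls with the answers `y 0, y 1, …`. -/
def walk (P : Prot X) (y : ℕ → X) : ℕ → Prot X
  | 0 => P
  | n + 1 => feed (walk P y n) (y n)

/-- The next question (`d` if there is none). -/
def ask (d : X) : Prot X → X
  | ret _ => d
  | call q _ => q

/-- The result (`d` if there is none). -/
def res (d : X) : Prot X → X
  | ret x => x
  | call _ _ => d

theorem walk_congr (P : Prot X) (y y' : ℕ → X) (n : ℕ) (h : ∀ k < n, y k = y' k) :
    walk P y n = walk P y' n := by
  induction n with
  | zero => rfl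
  | succ n ih =>
    rw [walk, walk, ih fun k hk => h k (by omega), h n (by omega)]

theorem eval_walk (A : X → X) (d : X) (P : Prot X) (y : ℕ → X) (n : ℕ)
    (h : ∀ k < n, y k = A (ask d (walk P y k))) : eval A (walk P y n) = eval A P := by
  induction n with
  | zero => rfl
  | succ n ih =>
    rw [← ih fun k hk => h k (by omega), walk, h n (by omega)]
    cases walk P y n with
    | ret x => rfl
    | call q k => rfl

theorem hgt_walk {m : ℕ} {P : Prot X} (hP : Hgt m P) (y : ℕ → X) (n : ℕ) :
    Hgt (m - n) (walk P y n) := by
  induction n with
  | zero => exact hP
  | succ n ih =>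
    rw [walk]
    generalize walk P y n = Q at ih
    cases Q with
    | ret x => exact (show Hgt 0 (ret x) from trivial).mono (by omega)
    | call q k =>
      rcases hm : m - n with _ | m'
      · rw [hm] at ih; exact ih.elim
      · rw [hm] at ih
        have : m - (n + 1) = m' := by omega
        rw [this]
        exact ih _

/-- After `m` calls a protocol with at most `m` calls has its result. -/
theorem res_walk (A : X → X) (d : X) {m : ℕ} {P : Prot X} (hP : Hgt m P) (y : ℕ → X)
    (h : ∀ k < m, y k = A (ask d (walk P y k))) : res d (walk P y m) = eval A P := by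
  have h1 := hgt_walk hP y m
  rw [Nat.sub_self] at h1
  have h2 := eval_walk A d P y m h
  generalize walk P y m = Q at h1 h2
  cases Q with
  | ret x => exact h2
  | call q k => exact h1.elim

end Prot

end Pool.Agent.MP_6216ea_lc
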