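import Pool.Agent.Lib.MP_6216ea_lc.DCPassS
import Pool.Agent.Lib.MP_6216ea_lc.DCProt

/-! One level: from a program for `A` to a program for `q ↦ eval A (P q)`. -/

set_option autoImplicit false

namespace Pool.Agent.MP_6216ea_lc

namespace Pass

open Ins

/-- The memory seen by a program: the clear cell, the clear memory, the registers. -/
@[ext]
structure Sta (X Md W : Type) (m : ℕ) : Type where
  c : X
  w : W
  r : Fin m → Md

/-- The clear memory of one level. -/
@[ext]
structure Frm (X F : Type) (m : ℕ) : Type where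
  q : X
  a : X
  φ : Fin m → Fin m → F

variable {ι α X Md F W : Type} {m : ℕ}

/-- The part of the memory used by the lower levels. -/
def getL (s : U X Md F W m) : Sta X Md W m := ⟨s.c, s.w, s.r⟩

/-- Change the part used by the lower levels. -/
def putL (s : U X Md F W m) (u : Sta X Md W m) : U X Md F W m := ⟨u.c, s.q, s.a, s.φ, u.r, u.w⟩

/-- The memory of a level with its frame split off. -/
def toU (s : Sta X Md (Frm X F m × W) m) : U X Md F W m :=
  ⟨s.c, s.w.1.q, s.w.1.a, s.w.1.φ, s.r, s.w.2⟩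

/-- The converse of `toU`. -/
def ofU (s : U X Md F W m) : Sta X Md (Frm X F m × W) m := ⟨s.c, (⟨s.q, s.a, s.φ⟩, s.w), s.r⟩

variable [AddCommGroup Md] [AddCommGroup F]

/-- The guess of item `n`. -/
def guess (G : FPS X Md F) (d : X) (P : X → Prot X) (M n : ℕ) : Ins ι α (U X Md F W m) :=
  free fun s t => ∃ y : ℕ → X, t = ⟨if n < M then Prot.ask d (Prot.walk (P s.q) y n)
      else Prot.res d (Prot.walk (P s.q) y n), s.q, s.a, s.φ,
    fun k => if k.val < n then s.r k + G.t (y k.val) else s.r k, s.w⟩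

/-- The middle part of item `n`. -/
def midP (G : FPS X Md F) (d : X) (P : X → Prot X) (M : ℕ) (low : List (Ins ι α (Sta X Md W m)))
    (n : ℕ) : List (Ins ι α (U X Md F W m)) :=
  guess G d P M n :: (if n < M then low.map (lift getL putL) else [])

/-- The value of item `n`. -/
def itemV (d : X) (P : X → Prot X) (M : ℕ) (A : X → X) (q₀ : X) (n : ℕ) (y : ℕ → X) : X :=
  if n < M then A (Prot.ask d (Prot.walk (P q₀) y n)) else Prot.res d (Prot.walk (P q₀) y n)

/-- The program computes `A` in the cell `c`. -/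
def Computes (x : ι → α) (A : X → X) (w₀ : W) (L : List (Ins ι α (Sta X Md W m))) : Prop :=
  ∀ s t : Sta X Md W m, s.w = w₀ → (Run x L s t ↔ t = ⟨A s.c, s.w, s.r⟩)

theorem midP_ok {G : FPS X Md F} {d : X} {P : X → Prot X} {M : ℕ}
    {low : List (Ins ι α (Sta X Md W m))} {x : ι → α} {A : X → X} {w₀ : W}
    (hlow : Computes x A w₀ low) (q₀ : X) :
    MidOK G (midP G d P M low) x (itemV d P M A q₀) q₀ w₀ := by
  intro n hn s t hq hw
  unfold midP
  rw [run_cons]
  by_cases h : n < M
  · rw [if_pos h]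
    constructor
    · rintro ⟨u, hu, ht⟩
      unfold guess at hu
      rw [rel_free] at hu
      obtain ⟨y, rfl⟩ := hu
      rw [run_lift getL putL (fun _ => rfl) (fun _ _ => rfl) (fun _ _ _ => rfl)] at ht
      obtain ⟨v, hv, rfl⟩ := ht
      rw [hlow _ _ (by exact hw)] at hv
      subst hv
      refine ⟨y, ?_⟩
      unfold midS itemV
      rw [if_pos h, ← hq]
      simp only [if_pos h]
      rfl
    · rintro ⟨y, rfl⟩
      refine ⟨_, (rel_free _ _ _ _).2 ⟨y, rfl⟩, ?_⟩
      rw [run_lift getL putL (fun _ => rfl) (fun _ _ => rfl) (fun _ _ _ => rfl)]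
      refine ⟨_, (hlow _ _ (by exact hw)).2 rfl, ?_⟩
      unfold midS itemV
      rw [if_pos h, ← hq]
      simp only [if_pos h]
      rfl
  · rw [if_neg h]
    constructor
    · rintro ⟨u, hu, ht⟩
      unfold guess at hu
      rw [rel_free] at hu
      obtain ⟨y, rfl⟩ := hu
      have ht : _ = t := ht
      refine ⟨y, ?_⟩
      rw [← ht]
      unfold midS itemV
      rw [if_neg h, ← hq]
      simp only [if_neg h]
    · rintro ⟨y, rfl⟩
      refine ⟨_, (rel_free _ _ _ _).2 ⟨y, rfl⟩, ?_⟩
      change _ = _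
      unfold midS itemV
      rw [if_neg h, ← hq]
      simp only [if_neg h]

omit [AddCommGroup Md] [AddCommGroup F] in
theorem itemV_congr (d : X) (P : X → Prot X) (M : ℕ) (A : X → X) (q₀ : X) (n : ℕ) (y y' : ℕ → X)
    (h : ∀ k < n, y k = y' k) : itemV d P M A q₀ n y = itemV d P M A q₀ n y' := by
  unfold itemV
  rw [Prot.walk_congr (P q₀) y y' n h]

omit [AddCommGroup Md] [AddCommGroup F] in
/-- A sequence with prescribed recursion. -/
theorem exists_seq (d : X) (Fv : ℕ → (ℕ → X) → X)
    (hF : ∀ (n : ℕ) (y y' : ℕ → X), (∀ k < n, y k = y' k) → Fv n y = Fv n y') :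
    ∃ V : ℕ → X, ∀ n, V n = Fv n V := by
  let Z : ℕ → ℕ → X := fun n => Nat.rec (fun _ => d)
    (fun n f => Function.update f n (Fv n f)) n
  have hZ : ∀ n, Z (n + 1) = Function.update (Z n) n (Fv n (Z n)) := fun n => rfl
  have hk : ∀ n k, k < n → Z n k = Z (k + 1) k := by
    intro n
    induction n with
    | zero => intro k hk; omega
    | succ n ih =>
      intro k hk
      by_cases h : k = n
      · rw [h]
      · rw [hZ, Function.update_of_ne h]
        exact ih k (by omega)
  refine ⟨fun n => Z (n + 1) n, fun n => ?_⟩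
  change Z (n + 1) n = _
  rw [hZ, Function.update_self]
  exact hF n _ _ fun k hk' => hk n k hk'

variable [DecidableEq F]

/-- The program of the next level, on the memory with the frame split off. -/
def upU (G : FPS X Md F) (d : X) (P : X → Prot X) (M : ℕ)
    (low : List (Ins ι α (Sta X Md W (M + 1)))) : List (Ins ι α (U X Md F W (M + 1))) :=
  free (fun s t => t = ⟨d, s.c, s.a, s.φ, s.r, s.w⟩) ::
    ((loops G d (midP G d P M low) M).1 (Fin.last M) ++ (midP G d P M low M ++
      (free (HookR d (Fin.last M) (Fin.last M) lastF) ::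
        (loops G d (midP G d P M low) M).2 (Fin.last M)))) ++
    [free (fun s t => t = ⟨s.a, d, d, s.φ, s.r, s.w⟩)]

theorem upU_sem {G : FPS X Md F} {d : X} {P : X → Prot X} {M : ℕ}
    {low : List (Ins ι α (Sta X Md W (M + 1)))} {x : ι → α} {A : X → X} {w₀ : W}
    (hlow : Computes x A w₀ low) (hP : ∀ q, Prot.Hgt M (P q)) (s t : U X Md F W (M + 1))
    (hq : s.q = d) (ha : s.a = d) (hφ : ∀ j k, s.φ j k = 0) (hw : s.w = w₀) :
    Run x (upU G d P M low) s t ↔ t = ⟨Prot.eval A (P s.c), s.q, s.a, s.φ, s.r, s.w⟩ := by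
  obtain ⟨V, hV⟩ := exists_seq d (itemV d P M A s.c) (itemV_congr d P M A s.c)
  have hVM : V M = Prot.eval A (P s.c) := by
    have h1 := hV M
    unfold itemV at h1
    rw [if_neg (lt_irrefl M)] at h1
    rw [h1]
    refine Prot.res_walk A d (hP s.c) V fun k hk => ?_
    have h2 := hV k
    unfold itemV at h2
    rwa [if_pos hk] at h2
  have htop := top_sem (G := G) (d := d) (V := V)
    (midP_ok (G := G) (d := d) (P := P) (M := M) hlow s.c) (itemV_congr d P M A s.c)
    (fun n _ => hV n)
  unfold upU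
  rw [run_append]
  constructor
  · rintro ⟨v, ⟨u, hu, hv⟩, ht⟩
    rw [rel_free] at hu
    subst hu
    have hv := (htop _ v rfl rfl (by exact hw) (by exact hφ)).1 hv
    subst hv
    rw [run_one, rel_free] at ht
    rw [ht, hq, ha, ← hVM]
  · rintro rfl
    refine ⟨_, ⟨_, (rel_free _ _ _ _).2 rfl,
      (htop _ _ rfl rfl (by exact hw) (by exact hφ)).2 rfl⟩, ?_⟩
    rw [run_one, rel_free, hq, ha, ← hVM]

/-- The program of the next level. -/
def up (G : FPS X Md F) (d : X) (P : X → Prot X) (M : ℕ)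
    (low : List (Ins ι α (Sta X Md W (M + 1)))) :
    List (Ins ι α (Sta X Md (Frm X F (M + 1) × W) (M + 1))) :=
  (upU G d P M low).map (lift toU fun _ u => ofU u)

theorem up_computes {G : FPS X Md F} {d : X} {P : X → Prot X} {M : ℕ}
    {low : List (Ins ι α (Sta X Md W (M + 1)))} {x : ι → α} {A : X → X} {w₀ : W}
    (hlow : Computes x A w₀ low) (hP : ∀ q, Prot.Hgt M (P q)) :
    Computes x (fun q => Prot.eval A (P q))
      ((⟨d, d, fun _ _ => 0⟩ : Frm X F (M + 1)), w₀) (up G d P M low) := by
  intro s t hs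
  unfold up
  rw [run_lift toU (fun _ u => ofU u) (fun _ => rfl) (fun _ _ => rfl) (fun _ _ _ => rfl)]
  have h := fun u => upU_sem (G := G) (d := d) hlow hP (toU s) u (by simp [toU, hs])
    (by simp [toU, hs]) (by simp [toU, hs]) (by simp [toU, hs])
  constructor
  · rintro ⟨u, hu, rfl⟩
    rw [(h u).1 hu]
    rfl
  · rintro rfl
    exact ⟨_, (h _).2 rfl, rfl⟩

end Pass

end Pool.Agent.MP_6216ea_lc
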