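import Pool.Agent.Lib.MP_6216ea_lc.DCLevel

/-! The branching program for iterated adaptive composition. -/

set_option autoImplicit false

namespace Pool.Agent.MP_6216ea_lc

namespace Pass

open Ins

variable {ι α X Md F : Type} [AddCommGroup Md] [AddCommGroup F] {m : ℕ}

/-! ### Lengths -/

omit [AddCommGroup Md] [AddCommGroup F] in
theorem len_loops [AddCommGroup Md] [AddCommGroup F] [DecidableEq F] {W : Type} (G : FPS X Md F)
    (d : X) (mid : ℕ → List (Ins ι α (U X Md F W m))) (K : ℕ) (hK : ∀ n, (mid n).length ≤ K)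
    (n : ℕ) (j : Fin m) :
    2 * ((loops G d mid n).1 j).length + (K + 1) ≤ (K + 1) * 3 ^ n ∧
      2 * ((loops G d mid n).2 j).length + (K + 1) ≤ (K + 1) * 3 ^ n := by
  induction n generalizing j with
  | zero => simp [loops]
  | succ n ih =>
    rw [loops]
    by_cases h : n < m
    · rw [dif_pos h]
      have h1 := ih j
      have h2 := ih ⟨n, h⟩
      have h3 := hK n
      rw [pow_succ, show (K + 1) * (3 ^ n * 3) = 3 * ((K + 1) * 3 ^ n) by ring]
      simp only [List.length_append, List.length_cons]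
      constructor <;> omega
    · rw [dif_neg h]
      have h1 := ih j
      have h2 : (K + 1) * 3 ^ n ≤ (K + 1) * 3 ^ (n + 1) :=
        Nat.mul_le_mul_left _ (Nat.pow_le_pow_right (by norm_num) (by omega))
      exact ⟨h1.1.trans h2, h1.2.trans h2⟩

theorem len_up [DecidableEq F] {W : Type} (G : FPS X Md F) (d : X) (P : X → Prot X) (M : ℕ)
    (low : List (Ins ι α (Sta X Md W (M + 1)))) :
    (up G d P M low).length + 2 ≤ (low.length + 2) * 3 ^ (M + 1) := by
  have hK : ∀ n, (midP G d P M low n : List (Ins ι α (U X Md F W (M + 1)))).length ≤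
      low.length + 1 := by
    intro n
    unfold midP
    by_cases h : n < M
    · rw [if_pos h, List.length_cons, List.length_map]
    · rw [if_neg h]; simp
  have h1 := len_loops G d (midP G d P M low) _ hK M (Fin.last M)
  have h2 := hK M
  unfold up upU
  rw [pow_succ]
  simp only [List.length_map, List.length_append, List.length_cons, List.length_nil]
  have h3 : 1 ≤ 3 ^ M := Nat.one_le_pow _ _ (by norm_num)
  have h4 : (low.length + 1 + 1) * 3 ^ M = (low.length + 2) * 3 ^ M := by ring
  rw [h4] at h1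
  have h5 : 2 ≤ (low.length + 2) * 3 ^ M := by nlinarith
  have h6 : (low.length + 2) * (3 ^ M * 3) = 3 * ((low.length + 2) * 3 ^ M) := by ring
  rw [h6]
  omega

/-! ### Levels -/

/-- The clear memory of `i` levels. -/
def Wt (X F : Type) (m : ℕ) : ℕ → Type
  | 0 => Unit
  | i + 1 => Frm X F m × Wt X F m i

/-- The empty clear memory. -/
def wz (d : X) : (i : ℕ) → Wt X F m i
  | 0 => ()
  | i + 1 => (⟨d, d, fun _ _ => 0⟩, wz d i)

/-- The program for `g` levels. -/
def prog [DecidableEq F] (G : FPS X Md F) (d : X) (P : ℕ → X → Prot X) (M : ℕ)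
    (base : Ins ι α (Sta X Md Unit (M + 1))) :
    (i : ℕ) → List (Ins ι α (Sta X Md (Wt X F (M + 1) i) (M + 1)))
  | 0 => [base]
  | i + 1 => up G d (P i) M (prog G d P M base i)

/-- The program of the lowest level: one query. -/
def baseI (pos : X → Option ι) (bs : X → Option α → X) : Ins ι α (Sta X Md Unit m) :=
  fun s l t => match pos s.c with
    | none => l = none ∧ t = ⟨bs s.c none, s.w, s.r⟩
    | some i => ∃ a, l = some (i, a) ∧ t = ⟨bs s.c (some a), s.w, s.r⟩

omit [AddCommGroup Md] in
theorem base_computes (pos : X → Option ι) (bs : X → Option α → X) (x : ι → α) :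
    Computes x (fun q => bs q ((pos q).map x)) () [(baseI pos bs : Ins ι α (Sta X Md Unit m))] := by
  intro s t _
  rw [run_one]
  change Ins.Rel x (baseI pos bs) s t ↔ t = ⟨bs s.c ((pos s.c).map x), s.w, s.r⟩
  unfold Ins.Rel baseI
  cases h : pos s.c with
  | none =>
    constructor
    · rintro ⟨l, hl, _⟩
      exact hl.2
    · rintro rfl
      exact ⟨none, ⟨rfl, rfl⟩, by simp⟩
  | some i =>
    constructor
    · rintro ⟨l, ⟨a, rfl, rfl⟩, hx⟩
      rw [← hx i a rfl]
      rfl
    · rintro rfl
      refine ⟨some (i, x i), ⟨x i, rfl, rfl⟩, ?_⟩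
      intro j a hja
      simp only [Option.some.injEq, Prod.mk.injEq] at hja
      rw [← hja.1]; exact hja.2

theorem prog_computes [DecidableEq F] (G : FPS X Md F) (d : X) (P : ℕ → X → Prot X) (M : ℕ)
    (hP : ∀ i q, Prot.Hgt M (P i q)) (base : Ins ι α (Sta X Md Unit (M + 1))) (x : ι → α)
    (A : ℕ → X → X) (h0 : Computes x (A 0) () [base])
    (hA : ∀ i q, A (i + 1) q = Prot.eval (A i) (P i q)) (g : ℕ) :
    Computes x (A g) (wz d g) (prog G d P M base g) := by
  induction g with
  | zero => exact h0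
  | succ g ih =>
    have h := up_computes (G := G) (d := d) (P := P g) ih (hP g)
    have e : A (g + 1) = fun q => Prot.eval (A g) (P g q) := funext fun q => hA g q
    rw [e]
    exact h

theorem len_prog [DecidableEq F] (G : FPS X Md F) (d : X) (P : ℕ → X → Prot X) (M : ℕ)
    (base : Ins ι α (Sta X Md Unit (M + 1))) (g : ℕ) :
    (prog G d P M base g).length + 2 ≤ 3 ^ ((M + 1) * g + 1) := by
  induction g with
  | zero => simp [prog]
  | succ g ih =>
    refine (len_up G d (P g) M (prog G d P M base g)).trans ?_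
    calc ((prog G d P M base g).length + 2) * 3 ^ (M + 1)
        ≤ 3 ^ ((M + 1) * g + 1) * 3 ^ (M + 1) := Nat.mul_le_mul_right _ ih
      _ = 3 ^ ((M + 1) * (g + 1) + 1) := by rw [← pow_add]; congr 1; ring

/-! ### Sizes -/

/-- `Frm` as a product. -/
def frmE (X F : Type) (m : ℕ) : Frm X F m ≃ X × X × (Fin m → Fin m → F) where
  toFun s := (s.q, s.a, s.φ)
  invFun s := ⟨s.1, s.2.1, s.2.2⟩
  left_inv _ := rfl
  right_inv _ := rfl

/-- `Sta` as a product. -/
def staE (X Md W : Type) (m : ℕ) : Sta X Md W m ≃ X × W × (Fin m → Md) where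
  toFun s := (s.c, s.w, s.r)
  invFun s := ⟨s.1, s.2.1, s.2.2⟩
  left_inv _ := rfl
  right_inv _ := rfl

noncomputable instance [Fintype X] [Fintype F] : Fintype (Frm X F m) :=
  Fintype.ofEquiv _ (frmE X F m).symm

noncomputable instance [Fintype X] [Fintype Md] {W : Type} [Fintype W] :
    Fintype (Sta X Md W m) := Fintype.ofEquiv _ (staE X Md W m).symm

noncomputable instance wtFin [Fintype X] [Fintype F] : (i : ℕ) → Fintype (Wt X F m i)
  | 0 => inferInstanceAs (Fintype Unit)
  | i + 1 => @instFintypeProd (Frm X F m) (Wt X F m i) _ (wtFin i)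

omit [AddCommGroup F] in
theorem card_wt [Fintype X] [Fintype F] (i : ℕ) :
    Fintype.card (Wt X F m i) = (Fintype.card X ^ 2 * Fintype.card F ^ (m ^ 2)) ^ i := by
  induction i with
  | zero => exact Fintype.card_unit
  | succ i ih =>
    have h1 : Fintype.card (Frm X F m) = Fintype.card X ^ 2 * Fintype.card F ^ (m ^ 2) := by
      rw [Fintype.card_congr (frmE X F m)]
      simp only [Fintype.card_prod, Fintype.card_fun, Fintype.card_fin]
      rw [← pow_mul]
      ring_nf
    change Fintype.card (Frm X F m × Wt X F m i) = _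
    rw [Fintype.card_prod, ih, h1]
    exact (pow_succ' _ _).symm

omit [AddCommGroup Md] in
theorem card_sta [Fintype X] [Fintype Md] {W : Type} [Fintype W] :
    Fintype.card (Sta X Md W m) = Fintype.card X * (Fintype.card W * Fintype.card Md ^ m) := by
  rw [Fintype.card_congr (staE X Md W m)]
  simp only [Fintype.card_prod, Fintype.card_fun, Fintype.card_fin]

/-- Iterated adaptive composition has small nondeterministic branching programs. -/
theorem thmA {ι α X : Type} [Fintype X] (d : X) (D M : ℕ) (code : X → Fin D → Bool)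
    (hcode : Function.Injective code) (pos : X → Option ι) (bs : X → Option α → X)
    (A : (ι → α) → ℕ → X → X) (h0 : ∀ x q, A x 0 q = bs q ((pos q).map x))
    (P : ℕ → X → Prot X) (hP : ∀ i q, Prot.Hgt M (P i q))
    (hA : ∀ x i q, A x (i + 1) q = Prot.eval (A x i) (P i q)) (acc : X → Prop) (q₀ : X) (g : ℕ) :
    ∃ B : LetterNBP ι α, Fintype.card B.V ≤ 3 ^ ((M + 1) * g + 1) * (2 ^ D) ^ (2 * g + 1) *
        (D + 1) ^ ((M + 1) ^ 2 * g + (M + 1) * (D + 1)) ∧
      ∀ x, B.Accepts x ↔ acc (A x g q₀) := by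
  classical
  let G := fps code hcode
  let base : Ins ι α (Sta X ((Fin D → ZMod (D + 1)) × ZMod (D + 1)) Unit (M + 1)) := baseI pos bs
  let L := prog G d P M base g ++
    [free fun s t => acc s.c ∧ t = ⟨d, s.w, s.r⟩]
  have hN : Fintype.card X ≤ 2 ^ D := by
    have := Fintype.card_le_of_injective code hcode
    simpa using this
  refine ⟨compile L ⟨q₀, wz d g, 0⟩ ⟨d, wz d g, 0⟩, ?_, ?_⟩
  · rw [card_compile, card_sta, card_wt]
    have hlen : L.length + 1 ≤ 3 ^ ((M + 1) * g + 1) := by
      have := len_prog G d P M base g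
      simp only [L, List.length_append, List.length_cons, List.length_nil]
      omega
    have hF : Fintype.card (ZMod (D + 1)) = D + 1 := ZMod.card _
    have hMd : Fintype.card ((Fin D → ZMod (D + 1)) × ZMod (D + 1)) = (D + 1) ^ (D + 1) := by
      rw [Fintype.card_prod, Fintype.card_fun, Fintype.card_fin, hF, pow_succ]
    rw [hF, hMd]
    calc (L.length + 1) * (Fintype.card X *
          ((Fintype.card X ^ 2 * (D + 1) ^ (M + 1) ^ 2) ^ g * ((D + 1) ^ (D + 1)) ^ (M + 1)))
        ≤ 3 ^ ((M + 1) * g + 1) * (2 ^ D *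
          (((2 ^ D) ^ 2 * (D + 1) ^ (M + 1) ^ 2) ^ g * ((D + 1) ^ (D + 1)) ^ (M + 1))) := by
          gcongr
      _ = 3 ^ ((M + 1) * g + 1) * (2 ^ D) ^ (2 * g + 1) *
        (D + 1) ^ ((M + 1) ^ 2 * g + (M + 1) * (D + 1)) := by
          rw [mul_pow, ← pow_mul (2 ^ D) 2 g, ← pow_mul (D + 1) ((M + 1) ^ 2) g,
            ← pow_mul (D + 1) (D + 1) (M + 1), mul_comm (D + 1) (M + 1),
            pow_add _ ((M + 1) ^ 2 * g), pow_succ _ (2 * g)]
          ring
  · intro x
    rw [compile_accepts]
    have hc := prog_computes G d P M hP base x (A x)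
      (by
        have := base_computes (Md := (Fin D → ZMod (D + 1)) × ZMod (D + 1)) (m := M + 1) pos bs x
        have e : A x 0 = fun q => bs q ((pos q).map x) := funext fun q => h0 x q
        rw [e]
        exact this) (hA x) g
    simp only [L]
    rw [run_append]
    constructor
    · rintro ⟨u, hu, hv⟩
      rw [hc _ _ rfl] at hu
      subst hu
      rw [run_one, rel_free] at hv
      exact hv.1
    · intro h
      refine ⟨_, (hc _ _ rfl).2 rfl, ?_⟩
      rw [run_one, rel_free]
      exact ⟨h, rfl⟩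

end Pass

end Pool.Agent.MP_6216ea_lc
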