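import Pool.Agent.Lib.MP_6216ea_lc.DCPassU
import Pool.Agent.Lib.MP_6216ea_lc.DCThmA

/-! Unambiguous programs for iterated adaptive composition. -/

set_option autoImplicit false

namespace Pool.Agent.MP_6216ea_lc

namespace Pass

open Ins

variable {ι α X Md F W : Type} {m : ℕ} [AddCommGroup Md] [AddCommGroup F]

/-- The program has at most one run. -/
def ComputesU (x : ι → α) (w₀ : W) (L : List (Ins ι α (Sta X Md W m))) : Prop :=
  ∀ s t : Sta X Md W m, s.w = w₀ → Run x L s t → Mid x L s t

theorem midP_mid {G : FPS X Md F} {d : X} {P : X → Prot X} {M : ℕ}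
    {low : List (Ins ι α (Sta X Md W m))} {x : ι → α} {A : X → X} {w₀ : W}
    (hlow : Computes x A w₀ low) (hlowU : ComputesU x w₀ low) (q₀ : X) :
    ∀ n < m, ∀ s t : U X Md F W m, s.q = q₀ → s.w = w₀ → Run x (midP G d P M low n) s t →
      Mid x (midP G d P M low n) s t := by
  intro n hn s t hq hw _
  unfold midP
  have hy : ∀ y y' : ℕ → X, (fun k : Fin m => if k.val < n then s.r k + G.t (y k.val) else s.r k) =
      (fun k : Fin m => if k.val < n then s.r k + G.t (y' k.val) else s.r k) →
      ∀ k < n, y k = y' k := by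
    intro y y' h k hk
    have := congrFun h ⟨k, by omega⟩
    simp only [if_pos hk] at this
    exact G.t_inj (add_left_cancel this)
  have hst : ∀ y y' : ℕ → X, (∀ k < n, y k = y' k) →
      (⟨if n < M then Prot.ask d (Prot.walk (P s.q) y n)
      else Prot.res d (Prot.walk (P s.q) y n), s.q, s.a, s.φ,
      fun k => if k.val < n then s.r k + G.t (y k.val) else s.r k, s.w⟩ : U X Md F W m) =
      ⟨if n < M then Prot.ask d (Prot.walk (P s.q) y' n)
      else Prot.res d (Prot.walk (P s.q) y' n), s.q, s.a, s.φ,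
      fun k => if k.val < n then s.r k + G.t (y' k.val) else s.r k, s.w⟩ := by
    intro y y' h
    rw [Prot.walk_congr (P s.q) y y' n h]
    congr 1
    funext k
    by_cases hk : k.val < n
    · rw [if_pos hk, if_pos hk, h _ hk]
    · rw [if_neg hk, if_neg hk]
  by_cases h : n < M
  · rw [if_pos h]
    refine mid_cons ?_ ?_
    · intro v v' h1 h2 h3 h4
      unfold guess at h1 h3
      rw [rel_free] at h1 h3
      obtain ⟨y, rfl⟩ := h1
      obtain ⟨y', rfl⟩ := h3
      rw [run_lift getL putL (fun _ => rfl) (fun _ _ => rfl) (fun _ _ _ => rfl)] at h2 h4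
      obtain ⟨u, hu, rfl⟩ := h2
      obtain ⟨u', hu', e⟩ := h4
      rw [hlow _ _ (by exact hw)] at hu hu'
      subst hu
      subst hu'
      have e1 := congrArg (fun z : U X Md F W m => z.r) e
      exact hst y y' (hy y y' e1)
    · intro v h1 _
      unfold guess at h1
      rw [rel_free] at h1
      obtain ⟨y, rfl⟩ := h1
      exact mid_lift getL putL (fun _ => rfl) (fun _ _ => rfl) (fun _ _ _ => rfl)
        (fun u hu => hlowU _ _ (by exact hw) hu)
  · rw [if_neg h]
    exact mid_one _ _ _ _

variable [DecidableEq F]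

theorem upU_mid {G : FPS X Md F} {d : X} {P : X → Prot X} {M : ℕ}
    {low : List (Ins ι α (Sta X Md W (M + 1)))} {x : ι → α} {A : X → X} {w₀ : W}
    (hlow : Computes x A w₀ low) (hlowU : ComputesU x w₀ low)
    (s t : U X Md F W (M + 1)) (hφ : ∀ j k, s.φ j k = 0) (hw : s.w = w₀) :
    Mid x (upU G d P M low) s t := by
  obtain ⟨V, hV⟩ := exists_seq d (itemV d P M A s.c) (itemV_congr d P M A s.c)
  have htop := top_sem (G := G) (d := d) (V := V)
    (midP_ok (G := G) (d := d) (P := P) (M := M) hlow s.c) (itemV_congr d P M A s.c)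
    (fun n _ => hV n)
  have htopU := top_mid (G := G) (d := d) (V := V)
    (midP_ok (G := G) (d := d) (P := P) (M := M) hlow s.c)
    (midP_mid (G := G) (d := d) (P := P) (M := M) hlow hlowU s.c) (itemV_congr d P M A s.c)
    (fun n _ => hV n)
  unfold upU
  refine mid_append' ?_ ?_ ?_
  · rintro v v' ⟨u, hu, hv⟩ ⟨u', hu', hv'⟩
    rw [rel_free] at hu hu'
    subst hu
    subst hu'
    rw [(htop _ v rfl rfl (by exact hw) (by exact hφ)).1 hv,
      (htop _ v' rfl rfl (by exact hw) (by exact hφ)).1 hv']
  · intro v _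
    refine mid_cons ?_ ?_
    · intro u u' hu _ hu' _
      rw [rel_free] at hu hu'
      rw [hu, hu']
    · intro u hu _
      rw [rel_free] at hu
      subst hu
      exact htopU _ v rfl rfl (by exact hw) (by exact hφ)
  · intro v _ _
    exact mid_one _ _ _ _

theorem up_mid {G : FPS X Md F} {d : X} {P : X → Prot X} {M : ℕ}
    {low : List (Ins ι α (Sta X Md W (M + 1)))} {x : ι → α} {A : X → X} {w₀ : W}
    (hlow : Computes x A w₀ low) (hlowU : ComputesU x w₀ low) :
    ComputesU x ((⟨d, d, fun _ _ => 0⟩ : Frm X F (M + 1)), w₀) (up G d P M low) := by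
  intro s t hs _
  unfold up
  exact mid_lift toU (fun _ u => ofU u) (fun _ => rfl) (fun _ _ => rfl) (fun _ _ _ => rfl)
    (fun u _ => upU_mid (G := G) (d := d) (P := P) hlow hlowU (toU s) u (by simp [toU, hs])
      (by simp [toU, hs]))

theorem prog_mid (G : FPS X Md F) (d : X) (P : ℕ → X → Prot X) (M : ℕ)
    (hP : ∀ i q, Prot.Hgt M (P i q)) (base : Ins ι α (Sta X Md Unit (M + 1))) (x : ι → α)
    (A : ℕ → X → X) (h0 : Computes x (A 0) () [base])
    (hA : ∀ i q, A (i + 1) q = Prot.eval (A i) (P i q)) (g : ℕ) :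
    ComputesU x (wz d g) (prog G d P M base g) := by
  induction g with
  | zero => intro s t _ _; exact mid_one _ _ _ _
  | succ g ih =>
    exact up_mid (G := G) (d := d) (P := P g)
      (prog_computes G d P M hP base x A h0 hA g) ih

/-! ### Labels -/

omit [AddCommGroup Md] [AddCommGroup F] [DecidableEq F] in
theorem labU_base (pos : X → Option ι) (bs : X → Option α → X) (x : ι → α) :
    LabU x (baseI pos bs : Ins ι α (Sta X Md Unit m)) := by
  intro s t l l' h hl h' hl'
  unfold baseI at h h'
  cases hp : pos s.c with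
  | none =>
    rw [hp] at h h'
    rw [h.1, h'.1]
  | some i =>
    rw [hp] at h h'
    obtain ⟨a, rfl, -⟩ := h
    obtain ⟨a', rfl, -⟩ := h'
    rw [← hl i a rfl, ← hl' i a' rfl]

theorem labU_loops {x : ι → α} (G : FPS X Md F) (d : X)
    (mid : ℕ → List (Ins ι α (U X Md F W m))) (hmid : ∀ n, ∀ I ∈ mid n, LabU x I) (n : ℕ)
    (j : Fin m) :
    (∀ I ∈ (loops G d mid n).1 j, LabU x I) ∧ (∀ I ∈ (loops G d mid n).2 j, LabU x I) := by
  induction n generalizing j with
  | zero => simp [loops]
  | succ n ih =>
    rw [loops]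
    by_cases h : n < m
    · rw [dif_pos h]
      constructor
      · intro I hI
        simp only [List.mem_append, List.mem_cons] at hI
        rcases hI with hI | hI | hI | rfl | hI
        · exact (ih j).1 I hI
        · exact (ih _).1 I hI
        · exact hmid n I hI
        · exact labU_free _ _
        · exact (ih _).2 I hI
      · intro I hI
        simp only [List.mem_append, List.mem_cons] at hI
        rcases hI with hI | hI | hI | rfl | hI
        · exact (ih j).2 I hI
        · exact (ih _).1 I hI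
        · exact hmid n I hI
        · exact labU_free _ _
        · exact (ih _).2 I hI
    · rw [dif_neg h]
      exact ih j

theorem labU_up {x : ι → α} (G : FPS X Md F) (d : X) (P : X → Prot X) (M : ℕ)
    (low : List (Ins ι α (Sta X Md W (M + 1)))) (hlow : ∀ I ∈ low, LabU x I) :
    ∀ I ∈ up G d P M low, LabU x I := by
  have hmid : ∀ n, ∀ I ∈ (midP G d P M low n : List (Ins ι α (U X Md F W (M + 1)))),
      LabU x I := by
    intro n I hI
    unfold midP at hI
    rw [List.mem_cons] at hI
    rcases hI with rfl | hI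
    · exact labU_free _ _
    · by_cases h : n < M
      · rw [if_pos h, List.mem_map] at hI
        obtain ⟨J, hJ, rfl⟩ := hI
        exact labU_lift getL putL (fun _ _ => rfl) (hlow J hJ)
      · rw [if_neg h] at hI
        simp at hI
  intro I hI
  unfold up at hI
  rw [List.mem_map] at hI
  obtain ⟨J, hJ, rfl⟩ := hI
  refine labU_lift toU (fun _ u => ofU u) (fun _ _ => rfl) ?_
  unfold upU at hJ
  simp only [List.mem_append, List.mem_cons, List.not_mem_nil, or_false] at hJ
  rcases hJ with (rfl | hJ | hJ | rfl | hJ) | rfl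
  · exact labU_free _ _
  · exact (labU_loops G d _ hmid M _).1 J hJ
  · exact hmid M J hJ
  · exact labU_free _ _
  · exact (labU_loops G d _ hmid M _).2 J hJ
  · exact labU_free _ _

theorem labU_prog {x : ι → α} (G : FPS X Md F) (d : X) (P : ℕ → X → Prot X) (M : ℕ)
    (base : Ins ι α (Sta X Md Unit (M + 1))) (hb : LabU x base) (g : ℕ) :
    ∀ I ∈ prog G d P M base g, LabU x I := by
  induction g with
  | zero =>
    intro I hI
    simp only [prog, List.mem_singleton] at hI
    rw [hI]; exact hb
  | succ g ih => exact labU_up G d (P g) M (prog G d P M base g) ih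

/-- Iterated adaptive composition has small unambiguous branching programs. -/
theorem thmAU {ι α X : Type} [Fintype X] (d : X) (D M : ℕ) (code : X → Fin D → Bool)
    (hcode : Function.Injective code) (pos : X → Option ι) (bs : X → Option α → X)
    (A : (ι → α) → ℕ → X → X) (h0 : ∀ x q, A x 0 q = bs q ((pos q).map x))
    (P : ℕ → X → Prot X) (hP : ∀ i q, Prot.Hgt M (P i q))
    (hA : ∀ x i q, A x (i + 1) q = Prot.eval (A x i) (P i q)) (acc : X → Prop) (q₀ : X) (g : ℕ) :
    ∃ B : LetterNBP ι α, Fintype.card B.V ≤ 3 ^ ((M + 1) * g + 1) * (2 ^ D) ^ (2 * g + 1) *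
        (D + 1) ^ ((M + 1) ^ 2 * g + (M + 1) * (D + 1)) ∧
      B.Unambiguous ∧ B.QueriesAtMost (3 ^ ((M + 1) * g + 1)) ∧
      ∀ x, B.Accepts x ↔ acc (A x g q₀) := by
  classical
  let G := fps code hcode
  let base : Ins ι α (Sta X ((Fin D → ZMod (D + 1)) × ZMod (D + 1)) Unit (M + 1)) := baseI pos bs
  let L := prog G d P M base g ++
    [free fun s t => acc s.c ∧ t = ⟨d, s.w, s.r⟩]
  have hN : Fintype.card X ≤ 2 ^ D := by
    have := Fintype.card_le_of_injective code hcode
    simpa using this
  have hlen : L.length + 1 ≤ 3 ^ ((M + 1) * g + 1) := by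
    have := len_prog G d P M base g
    simp only [L, List.length_append, List.length_cons, List.length_nil]
    omega
  have hc := fun x => prog_computes G d P M hP base x (A x)
    (by
      have := base_computes (Md := (Fin D → ZMod (D + 1)) × ZMod (D + 1)) (m := M + 1) pos bs x
      have e : A x 0 = fun q => bs q ((pos q).map x) := funext fun q => h0 x q
      rw [e]
      exact this) (hA x) g
  have hcU := fun x => prog_mid G d P M hP base x (A x)
    (by
      have := base_computes (Md := (Fin D → ZMod (D + 1)) × ZMod (D + 1)) (m := M + 1) pos bs x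
      have e : A x 0 = fun q => bs q ((pos q).map x) := funext fun q => h0 x q
      rw [e]
      exact this) (hA x) g
  refine ⟨compile L ⟨q₀, wz d g, 0⟩ ⟨d, wz d g, 0⟩, ?_, ?_, ?_, ?_⟩
  · rw [card_compile, card_sta, card_wt]
    have hF : Fintype.card (ZMod (D + 1)) = D + 1 := ZMod.card _
    have hMd : Fintype.card ((Fin D → ZMod (D + 1)) × ZMod (D + 1)) = (D + 1) ^ (D + 1) := by
      rw [Fintype.card_prod, Fintype.card_fun, Fintype.card_fin, hF, pow_succ]
    rw [hF, hMd]
    calc (L.length + 1) * (Fintype.card X *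
          ((Fintype.card X ^ 2 * (D + 1) ^ (M + 1) ^ 2) ^ g * ((D + 1) ^ (D + 1)) ^ (M + 1)))
        ≤ 3 ^ ((M + 1) * g + 1) * (2 ^ D *
          (((2 ^ D) ^ 2 * (D + 1) ^ (M + 1) ^ 2) ^ g * ((D + 1) ^ (D + 1)) ^ (M + 1))) := by
          gcongr
      _ = 3 ^ ((M + 1) * g + 1) * (2 ^ D) ^ (2 * g + 1) *
        (D + 1) ^ ((M + 1) ^ 2 * g + (M + 1) * (D + 1)) := by
          rw [mul_pow, ← pow_mul (2 ^ D) 2 g, ← pow_mul (D + 1) ((M + 1) ^ 2) g,
            ← pow_mul (D + 1) (D + 1) (M + 1), mul_comm (D + 1) (M + 1),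
            pow_add _ ((M + 1) ^ 2 * g), pow_succ _ (2 * g)]
          ring
  · refine compile_unambiguous _ _ _ ?_ ?_
    · intro x
      refine mid_append' ?_ ?_ ?_
      · intro v v' h1 h2
        rw [(hc x _ v rfl).1 h1, (hc x _ v' rfl).1 h2]
      · intro v h1
        exact hcU x _ v rfl h1
      · intro v _ _
        exact mid_one _ _ _ _
    · intro x I hI
      simp only [L, List.mem_append, List.mem_singleton] at hI
      rcases hI with hI | rfl
      · exact labU_prog G d P M base (labU_base pos bs x) g I hI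
      · exact labU_free _ _
  · intro x T v h
    exact (compile_queries _ _ _ x T v h).trans (by omega)
  · intro x
    rw [compile_accepts]
    simp only [L]
    rw [run_append]
    constructor
    · rintro ⟨u, hu, hv⟩
      rw [hc x _ _ rfl] at hu
      subst hu
      rw [run_one, rel_free] at hv
      exact hv.1
    · intro h
      refine ⟨_, (hc x _ _ rfl).2 rfl, ?_⟩
      rw [run_one, rel_free]
      exact ⟨h, rfl⟩

end Pass

end Pool.Agent.MP_6216ea_lc
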