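import Mathlib

/-! DCNum: the size of the bound for the number of questions. -/

set_option autoImplicit false

namespace Pool.Agent.MP_6216ea_lc

/-- The exponent in natural numbers. -/
theorem num_bound_aux (l b g m e : ℕ) (hl : 2 ≤ l) (he : e = Nat.log 2 l) (hb : b = e / 8 + 1)
    (hg : g = l / b + 1) (hm : m = 6 ^ b + 1) :
    3 ^ (m * g + 1) * (2 ^ (8 * l)) ^ (2 * g + 1) * (8 * l + 1) ^ (m ^ 2 * g + m * (8 * l + 1)) ≤
      2 ^ (2 * (m * g + 1) + 8 * l * (2 * g + 1) + (e + 4) * (m ^ 2 * g + m * (8 * l + 1))) ∧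
    (2 * (m * g + 1) + 8 * l * (2 * g + 1) + (e + 4) * (m ^ 2 * g + m * (8 * l + 1))) * (e + 1) ≤
      14644 * l ^ 2 := by
  have h2e : 2 ^ e ≤ l := by rw [he]; exact Nat.pow_log_le_self 2 (by omega)
  have hle : l < 2 ^ (e + 1) := by rw [he]; exact Nat.lt_pow_succ_log_self (by norm_num) _
  have hel : e + 1 ≤ l := (Nat.lt_two_pow_self (n := e)).trans_le h2e
  have h8 : e + 1 ≤ 8 * b := by omega
  have hb1 : 1 ≤ b := by omega
  have hgs : g * (e + 1) ≤ 9 * l := by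
    have h1 : b * (l / b) ≤ l := Nat.mul_div_le l b
    calc g * (e + 1) = (l / b) * (e + 1) + (e + 1) := by rw [hg]; ring
      _ ≤ (l / b) * (8 * b) + l := Nat.add_le_add (Nat.mul_le_mul_left _ h8) hel
      _ = 8 * (b * (l / b)) + l := by ring
      _ ≤ 8 * l + l := by omega
      _ = 9 * l := by ring
  obtain ⟨q, hq⟩ : ∃ q, q = e / 8 := ⟨_, rfl⟩
  have hq1 : 256 ^ q ≤ l := by
    calc 256 ^ q = 2 ^ (8 * q) := by rw [pow_mul]; norm_num
      _ ≤ 2 ^ e := Nat.pow_le_pow_right (by norm_num) (by omega)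
      _ ≤ l := h2e
  have hm7 : m ≤ 7 * 6 ^ q := by
    have h1 : 1 ≤ 6 ^ q := Nat.one_le_pow _ _ (by norm_num)
    have h2 : m = 6 * 6 ^ q + 1 := by rw [hm, hb, ← hq, pow_succ]; ring
    omega
  have hq2 : q + 1 ≤ 2 ^ q := Nat.lt_two_pow_self
  have he4 : e + 4 ≤ 12 * 2 ^ q := by omega
  have he1 : e + 1 ≤ 12 * 2 ^ q := by omega
  have hml : m ≤ 7 * l := by
    refine hm7.trans (Nat.mul_le_mul_left _ ?_)
    exact (Nat.pow_le_pow_left (by norm_num) q).trans hq1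
  have hA : (e + 4) * m ^ 2 ≤ 588 * l := by
    calc (e + 4) * m ^ 2 ≤ (12 * 2 ^ q) * (7 * 6 ^ q) ^ 2 :=
          Nat.mul_le_mul he4 (Nat.pow_le_pow_left hm7 _)
      _ = 588 * (2 * 6 ^ 2) ^ q := by
          rw [mul_pow, mul_pow, ← pow_mul, ← pow_mul, mul_comm q 2]; ring
      _ ≤ 588 * 256 ^ q := Nat.mul_le_mul_left _ (Nat.pow_le_pow_left (by norm_num) _)
      _ ≤ 588 * l := Nat.mul_le_mul_left _ hq1
  have hB : (e + 4) * (e + 1) * m ≤ 1008 * l := by
    calc (e + 4) * (e + 1) * m ≤ (12 * 2 ^ q) * (12 * 2 ^ q) * (7 * 6 ^ q) :=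
          Nat.mul_le_mul (Nat.mul_le_mul he4 he1) hm7
      _ = 1008 * (2 * 2 * 6) ^ q := by rw [mul_pow, mul_pow]; ring
      _ ≤ 1008 * 256 ^ q := Nat.mul_le_mul_left _ (Nat.pow_le_pow_left (by norm_num) _)
      _ ≤ 1008 * l := Nat.mul_le_mul_left _ hq1
  constructor
  · have h1 : 3 ^ (m * g + 1) ≤ 2 ^ (2 * (m * g + 1)) := by
      rw [pow_mul]
      exact Nat.pow_le_pow_left (by norm_num) _
    have h2 : 8 * l + 1 ≤ 2 ^ (e + 4) := by
      have h3 : 2 ^ (e + 4) = 8 * 2 ^ (e + 1) := by rw [pow_add, pow_add]; ring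
      rw [h3]
      omega
    calc 3 ^ (m * g + 1) * (2 ^ (8 * l)) ^ (2 * g + 1) *
          (8 * l + 1) ^ (m ^ 2 * g + m * (8 * l + 1))
        ≤ 2 ^ (2 * (m * g + 1)) * 2 ^ (8 * l * (2 * g + 1)) *
          (2 ^ (e + 4)) ^ (m ^ 2 * g + m * (8 * l + 1)) :=
          Nat.mul_le_mul (Nat.mul_le_mul h1 (pow_mul 2 (8 * l) (2 * g + 1)).ge) (Nat.pow_le_pow_left h2 _)
      _ = 2 ^ (2 * (m * g + 1) + 8 * l * (2 * g + 1) +
          (e + 4) * (m ^ 2 * g + m * (8 * l + 1))) := by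
          rw [← pow_mul, ← pow_add, ← pow_add]
  · have hs1 : 2 * (m * g + 1) * (e + 1) ≤ 128 * l ^ 2 := by
      have h1 : m * (g * (e + 1)) ≤ (7 * l) * (9 * l) := Nat.mul_le_mul hml hgs
      have h2 : 2 * (m * g + 1) * (e + 1) = 2 * (m * (g * (e + 1))) + 2 * (e + 1) := by ring
      have h3 : e + 1 ≤ l * l := hel.trans (Nat.le_mul_self l)
      rw [h2]
      nlinarith
    have hs2 : 8 * l * (2 * g + 1) * (e + 1) ≤ 152 * l ^ 2 := by
      have h2 : 8 * l * (2 * g + 1) * (e + 1) = 8 * l * (2 * (g * (e + 1)) + (e + 1)) := by ring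
      rw [h2]
      calc 8 * l * (2 * (g * (e + 1)) + (e + 1)) ≤ 8 * l * (2 * (9 * l) + l) :=
            Nat.mul_le_mul_left _ (by omega)
        _ = 152 * l ^ 2 := by ring
    have hs3 : (e + 4) * (m ^ 2 * g) * (e + 1) ≤ 5292 * l ^ 2 := by
      calc (e + 4) * (m ^ 2 * g) * (e + 1) = ((e + 4) * m ^ 2) * (g * (e + 1)) := by ring
        _ ≤ (588 * l) * (9 * l) := Nat.mul_le_mul hA hgs
        _ = 5292 * l ^ 2 := by ring
    have hs4 : (e + 4) * (m * (8 * l + 1)) * (e + 1) ≤ 9072 * l ^ 2 := by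
      calc (e + 4) * (m * (8 * l + 1)) * (e + 1) = ((e + 4) * (e + 1) * m) * (8 * l + 1) := by
            ring
        _ ≤ (1008 * l) * (9 * l) := Nat.mul_le_mul hB (by omega)
        _ = 9072 * l ^ 2 := by ring
    calc (2 * (m * g + 1) + 8 * l * (2 * g + 1) + (e + 4) * (m ^ 2 * g + m * (8 * l + 1))) *
          (e + 1)
        = 2 * (m * g + 1) * (e + 1) + 8 * l * (2 * g + 1) * (e + 1) +
          ((e + 4) * (m ^ 2 * g) * (e + 1) + (e + 4) * (m * (8 * l + 1)) * (e + 1)) := by ring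
      _ ≤ 128 * l ^ 2 + 152 * l ^ 2 + (5292 * l ^ 2 + 9072 * l ^ 2) :=
          Nat.add_le_add (Nat.add_le_add hs1 hs2) (Nat.add_le_add hs3 hs4)
      _ = 14644 * l ^ 2 := by ring

theorem num_bound : ∃ C : ℝ, 0 < C ∧ ∀ L l b g m : ℕ, 3 ≤ L → l = Nat.clog 2 L →
    b = Nat.log 2 l / 8 + 1 → g = l / b + 1 → m = 6 ^ b + 1 →
    ((3 ^ (m * g + 1) * (2 ^ (8 * l)) ^ (2 * g + 1) *
      (8 * l + 1) ^ (m ^ 2 * g + m * (8 * l + 1)) : ℕ) : ℝ) ≤
      (L : ℝ) ^ (C * Real.log L / Real.log (Real.log L)) := by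
  refine ⟨58576, by norm_num, ?_⟩
  intro L l b g m hL hl hb hg hm
  have hl2 : 2 ≤ l := by
    rw [hl]
    by_contra h
    have h1 : Nat.clog 2 L ≤ 1 := by omega
    have h2 := (Nat.clog_le_iff_le_pow (b := 2) (by norm_num)).1 h1
    omega
  obtain ⟨e, he⟩ : ∃ e, e = Nat.log 2 l := ⟨_, rfl⟩
  obtain ⟨h1, h2⟩ := num_bound_aux l b g m e hl2 he (by rw [hb, he]) hg hm
  set E := 2 * (m * g + 1) + 8 * l * (2 * g + 1) + (e + 4) * (m ^ 2 * g + m * (8 * l + 1)) with hE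
  -- real facts
  have hLr : (3 : ℝ) ≤ L := by exact_mod_cast hL
  have hlog2 : 0 < Real.log 2 := Real.log_pos (by norm_num)
  have hlog21 : Real.log 2 < 1 := by
    have := Real.log_two_lt_d9
    linarith
  have hlogL1 : 1 < Real.log L := by
    have h3 : Real.exp 1 < 3 := by
      have := Real.exp_one_lt_d9
      linarith
    rw [Real.lt_log_iff_exp_lt (by linarith)]
    linarith
  have hlogL0 : 0 < Real.log L := by linarith
  have hll : 0 < Real.log (Real.log L) := Real.log_pos hlogL1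
  have hlL : (l : ℝ) * Real.log 2 ≤ 2 * Real.log L := by
    have h3 : 2 ^ (l - 1) < L := by
      have h4 : l - 1 < Nat.clog 2 L := by omega
      exact (Nat.lt_clog_iff_pow_lt (by norm_num)).1 h4
    have h5 : ((2 : ℝ) ^ (l - 1)) ≤ L := by exact_mod_cast h3.le
    have h6 := Real.log_le_log (by positivity) h5
    rw [Real.log_pow] at h6
    have h7 : ((l - 1 : ℕ) : ℝ) = (l : ℝ) - 1 := by
      rw [Nat.cast_sub (by omega), Nat.cast_one]
    rw [h7] at h6
    have h8 : (2 : ℝ) ≤ l := by exact_mod_cast hl2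
    nlinarith
  have hLl : Real.log L ≤ l := by
    have h3 : L ≤ 2 ^ l := by
      rw [hl]
      exact Nat.le_pow_clog (by norm_num) L
    have h5 : (L : ℝ) ≤ (2 : ℝ) ^ l := by exact_mod_cast h3
    have h6 := Real.log_le_log (by linarith) h5
    rw [Real.log_pow] at h6
    have h8 : (0 : ℝ) ≤ l := Nat.cast_nonneg l
    nlinarith
  have hs : Real.log (Real.log L) ≤ ((e : ℝ) + 1) * Real.log 2 := by
    have h3 : Real.log (Real.log L) ≤ Real.log l := Real.log_le_log hlogL0 hLl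
    have h4 : l < 2 ^ (e + 1) := by rw [he]; exact Nat.lt_pow_succ_log_self (by norm_num) _
    have h5 : (l : ℝ) ≤ (2 : ℝ) ^ (e + 1) := by exact_mod_cast h4.le
    have h6 : (0 : ℝ) < l := by
      have : (2 : ℝ) ≤ l := by exact_mod_cast hl2
      linarith
    have h7 := Real.log_le_log h6 h5
    rw [Real.log_pow] at h7
    push_cast at h7
    linarith
  have hE2 : (E : ℝ) * ((e : ℝ) + 1) ≤ 14644 * (l : ℝ) ^ 2 := by exact_mod_cast h2
  have hEl : (E : ℝ) * Real.log 2 * Real.log (Real.log L) ≤ 58576 * Real.log L ^ 2 := by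
    have hE0 : (0 : ℝ) ≤ E := Nat.cast_nonneg E
    calc (E : ℝ) * Real.log 2 * Real.log (Real.log L)
        ≤ (E : ℝ) * Real.log 2 * (((e : ℝ) + 1) * Real.log 2) :=
          mul_le_mul_of_nonneg_left hs (by positivity)
      _ = ((E : ℝ) * ((e : ℝ) + 1)) * Real.log 2 ^ 2 := by ring
      _ ≤ (14644 * (l : ℝ) ^ 2) * Real.log 2 ^ 2 :=
          mul_le_mul_of_nonneg_right hE2 (by positivity)
      _ = 14644 * ((l : ℝ) * Real.log 2) ^ 2 := by ring
      _ ≤ 14644 * (2 * Real.log L) ^ 2 := by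
          refine mul_le_mul_of_nonneg_left ?_ (by norm_num)
          exact pow_le_pow_left₀ (by positivity) hlL 2
      _ = 58576 * Real.log L ^ 2 := by ring
  have h9 : ((3 ^ (m * g + 1) * (2 ^ (8 * l)) ^ (2 * g + 1) *
      (8 * l + 1) ^ (m ^ 2 * g + m * (8 * l + 1)) : ℕ) : ℝ) ≤ (2 : ℝ) ^ E := by
    exact_mod_cast h1
  refine h9.trans ?_
  rw [Real.rpow_def_of_pos (by linarith : (0 : ℝ) < L), ← Real.rpow_natCast,
    Real.rpow_def_of_pos (by norm_num : (0 : ℝ) < 2)]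
  apply Real.exp_le_exp.2
  rw [mul_div_assoc', le_div_iff₀ hll]
  calc Real.log 2 * (E : ℝ) * Real.log (Real.log L)
      = (E : ℝ) * Real.log 2 * Real.log (Real.log L) := by ring
    _ ≤ 58576 * Real.log L ^ 2 := hEl
    _ = Real.log L * (58576 * Real.log L) := by ring

end Pool.Agent.MP_6216ea_lc
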