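import Pool.Agent.Lib.MP_6216ea_lc.DCBase
import Pool.Agent.Lib.MP_6216ea_lc.DCThmA
import Pool.Agent.Lib.MP_6216ea_lc.DCNum

/-! Pushdown programs have small nondeterministic branching programs. -/

set_option autoImplicit false

namespace Pool.Agent.MP_6216ea_lc

open QA

/-- Explicit form. -/
theorem push_explicit {ι α : Type} (P : PushProg ι α) (b g D t : ℕ) (hb : t ≤ 2 ^ (b * g))
    (hD : 2 * (Fintype.card P.S * (2 ^ (b * g) + 1)) ^ 2 ≤ 2 ^ D) :
    ∃ B : LetterNBP ι α, Fintype.card B.V ≤ 3 ^ ((6 ^ b + 1) * g + 1) * (2 ^ D) ^ (2 * g + 1) *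
        (D + 1) ^ ((6 ^ b + 1) ^ 2 * g + (6 ^ b + 1) * (D + 1)) ∧
      ∀ x, B.Accepts x ↔ P.AcceptsIn x t := by
  classical
  obtain ⟨T, hT⟩ : ∃ T, T = 2 ^ (b * g) := ⟨_, rfl⟩
  rw [← hT] at hb hD
  have hcard : Fintype.card (QA P.S T) ≤ Fintype.card (Fin D → Bool) := by
    rw [QA.card]
    simpa using hD
  obtain ⟨code⟩ := Function.Embedding.nonempty_of_card_le hcard
  let p : ℕ → QA P.S T → Prot (QA P.S T) := fun i q => split (2 ^ i) q
  have h := Pass.thmA (ι := ι) (α := α) (X := QA P.S T)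
    (QA.ask P.start 0 P.start 0) D (6 ^ b) code code.injective
    P.absorb.qpos P.absorb.qbas (fun x i => P.absorb.lev T x (b * i))
    (fun x q => rfl) (fun i q => Prot.comp p (b * i) b q)
    (fun i q => Prot.hgt_comp (fun i q => hgt_split _ _) (b * i) b q)
    (fun x i q => by
      have h1 := Prot.eval_comp p (P.absorb.lev T x) (fun i q => rfl) (b * i) b q
      change P.absorb.lev T x (b * (i + 1)) q = _
      rw [show b * (i + 1) = b * i + b by ring]
      exact h1.symm)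
    P.absorb.QAcc (QA.ask P.start 0 P.start t) g
  obtain ⟨B, hB, hacc⟩ := h
  refine ⟨B, hB, fun x => ?_⟩
  rw [hacc x]
  exact (P.accepts_lev x (b * g) t (by rw [hT]) (by rw [← hT]; exact hb)).symm

/-- Every pushdown program with at most `L` nodes, run for at most `L` steps, has a
nondeterministic branching program of size `L ^ (C log L / log log L)`. -/
theorem push_main : ∃ C : ℝ, 0 < C ∧ ∀ (ι α : Type) (P : PushProg ι α) (T L : ℕ), 3 ≤ L →
    Fintype.card P.S ≤ L → T ≤ L → ∃ B : LetterNBP ι α,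
      (Fintype.card B.V : ℝ) ≤ (L : ℝ) ^ (C * Real.log L / Real.log (Real.log L)) ∧
        ∀ x, B.Accepts x ↔ P.AcceptsIn x T := by
  obtain ⟨C, hC, hnum⟩ := num_bound
  refine ⟨C, hC, fun ι α P T L hL hS hT => ?_⟩
  obtain ⟨l, hl⟩ : ∃ l, l = Nat.clog 2 L := ⟨_, rfl⟩
  obtain ⟨b, hb⟩ : ∃ b, b = Nat.log 2 l / 8 + 1 := ⟨_, rfl⟩
  obtain ⟨g, hg⟩ : ∃ g, g = l / b + 1 := ⟨_, rfl⟩
  have hLl : L ≤ 2 ^ l := by rw [hl]; exact Nat.le_pow_clog (by norm_num) L
  have hl2 : 2 ≤ l := by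
    rw [hl]
    by_contra h
    have h1 : Nat.clog 2 L ≤ 1 := by omega
    have h2 : L ≤ 2 ^ 1 := (Nat.le_pow_clog (by norm_num) L).trans
      (Nat.pow_le_pow_right (by norm_num) h1)
    omega
  have hlog : Nat.log 2 l < l := Nat.log_lt_self 2 (by omega)
  have hb1 : 0 < b := by omega
  have hbl : 8 * (b - 1) ≤ l := by omega
  have hbg : l ≤ b * g := by
    rw [hg, mul_add, mul_one]
    have := Nat.div_add_mod l b
    have h2 := Nat.mod_lt l hb1
    omega
  have hbg2 : b * g ≤ l + b := by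
    rw [hg, mul_add, mul_one]
    have := Nat.mul_div_le l b
    omega
  have hpow : 2 ^ (b * g) + 1 ≤ 2 ^ (l + b + 1) := by
    have h1 : 2 ^ (b * g) ≤ 2 ^ (l + b) := Nat.pow_le_pow_right (by norm_num) hbg2
    have h2 : 1 ≤ 2 ^ (l + b) := Nat.one_le_pow _ _ (by norm_num)
    rw [pow_succ]
    omega
  have hD : 2 * (Fintype.card P.S * (2 ^ (b * g) + 1)) ^ 2 ≤ 2 ^ (8 * l) := by
    calc 2 * (Fintype.card P.S * (2 ^ (b * g) + 1)) ^ 2
        ≤ 2 * (2 ^ l * 2 ^ (l + b + 1)) ^ 2 := by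
          gcongr
          exact hS.trans hLl
      _ = 2 ^ (1 + 2 * (l + (l + b + 1))) := by
          rw [← pow_add, ← pow_mul, pow_add 2 1, pow_one]
          congr 2
          ring
      _ ≤ 2 ^ (8 * l) := Nat.pow_le_pow_right (by norm_num) (by omega)
  have hTb : T ≤ 2 ^ (b * g) :=
    (hT.trans hLl).trans (Nat.pow_le_pow_right (by norm_num) hbg)
  obtain ⟨B, hB, hacc⟩ := push_explicit P b g (8 * l) T hTb hD
  refine ⟨B, ?_, hacc⟩
  refine le_trans ?_ (hnum L l b g (6 ^ b + 1) hL hl hb hg rfl)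
  exact_mod_cast hB

end Pool.Agent.MP_6216ea_lc
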