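import Pool.Agent.Lib.MP_6216ea_lc.LTModel

/-! Deterministic pushdown programs (the nonuniform version of deterministic auxiliary pushdown
automata). -/

set_option autoImplicit false

namespace Pool.Agent.MP_6216ea_lc

/-- The instruction of a node: `jump s` goes to the node `s`; `read i f` goes to the node `f a`,
`a` the letter at position `i` of the input; `push g s` pushes the symbol `g` and goes to `s`;
`pop f` removes the top symbol `g` and goes to `f g` (the program is stuck if the stack is
empty). -/
inductive PInstr (ι α Γ S : Type) : Type where
  | jump (s : S)
  | read (i : ι) (f : α → S)
  | push (g : Γ) (s : S)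
  | pop (f : Γ → S)

/-- A deterministic pushdown program reading letters of `α` at the positions `i : ι`: a finite set
`S` of nodes with instructions, a start node and accepting nodes; `Γ` is the set of stack
symbols. -/
structure PushProg (ι α : Type) where
  S : Type
  Γ : Type
  fin : Fintype S
  instr : S → PInstr ι α Γ S
  start : S
  acc : S → Bool

attribute [instance] PushProg.fin

/-- One step on the input `x` from the node `s` with the stack `z` (top first). -/
def PushProg.next {ι α : Type} (P : PushProg ι α) (x : ι → α) (s : P.S) (z : List P.Γ) :
    Option (P.S × List P.Γ) :=
  match P.instr s with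
  | .jump s' => some (s', z)
  | .read i f => some (f (x i), z)
  | .push g s' => some (s', g :: z)
  | .pop f =>
    match z with
    | [] => none
    | g :: z' => some (f g, z')

/-- The configuration after `t` steps (`none` if the program got stuck before). -/
def PushProg.conf {ι α : Type} (P : PushProg ι α) (x : ι → α) :
    ℕ → P.S → List P.Γ → Option (P.S × List P.Γ)
  | 0, s, z => some (s, z)
  | t + 1, s, z => (P.next x s z).bind fun c => P.conf x t c.1 c.2

/-- The program, started in the start node with the empty stack, reaches an accepting node within
`T` steps. -/
def PushProg.AcceptsIn {ι α : Type} (P : PushProg ι α) (x : ι → α) (T : ℕ) : Prop :=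
  ∃ t ≤ T, ∃ s z, P.conf x t P.start [] = some (s, z) ∧ P.acc s = true

end Pool.Agent.MP_6216ea_lc
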