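import Pool.Agent.Lib.MP_6216ea_lc.DCModel

/-! Composition of nondeterministic branching programs: conditions on letters are replaced by
programs, and unions. -/

set_option autoImplicit false

namespace Pool.Agent.MP_6216ea_lc

variable {ι α κ β γ : Type}

namespace LetterNBP

/-! ### Substitution -/

/-- The edges of the composed program: the vertex `inr (u, ⟨k, w⟩)` is the vertex `w` of the program
of the condition `k = (i, b)`, entered from `u`. -/
inductive SubEdge (P : LetterNBP κ β) (Q : κ × β → LetterNBP ι α) :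
    (P.V ⊕ (P.V × Σ k : κ × β, (Q k).V)) → Option (ι × α) →
      (P.V ⊕ (P.V × Σ k : κ × β, (Q k).V)) → Prop
  | free {u v : P.V} : P.edge u none v → SubEdge P Q (.inl u) none (.inl v)
  | enter (u : P.V) (k : κ × β) : SubEdge P Q (.inl u) none (.inr (u, ⟨k, (Q k).source⟩))
  | inside (u : P.V) (k : κ × β) {w w' : (Q k).V} {l : Option (ι × α)} : (Q k).edge w l w' →
      SubEdge P Q (.inr (u, ⟨k, w⟩)) l (.inr (u, ⟨k, w'⟩))
  | leave (u : P.V) (k : κ × β) {v : P.V} : P.edge u (some k) v →
      SubEdge P Q (.inr (u, ⟨k, (Q k).target⟩)) none (.inl v)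

/-- Replace every condition `k` of the program `P` by the program `Q k`. -/
def sub [Fintype κ] [Fintype β] (P : LetterNBP κ β) (Q : κ × β → LetterNBP ι α) :
    LetterNBP ι α where
  V := P.V ⊕ (P.V × Σ k : κ × β, (Q k).V)
  fin := inferInstance
  edge := SubEdge P Q
  source := .inl P.source
  target := .inl P.target

section sub

variable [Fintype κ] [Fintype β] (P : LetterNBP κ β) (Q : κ × β → LetterNBP ι α)
  {x : ι → α} {y : κ → β}

theorem card_sub {B : ℕ} (hB : ∀ k, Fintype.card (Q k).V ≤ B) :
    Fintype.card (P.sub Q).V ≤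
      Fintype.card P.V * (1 + Fintype.card κ * Fintype.card β * B) := by
  change Fintype.card (P.V ⊕ (P.V × Σ k : κ × β, (Q k).V)) ≤ _
  rw [Fintype.card_sum, Fintype.card_prod, Fintype.card_sigma, mul_add, mul_one]
  gcongr
  calc ∑ k : κ × β, Fintype.card (Q k).V ≤ ∑ _k : κ × β, B :=
        Finset.sum_le_sum fun k _ => hB k
    _ = Fintype.card κ * Fintype.card β * B := by
        rw [Finset.sum_const, Finset.card_univ, Fintype.card_prod, smul_eq_mul]

/-- the part of a path inside one of the programs -/
theorem sub_inside {a : (P.sub Q).V} (u : P.V) (k : κ × β) {T : ℕ} {w : (Q k).V}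
    (h : (Q k).Path x T (Q k).source w) {T₀ : ℕ}
    (h₀ : (P.sub Q).Path x T₀ a (.inr (u, ⟨k, (Q k).source⟩))) :
    ∃ T', (P.sub Q).Path x T' a (.inr (u, ⟨k, w⟩)) := by
  generalize hs : (Q k).source = s at h
  induction h with
  | nil v =>
    subst hs
    exact ⟨T₀, h₀⟩
  | free hp he ih =>
    obtain ⟨T', hT'⟩ := ih hs
    exact ⟨T', .free hT' (SubEdge.inside u k he)⟩
  | query i hp he ih =>
    obtain ⟨T', hT'⟩ := ih hs
    exact ⟨T' + 1, .query i hT' (SubEdge.inside u k he)⟩

theorem sub_of_path (hQ : ∀ i b, (Q (i, b)).Accepts x ↔ y i = b) {T : ℕ} {u v : P.V}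
    (h : P.Path y T u v) : ∃ T', (P.sub Q).Path x T' (.inl u) (.inl v) := by
  induction h with
  | nil v => exact ⟨0, .nil _⟩
  | free hp he ih =>
    obtain ⟨T', hT'⟩ := ih
    exact ⟨T', .free hT' (SubEdge.free he)⟩
  | query i hp he ih =>
    obtain ⟨T', hT'⟩ := ih
    obtain ⟨T₁, h₁⟩ := (hQ i (y i)).2 rfl
    obtain ⟨T₂, h₂⟩ := sub_inside P Q _ (i, y i) h₁ (.free hT' (SubEdge.enter _ (i, y i)))
    exact ⟨T₂, .free h₂ (SubEdge.leave _ (i, y i) he)⟩

/-- the meaning of a vertex of the composed program -/
def SubInv (x : ι → α) (y : κ → β) : (P.sub Q).V → Prop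
  | .inl v => ∃ T, P.Path y T P.source v
  | .inr (u, ⟨k, w⟩) => (∃ T, P.Path y T P.source u) ∧ ∃ T, (Q k).Path x T (Q k).source w

theorem sub_edge (hQ : ∀ i b, (Q (i, b)).Accepts x ↔ y i = b) {a b : (P.sub Q).V}
    {l : Option (ι × α)} (he : (P.sub Q).edge a l b) (hl : ∀ i c, l = some (i, c) → x i = c)
    (ha : SubInv P Q x y a) : SubInv P Q x y b := by
  have he' : SubEdge P Q a l b := he
  clear he
  cases he' with
  | free he =>
    obtain ⟨T, hT⟩ := ha
    exact ⟨T, .free hT he⟩
  | enter u k => exact ⟨ha, 0, .nil _⟩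
  | @inside u k w w' l he =>
    obtain ⟨hu, T, hT⟩ := ha
    refine ⟨hu, ?_⟩
    cases l with
    | none => exact ⟨T, .free hT he⟩
    | some p =>
      obtain ⟨i, c⟩ := p
      have hx := hl i c rfl
      subst hx
      exact ⟨T + 1, .query i hT he⟩
  | leave u k he =>
    obtain ⟨⟨T, hT⟩, T', hT'⟩ := ha
    obtain ⟨i, c⟩ := k
    have hy := (hQ i c).1 ⟨T', hT'⟩
    subst hy
    exact ⟨T + 1, .query i hT he⟩

theorem sub_inv (hQ : ∀ i b, (Q (i, b)).Accepts x ↔ y i = b) {T : ℕ} {a : (P.sub Q).V}
    (h : (P.sub Q).Path x T (P.sub Q).source a) : SubInv P Q x y a := by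
  generalize hs : (P.sub Q).source = s at h
  induction h with
  | nil v =>
    subst hs
    exact ⟨0, .nil _⟩
  | free hp he ih => exact sub_edge P Q hQ he (by simp) (ih hs)
  | query i hp he ih =>
    refine sub_edge P Q hQ he (fun j c hjc => ?_) (ih hs)
    simp only [Option.some.injEq, Prod.mk.injEq] at hjc
    rw [← hjc.1]; exact hjc.2

theorem sub_accepts (hQ : ∀ i b, (Q (i, b)).Accepts x ↔ y i = b) :
    (P.sub Q).Accepts x ↔ P.Accepts y := by
  constructor
  · rintro ⟨T, hT⟩
    exact sub_inv P Q hQ hT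
  · rintro ⟨T, hT⟩
    exact sub_of_path P Q hQ hT

end sub

/-! ### Unions -/

/-- The edges of the union. -/
inductive UniEdge (R : γ → LetterNBP ι α) :
    (Bool ⊕ Σ c : γ, (R c).V) → Option (ι × α) → (Bool ⊕ Σ c : γ, (R c).V) → Prop
  | enter (c : γ) : UniEdge R (.inl false) none (.inr ⟨c, (R c).source⟩)
  | inside (c : γ) {w w' : (R c).V} {l : Option (ι × α)} : (R c).edge w l w' →
      UniEdge R (.inr ⟨c, w⟩) l (.inr ⟨c, w'⟩)
  | leave (c : γ) : UniEdge R (.inr ⟨c, (R c).target⟩) none (.inl true)

/-- The union of finitely many programs. -/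
def uni [Fintype γ] (R : γ → LetterNBP ι α) : LetterNBP ι α where
  V := Bool ⊕ Σ c : γ, (R c).V
  fin := inferInstance
  edge := UniEdge R
  source := .inl false
  target := .inl true

section uni

variable [Fintype γ] (R : γ → LetterNBP ι α) {x : ι → α}

theorem card_uni {B : ℕ} (hB : ∀ c, Fintype.card (R c).V ≤ B) :
    Fintype.card (uni R).V ≤ 2 + Fintype.card γ * B := by
  change Fintype.card (Bool ⊕ Σ c : γ, (R c).V) ≤ _
  rw [Fintype.card_sum, Fintype.card_bool, Fintype.card_sigma]
  gcongr
  calc ∑ c : γ, Fintype.card (R c).V ≤ ∑ _c : γ, B := Finset.sum_le_sum fun c _ => hB c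
    _ = Fintype.card γ * B := by rw [Finset.sum_const, Finset.card_univ, smul_eq_mul]

/-- the meaning of a vertex of the union -/
def UniInv (x : ι → α) : (uni R).V → Prop
  | .inl false => True
  | .inl true => ∃ c, (R c).Accepts x
  | .inr ⟨c, w⟩ => ∃ T, (R c).Path x T (R c).source w

theorem uni_edge {a b : (uni R).V} {l : Option (ι × α)} (he : (uni R).edge a l b)
    (hl : ∀ i c, l = some (i, c) → x i = c) (ha : UniInv R x a) : UniInv R x b := by
  have he' : UniEdge R a l b := he
  clear he
  cases he' with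
  | enter c => exact ⟨0, .nil _⟩
  | @inside c w w' l he =>
    obtain ⟨T, hT⟩ := ha
    cases l with
    | none => exact ⟨T, .free hT he⟩
    | some p =>
      obtain ⟨i, c⟩ := p
      have hx := hl i c rfl
      subst hx
      exact ⟨T + 1, .query i hT he⟩
  | leave c =>
    obtain ⟨T, hT⟩ := ha
    exact ⟨c, T, hT⟩

theorem uni_accepts : (uni R).Accepts x ↔ ∃ c, (R c).Accepts x := by
  constructor
  · rintro ⟨T, h⟩
    have key : ∀ {T : ℕ} {a : (uni R).V}, (uni R).Path x T (uni R).source a → UniInv R x a := by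
      intro T a h
      generalize hs : (uni R).source = s at h
      induction h with
      | nil v =>
        subst hs
        exact trivial
      | free hp he ih => exact uni_edge R he (by simp) (ih hs)
      | query i hp he ih =>
        refine uni_edge R he (fun j c hjc => ?_) (ih hs)
        simp only [Option.some.injEq, Prod.mk.injEq] at hjc
        rw [← hjc.1]; exact hjc.2
    exact key h
  · rintro ⟨c, T, h⟩
    have key : ∀ {T : ℕ} {w : (R c).V}, (R c).Path x T (R c).source w →
        ∃ T', (uni R).Path x T' (uni R).source (.inr ⟨c, w⟩) := by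
      intro T w h
      generalize hs : (R c).source = s at h
      induction h with
      | nil v =>
        subst hs
        exact ⟨0, .free (.nil _) (UniEdge.enter c)⟩
      | free hp he ih =>
        obtain ⟨T', hT'⟩ := ih hs
        exact ⟨T', .free hT' (UniEdge.inside c he)⟩
      | query i hp he ih =>
        obtain ⟨T', hT'⟩ := ih hs
        exact ⟨T' + 1, .query i hT' (UniEdge.inside c he)⟩
    obtain ⟨T', hT'⟩ := key h
    exact ⟨T', .free hT' (UniEdge.leave c)⟩

end uni

/-! ### Constant programs -/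

/-- The program which accepts everything (`b = true`) or nothing. -/
def const (ι α : Type) (b : Bool) : LetterNBP ι α where
  V := Bool
  fin := inferInstance
  edge _ _ _ := False
  source := true
  target := b

theorem const_accepts (b : Bool) (x : ι → α) : (const ι α b).Accepts x ↔ b = true := by
  constructor
  · rintro ⟨T, h⟩
    have key : ∀ {T : ℕ} {w : (const ι α b).V}, (const ι α b).Path x T (const ι α b).source w →
        w = true := by
      intro T w h
      generalize hs : (const ι α b).source = s at h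
      induction h with
      | nil v => exact hs.symm
      | free hp he ih => exact he.elim
      | query i hp he ih => exact he.elim
    exact key h
  · rintro rfl
    exact ⟨0, .nil _⟩

end LetterNBP

end Pool.Agent.MP_6216ea_lc
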