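import Pool.Agent.Lib.MP_6216ea_lc.DCMain
import Pool.Agent.Lib.MP_6216ea_lc.DCSub

/-! Pushdown programs whose letters are answers of nondeterministic branching programs, with a
finite choice. -/

set_option autoImplicit false

namespace Pool.Agent.MP_6216ea_lc

variable {ι α κ β γ : Type}

namespace PushProg

/-- The position read by a node. -/
def pos? (P : PushProg κ β) (s : P.S) : Option κ :=
  match P.instr s with
  | .read i _ => some i
  | _ => none

/-- The program with its nodes as positions. -/
def reix (P : PushProg κ β) : PushProg P.S (Option β) where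
  S := P.S
  Γ := P.Γ
  fin := P.fin
  instr s := match P.instr s with
    | .jump s' => .jump s'
    | .read _ f => .read s (fun o => o.elim s f)
    | .push g s' => .push g s'
    | .pop f => .pop f
  start := P.start
  acc := P.acc

/-- The input of `P.reix`. -/
def reixIn (P : PushProg κ β) (y : κ → β) (s : P.S) : Option β := (P.pos? s).map y

theorem reix_next (P : PushProg κ β) (y : κ → β) (s : P.S) (z : List P.Γ) :
    P.reix.next (P.reixIn y) s z = P.next y s z := by
  unfold PushProg.next PushProg.reix PushProg.reixIn PushProg.pos?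
  cases h : P.instr s
  case pop f => cases z <;> simp [h]
  all_goals simp [h]

theorem reix_conf (P : PushProg κ β) (y : κ → β) (t : ℕ) (s : P.S) (z : List P.Γ) :
    P.reix.conf (P.reixIn y) t s z = P.conf y t s z := by
  induction t generalizing s z with
  | zero => rfl
  | succ t ih =>
    have h := P.reix_next y s z
    change (P.reix.next (P.reixIn y) s z).bind _ = (P.next y s z).bind _
    rw [h]
    cases P.next y s z with
    | none => rfl
    | some c => exact ih c.1 c.2

theorem reix_accepts (P : PushProg κ β) (y : κ → β) (T : ℕ) :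
    P.reix.AcceptsIn (P.reixIn y) T ↔ P.AcceptsIn y T := by
  constructor
  · rintro ⟨t, ht, s, z, h, ha⟩
    exact ⟨t, ht, s, z, (P.reix_conf y t P.start []).symm.trans h, ha⟩
  · rintro ⟨t, ht, s, z, h, ha⟩
    exact ⟨t, ht, s, z, (P.reix_conf y t P.start []).trans h, ha⟩

end PushProg

/-- Every pushdown program with at most `L` nodes, run for at most `L` steps, whose letters are
answers of nondeterministic branching programs of size at most `L` and which may make a choice
`c : γ` in the beginning (so that the answers depend on `c`), has a nondeterministic branching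
program of size `|γ| L ^ (C log L / log log L)`. -/
theorem push_general : ∃ C : ℝ, 0 < C ∧ ∀ (ι α κ β γ : Type) [Fintype β] [Fintype γ] [Nonempty γ]
    (P : PushProg κ β) (ans : γ → (ι → α) → κ → β) (T L : ℕ), 3 ≤ L → Fintype.card P.S ≤ L →
    Fintype.card β ≤ L → T ≤ L →
    (∀ c i b, ∃ Q : LetterNBP ι α, Fintype.card Q.V ≤ L ∧ ∀ x, Q.Accepts x ↔ ans c x i = b) →
    ∃ B : LetterNBP ι α,
      (Fintype.card B.V : ℝ) ≤
        Fintype.card γ * (L : ℝ) ^ (C * Real.log L / Real.log (Real.log L)) ∧
        ∀ x, B.Accepts x ↔ ∃ c, P.AcceptsIn (ans c x) T := by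
  classical
  obtain ⟨C, hC, hmain⟩ := push_main
  refine ⟨C + 5, by linarith, ?_⟩
  intro ι α κ β γ _ _ _ P ans T L hL hS hβ hT hQ
  obtain ⟨B₀, hB₀, hacc⟩ := hmain P.S (Option β) P.reix T L hL hS hT
  have hQ' : ∀ (c : γ) (k : P.S × Option β), ∃ Q : LetterNBP ι α, Fintype.card Q.V ≤ L ∧
      ∀ x, Q.Accepts x ↔ P.reixIn (ans c x) k.1 = k.2 := by
    rintro c ⟨s, o⟩
    have hconst : ∀ b : Bool, Fintype.card (LetterNBP.const ι α b).V ≤ L := fun b => by
      change Fintype.card Bool ≤ L
      rw [Fintype.card_bool]; omega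
    cases hp : P.pos? s with
    | none =>
      refine ⟨LetterNBP.const ι α (decide (o = none)), hconst _, fun x => ?_⟩
      rw [LetterNBP.const_accepts, decide_eq_true_iff]
      simp only [PushProg.reixIn, hp, Option.map_none]
      exact eq_comm
    | some i =>
      cases o with
      | none =>
        refine ⟨LetterNBP.const ι α false, hconst _, fun x => ?_⟩
        rw [LetterNBP.const_accepts]
        simp [PushProg.reixIn, hp]
      | some b =>
        obtain ⟨Q, hQ1, hQ2⟩ := hQ c i b
        refine ⟨Q, hQ1, fun x => ?_⟩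
        rw [hQ2 x]
        simp [PushProg.reixIn, hp]
  choose Q hQc hQa using hQ'
  refine ⟨LetterNBP.uni fun c => B₀.sub (Q c), ?_, fun x => ?_⟩
  · have h1 : ∀ c : γ, Fintype.card (B₀.sub (Q c)).V ≤ Fintype.card B₀.V * L ^ 4 := by
      intro c
      refine (B₀.card_sub (Q c) (hQc c)).trans ?_
      gcongr
      rw [Fintype.card_option]
      calc 1 + Fintype.card P.S * (Fintype.card β + 1) * L ≤ 1 + L * (L + 1) * L := by gcongr
        _ ≤ L ^ 4 := by nlinarith [sq_nonneg (L : ℤ), Nat.pow_le_pow_left hL 2,
            Nat.pow_le_pow_left hL 3, Nat.mul_le_mul_right (L ^ 3) hL,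
            Nat.mul_le_mul_right (L ^ 2) hL]
    have h2 := LetterNBP.card_uni (fun c => B₀.sub (Q c)) h1
    have hM : 1 ≤ Fintype.card B₀.V := Fintype.card_pos_iff.2 ⟨B₀.source⟩
    have hγ : 1 ≤ Fintype.card γ := Fintype.card_pos
    have h3 : Fintype.card (LetterNBP.uni fun c => B₀.sub (Q c)).V ≤
        Fintype.card γ * (Fintype.card B₀.V * L ^ 5) := by
      refine h2.trans ?_
      have h4 : 1 ≤ Fintype.card γ * (Fintype.card B₀.V * L ^ 4) :=
        Nat.mul_pos hγ (Nat.mul_pos hM (by positivity))
      calc 2 + Fintype.card γ * (Fintype.card B₀.V * L ^ 4)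
          ≤ 3 * (Fintype.card γ * (Fintype.card B₀.V * L ^ 4)) := by omega
        _ ≤ L * (Fintype.card γ * (Fintype.card B₀.V * L ^ 4)) := by gcongr
        _ = Fintype.card γ * (Fintype.card B₀.V * L ^ 5) := by ring
    have hL' : (3 : ℝ) ≤ L := by exact_mod_cast hL
    have hlog : 1 < Real.log L := by
      have h5 : Real.exp 1 < L := lt_of_lt_of_le (by linarith [Real.exp_one_lt_d9]) hL'
      have h6 := Real.log_lt_log (Real.exp_pos 1) h5
      rwa [Real.log_exp] at h6
    have hloglog : 0 < Real.log (Real.log L) := Real.log_pos hlog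
    have hle : Real.log (Real.log L) ≤ Real.log L := by
      have := Real.log_le_sub_one_of_pos (show 0 < Real.log L by linarith)
      linarith
    have hr : 1 ≤ Real.log L / Real.log (Real.log L) := by
      rw [le_div_iff₀ hloglog, one_mul]; exact hle
    have h7 : (L : ℝ) ^ 5 ≤ (L : ℝ) ^ (5 * (Real.log L / Real.log (Real.log L))) := by
      rw [← Real.rpow_natCast]
      apply Real.rpow_le_rpow_of_exponent_le (by linarith)
      push_cast
      linarith
    calc (Fintype.card (LetterNBP.uni fun c => B₀.sub (Q c)).V : ℝ)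
        ≤ ((Fintype.card γ * (Fintype.card B₀.V * L ^ 5) : ℕ) : ℝ) := by exact_mod_cast h3
      _ = Fintype.card γ * ((Fintype.card B₀.V : ℝ) * (L : ℝ) ^ 5) := by push_cast; ring
      _ ≤ Fintype.card γ * ((L : ℝ) ^ (C * Real.log L / Real.log (Real.log L)) *
            (L : ℝ) ^ (5 * (Real.log L / Real.log (Real.log L)))) := by gcongr
      _ = Fintype.card γ * (L : ℝ) ^ ((C + 5) * Real.log L / Real.log (Real.log L)) := by
          rw [← Real.rpow_add (by linarith)]
          congr 2
          ring
  · rw [LetterNBP.uni_accepts]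
    refine exists_congr fun c => ?_
    rw [LetterNBP.sub_accepts B₀ (Q c) (y := P.reixIn (ans c x)) fun s o => hQa c (s, o) x,
      hacc, PushProg.reix_accepts]

end Pool.Agent.MP_6216ea_lc
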