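import Pool.Agent.Lib.MP_6216ea_lc.DCNL
import Pool.Agent.Lib.MP_6216ea_lc.DCHead

/-! Multi-head pushdown automata whose letters are answers of nondeterministic branching programs,
with a finite choice. -/

set_option autoImplicit false

namespace Pool.Agent.MP_6216ea_lc

/-- Numerics: `L ^ (C log L / log log L)` for `L = n ^ e`. -/
theorem head_num {C : ℝ} (hC : 0 < C) {n e : ℕ} (hn : 3 ≤ n) (he : 1 ≤ e) :
    ((n ^ e : ℕ) : ℝ) ^ (C * Real.log ((n ^ e : ℕ) : ℝ) / Real.log (Real.log ((n ^ e : ℕ) : ℝ))) ≤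
      (n : ℝ) ^ (C * e ^ 2 * Real.log n / Real.log (Real.log n)) := by
  have hn' : (3 : ℝ) ≤ n := by exact_mod_cast hn
  have hlog : 1 < Real.log n := by
    have h5 : Real.exp 1 < n := lt_of_lt_of_le (by linarith [Real.exp_one_lt_d9]) hn'
    have h6 := Real.log_lt_log (Real.exp_pos 1) h5
    rwa [Real.log_exp] at h6
  have hll : 0 < Real.log (Real.log n) := Real.log_pos hlog
  have he' : (1 : ℝ) ≤ e := by exact_mod_cast he
  push_cast
  rw [Real.log_pow, ← Real.rpow_natCast, ← Real.rpow_mul (by linarith)]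
  apply Real.rpow_le_rpow_of_exponent_le (by linarith)
  have h1 : Real.log (Real.log n) ≤ Real.log (e * Real.log n) :=
    Real.log_le_log (by linarith) (by nlinarith)
  calc (e : ℝ) * (C * (e * Real.log n) / Real.log (e * Real.log n))
      = (C * e ^ 2 * Real.log n) / Real.log (e * Real.log n) := by ring
    _ ≤ (C * e ^ 2 * Real.log n) / Real.log (Real.log n) := by
        apply div_le_div_of_nonneg_left _ hll h1
        positivity

/-- Let `M` be a deterministic two-way multi-head pushdown automaton. Suppose that the letters of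
the words `R c x` of length `N ≤ n ^ d` are computed from `x` by nondeterministic branching
programs of size at most `n ^ d`. Then the set of all `x` for which there is a choice `c : γ` such
that `M` accepts `R c x` within `n ^ d` steps has a nondeterministic branching program of size
`|γ| n ^ (C log n / log log n)`. -/
theorem head_general {β : Type} [Fintype β] (M : HeadPDA β) (d : ℕ) : ∃ C : ℝ, 0 < C ∧
    ∀ (n N : ℕ) (ι α γ : Type) [Fintype γ] [Nonempty γ] (R : γ → (ι → α) → Fin N → β), 3 ≤ n →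
    N ≤ n ^ d →
    (∀ c i b, ∃ Q : LetterNBP ι α, Fintype.card Q.V ≤ n ^ d ∧ ∀ x, Q.Accepts x ↔ R c x i = b) →
    ∃ B : LetterNBP ι α,
      (Fintype.card B.V : ℝ) ≤
        Fintype.card γ * (n : ℝ) ^ (C * Real.log n / Real.log (Real.log n)) ∧
        ∀ x, B.Accepts x ↔ ∃ c, M.AcceptsIn (R c x) (n ^ d) := by
  obtain ⟨C, hC, hmain⟩ := push_general
  obtain ⟨a, ha⟩ := head_prog M
  obtain ⟨e, he⟩ : ∃ e, e = a + Fintype.card β + (d + 1) * (M.k + 2) := ⟨_, rfl⟩
  have he1 : 1 ≤ e := by rw [he]; nlinarith [Nat.zero_le a]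
  refine ⟨C * e ^ 2, by positivity, ?_⟩
  intro n N ι α γ _ _ R hn hN hQ
  obtain ⟨P, hP, hacc⟩ := ha N
  have hpos : 1 ≤ n ^ d := Nat.one_le_pow _ _ (by omega)
  have hself : ∀ m : ℕ, m ≤ n ^ m := fun m => (Nat.lt_pow_self (by omega)).le
  have hN1 : N + 1 ≤ n ^ (d + 1) := by
    rw [pow_succ]
    nlinarith
  have hd1 : 2 * n ^ d + 1 ≤ n ^ (d + 1) := by
    rw [pow_succ]
    nlinarith
  have hmono : ∀ {i j : ℕ}, i ≤ j → n ^ i ≤ n ^ j := fun h => Nat.pow_le_pow_right (by omega) h
  have h3 : 3 ≤ n ^ e := hn.trans (by simpa using hmono he1)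
  have hS : Fintype.card P.S ≤ n ^ e := by
    calc Fintype.card P.S ≤ a * (N + 1) ^ M.k := hP
      _ ≤ n ^ a * (n ^ (d + 1)) ^ M.k := by gcongr; exact hself a
      _ = n ^ (a + (d + 1) * M.k) := by rw [← pow_mul, ← pow_add]
      _ ≤ n ^ e := hmono (by rw [he]; nlinarith [Nat.zero_le d])
  have hβ : Fintype.card β ≤ n ^ e := (hself _).trans (hmono (by rw [he]; nlinarith [Nat.zero_le a]))
  have hT : 2 * n ^ d + 1 ≤ n ^ e :=
    hd1.trans (hmono (by rw [he]; nlinarith [Nat.zero_le d, Nat.zero_le (d * M.k)]))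
  have hde : n ^ d ≤ n ^ e := hmono (by rw [he]; nlinarith [Nat.zero_le (d * M.k)])
  obtain ⟨B, hB, hBa⟩ := hmain ι α (Fin N) β γ P R (2 * n ^ d + 1) (n ^ e) h3 hS hβ hT
    fun c i b => (hQ c i b).imp fun Q h => ⟨h.1.trans hde, h.2⟩
  refine ⟨B, hB.trans ?_, fun x => ?_⟩
  · gcongr
    exact head_num hC hn he1
  · rw [hBa x]
    exact exists_congr fun c => hacc (R c x) (n ^ d)

end Pool.Agent.MP_6216ea_lc
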