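import Mathlib

/-! DCNum2: the size of the bound for the number of questions, with a time parameter. -/

set_option autoImplicit false

namespace Pool.Agent.MP_6216ea_lc

/-- The exponents in natural numbers. -/
theorem num_bound2_aux (l b g m e u τ : ℕ) (hτ : 2 ≤ τ) (hτl : τ ≤ l) (he : e = Nat.log 2 l)
    (hu : u = Nat.log 2 τ) (hb : b = u / 8 + 1) (hg : g = l / b + 1) (hm : m = 6 ^ b + 1) :
    3 ^ (m * g + 1) * (2 ^ (8 * l)) ^ (2 * g + 1) * (8 * l + 1) ^ (m ^ 2 * g + m * (8 * l + 1)) ≤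
      2 ^ (2 * (m * g + 1) + 8 * l * (2 * g + 1) + (e + 4) * (m ^ 2 * g + m * (8 * l + 1))) ∧
    (2 * (m * g + 1) + 8 * l * (2 * g + 1) + (e + 4) * (m ^ 2 * g + m * (8 * l + 1))) * (u + 1) ≤
      14644 * l ^ 2 ∧
    3 ^ (m * g + 1) ≤ 2 ^ (30 * τ * l) := by
  have hl : 2 ≤ l := hτ.trans hτl
  have h2e : 2 ^ e ≤ l := by rw [he]; exact Nat.pow_log_le_self 2 (by omega)
  have h2u : 2 ^ u ≤ τ := by rw [hu]; exact Nat.pow_log_le_self 2 (by omega)
  have hle : l < 2 ^ (e + 1) := by rw [he]; exact Nat.lt_pow_succ_log_self (by norm_num) _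
  have hue : u ≤ e := by rw [hu, he]; exact Nat.log_mono_right hτl
  have hel : e + 1 ≤ l := (Nat.lt_two_pow_self (n := e)).trans_le h2e
  have hul : u + 1 ≤ l := by omega
  have h8 : u + 1 ≤ 8 * b := by omega
  have hb1 : 1 ≤ b := by omega
  have hgs : g * (u + 1) ≤ 9 * l := by
    have h1 : b * (l / b) ≤ l := Nat.mul_div_le l b
    calc g * (u + 1) = (l / b) * (u + 1) + (u + 1) := by rw [hg]; ring
      _ ≤ (l / b) * (8 * b) + l := Nat.add_le_add (Nat.mul_le_mul_left _ h8) hul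
      _ = 8 * (b * (l / b)) + l := by ring
      _ ≤ 8 * l + l := by omega
      _ = 9 * l := by ring
  obtain ⟨q, hq⟩ : ∃ q, q = u / 8 := ⟨_, rfl⟩
  obtain ⟨q', hq'⟩ : ∃ q', q' = e / 8 := ⟨_, rfl⟩
  have hqq : q ≤ q' := by rw [hq, hq']; exact Nat.div_le_div_right hue
  have hq1 : 256 ^ q' ≤ l := by
    calc 256 ^ q' = 2 ^ (8 * q') := by rw [pow_mul]; norm_num
      _ ≤ 2 ^ e := Nat.pow_le_pow_right (by norm_num) (by omega)
      _ ≤ l := h2e
  have hqτ : 256 ^ q ≤ τ := by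
    calc 256 ^ q = 2 ^ (8 * q) := by rw [pow_mul]; norm_num
      _ ≤ 2 ^ u := Nat.pow_le_pow_right (by norm_num) (by omega)
      _ ≤ τ := h2u
  have hm7' : m ≤ 7 * 6 ^ q := by
    have h1 : 1 ≤ 6 ^ q := Nat.one_le_pow _ _ (by norm_num)
    have h2 : m = 6 * 6 ^ q + 1 := by rw [hm, hb, ← hq, pow_succ]; ring
    omega
  have hm7 : m ≤ 7 * 6 ^ q' :=
    hm7'.trans (Nat.mul_le_mul_left _ (Nat.pow_le_pow_right (by norm_num) hqq))
  have hq2 : q' + 1 ≤ 2 ^ q' := Nat.lt_two_pow_self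
  have he4 : e + 4 ≤ 12 * 2 ^ q' := by omega
  have he1 : u + 1 ≤ 12 * 2 ^ q' := by omega
  have hmτ : m ≤ 7 * τ := by
    refine hm7'.trans (Nat.mul_le_mul_left _ ?_)
    exact (Nat.pow_le_pow_left (by norm_num) q).trans hqτ
  have hml : m ≤ 7 * l := hmτ.trans (Nat.mul_le_mul_left _ hτl)
  have hA : (e + 4) * m ^ 2 ≤ 588 * l := by
    calc (e + 4) * m ^ 2 ≤ (12 * 2 ^ q') * (7 * 6 ^ q') ^ 2 :=
          Nat.mul_le_mul he4 (Nat.pow_le_pow_left hm7 _)
      _ = 588 * (2 * 6 ^ 2) ^ q' := by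
          rw [mul_pow, mul_pow, ← pow_mul, ← pow_mul, mul_comm q' 2]; ring
      _ ≤ 588 * 256 ^ q' := Nat.mul_le_mul_left _ (Nat.pow_le_pow_left (by norm_num) _)
      _ ≤ 588 * l := Nat.mul_le_mul_left _ hq1
  have hB : (e + 4) * (u + 1) * m ≤ 1008 * l := by
    calc (e + 4) * (u + 1) * m ≤ (12 * 2 ^ q') * (12 * 2 ^ q') * (7 * 6 ^ q') :=
          Nat.mul_le_mul (Nat.mul_le_mul he4 he1) hm7
      _ = 1008 * (2 * 2 * 6) ^ q' := by rw [mul_pow, mul_pow]; ring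
      _ ≤ 1008 * 256 ^ q' := Nat.mul_le_mul_left _ (Nat.pow_le_pow_left (by norm_num) _)
      _ ≤ 1008 * l := Nat.mul_le_mul_left _ hq1
  have h3 : 3 ^ (m * g + 1) ≤ 2 ^ (2 * (m * g + 1)) := by
    rw [pow_mul]
    exact Nat.pow_le_pow_left (by norm_num) _
  refine ⟨?_, ?_, ?_⟩
  · have h2 : 8 * l + 1 ≤ 2 ^ (e + 4) := by
      have h3 : 2 ^ (e + 4) = 8 * 2 ^ (e + 1) := by rw [pow_add, pow_add]; ring
      rw [h3]
      omega
    calc 3 ^ (m * g + 1) * (2 ^ (8 * l)) ^ (2 * g + 1) *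
          (8 * l + 1) ^ (m ^ 2 * g + m * (8 * l + 1))
        ≤ 2 ^ (2 * (m * g + 1)) * 2 ^ (8 * l * (2 * g + 1)) *
          (2 ^ (e + 4)) ^ (m ^ 2 * g + m * (8 * l + 1)) :=
          Nat.mul_le_mul (Nat.mul_le_mul h3 (pow_mul 2 (8 * l) (2 * g + 1)).ge)
            (Nat.pow_le_pow_left h2 _)
      _ = 2 ^ (2 * (m * g + 1) + 8 * l * (2 * g + 1) +
          (e + 4) * (m ^ 2 * g + m * (8 * l + 1))) := by
          rw [← pow_mul, ← pow_add, ← pow_add]
  · have hs1 : 2 * (m * g + 1) * (u + 1) ≤ 128 * l ^ 2 := by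
      have h1 : m * (g * (u + 1)) ≤ (7 * l) * (9 * l) := Nat.mul_le_mul hml hgs
      have h2 : 2 * (m * g + 1) * (u + 1) = 2 * (m * (g * (u + 1))) + 2 * (u + 1) := by ring
      have h3 : u + 1 ≤ l * l := hul.trans (Nat.le_mul_self l)
      rw [h2]
      nlinarith
    have hs2 : 8 * l * (2 * g + 1) * (u + 1) ≤ 152 * l ^ 2 := by
      have h2 : 8 * l * (2 * g + 1) * (u + 1) = 8 * l * (2 * (g * (u + 1)) + (u + 1)) := by ring
      rw [h2]
      calc 8 * l * (2 * (g * (u + 1)) + (u + 1)) ≤ 8 * l * (2 * (9 * l) + l) :=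
            Nat.mul_le_mul_left _ (by omega)
        _ = 152 * l ^ 2 := by ring
    have hs3 : (e + 4) * (m ^ 2 * g) * (u + 1) ≤ 5292 * l ^ 2 := by
      calc (e + 4) * (m ^ 2 * g) * (u + 1) = ((e + 4) * m ^ 2) * (g * (u + 1)) := by ring
        _ ≤ (588 * l) * (9 * l) := Nat.mul_le_mul hA hgs
        _ = 5292 * l ^ 2 := by ring
    have hs4 : (e + 4) * (m * (8 * l + 1)) * (u + 1) ≤ 9072 * l ^ 2 := by
      calc (e + 4) * (m * (8 * l + 1)) * (u + 1) = ((e + 4) * (u + 1) * m) * (8 * l + 1) := by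
            ring
        _ ≤ (1008 * l) * (9 * l) := Nat.mul_le_mul hB (by omega)
        _ = 9072 * l ^ 2 := by ring
    calc (2 * (m * g + 1) + 8 * l * (2 * g + 1) + (e + 4) * (m ^ 2 * g + m * (8 * l + 1))) *
          (u + 1)
        = 2 * (m * g + 1) * (u + 1) + 8 * l * (2 * g + 1) * (u + 1) +
          ((e + 4) * (m ^ 2 * g) * (u + 1) + (e + 4) * (m * (8 * l + 1)) * (u + 1)) := by ring
      _ ≤ 128 * l ^ 2 + 152 * l ^ 2 + (5292 * l ^ 2 + 9072 * l ^ 2) :=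
          Nat.add_le_add (Nat.add_le_add hs1 hs2) (Nat.add_le_add hs3 hs4)
      _ = 14644 * l ^ 2 := by ring
  · have hg2 : g ≤ 2 * l := by
      have h1 : l / b ≤ l := Nat.div_le_self l b
      omega
    have h4 : m * g + 1 ≤ 15 * τ * l := by
      have h5 : m * g ≤ (7 * τ) * (2 * l) := Nat.mul_le_mul hmτ hg2
      have h6 : 1 ≤ τ * l := Nat.mul_pos (by omega) (by omega)
      nlinarith
    refine h3.trans (Nat.pow_le_pow_right (by norm_num) ?_)
    calc 2 * (m * g + 1) ≤ 2 * (15 * τ * l) := Nat.mul_le_mul_left _ h4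
      _ = 30 * τ * l := by ring

theorem num_bound2 : ∃ C : ℝ, 0 < C ∧ ∀ L l b g m τ : ℕ, 3 ≤ L → l = Nat.clog 2 L → 2 ≤ τ →
    (τ : ℝ) ≤ Real.log L → b = Nat.log 2 τ / 8 + 1 → g = l / b + 1 → m = 6 ^ b + 1 →
    ((3 ^ (m * g + 1) * (2 ^ (8 * l)) ^ (2 * g + 1) *
      (8 * l + 1) ^ (m ^ 2 * g + m * (8 * l + 1)) : ℕ) : ℝ) ≤
      (L : ℝ) ^ (C * Real.log L / Real.log τ) ∧
    ((3 ^ (m * g + 1) : ℕ) : ℝ) ≤ (L : ℝ) ^ (C * τ) := by
  refine ⟨58576, by norm_num, ?_⟩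
  intro L l b g m τ hL hl hτ hτL hb hg hm
  have hl2 : 2 ≤ l := by
    rw [hl]
    by_contra h
    have h1 : Nat.clog 2 L ≤ 1 := by omega
    have h2 := (Nat.clog_le_iff_le_pow (b := 2) (by norm_num)).1 h1
    omega
  -- real facts
  have hLr : (3 : ℝ) ≤ L := by exact_mod_cast hL
  have hlog2 : 0 < Real.log 2 := Real.log_pos (by norm_num)
  have hlog21 : Real.log 2 < 1 := by
    have := Real.log_two_lt_d9
    linarith
  have hτr : (2 : ℝ) ≤ τ := by exact_mod_cast hτ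
  have hlogL0 : 0 < Real.log L := by linarith
  have hlτ : 0 < Real.log τ := Real.log_pos (by linarith)
  have hlL : (l : ℝ) * Real.log 2 ≤ 2 * Real.log L := by
    have h3 : 2 ^ (l - 1) < L := by
      have h4 : l - 1 < Nat.clog 2 L := by omega
      exact (Nat.lt_clog_iff_pow_lt (by norm_num)).1 h4
    have h5 : ((2 : ℝ) ^ (l - 1)) ≤ L := by exact_mod_cast h3.le
    have h6 := Real.log_le_log (by positivity) h5
    rw [Real.log_pow] at h6
    have h7 : ((l - 1 : ℕ) : ℝ) = (l : ℝ) - 1 := by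
      rw [Nat.cast_sub (by omega), Nat.cast_one]
    rw [h7] at h6
    have h8 : (2 : ℝ) ≤ l := by exact_mod_cast hl2
    nlinarith
  have hLl : Real.log L ≤ l := by
    have h3 : L ≤ 2 ^ l := by
      rw [hl]
      exact Nat.le_pow_clog (by norm_num) L
    have h5 : (L : ℝ) ≤ (2 : ℝ) ^ l := by exact_mod_cast h3
    have h6 := Real.log_le_log (by linarith) h5
    rw [Real.log_pow] at h6
    have h8 : (0 : ℝ) ≤ l := Nat.cast_nonneg l
    nlinarith
  have hτl : τ ≤ l := by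
    have h1 : (τ : ℝ) ≤ l := hτL.trans hLl
    exact_mod_cast h1
  obtain ⟨e, he⟩ : ∃ e, e = Nat.log 2 l := ⟨_, rfl⟩
  obtain ⟨u, hu⟩ : ∃ u, u = Nat.log 2 τ := ⟨_, rfl⟩
  obtain ⟨h1, h2, h3⟩ := num_bound2_aux l b g m e u τ hτ hτl he hu (by rw [hb, hu]) hg hm
  set E := 2 * (m * g + 1) + 8 * l * (2 * g + 1) + (e + 4) * (m ^ 2 * g + m * (8 * l + 1)) with hE
  have hs : Real.log τ ≤ ((u : ℝ) + 1) * Real.log 2 := by
    have h4 : τ < 2 ^ (u + 1) := by rw [hu]; exact Nat.lt_pow_succ_log_self (by norm_num) _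
    have h5 : (τ : ℝ) ≤ (2 : ℝ) ^ (u + 1) := by exact_mod_cast h4.le
    have h7 := Real.log_le_log (by linarith) h5
    rw [Real.log_pow] at h7
    push_cast at h7
    linarith
  have hE2 : (E : ℝ) * ((u : ℝ) + 1) ≤ 14644 * (l : ℝ) ^ 2 := by exact_mod_cast h2
  have hEl : (E : ℝ) * Real.log 2 * Real.log τ ≤ 58576 * Real.log L ^ 2 := by
    have hE0 : (0 : ℝ) ≤ E := Nat.cast_nonneg E
    calc (E : ℝ) * Real.log 2 * Real.log τ
        ≤ (E : ℝ) * Real.log 2 * (((u : ℝ) + 1) * Real.log 2) :=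
          mul_le_mul_of_nonneg_left hs (by positivity)
      _ = ((E : ℝ) * ((u : ℝ) + 1)) * Real.log 2 ^ 2 := by ring
      _ ≤ (14644 * (l : ℝ) ^ 2) * Real.log 2 ^ 2 :=
          mul_le_mul_of_nonneg_right hE2 (by positivity)
      _ = 14644 * ((l : ℝ) * Real.log 2) ^ 2 := by ring
      _ ≤ 14644 * (2 * Real.log L) ^ 2 := by
          refine mul_le_mul_of_nonneg_left ?_ (by norm_num)
          exact pow_le_pow_left₀ (by positivity) hlL 2
      _ = 58576 * Real.log L ^ 2 := by ring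
  constructor
  · have h9 : ((3 ^ (m * g + 1) * (2 ^ (8 * l)) ^ (2 * g + 1) *
        (8 * l + 1) ^ (m ^ 2 * g + m * (8 * l + 1)) : ℕ) : ℝ) ≤ (2 : ℝ) ^ E := by
      exact_mod_cast h1
    refine h9.trans ?_
    rw [Real.rpow_def_of_pos (by linarith : (0 : ℝ) < L), ← Real.rpow_natCast,
      Real.rpow_def_of_pos (by norm_num : (0 : ℝ) < 2)]
    apply Real.exp_le_exp.2
    rw [mul_div_assoc', le_div_iff₀ hlτ]
    calc Real.log 2 * (E : ℝ) * Real.log τ
        = (E : ℝ) * Real.log 2 * Real.log τ := by ring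
      _ ≤ 58576 * Real.log L ^ 2 := hEl
      _ = Real.log L * (58576 * Real.log L) := by ring
  · have h9 : ((3 ^ (m * g + 1) : ℕ) : ℝ) ≤ (2 : ℝ) ^ (30 * τ * l) := by
      exact_mod_cast h3
    refine h9.trans ?_
    rw [Real.rpow_def_of_pos (by linarith : (0 : ℝ) < L), ← Real.rpow_natCast,
      Real.rpow_def_of_pos (by norm_num : (0 : ℝ) < 2)]
    apply Real.exp_le_exp.2
    push_cast
    have h10 : (0 : ℝ) ≤ τ := by linarith
    calc Real.log 2 * (30 * (τ : ℝ) * l) = 30 * τ * (l * Real.log 2) := by ring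
      _ ≤ 30 * τ * (2 * Real.log L) := mul_le_mul_of_nonneg_left hlL (by positivity)
      _ = 60 * (τ * Real.log L) := by ring
      _ ≤ 58576 * (τ * Real.log L) :=
          mul_le_mul_of_nonneg_right (by norm_num) (by positivity)
      _ = Real.log L * (58576 * τ) := by ring

end Pool.Agent.MP_6216ea_lc
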