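import Pool.Agent.Lib.MP_6216ea_lc.DCProg
import Pool.Agent.Lib.MP_6216ea_lc.DCFp

/-! Passes: values which are masked in registers and verified by fingerprints. -/

set_option autoImplicit false

namespace Pool.Agent.MP_6216ea_lc

namespace Pass

open Ins

/-- The memory of one level: the clear cell `c`, question `q`, answer `a`, fingerprints `φ`,
registers `r`, memory `w` of the lower levels. -/
@[ext]
structure U (X Md F W : Type) (m : ℕ) : Type where
  c : X
  q : X
  a : X
  φ : Fin m → Fin m → F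
  r : Fin m → Md
  w : W

variable {ι α X Md F W : Type} [AddCommGroup Md] [AddCommGroup F] {m : ℕ}

/-- The relation of a hook: it sees the clear value, the register `k`, the fingerprint `(j, k)`
and the answer. -/
def HookR (d : X) (j k : Fin m) (f : X → Md → F → X → Option (Md × F × X))
    (s t : U X Md F W m) : Prop :=
  ∃ p : Md × F × X, f s.c (s.r k) (s.φ j k) s.a = some p ∧
    t = ⟨d, s.q, p.2.2, fun j' k' => if j' = j ∧ k' = k then p.2.1 else s.φ j' k',
      fun k' => if k' = k then p.1 else s.r k', s.w⟩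

/-- Store the fingerprint of the register under the clear value. -/
def storeF (G : FPS X Md F) : X → Md → F → X → Option (Md × F × X) :=
  fun c r _ a => some (r, G.χ c r, a)

/-- Remove the clear value from the register and check the fingerprint. -/
def checkF [DecidableEq F] (G : FPS X Md F) : X → Md → F → X → Option (Md × F × X) :=
  fun c r φ a => if G.χ c (r - G.t c) = φ then some (r - G.t c, 0, a) else none

/-- Keep the clear value as the answer. -/
def lastF : X → Md → F → X → Option (Md × F × X) :=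
  fun c r φ _ => some (r, φ, c)

variable [DecidableEq F] (G : FPS X Md F) (d : X) (mid : ℕ → List (Ins ι α (U X Md F W m)))

/-- The loops over the items `k < n` before and after the hook of item `j`. -/
def loops : ℕ → (Fin m → List (Ins ι α (U X Md F W m))) × (Fin m → List (Ins ι α (U X Md F W m)))
  | 0 => (fun _ => [], fun _ => [])
  | n + 1 =>
    if h : n < m then
      (fun j => (loops n).1 j ++ ((loops n).1 ⟨n, h⟩ ++ (mid n ++
          (free (HookR d j ⟨n, h⟩ (storeF G)) :: (loops n).2 ⟨n, h⟩))),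
       fun j => (loops n).2 j ++ ((loops n).1 ⟨n, h⟩ ++ (mid n ++
          (free (HookR d j ⟨n, h⟩ (checkF G)) :: (loops n).2 ⟨n, h⟩))))
    else loops n

variable (V : ℕ → X)

/-- After the first loop. -/
def preS (n : ℕ) (j : Fin m) (s : U X Md F W m) : U X Md F W m :=
  ⟨s.c, s.q, s.a, fun j' k' => if j' = j ∧ k'.val < n then G.χ (V k'.val) (s.r k')
    else s.φ j' k', s.r, s.w⟩

/-- The checks of the second loop. -/
def postC (n : ℕ) (j : Fin m) (s : U X Md F W m) : Prop :=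
  ∀ k : Fin m, k.val < n → G.χ (V k.val) (s.r k - G.t (V k.val)) = s.φ j k

/-- After the second loop. -/
def postS (n : ℕ) (j : Fin m) (s : U X Md F W m) : U X Md F W m :=
  ⟨s.c, s.q, s.a, fun j' k' => if j' = j ∧ k'.val < n then 0 else s.φ j' k',
    fun k => if k.val < n then s.r k - G.t (V k.val) else s.r k, s.w⟩

/-- The rows below `n` are empty. -/
def Clean (n : ℕ) (s : U X Md F W m) : Prop := ∀ j' k' : Fin m, j'.val < n → s.φ j' k' = 0

/-- After the guess. -/
def midS (Fv : ℕ → (ℕ → X) → X) (n : ℕ) (y : ℕ → X) (s : U X Md F W m) : U X Md F W m :=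
  ⟨Fv n y, s.q, s.a, s.φ, fun k => if k.val < n then s.r k + G.t (y k.val) else s.r k, s.w⟩

variable {G d mid V}

/-- What the middle part has to do. -/
def MidOK (G : FPS X Md F) (mid : ℕ → List (Ins ι α (U X Md F W m))) (x : ι → α)
    (Fv : ℕ → (ℕ → X) → X) (q₀ : X) (w₀ : W) : Prop :=
  ∀ n < m, ∀ s t : U X Md F W m, s.q = q₀ → s.w = w₀ →
    (Run x (mid n) s t ↔ ∃ y : ℕ → X, t = midS G Fv n y s)

omit [DecidableEq F] in
theorem sandwich {x : ι → α} {Fv : ℕ → (ℕ → X) → X} {q₀ : X} {w₀ : W}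
    (hmid : MidOK G mid x Fv q₀ w₀)
    (hF : ∀ (n : ℕ) (y y' : ℕ → X), (∀ k < n, y k = y' k) → Fv n y = Fv n y')
    (hV : ∀ n < m, V n = Fv n V) (n : ℕ) (hn : n < m)
    {pre post : List (Ins ι α (U X Md F W m))}
    (hpre : ∀ s t : U X Md F W m, s.c = d → s.q = q₀ → s.w = w₀ → Clean n s →
      (Run x pre s t ↔ t = preS G V n ⟨n, hn⟩ s))
    (hpost : ∀ s t : U X Md F W m, s.c = d → s.q = q₀ → s.w = w₀ → Clean n s →
      (Run x post s t ↔ postC G V n ⟨n, hn⟩ s ∧ t = postS G V n ⟨n, hn⟩ s))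
    (j : Fin m) (hj : n ≤ j.val) (f : X → Md → F → X → Option (Md × F × X))
    (s t : U X Md F W m) (hc : s.c = d) (hq : s.q = q₀) (hw : s.w = w₀)
    (hcl : Clean (n + 1) s) :
    Run x (pre ++ (mid n ++ (free (HookR d j ⟨n, hn⟩ f) :: post))) s t ↔
      HookR d j ⟨n, hn⟩ f (⟨V n, s.q, s.a, s.φ, s.r, s.w⟩ : U X Md F W m) t := by
  have hcl' : Clean n s := fun j' k' h => hcl j' k' (by omega)
  have hnn : ∀ k : Fin m, k.val < n → k ≠ ⟨n, hn⟩ := by
    intro k hk h
    rw [h] at hk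
    exact lt_irrefl _ hk
  -- the state at the hook
  have e1 : ∀ y : ℕ → X, (midS G Fv n y (preS G V n ⟨n, hn⟩ s)).r ⟨n, hn⟩ = s.r ⟨n, hn⟩ := by
    intro y; simp [midS, preS]
  have e2 : ∀ y : ℕ → X, (midS G Fv n y (preS G V n ⟨n, hn⟩ s)).φ j ⟨n, hn⟩ = s.φ j ⟨n, hn⟩ := by
    intro y; simp [midS, preS]
  -- the rows below `n` are empty after the hook
  have ecl : ∀ (y : ℕ → X) (p : Md × F × X), Clean n (⟨d, s.q, p.2.2,
      fun j' k' => if j' = j ∧ k' = ⟨n, hn⟩ then p.2.1
        else (midS G Fv n y (preS G V n ⟨n, hn⟩ s)).φ j' k',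
      fun k' => if k' = ⟨n, hn⟩ then p.1 else (midS G Fv n y (preS G V n ⟨n, hn⟩ s)).r k',
      s.w⟩ : U X Md F W m) := by
    intro y p j' k' hj'
    have h1 : ¬ (j' = j ∧ k' = ⟨n, hn⟩) := by rintro ⟨h, -⟩; rw [h] at hj'; omega
    have h2 : ¬ (j' = ⟨n, hn⟩ ∧ k'.val < n) := by
      rintro ⟨h, -⟩; rw [h] at hj'; exact lt_irrefl _ hj'
    change (if j' = j ∧ k' = ⟨n, hn⟩ then p.2.1 else
      (if j' = ⟨n, hn⟩ ∧ k'.val < n then G.χ (V k'.val) (s.r k') else s.φ j' k')) = 0
    rw [if_neg h1, if_neg h2]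
    exact hcl' j' k' hj'
  -- the end state for the right guess
  have efin : ∀ (y : ℕ → X) (p : Md × F × X), (∀ k < n, y k = V k) →
      postS G V n ⟨n, hn⟩ (⟨d, s.q, p.2.2,
      fun j' k' => if j' = j ∧ k' = ⟨n, hn⟩ then p.2.1
        else (midS G Fv n y (preS G V n ⟨n, hn⟩ s)).φ j' k',
      fun k' => if k' = ⟨n, hn⟩ then p.1 else (midS G Fv n y (preS G V n ⟨n, hn⟩ s)).r k',
      s.w⟩ : U X Md F W m) =
      ⟨d, s.q, p.2.2, fun j' k' => if j' = j ∧ k' = ⟨n, hn⟩ then p.2.1 else s.φ j' k',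
        fun k' => if k' = ⟨n, hn⟩ then p.1 else s.r k', s.w⟩ := by
    intro y p hy
    have a1 : (fun j' k' : Fin m => if j' = ⟨n, hn⟩ ∧ k'.val < n then (0 : F) else
        (if j' = j ∧ k' = ⟨n, hn⟩ then p.2.1 else
          (if j' = ⟨n, hn⟩ ∧ k'.val < n then G.χ (V k'.val) (s.r k') else s.φ j' k'))) =
        fun j' k' => if j' = j ∧ k' = ⟨n, hn⟩ then p.2.1 else s.φ j' k' := by
      funext j' k'
      by_cases h2 : j' = ⟨n, hn⟩ ∧ k'.val < n
      · have h1 : ¬ (j' = j ∧ k' = ⟨n, hn⟩) := fun h => hnn k' h2.2 h.2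
        rw [if_pos h2, if_neg h1]
        exact (hcl j' k' (by rw [h2.1]; exact Nat.lt_succ_self n)).symm
      · rw [if_neg h2, if_neg h2]
    have a2 : (fun k' : Fin m => if k'.val < n then
        (if k' = ⟨n, hn⟩ then p.1 else
          (if k'.val < n then s.r k' + G.t (y k'.val) else s.r k')) - G.t (V k'.val) else
        (if k' = ⟨n, hn⟩ then p.1 else
          (if k'.val < n then s.r k' + G.t (y k'.val) else s.r k'))) =
        fun k' => if k' = ⟨n, hn⟩ then p.1 else s.r k' := by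
      funext k'
      by_cases h2 : k'.val < n
      · rw [if_pos h2, if_neg (hnn k' h2), if_pos h2, if_neg (hnn k' h2), hy _ h2,
          add_sub_cancel_right]
      · rw [if_neg h2, if_neg h2]
    unfold postS
    congr 1
  constructor
  · intro h
    rw [run_append] at h
    obtain ⟨s1, h1, h⟩ := h
    rw [hpre s s1 hc hq hw hcl'] at h1
    subst h1
    rw [run_append] at h
    obtain ⟨s2, h2, h⟩ := h
    rw [hmid n hn _ _ (by exact hq) (by exact hw)] at h2
    obtain ⟨y, rfl⟩ := h2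
    rw [run_cons] at h
    obtain ⟨s3, h3, h⟩ := h
    rw [rel_free] at h3
    obtain ⟨p, hp, rfl⟩ := h3
    obtain ⟨hC, rfl⟩ := (hpost _ _ rfl (by exact hq) (by exact hw) (ecl y p)).1 h
    have hy : ∀ k < n, y k = V k := by
      intro k hk
      have := hC ⟨k, by omega⟩ hk
      change G.χ (V k) ((if (⟨k, by omega⟩ : Fin m) = ⟨n, hn⟩ then p.1 else
        (if k < n then s.r ⟨k, by omega⟩ + G.t (y k) else s.r ⟨k, by omega⟩)) - G.t (V k)) =
        (if (⟨n, hn⟩ : Fin m) = j ∧ (⟨k, by omega⟩ : Fin m) = ⟨n, hn⟩ then p.2.1 else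
          (if (⟨n, hn⟩ : Fin m) = ⟨n, hn⟩ ∧ k < n then G.χ (V k) (s.r ⟨k, by omega⟩)
            else s.φ ⟨n, hn⟩ ⟨k, by omega⟩)) at this
      rw [if_neg (hnn _ hk), if_pos hk, if_neg (fun h => hnn _ hk h.2), if_pos ⟨rfl, hk⟩,
        map_sub, map_add] at this
      apply G.sep (V k) (y k)
      have h4 := congrArg (fun z => z + G.χ (V k) (G.t (V k)) - G.χ (V k) (s.r ⟨k, by omega⟩)) this
      simp only [sub_add_cancel, add_sub_cancel_left] at h4
      exact h4
    refine ⟨p, ?_, ?_⟩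
    · rw [e1, e2] at hp
      have hc' : (midS G Fv n y (preS G V n ⟨n, hn⟩ s)).c = V n := by
        change Fv n y = V n
        rw [hF n y V hy, hV n hn]
      rw [hc'] at hp
      exact hp
    · exact efin y p hy
  · rintro ⟨p, hp, rfl⟩
    rw [run_append]
    refine ⟨_, (hpre s _ hc hq hw hcl').2 rfl, ?_⟩
    rw [run_append]
    refine ⟨_, (hmid n hn _ _ (by exact hq) (by exact hw)).2 ⟨V, rfl⟩, ?_⟩
    rw [run_cons]
    refine ⟨_, (rel_free _ _ _ _).2 ⟨p, ?_, rfl⟩, ?_⟩
    · rw [e1, e2]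
      have hc' : (midS G Fv n V (preS G V n ⟨n, hn⟩ s)).c = V n := (hV n hn).symm
      rw [hc']
      exact hp
    · refine (hpost _ _ rfl (by exact hq) (by exact hw) (ecl V p)).2 ⟨?_, ?_⟩
      · intro k hk
        change G.χ (V k.val) ((if k = ⟨n, hn⟩ then p.1 else
          (if k.val < n then s.r k + G.t (V k.val) else s.r k)) - G.t (V k.val)) =
          (if (⟨n, hn⟩ : Fin m) = j ∧ k = ⟨n, hn⟩ then p.2.1 else
            (if (⟨n, hn⟩ : Fin m) = ⟨n, hn⟩ ∧ k.val < n then G.χ (V k.val) (s.r k)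
              else s.φ ⟨n, hn⟩ k))
        rw [if_neg (hnn _ hk), if_pos hk, if_neg (fun h => hnn _ hk h.2), if_pos ⟨rfl, hk⟩,
          add_sub_cancel_right]
      · exact (efin V p fun _ _ => rfl).symm

end Pass

end Pool.Agent.MP_6216ea_lc
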