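import Pool.Agent.Lib.MP_6216ea_lc.DCPass

/-! Semantics of the passes. -/

set_option autoImplicit false

namespace Pool.Agent.MP_6216ea_lc

namespace Pass

open Ins

theorem ite_succ {m : ℕ} {β : Type} {n : ℕ} (hn : n < m) (k' : Fin m) (A : Fin m → β) (C : β) :
    (if k'.val < n + 1 then A k' else C) =
      if k' = ⟨n, hn⟩ then A ⟨n, hn⟩ else if k'.val < n then A k' else C := by
  by_cases h2 : k' = ⟨n, hn⟩
  · subst h2
    rw [if_pos rfl, if_pos (Nat.lt_succ_self n)]
  · have h3 : k'.val ≠ n := fun h => h2 (Fin.ext h)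
    rw [if_neg h2]
    by_cases h4 : k'.val < n
    · rw [if_pos (show k'.val < n + 1 by omega), if_pos h4]
    · rw [if_neg (show ¬ k'.val < n + 1 by omega), if_neg h4]

theorem ite_succ' {m : ℕ} {β : Type} {n : ℕ} (hn : n < m) (p : Prop) [Decidable p] (k' : Fin m)
    (A : Fin m → β) (C : β) :
    (if p ∧ k'.val < n + 1 then A k' else C) =
      if p ∧ k' = ⟨n, hn⟩ then A ⟨n, hn⟩ else if p ∧ k'.val < n then A k' else C := by
  by_cases hp : p
  · simp only [hp, true_and]
    exact ite_succ hn k' A C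
  · rw [if_neg (fun h => hp h.1), if_neg (fun h => hp h.1), if_neg (fun h => hp h.1)]

variable {ι α X Md F W : Type} [AddCommGroup Md] [AddCommGroup F] {m : ℕ} [DecidableEq F]
  {G : FPS X Md F} {d : X} {mid : ℕ → List (Ins ι α (U X Md F W m))} {V : ℕ → X}

omit [DecidableEq F] in
theorem hook_store (j k : Fin m) (s t : U X Md F W m) :
    HookR d j k (storeF G) s t ↔ t = ⟨d, s.q, s.a,
      fun j' k' => if j' = j ∧ k' = k then G.χ s.c (s.r k) else s.φ j' k', s.r, s.w⟩ := by
  have e : (fun k' => if k' = k then s.r k else s.r k') = s.r := by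
    funext k'
    by_cases h : k' = k
    · rw [if_pos h, h]
    · rw [if_neg h]
  constructor
  · rintro ⟨p, hp, rfl⟩
    simp only [storeF, Option.some.injEq] at hp
    subst hp
    simp only [e]
  · rintro rfl
    exact ⟨_, rfl, by simp only [e]⟩

theorem hook_check (j k : Fin m) (s t : U X Md F W m) :
    HookR d j k (checkF G) s t ↔ G.χ s.c (s.r k - G.t s.c) = s.φ j k ∧ t = ⟨d, s.q, s.a,
      fun j' k' => if j' = j ∧ k' = k then 0 else s.φ j' k',
      fun k' => if k' = k then s.r k - G.t s.c else s.r k', s.w⟩ := by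
  constructor
  · rintro ⟨p, hp, rfl⟩
    unfold checkF at hp
    by_cases h : G.χ s.c (s.r k - G.t s.c) = s.φ j k
    · rw [if_pos h] at hp
      simp only [Option.some.injEq] at hp
      subst hp
      exact ⟨h, rfl⟩
    · rw [if_neg h] at hp
      cases hp
  · rintro ⟨h, rfl⟩
    refine ⟨(s.r k - G.t s.c, 0, s.a), ?_, rfl⟩
    unfold checkF
    rw [if_pos h]

omit [AddCommGroup Md] [AddCommGroup F] [DecidableEq F] in
theorem hook_last (j k : Fin m) (s t : U X Md F W m) :
    HookR d j k lastF s t ↔ t = ⟨d, s.q, s.c, s.φ, s.r, s.w⟩ := by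
  have e : (fun k' => if k' = k then s.r k else s.r k') = s.r := by
    funext k'
    by_cases h : k' = k
    · rw [if_pos h, h]
    · rw [if_neg h]
  have e' : (fun j' k' => if j' = j ∧ k' = k then s.φ j k else s.φ j' k') = s.φ := by
    funext j' k'
    by_cases h : j' = j ∧ k' = k
    · rw [if_pos h, h.1, h.2]
    · rw [if_neg h]
  constructor
  · rintro ⟨p, hp, rfl⟩
    simp only [lastF, Option.some.injEq] at hp
    subst hp
    simp only [e, e']
  · rintro rfl
    exact ⟨_, rfl, by simp only [e, e']⟩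

theorem loops_sem {x : ι → α} {Fv : ℕ → (ℕ → X) → X} {q₀ : X} {w₀ : W}
    (hmid : MidOK G mid x Fv q₀ w₀)
    (hF : ∀ (n : ℕ) (y y' : ℕ → X), (∀ k < n, y k = y' k) → Fv n y = Fv n y')
    (hV : ∀ n < m, V n = Fv n V) (n : ℕ) (hn : n ≤ m) :
    (∀ j : Fin m, n ≤ j.val → ∀ s t : U X Md F W m, s.c = d → s.q = q₀ → s.w = w₀ → Clean n s →
      (Run x ((loops G d mid n).1 j) s t ↔ t = preS G V n j s)) ∧
    (∀ j : Fin m, n ≤ j.val → ∀ s t : U X Md F W m, s.c = d → s.q = q₀ → s.w = w₀ → Clean n s →
      (Run x ((loops G d mid n).2 j) s t ↔ postC G V n j s ∧ t = postS G V n j s)) := by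
  induction n with
  | zero =>
    have e1 : ∀ (j : Fin m) (s : U X Md F W m), preS G V 0 j s = s := by
      intro j s
      unfold preS
      simp
    have e2 : ∀ (j : Fin m) (s : U X Md F W m), postS G V 0 j s = s := by
      intro j s
      unfold postS
      simp
    constructor
    · intro j _ s t _ _ _ _
      rw [e1]
      exact ⟨fun h => Eq.symm h, fun h => Eq.symm h⟩
    · intro j _ s t _ _ _ _
      rw [e2]
      exact ⟨fun h => ⟨fun k hk => absurd hk (Nat.not_lt_zero _), Eq.symm h⟩,
        fun h => Eq.symm h.2⟩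
  | succ n ih =>
    have hnm : n < m := hn
    obtain ⟨ih1, ih2⟩ := ih (by omega)
    have hkk : ∀ k' : Fin m, k' = ⟨n, hnm⟩ ↔ k'.val = n := fun k' => by
      rw [Fin.ext_iff]
    constructor
    · intro j hj s t hc hq hw hcl
      have hjn : ∀ j' : Fin m, j'.val < n + 1 → j' ≠ j := by
        intro j' h h'
        rw [h'] at h; omega
      have hcu : Clean (n + 1) (preS G V n j s) := by
        intro j' k' h
        change (if j' = j ∧ k'.val < n then _ else s.φ j' k') = 0
        rw [if_neg (fun h' => hjn j' h h'.1)]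
        exact hcl j' k' h
      have hB := sandwich (G := G) (d := d) hmid hF hV n hnm (ih1 ⟨n, hnm⟩ le_rfl)
        (ih2 ⟨n, hnm⟩ le_rfl) j (by omega) (storeF G) (preS G V n j s) t hc hq hw hcu
      rw [loops, dif_pos hnm]
      change Run x ((loops G d mid n).1 j ++ ((loops G d mid n).1 ⟨n, hnm⟩ ++ (mid n ++
          (free (HookR d j ⟨n, hnm⟩ (storeF G)) :: (loops G d mid n).2 ⟨n, hnm⟩)))) s t ↔ _
      rw [run_append]
      have e : preS G V (n + 1) j s = ⟨d, s.q, s.a,
          fun j' k' => if j' = j ∧ k' = ⟨n, hnm⟩ then G.χ (V n) (s.r ⟨n, hnm⟩)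
            else (preS G V n j s).φ j' k', s.r, s.w⟩ := by
        have : (fun j' k' : Fin m => if j' = j ∧ k'.val < n + 1 then G.χ (V k'.val) (s.r k')
            else s.φ j' k') = fun j' k' => if j' = j ∧ k' = ⟨n, hnm⟩ then
              G.χ (V n) (s.r ⟨n, hnm⟩) else (preS G V n j s).φ j' k' := by
          funext j' k'
          exact ite_succ' hnm (j' = j) k' (fun k' => G.χ (V k'.val) (s.r k')) (s.φ j' k')
        unfold preS
        rw [hc]
        congr 1
      constructor
      · rintro ⟨u, hu, h⟩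
        rw [ih1 j (by omega) s u hc hq hw (fun j' k' h => hcl j' k' (by omega))] at hu
        subst hu
        rw [hB, hook_store] at h
        rw [h, e]
        rfl
      · intro h
        refine ⟨_, (ih1 j (by omega) s _ hc hq hw (fun j' k' h => hcl j' k' (by omega))).2 rfl, ?_⟩
        rw [hB, hook_store, h, e]
        rfl
    · intro j hj s t hc hq hw hcl
      have hjn : ∀ j' : Fin m, j'.val < n + 1 → j' ≠ j := by
        intro j' h h'
        rw [h'] at h; omega
      have hcu : Clean (n + 1) (postS G V n j s) := by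
        intro j' k' h
        change (if j' = j ∧ k'.val < n then _ else s.φ j' k') = 0
        rw [if_neg (fun h' => hjn j' h h'.1)]
        exact hcl j' k' h
      have hB := sandwich (G := G) (d := d) hmid hF hV n hnm (ih1 ⟨n, hnm⟩ le_rfl)
        (ih2 ⟨n, hnm⟩ le_rfl) j (by omega) (checkF G) (postS G V n j s) t hc hq hw hcu
      rw [loops, dif_pos hnm]
      change Run x ((loops G d mid n).2 j ++ ((loops G d mid n).1 ⟨n, hnm⟩ ++ (mid n ++
          (free (HookR d j ⟨n, hnm⟩ (checkF G)) :: (loops G d mid n).2 ⟨n, hnm⟩)))) s t ↔ _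
      rw [run_append]
      have er : (postS G V n j s).r ⟨n, hnm⟩ = s.r ⟨n, hnm⟩ := by
        simp [postS]
      have ef : (postS G V n j s).φ j ⟨n, hnm⟩ = s.φ j ⟨n, hnm⟩ := by
        simp [postS]
      have eC : postC G V (n + 1) j s ↔ postC G V n j s ∧
          G.χ (V n) (s.r ⟨n, hnm⟩ - G.t (V n)) = s.φ j ⟨n, hnm⟩ := by
        constructor
        · intro h
          exact ⟨fun k hk => h k (by omega), h ⟨n, hnm⟩ (Nat.lt_succ_self n)⟩
        · rintro ⟨h1, h2⟩ k hk
          by_cases h3 : k.val = n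
          · have h4 := (hkk k).2 h3
            subst h4
            exact h2
          · exact h1 k (by omega)
      have e : postS G V (n + 1) j s = ⟨d, s.q, s.a,
          fun j' k' => if j' = j ∧ k' = ⟨n, hnm⟩ then 0 else (postS G V n j s).φ j' k',
          fun k' => if k' = ⟨n, hnm⟩ then s.r ⟨n, hnm⟩ - G.t (V n)
            else (postS G V n j s).r k', s.w⟩ := by
        have e1 : (fun j' k' : Fin m => if j' = j ∧ k'.val < n + 1 then (0 : F)
            else s.φ j' k') = fun j' k' => if j' = j ∧ k' = ⟨n, hnm⟩ then 0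
              else (postS G V n j s).φ j' k' := by
          funext j' k'
          exact ite_succ' hnm (j' = j) k' (fun _ => (0 : F)) (s.φ j' k')
        have e2 : (fun k' : Fin m => if k'.val < n + 1 then s.r k' - G.t (V k'.val)
            else s.r k') = fun k' => if k' = ⟨n, hnm⟩ then s.r ⟨n, hnm⟩ - G.t (V n)
              else (postS G V n j s).r k' := by
          funext k'
          exact ite_succ hnm k' (fun k' => s.r k' - G.t (V k'.val)) (s.r k')
        unfold postS
        rw [hc]
        congr 1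
      constructor
      · rintro ⟨u, hu, h⟩
        rw [ih2 j (by omega) s u hc hq hw (fun j' k' h => hcl j' k' (by omega))] at hu
        obtain ⟨hC, rfl⟩ := hu
        rw [hB, hook_check] at h
        obtain ⟨h1, h2⟩ := h
        rw [eC]
        refine ⟨⟨hC, ?_⟩, ?_⟩
        · have h1 : G.χ (V n) ((postS G V n j s).r ⟨n, hnm⟩ - G.t (V n)) =
            (postS G V n j s).φ j ⟨n, hnm⟩ := h1
          rwa [er, ef] at h1
        · rw [h2, e, ← er]
          rfl
      · rintro ⟨hC, h⟩
        rw [eC] at hC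
        refine ⟨_, (ih2 j (by omega) s _ hc hq hw
          (fun j' k' h => hcl j' k' (by omega))).2 ⟨hC.1, rfl⟩, ?_⟩
        rw [hB, hook_check]
        refine ⟨?_, ?_⟩
        · change G.χ (V n) ((postS G V n j s).r ⟨n, hnm⟩ - G.t (V n)) =
            (postS G V n j s).φ j ⟨n, hnm⟩
          rw [er, ef]
          exact hC.2
        · rw [h, e, ← er]
          rfl

/-- The whole pass for the last item. -/
theorem top_sem {M : ℕ} {G : FPS X Md F} {d : X} {mid : ℕ → List (Ins ι α (U X Md F W (M + 1)))}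
    {V : ℕ → X} {x : ι → α} {Fv : ℕ → (ℕ → X) → X} {q₀ : X} {w₀ : W}
    (hmid : MidOK G mid x Fv q₀ w₀)
    (hF : ∀ (n : ℕ) (y y' : ℕ → X), (∀ k < n, y k = y' k) → Fv n y = Fv n y')
    (hV : ∀ n < M + 1, V n = Fv n V) (s t : U X Md F W (M + 1)) (hc : s.c = d) (hq : s.q = q₀)
    (hw : s.w = w₀) (hs : ∀ j k, s.φ j k = 0) :
    Run x ((loops G d mid M).1 (Fin.last M) ++ (mid M ++
      (free (HookR d (Fin.last M) (Fin.last M) lastF) :: (loops G d mid M).2 (Fin.last M)))) s t ↔
      t = ⟨d, s.q, V M, s.φ, s.r, s.w⟩ := by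
  obtain ⟨h1, h2⟩ := loops_sem hmid hF hV M (Nat.le_succ M)
  have h := sandwich (G := G) (d := d) hmid hF hV M (Nat.lt_succ_self M)
    (h1 (Fin.last M) le_rfl) (h2 (Fin.last M) le_rfl) (Fin.last M) le_rfl lastF s t hc hq hw
    (fun j' k' _ => hs j' k')
  exact h.trans (hook_last _ _ _ _)

end Pass

end Pool.Agent.MP_6216ea_lc
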