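import Pool.Agent.Lib.MP_6216ea_lc.LTModel

/-! Straight-line programs with guesses, and their compilation to branching programs. -/

set_option autoImplicit false

namespace Pool.Agent.MP_6216ea_lc

/-- An instruction on the memory `σ`: `I s l t` says that it may lead from `s` to `t`, freely
(`l = none`) or if the letter at position `i` is `a` (`l = some (i, a)`). -/
abbrev Ins (ι α σ : Type) : Type := σ → Option (ι × α) → σ → Prop

namespace Ins

variable {ι α σ τ : Type}

/-- The instruction as a relation, for a fixed input. -/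
def Rel (x : ι → α) (I : Ins ι α σ) (s t : σ) : Prop :=
  ∃ l, I s l t ∧ ∀ i a, l = some (i, a) → x i = a

/-- A program is a list of instructions. -/
def Run (x : ι → α) : List (Ins ι α σ) → σ → σ → Prop
  | [], s, t => s = t
  | I :: L, s, t => ∃ u, Rel x I s u ∧ Run x L u t

theorem run_append (x : ι → α) (L K : List (Ins ι α σ)) (s t : σ) :
    Run x (L ++ K) s t ↔ ∃ u, Run x L s u ∧ Run x K u t := by
  induction L generalizing s with
  | nil => simp [Run]
  | cons I L ih =>
    simp only [List.cons_append, Run, ih]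
    constructor
    · rintro ⟨u, h1, v, h2, h3⟩
      exact ⟨v, ⟨u, h1, h2⟩, h3⟩
    · rintro ⟨v, ⟨u, h1, h2⟩, h3⟩
      exact ⟨u, h1, v, h2, h3⟩

theorem run_one (x : ι → α) (I : Ins ι α σ) (s t : σ) : Run x [I] s t ↔ Rel x I s t := by
  simp [Run]

theorem run_cons (x : ι → α) (I : Ins ι α σ) (L : List (Ins ι α σ)) (s t : σ) :
    Run x (I :: L) s t ↔ ∃ u, Rel x I s u ∧ Run x L u t := Iff.rfl

/-- An instruction without a query. -/
def free (R : σ → σ → Prop) : Ins ι α σ := fun s l t => l = none ∧ R s t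

theorem rel_free (x : ι → α) (R : σ → σ → Prop) (s t : σ) : Rel x (free R) s t ↔ R s t := by
  constructor
  · rintro ⟨l, ⟨rfl, h⟩, _⟩
    exact h
  · intro h
    exact ⟨none, ⟨rfl, h⟩, by simp⟩

/-- Let an instruction on `σ` act on a part of `τ`. -/
def lift (get : τ → σ) (put : τ → σ → τ) (I : Ins ι α σ) : Ins ι α τ :=
  fun s l t => ∃ u, I (get s) l u ∧ t = put s u

theorem rel_lift (get : τ → σ) (put : τ → σ → τ) (x : ι → α) (I : Ins ι α σ) (s t : τ) :
    Rel x (lift get put I) s t ↔ ∃ u, Rel x I (get s) u ∧ t = put s u := by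
  constructor
  · rintro ⟨l, ⟨u, h, rfl⟩, hl⟩
    exact ⟨u, ⟨l, h, hl⟩, rfl⟩
  · rintro ⟨u, ⟨l, h, hl⟩, rfl⟩
    exact ⟨l, ⟨u, h, rfl⟩, hl⟩

theorem run_lift (get : τ → σ) (put : τ → σ → τ) (h1 : ∀ s, put s (get s) = s)
    (h2 : ∀ s u, get (put s u) = u) (h3 : ∀ s u v, put (put s u) v = put s v)
    (x : ι → α) (L : List (Ins ι α σ)) (s t : τ) :
    Run x (L.map (lift get put)) s t ↔ ∃ u, Run x L (get s) u ∧ t = put s u := by
  induction L generalizing s with
  | nil =>
    constructor
    · intro h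
      have h : s = t := h
      exact ⟨get s, rfl, by rw [h1, h]⟩
    · rintro ⟨u, h, rfl⟩
      have h : get s = u := h
      change s = put s u
      rw [← h, h1]
  | cons I L ih =>
    simp only [List.map_cons, run_cons, rel_lift, ih]
    constructor
    · rintro ⟨_, ⟨u, hu, rfl⟩, v, hv, rfl⟩
      rw [h2] at hv
      exact ⟨v, ⟨u, hu, hv⟩, by rw [h3]⟩
    · rintro ⟨v, ⟨u, hu, hv⟩, rfl⟩
      exact ⟨put s u, ⟨u, hu, rfl⟩, v, by rw [h2]; exact hv, by rw [h3]⟩

/-- The branching program of a straight-line program. -/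
def compile (L : List (Ins ι α σ)) [Fintype σ] (s₀ t₀ : σ) : LetterNBP ι α where
  V := Fin (L.length + 1) × σ
  fin := inferInstance
  edge u l v := ∃ h : u.1.val < L.length, v.1.val = u.1.val + 1 ∧ (L.get ⟨u.1.val, h⟩) u.2 l v.2
  source := (⟨0, by omega⟩, s₀)
  target := (⟨L.length, by omega⟩, t₀)

theorem card_compile (L : List (Ins ι α σ)) [Fintype σ] (s₀ t₀ : σ) :
    Fintype.card (compile L s₀ t₀).V = (L.length + 1) * Fintype.card σ := by
  change Fintype.card (Fin (L.length + 1) × σ) = _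
  rw [Fintype.card_prod, Fintype.card_fin]

theorem compile_path (L : List (Ins ι α σ)) [Fintype σ] (s₀ t₀ : σ) (x : ι → α) (T : ℕ)
    (v : (compile L s₀ t₀).V)
    (h : (compile L s₀ t₀).Path x T (compile L s₀ t₀).source v) :
    Run x (L.take v.1.val) s₀ v.2 := by
  have key : ∀ (u v : (compile L s₀ t₀).V) (l : Option (ι × α)),
      Run x (L.take u.1.val) s₀ u.2 → (compile L s₀ t₀).edge u l v →
      (∀ i a, l = some (i, a) → x i = a) → Run x (L.take v.1.val) s₀ v.2 := by
    rintro u v l hu ⟨hlt, hv, hI⟩ hl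
    rw [hv, List.take_succ_eq_append_getElem hlt, run_append]
    exact ⟨u.2, hu, (run_one _ _ _ _).2 ⟨l, hI, hl⟩⟩
  generalize hs : (compile L s₀ t₀).source = w at h
  induction h with
  | nil u => subst hs; exact rfl
  | free h he ih =>
    exact key _ _ _ (ih hs) he (by simp)
  | query i h he ih =>
    refine key _ _ _ (ih hs) he ?_
    intro j a hja
    simp only [Option.some.injEq, Prod.mk.injEq] at hja
    rw [← hja.1]; exact hja.2

theorem compile_run (L : List (Ins ι α σ)) [Fintype σ] (s₀ t₀ : σ) (x : ι → α) (n : ℕ)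
    (hn : n ≤ L.length) (t : σ) (h : Run x (L.take n) s₀ t) :
    ∃ T, (compile L s₀ t₀).Path x T (compile L s₀ t₀).source
      (⟨n, by omega⟩, t) := by
  induction n generalizing t with
  | zero =>
    have h : s₀ = t := h
    subst h
    exact ⟨0, .nil _⟩
  | succ n ih =>
    rw [List.take_succ_eq_append_getElem (by omega), run_append] at h
    obtain ⟨u, hu, hI⟩ := h
    obtain ⟨T, hT⟩ := ih (by omega) u hu
    obtain ⟨l, hI, hl⟩ := (run_one _ _ _ _).1 hI
    rcases l with _ | ⟨i, a⟩
    · exact ⟨T, .free hT ⟨by change n < _; omega, rfl, hI⟩⟩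
    · have hx := hl i a rfl
      subst hx
      exact ⟨T + 1, .query i hT ⟨by change n < _; omega, rfl, hI⟩⟩

theorem compile_accepts (L : List (Ins ι α σ)) [Fintype σ] (s₀ t₀ : σ) (x : ι → α) :
    (compile L s₀ t₀).Accepts x ↔ Run x L s₀ t₀ := by
  constructor
  · rintro ⟨T, h⟩
    have := compile_path L s₀ t₀ x T _ h
    change Run x (L.take L.length) s₀ t₀ at this
    rwa [List.take_length] at this
  · intro h
    exact compile_run L s₀ t₀ x L.length le_rfl t₀ (by rwa [List.take_length])

end Ins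

end Pool.Agent.MP_6216ea_lc
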