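import Pool.Agent.Lib.MP_6216ea_lc.DCUniDefs
import Pool.Agent.Lib.MP_6216ea_lc.DCProg

/-! Programs with at most one run. -/

set_option autoImplicit false

namespace Pool.Agent.MP_6216ea_lc

namespace Ins

variable {ι α σ τ : Type}

/-- Every intermediate memory is determined by the first and the last one. -/
def Mid (x : ι → α) (L : List (Ins ι α σ)) (s t : σ) : Prop :=
  ∀ L₁ L₂, L = L₁ ++ L₂ → ∀ u u', Run x L₁ s u → Run x L₂ u t → Run x L₁ s u' → Run x L₂ u' t →
    u = u'

/-- The label is determined by the memory before and after the instruction. -/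
def LabU (x : ι → α) (I : Ins ι α σ) : Prop :=
  ∀ s t l l', I s l t → (∀ i a, l = some (i, a) → x i = a) → I s l' t →
    (∀ i a, l' = some (i, a) → x i = a) → l = l'

theorem mid_nil (x : ι → α) (s t : σ) : Mid x ([] : List (Ins ι α σ)) s t := by
  intro L₁ L₂ h u u' h1 _ h3 _
  have h4 : L₁ = [] := (List.append_eq_nil_iff.1 h.symm).1
  subst h4
  have h1 : s = u := h1
  have h3 : s = u' := h3
  rw [← h1, ← h3]

theorem mid_one (x : ι → α) (I : Ins ι α σ) (s t : σ) : Mid x [I] s t := by
  intro L₁ L₂ h u u' h1 h2 h3 h4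
  rcases L₁ with _ | ⟨J, L₁⟩
  · have h1 : s = u := h1
    have h3 : s = u' := h3
    rw [← h1, ← h3]
  · rw [List.cons_append, List.cons_eq_cons] at h
    have h5 := List.append_eq_nil_iff.1 h.2.symm
    rw [h5.2] at h2 h4
    have h2 : u = t := h2
    have h4 : u' = t := h4
    rw [h2, h4]

theorem mid_append {x : ι → α} {L K : List (Ins ι α σ)} {s t : σ}
    (hv : ∀ v v', Run x L s v → Run x K v t → Run x L s v' → Run x K v' t → v = v')
    (hL : ∀ v, Run x L s v → Run x K v t → Mid x L s v)
    (hK : ∀ v, Run x L s v → Run x K v t → Mid x K v t) : Mid x (L ++ K) s t := by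
  intro L₁ L₂ h u u' h1 h2 h3 h4
  rcases List.append_eq_append_iff.1 h with ⟨M, hM1, hM2⟩ | ⟨M, hM1, hM2⟩
  · -- `L₁ = L ++ M`, `K = M ++ L₂`
    subst hM1
    rw [run_append] at h1 h3
    obtain ⟨v, hv1, hv2⟩ := h1
    obtain ⟨v', hv1', hv2'⟩ := h3
    have e1 : Run x K v t := by rw [hM2, run_append]; exact ⟨u, hv2, h2⟩
    have e2 : Run x K v' t := by rw [hM2, run_append]; exact ⟨u', hv2', h4⟩
    have e := hv v v' hv1 e1 hv1' e2
    subst e
    exact hK v hv1 e1 M L₂ hM2 u u' hv2 h2 hv2' h4
  · -- `L = L₁ ++ M`, `L₂ = M ++ K`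
    subst hM2
    rw [run_append] at h2 h4
    obtain ⟨v, hv1, hv2⟩ := h2
    obtain ⟨v', hv1', hv2'⟩ := h4
    have e1 : Run x L s v := by rw [hM1, run_append]; exact ⟨u, h1, hv1⟩
    have e2 : Run x L s v' := by rw [hM1, run_append]; exact ⟨u', h3, hv1'⟩
    have e := hv v v' e1 hv2 e2 hv2'
    subst e
    exact hL v e1 hv2 L₁ M hM1 u u' h1 hv1 h3 hv1'

/-- Composition when the memory after the first part is a function of that before. -/
theorem mid_append' {x : ι → α} {L K : List (Ins ι α σ)} {s t : σ}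
    (hv : ∀ v v', Run x L s v → Run x L s v' → v = v')
    (hL : ∀ v, Run x L s v → Mid x L s v)
    (hK : ∀ v, Run x L s v → Run x K v t → Mid x K v t) : Mid x (L ++ K) s t :=
  mid_append (fun v v' h1 _ h3 _ => hv v v' h1 h3) (fun v h1 _ => hL v h1) hK

theorem mid_cons {x : ι → α} {I : Ins ι α σ} {K : List (Ins ι α σ)} {s t : σ}
    (hv : ∀ v v', Rel x I s v → Run x K v t → Rel x I s v' → Run x K v' t → v = v')
    (hK : ∀ v, Rel x I s v → Run x K v t → Mid x K v t) : Mid x (I :: K) s t := by
  have h := mid_append (x := x) (L := [I]) (K := K) (s := s) (t := t)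
    (fun v v' h1 h2 h3 h4 => hv v v' ((run_one _ _ _ _).1 h1) h2 ((run_one _ _ _ _).1 h3) h4)
    (fun v _ _ => mid_one x I s v) (fun v h1 h2 => hK v ((run_one _ _ _ _).1 h1) h2)
  simpa using h

theorem mid_lift (get : τ → σ) (put : τ → σ → τ) (h1 : ∀ s, put s (get s) = s)
    (h2 : ∀ s u, get (put s u) = u) (h3 : ∀ s u v, put (put s u) v = put s v)
    {x : ι → α} {L : List (Ins ι α σ)} {s t : τ}
    (h : ∀ u, Run x L (get s) u → Mid x L (get s) u) : Mid x (L.map (lift get put)) s t := by
  intro L₁ L₂ hL u u' a1 a2 a3 a4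
  obtain ⟨M₁, M₂, hM, rfl, rfl⟩ := List.map_eq_append_iff.1 hL
  rw [run_lift get put h1 h2 h3] at a1 a2 a3 a4
  obtain ⟨v, b1, rfl⟩ := a1
  obtain ⟨v', b3, rfl⟩ := a3
  rw [h2] at a2 a4
  obtain ⟨w, b2, c2⟩ := a2
  obtain ⟨w', b4, c4⟩ := a4
  rw [h3] at c2 c4
  have hw : w = w' := by
    have := congrArg get (c2.symm.trans c4)
    rwa [h2, h2] at this
  subst hw
  have hrun : Run x L (get s) w := by rw [hM, run_append]; exact ⟨v, b1, b2⟩
  have := h w hrun M₁ M₂ hM v v' b1 b2 b3 b4
  rw [this]

theorem labU_free (x : ι → α) (R : σ → σ → Prop) : LabU x (free R : Ins ι α σ) := by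
  rintro s t l l' ⟨h, _⟩ _ ⟨h', _⟩ _
  rw [h, h']

theorem labU_lift (get : τ → σ) (put : τ → σ → τ) (h2 : ∀ s u, get (put s u) = u)
    {x : ι → α} {I : Ins ι α σ} (h : LabU x I) : LabU x (lift get put I) := by
  rintro s t l l' ⟨u, hu, e⟩ hl ⟨u', hu', e'⟩ hl'
  have : u = u' := by
    have := congrArg get (e.symm.trans e')
    rwa [h2, h2] at this
  subst this
  exact h _ _ l l' hu hl hu' hl'

theorem comp_run (L : List (Ins ι α σ)) [Fintype σ] (s₀ t₀ : σ) (x : ι → α)
    (tr : List (Option (ι × α) × (compile L s₀ t₀).V)) (v : (compile L s₀ t₀).V)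
    (h : (compile L s₀ t₀).Comp x v tr (compile L s₀ t₀).target) :
    Run x (L.drop v.1.val) v.2 t₀ := by
  induction tr generalizing v with
  | nil =>
    generalize hw : (compile L s₀ t₀).target = w at h
    cases h
    subst hw
    change Run x (L.drop L.length) t₀ t₀
    rw [List.drop_length]
    rfl
  | cons p tr ih =>
    generalize hw : (compile L s₀ t₀).target = w at h
    cases h with
    | cons he hl ht =>
      subst hw
      obtain ⟨hlt, hv, hI⟩ := he
      have h1 := ih _ ht
      rw [List.drop_eq_getElem_cons hlt]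
      refine ⟨_, ⟨_, hI, hl⟩, ?_⟩
      rw [hv] at h1
      exact h1

theorem compile_unambiguous (L : List (Ins ι α σ)) [Fintype σ] (s₀ t₀ : σ)
    (hM : ∀ x, Mid x L s₀ t₀) (hL : ∀ x, ∀ I ∈ L, LabU x I) :
    (compile L s₀ t₀).Unambiguous := by
  intro x
  have key : ∀ (tr tr' : List (Option (ι × α) × (compile L s₀ t₀).V)) (v : (compile L s₀ t₀).V),
      Run x (L.take v.1.val) s₀ v.2 →
      (compile L s₀ t₀).Comp x v tr (compile L s₀ t₀).target →
      (compile L s₀ t₀).Comp x v tr' (compile L s₀ t₀).target → tr = tr' := by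
    intro tr
    induction tr with
    | nil =>
      intro tr' v _ h h'
      generalize hw : (compile L s₀ t₀).target = w at h h'
      cases h
      cases h' with
      | nil => rfl
      | cons he _ _ =>
        subst hw
        obtain ⟨hlt, _, _⟩ := he
        exact absurd hlt (lt_irrefl _)
    | cons p tr ih =>
      intro tr' v hr h h'
      generalize hw : (compile L s₀ t₀).target = w at h h'
      cases h with
      | @cons _ v₁ _ l _ he hl ht =>
        cases h' with
        | nil =>
          subst hw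
          obtain ⟨hlt, _, _⟩ := he
          exact absurd hlt (lt_irrefl _)
        | @cons _ v₂ _ l' tr'' he' hl' ht' =>
          subst hw
          have r1 := comp_run L s₀ t₀ x _ _ ht
          have r2 := comp_run L s₀ t₀ x _ _ ht'
          obtain ⟨hlt, hv, hI⟩ := he
          obtain ⟨_, hv', hI'⟩ := he'
          have q1 : Run x (L.take (v.1.val + 1)) s₀ v₁.2 := by
            rw [List.take_succ_eq_append_getElem hlt, run_append]
            exact ⟨v.2, hr, (run_one _ _ _ _).2 ⟨l, hI, hl⟩⟩
          have q2 : Run x (L.take (v.1.val + 1)) s₀ v₂.2 := by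
            rw [List.take_succ_eq_append_getElem hlt, run_append]
            exact ⟨v.2, hr, (run_one _ _ _ _).2 ⟨l', hI', hl'⟩⟩
          rw [hv] at r1
          rw [hv'] at r2
          have e := hM x (L.take (v.1.val + 1)) (L.drop (v.1.val + 1))
            (List.take_append_drop _ _).symm v₁.2 v₂.2 q1 r1 q2 r2
          have e' : v₁ = v₂ := Prod.ext (Fin.ext (hv.trans hv'.symm)) e
          subst e'
          have el : l = l' := hL x _ (List.getElem_mem hlt) v.2 v₁.2 l l' hI hl hI' hl'
          subst el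
          have q3 : Run x (L.take v₁.1.val) s₀ v₁.2 := by rw [hv]; exact q1
          rw [ih tr'' v₁ q3 ht ht']
  intro tr tr' h h'
  exact key tr tr' _ (by exact rfl) h h'

theorem compile_queries (L : List (Ins ι α σ)) [Fintype σ] (s₀ t₀ : σ) :
    (compile L s₀ t₀).QueriesAtMost L.length := by
  intro x T v h
  have key : T ≤ v.1.val := by
    generalize hs : (compile L s₀ t₀).source = w at h
    induction h with
    | nil u => exact Nat.zero_le _
    | free h he ih =>
      have h1 := ih hs
      have h2 := he.2.1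
      omega
    | query i h he ih =>
      have h1 := ih hs
      have h2 := he.2.1
      omega
  have := v.1.isLt
  omega

end Ins

end Pool.Agent.MP_6216ea_lc
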