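import Pool.Agent.Lib.MP_6216ea_lc.DCPassS
import Pool.Agent.Lib.MP_6216ea_lc.DCUni

/-! The passes have at most one run. -/

set_option autoImplicit false

namespace Pool.Agent.MP_6216ea_lc

theorem FPS.t_inj {X Md F : Type} [AddCommGroup Md] [AddCommGroup F] (G : FPS X Md F) {x y : X}
    (h : G.t y = G.t x) : y = x := G.sep x y (by rw [h])

namespace Pass

open Ins

variable {ι α X Md F W : Type} [AddCommGroup Md] [AddCommGroup F] {m : ℕ}
  {G : FPS X Md F} {d : X} {mid : ℕ → List (Ins ι α (U X Md F W m))} {V : ℕ → X}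

/-- What is needed about the uniqueness of runs of a part `L`. -/
def UOK (x : ι → α) (d : X) (q₀ : X) (w₀ : W) (n : ℕ) (L : List (Ins ι α (U X Md F W m))) : Prop :=
  ∀ s t : U X Md F W m, s.c = d → s.q = q₀ → s.w = w₀ → Clean n s → Run x L s t → Mid x L s t

omit [AddCommGroup Md] [AddCommGroup F] in
theorem hook_unique {j k : Fin m} {f : X → Md → F → X → Option (Md × F × X)}
    {s t t' : U X Md F W m} (h : HookR d j k f s t) (h' : HookR d j k f s t') : t = t' := by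
  obtain ⟨p, hp, rfl⟩ := h
  obtain ⟨p', hp', rfl⟩ := h'
  rw [hp] at hp'
  rw [Option.some.inj hp']

theorem guess_forced {x : ι → α} {Fv : ℕ → (ℕ → X) → X} {q₀ : X} {w₀ : W} (n : ℕ) (hn : n < m)
    {post : List (Ins ι α (U X Md F W m))}
    (hpost : ∀ s t : U X Md F W m, s.c = d → s.q = q₀ → s.w = w₀ → Clean n s →
      (Run x post s t ↔ postC G V n ⟨n, hn⟩ s ∧ t = postS G V n ⟨n, hn⟩ s))
    (j : Fin m) (hj : n ≤ j.val) (f : X → Md → F → X → Option (Md × F × X))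
    (s t w : U X Md F W m) (hq : s.q = q₀) (hw : s.w = w₀)
    (hcl : Clean (n + 1) s) (y : ℕ → X)
    (hh : HookR d j ⟨n, hn⟩ f (midS G Fv n y (preS G V n ⟨n, hn⟩ s)) w) (h : Run x post w t) :
    (∀ k < n, y k = V k) ∧ w.c = d ∧ w.q = q₀ ∧ w.w = w₀ ∧ Clean n w := by
  have hcl' : Clean n s := fun j' k' h => hcl j' k' (by omega)
  have hnn : ∀ k : Fin m, k.val < n → k ≠ ⟨n, hn⟩ := by
    intro k hk h
    rw [h] at hk
    exact lt_irrefl _ hk
  obtain ⟨p, hp, rfl⟩ := hh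
  have ecl : Clean n (⟨d, s.q, p.2.2,
      fun j' k' => if j' = j ∧ k' = ⟨n, hn⟩ then p.2.1
        else (midS G Fv n y (preS G V n ⟨n, hn⟩ s)).φ j' k',
      fun k' => if k' = ⟨n, hn⟩ then p.1 else (midS G Fv n y (preS G V n ⟨n, hn⟩ s)).r k',
      s.w⟩ : U X Md F W m) := by
    intro j' k' hj'
    have h1 : ¬ (j' = j ∧ k' = ⟨n, hn⟩) := by rintro ⟨h, -⟩; rw [h] at hj'; omega
    have h2 : ¬ (j' = ⟨n, hn⟩ ∧ k'.val < n) := by
      rintro ⟨h, -⟩; rw [h] at hj'; exact lt_irrefl _ hj'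
    change (if j' = j ∧ k' = ⟨n, hn⟩ then p.2.1 else
      (if j' = ⟨n, hn⟩ ∧ k'.val < n then G.χ (V k'.val) (s.r k') else s.φ j' k')) = 0
    rw [if_neg h1, if_neg h2]
    exact hcl' j' k' hj'
  obtain ⟨hC, -⟩ := (hpost _ _ rfl (by exact hq) (by exact hw) ecl).1 h
  refine ⟨?_, rfl, hq, hw, ecl⟩
  intro k hk
  have := hC ⟨k, by omega⟩ hk
  change G.χ (V k) ((if (⟨k, by omega⟩ : Fin m) = ⟨n, hn⟩ then p.1 else
    (if k < n then s.r ⟨k, by omega⟩ + G.t (y k) else s.r ⟨k, by omega⟩)) - G.t (V k)) =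
    (if (⟨n, hn⟩ : Fin m) = j ∧ (⟨k, by omega⟩ : Fin m) = ⟨n, hn⟩ then p.2.1 else
      (if (⟨n, hn⟩ : Fin m) = ⟨n, hn⟩ ∧ k < n then G.χ (V k) (s.r ⟨k, by omega⟩)
        else s.φ ⟨n, hn⟩ ⟨k, by omega⟩)) at this
  rw [if_neg (hnn _ hk), if_pos hk, if_neg (fun h => hnn _ hk h.2), if_pos ⟨rfl, hk⟩,
    map_sub, map_add] at this
  apply G.sep (V k) (y k)
  have h4 := congrArg (fun z => z + G.χ (V k) (G.t (V k)) - G.χ (V k) (s.r ⟨k, by omega⟩)) this
  simp only [sub_add_cancel, add_sub_cancel_left] at h4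
  exact h4

theorem midS_congr {Fv : ℕ → (ℕ → X) → X}
    (hF : ∀ (n : ℕ) (y y' : ℕ → X), (∀ k < n, y k = y' k) → Fv n y = Fv n y')
    (n : ℕ) (y y' : ℕ → X) (h : ∀ k < n, y k = y' k) (s : U X Md F W m) :
    midS G Fv n y s = midS G Fv n y' s := by
  unfold midS
  rw [hF n y y' h]
  congr 1
  funext k
  by_cases hk : k.val < n
  · rw [if_pos hk, if_pos hk, h _ hk]
  · rw [if_neg hk, if_neg hk]

theorem sandwich_mid {x : ι → α} {Fv : ℕ → (ℕ → X) → X} {q₀ : X} {w₀ : W}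
    (hmid : MidOK G mid x Fv q₀ w₀)
    (hmidU : ∀ n < m, ∀ s t : U X Md F W m, s.q = q₀ → s.w = w₀ → Run x (mid n) s t →
      Mid x (mid n) s t)
    (hF : ∀ (n : ℕ) (y y' : ℕ → X), (∀ k < n, y k = y' k) → Fv n y = Fv n y')
    (n : ℕ) (hn : n < m)
    {pre post : List (Ins ι α (U X Md F W m))}
    (hpre : ∀ s t : U X Md F W m, s.c = d → s.q = q₀ → s.w = w₀ → Clean n s →
      (Run x pre s t ↔ t = preS G V n ⟨n, hn⟩ s))
    (hpost : ∀ s t : U X Md F W m, s.c = d → s.q = q₀ → s.w = w₀ → Clean n s →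
      (Run x post s t ↔ postC G V n ⟨n, hn⟩ s ∧ t = postS G V n ⟨n, hn⟩ s))
    (hpreU : UOK x d q₀ w₀ n pre) (hpostU : UOK x d q₀ w₀ n post)
    (j : Fin m) (hj : n ≤ j.val) (f : X → Md → F → X → Option (Md × F × X))
    (s t : U X Md F W m) (hc : s.c = d) (hq : s.q = q₀) (hw : s.w = w₀)
    (hcl : Clean (n + 1) s) :
    Mid x (pre ++ (mid n ++ (free (HookR d j ⟨n, hn⟩ f) :: post))) s t := by
  have hcl' : Clean n s := fun j' k' h => hcl j' k' (by omega)
  refine mid_append' ?_ ?_ ?_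
  · intro v v' h1 h2
    rw [(hpre s v hc hq hw hcl').1 h1, (hpre s v' hc hq hw hcl').1 h2]
  · intro v h1
    exact hpreU s v hc hq hw hcl' h1
  · intro v h1 _
    have hv := (hpre s v hc hq hw hcl').1 h1
    subst hv
    refine mid_append ?_ ?_ ?_
    · intro u u' a1 a2 a3 a4
      obtain ⟨y, rfl⟩ := (hmid n hn _ _ (by exact hq) (by exact hw)).1 a1
      obtain ⟨y', rfl⟩ := (hmid n hn _ _ (by exact hq) (by exact hw)).1 a3
      obtain ⟨w, b1, b2⟩ := a2
      obtain ⟨w', b3, b4⟩ := a4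
      rw [rel_free] at b1 b3
      have e1 := (guess_forced n hn hpost j hj f s t w hq hw hcl y b1 b2).1
      have e2 := (guess_forced n hn hpost j hj f s t w' hq hw hcl y' b3 b4).1
      exact midS_congr hF n y y' (fun k hk => (e1 k hk).trans (e2 k hk).symm) _
    · intro u a1 _
      exact hmidU n hn _ _ (by exact hq) (by exact hw) a1
    · intro u a1 a2
      obtain ⟨y, rfl⟩ := (hmid n hn _ _ (by exact hq) (by exact hw)).1 a1
      refine mid_cons ?_ ?_
      · intro w w' b1 _ b3 _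
        rw [rel_free] at b1 b3
        exact hook_unique b1 b3
      · intro w b1 b2
        rw [rel_free] at b1
        obtain ⟨-, c1, c2, c3, c4⟩ := guess_forced n hn hpost j hj f s t w hq hw hcl y b1 b2
        exact hpostU w t c1 c2 c3 c4 b2

theorem loops_mid [DecidableEq F] {x : ι → α} {Fv : ℕ → (ℕ → X) → X} {q₀ : X} {w₀ : W}
    (hmid : MidOK G mid x Fv q₀ w₀)
    (hmidU : ∀ n < m, ∀ s t : U X Md F W m, s.q = q₀ → s.w = w₀ → Run x (mid n) s t →
      Mid x (mid n) s t)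
    (hF : ∀ (n : ℕ) (y y' : ℕ → X), (∀ k < n, y k = y' k) → Fv n y = Fv n y')
    (hV : ∀ n < m, V n = Fv n V) (n : ℕ) (hn : n ≤ m) :
    (∀ j : Fin m, n ≤ j.val → UOK x d q₀ w₀ n ((loops G d mid n).1 j)) ∧
    (∀ j : Fin m, n ≤ j.val → UOK x d q₀ w₀ n ((loops G d mid n).2 j)) := by
  induction n with
  | zero =>
    exact ⟨fun j _ s t _ _ _ _ _ => mid_nil x s t, fun j _ s t _ _ _ _ _ => mid_nil x s t⟩
  | succ n ih =>
    have hnm : n < m := hn
    obtain ⟨ih1, ih2⟩ := ih (by omega)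
    obtain ⟨s1, s2⟩ := loops_sem (G := G) (d := d) hmid hF hV n (by omega)
    constructor
    · intro j hj s t hc hq hw hcl _
      have hjn : ∀ j' : Fin m, j'.val < n + 1 → j' ≠ j := by
        intro j' h h'
        rw [h'] at h; omega
      have hcl' : Clean n s := fun j' k' h => hcl j' k' (by omega)
      have hcu : Clean (n + 1) (preS G V n j s) := by
        intro j' k' h
        change (if j' = j ∧ k'.val < n then _ else s.φ j' k') = 0
        rw [if_neg (fun h' => hjn j' h h'.1)]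
        exact hcl j' k' h
      rw [loops, dif_pos hnm]
      change Mid x ((loops G d mid n).1 j ++ ((loops G d mid n).1 ⟨n, hnm⟩ ++ (mid n ++
          (free (HookR d j ⟨n, hnm⟩ (storeF G)) :: (loops G d mid n).2 ⟨n, hnm⟩)))) s t
      refine mid_append' ?_ ?_ ?_
      · intro v v' h1 h2
        rw [(s1 j (by omega) s v hc hq hw hcl').1 h1, (s1 j (by omega) s v' hc hq hw hcl').1 h2]
      · intro v h1
        exact ih1 j (by omega) s v hc hq hw hcl' h1
      · intro v h1 _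
        have hv := (s1 j (by omega) s v hc hq hw hcl').1 h1
        subst hv
        exact sandwich_mid hmid hmidU hF n hnm (s1 ⟨n, hnm⟩ le_rfl) (s2 ⟨n, hnm⟩ le_rfl)
          (ih1 ⟨n, hnm⟩ le_rfl) (ih2 ⟨n, hnm⟩ le_rfl) j (by omega) (storeF G)
          (preS G V n j s) t hc hq hw hcu
    · intro j hj s t hc hq hw hcl _
      have hjn : ∀ j' : Fin m, j'.val < n + 1 → j' ≠ j := by
        intro j' h h'
        rw [h'] at h; omega
      have hcl' : Clean n s := fun j' k' h => hcl j' k' (by omega)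
      have hcu : Clean (n + 1) (postS G V n j s) := by
        intro j' k' h
        change (if j' = j ∧ k'.val < n then _ else s.φ j' k') = 0
        rw [if_neg (fun h' => hjn j' h h'.1)]
        exact hcl j' k' h
      rw [loops, dif_pos hnm]
      change Mid x ((loops G d mid n).2 j ++ ((loops G d mid n).1 ⟨n, hnm⟩ ++ (mid n ++
          (free (HookR d j ⟨n, hnm⟩ (checkF G)) :: (loops G d mid n).2 ⟨n, hnm⟩)))) s t
      refine mid_append' ?_ ?_ ?_
      · intro v v' h1 h2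
        rw [((s2 j (by omega) s v hc hq hw hcl').1 h1).2,
          ((s2 j (by omega) s v' hc hq hw hcl').1 h2).2]
      · intro v h1
        exact ih2 j (by omega) s v hc hq hw hcl' h1
      · intro v h1 _
        have hv := ((s2 j (by omega) s v hc hq hw hcl').1 h1).2
        subst hv
        exact sandwich_mid hmid hmidU hF n hnm (s1 ⟨n, hnm⟩ le_rfl) (s2 ⟨n, hnm⟩ le_rfl)
          (ih1 ⟨n, hnm⟩ le_rfl) (ih2 ⟨n, hnm⟩ le_rfl) j (by omega) (checkF G)
          (postS G V n j s) t hc hq hw hcu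

/-- The whole pass for the last item has at most one run. -/
theorem top_mid [DecidableEq F] {M : ℕ} {G : FPS X Md F} {d : X}
    {mid : ℕ → List (Ins ι α (U X Md F W (M + 1)))}
    {V : ℕ → X} {x : ι → α} {Fv : ℕ → (ℕ → X) → X} {q₀ : X} {w₀ : W}
    (hmid : MidOK G mid x Fv q₀ w₀)
    (hmidU : ∀ n < M + 1, ∀ s t : U X Md F W (M + 1), s.q = q₀ → s.w = w₀ → Run x (mid n) s t →
      Mid x (mid n) s t)
    (hF : ∀ (n : ℕ) (y y' : ℕ → X), (∀ k < n, y k = y' k) → Fv n y = Fv n y')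
    (hV : ∀ n < M + 1, V n = Fv n V) (s t : U X Md F W (M + 1)) (hc : s.c = d) (hq : s.q = q₀)
    (hw : s.w = w₀) (hs : ∀ j k, s.φ j k = 0) :
    Mid x ((loops G d mid M).1 (Fin.last M) ++ (mid M ++
      (free (HookR d (Fin.last M) (Fin.last M) lastF) :: (loops G d mid M).2 (Fin.last M)))) s
      t := by
  obtain ⟨h1, h2⟩ := loops_sem (G := G) (d := d) hmid hF hV M (Nat.le_succ M)
  obtain ⟨u1, u2⟩ := loops_mid (G := G) (d := d) hmid hmidU hF hV M (Nat.le_succ M)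
  exact sandwich_mid hmid hmidU hF M (Nat.lt_succ_self M)
    (h1 (Fin.last M) le_rfl) (h2 (Fin.last M) le_rfl) (u1 (Fin.last M) le_rfl)
    (u2 (Fin.last M) le_rfl) (Fin.last M) le_rfl lastF s t hc hq hw
    (fun j' k' _ => hs j' k')

end Pass

end Pool.Agent.MP_6216ea_lc
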