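import Pool.Agent.Lib.MP_6216ea_lc.DCModel
import Pool.Agent.Lib.MP_6216ea_lc.DCProt

/-! The time-splitting protocol for pushdown programs. -/

set_option autoImplicit false

namespace Pool.Agent.MP_6216ea_lc

/-- Questions and answers. As a question: run `r` steps from the node `s` on the stack obtained
after `t` steps from the node `c` on the empty stack. As an answer with `b = false`: after all but
`r` steps the node was `s` and the stack that of `(c₀, t)`, `c₀` the first component of the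
question; the stack was never shorter afterwards and the final node is `c`. As an answer with
`b = true`: when `r ≥ 1` steps were left, the node was `s`, a pop, and the stack empty. -/
structure QA (S : Type) (T : ℕ) : Type where
  c : S
  s : S
  t : Fin (T + 1)
  r : Fin (T + 1)
  b : Bool

namespace QA

variable {S : Type} {T : ℕ}

/-- `QA S T` as a product. -/
def equiv (S : Type) (T : ℕ) : QA S T ≃ S × S × Fin (T + 1) × Fin (T + 1) × Bool where
  toFun q := (q.c, q.s, q.t, q.r, q.b)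
  invFun p := ⟨p.1, p.2.1, p.2.2.1, p.2.2.2.1, p.2.2.2.2⟩
  left_inv _ := rfl
  right_inv _ := rfl

noncomputable instance [Fintype S] : Fintype (QA S T) := Fintype.ofEquiv _ (equiv S T).symm

theorem card [Fintype S] :
    Fintype.card (QA S T) = 2 * (Fintype.card S * (T + 1)) ^ 2 := by
  rw [Fintype.card_congr (equiv S T)]
  simp only [Fintype.card_prod, Fintype.card_fin, Fintype.card_bool]
  ring

/-- Cut off at `T`. -/
def clip (T n : ℕ) : Fin (T + 1) := ⟨min n T, by omega⟩

theorem val_clip {n : ℕ} (h : n ≤ T) : (clip T n).val = n := by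
  simp [clip, h]

/-- The question `(c, t, s, r)`. -/
def ask (c : S) (t : ℕ) (s : S) (r : ℕ) : QA S T := ⟨c, s, clip T t, clip T r, false⟩

/-- The answer: inside. -/
def ins (t : ℕ) (s : S) (r : ℕ) (c : S) : QA S T := ⟨c, s, clip T t, clip T r, false⟩

/-- The answer: exit. -/
def exi (e : S) (r : ℕ) : QA S T := ⟨e, e, clip T 0, clip T r, true⟩

open Prot

/-- `r₂` more steps on the pieces `(s, r)`, `(c, l)`. -/
def sec2 (c : S) (l : ℕ) (s : S) (r : ℕ) (cur : S) (r₂ : ℕ) : Prot (QA S T) :=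
  call (ask s r cur r₂) fun C =>
    if C.b then call (ask c l C.s C.r.val) ret
    else ret (ins l s (r + r₂) C.c)

/-- `r₂` more steps on the pieces `(s, r)`, `(u, a)`, `(c, l)`, where `(u, a)`, `(c, l)` is
`(c, tu + a)`. -/
def sec3 (c : S) (l : ℕ) (u : S) (a tu : ℕ) (s : S) (r : ℕ) (cur : S) (r₂ : ℕ) : Prot (QA S T) :=
  call (ask s r cur r₂) fun C =>
    if C.b then
      call (ask u a C.s C.r.val) fun D =>
        if D.b then call (ask c l D.s D.r.val) ret
        else ret (ins (tu + D.t.val) D.s D.r.val D.c)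
    else ret (ins (tu + a) s (r + r₂) C.c)

/-- `r₁ + r₂` steps from `s` on the pieces `(u, a)`, `(c, l)`. -/
def main (c : S) (l : ℕ) (u : S) (a tu : ℕ) (s : S) (r₁ r₂ : ℕ) : Prot (QA S T) :=
  call (ask u a s r₁) fun B =>
    if B.b then
      call (ask c l B.s B.r.val) fun B' =>
        if B'.b then ret (exi B'.s (B'.r.val + r₂))
        else sec2 c B'.t.val B'.s B'.r.val B'.c r₂
    else sec3 c l u B.t.val tu B.s B.r.val B.c r₂

/-- The protocol for times up to `2 k`, with questions for times up to `k`. -/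
def split (k : ℕ) (q : QA S T) : Prot (QA S T) :=
  if q.t.val ≤ k then
    main q.c 0 q.c q.t.val 0 q.s (min q.r.val k) (q.r.val - min q.r.val k)
  else
    call (ask q.c 0 q.c k) fun A =>
      call (ask q.c k A.c (q.t.val - k)) fun A' =>
        main q.c A'.t.val A'.s A'.r.val (q.t.val - A'.r.val) q.s (min q.r.val k)
          (q.r.val - min q.r.val k)

theorem hgt_ite (n : ℕ) (p : Prop) [Decidable p] {P Q : Prot (QA S T)} (hP : Hgt n P)
    (hQ : Hgt n Q) : Hgt n (if p then P else Q) := by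
  split_ifs
  · exact hP
  · exact hQ

theorem hgt_ret (n : ℕ) (q : QA S T) : Hgt n (ret q) := by cases n <;> trivial

theorem hgt_call (n : ℕ) (q : QA S T) (k : QA S T → Prot (QA S T)) (h : ∀ a, Hgt n (k a)) :
    Hgt (n + 1) (call q k) := h

theorem hgt_sec2 (c : S) (l : ℕ) (s : S) (r : ℕ) (cur : S) (r₂ : ℕ) :
    Hgt 2 (sec2 c l s r cur r₂ : Prot (QA S T)) :=
  hgt_call _ _ _ fun _ => hgt_ite _ _ (hgt_call _ _ _ fun _ => hgt_ret _ _) (hgt_ret _ _)

theorem hgt_sec3 (c : S) (l : ℕ) (u : S) (a tu : ℕ) (s : S) (r : ℕ) (cur : S) (r₂ : ℕ) :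
    Hgt 3 (sec3 c l u a tu s r cur r₂ : Prot (QA S T)) :=
  hgt_call _ _ _ fun _ => hgt_ite _ _
    (hgt_call _ _ _ fun _ => hgt_ite _ _ (hgt_call _ _ _ fun _ => hgt_ret _ _) (hgt_ret _ _))
    (hgt_ret _ _)

theorem hgt_main (c : S) (l : ℕ) (u : S) (a tu : ℕ) (s : S) (r₁ r₂ : ℕ) :
    Hgt 4 (main c l u a tu s r₁ r₂ : Prot (QA S T)) :=
  hgt_call _ _ _ fun _ => hgt_ite _ _
    (hgt_call _ _ _ fun _ => hgt_ite _ _ (hgt_ret _ _) (hgt_sec2 _ _ _ _ _ _))
    (hgt_sec3 _ _ _ _ _ _ _ _ _)

theorem hgt_split (k : ℕ) (q : QA S T) : Hgt 6 (split k q) := by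
  unfold split
  exact hgt_ite _ _ ((hgt_main _ _ _ _ _ _ _ _).mono (by omega))
    (hgt_call _ _ _ fun _ => hgt_call _ _ _ fun _ => hgt_main _ _ _ _ _ _ _ _)

end QA

end Pool.Agent.MP_6216ea_lc
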