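import Pool.Agent.Lib.MP_6216ea_lc.DCSplit

/-! Correctness of the time-splitting protocol. -/

set_option autoImplicit false

namespace Pool.Agent.MP_6216ea_lc

namespace PushProg

variable {ι α : Type} (P : PushProg ι α) (x : ι → α)

theorem conf_add (a b : ℕ) (s : P.S) (z : List P.Γ) :
    P.conf x (a + b) s z = (P.conf x a s z).bind fun c => P.conf x b c.1 c.2 := by
  induction a generalizing s z with
  | zero => rw [Nat.zero_add]; rfl
  | succ a ih =>
    rw [show a + 1 + b = (a + b) + 1 by omega, conf, conf]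
    cases h : P.next x s z with
    | none => rfl
    | some c => simp only [Option.bind_some]; exact ih _ _

theorem conf_add' {a : ℕ} {s : P.S} {z : List P.Γ} {s' : P.S} {z' : List P.Γ}
    (h : P.conf x a s z = some (s', z')) (b : ℕ) :
    P.conf x (a + b) s z = P.conf x b s' z' := by
  rw [conf_add, h]; rfl

theorem next_frame {s : P.S} {z : List P.Γ} {s' : P.S} {z' : List P.Γ}
    (h : P.next x s z = some (s', z')) (y : List P.Γ) :
    P.next x s (z ++ y) = some (s', z' ++ y) := by
  unfold next at h ⊢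
  cases hi : P.instr s with
  | jump s'' =>
    rw [hi] at h
    simp only [Option.some.injEq, Prod.mk.injEq] at h ⊢
    exact ⟨h.1, by rw [h.2]⟩
  | read i f =>
    rw [hi] at h
    simp only [Option.some.injEq, Prod.mk.injEq] at h ⊢
    exact ⟨h.1, by rw [h.2]⟩
  | push g s'' =>
    rw [hi] at h
    simp only [Option.some.injEq, Prod.mk.injEq] at h ⊢
    exact ⟨h.1, by rw [← h.2]; rfl⟩
  | pop f =>
    rw [hi] at h
    cases z with
    | nil => simp at h
    | cons g z =>
      simp only [Option.some.injEq, Prod.mk.injEq, List.cons_append] at h ⊢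
      exact ⟨h.1, by rw [h.2]⟩

theorem conf_frame {t : ℕ} {s : P.S} {z : List P.Γ} {s' : P.S} {z' : List P.Γ}
    (h : P.conf x t s z = some (s', z')) (y : List P.Γ) :
    P.conf x t s (z ++ y) = some (s', z' ++ y) := by
  induction t generalizing s z with
  | zero =>
    simp only [conf, Option.some.injEq, Prod.mk.injEq] at h ⊢
    exact ⟨h.1, by rw [h.2]⟩
  | succ t ih =>
    rw [conf] at h ⊢
    cases hn : P.next x s z with
    | none => rw [hn] at h; simp at h
    | some c =>
      obtain ⟨s₁, z₁⟩ := c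
      rw [hn] at h
      rw [P.next_frame x hn y]
      exact ih h

/-- The node is a pop. -/
def IsPop (s : P.S) : Prop := ∃ f, P.instr s = .pop f

theorem conf_pop {e : P.S} (h : P.IsPop e) {r : ℕ} (hr : 1 ≤ r) : P.conf x r e [] = none := by
  obtain ⟨f, hf⟩ := h
  obtain ⟨r, rfl⟩ : ∃ r', r = r' + 1 := ⟨r - 1, by omega⟩
  rw [conf]
  have : P.next x e [] = none := by
    unfold next
    rw [hf]
  rw [this]
  rfl

variable {T : ℕ}

/-- `a` describes what happens in `r` steps from `(s, z)`, where `z` is a stack of `(c, t)`. -/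
def Fin' (c : P.S) (t : ℕ) (s : P.S) (r : ℕ) (z : List P.Γ) (a : QA P.S T) : Prop :=
  (a.b = true ∧ 1 ≤ a.r.val ∧ a.r.val ≤ r ∧ P.conf x (r - a.r.val) s z = some (a.s, []) ∧
    P.IsPop a.s) ∨
  (a.b = false ∧ a.t.val ≤ t ∧ a.r.val ≤ r ∧ ∃ s₁ z' z'', P.conf x a.t.val c [] = some (s₁, z') ∧
    P.conf x (r - a.r.val) s z = some (a.s, z') ∧ P.conf x a.r.val a.s [] = some (a.c, z''))

variable {P x}

theorem Fin'.pre {c : P.S} {t : ℕ} {s : P.S} {r : ℕ} {z : List P.Γ} {a : QA P.S T} {j : ℕ}
    {s₀ : P.S} {z₀ : List P.Γ} (hj : P.conf x j s₀ z₀ = some (s, z)) (h : P.Fin' x c t s r z a) :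
    P.Fin' x c t s₀ (j + r) z₀ a := by
  rcases h with ⟨hb, h1, h2, h3, h4⟩ | ⟨hb, h1, h2, s₁, z', z'', h3, h4, h5⟩
  · refine Or.inl ⟨hb, h1, by omega, ?_, h4⟩
    rw [show j + r - a.r.val = j + (r - a.r.val) by omega, P.conf_add' x hj]
    exact h3
  · refine Or.inr ⟨hb, h1, by omega, s₁, z', z'', h3, ?_, h5⟩
    rw [show j + r - a.r.val = j + (r - a.r.val) by omega, P.conf_add' x hj]
    exact h4

theorem Fin'.mono {c : P.S} {t t' : ℕ} {s : P.S} {r : ℕ} {z : List P.Γ} {a : QA P.S T}
    (h : P.Fin' x c t s r z a) (ht : t ≤ t') : P.Fin' x c t' s r z a := by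
  rcases h with h | ⟨hb, h1, h2⟩
  · exact Or.inl h
  · exact Or.inr ⟨hb, by omega, h2⟩

theorem Fin'.last {c : P.S} {t : ℕ} {s : P.S} {r : ℕ} {z : List P.Γ} {a : QA P.S T}
    (h : P.Fin' x c t s r z a) (hb : a.b = false) :
    ∃ z₃, P.conf x r s z = some (a.c, z₃) := by
  rcases h with ⟨hb', _⟩ | ⟨_, h1, h2, s₁, z', z'', h3, h4, h5⟩
  · rw [hb] at hb'; cases hb'
  · refine ⟨z'' ++ z', ?_⟩
    have h6 := P.conf_frame x h5 z'
    rw [List.nil_append] at h6
    rw [← h6, ← P.conf_add' x h4, show r - a.r.val + a.r.val = r by omega]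

theorem Fin'.none {c : P.S} {t : ℕ} {s : P.S} {r : ℕ} {z : List P.Γ} {a : QA P.S T}
    (h : P.Fin' x c t s r z a) (hb : a.b = true) : P.conf x r s z = none := by
  rcases h with ⟨_, h1, h2, h3, h4⟩ | ⟨hb', _⟩
  · rw [show r = (r - a.r.val) + a.r.val by omega, P.conf_add' x h3]
    exact P.conf_pop x h4 h1
  · rw [hb] at hb'; cases hb'

/-- `A` answers all questions for times up to `k` correctly. -/
def Good (P : PushProg ι α) (x : ι → α) (A : QA P.S T → QA P.S T) (k : ℕ) : Prop :=
  ∀ (c : P.S) (t : ℕ) (s : P.S) (r : ℕ) (s₀ : P.S) (z : List P.Γ), t ≤ k → r ≤ k →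
    P.conf x t c [] = some (s₀, z) → P.Fin' x c t s r z (A (QA.ask c t s r))

open QA Prot

theorem bool_cases (b : Bool) : b = true ∨ b = false := by cases b <;> simp

/-- Leave the piece `z` of the stack `z ++ y`. -/
theorem Fin'.exit {c : P.S} {t : ℕ} {s : P.S} {r : ℕ} {z : List P.Γ} {a : QA P.S T}
    (h : P.Fin' x c t s r z a) (hb : a.b = true) (y : List P.Γ) :
    1 ≤ a.r.val ∧ a.r.val ≤ r ∧ P.conf x (r - a.r.val) s (z ++ y) = some (a.s, y) := by
  rcases h with ⟨_, h1, h2, h3, _⟩ | ⟨hb', _⟩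
  · exact ⟨h1, h2, by simpa using P.conf_frame x h3 y⟩
  · rw [hb] at hb'; cases hb'

theorem Fin'.inside {c : P.S} {t : ℕ} {s : P.S} {r : ℕ} {z : List P.Γ} {a : QA P.S T}
    (h : P.Fin' x c t s r z a) (hb : a.b = false) :
    a.t.val ≤ t ∧ a.r.val ≤ r ∧ ∃ s₁ z' z'', P.conf x a.t.val c [] = some (s₁, z') ∧
    P.conf x (r - a.r.val) s z = some (a.s, z') ∧ P.conf x a.r.val a.s [] = some (a.c, z'') := by
  rcases h with ⟨hb', _⟩ | ⟨_, h⟩
  · rw [hb] at hb'; cases hb'
  · exact h

theorem fin_ins {c : P.S} {t : ℕ} {s : P.S} {r : ℕ} {z : List P.Γ} {t' : ℕ} {s' : P.S} {r' : ℕ}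
    {cur : P.S} (ht : t' ≤ t) (hr : r' ≤ r) (htT : t ≤ T) (hrT : r ≤ T) {s₁ : P.S}
    {z' z'' : List P.Γ} (h3 : P.conf x t' c [] = some (s₁, z'))
    (h4 : P.conf x (r - r') s z = some (s', z')) (h5 : P.conf x r' s' [] = some (cur, z'')) :
    P.Fin' x c t s r z (QA.ins t' s' r' cur : QA P.S T) := by
  refine Or.inr ⟨rfl, ?_, ?_, s₁, z', z'', ?_, ?_, ?_⟩
  · change (clip T t').val ≤ t
    rw [val_clip (by omega)]; exact ht
  · change (clip T r').val ≤ r
    rw [val_clip (by omega)]; exact hr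
  · change P.conf x (clip T t').val c [] = _
    rw [val_clip (by omega)]; exact h3
  · change P.conf x (r - (clip T r').val) s z = _
    rw [val_clip (by omega)]; exact h4
  · change P.conf x (clip T r').val s' [] = _
    rw [val_clip (by omega)]; exact h5

theorem sec2_spec {A : QA P.S T → QA P.S T} {k : ℕ} (hA : Good P x A k) (hT : 2 * k ≤ T)
    {c : P.S} {l : ℕ} {s : P.S} {r : ℕ} {cur : P.S} {r₂ : ℕ} (hl : l ≤ k) (hr : r ≤ k)
    (hr₂ : r₂ ≤ k) {s₁ : P.S} {zl zs : List P.Γ} (h1 : P.conf x l c [] = some (s₁, zl))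
    (h2 : P.conf x r s [] = some (cur, zs)) :
    P.Fin' x c l s (r + r₂) zl (eval A (sec2 c l s r cur r₂)) := by
  have hC := hA s r cur r₂ cur zs hr hr₂ h2
  have h2' : P.conf x r s zl = some (cur, zs ++ zl) := by simpa using P.conf_frame x h2 zl
  simp only [sec2, eval]
  generalize A (ask s r cur r₂) = C at hC ⊢
  rcases bool_cases C.b with hb | hb
  · rw [if_pos hb]
    obtain ⟨e1, e2, e3⟩ := hC.exit hb zl
    have hE := hA c l C.s C.r.val s₁ zl hl (by omega) h1
    simp only [eval]
    have h := (hE.pre e3).pre h2'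
    rwa [show r + (r₂ - C.r.val + C.r.val) = r + r₂ by omega] at h
  · rw [if_neg (by simp [hb])]
    simp only [eval]
    obtain ⟨z₃, hz⟩ := hC.last hb
    refine fin_ins le_rfl le_rfl (by omega) (by omega) h1 (s' := s) (z'' := z₃) ?_ ?_
    · rw [Nat.sub_self]; rfl
    · rw [P.conf_add' x h2]; exact hz

theorem sec3_spec {A : QA P.S T → QA P.S T} {k : ℕ} (hA : Good P x A k) (hT : 2 * k ≤ T)
    {c : P.S} {l : ℕ} {u : P.S} {a tu : ℕ} {s : P.S} {r : ℕ} {cur : P.S} {r₂ : ℕ} (hl : l ≤ k)
    (ha : a ≤ k) (hr : r ≤ k) (hr₂ : r₂ ≤ k) (hlt : l ≤ tu) (hta : tu + a ≤ T)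
    {s₁ s₂ : P.S} {zl za zs : List P.Γ}
    (h1 : P.conf x l c [] = some (s₁, zl)) (htu : P.conf x tu c [] = some (u, zl))
    (hau : P.conf x a u [] = some (s₂, za)) (h2 : P.conf x r s [] = some (cur, zs)) :
    P.Fin' x c (tu + a) s (r + r₂) (za ++ zl) (eval A (sec3 c l u a tu s r cur r₂)) := by
  have hC := hA s r cur r₂ cur zs hr hr₂ h2
  have h2' : P.conf x r s (za ++ zl) = some (cur, zs ++ (za ++ zl)) := by
    simpa using P.conf_frame x h2 (za ++ zl)
  simp only [sec3, eval]
  generalize A (ask s r cur r₂) = C at hC ⊢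
  rcases bool_cases C.b with hb | hb
  · rw [if_pos hb]
    obtain ⟨e1, e2, e3⟩ := hC.exit hb (za ++ zl)
    have hD := hA u a C.s C.r.val s₂ za ha (by omega) hau
    simp only [eval]
    generalize A (ask u a C.s C.r.val) = D at hD ⊢
    rcases bool_cases D.b with hd | hd
    · rw [if_pos hd]
      obtain ⟨d1, d2, d3⟩ := hD.exit hd zl
      have hE := hA c l D.s D.r.val s₁ zl hl (by omega) h1
      simp only [eval]
      have h := (((hE.pre d3).pre e3).pre h2').mono (show l ≤ tu + a by omega)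
      rwa [show r + (r₂ - C.r.val + (C.r.val - D.r.val + D.r.val)) = r + r₂ by omega] at h
    · rw [if_neg (by simp [hd])]
      simp only [eval]
      obtain ⟨d1, d2, s₃, z', z'', d3, d4, d5⟩ := hD.inside hd
      have hd4 := P.conf_frame x d4 zl
      have hd3 : P.conf x (tu + D.t.val) c [] = some (s₃, z' ++ zl) := by
        rw [P.conf_add' x htu]
        simpa using P.conf_frame x d3 zl
      have hF : P.Fin' x c (tu + a) C.s C.r.val (za ++ zl)
          (QA.ins (tu + D.t.val) D.s D.r.val D.c : QA P.S T) :=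
        fin_ins (by omega) d2 hta (by omega) hd3 hd4 d5
      have h := (hF.pre e3).pre h2'
      rwa [show r + (r₂ - C.r.val + C.r.val) = r + r₂ by omega] at h
  · rw [if_neg (by simp [hb])]
    simp only [eval]
    obtain ⟨z₃, hz⟩ := hC.last hb
    have h3 : P.conf x (tu + a) c [] = some (s₂, za ++ zl) := by
      rw [P.conf_add' x htu]
      simpa using P.conf_frame x hau zl
    refine fin_ins le_rfl le_rfl hta (by omega) h3 (s' := s) (z'' := z₃) ?_ ?_
    · rw [Nat.sub_self]; rfl
    · rw [P.conf_add' x h2]; exact hz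

theorem main_spec {A : QA P.S T → QA P.S T} {k : ℕ} (hA : Good P x A k) (hT : 2 * k ≤ T)
    {c : P.S} {l : ℕ} {u : P.S} {a tu : ℕ} {s : P.S} {r₁ r₂ : ℕ} (hl : l ≤ k)
    (ha : a ≤ k) (hr₁ : r₁ ≤ k) (hr₂ : r₂ ≤ k) (hlt : l ≤ tu) (hta : tu + a ≤ T)
    {s₁ s₂ : P.S} {zl za : List P.Γ}
    (h1 : P.conf x l c [] = some (s₁, zl)) (htu : P.conf x tu c [] = some (u, zl))
    (hau : P.conf x a u [] = some (s₂, za)) :
    P.Fin' x c (tu + a) s (r₁ + r₂) (za ++ zl) (eval A (main c l u a tu s r₁ r₂)) := by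
  have hB := hA u a s r₁ s₂ za ha hr₁ hau
  simp only [main, eval]
  generalize A (ask u a s r₁) = B at hB ⊢
  rcases bool_cases B.b with hb | hb
  · rw [if_pos hb]
    obtain ⟨e1, e2, e3⟩ := hB.exit hb zl
    have hB' := hA c l B.s B.r.val s₁ zl hl (by omega) h1
    simp only [eval]
    generalize A (ask c l B.s B.r.val) = B' at hB' ⊢
    rcases bool_cases B'.b with hd | hd
    · rw [if_pos hd]
      simp only [eval]
      rcases hB' with ⟨_, d1, d2, d3, d4⟩ | ⟨hd', _⟩
      · refine Or.inl ⟨rfl, ?_, ?_, ?_, d4⟩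
        · change 1 ≤ (clip T (B'.r.val + r₂)).val
          rw [val_clip (by omega)]; omega
        · change (clip T (B'.r.val + r₂)).val ≤ _
          rw [val_clip (by omega)]; omega
        · change P.conf x (r₁ + r₂ - (clip T (B'.r.val + r₂)).val) s (za ++ zl) = _
          rw [val_clip (by omega), show r₁ + r₂ - (B'.r.val + r₂) =
            (r₁ - B.r.val) + (B.r.val - B'.r.val) by omega, P.conf_add' x e3]
          exact d3
      · rw [hd] at hd'; cases hd'
    · rw [if_neg (by simp [hd])]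
      obtain ⟨d1, d2, s₃, z', z'', d3, d4, d5⟩ := hB'.inside hd
      have h := (((sec2_spec hA hT (show B'.t.val ≤ k by omega) (show B'.r.val ≤ k by omega) hr₂
        d3 d5).pre d4).pre e3).mono (show B'.t.val ≤ tu + a by omega)
      rwa [show r₁ - B.r.val + (B.r.val - B'.r.val + (B'.r.val + r₂)) = r₁ + r₂ by omega] at h
  · rw [if_neg (by simp [hb])]
    obtain ⟨d1, d2, s₃, z', z'', d3, d4, d5⟩ := hB.inside hb
    have hd4 := P.conf_frame x d4 zl
    have h := ((sec3_spec hA hT hl (show B.t.val ≤ k by omega) (show B.r.val ≤ k by omega) hr₂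
      hlt (by omega) h1 htu d3 d5).pre hd4).mono (show tu + B.t.val ≤ tu + a by omega)
    rwa [show r₁ - B.r.val + (B.r.val + r₂) = r₁ + r₂ by omega] at h

theorem split_good {A : QA P.S T → QA P.S T} {k : ℕ} (hA : Good P x A k) (hT : 2 * k ≤ T) :
    Good P x (fun q => eval A (split k q)) (2 * k) := by
  intro c t s r s₀ z ht hr hz
  have hqt : (ask c t s r : QA P.S T).t.val = t := val_clip (by omega)
  have hqr : (ask c t s r : QA P.S T).r.val = r := val_clip (by omega)
  have hqc : (ask c t s r : QA P.S T).c = c := rfl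
  have hqs : (ask c t s r : QA P.S T).s = s := rfl
  have hrr : min r k + (r - min r k) = r := by omega
  change P.Fin' x c t s r z (eval A (split k (ask c t s r)))
  unfold split
  rw [hqt, hqr, hqc, hqs]
  by_cases htk : t ≤ k
  · rw [if_pos htk]
    have h := main_spec (s := s) hA hT (Nat.zero_le k) htk (show min r k ≤ k by omega)
      (show r - min r k ≤ k by omega) le_rfl (show 0 + t ≤ T by omega)
      (show P.conf x 0 c [] = some (c, []) from rfl) (show P.conf x 0 c [] = some (c, []) from rfl)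
      hz
    rwa [Nat.zero_add, hrr, List.append_nil] at h
  · rw [if_neg htk]
    have h1 := hA c 0 c k c [] (by omega) le_rfl rfl
    simp only [eval]
    generalize A (ask c 0 c k) = B at h1 ⊢
    -- the node after `k` steps
    have hk : ∃ s₁ z₁, P.conf x k c [] = some (s₁, z₁) := by
      have := P.conf_add x k (t - k) c []
      rw [show k + (t - k) = t by omega, hz] at this
      cases hk : P.conf x k c [] with
      | none => rw [hk] at this; simp at this
      | some y => exact ⟨y.1, y.2, rfl⟩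
    obtain ⟨s₁, z₁, hk⟩ := hk
    have hb : B.b = false := by
      rcases bool_cases B.b with hb | hb
      · have := h1.none hb
        rw [hk] at this; cases this
      · exact hb
    have hs₁ : B.c = s₁ := by
      obtain ⟨z₃, h3⟩ := h1.last hb
      rw [hk] at h3
      simp only [Option.some.injEq, Prod.mk.injEq] at h3
      exact h3.1.symm
    rw [hs₁]
    have h2 := hA c k s₁ (t - k) s₁ z₁ le_rfl (by omega) hk
    generalize A (ask c k s₁ (t - k)) = C at h2 ⊢
    have hz2 : P.conf x (t - k) s₁ z₁ = some (s₀, z) := by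
      rw [← P.conf_add' x hk, show k + (t - k) = t by omega]; exact hz
    have hc : C.b = false := by
      rcases bool_cases C.b with hb | hb
      · have := h2.none hb
        rw [hz2] at this; cases this
      · exact hb
    obtain ⟨d1, d2, s₃, z', z'', d3, d4, d5⟩ := h2.inside hc
    have htu : P.conf x (t - C.r.val) c [] = some (C.s, z') := by
      rw [show t - C.r.val = k + (t - k - C.r.val) by omega, P.conf_add' x hk]
      exact d4
    have hza : z = z'' ++ z' := by
      have h6 := P.conf_frame x d5 z'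
      rw [List.nil_append] at h6
      have h7 := P.conf_add' x htu C.r.val
      rw [show t - C.r.val + C.r.val = t by omega, h6, hz] at h7
      simp only [Option.some.injEq, Prod.mk.injEq] at h7
      exact h7.2
    have h := main_spec (s := s) hA hT (show C.t.val ≤ k by omega) (show C.r.val ≤ k by omega)
      (show min r k ≤ k by omega) (show r - min r k ≤ k by omega)
      (show C.t.val ≤ t - C.r.val by omega) (show t - C.r.val + C.r.val ≤ T by omega)
      d3 htu d5
    rwa [show t - C.r.val + C.r.val = t by omega, hrr, ← hza] at h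

end PushProg

end Pool.Agent.MP_6216ea_lc
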