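import Pool.Agent.Lib.MP_6216ea_lc.DCTrade
import Pool.Agent.Lib.MP_6216ea_lc.DCDpda

/-! Deterministic context-free languages in polynomial time and size `n ^ (ε log n)`. -/

set_option autoImplicit false

namespace Pool.Agent.MP_6216ea_lc

/-- For every `ε > 0` the words of length `n` of a deterministic context-free language have
unambiguous branching programs of size `n ^ (ε log n)` which make at most `n ^ c` queries. -/
theorem dpda_trade {α : Type} [Fintype α] (M : DPDA α) (ε : ℝ) (hε : 0 < ε) : ∃ c N₀ : ℕ,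
    ∀ n : ℕ, N₀ ≤ n → ∃ B : LetterNBP (Fin n) α,
      (Fintype.card B.V : ℝ) ≤ (n : ℝ) ^ (ε * Real.log n) ∧
      B.Unambiguous ∧ B.QueriesAtMost (n ^ c) ∧ ∀ x, B.Accepts x ↔ List.ofFn x ∈ M.language := by
  obtain ⟨C, hC, htr⟩ := push_trade
  obtain ⟨a, h⟩ := dpda_prog M
  obtain ⟨e, he⟩ : ∃ e, e = a + 2 := ⟨_, rfl⟩
  -- the time parameter
  obtain ⟨τ, hτ⟩ : ∃ τ : ℕ, C * (e : ℝ) ^ 2 / ε ≤ Real.log τ ∧ 2 ≤ τ := by
    obtain ⟨τ, h1⟩ := exists_nat_ge (Real.exp (C * (e : ℝ) ^ 2 / ε))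
    refine ⟨τ + 2, ?_, by omega⟩
    rw [Real.le_log_iff_exp_le (by positivity)]
    push_cast
    linarith
  obtain ⟨hτ1, hτ2⟩ := hτ
  obtain ⟨c, hc⟩ := exists_nat_ge ((e : ℝ) * (C * τ))
  obtain ⟨N₀, hN₀⟩ := exists_nat_ge (Real.exp τ)
  refine ⟨c, N₀ + 3, fun n hn => ?_⟩
  have hn3 : 3 ≤ n := by omega
  have hnr : (3 : ℝ) ≤ n := by exact_mod_cast hn3
  have hn0 : (0 : ℝ) < n := by linarith
  have he1 : 1 ≤ e := by omega
  have her : (1 : ℝ) ≤ e := by exact_mod_cast he1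
  have hL3 : 3 ≤ n ^ e := hn3.trans (Nat.le_self_pow (by omega) n)
  have hlogn : 0 < Real.log n := Real.log_pos (by linarith)
  have hlogL : Real.log ((n ^ e : ℕ) : ℝ) = e * Real.log n := by
    rw [Nat.cast_pow, Real.log_pow]
  have hτL : (τ : ℝ) ≤ Real.log ((n ^ e : ℕ) : ℝ) := by
    rw [hlogL]
    have h1 : (τ : ℝ) ≤ Real.log n := by
      rw [Real.le_log_iff_exp_le hn0]
      refine hN₀.trans ?_
      have : N₀ ≤ n := by omega
      exact_mod_cast this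
    nlinarith
  have h1 : a * (n + 1) ≤ n ^ e := by
    have h2 : n + 1 ≤ n ^ 2 := by nlinarith
    have h3 : a ≤ n ^ a := (Nat.lt_pow_self (by omega)).le
    calc a * (n + 1) ≤ n ^ a * n ^ 2 := by gcongr
      _ = n ^ e := by rw [he, pow_add]
  obtain ⟨P, hP, hacc⟩ := h n
  obtain ⟨B, hB, hU, ⟨t, ht, hQ⟩, hB'⟩ := htr (Fin n) α P (a * (n + 1)) (n ^ e) τ hL3
    (hP.trans h1) h1 hτ2 hτL
  refine ⟨B, hB.trans ?_, hU, ?_, fun x => (hB' x).trans (hacc x)⟩
  · rw [hlogL, Nat.cast_pow, ← Real.rpow_natCast (n : ℝ) e, ← Real.rpow_mul hn0.le]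
    apply Real.rpow_le_rpow_of_exponent_le (by linarith)
    have hlτ : 0 < Real.log τ := Real.log_pos (by exact_mod_cast hτ2)
    rw [← mul_div_assoc, div_le_iff₀ hlτ]
    have h2 : C * (e : ℝ) ^ 2 ≤ ε * Real.log τ := by
      rwa [div_le_iff₀ hε, mul_comm (Real.log τ)] at hτ1
    calc (e : ℝ) * (C * (e * Real.log n)) = (C * (e : ℝ) ^ 2) * Real.log n := by ring
      _ ≤ (ε * Real.log τ) * Real.log n := by gcongr
      _ = ε * Real.log n * Real.log τ := by ring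
  · intro x T' v hp
    refine (hQ x T' v hp).trans ?_
    have h2 : (t : ℝ) ≤ ((n ^ c : ℕ) : ℝ) := by
      refine ht.trans ?_
      rw [Nat.cast_pow, Nat.cast_pow, ← Real.rpow_natCast (n : ℝ) e,
        ← Real.rpow_natCast (n : ℝ) c, ← Real.rpow_mul hn0.le]
      exact Real.rpow_le_rpow_of_exponent_le (by linarith) hc
    exact_mod_cast h2

end Pool.Agent.MP_6216ea_lc
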