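import Pool.Agent.Lib.MP_6216ea_lc.LTModel

/-! Unambiguous branching programs. -/

set_option autoImplicit false

namespace Pool.Agent.MP_6216ea_lc

/-- `P.Comp x u tr v`: on the input `x` the list `tr` of pairs (label, next vertex) is a computation
from `u` to `v`. -/
inductive LetterNBP.Comp {ι α : Type} (P : LetterNBP ι α) (x : ι → α) :
    P.V → List (Option (ι × α) × P.V) → P.V → Prop
  | nil (u : P.V) : LetterNBP.Comp P x u [] u
  | cons {u v w : P.V} {l : Option (ι × α)} {tr : List (Option (ι × α) × P.V)} :
      P.edge u l v → (∀ i a, l = some (i, a) → x i = a) → LetterNBP.Comp P x v tr w →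
      LetterNBP.Comp P x u ((l, v) :: tr) w

/-- Every input has at most one accepting computation. -/
def LetterNBP.Unambiguous {ι α : Type} (P : LetterNBP ι α) : Prop :=
  ∀ x tr tr', P.Comp x P.source tr P.target → P.Comp x P.source tr' P.target → tr = tr'

/-- On every input every computation from the source makes at most `T` queries. -/
def LetterNBP.QueriesAtMost {ι α : Type} (P : LetterNBP ι α) (T : ℕ) : Prop :=
  ∀ x T' v, P.Path x T' P.source v → T' ≤ T

end Pool.Agent.MP_6216ea_lc
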