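import Pool.Agent.Lib.MP_6216ea_lc.DDModel

/-! Oblivious programs as families of maps, and the branching programs they give. -/

set_option autoImplicit false

namespace Pool.Agent.MP_6216ea_lc

/-- `Comp n T`: the family of maps `T x : S → S` is a composition of maps which do not depend on
the input `x` and of at most `n` maps which depend on one letter of `x`. -/
inductive Comp {ι α S : Type} : ℕ → ((ι → α) → S → S) → Prop
  | const (g : S → S) : Comp 0 (fun _ => g)
  | read (i : ι) (g : α → S → S) : Comp 1 (fun x => g (x i))
  | comp {a b : ℕ} {T T' : (ι → α) → S → S} : Comp a T → Comp b T' →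
      Comp (a + b) (fun x s => T' x (T x s))
  | mono {a b : ℕ} {T : (ι → α) → S → S} : a ≤ b → Comp a T → Comp b T

namespace Comp

variable {ι α S : Type}

theorem of_eq {n : ℕ} {T T' : (ι → α) → S → S} (h : Comp n T) (e : ∀ x s, T' x s = T x s) :
    Comp n T' := by
  have : T' = T := by funext x s; exact e x s
  rw [this]; exact h

/-- A normal form: a list of queries, each followed by a map, and a last map. -/
def runL (x : ι → α) : List (ι × (α → S → S)) → S → S
  | [], s => s
  | (i, h) :: L, s => runL x L (h (x i) s)

theorem runL_append (x : ι → α) (L L' : List (ι × (α → S → S))) (s : S) :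
    runL x (L ++ L') s = runL x L' (runL x L s) := by
  induction L generalizing s with
  | nil => rfl
  | cons c L ih => exact ih _

theorem normal {n : ℕ} {T : (ι → α) → S → S} (h : Comp n T) :
    ∃ (L : List (ι × (α → S → S))) (g : S → S), L.length ≤ n ∧ ∀ x s, T x s = g (runL x L s) := by
  induction h with
  | const g => exact ⟨[], g, le_refl _, fun _ _ => rfl⟩
  | read i g => exact ⟨[(i, g)], id, le_refl _, fun _ _ => rfl⟩
  | @comp a b T T' _ _ ih ih' =>
    obtain ⟨L, g, hL, h⟩ := ih
    obtain ⟨L', g', hL', h'⟩ := ih'
    cases L' with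
    | nil =>
      exact ⟨L, g' ∘ g, by omega, fun x s => by
        change T' x (T x s) = _
        rw [h', h]; rfl⟩
    | cons c L' =>
      obtain ⟨i, k⟩ := c
      refine ⟨L ++ (i, fun a s => k a (g s)) :: L', g', ?_, fun x s => ?_⟩
      · simp only [List.length_append, List.length_cons] at hL' ⊢
        omega
      · change T' x (T x s) = _
        rw [h', h, runL_append]
        rfl
  | mono hab _ ih =>
    obtain ⟨L, g, hL, h⟩ := ih
    exact ⟨L, g, hL.trans hab, h⟩

/-- The branching program of a normal form. -/
def toDBP [Fintype S] (L : List (ι × (α → S → S))) (out : S → Bool) (s₀ : S) :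
    LetterDBP ι α where
  V := Fin (L.length + 1) × S
  fin := inferInstance
  node v := if h : v.1.val < L.length then
      .query (L[v.1.val]'h).1 fun a => (⟨v.1.val + 1, by omega⟩, (L[v.1.val]'h).2 a v.2)
    else .out (out v.2)
  start := (⟨0, by omega⟩, s₀)

theorem toDBP_outputs [Fintype S] (L : List (ι × (α → S → S))) (out : S → Bool) (s₀ : S)
    (x : ι → α) (n : ℕ) (hn : n ≤ L.length) (s : S) :
    (toDBP L out s₀).Outputs x ((⟨n, by omega⟩ : Fin (L.length + 1)), s)
      (out (runL x (L.drop n) s)) := by
  obtain ⟨m, hm⟩ : ∃ m, m = L.length - n := ⟨_, rfl⟩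
  induction m generalizing n s with
  | zero =>
    have : n = L.length := by omega
    subst this
    rw [List.drop_length]
    apply LetterDBP.Outputs.out
    simp [toDBP, runL]
  | succ m ih =>
    have hlt : n < L.length := by omega
    rw [List.drop_eq_getElem_cons hlt]
    refine LetterDBP.Outputs.query (i := (L[n]).1)
      (f := fun a => ((⟨n + 1, by omega⟩ : Fin (L.length + 1)), (L[n]).2 a s)) ?_ ?_
    · simp only [toDBP]
      rw [dif_pos hlt]
    · exact ih (n + 1) hlt _ (by omega)

theorem exists_dbp [Fintype S] {n : ℕ} {T : (ι → α) → S → S} (h : Comp n T) (s₀ : S)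
    (p : S → Prop) :
    ∃ B : LetterDBP ι α, Fintype.card B.V ≤ (n + 1) * Fintype.card S ∧
      B.Decides fun x => p (T x s₀) := by
  classical
  obtain ⟨L, g, hL, h⟩ := h.normal
  refine ⟨toDBP L (fun s => decide (p (g s))) s₀, ?_, fun x => ?_⟩
  · change Fintype.card (Fin (L.length + 1) × S) ≤ _
    rw [Fintype.card_prod, Fintype.card_fin]
    gcongr
  · have h1 := toDBP_outputs L (fun s => decide (p (g s))) s₀ x 0 (by omega) s₀
    rw [List.drop_zero, ← h] at h1
    by_cases hp : p (T x s₀)
    · left
      refine ⟨hp, ?_⟩
      rw [decide_eq_true hp] at h1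
      exact h1
    · right
      refine ⟨hp, ?_⟩
      rw [decide_eq_false hp] at h1
      exact h1

/-- Composition over a list. -/
def runs {A : Type} (F : A → (ι → α) → S → S) : List A → (ι → α) → S → S
  | [], _, s => s
  | a :: l, x, s => runs F l x (F a x s)

theorem runs_comp {A : Type} (F : A → (ι → α) → S → S) (n : ℕ) (l : List A)
    (h : ∀ a ∈ l, Comp n (F a)) : Comp (l.length * n) (runs F l) := by
  induction l with
  | nil => exact ((Comp.const id).mono (by omega)).of_eq fun _ _ => rfl
  | cons a l ih =>
    exact ((h a (by simp)).comp (ih fun b hb => h b (by simp [hb]))).mono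
      (by simp only [List.length_cons]; ring_nf; omega)

end Comp

end Pool.Agent.MP_6216ea_lc
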