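import Mathlib

/-! Multilinear extensions over a finite field and interpolation at all nonzero elements. -/

set_option autoImplicit false

namespace Pool.Agent.MP_6216ea_lc

namespace MExt

open Polynomial

variable {K : Type} [Field K] [Fintype K] {I : Type} [Fintype I] [DecidableEq I]

/-- The vector of zeros and ones of a Boolean vector. -/
def bv (K : Type) [Field K] (e : I → Bool) : I → K := fun i => if e i then 1 else 0

/-- The multilinear extension of `f`. -/
def ext (f : (I → Bool) → K) (r : I → K) : K :=
  ∑ e : I → Bool, f e * ∏ i, (if e i then r i else 1 - r i)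

omit [Fintype K] in
theorem ext_bv (f : (I → Bool) → K) (e₀ : I → Bool) : ext f (bv K e₀) = f e₀ := by
  classical
  unfold ext
  rw [Finset.sum_eq_single e₀]
  · have : ∏ i, (if e₀ i then bv K e₀ i else 1 - bv K e₀ i) = 1 := by
      apply Finset.prod_eq_one
      intro i _
      cases h : e₀ i <;> simp [bv, h]
    rw [this, mul_one]
  · intro e _ he
    obtain ⟨i, hi⟩ : ∃ i, e i ≠ e₀ i := by
      by_contra h
      push Not at h
      exact he (funext h)
    have : ∏ i, (if e i then bv K e₀ i else 1 - bv K e₀ i) = 0 := by
      apply Finset.prod_eq_zero (Finset.mem_univ i)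
      cases h : e i <;> cases h' : e₀ i <;> simp_all [bv]
    rw [this, mul_zero]
  · intro h
    exact absurd (Finset.mem_univ _) h

theorem sum_poly (P : K[X]) (h : P.natDegree < Fintype.card K - 1) : ∑ t : K, P.eval t = 0 := by
  have h1 : ∀ t : K, P.eval t =
      ∑ i ∈ Finset.range (Fintype.card K - 1), P.coeff i * t ^ i := fun t =>
    Polynomial.eval_eq_sum_range' h t
  simp_rw [h1]
  rw [Finset.sum_comm]
  apply Finset.sum_eq_zero
  intro i hi
  rw [← Finset.mul_sum, FiniteField.sum_pow_lt_card_sub_one K i (Finset.mem_range.1 hi), mul_zero]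

/-- The restriction of the extension to a line, as a polynomial. -/
noncomputable def line (f : (I → Bool) → K) (u v : I → K) : K[X] :=
  ∑ e : I → Bool, C (f e) *
    ∏ i, (if e i then C (u i) * X + C (v i) else C (-(u i)) * X + C (1 - v i))

omit [Fintype K] in
theorem line_eval (f : (I → Bool) → K) (u v : I → K) (t : K) :
    (line f u v).eval t = ext f (t • u + v) := by
  unfold line ext
  rw [Polynomial.eval_finset_sum]
  apply Finset.sum_congr rfl
  intro e _
  rw [Polynomial.eval_mul, Polynomial.eval_C, Polynomial.eval_prod]
  congr 1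
  apply Finset.prod_congr rfl
  intro i _
  simp only [Pi.add_apply, Pi.smul_apply, smul_eq_mul]
  split_ifs
  · simp; ring
  · simp; ring

omit [Fintype K] in
theorem line_deg (f : (I → Bool) → K) (u v : I → K) :
    (line f u v).natDegree ≤ Fintype.card I := by
  unfold line
  apply Polynomial.natDegree_sum_le_of_forall_le
  intro e _
  refine (Polynomial.natDegree_C_mul_le _ _).trans ?_
  refine (Polynomial.natDegree_prod_le _ _).trans ?_
  refine (Finset.sum_le_sum (g := fun _ => 1) ?_).trans ?_
  · intro i _
    split_ifs
    · exact Polynomial.natDegree_linear_le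
    · exact Polynomial.natDegree_linear_le
  · simp

/-- Interpolation at all nonzero elements. -/
theorem sum_ext [DecidableEq K] (f : (I → Bool) → K) (u v : I → K)
    (h : Fintype.card I < Fintype.card K - 1) :
    ∑ t ∈ (Finset.univ.erase (0 : K)), ext f (t • u + v) = - ext f v := by
  have h1 := sum_poly (line f u v) ((line_deg f u v).trans_lt h)
  rw [Finset.sum_erase_eq_sub (Finset.mem_univ _)]
  simp_rw [← line_eval]
  rw [h1, line_eval, zero_sub]
  simp

end MExt

end Pool.Agent.MP_6216ea_lc
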