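import Pool.Agent.Lib.MP_6216ea_lc.DDComp
import Pool.Agent.Lib.MP_6216ea_lc.DDExt
import Pool.Agent.Lib.MP_6216ea_lc.DCProt

/-! One level of adaptive composition with catalytic registers. -/

set_option autoImplicit false

namespace Pool.Agent.MP_6216ea_lc

namespace Cat

open Prot MExt

variable {ι α X K : Type} [Field K] {M D : ℕ}

/-- The registers: `M` work registers and the target. -/
abbrev St (K : Type) (M D : ℕ) : Type := (Fin M → Fin D → K) × (Fin D → K)

/-- Add `v` to the target. -/
def addT (v : Fin D → K) (s : St K M D) : St K M D := (s.1, s.2 + v)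

/-- Add `v` to the work register `j`. -/
def addR (j : Fin M) (v : Fin D → K) (s : St K M D) : St K M D :=
  (Function.update s.1 j (s.1 j + v), s.2)

/-- The code of `a` as a vector over `K`. -/
def enc (K : Type) [Field K] (code : X → Fin D → Bool) (a : X) : Fin D → K := bv K (code a)

theorem runs_addR {B : Type} (j : Fin M) (F : B → (ι → α) → St K M D → St K M D)
    (g : B → (ι → α) → St K M D → Fin D → K)
    (hg : ∀ a x s v, g a x (addR j v s) = g a x s) (l : List B)
    (hF : ∀ a ∈ l, ∀ x s, F a x s = addR j (g a x s) s) (x : ι → α) (s : St K M D) :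
    Comp.runs F l x s = addR j ((l.map fun a => g a x s).sum) s := by
  induction l generalizing s with
  | nil =>
    change s = addR j 0 s
    simp [addR]
  | cons a l ih =>
    change Comp.runs F l x (F a x s) = _
    rw [hF a (by simp), ih fun b hb => hF b (by simp [hb])]
    simp only [hg, List.map_cons, List.sum_cons]
    simp only [addR, Function.update_self, Function.update_idem, add_assoc]

theorem runs_addT {B : Type} (F : B → (ι → α) → St K M D → St K M D)
    (g : B → (ι → α) → St K M D → Fin D → K)
    (hg : ∀ a x s v, g a x (addT v s) = g a x s) (l : List B)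
    (hF : ∀ a ∈ l, ∀ x s, F a x s = addT (g a x s) s) (x : ι → α) (s : St K M D) :
    Comp.runs F l x s = addT ((l.map fun a => g a x s).sum) s := by
  induction l generalizing s with
  | nil =>
    change s = addT 0 s
    simp [addT]
  | cons a l ih =>
    change Comp.runs F l x (F a x s) = _
    rw [hF a (by simp), ih fun b hb => hF b (by simp [hb])]
    simp only [hg, List.map_cons, List.sum_cons]
    simp only [addT, add_assoc]

/-- The first `j` work registers as one vector. -/
def tr (j : ℕ) (R : Fin M → Fin D → K) : Fin M × Fin D → K :=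
  fun i => if i.1.val < j then R i.1 i.2 else 0

theorem tr_update (j : Fin M) (R : Fin M → Fin D → K) (v : Fin D → K) :
    tr j.val (Function.update R j v) = tr j.val R := by
  funext i
  unfold tr
  split_ifs with h
  · have : i.1 ≠ j := by
      rintro rfl
      exact absurd h (lt_irrefl _)
    rw [Function.update_of_ne this]
  · rfl

/-- Transform the first `n` work registers from `R k` to `t • R k + V k`. -/
def upM (t : K) (V : ℕ → Fin D → K) (n : ℕ) (s : St K M D) : St K M D :=
  (fun k => if k.val < n then t • s.1 k + V k else s.1 k, s.2)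

/-- The inverse of `upM`. -/
def dnM (t : K) (V : ℕ → Fin D → K) (n : ℕ) (s : St K M D) : St K M D :=
  (fun k => if k.val < n then t⁻¹ • (s.1 k - V k) else s.1 k, s.2)

theorem tr_upM (t : K) (V : ℕ → Fin D → K) (n : ℕ) (s : St K M D) :
    tr n (upM t V n s).1 = t • tr n s.1 + tr n (fun k : Fin M => V k) := by
  funext i
  simp only [tr, upM, Pi.add_apply, Pi.smul_apply, smul_eq_mul]
  split_ifs with h
  · simp
  · simp

theorem dn_addR_up {t : K} (ht : t ≠ 0) (V : ℕ → Fin D → K) (j : Fin M) (v : Fin D → K)
    (s : St K M D) : dnM t V j (addR j v (upM t V j s)) = addR j v s := by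
  unfold dnM addR upM
  refine Prod.ext ?_ rfl
  funext k
  simp only
  by_cases h : k = j
  · subst h
    simp
  · rw [Function.update_of_ne h, Function.update_of_ne h]
    split_ifs with h1
    · rw [add_sub_cancel_right, smul_smul, inv_mul_cancel₀ ht, one_smul]
    · rfl

theorem dn_addT_up {t : K} (ht : t ≠ 0) (V : ℕ → Fin D → K) (n : ℕ) (v : Fin D → K)
    (s : St K M D) : dnM t V n (addT v (upM t V n s)) = addT v s := by
  unfold dnM addT upM
  refine Prod.ext ?_ rfl
  funext k
  simp only
  split_ifs with h1
  · rw [add_sub_cancel_right, smul_smul, inv_mul_cancel₀ ht, one_smul]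
  · rfl

/-! ### The answers of a protocol -/

/-- The rest of the protocol after `n` true answers. -/
def rest (A : X → X) (d : X) (P : Prot X) : ℕ → Prot X
  | 0 => P
  | n + 1 => feed (rest A d P n) (A (ask d (rest A d P n)))

/-- The true answers. -/
def ans (A : X → X) (d : X) (P : Prot X) (n : ℕ) : X := A (ask d (rest A d P n))

theorem walk_ans (A : X → X) (d : X) (P : Prot X) (n : ℕ) :
    walk P (ans A d P) n = rest A d P n := by
  induction n with
  | zero => rfl
  | succ n ih =>
    rw [walk, ih]
    rfl

theorem ans_eq (A : X → X) (d : X) (P : Prot X) (n : ℕ) :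
    ans A d P n = A (ask d (walk P (ans A d P) n)) := by
  rw [walk_ans]
  rfl

variable (d : X) (code : X → Fin D → Bool)

/-- Decode. -/
noncomputable def dec (b : Fin D → Bool) : X :=
  open Classical in if h : ∃ a, code a = b then h.choose else d

theorem dec_code (hcode : Function.Injective code) (a : X) : dec d code (code a) = a := by
  have h : ∃ a', code a' = code a := ⟨a, rfl⟩
  unfold dec
  rw [dif_pos h]
  exact hcode h.choose_spec

/-- The answers coded by `e`. -/
noncomputable def yv (e : Fin M × Fin D → Bool) (k : ℕ) : X :=
  if h : k < M then dec d code (fun i => e (⟨k, h⟩, i)) else d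

/-- The code of the answers `y 0, …, y (j-1)`. -/
def cy (y : ℕ → X) (j : ℕ) : Fin M × Fin D → Bool :=
  fun i => if i.1.val < j then code (y i.1.val) i.2 else false

theorem yv_cy (hcode : Function.Injective code) (y : ℕ → X) (j k : ℕ) (hk : k < j) (hj : j ≤ M) :
    yv d code (cy code y j : Fin M × Fin D → Bool) k = y k := by
  unfold yv cy
  rw [dif_pos (by omega)]
  simp only [hk, if_true]
  exact dec_code d code hcode _

theorem tr_enc (y : ℕ → X) (j : ℕ) :
    tr j (fun k : Fin M => enc K code (y k)) = bv K (cy code y j : Fin M × Fin D → Bool) := by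
  funext i
  unfold tr enc bv cy
  split_ifs with h1 h2 h2 <;> simp_all

end Cat

end Pool.Agent.MP_6216ea_lc
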