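import Mathlib

/-! The size of the deterministic programs. -/

set_option autoImplicit false

namespace Pool.Agent.MP_6216ea_lc

namespace Cat

/-- The exponent in natural numbers. -/
theorem num_aux (l b g M e p : ℕ) (hl : 2 ≤ l) (he : e = Nat.log 2 l) (hb : b = e / 8 + 1)
    (hg : g = l / b + 1) (hM : M = 6 ^ b) (hp : p ≤ 2 * (M * (8 * l) + 2)) :
    (((2 * p) ^ (M + 1) * 2 ^ (8 * l)) ^ g + 1) * p ^ (8 * l * (M + 1)) ≤
      2 ^ (((2 * e + 11) * (M + 1) + 8 * l) * g + 1 + (2 * e + 11) * (8 * l * (M + 1))) ∧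
    (((2 * e + 11) * (M + 1) + 8 * l) * g + 1 + (2 * e + 11) * (8 * l * (M + 1))) * (e + 1) ≤
      31000 * l ^ 2 := by
  have h2e : 2 ^ e ≤ l := by rw [he]; exact Nat.pow_log_le_self 2 (by omega)
  have hle : l < 2 ^ (e + 1) := by rw [he]; exact Nat.lt_pow_succ_log_self (by norm_num) _
  have hel : e + 1 ≤ l := (Nat.lt_two_pow_self (n := e)).trans_le h2e
  have h8 : e + 1 ≤ 8 * b := by omega
  have hb1 : 1 ≤ b := by omega
  have hgs : g * (e + 1) ≤ 9 * l := by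
    have h1 : b * (l / b) ≤ l := Nat.mul_div_le l b
    calc g * (e + 1) = (l / b) * (e + 1) + (e + 1) := by rw [hg]; ring
      _ ≤ (l / b) * (8 * b) + l := Nat.add_le_add (Nat.mul_le_mul_left _ h8) hel
      _ = 8 * (b * (l / b)) + l := by ring
      _ ≤ 8 * l + l := by omega
      _ = 9 * l := by ring
  obtain ⟨q, hq⟩ : ∃ q, q = e / 8 := ⟨_, rfl⟩
  have hq1 : 256 ^ q ≤ 2 ^ e := by
    calc 256 ^ q = 2 ^ (8 * q) := by rw [pow_mul]; norm_num
      _ ≤ 2 ^ e := Nat.pow_le_pow_right (by norm_num) (by omega)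
  have hMq : M = 6 * 6 ^ q := by rw [hM, hb, ← hq, pow_succ]; ring
  have h16 : 1 ≤ 6 ^ q := Nat.one_le_pow _ _ (by norm_num)
  have hM7 : M + 1 ≤ 7 * 6 ^ q := by omega
  have hq2 : q + 1 ≤ 2 ^ q := Nat.lt_two_pow_self
  have hk : 2 * e + 11 ≤ 25 * 2 ^ q := by omega
  have he1 : e + 1 ≤ 8 * 2 ^ q := by omega
  -- (2e+11)(M+1)(e+1) <= 1400 l
  have hB : (2 * e + 11) * (M + 1) * (e + 1) ≤ 1400 * l := by
    calc (2 * e + 11) * (M + 1) * (e + 1) ≤ (25 * 2 ^ q) * (7 * 6 ^ q) * (8 * 2 ^ q) :=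
          Nat.mul_le_mul (Nat.mul_le_mul hk hM7) he1
      _ = 1400 * (2 * 6 * 2) ^ q := by rw [mul_pow, mul_pow]; ring
      _ ≤ 1400 * 256 ^ q := Nat.mul_le_mul_left _ (Nat.pow_le_pow_left (by norm_num) _)
      _ ≤ 1400 * l := Nat.mul_le_mul_left _ (hq1.trans h2e)
  have hA : (2 * e + 11) * (M + 1) ≤ 1400 * l := le_trans (Nat.le_mul_of_pos_right _ (by omega)) hB
  -- 2 p <= 2 ^ (2 e + 11)
  have hMe : M ≤ 6 * 2 ^ e := by
    rw [hMq]
    exact Nat.mul_le_mul_left _ ((Nat.pow_le_pow_left (by norm_num) q).trans hq1)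
  have h2p : 2 * p ≤ 2 ^ (2 * e + 11) := by
    have h1 : l ≤ 2 * 2 ^ e := by rw [pow_succ] at hle; omega
    have h2 : M * (8 * l) ≤ (6 * 2 ^ e) * (8 * (2 * 2 ^ e)) :=
      Nat.mul_le_mul hMe (Nat.mul_le_mul_left _ h1)
    have h3 : 2 ^ (2 * e + 11) = 2048 * (2 ^ e * 2 ^ e) := by
      rw [pow_add, two_mul, pow_add]; ring
    have h4 : 1 ≤ 2 ^ e * 2 ^ e := Nat.mul_pos (Nat.two_pow_pos e) (Nat.two_pow_pos e)
    have h5 : (6 * 2 ^ e) * (8 * (2 * 2 ^ e)) = 96 * (2 ^ e * 2 ^ e) := by ring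
    rw [h3]
    rw [h5] at h2
    omega
  have hp2 : p ≤ 2 ^ (2 * e + 11) := by omega
  constructor
  · have h1 : ((2 * p) ^ (M + 1) * 2 ^ (8 * l)) ^ g ≤
        2 ^ (((2 * e + 11) * (M + 1) + 8 * l) * g) := by
      rw [pow_mul 2 ((2 * e + 11) * (M + 1) + 8 * l) g]
      apply Nat.pow_le_pow_left
      rw [pow_add 2 ((2 * e + 11) * (M + 1)) (8 * l), pow_mul 2 (2 * e + 11) (M + 1)]
      exact Nat.mul_le_mul_right _ (Nat.pow_le_pow_left h2p _)
    have h2 : p ^ (8 * l * (M + 1)) ≤ 2 ^ ((2 * e + 11) * (8 * l * (M + 1))) := by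
      rw [pow_mul 2]
      exact Nat.pow_le_pow_left hp2 _
    have h3 : ((2 * p) ^ (M + 1) * 2 ^ (8 * l)) ^ g + 1 ≤
        2 ^ (((2 * e + 11) * (M + 1) + 8 * l) * g + 1) := by
      rw [pow_succ 2 (((2 * e + 11) * (M + 1) + 8 * l) * g)]
      have := Nat.one_le_two_pow (n := ((2 * e + 11) * (M + 1) + 8 * l) * g)
      omega
    rw [pow_add 2 (((2 * e + 11) * (M + 1) + 8 * l) * g + 1)]
    exact Nat.mul_le_mul h3 h2
  · have hs1 : ((2 * e + 11) * (M + 1) + 8 * l) * g * (e + 1) ≤ 12672 * l ^ 2 := by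
      calc ((2 * e + 11) * (M + 1) + 8 * l) * g * (e + 1)
          = ((2 * e + 11) * (M + 1) + 8 * l) * (g * (e + 1)) := by ring
        _ ≤ (1400 * l + 8 * l) * (9 * l) := Nat.mul_le_mul (Nat.add_le_add_right hA _) hgs
        _ = 12672 * l ^ 2 := by ring
    have hs2 : (2 * e + 11) * (8 * l * (M + 1)) * (e + 1) ≤ 11200 * l ^ 2 := by
      calc (2 * e + 11) * (8 * l * (M + 1)) * (e + 1)
          = 8 * l * ((2 * e + 11) * (M + 1) * (e + 1)) := by ring
        _ ≤ 8 * l * (1400 * l) := Nat.mul_le_mul_left _ hB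
        _ = 11200 * l ^ 2 := by ring
    have h3 : e + 1 ≤ l ^ 2 := hel.trans (by rw [pow_two]; exact Nat.le_mul_self l)
    calc (((2 * e + 11) * (M + 1) + 8 * l) * g + 1 + (2 * e + 11) * (8 * l * (M + 1))) * (e + 1)
        = ((2 * e + 11) * (M + 1) + 8 * l) * g * (e + 1) + (e + 1) +
          (2 * e + 11) * (8 * l * (M + 1)) * (e + 1) := by ring
      _ ≤ 12672 * l ^ 2 + l ^ 2 + 11200 * l ^ 2 := Nat.add_le_add (Nat.add_le_add hs1 h3) hs2
      _ ≤ 31000 * l ^ 2 := by nlinarith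

/-- From the exponent to the real bound. -/
theorem real_bound (c L l E e X : ℕ) (hL : 3 ≤ L) (hl : l = Nat.clog 2 L) (he : e = Nat.log 2 l)
    (h1 : X ≤ 2 ^ E) (h2 : E * (e + 1) ≤ c * l ^ 2) :
    (X : ℝ) ≤ (L : ℝ) ^ ((4 * c : ℝ) * Real.log L / Real.log (Real.log L)) := by
  have hl2 : 2 ≤ l := by
    rw [hl]
    by_contra h
    have h1 : Nat.clog 2 L ≤ 1 := by omega
    have h2 := (Nat.clog_le_iff_le_pow (b := 2) (by norm_num)).1 h1
    omega
  have hLr : (3 : ℝ) ≤ L := by exact_mod_cast hL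
  have hlog2 : 0 < Real.log 2 := Real.log_pos (by norm_num)
  have hlog21 : Real.log 2 < 1 := by
    have := Real.log_two_lt_d9
    linarith
  have hlogL1 : 1 < Real.log L := by
    have h3 : Real.exp 1 < 3 := by
      have := Real.exp_one_lt_d9
      linarith
    rw [Real.lt_log_iff_exp_lt (by linarith)]
    linarith
  have hlogL0 : 0 < Real.log L := by linarith
  have hll : 0 < Real.log (Real.log L) := Real.log_pos hlogL1
  have hlL : (l : ℝ) * Real.log 2 ≤ 2 * Real.log L := by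
    have h3 : 2 ^ (l - 1) < L := by
      have h4 : l - 1 < Nat.clog 2 L := by omega
      exact (Nat.lt_clog_iff_pow_lt (by norm_num)).1 h4
    have h5 : ((2 : ℝ) ^ (l - 1)) ≤ L := by exact_mod_cast h3.le
    have h6 := Real.log_le_log (by positivity) h5
    rw [Real.log_pow] at h6
    have h7 : ((l - 1 : ℕ) : ℝ) = (l : ℝ) - 1 := by
      rw [Nat.cast_sub (by omega), Nat.cast_one]
    rw [h7] at h6
    have h8 : (2 : ℝ) ≤ l := by exact_mod_cast hl2
    nlinarith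
  have hLl : Real.log L ≤ l := by
    have h3 : L ≤ 2 ^ l := by
      rw [hl]
      exact Nat.le_pow_clog (by norm_num) L
    have h5 : (L : ℝ) ≤ (2 : ℝ) ^ l := by exact_mod_cast h3
    have h6 := Real.log_le_log (by linarith) h5
    rw [Real.log_pow] at h6
    have h8 : (0 : ℝ) ≤ l := Nat.cast_nonneg l
    nlinarith
  have hs : Real.log (Real.log L) ≤ ((e : ℝ) + 1) * Real.log 2 := by
    have h3 : Real.log (Real.log L) ≤ Real.log l := Real.log_le_log hlogL0 hLl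
    have h4 : l < 2 ^ (e + 1) := by rw [he]; exact Nat.lt_pow_succ_log_self (by norm_num) _
    have h5 : (l : ℝ) ≤ (2 : ℝ) ^ (e + 1) := by exact_mod_cast h4.le
    have h6 : (0 : ℝ) < l := by
      have : (2 : ℝ) ≤ l := by exact_mod_cast hl2
      linarith
    have h7 := Real.log_le_log h6 h5
    rw [Real.log_pow] at h7
    push_cast at h7
    linarith
  have hE2 : (E : ℝ) * ((e : ℝ) + 1) ≤ c * (l : ℝ) ^ 2 := by exact_mod_cast h2
  have hc0 : (0 : ℝ) ≤ c := Nat.cast_nonneg c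
  have hEl : (E : ℝ) * Real.log 2 * Real.log (Real.log L) ≤ 4 * c * Real.log L ^ 2 := by
    have hE0 : (0 : ℝ) ≤ E := Nat.cast_nonneg E
    calc (E : ℝ) * Real.log 2 * Real.log (Real.log L)
        ≤ (E : ℝ) * Real.log 2 * (((e : ℝ) + 1) * Real.log 2) :=
          mul_le_mul_of_nonneg_left hs (by positivity)
      _ = ((E : ℝ) * ((e : ℝ) + 1)) * Real.log 2 ^ 2 := by ring
      _ ≤ (c * (l : ℝ) ^ 2) * Real.log 2 ^ 2 :=
          mul_le_mul_of_nonneg_right hE2 (by positivity)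
      _ = c * ((l : ℝ) * Real.log 2) ^ 2 := by ring
      _ ≤ c * (2 * Real.log L) ^ 2 := by
          refine mul_le_mul_of_nonneg_left ?_ hc0
          exact pow_le_pow_left₀ (by positivity) hlL 2
      _ = 4 * c * Real.log L ^ 2 := by ring
  have h9 : (X : ℝ) ≤ (2 : ℝ) ^ E := by exact_mod_cast h1
  refine h9.trans ?_
  rw [Real.rpow_def_of_pos (by linarith : (0 : ℝ) < L), ← Real.rpow_natCast,
    Real.rpow_def_of_pos (by norm_num : (0 : ℝ) < 2)]
  apply Real.exp_le_exp.2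
  rw [mul_div_assoc', le_div_iff₀ hll]
  calc Real.log 2 * (E : ℝ) * Real.log (Real.log L)
      = (E : ℝ) * Real.log 2 * Real.log (Real.log L) := by ring
    _ ≤ 4 * c * Real.log L ^ 2 := hEl
    _ = Real.log L * (4 * c * Real.log L) := by ring

end Cat

end Pool.Agent.MP_6216ea_lc
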