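import Pool.Agent.Lib.MP_6216ea_lc.DDStep

/-! Iterated adaptive composition has small deterministic branching programs. -/

set_option autoImplicit false

namespace Pool.Agent.MP_6216ea_lc

namespace Cat

open Prot MExt

theorem cost_le (q N L M : ℕ) : q * (2 * cU q N L M) ≤ (2 * q + 1) ^ (M + 1) * (N * L) := by
  have h := cU_eq q N L M
  rw [pow_succ, mul_comm ((2 * q + 1) ^ M), mul_assoc, ← h]
  calc q * (2 * cU q N L M) = (2 * q) * cU q N L M := by ring
    _ ≤ (2 * q + 1) * (cU q N L M + N * L) := Nat.mul_le_mul (by omega) (by omega)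

/-- The programs of all levels. -/
theorem levels {ι α X K : Type} [Fintype X] [Field K] [Fintype K] [DecidableEq K] {M D : ℕ}
    (d : X) (code : X → Fin D → Bool) (hcode : Function.Injective code)
    (hc : M * D < Fintype.card K - 1) (pos : X → Option ι) (bs : X → Option α → X)
    (A : (ι → α) → ℕ → X → X) (h0 : ∀ x q, A x 0 q = bs q ((pos q).map x))
    (P : ℕ → X → Prot X) (hP : ∀ i q, Prot.Hgt M (P i q))
    (hA : ∀ x i q, A x (i + 1) q = Prot.eval (A x i) (P i q)) (g : ℕ) (q : X) (σ : K) :
    Comp (((2 * Fintype.card K) ^ (M + 1) * Fintype.card X) ^ g)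
      (fun x (s : St K M D) => addT (σ • enc K code (A x g q)) s) := by
  induction g generalizing q σ with
  | zero =>
    rw [pow_zero]
    cases h : pos q with
    | none =>
      exact ((Comp.const (fun s : St K M D => addT (σ • enc K code (bs q none)) s)).mono
        (by omega)).of_eq fun x s => by rw [h0, h]; rfl
    | some i =>
      exact (Comp.read i (fun a (s : St K M D) =>
        addT (σ • enc K code (bs q (some a))) s)).of_eq fun x s => by rw [h0, h]; rfl
  | succ g ih =>
    have h1 := level (M := M) (D := D) (A := fun x => A x g) (P := P g q) d hcode hc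
      (Bp := fun c x s => addT (enc K code (A x g c)) s)
      (Bm := fun c x s => addT (-(enc K code (A x g c))) s)
      (L := ((2 * Fintype.card K) ^ (M + 1) * Fintype.card X) ^ g)
      (fun _ _ _ => rfl) (fun _ _ _ => rfl)
      (fun c => (ih c 1).of_eq fun x s => by rw [one_smul])
      (fun c => (ih c (-1)).of_eq fun x s => by rw [neg_smul, one_smul]) (hP g q) σ
    refine (h1.mono ?_).of_eq fun x s => by rw [hA]
    refine (cost_le _ _ _ _).trans ?_
    rw [pow_succ (((2 * Fintype.card K) ^ (M + 1) * Fintype.card X)) g,
      mul_comm (((2 * Fintype.card K) ^ (M + 1) * Fintype.card X) ^ g), mul_assoc]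
    refine Nat.mul_le_mul_right _ (Nat.pow_le_pow_left ?_ _)
    have : 1 ≤ Fintype.card K := Fintype.card_pos
    omega

/-- Iterated adaptive composition has small deterministic branching programs. -/
theorem thmA_det {ι α X : Type} [Fintype X] (d : X) (D M p : ℕ) (hp : p.Prime)
    (hpc : M * D < p - 1) (code : X → Fin D → Bool)
    (hcode : Function.Injective code) (pos : X → Option ι) (bs : X → Option α → X)
    (A : (ι → α) → ℕ → X → X) (h0 : ∀ x q, A x 0 q = bs q ((pos q).map x))
    (P : ℕ → X → Prot X) (hP : ∀ i q, Prot.Hgt M (P i q))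
    (hA : ∀ x i q, A x (i + 1) q = Prot.eval (A x i) (P i q)) (acc : X → Prop) (q₀ : X) (g : ℕ) :
    ∃ B : LetterDBP ι α, Fintype.card B.V ≤
        (((2 * p) ^ (M + 1) * 2 ^ D) ^ g + 1) * p ^ (D * (M + 1)) ∧
      B.Decides fun x => acc (A x g q₀) := by
  classical
  haveI : Fact p.Prime := ⟨hp⟩
  have hcard : Fintype.card (ZMod p) = p := ZMod.card p
  have h := levels (K := ZMod p) (M := M) (D := D) d code hcode (by rw [hcard]; exact hpc) pos bs
    A h0 P hP hA g q₀ 1
  have hN : Fintype.card X ≤ 2 ^ D := by
    have := Fintype.card_le_of_injective code hcode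
    simpa using this
  obtain ⟨B, hB, hdec⟩ := h.exists_dbp (0 : St (ZMod p) M D) (fun s => ∃ a, acc a ∧
    s.2 = enc (ZMod p) code a)
  refine ⟨B, hB.trans ?_, ?_⟩
  · rw [hcard]
    have hS : Fintype.card (St (ZMod p) M D) = p ^ (D * (M + 1)) := by
      simp only [Fintype.card_prod, Fintype.card_fun, Fintype.card_fin, hcard]
      rw [← pow_mul, ← pow_add]
      congr 1
    rw [hS]
    gcongr
  · have e : (fun x => acc (A x g q₀)) = fun x => ∃ a, acc a ∧
        (addT ((1 : ZMod p) • enc (ZMod p) code (A x g q₀)) (0 : St (ZMod p) M D)).2 =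
          enc (ZMod p) code a := by
      funext x
      apply propext
      simp only [addT, one_smul]
      constructor
      · intro h
        exact ⟨_, h, by simp⟩
      · rintro ⟨a, ha, h⟩
        have h1 : enc (ZMod p) code (A x g q₀) = enc (ZMod p) code a := by simpa using h
        have h2 : A x g q₀ = a := by
          apply hcode
          funext i
          have := congrFun h1 i
          unfold enc bv at this
          cases h3 : code (A x g q₀) i <;> cases h4 : code a i <;> simp_all
        rw [h2]; exact ha
    rw [e]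
    exact hdec

end Cat

end Pool.Agent.MP_6216ea_lc
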