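import Mathlib

/-! Deterministic branching programs which read letters. -/

set_option autoImplicit false

namespace Pool.Agent.MP_6216ea_lc

/-- A node of a deterministic branching program: `out b` stops with the output `b`; `query i f`
reads the letter `a` at position `i` and goes to the node `f a`. -/
inductive DNode (ι α V : Type) : Type where
  | out (b : Bool)
  | query (i : ι) (f : α → V)

/-- A deterministic branching program reading letters of `α` at the positions `i : ι`. -/
structure LetterDBP (ι α : Type) where
  V : Type
  fin : Fintype V
  node : V → DNode ι α V
  start : V

attribute [instance] LetterDBP.fin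

/-- `B.Outputs x v b`: on the input `x` the computation which starts at `v` stops with the output
`b`. -/
inductive LetterDBP.Outputs {ι α : Type} (B : LetterDBP ι α) (x : ι → α) : B.V → Bool → Prop
  | out {v : B.V} {b : Bool} : B.node v = .out b → LetterDBP.Outputs B x v b
  | query {v : B.V} {b : Bool} {i : ι} {f : α → B.V} : B.node v = .query i f →
      LetterDBP.Outputs B x (f (x i)) b → LetterDBP.Outputs B x v b

/-- The program decides `p`: on every input it stops, with the output `true` iff `p x`. -/
def LetterDBP.Decides {ι α : Type} (B : LetterDBP ι α) (p : (ι → α) → Prop) : Prop :=
  ∀ x, (p x ∧ B.Outputs x B.start true) ∨ (¬ p x ∧ B.Outputs x B.start false)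

end Pool.Agent.MP_6216ea_lc
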