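import Pool.Agent.Lib.MP_6216ea_lc.DDLevel

/-! The programs for one level of adaptive composition. -/

set_option autoImplicit false

namespace Pool.Agent.MP_6216ea_lc

namespace Cat

open Prot MExt

section

variable {ι α X K : Type} [Field K] [Fintype K] [DecidableEq K] {M D : ℕ}

/-- The nonzero elements. -/
noncomputable def nz (K : Type) [Field K] [Fintype K] [DecidableEq K] : List K :=
  (Finset.univ.erase (0 : K)).toList

theorem nz_len : (nz K).length = Fintype.card K - 1 := by
  unfold nz
  rw [Finset.length_toList, Finset.card_erase_of_mem (Finset.mem_univ _), Finset.card_univ]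

theorem nz_ne {t : K} (ht : t ∈ nz K) : t ≠ 0 := by
  unfold nz at ht
  rw [Finset.mem_toList] at ht
  exact Finset.ne_of_mem_erase ht

theorem nz_sum {W : Type} [AddCommMonoid W] (f : K → W) :
    ((nz K).map f).sum = ∑ t ∈ Finset.univ.erase (0 : K), f t := by
  unfold nz
  exact Finset.sum_map_toList _ _

end

variable {ι α X K : Type} [Fintype X] [Field K] [Fintype K] [DecidableEq K] {M D : ℕ}
  (d : X) (code : X → Fin D → Bool) (P : Prot X)

/-- The question of call `j`, as a function of the answers. -/
noncomputable def qst (j : ℕ) (e : Fin M × Fin D → Bool) : X := ask d (walk P (yv d code e) j)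

/-- The extension of the indicator of `question j = c`. -/
noncomputable def ind (j : ℕ) (c : X) (R : Fin M → Fin D → K) : K :=
  open Classical in ext (fun e => if qst d code P j e = c then (1 : K) else 0) (tr j R)

/-- The extension of the result. -/
noncomputable def outE (R : Fin M → Fin D → K) : Fin D → K :=
  fun i => ext (fun e => if code (res d (walk P (yv d code e) M)) i then (1 : K) else 0) (tr M R)

variable (A : (ι → α) → X → X)

/-- The value of register `n`. -/
noncomputable def VV (K : Type) [Field K] (x : ι → α) (n : ℕ) : Fin D → K :=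
  enc K code (ans (A x) d P n)

omit [Fintype X] [Fintype K] [DecidableEq K] in
theorem ind_true (hcode : Function.Injective code) (x : ι → α) (j : ℕ) (hj : j ≤ M) (c : X) :
    (open Classical in
    ext (fun e : Fin M × Fin D → Bool => if qst d code P j e = c then (1 : K) else 0)
      (tr j (fun k : Fin M => VV d code P A K x k))) =
    open Classical in if ask d (rest (A x) d P j) = c then (1 : K) else 0 := by
  classical
  have h1 : tr j (fun k : Fin M => VV d code P A K x k) =
      bv K (cy code (ans (A x) d P) j : Fin M × Fin D → Bool) := tr_enc code _ _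
  rw [h1, ext_bv]
  have h2 : qst d code P j (cy code (ans (A x) d P) j : Fin M × Fin D → Bool) =
      ask d (rest (A x) d P j) := by
    unfold qst
    rw [walk_congr P _ (ans (A x) d P) j
      (fun k hk => yv_cy d code hcode _ j k hk hj), walk_ans]
  rw [h2]

omit [Fintype X] [Fintype K] [DecidableEq K] in
theorem out_true (hcode : Function.Injective code) (hP : Hgt M P) (x : ι → α) (i : Fin D) :
    ext (fun e : Fin M × Fin D → Bool =>
      if code (res d (walk P (yv d code e) M)) i then (1 : K) else 0)
      (tr M (fun k : Fin M => VV d code P A K x k)) = enc K code (eval (A x) P) i := by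
  have h1 : tr M (fun k : Fin M => VV d code P A K x k) =
      bv K (cy code (ans (A x) d P) M : Fin M × Fin D → Bool) := tr_enc code _ _
  rw [h1, ext_bv]
  have h2 : walk P (yv d code (cy code (ans (A x) d P) M : Fin M × Fin D → Bool)) M =
      walk P (ans (A x) d P) M :=
    walk_congr P _ (ans (A x) d P) M (fun k hk => yv_cy d code hcode _ M k hk le_rfl)
  rw [h2, res_walk (A x) d hP _ (fun k _ => ans_eq (A x) d P k)]
  rfl

/-- One call, for the constant question `c`. -/
noncomputable def Fc (σ : K) (j : Fin M) (Bp Bm : X → (ι → α) → St K M D → St K M D) (c : X)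
    (x : ι → α) (s : St K M D) : St K M D :=
  Bm c x ((fun s => addR j ((-(σ * ind d code P j c s.1)) • s.2) s)
    (Bp c x ((fun s => addR j ((σ * ind d code P j c s.1) • s.2) s) s)))

omit [Fintype X] [Fintype K] [DecidableEq K] in
theorem Fc_eq (σ : K) (j : Fin M) (Bp Bm : X → (ι → α) → St K M D → St K M D)
    (hp : ∀ c x s, Bp c x s = addT (enc K code (A x c)) s)
    (hm : ∀ c x s, Bm c x s = addT (-(enc K code (A x c))) s) (c : X) (x : ι → α)
    (s : St K M D) : Fc d code P σ j Bp Bm c x s =
      addR j ((-(σ * ind d code P j c s.1)) • enc K code (A x c)) s := by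
  unfold Fc
  rw [hp, hm]
  have h : ∀ v : Fin D → K, ind d code P j c (Function.update s.1 j v) = ind d code P j c s.1 := by
    intro v
    unfold ind
    rw [tr_update]
  simp only [addR, addT, h, Function.update_self, Function.update_idem]
  refine Prod.ext ?_ ?_
  · congr 1
    rw [smul_add, neg_smul, neg_smul]
    abel_nf
  · simp

omit [Fintype X] [Fintype K] [DecidableEq K] in
theorem Fc_comp (σ : K) (j : Fin M) (Bp Bm : X → (ι → α) → St K M D → St K M D) (L : ℕ)
    (hp : ∀ c, Comp L (Bp c)) (hm : ∀ c, Comp L (Bm c)) (c : X) :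
    Comp (2 * L) (Fc d code P σ j Bp Bm c) := by
  exact ((((Comp.const (fun s : St K M D =>
    addR j ((σ * ind d code P j c s.1) • s.2) s)).comp (hp c)).comp (Comp.const
      (fun s : St K M D => addR j ((-(σ * ind d code P j c s.1)) • s.2) s))).comp
        (hm c)).mono (by omega)

/-- The length of `upM` and `dnM`. -/
def cU (q N L : ℕ) : ℕ → ℕ
  | 0 => 0
  | n + 1 => cU q N L n + q * (2 * cU q N L n + 2 * (N * L))

theorem cU_eq (q N L n : ℕ) : cU q N L n + N * L = (2 * q + 1) ^ n * (N * L) := by
  induction n with
  | zero => simp [cU]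
  | succ n ih =>
    rw [pow_succ, mul_comm ((2 * q + 1) ^ n) (2 * q + 1), mul_assoc, ← ih, cU]
    ring

section

variable {code P A}
variable (hcode : Function.Injective code) (hc : M * D < Fintype.card K - 1)
  {Bp Bm : X → (ι → α) → St K M D → St K M D} {L : ℕ}
  (hp : ∀ c x s, Bp c x s = addT (enc K code (A x c)) s)
  (hm : ∀ c x s, Bm c x s = addT (-(enc K code (A x c))) s)
  (hpc : ∀ c, Comp L (Bp c)) (hmc : ∀ c, Comp L (Bm c))

include d hcode hc hp hm hpc hmc

theorem item (j : Fin M)
    (hu : ∀ t : K, t ≠ 0 → Comp (cU (Fintype.card K - 1) (Fintype.card X) L j.val)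
      (fun x => upM (M := M) t (VV d code P A K x) j.val))
    (hd : ∀ t : K, t ≠ 0 → Comp (cU (Fintype.card K - 1) (Fintype.card X) L j.val)
      (fun x => dnM (M := M) t (VV d code P A K x) j.val)) (σ : K) :
    Comp ((Fintype.card K - 1) * (2 * cU (Fintype.card K - 1) (Fintype.card X) L j.val +
      2 * (Fintype.card X * L))) (fun x s => addR j (σ • VV d code P A K x j.val) s) := by
  classical
  let W : List X := (Finset.univ : Finset X).toList
  have hW : W.length = Fintype.card X := by
    simp only [W, Finset.length_toList, Finset.card_univ]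
  let Rd : K → (ι → α) → St K M D → St K M D := fun t x s =>
    dnM t (VV d code P A K x) j.val
      (Comp.runs (Fc d code P σ j Bp Bm) W x (upM t (VV d code P A K x) j.val s))
  have hRc : ∀ t ∈ nz K, Comp (2 * cU (Fintype.card K - 1) (Fintype.card X) L j.val +
      2 * (Fintype.card X * L)) (Rd t) := by
    intro t ht
    refine (((hu t (nz_ne ht)).comp (Comp.runs_comp _ (2 * L) W
      (fun c _ => Fc_comp d code P σ j Bp Bm L hpc hmc c))).comp (hd t (nz_ne ht))).mono ?_
    rw [hW]
    ring_nf
    omega
  let g : K → (ι → α) → St K M D → Fin D → K := fun t x s =>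
    (W.map fun c => (-(σ * ind d code P j.val c (upM t (VV d code P A K x) j.val s).1)) •
      enc K code (A x c)).sum
  have hRe : ∀ t ∈ nz K, ∀ x s, Rd t x s = addR j (g t x s) s := by
    intro t ht x s
    change dnM t (VV d code P A K x) j.val
      (Comp.runs (Fc d code P σ j Bp Bm) W x (upM t (VV d code P A K x) j.val s)) = _
    rw [runs_addR j (Fc d code P σ j Bp Bm)
      (fun c x s => (-(σ * ind d code P j.val c s.1)) • enc K code (A x c)) ?_ W
      (fun c _ x s => Fc_eq d code P A σ j Bp Bm hp hm c x s)]
    · exact dn_addR_up (nz_ne ht) _ _ _ _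
    · intro c x s v
      simp only [addR, ind, tr_update]
  have hg : ∀ t x s v, g t x (addR j v s) = g t x s := by
    intro t x s v
    simp only [g, ind, tr_upM, addR, tr_update]
  refine ((Comp.runs_comp Rd _ (nz K) hRc).mono (by rw [nz_len])).of_eq fun x s => ?_
  rw [runs_addR j Rd g hg (nz K) hRe]
  congr 1
  rw [nz_sum]
  simp only [g, ind, tr_upM, W, Finset.sum_map_toList]
  rw [Finset.sum_comm]
  have h1 : ∀ c : X, ∑ t ∈ Finset.univ.erase (0 : K), (-(σ * ext (fun e : Fin M × Fin D → Bool =>
        if qst d code P j.val e = c then (1 : K) else 0)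
        (t • tr j.val s.1 + tr j.val (fun k : Fin M => VV d code P A K x k)))) •
      enc K code (A x c) = (if ask d (rest (A x) d P j.val) = c then σ else 0) •
        enc K code (A x c) := by
    intro c
    rw [← Finset.sum_smul]
    congr 1
    rw [Finset.sum_neg_distrib, ← Finset.mul_sum, sum_ext _ _ _ (by
      rw [Fintype.card_prod, Fintype.card_fin, Fintype.card_fin]; exact hc)]
    have := ind_true (K := K) d code P A hcode x j.val j.2.le c
    rw [mul_neg, neg_neg, this]
    split_ifs <;> simp
  rw [Finset.sum_congr rfl fun c _ => h1 c]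
  rw [Finset.sum_eq_single (ask d (rest (A x) d P j.val))]
  · rw [if_pos rfl]
    rfl
  · intro c _ hne
    rw [if_neg (fun h => hne h.symm), zero_smul]
  · intro h
    exact absurd (Finset.mem_univ _) h

theorem updn (n : ℕ) (hn : n ≤ M) :
    (∀ t : K, t ≠ 0 → Comp (cU (Fintype.card K - 1) (Fintype.card X) L n)
      (fun x => upM (M := M) t (VV d code P A K x) n)) ∧
    (∀ t : K, t ≠ 0 → Comp (cU (Fintype.card K - 1) (Fintype.card X) L n)
      (fun x => dnM (M := M) t (VV d code P A K x) n)) := by
  induction n with
  | zero =>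
    constructor
    · intro t _
      exact (Comp.const id).of_eq fun x s => by simp [upM]
    · intro t _
      exact (Comp.const id).of_eq fun x s => by simp [dnM]
  | succ n ih =>
    obtain ⟨hu, hd⟩ := ih (by omega)
    have hi := item (M := M) d hcode hc hp hm hpc hmc (P := P) ⟨n, by omega⟩ hu hd
    constructor
    · intro t ht
      refine (((hu t ht).comp (Comp.const (fun s : St K M D =>
        (Function.update s.1 ⟨n, by omega⟩ (t • s.1 ⟨n, by omega⟩), s.2)))).comp (hi 1)).mono
          (by simp only [cU]; omega) |>.of_eq fun x s => ?_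
      unfold upM addR
      refine Prod.ext ?_ rfl
      funext k
      simp only
      by_cases h : k = ⟨n, by omega⟩
      · subst h
        simp
      · have h' : k.val ≠ n := fun e => h (Fin.ext e)
        rw [Function.update_of_ne h, Function.update_of_ne h]
        by_cases h1 : k.val < n
        · rw [if_pos h1, if_pos (by omega)]
        · rw [if_neg h1, if_neg (by omega)]
    · intro t ht
      refine ((((hi (-1)).comp (Comp.const (fun s : St K M D =>
        (Function.update s.1 ⟨n, by omega⟩ (t⁻¹ • s.1 ⟨n, by omega⟩), s.2)))).comp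
          (hd t ht))).mono (by simp only [cU]; omega) |>.of_eq fun x s => ?_
      unfold dnM addR
      refine Prod.ext ?_ rfl
      funext k
      simp only
      by_cases h : k = ⟨n, by omega⟩
      · subst h
        simp [sub_eq_add_neg]
      · have h' : k.val ≠ n := fun e => h (Fin.ext e)
        rw [Function.update_of_ne h, Function.update_of_ne h]
        by_cases h1 : k.val < n
        · rw [if_pos h1, if_pos (by omega)]
        · rw [if_neg h1, if_neg (by omega)]

/-- The next level. -/
theorem level (hP : Hgt M P) (σ : K) :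
    Comp ((Fintype.card K - 1) * (2 * cU (Fintype.card K - 1) (Fintype.card X) L M))
      (fun x (s : St K M D) => addT (σ • enc K code (eval (A x) P)) s) := by
  classical
  obtain ⟨hu, hd⟩ := updn (M := M) d hcode hc hp hm hpc hmc (P := P) M le_rfl
  let Rd : K → (ι → α) → St K M D → St K M D := fun t x s =>
    dnM t (VV d code P A K x) M
      ((fun s => addT (-(σ • outE d code P s.1)) s) (upM t (VV d code P A K x) M s))
  have hRc : ∀ t ∈ nz K, Comp (2 * cU (Fintype.card K - 1) (Fintype.card X) L M) (Rd t) := by
    intro t ht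
    exact (((hu t (nz_ne ht)).comp (Comp.const (fun s : St K M D =>
      addT (-(σ • outE d code P s.1)) s))).comp (hd t (nz_ne ht))).mono (by omega)
  let g : K → (ι → α) → St K M D → Fin D → K := fun t x s =>
    -(σ • outE d code P (upM t (VV d code P A K x) M s).1)
  have hRe : ∀ t ∈ nz K, ∀ x s, Rd t x s = addT (g t x s) s :=
    fun t ht x s => dn_addT_up (nz_ne ht) _ _ _ _
  have hg : ∀ t x s v, g t x (addT v s) = g t x s := fun t x s v => rfl
  refine ((Comp.runs_comp Rd _ (nz K) hRc).mono (by rw [nz_len])).of_eq fun x s => ?_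
  rw [runs_addT Rd g hg (nz K) hRe]
  congr 1
  rw [nz_sum]
  funext i
  rw [Finset.sum_apply]
  simp only [g, outE, tr_upM, Pi.neg_apply, Pi.smul_apply, smul_eq_mul]
  rw [Finset.sum_neg_distrib, ← Finset.mul_sum, sum_ext _ _ _ (by
      rw [Fintype.card_prod, Fintype.card_fin, Fintype.card_fin]; exact hc)]
  rw [out_true (K := K) d code P A hcode hP x i]
  ring

end

end Cat

end Pool.Agent.MP_6216ea_lc
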