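import Pool.Agent.Lib.MP_6216ea_lc.SP.Model

/-! Deterministic pushdown automata and functions computable in logarithmic space. -/

set_option autoImplicit false

namespace Pool.Agent.MP_6216ea_lc

/-- A deterministic pushdown automaton over the alphabet `β`: finite sets of states and stack
symbols, start state, bottom symbol, accepting states. With the state `q` and the top symbol `g`
it makes the move `eps q g`, which reads no letter, if there is one; otherwise it reads the next
letter `a` and makes the move `move q g a`. A move `(q', u)` goes to the state `q'` and replaces
the top symbol by the string `u` (whose first symbol is the new top). -/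
structure DetPDA (β : Type) where
  Q : Type
  Γ : Type
  finQ : Fintype Q
  finΓ : Fintype Γ
  start : Q
  bottom : Γ
  acc : Q → Bool
  eps : Q → Γ → Option (Q × List Γ)
  move : Q → Γ → β → Option (Q × List Γ)

attribute [instance] DetPDA.finQ DetPDA.finΓ

/-- A configuration: the state, the rest of the input and the stack (top first). -/
abbrev DetPDA.Conf {β : Type} (M : DetPDA β) : Type := M.Q × List β × List M.Γ

/-- One step (`none` if the automaton is stuck). -/
def DetPDA.step {β : Type} (M : DetPDA β) (c : M.Conf) : Option M.Conf :=
  match c.2.2 with
  | [] => none
  | g :: z =>
    match M.eps c.1 g with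
    | some r => some (r.1, c.2.1, r.2 ++ z)
    | none =>
      match c.2.1 with
      | [] => none
      | a :: w => (M.move c.1 g a).map fun r => (r.1, w, r.2 ++ z)

/-- The configuration after `t` steps (`none` if the automaton got stuck before). -/
def DetPDA.conf {β : Type} (M : DetPDA β) : ℕ → M.Conf → Option M.Conf
  | 0, c => some c
  | t + 1, c => (M.step c).bind (M.conf t)

/-- The automaton, started on the word `w`, is in an accepting state, with the whole word read,
after `t` steps. -/
def DetPDA.AccAt {β : Type} (M : DetPDA β) (w : List β) (t : ℕ) : Prop :=
  ∃ q z, M.conf t (M.start, w, [M.bottom]) = some (q, [], z) ∧ M.acc q = true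

/-- The automaton accepts the word `w`. -/
def DetPDA.Accepts {β : Type} (M : DetPDA β) (w : List β) : Prop := ∃ t, M.AccAt w t

/-- The function `f` between words is computable in logarithmic space: `f x` has fewer than
`N = (|x| + 2) ^ k` letters, and a program, started with `i < N` in the variable `1` and `0` in
all others, halts with the code of the letter `i` of `f x` (`none` beyond the end) in the
variable `0`, all values being smaller than `N`. -/
def LogSpace {α β : Type} (f : List α → List β) : Prop :=
  ∃ (c : Cmd α) (code : Option β → ℕ) (k : ℕ), Function.Injective code ∧
    ∀ x : List α, (f x).length < (x.length + 2) ^ k ∧ ∀ i < (x.length + 2) ^ k,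
      ∃ t : ℕ → ℕ, Run x ((x.length + 2) ^ k) c (Function.update (fun _ => 0) 1 i) t ∧
        t 0 = code (f x)[i]?

end Pool.Agent.MP_6216ea_lc
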