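import Pool.Agent.Lib.MP_6216ea_lc.DLDefs
import Pool.Agent.Lib.MP_6216ea_lc.DCHeadDefs

/-! Deterministic pushdown automata as two-way multi-head pushdown automata. -/

set_option autoImplicit false

namespace Pool.Agent.MP_6216ea_lc

namespace DLH

variable {β : Type} (M : DetPDA β) (m : ℕ)

/-- strings of length at most `m` -/
abbrev BL : Type := {u : List M.Γ // u.length ≤ m}

/-- the states of the simulating machine -/
inductive St : Type where
  | init
  | top (q : M.Q)
  | pp (q : M.Q)
  | lk (q : M.Q) (g : M.Γ)
  | rt (q : M.Q) (u : BL M m)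
  | psh (q : M.Q) (u : BL M m)
  | yes
  | dead

/-- an injection into a finite type -/
def St.code : St M m → Fin 8 × Option M.Q × Option M.Γ × Option (BL M m)
  | .init => (0, none, none, none)
  | .top q => (1, some q, none, none)
  | .pp q => (2, some q, none, none)
  | .lk q g => (3, some q, some g, none)
  | .rt q u => (4, some q, none, some u)
  | .psh q u => (5, some q, none, some u)
  | .yes => (6, none, none, none)
  | .dead => (7, none, none, none)

theorem St.code_inj : Function.Injective (St.code M m) := by
  intro a b h
  cases a <;> cases b <;> simp [St.code] at h ⊢ <;> assumption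

theorem bl_finite : Finite (BL M m) :=
  (List.finite_length_le M.Γ m).to_subtype

theorem st_finite : Finite (St M m) := by
  have := bl_finite M m
  exact Finite.of_injective _ (St.code_inj M m)

/-- the state which pushes the string `u` -/
def pshL (q : M.Q) (u : List M.Γ) : St M m :=
  if h : u.length ≤ m then .psh q ⟨u, h⟩ else .dead

/-- the state which moves to the right and then pushes the string `u` -/
def rtL (q : M.Q) (u : List M.Γ) : St M m :=
  if h : u.length ≤ m then .rt q ⟨u, h⟩ else .dead

/-- the result of looking at the right end -/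
def topR (q : M.Q) (o : Option β) : St M m :=
  match o with
  | none => if M.acc q = true then .yes else .pp q
  | some _ => .pp q

/-- the result of popping -/
def ppR (q : M.Q) (o : Option M.Γ) : St M m :=
  match o with
  | none => .dead
  | some g =>
    match M.eps q g with
    | some r => pshL M m r.1 r.2
    | none => .lk q g

/-- the result of reading a letter -/
def lkR (q : M.Q) (g : M.Γ) (o : Option β) : St M m :=
  match o with
  | none => .dead
  | some a =>
    match M.move q g a with
    | some r => rtL M m r.1 r.2
    | none => .dead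

/-- the instructions -/
def ins : St M m → HInstr 1 β M.Γ (St M m)
  | .init => .push M.bottom (.top M.start)
  | .top q => .look 0 (topR M m q)
  | .pp q => .pop (ppR M m q)
  | .lk q g => .look 0 (lkR M m q g)
  | .rt q u => .right 0 (.psh q u)
  | .psh q u =>
    if h : u.1 = [] then .look 0 (fun _ => .top q)
    else .push (u.1.getLast h) (.psh q ⟨u.1.dropLast, by
      rw [List.length_dropLast]
      exact (Nat.sub_le _ _).trans u.2⟩)
  | .yes => .look 0 (fun _ => .yes)
  | .dead => .look 0 (fun _ => .dead)

/-- the accepting state -/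
def ac : St M m → Bool
  | .yes => true
  | _ => false

/-- the simulating machine -/
noncomputable def mach : HeadPDA β where
  k := 1
  Q := St M m
  Γ := M.Γ
  finQ := @Fintype.ofFinite _ (st_finite M m)
  finΓ := M.finΓ
  instr := ins M m
  start := .init
  acc := ac M m

/-- configurations from the back -/
theorem conf_succ (t : ℕ) : ∀ c : M.Conf, M.conf (t + 1) c = (M.conf t c).bind M.step := by
  induction t with
  | zero =>
    intro c
    change (M.step c).bind (M.conf 0) = (some c).bind M.step
    have h : (M.conf 0 : M.Conf → Option M.Conf) = some := rfl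
    rw [h, Option.bind_some]
    cases M.step c <;> rfl
  | succ t ih =>
    intro c
    change (M.step c).bind (M.conf (t + 1)) = ((M.step c).bind (M.conf t)).bind M.step
    rw [Option.bind_assoc]
    congr 1
    funext c'
    exact ih c'

/-- reachable configurations -/
def Reach (w : List β) (c : M.Conf) : Prop := ∃ t, M.conf t (M.start, w, [M.bottom]) = some c

theorem Reach.step {w : List β} {c c' : M.Conf} (h : Reach M w c) (h' : M.step c = some c') :
    Reach M w c' := by
  obtain ⟨t, ht⟩ := h
  exact ⟨t + 1, by rw [conf_succ, ht, Option.bind_some, h']⟩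

/-- configurations of the simulating machine -/
abbrev Cf (n : ℕ) : Type := St M m × (Fin 1 → Fin (n + 1)) × List M.Γ

/-- a step of the simulating machine -/
noncomputable def stp {n : ℕ} (x : Fin n → β) (c : Cf M m n) : Cf M m n :=
  (mach M m).step x c

/-- the letter at the position of the head -/
def letter {n : ℕ} (x : Fin n → β) (p : Fin 1 → Fin (n + 1)) : Option β :=
  if hp : (p 0).val < n then some (x ⟨_, hp⟩) else none

theorem stp_init {n : ℕ} (x : Fin n → β) (p : Fin 1 → Fin (n + 1)) (z : List M.Γ) :
    stp M m x (.init, p, z) = (.top M.start, p, M.bottom :: z) := rfl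

theorem stp_top {n : ℕ} (x : Fin n → β) (p : Fin 1 → Fin (n + 1)) (z : List M.Γ) (q : M.Q) :
    stp M m x (.top q, p, z) = (topR M m q (letter x p), p, z) := rfl

theorem stp_pp {n : ℕ} (x : Fin n → β) (p : Fin 1 → Fin (n + 1)) (z : List M.Γ) (q : M.Q) :
    stp M m x (.pp q, p, z) = (ppR M m q z.head?, p, z.tail) := rfl

theorem stp_lk {n : ℕ} (x : Fin n → β) (p : Fin 1 → Fin (n + 1)) (z : List M.Γ) (q : M.Q)
    (g : M.Γ) : stp M m x (.lk q g, p, z) = (lkR M m q g (letter x p), p, z) := rfl

theorem stp_rt {n : ℕ} (x : Fin n → β) (p : Fin 1 → Fin (n + 1)) (z : List M.Γ) (q : M.Q)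
    (u : BL M m) : stp M m x (.rt q u, p, z) =
      (.psh q u, Function.update p 0 ⟨min ((p 0).val + 1) n, by omega⟩, z) := rfl

theorem step_look {α : Type} (M' : HeadPDA α) {n : ℕ} (x : Fin n → α) (c : M'.Conf n)
    (h : Fin M'.k) (f : Option α → M'.Q) (hi : M'.instr c.1 = .look h f) :
    M'.step x c = (f (if hp : (c.2.1 h).val < n then some (x ⟨_, hp⟩) else none),
      c.2.1, c.2.2) := by
  unfold HeadPDA.step
  rw [hi]

theorem step_push {α : Type} (M' : HeadPDA α) {n : ℕ} (x : Fin n → α) (c : M'.Conf n)
    (g : M'.Γ) (q : M'.Q) (hi : M'.instr c.1 = .push g q) :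
    M'.step x c = (q, c.2.1, g :: c.2.2) := by
  unfold HeadPDA.step
  rw [hi]

theorem stp_psh_nil {n : ℕ} (x : Fin n → β) (p : Fin 1 → Fin (n + 1)) (z : List M.Γ)
    (q : M.Q) (u : BL M m) (hu : u.1 = []) :
    stp M m x (.psh q u, p, z) = (.top q, p, z) :=
  step_look (mach M m) x (.psh q u, p, z) (0 : Fin 1) (fun _ => .top q) (dif_pos hu)

theorem stp_psh_cons {n : ℕ} (x : Fin n → β) (p : Fin 1 → Fin (n + 1)) (z : List M.Γ)
    (q : M.Q) (u : BL M m) (hu : u.1 ≠ []) :
    stp M m x (.psh q u, p, z) = (.psh q ⟨u.1.dropLast, by
      rw [List.length_dropLast]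
      exact (Nat.sub_le _ _).trans u.2⟩, p, u.1.getLast hu :: z) :=
  step_push (mach M m) x (.psh q u, p, z) (u.1.getLast hu) _ (dif_neg hu)

theorem stp_yes {n : ℕ} (x : Fin n → β) (p : Fin 1 → Fin (n + 1)) (z : List M.Γ) :
    stp M m x (.yes, p, z) = (.yes, p, z) := rfl

theorem stp_dead {n : ℕ} (x : Fin n → β) (p : Fin 1 → Fin (n + 1)) (z : List M.Γ) :
    stp M m x (.dead, p, z) = (.dead, p, z) := rfl

/-- the letter and the rest of the word -/
theorem letter_spec (w : List β) (p : Fin 1 → Fin (w.length + 1)) :
    (letter w.get p = none ∧ w.drop (p 0).val = [] ∧ (p 0).val = w.length) ∨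
    ∃ a, letter w.get p = some a ∧ w.drop (p 0).val = a :: w.drop ((p 0).val + 1) ∧
      (p 0).val < w.length := by
  unfold letter
  by_cases hp : (p 0).val < w.length
  · right
    rw [dif_pos hp]
    exact ⟨_, rfl, List.drop_eq_getElem_cons hp, hp⟩
  · left
    rw [dif_neg hp]
    have h1 := (p 0).2
    exact ⟨rfl, List.drop_eq_nil_of_le (by omega), by omega⟩

/-- the invariant -/
def Inv (w : List β) (c : Cf M m w.length) : Prop :=
  match c with
  | (.init, p, z) => z = [] ∧ (p 0).val = 0
  | (.top q, p, z) => Reach M w (q, w.drop (p 0).val, z)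
  | (.pp q, p, z) => Reach M w (q, w.drop (p 0).val, z)
  | (.lk q g, p, z) => Reach M w (q, w.drop (p 0).val, g :: z) ∧ M.eps q g = none
  | (.rt q u, p, z) => Reach M w (q, w.drop ((p 0).val + 1), u.1 ++ z) ∧
      (p 0).val < w.length
  | (.psh q u, p, z) => Reach M w (q, w.drop (p 0).val, u.1 ++ z)
  | (.yes, _, _) => M.Accepts w
  | (.dead, _, _) => True

theorem inv_step (w : List β) (c : Cf M m w.length) (h : Inv M m w c) :
    Inv M m w (stp M m w.get c) := by
  obtain ⟨s, p, z⟩ := c
  cases s with
  | init =>
    obtain ⟨h1, h2⟩ := h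
    rw [stp_init]
    change Reach M w (M.start, w.drop (p 0).val, M.bottom :: z)
    rw [h1, h2, List.drop_zero]
    exact ⟨0, rfl⟩
  | top q =>
    rw [stp_top]
    have h' : Reach M w (q, w.drop (p 0).val, z) := h
    rcases letter_spec w p with ⟨h1, h2, -⟩ | ⟨a, h1, -, -⟩
    · rw [h1]
      by_cases hq : M.acc q = true
      · have h3 : topR M m q none = .yes := if_pos hq
        rw [h3]
        obtain ⟨t, ht⟩ := h'
        rw [h2] at ht
        exact ⟨t, q, z, ht, hq⟩
      · have h3 : topR M m q none = .pp q := if_neg hq
        rw [h3]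
        exact h'
    · rw [h1]
      exact h'
  | pp q =>
    rw [stp_pp]
    have h' : Reach M w (q, w.drop (p 0).val, z) := h
    cases z with
    | nil => trivial
    | cons g z =>
      change Inv M m w (ppR M m q (some g), p, z)
      cases he : M.eps q g with
      | none =>
        have h3 : ppR M m q (some g) = .lk q g := by
          unfold ppR
          simp only [he]
        rw [h3]
        exact ⟨h', he⟩
      | some r =>
        have h3 : ppR M m q (some g) = pshL M m r.1 r.2 := by
          unfold ppR
          simp only [he]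
        rw [h3]
        have h4 : Reach M w (r.1, w.drop (p 0).val, r.2 ++ z) := by
          refine h'.step M ?_
          unfold DetPDA.step
          simp only [he]
        unfold pshL
        split_ifs
        · exact h4
        · trivial
  | lk q g =>
    rw [stp_lk]
    obtain ⟨h', he⟩ := h
    rcases letter_spec w p with ⟨h1, -, -⟩ | ⟨a, h1, h2, hp⟩
    · rw [h1]
      trivial
    · rw [h1]
      cases hm : M.move q g a with
      | none =>
        have h3 : lkR M m q g (some a) = .dead := by
          unfold lkR
          simp only [hm]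
        rw [h3]
        trivial
      | some r =>
        have h3 : lkR M m q g (some a) = rtL M m r.1 r.2 := by
          unfold lkR
          simp only [hm]
        rw [h3]
        have h4 : Reach M w (r.1, w.drop ((p 0).val + 1), r.2 ++ z) := by
          refine h'.step M ?_
          unfold DetPDA.step
          simp only [he, h2, hm, Option.map_some]
        unfold rtL
        split_ifs
        · exact ⟨h4, hp⟩
        · trivial
  | rt q u =>
    rw [stp_rt]
    obtain ⟨h', hp⟩ := h
    change Reach M w (q, w.drop ((Function.update p 0 _ : Fin 1 → Fin (w.length + 1)) 0).val,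
      u.1 ++ z)
    rw [Function.update_self]
    have h1 : min ((p 0).val + 1) w.length = (p 0).val + 1 := by omega
    simp only [h1]
    exact h'
  | psh q u =>
    have h' : Reach M w (q, w.drop (p 0).val, u.1 ++ z) := h
    by_cases hu : u.1 = []
    · rw [stp_psh_nil M m _ _ _ _ _ hu]
      rw [hu, List.nil_append] at h'
      exact h'
    · rw [stp_psh_cons M m _ _ _ _ _ hu]
      change Reach M w (q, w.drop (p 0).val, u.1.dropLast ++ u.1.getLast hu :: z)
      have h1 : u.1.dropLast ++ u.1.getLast hu :: z = u.1 ++ z := by
        conv_rhs => rw [← List.dropLast_append_getLast hu]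
        rw [List.append_assoc]
        rfl
      rw [h1]
      exact h'
  | yes => exact h
  | dead => trivial

theorem inv_iter (w : List β) (t : ℕ) :
    Inv M m w ((stp M m w.get)^[t] (.init, fun _ => 0, [])) := by
  induction t with
  | zero => exact ⟨rfl, rfl⟩
  | succ t ih =>
    rw [Function.iterate_succ_apply']
    exact inv_step M m w _ ih

/-- pushing a string -/
theorem push_run {n : ℕ} (x : Fin n → β) (q : M.Q) (p : Fin 1 → Fin (n + 1)) (l : ℕ) :
    ∀ (u : BL M m) (z : List M.Γ), u.1.length = l →
      (stp M m x)^[l + 1] (.psh q u, p, z) = (.top q, p, u.1 ++ z) := by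
  induction l with
  | zero =>
    intro u z hu
    have h0 : u.1 = [] := List.length_eq_zero_iff.1 hu
    change stp M m x (.psh q u, p, z) = _
    rw [stp_psh_nil M m _ _ _ _ _ h0, h0]
    rfl
  | succ l ih =>
    intro u z hu
    have h0 : u.1 ≠ [] := by
      intro h
      rw [h] at hu
      simp at hu
    rw [Function.iterate_succ_apply, stp_psh_cons M m _ _ _ _ _ h0, ih]
    · change (_, _, u.1.dropLast ++ u.1.getLast h0 :: z) = _
      have h1 : u.1.dropLast ++ u.1.getLast h0 :: z = u.1 ++ z := by
        conv_rhs => rw [← List.dropLast_append_getLast h0]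
        rw [List.append_assoc]
        rfl
      rw [h1]
    · change u.1.dropLast.length = l
      rw [List.length_dropLast, hu]
      rfl

/-- the result of a run: the accepting state is reached, or the configuration `c` is reached -/
def Res (w : List β) (N : ℕ) (c0 : Cf M m w.length) (c : M.Conf) : Prop :=
  (∃ s ≤ N, ∃ p' z', (stp M m w.get)^[s] c0 = (.yes, p', z')) ∨
  ∃ s ≤ N, ∃ p', (stp M m w.get)^[s] c0 = (.top c.1, p', c.2.2) ∧ w.drop (p' 0).val = c.2.1

theorem macro_step (he : ∀ q g r, M.eps q g = some r → r.2.length ≤ m)
    (hm : ∀ q g a r, M.move q g a = some r → r.2.length ≤ m) (w : List β)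
    (p : Fin 1 → Fin (w.length + 1)) (z : List M.Γ) (q : M.Q) (c1 : M.Conf)
    (h : M.step (q, w.drop (p 0).val, z) = some c1) : Res M m w (m + 5) (.top q, p, z) c1 := by
  by_cases hacc : letter w.get p = none ∧ M.acc q = true
  · left
    refine ⟨1, by omega, p, z, ?_⟩
    change stp M m w.get (.top q, p, z) = _
    rw [stp_top, hacc.1]
    have h3 : topR M m q none = .yes := if_pos hacc.2
    rw [h3]
  right
  have h1 : stp M m w.get (.top q, p, z) = (.pp q, p, z) := by
    rw [stp_top]
    rcases letter_spec w p with ⟨h1, -, -⟩ | ⟨a, h1, -, -⟩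
    · have h3 : topR M m q none = .pp q := if_neg fun h4 => hacc ⟨h1, h4⟩
      rw [h1, h3]
    · rw [h1]
      rfl
  cases z with
  | nil =>
    unfold DetPDA.step at h
    simp at h
  | cons g z =>
    have h2 : stp M m w.get (.pp q, p, g :: z) = (ppR M m q (some g), p, z) := stp_pp M m _ _ _ _
    cases hq : M.eps q g with
    | some r =>
      have h3 : ppR M m q (some g) = pshL M m r.1 r.2 := by
        unfold ppR
        simp only [hq]
      have h4 : pshL M m r.1 r.2 = .psh r.1 ⟨r.2, he _ _ _ hq⟩ := dif_pos (he _ _ _ hq)
      have h5 : c1 = (r.1, w.drop (p 0).val, r.2 ++ z) := by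
        unfold DetPDA.step at h
        simp only [hq] at h
        exact (Option.some.inj h).symm
      have h6 := push_run M m w.get r.1 p _ ⟨r.2, he _ _ _ hq⟩ z rfl
      refine ⟨(r.2.length + 1) + 1 + 1, by have := he _ _ _ hq; omega, p, ?_, ?_⟩
      · rw [Function.iterate_succ_apply, h1, Function.iterate_succ_apply, h2, h3, h4, h5]
        exact h6
      · rw [h5]
    | none =>
      rcases letter_spec w p with ⟨-, h7, -⟩ | ⟨a, h7, h8, hp⟩
      · unfold DetPDA.step at h
        simp only [hq, h7] at h
        simp at h
      · have h3 : ppR M m q (some g) = .lk q g := by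
          unfold ppR
          simp only [hq]
        cases hmv : M.move q g a with
        | none =>
          unfold DetPDA.step at h
          simp only [hq, h8, hmv, Option.map_none] at h
          simp at h
        | some r =>
          have h4 : lkR M m q g (some a) = rtL M m r.1 r.2 := by
            unfold lkR
            simp only [hmv]
          have h5 : rtL M m r.1 r.2 = .rt r.1 ⟨r.2, hm _ _ _ _ hmv⟩ :=
            dif_pos (hm _ _ _ _ hmv)
          have h6 : c1 = (r.1, w.drop ((p 0).val + 1), r.2 ++ z) := by
            unfold DetPDA.step at h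
            simp only [hq, h8, hmv, Option.map_some] at h
            exact (Option.some.inj h).symm
          have h9 := push_run M m w.get r.1
            (Function.update p 0 ⟨min ((p 0).val + 1) w.length, by omega⟩) _
            ⟨r.2, hm _ _ _ _ hmv⟩ z rfl
          refine ⟨(r.2.length + 1) + 1 + 1 + 1 + 1, by have := hm _ _ _ _ hmv; omega,
            Function.update p 0 ⟨min ((p 0).val + 1) w.length, by omega⟩, ?_, ?_⟩
          · rw [Function.iterate_succ_apply, h1, Function.iterate_succ_apply, h2, h3,
              Function.iterate_succ_apply, stp_lk, h7, h4, h5, Function.iterate_succ_apply,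
              stp_rt, h6]
            exact h9
          · rw [h6, Function.update_self]
            have h10 : min ((p 0).val + 1) w.length = (p 0).val + 1 := by omega
            simp only [h10]

theorem run (he : ∀ q g r, M.eps q g = some r → r.2.length ≤ m)
    (hm : ∀ q g a r, M.move q g a = some r → r.2.length ≤ m) (w : List β) (t : ℕ) :
    ∀ (p : Fin 1 → Fin (w.length + 1)) (z : List M.Γ) (q : M.Q) (c1 : M.Conf),
      M.conf t (q, w.drop (p 0).val, z) = some c1 →
      Res M m w ((m + 5) * t) (.top q, p, z) c1 := by
  induction t with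
  | zero =>
    intro p z q c1 h
    right
    have h1 : (q, w.drop (p 0).val, z) = c1 := Option.some.inj h
    exact ⟨0, by omega, p, by rw [← h1]; rfl, by rw [← h1]⟩
  | succ t ih =>
    intro p z q c1 h
    have h0 : (M.step (q, w.drop (p 0).val, z)).bind (M.conf t) = some c1 := h
    cases hs : M.step (q, w.drop (p 0).val, z) with
    | none =>
      rw [hs] at h0
      simp at h0
    | some c2 =>
      rw [hs, Option.bind_some] at h0
      rcases macro_step M m he hm w p z q c2 hs with ⟨s, hs1, p', z', h1⟩ | ⟨s, hs1, p', h1, h2⟩
      · left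
        refine ⟨s, ?_, p', z', h1⟩
        rw [Nat.mul_succ]
        omega
      · have h3 := ih p' c2.2.2 c2.1 c1 (by rw [h2]; exact h0)
        rcases h3 with ⟨s', hs', p'', z'', h4⟩ | ⟨s', hs', p'', h4, h5⟩
        · left
          refine ⟨s' + s, ?_, p'', z'', ?_⟩
          · rw [Nat.mul_succ]
            omega
          · rw [Function.iterate_add_apply, h1, h4]
        · right
          refine ⟨s' + s, ?_, p'', ?_, h5⟩
          · rw [Nat.mul_succ]
            omega
          · rw [Function.iterate_add_apply, h1, h4]

theorem exists_bound [Finite β] : ∃ m : ℕ, (∀ q g r, M.eps q g = some r → r.2.length ≤ m) ∧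
    ∀ q g a r, M.move q g a = some r → r.2.length ≤ m := by
  obtain ⟨m1, h1⟩ := (Set.finite_range (fun x : M.Q × M.Γ =>
    ((M.eps x.1 x.2).map fun r => r.2.length).getD 0)).bddAbove
  obtain ⟨m2, h2⟩ := (Set.finite_range (fun x : M.Q × M.Γ × β =>
    ((M.move x.1 x.2.1 x.2.2).map fun r => r.2.length).getD 0)).bddAbove
  refine ⟨max m1 m2, fun q g r h => ?_, fun q g a r h => ?_⟩
  · have h3 := h1 ⟨(q, g), rfl⟩
    simp only [h, Option.map_some, Option.getD_some] at h3
    exact h3.trans (le_max_left _ _)
  · have h3 := h2 ⟨(q, g, a), rfl⟩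
    simp only [h, Option.map_some, Option.getD_some] at h3
    exact h3.trans (le_max_right _ _)

end DLH

open DLH in
/-- A multi-head pushdown automaton which simulates a deterministic pushdown automaton. -/
theorem DetPDA.exists_head {β : Type} [Finite β] (M : DetPDA β) :
    ∃ (M' : HeadPDA β) (C : ℕ),
      (∀ (w : List β) (t : ℕ), M.AccAt w t → M'.AcceptsIn w.get (C * (t + 1))) ∧
      ∀ (w : List β) (T : ℕ), M'.AcceptsIn w.get T → M.Accepts w := by
  obtain ⟨m, he, hm⟩ := exists_bound M
  refine ⟨mach M m, m + 7, ?_, ?_⟩
  · rintro w t ⟨q, z, h, hq⟩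
    have h0 : M.conf t (M.start, w.drop ((fun _ => 0 : Fin 1 → Fin (w.length + 1)) 0).val,
        [M.bottom]) = some (q, [], z) := h
    have hi : stp M m w.get (.init, fun _ => 0, []) = (.top M.start, fun _ => 0, [M.bottom]) :=
      stp_init M m _ _ _
    have hyes : ∀ s ≤ (m + 5) * t + 1, ∀ p' z', (stp M m w.get)^[s]
        (.top M.start, fun _ => 0, [M.bottom]) = (.yes, p', z') →
        (mach M m).AcceptsIn w.get ((m + 7) * (t + 1)) := by
      intro s hs p' z' h1
      refine ⟨s + 1, ?_, ?_⟩
      · have h2 : (m + 7) * (t + 1) = (m + 5) * t + 2 * t + m + 7 := by ring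
        omega
      · change ac M m ((stp M m w.get)^[s + 1] (.init, fun _ => 0, [])).1 = true
        rw [Function.iterate_succ_apply, hi, h1]
        rfl
    rcases run M m he hm w t (fun _ => 0) [M.bottom] M.start (q, [], z) h0 with
      ⟨s, hs, p', z', h1⟩ | ⟨s, hs, p', h1, h2⟩
    · exact hyes s (by omega) p' z' h1
    · refine hyes (s + 1) (by omega) p' z ?_
      rw [Function.iterate_succ_apply', h1]
      change stp M m w.get (.top q, p', z) = _
      rw [stp_top]
      have h3 : letter w.get p' = none := by
        rcases letter_spec w p' with ⟨h3, -, -⟩ | ⟨a, -, h3, -⟩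
        · exact h3
        · rw [h3] at h2
          simp at h2
      have h4 : topR M m q none = .yes := if_pos hq
      rw [h3, h4]
  · rintro w T ⟨t, -, ht⟩
    have h1 := inv_iter M m w t
    have h2 : ac M m ((stp M m w.get)^[t] (.init, fun _ => 0, [])).1 = true := ht
    generalize (stp M m w.get)^[t] (.init, fun _ => 0, []) = c at h1 h2
    obtain ⟨s, p, z⟩ := c
    cases s with
    | yes => exact h1
    | init => exact absurd h2 (by simp [ac])
    | top q => exact absurd h2 (by simp [ac])
    | pp q => exact absurd h2 (by simp [ac])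
    | lk q g => exact absurd h2 (by simp [ac])
    | rt q u => exact absurd h2 (by simp [ac])
    | psh q u => exact absurd h2 (by simp [ac])
    | dead => exact absurd h2 (by simp [ac])

end Pool.Agent.MP_6216ea_lc
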