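import Pool.Agent.Lib.MP_6216ea_lc.DUHeadN

/-! The numeric programs of a multi-head pushdown automaton on a computed input. -/

set_option autoImplicit false

namespace Pool.Agent.MP_6216ea_lc

namespace DU

open SP

section comp

variable {α : Type} {K : List α → ℕ} {σ : Type} [Tup σ]

private theorem hl_len {len : List α → ℕ} (hl : Comp K fun x (_ : Unit) => len x) :
    Comp K fun x (_ : σ) => len x :=
  Comp.comp (g := fun x (_ : Unit) => len x) (f := fun _ (_ : σ) => ()) hl (Comp.const ())

private theorem hl_comp_dg {len : List α → ℕ}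
    (hl : Comp K fun x (_ : Unit) => len x) {pc : List α → σ → ℕ} (hpc : Comp K pc) (h : ℕ) :
    Comp K fun x w => hnDg (len x) (pc x w) h := by
  have h1 : Comp K fun x (_ : σ) => (len x) + 1 := Comp.succ (hl_len hl)
  exact Comp.mod (Comp.div hpc (hn_comp_powc h1 h)) h1

private theorem hl_comp_KI {k : ℕ} {β Γ Q : Type} {len : List α → ℕ}
    (hl : Comp K fun x (_ : Unit) => len x) {pc : List α → σ → ℕ}
    (hpc : Comp K pc) (I : HInstr k β Γ Q) : Comp K fun x w => hnKI (len x) (pc x w) I := by
  cases I with
  | look h f =>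
    exact Comp.ite (CompP.lt (hl_comp_dg hl hpc h.val) (hl_len hl)) (Comp.const 1)
      (Comp.const 0)
  | right h q => exact Comp.const 0
  | left h q q' => exact Comp.const 0
  | push g q => exact Comp.const 2
  | pop f => exact Comp.const 3

private theorem hl_comp_PI {k : ℕ} {β Γ Q : Type} {len : List α → ℕ}
    (hl : Comp K fun x (_ : Unit) => len x) {pc : List α → σ → ℕ}
    (hpc : Comp K pc) (I : HInstr k β Γ Q) : Comp K fun x w => hnPI (len x) (pc x w) I := by
  cases I with
  | look h f => exact hl_comp_dg hl hpc h.val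
  | right h q => exact Comp.const 0
  | left h q q' => exact Comp.const 0
  | push g q => exact Comp.const 0
  | pop f => exact Comp.const 0

private theorem hl_comp_NI {k : ℕ} {β Γ Q : Type} {len : List α → ℕ}
    (hl : Comp K fun x (_ : Unit) => len x) (E : HnNm Q)
    (A : HnNm (Option β)) (G : HnNm (Option Γ)) {pc c : List α → σ → ℕ}
    (hpc : Comp K pc) (hc : Comp K c) (I : HInstr k β Γ Q) :
    Comp K fun x w => hnNI E A G (len x) (pc x w) (c x w) I := by
  have hn : Comp K fun x (_ : σ) => (len x) := hl_len hl
  cases I with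
  | look h f =>
    exact Comp.ite (CompP.lt (hl_comp_dg hl hpc h.val) hn)
      (hn_comp_mkf E A (fun _ => 1) f hpc hc) (hn_comp_mk E 1 (f none) hpc)
  | right h q =>
    exact Comp.ite (CompP.lt (hl_comp_dg hl hpc h.val) hn)
      (hn_comp_mk E 1 q (Comp.add hpc (hn_comp_powc (Comp.succ hn) h.val)))
      (hn_comp_mk E 1 q hpc)
  | left h q q' =>
    exact Comp.ite (CompP.eq (hl_comp_dg hl hpc h.val) (Comp.const 0))
      (hn_comp_mk E 1 q' hpc)
      (hn_comp_mk E 1 q (Comp.sub hpc (hn_comp_powc (Comp.succ hn) h.val)))
  | push g q => exact hn_comp_mk E 1 q hpc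
  | pop f =>
    exact hn_comp_mkf E G (fun o => if o.isSome = true then 1 else 2) f hpc hc

end comp

/-- The numeric program simulates the automaton. -/
private theorem hl_cod {α : Type} (M : HeadPDA α) (E : HnNm M.Q) (A : HnNm (Option α))
    (G : HnNm (Option M.Γ)) (x : List α) :
    Cod (M.prog x.length) ((3 * E.m + 1) * (x.length + 1) ^ M.k) (hnN M E A G x.length) x.get
      (fun i => A.e x[i]?) (hnCd M E x.length) := by
  have hmk : ∀ (t : ℕ) (q : M.Q) (p : Fin M.k → Fin (x.length + 1)), t < 3 →
      hnMk E t q (finFunctionFinEquiv p).val < (3 * E.m + 1) * (x.length + 1) ^ M.k := by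
    intro t q p ht
    have h1 := E.lt q
    have h2 := (finFunctionFinEquiv p).isLt
    rw [hnMk]
    have h3 : 3 * E.m * ((finFunctionFinEquiv p).val + 1) ≤
        3 * E.m * (x.length + 1) ^ M.k := Nat.mul_le_mul_left _ h2
    have h4 : 0 < (x.length + 1) ^ M.k := Nat.pow_pos (Nat.succ_pos _)
    rw [mul_add, mul_one] at h3
    rw [add_mul, one_mul]
    omega
  refine ⟨?_, ?_, ?_, ?_, ?_, ?_, rfl⟩
  · -- bound
    rintro (_ | ⟨q, p⟩ | ⟨q, p⟩ | ⟨q, p⟩)
    · exact Nat.mul_pos (Nat.succ_pos _) (Nat.pow_pos (Nat.succ_pos _))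
    · exact hmk 0 q p (by omega)
    · exact hmk 1 q p (by omega)
    · exact hmk 2 q p (by omega)
  · -- jump
    rintro (_ | ⟨q, p⟩ | ⟨q, p⟩ | ⟨q, p⟩) s' hs
    · cases hs
    · have hs : M.nodeInstr x.length (some (.inl (q, p))) = .jump s' := hs
      change (hnN M E A G x.length).kind (hnMk E 0 q (finFunctionFinEquiv p).val) = 0 ∧
        (hnN M E A G x.length).nx (hnMk E 0 q (finFunctionFinEquiv p).val) 0 = hnCd M E _ s'
      rw [hn_kind M E A G _ (by omega), hn_nx M E A G _ (by omega), if_pos rfl, if_pos rfl]
      rw [HeadPDA.nodeInstr] at hs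
      rcases hq : M.instr q with ⟨h, f⟩ | ⟨h, q'⟩ | ⟨h, q', q''⟩ | ⟨g, q'⟩ | ⟨f⟩
      · simp only [hq] at hs
        by_cases hp : (p h).val < x.length
        · rw [dif_pos hp] at hs
          cases hs
        · rw [dif_neg hp] at hs
          cases hs
          rw [hnKI, hnNI, hn_dg, if_neg hp, if_neg hp]
          exact ⟨rfl, rfl⟩
      · simp only [hq] at hs
        cases hs
        rw [hnKI, hnNI, hn_dg]
        refine ⟨rfl, ?_⟩
        have hu := hn_upd p h ⟨min ((p h).val + 1) x.length, by omega⟩
        change _ = hnMk E 1 q' (finFunctionFinEquiv _).val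
        have hmin : (p h).val < x.length ∧ min ((p h).val + 1) x.length = (p h).val + 1 ∨
            ¬ (p h).val < x.length ∧ min ((p h).val + 1) x.length = (p h).val := by
          have := (p h).isLt
          omega
        obtain ⟨Y, hY⟩ : ∃ Y, Y = (finFunctionFinEquiv (Function.update p h
          ⟨min ((p h).val + 1) x.length, by omega⟩)).val := ⟨_, rfl⟩
        rw [← hY] at hu ⊢
        simp only at hu
        rcases hmin with ⟨h1, h2⟩ | ⟨h1, h2⟩
        · rw [if_pos h1]
          congr 1
          rw [h2, add_mul, one_mul] at hu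
          omega
        · rw [if_neg h1]
          congr 1
          rw [h2] at hu
          omega
      · simp only [hq] at hs
        rw [hnKI, hnNI, hn_dg]
        refine ⟨rfl, ?_⟩
        by_cases hp : (p h).val = 0
        · rw [if_pos hp] at hs ⊢
          cases hs
          rfl
        · rw [if_neg hp] at hs ⊢
          cases hs
          have hu := hn_upd p h ⟨(p h).val - 1, by omega⟩
          change _ = hnMk E 1 q' (finFunctionFinEquiv _).val
          congr 1
          simp only at hu
          obtain ⟨b, hb⟩ : ∃ b, (p h).val = b + 1 := ⟨(p h).val - 1, by omega⟩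
          have h3 : (p h).val * (x.length + 1) ^ h.val =
              ((p h).val - 1) * (x.length + 1) ^ h.val + (x.length + 1) ^ h.val := by
            rw [hb, add_mul, one_mul, Nat.add_sub_cancel]
          omega
      · simp only [hq] at hs
        cases hs
      · simp only [hq] at hs
        cases hs
    · have hs : M.nodeInstr x.length (some (.inr (.inl (q, p)))) = .jump s' := hs
      change (hnN M E A G x.length).kind (hnMk E 1 q (finFunctionFinEquiv p).val) = 0 ∧
        (hnN M E A G x.length).nx (hnMk E 1 q (finFunctionFinEquiv p).val) 0 = hnCd M E _ s'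
      rw [hn_kind M E A G _ (by omega), hn_nx M E A G _ (by omega)]
      rw [HeadPDA.nodeInstr] at hs
      cases hs
      exact ⟨rfl, rfl⟩
    · cases hs
  · -- read
    rintro (_ | ⟨q, p⟩ | ⟨q, p⟩ | ⟨q, p⟩) i f hs
    · cases hs
    · have hs : M.nodeInstr x.length (some (.inl (q, p))) = .read i f := hs
      change (hnN M E A G x.length).kind (hnMk E 0 q (finFunctionFinEquiv p).val) = 1 ∧
        (hnN M E A G x.length).nx (hnMk E 0 q (finFunctionFinEquiv p).val)
          (A.e x[(hnN M E A G x.length).pos (hnMk E 0 q (finFunctionFinEquiv p).val)]?) =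
          hnCd M E _ (f (x.get i))
      rw [hn_kind M E A G _ (by omega), hn_nx M E A G _ (by omega),
        hn_pos M E A G _ (by omega), if_pos rfl, if_pos rfl, if_pos rfl]
      rw [HeadPDA.nodeInstr] at hs
      rcases hq : M.instr q with ⟨h, f'⟩ | ⟨h, q'⟩ | ⟨h, q', q''⟩ | ⟨g, q'⟩ | ⟨f'⟩
      · simp only [hq] at hs
        by_cases hp : (p h).val < x.length
        · rw [dif_pos hp] at hs
          cases hs
          rw [hnPI, hnKI, hnNI, hn_dg, if_pos hp, if_pos hp, A.de, List.getElem?_eq_getElem hp]
          exact ⟨rfl, rfl⟩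
        · rw [dif_neg hp] at hs
          cases hs
      · simp only [hq] at hs
        cases hs
      · simp only [hq] at hs
        split_ifs at hs
      · simp only [hq] at hs
        cases hs
      · simp only [hq] at hs
        cases hs
    · cases hs
    · cases hs
  · -- push
    rintro (_ | ⟨q, p⟩ | ⟨q, p⟩ | ⟨q, p⟩) g s' hs
    · have hs : M.nodeInstr x.length none = .push g s' := hs
      rw [HeadPDA.nodeInstr] at hs
      cases hs
      refine ⟨rfl, ?_⟩
      change hnMk E 0 M.start 0 = hnMk E 0 M.start (finFunctionFinEquiv _).val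
      congr 1
      rw [finFunctionFinEquiv_apply]
      simp
    · have hs : M.nodeInstr x.length (some (.inl (q, p))) = .push g s' := hs
      change (hnN M E A G x.length).kind (hnMk E 0 q (finFunctionFinEquiv p).val) = 2 ∧
        (hnN M E A G x.length).nx (hnMk E 0 q (finFunctionFinEquiv p).val) 0 = hnCd M E _ s'
      rw [hn_kind M E A G _ (by omega), hn_nx M E A G _ (by omega), if_pos rfl, if_pos rfl]
      rw [HeadPDA.nodeInstr] at hs
      rcases hq : M.instr q with ⟨h, f⟩ | ⟨h, q'⟩ | ⟨h, q', q''⟩ | ⟨g, q'⟩ | ⟨f⟩
      · simp only [hq] at hs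
        split_ifs at hs
      · simp only [hq] at hs
        cases hs
      · simp only [hq] at hs
        split_ifs at hs
      · simp only [hq] at hs
        cases hs
        exact ⟨rfl, rfl⟩
      · simp only [hq] at hs
        cases hs
    · cases hs
    · have hs : M.nodeInstr x.length (some (.inr (.inr (q, p)))) = .push g s' := hs
      change (hnN M E A G x.length).kind (hnMk E 2 q (finFunctionFinEquiv p).val) = 2 ∧
        (hnN M E A G x.length).nx (hnMk E 2 q (finFunctionFinEquiv p).val) 0 = hnCd M E _ s'
      rw [hn_kind M E A G _ (by omega), hn_nx M E A G _ (by omega)]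
      rw [HeadPDA.nodeInstr] at hs
      cases hs
      exact ⟨rfl, rfl⟩
  · -- pop
    have hsym : ∀ (c : M.Node x.length) (g : Option M.Γ) (s' : M.Node x.length),
        M.nodeInstr x.length c = .push g s' →
        (hnN M E A G x.length).sym (hnCd M E x.length c) = G.e g := by
      rintro (_ | ⟨q, p⟩ | ⟨q, p⟩ | ⟨q, p⟩) g s' hs
      · rw [HeadPDA.nodeInstr] at hs
        cases hs
        rfl
      · change (hnN M E A G x.length).sym (hnMk E 0 q (finFunctionFinEquiv p).val) = _
        rw [hn_sym M E A G _ (by omega), if_pos rfl]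
        rw [HeadPDA.nodeInstr] at hs
        rcases hq : M.instr q with ⟨h, f⟩ | ⟨h, q'⟩ | ⟨h, q', q''⟩ | ⟨g, q'⟩ | ⟨f⟩
        · simp only [hq] at hs
          split_ifs at hs
        · simp only [hq] at hs
          cases hs
        · simp only [hq] at hs
          split_ifs at hs
        · simp only [hq] at hs
          cases hs
          rfl
        · simp only [hq] at hs
          cases hs
      · rw [HeadPDA.nodeInstr] at hs
        cases hs
      · change (hnN M E A G x.length).sym (hnMk E 2 q (finFunctionFinEquiv p).val) = _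
        rw [hn_sym M E A G _ (by omega)]
        rw [HeadPDA.nodeInstr] at hs
        cases hs
        rfl
    rintro (_ | ⟨q, p⟩ | ⟨q, p⟩ | ⟨q, p⟩) f hs
    · cases hs
    · have hs : M.nodeInstr x.length (some (.inl (q, p))) = .pop f := hs
      have hk : (hnN M E A G x.length).kind (hnCd M E x.length (some (.inl (q, p)))) =
          hnKI x.length (finFunctionFinEquiv p).val (M.instr q) := by
        change (hnN M E A G x.length).kind (hnMk E 0 q (finFunctionFinEquiv p).val) = _
        rw [hn_kind M E A G _ (by omega), if_pos rfl]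
      have hx : ∀ c, (hnN M E A G x.length).nx (hnCd M E x.length (some (.inl (q, p)))) c =
          hnNI E A G x.length (finFunctionFinEquiv p).val c (M.instr q) := by
        intro c
        change (hnN M E A G x.length).nx (hnMk E 0 q (finFunctionFinEquiv p).val) c = _
        rw [hn_nx M E A G _ (by omega), if_pos rfl]
      rw [HeadPDA.nodeInstr] at hs
      rcases hq : M.instr q with ⟨h, f'⟩ | ⟨h, q'⟩ | ⟨h, q', q''⟩ | ⟨g, q'⟩ | ⟨f'⟩
      · simp only [hq] at hs
        split_ifs at hs
      · simp only [hq] at hs
        cases hs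
      · simp only [hq] at hs
        split_ifs at hs
      · simp only [hq] at hs
        cases hs
      · simp only [hq] at hs
        cases hs
        rw [hq] at hk hx
        refine ⟨hk, fun c g s' hc => ?_⟩
        have h1 := (hx (G.e g))
        rw [hnNI, G.de] at h1
        have h2 : (hnN M E A G x.length).sym (hnCd M E x.length c) = G.e g := hsym c g s' hc
        change (hnN M E A G x.length).nx _ ((hnN M E A G x.length).sym (hnCd M E x.length c)) = _
        rw [h2, h1]
        rcases g with _ | g
        · rfl
        · rfl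
    · cases hs
    · cases hs
  · -- acc
    rintro (_ | ⟨q, p⟩ | ⟨q, p⟩ | ⟨q, p⟩)
    · exact iff_of_false (show ¬ (0 : ℕ) = 1 by decide) (show ¬ false = true by decide)
    · change (hnN M E A G x.length).acc (hnMk E 0 q (finFunctionFinEquiv p).val) = 1 ↔
        M.acc q = true
      rw [hn_acc M E A G _ (by omega), if_pos rfl]
      by_cases h : M.acc q = true
      · rw [if_pos h]
        exact iff_of_true rfl h
      · rw [if_neg h]
        exact iff_of_false (by decide) h
    · change (hnN M E A G x.length).acc (hnMk E 1 q (finFunctionFinEquiv p).val) = 1 ↔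
        false = true
      rw [hn_acc M E A G _ (by omega), if_neg (by decide)]
      exact iff_of_false (by decide) (by decide)
    · change (hnN M E A G x.length).acc (hnMk E 2 q (finFunctionFinEquiv p).val) = 1 ↔
        false = true
      rw [hn_acc M E A G _ (by omega), if_neg (by decide)]
      exact iff_of_false (by decide) (by decide)

/-- The numeric programs of a multi-head pushdown automaton, one for each length of the input, and
their computability. -/
theorem headN_gen {β : Type} [Finite β] (M : HeadPDA β) :
    ∃ (N : ℕ → NP) (cd : ∀ n, (M.prog n).S → ℕ) (la : Option β → ℕ) (a : ℕ), 1 ≤ a ∧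
      (∀ y : List β, Cod (M.prog y.length) (a * (y.length + 1) ^ M.k) (N y.length) y.get
        (fun i => la y[i]?) (cd y.length)) ∧
      ∀ (α : Type) (K : List α → ℕ) (len : List α → ℕ),
        Comp K (fun x (_ : Unit) => len x) →
        Comp K (fun x (v : ℕ) => (N (len x)).kind v) ∧
        Comp K (fun x (v : ℕ) => (N (len x)).pos v) ∧
        Comp K (fun x (v : ℕ) => (N (len x)).sym v) ∧
        Comp K (fun x (v : ℕ × ℕ) => (N (len x)).nx v.1 v.2) ∧
        Comp K (fun x (v : ℕ) => (N (len x)).acc v) ∧
        Comp K (fun x (_ : Unit) => (N (len x)).start) := by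
  obtain ⟨E⟩ := hn_exists M.Q M.start
  obtain ⟨A⟩ := hn_exists (Option β) none
  obtain ⟨G⟩ := hn_exists (Option M.Γ) none
  have hEm : 0 < E.m := lt_of_le_of_lt (Nat.zero_le _) (E.lt M.start)
  refine ⟨fun n => hnN M E A G n, fun n => hnCd M E n, A.e, 3 * E.m + 1, by omega, ?_, ?_⟩
  · exact hl_cod M E A G
  · intro α K len hl
    have hsw : ∀ {σ : Type} [Tup σ] (v s : List α → σ → ℕ) (F : M.Q → ℕ → List α → σ → ℕ),
        Comp K v → Comp K s → (∀ q t, Comp K (F q t)) →
        Comp K fun x w => hnSw M E (v x w) (s x w) fun q t => F q t x w := by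
      intro σ _ v s F hv hs hF
      have hfa : Comp K fun x w => hnFa M E (v x w) :=
        Comp.mod (Comp.pred hv) (Comp.const (3 * E.m))
      have h1 : Comp K fun x w => F (E.d (hnFa M E (v x w) / 3)) (hnFa M E (v x w) % 3) x w := by
        refine (Comp.cases (F := fun a => F (E.d (a / 3)) (a % 3)) (3 * E.m)
          (fun a _ => hF _ _) (Comp.const 0) hfa).of_eq fun x w => ?_
        exact if_pos (Nat.mod_lt _ (by omega))
      exact Comp.ite (CompP.eq hv (Comp.const 0)) hs h1
    have hpc : ∀ {σ : Type} [Tup σ] (v : List α → σ → ℕ), Comp K v →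
        Comp K fun x w => hnPc M E (v x w) := by
      intro σ _ v hv
      exact Comp.div (Comp.pred hv) (Comp.const (3 * E.m))
    have hid : Comp K fun (_ : List α) (v : ℕ) => v := Comp.id
    refine ⟨?_, ?_, ?_, ?_, ?_, ?_⟩
    · refine hsw (fun _ v => v) (fun _ _ => 2) (fun q t x v => if t = 0 then
        hnKI (len x) (hnPc M E v) (M.instr q) else if t = 1 then 0 else 2) hid
        (Comp.const 2) fun q t => ?_
      by_cases h0 : t = 0
      · exact (hl_comp_KI hl (hpc _ hid) (M.instr q)).of_eq fun x w => by rw [if_pos h0]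
      · exact (Comp.const (if t = 1 then 0 else 2)).of_eq fun x w => by rw [if_neg h0]
    · refine hsw (fun _ v => v) (fun _ _ => 0) (fun q t x v => if t = 0 then
        hnPI (len x) (hnPc M E v) (M.instr q) else 0) hid
        (Comp.const 0) fun q t => ?_
      by_cases h0 : t = 0
      · exact (hl_comp_PI hl (hpc _ hid) (M.instr q)).of_eq fun x w => by rw [if_pos h0]
      · exact (Comp.const 0).of_eq fun x w => by rw [if_neg h0]
    · exact hsw (fun _ v => v) (fun _ _ => G.e none) (fun q t _ _ => if t = 0 then
        hnSI G (M.instr q) else G.e none) hid (Comp.const _) fun q t => Comp.const _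
    · refine hsw (fun _ (v : ℕ × ℕ) => v.1) (fun _ _ => hnMk E 0 M.start 0)
        (fun q t x (v : ℕ × ℕ) => if t = 0 then
        hnNI E A G (len x) (hnPc M E v.1) v.2 (M.instr q) else hnMk E 0 q (hnPc M E v.1))
        (Comp.fst Comp.id) (Comp.const _) fun q t => ?_
      by_cases h0 : t = 0
      · exact (hl_comp_NI hl E A G (hpc _ (Comp.fst Comp.id)) (Comp.snd Comp.id)
          (M.instr q)).of_eq fun x w => by rw [if_pos h0]
      · exact (hn_comp_mk E 0 q (hpc _ (Comp.fst Comp.id))).of_eq fun x w => by rw [if_neg h0]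
    · exact hsw (fun _ v => v) (fun _ _ => 0) (fun q t _ _ => if t = 0 then
        (if M.acc q = true then 1 else 0) else 0) hid (Comp.const _) fun q t => Comp.const _
    · exact Comp.const 0

end DU

end Pool.Agent.MP_6216ea_lc
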