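import Pool.Agent.Lib.MP_6216ea_lc.DUPar

/-! The parameters of the uniform algorithm for a computed input. -/

set_option autoImplicit false

namespace Pool.Agent.MP_6216ea_lc

namespace DU

open SP

/-- The parameters are computable. -/
theorem PP_gen {α : Type} (a k m c : ℕ) (ha : 1 ≤ a) (hc : ∀ n,
    n < KK c n ∧ (PP a k m n).C ≤ KK c n ∧
    2 ^ (MM (PP a k m n) * (PP a k m n).D) ≤ KK c n ∧
    zzN (PP a k m n) ^ (PP a k m n).g ≤ KK c n ∧ zzN (PP a k m n) ≤ KK c n ∧
    (PP a k m n).T ≤ KK c n ∧ (PP a k m n).p ≤ KK c n ∧ (PP a k m n).D ≤ KK c n ∧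
    (PP a k m n).b ≤ KK c n ∧ (PP a k m n).g ≤ KK c n) (K len : List α → ℕ)
    (hK : ∀ x, KK c (len x) ≤ K x) (cn : Comp K fun x (_ : Unit) => len x) :
    PmC K (fun x => PP a k m (len x)) := by
  have cl : Comp K fun x (_ : Unit) => lP (len x) :=
    Comp.succ (Comp.succ (Comp.log (Comp.const 2) cn))
  have cb : Comp K fun x (_ : Unit) => bP (len x) :=
    Comp.succ (Comp.div (Comp.log (Comp.const 2) cl) (Comp.const 8))
  have cg : Comp K fun x (_ : Unit) => gP m (len x) :=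
    Comp.succ (Comp.div (Comp.mul (Comp.const m) cl) cb)
  have cD : Comp K fun x (_ : Unit) => DP a k m (len x) :=
    Comp.mul (Comp.const (2 * (a + k + m) + 8)) cl
  have bM : Bd K fun x (_ : Unit) => Mc (bP (len x)) := by
    refine Bd.mono (F := fun x _ => K x) Bd.scale fun x _ => ?_
    refine le_trans ?_ (hK x)
    refine le_trans ?_ (hc (len x)).2.2.1
    have h1 : Mc (bP (len x)) < 2 ^ Mc (bP (len x)) := Nat.lt_two_pow_self
    refine h1.le.trans (Nat.pow_le_pow_right (by norm_num) ?_)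
    refine Nat.le_mul_of_pos_right _ ?_
    change 0 < (2 * (a + k + m) + 8) * lP (len x)
    have := lP_ge (len x)
    exact Nat.mul_pos (by omega) (by omega)
  have cM : Comp K fun x (_ : Unit) => Mc (bP (len x)) := by
    refine (Comp.itr_nat (h := fun _ _ _ v => 6 * (v + 1)) (g := fun _ _ => 1)
      (Comp.mul (Comp.const 6) (Comp.succ Comp.id.snd.snd)) (Comp.const 1) cb bM
      fun x w i hi => ?_).of_eq fun x w => Mc_itr _
    rw [Mc_itr]
    exact Mc_mono hi
  have cp : Comp K fun x (_ : Unit) => prP a k m (len x) :=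
    Comp.nextPrime (Comp.succ (Comp.mul cM cD))
  have ck : ∀ i : ℕ, Comp K fun x (_ : Unit) => ((len x) + 1) ^ i := by
    intro i
    induction i with
    | zero => exact (Comp.const 1).of_eq fun x w => (pow_zero _).symm
    | succ i ih => exact (Comp.mul ih cn.succ).of_eq fun x w => (pow_succ _ _).symm
  refine
    { p := cp
      D := cD
      b := cb
      g := cg
      NS := Comp.mul (Comp.const a) (ck k)
      T := ?_
      C := ?_
      p_pos := fun x => (PP_prime a k m (len x)).two_le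
      NS_pos := fun x => Nat.mul_pos ha (Nat.pow_pos (Nat.succ_pos _))
      b_pos := fun x => (lb_aux (len x)).2.2.2.1
      zz := ?_
      zz1 := ?_
      MD := ?_ }
  · refine Comp.pow (Comp.const 2) (Comp.mul cb cg) ?_
    refine Bd.mono (F := fun x _ => K x) Bd.scale fun x _ => ?_
    refine le_trans ?_ (hK x)
    exact (hc (len x)).2.2.2.2.2.1
  · refine Comp.pow cp (Comp.mul cM.succ cD) ?_
    refine Bd.mono (F := fun x _ => K x) Bd.scale fun x _ => ?_
    refine le_trans ?_ (hK x)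
    exact (hc (len x)).2.1
  · refine Bd.mono (F := fun x _ => K x) Bd.scale fun x _ => ?_
    refine le_trans ?_ (hK x)
    exact (hc (len x)).2.2.2.1
  · refine Bd.mono (F := fun x _ => K x) Bd.scale fun x _ => ?_
    refine le_trans ?_ (hK x)
    exact (hc (len x)).2.2.2.2.1
  · refine Bd.mono (F := fun x _ => K x) Bd.scale fun x _ => ?_
    refine le_trans ?_ (hK x)
    exact (hc (len x)).2.2.1

theorem add_two_le (n : ℕ) : n + 2 ≤ 2 ^ lP n := by
  have h := Nat.lt_pow_succ_log_self (b := 2) (by norm_num) n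
  have h1 : 2 ^ lP n = 2 ^ (Nat.log 2 n).succ * 2 := by
    rw [← pow_succ]
    rfl
  have h2 : 2 ≤ 2 ^ (Nat.log 2 n).succ := Nat.le_self_pow (by omega) 2
  rw [Nat.succ_eq_add_one] at *
  omega

/-- The scale for words of polynomial length. -/
theorem KK_len (c k : ℕ) : ∃ c', 1 ≤ c' ∧ ∀ n m : ℕ, m < (n + 2) ^ k → KK c m ≤ KK c' n := by
  refine ⟨2 * c * (k + 1) ^ 2 + c + 1, by omega, fun n m hm => ?_⟩
  have hl := lP_ge n
  have hel : Nat.log 2 (lP n) + 1 ≤ lP n := (lb_aux n).2.1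
  have ht : lP m ≤ (k + 1) * lP n := by
    have h1 : m < 2 ^ (lP n * k) := by
      rw [pow_mul]
      exact hm.trans_le (Nat.pow_le_pow_left (add_two_le n) _)
    have h2 : Nat.log 2 m ≤ lP n * k := by
      rcases Nat.eq_zero_or_pos m with h0 | h0
      · subst h0
        simp
      · exact (Nat.log_lt_of_lt_pow (by omega) h1).le
    have h3 : (k + 1) * lP n = lP n * k + lP n := by ring
    rw [h3]
    change Nat.log 2 m + 2 ≤ _
    omega
  obtain ⟨t, htd⟩ : ∃ t, t = lP m := ⟨_, rfl⟩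
  obtain ⟨u, hud⟩ : ∃ u, u = lP n := ⟨_, rfl⟩
  obtain ⟨E, hE⟩ : ∃ E, E = c * t ^ 2 / (Nat.log 2 t + 1) := ⟨_, rfl⟩
  have hKm : KK c m = 2 ^ E := by
    rw [hE, htd]
    rfl
  refine le_KK (E := E) hKm.le ?_
  rw [← hud] at hl hel ht ⊢
  rw [← htd] at ht
  have hE1 : E * (Nat.log 2 t + 1) ≤ c * t ^ 2 := by
    rw [hE]
    exact Nat.div_mul_le_self _ _
  have ht2 : t ^ 2 ≤ (k + 1) ^ 2 * u ^ 2 := by
    rw [← mul_pow]
    exact Nat.pow_le_pow_left ht 2
  rcases Nat.lt_or_ge (t ^ 2) u with h | h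
  · have hE2 : E ≤ c * t ^ 2 := by
      rw [hE]
      exact Nat.div_le_self _ _
    calc E * (Nat.log 2 u + 1) ≤ (c * u) * u :=
          Nat.mul_le_mul (hE2.trans (Nat.mul_le_mul_left _ h.le)) hel
      _ = c * u ^ 2 := by ring
      _ ≤ (2 * c * (k + 1) ^ 2 + c + 1) * u ^ 2 := Nat.mul_le_mul_right _ (by omega)
  · have hlog : Nat.log 2 u + 1 ≤ 2 * (Nat.log 2 t + 1) := by
      have h1 : t ^ 2 < 2 ^ (2 * (Nat.log 2 t + 1)) := by
        rw [Nat.mul_comm, pow_mul]
        exact Nat.pow_lt_pow_left (Nat.lt_pow_succ_log_self (by norm_num) t) (by norm_num)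
      have h2 : Nat.log 2 u < 2 * (Nat.log 2 t + 1) :=
        Nat.log_lt_of_lt_pow (by omega) (h.trans_lt h1)
      omega
    calc E * (Nat.log 2 u + 1) ≤ E * (2 * (Nat.log 2 t + 1)) := Nat.mul_le_mul_left _ hlog
      _ = 2 * (E * (Nat.log 2 t + 1)) := by ring
      _ ≤ 2 * (c * t ^ 2) := Nat.mul_le_mul_left _ hE1
      _ ≤ 2 * (c * ((k + 1) ^ 2 * u ^ 2)) :=
          Nat.mul_le_mul_left _ (Nat.mul_le_mul_left _ ht2)
      _ = 2 * c * (k + 1) ^ 2 * u ^ 2 := by ring
      _ ≤ (2 * c * (k + 1) ^ 2 + c + 1) * u ^ 2 := Nat.mul_le_mul_right _ (by omega)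

end DU

end Pool.Agent.MP_6216ea_lc
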