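import Pool.Agent.Lib.MP_6216ea_lc.DLDefs
import Pool.Agent.Lib.MP_6216ea_lc.SP.Arith

/-! Functions computable in logarithmic space, in the calculus of computable functions. -/

set_option autoImplicit false

namespace Pool.Agent.MP_6216ea_lc

namespace SP

open Function

/-- The program with all variables renamed from `v` to `v + o`. -/
def dlRen {α : Type} (o : ℕ) : Cmd α → Cmd α
  | .skip => .skip
  | .inc v => .inc (v + o)
  | .dec v => .dec (v + o)
  | .read v w f => .read (v + o) (w + o) f
  | .seq c d => .seq (dlRen o c) (dlRen o d)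
  | .ite v c d => .ite (v + o) (dlRen o c) (dlRen o d)
  | .loop v c => .loop (v + o) (dlRen o c)

/-- All variables of the program are smaller. -/
def dlUsed {α : Type} : Cmd α → ℕ
  | .skip => 0
  | .inc v => v + 1
  | .dec v => v + 1
  | .read v w _ => max (v + 1) (w + 1)
  | .seq c d => max (dlUsed c) (dlUsed d)
  | .ite v c d => max (v + 1) (max (dlUsed c) (dlUsed d))
  | .loop v c => max (v + 1) (dlUsed c)

/-- The values `s'` below `o`, and the values `s` shifted by `o` above. -/
def dlEmb (s' : ℕ → ℕ) (o : ℕ) (s : ℕ → ℕ) : ℕ → ℕ := fun v => if v < o then s' v else s (v - o)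

theorem dlEmb_add (s' : ℕ → ℕ) (o : ℕ) (s : ℕ → ℕ) (v : ℕ) : dlEmb s' o s (v + o) = s v := by
  rw [dlEmb, if_neg (by omega), Nat.add_sub_cancel]

theorem dlEmb_update (s' : ℕ → ℕ) (o : ℕ) (s : ℕ → ℕ) (v a : ℕ) :
    update (dlEmb s' o s) (v + o) a = dlEmb s' o (update s v a) := by
  funext w
  by_cases hw : w = v + o
  · rw [hw, update_self, dlEmb_add, update_self]
  · rw [update_of_ne hw, dlEmb, dlEmb]
    by_cases h : w < o
    · rw [if_pos h, if_pos h]
    · rw [if_neg h, if_neg h, update_of_ne (by omega)]

theorem run_dlRen {α : Type} {x : List α} {B : ℕ} (s' : ℕ → ℕ) (o : ℕ) {c : Cmd α} {s t : ℕ → ℕ}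
    (h : Run x B c s t) : Run x B (dlRen o c) (dlEmb s' o s) (dlEmb s' o t) := by
  induction h with
  | skip s => exact .skip _
  | inc v s h =>
    rw [← dlEmb_update, ← dlEmb_add s' o s v]
    exact .inc _ _ (by rw [dlEmb_add]; exact h)
  | dec v s =>
    rw [← dlEmb_update, ← dlEmb_add s' o s v]
    exact .dec _ _
  | read v w f s h =>
    rw [← dlEmb_update, ← dlEmb_add s' o s w]
    exact .read _ _ _ _ (by rw [dlEmb_add]; exact h)
  | seq _ _ ih₁ ih₂ => exact .seq ih₁ ih₂
  | iteZero h _ ih => exact .iteZero (by rw [dlEmb_add]; exact h) ih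
  | itePos h _ ih => exact .itePos (by rw [dlEmb_add]; exact h) ih
  | loopDone h => exact .loopDone (by rw [dlEmb_add]; exact h)
  | loopStep h _ _ ih₁ ih₂ => exact .loopStep (by rw [dlEmb_add]; exact h) ih₁ ih₂

/-- Variables which do not occur are not changed. -/
theorem run_dlUsed {α : Type} {x : List α} {B : ℕ} {c : Cmd α} {s t : ℕ → ℕ}
    (h : Run x B c s t) : ∀ v, dlUsed c ≤ v → t v = s v := by
  induction h with
  | skip s => intro v _; rfl
  | inc u s h =>
    intro v hv
    rw [dlUsed] at hv
    rw [update_of_ne (by omega)]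
  | dec u s =>
    intro v hv
    rw [dlUsed] at hv
    rw [update_of_ne (by omega)]
  | read u w f s h =>
    intro v hv
    rw [dlUsed] at hv
    rw [update_of_ne (by omega)]
  | seq _ _ ih₁ ih₂ =>
    intro v hv
    rw [dlUsed] at hv
    rw [ih₂ v (by omega), ih₁ v (by omega)]
  | iteZero h _ ih =>
    intro v hv
    rw [dlUsed] at hv
    exact ih v (by omega)
  | itePos h _ ih =>
    intro v hv
    rw [dlUsed] at hv
    exact ih v (by omega)
  | loopDone h => intro v _; rfl
  | loopStep h _ _ ih₁ ih₂ =>
    intro v hv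
    rw [ih₂ v hv]
    rw [dlUsed] at hv
    exact ih₁ v (by omega)

/-- All values remain smaller than the bound. -/
theorem dlRun_lt {α : Type} {x : List α} {B : ℕ} {c : Cmd α} {s t : ℕ → ℕ}
    (h : Run x B c s t) : (∀ v, s v < B) → ∀ v, t v < B := by
  have key : ∀ (s : ℕ → ℕ) (u a : ℕ), (∀ v, s v < B) → a < B → ∀ v, update s u a v < B := by
    intro s u a hs ha v
    by_cases hv : v = u
    · rw [hv, update_self]
      exact ha
    · rw [update_of_ne hv]
      exact hs v
  induction h with
  | skip s => exact fun hs => hs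
  | inc u s h => exact fun hs => key s u _ hs h
  | dec u s =>
    intro hs
    have h1 := hs u
    exact key s u _ hs (by omega)
  | read u w f s h => exact fun hs => key s u _ hs h
  | seq _ _ ih₁ ih₂ => exact fun hs => ih₂ (ih₁ hs)
  | iteZero h _ ih => exact ih
  | itePos h _ ih => exact ih
  | loopDone h => exact fun hs => hs
  | loopStep h _ _ ih₁ ih₂ => exact fun hs => ih₂ (ih₁ hs)

/-- A program dlUsed as a subroutine. -/
theorem comp_of_run {α : Type} {K : List α → ℕ} {f : List α → ℕ → ℕ} (c : Cmd α)
    {b L : List α → ℕ} (hb : Bd K fun x (_ : Unit) => b x)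
    (hL : Comp K fun x (_ : Unit) => L x)
    (h : ∀ x, ∀ i ≤ L x, i < b x ∧
      ∃ t : ℕ → ℕ, Run x (b x) c (update (fun _ => 0) 1 i) t ∧ t 0 = f x i) :
    Comp K fun x (v : ℕ) => f x (min v (L x)) := by
  have hM : Comp K fun x (v : ℕ) => min v (L x) :=
    Comp.min Comp.id (hL.comp (Comp.const ()))
  rw [Comp.nat] at hM ⊢
  obtain ⟨eM, bM, pM⟩ := hM
  obtain ⟨eb, hb⟩ := hb
  have hbB : ∀ (x : List α) (B : ℕ), 2 ≤ B → K x < B → b x < B ^ eb := fun x B hB hx =>
    hb x B () hB hx (fun j => j.elim0)
  have hfb : ∀ (x : List α) (i : ℕ), i ≤ L x → f x i < b x := by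
    intro x i hi
    obtain ⟨h1, t, h2, h3⟩ := h x i hi
    rw [← h3]
    refine dlRun_lt h2 (fun v => ?_) 0
    by_cases hv : v = 1
    · rw [hv, update_self]
      exact h1
    · rw [update_of_ne hv]
      omega
  refine ⟨eM + eb, fun x B v hB hx hv => ?_, fun a r N ha hr har => ?_⟩
  · change f x (min (v 0) (L x)) < _
    have h1 := hfb x (min (v 0) (L x)) (min_le_right _ _)
    have h2 := hbB x B hB hx
    have h3 : B ^ eb ≤ B ^ (eM + eb) := Nat.pow_le_pow_right (by omega) (by omega)
    omega
  · obtain ⟨cM, hcM⟩ := pM a N (N + 1) (fun i => by have := ha i; omega) (by omega)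
      (fun i => by have := ha i; omega)
    refine ⟨.seq cM (.seq (move N (N + 2)) (.seq (dlRen (N + 1) c) (.seq (move (N + 1) r)
      (clearAll (max (dlUsed c) 2) (N + 1))))), fun x B s hB hx hs hr0 hN => ?_⟩
    have hEM : B ^ eM ≤ B ^ (eM + eb) := Nat.pow_le_pow_right (by omega) (by omega)
    have hEb : B ^ eb ≤ B ^ (eM + eb) := Nat.pow_le_pow_right (by omega) (by omega)
    have hbx := hbB x B hB hx
    obtain ⟨m, hm⟩ : ∃ m, m = min (s (a 0)) (L x) := ⟨_, rfl⟩
    have hmL : m ≤ L x := by rw [hm]; exact min_le_right _ _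
    have hmM : m < B ^ eM := by
      rw [hm]
      exact bM x B (fun _ => s (a 0)) hB hx (fun _ => hs 0)
    have h1 : Run x (B ^ (eM + eb)) cM s (update s N m) := by
      have h2 := hcM x B s hB hx hs (hN N le_rfl) (fun v hv => hN v (by omega))
      rw [hm]
      exact Run.mono hEM h2
    obtain ⟨hmb, t, ht, ht0⟩ := h x m hmL
    have hs2 : update (update (update s N m) N 0) (N + 2)
        (update s N m (N + 2) + update s N m N) =
        dlEmb s (N + 1) (update (fun _ => 0) 1 m) := by
      funext w
      rw [update_of_ne (show N + 2 ≠ N by omega), update_self, hN (N + 2) (by omega), zero_add]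
      by_cases hw : w = N + 2
      · rw [hw, update_self, dlEmb, if_neg (by omega), show N + 2 - (N + 1) = 1 by omega, update_self]
      · rw [update_of_ne hw, update_idem, dlEmb]
        by_cases hw2 : w < N + 1
        · rw [if_pos hw2]
          by_cases hw3 : w = N
          · rw [hw3, update_self, hN N le_rfl]
          · rw [update_of_ne hw3]
        · rw [if_neg hw2, update_of_ne (by omega), update_of_ne (by omega), hN w (by omega)]
    have h2 : Run x (B ^ (eM + eb)) (move N (N + 2)) (update s N m)
        (dlEmb s (N + 1) (update (fun _ => 0) 1 m)) := by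
      refine run_of_eq (run_move (by omega) _ ?_) hs2
      rw [update_self, update_of_ne (by omega), hN (N + 2) (by omega)]
      omega
    have h3 : Run x (B ^ (eM + eb)) (dlRen (N + 1) c) (dlEmb s (N + 1) (update (fun _ => 0) 1 m))
        (dlEmb s (N + 1) t) := Run.mono (by omega) (run_dlRen s (N + 1) ht)
    have ht0' : dlEmb s (N + 1) t (N + 1) = f x m := by
      rw [dlEmb, if_neg (by omega), Nat.sub_self, ht0]
    have hr' : dlEmb s (N + 1) t r = 0 := by
      rw [dlEmb, if_pos (by omega), hr0]
    have h4 : Run x (B ^ (eM + eb)) (move (N + 1) r) (dlEmb s (N + 1) t)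
        (update (update (dlEmb s (N + 1) t) (N + 1) 0) r (f x m)) := by
      refine run_of_eq (run_move (by omega) _ ?_) ?_
      · rw [ht0', hr']
        have := hfb x m hmL
        omega
      · rw [ht0', hr', zero_add]
    refine .seq h1 (.seq h2 (.seq h3 (.seq h4 (run_of_eq (run_clearAll _ _ _) ?_))))
    change _ = update s r (f x (min (s (a 0)) (L x)))
    rw [← hm]
    funext w
    by_cases hw : w < N + 1
    · rw [blk_of_lt _ _ _ hw]
      by_cases hwr : w = r
      · rw [hwr, update_self, update_self]
      · rw [update_of_ne hwr, update_of_ne hwr, update_of_ne (by omega), dlEmb, if_pos hw]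
    · rw [update_of_ne (show w ≠ r by omega)]
      by_cases hw2 : N + 1 + max (dlUsed c) 2 ≤ w
      · rw [blk_of_ge _ _ _ hw2, update_of_ne (show w ≠ r by omega), update_of_ne (by omega), dlEmb,
          if_neg hw, run_dlUsed ht _ (by omega), update_of_ne (by omega), hN w (by omega)]
      · rw [blk, dif_pos (by omega), hN w (by omega)]

/-- The letters and the length of `f x`. -/
theorem logSpace_comp {α β : Type} [Finite β] {K : List α → ℕ} (hK : ∀ x, x.length ≤ K x)
    {f : List α → List β} (hf : LogSpace f) (la : Option β → ℕ) :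
    Comp K (fun x (v : ℕ) => la (f x)[v]?) ∧ Comp K fun x (_ : Unit) => (f x).length := by
  classical
  obtain ⟨c, code, k, hinj, hrun⟩ := hf
  have hlen : Comp K fun x (_ : Unit) => x.length := Comp.length hK
  have hbd : Bd K fun x (_ : Unit) => (x.length + 2) ^ k := by
    refine ⟨2 * k + 1, fun x B w hB hx _ => ?_⟩
    have h1 := hK x
    have h2 : x.length + 2 ≤ B ^ 2 := by nlinarith
    calc (x.length + 2) ^ k ≤ (B ^ 2) ^ k := Nat.pow_le_pow_left h2 k
      _ = B ^ (2 * k) := (pow_mul _ _ _).symm
      _ < B ^ (2 * k + 1) := Nat.pow_lt_pow_right (by omega) (by omega)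
  have hpow : Comp K fun x (_ : Unit) => (x.length + 2) ^ k :=
    Comp.pow (Comp.add hlen (Comp.const 2)) (Comp.const k) hbd
  have hL : Comp K fun x (_ : Unit) => (x.length + 2) ^ k - 1 := Comp.sub hpow (Comp.const 1)
  have hpos : ∀ x : List α, 0 < (x.length + 2) ^ k := fun x => pow_pos (by omega) k
  have h0 := comp_of_run (f := fun x i => code (f x)[i]?) c (b := fun x => (x.length + 2) ^ k)
    (L := fun x => (x.length + 2) ^ k - 1) hbd hL (fun x i hi => by
      have hi' : i < (x.length + 2) ^ k := by
        have := hpos x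
        change i ≤ (x.length + 2) ^ k - 1 at hi
        omega
      exact ⟨hi', (hrun x).2 i hi'⟩)
  have hcode : Comp K fun x (v : ℕ) => code (f x)[v]? := by
    refine h0.of_eq fun x v => ?_
    have h1 := (hrun x).1
    have h2 := hpos x
    change code (f x)[min v ((x.length + 2) ^ k - 1)]? = code (f x)[v]?
    rcases le_total v ((x.length + 2) ^ k - 1) with h3 | h3
    · rw [min_eq_left h3]
    · rw [min_eq_right h3, List.getElem?_eq_none (by omega), List.getElem?_eq_none (by omega)]
  constructor
  · have := Fintype.ofFinite β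
    obtain ⟨m, hm⟩ : ∃ m, ∀ o : Option β, code o < m :=
      ⟨Finset.univ.sup code + 1, fun o => Nat.lt_succ_of_le (Finset.le_sup (Finset.mem_univ o))⟩
    refine (Comp.table (fun n => if hn : ∃ o, code o = n then la hn.choose else 0) m hcode).of_eq
      fun x v => ?_
    rw [if_pos (hm _)]
    have hn : ∃ o, code o = code (f x)[v]? := ⟨_, rfl⟩
    rw [dif_pos hn, hinj hn.choose_spec]
  · refine Comp.search (P := fun x (_ : Unit) i => code (f x)[i]? = code none)
      (T := fun x _ => (x.length + 2) ^ k) (F := fun x _ => (f x).length)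
      (CompP.eq (hcode.comp Comp.id.snd) (Comp.const _)) hpow
      (fun x _ => (hrun x).1.le) (fun x _ i hi h => ?_) (fun x _ _ => ?_)
    · have h1 := hinj h
      change i < (f x).length at hi
      rw [List.getElem?_eq_none_iff] at h1
      omega
    · rw [List.getElem?_eq_none le_rfl]

end SP

end Pool.Agent.MP_6216ea_lc
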