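import Pool.Agent.Lib.MP_6216ea_lc.DLDefs

/-! Accepting computations of deterministic pushdown automata are short. -/

set_option autoImplicit false

namespace Pool.Agent.MP_6216ea_lc

namespace DetPDA

variable {β : Type} (M : DetPDA β)

private theorem conf_zero (c : M.Conf) : M.conf 0 c = some c := rfl

private theorem conf_succ (t : ℕ) (c : M.Conf) : M.conf (t + 1) c = (M.step c).bind (M.conf t) :=
  rfl

private theorem conf_add (s t : ℕ) (c : M.Conf) :
    M.conf (s + t) c = (M.conf s c).bind (M.conf t) := by
  induction s generalizing c with
  | zero => rw [Nat.zero_add, conf_zero, Option.bind_some]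
  | succ s ih =>
    rw [Nat.add_right_comm, conf_succ, conf_succ, Option.bind_assoc]
    congr 1
    funext d
    exact ih d

private theorem step_nil (q : M.Q) (w : List β) : M.step (q, w, []) = none := rfl

/-- a step does not see what lies below the top symbol -/
private theorem step_append {q : M.Q} {w : List β} {y : List M.Γ} {c : M.Conf} (z : List M.Γ)
    (h : M.step (q, w, y) = some c) : M.step (q, w, y ++ z) = some (c.1, c.2.1, c.2.2 ++ z) := by
  cases y with
  | nil => rw [step_nil] at h; exact absurd h (by simp)
  | cons g y =>
    unfold step at h ⊢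
    rw [List.cons_append]
    simp only at h ⊢
    cases he : M.eps q g with
    | some r =>
      rw [he] at h
      simp only [Option.some.injEq] at h
      rw [← h]
      simp only [List.append_assoc]
    | none =>
      rw [he] at h
      cases w with
      | nil => simp at h
      | cons a w =>
        simp only at h ⊢
        cases hm : M.move q g a with
        | none => rw [hm] at h; simp at h
        | some r =>
          rw [hm] at h
          simp only [Option.map_some, Option.some.injEq] at h
          rw [← h]
          simp only [Option.map_some, List.append_assoc]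

private theorem conf_append {t : ℕ} {q : M.Q} {w : List β} {y : List M.Γ} {c : M.Conf}
    (z : List M.Γ) (h : M.conf t (q, w, y) = some c) :
    M.conf t (q, w, y ++ z) = some (c.1, c.2.1, c.2.2 ++ z) := by
  induction t generalizing q w y with
  | zero =>
    rw [conf_zero, Option.some.injEq] at h
    rw [conf_zero, ← h]
  | succ t ih =>
    rw [conf_succ] at h ⊢
    cases hs : M.step (q, w, y) with
    | none => rw [hs] at h; simp at h
    | some d =>
      rw [hs, Option.bind_some] at h
      rw [step_append M z hs, Option.bind_some]
      exact ih h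

/-- with the empty input only `eps`-moves are made -/
private theorem step_input {q : M.Q} {y : List M.Γ} {c : M.Conf} (w : List β)
    (h : M.step (q, [], y) = some c) :
    c.2.1 = [] ∧ M.step (q, w, y) = some (c.1, w, c.2.2) := by
  cases y with
  | nil => rw [step_nil] at h; exact absurd h (by simp)
  | cons g y =>
    unfold step at h ⊢
    simp only at h ⊢
    cases he : M.eps q g with
    | some r =>
      rw [he] at h
      simp only [Option.some.injEq] at h
      rw [← h]
      exact ⟨rfl, rfl⟩
    | none =>
      rw [he] at h
      simp at h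

private theorem conf_input {t : ℕ} {q : M.Q} {y : List M.Γ} {c : M.Conf} (w : List β)
    (h : M.conf t (q, [], y) = some c) :
    c.2.1 = [] ∧ M.conf t (q, w, y) = some (c.1, w, c.2.2) := by
  induction t generalizing q y with
  | zero =>
    rw [conf_zero, Option.some.injEq] at h
    rw [conf_zero, ← h]
    exact ⟨rfl, rfl⟩
  | succ t ih =>
    rw [conf_succ] at h ⊢
    cases hs : M.step (q, [], y) with
    | none => rw [hs] at h; simp at h
    | some d =>
      rw [hs, Option.bind_some] at h
      obtain ⟨h1, h2⟩ := step_input M w hs
      rw [h2, Option.bind_some]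
      obtain ⟨q', w', z'⟩ := d
      simp only at h1
      subst h1
      exact ih h

private theorem conf_copy {t : ℕ} {q : M.Q} {y : List M.Γ} {c : M.Conf} (w : List β)
    (z : List M.Γ) (h : M.conf t (q, [], y) = some c) :
    M.conf t (q, w, y ++ z) = some (c.1, w, c.2.2 ++ z) :=
  conf_append M z (conf_input M w h).2

/-- `m` bounds the lengths of the strings which are written in one step -/
private def Bd (m : ℕ) : Prop :=
  (∀ q g r, M.eps q g = some r → r.2.length ≤ m) ∧
    ∀ q g a r, M.move q g a = some r → r.2.length ≤ m

private theorem exists_Bd [Finite β] : ∃ m, M.Bd m := by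
  obtain ⟨m₁, h₁⟩ := Finite.exists_le (fun p : M.Q × M.Γ =>
    ((M.eps p.1 p.2).map fun r => r.2.length).getD 0)
  obtain ⟨m₂, h₂⟩ := Finite.exists_le (fun p : M.Q × M.Γ × β =>
    ((M.move p.1 p.2.1 p.2.2).map fun r => r.2.length).getD 0)
  refine ⟨max m₁ m₂, fun q g r h => ?_, fun q g a r h => ?_⟩
  · have h3 := h₁ (q, g)
    simp only [h, Option.map_some, Option.getD_some] at h3
    exact h3.trans (le_max_left _ _)
  · have h3 := h₂ (q, g, a)
    simp only [h, Option.map_some, Option.getD_some] at h3
    exact h3.trans (le_max_right _ _)

private theorem step_length {m : ℕ} (hm : M.Bd m) {q : M.Q} {w : List β} {y : List M.Γ}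
    {c : M.Conf} (h : M.step (q, w, y) = some c) : c.2.2.length ≤ y.length + m := by
  cases y with
  | nil => rw [step_nil] at h; exact absurd h (by simp)
  | cons g y =>
    unfold step at h
    simp only at h
    cases he : M.eps q g with
    | some r =>
      rw [he] at h
      simp only [Option.some.injEq] at h
      rw [← h]
      have h1 := hm.1 q g r he
      simp only [List.length_append, List.length_cons]
      omega
    | none =>
      rw [he] at h
      cases w with
      | nil => simp at h
      | cons a w =>
        simp only at h
        cases hm' : M.move q g a with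
        | none => rw [hm'] at h; simp at h
        | some r =>
          rw [hm'] at h
          simp only [Option.map_some, Option.some.injEq] at h
          rw [← h]
          have h1 := hm.2 q g a r hm'
          simp only [List.length_append, List.length_cons]
          omega

private theorem conf_length {m : ℕ} (hm : M.Bd m) {t : ℕ} {q : M.Q} {w : List β}
    {y : List M.Γ} {c : M.Conf} (h : M.conf t (q, w, y) = some c) :
    c.2.2.length ≤ y.length + t * m := by
  induction t generalizing q w y with
  | zero =>
    rw [conf_zero, Option.some.injEq] at h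
    rw [← h]
    simp
  | succ t ih =>
    rw [conf_succ] at h
    cases hs : M.step (q, w, y) with
    | none => rw [hs] at h; simp at h
    | some d =>
      rw [hs, Option.bind_some] at h
      obtain ⟨q', w', z'⟩ := d
      have h1 := step_length M hm hs
      have h2 := ih h
      simp only at h1
      rw [Nat.succ_mul]
      omega

/-- the configuration `c` is accepting after `t` steps -/
private def AccIn (c : M.Conf) (t : ℕ) : Prop :=
  ∃ q z, M.conf t c = some (q, [], z) ∧ M.acc q = true

/-- what happens above a symbol `g` before the next letter is read -/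
private def Alt (q : M.Q) (g : M.Γ) (τ : ℕ) : Prop :=
  (∃ t ≤ τ, ∃ q', M.conf t (q, [], [g]) = some (q', [], [])) ∨
  (∃ t ≤ τ, ∃ q' g' z', M.conf t (q, [], [g]) = some (q', [], g' :: z') ∧ M.eps q' g' = none) ∨
  ((∀ t, M.conf t (q, [], [g]) ≠ none) ∧
    ((∃ t, M.AccIn (q, [], [g]) t) → ∃ t ≤ τ, M.AccIn (q, [], [g]) t))

private theorem exists_Alt (q : M.Q) (g : M.Γ) : ∃ τ, M.Alt q g τ := by
  by_cases hinf : ∀ t, M.conf t (q, [], [g]) ≠ none
  · by_cases hacc : ∃ t, M.AccIn (q, [], [g]) t
    · obtain ⟨t, ht⟩ := hacc
      exact ⟨t, Or.inr (Or.inr ⟨hinf, fun _ => ⟨t, le_rfl, ht⟩⟩)⟩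
    · exact ⟨0, Or.inr (Or.inr ⟨hinf, fun h => absurd h hacc⟩)⟩
  · push Not at hinf
    classical
    have h0 := Nat.find_spec hinf
    have hmin := fun s => Nat.find_min hinf (m := s)
    obtain ⟨t, ht⟩ : ∃ t, Nat.find hinf = t + 1 := by
      rcases Nat.eq_zero_or_eq_succ_pred (Nat.find hinf) with h1 | h1
      · rw [h1, conf_zero] at h0
        exact absurd h0 (by simp)
      · exact ⟨_, h1⟩
    rw [ht] at h0 hmin
    have h1 : M.conf t (q, [], [g]) ≠ none := hmin t (Nat.lt_succ_self t)
    obtain ⟨c, hc⟩ := Option.ne_none_iff_exists'.1 h1
    obtain ⟨q', w', z'⟩ := c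
    have hw := (conf_input M [] hc).1
    simp only at hw
    subst hw
    rw [conf_add, hc, Option.bind_some, conf_succ] at h0
    refine ⟨t, ?_⟩
    cases z' with
    | nil => exact Or.inl ⟨t, le_rfl, q', hc⟩
    | cons g' z' =>
      refine Or.inr (Or.inl ⟨t, le_rfl, q', g', z', hc, ?_⟩)
      cases he : M.eps q' g' with
      | none => rfl
      | some r =>
        unfold step at h0
        simp only [he, Option.bind_some, conf_zero] at h0
        exact absurd h0 (by simp)

private theorem Alt.mono {q : M.Q} {g : M.Γ} {τ τ' : ℕ} (h : M.Alt q g τ) (hτ : τ ≤ τ') :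
    M.Alt q g τ' := by
  rcases h with ⟨t, ht, h⟩ | ⟨t, ht, h⟩ | ⟨h1, h2⟩
  · exact Or.inl ⟨t, ht.trans hτ, h⟩
  · exact Or.inr (Or.inl ⟨t, ht.trans hτ, h⟩)
  · refine Or.inr (Or.inr ⟨h1, fun h => ?_⟩)
    obtain ⟨t, ht, h3⟩ := h2 h
    exact ⟨t, ht.trans hτ, h3⟩

private theorem exists_Alt_all : ∃ τ, ∀ q g, M.Alt q g τ := by
  choose f hf using fun p : M.Q × M.Γ => exists_Alt M p.1 p.2
  obtain ⟨τ, hτ⟩ := Finite.exists_le f
  exact ⟨τ, fun q g => (hf (q, g)).mono M (hτ (q, g))⟩

private theorem short {m τ : ℕ} (hm : M.Bd m) (hτ : ∀ q g, M.Alt q g τ) (w : List β) :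
    ∀ (z : List M.Γ) (q : M.Q) (N : ℕ), M.AccIn (q, w, z) N →
      ∃ N' ≤ (τ + 1) * (z.length + w.length * (τ * m + m + 1) + 1), M.AccIn (q, w, z) N' := by
  induction w with
  | nil =>
    intro z
    induction z with
    | nil =>
      rintro q N ⟨q', z', h, hacc⟩
      cases N with
      | zero => exact ⟨0, Nat.zero_le _, q', z', h, hacc⟩
      | succ N =>
        rw [conf_succ, step_nil] at h
        exact absurd h (by simp)
    | cons g z ih =>
      intro q N hN
      by_cases hle : N ≤ τ
      · refine ⟨N, hle.trans ?_, hN⟩
        refine (Nat.le_succ τ).trans (Nat.le_mul_of_pos_right _ ?_)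
        omega
      · obtain ⟨q', z', h, hacc⟩ := hN
        rcases hτ q g with ⟨t, ht, q₁, h1⟩ | ⟨t, ht, q₁, g₁, z₁, h1, h2⟩ | ⟨h1, h2⟩
        · have h3 := conf_copy M [] z h1
          simp only [List.nil_append, List.cons_append] at h3
          obtain ⟨s, rfl⟩ := Nat.exists_eq_add_of_le (show t ≤ N by omega)
          rw [conf_add, h3, Option.bind_some] at h
          obtain ⟨N', hN', q₂, z₂, h4, h5⟩ := ih q₁ s ⟨q', z', h, hacc⟩
          refine ⟨t + N', ?_, q₂, z₂, ?_, h5⟩
          · have h6 : (τ + 1) * ((g :: z).length + ([] : List β).length * (τ * m + m + 1) + 1) =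
                (τ + 1) + (τ + 1) * (z.length + ([] : List β).length * (τ * m + m + 1) + 1) := by
              rw [List.length_cons]
              ring
            rw [h6]
            omega
          · rw [conf_add, h3, Option.bind_some]
            exact h4
        · exfalso
          have h3 := conf_copy M [] z h1
          simp only [List.nil_append, List.cons_append] at h3
          obtain ⟨s, rfl⟩ := Nat.exists_eq_add_of_le (show t + 1 ≤ N by omega)
          have h4 : M.conf 1 (q₁, [], g₁ :: (z₁ ++ z)) = none := by
            rw [show (1 : ℕ) = 0 + 1 from rfl, conf_succ]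
            unfold step
            simp only [h2, Option.bind_none]
          rw [conf_add, conf_add, h3, Option.bind_some, h4] at h
          exact absurd h (by simp)
        · obtain ⟨c, hc⟩ := Option.ne_none_iff_exists'.1 (h1 N)
          have h3 := conf_copy M [] z hc
          simp only [List.nil_append, List.cons_append] at h3
          rw [h3, Option.some.injEq] at h
          have h4 : c.1 = q' := congrArg (fun x : M.Conf => x.1) h
          have h5 := (conf_input M [] hc).1
          obtain ⟨t, ht, q₂, z₂, h6, h7⟩ := h2 ⟨N, c.1, c.2.2, by
            rw [hc, ← h5], by rw [h4]; exact hacc⟩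
          refine ⟨t, ?_, q₂, z₂ ++ z, ?_, h7⟩
          · refine (ht.trans (Nat.le_succ τ)).trans (Nat.le_mul_of_pos_right _ ?_)
            omega
          · have h8 := conf_copy M [] z h6
            simpa only [List.nil_append, List.cons_append] using h8
  | cons a w ihw =>
    intro z
    induction z with
    | nil =>
      rintro q N ⟨q', z', h, hacc⟩
      cases N with
      | zero => exact ⟨0, Nat.zero_le _, q', z', h, hacc⟩
      | succ N =>
        rw [conf_succ, step_nil] at h
        exact absurd h (by simp)
    | cons g z ih =>
      intro q N hN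
      by_cases hle : N ≤ τ
      · refine ⟨N, hle.trans ?_, hN⟩
        refine (Nat.le_succ τ).trans (Nat.le_mul_of_pos_right _ ?_)
        omega
      · obtain ⟨q', z', h, hacc⟩ := hN
        rcases hτ q g with ⟨t, ht, q₁, h1⟩ | ⟨t, ht, q₁, g₁, z₁, h1, h2⟩ | ⟨h1, h2⟩
        · have h3 := conf_copy M (a :: w) z h1
          simp only [List.nil_append, List.cons_append] at h3
          obtain ⟨s, rfl⟩ := Nat.exists_eq_add_of_le (show t ≤ N by omega)
          rw [conf_add, h3, Option.bind_some] at h
          obtain ⟨N', hN', q₂, z₂, h4, h5⟩ := ih q₁ s ⟨q', z', h, hacc⟩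
          refine ⟨t + N', ?_, q₂, z₂, ?_, h5⟩
          · have h6 : (τ + 1) * ((g :: z).length + (a :: w).length * (τ * m + m + 1) + 1) =
                (τ + 1) + (τ + 1) * (z.length + (a :: w).length * (τ * m + m + 1) + 1) := by
              rw [List.length_cons]
              ring
            rw [h6]
            omega
          · rw [conf_add, h3, Option.bind_some]
            exact h4
        · have h3 := conf_copy M (a :: w) z h1
          simp only [List.nil_append, List.cons_append] at h3
          obtain ⟨s, rfl⟩ := Nat.exists_eq_add_of_le (show t + 1 ≤ N by omega)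
          have hlen := conf_length M hm h1
          simp only [List.length_cons, List.length_nil] at hlen
          have h4 : M.conf 1 (q₁, a :: w, g₁ :: (z₁ ++ z)) =
              (M.move q₁ g₁ a).map fun r => (r.1, w, r.2 ++ (z₁ ++ z)) := by
            rw [show (1 : ℕ) = 0 + 1 from rfl, conf_succ]
            unfold step
            simp only [h2]
            cases M.move q₁ g₁ a with
            | none => rfl
            | some r => rfl
          cases hmv : M.move q₁ g₁ a with
          | none =>
            rw [conf_add, conf_add, h3, Option.bind_some, h4, hmv] at h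
            exact absurd h (by simp)
          | some r =>
            rw [hmv, Option.map_some] at h4
            rw [conf_add, conf_add, h3, Option.bind_some, h4, Option.bind_some] at h
            obtain ⟨N', hN', q₂, z₂, h5, h6⟩ := ihw (r.2 ++ (z₁ ++ z)) r.1 s ⟨q', z', h, hacc⟩
            have hr := hm.2 q₁ g₁ a r hmv
            refine ⟨t + 1 + N', ?_, q₂, z₂, ?_, h6⟩
            · have htm : t * m ≤ τ * m := Nat.mul_le_mul_right _ ht
              rw [List.length_append, List.length_append] at hN'
              have h7 : (τ + 1) * (r.2.length + (z₁.length + z.length) +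
                    w.length * (τ * m + m + 1) + 1) ≤
                  (τ + 1) * (m + (τ * m + z.length) + w.length * (τ * m + m + 1) + 1) := by
                apply Nat.mul_le_mul_left
                omega
              have h8 : (τ + 1) * ((g :: z).length + (a :: w).length * (τ * m + m + 1) + 1) =
                  (τ + 1) + (τ + 1) * (m + (τ * m + z.length) + w.length * (τ * m + m + 1) + 1) +
                    (τ + 1) := by
                rw [List.length_cons, List.length_cons]
                ring
              rw [h8]
              omega
            · rw [conf_add, conf_add, h3, Option.bind_some, h4, Option.bind_some]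
              exact h5
        · exfalso
          obtain ⟨c, hc⟩ := Option.ne_none_iff_exists'.1 (h1 N)
          have h3 := conf_copy M (a :: w) z hc
          simp only [List.cons_append, List.nil_append] at h3
          rw [h3, Option.some.injEq] at h
          have h4 : (a :: w) = [] := congrArg (fun x : M.Conf => x.2.1) h
          exact absurd h4 (by simp)

end DetPDA

/-- An accepted word is accepted within linearly many steps. -/
theorem DetPDA.time {β : Type} [Finite β] (M : DetPDA β) :
    ∃ C : ℕ, ∀ w : List β, M.Accepts w → ∃ t ≤ C * (w.length + 2), M.AccAt w t := by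
  obtain ⟨m, hm⟩ := DetPDA.exists_Bd M
  obtain ⟨τ, hτ⟩ := DetPDA.exists_Alt_all M
  refine ⟨(τ + 1) * (τ * m + m + 1), fun w hw => ?_⟩
  obtain ⟨N, hN⟩ := hw
  obtain ⟨N', hN', h⟩ := DetPDA.short M hm hτ w [M.bottom] M.start N hN
  refine ⟨N', hN'.trans ?_, h⟩
  rw [mul_assoc]
  apply Nat.mul_le_mul_left
  simp only [List.length_cons, List.length_nil]
  nlinarith

end Pool.Agent.MP_6216ea_lc
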