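import Pool.Agent.Lib.MP_6216ea_lc.DUFinal
import Pool.Agent.Lib.MP_6216ea_lc.DLTime
import Pool.Agent.Lib.MP_6216ea_lc.DLHead
import Pool.Agent.Lib.MP_6216ea_lc.DLRun
import Pool.Agent.Lib.MP_6216ea_lc.DLHeadN
import Pool.Agent.Lib.MP_6216ea_lc.DLPar

/-! Languages which are log-space reducible to deterministic context-free languages are decided in
deterministic space `log² n / log log n`. -/

set_option autoImplicit false

namespace Pool.Agent.MP_6216ea_lc

namespace DU

open SP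

/-- The recursion is computable, for computed letters. -/
theorem good_gen {α : Type} {K : List α → ℕ} {P : List α → Pm} {N : List α → NP}
    (hP : PmC K P) (hN : NPC K N) {lt : List α → ℕ → ℕ} (hlt : Comp K fun x (v : ℕ) => lt x v)
    (hprime : ∀ x, (P x).p.Prime)
    (hC : ∀ x, (P x).C = (P x).p ^ ((MM (P x) + 1) * (P x).D)) :
    Nm.Good K (fun x (_ : Unit) => sysC (oneN (P x)) (P x).D (P x).b)
      (fun x _ => baseN (P x) (N x) (lt x)) (fun x _ => (P x).p) (fun x _ => (P x).g) where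
  cD := hP.D
  cM := comp_Mc (P := fun x (_ : Unit) => P x) hP.pc hP.b fun _ _ => le_rfl
  cp := hP.p
  cg := hP.g
  call := pm_callC hP
  fn := pm_fnC hP
  rf := pm_rfC hP
  cb := comp_baseN (P := fun x (_ : Unit × ℕ) => P x) (N := fun x (_ : Unit × ℕ) => N x)
    (lt := fun x _ i => lt x i) hP.pc hN.nc (hlt.comp Comp.id.snd) Comp.id.snd
  prime x _ := hprime x
  bR := hP.C.bd.mono fun x _ => (hC x).ge
  bZ := (Bd.mul hP.zz hP.zz1).mono fun x _ => (pow_succ _ _).le

/-- The answer is computable, for computed letters. -/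
theorem comp_ansG {α : Type} {K : List α → ℕ} {P : List α → Pm} {N : List α → NP}
    (hP : PmC K P) (hN : NPC K N) {lt : List α → ℕ → ℕ} (hlt : Comp K fun x (v : ℕ) => lt x v)
    (hprime : ∀ x, (P x).p.Prime)
    (hC : ∀ x, (P x).C = (P x).p ^ ((MM (P x) + 1) * (P x).D))
    (hD : ∀ x, 2 * ((P x).NS * ((P x).T + 1)) ^ 2 ≤ 2 ^ (P x).D)
    (hdeg : ∀ x, MM (P x) * (P x).D < (P x).p - 1) {T₀ : List α → Unit → ℕ}
    (hT : Comp K T₀) :
    Comp K fun x w => ansA (P x) (N x) (lt x) (T₀ x w) := by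
  have hst : Comp K fun x (_ : Unit) => (N x).start := hN.start
  have hv : Comp K fun x w => valA (P x) (N x) (lt x) (T₀ x w) :=
    Nm.comp_lvA (good_gen hP hN hlt hprime hC)
      (fun x _ => sysC_ok _ _ _ (hP.b_pos x)
        (fun L q m a _ => oh_lt (hP.NS_pos x) (hD x) L q m a)
        (fun L q a _ => oe_lt (hP.NS_pos x) (hD x) L q a))
      (fun x _ => baseN_lt (hP.NS_pos x) (hD x) (N x) _) (fun x _ => hdeg x)
      (pm_mkq hP hst hst (Comp.const 0) hT (Comp.const 0))
  have hacc : Comp K fun x w => (N x).acc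
      (fC (P x) (valA (P x) (N x) (lt x) (T₀ x w))) :=
    hN.acc.comp (pm_fC hP hv)
  exact Comp.ite (CompP.and (CompP.eq (pm_fB hv) (Comp.const 0))
    (CompP.eq hacc (Comp.const 1))) (Comp.const 1) (Comp.const 0)

/-- Log-space reductions to the languages of multi-head pushdown automata. -/
theorem head_red {α β : Type} [Finite β] (M : HeadPDA β) (d : ℕ) {f : List α → List β}
    (hf : LogSpace f) :
    ∃ (c : Cmd α) (C : ℝ), ∀ x : List α, 3 ≤ x.length → ∃ (B : ℕ) (t : ℕ → ℕ),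
      (B : ℝ) ≤ (x.length : ℝ) ^ (C * Real.log x.length / Real.log (Real.log x.length)) ∧
      Run x B c (fun _ => 0) t ∧ t 0 ≤ 1 ∧
      (t 0 = 1 ↔ M.AcceptsIn (f x).get (((f x).length + 2) ^ d)) := by
  obtain ⟨N, cd, la, a, ha, hcod, hcomp⟩ := headN_gen M
  obtain ⟨c₀, hc₀, hsc⟩ := PP_scale a M.k (d + 1)
  have hlen : ∃ k, ∀ x, (f x).length < (x.length + 2) ^ k := by
    obtain ⟨_, _, k, _, h⟩ := hf
    exact ⟨k, fun x => (h x).1⟩
  obtain ⟨k, hk⟩ := hlen
  obtain ⟨c₁, hc₁, hKK⟩ := KK_len c₀ k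
  obtain ⟨K, hKd⟩ : ∃ K : List α → ℕ, K = fun x => KK c₁ x.length := ⟨_, rfl⟩
  have hK0 : ∀ x, KK c₀ (f x).length ≤ K x := fun x => by
    rw [hKd]
    exact hKK _ _ (hk x)
  have hnK : ∀ x : List α, x.length ≤ K x := fun x => by
    rw [hKd]
    have h1 := n_lt x.length
    refine h1.le.trans (le_KK (E := lP x.length) le_rfl ?_)
    obtain ⟨-, hel, -⟩ := lb_aux x.length
    calc lP x.length * (Nat.log 2 (lP x.length) + 1) ≤ lP x.length * lP x.length :=
          Nat.mul_le_mul_left _ hel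
      _ = 1 * lP x.length ^ 2 := by ring
      _ ≤ c₁ * lP x.length ^ 2 := Nat.mul_le_mul_right _ hc₁
  obtain ⟨hla, hfl⟩ := logSpace_comp hnK hf la
  have hPC : PmC K (fun x => PP a M.k (d + 1) (f x).length) :=
    PP_gen a M.k (d + 1) c₀ ha hsc K (fun x => (f x).length) hK0 hfl
  obtain ⟨h1, h2, h3, h4, h5, h6⟩ := hcomp α K (fun x => (f x).length) hfl
  have hNC : NPC K (fun x => N (f x).length) := ⟨h1, h2, h3, h4, h5, h6⟩
  have hT : Comp K (fun x (_ : Unit) => 2 * ((f x).length + 2) ^ d + 1) := by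
    refine Comp.add (Comp.mul (Comp.const 2) ?_) (Comp.const 1)
    refine Comp.pow (Comp.add hfl (Comp.const 2)) (Comp.const d) ⟨2 * d + 1, fun x B w hB hx _ => ?_⟩
    have hxl : (f x).length < B :=
      ((hsc (f x).length).1.trans_le (hK0 x)).trans hx
    have hB1 : (f x).length + 2 ≤ B ^ 2 := by nlinarith
    calc ((f x).length + 2) ^ d ≤ (B ^ 2) ^ d := Nat.pow_le_pow_left hB1 d
      _ = B ^ (2 * d) := by rw [← pow_mul]
      _ < B ^ (2 * d + 1) := Nat.pow_lt_pow_right (by omega) (by omega)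
  have hans := comp_ansG hPC (absN_comp hNC) hla
    (fun x => PP_prime a M.k (d + 1) (f x).length)
    (fun _ => rfl) (fun x => PP_bits a M.k (d + 1) (f x).length)
    (fun x => PP_deg a M.k (d + 1) (f x).length) hT
  obtain ⟨c, e, hrun⟩ := hans.run
  obtain ⟨C, hCb⟩ := KK_bound c₁ e
  refine ⟨c, C, fun x hx => ⟨(KK c₁ x.length + 2) ^ e, _, hCb x.length hx,
    hrun x (KK c₁ x.length + 2) (by omega) (by rw [hKd]; change KK c₁ x.length < _; omega), ?_⟩⟩
  have hspec := ansA_spec (P := PP a M.k (d + 1) (f x).length) (hcod (f x))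
    (PP_bits _ _ _ _) rfl (2 * ((f x).length + 2) ^ d + 1) (by
      refine le_trans ?_ (PP_time a M.k (d + 1) (f x).length)
      obtain ⟨n, hn⟩ : ∃ n, n = (f x).length := ⟨_, rfl⟩
      rw [← hn]
      have h7 : n + 2 ≤ 2 ^ lP n := by
        have h := Nat.lt_pow_succ_log_self (b := 2) (by norm_num) n
        have h' : 2 ^ lP n = 2 ^ (Nat.log 2 n).succ * 2 := by
          unfold lP
          rw [← pow_succ]
        have h'' : 1 < 2 ^ (Nat.log 2 n).succ := Nat.one_lt_pow (by omega) (by norm_num)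
        omega
      have h8 := lP_ge n
      have h9 : (n + 2) ^ d ≤ 2 ^ (lP n * d) := by
        rw [pow_mul]
        exact Nat.pow_le_pow_left h7 d
      calc 2 * (n + 2) ^ d + 1 ≤ 2 * 2 ^ (lP n * d) + 1 := by omega
        _ ≤ 2 ^ 2 * 2 ^ (lP n * d) := by
            have := Nat.one_le_two_pow (n := lP n * d)
            omega
        _ = 2 ^ (2 + lP n * d) := by rw [pow_add]
        _ ≤ 2 ^ ((d + 1) * lP n) := by
            apply Nat.pow_le_pow_right (by norm_num)
            nlinarith)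
  have hh := head_prog_iff M (f x).get (((f x).length + 2) ^ d)
  rw [Function.update_self]
  exact ⟨hspec.1, hspec.2.trans hh⟩

theorem acceptsIn_mono {α : Type} (M : HeadPDA α) {n : ℕ} (x : Fin n → α) {T T' : ℕ}
    (h : T ≤ T') (hT : M.AcceptsIn x T) : M.AcceptsIn x T' := by
  obtain ⟨t, ht, h1⟩ := hT
  exact ⟨t, ht.trans h, h1⟩

/-- A deterministic pushdown automaton is simulated by a multi-head pushdown automaton in
polynomial time. -/
theorem detPDA_head {β : Type} [Finite β] (M : DetPDA β) :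
    ∃ (M' : HeadPDA β) (d : ℕ), ∀ w : List β,
      M'.AcceptsIn w.get ((w.length + 2) ^ d) ↔ M.Accepts w := by
  obtain ⟨M', C, h1, h2⟩ := M.exists_head
  obtain ⟨C', h3⟩ := M.time
  refine ⟨M', C * (C' + 1) + 1, fun w => ⟨h2 w _, fun h => ?_⟩⟩
  obtain ⟨t, ht, hat⟩ := h3 w h
  refine acceptsIn_mono M' w.get ?_ (h1 w t hat)
  obtain ⟨m, hm⟩ : ∃ m, m = w.length := ⟨_, rfl⟩
  rw [← hm] at ht ⊢
  have h4 : C * (t + 1) ≤ C * (C' + 1) * (m + 2) := by
    rw [Nat.mul_assoc]
    refine Nat.mul_le_mul_left _ ?_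
    rw [add_mul, one_mul]
    omega
  refine h4.trans ?_
  rw [pow_succ]
  refine Nat.mul_le_mul_right _ ?_
  have h5 : C * (C' + 1) < 2 ^ (C * (C' + 1)) := Nat.lt_two_pow_self
  exact h5.le.trans (Nat.pow_le_pow_left (by omega) _)

/-- **Languages which are log-space reducible to deterministic context-free languages are decided
in deterministic space `log² n / log log n`.** -/
theorem closure_main {α β : Type} [Finite β] (M : DetPDA β) {f : List α → List β}
    (hf : LogSpace f) :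
    ∃ (c : Cmd α) (C : ℝ), ∀ x : List α, 3 ≤ x.length → ∃ (B : ℕ) (t : ℕ → ℕ),
      (B : ℝ) ≤ (x.length : ℝ) ^ (C * Real.log x.length / Real.log (Real.log x.length)) ∧
      Run x B c (fun _ => 0) t ∧ t 0 ≤ 1 ∧ (t 0 = 1 ↔ M.Accepts (f x)) := by
  obtain ⟨M', d, h1⟩ := detPDA_head M
  obtain ⟨c, C, h2⟩ := head_red M' d hf
  refine ⟨c, C, fun x hx => ?_⟩
  obtain ⟨B, t, h3, h4, h5, h6⟩ := h2 x hx
  exact ⟨B, t, h3, h4, h5, h6.trans (h1 (f x))⟩

end DU

end Pool.Agent.MP_6216ea_lc
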