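import Pool.Agent.Lib.MP_6216ea_lc.DUStep

/-! The algorithm is computable in small space. -/

set_option autoImplicit false
set_option linter.unreachableTactic false
set_option linter.unusedTactic false

namespace Pool.Agent.MP_6216ea_lc

namespace DU

namespace Nm

open SP

variable {α : Type} {K : List α → ℕ} {σ τ : Type} [Tup σ] [Tup τ]

/-- A computable family of recursions. -/
structure Good (K : List α → ℕ) (P : List α → σ → Sys) (base : List α → σ → ℕ → ℕ)
    (p g : List α → σ → ℕ) : Prop where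
  cD : Comp K fun x w => (P x w).D
  cM : Comp K fun x w => (P x w).M
  cp : Comp K fun x w => p x w
  cg : Comp K fun x w => g x w
  call : CompP K fun x (v : σ × ℕ) => (P x v.1).call v.2 = true
  fn : Comp K fun x (v : σ × ℕ × ℕ × ℕ × ℕ) =>
    (P x v.1).fn v.2.1 v.2.2.1 v.2.2.2.1 (yv (P x v.1).D v.2.2.2.2)
  rf : Comp K fun x (v : σ × ℕ × ℕ × ℕ) =>
    (P x v.1).rf v.2.1 v.2.2.1 (yv (P x v.1).D v.2.2.2)
  cb : Comp K fun x (v : σ × ℕ) => base x v.1 v.2
  prime : ∀ x w, (p x w).Prime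
  bR : Bd K fun x w => p x w ^ (((P x w).M + 1) * (P x w).D)
  bZ : Bd K fun x w => zz (P x w) (p x w) ^ (g x w + 1)

theorem Good.comp {P : List α → σ → Sys} {base : List α → σ → ℕ → ℕ} {p g : List α → σ → ℕ}
    (h : Good K P base p g) {f : List α → τ → σ} (hf : Comp K f) :
    Good K (fun x t => P x (f x t)) (fun x t => base x (f x t)) (fun x t => p x (f x t))
      (fun x t => g x (f x t)) where
  cD := h.cD.comp hf
  cM := h.cM.comp hf
  cp := h.cp.comp hf
  cg := h.cg.comp hf
  call := h.call.comp (Comp.pair (hf.comp Comp.id.fst) Comp.id.snd)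
  fn := h.fn.comp (Comp.pair (hf.comp Comp.id.fst) Comp.id.snd)
  rf := h.rf.comp (Comp.pair (hf.comp Comp.id.fst) Comp.id.snd)
  cb := h.cb.comp (Comp.pair (hf.comp Comp.id.fst) Comp.id.snd)
  prime x t := h.prime x (f x t)
  bR := h.bR.comp hf
  bZ := h.bZ.comp hf

theorem comp_pack {d : List α → σ → ℕ → ℕ} {n p : List α → σ → ℕ}
    (hd : Comp K fun x (v : σ × ℕ) => d x v.1 v.2) (hn : Comp K n) (hp : Comp K p)
    (hb : Bd K fun x w => p x w ^ n x w) : Comp K fun x w => pack (p x w) (d x w) (n x w) := by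
  have hpn : Comp K fun x w => p x w ^ n x w := Comp.pow hp hn hb
  refine (Comp.sum (f := fun x w l => d x w l * min (p x w ^ n x w + 1) (p x w ^ l))
    (Comp.mul hd (Comp.minPow (Comp.succ (hpn.comp Comp.id.fst)) (hp.comp Comp.id.fst)
      Comp.id.snd)) hn).of_eq fun x w => ?_
  refine Finset.sum_congr rfl fun l hl => ?_
  have hl' := Finset.mem_range.1 hl
  rw [min_eq_right]
  rcases Nat.eq_zero_or_pos (p x w) with h | h
  · rw [h]
    rcases Nat.eq_zero_or_pos l with h' | h'
    · subst h'; simp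
    · rw [zero_pow (by omega)]; exact Nat.zero_le _
  · exact (Nat.pow_le_pow_right h hl'.le).trans (Nat.le_succ _)

theorem comp_extN {m p : List α → σ → ℕ} {f r : List α → σ → ℕ → ℕ} (hm : Comp K m)
    (hp : Comp K p) (hf : Comp K fun x (v : σ × ℕ) => f x v.1 v.2)
    (hr : Comp K fun x (v : σ × ℕ) => r x v.1 v.2) (hb : Bd K fun x w => 2 ^ m x w) :
    Comp K fun x w => extN (m x w) (p x w) (f x w) (r x w) := by
  have h2 : Comp K fun x w => 2 ^ m x w := Comp.pow (Comp.const 2) hm hb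
  have hr' : Comp K fun x (v : (σ × ℕ) × ℕ) => r x v.1.1 v.2 :=
    hr.comp (Comp.pair Comp.id.fst.fst Comp.id.snd)
  have hp' : Comp K fun x (v : (σ × ℕ) × ℕ) => p x v.1.1 := hp.comp Comp.id.fst.fst
  refine Comp.mod (Comp.sum (f := fun x w e => f x w e * ((∏ i ∈ Finset.range (m x w),
    (if e.testBit i then r x w i else p x w + 1 - r x w i)) % (p x w - 1 + 1)))
    (Comp.mul hf (Comp.prodMod (f := fun x (v : σ × ℕ) i =>
      if v.2.testBit i then r x v.1 i else p x v.1 + 1 - r x v.1 i)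
      (T := fun x (v : σ × ℕ) => m x v.1) (m := fun x (v : σ × ℕ) => p x v.1 - 1) ?_
      (hm.comp Comp.id.fst) (Comp.pred (hp.comp Comp.id.fst)))) h2) hp
  with_reducible repeat' (first
    | assumption | exact Comp.id | exact Comp.const _ | exact CompP.const _
    | apply Comp.ite | apply Comp.fst | apply Comp.snd | apply Comp.add | apply Comp.sub
    | apply Comp.mul | apply Comp.div | apply Comp.mod | apply Comp.min | apply CompP.and
    | apply CompP.or | apply CompP.not | apply CompP.ne | apply CompP.eq | apply CompP.le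
    | apply CompP.lt | apply CompP.testBit | apply Comp.pair)

theorem comp_invN {p t : List α → σ → ℕ} (hp : Comp K p) (ht : Comp K t) :
    Comp K fun x w => invN (p x w) (t x w) := by
  have ht' : Comp K fun x (v : σ × ℕ) => t x v.1 := ht.comp Comp.id.fst
  refine Comp.ite (CompP.eq (Comp.mod ht hp) (Comp.const 0)) (Comp.const 0)
    (Comp.prodMod (f := fun x w _ => t x w) (T := fun x w => p x w - 2)
      (m := fun x w => p x w - 1) ht' (Comp.sub hp (Comp.const 2)) (Comp.pred hp))

theorem comp_slotN {M p i q j s m : List α → σ → ℕ} {b : List α → σ → Prop}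
    [∀ x w, Decidable (b x w)] (hM : Comp K M) (hp : Comp K p) (hb : CompP K b) (hi : Comp K i)
    (hq : Comp K q) (hj : Comp K j) (hs : Comp K s) (hm : Comp K m) :
    Comp K fun x w => slotN (M x w) (p x w) (b x w) (i x w) (q x w) (j x w) (s x w) (m x w) := by
  have hinv : Comp K fun x w => invN (p x w) (m x w / (4 * M x w + 1) + 1) :=
    comp_invN hp (Comp.add (Comp.div hm (Comp.add (Comp.mul (Comp.const 4) hM) (Comp.const 1)))
      (Comp.const 1))
  unfold slotN
  with_reducible repeat' (first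
    | assumption | exact Comp.id | exact Comp.const _ | exact CompP.const _
    | apply Comp.ite | apply Comp.fst | apply Comp.snd | apply Comp.add | apply Comp.sub
    | apply Comp.mul | apply Comp.div | apply Comp.mod | apply Comp.min | apply CompP.and
    | apply CompP.or | apply CompP.not | apply CompP.ne | apply CompP.eq | apply CompP.le
    | apply CompP.lt | apply CompP.testBit | apply Comp.pair)

theorem comp_child1N {P : List α → σ → Sys} {base : List α → σ → ℕ → ℕ} {p g : List α → σ → ℕ}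
    (h : Good K P base p g) {v : List α → σ → N6} {m : List α → σ → ℕ} (hv : Comp K v)
    (hm : Comp K m) : Comp K fun x w => child1N (P x w).M (p x w)
      ((P x w).call (v x w).2.2.2.1 = true) ((P x w).call (P x w).M = true) (v x w) (m x w) := by
  have hM := h.cM
  have hp := h.cp
  have h1 : CompP K fun x w => (P x w).call (v x w).2.2.2.1 = true :=
    h.call.comp (Comp.pair Comp.id hv.snd.snd.snd.fst)
  have h2 : CompP K fun x w => (P x w).call (P x w).M = true :=
    h.call.comp (Comp.pair Comp.id h.cM)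
  have h3 := comp_slotN hM hp h2 (Comp.sub hv.snd.fst (Comp.const 1)) hv.snd.snd.fst hM
    hv.snd.snd.snd.snd.snd hm
  have h4 := comp_slotN hM hp h1 hv.snd.fst hv.snd.snd.fst hv.snd.snd.snd.fst
    hv.snd.snd.snd.snd.snd hm
  unfold child1N
  with_reducible repeat' (first
    | assumption | exact Comp.id | exact Comp.const _ | exact CompP.const _
    | apply Comp.ite | apply Comp.fst | apply Comp.snd | apply Comp.add | apply Comp.sub
    | apply Comp.mul | apply Comp.div | apply Comp.mod | apply Comp.min | apply CompP.and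
    | apply CompP.or | apply CompP.not | apply CompP.ne | apply CompP.eq | apply CompP.le
    | apply CompP.lt | apply CompP.testBit | apply Comp.pair)

theorem comp_child2N {p : List α → σ → ℕ} {v : List α → σ → N6} {m : List α → σ → ℕ}
    (hp : Comp K p) (hv : Comp K v) (hm : Comp K m) :
    Comp K fun x w => child2N (p x w) (v x w) (m x w) := by
  unfold child2N
  with_reducible repeat' (first
    | assumption | exact Comp.id | exact Comp.const _ | exact CompP.const _
    | apply Comp.ite | apply Comp.fst | apply Comp.snd | apply Comp.add | apply Comp.sub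
    | apply Comp.mul | apply Comp.div | apply Comp.mod | apply Comp.min | apply CompP.and
    | apply CompP.or | apply CompP.not | apply CompP.ne | apply CompP.eq | apply CompP.le
    | apply CompP.lt | apply CompP.testBit | apply Comp.pair)

/-! ### Descent -/

/-- All entries are at most `F`. -/
def All6 (F : ℕ) (v : N6) : Prop :=
  v.1 ≤ F ∧ v.2.1 ≤ F ∧ v.2.2.1 ≤ F ∧ v.2.2.2.1 ≤ F ∧ v.2.2.2.2.1 ≤ F ∧ v.2.2.2.2.2 ≤ F

theorem All6.lt {F : ℕ} {v : N6} (h : All6 F v) : Lt v (F + 1) := by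
  obtain ⟨h1, h2, h3, h4, h5, h6⟩ := h
  exact lt_prod.2 ⟨lt_nat.2 (by omega), lt_prod.2 ⟨lt_nat.2 (by omega), lt_prod.2
    ⟨lt_nat.2 (by omega), lt_prod.2 ⟨lt_nat.2 (by omega), lt_prod.2 ⟨lt_nat.2 (by omega),
    lt_nat.2 (by omega)⟩⟩⟩⟩⟩

theorem slotN_all {M p F : ℕ} (hp : 0 < p) (h7 : 7 ≤ F) (hM : M ≤ F) (hpF : p ≤ F) (b : Prop)
    [Decidable b] {i q j s : ℕ} (m : ℕ) (hi : i ≤ F) (hq : q ≤ F) (hj : j ≤ F) (hs : s ≤ F) :
    All6 F (slotN M p b i q j s m) := by
  have h1 := Nat.mod_lt (m / (4 * M + 1) + 1) hp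
  have h2 := invN_lt hp (m / (4 * M + 1) + 1)
  unfold slotN All6
  split_ifs <;> refine ⟨?_, ?_, ?_, ?_, ?_, ?_⟩ <;> simp only <;> omega

theorem child1N_all {M p F : ℕ} (hp : 0 < p) (h7 : 7 ≤ F) (hM : M ≤ F) (hpF : p ≤ F) (b : Prop)
    [Decidable b] (b' : Prop) [Decidable b'] (v : N6) (m : ℕ) (hv : All6 F v) :
    All6 F (child1N M p b b' v m) := by
  obtain ⟨h1, h2, h3, h4, h5, h6⟩ := hv
  unfold child1N
  split_ifs
  · exact slotN_all hp h7 hM hpF b' m (by omega) h3 hM h6
  · exact slotN_all hp h7 hM hpF b m h2 h3 h4 h6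
  · exact ⟨h1, h2, h3, h4, h5, h6⟩
  · exact ⟨Nat.zero_le _, Nat.zero_le _, Nat.zero_le _, Nat.zero_le _, Nat.zero_le _,
      Nat.zero_le _⟩

theorem child2N_all {p F : ℕ} (h7 : 7 ≤ F) (hpF : p ≤ F) (v : N6) (m : ℕ) (hm : m / 4 ≤ F)
    (hv : All6 F v) : All6 F (child2N p v m) := by
  obtain ⟨h1, h2, h3, h4, h5, h6⟩ := hv
  unfold child2N All6
  split_ifs <;> refine ⟨?_, ?_, ?_, ?_, ?_, ?_⟩ <;> (try simp only) <;> omega

/-- The numeric form of `desc1`. -/
def desc1N (P : Sys) (p : ℕ) (v : N6) (a : ℕ) (u : ℕ) : N6 :=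
  itr (fun u v => child1N P.M p (P.call v.2.2.2.1 = true) (P.call P.M = true) v
    (a / rad P p ^ (P.M - u) / (4 * 2 ^ P.D) % rad P p)) v u

/-- The numeric form of `descZ`. -/
def descZN (P : Sys) (p : ℕ) (v : N6) (a : ℕ) : N6 :=
  child2N p (desc1N P p v a (P.M + 1)) (a % (4 * 2 ^ P.D))

/-- The numeric form of `desc`. -/
def descN (P : Sys) (p g : ℕ) (v : N6) (pos h : ℕ) : N6 :=
  itr (fun h v => descZN P p v (pos / zz P p ^ (g - 1 - h) % zz P p)) v h

theorem mod_div_le (D a : ℕ) : a % (4 * 2 ^ D) / 4 ≤ 2 ^ D := by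
  have h1 : 0 < 4 * 2 ^ D := Nat.mul_pos (by norm_num) (Nat.two_pow_pos _)
  have h2 := Nat.mod_lt a h1
  omega

theorem nd6_desc1 {p : ℕ} [Fact p.Prime] (P : Sys) {g Q : ℕ} (v : N6) (a u : ℕ)
    (hv : Bdd P.M p g Q v) : Bdd P.M p g Q (desc1N P p v a u) ∧
      nd6 p (desc1N P p v a u) = desc1 P (nd6 p v) a u := by
  have hp : 0 < p := (Fact.out : p.Prime).pos
  induction u with
  | zero => exact ⟨hv, rfl⟩
  | succ u ih =>
    refine ⟨child1N_bdd hp _ _ _ _ ih.1, ?_⟩
    rw [desc1, ← ih.2, ← Nat.div_div_eq_div_mul]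
    exact nd6_child1 P _ _ ih.1.2.2.2.2.2

theorem nd6_descZ {p : ℕ} [Fact p.Prime] (P : Sys) {g Q : ℕ} (v : N6) (a : ℕ)
    (hQ : 2 ^ P.D ≤ Q) (hv : Bdd P.M p g Q v) : Bdd P.M p g Q (descZN P p v a) ∧
      nd6 p (descZN P p v a) = descZ P (nd6 p v) a := by
  have hp : 0 < p := (Fact.out : p.Prime).pos
  obtain ⟨h1, h2⟩ := nd6_desc1 P v a (P.M + 1) hv
  refine ⟨child2N_bdd hp _ _ ((mod_div_le _ _).trans hQ) h1, ?_⟩
  rw [descZ, ← h2]
  exact nd6_child2 _ _ h1.2.2.2.2.2

theorem nd6_desc {p : ℕ} [Fact p.Prime] (P : Sys) {g Q : ℕ} (v : N6) (g' pos h : ℕ)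
    (hQ : 2 ^ P.D ≤ Q) (hv : Bdd P.M p g Q v) : Bdd P.M p g Q (descN P p g' v pos h) ∧
      nd6 p (descN P p g' v pos h) = desc P (nd6 p v) g' pos h := by
  induction h with
  | zero => exact ⟨hv, rfl⟩
  | succ h ih =>
    obtain ⟨h1, h2⟩ := nd6_descZ P (descN P p g' v pos h)
      (pos / zz P p ^ (g' - 1 - h) % zz P p) hQ ih.1
    refine ⟨h1, ?_⟩
    rw [desc, ← ih.2]
    exact h2

theorem desc1N_all {P : Sys} {p F : ℕ} (hp : 0 < p) (h7 : 7 ≤ F) (hM : P.M ≤ F) (hpF : p ≤ F)
    (v : N6) (a u : ℕ) (hv : All6 F v) : All6 F (desc1N P p v a u) := by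
  induction u with
  | zero => exact hv
  | succ u ih => exact child1N_all hp h7 hM hpF _ _ _ _ ih

theorem descZN_all {P : Sys} {p F : ℕ} (hp : 0 < p) (h7 : 7 ≤ F) (hM : P.M ≤ F) (hpF : p ≤ F)
    (hD : 2 ^ P.D ≤ F) (v : N6) (a : ℕ) (hv : All6 F v) : All6 F (descZN P p v a) :=
  child2N_all h7 hpF _ _ ((mod_div_le _ _).trans hD) (desc1N_all hp h7 hM hpF v a _ hv)

theorem descN_all {P : Sys} {p F : ℕ} (hp : 0 < p) (h7 : 7 ≤ F) (hM : P.M ≤ F) (hpF : p ≤ F)
    (hD : 2 ^ P.D ≤ F) (g : ℕ) (v : N6) (pos h : ℕ) (hv : All6 F v) :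
    All6 F (descN P p g v pos h) := by
  induction h with
  | zero => exact hv
  | succ h ih => exact descZN_all hp h7 hM hpF hD _ _ ih

section

variable {P : List α → σ → Sys} {base : List α → σ → ℕ → ℕ} {p g : List α → σ → ℕ}

theorem Good.c2D (h : Good K P base p g) : Comp K fun x w => 2 ^ (P x w).D := by
  refine Comp.pow (Comp.const 2) h.cD (h.bR.mono fun x w => ?_)
  exact (Nat.pow_le_pow_left (h.prime x w).two_le _).trans
    (Nat.pow_le_pow_right (h.prime x w).pos (Nat.le_mul_of_pos_left _ (by omega)))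

theorem Good.bMD (h : Good K P base p g) : Bd K fun x w => 2 ^ ((P x w).M * (P x w).D) := by
  refine h.bR.mono fun x w => ?_
  exact (Nat.pow_le_pow_left (h.prime x w).two_le _).trans
    (Nat.pow_le_pow_right (h.prime x w).pos (Nat.mul_le_mul_right _ (by omega)))

theorem Good.crad (h : Good K P base p g) : Comp K fun x w => rad (P x w) (p x w) := by
  have hM := h.cM
  have hp := h.cp
  unfold rad
  with_reducible repeat' (first
    | assumption | exact Comp.id | exact Comp.const _ | exact CompP.const _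
    | apply Comp.ite | apply Comp.fst | apply Comp.snd | apply Comp.add | apply Comp.sub
    | apply Comp.mul | apply Comp.div | apply Comp.mod | apply Comp.min | apply CompP.and
    | apply CompP.or | apply CompP.not | apply CompP.ne | apply CompP.eq | apply CompP.le
    | apply CompP.lt | apply CompP.testBit | apply Comp.pair)

theorem zz_pos (P : Sys) {p : ℕ} (hp : p.Prime) : 0 < zz P p :=
  Nat.mul_pos (Nat.pow_pos (rad_pos P hp.two_le)) (Nat.mul_pos (by norm_num) (Nat.two_pow_pos _))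

theorem Good.bz1 (h : Good K P base p g) : Bd K fun x w => zz (P x w) (p x w) :=
  h.bZ.mono fun _ _ => Nat.le_self_pow (Nat.succ_ne_zero _) _

theorem Good.czz (h : Good K P base p g) : Comp K fun x w => zz (P x w) (p x w) := by
  have h1 : Comp K fun x w => rad (P x w) (p x w) ^ ((P x w).M + 1) := by
    refine Comp.pow h.crad (Comp.succ h.cM) (h.bz1.mono fun x w => ?_)
    exact Nat.le_mul_of_pos_right _ (Nat.mul_pos (by norm_num) (Nat.two_pow_pos _))
  exact Comp.mul h1 (Comp.mul (Comp.const 4) h.c2D)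

theorem Good.czzg (h : Good K P base p g) : Comp K fun x w => zz (P x w) (p x w) ^ g x w :=
  Comp.pow h.czz h.cg (h.bZ.mono fun x w =>
    Nat.pow_le_pow_right (zz_pos _ (h.prime x w)) (Nat.le_succ _))

/-- A bound for the entries of the nodes. -/
def FB (P : Sys) (p : ℕ) (v : N6) : ℕ := 7 + P.M + p + 2 ^ P.D + v.1 + v.2.1 + v.2.2.1 + v.2.2.2.1 +
  v.2.2.2.2.1 + v.2.2.2.2.2

theorem FB_facts (P : Sys) (p : ℕ) (v : N6) : 7 ≤ FB P p v ∧ P.M ≤ FB P p v ∧ p ≤ FB P p v ∧
    2 ^ P.D ≤ FB P p v ∧ All6 (FB P p v) v := by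
  unfold FB All6
  generalize 2 ^ P.D = z
  omega

theorem Good.cFB (h : Good K P base p g) {v : List α → σ → N6} (hv : Comp K v) :
    Comp K fun x w => FB (P x w) (p x w) (v x w) := by
  have hM := h.cM
  have hp := h.cp
  have hD := h.c2D
  unfold FB
  with_reducible repeat' (first
    | assumption | exact Comp.id | exact Comp.const _ | exact CompP.const _
    | apply Comp.ite | apply Comp.fst | apply Comp.snd | apply Comp.add | apply Comp.sub
    | apply Comp.mul | apply Comp.div | apply Comp.mod | apply Comp.min | apply CompP.and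
    | apply CompP.or | apply CompP.not | apply CompP.ne | apply CompP.eq | apply CompP.le
    | apply CompP.lt | apply CompP.testBit | apply Comp.pair)

theorem comp_desc1N (h : Good K P base p g) {v : List α → σ → N6} {a : List α → σ → ℕ}
    (hv : Comp K v) (ha : Comp K a) :
    Comp K fun x w => desc1N (P x w) (p x w) (v x w) (a x w) ((P x w).M + 1) := by
  have h' := h.comp (Comp.id.fst : Comp K fun x (t : σ × ℕ × N6) => t.1)
  have hr := h'.crad
  have hM := h'.cM
  have hD := h'.c2D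
  have ha' : Comp K fun x (t : σ × ℕ × N6) => a x t.1 := ha.comp Comp.id.fst
  have hu : Comp K fun x (t : σ × ℕ × N6) => (P x t.1).M - t.2.1 := Comp.sub hM Comp.id.snd.fst
  have hdig : Comp K fun x (t : σ × ℕ × N6) => a x t.1 /
      rad (P x t.1) (p x t.1) ^ ((P x t.1).M - t.2.1) / (4 * 2 ^ (P x t.1).D) %
        rad (P x t.1) (p x t.1) :=
    Comp.mod (Comp.div (Comp.divPow ha' hr hu) (Comp.mul (Comp.const 4) hD)) hr
  refine Comp.itr_le (h := fun x w u v => child1N (P x w).M (p x w)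
    ((P x w).call v.2.2.2.1 = true) ((P x w).call (P x w).M = true) v
    (a x w / rad (P x w) (p x w) ^ ((P x w).M - u) / (4 * 2 ^ (P x w).D) %
      rad (P x w) (p x w))) (F := fun x w => FB (P x w) (p x w) (v x w))
    (comp_child1N h' Comp.id.snd.snd hdig) hv (Comp.succ h.cM) (h.cFB hv).bd fun x w i _ => ?_
  obtain ⟨h1, h2, h3, _, h5⟩ := FB_facts (P x w) (p x w) (v x w)
  exact All6.lt (desc1N_all (P := P x w) (h.prime x w).pos h1 h2 h3 _ _ _ h5)

theorem comp_descZN (h : Good K P base p g) {v : List α → σ → N6} {a : List α → σ → ℕ}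
    (hv : Comp K v) (ha : Comp K a) :
    Comp K fun x w => descZN (P x w) (p x w) (v x w) (a x w) :=
  comp_child2N h.cp (comp_desc1N h hv ha) (Comp.mod ha (Comp.mul (Comp.const 4) h.c2D))

theorem comp_descN (h : Good K P base p g) {v : List α → σ → N6} {a : List α → σ → ℕ}
    (hv : Comp K v) (ha : Comp K a) :
    Comp K fun x w => descN (P x w) (p x w) (g x w) (v x w) (a x w) (g x w) := by
  have h' := h.comp (Comp.id.fst : Comp K fun x (t : σ × ℕ × N6) => t.1)
  have hz := h'.czz
  have hg := h'.cg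
  have ha' : Comp K fun x (t : σ × ℕ × N6) => a x t.1 := ha.comp Comp.id.fst
  have hu : Comp K fun x (t : σ × ℕ × N6) => g x t.1 - 1 - t.2.1 :=
    Comp.sub (Comp.pred hg) Comp.id.snd.fst
  have hdig : Comp K fun x (t : σ × ℕ × N6) => a x t.1 /
      zz (P x t.1) (p x t.1) ^ (g x t.1 - 1 - t.2.1) % zz (P x t.1) (p x t.1) :=
    Comp.mod (Comp.divPow ha' hz hu) hz
  refine Comp.itr_le (h := fun x w u v => descZN (P x w) (p x w) v
    (a x w / zz (P x w) (p x w) ^ (g x w - 1 - u) % zz (P x w) (p x w)))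
    (F := fun x w => FB (P x w) (p x w) (v x w))
    (comp_descZN h' Comp.id.snd.snd hdig) hv h.cg (h.cFB hv).bd fun x w i _ => ?_
  obtain ⟨h1, h2, h3, h4, h5⟩ := FB_facts (P x w) (p x w) (v x w)
  exact All6.lt (descN_all (P := P x w) (h.prime x w).pos h1 h2 h3 h4 (g x w) _ _ _ h5)

end

/-! ### Elementary steps -/

theorem comp_dg {p X l : List α → σ → ℕ} (hp : Comp K p) (hX : Comp K X) (hl : Comp K l) :
    Comp K fun x w => dg (p x w) (X x w) (l x w) := Comp.digit hX hp hl

theorem comp_trN {p D j X l : List α → σ → ℕ} (hp : Comp K p) (hD : Comp K D) (hj : Comp K j)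
    (hX : Comp K X) (hl : Comp K l) :
    Comp K fun x w => trN (p x w) (D x w) (j x w) (X x w) (l x w) :=
  Comp.ite (CompP.lt hl (Comp.mul hj hD)) (comp_dg hp hX hl) (Comp.const 0)

section

variable {P : List α → σ → Sys} {base : List α → σ → ℕ → ℕ} {p g : List α → σ → ℕ}

theorem comp_indN (h : Good K P base p g) {i q j c X : List α → σ → ℕ} (hi : Comp K i)
    (hq : Comp K q) (hj : Comp K j) (hc : Comp K c) (hX : Comp K X) :
    Comp K fun x w => indN (P x w) (p x w) (i x w) (q x w) (j x w) (c x w) (X x w) := by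
  have h' := h.comp (Comp.id.fst : Comp K fun x (t : σ × ℕ) => t.1)
  have hf : Comp K fun x (t : σ × ℕ) =>
      (P x t.1).fn (i x t.1) (q x t.1) (j x t.1) (yv (P x t.1).D t.2) :=
    h.fn.comp (Comp.pair Comp.id.fst (Comp.pair (hi.comp Comp.id.fst)
      (Comp.pair (hq.comp Comp.id.fst) (Comp.pair (hj.comp Comp.id.fst) Comp.id.snd))))
  refine comp_extN (f := fun x w e => if (P x w).fn (i x w) (q x w) (j x w) (yv (P x w).D e) =
      c x w then 1 else 0) (r := fun x w l => trN (p x w) (P x w).D (j x w) (X x w) l)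
    (Comp.mul h.cM h.cD) h.cp ?_ ?_ h.bMD
  · exact Comp.ind (CompP.eq hf (hc.comp Comp.id.fst))
  · exact comp_trN h'.cp h'.cD (hj.comp Comp.id.fst) (hX.comp Comp.id.fst) Comp.id.snd

theorem comp_locN (h : Good K P base p g) {i q j X u : List α → σ → ℕ} (hi : Comp K i)
    (hq : Comp K q) (hj : Comp K j) (hX : Comp K X) (hu : Comp K u) :
    Comp K fun x w => locN (P x w) (p x w) (i x w) (q x w) (j x w) (X x w) (u x w) := by
  have h' := h.comp (Comp.id.fst : Comp K fun x (t : σ × ℕ) => t.1)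
  have hf : Comp K fun x (t : σ × ℕ) =>
      (P x t.1).fn (i x t.1) (q x t.1) (j x t.1) (yv (P x t.1).D t.2) :=
    h.fn.comp (Comp.pair Comp.id.fst (Comp.pair (hi.comp Comp.id.fst)
      (Comp.pair (hq.comp Comp.id.fst) (Comp.pair (hj.comp Comp.id.fst) Comp.id.snd))))
  refine comp_extN (f := fun x w e => if ((P x w).fn (i x w) (q x w) (j x w)
      (yv (P x w).D e)).testBit (u x w) then 1 else 0)
    (r := fun x w l => trN (p x w) (P x w).D (j x w) (X x w) l)
    (Comp.mul h.cM h.cD) h.cp ?_ ?_ h.bMD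
  · exact Comp.ind (CompP.testBit hf (hu.comp Comp.id.fst))
  · exact comp_trN h'.cp h'.cD (hj.comp Comp.id.fst) (hX.comp Comp.id.fst) Comp.id.snd

theorem comp_outN (h : Good K P base p g) {i q X u : List α → σ → ℕ} (hi : Comp K i)
    (hq : Comp K q) (hX : Comp K X) (hu : Comp K u) :
    Comp K fun x w => outN (P x w) (p x w) (i x w) (q x w) (X x w) (u x w) := by
  have h' := h.comp (Comp.id.fst : Comp K fun x (t : σ × ℕ) => t.1)
  have hf : Comp K fun x (t : σ × ℕ) =>
      (P x t.1).rf (i x t.1) (q x t.1) (yv (P x t.1).D t.2) :=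
    h.rf.comp (Comp.pair Comp.id.fst (Comp.pair (hi.comp Comp.id.fst)
      (Comp.pair (hq.comp Comp.id.fst) Comp.id.snd)))
  refine comp_extN (f := fun x w e => if ((P x w).rf (i x w) (q x w)
      (yv (P x w).D e)).testBit (u x w) then 1 else 0)
    (r := fun x w l => trN (p x w) (P x w).D (P x w).M (X x w) l)
    (Comp.mul h.cM h.cD) h.cp ?_ ?_ h.bMD
  · exact Comp.ind (CompP.testBit hf (hu.comp Comp.id.fst))
  · exact comp_trN h'.cp h'.cD h'.cM (hX.comp Comp.id.fst) Comp.id.snd

/-- Replacing a block. -/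
theorem comp_upd (h : Good K P base p g) {j X : List α → σ → ℕ} {f : List α → σ → ℕ → ℕ}
    (hj : Comp K j) (hX : Comp K X) (hf : Comp K fun x (t : σ × ℕ) => f x t.1 t.2) :
    Comp K fun x w => pack (p x w) (fun l => if l / (P x w).D = j x w then f x w l
      else dg (p x w) (X x w) l) (((P x w).M + 1) * (P x w).D) := by
  have h' := h.comp (Comp.id.fst : Comp K fun x (t : σ × ℕ) => t.1)
  refine comp_pack (d := fun x w l => if l / (P x w).D = j x w then f x w l
      else dg (p x w) (X x w) l) ?_ (Comp.mul (Comp.succ h.cM) h.cD) h.cp h.bR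
  exact Comp.ite (CompP.eq (Comp.div Comp.id.snd h'.cD) (hj.comp Comp.id.fst)) hf
    (comp_dg h'.cp (hX.comp Comp.id.fst) Comp.id.snd)

theorem comp_stepN (h : Good K P base p g) {v : List α → σ → N6} {X : List α → σ → ℕ}
    (hv : Comp K v) (hX : Comp K X) :
    Comp K fun x w => stepN (P x w) (base x w) (p x w) (v x w) (X x w) := by
  have h' := h.comp (Comp.id.fst : Comp K fun x (t : σ × ℕ) => t.1)
  have hv' : Comp K fun x (t : σ × ℕ) => v x t.1 := hv.comp Comp.id.fst
  have hX' : Comp K fun x (t : σ × ℕ) => X x t.1 := hX.comp Comp.id.fst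
  have hl : Comp K fun (_ : List α) (t : σ × ℕ) => t.2 := Comp.id.snd
  have hs := hv'.snd.snd.snd.snd.snd
  have hu : Comp K fun x (t : σ × ℕ) => t.2 % (P x t.1).D := Comp.mod hl h'.cD
  have hd := comp_dg h'.cp hX' hl
  have hp' := h'.cp
  refine Comp.ite (CompP.eq hv.fst (Comp.const 1)) ?_ (Comp.ite (CompP.eq hv.fst (Comp.const 2))
    ?_ (Comp.ite (CompP.eq hv.fst (Comp.const 3)) ?_ (Comp.ite (CompP.eq hv.fst (Comp.const 4))
    ?_ (Comp.ite (CompP.eq hv.fst (Comp.const 5)) ?_ hX))))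
  · exact comp_upd h (f := fun x w l => (v x w).2.2.2.2.2 * dg (p x w) (X x w) l % p x w)
      hv.snd.snd.snd.fst hX (Comp.mod (Comp.mul hs hd) hp')
  · have hi := comp_indN h' hv'.snd.fst hv'.snd.snd.fst hv'.snd.snd.snd.fst
      hv'.snd.snd.snd.snd.fst hX'
    have hd2 := comp_dg hp' hX' (Comp.add (Comp.mul h'.cM h'.cD) hu)
    exact comp_upd h (f := fun x w l => (dg (p x w) (X x w) l + (v x w).2.2.2.2.2 *
      indN (P x w) (p x w) (v x w).2.1 (v x w).2.2.1 (v x w).2.2.2.1 (v x w).2.2.2.2.1 (X x w) %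
        p x w * dg (p x w) (X x w) ((P x w).M * (P x w).D + l % (P x w).D)) % p x w)
      hv.snd.snd.snd.fst hX
      (Comp.mod (Comp.add hd (Comp.mul (Comp.mod (Comp.mul hs hi) hp') hd2)) hp')
  · have ho := comp_outN h' hv'.snd.fst hv'.snd.snd.fst hX' hu
    exact comp_upd h (f := fun x w l => (dg (p x w) (X x w) l + (v x w).2.2.2.2.2 *
      outN (P x w) (p x w) (v x w).2.1 (v x w).2.2.1 (X x w) (l % (P x w).D)) % p x w)
      h.cM hX (Comp.mod (Comp.add hd (Comp.mul hs ho)) hp')
  · have ho := comp_locN h' hv'.snd.fst hv'.snd.snd.fst hv'.snd.snd.snd.fst hX' hu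
    exact comp_upd h (f := fun x w l => (dg (p x w) (X x w) l + (v x w).2.2.2.2.2 *
      locN (P x w) (p x w) (v x w).2.1 (v x w).2.2.1 (v x w).2.2.2.1 (X x w)
        (l % (P x w).D)) % p x w)
      hv.snd.snd.snd.fst hX (Comp.mod (Comp.add hd (Comp.mul hs ho)) hp')
  · have hb : Comp K fun x (t : σ × ℕ) => base x t.1 (v x t.1).2.2.1 :=
      h.cb.comp (Comp.pair Comp.id.fst hv'.snd.snd.fst)
    have ho : Comp K fun x (t : σ × ℕ) => if (base x t.1 (v x t.1).2.2.1).testBit
        (t.2 % (P x t.1).D) then 1 else 0 := Comp.ind (CompP.testBit hb hu)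
    exact comp_upd h (f := fun x w l => (dg (p x w) (X x w) l + (v x w).2.2.2.2.2 *
      (if (base x w (v x w).2.2.1).testBit (l % (P x w).D) then 1 else 0)) % p x w)
      h.cM hX (Comp.mod (Comp.add hd (Comp.mul hs ho)) hp')

/-! ### The algorithm -/

/-- The content of the registers after `n` steps. -/
def runX (P : Sys) (base : ℕ → ℕ) (p g q n : ℕ) : ℕ :=
  itr (fun pos X => stepN P base p (descN P p g (5, g, q, 0, 0, 1) pos g) X) 0 n

theorem runX_lt {P : Sys} {base : ℕ → ℕ} {p : ℕ} (hp : 0 < p) (g q n : ℕ) :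
    runX P base p g q n < p ^ ((P.M + 1) * P.D) := by
  induction n with
  | zero => exact Nat.pow_pos hp
  | succ n ih => exact stepN_lt hp _ ih

theorem rg_runX {p : ℕ} [Fact p.Prime] (P : Sys) (base : ℕ → ℕ) (g q n : ℕ) :
    rg p P.D P.M (runX P base p g q n) =
      runN n (fun pos => prim P base (desc P (.lev g q 1) g pos g)) (fun _ _ => 0) := by
  have hp : p.Prime := Fact.out
  have hp2 := hp.two_le
  induction n with
  | zero => exact rg_zero p P.D P.M
  | succ n ih =>
    have h0 : Bdd P.M p g (q + 2 ^ P.D) (5, g, q, 0, 0, 1) := by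
      refine ⟨?_, ?_, ?_, ?_, ?_, ?_⟩
      · norm_num
      · exact le_rfl
      · exact Nat.le_add_right _ _
      · exact Nat.zero_le _
      · exact Nat.zero_le _
      · exact hp.one_lt.le
    obtain ⟨h1, h2⟩ := nd6_desc P (5, g, q, 0, 0, 1) g n g (Nat.le_add_left _ _) h0
    rw [runN_succ, ← ih]
    change rg p P.D P.M (stepN P base p (descN P p g (5, g, q, 0, 0, 1) n g)
      (runX P base p g q n)) = _
    rw [step_rg P base _ _ h1.2.2.2.1, h2]
    have e : nd6 p (5, g, q, 0, 0, 1) = .lev g q 1 := by simp [nd6]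
    rw [e]

/-- The result from the content of the registers. -/
theorem lvA_eq {p : ℕ} [Fact p.Prime] (P : Sys) (hP : P.Ok) (base : ℕ → ℕ)
    (hb : ∀ q, base q < 2 ^ P.D) (hpc : P.M * P.D < p - 1) (g q : ℕ) :
    pack 2 (fun u => dg p (runX P base p g q (zz P p ^ g)) (P.M * P.D + u) % 2) P.D =
      lvA P base g q := by
  have hp : p.Prime := Fact.out
  have h1 := rg_runX P base g q (zz P p ^ g) (p := p)
  rw [algo P hP base hb hpc g q] at h1
  have h2 : ∀ u < P.D, dg p (runX P base p g q (zz P p ^ g)) (P.M * P.D + u) =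
      if (lvA P base g q).testBit u then 1 else 0 := by
    intro u hu
    have h3 := congrFun (congrFun h1 P.M) u
    unfold rg addB at h3
    rw [if_pos ⟨le_rfl, hu⟩, Function.update_self] at h3
    have h4 : ((dg p (runX P base p g q (zz P p ^ g)) (P.M * P.D + u) : ℕ) : ZMod p) =
        (((if (lvA P base g q).testBit u then 1 else 0) : ℕ) : ZMod p) := by
      rw [h3]
      change (0 : ZMod p) + cv p P.D (lvA P base g q) u = _
      unfold cv
      rw [zero_add]
      by_cases hb : (lvA P base g q).testBit u <;> simp [hu, hb]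
    rw [ZMod.natCast_eq_natCast_iff] at h4
    refine Nat.ModEq.eq_of_lt_of_lt h4 (dg_lt hp.pos _ _) ?_
    split_ifs
    · exact hp.one_lt
    · exact hp.pos
  have h5 : pack 2 (fun u => dg p (runX P base p g q (zz P p ^ g)) (P.M * P.D + u) % 2) P.D =
      pack 2 (fun u => if (lvA P base g q).testBit u then 1 else 0) P.D := by
    refine Finset.sum_congr rfl fun u hu => ?_
    change dg p (runX P base p g q (zz P p ^ g)) (P.M * P.D + u) % 2 * 2 ^ u =
      (if (lvA P base g q).testBit u then 1 else 0) * 2 ^ u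
    rw [h2 u (Finset.mem_range.1 hu)]
    split_ifs <;> rfl
  rw [h5]
  exact pack_bits _ _ (lvA_lt P hP base hb g q)

theorem comp_runX (h : Good K P base p g) {q : List α → σ → ℕ} (hq : Comp K q) :
    Comp K fun x w => runX (P x w) (base x w) (p x w) (g x w) (q x w)
      (zz (P x w) (p x w) ^ g x w) := by
  have h' := h.comp (Comp.id.fst : Comp K fun x (t : σ × ℕ × ℕ) => t.1)
  have hd := comp_descN h' (v := fun x (t : σ × ℕ × ℕ) => (5, g x t.1, q x t.1, 0, 0, 1))
    (a := fun x (t : σ × ℕ × ℕ) => t.2.1)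
    (Comp.pair (Comp.const 5) (Comp.pair h'.cg (Comp.pair (hq.comp Comp.id.fst)
      (Comp.const (0, 0, 1))))) Comp.id.snd.fst
  exact Comp.itr_nat (h := fun x w pos X => stepN (P x w) (base x w) (p x w)
    (descN (P x w) (p x w) (g x w) (5, g x w, q x w, 0, 0, 1) pos (g x w)) X)
    (F := fun x w => p x w ^ (((P x w).M + 1) * (P x w).D))
    (comp_stepN h' hd Comp.id.snd.snd) (Comp.const 0) h.czzg h.bR
    fun x w i _ => (runX_lt (h.prime x w).pos _ _ _).le

/-- The levels of the recursion are computable in small space. -/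
theorem comp_lvA (h : Good K P base p g) (hok : ∀ x w, (P x w).Ok)
    (hbase : ∀ x w q, base x w q < 2 ^ (P x w).D)
    (hpc : ∀ x w, (P x w).M * (P x w).D < p x w - 1) {q : List α → σ → ℕ} (hq : Comp K q) :
    Comp K fun x w => lvA (P x w) (base x w) (g x w) (q x w) := by
  have h' := h.comp (Comp.id.fst : Comp K fun x (t : σ × ℕ) => t.1)
  have hX := (comp_runX h hq).comp (Comp.id.fst : Comp K fun x (t : σ × ℕ) => t.1)
  have hd : Comp K fun x (t : σ × ℕ) => dg (p x t.1) (runX (P x t.1) (base x t.1) (p x t.1)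
      (g x t.1) (q x t.1) (zz (P x t.1) (p x t.1) ^ g x t.1)) ((P x t.1).M * (P x t.1).D + t.2) %
        2 :=
    Comp.mod (comp_dg h'.cp hX (Comp.add (Comp.mul h'.cM h'.cD) Comp.id.snd)) (Comp.const 2)
  refine (comp_pack (p := fun _ _ => 2) (d := fun x w u => dg (p x w) (runX (P x w) (base x w)
    (p x w) (g x w) (q x w) (zz (P x w) (p x w) ^ g x w)) ((P x w).M * (P x w).D + u) % 2)
    hd h.cD (Comp.const 2) h.c2D.bd).of_eq fun x w => ?_
  have : Fact (p x w).Prime := ⟨h.prime x w⟩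
  exact lvA_eq (P x w) (hok x w) (base x w) (hbase x w) (hpc x w) _ _

end

end Nm

end DU

end Pool.Agent.MP_6216ea_lc
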