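import Pool.Agent.Lib.MP_6216ea_lc.DUFun

/-! The computability of the numeric recursion. -/

set_option autoImplicit false

namespace Pool.Agent.MP_6216ea_lc

namespace DU

open SP

/-- Computable parameters, with the necessary bounds. -/
structure PmC {α : Type} (K : List α → ℕ) (P : List α → Pm) : Prop where
  p : Comp K fun x (_ : Unit) => (P x).p
  D : Comp K fun x (_ : Unit) => (P x).D
  b : Comp K fun x (_ : Unit) => (P x).b
  g : Comp K fun x (_ : Unit) => (P x).g
  NS : Comp K fun x (_ : Unit) => (P x).NS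
  T : Comp K fun x (_ : Unit) => (P x).T
  C : Comp K fun x (_ : Unit) => (P x).C
  p_pos : ∀ x, 2 ≤ (P x).p
  NS_pos : ∀ x, 1 ≤ (P x).NS
  b_pos : ∀ x, 1 ≤ (P x).b
  zz : Bd K fun x (_ : Unit) => zzN (P x) ^ (P x).g
  zz1 : Bd K fun x (_ : Unit) => zzN (P x)
  MD : Bd K fun x (_ : Unit) => 2 ^ (MM (P x) * (P x).D)

/-- Computable numeric programs. -/
structure NPC {α : Type} (K : List α → ℕ) (N : List α → NP) : Prop where
  kind : Comp K fun x (v : ℕ) => (N x).kind v
  pos : Comp K fun x (v : ℕ) => (N x).pos v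
  sym : Comp K fun x (v : ℕ) => (N x).sym v
  nx : Comp K fun x (v : ℕ × ℕ) => (N x).nx v.1 v.2
  acc : Comp K fun x (v : ℕ) => (N x).acc v
  start : Comp K fun x (_ : Unit) => (N x).start

theorem MM_le_zzN (P : Pm) (hp : 2 ≤ P.p) : MM P ≤ zzN P := by
  have h1 : MM P ≤ radN P := by
    unfold radN
    obtain ⟨k, hk⟩ : ∃ k, P.p = k + 2 := ⟨P.p - 2, by omega⟩
    rw [hk]
    have h2 : k + 2 - 1 = k + 1 := by omega
    rw [h2]
    nlinarith [Nat.zero_le (k * (4 * MM P + 1))]
  have h2 : 1 ≤ radN P := by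
    unfold radN
    exact Nat.mul_pos (by omega) (by omega)
  have h3 : radN P ≤ radN P ^ (MM P + 1) := Nat.le_self_pow (by omega) _
  have h4 : 1 ≤ 4 * 2 ^ P.D := Nat.mul_pos (by norm_num) (Nat.two_pow_pos _)
  unfold zzN
  calc MM P ≤ radN P ^ (MM P + 1) * 1 := by rw [mul_one]; exact h1.trans h3
    _ ≤ _ := Nat.mul_le_mul_left _ h4

section

variable {α : Type} {K : List α → ℕ} {P : List α → Pm} {N : List α → NP}
  {σ : Type} [Tup σ]

/-- The parameters in any context. -/
theorem PmC.pc (hP : PmC K P) : PC K fun x (_ : σ) => P x where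
  D := Comp.comp (g := fun x (_ : Unit) => (P x).D) hP.D (Comp.const ())
  b := Comp.comp (g := fun x (_ : Unit) => (P x).b) hP.b (Comp.const ())
  NS := Comp.comp (g := fun x (_ : Unit) => (P x).NS) hP.NS (Comp.const ())
  T := Comp.comp (g := fun x (_ : Unit) => (P x).T) hP.T (Comp.const ())
  NS_pos x _ := hP.NS_pos x
  M := (Bd.comp (F := fun x (_ : Unit) => zzN (P x)) hP.zz1 (Comp.const ())).mono
    fun x _ => MM_le_zzN (P x) (hP.p_pos x)

/-- The programs in any context. -/
theorem NPC.nc (hN : NPC K N) : NC K fun x (_ : σ) => N x where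
  kind := Comp.comp (g := fun x (v : ℕ) => (N x).kind v) hN.kind Comp.id.snd
  pos := Comp.comp (g := fun x (v : ℕ) => (N x).pos v) hN.pos Comp.id.snd
  sym := Comp.comp (g := fun x (v : ℕ) => (N x).sym v) hN.sym Comp.id.snd
  nx := Comp.comp (g := fun x (v : ℕ × ℕ) => (N x).nx v.1 v.2) hN.nx Comp.id.snd

/-- The items which are calls. -/
theorem pm_callC (hP : PmC K P) :
    CompP K fun x (v : σ × ℕ) => callC (P x).b v.2 = true :=
  comp_callC (P := fun x (_ : σ) => P x) hP.pc

/-- The items, as a function of the packed answers. -/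
theorem pm_fnC (hP : PmC K P) :
    Comp K fun x (v : σ × ℕ × ℕ × ℕ × ℕ) => fnC (oneN (P x)) ((P x).b * v.2.1)
      (P x).b v.2.2.1 v.2.2.2.1 (yv (P x).D v.2.2.2.2) :=
  comp_fnC (P := fun x (_ : σ) => P x) hP.pc

/-- The results, as a function of the packed answers. -/
theorem pm_rfC (hP : PmC K P) :
    Comp K fun x (v : σ × ℕ × ℕ × ℕ) => rfC (oneN (P x)) ((P x).b * v.2.1)
      (P x).b v.2.2.1 (yv (P x).D v.2.2.2) :=
  comp_rfC (P := fun x (_ : σ) => P x) hP.pc

/-- The lowest level. -/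
theorem pm_baseN [Finite α] (hP : PmC K P) (hN : NPC K N) (la : Option α → ℕ) :
    Comp K fun x (v : σ × ℕ) => baseN (P x) (N x) (fun i => la x[i]?) v.2 :=
  comp_baseN (P := fun x (_ : σ × ℕ) => P x) (N := fun x (_ : σ × ℕ) => N x)
    (lt := fun x _ i => la x[i]?) hP.pc hN.nc (Comp.read la Comp.id.snd) Comp.id.snd

/-- The entries of a question. -/
theorem pm_fB {v : List α → σ → ℕ} (hv : Comp K v) : Comp K fun x w => fB (v x w) :=
  comp_fB hv

theorem pm_fC (hP : PmC K P) {v : List α → σ → ℕ} (hv : Comp K v) :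
    Comp K fun x w => fC (P x) (v x w) :=
  comp_fC (P := fun x (_ : σ) => P x) hP.pc hv

theorem pm_mkq (hP : PmC K P) {c s t r b : List α → σ → ℕ} (hc : Comp K c) (hs : Comp K s)
    (ht : Comp K t) (hr : Comp K r) (hb : Comp K b) :
    Comp K fun x w => mkq (P x) (c x w) (s x w) (t x w) (r x w) (b x w) :=
  comp_mkq (P := fun x (_ : σ) => P x) hP.pc hc hs ht hr hb

end

end DU

end Pool.Agent.MP_6216ea_lc
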