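import Pool.Agent.Lib.MP_6216ea_lc.DUDef
import Pool.Agent.Lib.MP_6216ea_lc.DCBase

/-! Numeric pushdown programs which simulate a pushdown program on an input. -/

set_option autoImplicit false

namespace Pool.Agent.MP_6216ea_lc

namespace DU

open SP

/-- The numeric program `N` simulates the pushdown program `PP` on the input `x`; `lt` are the
codes of the letters, `cd` the codes of the nodes. -/
structure Cod {ι α : Type} (PP : PushProg ι α) (NS : ℕ) (N : NP) (x : ι → α) (lt : ℕ → ℕ)
    (cd : PP.S → ℕ) : Prop where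
  lt_NS : ∀ s, cd s < NS
  jump : ∀ s s', PP.instr s = .jump s' → N.kind (cd s) = 0 ∧ N.nx (cd s) 0 = cd s'
  read : ∀ s i f, PP.instr s = .read i f → N.kind (cd s) = 1 ∧
    N.nx (cd s) (lt (N.pos (cd s))) = cd (f (x i))
  push : ∀ s g s', PP.instr s = .push g s' → N.kind (cd s) = 2 ∧ N.nx (cd s) 0 = cd s'
  pop : ∀ s f, PP.instr s = .pop f → N.kind (cd s) = 3 ∧
    ∀ c g s', PP.instr c = .push g s' → N.nx (cd s) (N.sym (cd c)) = cd (f g)
  acc : ∀ s, N.acc (cd s) = 1 ↔ PP.acc s = true
  start : N.start = cd PP.start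

/-- Accepting nodes become loops. -/
def absN (N : NP) : NP where
  kind v := if N.acc v = 1 then 0 else N.kind v
  pos := N.pos
  sym := N.sym
  nx v a := if N.acc v = 1 then v else N.nx v a
  acc := N.acc
  start := N.start

/-- The code of a question or answer. -/
def qcd (P : Pm) {S : Type} (cd : S → ℕ) (q : QA S P.T) : ℕ :=
  mkq P (cd q.c) (cd q.s) q.t.val q.r.val (if q.b = true then 1 else 0)

end DU

end Pool.Agent.MP_6216ea_lc
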