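import Pool.Agent.Lib.MP_6216ea_lc.DUPos

/-! The composite protocol of `b` levels of a recursion with six calls. -/

set_option autoImplicit false

namespace Pool.Agent.MP_6216ea_lc

namespace DU

/-- The recursion: level `L + 1` asks the six questions `h L q m a` (`a` the answers to the
questions `0, …, m - 1`, and `0`) at level `L`, and its value is `e L q a`. -/
structure One where
  h : ℕ → ℕ → ℕ → (ℕ → ℕ) → ℕ
  e : ℕ → ℕ → (ℕ → ℕ) → ℕ

/-- The answers to the first `m` questions. -/
def fs (O : One) (A : ℕ → ℕ) (L q : ℕ) : ℕ → ℕ → ℕ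
  | 0 => fun _ => 0
  | m + 1 => Function.update (fs O A L q m) m (A (O.h L q m (fs O A L q m)))

/-- The levels of the recursion. -/
def fineA (O : One) (base : ℕ → ℕ) : ℕ → ℕ → ℕ
  | 0, q => base q
  | L + 1, q => O.e L q (fs O (fineA O base L) L q 6)

/-- The number of items of the composite protocol. -/
def Mc : ℕ → ℕ
  | 0 => 1
  | b + 1 => 6 * (Mc b + 1)

/-- The items which are calls. -/
def callC : ℕ → ℕ → Bool
  | 0, _ => true
  | b + 1, j => decide (j % (Mc b + 1) < Mc b) && callC b (j % (Mc b + 1))

/-- The result. -/
def rfC (O : One) (L₀ : ℕ) : ℕ → ℕ → (ℕ → ℕ) → ℕ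
  | 0, _, y => y 0
  | b + 1, q, y => O.e (L₀ + b) q (fun m => y (m * (Mc b + 1) + Mc b))

/-- The items. -/
def fnC (O : One) (L₀ : ℕ) : ℕ → ℕ → ℕ → (ℕ → ℕ) → ℕ
  | 0, q, _, _ => q
  | b + 1, q, j, y =>
    if j % (Mc b + 1) < Mc b then
      fnC O L₀ b (O.h (L₀ + b) q (j / (Mc b + 1)) (fun m => y (m * (Mc b + 1) + Mc b)))
        (j % (Mc b + 1)) (fun k => y (j / (Mc b + 1) * (Mc b + 1) + k))
    else
      rfC O L₀ b (O.h (L₀ + b) q (j / (Mc b + 1)) (fun m => y (m * (Mc b + 1) + Mc b)))
        (fun k => y (j / (Mc b + 1) * (Mc b + 1) + k))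

/-- The values of the items of the composite protocol. -/
def yc (O : One) (A : ℕ → ℕ) (L₀ b q : ℕ) : ℕ → ℕ → ℕ
  | 0 => fun _ => 0
  | j + 1 => Function.update (yc O A L₀ b q j) j
      (if callC b j then A (fnC O L₀ b q j (yc O A L₀ b q j))
        else fnC O L₀ b q j (yc O A L₀ b q j))

theorem yc_ge (O : One) (A : ℕ → ℕ) (L₀ b q n k : ℕ) (h : n ≤ k) : yc O A L₀ b q n k = 0 := by
  induction n with
  | zero => rfl
  | succ n ih => rw [yc, Function.update_of_ne (by omega), ih (by omega)]

theorem fs_ge (O : One) (A : ℕ → ℕ) (L q n k : ℕ) (h : n ≤ k) : fs O A L q n k = 0 := by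
  induction n with
  | zero => rfl
  | succ n ih => rw [fs, Function.update_of_ne (by omega), ih (by omega)]

theorem rfC_yc (O : One) (base : ℕ → ℕ) (L₀ b q : ℕ) :
    rfC O L₀ b q (yc O (fineA O base L₀) L₀ b q (Mc b)) = fineA O base (L₀ + b) q := by
  obtain ⟨A, hA⟩ : ∃ A, A = fineA O base L₀ := ⟨_, rfl⟩
  rw [← hA]
  induction b generalizing q with
  | zero =>
    simp only [rfC, Mc, yc, Function.update_self, callC, if_true, fnC, Nat.add_zero]
    rw [hA]
  | succ b ih =>
    obtain ⟨S, hS⟩ : ∃ S, S = Mc b + 1 := ⟨_, rfl⟩
    obtain ⟨A', hA'⟩ : ∃ A', A' = fineA O base (L₀ + b) := ⟨_, rfl⟩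
    have key : ∀ m, (fun m' => yc O A L₀ (b + 1) q (m * S) (m' * S + Mc b)) =
        fs O A' (L₀ + b) q m := by
      intro m
      induction m with
      | zero =>
        funext m'
        rw [Nat.zero_mul]
        rfl
      | succ m ihm =>
        obtain ⟨q', hq'⟩ : ∃ q', q' = O.h (L₀ + b) q m (fs O A' (L₀ + b) q m) := ⟨_, rfl⟩
        have inner : ∀ r ≤ Mc b,
            (fun m' => yc O A L₀ (b + 1) q (m * S + r) (m' * S + Mc b)) =
              fs O A' (L₀ + b) q m ∧
            (fun k => yc O A L₀ (b + 1) q (m * S + r) (m * S + k)) =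
              yc O A L₀ b q' r := by
          intro r
          induction r with
          | zero =>
            intro _
            refine ⟨ihm, ?_⟩
            funext k
            rw [yc_ge _ _ _ _ _ _ _ (by omega)]
            rfl
          | succ r ihr =>
            intro hr
            obtain ⟨h1, h2⟩ := ihr (by omega)
            have hd : (m * S + r) / S = m := by
              rw [Nat.add_comm, Nat.add_mul_div_right _ _ (by omega),
                Nat.div_eq_of_lt (by omega), Nat.zero_add]
            have hm : (m * S + r) % S = r := by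
              rw [Nat.add_comm, Nat.add_mul_mod_self_right, Nat.mod_eq_of_lt (by omega)]
            have hval : (if callC (b + 1) (m * S + r) then
                A (fnC O L₀ (b + 1) q (m * S + r) (yc O A L₀ (b + 1) q (m * S + r)))
                else fnC O L₀ (b + 1) q (m * S + r) (yc O A L₀ (b + 1) q (m * S + r))) =
                (if callC b r then A (fnC O L₀ b q' r (yc O A L₀ b q' r))
                else fnC O L₀ b q' r (yc O A L₀ b q' r)) := by
              have e1 : callC (b + 1) (m * S + r) = callC b r := by
                simp only [callC, ← hS, hm]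
                simp [show r < Mc b by omega]
              have e2 : fnC O L₀ (b + 1) q (m * S + r) (yc O A L₀ (b + 1) q (m * S + r)) =
                  fnC O L₀ b q' r (yc O A L₀ b q' r) := by
                simp only [fnC, ← hS, hm, hd]
                rw [if_pos (show r < Mc b by omega), h1, h2, ← hq']
              rw [e1, e2]
            rw [show m * S + (r + 1) = (m * S + r) + 1 by ring]
            constructor
            · funext m'
              rw [yc]
              have hne : m' * S + Mc b ≠ m * S + r := by
                intro h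
                rcases Nat.lt_trichotomy m' m with h3 | h3 | h3
                · have : (m' + 1) * S ≤ m * S := Nat.mul_le_mul_right _ h3
                  rw [Nat.succ_mul] at this
                  omega
                · subst h3; omega
                · have : (m + 1) * S ≤ m' * S := Nat.mul_le_mul_right _ h3
                  rw [Nat.succ_mul] at this
                  omega
              rw [Function.update_of_ne hne]
              exact congrFun h1 m'
            · funext k
              conv_rhs => rw [yc]
              rw [yc, hval]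
              by_cases hk : k = r
              · subst hk
                rw [Function.update_self, Function.update_self]
              · rw [Function.update_of_ne hk, Function.update_of_ne (by omega)]
                exact congrFun h2 k
        obtain ⟨h1, h2⟩ := inner (Mc b) le_rfl
        rw [show (m + 1) * S = (m * S + Mc b) + 1 by rw [Nat.succ_mul]; omega]
        have hd : (m * S + Mc b) / S = m := by
          rw [Nat.add_comm, Nat.add_mul_div_right _ _ (by omega),
            Nat.div_eq_of_lt (by omega), Nat.zero_add]
        have hm : (m * S + Mc b) % S = Mc b := by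
          rw [Nat.add_comm, Nat.add_mul_mod_self_right, Nat.mod_eq_of_lt (by omega)]
        have hval : (if callC (b + 1) (m * S + Mc b) then
            A (fnC O L₀ (b + 1) q (m * S + Mc b) (yc O A L₀ (b + 1) q (m * S + Mc b)))
            else fnC O L₀ (b + 1) q (m * S + Mc b) (yc O A L₀ (b + 1) q (m * S + Mc b))) =
            A' q' := by
          have e1 : callC (b + 1) (m * S + Mc b) = false := by
            simp only [callC, ← hS, hm]
            simp
          rw [e1]
          simp only [fnC, ← hS, hm, hd, lt_irrefl, if_false, Bool.false_eq_true]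
          rw [h1, h2, ← hq', ih q', hA']
        funext m'
        rw [yc, hval, fs, ← hq']
        by_cases h3 : m' = m
        · subst h3
          rw [Function.update_self, Function.update_self]
        · have hne : m' * S + Mc b ≠ m * S + Mc b := by
            intro h
            have : m' * S = m * S := by omega
            exact h3 (Nat.eq_of_mul_eq_mul_right (by omega) this)
          rw [Function.update_of_ne hne, Function.update_of_ne h3]
          exact congrFun h1 m'
    have e : Mc (b + 1) = 6 * S := by rw [hS]; rfl
    rw [e]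
    change O.e (L₀ + b) q (fun m => yc O A L₀ (b + 1) q (6 * S) (m * (Mc b + 1) + Mc b)) = _
    rw [← hS, key 6, hA']
    rfl

/-- The system of the composite protocols of `b` levels. -/
def sysC (O : One) (D b : ℕ) : Sys where
  D := D
  M := Mc b
  call := callC b
  fn i q j y := fnC O (b * i) b q j y
  rf i q y := rfC O (b * i) b q y

theorem ys_sysC (O : One) (D b : ℕ) (A : ℕ → ℕ) (i q n : ℕ) :
    ys (sysC O D b) A i q n = yc O A (b * i) b q n := by
  induction n with
  | zero => rfl
  | succ n ih =>
    rw [ys, ih]
    rfl

theorem lvA_sysC (O : One) (D b : ℕ) (base : ℕ → ℕ) (i q : ℕ) :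
    lvA (sysC O D b) base i q = fineA O base (b * i) q := by
  induction i generalizing q with
  | zero => rfl
  | succ i ih =>
    have h : lvA (sysC O D b) base i = fineA O base (b * i) := funext ih
    rw [lvA, h, ys_sysC]
    exact rfC_yc O base (b * i) b q

theorem fnC_lt (O : One) (B : ℕ) (hh : ∀ L q m a, (∀ k, a k < B) → O.h L q m a < B)
    (he : ∀ L q a, (∀ k, a k < B) → O.e L q a < B) (L₀ b : ℕ) :
    (∀ q y, (∀ k, y k < B) → rfC O L₀ b q y < B) ∧
    (∀ q j y, q < B → (∀ k, y k < B) → fnC O L₀ b q j y < B) := by
  induction b with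
  | zero => exact ⟨fun q y hy => hy 0, fun q j y hq _ => hq⟩
  | succ b ih =>
    refine ⟨fun q y hy => he _ _ _ fun k => hy _, fun q j y hq hy => ?_⟩
    simp only [fnC]
    split_ifs
    · exact ih.2 _ _ _ (hh _ _ _ _ fun k => hy _) fun k => hy _
    · exact ih.1 _ _ fun k => hy _

theorem sysC_ok (O : One) (D b : ℕ) (hb : 1 ≤ b)
    (hh : ∀ L q m a, (∀ k, a k < 2 ^ D) → O.h L q m a < 2 ^ D)
    (he : ∀ L q a, (∀ k, a k < 2 ^ D) → O.e L q a < 2 ^ D) : (sysC O D b).Ok := by
  obtain ⟨b, rfl⟩ : ∃ b', b = b' + 1 := ⟨b - 1, by omega⟩
  constructor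
  · intro i q j y hy
    change fnC O _ (b + 1) q j y < 2 ^ D
    simp only [fnC]
    split_ifs
    · exact (fnC_lt O _ hh he _ b).2 _ _ _ (hh _ _ _ _ fun k => hy _) fun k => hy _
    · exact (fnC_lt O _ hh he _ b).1 _ _ fun k => hy _
  · intro i q y hy
    exact (fnC_lt O _ hh he _ (b + 1)).1 _ _ hy

end DU

end Pool.Agent.MP_6216ea_lc
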