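import Pool.Agent.Lib.MP_6216ea_lc.DUComp
import Pool.Agent.Lib.MP_6216ea_lc.SP.Arith

/-! The numeric form of the uniform algorithm: all functions as functions of numbers. -/

set_option autoImplicit false

namespace Pool.Agent.MP_6216ea_lc

namespace DU

open SP

/-- The parameters: the prime `p`, the number `D` of bits of a question, the number `b` of levels of
the recursion in a composite level, the number `g` of composite levels, the number `NS` of nodes
of the pushdown program, the time bound `T = 2 ^ (b * g)`, and `C`, a bound for the content of the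
registers. -/
structure Pm where
  p : ℕ
  D : ℕ
  b : ℕ
  g : ℕ
  NS : ℕ
  T : ℕ
  C : ℕ

/-- The numeric pushdown program: the kind of a node (`0` jump, `1` read, `2` push, otherwise
pop), the position read, the symbol pushed, the next node for the code of a letter or a symbol
(`0` for jump and push), the accepting nodes (`1`), and the start node. -/
structure NP where
  kind : ℕ → ℕ
  pos : ℕ → ℕ
  sym : ℕ → ℕ
  nx : ℕ → ℕ → ℕ
  acc : ℕ → ℕ
  start : ℕ

variable (P : Pm)

/-- The digit `i` to the base `p`. -/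
def dg (R i : ℕ) : ℕ := R / P.p ^ i % P.p

/-- Replace the digit `i` by `v`. -/
def st (R i v : ℕ) : ℕ := min P.C (setDigit P.p R i v)

/-- Bit `i` of `e`. -/
def bt (e i : ℕ) : ℕ := if e.testBit i = true then 1 else 0

/-- The product in the multilinear extension, modulo `p`. -/
def prodN (e m : ℕ) (r : ℕ → ℕ) : ℕ :=
  (∏ i ∈ Finset.range m, if e.testBit i = true then r i else 1 + P.p - r i) % P.p

/-- The multilinear extension of `f`, modulo `p`. -/
def extN (m : ℕ) (f r : ℕ → ℕ) : ℕ :=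
  (∑ e ∈ Finset.range (2 ^ m), f e * prodN P e m r) % P.p

/-- The first `j` blocks of the registers. -/
def trN (j R i : ℕ) : ℕ := if i < j * P.D then dg P R i else 0

/-! ### The composite protocol -/

/-- The remainder at height `b - t`. -/
def resN (j : ℕ) : ℕ → ℕ
  | 0 => j
  | t + 1 => resN j t % (Mc (P.b - 1 - t) + 1)

/-- The question at height `b - t`. -/
def qstN (O : One) (L q j : ℕ) (y : ℕ → ℕ) : ℕ → ℕ
  | 0 => q
  | t + 1 => O.h (L + (P.b - 1 - t)) (qstN O L q j y t) (resN P j t / (Mc (P.b - 1 - t) + 1))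
      (fun m => y (j - resN P j t + m * (Mc (P.b - 1 - t) + 1) + Mc (P.b - 1 - t)))

/-- The number of steps to the height of a local item, `b` for a call. -/
def stopN (j : ℕ) : ℕ :=
  itr (fun t v => if v = P.b then (if resN P j (t + 1) < Mc (P.b - 1 - t) then P.b else t) else v)
    P.b P.b

/-- The result of the composite protocol of `s` levels. -/
def rfN (O : One) (L s q : ℕ) (y : ℕ → ℕ) : ℕ :=
  if s = 0 then y 0 else O.e (L + (s - 1)) q (fun m => y (m * (Mc (s - 1) + 1) + Mc (s - 1)))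

/-- The items. -/
def fnN (O : One) (L q j : ℕ) (y : ℕ → ℕ) : ℕ :=
  if stopN P j = P.b then qstN P O L q j y P.b
  else rfN O L (P.b - 1 - stopN P j) (qstN P O L q j y (stopN P j + 1))
    (fun k => y (j - resN P j (stopN P j + 1) + k))

/-! ### The recursion for pushdown programs -/

/-- The entries of a question or answer. -/
def fC (v : ℕ) : ℕ := v / (2 * (P.T + 1) * (P.T + 1) * P.NS) % P.NS

/-- The entries of a question or answer. -/
def fS (v : ℕ) : ℕ := v / (2 * (P.T + 1) * (P.T + 1)) % P.NS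

/-- The entries of a question or answer. -/
def fT (v : ℕ) : ℕ := v / (2 * (P.T + 1)) % (P.T + 1)

/-- The entries of a question or answer. -/
def fR (v : ℕ) : ℕ := v / 2 % (P.T + 1)

/-- The entries of a question or answer. -/
def fB (v : ℕ) : ℕ := v % 2

/-- The code of a question or answer. -/
def mkq (c s t r b : ℕ) : ℕ :=
  (((c * P.NS + s) * (P.T + 1) + min t P.T) * (P.T + 1) + min r P.T) * 2 + b

/-- The time scale of level `L`. -/
def kk (L : ℕ) : ℕ := min P.T (2 ^ L)

/-- The time of the first half. -/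
def r1 (L q : ℕ) : ℕ := min (fR P q) (kk P L)

/-- The time of the second half. -/
def r2 (L q : ℕ) : ℕ := fR P q - r1 P L q

/-- Parameter `l`. -/
def ml (L q a1 : ℕ) : ℕ := if fT P q ≤ kk P L then 0 else fT P a1

/-- Parameter `u`. -/
def mu (L q a1 : ℕ) : ℕ := if fT P q ≤ kk P L then fC P q else fS P a1

/-- Parameter `a`. -/
def ma (L q a1 : ℕ) : ℕ := if fT P q ≤ kk P L then fT P q else fR P a1

/-- Parameter `tu`. -/
def mt (L q a1 : ℕ) : ℕ := if fT P q ≤ kk P L then 0 else fT P q - fR P a1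

/-- The question `m`. -/
def oh (L q m : ℕ) (a : ℕ → ℕ) : ℕ :=
  if m = 0 then mkq P (fC P q) (fC P q) 0 (kk P L) 0
  else if m = 1 then mkq P (fC P q) (fC P (a 0)) (kk P L) (fT P q - kk P L) 0
  else if m = 2 then mkq P (mu P L q (a 1)) (fS P q) (ma P L q (a 1)) (r1 P L q) 0
  else if m = 3 then
    if fB (a 2) = 1 then mkq P (fC P q) (fS P (a 2)) (ml P L q (a 1)) (fR P (a 2)) 0
    else mkq P (fS P (a 2)) (fC P (a 2)) (fR P (a 2)) (r2 P L q) 0
  else if m = 4 then
    if fB (a 2) = 1 then mkq P (fS P (a 3)) (fC P (a 3)) (fR P (a 3)) (r2 P L q) 0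
    else mkq P (mu P L q (a 1)) (fS P (a 3)) (fT P (a 2)) (fR P (a 3)) 0
  else
    if fB (a 2) = 1 then mkq P (fC P q) (fS P (a 4)) (fT P (a 3)) (fR P (a 4)) 0
    else mkq P (fC P q) (fS P (a 4)) (ml P L q (a 1)) (fR P (a 4)) 0

/-- The value. -/
def oe (L q : ℕ) (a : ℕ → ℕ) : ℕ :=
  if fB (a 2) = 1 then
    if fB (a 3) = 1 then mkq P (fS P (a 3)) (fS P (a 3)) 0 (fR P (a 3) + r2 P L q) 1
    else if fB (a 4) = 1 then a 5 % 2 ^ P.D
    else mkq P (fC P (a 4)) (fS P (a 3)) (fT P (a 3)) (fR P (a 3) + r2 P L q) 0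
  else
    if fB (a 3) = 1 then
      if fB (a 4) = 1 then a 5 % 2 ^ P.D
      else mkq P (fC P (a 4)) (fS P (a 4)) (mt P L q (a 1) + fT P (a 4)) (fR P (a 4)) 0
    else mkq P (fC P (a 3)) (fS P (a 2)) (mt P L q (a 1) + fT P (a 2)) (fR P (a 2) + r2 P L q) 0

/-- The recursion. -/
def oneN : One where
  h := oh P
  e := oe P

/-- The lowest level; `lt` is the code of the letter at a position. -/
def baseN (N : NP) (lt : ℕ → ℕ) (v : ℕ) : ℕ :=
  if fR P v = 0 then mkq P (fS P v) (fS P v) (fT P v) 0 0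
  else if N.kind (fS P v) = 1 then
    mkq P (N.nx (fS P v) (lt (N.pos (fS P v))) % P.NS) (fS P v) (fT P v) 1 0
  else if N.kind (fS P v) = 0 ∨ N.kind (fS P v) = 2 then
    mkq P (N.nx (fS P v) 0 % P.NS) (fS P v) (fT P v) 1 0
  else if fT P v = 0 then mkq P (fS P v) (fS P v) 0 1 1
  else if N.kind (fC P v) = 2 then
    mkq P (N.nx (fS P v) (N.sym (fC P v)) % P.NS) (N.nx (fS P v) (N.sym (fC P v)) % P.NS) 0 0 0
  else mkq P (fS P v) (fS P v) 0 1 1

/-! ### Nodes -/

/-- Nodes: kind (`0` idle, `1` mul, `2` acc, `3` out, `4` loc, `5` lev, `6` itm, `7` mid), `i`,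
`q`, `j`, `c`, `σ`. -/
abbrev NN : Type := ℕ × ℕ × ℕ × ℕ × ℕ × ℕ

/-- The idle node. -/
def idleN : NN := (0, 0, 0, 0, 0, 0)

/-- The negative modulo `p`. -/
def negN (s : ℕ) : ℕ := (P.p - s) % P.p

/-- The inverse modulo `p`. -/
def invN (s : ℕ) : ℕ := (∏ _i ∈ Finset.range (P.p - 2), s) % P.p

/-- The number of items. -/
def MM : ℕ := Mc P.b

/-- The child of item `j`; `r` and `t` are `m % (4 M + 1)` and `m / (4 M + 1)`. -/
def slotN (i q j s m : ℕ) : NN :=
  if m % (4 * MM P + 1) < 2 * MM P then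
    if m % (4 * MM P + 1) / 2 < j then
      if m % (4 * MM P + 1) % 2 = 0 then
        (1, 0, 0, m % (4 * MM P + 1) / 2, 0, (m / (4 * MM P + 1) + 1) % P.p)
      else (6, i, q, m % (4 * MM P + 1) / 2, 0, 1 % P.p)
    else idleN
  else if m % (4 * MM P + 1) = 2 * MM P then
    if j = MM P then (3, i, q, 0, 0, negN P s)
    else if stopN P j = P.b then (7, i, q, j, 0, s)
    else (4, i, q, j, 0, negN P s)
  else if MM P - 1 - (m % (4 * MM P + 1) - (2 * MM P + 1)) / 2 < j then
    if (m % (4 * MM P + 1) - (2 * MM P + 1)) % 2 = 0 then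
      (6, i, q, MM P - 1 - (m % (4 * MM P + 1) - (2 * MM P + 1)) / 2, 0, negN P (1 % P.p))
    else (1, 0, 0, MM P - 1 - (m % (4 * MM P + 1) - (2 * MM P + 1)) / 2, 0,
      invN P ((m / (4 * MM P + 1) + 1) % P.p))
  else idleN

/-- The child for a digit of the first kind. -/
def child1N (nd : NN) (m : ℕ) : NN :=
  if nd.1 = 5 ∧ nd.2.1 ≠ 0 then slotN P (nd.2.1 - 1) nd.2.2.1 (MM P) nd.2.2.2.2.2 m
  else if nd.1 = 6 then slotN P nd.2.1 nd.2.2.1 nd.2.2.2.1 nd.2.2.2.2.2 m
  else if m = 0 then nd else idleN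

/-- The child for a digit of the second kind. -/
def child2N (nd : NN) (m : ℕ) : NN :=
  if nd.1 = 7 then
    if m % 4 = 0 then (2, nd.2.1, nd.2.2.1, nd.2.2.2.1, m / 4, nd.2.2.2.2.2)
    else if m % 4 = 1 then (5, nd.2.1, m / 4, 0, 0, 1 % P.p)
    else if m % 4 = 2 then (2, nd.2.1, nd.2.2.1, nd.2.2.2.1, m / 4, negN P nd.2.2.2.2.2)
    else (5, nd.2.1, m / 4, 0, 0, negN P (1 % P.p))
  else if m = 0 then nd else idleN

/-- The radix of the digits of the first kind. -/
def radN : ℕ := (P.p - 1) * (4 * MM P + 1)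

/-- The number of positions of one level. -/
def zzN : ℕ := radN P ^ (MM P + 1) * (4 * 2 ^ P.D)

/-- The node after the first `u` digits of `a`. -/
def desc1N (nd : NN) (a u : ℕ) : NN :=
  itr (fun u nd => child1N P nd (a / radN P ^ (MM P - u) / (4 * 2 ^ P.D) % radN P)) nd u

/-- The node reached by one level of digits. -/
def descZN (nd : NN) (a : ℕ) : NN :=
  child2N P (desc1N P nd a (MM P + 1)) (a % (4 * 2 ^ P.D))

/-- The node reached by a position. -/
def descN (nd : NN) (pos h : ℕ) : NN :=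
  itr (fun h nd => descZN P nd (pos / zzN P ^ (P.g - 1 - h) % zzN P)) nd h

/-! ### Elementary steps -/

/-- Multiply a block. -/
def mulN (k t R : ℕ) : ℕ :=
  itr (fun u R => st P R (k * P.D + u) (dg P R (k * P.D + u) * t % P.p)) R P.D

/-- Add `s * v` to a block. -/
def addN (k s : ℕ) (v : ℕ → ℕ) (R : ℕ) : ℕ :=
  itr (fun u R => st P R (k * P.D + u) ((dg P R (k * P.D + u) + s * v u) % P.p)) R P.D

/-- The extension of the indicator of `question j = c`. -/
def indN (O : One) (i q j c R : ℕ) : ℕ :=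
  extN P (MM P * P.D) (fun e => if fnN P O (P.b * i) q j (yv P.D e) = c then 1 else 0) (trN P j R)

/-- The extension of bit `u` of a local value. -/
def locN (O : One) (i q j R u : ℕ) : ℕ :=
  extN P (MM P * P.D) (fun e => bt (fnN P O (P.b * i) q j (yv P.D e)) u) (trN P j R)

/-- The extension of bit `u` of the result. -/
def outN (O : One) (i q R u : ℕ) : ℕ :=
  extN P (MM P * P.D) (fun e => bt (rfN O (P.b * i) P.b q (yv P.D e)) u) (trN P (MM P) R)

/-- The elementary steps. -/
def primN (O : One) (base : ℕ → ℕ) (nd : NN) (R : ℕ) : ℕ :=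
  if nd.1 = 1 then mulN P nd.2.2.2.1 nd.2.2.2.2.2 R
  else if nd.1 = 2 then
    addN P nd.2.2.2.1 (nd.2.2.2.2.2 *
      indN P O nd.2.1 nd.2.2.1 nd.2.2.2.1 nd.2.2.2.2.1 R % P.p) (fun u => dg P R (MM P * P.D + u)) R
  else if nd.1 = 3 then
    addN P (MM P) nd.2.2.2.2.2 (fun u => outN P O nd.2.1 nd.2.2.1 R u) R
  else if nd.1 = 4 then
    addN P nd.2.2.2.1 nd.2.2.2.2.2 (fun u => locN P O nd.2.1 nd.2.2.1 nd.2.2.2.1 R u) R
  else if nd.1 = 5 then
    addN P (MM P) nd.2.2.2.2.2 (fun u => bt (base nd.2.2.1) u) R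
  else R

/-- The registers after all steps. -/
def finN (O : One) (base : ℕ → ℕ) (q : ℕ) : ℕ :=
  itr (fun pos R => primN P O base (descN P (5, P.g, q, 0, 0, 1 % P.p) pos P.g) R) 0
    (zzN P ^ P.g)

/-- The number in the last block. -/
def valN (R : ℕ) : ℕ :=
  ∑ u ∈ Finset.range P.D, dg P R (MM P * P.D + u) % 2 * min P.C (2 ^ u)

/-- The answer. -/
def ansN (N : NP) (lt : ℕ → ℕ) (T₀ : ℕ) : ℕ :=
  if fB (valN P (finN P (oneN P) (baseN P N lt) (mkq P N.start N.start 0 T₀ 0))) = 0 ∧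
    N.acc (fC P (valN P (finN P (oneN P) (baseN P N lt) (mkq P N.start N.start 0 T₀ 0)))) = 1
  then 1 else 0

end DU

end Pool.Agent.MP_6216ea_lc
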