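import Pool.Agent.Lib.MP_6216ea_lc.DDExt

/-! Multilinear extensions of functions of the bits of a number. -/

set_option autoImplicit false

namespace Pool.Agent.MP_6216ea_lc

namespace DU

open Polynomial

variable {p : ℕ}

/-- The multilinear extension of a function `f` of the first `m` bits. -/
def ext (m : ℕ) (f : ℕ → ZMod p) (r : ℕ → ZMod p) : ZMod p :=
  ∑ e ∈ Finset.range (2 ^ m), f e *
    ∏ i ∈ Finset.range m, (if e.testBit i then r i else 1 - r i)

/-- The bits of a number. -/
def bts (p : ℕ) (e : ℕ) : ℕ → ZMod p := fun i => if e.testBit i then 1 else 0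

variable [Fact p.Prime]

omit [Fact p.Prime] in
theorem ext_congr (m : ℕ) (f : ℕ → ZMod p) {r r' : ℕ → ZMod p} (h : ∀ i < m, r i = r' i) :
    ext m f r = ext m f r' := by
  unfold ext
  refine Finset.sum_congr rfl fun e _ => ?_
  congr 1
  exact Finset.prod_congr rfl fun i hi => by rw [h i (Finset.mem_range.1 hi)]

theorem ext_bts (m : ℕ) (f : ℕ → ZMod p) (e₀ : ℕ) (h : e₀ < 2 ^ m) :
    ext m f (bts p e₀) = f e₀ := by
  unfold ext
  rw [Finset.sum_eq_single e₀]
  · have : ∏ i ∈ Finset.range m, (if e₀.testBit i then bts p e₀ i else 1 - bts p e₀ i) = 1 := by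
      apply Finset.prod_eq_one
      intro i _
      cases h : e₀.testBit i <;> simp [bts, h]
    rw [this, mul_one]
  · intro e he hne
    obtain ⟨i, hi⟩ : ∃ i, e.testBit i ≠ e₀.testBit i := by
      by_contra h'
      push Not at h'
      exact hne (Nat.eq_of_testBit_eq h')
    have him : i < m := by
      by_contra h'
      rw [Nat.testBit_lt_two_pow (lt_of_lt_of_le (Finset.mem_range.1 he)
          (Nat.pow_le_pow_right (by norm_num) (by omega))),
        Nat.testBit_lt_two_pow (lt_of_lt_of_le h
          (Nat.pow_le_pow_right (by norm_num) (by omega)))] at hi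
      exact hi rfl
    have : ∏ i ∈ Finset.range m, (if e.testBit i then bts p e₀ i else 1 - bts p e₀ i) = 0 := by
      apply Finset.prod_eq_zero (Finset.mem_range.2 him)
      cases h : e.testBit i <;> cases h' : e₀.testBit i <;> simp_all [bts]
    rw [this, mul_zero]
  · intro h'
    exact absurd (Finset.mem_range.2 h) h'

/-- The restriction of the extension to a line, as a polynomial. -/
noncomputable def line (m : ℕ) (f : ℕ → ZMod p) (u v : ℕ → ZMod p) : (ZMod p)[X] :=
  ∑ e ∈ Finset.range (2 ^ m), C (f e) * ∏ i ∈ Finset.range m,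
    (if e.testBit i then C (u i) * X + C (v i) else C (-(u i)) * X + C (1 - v i))

theorem line_eval (m : ℕ) (f : ℕ → ZMod p) (u v : ℕ → ZMod p) (t : ZMod p) :
    (line m f u v).eval t = ext m f (fun i => t * u i + v i) := by
  unfold line ext
  rw [Polynomial.eval_finset_sum]
  apply Finset.sum_congr rfl
  intro e _
  rw [Polynomial.eval_mul, Polynomial.eval_C, Polynomial.eval_prod]
  congr 1
  apply Finset.prod_congr rfl
  intro i _
  split_ifs
  · simp; ring
  · simp; ring

theorem line_deg (m : ℕ) (f : ℕ → ZMod p) (u v : ℕ → ZMod p) :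
    (line m f u v).natDegree ≤ m := by
  unfold line
  apply Polynomial.natDegree_sum_le_of_forall_le
  intro e _
  refine (Polynomial.natDegree_C_mul_le _ _).trans ?_
  refine (Polynomial.natDegree_prod_le _ _).trans ?_
  refine (Finset.sum_le_sum (g := fun _ => 1) ?_).trans ?_
  · intro i _
    split_ifs
    · exact Polynomial.natDegree_linear_le
    · exact Polynomial.natDegree_linear_le
  · simp

theorem sum_zmod {W : Type} [AddCommGroup W] (g : ZMod p → W) :
    ∑ t ∈ Finset.range (p - 1), g ((t + 1 : ℕ) : ZMod p) = (∑ t : ZMod p, g t) - g 0 := by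
  have hp : p.Prime := Fact.out
  have h1 : ∑ t : ZMod p, g t = ∑ t ∈ Finset.range p, g (t : ZMod p) := by
    haveI : NeZero p := ⟨hp.ne_zero⟩
    refine Finset.sum_bij' (fun t _ => t.val) (fun t _ => (t : ZMod p)) ?_ ?_ ?_ ?_ ?_
    · intro t _
      exact Finset.mem_range.2 (ZMod.val_lt t)
    · intro t _
      exact Finset.mem_univ _
    · intro t _
      exact ZMod.natCast_zmod_val t
    · intro t ht
      exact ZMod.val_cast_of_lt (Finset.mem_range.1 ht)
    · intro t _
      rw [ZMod.natCast_zmod_val]
  have h2 : p - 1 + 1 = p := by have := hp.pos; omega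
  have h3 := Finset.sum_range_succ' (fun t : ℕ => g (t : ZMod p)) (p - 1)
  rw [h2] at h3
  rw [h1, h3, Nat.cast_zero, add_sub_cancel_right]

/-- Interpolation at all nonzero elements. -/
theorem sum_ext (m : ℕ) (f : ℕ → ZMod p) (u v : ℕ → ZMod p) (h : m < p - 1) :
    ∑ t ∈ Finset.range (p - 1), ext m f (fun i => ((t + 1 : ℕ) : ZMod p) * u i + v i) =
      - ext m f v := by
  have h1 := MExt.sum_poly (line m f u v) (by
    rw [ZMod.card]
    exact (line_deg m f u v).trans_lt h)
  rw [sum_zmod (fun t => ext m f (fun i => t * u i + v i))]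
  have h2 : ∑ t : ZMod p, ext m f (fun i => t * u i + v i) = 0 := by
    rw [← h1]
    exact Finset.sum_congr rfl fun t _ => (line_eval m f u v t).symm
  rw [h2, zero_sub]
  simp

end DU

end Pool.Agent.MP_6216ea_lc
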