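import Pool.Agent.Lib.MP_6216ea_lc.DUCod
import Pool.Agent.Lib.MP_6216ea_lc.DCHead

/-! The numeric programs of a multi-head pushdown automaton. -/

set_option autoImplicit false

namespace Pool.Agent.MP_6216ea_lc

namespace DU

open SP

/-- A numbering of a finite set. -/
structure HnNm (β : Type) where
  e : β → ℕ
  d : ℕ → β
  m : ℕ
  de : ∀ b, d (e b) = b
  lt : ∀ b, e b < m
  dm : ∀ c, m ≤ c → d c = d m

theorem hn_exists (β : Type) [Finite β] (b₀ : β) : Nonempty (HnNm β) := by
  obtain ⟨k, ⟨e⟩⟩ := Finite.exists_equiv_fin β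
  refine ⟨⟨fun b => (e b).val, fun c => if h : c < k then e.symm ⟨c, h⟩ else b₀, k,
    fun b => ?_, fun b => (e b).isLt, fun c hc => ?_⟩⟩
  · simp only [Fin.is_lt, dite_true, Fin.eta, Equiv.symm_apply_apply]
  · rw [dif_neg (by omega), dif_neg (by omega)]

/-- The digit `h` of the positions. -/
def hnDg (n pc h : ℕ) : ℕ := pc / (n + 1) ^ h % (n + 1)

/-- The number of a node of the main part. -/
def hnMk {Q : Type} (E : HnNm Q) (t : ℕ) (q : Q) (pc : ℕ) : ℕ :=
  1 + (3 * E.e q + t) + 3 * E.m * pc

section

variable {k : ℕ} {α Γ Q : Type} (E : HnNm Q) (A : HnNm (Option α)) (G : HnNm (Option Γ))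

/-- The kind of an instruction. -/
def hnKI (n pc : ℕ) : HInstr k α Γ Q → ℕ
  | .look h _ => if hnDg n pc h.val < n then 1 else 0
  | .right _ _ => 0
  | .left _ _ _ => 0
  | .push _ _ => 2
  | .pop _ => 3

/-- The position of an instruction. -/
def hnPI (n pc : ℕ) : HInstr k α Γ Q → ℕ
  | .look h _ => hnDg n pc h.val
  | .right _ _ => 0
  | .left _ _ _ => 0
  | .push _ _ => 0
  | .pop _ => 0

/-- The symbol of an instruction. -/
def hnSI : HInstr k α Γ Q → ℕ
  | .look _ _ => 0
  | .right _ _ => 0
  | .left _ _ _ => 0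
  | .push g _ => G.e (some g)
  | .pop _ => 0

/-- The next node of an instruction. -/
def hnNI (n pc c : ℕ) : HInstr k α Γ Q → ℕ
  | .look h f => if hnDg n pc h.val < n then hnMk E 1 (f (A.d c)) pc else hnMk E 1 (f none) pc
  | .right h q => if hnDg n pc h.val < n then hnMk E 1 q (pc + (n + 1) ^ h.val)
      else hnMk E 1 q pc
  | .left h q q' => if hnDg n pc h.val = 0 then hnMk E 1 q' pc
      else hnMk E 1 q (pc - (n + 1) ^ h.val)
  | .push _ q => hnMk E 1 q pc
  | .pop f => hnMk E (if (G.d c).isSome = true then 1 else 2) (f (G.d c)) pc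

end

section comp

variable {α : Type} {K : List α → ℕ} {σ : Type} [Tup σ]

theorem hn_comp_tab (F : ℕ → ℕ) (m : ℕ) (hF : ∀ c, m ≤ c → F c = F m) {f : List α → σ → ℕ}
    (hf : Comp K f) : Comp K fun x w => F (f x w) := by
  refine (Comp.cases (F := fun a _ _ => F a) m (fun a _ => Comp.const (F a))
    (Comp.const (F m)) hf).of_eq fun x w => ?_
  by_cases h : f x w < m
  · rw [if_pos h]
  · rw [if_neg h, ← hF _ (Nat.le_of_not_lt h)]

theorem hn_comp_powc {f : List α → σ → ℕ} (hf : Comp K f) (h : ℕ) :
    Comp K fun x w => f x w ^ h := by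
  induction h with
  | zero => exact (Comp.const 1).of_eq fun x w => (pow_zero _).symm
  | succ h ih => exact (Comp.mul ih hf).of_eq fun x w => (pow_succ _ _).symm

theorem hn_comp_dg (hK : ∀ x, x.length ≤ K x) {pc : List α → σ → ℕ} (hpc : Comp K pc) (h : ℕ) :
    Comp K fun x w => hnDg x.length (pc x w) h := by
  have h1 : Comp K fun x (_ : σ) => x.length + 1 := Comp.succ (Comp.length hK)
  exact Comp.mod (Comp.div hpc (hn_comp_powc h1 h)) h1

theorem hn_comp_mk {Q : Type} (E : HnNm Q) (t : ℕ) (q : Q) {pc : List α → σ → ℕ}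
    (hpc : Comp K pc) : Comp K fun x w => hnMk E t q (pc x w) :=
  Comp.add (Comp.const (1 + (3 * E.e q + t))) (Comp.mul (Comp.const (3 * E.m)) hpc)

theorem hn_comp_mkf {Q β : Type} (E : HnNm Q) (D : HnNm β) (t : β → ℕ) (f : β → Q)
    {pc c : List α → σ → ℕ} (hpc : Comp K pc) (hc : Comp K c) :
    Comp K fun x w => hnMk E (t (D.d (c x w))) (f (D.d (c x w))) (pc x w) :=
  Comp.add (hn_comp_tab (fun c => 1 + (3 * E.e (f (D.d c)) + t (D.d c))) D.m
    (fun c hc => by simp only [D.dm c hc]) hc) (Comp.mul (Comp.const (3 * E.m)) hpc)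

theorem hn_comp_KI {k : ℕ} {Γ Q : Type} (hK : ∀ x, x.length ≤ K x) {pc : List α → σ → ℕ}
    (hpc : Comp K pc) (I : HInstr k α Γ Q) : Comp K fun x w => hnKI x.length (pc x w) I := by
  cases I with
  | look h f =>
    exact Comp.ite (CompP.lt (hn_comp_dg hK hpc h.val) (Comp.length hK)) (Comp.const 1)
      (Comp.const 0)
  | right h q => exact Comp.const 0
  | left h q q' => exact Comp.const 0
  | push g q => exact Comp.const 2
  | pop f => exact Comp.const 3

theorem hn_comp_PI {k : ℕ} {Γ Q : Type} (hK : ∀ x, x.length ≤ K x) {pc : List α → σ → ℕ}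
    (hpc : Comp K pc) (I : HInstr k α Γ Q) : Comp K fun x w => hnPI x.length (pc x w) I := by
  cases I with
  | look h f => exact hn_comp_dg hK hpc h.val
  | right h q => exact Comp.const 0
  | left h q q' => exact Comp.const 0
  | push g q => exact Comp.const 0
  | pop f => exact Comp.const 0

theorem hn_comp_NI {k : ℕ} {Γ Q : Type} (hK : ∀ x, x.length ≤ K x) (E : HnNm Q)
    (A : HnNm (Option α)) (G : HnNm (Option Γ)) {pc c : List α → σ → ℕ}
    (hpc : Comp K pc) (hc : Comp K c) (I : HInstr k α Γ Q) :
    Comp K fun x w => hnNI E A G x.length (pc x w) (c x w) I := by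
  have hn : Comp K fun x (_ : σ) => x.length := Comp.length hK
  cases I with
  | look h f =>
    exact Comp.ite (CompP.lt (hn_comp_dg hK hpc h.val) hn)
      (hn_comp_mkf E A (fun _ => 1) f hpc hc) (hn_comp_mk E 1 (f none) hpc)
  | right h q =>
    exact Comp.ite (CompP.lt (hn_comp_dg hK hpc h.val) hn)
      (hn_comp_mk E 1 q (Comp.add hpc (hn_comp_powc (Comp.succ hn) h.val)))
      (hn_comp_mk E 1 q hpc)
  | left h q q' =>
    exact Comp.ite (CompP.eq (hn_comp_dg hK hpc h.val) (Comp.const 0))
      (hn_comp_mk E 1 q' hpc)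
      (hn_comp_mk E 1 q (Comp.sub hpc (hn_comp_powc (Comp.succ hn) h.val)))
  | push g q => exact hn_comp_mk E 1 q hpc
  | pop f =>
    exact hn_comp_mkf E G (fun o => if o.isSome = true then 1 else 2) f hpc hc

end comp

section main

variable {α : Type} (M : HeadPDA α) (E : HnNm M.Q) (A : HnNm (Option α))
  (G : HnNm (Option M.Γ))

/-- The finite part of a node. -/
def hnFa (v : ℕ) : ℕ := (v - 1) % (3 * E.m)

/-- The positions of a node. -/
def hnPc (v : ℕ) : ℕ := (v - 1) / (3 * E.m)

/-- A function given by values for the three tags. -/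
def hnSw (v s : ℕ) (F : M.Q → ℕ → ℕ) : ℕ :=
  if v = 0 then s else F (E.d (hnFa M E v / 3)) (hnFa M E v % 3)

/-- The numeric program. -/
def hnN (n : ℕ) : NP where
  kind v := hnSw M E v 2 fun q t =>
    if t = 0 then hnKI n (hnPc M E v) (M.instr q) else if t = 1 then 0 else 2
  pos v := hnSw M E v 0 fun q t => if t = 0 then hnPI n (hnPc M E v) (M.instr q) else 0
  sym v := hnSw M E v (G.e none) fun q t => if t = 0 then hnSI G (M.instr q) else G.e none
  nx v c := hnSw M E v (hnMk E 0 M.start 0) fun q t =>
    if t = 0 then hnNI E A G n (hnPc M E v) c (M.instr q) else hnMk E 0 q (hnPc M E v)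
  acc v := hnSw M E v 0 fun q t => if t = 0 then (if M.acc q = true then 1 else 0) else 0
  start := 0

theorem hn_mk_fa {t : ℕ} (ht : t < 3) (q : M.Q) (pc : ℕ) :
    hnFa M E (hnMk E t q pc) = 3 * E.e q + t := by
  have h1 := E.lt q
  rw [hnFa, hnMk, show 1 + (3 * E.e q + t) + 3 * E.m * pc - 1 = 3 * E.e q + t + 3 * E.m * pc by
    omega, Nat.add_mul_mod_self_left, Nat.mod_eq_of_lt (by omega)]

theorem hn_mk_pc {t : ℕ} (ht : t < 3) (q : M.Q) (pc : ℕ) :
    hnPc M E (hnMk E t q pc) = pc := by
  have h1 := E.lt q
  rw [hnPc, hnMk, show 1 + (3 * E.e q + t) + 3 * E.m * pc - 1 = 3 * E.e q + t + 3 * E.m * pc by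
    omega, Nat.add_mul_div_left _ _ (by omega), Nat.div_eq_of_lt (by omega), Nat.zero_add]

theorem hn_sw_mk {t : ℕ} (ht : t < 3) (q : M.Q) (pc s : ℕ) (F : M.Q → ℕ → ℕ) :
    hnSw M E (hnMk E t q pc) s F = F q t := by
  rw [hnSw, if_neg (by rw [hnMk]; omega), hn_mk_fa M E ht,
    show (3 * E.e q + t) / 3 = E.e q by omega, show (3 * E.e q + t) % 3 = t by omega, E.de]

theorem hn_kind (n : ℕ) {t : ℕ} (ht : t < 3) (q : M.Q) (pc : ℕ) :
    (hnN M E A G n).kind (hnMk E t q pc) =
      if t = 0 then hnKI n pc (M.instr q) else if t = 1 then 0 else 2 :=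
  (hn_sw_mk M E ht q pc 2 fun q' t' => if t' = 0 then
    hnKI n (hnPc M E (hnMk E t q pc)) (M.instr q') else if t' = 1 then 0 else 2).trans
    (by rw [hn_mk_pc M E ht])

theorem hn_pos (n : ℕ) {t : ℕ} (ht : t < 3) (q : M.Q) (pc : ℕ) :
    (hnN M E A G n).pos (hnMk E t q pc) = if t = 0 then hnPI n pc (M.instr q) else 0 :=
  (hn_sw_mk M E ht q pc 0 fun q' t' => if t' = 0 then
    hnPI n (hnPc M E (hnMk E t q pc)) (M.instr q') else 0).trans (by rw [hn_mk_pc M E ht])

theorem hn_sym (n : ℕ) {t : ℕ} (ht : t < 3) (q : M.Q) (pc : ℕ) :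
    (hnN M E A G n).sym (hnMk E t q pc) = if t = 0 then hnSI G (M.instr q) else G.e none :=
  hn_sw_mk M E ht q pc (G.e none) fun q' t' => if t' = 0 then hnSI G (M.instr q') else G.e none

theorem hn_nx (n : ℕ) {t : ℕ} (ht : t < 3) (q : M.Q) (pc c : ℕ) :
    (hnN M E A G n).nx (hnMk E t q pc) c =
      if t = 0 then hnNI E A G n pc c (M.instr q) else hnMk E 0 q pc :=
  (hn_sw_mk M E ht q pc (hnMk E 0 M.start 0) fun q' t' => if t' = 0 then
    hnNI E A G n (hnPc M E (hnMk E t q pc)) c (M.instr q')
    else hnMk E 0 q' (hnPc M E (hnMk E t q pc))).trans (by rw [hn_mk_pc M E ht])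

theorem hn_acc (n : ℕ) {t : ℕ} (ht : t < 3) (q : M.Q) (pc : ℕ) :
    (hnN M E A G n).acc (hnMk E t q pc) =
      if t = 0 then (if M.acc q = true then 1 else 0) else 0 :=
  hn_sw_mk M E ht q pc 0 fun q' t' => if t' = 0 then (if M.acc q' = true then 1 else 0) else 0

/-- The number of a node. -/
def hnCd (n : ℕ) : M.Node n → ℕ
  | none => 0
  | some (.inl (q, p)) => hnMk E 0 q (finFunctionFinEquiv p).val
  | some (.inr (.inl (q, p))) => hnMk E 1 q (finFunctionFinEquiv p).val
  | some (.inr (.inr (q, p))) => hnMk E 2 q (finFunctionFinEquiv p).val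

end main

theorem hn_dg {n k : ℕ} (p : Fin k → Fin (n + 1)) (h : Fin k) :
    hnDg n (finFunctionFinEquiv p).val h.val = (p h).val := by
  have h1 : finFunctionFinEquiv.symm (finFunctionFinEquiv p) h = p h := by
    rw [Equiv.symm_apply_apply]
  exact congrArg Fin.val h1

theorem hn_upd {n k : ℕ} (p : Fin k → Fin (n + 1)) (h : Fin k) (v : Fin (n + 1)) :
    (finFunctionFinEquiv (Function.update p h v)).val + (p h).val * (n + 1) ^ h.val =
      (finFunctionFinEquiv p).val + v.val * (n + 1) ^ h.val := by
  rw [finFunctionFinEquiv_apply, finFunctionFinEquiv_apply,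
    ← Finset.add_sum_erase _ _ (Finset.mem_univ h), ← Finset.add_sum_erase _ _
      (Finset.mem_univ h), Function.update_self,
    Finset.sum_congr rfl fun i hi => by
      rw [Function.update_of_ne (Finset.ne_of_mem_erase hi)]]
  omega

/-- The numeric programs of a multi-head pushdown automaton, one for each length of the input, and
their computability. -/
theorem headN_spec {α : Type} [Finite α] (M : HeadPDA α) :
    ∃ (N : ℕ → NP) (cd : ∀ n, (M.prog n).S → ℕ) (la : Option α → ℕ) (a : ℕ), 1 ≤ a ∧
      (∀ x : List α, Cod (M.prog x.length) (a * (x.length + 1) ^ M.k) (N x.length) x.get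
        (fun i => la x[i]?) (cd x.length)) ∧
      ∀ K : List α → ℕ, (∀ x, x.length ≤ K x) →
        Comp K (fun x (v : ℕ) => (N x.length).kind v) ∧
        Comp K (fun x (v : ℕ) => (N x.length).pos v) ∧
        Comp K (fun x (v : ℕ) => (N x.length).sym v) ∧
        Comp K (fun x (v : ℕ × ℕ) => (N x.length).nx v.1 v.2) ∧
        Comp K (fun x (v : ℕ) => (N x.length).acc v) ∧
        Comp K (fun x (_ : Unit) => (N x.length).start) := by
  obtain ⟨E⟩ := hn_exists M.Q M.start
  obtain ⟨A⟩ := hn_exists (Option α) none
  obtain ⟨G⟩ := hn_exists (Option M.Γ) none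
  have hEm : 0 < E.m := lt_of_le_of_lt (Nat.zero_le _) (E.lt M.start)
  refine ⟨fun n => hnN M E A G n, fun n => hnCd M E n, A.e, 3 * E.m + 1, by omega, ?_, ?_⟩
  · intro x
    have hmk : ∀ (t : ℕ) (q : M.Q) (p : Fin M.k → Fin (x.length + 1)), t < 3 →
        hnMk E t q (finFunctionFinEquiv p).val < (3 * E.m + 1) * (x.length + 1) ^ M.k := by
      intro t q p ht
      have h1 := E.lt q
      have h2 := (finFunctionFinEquiv p).isLt
      rw [hnMk]
      have h3 : 3 * E.m * ((finFunctionFinEquiv p).val + 1) ≤
          3 * E.m * (x.length + 1) ^ M.k := Nat.mul_le_mul_left _ h2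
      have h4 : 0 < (x.length + 1) ^ M.k := Nat.pow_pos (Nat.succ_pos _)
      rw [mul_add, mul_one] at h3
      rw [add_mul, one_mul]
      omega
    refine ⟨?_, ?_, ?_, ?_, ?_, ?_, rfl⟩
    · -- bound
      rintro (_ | ⟨q, p⟩ | ⟨q, p⟩ | ⟨q, p⟩)
      · exact Nat.mul_pos (Nat.succ_pos _) (Nat.pow_pos (Nat.succ_pos _))
      · exact hmk 0 q p (by omega)
      · exact hmk 1 q p (by omega)
      · exact hmk 2 q p (by omega)
    · -- jump
      rintro (_ | ⟨q, p⟩ | ⟨q, p⟩ | ⟨q, p⟩) s' hs
      · cases hs
      · have hs : M.nodeInstr x.length (some (.inl (q, p))) = .jump s' := hs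
        change (hnN M E A G x.length).kind (hnMk E 0 q (finFunctionFinEquiv p).val) = 0 ∧
          (hnN M E A G x.length).nx (hnMk E 0 q (finFunctionFinEquiv p).val) 0 = hnCd M E _ s'
        rw [hn_kind M E A G _ (by omega), hn_nx M E A G _ (by omega), if_pos rfl, if_pos rfl]
        rw [HeadPDA.nodeInstr] at hs
        rcases hq : M.instr q with ⟨h, f⟩ | ⟨h, q'⟩ | ⟨h, q', q''⟩ | ⟨g, q'⟩ | ⟨f⟩
        · simp only [hq] at hs
          by_cases hp : (p h).val < x.length
          · rw [dif_pos hp] at hs
            cases hs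
          · rw [dif_neg hp] at hs
            cases hs
            rw [hnKI, hnNI, hn_dg, if_neg hp, if_neg hp]
            exact ⟨rfl, rfl⟩
        · simp only [hq] at hs
          cases hs
          rw [hnKI, hnNI, hn_dg]
          refine ⟨rfl, ?_⟩
          have hu := hn_upd p h ⟨min ((p h).val + 1) x.length, by omega⟩
          change _ = hnMk E 1 q' (finFunctionFinEquiv _).val
          have hmin : (p h).val < x.length ∧ min ((p h).val + 1) x.length = (p h).val + 1 ∨
              ¬ (p h).val < x.length ∧ min ((p h).val + 1) x.length = (p h).val := by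
            have := (p h).isLt
            omega
          obtain ⟨Y, hY⟩ : ∃ Y, Y = (finFunctionFinEquiv (Function.update p h
            ⟨min ((p h).val + 1) x.length, by omega⟩)).val := ⟨_, rfl⟩
          rw [← hY] at hu ⊢
          simp only at hu
          rcases hmin with ⟨h1, h2⟩ | ⟨h1, h2⟩
          · rw [if_pos h1]
            congr 1
            rw [h2, add_mul, one_mul] at hu
            omega
          · rw [if_neg h1]
            congr 1
            rw [h2] at hu
            omega
        · simp only [hq] at hs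
          rw [hnKI, hnNI, hn_dg]
          refine ⟨rfl, ?_⟩
          by_cases hp : (p h).val = 0
          · rw [if_pos hp] at hs ⊢
            cases hs
            rfl
          · rw [if_neg hp] at hs ⊢
            cases hs
            have hu := hn_upd p h ⟨(p h).val - 1, by omega⟩
            change _ = hnMk E 1 q' (finFunctionFinEquiv _).val
            congr 1
            simp only at hu
            obtain ⟨b, hb⟩ : ∃ b, (p h).val = b + 1 := ⟨(p h).val - 1, by omega⟩
            have h3 : (p h).val * (x.length + 1) ^ h.val =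
                ((p h).val - 1) * (x.length + 1) ^ h.val + (x.length + 1) ^ h.val := by
              rw [hb, add_mul, one_mul, Nat.add_sub_cancel]
            omega
        · simp only [hq] at hs
          cases hs
        · simp only [hq] at hs
          cases hs
      · have hs : M.nodeInstr x.length (some (.inr (.inl (q, p)))) = .jump s' := hs
        change (hnN M E A G x.length).kind (hnMk E 1 q (finFunctionFinEquiv p).val) = 0 ∧
          (hnN M E A G x.length).nx (hnMk E 1 q (finFunctionFinEquiv p).val) 0 = hnCd M E _ s'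
        rw [hn_kind M E A G _ (by omega), hn_nx M E A G _ (by omega)]
        rw [HeadPDA.nodeInstr] at hs
        cases hs
        exact ⟨rfl, rfl⟩
      · cases hs
    · -- read
      rintro (_ | ⟨q, p⟩ | ⟨q, p⟩ | ⟨q, p⟩) i f hs
      · cases hs
      · have hs : M.nodeInstr x.length (some (.inl (q, p))) = .read i f := hs
        change (hnN M E A G x.length).kind (hnMk E 0 q (finFunctionFinEquiv p).val) = 1 ∧
          (hnN M E A G x.length).nx (hnMk E 0 q (finFunctionFinEquiv p).val)
            (A.e x[(hnN M E A G x.length).pos (hnMk E 0 q (finFunctionFinEquiv p).val)]?) =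
            hnCd M E _ (f (x.get i))
        rw [hn_kind M E A G _ (by omega), hn_nx M E A G _ (by omega),
          hn_pos M E A G _ (by omega), if_pos rfl, if_pos rfl, if_pos rfl]
        rw [HeadPDA.nodeInstr] at hs
        rcases hq : M.instr q with ⟨h, f'⟩ | ⟨h, q'⟩ | ⟨h, q', q''⟩ | ⟨g, q'⟩ | ⟨f'⟩
        · simp only [hq] at hs
          by_cases hp : (p h).val < x.length
          · rw [dif_pos hp] at hs
            cases hs
            rw [hnPI, hnKI, hnNI, hn_dg, if_pos hp, if_pos hp, A.de, List.getElem?_eq_getElem hp]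
            exact ⟨rfl, rfl⟩
          · rw [dif_neg hp] at hs
            cases hs
        · simp only [hq] at hs
          cases hs
        · simp only [hq] at hs
          split_ifs at hs
        · simp only [hq] at hs
          cases hs
        · simp only [hq] at hs
          cases hs
      · cases hs
      · cases hs
    · -- push
      rintro (_ | ⟨q, p⟩ | ⟨q, p⟩ | ⟨q, p⟩) g s' hs
      · have hs : M.nodeInstr x.length none = .push g s' := hs
        rw [HeadPDA.nodeInstr] at hs
        cases hs
        refine ⟨rfl, ?_⟩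
        change hnMk E 0 M.start 0 = hnMk E 0 M.start (finFunctionFinEquiv _).val
        congr 1
        rw [finFunctionFinEquiv_apply]
        simp
      · have hs : M.nodeInstr x.length (some (.inl (q, p))) = .push g s' := hs
        change (hnN M E A G x.length).kind (hnMk E 0 q (finFunctionFinEquiv p).val) = 2 ∧
          (hnN M E A G x.length).nx (hnMk E 0 q (finFunctionFinEquiv p).val) 0 = hnCd M E _ s'
        rw [hn_kind M E A G _ (by omega), hn_nx M E A G _ (by omega), if_pos rfl, if_pos rfl]
        rw [HeadPDA.nodeInstr] at hs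
        rcases hq : M.instr q with ⟨h, f⟩ | ⟨h, q'⟩ | ⟨h, q', q''⟩ | ⟨g, q'⟩ | ⟨f⟩
        · simp only [hq] at hs
          split_ifs at hs
        · simp only [hq] at hs
          cases hs
        · simp only [hq] at hs
          split_ifs at hs
        · simp only [hq] at hs
          cases hs
          exact ⟨rfl, rfl⟩
        · simp only [hq] at hs
          cases hs
      · cases hs
      · have hs : M.nodeInstr x.length (some (.inr (.inr (q, p)))) = .push g s' := hs
        change (hnN M E A G x.length).kind (hnMk E 2 q (finFunctionFinEquiv p).val) = 2 ∧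
          (hnN M E A G x.length).nx (hnMk E 2 q (finFunctionFinEquiv p).val) 0 = hnCd M E _ s'
        rw [hn_kind M E A G _ (by omega), hn_nx M E A G _ (by omega)]
        rw [HeadPDA.nodeInstr] at hs
        cases hs
        exact ⟨rfl, rfl⟩
    · -- pop
      have hsym : ∀ (c : M.Node x.length) (g : Option M.Γ) (s' : M.Node x.length),
          M.nodeInstr x.length c = .push g s' →
          (hnN M E A G x.length).sym (hnCd M E x.length c) = G.e g := by
        rintro (_ | ⟨q, p⟩ | ⟨q, p⟩ | ⟨q, p⟩) g s' hs
        · rw [HeadPDA.nodeInstr] at hs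
          cases hs
          rfl
        · change (hnN M E A G x.length).sym (hnMk E 0 q (finFunctionFinEquiv p).val) = _
          rw [hn_sym M E A G _ (by omega), if_pos rfl]
          rw [HeadPDA.nodeInstr] at hs
          rcases hq : M.instr q with ⟨h, f⟩ | ⟨h, q'⟩ | ⟨h, q', q''⟩ | ⟨g, q'⟩ | ⟨f⟩
          · simp only [hq] at hs
            split_ifs at hs
          · simp only [hq] at hs
            cases hs
          · simp only [hq] at hs
            split_ifs at hs
          · simp only [hq] at hs
            cases hs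
            rfl
          · simp only [hq] at hs
            cases hs
        · rw [HeadPDA.nodeInstr] at hs
          cases hs
        · change (hnN M E A G x.length).sym (hnMk E 2 q (finFunctionFinEquiv p).val) = _
          rw [hn_sym M E A G _ (by omega)]
          rw [HeadPDA.nodeInstr] at hs
          cases hs
          rfl
      rintro (_ | ⟨q, p⟩ | ⟨q, p⟩ | ⟨q, p⟩) f hs
      · cases hs
      · have hs : M.nodeInstr x.length (some (.inl (q, p))) = .pop f := hs
        have hk : (hnN M E A G x.length).kind (hnCd M E x.length (some (.inl (q, p)))) =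
            hnKI x.length (finFunctionFinEquiv p).val (M.instr q) := by
          change (hnN M E A G x.length).kind (hnMk E 0 q (finFunctionFinEquiv p).val) = _
          rw [hn_kind M E A G _ (by omega), if_pos rfl]
        have hx : ∀ c, (hnN M E A G x.length).nx (hnCd M E x.length (some (.inl (q, p)))) c =
            hnNI E A G x.length (finFunctionFinEquiv p).val c (M.instr q) := by
          intro c
          change (hnN M E A G x.length).nx (hnMk E 0 q (finFunctionFinEquiv p).val) c = _
          rw [hn_nx M E A G _ (by omega), if_pos rfl]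
        rw [HeadPDA.nodeInstr] at hs
        rcases hq : M.instr q with ⟨h, f'⟩ | ⟨h, q'⟩ | ⟨h, q', q''⟩ | ⟨g, q'⟩ | ⟨f'⟩
        · simp only [hq] at hs
          split_ifs at hs
        · simp only [hq] at hs
          cases hs
        · simp only [hq] at hs
          split_ifs at hs
        · simp only [hq] at hs
          cases hs
        · simp only [hq] at hs
          cases hs
          rw [hq] at hk hx
          refine ⟨hk, fun c g s' hc => ?_⟩
          have h1 := (hx (G.e g))
          rw [hnNI, G.de] at h1
          have h2 : (hnN M E A G x.length).sym (hnCd M E x.length c) = G.e g := hsym c g s' hc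
          change (hnN M E A G x.length).nx _ ((hnN M E A G x.length).sym (hnCd M E x.length c)) = _
          rw [h2, h1]
          rcases g with _ | g
          · rfl
          · rfl
      · cases hs
      · cases hs
    · -- acc
      rintro (_ | ⟨q, p⟩ | ⟨q, p⟩ | ⟨q, p⟩)
      · exact iff_of_false (show ¬ (0 : ℕ) = 1 by decide) (show ¬ false = true by decide)
      · change (hnN M E A G x.length).acc (hnMk E 0 q (finFunctionFinEquiv p).val) = 1 ↔
          M.acc q = true
        rw [hn_acc M E A G _ (by omega), if_pos rfl]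
        by_cases h : M.acc q = true
        · rw [if_pos h]
          exact iff_of_true rfl h
        · rw [if_neg h]
          exact iff_of_false (by decide) h
      · change (hnN M E A G x.length).acc (hnMk E 1 q (finFunctionFinEquiv p).val) = 1 ↔
          false = true
        rw [hn_acc M E A G _ (by omega), if_neg (by decide)]
        exact iff_of_false (by decide) (by decide)
      · change (hnN M E A G x.length).acc (hnMk E 2 q (finFunctionFinEquiv p).val) = 1 ↔
          false = true
        rw [hn_acc M E A G _ (by omega), if_neg (by decide)]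
        exact iff_of_false (by decide) (by decide)
  · intro K hK
    have hsw : ∀ {σ : Type} [Tup σ] (v s : List α → σ → ℕ) (F : M.Q → ℕ → List α → σ → ℕ),
        Comp K v → Comp K s → (∀ q t, Comp K (F q t)) →
        Comp K fun x w => hnSw M E (v x w) (s x w) fun q t => F q t x w := by
      intro σ _ v s F hv hs hF
      have hfa : Comp K fun x w => hnFa M E (v x w) :=
        Comp.mod (Comp.pred hv) (Comp.const (3 * E.m))
      have h1 : Comp K fun x w => F (E.d (hnFa M E (v x w) / 3)) (hnFa M E (v x w) % 3) x w := by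
        refine (Comp.cases (F := fun a => F (E.d (a / 3)) (a % 3)) (3 * E.m)
          (fun a _ => hF _ _) (Comp.const 0) hfa).of_eq fun x w => ?_
        exact if_pos (Nat.mod_lt _ (by omega))
      exact Comp.ite (CompP.eq hv (Comp.const 0)) hs h1
    have hpc : ∀ {σ : Type} [Tup σ] (v : List α → σ → ℕ), Comp K v →
        Comp K fun x w => hnPc M E (v x w) := by
      intro σ _ v hv
      exact Comp.div (Comp.pred hv) (Comp.const (3 * E.m))
    have hid : Comp K fun (_ : List α) (v : ℕ) => v := Comp.id
    refine ⟨?_, ?_, ?_, ?_, ?_, ?_⟩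
    · refine hsw (fun _ v => v) (fun _ _ => 2) (fun q t x v => if t = 0 then
        hnKI x.length (hnPc M E v) (M.instr q) else if t = 1 then 0 else 2) hid
        (Comp.const 2) fun q t => ?_
      by_cases h0 : t = 0
      · exact (hn_comp_KI hK (hpc _ hid) (M.instr q)).of_eq fun x w => by rw [if_pos h0]
      · exact (Comp.const (if t = 1 then 0 else 2)).of_eq fun x w => by rw [if_neg h0]
    · refine hsw (fun _ v => v) (fun _ _ => 0) (fun q t x v => if t = 0 then
        hnPI x.length (hnPc M E v) (M.instr q) else 0) hid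
        (Comp.const 0) fun q t => ?_
      by_cases h0 : t = 0
      · exact (hn_comp_PI hK (hpc _ hid) (M.instr q)).of_eq fun x w => by rw [if_pos h0]
      · exact (Comp.const 0).of_eq fun x w => by rw [if_neg h0]
    · exact hsw (fun _ v => v) (fun _ _ => G.e none) (fun q t _ _ => if t = 0 then
        hnSI G (M.instr q) else G.e none) hid (Comp.const _) fun q t => Comp.const _
    · refine hsw (fun _ (v : ℕ × ℕ) => v.1) (fun _ _ => hnMk E 0 M.start 0)
        (fun q t x (v : ℕ × ℕ) => if t = 0 then
        hnNI E A G x.length (hnPc M E v.1) v.2 (M.instr q) else hnMk E 0 q (hnPc M E v.1))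
        (Comp.fst Comp.id) (Comp.const _) fun q t => ?_
      by_cases h0 : t = 0
      · exact (hn_comp_NI hK E A G (hpc _ (Comp.fst Comp.id)) (Comp.snd Comp.id)
          (M.instr q)).of_eq fun x w => by rw [if_pos h0]
      · exact (hn_comp_mk E 0 q (hpc _ (Comp.fst Comp.id))).of_eq fun x w => by rw [if_neg h0]
    · exact hsw (fun _ v => v) (fun _ _ => 0) (fun q t _ _ => if t = 0 then
        (if M.acc q = true then 1 else 0) else 0) hid (Comp.const _) fun q t => Comp.const _
    · exact Comp.const 0

end DU

end Pool.Agent.MP_6216ea_lc
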