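import Pool.Agent.Lib.MP_6216ea_lc.DUBig
import Pool.Agent.Lib.MP_6216ea_lc.DDNum

/-! The parameters of the uniform algorithm. -/

set_option autoImplicit false

namespace Pool.Agent.MP_6216ea_lc

namespace DU

open SP

/-- About `log n`. -/
def lP (n : ℕ) : ℕ := Nat.log 2 n + 2

/-- About `log log n / 8`. -/
def bP (n : ℕ) : ℕ := Nat.log 2 (lP n) / 8 + 1

/-- The number of composite levels. -/
def gP (m n : ℕ) : ℕ := m * lP n / bP n + 1

/-- The number of bits. -/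
def DP (a k m n : ℕ) : ℕ := (2 * (a + k + m) + 8) * lP n

/-- The prime. -/
noncomputable def prP (a k m n : ℕ) : ℕ := nextPrime (Mc (bP n) * DP a k m n + 1)

/-- The parameters for pushdown programs with `a * (n + 1) ^ k` nodes and time at most
`2 ^ (m * lP n)`. -/
noncomputable def PP (a k m n : ℕ) : Pm where
  p := prP a k m n
  D := DP a k m n
  b := bP n
  g := gP m n
  NS := a * (n + 1) ^ k
  T := 2 ^ (bP n * gP m n)
  C := prP a k m n ^ ((Mc (bP n) + 1) * DP a k m n)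

/-- The space scale. -/
def KK (c n : ℕ) : ℕ := 2 ^ (c * lP n ^ 2 / (Nat.log 2 (lP n) + 1))

theorem lP_ge (n : ℕ) : 2 ≤ lP n := Nat.le_add_left 2 _

theorem n_lt (n : ℕ) : n < 2 ^ lP n := by
  have h := Nat.lt_pow_succ_log_self (b := 2) (by norm_num) n
  refine h.trans_le (Nat.pow_le_pow_right (by norm_num) ?_)
  unfold lP
  omega

/-- The number of items. -/
theorem Mc_le (b : ℕ) : Mc b + 2 ≤ 3 * 6 ^ b := by
  induction b with
  | zero => rw [Mc]; norm_num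
  | succ b ih => rw [Mc, pow_succ]; omega

/-- The elementary estimates for the logarithms. -/
theorem lb_aux (n : ℕ) : 2 ^ Nat.log 2 (lP n) ≤ lP n ∧ Nat.log 2 (lP n) + 1 ≤ lP n ∧
    Nat.log 2 (lP n) + 1 ≤ 8 * bP n ∧ 1 ≤ bP n ∧ bP n ≤ lP n ∧
    24 ^ (Nat.log 2 (lP n) / 8) ≤ lP n ∧ lP n < 2 ^ (Nat.log 2 (lP n) + 1) ∧
    6 ^ (Nat.log 2 (lP n) / 8) ≤ 2 ^ Nat.log 2 (lP n) ∧
    Nat.log 2 (lP n) / 8 + 1 ≤ 2 ^ (Nat.log 2 (lP n) / 8) := by
  have hl := lP_ge n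
  obtain ⟨e, he⟩ : ∃ e, e = Nat.log 2 (lP n) := ⟨_, rfl⟩
  have hb : bP n = e / 8 + 1 := by rw [he]; rfl
  rw [← he]
  have h2e : 2 ^ e ≤ lP n := by rw [he]; exact Nat.pow_log_le_self 2 (by omega)
  have hle : lP n < 2 ^ (e + 1) := by rw [he]; exact Nat.lt_pow_succ_log_self (by norm_num) _
  have hel : e + 1 ≤ lP n := (Nat.lt_two_pow_self (n := e)).trans_le h2e
  have hq : 256 ^ (e / 8) ≤ 2 ^ e := by
    calc 256 ^ (e / 8) = 2 ^ (8 * (e / 8)) := by rw [pow_mul]; norm_num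
      _ ≤ 2 ^ e := Nat.pow_le_pow_right (by norm_num) (by omega)
  refine ⟨h2e, hel, by omega, by omega, by omega, ?_, hle, ?_, Nat.lt_two_pow_self⟩
  · exact (Nat.pow_le_pow_left (by norm_num) _).trans (hq.trans h2e)
  · exact (Nat.pow_le_pow_left (by norm_num) _).trans hq

/-- Small exponents give numbers below the scale. -/
theorem le_KK {X E c n : ℕ} (h1 : X ≤ 2 ^ E) (h2 : E * (Nat.log 2 (lP n) + 1) ≤ c * lP n ^ 2) :
    X ≤ KK c n := by
  refine h1.trans (Nat.pow_le_pow_right (by norm_num) ?_)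
  exact (Nat.le_div_iff_mul_le (by omega)).2 h2

theorem bg_le (m n : ℕ) : bP n * gP m n ≤ m * lP n + bP n := by
  have h : bP n * (m * lP n / bP n) ≤ m * lP n := Nat.mul_div_le _ _
  unfold gP
  rw [Nat.mul_add, Nat.mul_one]
  omega

theorem bg_ge (m n : ℕ) : m * lP n ≤ bP n * gP m n := by
  have hb : 0 < bP n := (lb_aux n).2.2.2.1
  have h : m * lP n < bP n * (m * lP n / bP n) + bP n := by
    have := Nat.div_add_mod (m * lP n) (bP n)
    have := Nat.mod_lt (m * lP n) hb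
    omega
  unfold gP
  rw [Nat.mul_add, Nat.mul_one]
  omega

theorem PP_bits (a k m n : ℕ) :
    2 * ((PP a k m n).NS * ((PP a k m n).T + 1)) ^ 2 ≤ 2 ^ (PP a k m n).D := by
  obtain ⟨-, -, -, hb1, hbl, -⟩ := lb_aux n
  have hl := lP_ge n
  have hNS : (PP a k m n).NS ≤ 2 ^ (a + k * lP n) := by
    change a * (n + 1) ^ k ≤ _
    rw [pow_add, Nat.mul_comm k, pow_mul]
    exact Nat.mul_le_mul Nat.lt_two_pow_self.le (Nat.pow_le_pow_left (n_lt n) _)
  have hT : (PP a k m n).T + 1 ≤ 2 ^ (m * lP n + bP n + 1) := by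
    change 2 ^ (bP n * gP m n) + 1 ≤ _
    have h1 : 2 ^ (bP n * gP m n) ≤ 2 ^ (m * lP n + bP n) :=
      Nat.pow_le_pow_right (by norm_num) (bg_le m n)
    have h2 : 1 ≤ 2 ^ (m * lP n + bP n) := Nat.one_le_two_pow
    rw [pow_succ]
    omega
  calc 2 * ((PP a k m n).NS * ((PP a k m n).T + 1)) ^ 2
      ≤ 2 * (2 ^ (a + k * lP n) * 2 ^ (m * lP n + bP n + 1)) ^ 2 :=
        Nat.mul_le_mul_left _ (Nat.pow_le_pow_left (Nat.mul_le_mul hNS hT) _)
    _ = 2 ^ (2 * ((a + k * lP n) + (m * lP n + bP n + 1)) + 1) := by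
        rw [← pow_add, ← pow_mul, pow_succ]; ring
    _ ≤ 2 ^ (PP a k m n).D := by
        refine Nat.pow_le_pow_right (by norm_num) ?_
        change _ ≤ (2 * (a + k + m) + 8) * lP n
        have h1 : a ≤ a * lP n := Nat.le_mul_of_pos_right _ (by omega)
        nlinarith

theorem PP_time (a k m n : ℕ) : 2 ^ (m * lP n) ≤ (PP a k m n).T :=
  Nat.pow_le_pow_right (by norm_num) (bg_ge m n)

theorem PP_prime (a k m n : ℕ) : (PP a k m n).p.Prime := nextPrime_prime _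

theorem PP_deg (a k m n : ℕ) : MM (PP a k m n) * (PP a k m n).D < (PP a k m n).p - 1 := by
  have h : Mc (bP n) * DP a k m n + 1 < prP a k m n := lt_nextPrime _
  change Mc (bP n) * DP a k m n < prP a k m n - 1
  omega

/-- The main estimates. -/
theorem num_main (a k m n : ℕ) : ∃ s s' : ℕ,
    (s = 2 * Nat.log 2 (lP n) + 7 + (2 * (a + k + m) + 8)) ∧
    (s' = 3 * Nat.log 2 (lP n) + 14 + (2 * (a + k + m) + 8)) ∧
    prP a k m n ≤ 2 ^ s ∧ radN (PP a k m n) ≤ 2 ^ s' ∧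
    s * (Mc (bP n) + 1) * (Nat.log 2 (lP n) + 1) ≤ 152 * (21 + (2 * (a + k + m) + 8)) * lP n ∧
    s' * (Mc (bP n) + 1) * (Nat.log 2 (lP n) + 1) ≤
      152 * (35 + (2 * (a + k + m) + 8)) * lP n := by
  obtain ⟨h2e, hel, he8, hb1, hbl, h24, hle, h6, hq⟩ := lb_aux n
  obtain ⟨e, he⟩ : ∃ e, e = Nat.log 2 (lP n) := ⟨_, rfl⟩
  have hb : bP n = e / 8 + 1 := by rw [he]; rfl
  rw [← he] at h2e hel he8 h24 hle h6 hq ⊢
  obtain ⟨q, hqq⟩ : ∃ q, q = e / 8 := ⟨_, rfl⟩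
  rw [← hqq] at h24 h6 hq hb
  obtain ⟨cD, hcD⟩ : ∃ cD, cD = 2 * (a + k + m) + 8 := ⟨_, rfl⟩
  rw [← hcD]
  have hM : Mc (bP n) + 2 ≤ 18 * 6 ^ q := by
    have := Mc_le (q + 1)
    rw [pow_succ] at this
    rw [hb]
    omega
  have h61 : 1 ≤ 6 ^ q := Nat.one_le_pow _ _ (by norm_num)
  have h21 : 1 ≤ 2 ^ q := Nat.one_le_two_pow
  refine ⟨_, _, rfl, rfl, ?_, ?_, ?_, ?_⟩
  · have h1 : prP a k m n ≤ 2 * (Mc (bP n) * DP a k m n + 1) + 2 := nextPrime_le _
    have h2 : DP a k m n = cD * lP n := by rw [hcD]; rfl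
    have h3 : cD < 2 ^ cD := Nat.lt_two_pow_self
    have hl : 2 ≤ lP n := lP_ge n
    have h4 : 1 ≤ Mc (bP n) := Mc_pos _
    have h5 : 8 ≤ cD := by omega
    have h6' : lP n ≤ 2 * 2 ^ e := by rw [pow_succ] at hle; omega
    have h7 : Mc (bP n) ≤ 18 * 2 ^ e := by omega
    have h8 : 1 ≤ 2 ^ e := Nat.one_le_two_pow
    have h9 : 2 ^ (2 * e + 7 + cD) = 128 * (2 ^ e * 2 ^ e * 2 ^ cD) := by
      rw [pow_add, pow_add, two_mul, pow_add]; ring
    rw [h9]
    refine h1.trans ?_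
    rw [h2]
    have h10 : Mc (bP n) * (cD * lP n) ≤ (18 * 2 ^ e) * (2 ^ cD * (2 * 2 ^ e)) :=
      Nat.mul_le_mul h7 (Nat.mul_le_mul h3.le h6')
    have h11 : (18 * 2 ^ e) * (2 ^ cD * (2 * 2 ^ e)) = 36 * (2 ^ e * 2 ^ e * 2 ^ cD) := by ring
    have h12 : 1 ≤ 2 ^ e * 2 ^ e * 2 ^ cD :=
      Nat.mul_pos (Nat.mul_pos h8 h8) (Nat.two_pow_pos cD)
    rw [h11] at h10
    omega
  · have h1 : prP a k m n ≤ 2 ^ (2 * e + 7 + cD) := by
      have h1 : prP a k m n ≤ 2 * (Mc (bP n) * DP a k m n + 1) + 2 := nextPrime_le _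
      have h2 : DP a k m n = cD * lP n := by rw [hcD]; rfl
      have h3 : cD < 2 ^ cD := Nat.lt_two_pow_self
      have h6' : lP n ≤ 2 * 2 ^ e := by rw [pow_succ] at hle; omega
      have h7 : Mc (bP n) ≤ 18 * 2 ^ e := by omega
      have h8 : 1 ≤ 2 ^ e := Nat.one_le_two_pow
      have h9 : 2 ^ (2 * e + 7 + cD) = 128 * (2 ^ e * 2 ^ e * 2 ^ cD) := by
        rw [pow_add, pow_add, two_mul, pow_add]; ring
      rw [h9]
      refine h1.trans ?_
      rw [h2]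
      have h10 : Mc (bP n) * (cD * lP n) ≤ (18 * 2 ^ e) * (2 ^ cD * (2 * 2 ^ e)) :=
        Nat.mul_le_mul h7 (Nat.mul_le_mul h3.le h6')
      have h11 : (18 * 2 ^ e) * (2 ^ cD * (2 * 2 ^ e)) = 36 * (2 ^ e * 2 ^ e * 2 ^ cD) := by ring
      have h12 : 1 ≤ 2 ^ e * 2 ^ e * 2 ^ cD :=
        Nat.mul_pos (Nat.mul_pos h8 h8) (Nat.two_pow_pos cD)
      rw [h11] at h10
      omega
    change (prP a k m n - 1) * (4 * Mc (bP n) + 1) ≤ _
    have h2 : 4 * Mc (bP n) + 1 ≤ 2 ^ (e + 7) := by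
      have h3 : 2 ^ (e + 7) = 128 * 2 ^ e := by rw [pow_add]; ring
      rw [h3]
      omega
    calc (prP a k m n - 1) * (4 * Mc (bP n) + 1) ≤ 2 ^ (2 * e + 7 + cD) * 2 ^ (e + 7) :=
          Nat.mul_le_mul ((Nat.sub_le _ _).trans h1) h2
      _ = 2 ^ (3 * e + 14 + cD) := by rw [← pow_add]; congr 1; ring
  · have h1 : 2 * e + 7 + cD ≤ (21 + cD) * 2 ^ q := by
      have h2 : cD ≤ cD * 2 ^ q := Nat.le_mul_of_pos_right _ h21
      have h3 : 2 * e + 7 ≤ 21 * 2 ^ q := by omega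
      rw [Nat.add_mul]
      omega
    have h2 : Mc (bP n) + 1 ≤ 19 * 6 ^ q := by omega
    have h3 : e + 1 ≤ 8 * 2 ^ q := by omega
    calc (2 * e + 7 + cD) * (Mc (bP n) + 1) * (e + 1)
        ≤ ((21 + cD) * 2 ^ q) * (19 * 6 ^ q) * (8 * 2 ^ q) :=
          Nat.mul_le_mul (Nat.mul_le_mul h1 h2) h3
      _ = 152 * (21 + cD) * (2 * 6 * 2) ^ q := by rw [mul_pow, mul_pow]; ring
      _ ≤ 152 * (21 + cD) * lP n := Nat.mul_le_mul_left _ h24
  · have h1 : 3 * e + 14 + cD ≤ (35 + cD) * 2 ^ q := by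
      have h2 : cD ≤ cD * 2 ^ q := Nat.le_mul_of_pos_right _ h21
      have h3 : 3 * e + 14 ≤ 35 * 2 ^ q := by omega
      rw [Nat.add_mul]
      omega
    have h2 : Mc (bP n) + 1 ≤ 19 * 6 ^ q := by omega
    have h3 : e + 1 ≤ 8 * 2 ^ q := by omega
    calc (3 * e + 14 + cD) * (Mc (bP n) + 1) * (e + 1)
        ≤ ((35 + cD) * 2 ^ q) * (19 * 6 ^ q) * (8 * 2 ^ q) :=
          Nat.mul_le_mul (Nat.mul_le_mul h1 h2) h3
      _ = 152 * (35 + cD) * (2 * 6 * 2) ^ q := by rw [mul_pow, mul_pow]; ring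
      _ ≤ 152 * (35 + cD) * lP n := Nat.mul_le_mul_left _ h24

theorem g_mul_le (m n : ℕ) : gP m n * (Nat.log 2 (lP n) + 1) ≤ (8 * m + 1) * lP n := by
  obtain ⟨-, hel, he8, hb1, -⟩ := lb_aux n
  have h1 : bP n * (m * lP n / bP n) ≤ m * lP n := Nat.mul_div_le _ _
  calc gP m n * (Nat.log 2 (lP n) + 1)
      = (m * lP n / bP n) * (Nat.log 2 (lP n) + 1) + (Nat.log 2 (lP n) + 1) := by
        unfold gP; ring
    _ ≤ (m * lP n / bP n) * (8 * bP n) + lP n :=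
        Nat.add_le_add (Nat.mul_le_mul_left _ he8) hel
    _ = 8 * (bP n * (m * lP n / bP n)) + lP n := by ring
    _ ≤ 8 * (m * lP n) + lP n := by omega
    _ = (8 * m + 1) * lP n := by ring

/-- All large numbers are below the scale. -/
theorem PP_scale (a k m : ℕ) : ∃ c : ℕ, 1 ≤ c ∧ ∀ n,
    n < KK c n ∧ (PP a k m n).C ≤ KK c n ∧
    2 ^ (MM (PP a k m n) * (PP a k m n).D) ≤ KK c n ∧
    zzN (PP a k m n) ^ (PP a k m n).g ≤ KK c n ∧ zzN (PP a k m n) ≤ KK c n ∧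
    (PP a k m n).T ≤ KK c n ∧ (PP a k m n).p ≤ KK c n ∧ (PP a k m n).D ≤ KK c n ∧
    (PP a k m n).b ≤ KK c n ∧ (PP a k m n).g ≤ KK c n := by
  obtain ⟨cD, hcD⟩ : ∃ cD, cD = 2 * (a + k + m) + 8 := ⟨_, rfl⟩
  obtain ⟨c1, hc1⟩ : ∃ c1, c1 = 152 * (21 + cD) * cD := ⟨_, rfl⟩
  obtain ⟨c2, hc2⟩ : ∃ c2, c2 = (152 * (35 + cD) + 1 + cD) * (8 * m + 1) := ⟨_, rfl⟩
  refine ⟨c1 + c2 + (m + 1), by omega, fun n => ?_⟩
  obtain ⟨c, hc⟩ : ∃ c, c = c1 + c2 + (m + 1) := ⟨_, rfl⟩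
  rw [← hc]
  obtain ⟨s, s', hs, hs', hp, hrad, hsM, hsM'⟩ := num_main a k m n
  obtain ⟨h2e, hel, he8, hb1, hbl, -⟩ := lb_aux n
  have hl := lP_ge n
  rw [← hcD] at hs hs' hsM hsM'
  obtain ⟨e, he⟩ : ∃ e, e = Nat.log 2 (lP n) := ⟨_, rfl⟩
  rw [← he] at hs hs' hsM hsM' h2e hel he8
  have hD : (PP a k m n).D = cD * lP n := by rw [hcD]; rfl
  have hM1 : 1 ≤ Mc (bP n) := Mc_pos _
  have hl2 : lP n ≤ lP n ^ 2 := Nat.le_self_pow (by norm_num) _
  have hc' : ∀ d, d ≤ c → d * lP n ^ 2 ≤ c * lP n ^ 2 := fun d h => Nat.mul_le_mul_right _ h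
  have hee : ∀ x, x * e.succ ≤ x * lP n := fun x => Nat.mul_le_mul_left _ hel
  -- the exponent of C
  have hE1 : (s * ((Mc (bP n) + 1) * (cD * lP n))) * (e + 1) ≤ c * lP n ^ 2 := by
    calc (s * ((Mc (bP n) + 1) * (cD * lP n))) * (e + 1)
        = (s * (Mc (bP n) + 1) * (e + 1)) * (cD * lP n) := by ring
      _ ≤ (152 * (21 + cD) * lP n) * (cD * lP n) := Nat.mul_le_mul_right _ hsM
      _ = c1 * lP n ^ 2 := by rw [hc1]; ring
      _ ≤ c * lP n ^ 2 := hc' _ (by omega)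
  have hC : (PP a k m n).C ≤ KK c n := by
    refine le_KK (E := s * ((Mc (bP n) + 1) * (cD * lP n))) ?_ (by rw [← he]; exact hE1)
    change prP a k m n ^ ((Mc (bP n) + 1) * (PP a k m n).D) ≤ _
    rw [hD, pow_mul 2 s]
    exact Nat.pow_le_pow_left hp _
  have hMD : 2 ^ (MM (PP a k m n) * (PP a k m n).D) ≤ KK c n := by
    refine le_KK (E := s * ((Mc (bP n) + 1) * (cD * lP n))) ?_ (by rw [← he]; exact hE1)
    refine Nat.pow_le_pow_right (by norm_num) ?_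
    rw [hD]
    change Mc (bP n) * (cD * lP n) ≤ _
    calc Mc (bP n) * (cD * lP n) ≤ (Mc (bP n) + 1) * (cD * lP n) :=
          Nat.mul_le_mul_right _ (by omega)
      _ ≤ s * ((Mc (bP n) + 1) * (cD * lP n)) := Nat.le_mul_of_pos_left _ (by omega)
  have hg1 : 1 ≤ (PP a k m n).g := Nat.le_add_left 1 _
  have hzz : zzN (PP a k m n) ^ (PP a k m n).g ≤ KK c n := by
    refine le_KK (E := (s' * (Mc (bP n) + 1) + 2 + cD * lP n) * gP m n) ?_ ?_
    · change (radN (PP a k m n) ^ (Mc (bP n) + 1) * (4 * 2 ^ (PP a k m n).D)) ^ gP m n ≤ _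
      rw [pow_mul]
      apply Nat.pow_le_pow_left
      rw [hD, pow_add 2 (s' * (Mc (bP n) + 1) + 2), pow_add 2 (s' * (Mc (bP n) + 1)),
        pow_mul 2 s']
      calc radN (PP a k m n) ^ (Mc (bP n) + 1) * (4 * 2 ^ (cD * lP n))
          ≤ (2 ^ s') ^ (Mc (bP n) + 1) * (4 * 2 ^ (cD * lP n)) :=
            Nat.mul_le_mul_right _ (Nat.pow_le_pow_left hrad _)
        _ = (2 ^ s') ^ (Mc (bP n) + 1) * 2 ^ 2 * 2 ^ (cD * lP n) := by ring
    · rw [← he]
      have hg := g_mul_le m n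
      rw [← he] at hg
      have h1 : s' * (Mc (bP n) + 1) ≤ 152 * (35 + cD) * lP n :=
        (Nat.le_mul_of_pos_right _ (by omega)).trans hsM'
      calc (s' * (Mc (bP n) + 1) + 2 + cD * lP n) * gP m n * (e + 1)
          = (s' * (Mc (bP n) + 1) + 2 + cD * lP n) * (gP m n * (e + 1)) := by ring
        _ ≤ (152 * (35 + cD) * lP n + lP n + cD * lP n) * ((8 * m + 1) * lP n) :=
            Nat.mul_le_mul (by omega) hg
        _ = c2 * lP n ^ 2 := by rw [hc2]; ring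
        _ ≤ c * lP n ^ 2 := hc' _ (by omega)
  have hT : (PP a k m n).T ≤ KK c n := by
    refine le_KK (E := bP n * gP m n) le_rfl ?_
    rw [← he]
    have h1 := bg_le m n
    calc bP n * gP m n * (e + 1) ≤ (m * lP n + bP n) * lP n :=
          Nat.mul_le_mul h1 hel
      _ ≤ (m * lP n + lP n) * lP n := Nat.mul_le_mul_right _ (by omega)
      _ = (m + 1) * lP n ^ 2 := by ring
      _ ≤ c * lP n ^ 2 := hc' _ (by omega)
  have hlK : 2 ^ lP n ≤ KK c n := by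
    refine le_KK (E := lP n) le_rfl ?_
    rw [← he]
    calc lP n * (e + 1) ≤ lP n * lP n := Nat.mul_le_mul_left _ hel
      _ = 1 * lP n ^ 2 := by ring
      _ ≤ c * lP n ^ 2 := hc' _ (by omega)
  refine ⟨(n_lt n).trans_le hlK, hC, hMD, hzz, ?_, hT, ?_, ?_, ?_, ?_⟩
  · exact (Nat.le_self_pow (by omega) _).trans hzz
  · refine le_trans ?_ hC
    change prP a k m n ≤ prP a k m n ^ ((Mc (bP n) + 1) * (PP a k m n).D)
    refine Nat.le_self_pow ?_ _
    rw [hD]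
    have : 0 < (Mc (bP n) + 1) * (cD * lP n) :=
      Nat.mul_pos (by omega) (Nat.mul_pos (by omega) (by omega))
    omega
  · refine le_trans ?_ hMD
    have h1 : (PP a k m n).D < 2 ^ (PP a k m n).D := Nat.lt_two_pow_self
    refine h1.le.trans (Nat.pow_le_pow_right (by norm_num) ?_)
    exact Nat.le_mul_of_pos_left _ hM1
  · have h1 : bP n < 2 ^ bP n := Nat.lt_two_pow_self
    exact h1.le.trans ((Nat.pow_le_pow_right (by norm_num) hbl).trans hlK)
  · refine le_trans ?_ hT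
    have h1 : gP m n < 2 ^ gP m n := Nat.lt_two_pow_self
    refine h1.le.trans (Nat.pow_le_pow_right (by norm_num) ?_)
    exact Nat.le_mul_of_pos_left _ hb1

/-- The real form of the scale. -/
theorem KK_bound (c e : ℕ) : ∃ C : ℝ, ∀ n : ℕ, 3 ≤ n →
    (((KK c n + 2) ^ e : ℕ) : ℝ) ≤ (n : ℝ) ^ (C * Real.log n / Real.log (Real.log n)) := by
  refine ⟨(4 * ((4 * (e * (c + 2)) : ℕ) : ℝ)), fun n hn => ?_⟩
  obtain ⟨-, hel, -⟩ := lb_aux n
  have hl := lP_ge n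
  obtain ⟨l', hl'⟩ : ∃ l', l' = Nat.clog 2 n := ⟨_, rfl⟩
  obtain ⟨e', he'⟩ : ∃ e', e' = Nat.log 2 l' := ⟨_, rfl⟩
  have hl'2 : 2 ≤ l' := by
    rw [hl']
    by_contra h
    have h1 : Nat.clog 2 n ≤ 1 := by omega
    have h2 := (Nat.clog_le_iff_le_pow (b := 2) (by norm_num)).1 h1
    omega
  have h1 : Nat.log 2 n ≤ l' := by rw [hl']; exact Nat.log_le_clog 2 n
  have h2 : l' ≤ Nat.log 2 n + 1 := by
    rw [hl', Nat.clog_le_iff_le_pow (by norm_num)]
    exact (Nat.lt_pow_succ_log_self (b := 2) (by norm_num) n).le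
  have h3 : lP n ≤ 2 * l' := by unfold lP; omega
  have h4 : l' ≤ lP n := by unfold lP; omega
  have h5 : e' ≤ Nat.log 2 (lP n) := by rw [he']; exact Nat.log_mono_right h4
  obtain ⟨E, hE⟩ : ∃ E, E = c * lP n ^ 2 / (Nat.log 2 (lP n) + 1) := ⟨_, rfl⟩
  have h6 : E * (Nat.log 2 (lP n) + 1) ≤ c * lP n ^ 2 := by
    rw [hE]; exact Nat.div_mul_le_self _ _
  have hK : KK c n = 2 ^ E := by rw [hE]; rfl
  refine Cat.real_bound (4 * (e * (c + 2))) n l' (e * (E + 2)) e' _ hn hl' he' ?_ ?_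
  · rw [hK, Nat.mul_comm e, pow_mul]
    apply Nat.pow_le_pow_left
    have : 1 ≤ 2 ^ E := Nat.one_le_two_pow
    rw [pow_add]
    omega
  · have h7 : E * (e' + 1) ≤ c * lP n ^ 2 := (Nat.mul_le_mul_left _ (by omega)).trans h6
    have h8 : 2 * (e' + 1) ≤ 2 * lP n ^ 2 := by
      have : lP n ≤ lP n ^ 2 := Nat.le_self_pow (by norm_num) _
      omega
    have h9 : lP n ^ 2 ≤ 4 * l' ^ 2 := by
      calc lP n ^ 2 ≤ (2 * l') ^ 2 := Nat.pow_le_pow_left h3 _
        _ = 4 * l' ^ 2 := by ring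
    calc e * (E + 2) * (e' + 1) = e * (E * (e' + 1) + 2 * (e' + 1)) := by ring
      _ ≤ e * (c * lP n ^ 2 + 2 * lP n ^ 2) := Nat.mul_le_mul_left _ (Nat.add_le_add h7 h8)
      _ = e * (c + 2) * lP n ^ 2 := by ring
      _ ≤ e * (c + 2) * (4 * l' ^ 2) := Nat.mul_le_mul_left _ h9
      _ = 4 * (e * (c + 2)) * l' ^ 2 := by ring

theorem Mc_mono {i b : ℕ} (h : i ≤ b) : Mc i ≤ Mc b := by
  induction b with
  | zero =>
    have : i = 0 := by omega
    subst this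
    exact le_rfl
  | succ b ih =>
    rcases Nat.lt_or_ge i (b + 1) with h1 | h1
    · have := ih (by omega)
      have h2 : Mc b ≤ Mc (b + 1) := by rw [Mc]; omega
      exact this.trans h2
    · have : i = b + 1 := by omega
      subst this
      exact le_rfl

theorem Mc_itr (b : ℕ) : itr (fun _ v => 6 * (v + 1)) 1 b = Mc b := by
  induction b with
  | zero => rfl
  | succ b ih => rw [itr, ih, Mc]

/-- The parameters are computable. -/
theorem PP_comp {α : Type} (a k m c : ℕ) (ha : 1 ≤ a) (hc : ∀ n,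
    n < KK c n ∧ (PP a k m n).C ≤ KK c n ∧
    2 ^ (MM (PP a k m n) * (PP a k m n).D) ≤ KK c n ∧
    zzN (PP a k m n) ^ (PP a k m n).g ≤ KK c n ∧ zzN (PP a k m n) ≤ KK c n ∧
    (PP a k m n).T ≤ KK c n ∧ (PP a k m n).p ≤ KK c n ∧ (PP a k m n).D ≤ KK c n ∧
    (PP a k m n).b ≤ KK c n ∧ (PP a k m n).g ≤ KK c n) :
    PmC (α := α) (fun x => KK c x.length) (fun x => PP a k m x.length) := by
  obtain ⟨K, hKd⟩ : ∃ K : List α → ℕ, K = fun x => KK c x.length := ⟨_, rfl⟩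
  have hK : ∀ x : List α, K x = KK c x.length := fun x => by rw [hKd]
  rw [← hKd]
  have cn : Comp K fun x (_ : Unit) => x.length :=
    Comp.length fun x => by rw [hK]; exact (hc x.length).1.le
  have cl : Comp K fun x (_ : Unit) => lP x.length :=
    Comp.succ (Comp.succ (Comp.log (Comp.const 2) cn))
  have cb : Comp K fun x (_ : Unit) => bP x.length :=
    Comp.succ (Comp.div (Comp.log (Comp.const 2) cl) (Comp.const 8))
  have cg : Comp K fun x (_ : Unit) => gP m x.length :=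
    Comp.succ (Comp.div (Comp.mul (Comp.const m) cl) cb)
  have cD : Comp K fun x (_ : Unit) => DP a k m x.length :=
    Comp.mul (Comp.const (2 * (a + k + m) + 8)) cl
  have bM : Bd K fun x (_ : Unit) => Mc (bP x.length) := by
    refine Bd.mono (F := fun x _ => K x) Bd.scale fun x _ => ?_
    rw [hK]
    refine le_trans ?_ (hc x.length).2.2.1
    have h1 : Mc (bP x.length) < 2 ^ Mc (bP x.length) := Nat.lt_two_pow_self
    refine h1.le.trans (Nat.pow_le_pow_right (by norm_num) ?_)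
    refine Nat.le_mul_of_pos_right _ ?_
    change 0 < (2 * (a + k + m) + 8) * lP x.length
    have := lP_ge x.length
    exact Nat.mul_pos (by omega) (by omega)
  have cM : Comp K fun x (_ : Unit) => Mc (bP x.length) := by
    refine (Comp.itr_nat (h := fun _ _ _ v => 6 * (v + 1)) (g := fun _ _ => 1)
      (Comp.mul (Comp.const 6) (Comp.succ Comp.id.snd.snd)) (Comp.const 1) cb bM
      fun x w i hi => ?_).of_eq fun x w => Mc_itr _
    rw [Mc_itr]
    exact Mc_mono hi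
  have cp : Comp K fun x (_ : Unit) => prP a k m x.length :=
    Comp.nextPrime (Comp.succ (Comp.mul cM cD))
  have ck : ∀ i : ℕ, Comp K fun x (_ : Unit) => (x.length + 1) ^ i := by
    intro i
    induction i with
    | zero => exact (Comp.const 1).of_eq fun x w => (pow_zero _).symm
    | succ i ih => exact (Comp.mul ih cn.succ).of_eq fun x w => (pow_succ _ _).symm
  refine
    { p := cp
      D := cD
      b := cb
      g := cg
      NS := Comp.mul (Comp.const a) (ck k)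
      T := ?_
      C := ?_
      p_pos := fun x => (PP_prime a k m x.length).two_le
      NS_pos := fun x => Nat.mul_pos ha (Nat.pow_pos (Nat.succ_pos _))
      b_pos := fun x => (lb_aux x.length).2.2.2.1
      zz := ?_
      zz1 := ?_
      MD := ?_ }
  · refine Comp.pow (Comp.const 2) (Comp.mul cb cg) ?_
    refine Bd.mono (F := fun x _ => K x) Bd.scale fun x _ => ?_
    rw [hK]
    exact (hc x.length).2.2.2.2.2.1
  · refine Comp.pow cp (Comp.mul cM.succ cD) ?_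
    refine Bd.mono (F := fun x _ => K x) Bd.scale fun x _ => ?_
    rw [hK]
    exact (hc x.length).2.1
  · refine Bd.mono (F := fun x _ => K x) Bd.scale fun x _ => ?_
    rw [hK]
    exact (hc x.length).2.2.2.1
  · refine Bd.mono (F := fun x _ => K x) Bd.scale fun x _ => ?_
    rw [hK]
    exact (hc x.length).2.2.2.2.1
  · refine Bd.mono (F := fun x _ => K x) Bd.scale fun x _ => ?_
    rw [hK]
    exact (hc x.length).2.2.1

end DU

end Pool.Agent.MP_6216ea_lc
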