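import Pool.Agent.Lib.MP_6216ea_lc.DUCod

/-! The numeric recursion computes the levels of the time-splitting recursion. -/

set_option autoImplicit false

namespace Pool.Agent.MP_6216ea_lc

namespace DU

open SP

variable {ι α : Type} {PP : PushProg ι α} {P : Pm} {N : NP} {x : ι → α} {lt : ℕ → ℕ}
  {cd : PP.S → ℕ}

/-- Absorbing. -/
theorem Cod.absorb {NS : ℕ} (h : Cod PP NS N x lt cd) :
    Cod (PP := PP.absorb) NS (absN N) x lt cd := by
  have hi0 : ∀ s, PP.acc s = true → PP.absorb.instr s = .jump s := fun s hs => if_pos hs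
  have hi1 : ∀ s, ¬ PP.acc s = true → PP.absorb.instr s = PP.instr s := fun s hs => if_neg hs
  have hk1 : ∀ s, ¬ PP.acc s = true → (absN N).kind (cd s) = N.kind (cd s) := fun s hs =>
    if_neg fun h' => hs ((h.acc s).1 h')
  have hn1 : ∀ s a, ¬ PP.acc s = true → (absN N).nx (cd s) a = N.nx (cd s) a := fun s a hs =>
    if_neg fun h' => hs ((h.acc s).1 h')
  constructor
  · exact h.lt_NS
  · intro s s' hs
    by_cases ha : PP.acc s = true
    · rw [hi0 s ha] at hs
      have hs' : s = s' := by injection hs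
      subst hs'
      exact ⟨if_pos ((h.acc s).2 ha), if_pos ((h.acc s).2 ha)⟩
    · rw [hi1 s ha] at hs
      rw [hk1 s ha, hn1 s _ ha]
      exact h.jump s s' hs
  · intro s i f hs
    by_cases ha : PP.acc s = true
    · rw [hi0 s ha] at hs
      cases hs
    · rw [hi1 s ha] at hs
      rw [hk1 s ha, hn1 s _ ha]
      exact h.read s i f hs
  · intro s g s' hs
    by_cases ha : PP.acc s = true
    · rw [hi0 s ha] at hs
      cases hs
    · rw [hi1 s ha] at hs
      rw [hk1 s ha, hn1 s _ ha]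
      exact h.push s g s' hs
  · intro s f hs
    by_cases ha : PP.acc s = true
    · rw [hi0 s ha] at hs
      cases hs
    · rw [hi1 s ha] at hs
      rw [hk1 s ha]
      refine ⟨(h.pop s f hs).1, fun c g s' hc => ?_⟩
      rw [hn1 s _ ha]
      by_cases ha' : PP.acc c = true
      · rw [hi0 c ha'] at hc
        cases hc
      · rw [hi1 c ha'] at hc
        exact (h.pop s f hs).2 c g s' hc
  · exact h.acc
  · exact h.start

/-! ### The entries -/

theorem mkq_half (c s t r b : ℕ) (hb : b < 2) : mkq P c s t r b / 2 =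
    ((c * P.NS + s) * (P.T + 1) + min t P.T) * (P.T + 1) + min r P.T := by
  unfold mkq
  omega

theorem mkq_r (c s t r b : ℕ) (hb : b < 2) : mkq P c s t r b / (2 * (P.T + 1)) =
    (c * P.NS + s) * (P.T + 1) + min t P.T := by
  rw [← Nat.div_div_eq_div_mul, mkq_half c s t r b hb, Nat.add_comm,
    Nat.add_mul_div_right _ _ (Nat.succ_pos _), Nat.div_eq_of_lt (by omega), Nat.zero_add]

theorem mkq_t (c s t r b : ℕ) (hb : b < 2) :
    mkq P c s t r b / (2 * (P.T + 1) * (P.T + 1)) = c * P.NS + s := by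
  rw [← Nat.div_div_eq_div_mul, mkq_r c s t r b hb, Nat.add_comm,
    Nat.add_mul_div_right _ _ (Nat.succ_pos _), Nat.div_eq_of_lt (by omega), Nat.zero_add]

theorem mkq_s (c s t r b : ℕ) (hs : s < P.NS) (hb : b < 2) :
    mkq P c s t r b / (2 * (P.T + 1) * (P.T + 1) * P.NS) = c := by
  rw [← Nat.div_div_eq_div_mul, mkq_t c s t r b hb, Nat.add_comm,
    Nat.add_mul_div_right _ _ (by omega), Nat.div_eq_of_lt hs, Nat.zero_add]

theorem fC_mkq (c s t r b : ℕ) (hc : c < P.NS) (hs : s < P.NS) (hb : b < 2) :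
    fC P (mkq P c s t r b) = c := by
  unfold fC
  rw [mkq_s c s t r b hs hb, Nat.mod_eq_of_lt hc]

theorem fS_mkq (c s t r b : ℕ) (hs : s < P.NS) (hb : b < 2) :
    fS P (mkq P c s t r b) = s := by
  unfold fS
  rw [mkq_t c s t r b hb, Nat.add_comm, Nat.add_mul_mod_self_right, Nat.mod_eq_of_lt hs]

theorem fT_mkq (c s t r b : ℕ) (hb : b < 2) : fT P (mkq P c s t r b) = min t P.T := by
  unfold fT
  rw [mkq_r c s t r b hb, Nat.add_comm, Nat.add_mul_mod_self_right, Nat.mod_eq_of_lt (by omega)]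

theorem fR_mkq (c s t r b : ℕ) (hb : b < 2) : fR P (mkq P c s t r b) = min r P.T := by
  unfold fR
  rw [mkq_half c s t r b hb, Nat.add_comm, Nat.add_mul_mod_self_right,
    Nat.mod_eq_of_lt (by omega)]

theorem fB_mkq (c s t r b : ℕ) (hb : b < 2) : fB (mkq P c s t r b) = b := by
  unfold fB mkq
  omega

theorem ite_lt_two (b : Bool) : (if b = true then 1 else 0) < 2 := by
  split_ifs <;> omega

/-- The entries of the code. -/
theorem fields (hNS : ∀ s, cd s < P.NS) (q : QA PP.S P.T) :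
    fC P (qcd P cd q) = cd q.c ∧ fS P (qcd P cd q) = cd q.s ∧ fT P (qcd P cd q) = q.t.val ∧
      fR P (qcd P cd q) = q.r.val ∧ (fB (qcd P cd q) = 1 ↔ q.b = true) := by
  have ht := q.t.isLt
  have hr := q.r.isLt
  unfold qcd
  refine ⟨fC_mkq _ _ _ _ _ (hNS _) (hNS _) (ite_lt_two _), fS_mkq _ _ _ _ _ (hNS _) (ite_lt_two _),
    ?_, ?_, ?_⟩
  · rw [fT_mkq _ _ _ _ _ (ite_lt_two _)]
    omega
  · rw [fR_mkq _ _ _ _ _ (ite_lt_two _)]
    omega
  · rw [fB_mkq _ _ _ _ _ (ite_lt_two _)]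
    cases q.b <;> simp

theorem mkq_lt (hNS : 1 ≤ P.NS) (hD : 2 * (P.NS * (P.T + 1)) ^ 2 ≤ 2 ^ P.D) (c s t r b : ℕ)
    (hc : c < P.NS) (hs : s < P.NS) (hb : b < 2) : mkq P c s t r b < 2 ^ P.D := by
  refine lt_of_lt_of_le ?_ hD
  have h1 : c * P.NS + s + 1 ≤ P.NS * P.NS := by
    have : (c + 1) * P.NS ≤ P.NS * P.NS := Nat.mul_le_mul_right _ hc
    rw [Nat.succ_mul] at this
    omega
  have h2 : (c * P.NS + s) * (P.T + 1) + min t P.T + 1 ≤ P.NS * P.NS * (P.T + 1) := by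
    have : (c * P.NS + s + 1) * (P.T + 1) ≤ P.NS * P.NS * (P.T + 1) :=
      Nat.mul_le_mul_right _ h1
    rw [Nat.succ_mul] at this
    omega
  have h3 : ((c * P.NS + s) * (P.T + 1) + min t P.T) * (P.T + 1) + min r P.T + 1 ≤
      P.NS * P.NS * (P.T + 1) * (P.T + 1) := by
    have : ((c * P.NS + s) * (P.T + 1) + min t P.T + 1) * (P.T + 1) ≤
      P.NS * P.NS * (P.T + 1) * (P.T + 1) := Nat.mul_le_mul_right _ h2
    rw [Nat.succ_mul] at this
    omega
  have h4 : 2 * (P.NS * (P.T + 1)) ^ 2 = P.NS * P.NS * (P.T + 1) * (P.T + 1) * 2 := by ring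
  rw [h4]
  unfold mkq
  omega

theorem fC_lt (hNS : 1 ≤ P.NS) (v : ℕ) : fC P v < P.NS := Nat.mod_lt _ hNS

theorem fS_lt (hNS : 1 ≤ P.NS) (v : ℕ) : fS P v < P.NS := Nat.mod_lt _ hNS

theorem mu_lt (hNS : 1 ≤ P.NS) (L q v : ℕ) : mu P L q v < P.NS := by
  unfold mu
  split_ifs
  · exact fC_lt hNS _
  · exact fS_lt hNS _

theorem oh_lt (hNS : 1 ≤ P.NS) (hD : 2 * (P.NS * (P.T + 1)) ^ 2 ≤ 2 ^ P.D) (L q m : ℕ)
    (a : ℕ → ℕ) : oh P L q m a < 2 ^ P.D := by
  have hC := fun v => fC_lt hNS v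
  have hS := fun v => fS_lt hNS v
  have hU := mu_lt hNS L q (a 1)
  unfold oh
  split_ifs
  · exact mkq_lt hNS hD _ _ _ _ _ (hC _) (hC _) (by omega)
  · exact mkq_lt hNS hD _ _ _ _ _ (hC _) (hC _) (by omega)
  · exact mkq_lt hNS hD _ _ _ _ _ hU (hS _) (by omega)
  · exact mkq_lt hNS hD _ _ _ _ _ (hC _) (hS _) (by omega)
  · exact mkq_lt hNS hD _ _ _ _ _ (hS _) (hC _) (by omega)
  · exact mkq_lt hNS hD _ _ _ _ _ (hS _) (hC _) (by omega)
  · exact mkq_lt hNS hD _ _ _ _ _ hU (hS _) (by omega)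
  · exact mkq_lt hNS hD _ _ _ _ _ (hC _) (hS _) (by omega)
  · exact mkq_lt hNS hD _ _ _ _ _ (hC _) (hS _) (by omega)

theorem oe_lt (hNS : 1 ≤ P.NS) (hD : 2 * (P.NS * (P.T + 1)) ^ 2 ≤ 2 ^ P.D) (L q : ℕ)
    (a : ℕ → ℕ) : oe P L q a < 2 ^ P.D := by
  have hC := fun v => fC_lt hNS v
  have hS := fun v => fS_lt hNS v
  unfold oe
  split_ifs
  · exact mkq_lt hNS hD _ _ _ _ _ (hS _) (hS _) (by omega)
  · exact Nat.mod_lt _ (by positivity)
  · exact mkq_lt hNS hD _ _ _ _ _ (hC _) (hS _) (by omega)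
  · exact Nat.mod_lt _ (by positivity)
  · exact mkq_lt hNS hD _ _ _ _ _ (hC _) (hS _) (by omega)
  · exact mkq_lt hNS hD _ _ _ _ _ (hC _) (hS _) (by omega)

theorem baseN_lt (hNS : 1 ≤ P.NS) (hD : 2 * (P.NS * (P.T + 1)) ^ 2 ≤ 2 ^ P.D) (N : NP)
    (lt : ℕ → ℕ) (v : ℕ) : baseN P N lt v < 2 ^ P.D := by
  have hS := fun v => fS_lt hNS v
  have hM : ∀ v, v % P.NS < P.NS := fun v => Nat.mod_lt _ hNS
  unfold baseN
  split_ifs
  · exact mkq_lt hNS hD _ _ _ _ _ (hS _) (hS _) (by omega)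
  · exact mkq_lt hNS hD _ _ _ _ _ (hM _) (hS _) (by omega)
  · exact mkq_lt hNS hD _ _ _ _ _ (hM _) (hS _) (by omega)
  · exact mkq_lt hNS hD _ _ _ _ _ (hS _) (hS _) (by omega)
  · exact mkq_lt hNS hD _ _ _ _ _ (hM _) (hM _) (by omega)
  · exact mkq_lt hNS hD _ _ _ _ _ (hS _) (hS _) (by omega)

theorem mkq_clip (c s t r b : ℕ) :
    mkq P c s (QA.clip P.T t).val (QA.clip P.T r).val b = mkq P c s t r b := by
  unfold mkq QA.clip
  simp only [min_assoc, min_self]

theorem qcd_ask (c : PP.S) (t : ℕ) (s : PP.S) (r : ℕ) :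
    qcd P cd (QA.ask c t s r : QA PP.S P.T) = mkq P (cd c) (cd s) t r 0 :=
  mkq_clip _ _ _ _ _

theorem qcd_ins (t : ℕ) (s : PP.S) (r : ℕ) (c : PP.S) :
    qcd P cd (QA.ins t s r c : QA PP.S P.T) = mkq P (cd c) (cd s) t r 0 :=
  mkq_clip _ _ _ _ _

theorem qcd_exi (e : PP.S) (r : ℕ) :
    qcd P cd (QA.exi e r : QA PP.S P.T) = mkq P (cd e) (cd e) 0 r 1 :=
  mkq_clip _ _ _ _ _

theorem qcd_lt (hNS : ∀ s, cd s < P.NS) (hD : 2 * (P.NS * (P.T + 1)) ^ 2 ≤ 2 ^ P.D)
    (q : QA PP.S P.T) : qcd P cd q < 2 ^ P.D :=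
  mkq_lt (lt_of_le_of_lt (Nat.zero_le _) (hNS q.c)) hD _ _ _ _ _ (hNS _) (hNS _) (ite_lt_two _)

theorem baseN_eq (h : Cod PP P.NS N x lt cd) (q : QA PP.S P.T) :
    baseN P N lt (qcd P cd q) = qcd P cd (PP.qbas q ((PP.qpos q).map x)) := by
  obtain ⟨h1, h2, h3, h4, -⟩ := fields h.lt_NS q
  unfold baseN PushProg.qbas PushProg.qpos
  rw [h1, h2, h3, h4]
  by_cases hr : q.r.val = 0
  · rw [if_pos hr, if_pos hr, qcd_ins]
  · rw [if_neg hr, if_neg hr]
    cases hi : PP.instr q.s with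
    | jump s' =>
      obtain ⟨k1, k2⟩ := h.jump _ _ hi
      rw [k1, if_neg (by omega), if_pos (Or.inl rfl), k2, Nat.mod_eq_of_lt (h.lt_NS _), qcd_ins]
    | read i f =>
      obtain ⟨k1, k2⟩ := h.read _ _ _ hi
      rw [k1, if_pos rfl, k2, Nat.mod_eq_of_lt (h.lt_NS _)]
      simp only [Option.map_some]
      rw [qcd_ins]
    | push g s' =>
      obtain ⟨k1, k2⟩ := h.push _ _ _ hi
      rw [k1, if_neg (by omega), if_pos (Or.inr rfl), k2, Nat.mod_eq_of_lt (h.lt_NS _), qcd_ins]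
    | pop f =>
      obtain ⟨k1, k2⟩ := h.pop _ _ hi
      rw [k1, if_neg (by omega), if_neg (by omega)]
      by_cases ht : q.t.val = 0
      · simp only [if_pos ht]
        rw [qcd_exi]
      · simp only [if_neg ht]
        cases hc : PP.instr q.c with
        | jump s' =>
          rw [(h.jump _ _ hc).1, if_neg (by omega)]
          simp only
          rw [qcd_exi]
        | read i f' =>
          rw [(h.read _ _ _ hc).1, if_neg (by omega)]
          simp only
          rw [qcd_exi]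
        | push g s' =>
          rw [(h.push _ _ _ hc).1, if_pos rfl, k2 _ _ _ hc, Nat.mod_eq_of_lt (h.lt_NS _)]
          simp only
          rw [qcd_ins]
        | pop f' =>
          rw [(h.pop _ _ hc).1, if_neg (by omega)]
          simp only
          rw [qcd_exi]

/-- The answers are the answers to the questions. -/
theorem fs_of_lt (O : One) (A : ℕ → ℕ) (L q m k : ℕ) (h : k < m) :
    fs O A L q m k = A (O.h L q k (fs O A L q k)) := by
  induction m with
  | zero => omega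
  | succ m ih =>
    rw [fs]
    by_cases hk : k = m
    · subst hk
      rw [Function.update_self]
    · rw [Function.update_of_ne hk, ih (by omega)]

/-- The main part of the protocol. -/
theorem main_eq (hNS : ∀ s, cd s < P.NS) (hD : 2 * (P.NS * (P.T + 1)) ^ 2 ≤ 2 ^ P.D) (L v : ℕ)
    (A : QA PP.S P.T → QA PP.S P.T) (A' : ℕ → ℕ) (hA : ∀ q, A' (qcd P cd q) = qcd P cd (A q))
    (a : ℕ → ℕ) (ha : ∀ m, 2 ≤ m → m < 6 → a m = A' (oh P L v m a))
    (c : PP.S) (l : ℕ) (u : PP.S) (t tu : ℕ) (s : PP.S) (hc : fC P v = cd c) (hs : fS P v = cd s)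
    (hl : ml P L v (a 1) = l) (hu : mu P L v (a 1) = cd u) (ht : ma P L v (a 1) = t)
    (htu : mt P L v (a 1) = tu) :
    oe P L v a = qcd P cd (Prot.eval A (QA.main c l u t tu s (r1 P L v) (r2 P L v))) := by
  have hF := fun q : QA PP.S P.T => fields hNS q
  have h2 : a 2 = qcd P cd (A (QA.ask u t s (r1 P L v))) := by
    rw [← hA, qcd_ask, ha 2 le_rfl (by omega)]
    simp only [oh, hu, hs, ht]
    simp
  have h3 : a 3 = A' (oh P L v 3 a) := ha 3 (by omega) (by omega)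
  have h4 : a 4 = A' (oh P L v 4 a) := ha 4 (by omega) (by omega)
  have h5 : a 5 = A' (oh P L v 5 a) := ha 5 (by omega) (by omega)
  simp only [QA.main, Prot.eval]
  generalize A (QA.ask u t s (r1 P L v)) = B at h2 ⊢
  obtain ⟨b1, b2, b3, b4, b5⟩ := hF B
  have e3 : oh P L v 3 a = if fB (a 2) = 1 then mkq P (cd c) (cd B.s) l B.r.val 0
      else mkq P (cd B.s) (cd B.c) B.r.val (r2 P L v) 0 := by
    simp only [oh, hc, hl, h2, b1, b2, b3, b4]
    simp
  rw [e3] at h3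
  by_cases hB : B.b = true
  · have hB' : fB (a 2) = 1 := by rw [h2]; exact b5.2 hB
    rw [if_pos hB', ← qcd_ask, hA] at h3
    simp only [hB, if_true, Prot.eval]
    generalize A (QA.ask c l B.s B.r.val) = B₂ at h3 ⊢
    obtain ⟨d1, d2, d3, d4, d5⟩ := hF B₂
    unfold oe
    rw [if_pos hB']
    by_cases hB₂ : B₂.b = true
    · have hB₂' : fB (a 3) = 1 := by rw [h3]; exact d5.2 hB₂
      rw [if_pos hB₂', h3, d2, d4]
      simp only [hB₂, if_true, Prot.eval]
      rw [qcd_exi]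
    · have hB₂' : ¬ fB (a 3) = 1 := by rw [h3]; exact fun h => hB₂ (d5.1 h)
      rw [if_neg hB₂']
      have e4 : oh P L v 4 a = mkq P (cd B₂.s) (cd B₂.c) B₂.r.val (r2 P L v) 0 := by
        simp only [oh, h3, d1, d2, d4]
        simp [hB']
      rw [e4, ← qcd_ask, hA] at h4
      simp only [hB₂, Bool.false_eq_true, if_false, QA.sec2, Prot.eval]
      generalize A (QA.ask B₂.s B₂.r.val B₂.c (r2 P L v)) = C at h4 ⊢
      obtain ⟨c1, c2, c3, c4, c5⟩ := hF C
      by_cases hC : C.b = true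
      · have hC' : fB (a 4) = 1 := by rw [h4]; exact c5.2 hC
        rw [if_pos hC']
        have e5 : oh P L v 5 a = mkq P (cd c) (cd C.s) B₂.t.val C.r.val 0 := by
          simp only [oh, h3, h4, hc, c2, c4, d3]
          simp [hB']
        rw [e5, ← qcd_ask, hA] at h5
        simp only [hC, if_true, Prot.eval]
        rw [h5, Nat.mod_eq_of_lt (qcd_lt hNS hD _)]
      · have hC' : ¬ fB (a 4) = 1 := by rw [h4]; exact fun h => hC (c5.1 h)
        rw [if_neg hC', h3, h4, c1, d2, d3, d4]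
        simp only [hC, Bool.false_eq_true, if_false, Prot.eval]
        rw [qcd_ins]
  · have hB' : ¬ fB (a 2) = 1 := by rw [h2]; exact fun h => hB (b5.1 h)
    rw [if_neg hB', ← qcd_ask, hA] at h3
    simp only [hB, Bool.false_eq_true, if_false, QA.sec3, Prot.eval]
    generalize A (QA.ask B.s B.r.val B.c (r2 P L v)) = C at h3 ⊢
    obtain ⟨c1, c2, c3, c4, c5⟩ := hF C
    unfold oe
    rw [if_neg hB', htu]
    by_cases hC : C.b = true
    · have hC' : fB (a 3) = 1 := by rw [h3]; exact c5.2 hC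
      rw [if_pos hC']
      have e4 : oh P L v 4 a = mkq P (cd u) (cd C.s) B.t.val C.r.val 0 := by
        simp only [oh, h3, hu, c2, c4]
        simp [hB']
        rw [h2, b3]
      rw [e4, ← qcd_ask, hA] at h4
      simp only [hC, if_true, Prot.eval]
      generalize A (QA.ask u B.t.val C.s C.r.val) = D at h4 ⊢
      obtain ⟨d1, d2, d3, d4, d5⟩ := hF D
      by_cases hDb : D.b = true
      · have hD' : fB (a 4) = 1 := by rw [h4]; exact d5.2 hDb
        rw [if_pos hD']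
        have e5 : oh P L v 5 a = mkq P (cd c) (cd D.s) l D.r.val 0 := by
          simp only [oh, h4, hc, hl, d2, d4]
          simp [hB']
        rw [e5, ← qcd_ask, hA] at h5
        simp only [hDb, if_true, Prot.eval]
        rw [h5, Nat.mod_eq_of_lt (qcd_lt hNS hD _)]
      · have hD' : ¬ fB (a 4) = 1 := by rw [h4]; exact fun h => hDb (d5.1 h)
        rw [if_neg hD', h4, d1, d2, d3, d4]
        simp only [hDb, Bool.false_eq_true, if_false, Prot.eval]
        rw [qcd_ins]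
    · have hC' : ¬ fB (a 3) = 1 := by rw [h3]; exact fun h => hC (c5.1 h)
      rw [if_neg hC', h3, h2, c1, b2, b3, b4]
      simp only [hC, Bool.false_eq_true, if_false, Prot.eval]
      rw [qcd_ins]

/-- One level: `A'` are the answers of the lower level. -/
theorem one_eq (h : Cod PP P.NS N x lt cd) (hD : 2 * (P.NS * (P.T + 1)) ^ 2 ≤ 2 ^ P.D) (L : ℕ)
    (hL : 2 ^ L ≤ P.T) (A : QA PP.S P.T → QA PP.S P.T) (A' : ℕ → ℕ)
    (hA : ∀ q, A' (qcd P cd q) = qcd P cd (A q)) (q : QA PP.S P.T) :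
    oe P L (qcd P cd q) (fs (oneN P) A' L (qcd P cd q) 6) =
      qcd P cd (Prot.eval A (QA.split (2 ^ L) q)) := by
  have hNS := h.lt_NS
  obtain ⟨q1, q2, q3, q4, -⟩ := fields hNS q
  have hk : kk P L = 2 ^ L := min_eq_right hL
  obtain ⟨a, hadef⟩ : ∃ a, a = fs (oneN P) A' L (qcd P cd q) 6 := ⟨_, rfl⟩
  have hlow : ∀ k m, k < m → m < 6 → fs (oneN P) A' L (qcd P cd q) m k = a k := by
    intro k m hkm hm
    rw [hadef, fs_of_lt _ _ _ _ m k hkm, fs_of_lt _ _ _ _ 6 k (by omega)]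
  have ha : ∀ m, m < 6 → a m = A' (oh P L (qcd P cd q) m a) := by
    intro m hm
    conv_lhs => rw [hadef, fs_of_lt _ _ _ _ 6 m hm]
    congr 1
    change oh P L (qcd P cd q) m _ = _
    have hm' : m = 0 ∨ m = 1 ∨ m = 2 ∨ m = 3 ∨ m = 4 ∨ m = 5 := by omega
    rcases hm' with rfl | rfl | rfl | rfl | rfl | rfl
    · simp only [oh, if_true]
    · simp only [oh, hlow 0 1 (by omega) (by omega)]
      simp
    · simp only [oh, hlow 0 2 (by omega) (by omega), hlow 1 2 (by omega) (by omega)]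
      simp
    · simp only [oh, hlow 1 3 (by omega) (by omega), hlow 2 3 (by omega) (by omega)]
      simp
    · simp only [oh, hlow 1 4 (by omega) (by omega), hlow 2 4 (by omega) (by omega),
        hlow 3 4 (by omega) (by omega)]
      simp
    · simp only [oh, hlow 1 5 (by omega) (by omega), hlow 2 5 (by omega) (by omega),
        hlow 3 5 (by omega) (by omega), hlow 4 5 (by omega) (by omega)]
      simp
  rw [← hadef]
  have hr1 : r1 P L (qcd P cd q) = min q.r.val (2 ^ L) := by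
    unfold r1
    rw [q4, hk]
  have hr2 : r2 P L (qcd P cd q) = q.r.val - min q.r.val (2 ^ L) := by
    unfold r2
    rw [hr1, q4]
  unfold QA.split
  by_cases ht : q.t.val ≤ 2 ^ L
  · rw [if_pos ht, ← hr1]
    have e : q.r.val - r1 P L (qcd P cd q) = r2 P L (qcd P cd q) := by
      rw [hr2, hr1]
    rw [e]
    refine main_eq hNS hD L _ A A' hA a (fun m _ hm => ha m hm) q.c 0 q.c q.t.val 0 q.s q1 q2
      ?_ ?_ ?_ ?_
    · simp [ml, q3, hk, ht]
    · simp [mu, q1, q3, hk, ht]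
    · simp [ma, q3, hk, ht]
    · simp [mt, q3, hk, ht]
  · rw [if_neg ht, ← hr1]
    have e : q.r.val - r1 P L (qcd P cd q) = r2 P L (qcd P cd q) := by
      rw [hr2, hr1]
    rw [e]
    simp only [Prot.eval]
    have h0 := ha 0 (by omega)
    have e0 : oh P L (qcd P cd q) 0 a = mkq P (cd q.c) (cd q.c) 0 (2 ^ L) 0 := by
      simp only [oh, if_true, q1, hk]
    rw [e0, ← qcd_ask, hA] at h0
    generalize A (QA.ask q.c 0 q.c (2 ^ L)) = A₀ at h0 ⊢
    obtain ⟨d1, d2, d3, d4, -⟩ := fields hNS A₀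
    have h1 := ha 1 (by omega)
    have e1 : oh P L (qcd P cd q) 1 a =
        mkq P (cd q.c) (cd A₀.c) (2 ^ L) (q.t.val - 2 ^ L) 0 := by
      simp only [oh, h0, q1, q3, hk, d1]
      simp
    rw [e1, ← qcd_ask, hA] at h1
    generalize A (QA.ask q.c (2 ^ L) A₀.c (q.t.val - 2 ^ L)) = A₁ at h1 ⊢
    obtain ⟨f1, f2, f3, f4, -⟩ := fields hNS A₁
    refine main_eq hNS hD L _ A A' hA a (fun m _ hm => ha m hm) q.c _ _ _ _ q.s q1 q2
      ?_ ?_ ?_ ?_
    · simp [ml, q3, hk, ht, h1, f3]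
    · simp [mu, q3, hk, ht, h1, f2]
    · simp [ma, q3, hk, ht, h1, f4]
    · simp [mt, q3, hk, ht, h1, f4]

theorem fineA_eq (h : Cod PP P.NS N x lt cd) (hD : 2 * (P.NS * (P.T + 1)) ^ 2 ≤ 2 ^ P.D) (L : ℕ)
    (hL : 2 ^ L ≤ 2 * P.T) (q : QA PP.S P.T) :
    fineA (oneN P) (baseN P N lt) L (qcd P cd q) = qcd P cd (PP.lev P.T x L q) := by
  induction L generalizing q with
  | zero => exact baseN_eq h q
  | succ L ih =>
    rw [pow_succ, Nat.mul_comm] at hL
    have hL' : 2 ^ L ≤ P.T := by omega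
    exact one_eq h hD L hL' (PP.lev P.T x L) _ (fun q => ih (by omega) q) q

end DU

end Pool.Agent.MP_6216ea_lc
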