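import Pool.Agent.Lib.MP_6216ea_lc.DUAlg
import Pool.Agent.Lib.MP_6216ea_lc.DUSplitN
import Pool.Agent.Lib.MP_6216ea_lc.DUHeadN
import Pool.Agent.Lib.MP_6216ea_lc.DUPar

/-! The uniform theorem. -/

set_option autoImplicit false

namespace Pool.Agent.MP_6216ea_lc

namespace DU

open SP

/-- The value of the recursion for the start configuration. -/
def valA (P : Pm) (N : NP) (lt : ℕ → ℕ) (T₀ : ℕ) : ℕ :=
  lvA (sysC (oneN P) P.D P.b) (baseN P N lt) P.g (mkq P N.start N.start 0 T₀ 0)

/-- The answer. -/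
def ansA (P : Pm) (N : NP) (lt : ℕ → ℕ) (T₀ : ℕ) : ℕ :=
  if fB (valA P N lt T₀) = 0 ∧ N.acc (fC P (valA P N lt T₀)) = 1 then 1 else 0

/-- The answer of the recursion. -/
theorem ansA_spec {ι α : Type} {PP : PushProg ι α} {P : Pm} {N : NP} {x : ι → α} {lt : ℕ → ℕ}
    {cd : PP.S → ℕ} (h : Cod PP P.NS N x lt cd)
    (hD : 2 * (P.NS * (P.T + 1)) ^ 2 ≤ 2 ^ P.D)
    (hT : P.T = 2 ^ (P.b * P.g)) (T₀ : ℕ) (hT₀ : T₀ ≤ P.T) :
    ansA P (absN N) lt T₀ ≤ 1 ∧ (ansA P (absN N) lt T₀ = 1 ↔ PP.AcceptsIn x T₀) := by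
  have ha := h.absorb
  have hq : mkq P (absN N).start (absN N).start 0 T₀ 0 =
      qcd P cd (QA.ask PP.start 0 PP.start T₀) := by
    have h1 : (absN N).start = cd PP.start := h.start
    unfold qcd mkq QA.ask QA.clip
    rw [h1]
    simp
  have hval : valA P (absN N) lt T₀ =
      qcd P cd (PP.absorb.lev P.T x (P.b * P.g) (QA.ask PP.start 0 PP.start T₀)) := by
    unfold valA
    rw [lvA_sysC, hq]
    exact fineA_eq (PP := PP.absorb) ha hD (P.b * P.g) (by rw [hT]; omega) _
  have hacc := PP.accepts_lev x (P.b * P.g) T₀ (T := P.T) hT.ge (by rw [← hT]; exact hT₀)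
  have hf := fields (PP := PP.absorb) (P := P) ha.lt_NS
    (PP.absorb.lev P.T x (P.b * P.g) (QA.ask PP.start 0 PP.start T₀))
  unfold ansA
  rw [hval]
  constructor
  · split_ifs <;> omega
  · rw [hacc]
    obtain ⟨hc, -, -, -, hB⟩ := hf
    have hlt : fB (qcd P cd (PP.absorb.lev P.T x (P.b * P.g)
        (QA.ask PP.start 0 PP.start T₀))) < 2 := Nat.mod_lt _ (by norm_num)
    have h2 : PP.absorb.start = PP.start := rfl
    rw [h2]
    generalize PP.absorb.lev P.T x (P.b * P.g) (QA.ask PP.start 0 PP.start T₀) = a at *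
    have hB' : fB (qcd P cd a) = 0 ↔ a.b = false := by
      rw [← Bool.not_eq_true, ← hB]
      change fB (qcd P cd a) < 2 at hlt
      change fB (qcd P cd a) = 0 ↔ ¬ fB (qcd P cd a) = 1
      omega
    have hA : (absN N).acc (fC P (qcd P cd a)) = 1 ↔ PP.absorb.acc a.c = true := by
      have h3 : fC P (qcd P cd a) = cd a.c := hc
      rw [h3]
      exact ha.acc a.c
    split_ifs with h4
    · exact iff_of_true rfl ⟨hB'.1 h4.1, hA.1 h4.2⟩
    · refine iff_of_false (by norm_num) fun h5 => h4 ⟨hB'.2 h5.1, hA.2 h5.2⟩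

theorem head_prog_iff {α : Type} (M : HeadPDA α) {n : ℕ} (x : Fin n → α) (T : ℕ) :
    (M.prog n).AcceptsIn x (2 * T + 1) ↔ M.AcceptsIn x T := by
  constructor
  · rintro ⟨t, ht, s, z, h1, h2⟩
    rcases t with _ | t
    · have h3 : (M.prog n).start = s := congrArg Prod.fst (Option.some.inj h1)
      subst h3
      exact absurd h2 Bool.false_ne_true
    · rw [M.prog_start x t] at h1
      rcases Nat.even_or_odd' t with ⟨u, rfl | rfl⟩
      · have h3 := congrArg Prod.fst
          (Option.some.inj (h1.symm.trans (M.prog_even x u (M.start, fun _ => 0, []))))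
        subst h3
        exact ⟨u, by omega, h2⟩
      · obtain ⟨m, w, h3, h4⟩ := M.prog_odd x u (M.start, fun _ => 0, [])
        have h5 := congrArg Prod.fst (Option.some.inj (h1.symm.trans h3))
        subst h5
        exact absurd (h2.symm.trans h4) (by decide)
  · rintro ⟨u, hu, h1⟩
    exact ⟨2 * u + 1, by omega, some (.inl (((M.step x)^[u] (M.start, fun _ => 0, [])).1,
      ((M.step x)^[u] (M.start, fun _ => 0, [])).2.1)),
      M.stk ((M.step x)^[u] (M.start, fun _ => 0, [])).2.2,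
      M.prog_even x u (M.start, fun _ => 0, []), h1⟩

theorem absN_comp {α : Type} {K : List α → ℕ} {N : List α → NP} (hN : NPC K N) :
    NPC K (fun x => absN (N x)) where
  kind := Comp.ite (CompP.eq hN.acc (Comp.const 1)) (Comp.const 0) hN.kind
  pos := hN.pos
  sym := hN.sym
  nx := Comp.ite (CompP.eq (hN.acc.comp Comp.id.fst) (Comp.const 1)) Comp.id.fst hN.nx
  acc := hN.acc
  start := hN.start

/-- The recursion is computable. -/
theorem good_sysC {α : Type} [Finite α] {K : List α → ℕ} {P : List α → Pm} {N : List α → NP}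
    (hP : PmC K P) (hN : NPC K N) (la : Option α → ℕ) (hprime : ∀ x, (P x).p.Prime)
    (hC : ∀ x, (P x).C = (P x).p ^ ((MM (P x) + 1) * (P x).D)) :
    Nm.Good K (fun x (_ : Unit) => sysC (oneN (P x)) (P x).D (P x).b)
      (fun x _ => baseN (P x) (N x) fun i => la x[i]?) (fun x _ => (P x).p)
      (fun x _ => (P x).g) where
  cD := hP.D
  cM := comp_Mc (P := fun x (_ : Unit) => P x) hP.pc hP.b fun _ _ => le_rfl
  cp := hP.p
  cg := hP.g
  call := pm_callC hP
  fn := pm_fnC hP
  rf := pm_rfC hP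
  cb := pm_baseN hP hN la
  prime x _ := hprime x
  bR := hP.C.bd.mono fun x _ => (hC x).ge
  bZ := (Bd.mul hP.zz hP.zz1).mono fun x _ => (pow_succ _ _).le

/-- The answer is computable. -/
theorem comp_ansA {α : Type} [Finite α] {K : List α → ℕ} {P : List α → Pm} {N : List α → NP}
    (hP : PmC K P) (hN : NPC K N) (la : Option α → ℕ) (hprime : ∀ x, (P x).p.Prime)
    (hC : ∀ x, (P x).C = (P x).p ^ ((MM (P x) + 1) * (P x).D))
    (hD : ∀ x, 2 * ((P x).NS * ((P x).T + 1)) ^ 2 ≤ 2 ^ (P x).D)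
    (hdeg : ∀ x, MM (P x) * (P x).D < (P x).p - 1) {T₀ : List α → Unit → ℕ}
    (hT : Comp K T₀) :
    Comp K fun x w => ansA (P x) (N x) (fun i => la x[i]?) (T₀ x w) := by
  have hst : Comp K fun x (_ : Unit) => (N x).start := hN.start
  have hv : Comp K fun x w => valA (P x) (N x) (fun i => la x[i]?) (T₀ x w) :=
    Nm.comp_lvA (good_sysC hP hN la hprime hC)
      (fun x _ => sysC_ok _ _ _ (hP.b_pos x)
        (fun L q m a _ => oh_lt (hP.NS_pos x) (hD x) L q m a)
        (fun L q a _ => oe_lt (hP.NS_pos x) (hD x) L q a))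
      (fun x _ => baseN_lt (hP.NS_pos x) (hD x) (N x) _) (fun x _ => hdeg x)
      (pm_mkq hP hst hst (Comp.const 0) hT (Comp.const 0))
  have hacc : Comp K fun x w => (N x).acc
      (fC (P x) (valA (P x) (N x) (fun i => la x[i]?) (T₀ x w))) :=
    hN.acc.comp (pm_fC hP hv)
  exact Comp.ite (CompP.and (CompP.eq (pm_fB hv) (Comp.const 0))
    (CompP.eq hacc (Comp.const 1))) (Comp.const 1) (Comp.const 0)

/-- For every deterministic two-way multi-head pushdown automaton `M` and every `d` there is a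
fixed while program which decides on every input of length `n ≥ 3` whether `M` accepts it within
`n ^ d` steps, with all variables below `n ^ (C log n / log log n)`. -/
theorem uniform_main {α : Type} [Finite α] (M : HeadPDA α) (d : ℕ) :
    ∃ (c : Cmd α) (C : ℝ), ∀ x : List α, 3 ≤ x.length → ∃ (B : ℕ) (t : ℕ → ℕ),
      (B : ℝ) ≤ (x.length : ℝ) ^ (C * Real.log x.length / Real.log (Real.log x.length)) ∧
      Run x B c (fun _ => 0) t ∧ t 0 ≤ 1 ∧
      (t 0 = 1 ↔ M.AcceptsIn x.get (x.length ^ d)) := by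
  obtain ⟨N, cd, la, a, ha, hcod, hcomp⟩ := headN_spec M
  obtain ⟨c₀, hc₀, hsc⟩ := PP_scale a M.k (d + 1)
  have hK : ∀ x : List α, x.length ≤ KK c₀ x.length := fun x => (hsc x.length).1.le
  have hPC : PmC (α := α) (fun x => KK c₀ x.length) (fun x => PP a M.k (d + 1) x.length) :=
    PP_comp a M.k (d + 1) c₀ ha hsc
  obtain ⟨h1, h2, h3, h4, h5, h6⟩ := hcomp (fun x => KK c₀ x.length) hK
  have hNC : NPC (fun x : List α => KK c₀ x.length) (fun x => N x.length) :=
    ⟨h1, h2, h3, h4, h5, h6⟩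
  have hT : Comp (fun x : List α => KK c₀ x.length)
      (fun x (_ : Unit) => 2 * x.length ^ d + 1) := by
    have hl : Comp (fun x : List α => KK c₀ x.length) (fun x (_ : Unit) => x.length) :=
      Comp.length hK
    refine Comp.add (Comp.mul (Comp.const 2) ?_) (Comp.const 1)
    refine Comp.pow hl (Comp.const d) ⟨d + 1, fun x B w hB hx _ => ?_⟩
    have hxl : x.length < B := (hK x).trans_lt hx
    calc x.length ^ d ≤ B ^ d := Nat.pow_le_pow_left hxl.le d
      _ < B ^ (d + 1) := Nat.pow_lt_pow_right (by omega) (by omega)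
  have hans := comp_ansA hPC (absN_comp hNC) la (fun x => PP_prime a M.k (d + 1) x.length)
    (fun _ => rfl) (fun x => PP_bits a M.k (d + 1) x.length)
    (fun x => PP_deg a M.k (d + 1) x.length) hT
  obtain ⟨c, e, hrun⟩ := hans.run
  obtain ⟨C, hCb⟩ := KK_bound c₀ e
  refine ⟨c, C, fun x hx => ⟨(KK c₀ x.length + 2) ^ e, _, hCb x.length hx,
    hrun x (KK c₀ x.length + 2) (by omega) (by change KK c₀ x.length < _; omega), ?_⟩⟩
  have hspec := ansA_spec (P := PP a M.k (d + 1) x.length) (hcod x)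
    (PP_bits _ _ _ _) rfl (2 * x.length ^ d + 1) (by
      refine le_trans ?_ (PP_time a M.k (d + 1) x.length)
      have h7 := n_lt x.length
      have h8 := lP_ge x.length
      have h9 : x.length ^ d ≤ 2 ^ (lP x.length * d) := by
        rw [pow_mul]
        exact Nat.pow_le_pow_left h7.le d
      calc 2 * x.length ^ d + 1 ≤ 2 * 2 ^ (lP x.length * d) + 1 := by omega
        _ ≤ 2 ^ 2 * 2 ^ (lP x.length * d) := by
            have := Nat.one_le_two_pow (n := lP x.length * d)
            omega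
        _ = 2 ^ (2 + lP x.length * d) := by rw [pow_add]
        _ ≤ 2 ^ ((d + 1) * lP x.length) := by
            apply Nat.pow_le_pow_right (by norm_num)
            nlinarith)
  have hh := head_prog_iff M x.get (x.length ^ d)
  rw [Function.update_self]
  exact ⟨hspec.1, hspec.2.trans hh⟩

end DU

end Pool.Agent.MP_6216ea_lc
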