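import Pool.Agent.Lib.MP_6216ea_lc.DUPath

/-! Computability of the recursion: parameters, items, results, lowest level. -/

set_option autoImplicit false

namespace Pool.Agent.MP_6216ea_lc

namespace DU

open SP

variable {α : Type} {K : List α → ℕ} {σ τ : Type} [Tup σ] [Tup τ]

/-- Computable parameters in a context. -/
structure PC (K : List α → ℕ) (P : List α → σ → Pm) : Prop where
  D : Comp K fun x w => (P x w).D
  b : Comp K fun x w => (P x w).b
  NS : Comp K fun x w => (P x w).NS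
  T : Comp K fun x w => (P x w).T
  NS_pos : ∀ x w, 1 ≤ (P x w).NS
  M : Bd K fun x w => Mc (P x w).b

theorem PC.comp {P : List α → τ → Pm} (h : PC K P) {g : List α → σ → τ} (hg : Comp K g) :
    PC K fun x w => P x (g x w) where
  D := Comp.comp (g := fun x w => (P x w).D) h.D hg
  b := Comp.comp (g := fun x w => (P x w).b) h.b hg
  NS := Comp.comp (g := fun x w => (P x w).NS) h.NS hg
  T := Comp.comp (g := fun x w => (P x w).T) h.T hg
  NS_pos x w := h.NS_pos x (g x w)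
  M := Bd.comp (F := fun x w => Mc (P x w).b) h.M hg

variable {P : List α → σ → Pm}

/-! ### The numbers of items -/

theorem cf_itr_Mc (n : ℕ) : itr (fun _ v => 6 * (v + 1)) 1 n = Mc n := by
  induction n with
  | zero => rfl
  | succ n ih => rw [itr, ih, Mc]

theorem cf_Mc_mono : Monotone Mc := monotone_nat_of_le_succ fun n => by
  simp only [Mc]
  omega

theorem comp_Mc (hP : PC K P) {f : List α → σ → ℕ} (hf : Comp K f)
    (hb : ∀ x w, f x w ≤ (P x w).b) : Comp K fun x w => Mc (f x w) :=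
  (Comp.itr_nat (h := fun _ _ _ v => 6 * (v + 1)) (g := fun _ _ => 1) (T := f)
    (F := fun x w => Mc (P x w).b)
    (Comp.mul (Comp.const 6) (Comp.succ Comp.id.snd.snd)) (Comp.const 1) hf hP.M
    fun x w i hi => by
      change itr (fun _ v => 6 * (v + 1)) 1 i ≤ _
      rw [cf_itr_Mc]
      exact cf_Mc_mono (hi.trans (hb x w))).of_eq fun x w => cf_itr_Mc _

theorem comp_McT (hP : PC K P) {t : List α → σ → ℕ} (ht : Comp K t) :
    Comp K fun x w => Mc ((P x w).b - 1 - t x w) :=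
  comp_Mc hP (Comp.sub (Comp.pred hP.b) ht) fun x w => by omega

/-! ### The path -/

theorem cf_resN_itr (P : Pm) (j t : ℕ) :
    itr (fun t v => v % (Mc (P.b - 1 - t) + 1)) j t = resN P j t := by
  induction t with
  | zero => rfl
  | succ t ih => rw [itr, ih, resN]

theorem comp_resN (hP : PC K P) {j t : List α → σ → ℕ} (hj : Comp K j) (ht : Comp K t) :
    Comp K fun x w => resN (P x w) (j x w) (t x w) :=
  (Comp.itr_nat (h := fun x w t v => v % (Mc ((P x w).b - 1 - t) + 1)) (g := j) (T := t)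
    (F := j)
    (Comp.mod Comp.id.snd.snd (Comp.succ (comp_McT (hP.comp Comp.id.fst) Comp.id.snd.fst)))
    hj ht hj.bd fun x w i _ => by
      rw [cf_resN_itr]
      exact resN_le _ _ _).of_eq fun x w => cf_resN_itr _ _ _

theorem cf_stopI_le (P : Pm) (j i : ℕ) (hi : i ≤ P.b) : stopI P j i ≤ P.b := by
  rcases stopI_spec P j i hi with ⟨h, _⟩ | ⟨h, _, _⟩
  · exact h.le
  · omega

theorem comp_stopN (hP : PC K P) {j : List α → σ → ℕ} (hj : Comp K j) :
    Comp K fun x w => stopN (P x w) (j x w) :=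
  Comp.itr_nat (h := fun x w t v => if v = (P x w).b then
      (if resN (P x w) (j x w) (t + 1) < Mc ((P x w).b - 1 - t) then (P x w).b else t) else v)
    (g := fun x w => (P x w).b) (T := fun x w => (P x w).b) (F := fun x w => (P x w).b)
    (Comp.ite (CompP.eq Comp.id.snd.snd (hP.comp Comp.id.fst).b)
      (Comp.ite (CompP.lt (comp_resN (hP.comp Comp.id.fst) (hj.comp Comp.id.fst)
          (Comp.succ Comp.id.snd.fst)) (comp_McT (hP.comp Comp.id.fst) Comp.id.snd.fst))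
        (hP.comp Comp.id.fst).b Comp.id.snd.fst)
      Comp.id.snd.snd)
    hP.b hP.b hP.b.bd fun x w i hi => cf_stopI_le (P x w) (j x w) i hi

/-! ### Questions and answers -/

section

variable {v c s t r b L q a1 m : List α → σ → ℕ}

theorem comp_fC (hP : PC K P) (hv : Comp K v) : Comp K fun x w => fC (P x w) (v x w) :=
  Comp.mod (Comp.div hv (Comp.mul (Comp.mul (Comp.mul (Comp.const 2) hP.T.succ) hP.T.succ)
    hP.NS)) hP.NS

theorem comp_fS (hP : PC K P) (hv : Comp K v) : Comp K fun x w => fS (P x w) (v x w) :=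
  Comp.mod (Comp.div hv (Comp.mul (Comp.mul (Comp.const 2) hP.T.succ) hP.T.succ)) hP.NS

theorem comp_fT (hP : PC K P) (hv : Comp K v) : Comp K fun x w => fT (P x w) (v x w) :=
  Comp.mod (Comp.div hv (Comp.mul (Comp.const 2) hP.T.succ)) hP.T.succ

theorem comp_fR (hP : PC K P) (hv : Comp K v) : Comp K fun x w => fR (P x w) (v x w) :=
  Comp.mod (Comp.div hv (Comp.const 2)) hP.T.succ

theorem comp_fB (hv : Comp K v) : Comp K fun x w => fB (v x w) :=
  Comp.mod hv (Comp.const 2)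

theorem comp_mkq (hP : PC K P) (hc : Comp K c) (hs : Comp K s) (ht : Comp K t) (hr : Comp K r)
    (hb : Comp K b) :
    Comp K fun x w => mkq (P x w) (c x w) (s x w) (t x w) (r x w) (b x w) :=
  Comp.add (Comp.mul (Comp.add (Comp.mul (Comp.add (Comp.mul (Comp.add (Comp.mul hc hP.NS) hs)
    hP.T.succ) (Comp.min ht hP.T)) hP.T.succ) (Comp.min hr hP.T)) (Comp.const 2)) hb

theorem comp_kk (hP : PC K P) (hL : Comp K L) : Comp K fun x w => kk (P x w) (L x w) :=
  Comp.minPow hP.T (Comp.const 2) hL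

theorem comp_r1 (hP : PC K P) (hL : Comp K L) (hq : Comp K q) :
    Comp K fun x w => r1 (P x w) (L x w) (q x w) :=
  Comp.min (comp_fR hP hq) (comp_kk hP hL)

theorem comp_r2 (hP : PC K P) (hL : Comp K L) (hq : Comp K q) :
    Comp K fun x w => r2 (P x w) (L x w) (q x w) :=
  Comp.sub (comp_fR hP hq) (comp_r1 hP hL hq)

theorem comp_ml (hP : PC K P) (hL : Comp K L) (hq : Comp K q) (ha : Comp K a1) :
    Comp K fun x w => ml (P x w) (L x w) (q x w) (a1 x w) :=
  Comp.ite (CompP.le (comp_fT hP hq) (comp_kk hP hL)) (Comp.const 0) (comp_fT hP ha)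

theorem comp_mu (hP : PC K P) (hL : Comp K L) (hq : Comp K q) (ha : Comp K a1) :
    Comp K fun x w => mu (P x w) (L x w) (q x w) (a1 x w) :=
  Comp.ite (CompP.le (comp_fT hP hq) (comp_kk hP hL)) (comp_fC hP hq) (comp_fS hP ha)

theorem comp_ma (hP : PC K P) (hL : Comp K L) (hq : Comp K q) (ha : Comp K a1) :
    Comp K fun x w => ma (P x w) (L x w) (q x w) (a1 x w) :=
  Comp.ite (CompP.le (comp_fT hP hq) (comp_kk hP hL)) (comp_fT hP hq) (comp_fR hP ha)

theorem comp_mt (hP : PC K P) (hL : Comp K L) (hq : Comp K q) (ha : Comp K a1) :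
    Comp K fun x w => mt (P x w) (L x w) (q x w) (a1 x w) :=
  Comp.ite (CompP.le (comp_fT hP hq) (comp_kk hP hL)) (Comp.const 0)
    (Comp.sub (comp_fT hP hq) (comp_fR hP ha))

theorem comp_oh (hP : PC K P) (hL : Comp K L) (hq : Comp K q) (hm : Comp K m)
    {a : List α → σ → ℕ → ℕ} (ha : Comp K fun x (p : σ × ℕ) => a x p.1 p.2) :
    Comp K fun x w => oh (P x w) (L x w) (q x w) (m x w) (a x w) := by
  have a_ : ∀ k, Comp K fun x w => a x w k := fun k =>
    ha.comp (Comp.pair Comp.id (Comp.const k))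
  have z : Comp K fun _ (_ : σ) => 0 := Comp.const 0
  have hkk := comp_kk hP hL
  have hc := comp_fC hP hq
  have c1 : CompP K fun x w => fB (a x w 2) = 1 := CompP.eq (comp_fB (a_ 2)) (Comp.const 1)
  unfold oh
  refine Comp.ite (CompP.eq hm (Comp.const 0)) (comp_mkq hP hc hc z hkk z) ?_
  refine Comp.ite (CompP.eq hm (Comp.const 1)) (comp_mkq hP hc (comp_fC hP (a_ 0)) hkk
    (Comp.sub (comp_fT hP hq) hkk) z) ?_
  refine Comp.ite (CompP.eq hm (Comp.const 2)) (comp_mkq hP (comp_mu hP hL hq (a_ 1))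
    (comp_fS hP hq) (comp_ma hP hL hq (a_ 1)) (comp_r1 hP hL hq) z) ?_
  refine Comp.ite (CompP.eq hm (Comp.const 3)) (Comp.ite c1
    (comp_mkq hP hc (comp_fS hP (a_ 2)) (comp_ml hP hL hq (a_ 1)) (comp_fR hP (a_ 2)) z)
    (comp_mkq hP (comp_fS hP (a_ 2)) (comp_fC hP (a_ 2)) (comp_fR hP (a_ 2))
      (comp_r2 hP hL hq) z)) ?_
  refine Comp.ite (CompP.eq hm (Comp.const 4)) (Comp.ite c1
    (comp_mkq hP (comp_fS hP (a_ 3)) (comp_fC hP (a_ 3)) (comp_fR hP (a_ 3))
      (comp_r2 hP hL hq) z)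
    (comp_mkq hP (comp_mu hP hL hq (a_ 1)) (comp_fS hP (a_ 3)) (comp_fT hP (a_ 2))
      (comp_fR hP (a_ 3)) z)) ?_
  exact Comp.ite c1
    (comp_mkq hP hc (comp_fS hP (a_ 4)) (comp_fT hP (a_ 3)) (comp_fR hP (a_ 4)) z)
    (comp_mkq hP hc (comp_fS hP (a_ 4)) (comp_ml hP hL hq (a_ 1)) (comp_fR hP (a_ 4)) z)

theorem comp_oe (hP : PC K P) (hL : Comp K L) (hq : Comp K q)
    {a : List α → σ → ℕ → ℕ} (ha : Comp K fun x (p : σ × ℕ) => a x p.1 p.2) :
    Comp K fun x w => oe (P x w) (L x w) (q x w) (a x w) := by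
  have a_ : ∀ k, Comp K fun x w => a x w k := fun k =>
    ha.comp (Comp.pair Comp.id (Comp.const k))
  have z : Comp K fun _ (_ : σ) => 0 := Comp.const 0
  have c_ : ∀ k, CompP K fun x w => fB (a x w k) = 1 := fun k =>
    CompP.eq (comp_fB (a_ k)) (Comp.const 1)
  have h5 : Comp K fun x w => a x w 5 % 2 ^ (P x w).D := Comp.modPow (a_ 5) (Comp.const 2) hP.D
  unfold oe
  refine Comp.ite (c_ 2) (Comp.ite (c_ 3) ?_ (Comp.ite (c_ 4) h5 ?_))
    (Comp.ite (c_ 3) (Comp.ite (c_ 4) h5 ?_) ?_)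
  · exact comp_mkq hP (comp_fS hP (a_ 3)) (comp_fS hP (a_ 3)) z
      (Comp.add (comp_fR hP (a_ 3)) (comp_r2 hP hL hq)) (Comp.const 1)
  · exact comp_mkq hP (comp_fC hP (a_ 4)) (comp_fS hP (a_ 3)) (comp_fT hP (a_ 3))
      (Comp.add (comp_fR hP (a_ 3)) (comp_r2 hP hL hq)) z
  · exact comp_mkq hP (comp_fC hP (a_ 4)) (comp_fS hP (a_ 4))
      (Comp.add (comp_mt hP hL hq (a_ 1)) (comp_fT hP (a_ 4))) (comp_fR hP (a_ 4)) z
  · exact comp_mkq hP (comp_fC hP (a_ 3)) (comp_fS hP (a_ 2))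
      (Comp.add (comp_mt hP hL hq (a_ 1)) (comp_fT hP (a_ 2)))
      (Comp.add (comp_fR hP (a_ 2)) (comp_r2 hP hL hq)) z

end

/-! ### Bounds -/

theorem cf_digit_lt {X A y B : ℕ} (h : X < A) (h' : y < B) : X * B + y < A * B :=
  calc X * B + y < X * B + B := by omega
    _ = (X + 1) * B := by ring
    _ ≤ A * B := Nat.mul_le_mul_right _ h

theorem cf_mkq_lt (P : Pm) {c s b : ℕ} (t r : ℕ) (hc : c < P.NS) (hs : s < P.NS) (hb : b < 2) :
    mkq P c s t r b < P.NS * P.NS * (P.T + 1) * (P.T + 1) * 2 :=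
  cf_digit_lt (cf_digit_lt (cf_digit_lt (cf_digit_lt hc hs) (Nat.lt_succ_of_le (min_le_right _ _)))
    (Nat.lt_succ_of_le (min_le_right _ _))) hb

theorem cf_fC_lt (P : Pm) (h : 1 ≤ P.NS) (v : ℕ) : fC P v < P.NS := Nat.mod_lt _ h

theorem cf_fS_lt (P : Pm) (h : 1 ≤ P.NS) (v : ℕ) : fS P v < P.NS := Nat.mod_lt _ h

theorem cf_mu_lt (P : Pm) (h : 1 ≤ P.NS) (L q a1 : ℕ) : mu P L q a1 < P.NS := by
  unfold mu
  split_ifs
  · exact cf_fC_lt P h _
  · exact cf_fS_lt P h _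

theorem cf_oh_lt (P : Pm) (h : 1 ≤ P.NS) (L q m : ℕ) (a : ℕ → ℕ) :
    oh P L q m a < P.NS * P.NS * (P.T + 1) * (P.T + 1) * 2 := by
  have h1 := cf_fC_lt P h
  have h2 := cf_fS_lt P h
  have h3 := cf_mu_lt P h
  unfold oh
  split_ifs <;> exact cf_mkq_lt P _ _ (by first | exact h1 _ | exact h2 _ | exact h3 _ _ _)
    (by first | exact h1 _ | exact h2 _) (by norm_num)

/-! ### Items and results -/

theorem cf_qstN_itr (P : Pm) (O : One) (L q j : ℕ) (y : ℕ → ℕ) (t : ℕ) :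
    itr (fun t v => O.h (L + (P.b - 1 - t)) v (resN P j t / (Mc (P.b - 1 - t) + 1))
      (fun m => y (j - resN P j t + m * (Mc (P.b - 1 - t) + 1) + Mc (P.b - 1 - t)))) q t =
      qstN P O L q j y t := by
  induction t with
  | zero => rfl
  | succ t ih => rw [itr, ih, qstN]

variable {L q j s t : List α → σ → ℕ} {y : List α → σ → ℕ → ℕ}

theorem comp_qstN (hP : PC K P) (hL : Comp K L) (hq : Comp K q) (hj : Comp K j)
    (hy : Comp K fun x (p : σ × ℕ) => y x p.1 p.2) (ht : Comp K t) :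
    Comp K fun x w => qstN (P x w) (oneN (P x w)) (L x w) (q x w) (j x w) (y x w) (t x w) := by
  refine (Comp.itr_nat (h := fun x w t v => oh (P x w) (L x w + ((P x w).b - 1 - t)) v
      (resN (P x w) (j x w) t / (Mc ((P x w).b - 1 - t) + 1))
      (fun m => y x w (j x w - resN (P x w) (j x w) t + m * (Mc ((P x w).b - 1 - t) + 1) +
        Mc ((P x w).b - 1 - t)))) (g := q) (T := t)
    (F := fun x w => q x w + (P x w).NS * (P x w).NS * ((P x w).T + 1) * ((P x w).T + 1) * 2)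
    ?_ hq ht ?_ fun x w i _ => ?_).of_eq fun x w => cf_qstN_itr (P x w) (oneN (P x w)) _ _ _ _ _
  · have hP1 : PC K fun x (p : σ × ℕ × ℕ) => P x p.1 := hP.comp Comp.id.fst
    have hP2 : PC K fun x (p : (σ × ℕ × ℕ) × ℕ) => P x p.1.1 := hP.comp Comp.id.fst.fst
    refine comp_oh (P := fun x (p : σ × ℕ × ℕ) => P x p.1)
      (L := fun x p => L x p.1 + ((P x p.1).b - 1 - p.2.1)) (q := fun x p => p.2.2)
      (m := fun x p => resN (P x p.1) (j x p.1) p.2.1 / (Mc ((P x p.1).b - 1 - p.2.1) + 1))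
      (a := fun x p m => y x p.1 (j x p.1 - resN (P x p.1) (j x p.1) p.2.1 +
        m * (Mc ((P x p.1).b - 1 - p.2.1) + 1) + Mc ((P x p.1).b - 1 - p.2.1))) hP1
      (Comp.add (hL.comp Comp.id.fst) (Comp.sub (Comp.pred hP1.b) Comp.id.snd.fst))
      Comp.id.snd.snd
      (Comp.div (comp_resN hP1 (hj.comp Comp.id.fst) Comp.id.snd.fst)
        (Comp.succ (comp_McT hP1 Comp.id.snd.fst))) ?_
    have hM : Comp K fun x (p : (σ × ℕ × ℕ) × ℕ) => Mc ((P x p.1.1).b - 1 - p.1.2.1) :=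
      comp_McT hP2 Comp.id.fst.snd.fst
    exact hy.comp (Comp.pair Comp.id.fst.fst (Comp.add (Comp.add (Comp.sub
      (hj.comp Comp.id.fst.fst) (comp_resN hP2 (hj.comp Comp.id.fst.fst) Comp.id.fst.snd.fst))
      (Comp.mul Comp.id.snd (Comp.succ hM))) hM))
  · exact hq.bd.add (Comp.bd (Comp.mul (Comp.mul (Comp.mul (Comp.mul hP.NS hP.NS) hP.T.succ)
      hP.T.succ) (Comp.const 2)))
  · cases i with
    | zero => exact Nat.le_add_right _ _
    | succ i =>
      rw [itr]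
      exact le_trans (Nat.le_of_lt (cf_oh_lt (P x w) (hP.NS_pos x w) _ _ _ _))
        (Nat.le_add_left _ _)

theorem comp_rfN (hP : PC K P) (hL : Comp K L) (hs : Comp K s) (hsb : ∀ x w, s x w ≤ (P x w).b)
    (hq : Comp K q) (hy : Comp K fun x (p : σ × ℕ) => y x p.1 p.2) :
    Comp K fun x w => rfN (oneN (P x w)) (L x w) (s x w) (q x w) (y x w) := by
  unfold rfN
  refine Comp.ite (CompP.eq hs (Comp.const 0)) (hy.comp (Comp.pair Comp.id (Comp.const 0))) ?_
  refine comp_oe (L := fun x w => L x w + (s x w - 1))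
    (a := fun x w m => y x w (m * (Mc (s x w - 1) + 1) + Mc (s x w - 1))) hP
    (Comp.add hL hs.pred) hq ?_
  have hM : Comp K fun x (p : σ × ℕ) => Mc (s x p.1 - 1) :=
    comp_Mc (hP.comp Comp.id.fst) (Comp.pred (hs.comp Comp.id.fst)) fun x p =>
      (Nat.sub_le _ _).trans (hsb x p.1)
  exact hy.comp (Comp.pair Comp.id.fst (Comp.add (Comp.mul Comp.id.snd (Comp.succ hM)) hM))

theorem comp_fnN (hP : PC K P) (hL : Comp K L) (hq : Comp K q) (hj : Comp K j)
    (hy : Comp K fun x (p : σ × ℕ) => y x p.1 p.2) :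
    Comp K fun x w => fnN (P x w) (oneN (P x w)) (L x w) (q x w) (j x w) (y x w) := by
  have hs := comp_stopN hP hj
  unfold fnN
  refine Comp.ite (CompP.eq hs hP.b) (comp_qstN hP hL hq hj hy hP.b) ?_
  refine comp_rfN (s := fun x w => (P x w).b - 1 - stopN (P x w) (j x w))
    (q := fun x w => qstN (P x w) (oneN (P x w)) (L x w) (q x w) (j x w) (y x w)
      (stopN (P x w) (j x w) + 1))
    (y := fun x w k => y x w (j x w - resN (P x w) (j x w) (stopN (P x w) (j x w) + 1) + k))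
    hP hL (Comp.sub (Comp.pred hP.b) hs) (fun x w => by omega)
    (comp_qstN hP hL hq hj hy hs.succ) ?_
  exact hy.comp (Comp.pair Comp.id.fst (Comp.add (Comp.sub (hj.comp Comp.id.fst)
    (comp_resN (hP.comp Comp.id.fst) (hj.comp Comp.id.fst) (Comp.succ (hs.comp Comp.id.fst))))
    Comp.id.snd))

theorem comp_yv {D e k : List α → σ → ℕ} (hD : Comp K D) (he : Comp K e) (hk : Comp K k) :
    Comp K fun x w => yv (D x w) (e x w) (k x w) :=
  Comp.modPow (Comp.divPow he (Comp.const 2) (Comp.mul hD hk)) (Comp.const 2) hD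

/-! ### The interface -/

/-- The items which are calls. -/
theorem comp_callC (hP : PC K P) :
    CompP K fun x (v : σ × ℕ) => callC (P x v.1).b v.2 = true :=
  (CompP.eq (comp_stopN (hP.comp Comp.id.fst) Comp.id.snd) (hP.comp Comp.id.fst).b).congr
    fun x v => stopN_eq (P x v.1) v.2

/-- The items. -/
theorem comp_fnC (hP : PC K P) :
    Comp K fun x (v : σ × ℕ × ℕ × ℕ × ℕ) => fnC (oneN (P x v.1)) ((P x v.1).b * v.2.1)
      (P x v.1).b v.2.2.1 v.2.2.2.1 (yv (P x v.1).D v.2.2.2.2) := by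
  have hP1 : PC K fun x (v : σ × ℕ × ℕ × ℕ × ℕ) => P x v.1 := hP.comp Comp.id.fst
  have hP2 : PC K fun x (v : (σ × ℕ × ℕ × ℕ × ℕ) × ℕ) => P x v.1.1 := hP.comp Comp.id.fst.fst
  have e1 : Comp K fun x (v : σ × ℕ × ℕ × ℕ × ℕ) => (P x v.1).b * v.2.1 :=
    Comp.mul hP1.b (Comp.fst (Comp.snd Comp.id))
  have e2 : Comp K fun _ (v : σ × ℕ × ℕ × ℕ × ℕ) => v.2.2.1 := Comp.id.snd.snd.fst
  have e3 : Comp K fun _ (v : σ × ℕ × ℕ × ℕ × ℕ) => v.2.2.2.1 := Comp.id.snd.snd.snd.fst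
  have e4 : Comp K fun x (v : (σ × ℕ × ℕ × ℕ × ℕ) × ℕ) =>
      yv (P x v.1.1).D v.1.2.2.2.2 v.2 :=
    comp_yv hP2.D Comp.id.fst.snd.snd.snd.snd Comp.id.snd
  have h := comp_fnN (y := fun x (v : σ × ℕ × ℕ × ℕ × ℕ) k => yv (P x v.1).D v.2.2.2.2 k)
    hP1 e1 e2 e3 e4
  exact h.of_eq fun x v => fnN_eq _ _ _ _ _ _

/-- The results. -/
theorem comp_rfC (hP : PC K P) :
    Comp K fun x (v : σ × ℕ × ℕ × ℕ) => rfC (oneN (P x v.1)) ((P x v.1).b * v.2.1)
      (P x v.1).b v.2.2.1 (yv (P x v.1).D v.2.2.2) := by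
  have hP1 : PC K fun x (v : σ × ℕ × ℕ × ℕ) => P x v.1 := hP.comp Comp.id.fst
  have hP2 : PC K fun x (v : (σ × ℕ × ℕ × ℕ) × ℕ) => P x v.1.1 := hP.comp Comp.id.fst.fst
  have e1 : Comp K fun x (v : σ × ℕ × ℕ × ℕ) => (P x v.1).b * v.2.1 :=
    Comp.mul hP1.b (Comp.fst (Comp.snd Comp.id))
  have e2 : Comp K fun _ (v : σ × ℕ × ℕ × ℕ) => v.2.2.1 := Comp.id.snd.snd.fst
  have e4 : Comp K fun x (v : (σ × ℕ × ℕ × ℕ) × ℕ) => yv (P x v.1.1).D v.1.2.2.2 v.2 :=
    comp_yv hP2.D Comp.id.fst.snd.snd.snd Comp.id.snd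
  have h := comp_rfN (y := fun x (v : σ × ℕ × ℕ × ℕ) k => yv (P x v.1).D v.2.2.2 k)
    hP1 e1 hP1.b (fun x v => le_rfl) e2 e4
  exact h.of_eq fun x v => rfN_eq _ _ _ _ _

/-- Computable numeric programs in a context. -/
structure NC (K : List α → ℕ) (N : List α → σ → NP) : Prop where
  kind : Comp K fun x (v : σ × ℕ) => (N x v.1).kind v.2
  pos : Comp K fun x (v : σ × ℕ) => (N x v.1).pos v.2
  sym : Comp K fun x (v : σ × ℕ) => (N x v.1).sym v.2
  nx : Comp K fun x (v : σ × ℕ × ℕ) => (N x v.1).nx v.2.1 v.2.2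

/-- The lowest level. -/
theorem comp_baseN (hP : PC K P) {N : List α → σ → NP} (hN : NC K N) {lt : List α → σ → ℕ → ℕ}
    (hlt : Comp K fun x (v : σ × ℕ) => lt x v.1 v.2) {v : List α → σ → ℕ} (hv : Comp K v) :
    Comp K fun x w => baseN (P x w) (N x w) (lt x w) (v x w) := by
  have z : Comp K fun _ (_ : σ) => 0 := Comp.const 0
  have o : Comp K fun _ (_ : σ) => 1 := Comp.const 1
  have hC := comp_fC hP hv
  have hS := comp_fS hP hv
  have hT := comp_fT hP hv
  have kS : Comp K fun x w => (N x w).kind (fS (P x w) (v x w)) :=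
    hN.kind.comp (Comp.pair Comp.id hS)
  have kC : Comp K fun x w => (N x w).kind (fC (P x w) (v x w)) :=
    hN.kind.comp (Comp.pair Comp.id hC)
  have lS : Comp K fun x w => lt x w ((N x w).pos (fS (P x w) (v x w))) :=
    hlt.comp (Comp.pair Comp.id (hN.pos.comp (Comp.pair Comp.id hS)))
  have sC : Comp K fun x w => (N x w).sym (fC (P x w) (v x w)) :=
    hN.sym.comp (Comp.pair Comp.id hC)
  have nx_ : ∀ {u : List α → σ → ℕ}, Comp K u →
      Comp K fun x w => (N x w).nx (fS (P x w) (v x w)) (u x w) % (P x w).NS := fun hu =>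
    Comp.mod (hN.nx.comp (Comp.pair Comp.id (Comp.pair hS hu))) hP.NS
  unfold baseN
  refine Comp.ite (CompP.eq (comp_fR hP hv) z) (comp_mkq hP hS hS hT z z) ?_
  refine Comp.ite (CompP.eq kS o) (comp_mkq hP (nx_ lS) hS hT o z) ?_
  refine Comp.ite (CompP.or (CompP.eq kS z) (CompP.eq kS (Comp.const 2)))
    (comp_mkq hP (nx_ z) hS hT o z) ?_
  refine Comp.ite (CompP.eq hT z) (comp_mkq hP hS hS z o o) ?_
  exact Comp.ite (CompP.eq kC (Comp.const 2)) (comp_mkq hP (nx_ sC) (nx_ sC) z z z)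
    (comp_mkq hP hS hS z o o)

end DU

end Pool.Agent.MP_6216ea_lc
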