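import Pool.Agent.Lib.MP_6216ea_lc.DUPath

/-! Numeric nodes are the codes of the abstract nodes. -/

set_option autoImplicit false

namespace Pool.Agent.MP_6216ea_lc

namespace DU

open SP

/-- The code of a node. -/
def toN {p : ℕ} : Nd p → NN
  | .idle => (0, 0, 0, 0, 0, 0)
  | .mul k t => (1, 0, 0, k, 0, t.val)
  | .acc i q j c σ => (2, i, q, j, c, σ.val)
  | .out i q σ => (3, i, q, 0, 0, σ.val)
  | .loc i q j σ => (4, i, q, j, 0, σ.val)
  | .lev i q σ => (5, i, q, 0, 0, σ.val)
  | .itm i q j σ => (6, i, q, j, 0, σ.val)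
  | .mid i q j σ => (7, i, q, j, 0, σ.val)

/-- The blocks which occur are at most `M`. -/
def wf {p : ℕ} (M : ℕ) : Nd p → Prop
  | .mul k _ => k ≤ M
  | .acc _ _ j _ _ => j ≤ M
  | .loc _ _ j _ => j ≤ M
  | .itm _ _ j _ => j ≤ M
  | .mid _ _ j _ => j ≤ M
  | _ => True

variable {P : Pm} [hp : Fact P.p.Prime]

/-- The system of the algorithm. -/
abbrev SY (P : Pm) (O : One) : Sys := sysC O P.D P.b

theorem negN_val (s : ZMod P.p) : negN P s.val = (-s).val := by
  haveI : NeZero P.p := ⟨hp.out.ne_zero⟩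
  unfold negN
  rw [ZMod.neg_val']

theorem one_val : ((1 : ZMod P.p)).val = 1 % P.p := ZMod.val_one_eq_one_mod _

theorem invN_val (t : ℕ) (ht : t < P.p - 1) :
    invN P ((t + 1) % P.p) = (((t + 1 : ℕ) : ZMod P.p)⁻¹).val := by
  have hp' := hp.out
  haveI : NeZero P.p := ⟨hp'.ne_zero⟩
  have h0 : ((t + 1 : ℕ) : ZMod P.p) ≠ 0 := by
    intro h
    rw [ZMod.natCast_eq_zero_iff] at h
    have := Nat.le_of_dvd (by omega) h
    omega
  have h1 : (((t + 1 : ℕ) : ZMod P.p)⁻¹) = ((t + 1 : ℕ) : ZMod P.p) ^ (P.p - 2) := by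
    have h2 := ZMod.pow_card_sub_one_eq_one h0
    have h3 : P.p - 1 = (P.p - 2) + 1 := by have := hp'.two_le; omega
    rw [h3, pow_succ] at h2
    exact (eq_inv_of_mul_eq_one_left h2).symm
  unfold invN
  rw [Finset.prod_const, Finset.card_range, h1]
  rw [← ZMod.val_natCast]
  congr 1
  push_cast
  rw [ZMod.natCast_mod]
  push_cast
  rfl

theorem slot_val (O : One) (i q j : ℕ) (σ : ZMod P.p) (m : ℕ) (hm : m < radN P) :
    slotN P i q j σ.val m = toN (slot (SY P O) i q j σ m) := by
  have hM : (SY P O).M = MM P := rfl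
  have hc : (SY P O).call j = callC P.b j := rfl
  have hdiv : m / (4 * MM P + 1) < P.p - 1 := by
    apply Nat.div_lt_of_lt_mul
    rw [Nat.mul_comm]
    exact hm
  unfold slotN slot
  rw [hM, hc]
  by_cases h1 : m % (4 * MM P + 1) < 2 * MM P
  · rw [if_pos h1, if_pos h1]
    by_cases h2 : m % (4 * MM P + 1) / 2 < j
    · rw [if_pos h2, if_pos h2]
      by_cases h3 : m % (4 * MM P + 1) % 2 = 0
      · rw [if_pos h3, if_pos h3, toN, ZMod.val_natCast]
      · rw [if_neg h3, if_neg h3, toN, one_val]
    · rw [if_neg h2, if_neg h2]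
      rfl
  · rw [if_neg h1, if_neg h1]
    by_cases h2 : m % (4 * MM P + 1) = 2 * MM P
    · rw [if_pos h2, if_pos h2]
      by_cases h3 : j = MM P
      · rw [if_pos h3, if_pos h3, toN, negN_val]
      · rw [if_neg h3, if_neg h3]
        by_cases h4 : stopN P j = P.b
        · rw [if_pos h4, if_pos ((stopN_eq P j).1 h4), toN]
        · rw [if_neg h4, if_neg (fun h => h4 ((stopN_eq P j).2 h)), toN, negN_val]
    · rw [if_neg h2, if_neg h2]
      by_cases h3 : MM P - 1 - (m % (4 * MM P + 1) - (2 * MM P + 1)) / 2 < j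
      · rw [if_pos h3, if_pos h3]
        by_cases h4 : (m % (4 * MM P + 1) - (2 * MM P + 1)) % 2 = 0
        · rw [if_pos h4, if_pos h4, toN, ← negN_val, one_val]
        · rw [if_neg h4, if_neg h4, toN, invN_val _ hdiv]
      · rw [if_neg h3, if_neg h3]
        rfl

theorem child1_val (O : One) (nd : Nd P.p) (m : ℕ) (hm : m < radN P) :
    child1N P (toN nd) m = toN (child1 (SY P O) nd m) := by
  have hif : ∀ nd : Nd P.p, (if m = 0 then toN nd else idleN) =
      toN (if m = 0 then nd else .idle) := by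
    intro nd
    split_ifs <;> rfl
  unfold child1N
  cases nd with
  | lev i q σ =>
    cases i with
    | zero =>
      change (if (5 = 5 ∧ 0 ≠ 0) then _ else _) = _
      rw [if_neg (by simp)]
      exact hif (.lev 0 q σ)
    | succ i =>
      change (if (5 = 5 ∧ i + 1 ≠ 0) then slotN P (i + 1 - 1) q (MM P) σ.val m else _) = _
      rw [if_pos ⟨rfl, Nat.succ_ne_zero i⟩]
      exact slot_val O i q (MM P) σ m hm
  | itm i q j σ => exact slot_val O i q j σ m hm
  | idle => exact hif .idle
  | mul k t => exact hif (.mul k t)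
  | acc i q j c σ => exact hif (.acc i q j c σ)
  | out i q σ => exact hif (.out i q σ)
  | loc i q j σ => exact hif (.loc i q j σ)
  | mid i q j σ => exact hif (.mid i q j σ)

theorem child2_val (nd : Nd P.p) (m : ℕ) : child2N P (toN nd) m = toN (child2 nd m) := by
  have hif : ∀ nd : Nd P.p, (if m = 0 then toN nd else idleN) =
      toN (if m = 0 then nd else .idle) := by
    intro nd
    split_ifs <;> rfl
  unfold child2N
  cases nd with
  | mid i q j σ =>
    change (if m % 4 = 0 then ((2, i, q, j, m / 4, σ.val) : NN)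
      else if m % 4 = 1 then (5, i, m / 4, 0, 0, 1 % P.p)
      else if m % 4 = 2 then (2, i, q, j, m / 4, negN P σ.val)
      else (5, i, m / 4, 0, 0, negN P (1 % P.p))) = toN (if m % 4 = 0 then .acc i q j (m / 4) σ
    else if m % 4 = 1 then .lev i (m / 4) 1
    else if m % 4 = 2 then .acc i q j (m / 4) (-σ)
    else .lev i (m / 4) (-1))
    rw [negN_val, ← one_val, negN_val]
    split_ifs <;> rfl
  | idle => exact hif .idle
  | mul k t => exact hif (.mul k t)
  | acc i q j c σ => exact hif (.acc i q j c σ)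
  | out i q σ => exact hif (.out i q σ)
  | loc i q j σ => exact hif (.loc i q j σ)
  | lev i q σ => exact hif (.lev i q σ)
  | itm i q j σ => exact hif (.itm i q j σ)

theorem rad_val (O : One) : rad (SY P O) P.p = radN P := rfl

theorem zz_val (O : One) : zz (SY P O) P.p = zzN P := rfl

theorem desc1_val (O : One) (nd : Nd P.p) (a u : ℕ) :
    desc1N P (toN nd) a u = toN (desc1 (SY P O) nd a u) := by
  have hr : 0 < radN P := rad_pos (SY P O) hp.out.two_le
  induction u with
  | zero => rfl
  | succ u ih =>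
    change child1N P (desc1N P (toN nd) a u)
      (a / radN P ^ (MM P - u) / (4 * 2 ^ P.D) % radN P) = _
    rw [ih, child1_val O _ _ (Nat.mod_lt _ hr), Nat.div_div_eq_div_mul]
    rfl

theorem descZ_val (O : One) (nd : Nd P.p) (a : ℕ) :
    descZN P (toN nd) a = toN (descZ (SY P O) nd a) := by
  unfold descZN descZ
  rw [desc1_val O, child2_val]
  rfl

theorem desc_val (O : One) (nd : Nd P.p) (pos h : ℕ) :
    descN P (toN nd) pos h = toN (desc (SY P O) nd P.g pos h) := by
  induction h with
  | zero => rfl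
  | succ h ih =>
    change descZN P (descN P (toN nd) pos h) (pos / zzN P ^ (P.g - 1 - h) % zzN P) = _
    rw [ih, descZ_val O]
    rfl

/-! ### Well-formed nodes -/

omit hp in
theorem wf_slot (Q : Sys) (i q j : ℕ) (hj : j ≤ Q.M) (σ : ZMod P.p) (m : ℕ) :
    wf Q.M (slot Q i q j σ m) := by
  unfold slot
  split_ifs
  · change m % (4 * Q.M + 1) / 2 ≤ Q.M
    omega
  · change m % (4 * Q.M + 1) / 2 ≤ Q.M
    omega
  · trivial
  · trivial
  · exact hj
  · exact hj
  · change Q.M - 1 - _ ≤ Q.M
    omega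
  · change Q.M - 1 - _ ≤ Q.M
    omega
  · trivial

omit hp in
theorem wf_child1 (Q : Sys) (nd : Nd P.p) (h : wf Q.M nd) (m : ℕ) :
    wf Q.M (child1 Q nd m) := by
  have hif : ∀ nd : Nd P.p, wf Q.M nd → wf Q.M (if m = 0 then nd else Nd.idle) := by
    intro nd h
    split_ifs
    · exact h
    · trivial
  cases nd with
  | lev i q σ =>
    cases i with
    | zero => exact hif _ h
    | succ i => exact wf_slot Q i q Q.M le_rfl σ m
  | itm i q j σ => exact wf_slot Q i q j h σ m
  | idle => exact hif _ h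
  | mul k t => exact hif _ h
  | acc i q j c σ => exact hif _ h
  | out i q σ => exact hif _ h
  | loc i q j σ => exact hif _ h
  | mid i q j σ => exact hif _ h

omit hp in
theorem wf_child2 (M : ℕ) (nd : Nd P.p) (h : wf M nd) (m : ℕ) : wf M (child2 nd m) := by
  have hif : ∀ nd : Nd P.p, wf M nd → wf M (if m = 0 then nd else Nd.idle) := by
    intro nd h
    split_ifs
    · exact h
    · trivial
  cases nd with
  | mid i q j σ =>
    simp only [child2]
    split_ifs
    · exact h
    · trivial
    · exact h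
    · trivial
  | idle => exact hif _ h
  | mul k t => exact hif _ h
  | acc i q j c σ => exact hif _ h
  | out i q σ => exact hif _ h
  | loc i q j σ => exact hif _ h
  | lev i q σ => exact hif _ h
  | itm i q j σ => exact hif _ h

omit hp in
theorem wf_desc (Q : Sys) (nd : Nd P.p) (h : wf Q.M nd) (g pos n : ℕ) :
    wf Q.M (desc Q nd g pos n) := by
  have h1 : ∀ (nd : Nd P.p) (a u : ℕ), wf Q.M nd → wf Q.M (desc1 Q nd a u) := by
    intro nd a u hn
    induction u with
    | zero => exact hn
    | succ u ih => exact wf_child1 Q _ ih _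
  induction n with
  | zero => exact h
  | succ n ih => exact wf_child2 Q.M _ (h1 _ _ _ ih) _

end DU

end Pool.Agent.MP_6216ea_lc
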