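import Pool.Agent.Lib.MP_6216ea_lc.DUPos
import Pool.Agent.Lib.MP_6216ea_lc.SP.Arith

/-! The numeric form of registers and nodes. -/

set_option autoImplicit false

namespace Pool.Agent.MP_6216ea_lc

namespace DU

namespace Nm

open SP

/-! ### Numbers with given digits -/

/-- The number with the digits `d`. -/
def pack (p : ℕ) (d : ℕ → ℕ) (n : ℕ) : ℕ := ∑ l ∈ Finset.range n, d l * p ^ l

theorem pack_succ (p : ℕ) (d : ℕ → ℕ) (n : ℕ) : pack p d (n + 1) = pack p d n + d n * p ^ n :=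
  Finset.sum_range_succ _ _

theorem pack_lt {p : ℕ} {d : ℕ → ℕ} (n : ℕ) (hd : ∀ l < n, d l < p) :
    pack p d n < p ^ n := by
  induction n with
  | zero => simp [pack]
  | succ n ih =>
    have h1 := ih fun l hl => hd l (by omega)
    have h2 := hd n (by omega)
    rw [pack_succ, pow_succ]
    nlinarith

theorem pack_digit {p : ℕ} {d : ℕ → ℕ} (n : ℕ) (hd : ∀ l < n, d l < p) (l : ℕ) (hl : l < n) :
    pack p d n / p ^ l % p = d l := by
  have hp : 0 < p := lt_of_le_of_lt (Nat.zero_le _) (hd l hl)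
  induction n with
  | zero => omega
  | succ n ih =>
    rw [pack_succ]
    rcases Nat.lt_succ_iff_lt_or_eq.1 hl with h | h
    · have e : d n * p ^ n = p ^ l * (p * (p ^ (n - l - 1) * d n)) := by
        have : p ^ n = p ^ l * (p * p ^ (n - l - 1)) := by
          rw [← pow_succ', ← pow_add]
          congr 1
          omega
        rw [this]
        ring
      rw [e, Nat.add_mul_div_left _ _ (Nat.pow_pos hp), Nat.add_mul_mod_self_left]
      exact ih (fun l hl => hd l (by omega)) h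
    · subst h
      have h1 := pack_lt l fun i hi => hd i (by omega)
      rw [Nat.add_mul_div_right _ _ (Nat.pow_pos hp), Nat.div_eq_of_lt h1, Nat.zero_add,
        Nat.mod_eq_of_lt (hd l (by omega))]

/-- A number is determined by its bits. -/
theorem pack_bits (D a : ℕ) (ha : a < 2 ^ D) :
    pack 2 (fun u => if a.testBit u then 1 else 0) D = a := by
  have hd : ∀ l < D, (fun u => if a.testBit u then 1 else 0 : ℕ → ℕ) l < 2 := by
    intro l _
    change (if _ then 1 else 0) < 2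
    split_ifs <;> omega
  apply Nat.eq_of_testBit_eq
  intro i
  by_cases hi : i < D
  · rw [Nat.testBit_eq_decide_div_mod_eq, pack_digit D hd i hi]
    by_cases h : a.testBit i <;> simp [h]
  · rw [Nat.testBit_lt_two_pow (lt_of_lt_of_le (pack_lt D hd)
      (Nat.pow_le_pow_right (by norm_num) (by omega))),
      Nat.testBit_lt_two_pow (lt_of_lt_of_le ha
      (Nat.pow_le_pow_right (by norm_num) (by omega)))]

/-! ### Extensions -/

/-- The numeric form of the multilinear extension. -/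
def extN (m p : ℕ) (f r : ℕ → ℕ) : ℕ :=
  (∑ e ∈ Finset.range (2 ^ m), f e * ((∏ i ∈ Finset.range m,
    (if e.testBit i then r i else p + 1 - r i)) % (p - 1 + 1))) % p

theorem extN_cast {p : ℕ} (hp : 0 < p) (m : ℕ) (f r : ℕ → ℕ) (hr : ∀ i, r i ≤ p) :
    ((extN m p f r : ℕ) : ZMod p) = ext m (fun e => (f e : ZMod p)) fun i => (r i : ZMod p) := by
  have hp1 : p - 1 + 1 = p := by omega
  unfold extN ext
  rw [hp1, ZMod.natCast_mod, Nat.cast_sum]
  refine Finset.sum_congr rfl fun e _ => ?_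
  rw [Nat.cast_mul, ZMod.natCast_mod, Nat.cast_prod]
  congr 1
  refine Finset.prod_congr rfl fun i _ => ?_
  split_ifs
  · rfl
  · rw [Nat.cast_sub (show r i ≤ p + 1 from (hr i).trans (Nat.le_succ p)), Nat.cast_add,
      ZMod.natCast_self, zero_add, Nat.cast_one]

/-- The inverse modulo `p`. -/
def invN (p t : ℕ) : ℕ :=
  if t % p = 0 then 0 else (∏ _i ∈ Finset.range (p - 2), t) % (p - 1 + 1)

theorem invN_cast {p : ℕ} [Fact p.Prime] (t : ℕ) : ((invN p t : ℕ) : ZMod p) = (t : ZMod p)⁻¹ := by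
  have hp : p.Prime := Fact.out
  have hp2 := hp.two_le
  have hp1 : p - 1 + 1 = p := by omega
  unfold invN
  split_ifs with h
  · have : (t : ZMod p) = 0 := (ZMod.natCast_eq_zero_iff t p).2 (Nat.dvd_of_mod_eq_zero h)
    rw [this, inv_zero, Nat.cast_zero]
  · have h0 : (t : ZMod p) ≠ 0 := fun h' =>
      h (Nat.mod_eq_zero_of_dvd ((ZMod.natCast_eq_zero_iff t p).1 h'))
    rw [hp1, ZMod.natCast_mod, Finset.prod_const, Finset.card_range, Nat.cast_pow]
    have h1 := ZMod.pow_card_sub_one_eq_one h0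
    have h2 : p - 1 = (p - 2) + 1 := by omega
    rw [h2, pow_succ] at h1
    exact eq_inv_of_mul_eq_one_left h1

theorem invN_lt {p : ℕ} (hp : 0 < p) (t : ℕ) : invN p t < p := by
  unfold invN
  split_ifs
  · exact hp
  · have hp1 : p - 1 + 1 = p := by omega
    rw [hp1]
    exact Nat.mod_lt _ hp

/-! ### Nodes -/

/-- The numeric form of a node: kind, level, question, block, question of a call, factor. -/
abbrev N6 : Type := ℕ × ℕ × ℕ × ℕ × ℕ × ℕ

/-- The node with a given numeric form. -/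
def nd6 (p : ℕ) (v : N6) : Nd p :=
  if v.1 = 1 then .mul v.2.2.2.1 (v.2.2.2.2.2 : ZMod p)
  else if v.1 = 2 then .acc v.2.1 v.2.2.1 v.2.2.2.1 v.2.2.2.2.1 (v.2.2.2.2.2 : ZMod p)
  else if v.1 = 3 then .out v.2.1 v.2.2.1 (v.2.2.2.2.2 : ZMod p)
  else if v.1 = 4 then .loc v.2.1 v.2.2.1 v.2.2.2.1 (v.2.2.2.2.2 : ZMod p)
  else if v.1 = 5 then .lev v.2.1 v.2.2.1 (v.2.2.2.2.2 : ZMod p)
  else if v.1 = 6 then .itm v.2.1 v.2.2.1 v.2.2.2.1 (v.2.2.2.2.2 : ZMod p)
  else if v.1 = 7 then .mid v.2.1 v.2.2.1 v.2.2.2.1 (v.2.2.2.2.2 : ZMod p)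
  else .idle

/-- The numeric form of `slot`; `b` tells whether the item `j` is a call. -/
def slotN (M p : ℕ) (b : Prop) [Decidable b] (i q j s m : ℕ) : N6 :=
  if m % (4 * M + 1) < 2 * M then
    if m % (4 * M + 1) / 2 < j then
      if m % (4 * M + 1) % 2 = 0 then
        (1, 0, 0, m % (4 * M + 1) / 2, 0, (m / (4 * M + 1) + 1) % p)
      else (6, i, q, m % (4 * M + 1) / 2, 0, 1)
    else (0, 0, 0, 0, 0, 0)
  else if m % (4 * M + 1) = 2 * M then
    if j = M then (3, i, q, 0, 0, p - s)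
    else if b then (7, i, q, j, 0, s)
    else (4, i, q, j, 0, p - s)
  else if M - 1 - (m % (4 * M + 1) - (2 * M + 1)) / 2 < j then
    if (m % (4 * M + 1) - (2 * M + 1)) % 2 = 0 then
      (6, i, q, M - 1 - (m % (4 * M + 1) - (2 * M + 1)) / 2, 0, p - 1)
    else (1, 0, 0, M - 1 - (m % (4 * M + 1) - (2 * M + 1)) / 2, 0,
      invN p (m / (4 * M + 1) + 1))
  else (0, 0, 0, 0, 0, 0)

/-- Numeric nodes with bounded entries. -/
def Bdd (M p g Q : ℕ) (v : N6) : Prop :=
  v.1 ≤ 7 ∧ v.2.1 ≤ g ∧ v.2.2.1 ≤ Q ∧ v.2.2.2.1 ≤ M ∧ v.2.2.2.2.1 ≤ Q ∧ v.2.2.2.2.2 ≤ p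

theorem slotN_bdd {M p g Q : ℕ} (hp : 0 < p) (b : Prop) [Decidable b] {i q j s : ℕ} (m : ℕ)
    (hi : i ≤ g) (hq : q ≤ Q) (hj : j ≤ M) (hs : s ≤ p) :
    Bdd M p g Q (slotN M p b i q j s m) := by
  have h1 := Nat.mod_lt (m / (4 * M + 1) + 1) hp
  have h2 := invN_lt hp (m / (4 * M + 1) + 1)
  unfold slotN Bdd
  split_ifs <;> refine ⟨?_, ?_, ?_, ?_, ?_, ?_⟩ <;> simp only <;> omega

theorem cast_sub_self {p s : ℕ} (hs : s ≤ p) : ((p - s : ℕ) : ZMod p) = -(s : ZMod p) := by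
  rw [Nat.cast_sub hs, ZMod.natCast_self, zero_sub]

theorem nd6_slot {p : ℕ} [Fact p.Prime] (P : Sys) (i q j s m : ℕ) (hs : s ≤ p) :
    nd6 p (slotN P.M p (P.call j = true) i q j s m) = slot P i q j (s : ZMod p) m := by
  have hp : p.Prime := Fact.out
  have hp1 := hp.one_lt
  have e1 : ((p - 1 : ℕ) : ZMod p) = -1 := by rw [cast_sub_self hp1.le, Nat.cast_one]
  unfold slotN slot
  split_ifs <;> simp [nd6, e1, cast_sub_self hs, invN_cast]

/-- The numeric form of `child1`. -/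
def child1N (M p : ℕ) (b : Prop) [Decidable b] (b' : Prop) [Decidable b'] (v : N6) (m : ℕ) : N6 :=
  if v.1 = 5 ∧ v.2.1 ≠ 0 then slotN M p b' (v.2.1 - 1) v.2.2.1 M v.2.2.2.2.2 m
  else if v.1 = 6 then slotN M p b v.2.1 v.2.2.1 v.2.2.2.1 v.2.2.2.2.2 m
  else if m = 0 then v else (0, 0, 0, 0, 0, 0)

/-- The numeric form of `child2`. -/
def child2N (p : ℕ) (v : N6) (m : ℕ) : N6 :=
  if v.1 = 7 then
    if m % 4 = 0 then (2, v.2.1, v.2.2.1, v.2.2.2.1, m / 4, v.2.2.2.2.2)
    else if m % 4 = 1 then (5, v.2.1, m / 4, 0, 0, 1)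
    else if m % 4 = 2 then (2, v.2.1, v.2.2.1, v.2.2.2.1, m / 4, p - v.2.2.2.2.2)
    else (5, v.2.1, m / 4, 0, 0, p - 1)
  else if m = 0 then v else (0, 0, 0, 0, 0, 0)

theorem child1N_bdd {M p g Q : ℕ} (hp : 0 < p) (b : Prop) [Decidable b] (b' : Prop)
    [Decidable b'] (v : N6) (m : ℕ) (hv : Bdd M p g Q v) :
    Bdd M p g Q (child1N M p b b' v m) := by
  obtain ⟨h1, h2, h3, h4, h5, h6⟩ := hv
  unfold child1N
  split_ifs
  · exact slotN_bdd hp b' m (by omega) h3 le_rfl h6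
  · exact slotN_bdd hp b m h2 h3 h4 h6
  · exact ⟨h1, h2, h3, h4, h5, h6⟩
  · exact ⟨Nat.zero_le _, Nat.zero_le _, Nat.zero_le _, Nat.zero_le _, Nat.zero_le _,
      Nat.zero_le _⟩

theorem child2N_bdd {M p g Q : ℕ} (hp : 0 < p) (v : N6) (m : ℕ) (hm : m / 4 ≤ Q)
    (hv : Bdd M p g Q v) : Bdd M p g Q (child2N p v m) := by
  obtain ⟨h1, h2, h3, h4, h5, h6⟩ := hv
  unfold child2N Bdd
  split_ifs <;> refine ⟨?_, ?_, ?_, ?_, ?_, ?_⟩ <;> (try simp only) <;> omega

theorem nd6_child1 {p : ℕ} [Fact p.Prime] (P : Sys) (v : N6) (m : ℕ) (hs : v.2.2.2.2.2 ≤ p) :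
    nd6 p (child1N P.M p (P.call v.2.2.2.1 = true) (P.call P.M = true) v m) =
      child1 P (nd6 p v) m := by
  obtain ⟨kd, i, q, j, c, s⟩ := v
  change s ≤ p at hs
  unfold child1N
  simp only
  by_cases h5 : kd = 5
  · subst h5
    rcases Nat.eq_zero_or_pos i with h0 | h0
    · subst h0
      by_cases hm : m = 0
      · simp [hm, nd6, child1]
      · simp [hm, nd6, child1]
    · obtain ⟨i, rfl⟩ : ∃ i', i = i' + 1 := ⟨i - 1, by omega⟩
      rw [if_pos ⟨rfl, by omega⟩, Nat.add_sub_cancel, nd6_slot P i q P.M s m hs]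
      simp [nd6, child1]
  · rw [if_neg (fun h => h5 h.1)]
    by_cases h6 : kd = 6
    · subst h6
      rw [if_pos rfl, nd6_slot P i q j s m hs]
      simp [nd6, child1]
    · rw [if_neg h6]
      have key : child1 P (nd6 p (kd, i, q, j, c, s)) m =
          if m = 0 then nd6 p (kd, i, q, j, c, s) else .idle := by
        unfold nd6
        simp only [h5, h6, if_false]
        split_ifs <;> simp_all [child1]
      rw [key]
      split_ifs
      · rfl
      · simp [nd6]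

theorem nd6_child2 {p : ℕ} [Fact p.Prime] (v : N6) (m : ℕ) (hs : v.2.2.2.2.2 ≤ p) :
    nd6 p (child2N p v m) = child2 (nd6 p v) m := by
  have hp : p.Prime := Fact.out
  have hp1 := hp.one_lt
  have e1 : ((p - 1 : ℕ) : ZMod p) = -1 := by rw [cast_sub_self hp1.le, Nat.cast_one]
  obtain ⟨kd, i, q, j, c, s⟩ := v
  change s ≤ p at hs
  unfold child2N
  simp only
  by_cases h7 : kd = 7
  · subst h7
    rw [if_pos rfl]
    have e2 : nd6 p (7, i, q, j, c, s) = .mid i q j (s : ZMod p) := by simp [nd6]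
    rw [e2]
    unfold child2
    by_cases m0 : m % 4 = 0
    · simp [nd6, m0]
    · by_cases m1 : m % 4 = 1
      · simp [nd6, m1]
      · by_cases m2 : m % 4 = 2
        · simp [nd6, m2, cast_sub_self hs]
        · simp [nd6, m0, m1, m2, e1]
  · rw [if_neg h7]
    have key : child2 (nd6 p (kd, i, q, j, c, s)) m =
        if m = 0 then nd6 p (kd, i, q, j, c, s) else .idle := by
      unfold nd6
      simp only [h7, if_false]
      split_ifs <;> simp_all [child2]
    rw [key]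
    split_ifs
    · rfl
    · simp [nd6]

end Nm

end DU

end Pool.Agent.MP_6216ea_lc
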