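import Pool.Agent.Lib.MP_6216ea_lc.DUDef

/-! The items of the composite protocol by a loop down the path. -/

set_option autoImplicit false

namespace Pool.Agent.MP_6216ea_lc

namespace DU

open SP

variable (P : Pm)

theorem Mc_pos (b : ℕ) : 1 ≤ Mc b := by
  cases b with
  | zero => exact le_rfl
  | succ b => simp only [Mc]; omega

theorem resN_le (j t : ℕ) : resN P j t ≤ j := by
  induction t with
  | zero => exact le_rfl
  | succ t ih => exact (Nat.mod_le _ _).trans ih

theorem rfN_eq (O : One) (L s q : ℕ) (y : ℕ → ℕ) : rfN O L s q y = rfC O L s q y := by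
  cases s with
  | zero => rfl
  | succ s => rfl

/-- As long as no local item is met. -/
theorem fnC_walk (O : One) (L q j : ℕ) (y : ℕ → ℕ) (t : ℕ) (ht : t ≤ P.b)
    (h : ∀ t' < t, resN P j (t' + 1) < Mc (P.b - 1 - t')) :
    fnC O L P.b q j y = fnC O L (P.b - t) (qstN P O L q j y t) (resN P j t)
      (fun k => y (j - resN P j t + k)) := by
  induction t with
  | zero =>
    have : (fun k => y (j - resN P j 0 + k)) = y := by
      funext k
      simp [resN]
    rw [this]
    rfl
  | succ t ih =>
    rw [ih (by omega) fun t' ht' => h t' (by omega)]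
    have hb : P.b - t = (P.b - 1 - t) + 1 := by omega
    have hb' : P.b - (t + 1) = P.b - 1 - t := by omega
    have h1 := h t (by omega)
    rw [hb, fnC, hb']
    have h2 : resN P j t % (Mc (P.b - 1 - t) + 1) = resN P j (t + 1) := rfl
    rw [h2, if_pos h1]
    have h3 : ∀ k, j - resN P j t + (resN P j t / (Mc (P.b - 1 - t) + 1) *
        (Mc (P.b - 1 - t) + 1) + k) = j - resN P j (t + 1) + k := by
      intro k
      have h4 := resN_le P j t
      have h5 := Nat.div_add_mod (resN P j t) (Mc (P.b - 1 - t) + 1)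
      rw [h2, Nat.mul_comm] at h5
      omega
    simp only [h3, qstN]
    congr 1
    congr 1
    funext m
    congr 1
    omega

/-- A local item. -/
theorem fnC_stop (O : One) (L q j : ℕ) (y : ℕ → ℕ) (t : ℕ) (ht : t < P.b)
    (h : ∀ t' < t, resN P j (t' + 1) < Mc (P.b - 1 - t'))
    (h0 : ¬ resN P j (t + 1) < Mc (P.b - 1 - t)) :
    fnC O L P.b q j y = rfC O L (P.b - 1 - t) (qstN P O L q j y (t + 1))
      (fun k => y (j - resN P j (t + 1) + k)) := by
  rw [fnC_walk P O L q j y t ht.le h]
  have hb : P.b - t = (P.b - 1 - t) + 1 := by omega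
  rw [hb, fnC]
  have h2 : resN P j t % (Mc (P.b - 1 - t) + 1) = resN P j (t + 1) := rfl
  rw [h2, if_neg h0]
  have h3 : ∀ k, j - resN P j t + (resN P j t / (Mc (P.b - 1 - t) + 1) *
      (Mc (P.b - 1 - t) + 1) + k) = j - resN P j (t + 1) + k := by
    intro k
    have h4 := resN_le P j t
    have h5 := Nat.div_add_mod (resN P j t) (Mc (P.b - 1 - t) + 1)
    rw [h2, Nat.mul_comm] at h5
    omega
  simp only [h3, qstN]
  congr 1
  congr 1
  funext m
  congr 1
  omega

/-- The partial results of `stopN`. -/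
def stopI (j i : ℕ) : ℕ :=
  itr (fun t v => if v = P.b then (if resN P j (t + 1) < Mc (P.b - 1 - t) then P.b else t) else v)
    P.b i

theorem stopI_spec (j i : ℕ) (hi : i ≤ P.b) :
    (stopI P j i = P.b ∧ ∀ t' < i, resN P j (t' + 1) < Mc (P.b - 1 - t')) ∨
    (stopI P j i < i ∧ (∀ t' < stopI P j i, resN P j (t' + 1) < Mc (P.b - 1 - t')) ∧
      ¬ resN P j (stopI P j i + 1) < Mc (P.b - 1 - stopI P j i)) := by
  induction i with
  | zero => exact Or.inl ⟨rfl, fun t' h => absurd h (Nat.not_lt_zero _)⟩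
  | succ i ih =>
    have e : stopI P j (i + 1) = if stopI P j i = P.b then
        (if resN P j (i + 1) < Mc (P.b - 1 - i) then P.b else i) else stopI P j i := rfl
    rcases ih (by omega) with ⟨h1, h2⟩ | ⟨h1, h2, h3⟩
    · rw [e, if_pos h1]
      by_cases h4 : resN P j (i + 1) < Mc (P.b - 1 - i)
      · rw [if_pos h4]
        left
        refine ⟨rfl, fun t' ht' => ?_⟩
        rcases Nat.lt_succ_iff_lt_or_eq.1 ht' with h5 | h5
        · exact h2 t' h5
        · subst h5; exact h4
      · rw [if_neg h4]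
        right
        exact ⟨Nat.lt_succ_self i, h2, h4⟩
    · rw [e, if_neg (by omega)]
      right
      exact ⟨by omega, h2, h3⟩

theorem fnN_eq (O : One) (L q j : ℕ) (y : ℕ → ℕ) : fnN P O L q j y = fnC O L P.b q j y := by
  have hs : stopN P j = stopI P j P.b := rfl
  unfold fnN
  rw [hs]
  rcases stopI_spec P j P.b le_rfl with ⟨h1, h2⟩ | ⟨h1, h2, h3⟩
  · rw [if_pos h1, fnC_walk P O L q j y P.b le_rfl h2, Nat.sub_self]
    rfl
  · rw [if_neg (by omega), rfN_eq, fnC_stop P O L q j y _ h1 h2 h3]

theorem callC_walk (j t : ℕ) (ht : t ≤ P.b)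
    (h : ∀ t' < t, resN P j (t' + 1) < Mc (P.b - 1 - t')) :
    callC P.b j = callC (P.b - t) (resN P j t) := by
  induction t with
  | zero => rfl
  | succ t ih =>
    rw [ih (by omega) fun t' ht' => h t' (by omega)]
    have hb : P.b - t = (P.b - 1 - t) + 1 := by omega
    have hb' : P.b - (t + 1) = P.b - 1 - t := by omega
    have h2 : resN P j t % (Mc (P.b - 1 - t) + 1) = resN P j (t + 1) := rfl
    rw [hb, callC, hb', h2]
    simp [h t (by omega)]

theorem stopN_eq (j : ℕ) : stopN P j = P.b ↔ callC P.b j = true := by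
  have hs : stopN P j = stopI P j P.b := rfl
  rw [hs]
  rcases stopI_spec P j P.b le_rfl with ⟨h1, h2⟩ | ⟨h1, h2, h3⟩
  · rw [callC_walk P j P.b le_rfl h2, Nat.sub_self]
    simp [h1, callC]
  · constructor
    · intro h
      omega
    · intro h
      rw [callC_walk P j _ h1.le h2] at h
      have hb : P.b - stopI P j P.b = (P.b - 1 - stopI P j P.b) + 1 := by omega
      rw [hb, callC] at h
      have h4 : resN P j (stopI P j P.b) % (Mc (P.b - 1 - stopI P j P.b) + 1) =
        resN P j (stopI P j P.b + 1) := rfl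
      rw [h4] at h
      simp [h3] at h

end DU

end Pool.Agent.MP_6216ea_lc
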