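import Pool.Agent.Lib.MP_6216ea_lc.DUSem

/-! The algorithm as one loop over the positions. -/

set_option autoImplicit false

namespace Pool.Agent.MP_6216ea_lc

namespace DU

variable {p : ℕ}

theorem digit_shift (r W m a k U : ℕ) (hW : 0 < W) (hk : k < U) :
    (m * (r ^ U * W) + a) / (r ^ (U - 1 - k) * W) % r = a / (r ^ (U - 1 - k) * W) % r := by
  rcases Nat.eq_zero_or_pos r with h0 | h0
  · subst h0
    have : (0 : ℕ) ^ U = 0 := zero_pow (by omega)
    rw [this, Nat.zero_mul, Nat.mul_zero, Nat.zero_add]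
  have h1 : m * (r ^ U * W) + a = a + (r ^ (U - 1 - k) * W) * (r * (r ^ k * m)) := by
    have : r ^ U = r ^ (U - 1 - k) * (r * r ^ k) := by
      rw [← pow_succ', ← pow_add]
      congr 1
      omega
    rw [this]
    ring
  rw [h1, Nat.add_mul_div_left _ _ (Nat.mul_pos (Nat.pow_pos h0) hW), Nat.add_mul_mod_self_left]

theorem digit_top (r W m a U : ℕ) (hm : m < r) (ha : a < r ^ U * W) :
    (m * (r ^ U * W) + a) / (r ^ U * W) % r = m := by
  have h0 : 0 < r ^ U * W := by omega
  rw [Nat.add_comm, Nat.add_mul_div_right _ _ h0, Nat.div_eq_of_lt ha, Nat.zero_add,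
    Nat.mod_eq_of_lt hm]

/-- The nodes reached by digits of the first kind. -/
def ds (P : Sys) (nd : Nd p) (U a : ℕ) : ℕ → Nd p
  | 0 => nd
  | u + 1 => child1 P (ds P nd U a u) (a / (rad P p ^ (U - 1 - u) * (4 * 2 ^ P.D)) % rad P p)

theorem ds_shift (P : Sys) (nd : Nd p) (U m a u : ℕ) (hm : m < rad P p)
    (ha : a < rad P p ^ U * (4 * 2 ^ P.D)) (hu : u ≤ U) :
    ds P nd (U + 1) (m * (rad P p ^ U * (4 * 2 ^ P.D)) + a) (u + 1) =
      ds P (child1 P nd m) U a u := by
  have hZ : 0 < 4 * 2 ^ P.D := Nat.mul_pos (by norm_num) (Nat.two_pow_pos _)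
  induction u with
  | zero =>
    simp only [ds]
    rw [show U + 1 - 1 - 0 = U by omega, digit_top _ _ _ _ _ hm ha]
  | succ u ih =>
    rw [ds, ih (by omega)]
    conv_rhs => rw [ds]
    congr 1
    rw [show U + 1 - 1 - (u + 1) = U - 1 - u by omega]
    exact digit_shift _ _ _ _ _ _ hZ (by omega)

theorem ds_eq (P : Sys) (nd : Nd p) (a u : ℕ) : desc1 P nd a u = ds P nd (P.M + 1) a u := by
  induction u with
  | zero => rfl
  | succ u ih =>
    rw [desc1, ds, ih]
    rfl

theorem FF_pos (P : Sys) (E : Nd p → Rg p → Rg p) (U : ℕ) (nd : Nd p) (R : Rg p) :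
    FF P E U nd R = runN (rad P p ^ U * (4 * 2 ^ P.D))
      (fun a => E (child2 (ds P nd U a U) (a % (4 * 2 ^ P.D)))) R := by
  have hZ : 0 < 4 * 2 ^ P.D := Nat.mul_pos (by norm_num) (Nat.two_pow_pos _)
  induction U generalizing nd R with
  | zero =>
    rw [pow_zero, Nat.one_mul]
    refine runN_congr _ _ _ _ fun m hm s => ?_
    rw [Nat.mod_eq_of_lt hm]
    rfl
  | succ U ih =>
    rw [pow_succ', Nat.mul_assoc, runN_mul]
    refine runN_congr _ _ _ _ fun m hm s => ?_
    rw [ih]
    refine runN_congr _ _ _ _ fun a ha s => ?_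
    rw [ds_shift P nd U m a U hm ha le_rfl]
    congr 2
    have : m * (rad P p ^ U * (4 * 2 ^ P.D)) = (4 * 2 ^ P.D) * (m * rad P p ^ U) := by ring
    rw [this, Nat.mul_add_mod]

theorem zz_eq (P : Sys) : rad P p ^ (P.M + 1) * (4 * 2 ^ P.D) = zz P p := rfl

theorem desc_shift (P : Sys) (nd : Nd p) (g m a h : ℕ) (hm : m < zz P p)
    (ha : a < zz P p ^ g) (hh : h ≤ g) :
    desc P nd (g + 1) (m * zz P p ^ g + a) (h + 1) = desc P (descZ P nd m) g a h := by
  induction h with
  | zero =>
    simp only [desc]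
    have h1 := digit_top (zz P p) 1 m a g hm (by rw [Nat.mul_one]; exact ha)
    rw [Nat.mul_one] at h1
    rw [show g + 1 - 1 - 0 = g by omega, h1]
  | succ h ih =>
    rw [desc, ih (by omega)]
    conv_rhs => rw [desc]
    congr 1
    have h1 := digit_shift (zz P p) 1 m a h g (by norm_num) (by omega)
    simp only [Nat.mul_one] at h1
    rw [show g + 1 - 1 - (h + 1) = g - 1 - h by omega]
    exact h1

/-- The effect of `g` levels as one loop over the positions. -/
theorem EE_pos (P : Sys) (base : ℕ → ℕ) (g : ℕ) (nd : Nd p) (R : Rg p) :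
    EE P base g nd R = runN (zz P p ^ g) (fun pos => prim P base (desc P nd g pos g)) R := by
  induction g generalizing nd R with
  | zero => rfl
  | succ g ih =>
    change FF P (EE P base g) (P.M + 1) nd R = _
    rw [FF_pos, zz_eq, pow_succ', runN_mul]
    refine runN_congr _ _ _ _ fun m hm s => ?_
    rw [ih]
    refine runN_congr _ _ _ _ fun a ha s => ?_
    rw [desc_shift P nd g m a g hm ha le_rfl]
    unfold descZ
    rw [ds_eq]

/-- The uniform algorithm computes the level `g`. -/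
theorem algo [Fact p.Prime] (P : Sys) (hP : P.Ok) (base : ℕ → ℕ) (hb : ∀ q, base q < 2 ^ P.D)
    (hpc : P.M * P.D < p - 1) (g q : ℕ) :
    runN (zz P p ^ g) (fun pos => prim P base (desc P (.lev g q 1) g pos g)) (fun _ _ => 0) =
      addB P.M (cv p P.D (lvA P base g q)) (fun _ _ => 0) := by
  rw [← EE_pos, EE_lev P hP base hb hpc g g le_rfl, one_smul]

end DU

end Pool.Agent.MP_6216ea_lc
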