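import Pool.Agent.Lib.MP_6216ea_lc.DUNode

/-! The content of the registers as one number. -/

set_option autoImplicit false

namespace Pool.Agent.MP_6216ea_lc

namespace DU

open SP

/-! ### Replacing a digit -/

theorem digit_of_mod (p X Y j : ℕ) (h : X % p ^ (j + 1) = Y % p ^ (j + 1)) :
    X / p ^ j % p = Y / p ^ j % p := by
  have h1 : ∀ Z : ℕ, Z / p ^ j % p = Z % p ^ (j + 1) / p ^ j := by
    intro Z
    rw [pow_succ, Nat.mod_mul_right_div_self]
  rw [h1, h1, h]

theorem setDigit_mod (p R i v : ℕ) : setDigit p R i v % p ^ i = R % p ^ i := by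
  unfold setDigit
  have h1 : R / p ^ (i + 1) * p ^ (i + 1) = p ^ i * (R / p ^ (i + 1) * p) := by ring
  have h2 : v * p ^ i = p ^ i * v := by ring
  rw [h1, h2, Nat.add_mul_mod_self_left, Nat.add_mul_mod_self_left, Nat.mod_mod]

theorem setDigit_div (p R i v : ℕ) (hv : v < p) :
    setDigit p R i v / p ^ (i + 1) = R / p ^ (i + 1) := by
  have hp : 0 < p := by omega
  have hpi : 0 < p ^ i := Nat.pow_pos hp
  have hpi1 : 0 < p ^ (i + 1) := Nat.pow_pos hp
  have h1 : R % p ^ i + v * p ^ i < p ^ (i + 1) := by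
    have := Nat.mod_lt R hpi
    calc R % p ^ i + v * p ^ i < p ^ i + v * p ^ i := by omega
      _ = (v + 1) * p ^ i := by ring
      _ ≤ p * p ^ i := Nat.mul_le_mul_right _ hv
      _ = p ^ (i + 1) := by ring
  unfold setDigit
  rw [Nat.add_mul_div_right _ _ hpi1, Nat.div_eq_of_lt h1, Nat.zero_add]

theorem setDigit_self (p R i v : ℕ) (hv : v < p) : setDigit p R i v / p ^ i % p = v := by
  have hp : 0 < p := by omega
  have hpi : 0 < p ^ i := Nat.pow_pos hp
  unfold setDigit
  have h1 : R % p ^ i + v * p ^ i + R / p ^ (i + 1) * p ^ (i + 1) =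
      R % p ^ i + (v + R / p ^ (i + 1) * p) * p ^ i := by ring
  rw [h1, Nat.add_mul_div_right _ _ hpi, Nat.div_eq_of_lt (Nat.mod_lt R hpi), Nat.zero_add,
    Nat.add_mul_mod_self_right, Nat.mod_eq_of_lt hv]

theorem setDigit_ne (p R i v j : ℕ) (hv : v < p) (hj : j ≠ i) :
    setDigit p R i v / p ^ j % p = R / p ^ j % p := by
  rcases Nat.lt_or_ge j i with h | h
  · apply digit_of_mod
    have h1 := setDigit_mod p R i v
    have h2 : p ^ (j + 1) ∣ p ^ i := pow_dvd_pow p h
    rw [← Nat.mod_mod_of_dvd _ h2, h1, Nat.mod_mod_of_dvd _ h2]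
  · have h1 : j = (i + 1) + (j - i - 1) := by omega
    rw [h1, pow_add, ← Nat.div_div_eq_div_mul, ← Nat.div_div_eq_div_mul, setDigit_div p R i v hv]

theorem setDigit_lt (p R i v n : ℕ) (hv : v < p) (hi : i < n) (hR : R < p ^ n) :
    setDigit p R i v < p ^ n := by
  have hp : 0 < p := by omega
  have h1 : n = (i + 1) + (n - i - 1) := by omega
  have h2 : p ^ n = p ^ (n - i - 1) * p ^ (i + 1) := by
    rw [← pow_add]
    congr 1
    omega
  rw [h2] at hR ⊢
  rw [← Nat.div_lt_iff_lt_mul (Nat.pow_pos hp)] at hR ⊢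
  rw [setDigit_div p R i v hv]
  exact hR

/-! ### Loops over the digits of a block -/

variable {P : Pm}

/-- The number of digits. -/
def nd (P : Pm) : ℕ := (MM P + 1) * P.D

theorem idx_lt {k u : ℕ} (hk : k ≤ MM P) (hu : u < P.D) : k * P.D + u < nd P := by
  unfold nd
  have : (k + 1) * P.D ≤ (MM P + 1) * P.D := Nat.mul_le_mul_right _ (by omega)
  rw [Nat.succ_mul] at this
  omega

theorem idx_inj {k k' u u' : ℕ} (hu : u < P.D) (hu' : u' < P.D)
    (h : k * P.D + u = k' * P.D + u') : k = k' ∧ u = u' := by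
  have hD : 0 < P.D := by omega
  have h1 : (k * P.D + u) / P.D = k := by
    rw [Nat.add_comm, Nat.add_mul_div_right _ _ hD, Nat.div_eq_of_lt hu, Nat.zero_add]
  have h2 : (k' * P.D + u') / P.D = k' := by
    rw [Nat.add_comm, Nat.add_mul_div_right _ _ hD, Nat.div_eq_of_lt hu', Nat.zero_add]
  have h3 : k = k' := by rw [← h1, ← h2, h]
  subst h3
  exact ⟨rfl, by omega⟩

theorem loop_dg (hC : P.C = P.p ^ nd P) (k : ℕ) (hk : k ≤ MM P) (f : ℕ → ℕ → ℕ)
    (hf : ∀ u d, f u d < P.p) (R : ℕ) (hR : R < P.p ^ nd P) (n : ℕ) (hn : n ≤ P.D) :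
    itr (fun u R => st P R (k * P.D + u) (f u (dg P R (k * P.D + u)))) R n < P.p ^ nd P ∧
    ∀ k' ≤ MM P, ∀ u < P.D,
      dg P (itr (fun u R => st P R (k * P.D + u) (f u (dg P R (k * P.D + u)))) R n)
        (k' * P.D + u) = if k' = k ∧ u < n then f u (dg P R (k * P.D + u))
          else dg P R (k' * P.D + u) := by
  induction n with
  | zero =>
    refine ⟨hR, fun k' hk' u hu => ?_⟩
    rw [if_neg (by omega)]
    rfl
  | succ n ih =>
    obtain ⟨h1, h2⟩ := ih (by omega)
    rw [itr]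
    generalize itr (fun u R => st P R (k * P.D + u) (f u (dg P R (k * P.D + u)))) R n = R' at h1 h2
    have hi : k * P.D + n < nd P := idx_lt hk (by omega)
    have h3 := h2 k hk n (by omega)
    rw [if_neg (by omega)] at h3
    have h4 : setDigit P.p R' (k * P.D + n) (f n (dg P R' (k * P.D + n))) < P.p ^ nd P :=
      setDigit_lt _ _ _ _ _ (hf _ _) hi h1
    have h5 : st P R' (k * P.D + n) (f n (dg P R' (k * P.D + n))) =
        setDigit P.p R' (k * P.D + n) (f n (dg P R' (k * P.D + n))) := by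
      unfold st
      rw [hC, min_eq_right h4.le]
    refine ⟨by rw [h5]; exact h4, fun k' hk' u hu => ?_⟩
    rw [h5]
    by_cases h6 : k' * P.D + u = k * P.D + n
    · obtain ⟨rfl, rfl⟩ := idx_inj hu (by omega) h6
      rw [if_pos ⟨rfl, Nat.lt_succ_self _⟩]
      unfold dg at h3 ⊢
      rw [setDigit_self _ _ _ _ (hf _ _), h3]
    · unfold dg at h2 ⊢
      rw [setDigit_ne _ _ _ _ _ (hf _ _) h6, h2 k' hk' u hu]
      by_cases h7 : k' = k ∧ u < n
      · rw [if_pos h7, if_pos ⟨h7.1, by omega⟩]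
      · rw [if_neg h7, if_neg]
        rintro ⟨rfl, h8⟩
        have : u = n := by
          by_contra h9
          exact h7 ⟨rfl, by omega⟩
        subst this
        exact h6 rfl

/-! ### The relation -/

variable [hp : Fact P.p.Prime]

/-- `R` codes the registers `s`. -/
def Rel (P : Pm) (R : ℕ) (s : Rg P.p) : Prop :=
  R < P.p ^ nd P ∧ ∀ k ≤ MM P, ∀ u < P.D, ((dg P R (k * P.D + u) : ℕ) : ZMod P.p) = s k u

theorem rel_zero : Rel P 0 (fun _ _ => 0) := by
  refine ⟨Nat.pow_pos hp.out.pos, fun k _ u _ => ?_⟩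
  unfold dg
  simp

theorem rel_mul (hC : P.C = P.p ^ nd P) {R : ℕ} {s : Rg P.p} (h : Rel P R s) (k : ℕ)
    (hk : k ≤ MM P) (t : ZMod P.p) : Rel P (mulN P k t.val R) (mulB k t s) := by
  haveI : NeZero P.p := ⟨hp.out.ne_zero⟩
  obtain ⟨h1, h2⟩ := loop_dg hC k hk (fun _ d => d * t.val % P.p)
    (fun _ _ => Nat.mod_lt _ hp.out.pos) R h.1 P.D le_rfl
  refine ⟨h1, fun k' hk' u hu => ?_⟩
  have h3 := h2 k' hk' u hu
  unfold mulN
  rw [h3]
  unfold mulB
  by_cases hkk : k' = k
  · subst hkk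
    rw [if_pos ⟨rfl, hu⟩, Function.update_self, ZMod.natCast_mod, Nat.cast_mul,
      h.2 k' hk' u hu, ZMod.natCast_zmod_val]
    simp only [Pi.smul_apply, smul_eq_mul]
    ring
  · rw [if_neg (fun h => hkk h.1), Function.update_of_ne hkk, h.2 k' hk' u hu]

theorem rel_add (hC : P.C = P.p ^ nd P) {R : ℕ} {s : Rg P.p} (h : Rel P R s) (k : ℕ)
    (hk : k ≤ MM P) (c : ℕ) (v : ℕ → ℕ) (w : ℕ → ZMod P.p)
    (hv : ∀ u < P.D, ((c * v u : ℕ) : ZMod P.p) = w u) :
    Rel P (addN P k c v R) (addB k w s) := by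
  obtain ⟨h1, h2⟩ := loop_dg hC k hk (fun u d => (d + c * v u) % P.p)
    (fun _ _ => Nat.mod_lt _ hp.out.pos) R h.1 P.D le_rfl
  refine ⟨h1, fun k' hk' u hu => ?_⟩
  have h3 := h2 k' hk' u hu
  unfold addN
  rw [h3]
  unfold addB
  by_cases hkk : k' = k
  · subst hkk
    rw [if_pos ⟨rfl, hu⟩, Function.update_self, ZMod.natCast_mod, Nat.cast_add,
      h.2 k' hk' u hu, hv u hu]
    rfl
  · rw [if_neg (fun h => hkk h.1), Function.update_of_ne hkk, h.2 k' hk' u hu]

theorem ext_val (m : ℕ) (f r : ℕ → ℕ) (hr : ∀ i < m, r i ≤ P.p) :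
    ((extN P m f r : ℕ) : ZMod P.p) = ext m (fun e => (f e : ZMod P.p))
      (fun i => (r i : ZMod P.p)) := by
  unfold extN ext prodN
  rw [ZMod.natCast_mod, Nat.cast_sum]
  refine Finset.sum_congr rfl fun e _ => ?_
  rw [Nat.cast_mul, ZMod.natCast_mod, Nat.cast_prod]
  congr 1
  refine Finset.prod_congr rfl fun i hi => ?_
  split_ifs
  · rfl
  · rw [Nat.cast_sub (by have := hr i (Finset.mem_range.1 hi); omega)]
    push_cast
    rw [ZMod.natCast_self, add_zero]

theorem tr_val {R : ℕ} {s : Rg P.p} (h : Rel P R s) (j i : ℕ) (hj : j ≤ MM P) :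
    ((trN P j R i : ℕ) : ZMod P.p) = tr P.D j s i := by
  unfold trN tr
  split_ifs with hi
  · have hD : 0 < P.D := by
      rcases Nat.eq_zero_or_pos P.D with h0 | h0
      · rw [h0] at hi; simp at hi
      · exact h0
    have h1 : i / P.D < j := Nat.div_lt_of_lt_mul (by rw [Nat.mul_comm]; exact hi)
    rw [← h.2 (i / P.D) (by omega) (i % P.D) (Nat.mod_lt _ hD)]
    have h2 := Nat.div_add_mod i P.D
    rw [Nat.mul_comm] at h2
    rw [h2]
  · simp

theorem trN_le (j R i : ℕ) : trN P j R i ≤ P.p := by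
  unfold trN dg
  split_ifs
  · exact (Nat.mod_lt _ hp.out.pos).le
  · exact Nat.zero_le _

theorem bt_val (a u : ℕ) (hu : u < P.D) : ((bt a u : ℕ) : ZMod P.p) = cv P.p P.D a u := by
  unfold bt cv
  by_cases h : a.testBit u = true
  · rw [if_pos h, if_pos ⟨hu, h⟩]; simp
  · rw [if_neg h, if_neg (fun h' => h h'.2)]; simp

section

variable (O : One) (base : ℕ → ℕ)

theorem ind_val {R : ℕ} {s : Rg P.p} (h : Rel P R s) (i q j c : ℕ) (hj : j ≤ MM P) :
    ((indN P O i q j c R : ℕ) : ZMod P.p) = ind (SY P O) i q j c s := by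
  unfold indN ind
  rw [ext_val _ _ _ fun i _ => trN_le j R i]
  have h1 : (fun i => ((trN P j R i : ℕ) : ZMod P.p)) = tr P.D j s :=
    funext fun i => tr_val h j i hj
  rw [h1]
  congr 1
  funext e
  have h2 : (SY P O).fn i q j (yv (SY P O).D e) = fnN P O (P.b * i) q j (yv P.D e) :=
    (fnN_eq P O (P.b * i) q j _).symm
  rw [h2]
  split_ifs <;> simp

theorem loc_val {R : ℕ} {s : Rg P.p} (h : Rel P R s) (i q j u : ℕ) (hj : j ≤ MM P)
    (hu : u < P.D) : ((locN P O i q j R u : ℕ) : ZMod P.p) = locE (SY P O) i q j s u := by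
  unfold locN locE
  rw [ext_val _ _ _ fun i _ => trN_le j R i]
  have h1 : (fun i => ((trN P j R i : ℕ) : ZMod P.p)) = tr P.D j s :=
    funext fun i => tr_val h j i hj
  rw [h1]
  congr 1
  funext e
  rw [bt_val _ _ hu]
  have h2 : (SY P O).fn i q j (yv (SY P O).D e) = fnN P O (P.b * i) q j (yv P.D e) :=
    (fnN_eq P O (P.b * i) q j _).symm
  rw [h2]
  rfl

theorem out_val {R : ℕ} {s : Rg P.p} (h : Rel P R s) (i q u : ℕ) (hu : u < P.D) :
    ((outN P O i q R u : ℕ) : ZMod P.p) = outE (SY P O) i q s u := by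
  unfold outN outE
  rw [ext_val _ _ _ fun i _ => trN_le _ R i]
  have h1 : (fun i => ((trN P (MM P) R i : ℕ) : ZMod P.p)) = tr P.D (MM P) s :=
    funext fun i => tr_val h _ i le_rfl
  rw [h1]
  congr 1
  funext e
  rw [bt_val _ _ hu]
  have h2 : (SY P O).rf i q (yv (SY P O).D e) = rfN O (P.b * i) P.b q (yv P.D e) :=
    (rfN_eq O (P.b * i) P.b q _).symm
  rw [h2]
  rfl

theorem prim_val (hC : P.C = P.p ^ nd P) {R : ℕ} {s : Rg P.p} (h : Rel P R s) (n : Nd P.p)
    (hn : wf (MM P) n) : Rel P (primN P O base (toN n) R) (prim (SY P O) base n s) := by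
  haveI : NeZero P.p := ⟨hp.out.ne_zero⟩
  cases n with
  | idle => exact h
  | mul k t => exact rel_mul hC h k hn t
  | acc i q j c σ =>
    change Rel P (addN P j (σ.val * indN P O i q j c R % P.p)
      (fun u => dg P R (MM P * P.D + u)) R) (addB j ((σ * ind (SY P O) i q j c s) • s (MM P)) s)
    refine rel_add hC h j hn _ _ _ fun u hu => ?_
    rw [Nat.cast_mul, ZMod.natCast_mod, Nat.cast_mul, ZMod.natCast_zmod_val,
      ind_val O h i q j c hn, h.2 (MM P) le_rfl u hu]
    rfl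
  | out i q σ =>
    change Rel P (addN P (MM P) σ.val (fun u => outN P O i q R u) R)
      (addB (MM P) (σ • outE (SY P O) i q s) s)
    refine rel_add hC h _ le_rfl _ _ _ fun u hu => ?_
    rw [Nat.cast_mul, ZMod.natCast_zmod_val, out_val O h i q u hu]
    rfl
  | loc i q j σ =>
    change Rel P (addN P j σ.val (fun u => locN P O i q j R u) R)
      (addB j (σ • locE (SY P O) i q j s) s)
    refine rel_add hC h _ hn _ _ _ fun u hu => ?_
    rw [Nat.cast_mul, ZMod.natCast_zmod_val, loc_val O h i q j u hn hu]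
    rfl
  | lev i q σ =>
    change Rel P (addN P (MM P) σ.val (fun u => bt (base q) u) R)
      (addB (MM P) (σ • cv P.p P.D (base q)) s)
    refine rel_add hC h _ le_rfl _ _ _ fun u hu => ?_
    rw [Nat.cast_mul, ZMod.natCast_zmod_val, bt_val _ _ hu]
    rfl
  | itm i q j σ => exact h
  | mid i q j σ => exact h

/-- The register content after all steps. -/
theorem fin_rel (hC : P.C = P.p ^ nd P) (q : ℕ) :
    Rel P (finN P O base q) (runN (zz (SY P O) P.p ^ P.g)
      (fun pos => prim (SY P O) base (desc (SY P O) (.lev P.g q 1) P.g pos P.g))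
      (fun _ _ => 0)) := by
  have h0 : ((5, P.g, q, 0, 0, 1 % P.p) : NN) = toN (.lev P.g q (1 : ZMod P.p)) := by
    rw [toN, one_val]
  unfold finN
  rw [zz_val]
  generalize zzN P ^ P.g = n
  induction n with
  | zero => exact rel_zero
  | succ n ih =>
    rw [itr, runN_succ, h0, desc_val O]
    rw [h0] at ih
    exact prim_val O base hC ih _ (wf_desc (SY P O) (.lev P.g q 1) trivial _ _ _)

end

/-! ### Reading off the result -/

omit hp in
theorem sum_bits (D a : ℕ) (ha : a < 2 ^ D) :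
    ∑ u ∈ Finset.range D, bt a u * 2 ^ u = a := by
  have key : ∀ n, ∑ u ∈ Finset.range n, bt a u * 2 ^ u = a % 2 ^ n := by
    intro n
    induction n with
    | zero => simp [Nat.mod_one]
    | succ n ih =>
      rw [Finset.sum_range_succ, ih, Nat.mod_pow_succ]
      congr 1
      rw [Nat.mul_comm]
      congr 1
      unfold bt
      rw [Nat.testBit_eq_decide_div_mod_eq]
      have := Nat.mod_two_eq_zero_or_one (a / 2 ^ n)
      rcases this with h | h <;> simp [h]
  rw [key, Nat.mod_eq_of_lt ha]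

theorem val_rel (hC : P.C = P.p ^ nd P) {R a : ℕ} {s : Rg P.p} (h : Rel P R s)
    (hs : s (MM P) = cv P.p P.D a) (ha : a < 2 ^ P.D) : valN P R = a := by
  have hp2 := hp.out.two_le
  unfold valN
  rw [← sum_bits P.D a ha]
  refine Finset.sum_congr rfl fun u hu => ?_
  have hu' := Finset.mem_range.1 hu
  have h1 : min P.C (2 ^ u) = 2 ^ u := by
    apply min_eq_right
    rw [hC]
    calc 2 ^ u ≤ P.p ^ u := Nat.pow_le_pow_left hp2 _
      _ ≤ P.p ^ nd P := Nat.pow_le_pow_right (by omega) (by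
        unfold nd
        rw [Nat.succ_mul]
        omega)
  rw [h1]
  congr 1
  have h2 := h.2 (MM P) le_rfl u hu'
  rw [hs, ← bt_val a u hu'] at h2
  have h3 : dg P R (MM P * P.D + u) < P.p := Nat.mod_lt _ hp.out.pos
  have hb : bt a u < 2 := by
    unfold bt
    split_ifs <;> norm_num
  have h4 : dg P R (MM P * P.D + u) = bt a u := by
    rw [ZMod.natCast_eq_natCast_iff'] at h2
    rw [Nat.mod_eq_of_lt h3, Nat.mod_eq_of_lt (by omega)] at h2
    exact h2
  rw [h4, Nat.mod_eq_of_lt hb]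

/-- The numeric algorithm computes the level `b * g` of the recursion. -/
theorem val_fin (hC : P.C = P.p ^ nd P) (O : One) (base : ℕ → ℕ) (hb : 1 ≤ P.b)
    (hh : ∀ L q m a, O.h L q m a < 2 ^ P.D) (he : ∀ L q a, O.e L q a < 2 ^ P.D)
    (hbase : ∀ q, base q < 2 ^ P.D) (hdeg : MM P * P.D < P.p - 1) (q : ℕ) :
    valN P (finN P O base q) = fineA O base (P.b * P.g) q := by
  have hok : (SY P O).Ok := sysC_ok O P.D P.b hb (fun L q m a _ => hh L q m a)
    (fun L q a _ => he L q a)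
  have h1 := algo (SY P O) hok base hbase hdeg P.g q
  have h2 := fin_rel O base hC q
  rw [h1] at h2
  refine val_rel hC h2 ?_ ?_
  · change Function.update _ (MM P) _ (MM P) = _
    rw [Function.update_self, lvA_sysC]
    funext u
    exact zero_add _
  · rw [← lvA_sysC O P.D P.b base P.g q]
    exact lvA_lt _ hok base hbase P.g q

end DU

end Pool.Agent.MP_6216ea_lc
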