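import Pool.Agent.Lib.MP_6216ea_lc.DUSpec

/-! Repetitions, packed numbers, and the elementary facts on registers. -/

set_option autoImplicit false

namespace Pool.Agent.MP_6216ea_lc

namespace DU

section

variable {S : Type}

theorem runN_zero (f : ℕ → S → S) (s : S) : runN 0 f s = s := rfl

theorem runN_succ (n : ℕ) (f : ℕ → S → S) (s : S) : runN (n + 1) f s = f n (runN n f s) := rfl

theorem runN_congr (n : ℕ) (f g : ℕ → S → S) (s : S) (h : ∀ m < n, ∀ s, f m s = g m s) :
    runN n f s = runN n g s := by
  induction n with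
  | zero => rfl
  | succ n ih => rw [runN_succ, runN_succ, ih fun m hm => h m (by omega), h n (by omega)]

theorem runN_add (a b : ℕ) (f : ℕ → S → S) (s : S) :
    runN (a + b) f s = runN b (fun r => f (a + r)) (runN a f s) := by
  induction b with
  | zero => rfl
  | succ b ih => rw [← Nat.add_assoc, runN_succ, runN_succ, ih]

theorem runN_mul (a b : ℕ) (f : ℕ → S → S) (s : S) :
    runN (a * b) f s = runN a (fun t s => runN b (fun r => f (t * b + r)) s) s := by
  induction a with
  | zero => rw [Nat.zero_mul]; rfl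
  | succ a ih => rw [Nat.succ_mul, runN_add, runN_succ, ih]

theorem runN_first (n : ℕ) (hn : 1 ≤ n) (f : ℕ → S → S) (h : S → S) (s : S)
    (h0 : ∀ s, f 0 s = h s) (h1 : ∀ m, 0 < m → ∀ s, f m s = s) : runN n f s = h s := by
  obtain ⟨n, rfl⟩ : ∃ k, n = k + 1 := ⟨n - 1, by omega⟩
  clear hn
  induction n with
  | zero => exact h0 s
  | succ n ih => rw [runN_succ, h1 _ (Nat.succ_pos n), ih]

end

variable {p : ℕ}

theorem addB_addB (k : ℕ) (v w : ℕ → ZMod p) (R : Rg p) :
    addB k v (addB k w R) = addB k (w + v) R := by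
  unfold addB
  rw [Function.update_self, Function.update_idem, add_assoc]

theorem addB_zero (k : ℕ) (R : Rg p) : addB k 0 R = R := by
  unfold addB
  rw [add_zero, Function.update_eq_self]

theorem runN_addB (n k : ℕ) (f : ℕ → Rg p → Rg p) (g : ℕ → Rg p → ℕ → ZMod p)
    (hf : ∀ m < n, ∀ R, f m R = addB k (g m R) R)
    (hg : ∀ m < n, ∀ v R, g m (addB k v R) = g m R) (R : Rg p) :
    runN n f R = addB k (∑ m ∈ Finset.range n, g m R) R := by
  induction n with
  | zero => rw [runN_zero, Finset.sum_range_zero, addB_zero]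
  | succ n ih =>
    rw [runN_succ, ih (fun m hm => hf m (by omega)) (fun m hm => hg m (by omega)),
      hf n (by omega), hg n (by omega), addB_addB, Finset.sum_range_succ]

/-! ### Packed numbers -/

/-- `∑ y k * 2 ^ (D k)`. -/
def pk (D : ℕ) (y : ℕ → ℕ) : ℕ → ℕ
  | 0 => 0
  | n + 1 => 2 ^ (n * D) * y n + pk D y n

theorem pk_lt (D : ℕ) (y : ℕ → ℕ) (h : ∀ k, y k < 2 ^ D) (n : ℕ) : pk D y n < 2 ^ (n * D) := by
  induction n with
  | zero => simp [pk]
  | succ n ih =>
    have h1 := h n
    rw [pk, Nat.succ_mul, pow_add]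
    calc 2 ^ (n * D) * y n + pk D y n < 2 ^ (n * D) * y n + 2 ^ (n * D) := by omega
      _ = 2 ^ (n * D) * (y n + 1) := by ring
      _ ≤ 2 ^ (n * D) * 2 ^ D := Nat.mul_le_mul_left _ (by omega)

theorem pk_bit (D : ℕ) (y : ℕ → ℕ) (h : ∀ k, y k < 2 ^ D) (n i : ℕ) :
    (pk D y n).testBit i = (decide (i < n * D) && (y (i / D)).testBit (i % D)) := by
  induction n with
  | zero => simp [pk]
  | succ n ih =>
    rw [pk, Nat.testBit_two_pow_mul_add _ (pk_lt D y h n)]
    by_cases hi : i < n * D
    · rw [if_pos hi, ih]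
      have : i < (n + 1) * D := by rw [Nat.succ_mul]; omega
      simp [hi, this]
    · rw [if_neg hi]
      by_cases hi2 : i < (n + 1) * D
      · have h1 : i / D = n := by
          rw [Nat.succ_mul] at hi2
          apply Nat.div_eq_of_lt_le
          · omega
          · rw [Nat.succ_mul]; omega
        have h2 : i % D = i - n * D := by
          have := Nat.div_add_mod i D
          rw [h1, Nat.mul_comm] at this
          omega
        simp [hi2, h1, h2]
      · rw [Nat.testBit_lt_two_pow (lt_of_lt_of_le (h n)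
          (Nat.pow_le_pow_right (by norm_num) (by rw [Nat.succ_mul] at hi2; omega)))]
        simp [hi2]

theorem yv_pk (D : ℕ) (y : ℕ → ℕ) (h : ∀ k, y k < 2 ^ D) (n k : ℕ) :
    yv D (pk D y n) k = if k < n then y k else 0 := by
  apply Nat.eq_of_testBit_eq
  intro u
  unfold yv
  rw [Nat.testBit_mod_two_pow, Nat.testBit_div_two_pow, pk_bit D y h]
  by_cases hu : u < D
  · have hD : 0 < D := by omega
    have h1 : (u + D * k) / D = k := by
      rw [Nat.add_mul_div_left _ _ hD, Nat.div_eq_of_lt hu, Nat.zero_add]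
    have h2 : (u + D * k) % D = u := by
      rw [Nat.add_mul_mod_self_left, Nat.mod_eq_of_lt hu]
    by_cases hk : k < n
    · have h3 : u + D * k < n * D := by
        have : (k + 1) * D ≤ n * D := Nat.mul_le_mul_right _ hk
        rw [Nat.mul_comm D k]
        rw [Nat.succ_mul] at this
        omega
      simp [hu, h1, h2, h3, hk]
    · have h3 : ¬ u + D * k < n * D := by
        have : n * D ≤ k * D := Nat.mul_le_mul_right _ (by omega)
        rw [Nat.mul_comm D k]
        omega
      simp [h3, hk]
  · split_ifs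
    · rw [Nat.testBit_lt_two_pow (lt_of_lt_of_le (h k)
        (Nat.pow_le_pow_right (by norm_num) (by omega)))]
      simp [hu]
    · simp [hu]

theorem tr_cv (D n : ℕ) (y : ℕ → ℕ) (h : ∀ k, y k < 2 ^ D) :
    tr D n (fun k => cv p D (y k)) = bts p (pk D y n) := by
  funext i
  unfold tr bts cv
  rw [pk_bit D y h]
  by_cases hi : i < n * D
  · have hD : 0 < D := by
      rcases Nat.eq_zero_or_pos D with h0 | h0
      · subst h0; simp at hi
      · exact h0
    have := Nat.mod_lt i hD
    simp [hi, this]
  · simp [hi]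

theorem tr_addB (D j k : ℕ) (h : j ≤ k) (v : ℕ → ZMod p) (R : Rg p) :
    tr D j (addB k v R) = tr D j R := by
  funext i
  unfold tr addB
  split_ifs with hi
  · have : i / D < j := Nat.div_lt_of_lt_mul (by rw [Nat.mul_comm]; exact hi)
    rw [Function.update_of_ne (by omega)]
  · rfl

/-! ### Transforming the first registers -/

/-- Transform the first `n` blocks from `R k` to `t R k + V k`. -/
def upM (t : ZMod p) (V : ℕ → ℕ → ZMod p) (n : ℕ) (R : Rg p) : Rg p :=
  fun k => if k < n then t • R k + V k else R k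

/-- The inverse of `upM`. -/
def dnM (t : ZMod p) (V : ℕ → ℕ → ZMod p) (n : ℕ) (R : Rg p) : Rg p :=
  fun k => if k < n then t⁻¹ • (R k - V k) else R k

theorem tr_upM (D : ℕ) (t : ZMod p) (V : ℕ → ℕ → ZMod p) (n : ℕ) (R : Rg p) :
    tr D n (upM t V n R) = fun i => t * tr D n R i + tr D n V i := by
  funext i
  unfold tr upM
  split_ifs with hi h2
  · simp
  · exact absurd (Nat.div_lt_of_lt_mul (by rw [Nat.mul_comm]; exact hi)) h2
  · simp

theorem dn_addB_up [Fact p.Prime] {t : ZMod p} (ht : t ≠ 0) (V : ℕ → ℕ → ZMod p) (j k : ℕ)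
    (hjk : j ≤ k) (v : ℕ → ZMod p) (R : Rg p) :
    dnM t V j (addB k v (upM t V j R)) = addB k v R := by
  funext i
  unfold dnM addB upM
  by_cases h : i = k
  · subst h
    simp only [Function.update_self]
    rw [if_neg (by omega), if_neg (by omega)]
  · simp only [Function.update_of_ne h]
    split_ifs with h1
    · rw [add_sub_cancel_right, smul_smul, inv_mul_cancel₀ ht, one_smul]
    · rfl

/-- The upward half of a round. -/
theorem run_up (t : ZMod p) (V : ℕ → ℕ → ZMod p) (M j : ℕ) (hj : j ≤ M)
    (f : ℕ → Rg p → Rg p)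
    (h0 : ∀ k < M, ∀ R, f (2 * k) R = if k < j then mulB k t R else R)
    (h1 : ∀ k < M, ∀ R, f (2 * k + 1) R = if k < j then addB k (V k) R else R) (R : Rg p) :
    runN (2 * M) f R = upM t V j R := by
  have key : ∀ n ≤ M, runN (2 * n) f R = upM t V (min n j) R := by
    intro n
    induction n with
    | zero =>
      intro _
      funext k
      simp [runN, upM]
    | succ n ih =>
      intro hn
      rw [show 2 * (n + 1) = 2 * n + 1 + 1 by ring, runN_succ, runN_succ, ih (by omega),
        h1 n (by omega), h0 n (by omega)]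
      by_cases hnj : n < j
      · rw [if_pos hnj, if_pos hnj, Nat.min_eq_left hnj.le, Nat.min_eq_left hnj]
        funext k
        unfold addB mulB upM
        by_cases hk : k = n
        · subst hk
          simp
        · rw [Function.update_of_ne hk, Function.update_of_ne hk]
          by_cases hk2 : k < n
          · rw [if_pos hk2, if_pos (by omega)]
          · rw [if_neg hk2, if_neg (by omega)]
      · rw [if_neg hnj, if_neg hnj, Nat.min_eq_right (by omega), Nat.min_eq_right (by omega)]
  rw [key M le_rfl, Nat.min_eq_right hj]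

/-- The downward half of a round. -/
theorem run_dn (t : ZMod p) (V : ℕ → ℕ → ZMod p) (M j : ℕ) (hj : j ≤ M)
    (f : ℕ → Rg p → Rg p)
    (h0 : ∀ k < M, ∀ R, f (2 * k) R = if M - 1 - k < j then addB (M - 1 - k) (-V (M - 1 - k)) R
      else R)
    (h1 : ∀ k < M, ∀ R, f (2 * k + 1) R = if M - 1 - k < j then mulB (M - 1 - k) t⁻¹ R else R)
    (R : Rg p) : runN (2 * M) f R = dnM t V j R := by
  have key : ∀ n ≤ M, runN (2 * n) f R =
      fun k => if M - n ≤ k ∧ k < j then t⁻¹ • (R k - V k) else R k := by
    intro n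
    induction n with
    | zero =>
      intro _
      funext k
      have : ¬ (M - 0 ≤ k ∧ k < j) := by omega
      rw [if_neg this]
      rfl
    | succ n ih =>
      intro hn
      rw [show 2 * (n + 1) = 2 * n + 1 + 1 by ring, runN_succ, runN_succ, ih (by omega),
        h1 n (by omega), h0 n (by omega)]
      by_cases hnj : M - 1 - n < j
      · rw [if_pos hnj, if_pos hnj]
        funext k
        unfold addB mulB
        by_cases hk : k = M - 1 - n
        · subst hk
          have h2 : ¬ (M - n ≤ M - 1 - n ∧ M - 1 - n < j) := by omega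
          have h3 : M - (n + 1) ≤ M - 1 - n ∧ M - 1 - n < j := by omega
          simp only [Function.update_self]
          rw [if_neg h2, if_pos h3, sub_eq_add_neg]
        · rw [Function.update_of_ne hk, Function.update_of_ne hk]
          have h2 : (M - n ≤ k ∧ k < j) ↔ (M - (n + 1) ≤ k ∧ k < j) := by omega
          simp only [h2]
      · rw [if_neg hnj, if_neg hnj]
        funext k
        have h2 : (M - n ≤ k ∧ k < j) ↔ (M - (n + 1) ≤ k ∧ k < j) := by omega
        simp only [h2]
  rw [key M le_rfl]
  funext k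
  unfold dnM
  have h2 : (M - M ≤ k ∧ k < j) ↔ k < j := by omega
  simp only [h2]

end DU

end Pool.Agent.MP_6216ea_lc
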