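import Pool.Agent.Lib.MP_6216ea_lc.DURun

/-! The effect of the nodes. -/

set_option autoImplicit false

namespace Pool.Agent.MP_6216ea_lc

namespace DU

variable {p : ℕ}

/-! ### The values of the items -/

theorem ys_lt (P : Sys) (hP : P.Ok) (A : ℕ → ℕ) (hA : ∀ q, A q < 2 ^ P.D) (i q n k : ℕ) :
    ys P A i q n k < 2 ^ P.D := by
  induction n generalizing k with
  | zero => exact Nat.two_pow_pos _
  | succ n ih =>
    rw [ys]
    by_cases h : k = n
    · subst h
      rw [Function.update_self]
      split_ifs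
      · exact hA _
      · exact hP.fn_lt _ _ _ _ ih
    · rw [Function.update_of_ne h]
      exact ih k

theorem ys_ge (P : Sys) (A : ℕ → ℕ) (i q n k : ℕ) (h : n ≤ k) : ys P A i q n k = 0 := by
  induction n with
  | zero => rfl
  | succ n ih => rw [ys, Function.update_of_ne (by omega), ih (by omega)]

theorem ys_stable (P : Sys) (A : ℕ → ℕ) (i q n m k : ℕ) (h : k < n) (hm : n ≤ m) :
    ys P A i q m k = ys P A i q n k := by
  induction m with
  | zero => omega
  | succ m ih =>
    rcases Nat.lt_or_ge m n with h1 | h1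
    · have : n = m + 1 := by omega
      rw [this]
    · rw [ys, Function.update_of_ne (by omega), ih h1]

theorem ys_item (P : Sys) (A : ℕ → ℕ) (i q m j : ℕ) (h : j < m) :
    ys P A i q m j = if P.call j then A (P.fn i q j (ys P A i q j))
      else P.fn i q j (ys P A i q j) := by
  rw [ys_stable P A i q (j + 1) m j (by omega) h, ys, Function.update_self]

theorem yv_ys (P : Sys) (hP : P.Ok) (A : ℕ → ℕ) (hA : ∀ q, A q < 2 ^ P.D) (i q m j : ℕ)
    (h : j ≤ m) : yv P.D (pk P.D (ys P A i q m) j) = ys P A i q j := by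
  funext k
  rw [yv_pk _ _ (ys_lt P hP A hA i q m)]
  split_ifs with hk
  · exact ys_stable P A i q j m k hk h
  · exact (ys_ge P A i q j k (by omega)).symm

theorem lvA_lt (P : Sys) (hP : P.Ok) (base : ℕ → ℕ) (hb : ∀ q, base q < 2 ^ P.D) (i q : ℕ) :
    lvA P base i q < 2 ^ P.D := by
  induction i generalizing q with
  | zero => exact hb q
  | succ i ih => exact hP.rf_lt _ _ _ (ys_lt P hP _ ih i q _)

/-! ### Elementary nodes -/

/-- The nodes which are elementary steps. -/
def isPrim : Nd p → Prop
  | .idle => True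
  | .mul _ _ => True
  | .acc _ _ _ _ _ => True
  | .out _ _ _ => True
  | .loc _ _ _ _ => True
  | .lev i _ _ => i = 0
  | .itm _ _ _ _ => False
  | .mid _ _ _ _ => False

theorem child1_prim (P : Sys) (nd : Nd p) (h : isPrim nd) (m : ℕ) :
    child1 P nd m = if m = 0 then nd else .idle := by
  cases nd with
  | lev i q σ =>
    cases i with
    | zero => rfl
    | succ i => exact absurd h (Nat.succ_ne_zero i)
  | itm i q j σ => exact h.elim
  | mid i q j σ => exact h.elim
  | _ => rfl

theorem child2_prim (nd : Nd p) (h : isPrim nd) (m : ℕ) :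
    child2 nd m = if m = 0 then nd else .idle := by
  cases nd with
  | itm i q j σ => exact h.elim
  | mid i q j σ => exact h.elim
  | _ => rfl

theorem rad_pos (P : Sys) (hp : 2 ≤ p) : 1 ≤ rad P p :=
  Nat.mul_pos (by omega) (by omega)

theorem FF_prim (P : Sys) (hp : 2 ≤ p) (E : Nd p → Rg p → Rg p) (hi : ∀ R, E .idle R = R)
    (nd : Nd p) (h : isPrim nd) (u : ℕ) (R : Rg p) : FF P E u nd R = E nd R := by
  induction u generalizing nd R with
  | zero =>
    refine runN_first _ (Nat.mul_pos (by norm_num) (Nat.two_pow_pos _)) _ (E nd) R ?_ ?_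
    · intro s
      rw [child2_prim nd h, if_pos rfl]
    · intro m hm s
      rw [child2_prim nd h, if_neg (by omega), hi]
  | succ u ih =>
    refine runN_first _ (rad_pos P hp) _ (E nd) R ?_ ?_
    · intro s
      rw [child1_prim P nd h, if_pos rfl, ih nd h]
    · intro m hm s
      rw [child1_prim P nd h, if_neg (by omega), ih .idle trivial, hi]

theorem EE_prim (P : Sys) (hp : 2 ≤ p) (base : ℕ → ℕ) (g : ℕ) (nd : Nd p) (h : isPrim nd)
    (R : Rg p) : EE P base g nd R = prim P base nd R := by
  induction g generalizing nd R with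
  | zero => rfl
  | succ g ih =>
    change FF P (EE P base g) (P.M + 1) nd R = _
    rw [FF_prim P hp (EE P base g) (fun R => ih .idle trivial R) nd h, ih nd h]

theorem FF_mid (P : Sys) (hp : 2 ≤ p) (E : Nd p → Rg p → Rg p) (hi : ∀ R, E .idle R = R)
    (i q j : ℕ) (σ : ZMod p) (u : ℕ) (R : Rg p) :
    FF P E u (.mid i q j σ) R = FF P E 0 (.mid i q j σ) R := by
  induction u generalizing R with
  | zero => rfl
  | succ u ih =>
    refine runN_first _ (rad_pos P hp) _ _ R ?_ ?_
    · intro s
      exact ih s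
    · intro m hm s
      have h : child1 P (.mid i q j σ : Nd p) m = .idle := by
        change (if m = 0 then _ else _) = _
        rw [if_neg (by omega)]
      rw [h, FF_prim P hp E hi .idle trivial, hi]

/-! ### One level -/

section level

variable [Fact p.Prime] (P : Sys) (base : ℕ → ℕ) (E : Nd p → Rg p → Rg p) (A : ℕ → ℕ)
  (i q : ℕ)

/-- The value of block `k`. -/
def VV (p : ℕ) (P : Sys) (A : ℕ → ℕ) (i q k : ℕ) : ℕ → ZMod p :=
  cv p P.D (ys P A i q P.M k)

variable (hP : P.Ok) (hA : ∀ q, A q < 2 ^ P.D) (hpc : P.M * P.D < p - 1)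
  (hE : ∀ nd, isPrim nd → ∀ R, E nd R = prim P base nd R)
  (hL : ∀ c σ R, E (.lev i c σ) R = addB P.M (σ • cv p P.D (A c)) R)

include hP hA hpc in
/-- Interpolation of an extension at the true values. -/
theorem interp (j : ℕ) (hj : j ≤ P.M) (f : ℕ → ZMod p) (R : Rg p) :
    ∑ t ∈ Finset.range (p - 1), ext (P.M * P.D) f
      (tr P.D j (upM ((t + 1 : ℕ) : ZMod p) (VV p P A i q) j R)) =
      - f (pk P.D (ys P A i q P.M) j) := by
  have h1 : ∀ t : ℕ, tr P.D j (upM ((t + 1 : ℕ) : ZMod p) (VV p P A i q) j R) =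
      fun k => ((t + 1 : ℕ) : ZMod p) * tr P.D j R k + tr P.D j (VV p P A i q) k :=
    fun t => tr_upM _ _ _ _ _
  simp_rw [h1]
  rw [sum_ext _ _ _ _ hpc]
  have h2 : tr P.D j (VV p P A i q) = bts p (pk P.D (ys P A i q P.M) j) :=
    tr_cv P.D j _ (ys_lt P hP A hA i q P.M)
  rw [h2, ext_bts]
  exact lt_of_lt_of_le (pk_lt _ _ (ys_lt P hP A hA i q P.M) j)
    (Nat.pow_le_pow_right (by norm_num) (Nat.mul_le_mul_right _ hj))

include hE hL in
/-- The loop over the questions. -/
theorem mid_eq (j : ℕ) (hj : j < P.M) (σ : ZMod p) (R : Rg p) :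
    FF P E 0 (.mid i q j σ) R = addB j (∑ c ∈ Finset.range (2 ^ P.D),
      (-(σ * ind P i q j c R)) • cv p P.D (A c)) R := by
  change runN (4 * 2 ^ P.D) (fun m => E (child2 (.mid i q j σ) m)) R = _
  rw [Nat.mul_comm, runN_mul]
  refine runN_addB _ j _ (fun c R => (-(σ * ind P i q j c R)) • cv p P.D (A c)) ?_ ?_ R
  · intro c _ R
    have h0 : ∀ r < 4, child2 (.mid i q j σ : Nd p) (c * 4 + r) =
        if r = 0 then .acc i q j c σ else if r = 1 then .lev i c 1
          else if r = 2 then .acc i q j c (-σ) else .lev i c (-1) := by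
      intro r hr
      have h1 : (c * 4 + r) % 4 = r := by omega
      have h2 : (c * 4 + r) / 4 = c := by omega
      simp only [child2, h1, h2]
    have hne : j ≠ P.M := by omega
    have hind : ∀ v R, ind P i q j c (addB P.M v R : Rg p) = ind P i q j c R := by
      intro v R
      unfold ind
      rw [tr_addB _ _ _ hj.le]
    have hind2 : ∀ v R, ind P i q j c (addB j v R : Rg p) = ind P i q j c R := by
      intro v R
      unfold ind
      rw [tr_addB _ _ _ le_rfl]
    change E (child2 (.mid i q j σ) (c * 4 + 3)) (E (child2 (.mid i q j σ) (c * 4 + 2))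
      (E (child2 (.mid i q j σ) (c * 4 + 1)) (E (child2 (.mid i q j σ) (c * 4 + 0)) R))) = _
    rw [h0 0 (by norm_num), h0 1 (by norm_num), h0 2 (by norm_num), h0 3 (by norm_num)]
    simp only [if_true, OfNat.ofNat_ne_zero, if_false, one_ne_zero, OfNat.ofNat_ne_one,
      OfNat.ofNat_eq_ofNat]
    rw [hE (.acc i q j c σ) trivial, hL, hE (.acc i q j c (-σ)) trivial]
    norm_num
    rw [hL]
    simp only [prim, hind, hind2]
    funext k
    unfold addB
    by_cases h1 : k = P.M
    · subst h1
      simp [Function.update_of_ne hne.symm]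
    · by_cases h2 : k = j
      · subst h2
        simp [Function.update_of_ne h1, Function.update_of_ne hne.symm, smul_add]
      · simp [Function.update_of_ne h1, Function.update_of_ne h2]
  · intro c _ v R
    have : ind P i q j c (addB j v R : Rg p) = ind P i q j c R := by
      unfold ind
      rw [tr_addB _ _ _ le_rfl]
    simp only [this]

/-- The middle of a round. -/
noncomputable def gmid (p : ℕ) (P : Sys) (A : ℕ → ℕ) (i q j : ℕ) (σ : ZMod p) (R : Rg p) :
    ℕ → ZMod p :=
  if j = P.M then (-σ) • outE P i q R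
  else if P.call j then ∑ c ∈ Finset.range (2 ^ P.D), (-(σ * ind P i q j c R)) • cv p P.D (A c)
  else (-σ) • locE P i q j R

theorem gmid_congr (j : ℕ) (σ : ZMod p) (R R' : Rg p) (h : tr P.D j R = tr P.D j R') :
    gmid p P A i q j σ R = gmid p P A i q j σ R' := by
  unfold gmid
  split_ifs with h1 h2
  · subst h1
    congr 1
    funext u
    unfold outE
    rw [h]
  · refine Finset.sum_congr rfl fun c _ => ?_
    unfold ind
    rw [h]
  · congr 1
    funext u
    unfold locE
    rw [h]

/-- The value of the sum of all rounds. -/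
def tval (p : ℕ) (P : Sys) (A : ℕ → ℕ) (i q j : ℕ) : ℕ → ZMod p :=
  if j = P.M then cv p P.D (P.rf i q (ys P A i q P.M)) else VV p P A i q j

include hP hA hpc in
theorem sum_gmid (j : ℕ) (hj : j ≤ P.M) (σ : ZMod p) (R : Rg p) :
    ∑ t ∈ Finset.range (p - 1), gmid p P A i q j σ
      (upM ((t + 1 : ℕ) : ZMod p) (VV p P A i q) j R) = σ • tval p P A i q j := by
  by_cases h1 : j = P.M
  · subst h1
    simp only [gmid, tval, if_true]
    rw [← Finset.smul_sum]
    funext u
    have := interp P A i q hP hA hpc P.M le_rfl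
      (fun e => cv p P.D (P.rf i q (yv P.D e)) u) R
    rw [yv_ys P hP A hA i q _ _ le_rfl] at this
    simp only [Pi.smul_apply, Finset.sum_apply, outE, smul_eq_mul, this]
    ring
  · by_cases h2 : P.call j
    · have hval : VV p P A i q j = cv p P.D (A (P.fn i q j (ys P A i q j))) := by
        unfold VV
        rw [ys_item P A i q P.M j (by omega), if_pos h2]
      simp only [gmid, tval, if_neg h1, if_pos h2, hval]
      rw [Finset.sum_comm]
      have h3 : ∀ c, ∑ t ∈ Finset.range (p - 1),
          (-(σ * ind P i q j c (upM ((t + 1 : ℕ) : ZMod p) (VV p P A i q) j R))) •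
            cv p P.D (A c) =
          (if P.fn i q j (ys P A i q j) = c then σ else 0) • cv p P.D (A c) := by
        intro c
        rw [← Finset.sum_smul]
        congr 1
        have := interp P A i q hP hA hpc j hj
          (fun e => if P.fn i q j (yv P.D e) = c then 1 else 0) R
        rw [yv_ys P hP A hA i q _ _ hj] at this
        simp only [ind]
        rw [Finset.sum_neg_distrib, ← Finset.mul_sum, this]
        split_ifs <;> simp
      rw [Finset.sum_congr rfl fun c _ => h3 c, Finset.sum_eq_single (P.fn i q j (ys P A i q j))]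
      · rw [if_pos rfl]
      · intro c _ hc
        rw [if_neg (fun h => hc h.symm), zero_smul]
      · intro h
        exact absurd (Finset.mem_range.2 (hP.fn_lt _ _ _ _ (ys_lt P hP A hA i q j))) h
    · have hval : VV p P A i q j = cv p P.D (P.fn i q j (ys P A i q j)) := by
        unfold VV
        rw [ys_item P A i q P.M j (by omega), if_neg h2]
      simp only [gmid, tval, if_neg h1, if_neg h2, hval]
      rw [← Finset.smul_sum]
      funext u
      have := interp P A i q hP hA hpc j hj
        (fun e => cv p P.D (P.fn i q j (yv P.D e)) u) R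
      rw [yv_ys P hP A hA i q _ _ hj] at this
      simp only [Pi.smul_apply, Finset.sum_apply, locE, smul_eq_mul, this]
      ring

include hP hA hpc hE hL in
/-- All rounds of item `j`. -/
theorem rounds (j : ℕ) (hj : j ≤ P.M) (u : ℕ)
    (ih : ∀ k < j, ∀ (σ : ZMod p) R, FF P E u (.itm i q k σ) R =
      addB k (σ • VV p P A i q k) R) (σ : ZMod p) (R : Rg p) :
    runN (rad P p) (fun m => FF P E u (slot P i q j σ m)) R =
      addB j (σ • tval p P A i q j) R := by
  have hp : p.Prime := Fact.out
  have hp2 := hp.two_le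
  have hi : ∀ R, E .idle R = R := fun R => hE .idle trivial R
  have key : ∀ t < p - 1, ∀ R, runN (4 * P.M + 1)
      (fun r => FF P E u (slot P i q j σ (t * (4 * P.M + 1) + r))) R =
      addB j (gmid p P A i q j σ (upM ((t + 1 : ℕ) : ZMod p) (VV p P A i q) j R)) R := by
    intro t ht R
    have hr : ∀ r < 4 * P.M + 1, (t * (4 * P.M + 1) + r) % (4 * P.M + 1) = r ∧
        (t * (4 * P.M + 1) + r) / (4 * P.M + 1) = t := by
      intro r hr
      constructor
      · rw [Nat.mul_comm, Nat.mul_add_mod, Nat.mod_eq_of_lt hr]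
      · rw [Nat.mul_comm, Nat.mul_add_div (by omega), Nat.div_eq_of_lt hr, Nat.add_zero]
    obtain ⟨t', ht'⟩ : ∃ t' : ZMod p, t' = ((t + 1 : ℕ) : ZMod p) := ⟨_, rfl⟩
    have ht0 : t' ≠ 0 := by
      rw [ht']
      intro h0
      rw [ZMod.natCast_eq_zero_iff] at h0
      have := Nat.le_of_dvd (by omega) h0
      omega
    rw [← ht']
    rw [show 4 * P.M + 1 = 2 * P.M + (1 + 2 * P.M) by ring, runN_add, runN_add]
    have hup : runN (2 * P.M) (fun r => FF P E u (slot P i q j σ
        (t * (2 * P.M + (1 + 2 * P.M)) + r))) R = upM t' (VV p P A i q) j R := by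
      refine run_up t' _ P.M j hj _ ?_ ?_ R
      · intro k hk R
        rw [show 2 * P.M + (1 + 2 * P.M) = 4 * P.M + 1 by ring]
        obtain ⟨h1, h2⟩ := hr (2 * k) (by omega)
        have h3 : 2 * k / 2 = k := by omega
        have h4 : 2 * k % 2 = 0 := by omega
        simp only [slot, h1, h2, h3, h4, if_true]
        rw [if_pos (show 2 * k < 2 * P.M by omega)]
        split_ifs with h5
        · rw [FF_prim P hp2 E hi (.mul _ _) trivial, hE (.mul _ _) trivial, ← ht']
          rfl
        · rw [FF_prim P hp2 E hi .idle trivial, hi]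
      · intro k hk R
        rw [show 2 * P.M + (1 + 2 * P.M) = 4 * P.M + 1 by ring]
        obtain ⟨h1, h2⟩ := hr (2 * k + 1) (by omega)
        have h3 : (2 * k + 1) / 2 = k := by omega
        have h4 : (2 * k + 1) % 2 ≠ 0 := by omega
        simp only [slot, h1, h2, h3, if_neg h4]
        rw [if_pos (show 2 * k + 1 < 2 * P.M by omega)]
        split_ifs with h5
        · rw [ih k h5, one_smul]
        · rw [FF_prim P hp2 E hi .idle trivial, hi]
    rw [hup]
    have hmid : ∀ R', runN 1 (fun r => FF P E u (slot P i q j σ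
        (t * (2 * P.M + (1 + 2 * P.M)) + (2 * P.M + r)))) R' =
        addB j (gmid p P A i q j σ R') R' := by
      intro R'
      change FF P E u (slot P i q j σ (t * (2 * P.M + (1 + 2 * P.M)) + (2 * P.M + 0))) R' = _
      rw [show 2 * P.M + (1 + 2 * P.M) = 4 * P.M + 1 by ring]
      obtain ⟨h1, h2⟩ := hr (2 * P.M + 0) (by omega)
      simp only [slot, h1, h2, gmid]
      rw [if_neg (show ¬ 2 * P.M + 0 < 2 * P.M by omega),
        if_pos (show 2 * P.M + 0 = 2 * P.M by omega)]
      split_ifs with h3 h4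
      · rw [FF_prim P hp2 E hi (.out _ _ _) trivial, hE (.out _ _ _) trivial]
        subst h3
        rfl
      · rw [FF_mid P hp2 E hi, mid_eq P base E A i q hE hL j (by omega)]
      · rw [FF_prim P hp2 E hi (.loc _ _ _ _) trivial, hE (.loc _ _ _ _) trivial]
        rfl
    rw [hmid]
    have hdn : ∀ R', runN (2 * P.M) (fun r => FF P E u (slot P i q j σ
        (t * (2 * P.M + (1 + 2 * P.M)) + (2 * P.M + (1 + r))))) R' =
        dnM t' (VV p P A i q) j R' := by
      intro R'
      refine run_dn t' _ P.M j hj _ ?_ ?_ R'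
      · intro k hk R
        rw [show 2 * P.M + (1 + 2 * P.M) = 4 * P.M + 1 by ring]
        obtain ⟨h1, h2⟩ := hr (2 * P.M + (1 + 2 * k)) (by omega)
        have h3 : (2 * P.M + (1 + 2 * k) - (2 * P.M + 1)) / 2 = k := by omega
        have h4 : (2 * P.M + (1 + 2 * k) - (2 * P.M + 1)) % 2 = 0 := by omega
        simp only [slot, h1, h2, h3, h4, if_true]
        rw [if_neg (show ¬ 2 * P.M + (1 + 2 * k) < 2 * P.M by omega),
          if_neg (show ¬ 2 * P.M + (1 + 2 * k) = 2 * P.M by omega)]
        split_ifs with h5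
        · rw [ih _ h5, neg_one_smul]
        · rw [FF_prim P hp2 E hi .idle trivial, hi]
      · intro k hk R
        rw [show 2 * P.M + (1 + 2 * P.M) = 4 * P.M + 1 by ring]
        obtain ⟨h1, h2⟩ := hr (2 * P.M + (1 + (2 * k + 1))) (by omega)
        have h3 : (2 * P.M + (1 + (2 * k + 1)) - (2 * P.M + 1)) / 2 = k := by omega
        have h4 : (2 * P.M + (1 + (2 * k + 1)) - (2 * P.M + 1)) % 2 ≠ 0 := by omega
        simp only [slot, h1, h2, h3, if_neg h4]
        rw [if_neg (show ¬ 2 * P.M + (1 + (2 * k + 1)) < 2 * P.M by omega),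
          if_neg (show ¬ 2 * P.M + (1 + (2 * k + 1)) = 2 * P.M by omega)]
        split_ifs with h5
        · rw [FF_prim P hp2 E hi (.mul _ _) trivial, hE (.mul _ _) trivial, ← ht']
          rfl
        · rw [FF_prim P hp2 E hi .idle trivial, hi]
    rw [hdn, dn_addB_up ht0 _ _ _ le_rfl]
  have e : rad P p = (p - 1) * (4 * P.M + 1) := rfl
  rw [e, runN_mul]
  rw [runN_addB (p - 1) j _ (fun t R => gmid p P A i q j σ
    (upM ((t + 1 : ℕ) : ZMod p) (VV p P A i q) j R)) key ?_ R]
  · rw [sum_gmid P A i q hP hA hpc j hj]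
  · intro t _ v R
    apply gmid_congr
    rw [tr_upM, tr_upM, tr_addB _ _ _ le_rfl]

include hP hA hpc hE hL in
/-- Item `j`. -/
theorem item_eq (j : ℕ) (hj : j < P.M) (u : ℕ) (hu : j < u) (σ : ZMod p) (R : Rg p) :
    FF P E u (.itm i q j σ) R = addB j (σ • VV p P A i q j) R := by
  induction j using Nat.strong_induction_on generalizing u σ R with
  | _ j ihj =>
    obtain ⟨u, rfl⟩ : ∃ u', u = u' + 1 := ⟨u - 1, by omega⟩
    change runN (rad P p) (fun m => FF P E u (slot P i q j σ m)) R = _
    rw [rounds P base E A i q hP hA hpc hE hL j hj.le u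
      (fun k hk σ R => ihj k hk (by omega) u (by omega) σ R)]
    unfold tval
    rw [if_neg (by omega)]

include hP hA hpc hE hL in
/-- The next level. -/
theorem level_eq (σ : ZMod p) (R : Rg p) :
    FF P E (P.M + 1) (.lev (i + 1) q σ) R =
      addB P.M (σ • cv p P.D (P.rf i q (ys P A i q P.M))) R := by
  change runN (rad P p) (fun m => FF P E P.M (slot P i q P.M σ m)) R = _
  rw [rounds P base E A i q hP hA hpc hE hL P.M le_rfl P.M
    (fun k hk σ R => item_eq P base E A i q hP hA hpc hE hL k hk P.M hk σ R)]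
  unfold tval
  rw [if_pos rfl]

end level

/-- The effect of `g` levels. -/
theorem EE_lev [Fact p.Prime] (P : Sys) (hP : P.Ok) (base : ℕ → ℕ) (hb : ∀ q, base q < 2 ^ P.D)
    (hpc : P.M * P.D < p - 1) (g i : ℕ) (hi : i ≤ g) (q : ℕ) (σ : ZMod p) (R : Rg p) :
    EE P base g (.lev i q σ) R = addB P.M (σ • cv p P.D (lvA P base i q)) R := by
  have hp2 := (Fact.out : p.Prime).two_le
  induction g generalizing i q σ R with
  | zero =>
    have : i = 0 := by omega
    subst this
    rfl
  | succ g ih =>
    rcases Nat.eq_zero_or_pos i with h0 | h0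
    · subst h0
      rw [EE_prim P hp2 base (g + 1) (.lev 0 q σ) rfl]
      rfl
    · obtain ⟨i, rfl⟩ : ∃ i', i = i' + 1 := ⟨i - 1, by omega⟩
      exact level_eq P base (EE P base g) (lvA P base i) i q hP (lvA_lt P hP base hb i) hpc
        (fun nd h R => EE_prim P hp2 base g nd h R) (fun c σ R => ih i (by omega) c σ R) σ R

end DU

end Pool.Agent.MP_6216ea_lc
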