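import Pool.Agent.Lib.MP_6216ea_lc.DUExt

/-! The uniform algorithm: protocols on numbers, nodes, positions, the elementary steps. -/

set_option autoImplicit false

namespace Pool.Agent.MP_6216ea_lc

namespace DU

/-- Repeat: `s := f 0 s; s := f 1 s; …; s := f (n-1) s`. -/
def runN {S : Type} (n : ℕ) (f : ℕ → S → S) (s : S) : S := Nat.rec s (fun m v => f m v) n

/-- Protocols on numbers: `M` items; item `j` is a call (`call j = true`) of the question
`fn i q j y` or the local value `fn i q j y`, `q` the question at level `i + 1` and `y` the values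
of the earlier items; `rf i q y` is the result. The numbers are less than `2 ^ D`. -/
structure Sys where
  D : ℕ
  M : ℕ
  call : ℕ → Bool
  fn : ℕ → ℕ → ℕ → (ℕ → ℕ) → ℕ
  rf : ℕ → ℕ → (ℕ → ℕ) → ℕ

/-- The numbers are less than `2 ^ D`. -/
structure Sys.Ok (P : Sys) : Prop where
  fn_lt : ∀ i q j y, (∀ k, y k < 2 ^ P.D) → P.fn i q j y < 2 ^ P.D
  rf_lt : ∀ i q y, (∀ k, y k < 2 ^ P.D) → P.rf i q y < 2 ^ P.D

/-- The values of the items `0, …, j - 1` (`0` for the others) when calls are answered by `A`. -/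
def ys (P : Sys) (A : ℕ → ℕ) (i q : ℕ) : ℕ → ℕ → ℕ
  | 0 => fun _ => 0
  | j + 1 => Function.update (ys P A i q j) j
      (if P.call j then A (P.fn i q j (ys P A i q j)) else P.fn i q j (ys P A i q j))

/-- The levels. -/
def lvA (P : Sys) (base : ℕ → ℕ) : ℕ → ℕ → ℕ
  | 0, q => base q
  | i + 1, q => P.rf i q (ys P (lvA P base i) i q P.M)

/-- The registers: the entry `u < D` of block `k ≤ M`. -/
abbrev Rg (p : ℕ) : Type := ℕ → ℕ → ZMod p

variable {p : ℕ}

/-- Add a vector to a block. -/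
def addB (k : ℕ) (v : ℕ → ZMod p) (R : Rg p) : Rg p := Function.update R k (R k + v)

/-- Multiply a block. -/
def mulB (k : ℕ) (t : ZMod p) (R : Rg p) : Rg p := Function.update R k (t • R k)

/-- The code of a number. -/
def cv (p D a : ℕ) : ℕ → ZMod p := fun u => if u < D ∧ a.testBit u then 1 else 0

/-- The first `j` blocks as one vector. -/
def tr (D j : ℕ) (R : Rg p) : ℕ → ZMod p := fun i => if i < j * D then R (i / D) (i % D) else 0

/-- The numbers coded by `e`. -/
def yv (D e : ℕ) : ℕ → ℕ := fun k => e / 2 ^ (D * k) % 2 ^ D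

/-- The extension of the indicator of `question j = c`. -/
def ind (P : Sys) (i q j c : ℕ) (R : Rg p) : ZMod p :=
  ext (P.M * P.D) (fun e => if P.fn i q j (yv P.D e) = c then 1 else 0) (tr P.D j R)

/-- The extension of bit `u` of the local value `j`. -/
def locE (P : Sys) (i q j : ℕ) (R : Rg p) (u : ℕ) : ZMod p :=
  ext (P.M * P.D) (fun e => cv p P.D (P.fn i q j (yv P.D e)) u) (tr P.D j R)

/-- The extension of bit `u` of the result. -/
def outE (P : Sys) (i q : ℕ) (R : Rg p) (u : ℕ) : ZMod p :=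
  ext (P.M * P.D) (fun e => cv p P.D (P.rf i q (yv P.D e)) u) (tr P.D P.M R)

/-- The nodes. -/
inductive Nd (p : ℕ) : Type where
  | idle
  | mul (k : ℕ) (t : ZMod p)
  | acc (i q j c : ℕ) (σ : ZMod p)
  | out (i q : ℕ) (σ : ZMod p)
  | loc (i q j : ℕ) (σ : ZMod p)
  | lev (i q : ℕ) (σ : ZMod p)
  | itm (i q j : ℕ) (σ : ZMod p)
  | mid (i q j : ℕ) (σ : ZMod p)

/-- The child `m` of item `j` (`j = M`: of the result). -/
def slot (P : Sys) (i q j : ℕ) (σ : ZMod p) (m : ℕ) : Nd p :=
  if m % (4 * P.M + 1) < 2 * P.M then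
    if m % (4 * P.M + 1) / 2 < j then
      if m % (4 * P.M + 1) % 2 = 0 then
        .mul (m % (4 * P.M + 1) / 2) ((m / (4 * P.M + 1) + 1 : ℕ) : ZMod p)
      else .itm i q (m % (4 * P.M + 1) / 2) 1
    else .idle
  else if m % (4 * P.M + 1) = 2 * P.M then
    if j = P.M then .out i q (-σ)
    else if P.call j then .mid i q j σ
    else .loc i q j (-σ)
  else if P.M - 1 - (m % (4 * P.M + 1) - (2 * P.M + 1)) / 2 < j then
    if (m % (4 * P.M + 1) - (2 * P.M + 1)) % 2 = 0 then
      .itm i q (P.M - 1 - (m % (4 * P.M + 1) - (2 * P.M + 1)) / 2) (-1)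
    else .mul (P.M - 1 - (m % (4 * P.M + 1) - (2 * P.M + 1)) / 2)
      ((m / (4 * P.M + 1) + 1 : ℕ) : ZMod p)⁻¹
  else .idle

/-- The child for a digit `m < (p - 1) (4 M + 1)`. -/
def child1 (P : Sys) : Nd p → ℕ → Nd p
  | .lev (i + 1) q σ, m => slot P i q P.M σ m
  | .itm i q j σ, m => slot P i q j σ m
  | nd, m => if m = 0 then nd else .idle

/-- The child for a digit `m < 4 * 2 ^ D`. -/
def child2 : Nd p → ℕ → Nd p
  | .mid i q j σ, m =>
    if m % 4 = 0 then .acc i q j (m / 4) σ
    else if m % 4 = 1 then .lev i (m / 4) 1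
    else if m % 4 = 2 then .acc i q j (m / 4) (-σ)
    else .lev i (m / 4) (-1)
  | nd, m => if m = 0 then nd else .idle

/-- The elementary steps. -/
def prim (P : Sys) (base : ℕ → ℕ) : Nd p → Rg p → Rg p
  | .mul k t, R => mulB k t R
  | .acc i q j c σ, R => addB j ((σ * ind P i q j c R) • R P.M) R
  | .out i q σ, R => addB P.M (σ • outE P i q R) R
  | .loc i q j σ, R => addB j (σ • locE P i q j R) R
  | .lev _ q σ, R => addB P.M (σ • cv p P.D (base q)) R
  | _, R => R

/-- The radix of the first kind of digits. -/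
def rad (P : Sys) (p : ℕ) : ℕ := (p - 1) * (4 * P.M + 1)

/-- `u` digits of the first kind and one of the second kind. -/
def FF (P : Sys) (E : Nd p → Rg p → Rg p) : ℕ → Nd p → Rg p → Rg p
  | 0, nd => runN (4 * 2 ^ P.D) fun m => E (child2 nd m)
  | u + 1, nd => runN (rad P p) fun m => FF P E u (child1 P nd m)

/-- The effect of a node with `g` levels below it. -/
def EE (P : Sys) (base : ℕ → ℕ) : ℕ → Nd p → Rg p → Rg p
  | 0 => prim P base
  | g + 1 => FF P (EE P base g) (P.M + 1)

/-! ### Positions -/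

/-- The number of positions of one level. -/
def zz (P : Sys) (p : ℕ) : ℕ := rad P p ^ (P.M + 1) * (4 * 2 ^ P.D)

/-- The node reached from `nd` by the first `u` digits of `a < zz`. -/
def desc1 (P : Sys) (nd : Nd p) (a : ℕ) : ℕ → Nd p
  | 0 => nd
  | u + 1 => child1 P (desc1 P nd a u) (a / (rad P p ^ (P.M - u) * (4 * 2 ^ P.D)) % rad P p)

/-- The node reached from `nd` by the digits of `a < zz`. -/
def descZ (P : Sys) (nd : Nd p) (a : ℕ) : Nd p :=
  child2 (desc1 P nd a (P.M + 1)) (a % (4 * 2 ^ P.D))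

/-- The node reached from `nd` by the first `h` of the `g` blocks of digits of a position. -/
def desc (P : Sys) (nd : Nd p) (g pos : ℕ) : ℕ → Nd p
  | 0 => nd
  | h + 1 => descZ P (desc P nd g pos h) (pos / zz P p ^ (g - 1 - h) % zz P p)

end DU

end Pool.Agent.MP_6216ea_lc
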