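import Pool.Agent.Lib.MP_6216ea_lc.DUNum

/-! The numeric form of the elementary steps. -/

set_option autoImplicit false

namespace Pool.Agent.MP_6216ea_lc

namespace DU

namespace Nm

open SP

/-- The digits. -/
def dg (p X l : ℕ) : ℕ := X / p ^ l % p

theorem dg_lt {p : ℕ} (hp : 0 < p) (X l : ℕ) : dg p X l < p := Nat.mod_lt _ hp

/-- The registers given by a number. -/
def rg (p D M X : ℕ) : Rg p :=
  fun k u => if k ≤ M ∧ u < D then ((dg p X (k * D + u) : ℕ) : ZMod p) else 0

theorem rg_zero (p D M : ℕ) : rg p D M 0 = fun _ _ => 0 := by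
  funext k u
  unfold rg dg
  split_ifs <;> simp

theorem lt_block {D M k u : ℕ} (hk : k ≤ M) (hu : u < D) : k * D + u < (M + 1) * D := by
  calc k * D + u < k * D + D := by omega
    _ = (k + 1) * D := by ring
    _ ≤ (M + 1) * D := Nat.mul_le_mul_right _ (by omega)

/-- Replacing a block. -/
theorem rg_upd {p D M X j : ℕ} (hp : 0 < p) (hj : j ≤ M) (f : ℕ → ℕ) (hf : ∀ l, f l < p)
    (w : ℕ → ZMod p) (hw : ∀ u, w u = if u < D then ((f (j * D + u) : ℕ) : ZMod p) else 0) :
    rg p D M (pack p (fun l => if l / D = j then f l else dg p X l) ((M + 1) * D)) =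
      Function.update (rg p D M X) j w := by
  have hd : ∀ l < (M + 1) * D, (fun l => if l / D = j then f l else dg p X l) l < p := by
    intro l _
    change (if _ then _ else _) < p
    split_ifs
    · exact hf l
    · exact dg_lt hp _ _
  funext k u
  by_cases hk : k = j
  · subst hk
    rw [Function.update_self, hw]
    unfold rg
    by_cases hu : u < D
    · rw [if_pos ⟨hj, hu⟩, if_pos hu]
      have h1 : (k * D + u) / D = k := by
        rw [Nat.add_comm, Nat.add_mul_div_right _ _ (by omega), Nat.div_eq_of_lt hu, Nat.zero_add]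
      have h2 := pack_digit ((M + 1) * D) hd (k * D + u) (lt_block hj hu)
      simp only [h1, if_true] at h2
      unfold dg at h2 ⊢
      rw [h2]
    · rw [if_neg (fun h => hu h.2), if_neg hu]
  · rw [Function.update_of_ne hk]
    unfold rg
    by_cases h : k ≤ M ∧ u < D
    · rw [if_pos h, if_pos h]
      have h1 : (k * D + u) / D = k := by
        rw [Nat.add_comm, Nat.add_mul_div_right _ _ (by omega), Nat.div_eq_of_lt h.2,
          Nat.zero_add]
      have h2 := pack_digit ((M + 1) * D) hd (k * D + u) (lt_block h.1 h.2)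
      simp only [h1, if_neg hk] at h2
      unfold dg at h2 ⊢
      rw [h2]
    · rw [if_neg h, if_neg h]

/-- The first `j` blocks. -/
def trN (p D j X l : ℕ) : ℕ := if l < j * D then dg p X l else 0

theorem trN_le {p : ℕ} (hp : 0 < p) (D j X l : ℕ) : trN p D j X l ≤ p := by
  unfold trN
  split_ifs
  · exact (dg_lt hp _ _).le
  · exact Nat.zero_le _

theorem tr_rg {p D M j : ℕ} (X : ℕ) (hj : j ≤ M + 1) :
    tr D j (rg p D M X) = fun l => ((trN p D j X l : ℕ) : ZMod p) := by
  funext l
  unfold tr trN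
  by_cases h : l < j * D
  · rw [if_pos h, if_pos h]
    have hD : 0 < D := by
      rcases Nat.eq_zero_or_pos D with h0 | h0
      · subst h0; omega
      · exact h0
    have h1 : l / D < j := Nat.div_lt_of_lt_mul (by rw [Nat.mul_comm]; exact h)
    have h2 := Nat.mod_lt l hD
    unfold rg
    rw [if_pos ⟨by omega, h2⟩, Nat.div_add_mod']
  · rw [if_neg h, if_neg h, Nat.cast_zero]

/-- The numeric form of `ind`. -/
def indN (P : Sys) (p i q j c X : ℕ) : ℕ :=
  extN (P.M * P.D) p (fun e => if P.fn i q j (yv P.D e) = c then 1 else 0) (trN p P.D j X)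

/-- The numeric form of `locE`. -/
def locN (P : Sys) (p i q j X u : ℕ) : ℕ :=
  extN (P.M * P.D) p (fun e => if (P.fn i q j (yv P.D e)).testBit u then 1 else 0)
    (trN p P.D j X)

/-- The numeric form of `outE`. -/
def outN (P : Sys) (p i q X u : ℕ) : ℕ :=
  extN (P.M * P.D) p (fun e => if (P.rf i q (yv P.D e)).testBit u then 1 else 0)
    (trN p P.D P.M X)

/-- The numeric form of the elementary steps. -/
def stepN (P : Sys) (base : ℕ → ℕ) (p : ℕ) (v : N6) (X : ℕ) : ℕ :=
  if v.1 = 1 then
    pack p (fun l => if l / P.D = v.2.2.2.1 then v.2.2.2.2.2 * dg p X l % p else dg p X l)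
      ((P.M + 1) * P.D)
  else if v.1 = 2 then
    pack p (fun l => if l / P.D = v.2.2.2.1 then
      (dg p X l + v.2.2.2.2.2 * indN P p v.2.1 v.2.2.1 v.2.2.2.1 v.2.2.2.2.1 X % p *
        dg p X (P.M * P.D + l % P.D)) % p else dg p X l) ((P.M + 1) * P.D)
  else if v.1 = 3 then
    pack p (fun l => if l / P.D = P.M then
      (dg p X l + v.2.2.2.2.2 * outN P p v.2.1 v.2.2.1 X (l % P.D)) % p else dg p X l)
      ((P.M + 1) * P.D)
  else if v.1 = 4 then
    pack p (fun l => if l / P.D = v.2.2.2.1 then
      (dg p X l + v.2.2.2.2.2 * locN P p v.2.1 v.2.2.1 v.2.2.2.1 X (l % P.D)) % p else dg p X l)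
      ((P.M + 1) * P.D)
  else if v.1 = 5 then
    pack p (fun l => if l / P.D = P.M then
      (dg p X l + v.2.2.2.2.2 * (if (base v.2.2.1).testBit (l % P.D) then 1 else 0)) % p
      else dg p X l) ((P.M + 1) * P.D)
  else X

theorem stepN_lt {P : Sys} {base : ℕ → ℕ} {p : ℕ} (hp : 0 < p) (v : N6) {X : ℕ}
    (hX : X < p ^ ((P.M + 1) * P.D)) : stepN P base p v X < p ^ ((P.M + 1) * P.D) := by
  unfold stepN
  split_ifs
  all_goals first
    | exact hX
    | (refine pack_lt _ fun l _ => ?_
       split_ifs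
       all_goals exact Nat.mod_lt _ hp)

theorem step_rg {p : ℕ} [Fact p.Prime] (P : Sys) (base : ℕ → ℕ) (v : N6) (X : ℕ)
    (hv : v.2.2.2.1 ≤ P.M) :
    rg p P.D P.M (stepN P base p v X) = prim P base (nd6 p v) (rg p P.D P.M X) := by
  have hp : 0 < p := (Fact.out : p.Prime).pos
  obtain ⟨kd, i, q, j, c, s⟩ := v
  change j ≤ P.M at hv
  have hmod : ∀ {u D k : ℕ}, u < D → (k * D + u) % D = u := fun {u D k} hu => by
    rw [Nat.add_comm, Nat.add_mul_mod_self_right, Nat.mod_eq_of_lt hu]
  unfold stepN
  simp only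
  by_cases h1 : kd = 1
  · subst h1
    rw [if_pos rfl, rg_upd hp hv _ (fun l => Nat.mod_lt _ hp) _ fun u => rfl]
    have e : nd6 p (1, i, q, j, c, s) = .mul j (s : ZMod p) := by simp [nd6]
    rw [e]
    unfold prim mulB
    congr 1
    funext u
    change _ = (s : ZMod p) * rg p P.D P.M X j u
    unfold rg
    by_cases hu : u < P.D
    · rw [if_pos hu, if_pos ⟨hv, hu⟩, ZMod.natCast_mod, Nat.cast_mul]
    · rw [if_neg hu, if_neg (fun h => hu h.2), mul_zero]
  rw [if_neg h1]
  by_cases h2 : kd = 2
  · subst h2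
    rw [if_pos rfl, rg_upd hp hv _ (fun l => Nat.mod_lt _ hp) _ fun u => rfl]
    have e : nd6 p (2, i, q, j, c, s) = .acc i q j c (s : ZMod p) := by simp [nd6]
    rw [e]
    unfold prim addB
    congr 1
    funext u
    change _ = rg p P.D P.M X j u + (s : ZMod p) * ind P i q j c (rg p P.D P.M X) *
      rg p P.D P.M X P.M u
    have hind : ind P i q j c (rg p P.D P.M X) = ((indN P p i q j c X : ℕ) : ZMod p) := by
      unfold ind indN
      rw [extN_cast hp _ _ _ (trN_le hp _ _ _), tr_rg X (by omega)]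
      congr 1
      funext e
      rw [Nat.cast_ite, Nat.cast_one, Nat.cast_zero]
    rw [hind]
    unfold rg
    by_cases hu : u < P.D
    · rw [if_pos hu, if_pos ⟨hv, hu⟩, if_pos ⟨le_rfl, hu⟩, ZMod.natCast_mod, Nat.cast_add,
        Nat.cast_mul, ZMod.natCast_mod, Nat.cast_mul, hmod hu]
    · rw [if_neg hu, if_neg (fun h => hu h.2), if_neg (fun h => hu h.2), mul_zero, add_zero]
  rw [if_neg h2]
  by_cases h3 : kd = 3
  · subst h3
    rw [if_pos rfl, rg_upd hp le_rfl _ (fun l => Nat.mod_lt _ hp) _ fun u => rfl]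
    have e : nd6 p (3, i, q, j, c, s) = .out i q (s : ZMod p) := by simp [nd6]
    rw [e]
    unfold prim addB
    congr 1
    funext u
    change _ = rg p P.D P.M X P.M u + (s : ZMod p) * outE P i q (rg p P.D P.M X) u
    have hout : u < P.D → outE P i q (rg p P.D P.M X) u =
        ((outN P p i q X u : ℕ) : ZMod p) := by
      intro hu
      unfold outE outN
      rw [extN_cast hp _ _ _ (trN_le hp _ _ _), tr_rg X (by omega)]
      congr 1
      funext e
      rw [Nat.cast_ite, Nat.cast_one, Nat.cast_zero]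
      unfold cv
      simp [hu]
    unfold rg at hout ⊢
    by_cases hu : u < P.D
    · rw [if_pos hu, if_pos ⟨le_rfl, hu⟩, ZMod.natCast_mod, Nat.cast_add,
        Nat.cast_mul, hmod hu, hout hu]
    · rw [if_neg hu, if_neg (fun h => hu h.2)]
      have : outE P i q (rg p P.D P.M X) u = 0 := by
        unfold outE ext
        refine Finset.sum_eq_zero fun e _ => ?_
        unfold cv
        simp [hu]
      unfold rg at this
      rw [this, mul_zero, add_zero]
  rw [if_neg h3]
  by_cases h4 : kd = 4
  · subst h4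
    rw [if_pos rfl, rg_upd hp hv _ (fun l => Nat.mod_lt _ hp) _ fun u => rfl]
    have e : nd6 p (4, i, q, j, c, s) = .loc i q j (s : ZMod p) := by simp [nd6]
    rw [e]
    unfold prim addB
    congr 1
    funext u
    change _ = rg p P.D P.M X j u + (s : ZMod p) * locE P i q j (rg p P.D P.M X) u
    have hout : u < P.D → locE P i q j (rg p P.D P.M X) u =
        ((locN P p i q j X u : ℕ) : ZMod p) := by
      intro hu
      unfold locE locN
      rw [extN_cast hp _ _ _ (trN_le hp _ _ _), tr_rg X (by omega)]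
      congr 1
      funext e
      rw [Nat.cast_ite, Nat.cast_one, Nat.cast_zero]
      unfold cv
      simp [hu]
    unfold rg at hout ⊢
    by_cases hu : u < P.D
    · rw [if_pos hu, if_pos ⟨hv, hu⟩, ZMod.natCast_mod, Nat.cast_add,
        Nat.cast_mul, hmod hu, hout hu]
    · rw [if_neg hu, if_neg (fun h => hu h.2)]
      have : locE P i q j (rg p P.D P.M X) u = 0 := by
        unfold locE ext
        refine Finset.sum_eq_zero fun e _ => ?_
        unfold cv
        simp [hu]
      unfold rg at this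
      rw [this, mul_zero, add_zero]
  rw [if_neg h4]
  by_cases h5 : kd = 5
  · subst h5
    rw [if_pos rfl, rg_upd hp le_rfl _ (fun l => Nat.mod_lt _ hp) _ fun u => rfl]
    have e : nd6 p (5, i, q, j, c, s) = .lev i q (s : ZMod p) := by simp [nd6]
    rw [e]
    unfold prim addB
    congr 1
    funext u
    change _ = rg p P.D P.M X P.M u + (s : ZMod p) * cv p P.D (base q) u
    unfold rg cv
    by_cases hu : u < P.D
    · rw [if_pos hu, ZMod.natCast_mod, Nat.cast_add, Nat.cast_mul, hmod hu]
      by_cases hb : (base q).testBit u <;> simp [hu, hb]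
    · rw [if_neg hu, if_neg (fun h => hu h.2), if_neg (fun h => hu h.1), mul_zero, add_zero]
  rw [if_neg h5]
  have e : nd6 p (kd, i, q, j, c, s) = .idle ∨ nd6 p (kd, i, q, j, c, s) = .itm i q j (s : ZMod p) ∨
      nd6 p (kd, i, q, j, c, s) = .mid i q j (s : ZMod p) := by
    unfold nd6
    simp only [h1, h2, h3, h4, h5, if_false]
    split_ifs <;> simp
  rcases e with e | e | e <;> rw [e] <;> rfl

end Nm

end DU

end Pool.Agent.MP_6216ea_lc
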