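import Mathlib

/-! Arithmetic terms with bounded iteration, as a model of space-bounded computation. -/

set_option autoImplicit false

namespace Pool.Agent.MP_6216ea_lc

/-- Arithmetic terms over the natural numbers: variables, constants, the length `n` of the input,
a function of the letter at a position (`0` beyond the end of the input), the four operations and
the remainder, and bounded iteration: `iter t s u` is the value of `v` after
`v := s; for j < t do v := u(v, j)`. In `u` the variables `0`, `1` are `v`, `j` and the variable
`i + 2` is the variable `i` outside. A fixed term is evaluated with a fixed number of memory cells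
for natural numbers which occur in the evaluation. -/
inductive Tm (α : Type) : Type
  | var (i : ℕ)
  | num (c : ℕ)
  | len
  | letter (f : α → ℕ) (t : Tm α)
  | add (s t : Tm α)
  | sub (s t : Tm α)
  | mul (s t : Tm α)
  | div (s t : Tm α)
  | mod (s t : Tm α)
  | iter (t s u : Tm α)

/-- `v` and `j` in front of the variables `e`. -/
def push2 (v j : ℕ) (e : ℕ → ℕ) : ℕ → ℕ
  | 0 => v
  | 1 => j
  | i + 2 => e i

/-- `v := s; for j < t do v := f v j`. -/
def iterN (t s : ℕ) (f : ℕ → ℕ → ℕ) : ℕ := Nat.rec s (fun j v => f v j) t

/-- The value of a term on the input `x` for the values `e` of the variables. -/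
def Tm.eval {α : Type} {n : ℕ} (x : Fin n → α) : Tm α → (ℕ → ℕ) → ℕ
  | var i, e => e i
  | num c, _ => c
  | len, _ => n
  | letter f t, e => if h : t.eval x e < n then f (x ⟨t.eval x e, h⟩) else 0
  | add s t, e => s.eval x e + t.eval x e
  | sub s t, e => s.eval x e - t.eval x e
  | mul s t, e => s.eval x e * t.eval x e
  | div s t, e => s.eval x e / t.eval x e
  | mod s t, e => s.eval x e % t.eval x e
  | iter t s u, e => iterN (t.eval x e) (s.eval x e) fun v j => u.eval x (push2 v j e)

/-- All values which occur in the evaluation of the term are at most `B`. -/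
def Tm.Fits {α : Type} {n : ℕ} (x : Fin n → α) (B : ℕ) : Tm α → (ℕ → ℕ) → Prop
  | var i, e => e i ≤ B
  | num c, _ => c ≤ B
  | len, _ => n ≤ B
  | letter f t, e => t.Fits x B e ∧ (letter f t).eval x e ≤ B
  | add s t, e => s.Fits x B e ∧ t.Fits x B e ∧ (add s t).eval x e ≤ B
  | sub s t, e => s.Fits x B e ∧ t.Fits x B e ∧ (sub s t).eval x e ≤ B
  | mul s t, e => s.Fits x B e ∧ t.Fits x B e ∧ (mul s t).eval x e ≤ B
  | div s t, e => s.Fits x B e ∧ t.Fits x B e ∧ (div s t).eval x e ≤ B
  | mod s t, e => s.Fits x B e ∧ t.Fits x B e ∧ (mod s t).eval x e ≤ B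
  | iter t s u, e => t.Fits x B e ∧ s.Fits x B e ∧ ∀ j < t.eval x e,
      u.Fits x B (push2 (iterN j (s.eval x e) fun v j => u.eval x (push2 v j e)) j e)

end Pool.Agent.MP_6216ea_lc
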