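import Pool.Agent.Lib.MP_6216ea_lc.SQNum

/-! The size and the number of queries of the `K`-ary recursion. -/

set_option autoImplicit false

namespace Pool.Agent.MP_6216ea_lc

namespace KA

/-- The number of levels in a block. -/
def blk (K T : ℕ) : ℕ := Nat.sqrt (Nat.clog K T) + 1

theorem le_blk (K T : ℕ) : Nat.clog K T ≤ blk K T * blk K T :=
  (Nat.lt_succ_sqrt _).le

theorem le_pow_blk {K : ℕ} (hK : 2 ≤ K) (T : ℕ) : T ≤ K ^ (blk K T * blk K T) :=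
  (Nat.le_pow_clog (by omega) T).trans (Nat.pow_le_pow_right (by omega) (le_blk K T))

theorem blk_mul (K T : ℕ) : ((blk K T + 1) * blk K T : ℝ) ≤
    Nat.clog K T + 3 * Real.sqrt (Nat.clog K T) + 2 := by
  obtain ⟨h, hh⟩ : ∃ h, h = Nat.clog K T := ⟨_, rfl⟩
  have h1 : ((Nat.sqrt h : ℕ) : ℝ) ≤ Real.sqrt h := Real.nat_sqrt_le_real_sqrt
  have h2 : Real.sqrt h * Real.sqrt h = h := Real.mul_self_sqrt (by positivity)
  have h3 : 0 ≤ Real.sqrt h := Real.sqrt_nonneg _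
  have h4 : (0 : ℝ) ≤ (Nat.sqrt h : ℕ) := by positivity
  unfold blk
  rw [← hh]
  push_cast
  nlinarith

/-- The number of queries. -/
theorem queries (ε : ℝ) (hε : 0 < ε) : ∃ K : ℕ, 2 ≤ K ∧ ∃ C : ℝ, 0 < C ∧ ∀ T : ℕ, 2 ≤ T →
    (6 : ℝ) * (8 * K + 4) ^ ((blk K T + 1) * blk K T) ≤ C * (T : ℝ) ^ (1 + ε) := by
  obtain ⟨K, hK⟩ := exists_nat_ge (Real.exp (Real.log 12 * (2 / ε)) + 2)
  have hK2 : (2 : ℝ) ≤ K := by
    have := Real.exp_pos (Real.log 12 * (2 / ε))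
    linarith
  have hK2' : 2 ≤ K := by exact_mod_cast hK2
  have hlK : 0 < Real.log K := Real.log_pos (by linarith)
  have hQ : Real.log (8 * K + 4) ≤ (1 + ε / 2) * Real.log K := by
    have h1 : (8 * K + 4 : ℝ) ≤ 12 * K := by linarith
    have h2 : Real.log (8 * K + 4) ≤ Real.log 12 + Real.log K := by
      rw [← Real.log_mul (by norm_num) (by linarith)]
      exact Real.log_le_log (by linarith) h1
    have h3 : Real.log 12 * (2 / ε) ≤ Real.log K := by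
      rw [Real.le_log_iff_exp_le (by linarith)]
      linarith
    have h4 : Real.log 12 ≤ ε / 2 * Real.log K := by
      have := mul_le_mul_of_nonneg_left h3 (show 0 ≤ ε / 2 by linarith)
      calc Real.log 12 = ε / 2 * (Real.log 12 * (2 / ε)) := by field_simp
        _ ≤ _ := this
    linarith
  have hQ0 : 0 < Real.log (8 * K + 4) := Real.log_pos (by linarith)
  obtain ⟨w, hw⟩ : ∃ w, w = Real.log (8 * K + 4) := ⟨_, rfl⟩
  obtain ⟨lK, hlKd⟩ : ∃ lK, lK = Real.log K := ⟨_, rfl⟩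
  rw [← hw] at hQ hQ0
  rw [← hlKd] at hQ hlK
  refine ⟨K, hK2', 6 * Real.exp (3 * w + (9 * w ^ 2 / (2 * ε * lK) + ε / 2 * lK)), by positivity,
    fun T hT => ?_⟩
  have hT0 : (0 : ℝ) < T := by
    have : 0 < T := by omega
    exact_mod_cast this
  obtain ⟨h, hh⟩ : ∃ h, h = Nat.clog K T := ⟨_, rfl⟩
  have hh1 : 1 ≤ h := by rw [hh]; exact Nat.clog_pos hK2' hT
  have hKT : ((h : ℝ) - 1) * lK ≤ Real.log T := by
    have h1 : K ^ (h - 1) < T := by
      have := Nat.pow_pred_clog_lt_self (b := K) (by omega) (x := T) (by omega)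
      rw [hh]
      simpa using this
    have h3 : ((h - 1 : ℕ) : ℝ) * lK ≤ Real.log T := by
      rw [hlKd, ← Real.log_pow]
      apply Real.log_le_log (by positivity)
      exact_mod_cast h1.le
    rwa [Nat.cast_sub hh1, Nat.cast_one] at h3
  obtain ⟨E, hE⟩ : ∃ E, E = (blk K T + 1) * blk K T := ⟨_, rfl⟩
  have hE1 : (E : ℝ) ≤ h + 3 * Real.sqrt h + 2 := by
    rw [hE, hh]
    exact_mod_cast blk_mul K T
  rw [← hE]
  have h5 : ((8 : ℝ) * K + 4) ^ E = Real.exp (w * E) := by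
    rw [hw, ← Real.rpow_def_of_pos (by linarith), Real.rpow_natCast]
  have h6 : (T : ℝ) ^ (1 + ε) = Real.exp (Real.log T * (1 + ε)) := Real.rpow_def_of_pos hT0 _
  rw [h5, h6, mul_assoc, ← Real.exp_add]
  refine mul_le_mul_of_nonneg_left (Real.exp_le_exp.2 ?_) (by norm_num)
  obtain ⟨y, hy⟩ : ∃ y, y = Real.sqrt h := ⟨_, rfl⟩
  have hy0 : 0 ≤ y := by rw [hy]; exact Real.sqrt_nonneg _
  have hyy : y * y = h := by rw [hy]; exact Real.mul_self_sqrt (by positivity)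
  rw [← hy] at hE1
  have hεl : 0 < ε * lK := mul_pos hε hlK
  -- 3 y w ≤ (ε/2) lK y² + 9 w² / (2 ε lK)
  have h7 : 3 * y * w ≤ ε / 2 * lK * (y * y) + 9 * w ^ 2 / (2 * ε * lK) := by
    have h8 : 0 ≤ (ε * lK * y - 3 * w) ^ 2 / (2 * ε * lK) := by positivity
    have h9 : (ε * lK * y - 3 * w) ^ 2 / (2 * ε * lK) =
        ε / 2 * lK * (y * y) - 3 * y * w + 9 * w ^ 2 / (2 * ε * lK) := by
      field_simp
      ring
    linarith
  have h10 : w * E ≤ w * (h + 3 * y + 2) := mul_le_mul_of_nonneg_left hE1 hQ0.le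
  have h11 : w * ((h : ℝ) - 1) ≤ (1 + ε / 2) * Real.log T := by
    have a1 : (0 : ℝ) ≤ (h : ℝ) - 1 := by
      have : (1 : ℝ) ≤ h := by exact_mod_cast hh1
      linarith
    calc w * ((h : ℝ) - 1) ≤ ((1 + ε / 2) * lK) * ((h : ℝ) - 1) := mul_le_mul_of_nonneg_right hQ a1
      _ = (1 + ε / 2) * (((h : ℝ) - 1) * lK) := by ring
      _ ≤ _ := mul_le_mul_of_nonneg_left hKT (by linarith)
  have h12 : ε / 2 * lK * (y * y) ≤ ε / 2 * Real.log T + ε / 2 * lK := by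
    rw [hyy]
    have := mul_le_mul_of_nonneg_left hKT (show 0 ≤ ε / 2 by linarith)
    nlinarith
  nlinarith

theorem sq_succ_le {e : ℕ} (he : 1 ≤ e) : (e + 1) ^ 2 ≤ 4 * e ^ 2 := by
  have h : e + 1 ≤ 2 * e := by omega
  calc (e + 1) ^ 2 ≤ (2 * e) ^ 2 := Nat.pow_le_pow_left h 2
    _ = 4 * e ^ 2 := by ring

/-- The size. -/
theorem size (K : ℕ) (hK : 2 ≤ K) : ∃ C : ℝ, 0 < C ∧ ∀ L T S : ℕ, 2 ≤ T → T ≤ L → S ≤ L →
    ∃ D e p : ℕ, 2 * (S * (K ^ (blk K T * blk K T) + 1)) ^ 2 ≤ e ^ D ∧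
      (4 * (4 * K + 1) + 1) * (D * e ^ 2) < p ∧
      ((6 * (2 * (4 * K + 1) + 2) ^ ((blk K T + 1) * blk K T) *
        ((2 * (S * (K ^ (blk K T * blk K T) + 1)) ^ 2) ^ (2 * blk K T + 1) *
          p ^ ((blk K T + 1) * ((4 * K + 1) + 1) * (blk K T + (D + 1)))) : ℕ) : ℝ) ≤
        (L : ℝ) ^ (C * Real.sqrt (Real.log T)) := by
  obtain ⟨k, hk⟩ : ∃ k, k = 8 * K + 11 := ⟨_, rfl⟩
  obtain ⟨m, hm⟩ : ∃ m, m = 4 * (4 * (4 * K + 1) + 1) := ⟨_, rfl⟩
  obtain ⟨M, hM⟩ : ∃ M, M = 4 * K + 1 := ⟨_, rfl⟩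
  obtain ⟨c, hc⟩ : ∃ c, c = Nat.clog 2 (2 * (m * (k + 1) + 1)) + 3 := ⟨_, rfl⟩
  obtain ⟨ca, hca⟩ : ∃ ca, 2 * M + 2 ≤ 2 ^ ca := ⟨2 * M + 2, Nat.lt_two_pow_self.le⟩
  obtain ⟨A, hA⟩ : ∃ A, A = 3 + 6 * ca + 5 * k + c * (M + 1) * 3 * (k + 6) := ⟨_, rfl⟩
  refine ⟨4 * A + 1, by positivity, ?_⟩
  intro L T S hT hTL hS
  have hL : 2 ≤ L := by omega
  obtain ⟨l, hl⟩ : ∃ l, l = Nat.clog 2 L := ⟨_, rfl⟩
  obtain ⟨t, ht⟩ : ∃ t, t = Nat.clog 2 T := ⟨_, rfl⟩
  obtain ⟨h, hh⟩ : ∃ h, h = Nat.clog K T := ⟨_, rfl⟩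
  obtain ⟨b, hb⟩ : ∃ b, b = blk K T := ⟨_, rfl⟩
  have ht1 : 1 ≤ t := by rw [ht]; exact Nat.clog_pos (by norm_num) hT
  have htl : t ≤ l := by rw [ht, hl]; exact Nat.clog_mono_right 2 hTL
  have hht : h ≤ t := by rw [hh, ht]; exact Nat.clog_anti_left (by norm_num) hK
  have hh1 : 1 ≤ h := by rw [hh]; exact Nat.clog_pos hK hT
  have hLl : L ≤ 2 ^ l := by rw [hl]; exact Nat.le_pow_clog (by norm_num) _
  obtain ⟨s, D, p, c', hs1, hs, hD, hsD, hp, hmp, hc', hp2, hDs⟩ :=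
    SQNum.digits k m l (ht1.trans htl)
  obtain rfl : c' = c := by rw [hc', hc]
  rw [← hb]
  obtain ⟨u, hu⟩ : ∃ u, u = 2 ^ l := ⟨_, rfl⟩
  have hl1 : 1 ≤ l := ht1.trans htl
  have hu2 : 2 ≤ u := by
    rw [hu]
    calc 2 = 2 ^ 1 := rfl
      _ ≤ 2 ^ l := Nat.pow_le_pow_right (by norm_num) hl1
  rw [← hu] at hLl
  have hpu : ∀ j, 1 ≤ u ^ j := fun j => Nat.one_le_pow _ _ (by omega)
  -- K ^ (b * b)
  have hKb : K ^ (b * b) ≤ u ^ (4 * K + 3) := by
    have h1 : Nat.sqrt h ≤ h := Nat.sqrt_le_self h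
    have h2 : Nat.sqrt h * Nat.sqrt h ≤ h := Nat.sqrt_le h
    have h3 : b * b ≤ (h - 1) * 3 + 4 := by
      rw [hb]
      unfold blk
      rw [← hh]
      have : (Nat.sqrt h + 1) * (Nat.sqrt h + 1) = Nat.sqrt h * Nat.sqrt h + 2 * Nat.sqrt h + 1 := by
        ring
      omega
    have h4 : K ^ (h - 1) ≤ u := by
      have := Nat.pow_pred_clog_lt_self (b := K) (by omega) (x := T) (by omega)
      rw [hh]
      have h5 : K ^ (Nat.clog K T - 1) < T := by simpa using this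
      omega
    have h5 : K ≤ u ^ K := by
      calc K ≤ 2 ^ K := Nat.lt_two_pow_self.le
        _ ≤ u ^ K := Nat.pow_le_pow_left hu2 K
    calc K ^ (b * b) ≤ K ^ ((h - 1) * 3 + 4) := Nat.pow_le_pow_right (by omega) h3
      _ = (K ^ (h - 1)) ^ 3 * K ^ 4 := by rw [pow_add, pow_mul]
      _ ≤ u ^ 3 * (u ^ K) ^ 4 := Nat.mul_le_mul (Nat.pow_le_pow_left h4 3) (Nat.pow_le_pow_left h5 4)
      _ = u ^ (4 * K + 3) := by rw [← pow_mul, ← pow_add]; ring_nf
  obtain ⟨X, hX⟩ : ∃ X, X = 2 * (S * (K ^ (b * b) + 1)) ^ 2 := ⟨_, rfl⟩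
  have hXk : X ≤ 2 ^ (k * l) := by
    have h1 : K ^ (b * b) + 1 ≤ u ^ (4 * K + 4) := by
      have h2 := hpu (4 * K + 3)
      calc K ^ (b * b) + 1 ≤ u ^ (4 * K + 3) * 2 := by omega
        _ ≤ u ^ (4 * K + 3) * u := Nat.mul_le_mul_left _ hu2
        _ = u ^ (4 * K + 4) := (pow_succ _ _).symm
    have h2 : S * (K ^ (b * b) + 1) ≤ u ^ (4 * K + 5) := by
      calc S * (K ^ (b * b) + 1) ≤ u * u ^ (4 * K + 4) := Nat.mul_le_mul (hS.trans hLl) h1
        _ = u ^ (4 * K + 5) := (pow_succ' _ _).symm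
    calc X = 2 * (S * (K ^ (b * b) + 1)) ^ 2 := hX
      _ ≤ u * (u ^ (4 * K + 5)) ^ 2 := Nat.mul_le_mul hu2 (Nat.pow_le_pow_left h2 2)
      _ = u ^ k := by rw [hk, ← pow_mul, ← pow_succ']; ring_nf
      _ = 2 ^ (k * l) := by rw [hu, ← pow_mul, mul_comm]
  refine ⟨D, 2 ^ s, p, ?_, ?_, ?_⟩
  · rw [← hX, ← pow_mul]
    exact hXk.trans (Nat.pow_le_pow_right (by norm_num) hsD)
  · refine lt_of_le_of_lt ?_ hmp
    obtain ⟨e, he⟩ : ∃ e, 2 ^ s = e + 1 := ⟨2 ^ s - 1, by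
      have := Nat.one_le_two_pow (n := s)
      omega⟩
    have he1 : 1 ≤ e := by
      have : 2 ^ 1 ≤ 2 ^ s := Nat.pow_le_pow_right (by norm_num) hs1
      omega
    rw [he, Nat.add_sub_cancel, hm]
    have h1 : (e + 1) ^ 2 ≤ 4 * e ^ 2 := sq_succ_le he1
    calc (4 * (4 * K + 1) + 1) * (D * (e + 1) ^ 2) ≤ (4 * (4 * K + 1) + 1) * (D * (4 * e ^ 2)) := by
          gcongr
      _ = _ := by ring
  rw [← hX, ← hM]
  obtain ⟨E, hE⟩ : ∃ E, E = 3 + ca * ((b + 1) * b) + k * l * (2 * b + 1) +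
      c' * s * ((b + 1) * (M + 1) * (b + (D + 1))) := ⟨_, rfl⟩
  have hEb : 6 * (2 * M + 2) ^ ((b + 1) * b) * (X ^ (2 * b + 1) *
      p ^ ((b + 1) * (M + 1) * (b + (D + 1)))) ≤ 2 ^ E := by
    calc 6 * (2 * M + 2) ^ ((b + 1) * b) * (X ^ (2 * b + 1) *
          p ^ ((b + 1) * (M + 1) * (b + (D + 1))))
        ≤ 2 ^ 3 * (2 ^ ca) ^ ((b + 1) * b) * ((2 ^ (k * l)) ^ (2 * b + 1) *
          (2 ^ (c' * s)) ^ ((b + 1) * (M + 1) * (b + (D + 1)))) := by
          gcongr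
          norm_num
      _ = 2 ^ E := by
        rw [hE, ← pow_mul, ← pow_mul, ← pow_mul, ← pow_add, ← pow_add, ← pow_add]
        ring_nf
  have hx0 : 0 ≤ Real.sqrt t := Real.sqrt_nonneg _
  have hx1 : 1 ≤ Real.sqrt t := by
    rw [Real.one_le_sqrt]; exact_mod_cast ht1
  have hxx : Real.sqrt t * Real.sqrt t = t := Real.mul_self_sqrt (by positivity)
  have htl' : (t : ℝ) ≤ l := by exact_mod_cast htl
  have hy0 : 0 ≤ Real.sqrt l := Real.sqrt_nonneg _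
  have hyy : Real.sqrt l * Real.sqrt l = l := Real.mul_self_sqrt (by positivity)
  have hxy : Real.sqrt t ≤ Real.sqrt l := Real.sqrt_le_sqrt htl'
  have hbx : (b : ℝ) ≤ Real.sqrt t + 1 := by
    have h1 : ((Nat.sqrt h : ℕ) : ℝ) ≤ Real.sqrt h := Real.nat_sqrt_le_real_sqrt
    have h2 : Real.sqrt h ≤ Real.sqrt t := Real.sqrt_le_sqrt (by exact_mod_cast hht)
    rw [hb]
    unfold blk
    rw [← hh]
    push_cast
    linarith
  obtain ⟨x, hx⟩ : ∃ x, x = Real.sqrt t := ⟨_, rfl⟩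
  obtain ⟨y, hy⟩ : ∃ y, y = Real.sqrt l := ⟨_, rfl⟩
  have hl1' : (1 : ℝ) ≤ l := by exact_mod_cast hl1
  have hE2 : (E : ℝ) ≤ A * (l * x) := by
    rw [← hx] at hx0 hx1 hxx hxy hbx
    rw [← hy] at hy0 hyy hxy
    have hsy : (s : ℝ) ≤ 2 * y := by
      have h1 : 2 ^ (s - 1) ≤ l := by
        rw [hs, Nat.add_sub_cancel]
        exact Nat.pow_log_le_self 2 (by omega)
      have h2 : s ^ 2 ≤ 4 * l := by
        have h3 := SQNum.sq_le_pow s
        have h4 : 2 ^ (s + 1) = 4 * 2 ^ (s - 1) := by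
          obtain ⟨s', rfl⟩ := Nat.exists_eq_add_of_le hs1
          rw [Nat.add_sub_cancel_left, show 1 + s' + 1 = s' + 2 by ring, pow_add]
          ring
        omega
      have h3 : (s : ℝ) ^ 2 ≤ 4 * l := by exact_mod_cast h2
      have h4 : (s : ℝ) ^ 2 ≤ (2 * y) ^ 2 := by nlinarith
      exact le_of_sq_le_sq h4 (by positivity)
    have hb2 : (b : ℝ) ≤ 2 * x := by linarith
    have hb3 : (b : ℝ) + 1 ≤ 3 * x := by linarith
    have hb0 : (0 : ℝ) ≤ b := by positivity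
    have hs0 : (0 : ℝ) ≤ s := by positivity
    have hlx : (1 : ℝ) ≤ l * x := by nlinarith
    have hxl : x * x ≤ l * x := by nlinarith
    have e1 : (ca : ℝ) * ((b + 1) * b) ≤ 6 * ca * (l * x) := by
      have h1 : ((b : ℝ) + 1) * b ≤ 6 * (l * x) := by
        calc ((b : ℝ) + 1) * b ≤ 3 * x * (2 * x) := mul_le_mul hb3 hb2 hb0 (by positivity)
          _ = 6 * (x * x) := by ring
          _ ≤ 6 * (l * x) := by linarith
      calc (ca : ℝ) * ((b + 1) * b) ≤ ca * (6 * (l * x)) :=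
            mul_le_mul_of_nonneg_left h1 (by positivity)
        _ = 6 * ca * (l * x) := by ring
    have e2 : (k : ℝ) * l * (2 * b + 1) ≤ 5 * k * (l * x) := by
      calc (k : ℝ) * l * (2 * b + 1) ≤ k * l * (5 * x) :=
            mul_le_mul_of_nonneg_left (by linarith) (by positivity)
        _ = _ := by ring
    have hsb : (s : ℝ) * b ≤ 4 * l := by
      calc (s : ℝ) * b ≤ 2 * y * (2 * x) := mul_le_mul hsy hb2 hb0 (by positivity)
        _ ≤ 2 * y * (2 * y) := by gcongr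
        _ = 4 * l := by rw [← hyy]; ring
    have hsD' : (s : ℝ) * (D + 1) ≤ (k + 2) * l := by
      have : ((D : ℝ) + 1) * s ≤ (k + 2) * l := by exact_mod_cast hDs
      linarith
    have e3 : (c' : ℝ) * s * ((b + 1) * (M + 1) * (b + (D + 1))) ≤
        c' * (M + 1) * 3 * (k + 6) * (l * x) := by
      calc (c' : ℝ) * s * ((b + 1) * (M + 1) * (b + (D + 1)))
          = c' * (M + 1) * ((b + 1) * (s * b + s * (D + 1))) := by ring
        _ ≤ c' * (M + 1) * ((3 * x) * (4 * l + (k + 2) * l)) := by gcongr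
        _ = _ := by ring
    rw [hE, hA]
    push_cast
    linarith
  -- logarithms
  have hlog2 : (0 : ℝ) < Real.log 2 := Real.log_pos (by norm_num)
  have hlog2' : (0.6931 : ℝ) < Real.log 2 := by have := Real.log_two_gt_d9; linarith
  have key : ∀ z : ℕ, 2 ≤ z → ((Nat.clog 2 z : ℕ) : ℝ) * Real.log 2 ≤ 2 * Real.log z := by
    intro z hz
    have h1 : 2 ^ (Nat.clog 2 z - 1) < z := by
      have := Nat.pow_pred_clog_lt_self (b := 2) (by norm_num) (x := z) (by omega)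
      simpa using this
    have h2 : 1 ≤ Nat.clog 2 z := Nat.clog_pos (by norm_num) hz
    have h3 : ((Nat.clog 2 z - 1 : ℕ) : ℝ) * Real.log 2 ≤ Real.log z := by
      rw [← Real.log_pow]
      apply Real.log_le_log (by positivity)
      exact_mod_cast h1.le
    have h4 : Real.log 2 ≤ Real.log z := Real.log_le_log (by norm_num) (by exact_mod_cast hz)
    rw [Nat.cast_sub h2] at h3
    push_cast at h3
    linarith
  have hlL : (l : ℝ) * Real.log 2 ≤ 2 * Real.log L := by rw [hl]; exact key L hL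
  have htT : (t : ℝ) * Real.log 2 ≤ 2 * Real.log T := by rw [ht]; exact key T hT
  have hT0 : 0 ≤ Real.log T := Real.log_nonneg (by exact_mod_cast (by omega : 1 ≤ T))
  have hL0 : 0 ≤ Real.log L := Real.log_nonneg (by exact_mod_cast (by omega : 1 ≤ L))
  have hst : x ≤ 2 * Real.sqrt (Real.log T) := by
    have h1 : (t : ℝ) ≤ 4 * Real.log T := by nlinarith
    calc x = Real.sqrt t := hx
      _ ≤ Real.sqrt (4 * Real.log T) := Real.sqrt_le_sqrt h1
      _ = 2 * Real.sqrt (Real.log T) := by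
        rw [Real.sqrt_mul (by norm_num), show (4 : ℝ) = 2 ^ 2 by norm_num,
          Real.sqrt_sq (by norm_num)]
  calc ((6 * (2 * M + 2) ^ ((b + 1) * b) * (X ^ (2 * b + 1) *
          p ^ ((b + 1) * (M + 1) * (b + (D + 1)))) : ℕ) : ℝ) ≤ ((2 ^ E : ℕ) : ℝ) := by
        exact_mod_cast hEb
    _ = (2 : ℝ) ^ (E : ℝ) := by push_cast; rw [Real.rpow_natCast]
    _ = Real.exp (Real.log 2 * E) := Real.rpow_def_of_pos (by norm_num) _
    _ ≤ Real.exp (Real.log L * ((4 * A + 1) * Real.sqrt (Real.log T))) := by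
      apply Real.exp_le_exp.2
      have hs0 : 0 ≤ Real.sqrt (Real.log T) := Real.sqrt_nonneg _
      have hA0 : (0 : ℝ) ≤ A := by positivity
      calc Real.log 2 * E ≤ Real.log 2 * (A * (l * x)) :=
            mul_le_mul_of_nonneg_left hE2 hlog2.le
        _ = A * ((l * Real.log 2) * x) := by ring
        _ ≤ A * ((2 * Real.log L) * (2 * Real.sqrt (Real.log T))) := by
          have hx0' : 0 ≤ x := by rw [hx]; exact hx0
          gcongr
        _ = Real.log L * ((4 * A) * Real.sqrt (Real.log T)) := by ring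
        _ ≤ Real.log L * ((4 * A + 1) * Real.sqrt (Real.log T)) := by
          apply mul_le_mul_of_nonneg_left _ hL0
          apply mul_le_mul_of_nonneg_right _ hs0
          linarith
    _ = (L : ℝ) ^ ((4 * A + 1) * Real.sqrt (Real.log T)) :=
      (Real.rpow_def_of_pos (by exact_mod_cast (by omega : 0 < L)) _).symm

end KA

end Pool.Agent.MP_6216ea_lc
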