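import Pool.Agent.Lib.MP_6216ea_lc.SQThm

/-! Deterministic pushdown programs have nondeterministic branching programs of size
`L ^ O(sqrt (log T))`. -/

set_option autoImplicit false

namespace Pool.Agent.MP_6216ea_lc

namespace SQ

theorem sq_le_two_pow (k : ℕ) : k ^ 2 ≤ 2 ^ (k + 1) := by
  induction k with
  | zero => norm_num
  | succ k ih =>
    have h1 : k + 1 ≤ 2 ^ k := Nat.lt_two_pow_self
    have h2 : 2 ^ (k + 1 + 1) = 2 ^ (k + 1) + 2 * 2 ^ k := by rw [pow_succ, pow_succ]; ring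
    rw [h2]
    nlinarith

/-- The bounds in natural numbers. -/
theorem nat_bounds (L T c : ℕ) (hT : 2 ≤ T) (hTL : T ≤ L) (hc : c ≤ L) :
    ∃ b D e p : ℕ, T ≤ 2 ^ (b * b) ∧ 2 * (c * (2 ^ (b * b) + 1)) ^ 2 ≤ e ^ D ∧
      25 * (D * e ^ 2) < p ∧
      6 * 14 ^ ((b + 1) * b) * ((e ^ D) ^ (2 * b + 1) * p ^ ((b + 1) * 7 * (b + (D + 1)))) ≤
        2 ^ (3785 * (Nat.clog 2 L * (Nat.sqrt (Nat.clog 2 T) + 1))) ∧
      6 * 14 ^ ((b + 1) * b) ≤ T ^ 70 := by
  obtain ⟨l, hl⟩ : ∃ l, l = Nat.clog 2 L := ⟨_, rfl⟩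
  obtain ⟨h, hh⟩ : ∃ h, h = Nat.clog 2 T := ⟨_, rfl⟩
  obtain ⟨r, hr⟩ : ∃ r, r = Nat.sqrt h := ⟨_, rfl⟩
  obtain ⟨s, hs⟩ : ∃ s, s = r + 1 := ⟨_, rfl⟩
  obtain ⟨k', hk'⟩ : ∃ k', k' = Nat.log 2 l := ⟨_, rfl⟩
  obtain ⟨k, hk⟩ : ∃ k, k = k' + 1 := ⟨_, rfl⟩
  obtain ⟨D, hD⟩ : ∃ D, D = 13 * l / k + 1 := ⟨_, rfl⟩
  rw [← hl, ← hh, ← hr, ← hs]
  have hh1 : 1 ≤ h := by
    rw [hh]
    exact Nat.clog_pos (by norm_num) hT
  have hhl : h ≤ l := by
    rw [hh, hl]
    exact Nat.clog_mono_right 2 hTL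
  have hl1 : 1 ≤ l := hh1.trans hhl
  have hLl : L ≤ 2 ^ l := by rw [hl]; exact Nat.le_pow_clog (by norm_num) L
  have hTh : T ≤ 2 ^ h := by rw [hh]; exact Nat.le_pow_clog (by norm_num) T
  have hr1 : r * r ≤ h := by rw [hr]; exact Nat.sqrt_le h
  have hr2 : h < s * s := by rw [hs, hr]; exact Nat.lt_succ_sqrt h
  have hrh : r ≤ h := by nlinarith
  have hss : s * s ≤ 4 * h := by rw [hs]; nlinarith
  have hs1 : 1 ≤ s := by omega
  have hsl : s ≤ 2 * l := by omega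
  have hk1 : 1 ≤ k := by omega
  have hk2 : 2 ^ k' ≤ l := by rw [hk']; exact Nat.pow_log_le_self 2 (by omega)
  have hk3 : l < 2 ^ k := by rw [hk, hk']; exact Nat.lt_pow_succ_log_self (by norm_num) l
  have hkl : k ≤ l := by
    have : Nat.log 2 l < l := Nat.log_lt_self 2 (by omega)
    omega
  have hkk : k ^ 2 ≤ 4 * l := by
    refine (sq_le_two_pow k).trans ?_
    rw [hk, pow_succ, pow_succ]
    omega
  have hks : k * s ≤ 4 * l := by
    by_contra hcon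
    push Not at hcon
    have h1 : (4 * l) * (4 * l) < (k * s) * (k * s) := Nat.mul_self_lt_mul_self hcon
    have h2 : (k * s) * (k * s) = k ^ 2 * (s * s) := by ring
    have h3 : k ^ 2 * (s * s) ≤ (4 * l) * (4 * h) := Nat.mul_le_mul hkk hss
    have h4 : (4 * l) * (4 * h) ≤ (4 * l) * (4 * l) := by
      refine Nat.mul_le_mul_left _ (by omega)
    omega
  have hDk1 : 13 * l ≤ k * D := by
    rw [hD]
    have h1 := Nat.div_add_mod (13 * l) k
    have h2 := Nat.mod_lt (13 * l) (show k > 0 by omega)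
    rw [mul_add, mul_one]
    omega
  have hDk2 : k * D ≤ 14 * l := by
    rw [hD, mul_add, mul_one]
    have h1 := Nat.mul_div_le (13 * l) k
    omega
  have hD1 : 1 ≤ D := by
    rw [hD]
    exact Nat.le_add_left 1 _
  have hDl : D ≤ 14 * l := le_trans (Nat.le_mul_of_pos_left D (by omega)) hDk2
  have hp : 25 * (D * (2 ^ k) ^ 2) + 1 ≤ 2 ^ (14 * k) := by
    have h1 : D ≤ 2 ^ (k + 4) := by
      calc D ≤ 14 * l := hDl
        _ ≤ 16 * 2 ^ k := Nat.mul_le_mul (by norm_num) hk3.le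
        _ = 2 ^ (k + 4) := by ring
    have h2 : 25 * (D * (2 ^ k) ^ 2) ≤ 2 ^ (3 * k + 9) := by
      calc 25 * (D * (2 ^ k) ^ 2) ≤ 2 ^ 5 * (2 ^ (k + 4) * (2 ^ k) ^ 2) := by
            gcongr
            norm_num
        _ = 2 ^ (3 * k + 9) := by
            rw [← pow_mul, ← pow_add, ← pow_add]
            congr 1
            ring
    have h3 : 2 ^ (3 * k + 9) + 1 ≤ 2 ^ (3 * k + 10) := by
      have h4 : 1 ≤ 2 ^ (3 * k + 9) := Nat.one_le_pow _ _ (by norm_num)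
      have h6 : 2 ^ (3 * k + 10) = 2 ^ (3 * k + 9) * 2 := by rw [← pow_succ]
      rw [h6]
      generalize 2 ^ (3 * k + 9) = u at h4 ⊢
      omega
    have h5 : 2 ^ (3 * k + 10) ≤ 2 ^ (14 * k) := Nat.pow_le_pow_right (by norm_num) (by omega)
    omega
  have he : (2 ^ k) ^ D = 2 ^ (k * D) := (pow_mul 2 k D).symm
  refine ⟨s, D, 2 ^ k, 25 * (D * (2 ^ k) ^ 2) + 1, ?_, ?_, Nat.lt_succ_self _, ?_, ?_⟩
  · exact hTh.trans (Nat.pow_le_pow_right (by norm_num) (by omega))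
  · rw [he]
    have h1 : 2 ^ (s * s) + 1 ≤ 2 ^ (4 * h + 1) := by
      have h2 : 2 ^ (s * s) ≤ 2 ^ (4 * h) := Nat.pow_le_pow_right (by norm_num) hss
      have h3 : 1 ≤ 2 ^ (4 * h) := Nat.one_le_pow _ _ (by norm_num)
      rw [pow_succ]
      omega
    calc 2 * (c * (2 ^ (s * s) + 1)) ^ 2 ≤ 2 * (2 ^ l * 2 ^ (4 * h + 1)) ^ 2 := by
          gcongr
          exact hc.trans hLl
      _ = 2 ^ (1 + 2 * (l + (4 * h + 1))) := by
          rw [← pow_add, ← pow_mul, pow_add 2 1, pow_one]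
          congr 2
          ring
      _ ≤ 2 ^ (k * D) := Nat.pow_le_pow_right (by norm_num) (by omega)
  · rw [he]
    have e1 : 6 * 14 ^ ((s + 1) * s) ≤ 2 ^ (3 + 4 * ((s + 1) * s)) := by
      calc 6 * 14 ^ ((s + 1) * s) ≤ 2 ^ 3 * (2 ^ 4) ^ ((s + 1) * s) := by
            gcongr <;> norm_num
        _ = _ := by rw [← pow_mul, ← pow_add]
    have e2 : (2 ^ (k * D)) ^ (2 * s + 1) = 2 ^ (k * D * (2 * s + 1)) := (pow_mul 2 _ _).symm
    have e3 : (25 * (D * (2 ^ k) ^ 2) + 1) ^ ((s + 1) * 7 * (s + (D + 1))) ≤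
        2 ^ (14 * k * ((s + 1) * 7 * (s + (D + 1)))) := by
      rw [pow_mul 2 (14 * k)]
      exact Nat.pow_le_pow_left hp _
    calc 6 * 14 ^ ((s + 1) * s) * ((2 ^ (k * D)) ^ (2 * s + 1) *
          (25 * (D * (2 ^ k) ^ 2) + 1) ^ ((s + 1) * 7 * (s + (D + 1))))
        ≤ 2 ^ (3 + 4 * ((s + 1) * s)) * (2 ^ (k * D * (2 * s + 1)) *
          2 ^ (14 * k * ((s + 1) * 7 * (s + (D + 1))))) := by
          rw [e2]
          exact Nat.mul_le_mul e1 (Nat.mul_le_mul_left _ e3)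
      _ = 2 ^ (3 + 4 * ((s + 1) * s) + (k * D * (2 * s + 1) +
          14 * k * ((s + 1) * 7 * (s + (D + 1))))) := by rw [← pow_add, ← pow_add]
      _ ≤ 2 ^ (3785 * (l * s)) := by
          apply Nat.pow_le_pow_right (by norm_num)
          have a0 : 1 ≤ l * s := Nat.one_le_iff_ne_zero.mpr (by positivity)
          have a1 : (s + 1) * s ≤ 4 * (l * s) := by
            calc (s + 1) * s ≤ (2 * s) * s := Nat.mul_le_mul_right _ (by omega)
              _ = 2 * s * s := rfl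
              _ ≤ 2 * (2 * l) * s := by gcongr
              _ = 4 * (l * s) := by ring
          have a2 : k * D * (2 * s + 1) ≤ 42 * (l * s) := by
            calc k * D * (2 * s + 1) ≤ (14 * l) * (3 * s) := Nat.mul_le_mul hDk2 (by omega)
              _ = 42 * (l * s) := by ring
          have a3 : 14 * k * ((s + 1) * 7 * (s + (D + 1))) ≤ 3724 * (l * s) := by
            calc 14 * k * ((s + 1) * 7 * (s + (D + 1)))
                = 98 * ((s + 1) * (k * s + k * D + k)) := by ring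
              _ ≤ 98 * ((2 * s) * (4 * l + 14 * l + l)) := by gcongr; omega
              _ = 3724 * (l * s) := by ring
          omega
  · have e1 : 6 * 14 ^ ((s + 1) * s) ≤ 2 ^ (3 + 4 * ((s + 1) * s)) := by
      calc 6 * 14 ^ ((s + 1) * s) ≤ 2 ^ 3 * (2 ^ 4) ^ ((s + 1) * s) := by
            gcongr <;> norm_num
        _ = _ := by rw [← pow_mul, ← pow_add]
    have e2 : (s + 1) * s ≤ 8 * h := by nlinarith
    have e3 : 2 ^ h ≤ T ^ 2 := by
      have h1 : 2 ^ (h - 1) < T := by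
        rw [hh]
        exact Nat.pow_pred_clog_lt_self (by norm_num) (by omega)
      have h2 : 2 ^ h = 2 * 2 ^ (h - 1) := by
        rw [← pow_succ']
        congr 1
        omega
      rw [h2]
      nlinarith
    calc 6 * 14 ^ ((s + 1) * s) ≤ 2 ^ (3 + 4 * ((s + 1) * s)) := e1
      _ ≤ 2 ^ (h * 35) := Nat.pow_le_pow_right (by norm_num) (by omega)
      _ = (2 ^ h) ^ 35 := pow_mul 2 h 35
      _ ≤ (T ^ 2) ^ 35 := Nat.pow_le_pow_left e3 _
      _ = T ^ 70 := (pow_mul T 2 35).symm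

theorem clog_le_log {n : ℕ} (hn : 2 ≤ n) : (Nat.clog 2 n : ℝ) ≤ 3 * Real.log n := by
  have h1 : 2 ^ (Nat.clog 2 n - 1) < n := Nat.pow_pred_clog_lt_self (by norm_num) (by omega)
  have h2 : 1 ≤ Nat.clog 2 n := Nat.clog_pos (by norm_num) hn
  have h3 : ((Nat.clog 2 n - 1 : ℕ) : ℝ) * Real.log 2 ≤ Real.log n := by
    rw [← Real.log_pow]
    apply Real.log_le_log (by positivity)
    exact_mod_cast h1.le
  have h4 : (0.6931471803 : ℝ) < Real.log 2 := Real.log_two_gt_d9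
  have h5 : Real.log 2 ≤ Real.log n := by
    apply Real.log_le_log (by norm_num)
    exact_mod_cast hn
  rw [Nat.cast_sub h2, Nat.cast_one] at h3
  have h6 : (Nat.clog 2 n : ℝ) * Real.log 2 ≤ 2 * Real.log n := by linarith
  have h7 : (0 : ℝ) ≤ Nat.clog 2 n := Nat.cast_nonneg _
  nlinarith

theorem real_bound {L T : ℕ} (hT : 2 ≤ T) (hTL : T ≤ L) :
    (2 : ℝ) ^ (3785 * (Nat.clog 2 L * (Nat.sqrt (Nat.clog 2 T) + 1))) ≤
      (L : ℝ) ^ (45420 * Real.sqrt (Real.log T)) := by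
  have hL : 2 ≤ L := hT.trans hTL
  have hL0 : (0 : ℝ) < L := by positivity
  have hlogL : 0 ≤ Real.log L := Real.log_nonneg (by exact_mod_cast (show 1 ≤ L by omega))
  have hlogT : 0 ≤ Real.log T := Real.log_nonneg (by exact_mod_cast (show 1 ≤ T by omega))
  have h1 := clog_le_log hL
  have h2 := clog_le_log hT
  have hh1 : 1 ≤ Nat.clog 2 T := Nat.clog_pos (by norm_num) hT
  have h3 : ((Nat.sqrt (Nat.clog 2 T) + 1 : ℕ) : ℝ) ≤ 4 * Real.sqrt (Real.log T) := by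
    have a1 : (Nat.sqrt (Nat.clog 2 T) : ℝ) ≤ Real.sqrt (Nat.clog 2 T) := Real.nat_sqrt_le_real_sqrt
    have a2 : (1 : ℝ) ≤ Real.sqrt (Nat.clog 2 T) := by
      rw [Real.one_le_sqrt]
      exact_mod_cast hh1
    have a3 : Real.sqrt (Nat.clog 2 T) ≤ 2 * Real.sqrt (Real.log T) := by
      rw [show (2 : ℝ) * Real.sqrt (Real.log T) = Real.sqrt (2 ^ 2 * Real.log T) by
        rw [Real.sqrt_mul (by norm_num), Real.sqrt_sq (by norm_num)]]
      apply Real.sqrt_le_sqrt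
      linarith
    rw [Nat.cast_add, Nat.cast_one]
    linarith
  rw [Real.rpow_def_of_pos hL0, ← Real.rpow_natCast,
    Real.rpow_def_of_pos (by norm_num : (0 : ℝ) < 2)]
  apply Real.exp_le_exp.mpr
  rw [Nat.cast_mul, Nat.cast_mul]
  have h4 : Real.log 2 ≤ 1 := by
    have := Real.log_two_lt_d9
    linarith
  have h5 : 0 ≤ Real.log 2 := Real.log_nonneg (by norm_num)
  have h6 : (0 : ℝ) ≤ ((Nat.sqrt (Nat.clog 2 T) + 1 : ℕ) : ℝ) := Nat.cast_nonneg _
  have h7 : (0 : ℝ) ≤ (Nat.clog 2 L : ℝ) := Nat.cast_nonneg _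
  have h8 : (Nat.clog 2 L : ℝ) * ((Nat.sqrt (Nat.clog 2 T) + 1 : ℕ) : ℝ) ≤
      3 * Real.log L * (4 * Real.sqrt (Real.log T)) := by
    apply mul_le_mul h1 h3 h6
    positivity
  have h9 : 0 ≤ (Nat.clog 2 L : ℝ) * ((Nat.sqrt (Nat.clog 2 T) + 1 : ℕ) : ℝ) := by positivity
  calc Real.log 2 * (((3785 : ℕ) : ℝ) * ((Nat.clog 2 L : ℝ) *
        ((Nat.sqrt (Nat.clog 2 T) + 1 : ℕ) : ℝ)))
      ≤ 1 * (3785 * (3 * Real.log L * (4 * Real.sqrt (Real.log T)))) := by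
        push_cast at h8 h9 ⊢
        apply mul_le_mul h4 _ _ (by norm_num)
        · linarith
        · positivity
    _ = Real.log L * (45420 * Real.sqrt (Real.log T)) := by ring

/-- Deterministic pushdown programs with at most `L` nodes, run for at most `T ≤ L` steps, have
nondeterministic branching programs with `L ^ O(sqrt (log T))` vertices and `T ^ O(1)` queries. -/
theorem push_sqrt {ι α : Type} (P : PushProg ι α) (T L : ℕ) (hT : 2 ≤ T) (hTL : T ≤ L)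
    (hS : Fintype.card P.S ≤ L) :
    ∃ B : LetterNBP ι α, (Fintype.card B.V : ℝ) ≤ (L : ℝ) ^ (45420 * Real.sqrt (Real.log T)) ∧
      B.QueriesAtMost (T ^ 70) ∧ ∀ x, B.Accepts x ↔ P.AcceptsIn x T := by
  obtain ⟨b, D, e, p, h1, h2, h3, h4, h5⟩ := nat_bounds L T (Fintype.card P.S) hT hTL hS
  obtain ⟨B, hB, hQ, hacc⟩ := push_explicitS P b b D e p T h1 h2 h3
  refine ⟨B, ?_, fun x T' v h => (hQ x T' v h).trans h5, hacc⟩
  refine le_trans ?_ (real_bound hT hTL)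
  exact_mod_cast hB.trans h4

end SQ

end Pool.Agent.MP_6216ea_lc
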