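import Pool.Agent.Lib.MP_6216ea_lc.KASpec
import Pool.Agent.Lib.MP_6216ea_lc.KANum
import Pool.Agent.Lib.MP_6216ea_lc.SQThmU
import Pool.Agent.Lib.MP_6216ea_lc.DCDpda

/-! Deterministic context-free languages in unambiguous size `n ^ O(sqrt (log n))` with
`n ^ (1 + ε)` queries. -/

set_option autoImplicit false

namespace Pool.Agent.MP_6216ea_lc

namespace KA

open Prot QA PushProg

/-- Explicit form for pushdown programs, also for the complement. -/
theorem push_explicit {ι α : Type} (P : PushProg ι α) {K : ℕ} (hK : 1 ≤ K) (b D e p t : ℕ)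
    (hb : t ≤ K ^ (b * b))
    (hD : 2 * (Fintype.card P.S * (K ^ (b * b) + 1)) ^ 2 ≤ e ^ D)
    (hp : (4 * (4 * K + 1) + 1) * (D * e ^ 2) < p) (y : Bool) :
    ∃ B : LetterNBP ι α, Fintype.card B.V ≤ 6 * (2 * (4 * K + 1) + 2) ^ ((b + 1) * b) *
        ((2 * (Fintype.card P.S * (K ^ (b * b) + 1)) ^ 2) ^ (2 * b + 1) *
          p ^ ((b + 1) * ((4 * K + 1) + 1) * (b + (D + 1)))) ∧
      B.Unambiguous ∧ B.QueriesAtMost (6 * (2 * (4 * K + 1) + 2) ^ ((b + 1) * b)) ∧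
      ∀ x, B.Accepts x ↔ (P.AcceptsIn x t ↔ y = true) := by
  classical
  obtain ⟨T, hT⟩ : ∃ T, T = K ^ (b * b) := ⟨_, rfl⟩
  rw [← hT] at hb hD ⊢
  have hX : Fintype.card (QA P.S T) = 2 * (Fintype.card P.S * (T + 1)) ^ 2 := QA.card
  have hcard : Fintype.card (QA P.S T) ≤ Fintype.card (Fin D → Fin e) := by
    rw [Fintype.card_fun, Fintype.card_fin, Fintype.card_fin, hX]
    exact hD
  obtain ⟨code⟩ := Function.Embedding.nonempty_of_card_le hcard
  have h := SQ.thmSU (ι := ι) (α := α) (X := QA P.S T)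
    (QA.ask P.start 0 P.start 0) D e p (4 * K + 1) code code.injective hp
    P.absorb.qpos P.absorb.qbas (fun x i => lev P.absorb K T x i)
    (fun x q => rfl) (fun i q => splitK K (K ^ i) q) (fun i q => hgt_splitK _ _ _)
    (fun x i q => rfl) (fun a => P.absorb.QAcc a ↔ y = true) (QA.ask P.start 0 P.start t) b b
  obtain ⟨B, hB, hU, hQ, hacc⟩ := h
  rw [hX] at hB
  refine ⟨B, hB, hU, hQ, fun x => ?_⟩
  rw [hacc x]
  exact (iff_congr (accepts_lev P hK x (b * b) t (by rw [hT]) (by rw [← hT]; exact hb))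
    Iff.rfl).symm

/-- Deterministic pushdown programs with at most `L` nodes, run for at most `T ≤ L` steps, have
unambiguous branching programs with `L ^ O(sqrt (log T))` vertices and `O(T ^ (1 + ε))` queries,
for acceptance (`y = true`) and for its complement (`y = false`). -/
theorem push_sqrt (ε : ℝ) (hε : 0 < ε) : ∃ C : ℝ, 0 < C ∧ ∀ {ι α : Type} (P : PushProg ι α)
    (T L : ℕ), 2 ≤ T → T ≤ L → Fintype.card P.S ≤ L → ∀ y : Bool, ∃ (B : LetterNBP ι α) (q : ℕ),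
      (Fintype.card B.V : ℝ) ≤ (L : ℝ) ^ (C * Real.sqrt (Real.log T)) ∧
      B.Unambiguous ∧ B.QueriesAtMost q ∧ (q : ℝ) ≤ C * (T : ℝ) ^ (1 + ε) ∧
      ∀ x, B.Accepts x ↔ (P.AcceptsIn x T ↔ y = true) := by
  obtain ⟨K, hK, C₁, hC₁, h₁⟩ := queries ε hε
  obtain ⟨C₂, hC₂, h₂⟩ := size K hK
  refine ⟨C₁ + C₂, by positivity, ?_⟩
  intro ι α P T L hT hTL hS y
  obtain ⟨D, e, p, hD, hp, hsize⟩ := h₂ L T (Fintype.card P.S) hT hTL hS
  obtain ⟨B, hB, hU, hQ, hacc⟩ := push_explicit P (by omega) (blk K T) D e p T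
    (le_pow_blk hK T) hD hp y
  have hL1 : (1 : ℝ) ≤ L := by exact_mod_cast (show 1 ≤ L by omega)
  refine ⟨B, _, ?_, hU, hQ, ?_, hacc⟩
  · refine (Nat.cast_le.2 hB).trans (hsize.trans ?_)
    apply Real.rpow_le_rpow_of_exponent_le hL1
    apply mul_le_mul_of_nonneg_right _ (Real.sqrt_nonneg _)
    linarith
  · have h3 := h₁ T hT
    have h4 : ((6 * (2 * (4 * K + 1) + 2) ^ ((blk K T + 1) * blk K T) : ℕ) : ℝ) =
        6 * (8 * K + 4) ^ ((blk K T + 1) * blk K T) := by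
      push_cast
      ring
    rw [h4]
    refine h3.trans ?_
    have h5 : (0 : ℝ) ≤ (T : ℝ) ^ (1 + ε) := by positivity
    nlinarith

/-- The words of length `n` of a deterministic context-free language, and the words of length `n`
which are not in it, have unambiguous branching programs with `n ^ O(sqrt (log n))` vertices which
make `O(n ^ (1 + ε))` queries. -/
theorem dpda_sqrt {α : Type} [Fintype α] (M : DPDA α) (ε : ℝ) (hε : 0 < ε) : ∃ C : ℝ,
    ∀ n : ℕ, 2 ≤ n → ∀ y : Bool, ∃ (B : LetterNBP (Fin n) α) (q : ℕ),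
      (Fintype.card B.V : ℝ) ≤ (n : ℝ) ^ (C * Real.sqrt (Real.log n)) ∧
        B.Unambiguous ∧ B.QueriesAtMost q ∧ (q : ℝ) ≤ C * (n : ℝ) ^ (1 + ε) ∧
        ∀ x, B.Accepts x ↔ (List.ofFn x ∈ M.language ↔ y = true) := by
  obtain ⟨a, h⟩ := dpda_prog M
  obtain ⟨C, hC, hpush⟩ := push_sqrt ε hε
  obtain ⟨E, hE⟩ : ∃ E, E = a + 2 := ⟨_, rfl⟩
  refine ⟨C * E * Real.sqrt E + C * (2 * a : ℝ) ^ (1 + ε), fun n hn y => ?_⟩
  obtain ⟨P, hP, hacc⟩ := h n
  have h0 : n + 1 ≤ n ^ 2 := by nlinarith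
  have h1 : a * (n + 1) ≤ n ^ E := by
    have h3 : a ≤ n ^ a := (Nat.lt_pow_self (by omega)).le
    calc a * (n + 1) ≤ n ^ a * n ^ 2 := by gcongr
      _ = n ^ E := by rw [← pow_add, hE]
  have ha1 : 1 ≤ a := by
    rcases Nat.eq_zero_or_pos a with h | h
    · subst h
      have h4 : 0 < Fintype.card P.S := Fintype.card_pos_iff.2 ⟨P.start⟩
      omega
    · exact h
  have h2 : 2 ≤ a * (n + 1) := by
    calc 2 ≤ 1 * (n + 1) := by omega
      _ ≤ a * (n + 1) := Nat.mul_le_mul_right _ ha1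
  obtain ⟨B, q, hB, hU, hQ, hq, hB'⟩ := hpush P (a * (n + 1)) (n ^ E) h2 h1 (hP.trans h1) y
  have hn' : (2 : ℝ) ≤ n := by exact_mod_cast hn
  have hn0 : (0 : ℝ) < n := by linarith
  have ha0 : (1 : ℝ) ≤ a := by exact_mod_cast ha1
  have hE0 : (0 : ℝ) ≤ E := Nat.cast_nonneg E
  have hsE : 0 ≤ Real.sqrt E := Real.sqrt_nonneg _
  have hsn : 0 ≤ Real.sqrt (Real.log n) := Real.sqrt_nonneg _
  have h2a : (0 : ℝ) ≤ (2 * a : ℝ) ^ (1 + ε) := by positivity
  have hnε : (0 : ℝ) ≤ (n : ℝ) ^ (1 + ε) := by positivity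
  refine ⟨B, q, ?_, hU, hQ, ?_, fun x => ?_⟩
  · refine hB.trans ?_
    rw [Nat.cast_pow, ← Real.rpow_natCast (n : ℝ) E, ← Real.rpow_mul hn0.le]
    apply Real.rpow_le_rpow_of_exponent_le (by linarith)
    have h5 : Real.log ((a * (n + 1) : ℕ) : ℝ) ≤ E * Real.log n := by
      rw [← Real.log_pow]
      apply Real.log_le_log
      · exact_mod_cast (show 0 < a * (n + 1) by omega)
      · exact_mod_cast h1
    have h6 : Real.sqrt (Real.log ((a * (n + 1) : ℕ) : ℝ)) ≤ Real.sqrt E * Real.sqrt (Real.log n) := by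
      rw [← Real.sqrt_mul hE0]
      exact Real.sqrt_le_sqrt h5
    calc (E : ℝ) * (C * Real.sqrt (Real.log ((a * (n + 1) : ℕ) : ℝ)))
        ≤ E * (C * (Real.sqrt E * Real.sqrt (Real.log n))) := by gcongr
      _ = (C * E * Real.sqrt E) * Real.sqrt (Real.log n) := by ring
      _ ≤ (C * E * Real.sqrt E + C * (2 * a : ℝ) ^ (1 + ε)) * Real.sqrt (Real.log n) := by
        apply mul_le_mul_of_nonneg_right _ hsn
        have : 0 ≤ C * (2 * a : ℝ) ^ (1 + ε) := by positivity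
        linarith
  · refine hq.trans ?_
    have h7 : ((a * (n + 1) : ℕ) : ℝ) ≤ 2 * a * n := by
      push_cast
      nlinarith
    calc C * (((a * (n + 1) : ℕ) : ℝ)) ^ (1 + ε) ≤ C * (2 * a * n : ℝ) ^ (1 + ε) := by
          apply mul_le_mul_of_nonneg_left _ hC.le
          exact Real.rpow_le_rpow (by positivity) h7 (by linarith)
      _ = C * (2 * a : ℝ) ^ (1 + ε) * (n : ℝ) ^ (1 + ε) := by
          rw [Real.mul_rpow (by positivity) hn0.le]
          ring
      _ ≤ (C * E * Real.sqrt E + C * (2 * a : ℝ) ^ (1 + ε)) * (n : ℝ) ^ (1 + ε) := by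
          apply mul_le_mul_of_nonneg_right _ hnε
          have : 0 ≤ C * E * Real.sqrt E := by positivity
          linarith
  · rw [hB' x, hacc x]

end KA

end Pool.Agent.MP_6216ea_lc
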