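import Pool.Agent.Lib.MP_6216ea_lc.KASplit
import Pool.Agent.Lib.MP_6216ea_lc.DCBase

/-! Correctness of the `K`-ary time-splitting protocol. -/

set_option autoImplicit false

namespace Pool.Agent.MP_6216ea_lc

namespace KA

open Prot QA PushProg

variable {ι α : Type} {P : PushProg ι α} {x : ι → α} {T : ℕ}

/-- The stack `y` consists of the pieces `U` (top first), each of length at most `k`. -/
def Up (P : PushProg ι α) (x : ι → α) (k : ℕ) : List (P.S × ℕ) → List P.Γ → Prop
  | [], y => y = []
  | (u, a) :: U, y => a ≤ k ∧ ∃ s₁ z₁ yl, y = z₁ ++ yl ∧ P.conf x a u [] = some (s₁, z₁) ∧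
      Up P x k U yl

/-- The same for the pieces of the stack of `(c, t)`; the third component is the time. -/
def Bs (P : PushProg ι α) (x : ι → α) (k : ℕ) (c : P.S) (t : ℕ) :
    List (P.S × ℕ × ℕ) → List P.Γ → Prop
  | [], y => y = []
  | (u, a, v) :: B, y => a ≤ k ∧ v + a ≤ t ∧ ∃ s₁ z₁ yl, y = z₁ ++ yl ∧
      P.conf x a u [] = some (s₁, z₁) ∧ P.conf x v c [] = some (u, yl) ∧ Bs P x k c t B yl

theorem go2_spec {A : QA P.S T → QA P.S T} {k : ℕ} (hA : Good P x A k) {c s : P.S} {t r : ℕ}
    {z : List P.Γ} (ht : t ≤ T) (hr : r ≤ T) (n : ℕ) :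
    ∀ (q : ℕ) (w : P.S) (τ : ℕ) (U : List (P.S × ℕ)) (B : List (P.S × ℕ × ℕ)) (cur : P.S)
      (rem : ℕ) (yu zb : List P.Γ), τ + rem ≤ r → rem ≤ k * q →
      U.length + B.length + 2 * q ≤ n → Up P x k U yu → Bs P x k c t B zb →
      P.conf x τ s z = some (w, zb) → P.conf x (r - rem - τ) w [] = some (cur, yu) →
      (B = [] → U = [] ∧ P.IsPop cur ∧ 1 ≤ rem) →
      P.Fin' x c t s r z (eval A (go2 k r n w τ U B cur rem)) := by
  have hend : ∀ (w : P.S) (τ : ℕ) (U : List (P.S × ℕ)) (B : List (P.S × ℕ × ℕ)) (cur : P.S)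
      (yu zb : List P.Γ), τ ≤ r → Up P x k U yu → Bs P x k c t B zb →
      P.conf x τ s z = some (w, zb) → P.conf x (r - τ) w [] = some (cur, yu) → B ≠ [] →
      P.Fin' x c t s r z (fin r w τ B cur : QA P.S T) := by
    intro w τ U B cur yu zb hτ hU hB hw hc hne
    match B, hne with
    | (u, a, v) :: B', _ =>
      obtain ⟨ha, hv, s₁, z₁, yl, h1, h2, h3, h4⟩ := hB
      refine fin_ins hv (Nat.sub_le _ _) ht hr (s₁ := s₁) (z' := zb) (z'' := yu) ?_ ?_ hc
      · change P.conf x (v + a) c [] = _
        rw [P.conf_add' x h3]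
        have := P.conf_frame x h2 yl
        rw [List.nil_append] at this
        rw [this, h1]
      · rw [show r - (r - τ) = τ by omega]
        exact hw
  have hexi : ∀ (w : P.S) (τ : ℕ) (cur : P.S) (rem : ℕ) (yu zb : List P.Γ), τ + rem ≤ r →
      Up P x k [] yu → Bs P x k c t [] zb → P.conf x τ s z = some (w, zb) →
      P.conf x (r - rem - τ) w [] = some (cur, yu) → P.IsPop cur → 1 ≤ rem →
      P.Fin' x c t s r z (exi cur rem : QA P.S T) := by
    intro w τ cur rem yu zb hτ hU hB hw hc hp h1
    have hv : (clip T rem).val = rem := val_clip (by omega)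
    have hU' : yu = [] := hU
    have hB' : zb = [] := hB
    subst hU' hB'
    refine Or.inl ⟨rfl, ?_, ?_, ?_, hp⟩
    · change 1 ≤ (clip T rem).val
      rw [hv]; exact h1
    · change (clip T rem).val ≤ r
      rw [hv]; omega
    · change P.conf x (r - (clip T rem).val) s z = some (cur, [])
      rw [hv, show r - rem = τ + (r - rem - τ) by omega, P.conf_add' x hw]
      exact hc
  induction n with
  | zero =>
    intro q w τ U B cur rem yu zb hτ hq hn hU hB hw hc hne
    have hq0 : q = 0 := by omega
    subst hq0
    have hrem : rem = 0 := by omega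
    subst hrem
    unfold go2
    rw [if_pos rfl]
    refine hend w τ U B cur yu zb (by omega) hU hB hw (by simpa using hc) ?_
    intro h
    have := (hne h).2.2
    omega
  | succ n ih =>
    intro q w τ U B cur rem yu zb hτ hq hn hU hB hw hc hne
    unfold go2
    by_cases hrem : rem = 0
    · subst hrem
      rw [if_pos rfl]
      refine hend w τ U B cur yu zb (by omega) hU hB hw (by simpa using hc) ?_
      intro h
      have := (hne h).2.2
      omega
    rw [if_neg hrem]
    have hk : 0 < k := by
      rcases Nat.eq_zero_or_pos k with h | h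
      · subst h; omega
      · exact h
    have hq1 : 1 ≤ q := by
      rcases Nat.eq_zero_or_pos q with h | h
      · subst h; omega
      · exact h
    obtain ⟨q, rfl⟩ : ∃ q', q = q' + 1 := ⟨q - 1, by omega⟩
    obtain ⟨m, hm⟩ : ∃ m, m = min rem k := ⟨_, rfl⟩
    have hm1 : m ≤ rem := by omega
    have hm2 : m ≤ k := by omega
    have hm3 : rem - m ≤ k * q := by
      have : k * (q + 1) = k * q + k := by ring
      omega
    match U, B, hn, hU, hB, hne with
    | (u, a) :: U', B, hn, hU, hB, hne =>
      obtain ⟨ha, s₁, z₁, yl, h1, h2, h3⟩ := hU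
      have hD := hA u a cur m s₁ z₁ ha hm2 h2
      simp only [eval, ← hm]
      generalize A (ask u a cur m) = D at hD ⊢
      rcases bool_cases D.b with hb | hb
      · rw [if_pos hb]
        obtain ⟨e1, e2, e3⟩ := hD.exit hb yl
        refine ih (q + 1) w τ U' B D.s (rem - m + D.r.val) yl zb (by omega) (by omega) ?_ h3 hB hw
          ?_ ?_
        · simp only [List.length_cons] at hn; omega
        · rw [show r - (rem - m + D.r.val) - τ = (r - rem - τ) + (m - D.r.val) by omega,
            P.conf_add' x hc, h1]
          exact e3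
        · intro h
          have := (hne h).1
          cases this
      · rw [if_neg (by simp [hb])]
        obtain ⟨d1, d2, s₃, z', z'', d3, d4, d5⟩ := hD.inside hb
        refine ih q w τ ((D.s, D.r.val) :: (u, D.t.val) :: U') B D.c (rem - m)
          (z'' ++ (z' ++ yl)) zb (by omega) hm3 ?_ ?_ hB hw ?_ ?_
        · simp only [List.length_cons] at hn ⊢; omega
        · exact ⟨by omega, _, z'', _, rfl, d5, by omega, _, z', yl, rfl, d3, h3⟩
        · rw [show r - (rem - m) - τ = (r - rem - τ) + (m - D.r.val) + D.r.val by omega]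
          have h4 : P.conf x (r - rem - τ + (m - D.r.val)) w [] = some (D.s, z' ++ yl) := by
            rw [P.conf_add' x hc, h1]
            exact P.conf_frame x d4 yl
          rw [P.conf_add' x h4]
          simpa using P.conf_frame x d5 (z' ++ yl)
        · intro h
          have := (hne h).1
          cases this
    | [], (u, a, v) :: B', hn, hU, hB, hne =>
      obtain ⟨ha, hv, s₁, z₁, yl, h1, h2, h3, h4⟩ := hB
      have hU' : yu = [] := hU
      subst hU'
      have hcz : P.conf x (r - rem) s z = some (cur, zb) := by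
        rw [show r - rem = τ + (r - rem - τ) by omega, P.conf_add' x hw]
        simpa using P.conf_frame x hc zb
      have hD := hA u a cur m s₁ z₁ ha hm2 h2
      simp only [eval, ← hm]
      generalize A (ask u a cur m) = D at hD ⊢
      rcases bool_cases D.b with hb | hb
      · rw [if_pos hb]
        obtain ⟨e1, e2, e3⟩ := hD.exit hb yl
        have hpop : P.IsPop D.s := by
          rcases hD with ⟨_, _, _, _, h⟩ | ⟨hb', _⟩
          · exact h
          · rw [hb] at hb'; cases hb'
        refine ih (q + 1) D.s (r - (rem - m + D.r.val)) [] B' D.s (rem - m + D.r.val) [] yl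
          (by omega) (by omega) ?_ rfl h4 ?_ ?_ ?_
        · simp only [List.length_cons, List.length_nil] at hn ⊢; omega
        · rw [show r - (rem - m + D.r.val) = (r - rem) + (m - D.r.val) by omega,
            P.conf_add' x hcz, h1]
          exact e3
        · rw [Nat.sub_self]; rfl
        · intro h
          exact ⟨rfl, hpop, by omega⟩
      · rw [if_neg (by simp [hb])]
        obtain ⟨d1, d2, s₃, z', z'', d3, d4, d5⟩ := hD.inside hb
        refine ih q D.s (r - (rem - m + D.r.val)) [(D.s, D.r.val)] ((u, D.t.val, v) :: B') D.c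
          (rem - m) z'' (z' ++ yl) (by omega) hm3 ?_ ?_ ?_ ?_ ?_ ?_
        · simp only [List.length_cons, List.length_nil] at hn ⊢; omega
        · exact ⟨by omega, _, z'', [], by simp, d5, rfl⟩
        · exact ⟨by omega, by omega, _, z', yl, rfl, d3, h3, h4⟩
        · rw [show r - (rem - m + D.r.val) = (r - rem) + (m - D.r.val) by omega,
            P.conf_add' x hcz, h1]
          exact P.conf_frame x d4 yl
        · rw [show r - (rem - m) - (r - (rem - m + D.r.val)) = D.r.val by omega]
          exact d5
        · intro h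
          cases h
    | [], [], hn, hU, hB, hne =>
      exact hexi w τ cur rem yu zb hτ hU hB hw hc (hne rfl).2.1 (hne rfl).2.2

theorem go1_spec {A : QA P.S T → QA P.S T} {k : ℕ} (hA : Good P x A k) {c s s₀ : P.S} {t r K : ℕ}
    {z : List P.Γ} (ht : t ≤ T) (hr : r ≤ T) (hrK : r ≤ k * K)
    (hz : P.conf x t c [] = some (s₀, z)) (n : ℕ) :
    ∀ (q : ℕ) (B : List (P.S × ℕ × ℕ)) (cur : P.S) (rem : ℕ) (zb : List P.Γ), rem ≤ t →
      rem ≤ k * q → B.length + 2 * q + 2 * K ≤ n → Bs P x k c t B zb →
      P.conf x (t - rem) c [] = some (cur, zb) → B ≠ [] →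
      P.Fin' x c t s r z (eval A (go1 k t r s n B cur rem)) := by
  have hend : ∀ (n : ℕ) (B : List (P.S × ℕ × ℕ)) (cur : P.S) (zb : List P.Γ),
      B.length + 2 * K ≤ n → Bs P x k c t B zb → P.conf x t c [] = some (cur, zb) → B ≠ [] →
      P.Fin' x c t s r z (eval A (go2 k r n s 0 [] B s r)) := by
    intro n B cur zb hn hB hc hne
    rw [hz] at hc
    simp only [Option.some.injEq, Prod.mk.injEq] at hc
    obtain ⟨_, rfl⟩ := hc
    refine go2_spec hA ht hr n K s 0 [] B s r [] z (by omega) hrK (by simpa using hn) rfl hB rfl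
      ?_ (fun h => absurd h hne)
    rw [show r - r - 0 = 0 by omega]; rfl
  induction n with
  | zero =>
    intro q B cur rem zb hrt hq hn hB hc hne
    exfalso
    cases B with
    | nil => exact hne rfl
    | cons b B => simp only [List.length_cons] at hn; omega
  | succ n ih =>
    intro q B cur rem zb hrt hq hn hB hc hne
    unfold go1
    by_cases hrem : rem = 0
    · subst hrem
      rw [if_pos rfl]
      exact hend (n + 1) B cur zb (by omega) hB (by simpa using hc) hne
    rw [if_neg hrem]
    have hk : 0 < k := by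
      rcases Nat.eq_zero_or_pos k with h | h
      · subst h; omega
      · exact h
    have hq1 : 1 ≤ q := by
      rcases Nat.eq_zero_or_pos q with h | h
      · subst h; omega
      · exact h
    obtain ⟨q, rfl⟩ : ∃ q', q = q' + 1 := ⟨q - 1, by omega⟩
    obtain ⟨m, hm⟩ : ∃ m, m = min rem k := ⟨_, rfl⟩
    have hm1 : m ≤ rem := by omega
    have hm2 : m ≤ k := by omega
    have hm3 : rem - m ≤ k * q := by
      have : k * (q + 1) = k * q + k := by ring
      omega
    match B, hn, hB, hne with
    | [], hn, hB, hne => exact absurd rfl hne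
    | (u, a, v) :: B', hn, hB, hne =>
      obtain ⟨ha, hv, s₁, z₁, yl, h1, h2, h3, h4⟩ := hB
      have hD := hA u a cur m s₁ z₁ ha hm2 h2
      simp only [eval, ← hm]
      generalize A (ask u a cur m) = D at hD ⊢
      rcases bool_cases D.b with hb | hb
      · rw [if_pos hb]
        obtain ⟨e1, e2, e3⟩ := hD.exit hb yl
        have hpop : P.IsPop D.s := by
          rcases hD with ⟨_, _, _, _, h⟩ | ⟨hb', _⟩
          · exact h
          · rw [hb] at hb'; cases hb'
        have hc' : P.conf x (t - (rem - m + D.r.val)) c [] = some (D.s, yl) := by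
          rw [show t - (rem - m + D.r.val) = (t - rem) + (m - D.r.val) by omega,
            P.conf_add' x hc, h1]
          exact e3
        refine ih (q + 1) B' D.s (rem - m + D.r.val) yl (by omega) (by omega) ?_ h4 hc' ?_
        · simp only [List.length_cons] at hn; omega
        · rintro rfl
          have hy : yl = [] := h4
          subst hy
          have := P.conf_add' x hc' (rem - m + D.r.val)
          rw [show t - (rem - m + D.r.val) + (rem - m + D.r.val) = t by omega, hz,
            P.conf_pop x hpop (by omega)] at this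
          cases this
      · rw [if_neg (by simp [hb])]
        obtain ⟨d1, d2, s₃, z', z'', d3, d4, d5⟩ := hD.inside hb
        have hc1 : P.conf x (t - (rem - m + D.r.val)) c [] = some (D.s, z' ++ yl) := by
          rw [show t - (rem - m + D.r.val) = (t - rem) + (m - D.r.val) by omega,
            P.conf_add' x hc, h1]
          exact P.conf_frame x d4 yl
        refine ih q ((D.s, D.r.val, t - (rem - m + D.r.val)) :: (u, D.t.val, v) :: B') D.c (rem - m)
          (z'' ++ (z' ++ yl)) (by omega) hm3 ?_ ?_ ?_ (by simp)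
        · simp only [List.length_cons] at hn ⊢; omega
        · exact ⟨by omega, by omega, _, z'', _, rfl, d5, hc1, by omega, by omega, _, z', yl, rfl,
            d3, h3, h4⟩
        · rw [show t - (rem - m) = t - (rem - m + D.r.val) + D.r.val by omega, P.conf_add' x hc1]
          simpa using P.conf_frame x d5 (z' ++ yl)

theorem splitK_good {A : QA P.S T → QA P.S T} {K k : ℕ} (hA : Good P x A k) (hT : K * k ≤ T) :
    Good P x (fun q => eval A (splitK K k q)) (K * k) := by
  intro c t s r s₀ z ht hr hz
  have hqt : (ask c t s r : QA P.S T).t.val = t := val_clip (by omega)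
  have hqr : (ask c t s r : QA P.S T).r.val = r := val_clip (by omega)
  have hqc : (ask c t s r : QA P.S T).c = c := rfl
  have hqs : (ask c t s r : QA P.S T).s = s := rfl
  change P.Fin' x c t s r z (eval A (splitK K k (ask c t s r)))
  unfold splitK
  rw [hqt, hqr, hqc, hqs]
  refine go1_spec hA (by omega) (by omega) (by rw [mul_comm]; exact hr) hz (4 * K + 1) K
    [(c, 0, 0)] c t [] le_rfl (by rw [mul_comm]; exact ht) ?_ ?_ ?_ (by simp)
  · simp only [List.length_cons, List.length_nil]; omega
  · exact ⟨Nat.zero_le _, Nat.zero_le _, c, [], [], rfl, rfl, rfl, rfl⟩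
  · rw [Nat.sub_self]; rfl

/-- The answers for times up to `K ^ j`. -/
def lev (P : PushProg ι α) (K T : ℕ) (x : ι → α) : ℕ → QA P.S T → QA P.S T
  | 0 => fun q => P.qbas q ((P.qpos q).map x)
  | j + 1 => fun q => eval (lev P K T x j) (splitK K (K ^ j) q)

theorem lev_good (P : PushProg ι α) {K : ℕ} (hK : 1 ≤ K) (x : ι → α) (j : ℕ) (hT : K ^ j ≤ T) :
    Good P x (lev P K T x j) (K ^ j) := by
  induction j with
  | zero => exact P.base_good x (by simpa using hT)
  | succ j ih =>
    rw [pow_succ, mul_comm] at hT ⊢
    refine splitK_good (ih ?_) hT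
    exact le_trans (Nat.le_mul_of_pos_left _ hK) hT

theorem accepts_lev (P : PushProg ι α) {K : ℕ} (hK : 1 ≤ K) (x : ι → α) (j t : ℕ)
    (hT : K ^ j ≤ T) (ht : t ≤ K ^ j) :
    P.AcceptsIn x t ↔
      P.absorb.QAcc (lev P.absorb K T x j (ask P.absorb.start 0 P.absorb.start t)) := by
  unfold AcceptsIn
  rw [P.absorb_conf x t P.start []]
  have h := lev_good P.absorb hK x j hT P.absorb.start 0 P.absorb.start t P.absorb.start []
    (Nat.zero_le _) ht rfl
  generalize lev P.absorb K T x j (ask P.absorb.start 0 P.absorb.start t) = a at h ⊢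
  constructor
  · rintro ⟨s', z', h1, h2⟩
    have hb : a.b = false := by
      rcases bool_cases a.b with hb | hb
      · have h3 := h.none hb
        have h1 : P.absorb.conf x t P.absorb.start [] = some (s', z') := h1
        rw [h1] at h3
        cases h3
      · exact hb
    refine ⟨hb, ?_⟩
    obtain ⟨z₃, h3⟩ := h.last hb
    have h1 : P.absorb.conf x t P.absorb.start [] = some (s', z') := h1
    rw [h1] at h3
    simp only [Option.some.injEq, Prod.mk.injEq] at h3
    rw [← h3.1]
    exact h2
  · rintro ⟨hb, ha⟩
    obtain ⟨z₃, h3⟩ := h.last hb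
    exact ⟨a.c, z₃, h3, ha⟩

end KA

end Pool.Agent.MP_6216ea_lc
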