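import Pool.Agent.Lib.MP_6216ea_lc.DCSplitS

/-! The `K`-ary time-splitting protocol for pushdown programs. -/

set_option autoImplicit false

namespace Pool.Agent.MP_6216ea_lc

namespace KA

open Prot QA

variable {S : Type} {T : ℕ}

/-- The result of the second phase: waterline node `w`, reached after `τ` of the `r` steps, the
stack there is that of the pieces `B`, final node `cur`. -/
def fin (r : ℕ) (w : S) (τ : ℕ) (B : List (S × ℕ × ℕ)) (cur : S) : QA S T :=
  match B with
  | [] => exi cur 1
  | p :: _ => ins (p.2.2 + p.2.1) w (r - τ) cur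

/-- The second phase: `rem` of the `r` steps are left, the node is `cur`, the stack consists of the
pieces `U` above the waterline and the pieces `B` of the question. -/
def go2 (k r : ℕ) : ℕ → S → ℕ → List (S × ℕ) → List (S × ℕ × ℕ) → S → ℕ → Prot (QA S T)
  | 0, w, τ, _, B, cur, rem => if rem = 0 then ret (fin r w τ B cur) else ret (exi cur rem)
  | n + 1, w, τ, U, B, cur, rem =>
    if rem = 0 then ret (fin r w τ B cur) else
    match U, B with
    | (u, a) :: U', B => call (ask u a cur (min rem k)) fun D =>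
        if D.b then go2 k r n w τ U' B D.s (rem - min rem k + D.r.val)
        else go2 k r n w τ ((D.s, D.r.val) :: (u, D.t.val) :: U') B D.c (rem - min rem k)
    | [], (u, a, v) :: B' => call (ask u a cur (min rem k)) fun D =>
        if D.b then go2 k r n D.s (r - (rem - min rem k + D.r.val)) [] B' D.s
          (rem - min rem k + D.r.val)
        else go2 k r n D.s (r - (rem - min rem k + D.r.val)) [(D.s, D.r.val)]
          ((u, D.t.val, v) :: B') D.c (rem - min rem k)
    | [], [] => ret (exi cur rem)

/-- The first phase: the stack of `(c, t)`, `rem` of the `t` steps are left. -/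
def go1 (k t r : ℕ) (s : S) : ℕ → List (S × ℕ × ℕ) → S → ℕ → Prot (QA S T)
  | 0, B, _, _ => go2 k r 0 s 0 [] B s r
  | n + 1, B, cur, rem =>
    if rem = 0 then go2 k r (n + 1) s 0 [] B s r else
    match B with
    | (u, a, v) :: B' => call (ask u a cur (min rem k)) fun D =>
        if D.b then go1 k t r s n B' D.s (rem - min rem k + D.r.val)
        else go1 k t r s n ((D.s, D.r.val, t - (rem - min rem k + D.r.val)) :: (u, D.t.val, v) :: B')
          D.c (rem - min rem k)
    | [] => ret (exi cur rem)

/-- The protocol for times up to `K k`, with questions for times up to `k`. -/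
def splitK (K k : ℕ) (q : QA S T) : Prot (QA S T) :=
  go1 k q.t.val q.r.val q.s (4 * K + 1) [(q.c, 0, 0)] q.c q.t.val

theorem hgt_go2 (k r n : ℕ) (w : S) (τ : ℕ) (U : List (S × ℕ)) (B : List (S × ℕ × ℕ)) (cur : S)
    (rem : ℕ) : Hgt n (go2 k r n w τ U B cur rem : Prot (QA S T)) := by
  induction n generalizing w τ U B cur rem with
  | zero => exact hgt_ite _ _ (hgt_ret _ _) (hgt_ret _ _)
  | succ n ih =>
    refine hgt_ite _ _ (hgt_ret _ _) ?_
    match U, B with
    | (u, a) :: U', B => exact hgt_call _ _ _ fun _ => hgt_ite _ _ (ih _ _ _ _ _ _) (ih _ _ _ _ _ _)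
    | [], (u, a, v) :: B' =>
      exact hgt_call _ _ _ fun _ => hgt_ite _ _ (ih _ _ _ _ _ _) (ih _ _ _ _ _ _)
    | [], [] => exact hgt_ret _ _

theorem hgt_go1 (k t r : ℕ) (s : S) (n : ℕ) (B : List (S × ℕ × ℕ)) (cur : S) (rem : ℕ) :
    Hgt n (go1 k t r s n B cur rem : Prot (QA S T)) := by
  induction n generalizing B cur rem with
  | zero => exact hgt_go2 _ _ _ _ _ _ _ _ _
  | succ n ih =>
    refine hgt_ite _ _ (hgt_go2 _ _ _ _ _ _ _ _ _) ?_
    match B with
    | (u, a, v) :: B' => exact hgt_call _ _ _ fun _ => hgt_ite _ _ (ih _ _ _) (ih _ _ _)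
    | [] => exact hgt_ret _ _

theorem hgt_splitK (K k : ℕ) (q : QA S T) : Hgt (4 * K + 1) (splitK K k q) :=
  hgt_go1 _ _ _ _ _ _ _ _

end KA

end Pool.Agent.MP_6216ea_lc
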