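import Mathlib
import Pool.Agent.Lib.MP_6216ea_lc.Defs

/-!
# Thrifty nondeterministic branching programs for tree evaluation, cell fingerprints

As in `Catalytic.lean` (helper92), the guessed values of the nodes are held in superposition on a
memory consisting of four elements of an abelian group `G`. Here the fingerprint stored when a node
is opened is an arbitrary function `φ c u` of the true value `c` and of the memory block `u`, which
is compared with `ψ c (u + t c')` when the node is closed; all that is needed is that the two agree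
exactly when the guess `c'` is `c`.
-/

namespace Pool.Agent.Lib.MP_6216ea_lc.TSCat

open Pool.Agent.Lib.MP_6216ea_lc

/-- the roles of a pass over a node -/
inductive Role where
  | root : Role
  | opn : Role
  | cls : Role

/-- the memory: four blocks, and two registers for each level -/
abbrev Mem (n : ℕ) (G H : Type) : Type := (Bool → Bool → G) × (Fin (n + 1) → Bool → H)

/-- parity of the level of a node -/
def par (x : List Bool) : Bool := decide (x.length % 2 = 1)

/-- side of a node -/
def sd (x : List Bool) : Bool := x.headD false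

/-- the register level of a node -/
def lv (n : ℕ) (x : List Bool) : Fin (n + 1) := Fin.ofNat (n + 1) x.length

theorem par_cons (b : Bool) (x : List Bool) : par (b :: x) = !(par x) := by
  unfold par
  rw [List.length_cons]
  rcases Nat.mod_two_eq_zero_or_one x.length with h | h
  · have : (x.length + 1) % 2 = 1 := by omega
    simp [h, this]
  · have : (x.length + 1) % 2 = 0 := by omega
    simp [h, this]

theorem sd_cons (b : Bool) (x : List Bool) : sd (b :: x) = b := rfl

theorem lv_val {n : ℕ} {x : List Bool} (h : x.length ≤ n) : (lv n x).val = x.length := by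
  unfold lv
  simp only [Fin.ofNat]
  exact Nat.mod_eq_of_lt (by omega)

section machine

variable {n k : ℕ} {G H : Type} [AddCommGroup G]
variable (t : Fin k → G) (φ ψ : Fin k → G → H) (r : Fin k)

/-- condition of the event of a node -/
def cond (ρ : Role) (x : List Bool) (c : Fin k) (μ : Mem n G H) : Prop :=
  match ρ with
  | Role.root => c = r
  | Role.opn => True
  | Role.cls => ψ c (μ.1 (par x) (sd x)) = μ.2 (lv n x) (sd x)

/-- effect of the event of a node -/
def eff (ρ : Role) (x : List Bool) (c : Fin k) (μ : Mem n G H) : Mem n G H :=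
  match ρ with
  | Role.root => μ
  | Role.opn => (μ.1, fun i s => if i = lv n x ∧ s = sd x then φ c (μ.1 (par x) (sd x)) else μ.2 i s)
  | Role.cls => (fun p s => if p = par x ∧ s = sd x then μ.1 p s - t c else μ.1 p s, μ.2)

/-- effect of the use of the values of the children -/
def use (x : List Bool) (a b : Fin k) (μ : Mem n G H) : Mem n G H :=
  if x.length < n then
    (fun p s => if p = par x then μ.1 p s else μ.1 p s + (if s then t b else t a), μ.2)
  else μ

/-- the variable queried at a node -/
def var (n : ℕ) (x : List Bool) (a b : Fin k) : Option (Var n k) :=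
  if h : x.length < n then some (Var.fn x h a b)
  else if h' : x.length = n then some (Var.leaf x h') else none

/-- one step: query at the node `x` with guessed values `a, b` of the children, answer `c` -/
def Step (i : List Bool × Role) (μ : Mem n G H) (a b c : Fin k) (μ' : Mem n G H) : Prop :=
  cond ψ r i.2 i.1 c (use t i.1 a b μ) ∧ μ' = eff t φ i.2 i.1 c (use t i.1 a b μ)

/-- run of a list of instructions -/
def Run (I : Var n k → Fin k) : List (List Bool × Role) → Mem n G H → List (Var n k) →
    Mem n G H → Prop
  | [], μ, l, μ' => l = [] ∧ μ' = μ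
  | i :: prog, μ, l, μ' => ∃ a b X l' μ1, var n i.1 a b = some X ∧
      Step t φ ψ r i μ a b (I X) μ1 ∧ l = X :: l' ∧ Run I prog μ1 l' μ'

variable {t φ ψ r}

theorem run_append {I : Var n k → Fin k} {q : List (List Bool × Role)} :
    ∀ (p : List (List Bool × Role)) (μ : Mem n G H) (l : List (Var n k)) (μ' : Mem n G H),
      Run t φ ψ r I (p ++ q) μ l μ' ↔
        ∃ l1 l2 μ1, l = l1 ++ l2 ∧ Run t φ ψ r I p μ l1 μ1 ∧ Run t φ ψ r I q μ1 l2 μ' := by
  intro p
  induction p with
  | nil =>
    intro μ l μ'
    rw [List.nil_append]
    constructor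
    · intro h
      exact ⟨[], l, μ, rfl, ⟨rfl, rfl⟩, h⟩
    · rintro ⟨l1, l2, μ1, h1, ⟨h2, h3⟩, h4⟩
      subst h2 h3
      rw [h1, List.nil_append]
      exact h4
  | cons i p ih =>
    intro μ l μ'
    rw [List.cons_append]
    constructor
    · rintro ⟨a, b, X, l', μ1, h1, h2, h3, h4⟩
      obtain ⟨l1, l2, μ2, h5, h6, h7⟩ := (ih _ _ _).mp h4
      refine ⟨X :: l1, l2, μ2, ?_, ⟨a, b, X, l1, μ1, h1, h2, rfl, h6⟩, h7⟩
      rw [h3, h5, List.cons_append]
    · rintro ⟨l1, l2, μ1, h1, ⟨a, b, X, l', μ2, h2, h3, h4, h5⟩, h6⟩
      refine ⟨a, b, X, l' ++ l2, μ2, h2, h3, ?_, (ih _ _ _).mpr ⟨l', l2, μ1, rfl, h5, h6⟩⟩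
      rw [h1, h4, List.cons_append]

theorem run_single {I : Var n k → Fin k} {i : List Bool × Role} {μ μ' : Mem n G H}
    {l : List (Var n k)} : Run t φ ψ r I [i] μ l μ' ↔
      ∃ a b X, var n i.1 a b = some X ∧ Step t φ ψ r i μ a b (I X) μ' ∧ l = [X] := by
  constructor
  · rintro ⟨a, b, X, l', μ1, h1, h2, h3, h4, h5⟩
    subst h4 h5
    exact ⟨a, b, X, h1, h2, h3⟩
  · rintro ⟨a, b, X, h1, h2, h3⟩
    exact ⟨a, b, X, [], μ', h1, h2, h3, rfl, rfl⟩

end machine

/-- the list of instructions of a pass over the subtree of `x` of height `m` -/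
def pass : ℕ → List Bool → Role → List (List Bool × Role)
  | 0, x, ρ => [(x, ρ)]
  | m + 1, x, ρ => pass m (false :: x) Role.opn ++ (pass m (true :: x) Role.opn ++
      ([(x, ρ)] ++ (pass m (false :: x) Role.cls ++ pass m (true :: x) Role.cls)))

theorem length_pass : ∀ (m : ℕ) (x : List Bool) (ρ : Role), 3 * (pass m x ρ).length + 1 = 4 ^ (m + 1)
  | 0, x, ρ => by simp [pass]
  | m + 1, x, ρ => by
    have h1 := length_pass m (false :: x) Role.opn
    have h2 := length_pass m (true :: x) Role.opn
    have h3 := length_pass m (false :: x) Role.cls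
    have h4 := length_pass m (true :: x) Role.cls
    simp only [pass, List.length_append, List.length_singleton]
    rw [pow_succ]
    omega

section correctness

variable {n k : ℕ} {G H : Type} [AddCommGroup G]
variable {t : Fin k → G} {φ ψ : Fin k → G → H} {r : Fin k}

/-- the memories agree, except possibly in the registers of the levels after `j` -/
def EqUpTo (j : ℕ) (μ μ' : Mem n G H) : Prop :=
  μ.1 = μ'.1 ∧ ∀ i : Fin (n + 1), i.val ≤ j → μ.2 i = μ'.2 i

/-- all the queries are thrifty -/
def Good (I : Var n k → Fin k) (l : List (Var n k)) : Prop :=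
  ∀ (m : ℕ) (x : List Bool) (h : x.length + (m + 1) = n) (a b : Fin k),
      Var.fn x (by omega) a b ∈ l →
        a = value I m (false :: x) (by rw [List.length_cons]; omega) ∧
        b = value I m (true :: x) (by rw [List.length_cons]; omega)

theorem Good.append {I : Var n k → Fin k} {l l' : List (Var n k)} (h : Good I l)
    (h' : Good I l') : Good I (l ++ l') := by
  intro m x hx a b hm
  rcases List.mem_append.mp hm with hm | hm
  · exact h m x hx a b hm
  · exact h' m x hx a b hm

theorem run_pass (hφ : ∀ c c' u, ψ c (u + t c') = φ c u ↔ c' = c) (I : Var n k → Fin k) :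
    ∀ (m : ℕ) (x : List Bool) (ρ : Role) (μ μ' : Mem n G H) (l : List (Var n k))
      (hx : x.length + m = n), Run t φ ψ r I (pass m x ρ) μ l μ' →
      cond ψ r ρ x (value I m x hx) μ ∧ EqUpTo x.length (eff t φ ρ x (value I m x hx) μ) μ' ∧
        Good I l := by
  intro m
  induction m with
  | zero =>
    intro x ρ μ μ' l hx h
    simp only [pass] at h
    rw [run_single] at h
    obtain ⟨a, b, X, h1, ⟨h2, h3⟩, h4⟩ := h
    have hxn : ¬ x.length < n := by omega
    have hxn' : x.length = n := by omega
    unfold var at h1
    rw [dif_neg hxn, dif_pos hxn', Option.some.injEq] at h1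
    subst h1
    simp only [use, if_neg hxn] at h2 h3
    refine ⟨h2, ?_, ?_⟩
    · rw [h3]
      exact ⟨rfl, fun _ _ => rfl⟩
    · rw [h4]
      intro m' y hy a' b' hm'
      simp at hm'
  | succ m ih =>
    intro x ρ μ0 μ5 l hx h
    simp only [pass] at h
    rw [run_append] at h
    obtain ⟨l1, l', μ1, rfl, R1, h⟩ := h
    rw [run_append] at h
    obtain ⟨l2, l', μ2, rfl, R2, h⟩ := h
    rw [run_append] at h
    obtain ⟨l3, l', μ3, rfl, R3, h⟩ := h
    rw [run_append] at h
    obtain ⟨l4, l5, μ4, rfl, R4, R5⟩ := h
    have hl : (false :: x).length + m = n := by rw [List.length_cons]; omega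
    have hr : (true :: x).length + m = n := by rw [List.length_cons]; omega
    obtain ⟨-, ⟨A1, B1⟩, G1⟩ := ih _ _ _ _ _ hl R1
    obtain ⟨-, ⟨A2, B2⟩, G2⟩ := ih _ _ _ _ _ hr R2
    obtain ⟨C4, ⟨A4, B4⟩, G4⟩ := ih _ _ _ _ _ hl R4
    obtain ⟨C5, ⟨A5, B5⟩, G5⟩ := ih _ _ _ _ _ hr R5
    rw [run_single] at R3
    obtain ⟨a, b, X, h1, ⟨h2, h3⟩, h4⟩ := R3
    have hxn : x.length < n := by omega
    unfold var at h1
    simp only [dif_pos hxn, Option.some.injEq] at h1
    subst h1
    generalize hvl : value I m (false :: x) hl = vl at *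
    generalize hvr : value I m (true :: x) hr = vr at *
    simp only [use, if_pos hxn] at h2 h3
    simp only [eff, cond, par_cons, sd_cons, List.length_cons] at A1 B1 A2 B2 A4 B4 A5 B5 C4 C5
    have hlx : (lv n x).val = x.length := lv_val hxn.le
    have hll : (lv n (false :: x)).val = x.length + 1 := by rw [lv_val]; simp; simp; omega
    have hlr : (lv n (true :: x)).val = x.length + 1 := by rw [lv_val]; simp; simp; omega
    have hlrl : lv n (true :: x) = lv n (false :: x) := by apply Fin.ext; rw [hll, hlr]
    have hlne : lv n (false :: x) ≠ lv n x := by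
      intro h; have := congrArg Fin.val h; rw [hll, hlx] at this; omega
    rw [hlrl] at B2 C5
    have hpar : (!par x) ≠ par x := by cases par x <;> simp
    -- the memory after the query
    have hM1 : ∀ s, μ3.1 (!par x) s = μ0.1 (!par x) s + (if s then t b else t a) := by
      intro s
      rw [h3]
      cases ρ <;> simp only [eff, hpar, false_and, if_false] <;> rw [← A2, ← A1]
    have hM2 : ∀ s, μ3.2 (lv n (false :: x)) s = μ2.2 (lv n (false :: x)) s := by
      intro s
      rw [h3]
      cases ρ <;> simp only [eff, hlne, false_and, if_false]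
    have hR2 : ∀ s, μ2.2 (lv n (false :: x)) s =
        φ (if s then vr else vl) (μ0.1 (!par x) s) := by
      intro s
      rw [← B2 _ (by omega)]
      cases s
      · simp only [Bool.false_eq_true, and_false, if_false]
        rw [← B1 _ (by omega)]
        simp
      · simp only [and_self, if_true]
        rw [← A1]
    have hav : a = vl := by
      rw [hM1, hM2, hR2] at C4
      simp only [Bool.false_eq_true, if_false] at C4
      exact (hφ _ _ _).mp C4
    -- block and registers after the first closing pass
    have hM4 : μ4.1 (!par x) true = μ3.1 (!par x) true := by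
      rw [← A4]; simp
    have hR4 : μ4.2 (lv n (false :: x)) true = μ3.2 (lv n (false :: x)) true := by
      rw [← B4 _ (by omega)]
    have hbv : b = vr := by
      rw [hM4, hR4, hM1, hM2, hR2] at C5
      simp only [if_true] at C5
      exact (hφ _ _ _).mp C5
    subst hav hbv
    have hc : I (Var.fn x hxn a b) = value I (m + 1) x hx := by
      rw [value, hvl, hvr]
    rw [hc] at h2 h3
    generalize value I (m + 1) x hx = c at h2 h3 ⊢
    have hr2 : ∀ i : Fin (n + 1), i.val ≤ x.length → μ2.2 i = μ0.2 i := by
      intro i hi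
      funext s
      have hne : i ≠ lv n (false :: x) := by
        intro h; rw [h, hll] at hi; omega
      rw [← B2 i (by omega)]
      beta_reduce
      rw [if_neg (fun h => hne h.1), ← B1 i (by omega)]
      beta_reduce
      rw [if_neg (fun h => hne h.1)]
    have hb2 : μ2.1 = μ0.1 := by rw [← A2, ← A1]
    refine ⟨?_, ⟨?_, ?_⟩, ?_⟩
    · -- the condition
      cases ρ with
      | root => exact h2
      | opn => trivial
      | cls =>
        simp only [cond, if_true] at h2 ⊢
        rw [hb2, hr2 _ (by omega)] at h2
        exact h2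
    · -- the blocks
      have e5 : ∀ p s, μ5.1 p s = if p = (!par x) ∧ s = true then μ4.1 p s - t b
          else μ4.1 p s := by
        intro p s; rw [← A5]
      have e4 : ∀ p s, μ4.1 p s = if p = (!par x) ∧ s = false then μ3.1 p s - t a
          else μ3.1 p s := by
        intro p s; rw [← A4]
      funext p s
      by_cases hp : p = par x
      · subst hp
        rw [e5, if_neg (fun h => hpar h.1.symm), e4, if_neg (fun h => hpar h.1.symm), h3]
        cases ρ with
        | root => simp only [eff, if_true]; rw [hb2]
        | opn => simp only [eff, if_true]; rw [hb2]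
        | cls => simp only [eff, if_true]; rw [hb2]
      · have hp' : p = !par x := by
          revert hp; cases p <;> cases par x <;> simp
        subst hp'
        have hE : (eff t φ ρ x c μ0).1 (!par x) s = μ0.1 (!par x) s := by
          cases ρ <;> simp only [eff, hpar, false_and, if_false]
        rw [hE, e5]
        cases s
        · rw [if_neg (by simp), e4, if_pos ⟨rfl, rfl⟩, hM1]
          simp
        · rw [if_pos ⟨rfl, rfl⟩, e4, if_neg (by simp), hM1]
          simp
    · -- the registers
      intro i hi
      rw [← B5 i (by omega), ← B4 i (by omega), h3]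
      funext s
      cases ρ with
      | root => simp only [eff]; rw [hr2 i hi]
      | opn =>
        simp only [eff, if_true]
        rw [hr2 i hi, hb2]
      | cls => simp only [eff]; rw [hr2 i hi]
    · refine G1.append (G2.append (Good.append ?_ (G4.append G5)))
      rw [h4]
      intro m' y hy a' b' hm'
      rw [List.mem_singleton, Var.fn.injEq] at hm'
      obtain ⟨rfl, rfl, rfl⟩ := hm'
      have : m' = m := by omega
      subst this
      exact ⟨hvl.symm, hvr.symm⟩

theorem exists_run (hφ : ∀ c c' u, ψ c (u + t c') = φ c u ↔ c' = c) (I : Var n k → Fin k) :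
    ∀ (m : ℕ) (x : List Bool) (ρ : Role) (μ : Mem n G H) (hx : x.length + m = n),
      cond ψ r ρ x (value I m x hx) μ →
      ∃ l μ', Run t φ ψ r I (pass m x ρ) μ l μ' ∧ l.length = (pass m x ρ).length := by
  intro m
  induction m with
  | zero =>
    intro x ρ μ hx h
    have hxn : ¬ x.length < n := by omega
    have hxn' : x.length = n := by omega
    simp only [pass]
    refine ⟨[Var.leaf x hxn'], eff t φ ρ x (I (Var.leaf x hxn')) μ, ?_, by simp⟩
    rw [run_single]
    refine ⟨r, r, Var.leaf x hxn', ?_, ⟨?_, ?_⟩, rfl⟩
    · unfold var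
      rw [dif_neg hxn, dif_pos hxn']
    · simp only [use, if_neg hxn]
      exact h
    · simp only [use, if_neg hxn]
  | succ m ih =>
    intro x ρ μ0 hx h
    have hl : (false :: x).length + m = n := by rw [List.length_cons]; omega
    have hr : (true :: x).length + m = n := by rw [List.length_cons]; omega
    have hxn : x.length < n := by omega
    obtain ⟨l1, μ1, R1, L1⟩ := ih (false :: x) Role.opn μ0 hl trivial
    obtain ⟨l2, μ2, R2, L2⟩ := ih (true :: x) Role.opn μ1 hr trivial
    obtain ⟨-, ⟨A1, B1⟩, -⟩ := run_pass hφ I _ _ _ _ _ _ hl R1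
    obtain ⟨-, ⟨A2, B2⟩, -⟩ := run_pass hφ I _ _ _ _ _ _ hr R2
    generalize hvl : value I m (false :: x) hl = vl at *
    generalize hvr : value I m (true :: x) hr = vr at *
    have hlx : (lv n x).val = x.length := lv_val hxn.le
    have hll : (lv n (false :: x)).val = x.length + 1 := by rw [lv_val]; simp; simp; omega
    have hlr : (lv n (true :: x)).val = x.length + 1 := by rw [lv_val]; simp; simp; omega
    have hlrl : lv n (true :: x) = lv n (false :: x) := by apply Fin.ext; rw [hll, hlr]
    have hlne : lv n (false :: x) ≠ lv n x := by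
      intro h; have := congrArg Fin.val h; rw [hll, hlx] at this; omega
    have hpar : (!par x) ≠ par x := by cases par x <;> simp
    simp only [eff, par_cons, sd_cons, List.length_cons] at A1 B1 A2 B2
    rw [hlrl] at B2
    have hb2 : μ2.1 = μ0.1 := by rw [← A2, ← A1]
    have hr2 : ∀ i : Fin (n + 1), i.val ≤ x.length → μ2.2 i = μ0.2 i := by
      intro i hi
      funext s
      have hne : i ≠ lv n (false :: x) := by
        intro h; rw [h, hll] at hi; omega
      rw [← B2 i (by omega)]
      beta_reduce
      rw [if_neg (fun h => hne h.1), ← B1 i (by omega)]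
      beta_reduce
      rw [if_neg (fun h => hne h.1)]
    have hR2 : ∀ s, μ2.2 (lv n (false :: x)) s =
        φ (if s then vr else vl) (μ0.1 (!par x) s) := by
      intro s
      rw [← B2 _ (by omega)]
      cases s
      · simp only [Bool.false_eq_true, and_false, if_false]
        rw [← B1 _ (by omega)]
        simp
      · simp only [and_self, if_true]
        rw [← A1]
    have hc : I (Var.fn x hxn vl vr) = value I (m + 1) x hx := by
      rw [value, hvl, hvr]
    -- the query
    have hcond : cond ψ r ρ x (I (Var.fn x hxn vl vr)) (use t x vl vr μ2) := by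
      rw [hc]
      generalize value I (m + 1) x hx = c at h ⊢
      cases ρ with
      | root => exact h
      | opn => trivial
      | cls =>
        simp only [cond, use, if_pos hxn, if_true] at h ⊢
        rw [hb2, hr2 _ (by omega)]
        exact h
    have R3 : Run t φ ψ r I [(x, ρ)] μ2 [Var.fn x hxn vl vr]
        (eff t φ ρ x (I (Var.fn x hxn vl vr)) (use t x vl vr μ2)) := by
      rw [run_single]
      refine ⟨vl, vr, _, ?_, ⟨hcond, rfl⟩, rfl⟩
      unfold var
      rw [dif_pos hxn]
    generalize hμ3 : eff t φ ρ x (I (Var.fn x hxn vl vr)) (use t x vl vr μ2) = μ3 at R3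
    have hM1 : ∀ s, μ3.1 (!par x) s = μ0.1 (!par x) s + (if s then t vr else t vl) := by
      intro s
      rw [← hμ3]
      simp only [use, if_pos hxn]
      cases ρ <;> simp only [eff, hpar, false_and, if_false] <;> rw [hb2]
    have hM2 : ∀ s, μ3.2 (lv n (false :: x)) s = μ2.2 (lv n (false :: x)) s := by
      intro s
      rw [← hμ3]
      simp only [use, if_pos hxn]
      cases ρ <;> simp only [eff, hlne, false_and, if_false]
    have c4 : cond ψ r Role.cls (false :: x) vl μ3 := by
      simp only [cond, par_cons, sd_cons]
      rw [hM1, hM2, hR2]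
      simp only [Bool.false_eq_true, if_false]
      exact (hφ _ _ _).mpr rfl
    obtain ⟨l4, μ4, R4, L4⟩ := ih (false :: x) Role.cls μ3 hl (by rw [hvl]; exact c4)
    obtain ⟨-, ⟨A4, B4⟩, -⟩ := run_pass hφ I _ _ _ _ _ _ hl R4
    rw [hvl] at A4 B4
    simp only [eff, par_cons, sd_cons, List.length_cons] at A4 B4
    have hM4 : μ4.1 (!par x) true = μ3.1 (!par x) true := by
      rw [← A4]; simp
    have hR4 : μ4.2 (lv n (false :: x)) true = μ3.2 (lv n (false :: x)) true := by
      rw [← B4 _ (by omega)]
    have c5 : cond ψ r Role.cls (true :: x) vr μ4 := by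
      simp only [cond, par_cons, sd_cons]
      rw [hlrl, hM4, hR4, hM1, hM2, hR2]
      simp only [if_true]
      exact (hφ _ _ _).mpr rfl
    obtain ⟨l5, μ5, R5, L5⟩ := ih (true :: x) Role.cls μ4 hr (by rw [hvr]; exact c5)
    refine ⟨l1 ++ (l2 ++ ([Var.fn x hxn vl vr] ++ (l4 ++ l5))), μ5, ?_, ?_⟩
    · simp only [pass]
      rw [run_append]
      refine ⟨l1, _, μ1, rfl, R1, ?_⟩
      rw [run_append]
      refine ⟨l2, _, μ2, rfl, R2, ?_⟩
      rw [run_append]
      refine ⟨_, _, μ3, rfl, R3, ?_⟩
      rw [run_append]
      exact ⟨l4, l5, μ4, rfl, R4, R5⟩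
    · simp only [pass, List.length_append, List.length_singleton, L1, L2, L4, L5]

end correctness

end Pool.Agent.Lib.MP_6216ea_lc.TSCat
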