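import Mathlib
import Pool.Agent.Lib.MP_6216ea_lc.TSCompile

/-!
# Codes and cells

A value is encoded by a word `e` of a code in `{0, …, Q - 1} ^ d` any two words of which differ in
at least `w = D + 1` places. The memory is a vector `u` over `ZMod m` with `m = c * w`; a guessed
value with word `f` adds `(f, |f| ^ 2)` to it, which changes the linear form of the true word `e`
by `|e - f| ^ 2`, a number which is `0` if `e = f` and lies in `[w, m - w]` otherwise. So the cell
of length `w` which contains the value of the form changes exactly when `f ≠ e`.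
-/

namespace Pool.Agent.Lib.MP_6216ea_lc.TSCat

open Pool.Agent.Lib.MP_6216ea_lc

theorem cell_ne {m w s : ℕ} [NeZero m] (hw : 0 < w) (hs : w ≤ s) (hs' : s + w ≤ m)
    (a : ZMod m) : (a + (s : ZMod m)).val / w ≠ a.val / w := by
  have ha : a.val < m := ZMod.val_lt a
  have hsm : (s : ZMod m).val = s := ZMod.val_natCast_of_lt (by omega)
  rw [ZMod.val_add, hsm]
  by_cases h : a.val + s < m
  · rw [Nat.mod_eq_of_lt h]
    have h1 : (a.val + w) / w ≤ (a.val + s) / w := Nat.div_le_div_right (by omega)
    rw [Nat.add_div_right _ hw] at h1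
    omega
  · have h2 : (a.val + s) % m = a.val + s - m := by
      rw [Nat.mod_eq_sub_mod (by omega), Nat.mod_eq_of_lt (by omega)]
    rw [h2]
    have h1 : (a.val + s - m + w) / w ≤ a.val / w := Nat.div_le_div_right (by omega)
    rw [Nat.add_div_right _ hw] at h1
    omega

section ball

variable {d Q : ℕ}

theorem card_ball (D : ℕ) (hQ : 0 < Q) (x : Fin d → Fin Q) :
    (Finset.univ.filter (fun y : Fin d → Fin Q => hammingDist x y ≤ D)).card ≤
      2 ^ d * Q ^ D := by
  classical
  have hsub : (Finset.univ.filter (fun y : Fin d → Fin Q => hammingDist x y ≤ D)) ⊆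
      ((Finset.univ : Finset (Finset (Fin d))).filter (fun S => S.card ≤ D)).biUnion
        (fun S => Fintype.piFinset (fun i => if i ∈ S then Finset.univ else {x i})) := by
    intro y hy
    rw [Finset.mem_filter] at hy
    rw [Finset.mem_biUnion]
    refine ⟨Finset.univ.filter (fun i => x i ≠ y i), ?_, ?_⟩
    · rw [Finset.mem_filter]
      exact ⟨Finset.mem_univ _, hy.2⟩
    · rw [Fintype.mem_piFinset]
      intro i
      by_cases hi : x i = y i
      · rw [if_neg (by simp [hi])]
        simp [hi]
      · rw [if_pos (by simp [hi])]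
        exact Finset.mem_univ _
  refine (Finset.card_le_card hsub).trans (Finset.card_biUnion_le.trans ?_)
  calc _ ≤ ∑ _S ∈ ((Finset.univ : Finset (Finset (Fin d))).filter (fun S => S.card ≤ D)),
        Q ^ D := by
        refine Finset.sum_le_sum fun S hS => ?_
        rw [Finset.mem_filter] at hS
        rw [Fintype.card_piFinset]
        have : ∀ i, (if i ∈ S then (Finset.univ : Finset (Fin Q)) else {x i}).card =
            if i ∈ S then Q else 1 := by
          intro i
          split_ifs <;> simp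
        simp only [this]
        rw [Finset.prod_ite]
        simp only [Finset.prod_const, one_pow, mul_one]
        refine Nat.pow_le_pow_right hQ ?_
        refine le_trans (le_of_eq ?_) hS.2
        congr 1
        ext i
        simp
    _ ≤ ∑ _S ∈ (Finset.univ : Finset (Finset (Fin d))), Q ^ D :=
        Finset.sum_le_sum_of_subset (Finset.filter_subset _ _)
    _ = _ := by
        rw [Finset.sum_const, smul_eq_mul, Finset.card_univ, Fintype.card_finset,
          Fintype.card_fin]

theorem exists_code (D K : ℕ) (hQ : 0 < Q) (h : K * (2 ^ d * Q ^ D) ≤ Q ^ d) :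
    ∃ f : Fin K → (Fin d → Fin Q), ∀ a b, a ≠ b → D < hammingDist (f a) (f b) := by
  classical
  have key : ∀ j, j ≤ K → ∃ C : Finset (Fin d → Fin Q), C.card = j ∧
      ∀ x ∈ C, ∀ y ∈ C, x ≠ y → D < hammingDist x y := by
    intro j
    induction j with
    | zero => intro _; exact ⟨∅, rfl, by simp⟩
    | succ j ih =>
      intro hj
      obtain ⟨C, hC, hP⟩ := ih (by omega)
      have hlt : (C.biUnion (fun x => Finset.univ.filter
          (fun y : Fin d → Fin Q => hammingDist x y ≤ D))).card <
          (Finset.univ : Finset (Fin d → Fin Q)).card := by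
        calc _ ≤ C.card * (2 ^ d * Q ^ D) :=
              Finset.card_biUnion_le_card_mul _ _ _ (fun x _ => card_ball D hQ x)
          _ < K * (2 ^ d * Q ^ D) := by
              refine Nat.mul_lt_mul_of_pos_right (by omega) (by positivity)
          _ ≤ Q ^ d := h
          _ = _ := by simp
      obtain ⟨y, -, hy⟩ := Finset.exists_mem_notMem_of_card_lt_card hlt
      rw [Finset.mem_biUnion] at hy
      push Not at hy
      have hy' : ∀ x ∈ C, D < hammingDist x y := by
        intro x hx
        have := hy x hx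
        rw [Finset.mem_filter] at this
        simpa using this
      have hyC : y ∉ C := by
        intro hc
        have := hy' y hc
        simp at this
      refine ⟨insert y C, by rw [Finset.card_insert_of_notMem hyC, hC], ?_⟩
      intro a ha b hb hab
      rw [Finset.mem_insert] at ha hb
      rcases ha with rfl | ha
      · rcases hb with rfl | hb
        · exact absurd rfl hab
        · rw [hammingDist_comm]; exact hy' b hb
      · rcases hb with rfl | hb
        · exact hy' a ha
        · exact hP a ha b hb hab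
  obtain ⟨C, hC, hP⟩ := key K le_rfl
  let e := (C.equivFinOfCardEq hC).symm
  refine ⟨fun a => (e a).1, fun a b hab => hP _ (e a).2 _ (e b).2 ?_⟩
  intro h
  exact hab (e.injective (Subtype.ext h))

end ball

section gadget

variable (d Q m : ℕ)

/-- the vector of a word -/
def vec (e : Fin d → Fin Q) : (Fin d → ZMod m) × ZMod m :=
  (fun i => ((e i : ℕ) : ZMod m), ∑ i, ((e i : ℕ) : ZMod m) ^ 2)

/-- the linear form of a word -/
def lin (e : Fin d → Fin Q) (u : (Fin d → ZMod m) × ZMod m) : ZMod m :=
  u.2 - 2 * ∑ i, ((e i : ℕ) : ZMod m) * u.1 i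

/-- squared distance of two words -/
def sqd (e f : Fin d → Fin Q) : ℕ := ∑ i, ((((e i : ℕ) : ℤ) - ((f i : ℕ) : ℤ)).natAbs) ^ 2

theorem lin_add_vec (e f : Fin d → Fin Q) (u : (Fin d → ZMod m) × ZMod m) :
    lin d Q m e (u + vec d Q m f) + ∑ i, ((e i : ℕ) : ZMod m) ^ 2 =
      lin d Q m e u + (sqd d Q e f : ZMod m) := by
  have h0 : (sqd d Q e f : ZMod m) =
      ∑ i, (((e i : ℕ) : ZMod m) - ((f i : ℕ) : ZMod m)) ^ 2 := by
    unfold sqd
    rw [Nat.cast_sum]
    refine Finset.sum_congr rfl fun i _ => ?_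
    have : (((((e i : ℕ) : ℤ) - ((f i : ℕ) : ℤ)).natAbs ^ 2 : ℕ) : ℤ) =
        (((e i : ℕ) : ℤ) - ((f i : ℕ) : ℤ)) ^ 2 := by
      rw [Nat.cast_pow, Int.natCast_natAbs, sq_abs]
    have h2 := congrArg (fun z : ℤ => (z : ZMod m)) this
    simp only [Int.cast_natCast, Int.cast_pow, Int.cast_sub] at h2
    exact h2
  have h1 : ∑ i, (((e i : ℕ) : ZMod m) - ((f i : ℕ) : ZMod m)) ^ 2 =
      ∑ i, ((e i : ℕ) : ZMod m) ^ 2 + ∑ i, ((f i : ℕ) : ZMod m) ^ 2 -
      2 * ∑ i, ((e i : ℕ) : ZMod m) * ((f i : ℕ) : ZMod m) := by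
    rw [Finset.mul_sum, ← Finset.sum_add_distrib, ← Finset.sum_sub_distrib]
    refine Finset.sum_congr rfl fun i _ => ?_
    ring
  have h2 : ∑ i, ((e i : ℕ) : ZMod m) * (u + vec d Q m f).1 i =
      ∑ i, ((e i : ℕ) : ZMod m) * u.1 i +
      ∑ i, ((e i : ℕ) : ZMod m) * ((f i : ℕ) : ZMod m) := by
    rw [← Finset.sum_add_distrib]
    refine Finset.sum_congr rfl fun i _ => ?_
    rw [Prod.fst_add, Pi.add_apply, mul_add]
    rfl
  unfold lin
  rw [h0, h1, h2, Prod.snd_add]
  simp only [vec]
  ring

theorem sqd_self (e : Fin d → Fin Q) : sqd d Q e e = 0 := by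
  unfold sqd
  simp

theorem le_sqd (e f : Fin d → Fin Q) : hammingDist e f ≤ sqd d Q e f := by
  classical
  unfold hammingDist sqd
  rw [Finset.card_eq_sum_ones, Finset.sum_filter]
  refine Finset.sum_le_sum fun i _ => ?_
  split_ifs with h
  · have h1 : (((e i : ℕ) : ℤ) - ((f i : ℕ) : ℤ)).natAbs ≠ 0 := by
      intro h2
      rw [Int.natAbs_eq_zero] at h2
      apply h
      apply Fin.ext
      omega
    exact Nat.one_le_iff_ne_zero.mpr (pow_ne_zero 2 h1)
  · exact Nat.zero_le _

theorem sqd_le (e f : Fin d → Fin Q) : sqd d Q e f ≤ d * (Q - 1) ^ 2 := by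
  unfold sqd
  calc _ ≤ ∑ _i : Fin d, (Q - 1) ^ 2 := by
        refine Finset.sum_le_sum fun i _ => ?_
        have he := (e i).isLt
        have hf := (f i).isLt
        exact Nat.pow_le_pow_left (by omega) 2
    _ = _ := by simp

end gadget

/-- Small programs from parameters: an alphabet of size `Q`, words of length `d`, distance
`D + 1`, and `c` cells. -/
theorem exists_nbp_param (n k Q d D c : ℕ) (hQ : 0 < Q)
    (h : k * (2 ^ d * Q ^ D) ≤ Q ^ d) (hc : d * (Q - 1) ^ 2 + (D + 1) ≤ c * (D + 1)) (r : Fin k) :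
    ∃ (S : Type) (_ : Fintype S) (P : NBP n k S), Solves P r ∧ Thrifty P ∧
      TimeAtMost P r ((4 ^ (n + 1) - 1) / 3) ∧
      Fintype.card S ≤ 4 ^ (n + 1) * (k ^ 2 + 1) *
        (((c * (D + 1)) ^ (d + 1)) ^ 4 * c ^ (2 * (n + 1))) := by
  obtain ⟨e, he⟩ := exists_code (d := d) D k hQ h
  have hc0 : 0 < c := by
    rcases Nat.eq_zero_or_pos c with h0 | h0
    · subst h0; omega
    · exact h0
  set m := c * (D + 1) with hm
  have hm0 : 0 < m := by positivity
  have : NeZero m := ⟨hm0.ne'⟩
  have : NeZero c := ⟨hc0.ne'⟩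
  have hcell : ∀ a : ZMod m, a.val / (D + 1) < c := by
    intro a
    apply Nat.div_lt_of_lt_mul
    rw [mul_comm]
    exact ZMod.val_lt a
  let φ : Fin k → ((Fin d → ZMod m) × ZMod m) → Fin c := fun x u =>
    ⟨(lin d Q m (e x) u).val / (D + 1), hcell _⟩
  let ψ : Fin k → ((Fin d → ZMod m) × ZMod m) → Fin c := fun x u =>
    ⟨(lin d Q m (e x) u + ∑ i, ((e x i : ℕ) : ZMod m) ^ 2).val / (D + 1), hcell _⟩
  obtain ⟨S, hS, P, h1, h2, h3, h4⟩ := exists_nbp (t := fun x => vec d Q m (e x))
    (φ := φ) (ψ := ψ) r (by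
      intro x y u
      simp only [φ, ψ, Fin.mk.injEq]
      rw [lin_add_vec]
      constructor
      · intro hxy
        by_contra hne
        have hd : D + 1 ≤ sqd d Q (e x) (e y) :=
          (he x y (Ne.symm hne)).trans_le (le_sqd d Q _ _)
        have hd' := sqd_le d Q (e x) (e y)
        exact cell_ne (Nat.succ_pos D) hd (by omega) _ hxy
      · intro hxy
        subst hxy
        rw [sqd_self]
        simp) n
  refine ⟨S, hS, P, h1, h2, h3, h4.trans (le_of_eq ?_)⟩
  have hG : Fintype.card ((Fin d → ZMod m) × ZMod m) = m ^ (d + 1) := by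
    rw [Fintype.card_prod, Fintype.card_fun, ZMod.card, Fintype.card_fin, pow_succ m d]
  rw [hG, Fintype.card_fin]

end Pool.Agent.Lib.MP_6216ea_lc.TSCat
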