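import Mathlib
import Pool.Agent.Lib.MP_6216ea_lc.TSCode

/-!
# The choice of the parameters
-/

namespace Pool.Agent.Lib.MP_6216ea_lc.TSCat

open Pool.Agent.Lib.MP_6216ea_lc

/-- parameters: alphabet `2 ^ s`, `4 ≤ s`, words of length `d ≥ 1` with `2 * κ ≤ s * d` where
`k ≤ 2 ^ κ`. -/
theorem exists_nbp_sd (n k s d κ : ℕ) (hs : 4 ≤ s) (hd : 1 ≤ d) (hk : k ≤ 2 ^ κ)
    (hκ : 2 * κ ≤ s * d) (r : Fin k) :
    ∃ (S : Type) (_ : Fintype S) (P : NBP n k S), Solves P r ∧ Thrifty P ∧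
      TimeAtMost P r ((4 ^ (n + 1) - 1) / 3) ∧
      Fintype.card S ≤ 4 ^ (n + 1) * (k ^ 2 + 1) *
        (((2 ^ (2 * s + 2) * d) ^ (d + 1)) ^ 4 * (2 ^ (2 * s + 2)) ^ (2 * (n + 1))) := by
  have hQ : 0 < 2 ^ s := by positivity
  have hd4 : s * (d / 4) * 4 ≤ s * d := by
    rw [mul_assoc]
    exact Nat.mul_le_mul_left _ (Nat.div_mul_le_self d 4)
  have hds : 4 * d ≤ s * d := Nat.mul_le_mul_right _ hs
  have h1 : k * (2 ^ d * (2 ^ s) ^ (d / 4)) ≤ (2 ^ s) ^ d := by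
    calc k * (2 ^ d * (2 ^ s) ^ (d / 4)) ≤ 2 ^ κ * (2 ^ d * (2 ^ s) ^ (d / 4)) :=
          Nat.mul_le_mul_right _ hk
      _ = 2 ^ (κ + d + s * (d / 4)) := by
          rw [← pow_mul, ← pow_add, ← pow_add]
          congr 1
          ring
      _ ≤ 2 ^ (s * d) := Nat.pow_le_pow_right (by norm_num) (by omega)
      _ = _ := by rw [pow_mul]
  have hdD : d ≤ 4 * (d / 4 + 1) := by omega
  have h2 : d * (2 ^ s - 1) ^ 2 + (d / 4 + 1) ≤ 2 ^ (2 * s + 2) * (d / 4 + 1) := by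
    obtain ⟨q, hq⟩ : ∃ q, 2 ^ s = q + 1 := ⟨2 ^ s - 1, by omega⟩
    have h3 : 2 ^ (2 * s + 2) = 4 * (q + 1) ^ 2 := by
      rw [pow_add, mul_comm 2 s, pow_mul, hq]
      ring
    rw [h3, hq, Nat.add_sub_cancel]
    calc d * q ^ 2 + (d / 4 + 1) ≤ (4 * (d / 4 + 1)) * q ^ 2 + (d / 4 + 1) :=
          Nat.add_le_add_right (Nat.mul_le_mul_right _ hdD) _
      _ ≤ 4 * (q + 1) ^ 2 * (d / 4 + 1) := by
          generalize d / 4 + 1 = z
          nlinarith [Nat.zero_le (q * z), Nat.zero_le z]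
  obtain ⟨S, hS, P, a1, a2, a3, a4⟩ :=
    exists_nbp_param n k (2 ^ s) d (d / 4) (2 ^ (2 * s + 2)) hQ h1 h2 r
  refine ⟨S, hS, P, a1, a2, a3, a4.trans ?_⟩
  refine Nat.mul_le_mul_left _ (Nat.mul_le_mul_right _ ?_)
  refine Nat.pow_le_pow_left (Nat.pow_le_pow_left ?_ _) _
  exact Nat.mul_le_mul_left _ (by omega)

theorem logb_le_self' {x : ℝ} (hx : 1 ≤ x) : Real.logb 2 x ≤ x := by
  have h0 : 0 < x := by linarith
  rw [Real.logb_le_iff_le_rpow (by norm_num) h0]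
  have h := one_add_mul_self_le_rpow_one_add (s := 1) (by norm_num) hx
  norm_num at h
  linarith

/-- **Main bound.** -/
theorem main_bound (n k : ℕ) (hk : 2 ≤ k) (r : Fin k) :
    ∃ (S : Type) (_ : Fintype S) (P : NBP n k S), Solves P r ∧ Thrifty P ∧
      TimeAtMost P r ((4 ^ (n + 1) - 1) / 3) ∧
      (Fintype.card S : ℝ) ≤ (2 : ℝ) ^ (240 * ((n : ℝ) + Real.logb 2 k +
        √((n : ℝ) * Real.logb 2 k * Real.logb 2 (Real.logb 2 k)))) := by
  have hk0 : (0 : ℝ) < k := by positivity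
  have hk2 : (2 : ℝ) ≤ k := by exact_mod_cast hk
  set L : ℝ := Real.logb 2 k with hL
  have hL1 : 1 ≤ L := by
    rw [hL, Real.le_logb_iff_rpow_le (by norm_num) hk0]
    simpa using hk2
  have hkL : (2 : ℝ) ^ L = k := Real.rpow_logb (by norm_num) (by norm_num) hk0
  set l : ℝ := Real.logb 2 L with hl
  have hl0 : 0 ≤ l := Real.logb_nonneg (by norm_num) hL1
  have hlL : l ≤ L := logb_le_self' hL1
  have hLl : (2 : ℝ) ^ l = L := Real.rpow_logb (by norm_num) (by norm_num) (by linarith)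
  have hn0 : (0 : ℝ) ≤ n := Nat.cast_nonneg n
  have hn1 : (0 : ℝ) < (n : ℝ) + 1 := by linarith
  set σ : ℝ := √(L * l / ((n : ℝ) + 1)) with hσ
  have hσ0 : 0 ≤ σ := Real.sqrt_nonneg _
  have hLl0 : 0 ≤ L * l := by positivity
  have hσ2 : σ ^ 2 = L * l / ((n : ℝ) + 1) := Real.sq_sqrt (by positivity)
  -- the root of `n L l`
  set R : ℝ := √((n : ℝ) * L * l) with hR
  have hR0 : 0 ≤ R := Real.sqrt_nonneg _
  have hR2 : R ^ 2 = (n : ℝ) * L * l := Real.sq_sqrt (by positivity)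
  -- `(n + 1) σ ≤ R + L`
  have hA : ((n : ℝ) + 1) * σ ≤ R + L := by
    apply le_of_sq_le_sq _ (by linarith)
    have : (((n : ℝ) + 1) * σ) ^ 2 = ((n : ℝ) + 1) * (L * l) := by
      rw [mul_pow, hσ2]; field_simp
    rw [this]
    nlinarith [mul_nonneg hR0 (by linarith : (0:ℝ) ≤ L)]
  have hσL : σ ≤ L := by
    apply le_of_sq_le_sq _ (by linarith)
    rw [hσ2, div_le_iff₀ hn1]
    nlinarith [mul_nonneg hn0 (by positivity : (0:ℝ) ≤ L ^ 2)]
  obtain ⟨s, hs⟩ : ∃ s : ℕ, s = 4 + ⌈σ⌉₊ := ⟨_, rfl⟩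
  have hs4 : 4 ≤ s := by omega
  have hs4' : (4 : ℝ) ≤ s := by exact_mod_cast hs4
  have hsσ : σ ≤ s := by
    rw [hs]; push_cast
    have := Nat.le_ceil σ
    linarith
  have hsu : (s : ℝ) ≤ σ + 5 := by
    rw [hs]; push_cast
    have := (Nat.ceil_lt_add_one hσ0).le
    linarith
  obtain ⟨κ, hκ⟩ : ∃ κ : ℕ, κ = ⌈L⌉₊ := ⟨_, rfl⟩
  have hκL : L ≤ κ := by rw [hκ]; exact Nat.le_ceil L
  have hκu : (κ : ℝ) ≤ L + 1 := by rw [hκ]; exact (Nat.ceil_lt_add_one (by linarith)).le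
  have hkκ : k ≤ 2 ^ κ := by
    have : (k : ℝ) ≤ (2 : ℝ) ^ κ := by
      rw [← hkL, ← Real.rpow_natCast]
      exact Real.rpow_le_rpow_of_exponent_le (by norm_num) hκL
    exact_mod_cast this
  obtain ⟨d, hd⟩ : ∃ d : ℕ, d = 2 * κ / s + 1 := ⟨_, rfl⟩
  have hd1 : 1 ≤ d := by rw [hd]; exact Nat.le_add_left 1 _
  have hsd : 2 * κ ≤ s * d := by
    rw [hd]
    have := Nat.div_add_mod (2 * κ) s
    have h2 := Nat.mod_lt (2 * κ) (by omega : s > 0)
    rw [mul_add, mul_one]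
    omega
  have hdu : (d : ℝ) * s ≤ 2 * κ + s := by
    have : d * s ≤ 2 * κ + s := by
      rw [hd, add_mul, one_mul]
      exact Nat.add_le_add_right (Nat.div_mul_le_self _ _) _
    exact_mod_cast this
  obtain ⟨S, hS, P, a1, a2, a3, a4⟩ := exists_nbp_sd n k s d κ hs4 hd1 hkκ hsd r
  refine ⟨S, hS, P, a1, a2, a3, ?_⟩
  have hs0 : (0 : ℝ) < s := by linarith
  have hdL : (d : ℝ) ≤ 4 * L := by
    have h1 : (d : ℝ) * 4 ≤ 2 * κ + 4 := by
      by_contra hcon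
      push Not at hcon
      nlinarith
    nlinarith
  have hd0 : (0 : ℝ) ≤ d := Nat.cast_nonneg d
  have hdpow : (d : ℝ) ≤ (2 : ℝ) ^ (2 + l) := by
    rw [Real.rpow_add (by norm_num), hLl]
    norm_num
    exact hdL
  have hb1 : ((2 : ℝ) ^ (2 * s + 2) * d) ≤ (2 : ℝ) ^ (2 * (s : ℝ) + 4 + l) := by
    have : (2 : ℝ) ^ (2 * (s : ℝ) + 4 + l) = (2 : ℝ) ^ (2 * s + 2) * (2 : ℝ) ^ (2 + l) := by
      rw [← Real.rpow_natCast, ← Real.rpow_add (by norm_num)]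
      congr 1
      push_cast
      ring
    rw [this]
    exact mul_le_mul_of_nonneg_left hdpow (by positivity)
  have hb2 : (k : ℝ) ^ 2 + 1 ≤ (2 : ℝ) ^ (1 + 2 * L) := by
    have : (2 : ℝ) ^ (1 + 2 * L) = 2 * (k : ℝ) ^ 2 := by
      rw [Real.rpow_add (by norm_num), mul_comm 2 L, Real.rpow_mul (by norm_num), hkL]
      norm_num
    rw [this]
    nlinarith
  have hb3 : (4 : ℝ) ^ (n + 1) = (2 : ℝ) ^ (2 * ((n : ℝ) + 1)) := by
    rw [Real.rpow_mul (by norm_num)]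
    have : ((n : ℝ) + 1) = ((n + 1 : ℕ) : ℝ) := by push_cast; ring
    rw [this, Real.rpow_natCast]
    norm_num
  have hb4 : (((2 : ℝ) ^ (2 * s + 2) * d) ^ (d + 1)) ^ 4 ≤
      (2 : ℝ) ^ ((2 * (s : ℝ) + 4 + l) * (4 * ((d : ℝ) + 1))) := by
    rw [← pow_mul, Real.rpow_mul (by norm_num)]
    have : (4 * ((d : ℝ) + 1)) = (((d + 1) * 4 : ℕ) : ℝ) := by push_cast; ring
    rw [this, Real.rpow_natCast]
    exact pow_le_pow_left₀ (by positivity) hb1 _
  have hb5 : ((2 : ℝ) ^ (2 * s + 2)) ^ (2 * (n + 1)) =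
      (2 : ℝ) ^ ((2 * (s : ℝ) + 2) * (2 * ((n : ℝ) + 1))) := by
    rw [← pow_mul, ← Real.rpow_natCast]
    congr 1
    push_cast
    ring
  have hcard : (Fintype.card S : ℝ) ≤ (4 : ℝ) ^ (n + 1) * ((k : ℝ) ^ 2 + 1) *
      ((((2 : ℝ) ^ (2 * s + 2) * d) ^ (d + 1)) ^ 4 *
        ((2 : ℝ) ^ (2 * s + 2)) ^ (2 * (n + 1))) := by
    exact_mod_cast a4
  refine hcard.trans ?_
  rw [hb5, hb3]
  calc _ ≤ (2 : ℝ) ^ (2 * ((n : ℝ) + 1)) * (2 : ℝ) ^ (1 + 2 * L) *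
        ((2 : ℝ) ^ ((2 * (s : ℝ) + 4 + l) * (4 * ((d : ℝ) + 1))) *
          (2 : ℝ) ^ ((2 * (s : ℝ) + 2) * (2 * ((n : ℝ) + 1)))) := by
        gcongr
    _ = (2 : ℝ) ^ (2 * ((n : ℝ) + 1) + (1 + 2 * L) +
          ((2 * (s : ℝ) + 4 + l) * (4 * ((d : ℝ) + 1)) +
            (2 * (s : ℝ) + 2) * (2 * ((n : ℝ) + 1)))) := by
        rw [← Real.rpow_add (by norm_num), ← Real.rpow_add (by norm_num),
          ← Real.rpow_add (by norm_num)]
    _ ≤ _ := by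
        apply Real.rpow_le_rpow_of_exponent_le (by norm_num)
        -- bounds of the products
        have e1 : (s : ℝ) * (((n : ℝ) + 1)) ≤ 5 * ((n : ℝ) + 1) + R + L := by
          calc (s : ℝ) * (((n : ℝ) + 1)) ≤ (σ + 5) * ((n : ℝ) + 1) :=
                mul_le_mul_of_nonneg_right hsu hn1.le
            _ = 5 * ((n : ℝ) + 1) + ((n : ℝ) + 1) * σ := by ring
            _ ≤ _ := by linarith
        -- `l * d ≤ 4 L l / s + l`
        have e2 : L * l ≤ s * (R + L) := by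
          have h1 : L * l = (((n : ℝ) + 1) * σ) * σ := by
            have : ((n : ℝ) + 1) * σ * σ = ((n : ℝ) + 1) * σ ^ 2 := by ring
            rw [this, hσ2]; field_simp
          rw [h1]
          calc (((n : ℝ) + 1) * σ) * σ ≤ (R + L) * s :=
                mul_le_mul hA hsσ hσ0 (by linarith)
            _ = _ := by ring
        have e3 : (d : ℝ) * l ≤ 4 * (R + L) + l := by
          have h1 : (d : ℝ) * s ≤ 4 * L + s := by linarith
          have h2 : (d : ℝ) * s * l ≤ (4 * L + s) * l := mul_le_mul_of_nonneg_right h1 hl0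
          have h3 : ((d : ℝ) * l) * s ≤ (4 * (R + L) + l) * s := by
            calc ((d : ℝ) * l) * s = (d : ℝ) * s * l := by ring
              _ ≤ (4 * L + s) * l := h2
              _ = 4 * (L * l) + s * l := by ring
              _ ≤ 4 * (s * (R + L)) + s * l := by linarith
              _ = _ := by ring
          exact le_of_mul_le_mul_right h3 hs0
        have e4 : (d : ℝ) * s ≤ 4 * L + s := by linarith
        nlinarith
end Pool.Agent.Lib.MP_6216ea_lc.TSCat
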