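import Mathlib
import Pool.Agent.Lib.MP_6216ea_lc.TSCode

/-!
# A gadget with a small memory

The memory is a vector `u` over `ZMod (2 * Q)` and one element of `ZMod m`. A value is a word in
`{0, …, Q - 1} ^ d`, `k ≤ Q ^ d`. The fingerprint also stores, for each coordinate, the half of
`ZMod (2 * Q)` which contains the coordinate of the memory.
-/

namespace Pool.Agent.Lib.MP_6216ea_lc.TSCat

open Pool.Agent.Lib.MP_6216ea_lc

/-- In the same half, congruence modulo `2 * Q` becomes equality. -/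
theorem rep_eq {Q : ℕ} [NeZero (2 * Q)] (a : ZMod (2 * Q)) (x y : Fin Q)
    (h : (a + ((y : ℕ) : ZMod (2 * Q)) - ((x : ℕ) : ZMod (2 * Q))).val / Q = a.val / Q) :
    (((a + ((y : ℕ) : ZMod (2 * Q)) - ((x : ℕ) : ZMod (2 * Q))).val : ℕ) : ℤ) =
      (a.val : ℤ) + ((y : ℕ) : ℤ) - ((x : ℕ) : ℤ) := by
  have hQ : 0 < Q := x.pos
  have hx := x.isLt
  have hy := y.isLt
  obtain ⟨b, hb⟩ : ∃ b, b = a + ((y : ℕ) : ZMod (2 * Q)) - ((x : ℕ) : ZMod (2 * Q)) := ⟨_, rfl⟩
  rw [← hb] at h ⊢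
  have h1 : ((((b.val : ℕ) : ℤ) - ((a.val : ℤ) + ((y : ℕ) : ℤ) - ((x : ℕ) : ℤ)) : ℤ) :
      ZMod (2 * Q)) = 0 := by
    push_cast
    rw [ZMod.natCast_zmod_val, ZMod.natCast_zmod_val, hb]
    ring
  rw [ZMod.intCast_zmod_eq_zero_iff_dvd] at h1
  have h2 := Nat.div_add_mod b.val Q
  have h3 := Nat.div_add_mod a.val Q
  have h4 := Nat.mod_lt b.val hQ
  have h5 := Nat.mod_lt a.val hQ
  rw [h] at h2
  have h6 : ((b.val : ℕ) : ℤ) - ((a.val : ℤ) + ((y : ℕ) : ℤ) - ((x : ℕ) : ℤ)) = 0 := by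
    apply Int.eq_zero_of_abs_lt_dvd h1
    rw [abs_lt]
    push_cast
    constructor <;> omega
  linarith

section gadget

variable (d Q m : ℕ)

/-- the vector of a word -/
def bvec (e : Fin d → Fin Q) : (Fin d → ZMod (2 * Q)) × ZMod m :=
  (fun i => ((e i : ℕ) : ZMod (2 * Q)), ∑ i, ((e i : ℕ) : ZMod m) ^ 2)

/-- the fingerprint -/
def bfing (e : Fin d → Fin Q) (u : (Fin d → ZMod (2 * Q)) × ZMod m) : (Fin d → ℕ) × ZMod m :=
  (fun i => (u.1 i).val / Q, u.2 - 2 * ∑ i, ((e i : ℕ) : ZMod m) * (((u.1 i).val : ℕ) : ZMod m))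

theorem bfing_inj [NeZero (2 * Q)] (hm : d * (Q - 1) ^ 2 < m) (e f : Fin d → Fin Q)
    (u : (Fin d → ZMod (2 * Q)) × ZMod m)
    (h : bfing d Q m e (u + bvec d Q m f - bvec d Q m e) = bfing d Q m e u) : f = e := by
  simp only [bfing, Prod.mk.injEq] at h
  obtain ⟨h1, h2⟩ := h
  have h3 : ∀ i, ((((u + bvec d Q m f - bvec d Q m e).1 i).val : ℕ) : ℤ) =
      ((u.1 i).val : ℤ) + ((f i : ℕ) : ℤ) - ((e i : ℕ) : ℤ) := fun i =>
    rep_eq (u.1 i) (e i) (f i) (congrFun h1 i)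
  have h4 : ∀ i, ((((u + bvec d Q m f - bvec d Q m e).1 i).val : ℕ) : ZMod m) =
      (((u.1 i).val : ℕ) : ZMod m) + ((f i : ℕ) : ZMod m) - ((e i : ℕ) : ZMod m) := by
    intro i
    have := congrArg (fun z : ℤ => (z : ZMod m)) (h3 i)
    push_cast at this
    exact this
  have h5 : (sqd d Q e f : ZMod m) = 0 := by
    have h6 := lin_add_vec d Q m e f (fun i => (((u.1 i).val : ℕ) : ZMod m), u.2)
    have h7 : ∑ i, ((e i : ℕ) : ZMod m) *
        ((((u + bvec d Q m f - bvec d Q m e).1 i).val : ℕ) : ZMod m) =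
        ∑ i, ((e i : ℕ) : ZMod m) * (((u.1 i).val : ℕ) : ZMod m) +
        (∑ i, ((e i : ℕ) : ZMod m) * ((f i : ℕ) : ZMod m) -
          ∑ i, ((e i : ℕ) : ZMod m) ^ 2) := by
      rw [← Finset.sum_sub_distrib, ← Finset.sum_add_distrib]
      refine Finset.sum_congr rfl fun i _ => ?_
      rw [h4]
      ring
    have h8 : (u + bvec d Q m f - bvec d Q m e).2 =
        u.2 + ∑ i, ((f i : ℕ) : ZMod m) ^ 2 - ∑ i, ((e i : ℕ) : ZMod m) ^ 2 := rfl
    have h9 : ∑ i, ((e i : ℕ) : ZMod m) *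
        (((fun i => (((u.1 i).val : ℕ) : ZMod m), u.2) : (Fin d → ZMod m) × ZMod m) +
          vec d Q m f).1 i = ∑ i, ((e i : ℕ) : ZMod m) * (((u.1 i).val : ℕ) : ZMod m) +
        ∑ i, ((e i : ℕ) : ZMod m) * ((f i : ℕ) : ZMod m) := by
      rw [← Finset.sum_add_distrib]
      refine Finset.sum_congr rfl fun i _ => ?_
      rw [Prod.fst_add, Pi.add_apply, mul_add]
      rfl
    unfold lin at h6
    rw [h9, Prod.snd_add] at h6
    simp only [vec] at h6
    rw [h7, h8] at h2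
    linear_combination h2 - h6
  rw [ZMod.natCast_eq_zero_iff] at h5
  have h6 : sqd d Q e f = 0 :=
    Nat.eq_zero_of_dvd_of_lt h5 ((sqd_le d Q e f).trans_lt hm)
  have h7 := le_sqd d Q e f
  rw [h6, Nat.le_zero, hammingDist_eq_zero] at h7
  exact h7.symm

end gadget

/-- Small programs from a box. -/
theorem exists_nbp_box (n k Q d m : ℕ) (hQ : 0 < Q) (hk : k ≤ Q ^ d)
    (hm : d * (Q - 1) ^ 2 < m) (r : Fin k) :
    ∃ (S : Type) (_ : Fintype S) (P : NBP n k S), Solves P r ∧ Thrifty P ∧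
      TimeAtMost P r ((4 ^ (n + 1) - 1) / 3) ∧
      Fintype.card S ≤ 4 ^ (n + 1) * (k ^ 2 + 1) *
        (((2 * Q) ^ d * m) ^ 4 * (2 ^ d * m) ^ (2 * (n + 1))) := by
  have hemb : Nonempty (Fin k ↪ (Fin d → Fin Q)) := by
    apply Function.Embedding.nonempty_of_card_le
    simpa using hk
  obtain ⟨e⟩ := hemb
  have hm0 : 0 < m := by omega
  have : NeZero m := ⟨hm0.ne'⟩
  have : NeZero (2 * Q) := ⟨by omega⟩
  have hhalf : ∀ a : ZMod (2 * Q), a.val / Q < 2 := by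
    intro a
    apply Nat.div_lt_of_lt_mul
    have := ZMod.val_lt a
    omega
  let φ : Fin k → ((Fin d → ZMod (2 * Q)) × ZMod m) → (Fin d → Fin 2) × ZMod m := fun x u =>
    (fun i => ⟨(u.1 i).val / Q, hhalf _⟩, (bfing d Q m (e x) u).2)
  let ψ : Fin k → ((Fin d → ZMod (2 * Q)) × ZMod m) → (Fin d → Fin 2) × ZMod m := fun x u =>
    φ x (u - bvec d Q m (e x))
  have hφ : ∀ x u v, φ x u = φ x v → bfing d Q m (e x) u = bfing d Q m (e x) v := by
    intro x u v h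
    simp only [φ, Prod.mk.injEq] at h
    refine Prod.ext ?_ h.2
    funext i
    have := congrFun h.1 i
    rw [Fin.mk.injEq] at this
    exact this
  obtain ⟨S, hS, P, h1, h2, h3, h4⟩ := exists_nbp (t := fun x => bvec d Q m (e x))
    (φ := φ) (ψ := ψ) r (by
      intro x y u
      constructor
      · intro hxy
        exact e.injective (bfing_inj d Q m hm (e x) (e y) u (hφ x _ _ hxy))
      · intro hxy
        subst hxy
        simp only [ψ, add_sub_cancel_right]) n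
  refine ⟨S, hS, P, h1, h2, h3, h4.trans (le_of_eq ?_)⟩
  have hG : Fintype.card ((Fin d → ZMod (2 * Q)) × ZMod m) = (2 * Q) ^ d * m := by
    rw [Fintype.card_prod, Fintype.card_fun, ZMod.card, ZMod.card, Fintype.card_fin]
  have hH : Fintype.card ((Fin d → Fin 2) × ZMod m) = 2 ^ d * m := by
    rw [Fintype.card_prod, Fintype.card_fun, ZMod.card, Fintype.card_fin, Fintype.card_fin]
  rw [hG, hH]

end Pool.Agent.Lib.MP_6216ea_lc.TSCat
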