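import Mathlib
import Pool.Agent.Lib.MP_6216ea_lc.TSBox
import Pool.Agent.Lib.MP_6216ea_lc.TSBound

/-!
# Small height
-/

namespace Pool.Agent.Lib.MP_6216ea_lc.TSCat

open Pool.Agent.Lib.MP_6216ea_lc

/-- **Bound for small height.** -/
theorem small_height (n k : ℕ) (hk : 2 ≤ k) (r : Fin k) :
    ∃ (S : Type) (_ : Fintype S) (P : NBP n k S), Solves P r ∧ Thrifty P ∧
      TimeAtMost P r ((4 ^ (n + 1) - 1) / 3) ∧
      (Fintype.card S : ℝ) ≤ (k : ℝ) ^ 6 *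
        (2 : ℝ) ^ (75 * ((n : ℝ) + 1) * √(Real.logb 2 k)) := by
  have hk0 : (0 : ℝ) < k := by positivity
  have hk2 : (2 : ℝ) ≤ k := by exact_mod_cast hk
  set L : ℝ := Real.logb 2 k with hL
  have hL1 : 1 ≤ L := by
    rw [hL, Real.le_logb_iff_rpow_le (by norm_num) hk0]
    simpa using hk2
  have hkL : (2 : ℝ) ^ L = k := Real.rpow_logb (by norm_num) (by norm_num) hk0
  set R : ℝ := √L with hR
  have hR2 : R ^ 2 = L := Real.sq_sqrt (by linarith)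
  have hR1 : 1 ≤ R := by
    rw [hR, Real.one_le_sqrt]
    exact hL1
  have hn0 : (0 : ℝ) ≤ n := Nat.cast_nonneg n
  obtain ⟨κ, hκ⟩ : ∃ κ : ℕ, κ = ⌈L⌉₊ := ⟨_, rfl⟩
  have hκL : L ≤ κ := by rw [hκ]; exact Nat.le_ceil L
  have hκu : (κ : ℝ) ≤ L + 1 := by rw [hκ]; exact (Nat.ceil_lt_add_one (by linarith)).le
  have hkκ : k ≤ 2 ^ κ := by
    have : (k : ℝ) ≤ (2 : ℝ) ^ κ := by
      rw [← hkL, ← Real.rpow_natCast]
      exact Real.rpow_le_rpow_of_exponent_le (by norm_num) hκL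
    exact_mod_cast this
  obtain ⟨d, hd⟩ : ∃ d : ℕ, d = ⌈R⌉₊ := ⟨_, rfl⟩
  have hdR : R ≤ d := by rw [hd]; exact Nat.le_ceil R
  have hdu : (d : ℝ) ≤ R + 1 := by rw [hd]; exact (Nat.ceil_lt_add_one (by linarith)).le
  have hd1 : (1 : ℝ) ≤ d := hR1.trans hdR
  have hd1' : 0 < d := by
    rcases Nat.eq_zero_or_pos d with h0 | h0
    · rw [h0] at hd1; norm_num at hd1
    · exact h0
  obtain ⟨a, ha⟩ : ∃ a : ℕ, a = κ / d + 1 := ⟨_, rfl⟩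
  have had : κ ≤ a * d := by
    rw [ha, add_mul, one_mul]
    have h1 := Nat.div_add_mod κ d
    have h2 := Nat.mod_lt κ hd1'
    have h3 : d * (κ / d) = κ / d * d := mul_comm _ _
    omega
  have hadu : a * d ≤ κ + d := by
    rw [ha, add_mul, one_mul]
    exact Nat.add_le_add_right (Nat.div_mul_le_self _ _) _
  have hadu' : (a : ℝ) * d ≤ κ + d := by exact_mod_cast hadu
  have hau : (a : ℝ) ≤ 3 * R := by
    by_contra hcon
    push Not at hcon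
    nlinarith
  have hkQ : k ≤ (2 ^ a) ^ d := by
    rw [← pow_mul]
    exact hkκ.trans (Nat.pow_le_pow_right (by norm_num) had)
  have hm : d * (2 ^ a - 1) ^ 2 < d * (2 ^ a) ^ 2 := by
    have h1 : (0 : ℕ) < 2 ^ a := by positivity
    exact Nat.mul_lt_mul_of_pos_left (Nat.pow_lt_pow_left (by omega) (by norm_num)) hd1'
  obtain ⟨S, hS, P, a1, a2, a3, a4⟩ :=
    exists_nbp_box n k (2 ^ a) d (d * (2 ^ a) ^ 2) (by positivity) hkQ hm r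
  refine ⟨S, hS, P, a1, a2, a3, ?_⟩
  have hdp : (d : ℝ) ≤ (2 : ℝ) ^ (d : ℝ) := by
    rw [Real.rpow_natCast]
    exact_mod_cast (Nat.lt_two_pow_self (n := d)).le
  have hmb : (d : ℝ) * ((2 : ℝ) ^ a) ^ 2 ≤ (2 : ℝ) ^ (8 * R) := by
    have h1 : ((2 : ℝ) ^ a) ^ 2 = (2 : ℝ) ^ (2 * (a : ℝ)) := by
      rw [mul_comm 2 (a : ℝ), Real.rpow_mul (by norm_num), Real.rpow_natCast]
      norm_num
    rw [h1]
    calc (d : ℝ) * (2 : ℝ) ^ (2 * (a : ℝ)) ≤ (2 : ℝ) ^ (d : ℝ) * (2 : ℝ) ^ (2 * (a : ℝ)) :=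
          mul_le_mul_of_nonneg_right hdp (by positivity)
      _ = (2 : ℝ) ^ ((d : ℝ) + 2 * (a : ℝ)) := by rw [← Real.rpow_add (by norm_num)]
      _ ≤ _ := Real.rpow_le_rpow_of_exponent_le (by norm_num) (by linarith)
  have hG : ((2 : ℝ) * 2 ^ a) ^ d ≤ (2 : ℝ) ^ (L + 5 * R) := by
    have h1 : ((2 : ℝ) * 2 ^ a) ^ d = (2 : ℝ) ^ (((a * d + d : ℕ) : ℝ)) := by
      rw [Real.rpow_natCast, pow_add, pow_mul, mul_pow]
      ring
    rw [h1]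
    apply Real.rpow_le_rpow_of_exponent_le (by norm_num)
    push_cast
    linarith
  have hGm : ((2 : ℝ) * 2 ^ a) ^ d * ((d : ℝ) * ((2 : ℝ) ^ a) ^ 2) ≤
      (2 : ℝ) ^ (L + 13 * R) := by
    calc _ ≤ (2 : ℝ) ^ (L + 5 * R) * (2 : ℝ) ^ (8 * R) :=
          mul_le_mul hG hmb (by positivity) (by positivity)
      _ = (2 : ℝ) ^ (L + 5 * R + 8 * R) := by rw [← Real.rpow_add (by norm_num)]
      _ = _ := by congr 1; ring
  have hH : (2 : ℝ) ^ d * ((d : ℝ) * ((2 : ℝ) ^ a) ^ 2) ≤ (2 : ℝ) ^ (10 * R) := by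
    calc (2 : ℝ) ^ d * ((d : ℝ) * ((2 : ℝ) ^ a) ^ 2) ≤ (2 : ℝ) ^ (2 * R) * (2 : ℝ) ^ (8 * R) := by
          refine mul_le_mul ?_ hmb (by positivity) (by positivity)
          rw [← Real.rpow_natCast]
          exact Real.rpow_le_rpow_of_exponent_le (by norm_num) (by linarith)
      _ = (2 : ℝ) ^ (2 * R + 8 * R) := by rw [← Real.rpow_add (by norm_num)]
      _ = _ := by congr 1; ring
  have hb2 : (k : ℝ) ^ 2 + 1 ≤ (2 : ℝ) ^ (1 + 2 * L) := by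
    have : (2 : ℝ) ^ (1 + 2 * L) = 2 * (k : ℝ) ^ 2 := by
      rw [Real.rpow_add (by norm_num), mul_comm 2 L, Real.rpow_mul (by norm_num), hkL]
      norm_num
    rw [this]
    nlinarith
  have hb3 : (4 : ℝ) ^ (n + 1) = (2 : ℝ) ^ (2 * ((n : ℝ) + 1)) := by
    rw [Real.rpow_mul (by norm_num)]
    have : ((n : ℝ) + 1) = ((n + 1 : ℕ) : ℝ) := by push_cast; ring
    rw [this, Real.rpow_natCast]
    norm_num
  have hb4 : (((2 : ℝ) * 2 ^ a) ^ d * ((d : ℝ) * ((2 : ℝ) ^ a) ^ 2)) ^ 4 ≤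
      (2 : ℝ) ^ (4 * (L + 13 * R)) := by
    have : (2 : ℝ) ^ (4 * (L + 13 * R)) = ((2 : ℝ) ^ (L + 13 * R)) ^ 4 := by
      rw [mul_comm 4 (L + 13 * R), Real.rpow_mul (by norm_num)]
      norm_cast
    rw [this]
    exact pow_le_pow_left₀ (by positivity) hGm _
  have hb5 : ((2 : ℝ) ^ d * ((d : ℝ) * ((2 : ℝ) ^ a) ^ 2)) ^ (2 * (n + 1)) ≤
      (2 : ℝ) ^ (10 * R * (2 * ((n : ℝ) + 1))) := by
    have : (2 : ℝ) ^ (10 * R * (2 * ((n : ℝ) + 1))) = ((2 : ℝ) ^ (10 * R)) ^ (2 * (n + 1)) := by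
      rw [Real.rpow_mul (by norm_num), ← Real.rpow_natCast]
      push_cast
      rfl
    rw [this]
    exact pow_le_pow_left₀ (by positivity) hH _
  have hcard : (Fintype.card S : ℝ) ≤ (4 : ℝ) ^ (n + 1) * ((k : ℝ) ^ 2 + 1) *
      ((((2 : ℝ) * 2 ^ a) ^ d * ((d : ℝ) * ((2 : ℝ) ^ a) ^ 2)) ^ 4 *
        ((2 : ℝ) ^ d * ((d : ℝ) * ((2 : ℝ) ^ a) ^ 2)) ^ (2 * (n + 1))) := by
    exact_mod_cast a4
  refine hcard.trans ?_
  have hk6 : (k : ℝ) ^ 6 = (2 : ℝ) ^ (6 * L) := by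
    rw [mul_comm 6 L, Real.rpow_mul (by norm_num), hkL]
    norm_cast
  rw [hb3, hk6, ← Real.rpow_add (by norm_num)]
  calc _ ≤ (2 : ℝ) ^ (2 * ((n : ℝ) + 1)) * (2 : ℝ) ^ (1 + 2 * L) *
        ((2 : ℝ) ^ (4 * (L + 13 * R)) * (2 : ℝ) ^ (10 * R * (2 * ((n : ℝ) + 1)))) := by
        gcongr
    _ = (2 : ℝ) ^ (2 * ((n : ℝ) + 1) + (1 + 2 * L) +
          (4 * (L + 13 * R) + 10 * R * (2 * ((n : ℝ) + 1)))) := by
        rw [← Real.rpow_add (by norm_num), ← Real.rpow_add (by norm_num),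
          ← Real.rpow_add (by norm_num)]
    _ ≤ _ := by
        apply Real.rpow_le_rpow_of_exponent_le (by norm_num)
        nlinarith [mul_nonneg hn0 (by linarith : (0:ℝ) ≤ R - 1)]

end Pool.Agent.Lib.MP_6216ea_lc.TSCat
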