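import Mathlib

/-!
# Finite one-way stack machines accept context-free languages
-/

set_option autoImplicit false

namespace Pool.Agent.MP_6216ea_lc

structure SM (T Q S : Type) where
  neu : Q → T → Q → Prop
  push : Q → T → S → Q → Prop
  pop : Q → T → S → Q → Prop
  start : Q
  acc : Q → Prop

inductive SM.Run {T Q S : Type} (M : SM T Q S) : Q → List S → List T → Q → List S → Prop
  | nil (q : Q) (s : List S) : SM.Run M q s [] q s
  | neu {p q r : Q} {t : T} {s s2 : List S} {w : List T} :
      M.neu p t q → SM.Run M q s w r s2 → SM.Run M p s (t :: w) r s2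
  | push {p q r : Q} {t : T} {b : S} {s s2 : List S} {w : List T} :
      M.push p t b q → SM.Run M q (b :: s) w r s2 → SM.Run M p s (t :: w) r s2
  | pop {p q r : Q} {t : T} {b : S} {s s2 : List S} {w : List T} :
      M.pop p t b q → SM.Run M q s w r s2 → SM.Run M p (b :: s) (t :: w) r s2

def SM.lang {T Q S : Type} (M : SM T Q S) : Language T :=
  {w | ∃ q, M.acc q ∧ M.Run M.start [] w q []}

namespace SM

variable {T Q S : Type}

theorem Run.append {M : SM T Q S} {p q r : Q} {s s2 s3 : List S} {u v : List T}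
    (h : M.Run p s u q s2) (h' : M.Run q s2 v r s3) : M.Run p s (u ++ v) r s3 := by
  induction h with
  | nil q s => exact h'
  | neu h1 _ ih => exact Run.neu h1 (ih h')
  | push h1 _ ih => exact Run.push h1 (ih h')
  | pop h1 _ ih => exact Run.pop h1 (ih h')

/-- runs which return to the initial stack and never look below it -/
inductive Bal (M : SM T Q S) : Q → Q → List T → Prop
  | nil (p : Q) : Bal M p p []
  | neu {p q : Q} {t : T} : M.neu p t q → Bal M p q [t]
  | app {p q r : Q} {u v : List T} : Bal M p r u → Bal M r q v → Bal M p q (u ++ v)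
  | pp {p q p1 q1 : Q} {t t1 : T} {b : S} {w : List T} : M.push p t b p1 → Bal M p1 q1 w →
      M.pop q1 t1 b q → Bal M p q (t :: (w ++ [t1]))

theorem Bal.run {M : SM T Q S} {p q : Q} {w : List T} (h : M.Bal p q w) (s : List S) :
    M.Run p s w q s := by
  induction h generalizing s with
  | nil p => exact Run.nil p s
  | neu h => exact Run.neu h (Run.nil _ _)
  | app _ _ ih1 ih2 => exact (ih1 s).append (ih2 s)
  | pp h1 _ h2 ih => exact Run.push h1 ((ih _).append (Run.pop h2 (Run.nil _ _)))

/-- runs which empty the stack, cut at the moments where the symbols of the stack are popped -/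
def BalStack (M : SM T Q S) : Q → List S → List T → Q → Prop
  | p, [], w, q => M.Bal p q w
  | p, b :: s, w, q => ∃ w0 p1 t p2 w1, w = w0 ++ t :: w1 ∧ M.Bal p p1 w0 ∧ M.pop p1 t b p2 ∧
      BalStack M p2 s w1 q

theorem BalStack.prepend {M : SM T Q S} {p q r : Q} {u w : List T} {s : List S}
    (h : M.Bal p q u) (h' : M.BalStack q s w r) : M.BalStack p s (u ++ w) r := by
  cases s with
  | nil => exact Bal.app h h'
  | cons b s =>
    obtain ⟨w0, p1, t, p2, w1, rfl, h1, h2, h3⟩ := h'
    exact ⟨u ++ w0, p1, t, p2, w1, by simp, Bal.app h h1, h2, h3⟩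

theorem Run.balStack {M : SM T Q S} {p q : Q} {s s2 : List S} {w : List T}
    (h : M.Run p s w q s2) (hs : s2 = []) : M.BalStack p s w q := by
  induction h with
  | nil q s =>
    subst hs
    exact Bal.nil q
  | neu h1 _ ih => exact BalStack.prepend (Bal.neu h1) (ih hs)
  | push h1 _ ih =>
    obtain ⟨w0, p1, t', p2, w1, rfl, h2, h3, h4⟩ := ih hs
    have h5 := BalStack.prepend (Bal.pp h1 h2 h3) h4
    simpa using h5
  | pop h1 _ ih => exact ⟨[], _, _, _, _, rfl, Bal.nil _, h1, ih hs⟩

theorem mem_lang_iff (M : SM T Q S) (w : List T) :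
    w ∈ M.lang ↔ ∃ q, M.acc q ∧ M.Bal M.start q w := by
  constructor
  · rintro ⟨q, hq, h⟩
    exact ⟨q, hq, h.balStack rfl⟩
  · rintro ⟨q, hq, h⟩
    exact ⟨q, hq, h.run []⟩

/-- the rules of the grammar -/
inductive IsRule (M : SM T Q S) : ContextFreeRule T (Option (Q × Q)) → Prop
  | start {q : Q} (h : M.acc q) : IsRule M ⟨none, [.nonterminal (some (M.start, q))]⟩
  | nil (p : Q) : IsRule M ⟨some (p, p), []⟩
  | app (p r q : Q) : IsRule M ⟨some (p, q), [.nonterminal (some (p, r)), .nonterminal (some (r, q))]⟩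
  | neu {p q : Q} {t : T} (h : M.neu p t q) : IsRule M ⟨some (p, q), [.terminal t]⟩
  | pp {p q p1 q1 : Q} {t t1 : T} {b : S} (h1 : M.push p t b p1) (h2 : M.pop q1 t1 b q) :
      IsRule M ⟨some (p, q), [.terminal t, .nonterminal (some (p1, q1)), .terminal t1]⟩

theorem finite_rules [Finite T] [Finite Q] [Finite S] (M : SM T Q S) :
    {r | M.IsRule r}.Finite := by
  let f1 : Q → ContextFreeRule T (Option (Q × Q)) := fun q => ⟨none, [.nonterminal (some (M.start, q))]⟩
  let f2 : Q → ContextFreeRule T (Option (Q × Q)) := fun p => ⟨some (p, p), []⟩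
  let f3 : Q × Q × Q → ContextFreeRule T (Option (Q × Q)) := fun x =>
    ⟨some (x.1, x.2.2), [.nonterminal (some (x.1, x.2.1)), .nonterminal (some (x.2.1, x.2.2))]⟩
  let f4 : Q × Q × T → ContextFreeRule T (Option (Q × Q)) := fun x =>
    ⟨some (x.1, x.2.1), [.terminal x.2.2]⟩
  let f5 : (Q × Q) × (Q × Q) × (T × T) → ContextFreeRule T (Option (Q × Q)) := fun x =>
    ⟨some x.1, [.terminal x.2.2.1, .nonterminal (some x.2.1), .terminal x.2.2.2]⟩
  have hfin : (Set.range f1 ∪ Set.range f2 ∪ Set.range f3 ∪ Set.range f4 ∪ Set.range f5).Finite :=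
    ((((Set.finite_range f1).union (Set.finite_range f2)).union (Set.finite_range f3)).union
      (Set.finite_range f4)).union (Set.finite_range f5)
  refine hfin.subset ?_
  rintro r hr
  cases hr with
  | start h => exact Or.inl (Or.inl (Or.inl (Or.inl ⟨_, rfl⟩)))
  | nil p => exact Or.inl (Or.inl (Or.inl (Or.inr ⟨p, rfl⟩)))
  | app p r q => exact Or.inl (Or.inl (Or.inr ⟨(p, r, q), rfl⟩))
  | @neu p q t h => exact Or.inl (Or.inr ⟨(p, q, t), rfl⟩)
  | @pp p q p1 q1 t t1 b h1 h2 => exact Or.inr ⟨((p, q), (p1, q1), (t, t1)), rfl⟩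

/-- the grammar -/
noncomputable def gram [Finite T] [Finite Q] [Finite S] (M : SM T Q S) : ContextFreeGrammar T where
  NT := Option (Q × Q)
  initial := none
  rules := M.finite_rules.toFinset

theorem produces_of_isRule [Finite T] [Finite Q] [Finite S] {M : SM T Q S}
    {r : ContextFreeRule T (Option (Q × Q))} (hr : M.IsRule r) :
    M.gram.Produces [.nonterminal r.input] r.output :=
  ⟨r, M.finite_rules.mem_toFinset.mpr hr, ContextFreeRule.Rewrites.input_output⟩

theorem Bal.derives [Finite T] [Finite Q] [Finite S] {M : SM T Q S} {p q : Q} {w : List T}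
    (h : M.Bal p q w) : M.gram.Derives [.nonterminal (some (p, q))] (w.map Symbol.terminal) := by
  induction h with
  | nil p => exact (produces_of_isRule (IsRule.nil p)).single
  | neu h => exact (produces_of_isRule (IsRule.neu h)).single
  | @app p q r u v h1 h2 ih1 ih2 =>
    rw [List.map_append]
    have e1 : M.gram.Derives [.nonterminal (some (p, q))]
        ([.nonterminal (some (p, r))] ++ [.nonterminal (some (r, q))]) :=
      (produces_of_isRule (IsRule.app p r q)).single
    have e2 := ContextFreeGrammar.Derives.append_right ih1 [.nonterminal (some (r, q))]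
    have e3 := ContextFreeGrammar.Derives.append_left ih2 (u.map Symbol.terminal)
    exact (e1.trans e2).trans e3
  | @pp p q p1 q1 t t1 b w h1 h2 h3 ih =>
    have e1 : M.gram.Derives [.nonterminal (some (p, q))]
        ([.terminal t] ++ ([.nonterminal (some (p1, q1))] ++ [.terminal t1])) :=
      (produces_of_isRule (IsRule.pp h1 h3)).single
    have e2 := ContextFreeGrammar.Derives.append_left
      (ContextFreeGrammar.Derives.append_right ih [.terminal t1]) [.terminal t]
    have e3 := e1.trans e2
    simpa using e3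

/-- the words described by a symbol -/
def SemSym (M : SM T Q S) : Symbol T (Option (Q × Q)) → List T → Prop
  | .terminal t, u => u = [t]
  | .nonterminal none, u => ∃ q, M.acc q ∧ M.Bal M.start q u
  | .nonterminal (some x), u => M.Bal x.1 x.2 u

/-- the words described by a sentential form -/
def Sem (M : SM T Q S) : List (Symbol T (Option (Q × Q))) → List T → Prop
  | [], w => w = []
  | x :: l, w => ∃ u v, w = u ++ v ∧ M.SemSym x u ∧ Sem M l v

theorem sem_append (M : SM T Q S) (l l' : List (Symbol T (Option (Q × Q)))) (w : List T) :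
    M.Sem (l ++ l') w ↔ ∃ u v, w = u ++ v ∧ M.Sem l u ∧ M.Sem l' v := by
  induction l generalizing w with
  | nil =>
    constructor
    · intro h
      exact ⟨[], w, rfl, rfl, h⟩
    · rintro ⟨u, v, rfl, hu, hv⟩
      have : u = [] := hu
      subst this
      exact hv
  | cons x l ih =>
    constructor
    · rintro ⟨u, v, rfl, hu, hv⟩
      obtain ⟨a, b, rfl, ha, hb⟩ := (ih v).mp hv
      exact ⟨u ++ a, b, by simp, ⟨u, a, rfl, hu, ha⟩, hb⟩
    · rintro ⟨u, v, rfl, ⟨a, b, rfl, ha, hb⟩, hv⟩
      exact ⟨a, b ++ v, by simp, ha, (ih _).mpr ⟨b, v, rfl, hb, hv⟩⟩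

theorem sem_singleton (M : SM T Q S) (x : Symbol T (Option (Q × Q))) (w : List T) :
    M.Sem [x] w ↔ M.SemSym x w := by
  constructor
  · rintro ⟨u, v, rfl, hu, hv⟩
    have : v = [] := hv
    subst this
    simpa using hu
  · intro h
    exact ⟨w, [], by simp, h, rfl⟩

theorem sem_rule {M : SM T Q S} {r : ContextFreeRule T (Option (Q × Q))} (hr : M.IsRule r)
    {w : List T} (h : M.Sem r.output w) : M.SemSym (.nonterminal r.input) w := by
  cases hr with
  | start hq => exact ⟨_, hq, (sem_singleton M _ w).mp h⟩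
  | nil p =>
    have : w = [] := h
    subst this
    exact Bal.nil p
  | app p r q =>
    obtain ⟨u, v, rfl, hu, hv⟩ := h
    have hv' := (sem_singleton M _ v).mp hv
    exact Bal.app hu hv'
  | neu h1 =>
    have := (sem_singleton M _ w).mp h
    have e : w = [_] := this
    subst e
    exact Bal.neu h1
  | pp h1 h2 =>
    obtain ⟨u, v, rfl, hu, ⟨a, b, rfl, ha, hb⟩⟩ := h
    have hb' := (sem_singleton M _ b).mp hb
    have e1 : u = [_] := hu
    have e2 : b = [_] := hb'
    subst e1 e2
    exact Bal.pp h1 ha h2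

theorem sem_produces [Finite T] [Finite Q] [Finite S] {M : SM T Q S}
    {a b : List (Symbol T (Option (Q × Q)))} (h : M.gram.Produces a b) {w : List T}
    (hb : M.Sem b w) : M.Sem a w := by
  obtain ⟨r, hr, hrw⟩ := h
  have hr' : M.IsRule r := M.finite_rules.mem_toFinset.mp hr
  obtain ⟨p, q, rfl, rfl⟩ := hrw.exists_parts
  obtain ⟨u, v, rfl, hu, hv⟩ := (sem_append M _ _ _).mp hb
  obtain ⟨u1, u2, rfl, hu1, hu2⟩ := (sem_append M _ _ _).mp hu
  exact (sem_append M _ _ _).mpr ⟨u1 ++ u2, v, rfl, (sem_append M _ _ _).mpr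
    ⟨u1, u2, rfl, hu1, (sem_singleton M _ u2).mpr (sem_rule hr' hu2)⟩, hv⟩

theorem sem_terminal (M : SM T Q S) (w : List T) : M.Sem (w.map Symbol.terminal) w := by
  induction w with
  | nil => rfl
  | cons t w ih => exact ⟨[t], w, rfl, rfl, ih⟩

theorem sem_derives [Finite T] [Finite Q] [Finite S] {M : SM T Q S}
    {a b : List (Symbol T (Option (Q × Q)))} (h : M.gram.Derives a b) {w : List T}
    (hb : M.Sem b w) : M.Sem a w := by
  induction h with
  | refl => exact hb
  | tail _ h2 ih => exact ih (sem_produces h2 hb)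

theorem isContextFree {T Q S : Type} [Finite T] [Finite Q] [Finite S] (M : SM T Q S) :
    M.lang.IsContextFree := by
  refine ⟨M.gram, ?_⟩
  ext w
  rw [mem_lang_iff, ContextFreeGrammar.mem_language_iff]
  constructor
  · intro h
    exact (sem_singleton M _ w).mp (sem_derives h (sem_terminal M w))
  · rintro ⟨q, hq, h⟩
    have e1 : M.gram.Derives [.nonterminal none] [.nonterminal (some (M.start, q))] :=
      (produces_of_isRule (IsRule.start hq)).single
    exact e1.trans h.derives

end SM

end Pool.Agent.MP_6216ea_lc
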