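import Mathlib
import Pool.Agent.Lib.MP_6216ea_lc.StackMachine
import Pool.Agent.Lib.MP_6216ea_lc.RKDefs

set_option autoImplicit false

namespace Pool.Agent.MP_6216ea_lc

/-- Letters. -/
inductive Lt : Type
  | opn
  | ls
  | lp
  | ts
  | tt (c : Bool)
  | rs
  | kk (c : Bool)
  | cl
deriving DecidableEq, Fintype

/-- States. -/
inductive Sta : Type
  | ready
  | scan
  | pop
  | p1 (c : Bool)
  | p2 (c : Bool)
  | f (c : Bool)
  | fin
deriving DecidableEq, Fintype

/-- Moves. -/
inductive Mv : Type
  | stay (q : Sta)
  | push (b : Bool) (q : Sta)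
  | pop (f : Bool → Sta)
  | halt

/-- The moves of the machine. Stack symbols: `true` is a unit, `false` is a marker. -/
def mv : Sta → Lt → Bool → Mv
  | .ready, .opn, _ => .push false .ready
  | .ready, .ls, _ => .stay .scan
  | .ready, .lp, _ => .stay .ready
  | .scan, .lp, true => .stay .ready
  | .scan, .lp, false => .push true .scan
  | .ready, .ts, _ => .stay .pop
  | .pop, .tt c, _ => .pop (fun b => if b then .pop else .p1 c)
  | .p1 c, .tt _, _ => .push false (.p2 c)
  | .p2 c, .tt _, _ => .push true (.p2 c)
  | .p2 c, .rs, _ => .pop (fun b => if b then .p2 c else .f c)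
  | .f c, .rs, _ => .push true (.f c)
  | .f c, .kk c', b => if c = c' then (if b then .stay .ready else .halt) else .stay (.f c)
  | .ready, .kk _, _ => .stay .ready
  | .ready, .cl, _ => .pop (fun b => if b then .ready else .fin)
  | .fin, .cl, _ => .stay .fin
  | _, _, _ => .halt

/-- The machine as a deterministic pushdown automaton. -/
def rkM : DPDA (Lt × Bool) where
  Q := Sta
  S := Bool
  finQ := inferInstance
  finS := inferInstance
  start := .ready
  accept := fun q => decide (q = .fin)
  step := fun q t top => match mv q t.1 t.2, top with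
    | .stay q', o => some (q', o.toList)
    | .push b q', o => some (q', b :: o.toList)
    | .pop f, some b => some (f b, [])
    | .pop _, none => none
    | .halt, _ => none

end Pool.Agent.MP_6216ea_lc
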