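import Mathlib
import Pool.Agent.Lib.MP_6216ea_lc.RKPda

set_option autoImplicit false

namespace Pool.Agent.MP_6216ea_lc

/-- Simple moves of a deterministic pushdown automaton. -/
inductive GMv (Q S : Type) : Type
  | stay (q : Q)
  | push (b : S) (q : Q)
  | pop (f : S → Q)
  | halt

/-- The step of a simple move. -/
def GMv.step {Q S : Type} : GMv Q S → Option S → Option (Q × List S)
  | .stay q, o => some (q, o.toList)
  | .push b q, o => some (q, b :: o.toList)
  | .pop f, some b => some (f b, [])
  | .pop _, none => none
  | .halt, _ => none

/-- The stack machine of a deterministic pushdown automaton with simple moves. -/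
def DPDA.toSM {T : Type} (M : DPDA T) (g : M.Q → T → GMv M.Q M.S) : SM T M.Q M.S where
  neu := fun q t q' => g q t = .stay q'
  push := fun q t b q' => g q t = .push b q'
  pop := fun q t b q' => ∃ f, g q t = .pop f ∧ q' = f b
  start := M.start
  acc := fun q => M.accept q = true

theorem toList_head?_append_tail {α : Type} (s : List α) : s.head?.toList ++ s.tail = s := by
  cases s <;> simp

theorem dpda_run_some {T : Type} (M : DPDA T) (q q1 : M.Q) (s γ : List M.S) (t : T) (w : List T)
    (h : M.step q t s.head? = some (q1, γ)) : M.run q s (t :: w) = M.run q1 (γ ++ s.tail) w := by
  simp only [DPDA.run, h]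

theorem dpda_run_none {T : Type} (M : DPDA T) (q : M.Q) (s : List M.S) (t : T) (w : List T)
    (h : M.step q t s.head? = none) : M.run q s (t :: w) = none := by
  simp only [DPDA.run, h]

theorem dpda_run_iff {T : Type} (M : DPDA T) (g : M.Q → T → GMv M.Q M.S)
    (hg : ∀ q t o, M.step q t o = (g q t).step o) (w : List T) (q q' : M.Q) (s s' : List M.S) :
    M.run q s w = some (q', s') ↔ (M.toSM g).Run q s w q' s' := by
  induction w generalizing q s with
  | nil =>
    constructor
    · intro h
      simp only [DPDA.run, Option.some.injEq, Prod.mk.injEq] at h
      obtain ⟨rfl, rfl⟩ := h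
      exact SM.Run.nil _ _
    · intro h
      cases h
      rfl
  | cons t w ih =>
    cases hm : g q t with
    | stay q1 =>
      have hs : M.step q t s.head? = some (q1, s.head?.toList) := by
        rw [hg, hm]; rfl
      rw [dpda_run_some M q q1 s _ t w hs, toList_head?_append_tail]
      constructor
      · intro h
        exact SM.Run.neu (M := M.toSM g) hm ((ih q1 s).1 h)
      · intro h
        cases h with
        | neu h1 h2 =>
          have h1' : g q t = _ := h1
          rw [hm] at h1'
          cases h1'
          exact (ih _ _).2 h2
        | push h1 _ =>
          have h1' : g q t = _ := h1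
          rw [hm] at h1'
          cases h1'
        | pop h1 _ =>
          obtain ⟨f, h1', _⟩ := h1
          rw [hm] at h1'
          cases h1'
    | push b q1 =>
      have hs : M.step q t s.head? = some (q1, b :: s.head?.toList) := by
        rw [hg, hm]; rfl
      rw [dpda_run_some M q q1 s _ t w hs, List.cons_append, toList_head?_append_tail]
      constructor
      · intro h
        exact SM.Run.push (M := M.toSM g) hm ((ih q1 (b :: s)).1 h)
      · intro h
        cases h with
        | neu h1 _ =>
          have h1' : g q t = _ := h1
          rw [hm] at h1'
          cases h1'
        | push h1 h2 =>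
          have h1' : g q t = _ := h1
          rw [hm] at h1'
          cases h1'
          exact (ih _ _).2 h2
        | pop h1 _ =>
          obtain ⟨f, h1', _⟩ := h1
          rw [hm] at h1'
          cases h1'
    | pop f =>
      cases s with
      | nil =>
        have hs : M.step q t ([] : List M.S).head? = none := by
          rw [hg, hm]; rfl
        rw [dpda_run_none M q [] t w hs]
        constructor
        · intro h; cases h
        · intro h
          cases h with
          | neu h1 _ =>
            have h1' : g q t = _ := h1
            rw [hm] at h1'
            cases h1'
          | push h1 _ =>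
            have h1' : g q t = _ := h1
            rw [hm] at h1'
            cases h1'
      | cons b s =>
        have hs : M.step q t (b :: s).head? = some (f b, []) := by
          rw [hg, hm]; rfl
        rw [dpda_run_some M q (f b) (b :: s) _ t w hs, List.nil_append, List.tail_cons]
        constructor
        · intro h
          exact SM.Run.pop (M := M.toSM g) ⟨f, hm, rfl⟩ ((ih (f b) s).1 h)
        · intro h
          cases h with
          | neu h1 _ =>
            have h1' : g q t = _ := h1
            rw [hm] at h1'
            cases h1'
          | push h1 _ =>
            have h1' : g q t = _ := h1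
            rw [hm] at h1'
            cases h1'
          | pop h1 h2 =>
            obtain ⟨f', h1', hf'⟩ := h1
            rw [hm] at h1'
            cases h1'
            subst hf'
            exact (ih _ _).2 h2
    | halt =>
      have hs : M.step q t s.head? = none := by
        rw [hg, hm]; rfl
      rw [dpda_run_none M q s t w hs]
      constructor
      · intro h; cases h
      · intro h
        cases h with
        | neu h1 _ =>
          have h1' : g q t = _ := h1
          rw [hm] at h1'
          cases h1'
        | push h1 _ =>
          have h1' : g q t = _ := h1
          rw [hm] at h1'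
          cases h1'
        | pop h1 _ =>
          obtain ⟨f, h1', _⟩ := h1
          rw [hm] at h1'
          cases h1'

theorem dpda_isContextFree {T : Type} [Finite T] (M : DPDA T) (g : M.Q → T → GMv M.Q M.S)
    (hg : ∀ q t o, M.step q t o = (g q t).step o) : M.language.IsContextFree := by
  have e : M.language = (M.toSM g).lang := by
    ext w
    constructor
    · rintro ⟨q, hq, h⟩
      exact ⟨q, hq, (dpda_run_iff M g hg w _ _ _ _).1 h⟩
    · rintro ⟨q, hq, h⟩
      exact ⟨q, hq, (dpda_run_iff M g hg w _ _ _ _).2 h⟩
  rw [e]
  exact SM.isContextFree _

/-- The move of the machine `rkM`. -/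
def Mv.toG : Mv → GMv Sta Bool
  | .stay q => .stay q
  | .push b q => .push b q
  | .pop f => .pop f
  | .halt => .halt

theorem rkM_step_eq (q : Sta) (t : Lt × Bool) (o : Option Bool) :
    rkM.step q t o = ((mv q t.1 t.2).toG).step o := by
  simp only [rkM]
  cases mv q t.1 t.2 <;> cases o <;> rfl

theorem rkM_isContextFree : rkM.language.IsContextFree :=
  dpda_isContextFree rkM (fun q t => (mv q t.1 t.2).toG) rkM_step_eq

end Pool.Agent.MP_6216ea_lc
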