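import Mathlib

set_option autoImplicit false

namespace Pool.Agent.MP_6216ea_lc

/-- correlation of the quadratic character with its shift -/
theorem quad_corr (p : ℕ) [Fact p.Prime] (hp : 2 < p) (a b : ZMod p) (hab : a ≠ b) :
    ∑ y : ZMod p, quadraticChar (ZMod p) (a + y) * quadraticChar (ZMod p) (b + y) = -1 := by
  have h2 : ringChar (ZMod p) ≠ 2 := by
    rw [ZMod.ringChar_zmod_n]; omega
  have hne : quadraticChar (ZMod p) ≠ 1 := quadraticChar_ne_one h2
  have hsum := MulChar.sum_eq_zero_of_ne_one hne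
  -- substitute
  set d := b - a with hd
  have hd0 : d ≠ 0 := sub_ne_zero.2 hab.symm
  have e1 : ∑ y : ZMod p, quadraticChar (ZMod p) (a + y) * quadraticChar (ZMod p) (b + y) =
      ∑ y : ZMod p, quadraticChar (ZMod p) y * quadraticChar (ZMod p) (y + d) := by
    refine Fintype.sum_equiv (Equiv.addLeft a) _ _ ?_
    intro y
    simp only [Equiv.coe_addLeft]
    rw [hd]
    congr 2
    ring
  rw [e1]
  -- the term at `y ≠ 0` is `χ (1 + d / y)`
  have e2 : ∑ y : ZMod p, quadraticChar (ZMod p) y * quadraticChar (ZMod p) (y + d) =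
      ∑ y ∈ Finset.univ.erase (0 : ZMod p), quadraticChar (ZMod p) (1 + d * y⁻¹) := by
    rw [← Finset.sum_erase_add _ _ (Finset.mem_univ (0 : ZMod p))]
    simp only [MulChar.map_zero, zero_mul, add_zero]
    apply Finset.sum_congr rfl
    intro y hy
    have hy0 : y ≠ 0 := Finset.ne_of_mem_erase hy
    have : y + d = y * (1 + d * y⁻¹) := by field_simp
    rw [this, map_mul, ← mul_assoc, ← sq, quadraticChar_sq_one hy0, one_mul]
  rw [e2]
  have e3 : ∑ y ∈ Finset.univ.erase (0 : ZMod p), quadraticChar (ZMod p) (1 + d * y⁻¹) =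
      ∑ z ∈ Finset.univ.erase (1 : ZMod p), quadraticChar (ZMod p) z := by
    refine Finset.sum_bij' (fun y _ => 1 + d * y⁻¹) (fun z _ => d * (z - 1)⁻¹) ?_ ?_ ?_ ?_ ?_
    · intro y hy
      have hy0 : y ≠ 0 := Finset.ne_of_mem_erase hy
      simp only [Finset.mem_erase, Finset.mem_univ, and_true, ne_eq, add_eq_left, mul_eq_zero,
        inv_eq_zero, not_or]
      exact ⟨hd0, hy0⟩
    · intro z hz
      have hz1 : z ≠ 1 := Finset.ne_of_mem_erase hz
      simp only [Finset.mem_erase, Finset.mem_univ, and_true, ne_eq, mul_eq_zero, inv_eq_zero,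
        not_or]
      exact ⟨hd0, sub_ne_zero.2 hz1⟩
    · intro y hy
      have hy0 : y ≠ 0 := Finset.ne_of_mem_erase hy
      simp only [add_sub_cancel_left, mul_inv, inv_inv]
      rw [← mul_assoc, mul_inv_cancel₀ hd0, one_mul]
    · intro z hz
      have hz1 : z - 1 ≠ 0 := sub_ne_zero.2 (Finset.ne_of_mem_erase hz)
      simp only [mul_inv, inv_inv]
      rw [← mul_assoc, mul_inv_cancel₀ hd0, one_mul]
      ring
    · intro y hy
      rfl
  rw [e3]
  have := Finset.sum_erase_add (Finset.univ : Finset (ZMod p)) (fun z => quadraticChar (ZMod p) z)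
    (Finset.mem_univ (1 : ZMod p))
  rw [hsum] at this
  simp only [map_one] at this
  linarith

/-- the quadratic character with the value `1` at `0` -/
def psi (p : ℕ) [Fact p.Prime] (y : ZMod p) : ℤ :=
  quadraticChar (ZMod p) y + (if y = 0 then 1 else 0)

theorem psi_sq (p : ℕ) [Fact p.Prime] (y : ZMod p) : psi p y = 1 ∨ psi p y = -1 := by
  unfold psi
  by_cases hy : y = 0
  · left; simp [hy]
  · rcases quadraticChar_dichotomy hy with h | h
    · left; simp [h, hy]
    · right; simp [h, hy]

theorem quad_le_one (p : ℕ) [Fact p.Prime] (y : ZMod p) : quadraticChar (ZMod p) y ≤ 1 := by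
  by_cases hy : y = 0
  · simp [hy]
  · rcases quadraticChar_dichotomy hy with h | h <;> simp [h]

theorem psi_corr (p : ℕ) [Fact p.Prime] (hp : 2 < p) (a b : ZMod p) (hab : a ≠ b) :
    ∑ y : ZMod p, psi p (a + y) * psi p (b + y) ≤ 1 := by
  have e : ∀ y : ZMod p, psi p (a + y) * psi p (b + y) =
      quadraticChar (ZMod p) (a + y) * quadraticChar (ZMod p) (b + y) +
      (if y = -b then quadraticChar (ZMod p) (a + y) else 0) +
      (if y = -a then quadraticChar (ZMod p) (b + y) else 0) := by
    intro y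
    unfold psi
    have ha : (a + y = 0) ↔ y = -a := by
      rw [add_comm, add_eq_zero_iff_eq_neg]
    have hb : (b + y = 0) ↔ y = -b := by
      rw [add_comm, add_eq_zero_iff_eq_neg]
    simp only [ha, hb]
    by_cases h1 : y = -a
    · have h2 : y ≠ -b := by
        rintro h2
        exact hab (neg_injective (h1.symm.trans h2))
      simp only [h1, if_true]
      have : -a ≠ -b := fun h => hab (neg_injective h)
      simp [this]
    · simp only [h1, if_false, add_zero]
      by_cases h2 : y = -b
      · simp [h2]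
      · simp [h2]
  rw [Finset.sum_congr rfl (fun y _ => e y), Finset.sum_add_distrib, Finset.sum_add_distrib,
    quad_corr p hp a b hab]
  simp only [Finset.sum_ite_eq', Finset.mem_univ, if_true]
  have h1 := quad_le_one p (a + -b)
  have h2 := quad_le_one p (b + -a)
  linarith

/-- A colouring of `ZMod p` without large monochromatic sums `A + B`. -/
theorem exists_char (p : ℕ) [Fact p.Prime] (hp : 2 < p) : ∃ χ : ZMod p → Bool,
    ∀ (A B : Finset (ZMod p)) (s : Bool), (∀ a ∈ A, ∀ b ∈ B, χ (a + b) = s) →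
      A.card * B.card ≤ 2 * p := by
  classical
  refine ⟨fun y => decide (psi p y = 1), ?_⟩
  intro A B s hs
  -- on `A + B` the function is constant
  have hconst : ∃ ε : ℤ, (ε = 1 ∨ ε = -1) ∧ ∀ a ∈ A, ∀ b ∈ B, psi p (a + b) = ε := by
    cases s
    · refine ⟨-1, Or.inr rfl, fun a ha b hb => ?_⟩
      have := hs a ha b hb
      simp only [decide_eq_false_iff_not] at this
      exact (psi_sq p _).resolve_left this
    · refine ⟨1, Or.inl rfl, fun a ha b hb => ?_⟩
      have := hs a ha b hb
      simpa using this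
  obtain ⟨ε, hε, hconst⟩ := hconst
  have hε2 : ε ^ 2 = 1 := by rcases hε with h | h <;> simp [h]
  have h1 : ((B.card * A.card ^ 2 : ℕ) : ℤ) ≤ ∑ y : ZMod p, (∑ a ∈ A, psi p (a + y)) ^ 2 := by
    have h2 : ∑ y ∈ B, (∑ a ∈ A, psi p (a + y)) ^ 2 = ((B.card * A.card ^ 2 : ℕ) : ℤ) := by
      rw [Finset.sum_congr rfl (g := fun _ => ((A.card : ℤ)) ^ 2)]
      · simp
      · intro b hb
        rw [Finset.sum_congr rfl (fun a ha => hconst a ha b hb), Finset.sum_const, nsmul_eq_mul,
          mul_pow, hε2, mul_one]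
    rw [← h2]
    exact Finset.sum_le_sum_of_subset_of_nonneg (Finset.subset_univ _)
      (fun _ _ _ => sq_nonneg _)
  have h3 : ∑ y : ZMod p, (∑ a ∈ A, psi p (a + y)) ^ 2 =
      ∑ a ∈ A, ∑ b ∈ A, ∑ y : ZMod p, psi p (a + y) * psi p (b + y) := by
    have : ∀ y : ZMod p, (∑ a ∈ A, psi p (a + y)) ^ 2 =
        ∑ a ∈ A, ∑ b ∈ A, psi p (a + y) * psi p (b + y) := by
      intro y
      rw [sq, Finset.sum_mul_sum]
    rw [Finset.sum_congr rfl (fun y _ => this y), Finset.sum_comm]
    apply Finset.sum_congr rfl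
    intro a _
    rw [Finset.sum_comm]
  have h4 : ∑ a ∈ A, ∑ b ∈ A, ∑ y : ZMod p, psi p (a + y) * psi p (b + y) ≤
      ∑ a ∈ A, ((p : ℤ) + A.card) := by
    apply Finset.sum_le_sum
    intro a ha
    have h5 : ∀ b ∈ A, ∑ y : ZMod p, psi p (a + y) * psi p (b + y) ≤
        (if b = a then (p : ℤ) else 0) + 1 := by
      intro b _
      by_cases hb : b = a
      · rw [if_pos hb, hb]
        have : ∀ y : ZMod p, psi p (a + y) * psi p (a + y) = 1 := by
          intro y
          rcases psi_sq p (a + y) with h | h <;> simp [h]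
        rw [Finset.sum_congr rfl (fun y _ => this y)]
        simp [ZMod.card]
      · rw [if_neg hb]
        have := psi_corr p hp a b (Ne.symm hb)
        linarith
    refine (Finset.sum_le_sum h5).trans ?_
    rw [Finset.sum_add_distrib, Finset.sum_ite_eq', if_pos ha]
    simp
  rw [Finset.sum_const, nsmul_eq_mul] at h4
  have h6 : ((B.card * A.card ^ 2 : ℕ) : ℤ) ≤ A.card * (p + A.card) := by
    rw [h3] at h1
    exact h1.trans h4
  have h7 : B.card * A.card ^ 2 ≤ A.card * (p + A.card) := by exact_mod_cast h6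
  have hA : A.card ≤ p := by
    have := Finset.card_le_univ A
    rwa [ZMod.card] at this
  rcases Nat.eq_zero_or_pos A.card with h0 | h0
  · rw [h0]; simp
  · have h8 : A.card * (B.card * A.card) ≤ A.card * (p + A.card) := by
      calc A.card * (B.card * A.card) = B.card * A.card ^ 2 := by ring
        _ ≤ _ := h7
    have h9 := Nat.le_of_mul_le_mul_left h8 h0
    rw [mul_comm A.card]
    omega

end Pool.Agent.MP_6216ea_lc
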