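import Pool.Agent.Lib.MP_6216ea_lc.RKStep

set_option autoImplicit false

namespace Pool.Agent.MP_6216ea_lc

/-- the facts about the pairs of a chain which are needed later -/
lemma Ch.extract {k : ℕ} {q : List Bool → Fin k → ℕ} {τ : Fin k → Fin k → Bool}
    {z : List Bool} (m : ℕ) : ∀ (v : List Bool) (L : List (List Bool × List Bool)),
      L.length = 2 * m → Ch q τ false v L z →
      ∃ (x y w : Fin m → List Bool),
        (∀ j, (∃ r ∈ L, r.2 = x j) ∧ (∃ r ∈ L, r.2 = y j) ∧ (∃ r ∈ L, r.1 = w j)) ∧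
        (∀ j, v <:+ w j) ∧
        (∀ j, w j <:+ x j ∧ w j <:+ y j ∧ x j ≠ y j) ∧
        (∀ i j, i < j → w i <:+ w j ∧ ¬ w j <:+ x i ∧ ¬ w j <:+ y i) ∧
        ∀ j, RelT q τ (x j) z ∧ RelT q τ z (y j) := by
  induction m with
  | zero =>
    intro v L _ _
    exact ⟨Fin.elim0, Fin.elim0, Fin.elim0, fun j => j.elim0, fun j => j.elim0, fun j => j.elim0,
      fun i => i.elim0, fun j => j.elim0⟩
  | succ m ih =>
    intro v L hL hC
    obtain ⟨⟨w0, y0⟩, L1, rfl⟩ : ∃ r L1, L = r :: L1 := by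
      cases L with
      | nil => simp at hL
      | cons r L1 => exact ⟨r, L1, rfl⟩
    obtain ⟨⟨w1, x0⟩, L2, rfl⟩ : ∃ r L2, L1 = r :: L2 := by
      cases L1 with
      | nil => simp at hL; omega
      | cons r L2 => exact ⟨r, L2, rfl⟩
    obtain ⟨hvw0, hw0y, hw0z, -, hzy, v1, hw0v1, hv1y, hC1⟩ := hC
    obtain ⟨hv1w1, hw1x, hw1z, -, hxz, v2, hw1v2, hv2x, hC2⟩ := hC1
    obtain ⟨x, y, w, h1, h2, h3, h4, h5⟩ := ih v2 L2 (by simp at hL; omega) hC2
    have hw0w1 : w0 <:+ w1 := hw0v1.trans hv1w1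
    have hv1x0 : v1 <:+ x0 := hv1w1.trans hw1x
    have hw0v2 : w0 <:+ v2 := hw0w1.trans hw1v2
    refine ⟨Fin.cons x0 x, Fin.cons y0 y, Fin.cons w0 w, ?_, ?_, ?_, ?_, ?_⟩
    · intro j
      refine Fin.cases ?_ (fun j => ?_) j
      · simp only [Fin.cons_zero]
        exact ⟨⟨(w1, x0), by simp, rfl⟩, ⟨(w0, y0), by simp, rfl⟩, ⟨(w0, y0), by simp, rfl⟩⟩
      · simp only [Fin.cons_succ]
        obtain ⟨⟨r1, hr1, e1⟩, ⟨r2, hr2, e2⟩, ⟨r3, hr3, e3⟩⟩ := h1 j
        exact ⟨⟨r1, by simp [hr1], e1⟩, ⟨r2, by simp [hr2], e2⟩, ⟨r3, by simp [hr3], e3⟩⟩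
    · intro j
      refine Fin.cases ?_ (fun j => ?_) j
      · simpa using hvw0
      · simp only [Fin.cons_succ]
        exact hvw0.trans (hw0v2.trans (h2 j))
    · intro j
      refine Fin.cases ?_ (fun j => ?_) j
      · simp only [Fin.cons_zero]
        exact ⟨hw0w1.trans hw1x, hw0y, fun h => hv1y (h ▸ hv1x0)⟩
      · simp only [Fin.cons_succ]
        exact h3 j
    · intro i j
      refine Fin.cases ?_ (fun j => ?_) j
      · intro h; exact absurd h (Fin.not_lt_zero _)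
      · refine Fin.cases ?_ (fun i => ?_) i
        · intro _
          simp only [Fin.cons_zero, Fin.cons_succ]
          refine ⟨hw0v2.trans (h2 j), fun h => hv2x ((h2 j).trans h), fun h => hv1y ?_⟩
          exact (hv1w1.trans hw1v2).trans ((h2 j).trans h)
        · intro hij
          simp only [Fin.cons_succ]
          exact h4 i j (Fin.succ_lt_succ_iff.1 hij)
    · intro j
      refine Fin.cases ?_ (fun j => ?_) j
      · simp only [Fin.cons_zero]
        exact ⟨hxz, hzy⟩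
      · simp only [Fin.cons_succ]
        exact h5 j

theorem exists_chain (k H m : ℕ) (hH : 2 * (k ^ 2 + 2) * 2 ^ (k ^ 2) * (2 * m + 1) ≤ H)
    (q : List Bool → Fin k → ℕ) :
    ∃ (u z : List Bool) (x y w : Fin m → List Bool) (τ : Fin k → Fin k → Bool),
      u.length = H ∧ z.length = H ∧
      (∀ j, (x j).length = H ∧ (y j).length = H ∧ (w j).length < H) ∧
      (∀ j, w j <:+ x j ∧ w j <:+ y j ∧ x j ≠ y j) ∧
      (∀ i j, i < j → w i <:+ w j ∧ ¬ w j <:+ x i ∧ ¬ w j <:+ y i) ∧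
      ∀ j, RelT q τ u (x j) ∧ RelT q τ u (y j) ∧ RelT q τ (x j) z ∧ RelT q τ z (y j) := by
  classical
  let S : Finset (List Bool) := (Finset.univ : Finset (List.Vector Bool H)).image fun ℓ => ℓ.1
  have hScard : S.card = 2 ^ H := by
    have h0 : S.card = (Finset.univ : Finset (List.Vector Bool H)).card :=
      Finset.card_image_of_injective _ Subtype.val_injective
    rw [h0, Finset.card_univ, card_vector, Fintype.card_bool]
  have hSl : ∀ ℓ ∈ S, ℓ.length = H ∧ [] <:+ ℓ := by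
    intro ℓ hℓ
    obtain ⟨u, -, rfl⟩ := Finset.mem_image.1 hℓ
    exact ⟨u.2, List.nil_suffix⟩
  have hne : S.Nonempty := by rw [← Finset.card_pos, hScard]; positivity
  have hcardτ : Fintype.card (Fin k → Fin k → Bool) = 2 ^ (k ^ 2) := by
    simp [Fintype.card_fun, ← pow_mul, sq]
  obtain ⟨τ, L, z, h1, h2, h3, h4⟩ := chain_step H q H [] S (fun _ => 2 * m + 1)
    (fun _ => true) (by simp) hne hSl (by
      rw [Finset.sum_const, Finset.card_univ, hcardτ, hScard, smul_eq_mul, ← pow_mul]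
      set e := (k ^ 2 + 2) * (2 ^ k ^ 2 * (2 * m + 1)) with he
      have hle : 2 * e ≤ H := by
        rw [he]
        calc 2 * ((k ^ 2 + 2) * (2 ^ k ^ 2 * (2 * m + 1))) =
            2 * (k ^ 2 + 2) * 2 ^ (k ^ 2) * (2 * m + 1) := by ring
          _ ≤ H := hH
      have hsq : (4 ^ H * 2 ^ e) ^ 2 ≤ (3 ^ H * 2 ^ H) ^ 2 := by
        calc (4 ^ H * 2 ^ e) ^ 2 = 16 ^ H * 2 ^ (2 * e) := by
              rw [mul_pow, ← pow_mul, ← pow_mul, mul_comm H 2, pow_mul, mul_comm e 2]; norm_num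
          _ ≤ 16 ^ H * 2 ^ H := Nat.mul_le_mul_left _ (Nat.pow_le_pow_right (by norm_num) hle)
          _ = 32 ^ H := by rw [← mul_pow]; norm_num
          _ ≤ 36 ^ H := Nat.pow_le_pow_left (by norm_num) _
          _ = (3 ^ H * 2 ^ H) ^ 2 := by
              rw [← mul_pow, ← pow_mul, mul_comm H 2, pow_mul]; norm_num
      exact (Nat.pow_le_pow_iff_left (by norm_num)).1 hsq)
  obtain ⟨⟨w0, u⟩, L1, rfl⟩ : ∃ r L1, L = r :: L1 := by
    cases L with
    | nil => simp at h1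
    | cons r L1 => exact ⟨r, L1, rfl⟩
  obtain ⟨-, -, -, hu, -, v1, -, -, hC⟩ := h4
  simp only [if_true] at hu
  obtain ⟨x, y, w, g1, g2, g3, g4, g5⟩ := Ch.extract m v1 L1 (by simp at h1; omega) hC
  refine ⟨u, z, x, y, w, τ, ?_, (hSl z h2).1, ?_, g3, g4, ?_⟩
  · exact (hSl _ (h3 (w0, u) (by simp)).1).1
  · intro j
    obtain ⟨⟨r1, hr1, e1⟩, ⟨r2, hr2, e2⟩, ⟨r3, hr3, e3⟩⟩ := g1 j
    refine ⟨?_, ?_, ?_⟩
    · rw [← e1]; exact (hSl _ (h3 r1 (by simp [hr1])).1).1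
    · rw [← e2]; exact (hSl _ (h3 r2 (by simp [hr2])).1).1
    · rw [← e3]; exact (h3 r3 (by simp [hr3])).2
  · intro j
    obtain ⟨⟨r1, hr1, e1⟩, ⟨r2, hr2, e2⟩, -⟩ := g1 j
    exact ⟨e1 ▸ hu r1 hr1, e2 ▸ hu r2 hr2, (g5 j).1, (g5 j).2⟩

/-- The times of `u` and `z` separate the times of `x` from those of `y`. -/
theorem separated {k : ℕ} {q : List Bool → Fin k → ℕ} {τ : Fin k → Fin k → Bool}
    {u z x y : List Bool} (h1 : RelT q τ u x) (h2 : RelT q τ u y) (h3 : RelT q τ x z)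
    (h4 : RelT q τ z y) (a b : Fin k) (ha : ∀ c, q x a ≠ q u c ∧ q x a ≠ q z c)
    (hb : ∀ c, q y b ≠ q u c ∧ q y b ≠ q z c) :
    ∃ c, (∃ d, c = q u d ∨ c = q z d) ∧ ((q x a < c ∧ c < q y b) ∨ (q y b < c ∧ c < q x a)) := by
  have e1 := h1 a a
  have e2 := h2 a b
  have e3 := h3 a a
  have e4 := h4 a b
  have f1 := (ha a).1
  have f2 := (ha a).2
  have f3 := (hb a).1
  have f4 := (hb a).2
  by_cases hτ : τ a a = τ a b
  · refine ⟨q z a, ⟨a, Or.inr rfl⟩, ?_⟩
    rw [← hτ] at e4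
    by_cases h : τ a a = true
    · left; exact ⟨e3.2 h, e4.2 h⟩
    · right
      have g3 := mt e3.1 h
      have g4 := mt e4.1 h
      omega
  · refine ⟨q u a, ⟨a, Or.inl rfl⟩, ?_⟩
    by_cases h : τ a a = true
    · have h' : ¬ τ a b = true := fun h' => hτ (h.trans h'.symm)
      have g1 := e1.2 h
      have g2 := mt e2.1 h'
      right; omega
    · have h' : τ a b = true := by
        by_contra h'
        apply hτ
        simp only [Bool.not_eq_true] at h h'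
        rw [h, h']
      have g1 := mt e1.1 h
      have g2 := e2.2 h'
      left; omega

end Pool.Agent.MP_6216ea_lc
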