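import Mathlib

set_option autoImplicit false

namespace Pool.Agent.MP_6216ea_lc

/-- The leaves of the complete binary tree of height `H`. -/
abbrev Leaf (H : ℕ) : Type := List.Vector Bool H

/-- The sum of the values of the leaves below the node `v` (the children of `v` are `false :: v`
and `true :: v`). -/
def sm {H p : ℕ} (a : Leaf H → ZMod p) (v : List Bool) : ZMod p :=
  ∑ ℓ : Leaf H, if v <:+ ℓ.1 then a ℓ else 0

/-- `a`, but with the values of `a'` at the leaves `y j`. -/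
def mixl {H p m : ℕ} (y : Fin m → Leaf H) (a a' : Leaf H → ZMod p) (ℓ : Leaf H) : ZMod p :=
  open Classical in if ∃ j, ℓ = y j then a' ℓ else a ℓ

/-- A vector is determined by its tail sums. -/
theorem eq_of_tail_sums {m : ℕ} {R : Type*} [AddCommGroup R] (c d : Fin m → R)
    (h : ∀ j, ∑ i ∈ Finset.Ici j, c i = ∑ i ∈ Finset.Ici j, d i) (j : Fin m) : c j = d j := by
  induction j using WellFoundedGT.induction with
  | ind j ih =>
    have h1 := h j
    rw [← Finset.Ioi_insert, Finset.sum_insert (by simp), Finset.sum_insert (by simp)] at h1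
    have h2 : ∑ i ∈ Finset.Ioi j, c i = ∑ i ∈ Finset.Ioi j, d i :=
      Finset.sum_congr rfl fun i hi => ih i (Finset.mem_Ioi.1 hi)
    rw [h2] at h1
    exact add_right_cancel h1

section

variable {H m : ℕ} (x y : Fin m → Leaf H) (w : Fin m → List Bool)
  (h1 : ∀ j, w j <:+ (x j).1 ∧ w j <:+ (y j).1 ∧ x j ≠ y j)
  (h2 : ∀ i j, i < j → w i <:+ w j ∧ ¬ w j <:+ (x i).1 ∧ ¬ w j <:+ (y i).1)

include h1 h2

theorem suf_x_iff (i j : Fin m) : w j <:+ (x i).1 ↔ j ≤ i := by
  constructor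
  · intro h
    by_contra hlt
    exact (h2 i j (not_le.1 hlt)).2.1 h
  · intro h
    rcases h.eq_or_lt with rfl | h
    · exact (h1 _).1
    · exact (h2 j i h).1.trans (h1 i).1

theorem suf_y_iff (i j : Fin m) : w j <:+ (y i).1 ↔ j ≤ i := by
  constructor
  · intro h
    by_contra hlt
    exact (h2 i j (not_le.1 hlt)).2.2 h
  · intro h
    rcases h.eq_or_lt with rfl | h
    · exact (h1 _).2.1
    · exact (h2 j i h).1.trans (h1 i).2.1

theorem xy_ne (i j : Fin m) : x i ≠ y j := by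
  intro h
  have h3 : i = j := by
    apply le_antisymm
    · rw [← suf_y_iff x y w h1 h2 j i, ← h]
      exact (h1 i).1
    · rw [← suf_x_iff x y w h1 h2 i j, h]
      exact (h1 j).2.1
  subst h3
  exact (h1 i).2.2 h

theorem elim_injective : Function.Injective (Sum.elim x y) := by
  have hx : Function.Injective x := fun i j h => by
    apply le_antisymm
    · rw [← suf_x_iff x y w h1 h2 j i, ← h]
      exact (h1 i).1
    · rw [← suf_x_iff x y w h1 h2 i j, h]
      exact (h1 j).1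
  have hy : Function.Injective y := fun i j h => by
    apply le_antisymm
    · rw [← suf_y_iff x y w h1 h2 j i, ← h]
      exact (h1 i).2.1
    · rw [← suf_y_iff x y w h1 h2 i j, h]
      exact (h1 j).2.1
  exact hx.sumElim hy fun i j => xy_ne x y w h1 h2 i j

open Classical in
/-- The sum over the leaves splits into the leaves `x j`, the leaves `y j` and the others. -/
theorem sum_split {R : Type*} [AddCommMonoid R] (b : Leaf H → R) :
    ∑ ℓ, b ℓ = ∑ ℓ ∈ (Finset.univ.image (Sum.elim x y))ᶜ, b ℓ + (∑ i, b (x i) + ∑ i, b (y i)) := by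
  have h3 : ∑ ℓ ∈ Finset.univ.image (Sum.elim x y), b ℓ = ∑ i, b (x i) + ∑ i, b (y i) := by
    rw [Finset.sum_image (fun i _ j _ h => elim_injective x y w h1 h2 h), Fintype.sum_sum_type]
    simp
  rw [← h3, add_comm, Finset.sum_add_sum_compl]

open Classical in
theorem sm_split {p : ℕ} (a : Leaf H → ZMod p) (j : Fin m) :
    sm a (w j) = ∑ ℓ ∈ (Finset.univ.image (Sum.elim x y))ᶜ, (if w j <:+ ℓ.1 then a ℓ else 0) +
      (∑ i ∈ Finset.Ici j, a (x i) + ∑ i ∈ Finset.Ici j, a (y i)) := by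
  have h3 : ∀ z : Fin m → ZMod p, ∑ i ∈ Finset.Ici j, z i = ∑ i, if j ≤ i then z i else 0 := by
    intro z
    rw [← Finset.sum_filter]
    apply Finset.sum_congr _ fun _ _ => rfl
    ext i
    simp
  unfold sm
  rw [sum_split x y w h1 h2, h3, h3]
  congr 2
  · apply Finset.sum_congr rfl fun i _ => ?_
    simp only [suf_x_iff x y w h1 h2]
  · apply Finset.sum_congr rfl fun i _ => ?_
    simp only [suf_y_iff x y w h1 h2]

open Classical in
theorem sm_mixl {p : ℕ} (a a' : Leaf H → ZMod p) (j : Fin m) :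
    sm (mixl y a a') (w j) =
      ∑ ℓ ∈ (Finset.univ.image (Sum.elim x y))ᶜ, (if w j <:+ ℓ.1 then a ℓ else 0) +
      (∑ i ∈ Finset.Ici j, a (x i) + ∑ i ∈ Finset.Ici j, a' (y i)) := by
  rw [sm_split x y w h1 h2]
  refine congrArg₂ (· + ·) ?_ (congrArg₂ (· + ·) ?_ ?_)
  · apply Finset.sum_congr rfl fun ℓ hℓ => ?_
    have h3 : ¬ ∃ j, ℓ = y j := by
      rintro ⟨j, rfl⟩
      rw [Finset.mem_compl] at hℓ
      exact hℓ (Finset.mem_image.2 ⟨Sum.inr j, Finset.mem_univ _, rfl⟩)
    simp [mixl, h3]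
  · apply Finset.sum_congr rfl fun i _ => ?_
    have h3 : ¬ ∃ j, x i = y j := by
      rintro ⟨j, h⟩
      exact xy_ne x y w h1 h2 i j h
    simp [mixl, h3]
  · apply Finset.sum_congr rfl fun i _ => ?_
    have h3 : ∃ j, y i = y j := ⟨i, rfl⟩
    simp [mixl, h3]

open Classical in
/-- A set of labelings which agree outside the leaves `x j`, `y j` and have the same bits at all
internal nodes. -/
theorem fibre_bound {p : ℕ} [Fact p.Prime] (χ : ZMod p → Bool)
    (hχ : ∀ (A B : Finset (ZMod p)) (s : Bool), (∀ a ∈ A, ∀ b ∈ B, χ (a + b) = s) →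
      A.card * B.card ≤ 2 * p)
    (F : Finset (Leaf H → ZMod p))
    (hF : ∀ a ∈ F, ∀ a' ∈ F, ∀ j, χ (sm (mixl y a a') (w j)) = χ (sm a (w j)))
    (hout : ∀ a ∈ F, ∀ a' ∈ F, ∀ ℓ, (∀ j, ℓ ≠ x j ∧ ℓ ≠ y j) → a ℓ = a' ℓ)
    (hbit : ∀ a ∈ F, ∀ a' ∈ F, ∀ j, χ (sm a (w j)) = χ (sm a' (w j))) :
    F.card ≤ (2 * p) ^ m := by
  rcases F.eq_empty_or_nonempty with rfl | ⟨a₀, ha₀⟩
  · simp
  set K : Fin m → ZMod p := fun j =>
    ∑ ℓ ∈ (Finset.univ.image (Sum.elim x y))ᶜ, (if w j <:+ ℓ.1 then a₀ ℓ else 0) with hK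
  set g : (Leaf H → ZMod p) → Fin m → ZMod p := fun a j => ∑ i ∈ Finset.Ici j, a (x i) with hg
  set g' : (Leaf H → ZMod p) → Fin m → ZMod p := fun a j => ∑ i ∈ Finset.Ici j, a (y i) with hg'
  have hKa : ∀ a ∈ F, ∀ j,
      ∑ ℓ ∈ (Finset.univ.image (Sum.elim x y))ᶜ, (if w j <:+ ℓ.1 then a ℓ else 0) = K j := by
    intro a ha j
    apply Finset.sum_congr rfl fun ℓ hℓ => ?_
    have h3 : a ℓ = a₀ ℓ := by
      apply hout a ha a₀ ha₀
      intro i
      rw [Finset.mem_compl] at hℓ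
      constructor
      · rintro rfl
        exact hℓ (Finset.mem_image.2 ⟨Sum.inl i, Finset.mem_univ _, rfl⟩)
      · rintro rfl
        exact hℓ (Finset.mem_image.2 ⟨Sum.inr i, Finset.mem_univ _, rfl⟩)
    rw [h3]
  set A : Fin m → Finset (ZMod p) := fun j => F.image fun a => K j + g a j with hA
  set B : Fin m → Finset (ZMod p) := fun j => F.image fun a => g' a j with hB
  have hAB : ∀ j, (A j).card * (B j).card ≤ 2 * p := by
    intro j
    apply hχ _ _ (χ (sm a₀ (w j)))
    intro c hc d hd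
    obtain ⟨a, ha, rfl⟩ := Finset.mem_image.1 hc
    obtain ⟨a', ha', rfl⟩ := Finset.mem_image.1 hd
    have h3 := hF a ha a' ha' j
    rw [sm_mixl x y w h1 h2, hKa a ha, hbit a ha a₀ ha₀ j] at h3
    rw [← h3, ← add_assoc]
  have hcard : F.card ≤ (Fintype.piFinset fun j => A j ×ˢ B j).card := by
    apply Finset.card_le_card_of_injOn (fun a j => (K j + g a j, g' a j))
    · intro a ha
      rw [Finset.mem_coe, Fintype.mem_piFinset]
      intro j
      rw [Finset.mem_product]
      exact ⟨Finset.mem_image.2 ⟨a, ha, rfl⟩, Finset.mem_image.2 ⟨a, ha, rfl⟩⟩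
    · intro a ha a' ha' hEq
      have hx : ∀ i, a (x i) = a' (x i) := by
        apply eq_of_tail_sums (fun i => a (x i)) (fun i => a' (x i))
        intro j
        have h3 := congrArg Prod.fst (congrFun hEq j)
        exact add_left_cancel h3
      have hy : ∀ i, a (y i) = a' (y i) := by
        apply eq_of_tail_sums (fun i => a (y i)) (fun i => a' (y i))
        intro j
        exact congrArg Prod.snd (congrFun hEq j)
      funext ℓ
      by_cases hℓ : ∀ j, ℓ ≠ x j ∧ ℓ ≠ y j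
      · exact hout a ha a' ha' ℓ hℓ
      · push Not at hℓ
        obtain ⟨j, hj⟩ := hℓ
        by_cases h3 : ℓ = x j
        · rw [h3]; exact hx j
        · rw [hj h3]; exact hy j
  calc F.card ≤ (Fintype.piFinset fun j => A j ×ˢ B j).card := hcard
    _ = ∏ j, (A j).card * (B j).card := by
        rw [Fintype.card_piFinset]
        exact Finset.prod_congr rfl fun j _ => Finset.card_product _ _
    _ ≤ ∏ _j : Fin m, 2 * p := Finset.prod_le_prod' fun j _ => hAB j
    _ = (2 * p) ^ m := by simp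

end

open Classical in
theorem class_bound {H m p : ℕ} [Fact p.Prime] (χ : ZMod p → Bool)
    (hχ : ∀ (A B : Finset (ZMod p)) (s : Bool), (∀ a ∈ A, ∀ b ∈ B, χ (a + b) = s) →
      A.card * B.card ≤ 2 * p)
    (x y : Fin m → Leaf H) (w : Fin m → List Bool)
    (hw : ∀ j, (w j).length < H)
    (h1 : ∀ j, w j <:+ (x j).1 ∧ w j <:+ (y j).1 ∧ x j ≠ y j)
    (h2 : ∀ i j, i < j → w i <:+ w j ∧ ¬ w j <:+ (x i).1 ∧ ¬ w j <:+ (y i).1)
    (F : Finset (Leaf H → ZMod p))
    (hF : ∀ a ∈ F, ∀ a' ∈ F, (∀ ℓ, (∀ j, ℓ ≠ x j ∧ ℓ ≠ y j) → a ℓ = a' ℓ) →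
      (∀ v : List Bool, v.length < H → χ (sm a v) = χ (sm a' v)) →
      ∀ j, χ (sm (mixl y a a') (w j)) = χ (sm a (w j))) :
    F.card * p ^ m ≤ p ^ (2 ^ H) * 2 ^ (2 * m * H) * 2 ^ m := by
  have hinj := elim_injective x y w h1 h2
  set U : Finset (Leaf H) := Finset.univ.image (Sum.elim x y) with hU
  have hUcard : U.card = 2 * m := by
    rw [hU, Finset.card_image_of_injective _ hinj]
    simp [two_mul]
  have hmU : ∀ ℓ, ℓ ∈ U ↔ ∃ j, ℓ = x j ∨ ℓ = y j := by
    intro ℓ
    rw [hU, Finset.mem_image]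
    constructor
    · rintro ⟨j | j, _, rfl⟩
      · exact ⟨j, Or.inl rfl⟩
      · exact ⟨j, Or.inr rfl⟩
    · rintro ⟨j, rfl | rfl⟩
      · exact ⟨Sum.inl j, Finset.mem_univ _, rfl⟩
      · exact ⟨Sum.inr j, Finset.mem_univ _, rfl⟩
  have hLcard : Fintype.card (Leaf H) = 2 ^ H := by
    rw [card_vector, Fintype.card_bool]
  have hle : 2 * m ≤ 2 ^ H := by
    rw [← hUcard, ← hLcard]
    exact Finset.card_le_univ U
  set Φ : (Leaf H → ZMod p) → ({ℓ : Leaf H // ℓ ∉ U} → ZMod p) × (Fin m × Bool × Fin H → Bool) :=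
    fun a => (fun ℓ => a ℓ.1, fun q => χ (sm a (List.drop (H - q.2.2)
      (bif q.2.1 then (x q.1).1 else (y q.1).1)))) with hΦ
  have hfib : ∀ b, (F.filter fun a => Φ a = b).card ≤ (2 * p) ^ m := by
    intro b
    have key : ∀ a ∈ F.filter (fun a => Φ a = b), ∀ a' ∈ F.filter (fun a => Φ a = b),
        (∀ ℓ, (∀ j, ℓ ≠ x j ∧ ℓ ≠ y j) → a ℓ = a' ℓ) ∧
        (∀ v : List Bool, v.length < H → χ (sm a v) = χ (sm a' v)) := by
      intro a ha a' ha'
      have hΦe : Φ a = Φ a' := by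
        rw [(Finset.mem_filter.1 ha).2, (Finset.mem_filter.1 ha').2]
      have hout : ∀ ℓ, (∀ j, ℓ ≠ x j ∧ ℓ ≠ y j) → a ℓ = a' ℓ := by
        intro ℓ hℓ
        have hnot : ℓ ∉ U := by
          rw [hmU]
          rintro ⟨j, h | h⟩
          · exact (hℓ j).1 h
          · exact (hℓ j).2 h
        exact congrFun (congrArg Prod.fst hΦe) ⟨ℓ, hnot⟩
      refine ⟨hout, ?_⟩
      intro v hv
      by_cases hex : ∃ ℓ ∈ U, v <:+ ℓ.1
      · obtain ⟨ℓ, hℓU, hvℓ⟩ := hex
        have hvd : v = List.drop (H - v.length) ℓ.1 := by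
          have h3 := List.suffix_iff_eq_drop.1 hvℓ
          rw [ℓ.2] at h3
          exact h3
        obtain ⟨j, rfl | rfl⟩ := (hmU ℓ).1 hℓU
        · have h3 := congrFun (congrArg Prod.snd hΦe) (j, true, ⟨v.length, hv⟩)
          simp only [hΦ, cond_true] at h3
          rw [← hvd] at h3
          exact h3
        · have h3 := congrFun (congrArg Prod.snd hΦe) (j, false, ⟨v.length, hv⟩)
          simp only [hΦ, cond_false] at h3
          rw [← hvd] at h3
          exact h3
      · have h3 : sm a v = sm a' v := by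
          unfold sm
          apply Finset.sum_congr rfl fun ℓ _ => ?_
          by_cases hvℓ : v <:+ ℓ.1
          · have hnot : ℓ ∉ U := fun h => hex ⟨ℓ, h, hvℓ⟩
            rw [if_pos hvℓ, if_pos hvℓ]
            apply hout
            intro j
            rw [hmU] at hnot
            push Not at hnot
            exact hnot j
          · rw [if_neg hvℓ, if_neg hvℓ]
        rw [h3]
    apply fibre_bound x y w h1 h2 χ hχ
    · intro a ha a' ha'
      exact hF a (Finset.mem_filter.1 ha).1 a' (Finset.mem_filter.1 ha').1 (key a ha a' ha').1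
        (key a ha a' ha').2
    · intro a ha a' ha'
      exact (key a ha a' ha').1
    · intro a ha a' ha' j
      exact (key a ha a' ha').2 (w j) (hw j)
  have hcard : F.card ≤ (2 * p) ^ m * (p ^ (2 ^ H - 2 * m) * 2 ^ (2 * m * H)) := by
    have h3 := Finset.card_le_mul_card_image_of_maps_to (s := F) (t := Finset.univ) (f := Φ)
      (fun a _ => Finset.mem_univ _) ((2 * p) ^ m) (fun b _ => hfib b)
    refine h3.trans (Nat.mul_le_mul_left _ (le_of_eq ?_))
    rw [Finset.card_univ, Fintype.card_prod, Fintype.card_fun, Fintype.card_fun, ZMod.card,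
      Fintype.card_bool, Fintype.card_prod, Fintype.card_prod, Fintype.card_bool, Fintype.card_fin,
      Fintype.card_fin]
    congr 2
    · rw [← hLcard, ← hUcard]
      simp [Fintype.card_subtype_compl]
    · ring
  have hpow : p ^ (2 ^ H) = p ^ (2 ^ H - 2 * m) * p ^ (2 * m) := by
    rw [← pow_add]
    congr 1
    omega
  calc F.card * p ^ m ≤ (2 * p) ^ m * (p ^ (2 ^ H - 2 * m) * 2 ^ (2 * m * H)) * p ^ m :=
        Nat.mul_le_mul_right _ hcard
    _ = p ^ (2 ^ H) * 2 ^ (2 * m * H) * 2 ^ m := by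
        rw [hpow, mul_pow]
        ring

end Pool.Agent.MP_6216ea_lc
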