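import Pool.Agent.Lib.MP_6216ea_lc.RKCutB
import Pool.Agent.Lib.MP_6216ea_lc.RKChain
import Pool.Agent.Lib.MP_6216ea_lc.RKClass

set_option autoImplicit false

namespace Pool.Agent.MP_6216ea_lc

/-- The data of one labeling. -/
theorem exists_data {k H m p : ℕ} {ι : Type} (P : NBP ι)
    (hk : P.ReadAtMost k) (χ : ZMod p → Bool)
    (pos : Leaf H → ZMod p → ι) (x : (Leaf H → ZMod p) → (List Bool → Bool) → ι → Bool)
    (hacc : ∀ a σ, P.Accepts (x a σ) ↔ ∀ v : List Bool, v.length < H → σ v = χ (sm a v))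
    (hH : 2 * (k ^ 2 + 2) * 2 ^ (k ^ 2) * (2 * m + 1) ≤ H) (a : Leaf H → ZMod p) :
    ∃ (xs ys : Fin m → Leaf H) (w : Fin m → List Bool) (c : Bool) (d : List P.Item),
      (∀ j, (w j).length < H) ∧
      (∀ j, w j <:+ (xs j).1 ∧ w j <:+ (ys j).1 ∧ xs j ≠ ys j) ∧
      (∀ i j, i < j → w i <:+ w j ∧ ¬ w j <:+ (xs i).1 ∧ ¬ w j <:+ (ys i).1) ∧
      d.length ≤ 2 * k ∧
      P.Comp (x a fun v => if v.length < H then χ (sm a v) else false)
        (fun b i => if b = true then ∃ j, i = pos (ys j) (a (ys j)) else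
          ∃ j, i = pos (xs j) (a (xs j))) c d P.source := by
  classical
  have hx : P.Accepts (x a fun v => if v.length < H then χ (sm a v) else false) := by
    rw [hacc]
    intro v hv
    simp only [if_pos hv]
  obtain ⟨T, hT⟩ := exists_comp P hk hx
  let q : List Bool → Fin k → ℕ := fun l j =>
    if h : l.length = H then T (pos ⟨l, h⟩ (a ⟨l, h⟩)) j else 0
  obtain ⟨u, z, x', y', w, τ, hu, hz, hl, h1, h2, h3⟩ := exists_chain k H m hH q
  let xs : Fin m → Leaf H := fun j => ⟨x' j, (hl j).1⟩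
  let ys : Fin m → Leaf H := fun j => ⟨y' j, (hl j).2.1⟩
  have hqx : ∀ j c, T (pos (xs j) (a (xs j))) c = q (x' j) c := by
    intro j c
    simp only [q, dif_pos (hl j).1]
    rfl
  have hqy : ∀ j c, T (pos (ys j) (a (ys j))) c = q (y' j) c := by
    intro j c
    simp only [q, dif_pos (hl j).2.1]
    rfl
  let C : Finset ℕ := Finset.univ.image (q u) ∪ Finset.univ.image (q z)
  have hC : C.card ≤ 2 * k := by
    refine (Finset.card_union_le _ _).trans ?_
    have e1 : (Finset.univ.image (q u)).card ≤ k :=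
      Finset.card_image_le.trans (by simp)
    have e2 : (Finset.univ.image (q z)).card ≤ k :=
      Finset.card_image_le.trans (by simp)
    omega
  have hCu : ∀ c, q u c ∈ C := fun c =>
    Finset.mem_union_left _ (Finset.mem_image_of_mem _ (Finset.mem_univ _))
  have hCz : ∀ c, q z c ∈ C := fun c =>
    Finset.mem_union_right _ (Finset.mem_image_of_mem _ (Finset.mem_univ _))
  have hsep : Sep T (fun i => ∃ j, i = pos (xs j) (a (xs j)))
      (fun i => ∃ j, i = pos (ys j) (a (ys j))) C := by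
    rintro _ _ ⟨i, rfl⟩ ⟨j, rfl⟩ b c hb hc
    rw [hqx] at hb ⊢
    rw [hqy] at hc ⊢
    obtain ⟨t, ⟨d, hd⟩, ht⟩ := separated (h3 i).1 (h3 j).2.1 (h3 i).2.2.1 (h3 j).2.2.2 b c
      (fun e => ⟨fun h => hb (h ▸ hCu e), fun h => hb (h ▸ hCz e)⟩)
      (fun e => ⟨fun h => hc (h ▸ hCu e), fun h => hc (h ▸ hCz e)⟩)
    refine ⟨t, ?_, ht⟩
    rcases hd with rfl | rfl
    · exact hCu d
    · exact hCz d
  obtain ⟨c, d, hd, hcomp⟩ := hT _ _ C hsep
  refine ⟨xs, ys, w, c, d, fun j => (hl j).2.2, ?_, h2, hd.trans hC, ?_⟩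
  · intro j
    exact ⟨(h1 j).1, (h1 j).2.1, fun h => (h1 j).2.2 (congrArg Subtype.val h)⟩
  · have e : (fun (b : Bool) i => if b = true then ∃ j, i = pos (ys j) (a (ys j)) else
          ∃ j, i = pos (xs j) (a (xs j))) = (fun (b : Bool) => if b = true then
          (fun i => ∃ j, i = pos (ys j) (a (ys j))) else
          (fun i => ∃ j, i = pos (xs j) (a (xs j)))) := by
      funext b i
      cases b <;> simp
    rw [e]
    exact hcomp

/-- The lower bound for programs that decide, for all leaf values `a` and node bits `σ`, whether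
all node bits are right. -/
theorem rk_lower {k H m p : ℕ} [Fact p.Prime] {ι : Type} [Fintype ι] (P : NBP ι)
    (hk : P.ReadAtMost k) (χ : ZMod p → Bool)
    (hχ : ∀ (A B : Finset (ZMod p)) (s : Bool), (∀ a ∈ A, ∀ b ∈ B, χ (a + b) = s) →
      A.card * B.card ≤ 2 * p)
    (pos : Leaf H → ZMod p → ι) (hpos : ∀ ℓ ℓ' α β, pos ℓ α = pos ℓ' β → ℓ = ℓ')
    (x : (Leaf H → ZMod p) → (List Bool → Bool) → ι → Bool)
    (hx : ∀ a b σ i, x a σ i ≠ x b σ i → ∃ ℓ, a ℓ ≠ b ℓ ∧ (i = pos ℓ (a ℓ) ∨ i = pos ℓ (b ℓ)))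
    (hacc : ∀ a σ, P.Accepts (x a σ) ↔ ∀ v : List Bool, v.length < H → σ v = χ (sm a v))
    (hH : 2 * (k ^ 2 + 2) * 2 ^ (k ^ 2) * (2 * m + 1) ≤ H) :
    p ^ m ≤ 2 * (1 + 2 * Fintype.card P.V ^ 2 * (2 * Fintype.card ι + 1)) ^ (2 * k) *
      2 ^ (2 * m * H) * 2 ^ (2 * m * H) * 2 ^ m := by
  classical
  have hp : 0 < p := (Fact.out : p.Prime).pos
  choose xs ys w c d hw h1 h2 hd hcomp using exists_data P hk χ pos x hacc hH
  let code : List P.Item → (Fin (2 * k) → Option P.Item) := fun l i => l[i.1]?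
  have hcode : ∀ l l' : List P.Item, l.length ≤ 2 * k → l'.length ≤ 2 * k →
      code l = code l' → l = l' := by
    intro l l' hl hl' h
    apply List.ext_getElem?
    intro i
    by_cases hi : i < 2 * k
    · exact congrFun h ⟨i, hi⟩
    · rw [List.getElem?_eq_none (by omega), List.getElem?_eq_none (by omega)]
  let φ : (Leaf H → ZMod p) → Bool × (Fin (2 * k) → Option P.Item) × (Fin m → Leaf H) ×
      (Fin m → Leaf H) := fun a => (c a, code (d a), xs a, ys a)
  set B : ℕ := p ^ (2 ^ H) * 2 ^ (2 * m * H) * 2 ^ m with hB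
  have hfib : ∀ δ ∈ (Finset.univ : Finset (Leaf H → ZMod p)).image φ,
      (Finset.univ.filter fun a => φ a = δ).card ≤ B / p ^ m := by
    intro δ hδ
    obtain ⟨a0, -, rfl⟩ := Finset.mem_image.1 hδ
    rw [Nat.le_div_iff_mul_le (by positivity)]
    refine class_bound χ hχ (xs a0) (ys a0) (w a0) (hw a0) (h1 a0) (h2 a0) _ ?_
    intro a ha a' ha' hout hsum j
    rw [Finset.mem_filter] at ha ha'
    have hφ : φ a = φ a0 := ha.2
    have hφ' : φ a' = φ a0 := ha'.2
    simp only [φ, Prod.mk.injEq] at hφ hφ'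
    obtain ⟨ec, ed, ex, ey⟩ := hφ
    obtain ⟨ec', ed', ex', ey'⟩ := hφ'
    have ed2 : d a = d a' := hcode _ _ (hd a) (hd a') (ed.trans ed'.symm)
    have hσ : (fun v : List Bool => if v.length < H then χ (sm a v) else false) =
        fun v => if v.length < H then χ (sm a' v) else false := by
      funext v
      split_ifs with hv
      · exact hsum v hv
      · rfl
    set σ : List Bool → Bool := fun v => if v.length < H then χ (sm a v) else false with hσdef
    have C1 := hcomp a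
    have C2 := hcomp a'
    rw [← hσdef] at C1
    rw [← hσ] at C2
    rw [ex, ey, ec] at C1
    rw [ex', ey', ec', ← ed2] at C2
    set b := mixl (ys a0) a a' with hb
    have hb1 : ∀ ℓ, (∃ j, ℓ = ys a0 j) → b ℓ = a' ℓ := fun ℓ h => if_pos h
    have hb2 : ∀ ℓ, (¬ ∃ j, ℓ = ys a0 j) → b ℓ = a ℓ := fun ℓ h => if_neg h
    -- where `b` differs from `a` and `a'`
    have D1 : ∀ i, x b σ i ≠ x a σ i → ∃ ℓ, (∃ j, ℓ = ys a0 j) ∧
        (i = pos ℓ (a' ℓ) ∨ i = pos ℓ (a ℓ)) := by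
      intro i hi
      obtain ⟨ℓ, hℓ, hi'⟩ := hx b a σ i hi
      have hy : ∃ j, ℓ = ys a0 j := by
        by_contra h
        exact hℓ (hb2 ℓ h)
      rw [hb1 ℓ hy] at hi'
      exact ⟨ℓ, hy, hi'⟩
    have D2 : ∀ i, x b σ i ≠ x a' σ i → ∃ ℓ, (¬ ∃ j, ℓ = ys a0 j) ∧ (∃ j, ℓ = xs a0 j) ∧
        (i = pos ℓ (a ℓ) ∨ i = pos ℓ (a' ℓ)) := by
      intro i hi
      obtain ⟨ℓ, hℓ, hi'⟩ := hx b a' σ i hi
      have hy : ¬ ∃ j, ℓ = ys a0 j := fun h => hℓ (hb1 ℓ h)
      rw [hb2 ℓ hy] at hi' hℓ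
      refine ⟨ℓ, hy, ?_, hi'⟩
      by_contra h
      exact hℓ (hout ℓ fun j => ⟨fun h' => h ⟨j, h'⟩, fun h' => hy ⟨j, h'⟩⟩)
    have hreach : P.Reach (x b σ) P.source P.target := by
      refine comp_mix P C1 C2 ?_ ?_ ?_
      · intro i
        by_contra hcon
        push Not at hcon
        obtain ⟨ℓ, hy, h3⟩ := D1 i hcon.1
        obtain ⟨ℓ', hy', -, h4⟩ := D2 i hcon.2
        have : ℓ = ℓ' := by
          rcases h3 with h3 | h3 <;> rcases h4 with h4 | h4 <;>
            exact hpos _ _ _ _ (h3.symm.trans h4)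
        exact hy' (this ▸ hy)
      · intro i hi
        obtain ⟨ℓ, ⟨j, rfl⟩, h3⟩ := D1 i hi
        rcases h3 with h3 | h3
        · right; simp only [if_true]; exact ⟨j, h3⟩
        · left; simp only [if_true]; exact ⟨j, h3⟩
      · intro i hi
        obtain ⟨ℓ, -, ⟨j, rfl⟩, h3⟩ := D2 i hi
        rcases h3 with h3 | h3
        · left; simp only [Bool.false_eq_true, if_false]; exact ⟨j, h3⟩
        · right; simp only [Bool.false_eq_true, if_false]; exact ⟨j, h3⟩
    have h5 := (hacc b σ).1 hreach (w a0 j) (hw a0 j)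
    rw [← h5, hσdef]
    simp only [if_pos (hw a0 j)]
  have hcount := Finset.card_le_mul_card_image (f := φ) Finset.univ (B / p ^ m) hfib
  have hLeaf : Fintype.card (Leaf H) = 2 ^ H := by simp [card_vector]
  have huniv : (Finset.univ : Finset (Leaf H → ZMod p)).card = p ^ (2 ^ H) := by
    rw [Finset.card_univ, Fintype.card_fun, ZMod.card, hLeaf]
  have hItem : Fintype.card P.Item = 2 * Fintype.card P.V ^ 2 * (2 * Fintype.card ι + 1) := by
    simp only [NBP.Item, Fintype.card_prod, Fintype.card_bool, Fintype.card_option]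
    ring
  have himg : ((Finset.univ : Finset (Leaf H → ZMod p)).image φ).card ≤
      2 * ((1 + 2 * Fintype.card P.V ^ 2 * (2 * Fintype.card ι + 1)) ^ (2 * k) *
        (2 ^ (m * H) * 2 ^ (m * H))) := by
    refine (Finset.card_le_univ _).trans (le_of_eq ?_)
    simp only [Fintype.card_prod, Fintype.card_bool, Fintype.card_fun, Fintype.card_option,
      Fintype.card_fin, hLeaf, hItem]
    rw [← pow_mul, mul_comm H m, add_comm (2 * Fintype.card P.V ^ 2 * (2 * Fintype.card ι + 1)) 1]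
  rw [huniv] at hcount
  have hfin : p ^ (2 ^ H) * p ^ m ≤ p ^ (2 ^ H) *
      (2 * (1 + 2 * Fintype.card P.V ^ 2 * (2 * Fintype.card ι + 1)) ^ (2 * k) *
      2 ^ (2 * m * H) * 2 ^ (2 * m * H) * 2 ^ m) := by
    calc p ^ (2 ^ H) * p ^ m ≤ (B / p ^ m * (Finset.univ.image φ).card) * p ^ m :=
          Nat.mul_le_mul_right _ hcount
      _ = (B / p ^ m * p ^ m) * (Finset.univ.image φ).card := by ring
      _ ≤ B * (2 * ((1 + 2 * Fintype.card P.V ^ 2 * (2 * Fintype.card ι + 1)) ^ (2 * k) *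
        (2 ^ (m * H) * 2 ^ (m * H)))) :=
          Nat.mul_le_mul (Nat.div_mul_le_self _ _) himg
      _ = _ := by
          have e : 2 ^ (m * H) * 2 ^ (m * H) = 2 ^ (2 * m * H) := by
            rw [← pow_add]; congr 1; ring
          rw [hB, e]; ring
  exact Nat.le_of_mul_le_mul_left hfin (by positivity)

end Pool.Agent.MP_6216ea_lc
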