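import Mathlib

set_option autoImplicit false

namespace Pool.Agent.MP_6216ea_lc

theorem rk_exists_H (n B : ℕ) (hn : 2 ^ (8 * B + 13) ≤ n) :
    ∃ H, B ≤ H ∧ 2 ^ (8 * H + 5) ≤ n ∧ n < 2 ^ (8 * H + 13) := by
  have hn0 : n ≠ 0 := by
    have : 0 < 2 ^ (8 * B + 13) := by positivity
    omega
  have hlog : 8 * B + 13 ≤ Nat.log 2 n := Nat.le_log_of_pow_le (by norm_num) hn
  refine ⟨(Nat.log 2 n - 5) / 8, by omega, ?_, ?_⟩
  · exact Nat.pow_le_of_le_log hn0 (by omega)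
  · exact (Nat.lt_pow_succ_log_self (by norm_num) n).trans_le
      (Nat.pow_le_pow_right (by norm_num) (by omega))

/-- the choice of `m` -/
theorem rk_exists_m (A H : ℕ) (hA : 1 ≤ A) (hH : 7 * A ≤ H) :
    ∃ m, A * (2 * m + 1) ≤ H ∧ H ≤ 3 * A * m ∧ 1 ≤ m := by
  have hq : 7 ≤ H / A := (Nat.le_div_iff_mul_le (by omega)).2 hH
  refine ⟨(H / A - 1) / 2, ?_, ?_, by omega⟩
  · calc A * (2 * ((H / A - 1) / 2) + 1) ≤ A * (H / A) := Nat.mul_le_mul_left _ (by omega)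
      _ ≤ H := Nat.mul_div_le H A
  · have h1 : H < A * (H / A + 1) := by
      have := Nat.lt_mul_div_succ H (show 0 < A by omega)
      simpa using this
    have h2 : H / A + 1 ≤ 3 * ((H / A - 1) / 2) := by omega
    calc H ≤ A * (H / A + 1) := h1.le
      _ ≤ A * (3 * ((H / A - 1) / 2)) := Nat.mul_le_mul_left _ h2
      _ = _ := by ring

theorem rk_aux (D H n s : ℕ) (hs : s < 2 ^ D) (hn : n < 2 ^ (8 * H + 13)) :
    1 + 2 * s ^ 2 * (2 * n + 1) ≤ 2 ^ (2 * D + 8 * H + 16) := by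
  have h2 : s ^ 2 ≤ 2 ^ D * 2 ^ D := by
    rw [sq]
    exact Nat.mul_le_mul hs.le hs.le
  obtain ⟨X, hX⟩ : ∃ X, X = 2 ^ D := ⟨_, rfl⟩
  obtain ⟨Y, hY⟩ : ∃ Y, Y = 2 ^ (8 * H + 13) := ⟨_, rfl⟩
  have hX1 : 1 ≤ X := by rw [hX]; exact Nat.one_le_two_pow
  have hY1 : 1 ≤ Y := by rw [hY]; exact Nat.one_le_two_pow
  have e : 2 ^ (2 * D + 8 * H + 16) = 8 * (X * X) * Y := by
    rw [hX, hY, show 2 * D + 8 * H + 16 = 3 + (D + D) + (8 * H + 13) by ring, pow_add, pow_add,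
      pow_add 2 D D]
    norm_num
  rw [← hX] at h2
  rw [← hY] at hn
  rw [e]
  have h3 : 2 * n + 1 ≤ 2 * Y := by omega
  have h4 : 2 * s ^ 2 * (2 * n + 1) ≤ 2 * (X * X) * (2 * Y) :=
    Nat.mul_le_mul (Nat.mul_le_mul_left _ h2) h3
  have h5 : 1 ≤ X * X * Y := by
    have := Nat.mul_le_mul (Nat.mul_le_mul hX1 hX1) hY1
    simpa using this
  have e1 : 2 * (X * X) * (2 * Y) = 4 * (X * X * Y) := by ring
  have e2 : 8 * (X * X) * Y = 8 * (X * X * Y) := by ring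
  omega

/-- the lower bound for `s` in natural numbers -/
theorem rk_nat (k A H m n s p D : ℕ) (hH2 : 2 ≤ H) (hm : 1 ≤ m) (hHm : H ≤ 3 * A * m)
    (hB : 288 * A * (k + 1) ≤ H) (hD : 24 * A * (k + 1) * D ≤ H ^ 2) (hA : 1 ≤ A)
    (hn : n < 2 ^ (8 * H + 13)) (hp : 2 ^ (6 * H) < p)
    (h : p ^ m ≤ 2 * (1 + 2 * s ^ 2 * (2 * n + 1)) ^ (2 * k) *
        2 ^ (2 * m * H) * 2 ^ (2 * m * H) * 2 ^ m) : 2 ^ D ≤ s := by
  by_contra hs
  push Not at hs
  have h1 : 1 + 2 * s ^ 2 * (2 * n + 1) ≤ 2 ^ (2 * D + 8 * H + 16) := rk_aux D H n s hs hn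
  have h5 : 2 ^ (6 * H * m) ≤ 2 ^ (1 + (2 * D + 8 * H + 16) * (2 * k) + 2 * m * H + 2 * m * H + m) := by
    calc 2 ^ (6 * H * m) = (2 ^ (6 * H)) ^ m := by rw [pow_mul]
      _ ≤ p ^ m := Nat.pow_le_pow_left hp.le m
      _ ≤ _ := h
      _ ≤ 2 * (2 ^ (2 * D + 8 * H + 16)) ^ (2 * k) * 2 ^ (2 * m * H) * 2 ^ (2 * m * H) * 2 ^ m :=
          Nat.mul_le_mul_right _ (Nat.mul_le_mul_right _ (Nat.mul_le_mul_right _
            (Nat.mul_le_mul_left _ (Nat.pow_le_pow_left h1 _))))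
      _ = _ := by
          rw [← pow_mul]
          generalize (2 * D + 8 * H + 16) * (2 * k) = X
          generalize 2 * m * H = Y
          rw [pow_add, pow_add, pow_add, pow_add, pow_one]
  have h6 := (Nat.pow_le_pow_iff_right (by norm_num)).1 h5
  -- `H m ≤ (2 D + 8 H + 16) 2 k`
  have h7 : H * m ≤ (2 * D + 8 * H + 16) * (2 * k) := by
    have e1 : 6 * H * m = 6 * (H * m) := by ring
    have e2 : 2 * m * H = 2 * (H * m) := by ring
    have e3 : 2 * m ≤ H * m := Nat.mul_le_mul_right _ hH2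
    rw [e1, e2] at h6
    omega
  -- multiply by `6 A`
  have h8 : H * H ≤ 3 * A * (H * m) := by
    calc H * H ≤ H * (3 * A * m) := Nat.mul_le_mul_left _ hHm
      _ = _ := by ring
  have h9 : H * H ≤ 3 * A * ((2 * D + 8 * H + 16) * (2 * k)) :=
    h8.trans (Nat.mul_le_mul_left _ h7)
  have h10 : 3 * A * ((2 * D + 8 * H + 16) * (2 * k)) * 2 =
      24 * A * k * D + 12 * A * k * (8 * H + 16) := by ring
  have h11 : 24 * A * k * D ≤ H ^ 2 := by
    refine le_trans ?_ hD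
    exact Nat.mul_le_mul_right _ (Nat.mul_le_mul_left _ (Nat.le_succ k))
  have h12 : 12 * A * k * (8 * H + 16) ≤ 288 * A * k * H := by
    have e1 : 8 * H + 16 ≤ 24 * H := by omega
    calc 12 * A * k * (8 * H + 16) ≤ 12 * A * k * (24 * H) := Nat.mul_le_mul_left _ e1
      _ = _ := by ring
  have h13 : 288 * A * k * H < H * H := by
    have : 288 * A * k < H := by
      have : 288 * A * (k + 1) = 288 * A * k + 288 * A := by ring
      omega
    exact Nat.mul_lt_mul_of_pos_right this (by omega)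
  have h14 : H ^ 2 = H * H := sq H
  omega

/-- From the parameters to `n ^ (c log n)`. -/
theorem rk_numbers (k : ℕ) : ∃ c : ℝ, 0 < c ∧ ∃ n₀ : ℕ, ∀ n ≥ n₀, ∃ H m : ℕ,
    2 * (k ^ 2 + 2) * 2 ^ (k ^ 2) * (2 * m + 1) ≤ H ∧ 1 ≤ H ∧ 2 ^ (8 * H + 5) ≤ n ∧
    ∀ s p : ℕ, 2 ^ (6 * H) < p →
      p ^ m ≤ 2 * (1 + 2 * s ^ 2 * (2 * n + 1)) ^ (2 * k) *
        2 ^ (2 * m * H) * 2 ^ (2 * m * H) * 2 ^ m → (n : ℝ) ^ (c * Real.log n) ≤ s := by
  -- `A` : the constant of the combinatorial lemma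
  obtain ⟨A, hA⟩ : ∃ A, A = 2 * (k ^ 2 + 2) * 2 ^ (k ^ 2) := ⟨_, rfl⟩
  have hA1 : 1 ≤ A := by
    rw [hA]
    have : 1 ≤ 2 ^ (k ^ 2) := Nat.one_le_two_pow
    nlinarith
  have hAk : 0 < A * (k + 1) := by positivity
  have hAk' : (0 : ℝ) < A * (k + 1) := by exact_mod_cast hAk
  refine ⟨1 / (441 * 48 * (A * (k + 1))), by positivity,
    2 ^ (8 * (288 * A * (k + 1)) + 13), ?_⟩
  intro n hn
  obtain ⟨H, hBH, hlow, hup⟩ := rk_exists_H n _ hn
  have hH7 : 7 * A ≤ H := by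
    have h1 : A * 1 ≤ A * (k + 1) := Nat.mul_le_mul_left _ (by omega)
    have h2 : 288 * A * (k + 1) = 288 * (A * (k + 1)) := by ring
    omega
  obtain ⟨m, hm1, hm2, hm3⟩ := rk_exists_m A H hA1 hH7
  refine ⟨H, m, by rw [← hA]; exact hm1, by omega, hlow, ?_⟩
  intro s p hp h
  have hD := rk_nat k A H m n s p (H ^ 2 / (24 * A * (k + 1))) (by omega) hm3 hm2 hBH
    (Nat.mul_div_le _ _) hA1 hup hp h
  set D := H ^ 2 / (24 * A * (k + 1)) with hDdef
  have hHR : (1 : ℝ) ≤ H := by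
    have : 1 ≤ H := by omega
    exact_mod_cast this
  have hn0 : (0 : ℝ) < n := by
    have : 0 < 2 ^ (8 * H + 5) := by positivity
    exact_mod_cast this.trans_le hlow
  have hlog2 : (0 : ℝ) < Real.log 2 := Real.log_pos (by norm_num)
  have hlog2' : Real.log 2 ≤ 1 := by
    have := Real.log_two_lt_d9
    linarith
  have hL1 : Real.log n ≤ 21 * H * Real.log 2 := by
    have h1 : (n : ℝ) ≤ (2 : ℝ) ^ (8 * H + 13) := by exact_mod_cast hup.le
    have h2 := Real.log_le_log hn0 h1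
    rw [Real.log_pow] at h2
    refine h2.trans ?_
    apply mul_le_mul_of_nonneg_right _ hlog2.le
    push_cast
    linarith
  have hL0 : 0 ≤ Real.log n := by
    apply Real.log_nonneg
    have : 1 ≤ n := le_trans Nat.one_le_two_pow hlow
    exact_mod_cast this
  -- the lower bound for `D`
  have hDR : (H : ℝ) ^ 2 / (48 * (A * (k + 1))) ≤ D := by
    have h1 : H ^ 2 < 24 * A * (k + 1) * (D + 1) := by
      have := Nat.lt_mul_div_succ (H ^ 2) (show 0 < 24 * A * (k + 1) by positivity)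
      simpa using this
    have h2 : 24 * A * (k + 1) ≤ H ^ 2 / 2 := by
      rw [Nat.le_div_iff_mul_le (by norm_num)]
      have e1 : 24 * A * (k + 1) * 2 ≤ 288 * A * (k + 1) := by
        have : 288 * A * (k + 1) = 6 * (24 * A * (k + 1) * 2) := by ring
        omega
      calc 24 * A * (k + 1) * 2 ≤ H := e1.trans hBH
        _ ≤ H ^ 2 := Nat.le_self_pow (by norm_num) H
    have h3 : H ^ 2 ≤ 48 * A * (k + 1) * D := by
      have h4 : 24 * A * (k + 1) * (D + 1) = 24 * A * (k + 1) * D + 24 * A * (k + 1) := by ring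
      have h5 : 48 * A * (k + 1) * D = 2 * (24 * A * (k + 1) * D) := by ring
      omega
    rw [div_le_iff₀ (by positivity)]
    have h6 : ((H ^ 2 : ℕ) : ℝ) ≤ ((48 * A * (k + 1) * D : ℕ) : ℝ) := by exact_mod_cast h3
    push_cast at h6
    linarith
  have hfin : (n : ℝ) ^ (1 / (441 * 48 * (A * (k + 1))) * Real.log n) ≤ (2 : ℝ) ^ D := by
    rw [Real.rpow_def_of_pos hn0]
    have h3 : (2 : ℝ) ^ D = Real.exp ((D : ℝ) * Real.log 2) := by
      have h6 : Real.log ((2 : ℝ) ^ D) = (D : ℝ) * Real.log 2 := by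
        rw [Real.log_pow]
      rw [← h6, Real.exp_log (pow_pos (by norm_num) _)]
    rw [h3]
    apply Real.exp_le_exp.2
    have h4 : Real.log n * Real.log n ≤ (21 * H * Real.log 2) * (21 * H * Real.log 2) :=
      mul_self_le_mul_self hL0 hL1
    have h5 : (21 * H * Real.log 2) * (21 * H * Real.log 2) ≤ 441 * (H : ℝ) ^ 2 * Real.log 2 := by
      have : (21 * (H : ℝ) * Real.log 2) * (21 * H * Real.log 2) =
          441 * (H : ℝ) ^ 2 * Real.log 2 * Real.log 2 := by ring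
      rw [this]
      apply mul_le_of_le_one_right _ hlog2'
      positivity
    have h6 : Real.log n * (1 / (441 * 48 * (A * (k + 1))) * Real.log n) =
        (Real.log n * Real.log n) / (441 * 48 * (A * (k + 1))) := by ring
    rw [h6, div_le_iff₀ (by positivity)]
    have h7 : (H : ℝ) ^ 2 ≤ D * (48 * (A * (k + 1))) := by
      rwa [div_le_iff₀ (by positivity)] at hDR
    calc Real.log n * Real.log n ≤ 441 * (H : ℝ) ^ 2 * Real.log 2 := h4.trans h5
      _ ≤ 441 * (D * (48 * (A * (k + 1)))) * Real.log 2 := by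
          apply mul_le_mul_of_nonneg_right _ hlog2.le
          linarith
      _ = _ := by ring
  have hs : ((2 ^ D : ℕ) : ℝ) ≤ s := by exact_mod_cast hD
  push_cast at hs
  exact hfin.trans hs

end Pool.Agent.MP_6216ea_lc
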