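import Mathlib
import Pool.Agent.Lib.MP_6216ea_lc.RKPda
import Pool.Agent.Lib.MP_6216ea_lc.RKClass

set_option autoImplicit false

namespace Pool.Agent.MP_6216ea_lc

/-- Tags of the positions of a word: option `i` of the leaf `v`, or bit `c` of the node `v`. -/
abbrev Tag : Type := Option ((List Bool × ℕ) ⊕ (List Bool × Bool))

/-- The bit of a tag, for the leaf values `b` and the node bits `σ`. -/
def tagBit (b : List Bool → ℕ) (σ : List Bool → Bool) : Tag → Bool
  | none => false
  | some (.inl (v, i)) => decide (b v = i)
  | some (.inr (v, c)) => decide (σ v = c)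

/-- The word of the subtree of height `m` at `v`. -/
def rtpl (p Q : ℕ) (χ : ℕ → Bool) : ℕ → List Bool → List (Lt × Tag)
  | 0, v => (.ls, none) :: (List.range p).map (fun i => (.lp, some (.inl (v, i))))
  | m + 1, v => (.opn, none) :: (rtpl p Q χ m (false :: v) ++ (rtpl p Q χ m (true :: v) ++
      ((.ts, none) :: ((List.range (Q + 1)).map (fun i => (.tt (χ i), none)) ++
        (List.replicate Q (.rs, none) ++
          [(.kk false, some (.inr (v, false))), (.kk true, some (.inr (v, true)))])))))

/-- Sum of the leaf values below `v` (height `m`). -/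
def ns (b : List Bool → ℕ) : ℕ → List Bool → ℕ
  | 0, v => b v
  | m + 1, v => ns b m (false :: v) + ns b m (true :: v)

/-- All node bits of the subtree of height `m` at `v` are right. -/
def okn (χ : ℕ → Bool) (b : List Bool → ℕ) (σ : List Bool → Bool) : ℕ → List Bool → Bool
  | 0, _ => true
  | m + 1, v => okn χ b σ m (false :: v) && okn χ b σ m (true :: v) &&
      (σ v == χ (ns b (m + 1) v))

/-- Evaluation of a template. -/
def evT (b : List Bool → ℕ) (σ : List Bool → Bool) (t : Lt × Tag) : Lt × Bool :=
  (t.1, tagBit b σ t.2)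

/-- The computation of the machine. -/
def rn : Sta → List Bool → List (Lt × Bool) → Option (Sta × List Bool)
  | q, s, [] => some (q, s)
  | q, s, (l, b) :: w => match mv q l b, s with
    | .stay q', s => rn q' s w
    | .push c q', s => rn q' (c :: s) w
    | .pop f, c :: s => rn (f c) s w
    | .pop _, [] => none
    | .halt, _ => none

theorem DPDA.run_cons_none {T : Type} (M : DPDA T) (q : M.Q) (s : List M.S) (t : T) (w : List T)
    (h : M.step q t s.head? = none) : M.run q s (t :: w) = none := by
  rw [DPDA.run, h]

theorem DPDA.run_cons_some {T : Type} (M : DPDA T) (q : M.Q) (s : List M.S) (t : T) (w : List T)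
    {q' : M.Q} {γ : List M.S} (h : M.step q t s.head? = some (q', γ)) :
    M.run q s (t :: w) = M.run q' (γ ++ s.tail) w := by
  rw [DPDA.run, h]

theorem rn_stay {q q' : Sta} {l : Lt} {b : Bool} (h : mv q l b = .stay q') (s : List Bool)
    (w : List (Lt × Bool)) : rn q s ((l, b) :: w) = rn q' s w := by
  cases s <;> simp [rn, h]

theorem rn_push {q q' : Sta} {l : Lt} {b c : Bool} (h : mv q l b = .push c q')
    (s : List Bool) (w : List (Lt × Bool)) :
    rn q s ((l, b) :: w) = rn q' (c :: s) w := by
  cases s <;> simp [rn, h]

theorem rn_pop {q : Sta} {l : Lt} {b c : Bool} {f : Bool → Sta} (h : mv q l b = .pop f)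
    (s : List Bool) (w : List (Lt × Bool)) :
    rn q (c :: s) ((l, b) :: w) = rn (f c) s w := by
  simp [rn, h]

theorem rn_halt {q : Sta} {l : Lt} {b : Bool} (h : mv q l b = .halt)
    (s : List Bool) (w : List (Lt × Bool)) : rn q s ((l, b) :: w) = none := by
  cases s <;> simp [rn, h]

theorem rn_pop_nil {q : Sta} {l : Lt} {b : Bool} {f : Bool → Sta} (h : mv q l b = .pop f)
    (w : List (Lt × Bool)) : rn q [] ((l, b) :: w) = none := by
  simp [rn, h]

theorem run_eq_rn (w : List (Lt × Bool)) (q : Sta) (s : List Bool) :
    rkM.run q s w = rn q s w := by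
  induction w generalizing q s with
  | nil => rfl
  | cons t w ih =>
    obtain ⟨l, b⟩ := t
    cases h : mv q l b with
    | stay q' =>
      rw [rn_stay h]
      have e2 : rkM.step q (l, b) s.head? = some (q', s.head?.toList) := by
        simp [rkM, h]
      refine (DPDA.run_cons_some rkM q s (l, b) w e2).trans ?_
      cases s with
      | nil => exact ih q' []
      | cons c s => exact ih q' (c :: s)
    | push c q' =>
      rw [rn_push h]
      have e2 : rkM.step q (l, b) s.head? = some (q', c :: s.head?.toList) := by
        simp [rkM, h]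
      refine (DPDA.run_cons_some rkM q s (l, b) w e2).trans ?_
      cases s with
      | nil => exact ih q' [c]
      | cons d s => exact ih q' (c :: d :: s)
    | pop f =>
      cases s with
      | nil =>
        rw [rn_pop_nil h]
        have e2 : rkM.step q (l, b) ([] : List Bool).head? = none := by simp [rkM, h]
        exact DPDA.run_cons_none rkM q [] (l, b) w e2
      | cons c s =>
        rw [rn_pop h]
        have e2 : rkM.step q (l, b) (c :: s).head? = some (f c, []) := by simp [rkM, h]
        exact (DPDA.run_cons_some rkM q (c :: s) (l, b) w e2).trans (ih (f c) s)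
    | halt =>
      rw [rn_halt h]
      have e2 : rkM.step q (l, b) s.head? = none := by simp [rkM, h]
      cases s with
      | nil => exact DPDA.run_cons_none rkM q [] (l, b) w e2
      | cons c s => exact DPDA.run_cons_none rkM q (c :: s) (l, b) w e2

theorem rep_snoc {α : Type} (n : ℕ) (x : α) (s : List α) :
    List.replicate n x ++ (x :: s) = List.replicate (n + 1) x ++ s := by
  rw [List.replicate_succ', List.append_assoc]
  rfl

/-- letters that are skipped -/
theorem run_skip {q : Sta} (W : List (Lt × Bool)) (h : ∀ t ∈ W, mv q t.1 t.2 = .stay q)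
    (s : List Bool) (w : List (Lt × Bool)) : rn q s (W ++ w) = rn q s w := by
  induction W with
  | nil => rfl
  | cons t W ih =>
    obtain ⟨l, b⟩ := t
    rw [List.cons_append, rn_stay (h (l, b) (by simp))]
    exact ih fun t ht => h t (by simp [ht])

/-- letters that push a unit -/
theorem run_pushes {q : Sta} (W : List (Lt × Bool)) (n : ℕ) (hn : W.length = n)
    (h : ∀ t ∈ W, mv q t.1 t.2 = .push true q) (s : List Bool) (w : List (Lt × Bool)) :
    rn q s (W ++ w) = rn q (List.replicate n true ++ s) w := by
  subst hn
  induction W generalizing s with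
  | nil => rfl
  | cons t W ih =>
    obtain ⟨l, b⟩ := t
    rw [List.cons_append, rn_push (h (l, b) (by simp)), ih (fun t ht => h t (by simp [ht])),
      rep_snoc]
    rfl

/-- letters that pop a unit -/
theorem run_pops {q : Sta} (W : List (Lt × Bool)) (n : ℕ) (hn : W.length = n)
    (h : ∀ t ∈ W, ∃ f, mv q t.1 t.2 = .pop f ∧ f true = q)
    (s : List Bool) (w : List (Lt × Bool)) :
    rn q (List.replicate n true ++ s) (W ++ w) = rn q s w := by
  subst hn
  induction W with
  | nil => rfl
  | cons t W ih =>
    obtain ⟨l, b⟩ := t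
    obtain ⟨f, hf1, hf2⟩ := h (l, b) (by simp)
    rw [List.cons_append, List.length_cons, List.replicate_succ, List.cons_append,
      rn_pop hf1, hf2]
    exact ih fun t ht => h t (by simp [ht])

theorem range_split (n a : ℕ) (h : a < n) : List.range n =
    List.range a ++ a :: (List.range (n - a - 1)).map (fun i => a + 1 + i) := by
  have h1 : n = a + (1 + (n - a - 1)) := by omega
  conv_lhs => rw [h1]
  rw [List.range_add, List.range_add]
  simp only [List.range_one, List.map_cons, Nat.add_zero,
    List.map_map, List.cons_append, List.nil_append]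
  congr 2
  apply List.map_congr_left
  intro i _
  simp only [Function.comp]
  omega

/-- the leaf word -/
theorem run_leaf (p : ℕ) (b : List Bool → ℕ) (σ : List Bool → Bool) (v : List Bool)
    (hb : b v < p) (s : List Bool) (w : List (Lt × Bool)) :
    rn .ready s ((rtpl p 0 (fun _ => true) 0 v).map (evT b σ) ++ w) =
      rn .ready (List.replicate (b v) true ++ s) w := by
  simp only [rtpl, List.map_cons, List.cons_append, List.map_map]
  rw [show evT b σ (Lt.ls, none) = (Lt.ls, false) from rfl,
    rn_stay (q' := .scan) rfl, range_split p (b v) hb]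
  simp only [List.map_append, List.map_cons, List.append_assoc, List.cons_append, List.map_map]
  rw [run_pushes _ (b v) (by simp)]
  · have : (evT b σ ∘ fun i => (Lt.lp, some (Sum.inl (v, i)))) (b v) = (Lt.lp, true) := by
      simp [evT, tagBit]
    rw [this, rn_stay (q' := .ready) rfl, run_skip]
    intro t ht
    simp only [List.mem_map] at ht
    obtain ⟨i, _, rfl⟩ := ht
    rfl
  · intro t ht
    simp only [List.mem_map, List.mem_range, Function.comp] at ht
    obtain ⟨i, hi, rfl⟩ := ht
    have : decide (b v = i) = false := by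
      simp only [decide_eq_false_iff_not]; omega
    simp [evT, tagBit, this, mv]

theorem run_table (Q : ℕ) (χ : ℕ → Bool) (n : ℕ) (hn : n + 1 ≤ Q) (s : List Bool)
    (w : List (Lt × Bool)) :
    rn .pop (List.replicate n true ++ (false :: s))
      ((List.range (Q + 1)).map (fun i => (Lt.tt (χ i), false)) ++ w) =
      rn (.p2 (χ n)) (List.replicate (Q - n - 1) true ++ (false :: s)) w := by
  rw [range_split (Q + 1) n (by omega)]
  simp only [List.map_append, List.map_cons, List.append_assoc, List.cons_append, List.map_map]
  rw [run_pops _ n (by simp)]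
  · rw [rn_pop (f := fun b => if b then .pop else .p1 (χ n)) rfl]
    have h2 : Q + 1 - n - 1 = (Q - n - 1) + 1 := by omega
    rw [h2, List.range_succ_eq_map]
    simp only [List.map_cons, List.cons_append, Function.comp, Bool.false_eq_true, if_false,
      List.map_map]
    rw [rn_push (q' := .p2 (χ n)) (c := false) rfl, run_pushes _ (Q - n - 1) (by simp)]
    intro t ht
    simp only [List.mem_map] at ht
    obtain ⟨i, _, rfl⟩ := ht
    rfl
  · intro t ht
    simp only [List.mem_map] at ht
    obtain ⟨i, _, rfl⟩ := ht
    exact ⟨_, rfl, rfl⟩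

theorem run_restore (Q : ℕ) (c : Bool) (n : ℕ) (hn : n + 1 ≤ Q) (s : List Bool)
    (w : List (Lt × Bool)) :
    rn (.p2 c) (List.replicate (Q - n - 1) true ++ (false :: s))
      (List.replicate Q (Lt.rs, false) ++ w) =
      rn (.f c) (List.replicate n true ++ s) w := by
  have h1 : Q = (Q - n - 1) + (1 + n) := by omega
  conv_lhs => rw [h1, List.replicate_add, List.replicate_add]
  rw [show (Q - n - 1) + (1 + n) - n - 1 = Q - n - 1 by omega]
  simp only [List.append_assoc, List.replicate_one, List.cons_append, List.nil_append]
  rw [run_pops _ (Q - n - 1) (by simp)]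
  · rw [rn_pop (f := fun b => if b then .p2 c else .f c) rfl]
    simp only [Bool.false_eq_true, if_false]
    rw [run_pushes _ n (by simp)]
    intro t ht
    rw [List.eq_of_mem_replicate ht]
    rfl
  · intro t ht
    rw [List.eq_of_mem_replicate ht]
    exact ⟨_, rfl, rfl⟩

theorem run_check (c d : Bool) (s : List Bool) (w : List (Lt × Bool)) :
    rn (.f c) s ((Lt.kk false, decide (d = false)) :: (Lt.kk true, decide (d = true)) :: w) =
      if d = c then rn .ready s w else none := by
  cases c <;> cases d
  · rw [rn_stay (q' := .ready) rfl, rn_stay (q' := .ready) rfl]; rfl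
  · rw [rn_halt rfl]; rfl
  · rw [rn_stay (q' := .f true) rfl, rn_halt rfl]; rfl
  · rw [rn_stay (q' := .f true) rfl, rn_stay (q' := .ready) rfl]; rfl

theorem ns_lt {p : ℕ} {b : List Bool → ℕ} (hb : ∀ ℓ, b ℓ < p) (m : ℕ) (v : List Bool) :
    ns b m v < 2 ^ m * p := by
  induction m generalizing v with
  | zero => simpa [ns] using hb v
  | succ m ih =>
    have h1 := ih (false :: v)
    have h2 := ih (true :: v)
    have h3 : 2 ^ (m + 1) * p = 2 ^ m * p + 2 ^ m * p := by ring
    rw [h3]
    simp only [ns]
    omega

/-- The computation on the word of a subtree. -/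
theorem run_rtpl' (p Q : ℕ) (χ : ℕ → Bool) (b : List Bool → ℕ) (σ : List Bool → Bool) (m : ℕ)
    (v : List Bool) (hb : ∀ ℓ, b ℓ < p) (hQ : 2 ^ m * p ≤ Q) (s : List Bool)
    (w : List (Lt × Bool)) :
    rn .ready s ((rtpl p Q χ m v).map (evT b σ) ++ w) =
      if okn χ b σ m v then rn .ready (List.replicate (ns b m v) true ++ s) w
      else none := by
  induction m generalizing v s w with
  | zero =>
    simp only [okn, ns, if_true]
    exact run_leaf p b σ v (hb v) s w
  | succ m ih =>
    have hQ' : 2 ^ m * p ≤ Q := by
      have : 2 ^ (m + 1) * p = 2 ^ m * p + 2 ^ m * p := by ring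
      omega
    have hn : ns b (m + 1) v + 1 ≤ Q := by
      have := ns_lt hb (m + 1) v
      omega
    simp only [rtpl, List.map_cons, List.map_append, List.cons_append, List.append_assoc,
      List.map_map, List.map_replicate, List.map_nil, List.nil_append]
    rw [show evT b σ (Lt.opn, none) = (Lt.opn, false) from rfl,
      rn_push (q' := .ready) (c := false) rfl, ih _ hQ']
    cases h1 : okn χ b σ m (false :: v)
    · simp [okn, h1]
    simp only [if_true]
    rw [ih _ hQ']
    cases h2 : okn χ b σ m (true :: v)
    · simp [okn, h2]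
    simp only [if_true]
    rw [show evT b σ (Lt.ts, none) = (Lt.ts, false) from rfl,
      rn_stay (q' := .pop) rfl, ← List.append_assoc, ← List.replicate_add]
    have h3 : ns b m (true :: v) + ns b m (false :: v) = ns b (m + 1) v := by
      simp only [ns]; ring
    rw [h3]
    have h4 : (List.range (Q + 1)).map (evT b σ ∘ fun i => (Lt.tt (χ i), none)) =
        (List.range (Q + 1)).map (fun i => (Lt.tt (χ i), false)) := rfl
    rw [h4, run_table Q χ _ hn,
      show evT b σ (Lt.rs, none) = (Lt.rs, false) from rfl, run_restore Q _ _ hn]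
    have h5 : evT b σ (Lt.kk false, some (Sum.inr (v, false))) =
        (Lt.kk false, decide (σ v = false)) := rfl
    have h6 : evT b σ (Lt.kk true, some (Sum.inr (v, true))) =
        (Lt.kk true, decide (σ v = true)) := rfl
    rw [h5, h6, run_check]
    simp only [okn, h1, h2, Bool.true_and, beq_iff_eq]

theorem run_rtpl (p Q : ℕ) (χ : ℕ → Bool) (b : List Bool → ℕ) (σ : List Bool → Bool) (m : ℕ)
    (v : List Bool) (hb : ∀ ℓ, b ℓ < p) (hQ : 2 ^ m * p ≤ Q) (s : List Bool)
    (w : List (Lt × Bool)) :
    rkM.run Sta.ready s ((rtpl p Q χ m v).map (evT b σ) ++ w) =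
      if okn χ b σ m v then rkM.run Sta.ready (List.replicate (ns b m v) true ++ s) w
      else none := by
  rw [run_eq_rn, run_rtpl' p Q χ b σ m v hb hQ]
  have := run_eq_rn w Sta.ready (List.replicate (ns b m v) true ++ s)
  by_cases h : okn χ b σ m v
  · simp only [h, if_true]; exact this.symm
  · simp only [h]; rfl

/-- The whole template. -/
def fullR (p Q : ℕ) (χ : ℕ → Bool) (H pad : ℕ) : List (Lt × Tag) :=
  List.replicate pad (.lp, none) ++ ((.opn, none) :: (rtpl p Q χ H [] ++
    List.replicate Q (.cl, none)))

theorem run_close (Q n : ℕ) (hn : n + 1 ≤ Q) :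
    rn .ready (List.replicate n true ++ [false]) (List.replicate Q (Lt.cl, false)) =
      some (.fin, []) := by
  have h1 : Q = n + (1 + (Q - n - 1)) := by omega
  conv_lhs => rw [h1, List.replicate_add, List.replicate_add]
  rw [run_pops _ n (by simp)]
  · simp only [List.replicate_one, List.cons_append, List.nil_append]
    rw [rn_pop (f := fun b => if b then .ready else .fin) rfl]
    simp only [Bool.false_eq_true, if_false]
    have := run_skip (q := .fin) (List.replicate (Q - n - 1) (Lt.cl, false)) (by
      intro t ht
      rw [List.eq_of_mem_replicate ht]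
      rfl) [] []
    rw [List.append_nil] at this
    rw [this]
    rfl
  · intro t ht
    rw [List.eq_of_mem_replicate ht]
    exact ⟨_, rfl, rfl⟩

theorem fullR_mem (p Q : ℕ) (χ : ℕ → Bool) (b : List Bool → ℕ) (σ : List Bool → Bool)
    (H pad : ℕ) (hb : ∀ ℓ, b ℓ < p) (hQ : 2 ^ H * p ≤ Q) :
    (fullR p Q χ H pad).map (evT b σ) ∈ rkM.language ↔ okn χ b σ H [] = true := by
  have hrun : rn .ready [] ((fullR p Q χ H pad).map (evT b σ)) =
      if okn χ b σ H [] then some (.fin, []) else none := by
    simp only [fullR, List.map_append, List.map_cons, List.map_replicate]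
    rw [show evT b σ (Lt.lp, none) = (Lt.lp, false) from rfl,
      show evT b σ (Lt.opn, none) = (Lt.opn, false) from rfl,
      show evT b σ (Lt.cl, none) = (Lt.cl, false) from rfl, run_skip]
    · rw [rn_push (q' := .ready) (c := false) rfl, run_rtpl' p Q χ b σ H [] hb hQ,
        run_close Q _ (by have := ns_lt hb H []; omega)]
    · intro t ht
      rw [List.eq_of_mem_replicate ht]
      rfl
  have hrun' : rkM.run rkM.start [] ((fullR p Q χ H pad).map (evT b σ)) =
      if okn χ b σ H [] then some (.fin, []) else none := (run_eq_rn _ _ _).trans hrun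
  change (∃ q, rkM.accept q = true ∧ rkM.run rkM.start [] _ = some (q, [])) ↔ _
  rw [hrun']
  constructor
  · rintro ⟨q, _, h⟩
    by_contra h2
    rw [if_neg h2] at h
    exact absurd h (by simp)
  · intro h
    exact ⟨Sta.fin, rfl, by rw [if_pos h]⟩

end Pool.Agent.MP_6216ea_lc
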