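import Mathlib
import Pool.Agent.Lib.MP_6216ea_lc.RKWord

set_option autoImplicit false

namespace Pool.Agent.MP_6216ea_lc

/-- The leaf tag of a letter of a template. -/
def leafTag (t : Lt × Tag) : Option (List Bool × ℕ) :=
  match t.2 with
  | some (.inl y) => some y
  | _ => none

theorem leafTag_eq_some {t : Lt × Tag} {y : List Bool × ℕ} :
    leafTag t = some y ↔ t.2 = some (.inl y) := by
  obtain ⟨l, t⟩ := t
  rcases t with _ | ⟨y' | y'⟩ <;> simp [leafTag]

/-- The leaf tags of a template. -/
def ltags (L : List (Lt × Tag)) : List (List Bool × ℕ) := L.filterMap leafTag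

theorem ltags_append (L L' : List (Lt × Tag)) : ltags (L ++ L') = ltags L ++ ltags L' := by
  simp [ltags, List.filterMap_append]

theorem ltags_none {L : List (Lt × Tag)} (h : ∀ t ∈ L, leafTag t = none) : ltags L = [] := by
  simp only [ltags, List.filterMap_eq_nil_iff]
  exact h

theorem ltags_cons_none {t : Lt × Tag} {L : List (Lt × Tag)} (h : leafTag t = none) :
    ltags (t :: L) = ltags L := by
  simp [ltags, h]

theorem ltags_rtpl_zero (p Q : ℕ) (χ : ℕ → Bool) (v : List Bool) :
    ltags (rtpl p Q χ 0 v) = (List.range p).map (fun i => (v, i)) := by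
  rw [rtpl, ltags_cons_none (by rfl), ltags, List.filterMap_map]
  have : (leafTag ∘ fun i => ((Lt.lp, some (Sum.inl (v, i))) : Lt × Tag)) =
      fun i => some (v, i) := by
    funext i; rfl
  rw [this]
  simp

theorem ltags_rtpl_succ (p Q : ℕ) (χ : ℕ → Bool) (m : ℕ) (v : List Bool) :
    ltags (rtpl p Q χ (m + 1) v) =
      ltags (rtpl p Q χ m (false :: v)) ++ ltags (rtpl p Q χ m (true :: v)) := by
  rw [rtpl, ltags_cons_none (by rfl), ltags_append, ltags_append]
  have h0 : ltags ((.ts, none) :: ((List.range (Q + 1)).map (fun i => (.tt (χ i), none)) ++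
        (List.replicate Q (.rs, none) ++
          [(.kk false, some (.inr (v, false))), (.kk true, some (.inr (v, true)))]))) = [] := by
    apply ltags_none
    intro t ht
    simp only [List.mem_cons, List.mem_append, List.mem_map, List.mem_replicate,
      List.not_mem_nil, or_false] at ht
    rcases ht with rfl | ⟨i, _, rfl⟩ | ⟨_, rfl⟩ | rfl | rfl <;> rfl
  rw [h0, List.append_nil]

theorem suffix_of_mem_ltags {p Q : ℕ} {χ : ℕ → Bool} {m : ℕ} {v : List Bool}
    {y : List Bool × ℕ} (h : y ∈ ltags (rtpl p Q χ m v)) : v <:+ y.1 := by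
  induction m generalizing v with
  | zero =>
    rw [ltags_rtpl_zero, List.mem_map] at h
    obtain ⟨i, _, rfl⟩ := h
    exact List.suffix_refl _
  | succ m ih =>
    rw [ltags_rtpl_succ, List.mem_append] at h
    rcases h with h | h
    · exact (List.suffix_cons _ _).trans (ih h)
    · exact (List.suffix_cons _ _).trans (ih h)

theorem not_both_children {v ℓ : List Bool} (h1 : false :: v <:+ ℓ) (h2 : true :: v <:+ ℓ) :
    False := by
  have h3 := (List.suffix_of_suffix_length_le h1 h2 (by simp)).eq_of_length (by simp)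
  simp at h3

theorem nodup_ltags (p Q : ℕ) (χ : ℕ → Bool) (m : ℕ) (v : List Bool) :
    (ltags (rtpl p Q χ m v)).Nodup := by
  induction m generalizing v with
  | zero =>
    rw [ltags_rtpl_zero]
    exact List.nodup_range.map (fun i j h => by simpa using h)
  | succ m ih =>
    rw [ltags_rtpl_succ]
    refine List.Nodup.append (ih _) (ih _) ?_
    intro y hy1 hy2
    exact not_both_children (suffix_of_mem_ltags hy1) (suffix_of_mem_ltags hy2)

theorem nodup_ltags_full (p Q : ℕ) (χ : ℕ → Bool) (H pad : ℕ) :
    (ltags (fullR p Q χ H pad)).Nodup := by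
  rw [fullR, ltags_append, ltags_cons_none (by rfl), ltags_append,
    ltags_none (L := List.replicate pad (.lp, none)), ltags_none (L := List.replicate Q (.cl, none)),
    List.nil_append, List.append_nil]
  · exact nodup_ltags _ _ _ _ _
  · intro t ht
    rw [(List.mem_replicate.1 ht).2]; rfl
  · intro t ht
    rw [(List.mem_replicate.1 ht).2]; rfl

theorem index_unique {L : List (Lt × Tag)} (h : (ltags L).Nodup) {i j : ℕ} (hi : i < L.length)
    (hj : j < L.length) {y : List Bool × ℕ} (h1 : L[i].2 = some (.inl y))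
    (h2 : L[j].2 = some (.inl y)) : i = j := by
  have h3 : L.Pairwise (fun a a' => ∀ b, leafTag a = some b → ∀ b', leafTag a' = some b' →
      b ≠ b') := by
    have := h
    rw [List.Nodup, ltags, List.pairwise_filterMap] at this
    exact this
  rw [List.pairwise_iff_getElem] at h3
  by_contra hne
  rcases Nat.lt_or_gt_of_ne hne with hlt | hlt
  · exact h3 i j hi hj hlt y (leafTag_eq_some.2 h1) y (leafTag_eq_some.2 h2) rfl
  · exact h3 j i hj hi hlt y (leafTag_eq_some.2 h2) y (leafTag_eq_some.2 h1) rfl

theorem length_rtpl (p Q : ℕ) (χ : ℕ → Bool) (m : ℕ) (v : List Bool) :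
    (rtpl p Q χ m v).length + (2 * Q + 5) = 2 ^ m * (p + 1 + (2 * Q + 5)) := by
  induction m generalizing v with
  | zero => simp [rtpl]
  | succ m ih =>
    have h1 := ih (false :: v)
    have h2 := ih (true :: v)
    rw [rtpl]
    simp only [List.length_cons, List.length_append, List.length_map, List.length_range,
      List.length_replicate, List.length_nil]
    rw [pow_succ]
    linarith

theorem length_fullR (p Q : ℕ) (χ : ℕ → Bool) (H pad : ℕ) :
    (fullR p Q χ H pad).length = pad + 1 + (rtpl p Q χ H []).length + Q := by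
  simp [fullR]
  ring

/-- The value of a leaf as a natural number. -/
def bv {H p : ℕ} (a : Leaf H → ZMod p) (ℓ : List Bool) : ℕ :=
  if h : ℓ.length = H then (a ⟨ℓ, h⟩).val else 0

theorem bv_lt {H p : ℕ} [NeZero p] (a : Leaf H → ZMod p) (ℓ : List Bool) : bv a ℓ < p := by
  unfold bv
  split
  · exact ZMod.val_lt _
  · exact Nat.pos_of_ne_zero (NeZero.ne p)

theorem sm_leaf {H p : ℕ} (a : Leaf H → ZMod p) (v : List Bool) (hv : v.length = H) :
    sm a v = a ⟨v, hv⟩ := by
  unfold sm
  refine (Finset.sum_eq_single (⟨v, hv⟩ : Leaf H) ?_ ?_).trans ?_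
  · intro ℓ _ hℓ
    apply if_neg
    intro hs
    apply hℓ
    exact Subtype.ext (hs.eq_of_length (by rw [hv, ℓ.2])).symm
  · intro h
    exact absurd (Finset.mem_univ (α := Leaf H) _) h
  · exact if_pos (List.suffix_refl _)

theorem child_of_suffix' {v ℓ : List Bool} (h : v <:+ ℓ) (hl : v.length < ℓ.length) :
    false :: v <:+ ℓ ∨ true :: v <:+ ℓ := by
  obtain ⟨t, rfl⟩ := h
  rcases t.eq_nil_or_concat with rfl | ⟨s, b, rfl⟩
  · simp at hl
  · cases b
    · left; exact ⟨s, by simp⟩
    · right; exact ⟨s, by simp⟩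

theorem sm_node {H p : ℕ} (a : Leaf H → ZMod p) (v : List Bool) (hv : v.length < H) :
    sm a v = sm a (false :: v) + sm a (true :: v) := by
  unfold sm
  rw [← Finset.sum_add_distrib]
  refine Finset.sum_congr rfl ?_
  intro ℓ _
  by_cases h : v <:+ ℓ.1
  · rw [if_pos h]
    rcases child_of_suffix' h (by rw [ℓ.2]; exact hv) with h1 | h1
    · rw [if_pos h1, if_neg (fun h2 => not_both_children h1 h2), add_zero]
    · rw [if_pos h1, if_neg (fun h2 => not_both_children h2 h1), zero_add]
  · rw [if_neg h, if_neg (fun h1 => h ((List.suffix_cons _ _).trans h1)),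
      if_neg (fun h1 => h ((List.suffix_cons _ _).trans h1)), add_zero]

theorem ns_cast {H p : ℕ} [NeZero p] (a : Leaf H → ZMod p) (m : ℕ) (v : List Bool)
    (hv : v.length + m = H) : ((ns (bv a) m v : ℕ) : ZMod p) = sm a v := by
  induction m generalizing v with
  | zero =>
    rw [Nat.add_zero] at hv
    rw [sm_leaf a v hv, ns, bv, dif_pos hv, ZMod.natCast_val, ZMod.cast_id]
  | succ m ih =>
    rw [sm_node a v (by omega), ns, Nat.cast_add, ih (false :: v) (by simp; omega),
      ih (true :: v) (by simp; omega)]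

theorem okn_iff (χ : ℕ → Bool) (b : List Bool → ℕ) (σ : List Bool → Bool) (m : ℕ)
    (v : List Bool) : okn χ b σ m v = true ↔
      ∀ w, v <:+ w → w.length < v.length + m → σ w = χ (ns b (v.length + m - w.length) w) := by
  induction m generalizing v with
  | zero =>
    simp only [okn, true_iff]
    intro w h1 h2
    have := h1.length_le
    omega
  | succ m ih =>
    simp only [okn, Bool.and_eq_true, beq_iff_eq]
    rw [ih, ih]
    constructor
    · rintro ⟨⟨h1, h2⟩, h3⟩ w hw hl
      by_cases he : w.length = v.length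
      · have := hw.eq_of_length he.symm
        subst this
        rw [h3]
        congr 2
        omega
      · have hlt : v.length < w.length := lt_of_le_of_ne hw.length_le (Ne.symm he)
        rcases child_of_suffix' hw hlt with h4 | h4
        · have := h1 w h4 (by simp; omega)
          rw [this]
          congr 2
          simp
          omega
        · have := h2 w h4 (by simp; omega)
          rw [this]
          congr 2
          simp
          omega
    · intro h
      refine ⟨⟨?_, ?_⟩, ?_⟩
      · intro w hw hl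
        simp only [List.length_cons] at hl
        rw [h w ((List.suffix_cons _ _).trans hw) (by omega)]
        congr 2
        simp
        omega
      · intro w hw hl
        simp only [List.length_cons] at hl
        rw [h w ((List.suffix_cons _ _).trans hw) (by omega)]
        congr 2
        simp
        omega
      · rw [h v (List.suffix_refl _) (by omega)]
        congr 2
        omega

theorem mem_ltags {p Q : ℕ} {χ : ℕ → Bool} {m : ℕ} {v ℓ : List Bool} {i : ℕ}
    (hv : v <:+ ℓ) (hl : ℓ.length = v.length + m) (hi : i < p) :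
    (ℓ, i) ∈ ltags (rtpl p Q χ m v) := by
  induction m generalizing v with
  | zero =>
    have : v = ℓ := hv.eq_of_length (by omega)
    subst this
    rw [ltags_rtpl_zero, List.mem_map]
    exact ⟨i, List.mem_range.2 hi, rfl⟩
  | succ m ih =>
    rw [ltags_rtpl_succ, List.mem_append]
    rcases child_of_suffix' hv (by omega) with h | h
    · exact Or.inl (ih h (by simp only [List.length_cons]; omega))
    · exact Or.inr (ih h (by simp only [List.length_cons]; omega))

theorem exists_tag {p Q : ℕ} {χ : ℕ → Bool} {H pad : ℕ} {ℓ : List Bool} {i : ℕ}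
    (hl : ℓ.length = H) (hi : i < p) :
    ∃ (j : ℕ) (hj : j < (fullR p Q χ H pad).length),
      ((fullR p Q χ H pad)[j]'hj).2 = some (.inl (ℓ, i)) := by
  have h1 : (ℓ, i) ∈ ltags (fullR p Q χ H pad) := by
    rw [fullR, ltags_append, ltags_cons_none (by rfl), ltags_append]
    simp only [List.mem_append]
    exact Or.inr (Or.inl (mem_ltags (List.nil_suffix) (by simpa using hl) hi))
  rw [ltags, List.mem_filterMap] at h1
  obtain ⟨t, ht, h2⟩ := h1
  obtain ⟨j, hj, rfl⟩ := List.getElem_of_mem ht
  exact ⟨j, hj, leafTag_eq_some.1 h2⟩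

theorem word_map {n : ℕ} (T : List (Lt × Tag)) (hT : T.length = n) (b : List Bool → ℕ)
    (σ : List Bool → Bool) :
    word (fun i : Fin n => (T[i.1]'(by rw [hT]; exact i.2)).1)
      (fun i : Fin n => tagBit b σ (T[i.1]'(by rw [hT]; exact i.2)).2) = T.map (evT b σ) := by
  subst hT
  apply List.ext_getElem
  · simp [word]
  · intro i h1 h2
    simp [word, evT]

theorem exists_word (H p : ℕ) [Fact p.Prime] (χ : ZMod p → Bool) (n : ℕ)
    (hn : 2 ^ (2 * H + 4) * p ≤ n) :
    ∃ (g : Fin n → Lt) (pos : Leaf H → ZMod p → Fin n)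
      (x : (Leaf H → ZMod p) → (List Bool → Bool) → Fin n → Bool),
      (∀ ℓ ℓ' α β, pos ℓ α = pos ℓ' β → ℓ = ℓ') ∧
      (∀ a b σ i, x a σ i ≠ x b σ i → ∃ ℓ, a ℓ ≠ b ℓ ∧ (i = pos ℓ (a ℓ) ∨ i = pos ℓ (b ℓ))) ∧
      ∀ a σ, word g (x a σ) ∈ rkM.language ↔
        ∀ v : List Bool, v.length < H → σ v = χ (sm a v) := by
  have hp : 2 ≤ p := (Fact.out : p.Prime).two_le
  have : NeZero p := ⟨by omega⟩
  set Q := 2 ^ H * p with hQ
  set χ' : ℕ → Bool := fun i => χ (i : ZMod p) with hχ'
  -- the length
  have hlen : 1 + (rtpl p Q χ' H []).length + Q ≤ n := by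
    have h1 := length_rtpl p Q χ' H []
    have h2 : 1 ≤ 2 ^ H := Nat.one_le_two_pow
    have h3 : 2 ^ (2 * H + 4) * p = 16 * (2 ^ H * (2 ^ H * p)) := by
      rw [pow_add, two_mul, pow_add]; ring
    rw [h3] at hn
    have h4 : 2 ^ H * (p + 1 + (2 * Q + 5)) = 2 ^ H * p + 6 * 2 ^ H + 2 * (2 ^ H * Q) := by ring
    rw [h4] at h1
    rw [← hQ] at hn h1
    have h5 : Q ≤ 2 ^ H * Q := Nat.le_mul_of_pos_left _ (by omega)
    have h6 : 2 * 2 ^ H ≤ Q := by
      rw [hQ, mul_comm]; exact Nat.mul_le_mul_left _ hp
    omega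
  set pad := n - (1 + (rtpl p Q χ' H []).length + Q) with hpad
  set T := fullR p Q χ' H pad with hTdef
  have hT : T.length = n := by
    rw [hTdef, length_fullR]
    omega
  have hn0 : 0 < n := by omega
  have hnd : (ltags T).Nodup := nodup_ltags_full _ _ _ _ _
  classical
  let g : Fin n → Lt := fun i => (T[i.1]'(by rw [hT]; exact i.2)).1
  let pos : Leaf H → ZMod p → Fin n := fun ℓ c =>
    if h : ∃ i : Fin n, (T[i.1]'(by rw [hT]; exact i.2)).2 = some (.inl (ℓ.1, c.val)) then h.choose
    else ⟨0, hn0⟩
  let x : (Leaf H → ZMod p) → (List Bool → Bool) → Fin n → Bool := fun a σ i =>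
    tagBit (bv a) σ (T[i.1]'(by rw [hT]; exact i.2)).2
  have hpos : ∀ (ℓ : Leaf H) (c : ZMod p) (i : Fin n),
      (T[i.1]'(by rw [hT]; exact i.2)).2 = some (.inl (ℓ.1, c.val)) → i = pos ℓ c := by
    intro ℓ c i hi
    have hex : ∃ i : Fin n, (T[i.1]'(by rw [hT]; exact i.2)).2 = some (.inl (ℓ.1, c.val)) :=
      ⟨i, hi⟩
    have h1 : pos ℓ c = hex.choose := dif_pos hex
    rw [h1]
    exact Fin.ext (index_unique hnd _ _ hi hex.choose_spec)
  have htag : ∀ (ℓ : Leaf H) (c : ZMod p),
      (T[(pos ℓ c).1]'(by rw [hT]; exact (pos ℓ c).2)).2 = some (.inl (ℓ.1, c.val)) := by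
    intro ℓ c
    obtain ⟨j, hj, hjt⟩ := exists_tag (p := p) (Q := Q) (χ := χ') (H := H) (pad := pad)
      (ℓ := ℓ.1) (i := c.val) ℓ.2 (ZMod.val_lt c)
    have hj' : j < n := by rw [← hT]; exact hj
    have h1 := hpos ℓ c ⟨j, hj'⟩ hjt
    rw [← h1]
    exact hjt
  refine ⟨g, pos, x, ?_, ?_, ?_⟩
  · intro ℓ ℓ' α β h
    have h1 := htag ℓ α
    have h2 := htag ℓ' β
    simp only [h] at h1
    rw [h1] at h2
    simp only [Option.some.injEq, Sum.inl.injEq, Prod.mk.injEq] at h2
    exact Subtype.ext h2.1
  · intro a b σ i hne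
    have hne' : tagBit (bv a) σ (T[i.1]'(by rw [hT]; exact i.2)).2 ≠
      tagBit (bv b) σ (T[i.1]'(by rw [hT]; exact i.2)).2 := hne
    cases htag : (T[i.1]'(by rw [hT]; exact i.2)).2 with
    | none =>
      rw [htag] at hne'
      exact absurd rfl hne'
    | some t =>
      rw [htag] at hne'
      rcases t with ⟨v, k⟩ | ⟨v, c⟩
      · simp only [tagBit] at hne'
        by_cases hv : v.length = H
        · have ha : bv a v = (a ⟨v, hv⟩).val := dif_pos hv
          have hb : bv b v = (b ⟨v, hv⟩).val := dif_pos hv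
          rw [ha, hb] at hne'
          refine ⟨⟨v, hv⟩, ?_, ?_⟩
          · intro he
            rw [he] at hne'
            exact hne' rfl
          · by_cases h1 : (a ⟨v, hv⟩).val = k
            · left
              apply hpos
              rw [htag, h1]
            · right
              apply hpos
              have h2 : (b ⟨v, hv⟩).val = k := by
                by_contra h3
                apply hne'
                rw [decide_eq_false h1, decide_eq_false h3]
              rw [htag, h2]
        · have ha : bv a v = 0 := dif_neg hv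
          have hb : bv b v = 0 := dif_neg hv
          rw [ha, hb] at hne'
          exact absurd rfl hne'
      · simp only [tagBit] at hne'
        exact absurd rfl hne'
  · intro a σ
    have hw : word g (x a σ) = T.map (evT (bv a) σ) := word_map T hT (bv a) σ
    rw [hw, hTdef, fullR_mem p Q χ' (bv a) σ H pad (fun ℓ => bv_lt a ℓ) (le_of_eq hQ.symm), okn_iff]
    simp only [List.length_nil, Nat.zero_add]
    constructor
    · intro h v hv
      rw [h v (List.nil_suffix) hv, hχ']
      simp only
      rw [ns_cast a (H - v.length) v (by omega)]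
    · intro h v _ hv
      rw [h v hv, hχ']
      simp only
      rw [ns_cast a (H - v.length) v (by omega)]

end Pool.Agent.MP_6216ea_lc
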