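import Mathlib
import Pool.Agent.Lib.MP_6216ea_lc.RKMain
import Pool.Agent.Lib.MP_6216ea_lc.RKPos
import Pool.Agent.Lib.MP_6216ea_lc.RKChar
import Pool.Agent.Lib.MP_6216ea_lc.RKNum

set_option autoImplicit false

namespace Pool.Agent.MP_6216ea_lc

theorem rk_final (k : ℕ) : ∃ c : ℝ, 0 < c ∧ ∃ n₀ : ℕ, ∀ n ≥ n₀, ∃ g : Fin n → Lt,
    ∀ P : NBP (Fin n), P.ReadAtMost k → (∀ x, P.Accepts x ↔ word g x ∈ rkM.language) →
      (n : ℝ) ^ (c * Real.log n) ≤ Fintype.card P.V := by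
  obtain ⟨c, hc, n₀, hn₀⟩ := rk_numbers k
  refine ⟨c, hc, n₀, ?_⟩
  intro n hn
  obtain ⟨H, m, hH, hH1, hlow, hbound⟩ := hn₀ n hn
  obtain ⟨p, hp, hp1, hp2⟩ := Nat.exists_prime_lt_and_le_two_mul (2 ^ (6 * H)) (by positivity)
  have : Fact p.Prime := ⟨hp⟩
  have hp3 : 2 < p := by
    have : 2 ^ 1 ≤ 2 ^ (6 * H) := Nat.pow_le_pow_right (by norm_num) (by omega)
    omega
  obtain ⟨χ, hχ⟩ := exists_char p hp3
  have hlen : 2 ^ (2 * H + 4) * p ≤ n := by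
    calc 2 ^ (2 * H + 4) * p ≤ 2 ^ (2 * H + 4) * (2 * 2 ^ (6 * H)) := Nat.mul_le_mul_left _ hp2
      _ = 2 ^ (8 * H + 5) := by
          rw [show 8 * H + 5 = (2 * H + 4) + (1 + 6 * H) by ring, pow_add 2 (2 * H + 4),
            pow_add 2 1, pow_one]
      _ ≤ n := hlow
  obtain ⟨g, pos, x, hpos, hx, hmem⟩ := exists_word H p χ n hlen
  refine ⟨g, ?_⟩
  intro P hk hP
  have h := rk_lower P hk χ hχ pos hpos x hx (fun a σ => (hP _).trans (hmem a σ)) hH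
  rw [Fintype.card_fin] at h
  exact hbound _ p hp1 h

end Pool.Agent.MP_6216ea_lc
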