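import Pool.Agent.Lib.MP_6216ea_lc.SQThmU
import Pool.Agent.Lib.MP_6216ea_lc.DCHead

/-! Polynomial size and time: two-way multi-head deterministic pushdown automata. -/

set_option autoImplicit false

namespace Pool.Agent.MP_6216ea_lc

namespace SQ

theorem pow_sqrt_bound {n E T : ℕ} (hn : 2 ≤ n) (hT : 2 ≤ T) (hTE : T ≤ n ^ E) :
    ((n ^ E : ℕ) : ℝ) ^ (45420 * Real.sqrt (Real.log T)) ≤
      (n : ℝ) ^ (45420 * E * Real.sqrt E * Real.sqrt (Real.log n)) := by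
  have hn' : (2 : ℝ) ≤ n := by exact_mod_cast hn
  have hn0 : (0 : ℝ) < n := by linarith
  have hT0 : (0 : ℝ) < T := by exact_mod_cast (show 0 < T by omega)
  rw [Nat.cast_pow, ← Real.rpow_natCast (n : ℝ) E, ← Real.rpow_mul hn0.le]
  apply Real.rpow_le_rpow_of_exponent_le (by linarith)
  have h1 : Real.log T ≤ E * Real.log n := by
    rw [← Real.log_pow]
    apply Real.log_le_log hT0
    exact_mod_cast hTE
  have h2 : Real.sqrt (Real.log T) ≤ Real.sqrt E * Real.sqrt (Real.log n) := by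
    rw [← Real.sqrt_mul (Nat.cast_nonneg E)]
    exact Real.sqrt_le_sqrt h1
  have h3 : (0 : ℝ) ≤ E := Nat.cast_nonneg E
  nlinarith [mul_le_mul_of_nonneg_left h2 h3]

/-- Two-way multi-head deterministic pushdown automata in polynomial time. -/
theorem head_sqrtU {α : Type} (M : HeadPDA α) (c : ℕ) : ∃ (C : ℝ) (c' : ℕ), ∀ n : ℕ, 2 ≤ n →
    ∀ y : Bool, ∃ B : LetterNBP (Fin n) α,
      (Fintype.card B.V : ℝ) ≤ (n : ℝ) ^ (C * Real.sqrt (Real.log n)) ∧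
        B.Unambiguous ∧ B.QueriesAtMost (n ^ c') ∧
        ∀ x, B.Accepts x ↔ (M.AcceptsIn x (n ^ c) ↔ y = true) := by
  obtain ⟨c', h⟩ := head_prog M
  obtain ⟨E, hE⟩ : ∃ E, E = c' + 2 * M.k + c + 2 := ⟨_, rfl⟩
  refine ⟨45420 * E * Real.sqrt E, E * 70, fun n hn y => ?_⟩
  obtain ⟨P, hP, hacc⟩ := h n
  have h1 : c' * (n + 1) ^ M.k ≤ n ^ E := by
    have h2 : n + 1 ≤ n ^ 2 := by nlinarith
    have h3 : c' ≤ n ^ c' := (Nat.lt_pow_self (by omega)).le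
    calc c' * (n + 1) ^ M.k ≤ n ^ c' * (n ^ 2) ^ M.k := by gcongr
      _ = n ^ (c' + 2 * M.k) := by rw [← pow_mul, ← pow_add]
      _ ≤ _ := Nat.pow_le_pow_right (by omega) (by omega)
  have h2 : 2 * n ^ c + 1 ≤ n ^ E := by
    have h3 : 1 ≤ n ^ c := Nat.one_le_pow _ _ (by omega)
    have h4 : 3 ≤ n ^ 2 := by nlinarith
    calc 2 * n ^ c + 1 ≤ n ^ c * 3 := by omega
      _ ≤ n ^ c * n ^ 2 := Nat.mul_le_mul_left _ h4
      _ = n ^ (c + 2) := (pow_add _ _ _).symm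
      _ ≤ _ := Nat.pow_le_pow_right (by omega) (by omega)
  have h3 : 1 ≤ n ^ c := Nat.one_le_pow _ _ (by omega)
  obtain ⟨B, hB, hU, hQ, hB'⟩ := push_sqrtU P (2 * n ^ c + 1) (n ^ E) (by omega) h2
    (hP.trans h1) y
  refine ⟨B, hB.trans (pow_sqrt_bound hn (by omega) h2), hU, fun x T v hv => ?_, fun x => ?_⟩
  · refine (hQ x T v hv).trans ?_
    rw [pow_mul]
    exact Nat.pow_le_pow_left h2 70
  · rw [hB' x, hacc x (n ^ c)]

end SQ

end Pool.Agent.MP_6216ea_lc
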