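import Mathlib

/-! The size of the programs with few registers. -/

set_option autoImplicit false

namespace Pool.Agent.MP_6216ea_lc

namespace Reg

/-- The exponent in natural numbers. -/
theorem num_rd (l b g t D e p : ℕ) (hl : 2 ≤ l) (he : e = Nat.log 2 l) (hb : b = e / 8 + 1)
    (hg : g = t / b + 1) (hD : D = 8 * l / (e + 1) + 1)
    (hp : p ≤ 2 * (7 * D * 2 ^ (e + 1) + 2)) :
    (((14 * p + 1) ^ (3 * 6 ^ b) * 2 ^ (8 * l)) ^ g + 1) * p ^ (D * 8) ≤
      2 ^ (((2 * e + 13) * (3 * 6 ^ b) + 8 * l) * g + 1 + (2 * e + 9) * (D * 8)) ∧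
    (((2 * e + 13) * (3 * 6 ^ b) + 8 * l) * g + 1 + (2 * e + 9) * (D * 8)) * (e + 1) ≤
      4000 * l * ((e + 1) + t) := by
  have h2e : 2 ^ e ≤ l := by rw [he]; exact Nat.pow_log_le_self 2 (by omega)
  have hle : l < 2 ^ (e + 1) := by rw [he]; exact Nat.lt_pow_succ_log_self (by norm_num) _
  have hel : e + 1 ≤ l := (Nat.lt_two_pow_self (n := e)).trans_le h2e
  have h8 : e + 1 ≤ 8 * b := by omega
  have hgs : g * (e + 1) ≤ 8 * t + (e + 1) := by
    have h1 : b * (t / b) ≤ t := Nat.mul_div_le t b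
    calc g * (e + 1) = (t / b) * (e + 1) + (e + 1) := by rw [hg]; ring
      _ ≤ (t / b) * (8 * b) + (e + 1) := Nat.add_le_add_right (Nat.mul_le_mul_left _ h8) _
      _ = 8 * (b * (t / b)) + (e + 1) := by ring
      _ ≤ 8 * t + (e + 1) := by omega
  have hDs : D * (e + 1) ≤ 9 * l := by
    have h1 : (e + 1) * (8 * l / (e + 1)) ≤ 8 * l := Nat.mul_div_le (8 * l) (e + 1)
    calc D * (e + 1) = (e + 1) * (8 * l / (e + 1)) + (e + 1) := by rw [hD]; ring
      _ ≤ 8 * l + l := Nat.add_le_add h1 hel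
      _ = 9 * l := by ring
  have hDl : D ≤ 9 * l := le_trans (Nat.le_mul_of_pos_right _ (by omega)) hDs
  obtain ⟨q, hq⟩ : ∃ q, q = e / 8 := ⟨_, rfl⟩
  have hq1 : 256 ^ q ≤ l := by
    calc 256 ^ q = 2 ^ (8 * q) := by rw [pow_mul]; norm_num
      _ ≤ 2 ^ e := Nat.pow_le_pow_right (by norm_num) (by omega)
      _ ≤ l := h2e
  have hMq : 6 ^ b = 6 * 6 ^ q := by rw [hb, ← hq, pow_succ]; ring
  have hq2 : q + 1 ≤ 2 ^ q := Nat.lt_two_pow_self
  have hA : (2 * e + 13) * (3 * 6 ^ b) ≤ 486 * l := by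
    calc (2 * e + 13) * (3 * 6 ^ b) ≤ (27 * 2 ^ q) * (3 * 6 ^ b) :=
          Nat.mul_le_mul_right _ (by omega)
      _ = 486 * (2 * 6) ^ q := by rw [hMq, mul_pow]; ring
      _ ≤ 486 * 256 ^ q := Nat.mul_le_mul_left _ (Nat.pow_le_pow_left (by norm_num) _)
      _ ≤ 486 * l := Nat.mul_le_mul_left _ hq1
  -- p <= 2 ^ (2 e + 9)
  have hp2 : p ≤ 2 ^ (2 * e + 9) := by
    have h1 : l ≤ 2 * 2 ^ e := by rw [pow_succ] at hle; omega
    have h2 : 7 * D * 2 ^ (e + 1) ≤ 7 * (9 * (2 * 2 ^ e)) * 2 ^ (e + 1) :=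
      Nat.mul_le_mul_right _ (Nat.mul_le_mul_left _ (hDl.trans (Nat.mul_le_mul_left _ h1)))
    have h3 : 2 ^ (2 * e + 9) = 512 * (2 ^ e * 2 ^ e) := by
      rw [pow_add, two_mul, pow_add]; ring
    have h4 : 1 ≤ 2 ^ e * 2 ^ e := Nat.mul_pos (Nat.two_pow_pos e) (Nat.two_pow_pos e)
    have h5 : 7 * (9 * (2 * 2 ^ e)) * 2 ^ (e + 1) = 252 * (2 ^ e * 2 ^ e) := by
      rw [pow_succ]; ring
    rw [h3]
    rw [h5] at h2
    omega
  have hR : 14 * p + 1 ≤ 2 ^ (2 * e + 13) := by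
    have h3 : 2 ^ (2 * e + 13) = 16 * 2 ^ (2 * e + 9) := by
      rw [show 2 * e + 13 = (2 * e + 9) + 4 by ring, pow_add]; ring
    have h4 : 1 ≤ 2 ^ (2 * e + 9) := Nat.one_le_two_pow
    omega
  constructor
  · have h1 : ((14 * p + 1) ^ (3 * 6 ^ b) * 2 ^ (8 * l)) ^ g ≤
        2 ^ (((2 * e + 13) * (3 * 6 ^ b) + 8 * l) * g) := by
      rw [pow_mul 2 ((2 * e + 13) * (3 * 6 ^ b) + 8 * l) g]
      apply Nat.pow_le_pow_left
      rw [pow_add 2 ((2 * e + 13) * (3 * 6 ^ b)) (8 * l), pow_mul 2 (2 * e + 13) (3 * 6 ^ b)]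
      exact Nat.mul_le_mul_right _ (Nat.pow_le_pow_left hR _)
    have h2 : p ^ (D * 8) ≤ 2 ^ ((2 * e + 9) * (D * 8)) := by
      rw [pow_mul 2]
      exact Nat.pow_le_pow_left hp2 _
    have h3 : ((14 * p + 1) ^ (3 * 6 ^ b) * 2 ^ (8 * l)) ^ g + 1 ≤
        2 ^ (((2 * e + 13) * (3 * 6 ^ b) + 8 * l) * g + 1) := by
      rw [pow_succ 2 (((2 * e + 13) * (3 * 6 ^ b) + 8 * l) * g)]
      have := Nat.one_le_two_pow (n := ((2 * e + 13) * (3 * 6 ^ b) + 8 * l) * g)
      omega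
    rw [pow_add 2 (((2 * e + 13) * (3 * 6 ^ b) + 8 * l) * g + 1)]
    exact Nat.mul_le_mul h3 h2
  · have hs1 : ((2 * e + 13) * (3 * 6 ^ b) + 8 * l) * g * (e + 1) ≤
        494 * l * (8 * t + (e + 1)) := by
      calc ((2 * e + 13) * (3 * 6 ^ b) + 8 * l) * g * (e + 1)
          = ((2 * e + 13) * (3 * 6 ^ b) + 8 * l) * (g * (e + 1)) := by ring
        _ ≤ (486 * l + 8 * l) * (8 * t + (e + 1)) :=
            Nat.mul_le_mul (Nat.add_le_add_right hA _) hgs
        _ = 494 * l * (8 * t + (e + 1)) := by ring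
    have hs2 : (2 * e + 9) * (D * 8) * (e + 1) ≤ 648 * l * (e + 1) := by
      calc (2 * e + 9) * (D * 8) * (e + 1)
          = 8 * (2 * e + 9) * (D * (e + 1)) := by ring
        _ ≤ 8 * (9 * (e + 1)) * (9 * l) :=
            Nat.mul_le_mul (Nat.mul_le_mul_left _ (by omega)) hDs
        _ = 648 * l * (e + 1) := by ring
    have h3 : e + 1 ≤ l * (e + 1) := Nat.le_mul_of_pos_left _ (by omega)
    calc (((2 * e + 13) * (3 * 6 ^ b) + 8 * l) * g + 1 + (2 * e + 9) * (D * 8)) * (e + 1)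
        = ((2 * e + 13) * (3 * 6 ^ b) + 8 * l) * g * (e + 1) + (e + 1) +
          (2 * e + 9) * (D * 8) * (e + 1) := by ring
      _ ≤ 494 * l * (8 * t + (e + 1)) + l * (e + 1) + 648 * l * (e + 1) :=
          Nat.add_le_add (Nat.add_le_add hs1 h3) hs2
      _ = 3952 * (l * t) + 1143 * (l * (e + 1)) := by ring
      _ ≤ 4000 * (l * t) + 4000 * (l * (e + 1)) := by
          have h4 : 0 ≤ l * t := Nat.zero_le _
          have h5 : 0 ≤ l * (e + 1) := Nat.zero_le _
          omega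
      _ = 4000 * l * ((e + 1) + t) := by ring

theorem clog_log (T : ℕ) : ((Nat.clog 2 T : ℕ) : ℝ) * Real.log 2 ≤ 2 * Real.log T := by
  have hlog2 : 0 < Real.log 2 := Real.log_pos (by norm_num)
  rcases Nat.lt_or_ge T 2 with hT | hT
  · have h0 : Nat.clog 2 T = 0 := Nat.clog_of_right_le_one (by omega) 2
    rw [h0]
    have : 0 ≤ Real.log T := Real.log_natCast_nonneg T
    simp only [Nat.cast_zero, zero_mul]
    linarith
  · have h1 : 2 ^ (Nat.clog 2 T - 1) < T := Nat.pow_pred_clog_lt_self (by norm_num) (by omega)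
    have h2 : 1 ≤ Nat.clog 2 T := Nat.clog_pos (by norm_num) hT
    have h3 : ((2 : ℝ) ^ (Nat.clog 2 T - 1)) ≤ T := by exact_mod_cast h1.le
    have h4 := Real.log_le_log (by positivity) h3
    rw [Real.log_pow, Nat.cast_sub h2, Nat.cast_one] at h4
    have h5 : Real.log 2 ≤ Real.log T := Real.log_le_log (by norm_num) (by exact_mod_cast hT)
    linarith

/-- From the exponent to the real bound. -/
theorem real_bound_T (c L T l E e t X : ℕ) (hL : 3 ≤ L) (hl : l = Nat.clog 2 L)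
    (he : e = Nat.log 2 l) (ht : t = Nat.clog 2 T) (h1 : X ≤ 2 ^ E)
    (h2 : E * (e + 1) ≤ c * l * ((e + 1) + t)) :
    (X : ℝ) ≤ (L : ℝ) ^ ((4 * c : ℝ) * (1 + Real.log T / Real.log (Real.log L))) := by
  have hLr : (3 : ℝ) ≤ L := by exact_mod_cast hL
  have hlog2 : 0 < Real.log 2 := Real.log_pos (by norm_num)
  have hlog21 : Real.log 2 < 1 := by
    have := Real.log_two_lt_d9
    linarith
  have hlogL1 : 1 < Real.log L := by
    have h3 : Real.exp 1 < 3 := by
      have := Real.exp_one_lt_d9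
      linarith
    rw [Real.lt_log_iff_exp_lt (by linarith)]
    linarith
  have hlogL0 : 0 < Real.log L := by linarith
  have hll : 0 < Real.log (Real.log L) := Real.log_pos hlogL1
  have hlL : (l : ℝ) * Real.log 2 ≤ 2 * Real.log L := by rw [hl]; exact clog_log L
  have htT : (t : ℝ) * Real.log 2 ≤ 2 * Real.log T := by rw [ht]; exact clog_log T
  have hT0 : 0 ≤ Real.log T := Real.log_natCast_nonneg T
  have hLl : Real.log L ≤ l := by
    have h3 : L ≤ 2 ^ l := by
      rw [hl]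
      exact Nat.le_pow_clog (by norm_num) L
    have h5 : (L : ℝ) ≤ (2 : ℝ) ^ l := by exact_mod_cast h3
    have h6 := Real.log_le_log (by linarith) h5
    rw [Real.log_pow] at h6
    have h8 : (0 : ℝ) ≤ l := Nat.cast_nonneg l
    nlinarith
  have hs : Real.log (Real.log L) ≤ ((e : ℝ) + 1) * Real.log 2 := by
    have h3 : Real.log (Real.log L) ≤ Real.log l := Real.log_le_log hlogL0 hLl
    have h4 : l < 2 ^ (e + 1) := by rw [he]; exact Nat.lt_pow_succ_log_self (by norm_num) _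
    have h5 : (l : ℝ) ≤ (2 : ℝ) ^ (e + 1) := by exact_mod_cast h4.le
    have h6 : (0 : ℝ) < l := lt_of_lt_of_le hlogL0 hLl
    have h7 := Real.log_le_log h6 h5
    rw [Real.log_pow] at h7
    push_cast at h7
    linarith
  have hE2 : (E : ℝ) * ((e : ℝ) + 1) ≤ c * l * (((e : ℝ) + 1) + t) := by exact_mod_cast h2
  have hc0 : (0 : ℝ) ≤ c := Nat.cast_nonneg c
  have he0 : (0 : ℝ) < (e : ℝ) + 1 := by positivity
  have ht0 : (0 : ℝ) ≤ t := Nat.cast_nonneg t
  have hE0 : (0 : ℝ) ≤ E := Nat.cast_nonneg E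
  have hEl : (E : ℝ) * Real.log 2 * Real.log (Real.log L) ≤
      4 * c * Real.log L * (Real.log (Real.log L) + Real.log T) := by
    refine le_of_mul_le_mul_right ?_ he0
    calc (E : ℝ) * Real.log 2 * Real.log (Real.log L) * ((e : ℝ) + 1)
        = ((E : ℝ) * ((e : ℝ) + 1)) * (Real.log 2 * Real.log (Real.log L)) := by ring
      _ ≤ (c * l * (((e : ℝ) + 1) + t)) * (Real.log 2 * Real.log (Real.log L)) :=
          mul_le_mul_of_nonneg_right hE2 (by positivity)
      _ = c * (l * Real.log 2) * (((e : ℝ) + 1) * Real.log (Real.log L) +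
          t * Real.log (Real.log L)) := by ring
      _ ≤ c * (2 * Real.log L) * (((e : ℝ) + 1) * Real.log (Real.log L) +
          ((e : ℝ) + 1) * (2 * Real.log T)) := by
          refine mul_le_mul (mul_le_mul_of_nonneg_left hlL hc0) ?_ (by positivity) (by positivity)
          refine add_le_add le_rfl ?_
          calc (t : ℝ) * Real.log (Real.log L) ≤ t * (((e : ℝ) + 1) * Real.log 2) :=
                mul_le_mul_of_nonneg_left hs ht0
            _ = ((e : ℝ) + 1) * (t * Real.log 2) := by ring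
            _ ≤ ((e : ℝ) + 1) * (2 * Real.log T) := mul_le_mul_of_nonneg_left htT he0.le
      _ = 2 * c * Real.log L * (Real.log (Real.log L) + 2 * Real.log T) * ((e : ℝ) + 1) := by
          ring
      _ ≤ 4 * c * Real.log L * (Real.log (Real.log L) + Real.log T) * ((e : ℝ) + 1) := by
          refine mul_le_mul_of_nonneg_right ?_ he0.le
          have h9 : 0 ≤ c * Real.log L * Real.log (Real.log L) := by positivity
          nlinarith
  have h9 : (X : ℝ) ≤ (2 : ℝ) ^ E := by exact_mod_cast h1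
  refine h9.trans ?_
  rw [Real.rpow_def_of_pos (by linarith : (0 : ℝ) < L), ← Real.rpow_natCast,
    Real.rpow_def_of_pos (by norm_num : (0 : ℝ) < 2)]
  apply Real.exp_le_exp.2
  have h10 : Real.log L * (4 * c * (1 + Real.log T / Real.log (Real.log L))) =
      (4 * c * Real.log L * (Real.log (Real.log L) + Real.log T)) / Real.log (Real.log L) := by
    field_simp
  rw [h10, le_div_iff₀ hll]
  calc Real.log 2 * (E : ℝ) * Real.log (Real.log L)
      = (E : ℝ) * Real.log 2 * Real.log (Real.log L) := by ring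
    _ ≤ _ := hEl

end Reg

end Pool.Agent.MP_6216ea_lc
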