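import Pool.Agent.Lib.MP_6216ea_lc.RDThm
import Pool.Agent.Lib.MP_6216ea_lc.RDNum

/-! Pushdown programs which run for `T` steps have deterministic branching programs of size
`L ^ (C (1 + log T / log log L))`. -/

set_option autoImplicit false

namespace Pool.Agent.MP_6216ea_lc

/-- Every pushdown program with at most `L` nodes, run for `T ≤ L` steps, has a deterministic
branching program of size `L ^ (C (1 + log T / log log L))`. -/
theorem push_main_rd : ∃ C : ℝ, 0 < C ∧ ∀ (ι α : Type) (P : PushProg ι α) (T L : ℕ), 3 ≤ L →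
    Fintype.card P.S ≤ L → T ≤ L → ∃ B : LetterDBP ι α,
      (Fintype.card B.V : ℝ) ≤
        (L : ℝ) ^ (C * (1 + Real.log T / Real.log (Real.log L))) ∧
        B.Decides fun x => P.AcceptsIn x T := by
  refine ⟨4 * (4000 : ℕ), by norm_num, fun ι α P T L hL hS hT => ?_⟩
  obtain ⟨l, hl⟩ : ∃ l, l = Nat.clog 2 L := ⟨_, rfl⟩
  obtain ⟨t, ht⟩ : ∃ t, t = Nat.clog 2 T := ⟨_, rfl⟩
  obtain ⟨e, he⟩ : ∃ e, e = Nat.log 2 l := ⟨_, rfl⟩
  obtain ⟨b, hb⟩ : ∃ b, b = e / 8 + 1 := ⟨_, rfl⟩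
  obtain ⟨g, hg⟩ : ∃ g, g = t / b + 1 := ⟨_, rfl⟩
  obtain ⟨D, hD⟩ : ∃ D, D = 8 * l / (e + 1) + 1 := ⟨_, rfl⟩
  have hLl : L ≤ 2 ^ l := by rw [hl]; exact Nat.le_pow_clog (by norm_num) L
  have hTt : T ≤ 2 ^ t := by rw [ht]; exact Nat.le_pow_clog (by norm_num) T
  have htl : t ≤ l := by rw [ht, hl]; exact Nat.clog_mono_right 2 hT
  have hl2 : 2 ≤ l := by
    rw [hl]
    by_contra h
    have h1 : Nat.clog 2 L ≤ 1 := by omega
    have h2 : L ≤ 2 ^ 1 := (Nat.le_pow_clog (by norm_num) L).trans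
      (Nat.pow_le_pow_right (by norm_num) h1)
    omega
  have hlog : e < l := by rw [he]; exact Nat.log_lt_self 2 (by omega)
  have hb1 : 0 < b := by omega
  have hbl : 8 * (b - 1) ≤ l := by omega
  have hbg : t ≤ b * g := by
    rw [hg, mul_add, mul_one]
    have := Nat.div_add_mod t b
    have h2 := Nat.mod_lt t hb1
    omega
  have hbg2 : b * g ≤ l + b := by
    rw [hg, mul_add, mul_one]
    have := Nat.mul_div_le t b
    omega
  have hpow : 2 ^ (b * g) + 1 ≤ 2 ^ (l + b + 1) := by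
    have h1 : 2 ^ (b * g) ≤ 2 ^ (l + b) := Nat.pow_le_pow_right (by norm_num) hbg2
    have h2 : 1 ≤ 2 ^ (l + b) := Nat.one_le_pow _ _ (by norm_num)
    rw [pow_succ]
    omega
  have hN : 2 * (Fintype.card P.S * (2 ^ (b * g) + 1)) ^ 2 ≤ 2 ^ (8 * l) := by
    calc 2 * (Fintype.card P.S * (2 ^ (b * g) + 1)) ^ 2
        ≤ 2 * (2 ^ l * 2 ^ (l + b + 1)) ^ 2 := by
          gcongr
          exact hS.trans hLl
      _ = 2 ^ (1 + 2 * (l + (l + b + 1))) := by
          rw [← pow_add, ← pow_mul, pow_add 2 1, pow_one]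
          congr 2
          ring
      _ ≤ 2 ^ (8 * l) := Nat.pow_le_pow_right (by norm_num) (by omega)
  have hDe : 8 * l ≤ (e + 1) * D := by
    rw [hD, mul_add, mul_one]
    have := Nat.div_add_mod (8 * l) (e + 1)
    have h2 := Nat.mod_lt (8 * l) (Nat.succ_pos e)
    have h3 : e.succ = e + 1 := rfl
    rw [h3] at h2
    omega
  have hDh : 2 * (Fintype.card P.S * (2 ^ (b * g) + 1)) ^ 2 ≤ (2 ^ (e + 1)) ^ D := by
    rw [← pow_mul]
    exact hN.trans (Nat.pow_le_pow_right (by norm_num) hDe)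
  have hTb : T ≤ 2 ^ (b * g) := hTt.trans (Nat.pow_le_pow_right (by norm_num) hbg)
  obtain ⟨p, hp, hp1, hp2⟩ :=
    Nat.exists_prime_lt_and_le_two_mul (7 * D * 2 ^ (e + 1) + 2) (by omega)
  have h1D : 1 ≤ D := by rw [hD]; exact Nat.le_add_left 1 _
  have hh : 2 ^ (e + 1) ≤ p := by
    have h1 : 2 ^ (e + 1) ≤ 7 * D * 2 ^ (e + 1) := Nat.le_mul_of_pos_left _ (by omega)
    exact h1.trans ((Nat.le_add_right _ 2).trans hp1.le)
  have hpc : 7 * D * (2 ^ (e + 1) - 1) < p - 1 := by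
    have h1 : 7 * D * (2 ^ (e + 1) - 1) ≤ 7 * D * 2 ^ (e + 1) :=
      Nat.mul_le_mul_left _ (Nat.sub_le _ _)
    generalize 7 * D * (2 ^ (e + 1) - 1) = a at h1
    generalize 7 * D * 2 ^ (e + 1) = c at h1 hp1
    omega
  obtain ⟨B, hB, hacc⟩ := Reg.push_explicit_rd P b g (2 ^ (e + 1)) D T p (2 ^ (8 * l)) hp hpc hh
    hTb hDh hN
  refine ⟨B, ?_, hacc⟩
  obtain ⟨h1, h2⟩ := Reg.num_rd l b g t D e p hl2 he hb hg hD hp2
  exact Reg.real_bound_T 4000 L T l _ e t _ hL hl he ht (hB.trans h1) h2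

end Pool.Agent.MP_6216ea_lc
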