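import Mathlib
import Pool.Agent.Lib.MP_6216ea_lc.DLMain
import Pool.Agent.Lib.MP_6216ea_lc.RDMain

/-!
# Deterministic context-free languages in space `log² n / log log n`

(a) Every language which is log-space reducible to a deterministic context-free language is decided
by one deterministic program in space `O(log² n / log log n)`. (b) Nonuniformly, every pushdown
program is simulated with a tradeoff between its time `T` and the size
`L ^ O(1 + log T / log log L)`.

In (a) the program is a fixed while program over finitely many natural number variables; if all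
values are smaller than `B`, a Turing machine runs it on `O(log B)` work tape cells, and conversely
a Turing machine with `s ≥ log n` cells is such a program with values below `2 ^ O(s)`.
-/

set_option autoImplicit false

namespace Pool.Agent.MP_6216ea_lc.KeptLogDcflSpaceV2

open Pool.Agent.MP_6216ea_lc

/-- **`CLOSURE (DCFL) ⊆ DSPACE (log² n / log log n)`, and deterministic pushdown computations of
`T` steps have deterministic branching programs of size `L ^ O(1 + log T / log log L)`.** -/
theorem kept_result :
    (∀ (α β : Type) [Finite α] [Finite β] (M : DetPDA β) (f : List α → List β), LogSpace f →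
      ∃ (c : Cmd α) (C : ℝ), ∀ x : List α, 3 ≤ x.length → ∃ (B : ℕ) (t : ℕ → ℕ),
        (B : ℝ) ≤ (x.length : ℝ) ^ (C * Real.log x.length / Real.log (Real.log x.length)) ∧
          Run x B c (fun _ => 0) t ∧ t 0 ≤ 1 ∧ (t 0 = 1 ↔ M.Accepts (f x))) ∧
    ∃ C : ℝ, ∀ (ι α : Type) (P : PushProg ι α) (T L : ℕ), 3 ≤ L → Fintype.card P.S ≤ L →
      T ≤ L → ∃ B : LetterDBP ι α,
        (Fintype.card B.V : ℝ) ≤ (L : ℝ) ^ (C * (1 + Real.log T / Real.log (Real.log L))) ∧
          B.Decides fun x => P.AcceptsIn x T := by
  obtain ⟨C, _, h⟩ := push_main_rd
  exact ⟨fun α β _ _ M f hf => DU.closure_main M hf, C, h⟩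

end Pool.Agent.MP_6216ea_lc.KeptLogDcflSpaceV2
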