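import Mathlib

/-! Nondeterministic branching programs which read letters. -/

set_option autoImplicit false

namespace Pool.Agent.MP_6216ea_lc

/-- A nondeterministic branching program reading letters of `α` at the positions `i : ι`: a finite
directed graph with a source and a target. An edge with label `none` is free, an edge with label
`some (i, a)` may be used iff the letter at position `i` is `a` (a query of position `i`). -/
structure LetterNBP (ι α : Type) where
  V : Type
  fin : Fintype V
  edge : V → Option (ι × α) → V → Prop
  source : V
  target : V

attribute [instance] LetterNBP.fin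

/-- `P.Path x T u v`: on the input `x` there is a computation from `u` to `v` with exactly `T`
queries. -/
inductive LetterNBP.Path {ι α : Type} (P : LetterNBP ι α) (x : ι → α) : ℕ → P.V → P.V → Prop
  | nil (u : P.V) : LetterNBP.Path P x 0 u u
  | free {T : ℕ} {u v w : P.V} : LetterNBP.Path P x T u v → P.edge v none w →
      LetterNBP.Path P x T u w
  | query {T : ℕ} {u v w : P.V} (i : ι) : LetterNBP.Path P x T u v →
      P.edge v (some (i, x i)) w → LetterNBP.Path P x (T + 1) u w

/-- The program accepts `x`. -/
def LetterNBP.Accepts {ι α : Type} (P : LetterNBP ι α) (x : ι → α) : Prop :=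
  ∃ T, P.Path x T P.source P.target

/-- The program accepts `x` by a computation with at most `T` queries. -/
def LetterNBP.AcceptsIn {ι α : Type} (P : LetterNBP ι α) (x : ι → α) (T : ℕ) : Prop :=
  ∃ T' ≤ T, P.Path x T' P.source P.target

end Pool.Agent.MP_6216ea_lc
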