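import Mathlib
import Pool.Agent.Lib.MP_6216ea_lc.RKDefs
import Pool.Agent.Lib.MP_6216ea_lc.LTModel

/-! Linear-time nondeterministic branching programs and a family of pushdown automata. -/

set_option autoImplicit false

namespace Pool.Agent.MP_6216ea_lc

/-! ### The machine -/

/-- Kinds of letters. -/
inductive LKind (q : ℕ) : Type
  | pad
  | opn
  | var
  | ps (last : Bool)
  | pl (last : Bool) (row : Fin q → Bool)
  | ep
  | kk
  | cl
deriving DecidableEq, Fintype

/-- Modes of the machine. -/
inductive LMode : Type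
  | run
  | push
  | idle
  | clr
deriving DecidableEq

instance : Fintype LMode := ⟨{.run, .push, .idle, .clr}, by intro x; cases x <;> simp⟩

/-- The step of the machine in a mode with remainder `r` and check bit `b`. Stack symbols: `none`
is a unit (worth `q`), `some r` is a marker which stores a remainder. -/
def lstep (q : ℕ) [NeZero q] : LMode × Fin q × Bool → LKind q × Fin q → Option (Option (Fin q)) →
    Option ((LMode × Fin q × Bool) × List (Option (Fin q)))
  | (.run, r, b), (.pad, _), o => some ((.run, r, b), o.toList)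
  | (.run, r, b), (.opn, _), o => some ((.run, 0, b), some r :: o.toList)
  | (.run, r, b), (.var, x), o =>
      some ((.run, r + x, b), List.replicate ((r.val + x.val) / q) none ++ o.toList)
  | (.run, r, b), (.ps _, _), some none => some ((.run, r, b), [])
  | (.run, r, b), (.ps last, _), some (some s) =>
      some ((if last then .idle else .push, 0, b), List.replicate (q - 1 - r.val) none ++ [some s])
  | (.run, r, b), (.pl _ _, _), some none => some ((.run, r, b), [])
  | (.run, r, _), (.pl last row, _), some (some s) =>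
      some ((if last then .idle else .push, s - 1 - r, row r),
        List.replicate ((q - 1 - r.val + s.val) / q) none)
  | (.push, r, b), (.ps last, _), o =>
      some ((if last then .idle else .push, r, b), List.replicate q none ++ o.toList)
  | (.push, r, b), (.pl last _, _), o =>
      some ((if last then .idle else .push, r, b), none :: o.toList)
  | (.idle, r, b), (.ps _, _), o => some ((.idle, r, b), o.toList)
  | (.idle, r, b), (.pl _ _, _), o => some ((.idle, r, b), o.toList)
  | (.push, r, b), (.ep, _), o => some ((.run, r, b), o.toList)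
  | (.idle, r, b), (.ep, _), o => some ((.run, r, b), o.toList)
  | (.run, r, b), (.kk, x), o => if (b = true ↔ x ≠ 0) then some ((.run, r, b), o.toList) else none
  | (.run, r, b), (.cl, _), none => some ((.clr, r, b), [])
  | (.run, r, b), (.cl, _), some none => some ((.clr, r, b), [])
  | (.clr, r, b), (.cl, _), none => some ((.clr, r, b), [])
  | (.clr, r, b), (.cl, _), some none => some ((.clr, r, b), [])
  | _, _, _ => none

/-- The machine as a deterministic pushdown automaton. -/
def lM (q : ℕ) [NeZero q] : DPDA (LKind q × Fin q) where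
  Q := LMode × Fin q × Bool
  S := Option (Fin q)
  finQ := inferInstance
  finS := inferInstance
  start := (.run, 0, false)
  accept := fun s => decide (s.1 = .clr)
  step := lstep q

/-- The running state with value `n`. -/
def lst (q : ℕ) [NeZero q] (n : ℕ) (b : Bool) : LMode × Fin q × Bool := (.run, Fin.ofNat q n, b)

/-- The stack with value `n` above `rest`. -/
def lsk (q : ℕ) (n : ℕ) (rest : List (Option (Fin q))) : List (Option (Fin q)) :=
  List.replicate (n / q) none ++ rest

/-! ### Values -/

/-- Leaves of the complete binary tree of height `h`. -/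
abbrev Lf (h : ℕ) := Fin h → Bool

/-- Variable letters: leaf, sub-block, place in the sub-block. -/
abbrev Vr (h w M : ℕ) := Lf h × Fin w × Fin M

/-- A list of bits as a leaf. -/
def decL (h : ℕ) (l : List Bool) : Lf h := fun i => l.getD i false

/-- The value of a digit vector. -/
def dig (q w p : ℕ) (x : Fin w → Fin q) : ZMod p :=
  ∑ t : Fin w, (-(q : ZMod p)) ^ (w - t.val) * ((x t).val : ZMod p)

/-- The contribution of a leaf block. -/
def leafZ (q w M p : ℕ) (b : Fin w → Fin M → Fin q) : ZMod p :=
  -1 - ∑ t : Fin w, (-(q : ZMod p)) ^ (w - t.val) * (1 + ∑ i, ((b t i).val : ZMod p))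

/-- The contributions of the leaves, indexed by lists. -/
def contZ (q h w M p : ℕ) (a : Vr h w M → Fin q) (l : List Bool) : ZMod p :=
  leafZ q w M p (fun t i => a (decL h l, t, i))

/-- The contribution of a tree of height `r`. -/
def valZ {p : ℕ} : ℕ → (List Bool → ZMod p) → ZMod p
  | 0, c => c []
  | r + 1, c => -1 - (valZ r (fun l => c (false :: l)) + valZ r (fun l => c (true :: l)))

/-- The value which is tested at the node `v`, `v.length < h`. -/
def rawZ {p : ℕ} (h : ℕ) (c : List Bool → ZMod p) (v : List Bool) : ZMod p :=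
  valZ (h - 1 - v.length) (fun l => c (v ++ false :: l)) +
    valZ (h - 1 - v.length) (fun l => c (v ++ true :: l))

/-- The function: all tests are passed. -/
def LGood {q : ℕ} [NeZero q] (h w M : ℕ) {p : ℕ} (chi : ZMod p → Bool)
    (ξ : Vr h w M ⊕ List Bool → Fin q) : Prop :=
  ∀ v : List Bool, v.length < h →
    (chi (rawZ h (contZ q h w M p (fun x => ξ (.inl x))) v) = true ↔ ξ (.inr v) ≠ 0)

/-! ### Templates of words -/

/-- Letters with slots. -/
abbrev Slt (q : ℕ) (V : Type) := LKind q × Option V

/-- Filling the slots. -/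
def fill {q : ℕ} [NeZero q] {V : Type} (ξ : V → Fin q) (s : Slt q V) : LKind q × Fin q :=
  (s.1, (s.2.map ξ).getD 0)

/-- A group of passing letters which stay in the frame. -/
def grpS (q : ℕ) (V : Type) (G : ℕ) : List (Slt q V) :=
  List.replicate (G - 1) (.ps false, none) ++ [(.ps true, none)]

/-- `n` groups of passing letters which stay in the frame. -/
def passS (q : ℕ) (V : Type) (G n : ℕ) : List (Slt q V) := (List.replicate n (grpS q V G)).flatten

/-- A group of passing letters which leave the frame. -/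
def grpL (q : ℕ) (V : Type) (G : ℕ) (tab : Fin G → Fin q → Bool) : List (Slt q V) :=
  List.ofFn fun H : Fin G => (.pl (decide (H.val + 1 = G)) (tab H), none)

/-- `n` groups of passing letters which leave the frame. -/
def passL (q : ℕ) (V : Type) (G n : ℕ) (tab : Fin G → Fin q → Bool) : List (Slt q V) :=
  (List.replicate n (grpL q V G tab)).flatten

/-- A sub-block. -/
def subT (q h w M : ℕ) (l : List Bool) (t : Fin w) : List (Slt q (Vr h w M ⊕ List Bool)) :=
  List.ofFn fun i : Fin M => (.var, some (.inl (decL h l, t, i)))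

/-- The word of a leaf, `G` letters in a group, `e` groups in the inner passes. -/
def leafT (q h w M G e : ℕ) (l : List Bool) : List (Slt q (Vr h w M ⊕ List Bool)) :=
  (.opn, none) :: ((List.ofFn fun t : Fin w => subT q h w M l t ++ (passS q _ G e ++
    [(.ep, none)])).flatten ++ (passL q _ G q (fun _ _ => false) ++ [(.ep, none)]))

/-- The word of a node with a subtree of height `r` below it. -/
def nodeT (q h w M G e : ℕ) (chi : ZMod (q * G) → Bool) :
    ℕ → List Bool → List (Slt q (Vr h w M ⊕ List Bool))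
  | 0, v => leafT q h w M G e v
  | r + 1, v => (.opn, none) :: (nodeT q h w M G e chi r (v ++ [false]) ++
      (nodeT q h w M G e chi r (v ++ [true]) ++
        (passL q _ G q (fun H s => chi ((q * H.val + s.val : ℕ) : ZMod (q * G))) ++
          [(.ep, none), (.kk, some (.inr v))])))

/-- The whole word, with `j` padding letters. -/
def wordT (q h w M G e : ℕ) (chi : ZMod (q * G) → Bool) (j : ℕ) :
    List (Slt q (Vr h w M ⊕ List Bool)) :=
  List.replicate j (.pad, none) ++ (nodeT q h w M G e chi h [] ++
    List.replicate (G + 1) (.cl, none))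

/-! ### The combinatorial lemma -/

/-- The leaves `x` and `y` agree up to level `j`. -/
def agr {h : ℕ} (j : ℕ) (x y : Lf h) : Prop := ∀ i : Fin h, i.val < j → x i = y i

instance {h : ℕ} (j : ℕ) (x y : Lf h) : Decidable (agr j x y) := by
  unfold agr
  infer_instance

/-- `x` branches off `y` exactly at level `j`. -/
def brn {h : ℕ} (j : ℕ) (x y : Lf h) : Prop := agr j x y ∧ ¬ agr (j + 1) x y

instance {h : ℕ} (j : ℕ) (x y : Lf h) : Decidable (brn j x y) := by
  unfold brn
  infer_instance

/-- Number of `x ∈ S` which branch off `z` at level `j` with `typ x z = τ`. -/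
def inm {h w : ℕ} {Θ : Type} [DecidableEq Θ] (S : Finset (Lf h × Fin w))
    (typ : Lf h × Fin w → Lf h × Fin w → Θ) (τ : Θ) (j : ℕ) (z : Lf h × Fin w) : ℕ :=
  (S.filter fun x => brn j x.1 z.1 ∧ typ x z = τ).card

/-- Number of `y ∈ S` which branch off `z` at level `j` with `typ z y = τ`. -/
def outm {h w : ℕ} {Θ : Type} [DecidableEq Θ] (S : Finset (Lf h × Fin w))
    (typ : Lf h × Fin w → Lf h × Fin w → Θ) (τ : Θ) (j : ℕ) (z : Lf h × Fin w) : ℕ :=
  (S.filter fun y => brn j y.1 z.1 ∧ typ z y = τ).card

/-- In the block of levels `j0 ≤ j < j0 + d` both masses of `τ` are large at some level. -/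
def Bal {h w : ℕ} {Θ : Type} [DecidableEq Θ] (S : Finset (Lf h × Fin w))
    (typ : Lf h × Fin w → Lf h × Fin w → Θ) (E j0 d : ℕ) (τ : Θ) (z : Lf h × Fin w) : Prop :=
  (∃ j ∈ Finset.Ico j0 (j0 + d), 2 ^ (h - j - 1) * w ≤ E * inm S typ τ j z) ∧
    (∃ j ∈ Finset.Ico j0 (j0 + d), 2 ^ (h - j - 1) * w ≤ E * outm S typ τ j z)

instance {h w : ℕ} {Θ : Type} [DecidableEq Θ] (S : Finset (Lf h × Fin w))
    (typ : Lf h × Fin w → Lf h × Fin w → Θ) (E j0 d : ℕ) (τ : Θ) (z : Lf h × Fin w) :
    Decidable (Bal S typ E j0 d τ z) := by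
  unfold Bal
  infer_instance

/-- The conclusion of the combinatorial lemma. -/
def CclOut {h w : ℕ} {Θ : Type} (G : Finset (Lf h × Fin w))
    (typ : Lf h × Fin w → Lf h × Fin w → Θ) (D m : ℕ) : Prop :=
  ∃ (u z : Lf h × Fin w) (τ : Θ) (lev : ℕ → ℕ) (X Y : ℕ → Lf h) (A B : ℕ → Finset (Fin w)),
    u ∈ G ∧ z ∈ G ∧ Monotone lev ∧ (∀ i, lev i ≤ h) ∧ ∀ i < m,
      (agr (lev i) (X i) z.1 ∧ ¬ agr (lev (i + 1)) (X i) z.1) ∧
      (agr (lev i) (Y i) z.1 ∧ ¬ agr (lev (i + 1)) (Y i) z.1) ∧
      w ≤ D * (A i).card ∧ w ≤ D * (B i).card ∧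
      (∀ t ∈ A i, (X i, t) ∈ G ∧ (X i, t) ≠ u ∧ typ u (X i, t) = τ ∧ typ (X i, t) z = τ) ∧
      (∀ t ∈ B i, (Y i, t) ∈ G ∧ (Y i, t) ≠ u ∧ typ u (Y i, t) = τ ∧ typ z (Y i, t) = τ)

/-! ### Walks -/

/-- A computation as a sequence. -/
structure LWalk {ι α : Type} (P : LetterNBP ι α) (x : ι → α) where
  L : ℕ
  v : ℕ → P.V
  lab : ℕ → Option (ι × α)
  v0 : v 0 = P.source
  vL : v L = P.target
  edge : ∀ s < L, P.edge (v s) (lab s) (v (s + 1))
  cons : ∀ s < L, ∀ i a, lab s = some (i, a) → x i = a

open Classical in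
/-- The times at which `i` is read. -/
noncomputable def LWalk.reads {ι α : Type} {P : LetterNBP ι α} {x : ι → α} (W : LWalk P x)
    (i : ι) : Finset ℕ :=
  (Finset.range W.L).filter fun s => ∃ a, W.lab s = some (i, a)

/-- Number of cut times up to `s`. -/
def cseg (C : Finset ℕ) (s : ℕ) : ℕ := (C.filter (· ≤ s)).card

/-- The first time at or after the `g`-th cut. -/
def LWalk.bd {ι α : Type} {P : LetterNBP ι α} {x : ι → α} (W : LWalk P x) (C : Finset ℕ)
    (g : ℕ) : ℕ :=
  ((Finset.range W.L).filter fun s => cseg C s < g).card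

/-! ### Classes -/

/-- The rectangle property of a table. -/
def RectP {p : ℕ} (chi : ZMod p → Bool) (r : ℕ) : Prop :=
  ∀ (A B : Finset (ZMod p)) (c : Bool), (∀ a ∈ A, ∀ b ∈ B, chi (a + b) = c) →
    A.card * B.card ≤ r ^ 3 * max A.card B.card

/-- The free letters at the leaves `X i`, sub-blocks `A i`, places given by `Ψ`. -/
def isX {h w M m : ℕ} (Ψ : Lf h × Fin w → Fin M) (X : Fin m → Lf h) (A : Fin m → Finset (Fin w))
    (x : Vr h w M) : Prop := ∃ i, x.1 = X i ∧ x.2.1 ∈ A i ∧ x.2.2 = Ψ (x.1, x.2.1)

instance {h w M m : ℕ} (Ψ : Lf h × Fin w → Fin M) (X : Fin m → Lf h) (A : Fin m → Finset (Fin w))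
    (x : Vr h w M) : Decidable (isX Ψ X A x) := by
  unfold isX
  infer_instance

/-- `a` with the values of `a'` at the free letters given by `Y`, `B`. -/
def lmix {q h w M m : ℕ} (Ψ : Lf h × Fin w → Fin M) (Y : Fin m → Lf h)
    (B : Fin m → Finset (Fin w)) (a a' : Vr h w M → Fin q) : Vr h w M → Fin q :=
  fun x => if isX Ψ Y B x then a' x else a x

/-- The node of level `j` above the leaf `z`. -/
def nodeAt {h : ℕ} (z : Lf h) (j : ℕ) : List Bool := (List.ofFn z).take j

/-- The data of an input: leaves and sets of sub-blocks on both sides, a leaf, levels, states at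
the cuts, colours of the segments. -/
abbrev LData (h w m K : ℕ) (V : Type) : Type :=
  (Fin m → Lf h) × (Fin m → Lf h) × (Fin m → Finset (Fin w)) × (Fin m → Finset (Fin w)) × Lf h ×
    (Fin (m + 1) → Fin (h + 1)) × (Fin (2 * K + 1) → V) × (Fin (2 * K + 1) → Bool)

end Pool.Agent.MP_6216ea_lc
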