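import Mathlib
import Pool.Agent.Lib.MP_6216ea_lc.LTDefs

set_option autoImplicit false

namespace Pool.Agent.MP_6216ea_lc

/-- A cylinder of level `j` has at most `2 ^ (h - j)` leaves. -/
theorem ltblka_cyl {h : ℕ} (j : ℕ) (hj : j ≤ h) (x : Lf h) :
    (Finset.univ.filter fun l : Lf h => agr j l x).card ≤ 2 ^ (h - j) := by
  have hc : Fintype.card (Fin (h - j) → Bool) = 2 ^ (h - j) := by simp
  rw [← hc, ← Finset.card_univ]
  refine Finset.card_le_card_of_injOn
    (fun l : Lf h => fun i : Fin (h - j) => l ⟨j + i.val, by omega⟩) (fun _ _ => Finset.mem_univ _) ?_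
  intro a ha b hb hab
  simp only [Finset.coe_filter, Finset.mem_univ, true_and, Set.mem_ofPred_eq] at ha hb
  funext i
  by_cases hi : i.val < j
  · rw [ha i hi, hb i hi]
  · have := congrFun hab ⟨i.val - j, by omega⟩
    simp only at this
    have e : (⟨j + (i.val - j), by omega⟩ : Fin h) = i := by
      apply Fin.ext
      simp only
      omega
    rw [e] at this
    exact this

theorem ltblka_cylS {h w : ℕ} (j : ℕ) (hj : j ≤ h) (x : Lf h) (B : Finset (Lf h × Fin w)) :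
    (B.filter fun z => agr j z.1 x).card ≤ 2 ^ (h - j) * w := by
  calc (B.filter fun z => agr j z.1 x).card
      ≤ ((Finset.univ.filter fun l : Lf h => agr j l x) ×ˢ (Finset.univ : Finset (Fin w))).card := by
        apply Finset.card_le_card
        intro z hz
        simp only [Finset.mem_filter] at hz
        simp only [Finset.mem_product, Finset.mem_filter, Finset.mem_univ, true_and, and_true]
        exact hz.2
    _ ≤ 2 ^ (h - j) * w := by
        rw [Finset.card_product, Finset.card_univ, Fintype.card_fin]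
        exact Nat.mul_le_mul_right _ (ltblka_cyl j hj x)

theorem ltblka_branch {h : ℕ} (x z : Lf h) (j0 d : ℕ) (h0 : agr j0 x z) (h1 : ¬ agr (j0 + d) x z) :
    ∃ j ∈ Finset.Ico j0 (j0 + d), brn j x z := by
  induction d with
  | zero => exact absurd h0 h1
  | succ d ih =>
    by_cases h2 : agr (j0 + d) x z
    · exact ⟨j0 + d, by simp, h2, h1⟩
    · obtain ⟨j, hj, hb⟩ := ih h2
      refine ⟨j, ?_, hb⟩
      rw [Finset.mem_Ico] at hj ⊢
      omega

theorem ltblka_geom (h j0 d : ℕ) (hd : j0 + d ≤ h) :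
    ∑ j ∈ Finset.Ico j0 (j0 + d), 2 ^ (h - j - 1) ≤ 2 ^ (h - j0) := by
  have key : ∑ j ∈ Finset.Ico j0 (j0 + d), 2 ^ (h - j - 1) + 2 ^ (h - (j0 + d)) = 2 ^ (h - j0) := by
    induction d with
    | zero => simp
    | succ d ih =>
      have ih' := ih (by omega)
      have e : j0 + (d + 1) = (j0 + d) + 1 := by ring
      rw [e, Finset.sum_Ico_succ_top (by omega)]
      rw [← ih']
      have : h - (j0 + d) = (h - (j0 + d + 1)) + 1 := by omega
      rw [this, pow_succ]
      have e2 : h - (j0 + d + 1) + 1 - 1 = h - (j0 + d + 1) := by omega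
      rw [e2]
      ring
  rw [← key]
  exact Nat.le_add_right _ _

/-- Pairs of one kind inside a group. -/
theorem ltblka_pairs {h w : ℕ} {Θ : Type} [Fintype Θ] [DecidableEq Θ] (E d j0 : ℕ) (hd : j0 + d ≤ h)
    (B0 : Finset (Lf h × Fin w)) (I : Finset Θ) (cnt : Θ → ℕ → ℕ)
    (P : Finset (Lf h × Fin w)) (ty : Lf h × Fin w → Θ) (z : Lf h × Fin w)
    (hcnt : ∀ τ ∈ I, ∀ j ∈ Finset.Ico j0 (j0 + d), E * cnt τ j ≤ 2 ^ (h - j - 1) * w)
    (hP : ∀ x ∈ P, ty x ∈ I ∧ ∃ j ∈ Finset.Ico j0 (j0 + d), brn j x.1 z.1)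
    (hc : ∀ τ j, (P.filter fun x => brn j x.1 z.1 ∧ ty x = τ).card ≤ cnt τ j) :
    E * P.card ≤ Fintype.card Θ * (2 ^ (h - j0) * w) := by
  have h1 : P ⊆ (I ×ˢ Finset.Ico j0 (j0 + d)).biUnion
      (fun p => P.filter fun x => brn p.2 x.1 z.1 ∧ ty x = p.1) := by
    intro x hx
    obtain ⟨h2, j, hj, hb⟩ := hP x hx
    rw [Finset.mem_biUnion]
    exact ⟨(ty x, j), Finset.mem_product.2 ⟨h2, hj⟩, Finset.mem_filter.2 ⟨hx, hb, rfl⟩⟩
  have h2 : P.card ≤ ∑ p ∈ I ×ˢ Finset.Ico j0 (j0 + d), cnt p.1 p.2 :=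
    (Finset.card_le_card h1).trans (Finset.card_biUnion_le.trans
      (Finset.sum_le_sum fun p _ => hc p.1 p.2))
  calc E * P.card ≤ E * ∑ p ∈ I ×ˢ Finset.Ico j0 (j0 + d), cnt p.1 p.2 :=
        Nat.mul_le_mul_left _ h2
    _ = ∑ p ∈ I ×ˢ Finset.Ico j0 (j0 + d), E * cnt p.1 p.2 := Finset.mul_sum _ _ _
    _ ≤ ∑ p ∈ I ×ˢ Finset.Ico j0 (j0 + d), 2 ^ (h - p.2 - 1) * w := by
        apply Finset.sum_le_sum
        intro p hp
        rw [Finset.mem_product] at hp
        exact hcnt p.1 hp.1 p.2 hp.2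
    _ = I.card * ((∑ j ∈ Finset.Ico j0 (j0 + d), 2 ^ (h - j - 1)) * w) := by
        rw [Finset.sum_product]
        simp only [Finset.sum_const, smul_eq_mul, Finset.sum_mul]
    _ ≤ Fintype.card Θ * (2 ^ (h - j0) * w) :=
        Nat.mul_le_mul (Finset.card_le_univ I) (Nat.mul_le_mul_right _ (ltblka_geom h j0 d hd))

theorem ltblka_brn_comm {h : ℕ} (j : ℕ) (x y : Lf h) (hb : brn j x y) : brn j y x := by
  refine ⟨fun i hi => (hb.1 i hi).symm, fun h1 => hb.2 fun i hi => (h1 i hi).symm⟩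

/-- One group. -/
theorem ltblka_group {h w : ℕ} {Θ : Type} [Fintype Θ] [DecidableEq Θ] (E d j0 : ℕ)
    (hd : j0 + d ≤ h) (S : Finset (Lf h × Fin w)) (typ : Lf h × Fin w → Lf h × Fin w → Θ)
    (z0 : Lf h) (B0 : Finset (Lf h × Fin w)) (I O : Finset Θ) (hBS : B0 ⊆ S)
    (hcyl : ∀ z ∈ B0, agr j0 z.1 z0)
    (hI : ∀ z ∈ B0, ∀ τ ∈ I, ∀ j ∈ Finset.Ico j0 (j0 + d),
      E * inm S typ τ j z ≤ 2 ^ (h - j - 1) * w)
    (hO : ∀ z ∈ B0, ∀ τ ∈ O, ∀ j ∈ Finset.Ico j0 (j0 + d),
      E * outm S typ τ j z ≤ 2 ^ (h - j - 1) * w)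
    (hIO : ∀ τ, τ ∈ I ∨ τ ∈ O) :
    E * 2 ^ d * B0.card ≤ (E + 2 * Fintype.card Θ * 2 ^ d) * (2 ^ (h - j0) * w) := by
  classical
  rcases Nat.eq_zero_or_pos B0.card with hz | hpos
  · rw [hz]; simp
  set PI := (B0 ×ˢ B0).filter fun p => ¬ agr (j0 + d) p.1.1 p.2.1 ∧ typ p.1 p.2 ∈ I with hPI
  set PO := (B0 ×ˢ B0).filter fun p => ¬ agr (j0 + d) p.1.1 p.2.1 ∧ typ p.1 p.2 ∈ O with hPO
  set PD := (B0 ×ˢ B0).filter fun p => agr (j0 + d) p.1.1 p.2.1 with hPD
  have hcov : B0 ×ˢ B0 ⊆ PD ∪ (PI ∪ PO) := by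
    intro p hp
    rw [Finset.mem_union, Finset.mem_union, hPI, hPO, hPD, Finset.mem_filter, Finset.mem_filter,
      Finset.mem_filter]
    by_cases h1 : agr (j0 + d) p.1.1 p.2.1
    · exact Or.inl ⟨hp, h1⟩
    · rcases hIO (typ p.1 p.2) with h2 | h2
      · exact Or.inr (Or.inl ⟨hp, h1, h2⟩)
      · exact Or.inr (Or.inr ⟨hp, h1, h2⟩)
  have hagr : ∀ x ∈ B0, ∀ z ∈ B0, agr j0 x.1 z.1 := fun x hx z hz i hi => by
    rw [hcyl x hx i hi, hcyl z hz i hi]
  have hD : PD.card ≤ B0.card * (2 ^ (h - (j0 + d)) * w) := by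
    have : PD ⊆ B0.biUnion fun z => (B0.filter fun x => agr (j0 + d) x.1 z.1).image fun x => (x, z) := by
      intro p hp
      rw [hPD, Finset.mem_filter, Finset.mem_product] at hp
      rw [Finset.mem_biUnion]
      exact ⟨p.2, hp.1.2, Finset.mem_image.2 ⟨p.1, Finset.mem_filter.2 ⟨hp.1.1, hp.2⟩, rfl⟩⟩
    refine (Finset.card_le_card this).trans (Finset.card_biUnion_le.trans ?_)
    rw [← smul_eq_mul]
    exact Finset.sum_le_card_nsmul _ _ _ fun z _ =>
      (Finset.card_image_le).trans (ltblka_cylS (j0 + d) hd z.1 B0)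
  have hIc : E * PI.card ≤ B0.card * (Fintype.card Θ * (2 ^ (h - j0) * w)) := by
    have : PI ⊆ B0.biUnion fun z => (B0.filter fun x => ¬ agr (j0 + d) x.1 z.1 ∧ typ x z ∈ I).image
        fun x => (x, z) := by
      intro p hp
      rw [hPI, Finset.mem_filter, Finset.mem_product] at hp
      rw [Finset.mem_biUnion]
      exact ⟨p.2, hp.1.2, Finset.mem_image.2 ⟨p.1, Finset.mem_filter.2 ⟨hp.1.1, hp.2⟩, rfl⟩⟩
    calc E * PI.card ≤ E * ∑ z ∈ B0, (B0.filter fun x => ¬ agr (j0 + d) x.1 z.1 ∧ typ x z ∈ I).card := by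
          apply Nat.mul_le_mul_left
          exact (Finset.card_le_card this).trans (Finset.card_biUnion_le.trans
            (Finset.sum_le_sum fun z _ => Finset.card_image_le))
      _ = ∑ z ∈ B0, E * (B0.filter fun x => ¬ agr (j0 + d) x.1 z.1 ∧ typ x z ∈ I).card :=
          Finset.mul_sum _ _ _
      _ ≤ ∑ z ∈ B0, (Fintype.card Θ * (2 ^ (h - j0) * w)) := by
          apply Finset.sum_le_sum
          intro z hz
          refine ltblka_pairs E d j0 hd B0 I (fun τ j => inm S typ τ j z) _ (fun x => typ x z) z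
            (fun τ hτ j hj => hI z hz τ hτ j hj) ?_ ?_
          · intro x hx
            rw [Finset.mem_filter] at hx
            exact ⟨hx.2.2, ltblka_branch x.1 z.1 j0 d (hagr x hx.1 z hz) hx.2.1⟩
          · intro τ j
            unfold inm
            apply Finset.card_le_card
            intro x hx
            rw [Finset.mem_filter, Finset.mem_filter] at hx
            rw [Finset.mem_filter]
            exact ⟨hBS hx.1.1, hx.2⟩
      _ = B0.card * (Fintype.card Θ * (2 ^ (h - j0) * w)) := by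
          rw [Finset.sum_const, smul_eq_mul]
  have hOc : E * PO.card ≤ B0.card * (Fintype.card Θ * (2 ^ (h - j0) * w)) := by
    have : PO ⊆ B0.biUnion fun x => (B0.filter fun z => ¬ agr (j0 + d) x.1 z.1 ∧ typ x z ∈ O).image
        fun z => (x, z) := by
      intro p hp
      rw [hPO, Finset.mem_filter, Finset.mem_product] at hp
      rw [Finset.mem_biUnion]
      exact ⟨p.1, hp.1.1, Finset.mem_image.2 ⟨p.2, Finset.mem_filter.2 ⟨hp.1.2, hp.2⟩, rfl⟩⟩
    calc E * PO.card ≤ E * ∑ x ∈ B0, (B0.filter fun z => ¬ agr (j0 + d) x.1 z.1 ∧ typ x z ∈ O).card := by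
          apply Nat.mul_le_mul_left
          exact (Finset.card_le_card this).trans (Finset.card_biUnion_le.trans
            (Finset.sum_le_sum fun z _ => Finset.card_image_le))
      _ = ∑ x ∈ B0, E * (B0.filter fun z => ¬ agr (j0 + d) x.1 z.1 ∧ typ x z ∈ O).card :=
          Finset.mul_sum _ _ _
      _ ≤ ∑ x ∈ B0, (Fintype.card Θ * (2 ^ (h - j0) * w)) := by
          apply Finset.sum_le_sum
          intro x hx
          refine ltblka_pairs E d j0 hd B0 O (fun τ j => outm S typ τ j x) _ (fun z => typ x z) x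
            (fun τ hτ j hj => hO x hx τ hτ j hj) ?_ ?_
          · intro z hz
            rw [Finset.mem_filter] at hz
            obtain ⟨j, hj, hb⟩ := ltblka_branch x.1 z.1 j0 d (hagr x hx z hz.1) hz.2.1
            exact ⟨hz.2.2, j, hj, ltblka_brn_comm _ _ _ hb⟩
          · intro τ j
            unfold outm
            apply Finset.card_le_card
            intro z hz
            rw [Finset.mem_filter, Finset.mem_filter] at hz
            rw [Finset.mem_filter]
            exact ⟨hBS hz.1.1, hz.2⟩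
      _ = B0.card * (Fintype.card Θ * (2 ^ (h - j0) * w)) := by
          rw [Finset.sum_const, smul_eq_mul]
  have htot : B0.card * B0.card ≤ PD.card + (PI.card + PO.card) := by
    rw [← Finset.card_product]
    exact (Finset.card_le_card hcov).trans ((Finset.card_union_le _ _).trans
      (Nat.add_le_add_left (Finset.card_union_le _ _) _))
  have hpow : 2 ^ d * 2 ^ (h - (j0 + d)) = 2 ^ (h - j0) := by
    rw [← pow_add]
    congr 1
    omega
  apply Nat.le_of_mul_le_mul_left _ hpos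
  calc B0.card * (E * 2 ^ d * B0.card) = E * 2 ^ d * (B0.card * B0.card) := by ring
    _ ≤ E * 2 ^ d * (PD.card + (PI.card + PO.card)) := Nat.mul_le_mul_left _ htot
    _ = E * 2 ^ d * PD.card + 2 ^ d * (E * PI.card) + 2 ^ d * (E * PO.card) := by ring
    _ ≤ E * 2 ^ d * (B0.card * (2 ^ (h - (j0 + d)) * w)) +
        2 ^ d * (B0.card * (Fintype.card Θ * (2 ^ (h - j0) * w))) +
        2 ^ d * (B0.card * (Fintype.card Θ * (2 ^ (h - j0) * w))) :=
        Nat.add_le_add (Nat.add_le_add (Nat.mul_le_mul_left _ hD) (Nat.mul_le_mul_left _ hIc))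
          (Nat.mul_le_mul_left _ hOc)
    _ = B0.card * ((E * (2 ^ d * 2 ^ (h - (j0 + d))) + 2 * Fintype.card Θ * 2 ^ d * 2 ^ (h - j0)) * w) := by
        ring
    _ = B0.card * ((E + 2 * Fintype.card Θ * 2 ^ d) * (2 ^ (h - j0) * w)) := by
        rw [hpow]
        ring

/-- C1: one block below one node -/
theorem lt_blockA {Θ : Type} [Fintype Θ] [DecidableEq Θ] (rev : Θ → Θ) (D : ℕ) (hD : 1 ≤ D) :
    ∃ d E : ℕ, 1 ≤ d ∧ 1 ≤ E ∧ ∀ (h w : ℕ) (S : Finset (Lf h × Fin w))
      (typ : Lf h × Fin w → Lf h × Fin w → Θ)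
      (_ : ∀ x ∈ S, ∀ y ∈ S, x ≠ y → typ y x = rev (typ x y)) (j0 : ℕ) (_ : j0 + d ≤ h)
      (z0 : Lf h), 2 ^ (h - j0) * w ≤ D * (S.filter fun z => agr j0 z.1 z0).card →
      4 * (S.filter fun z => agr j0 z.1 z0 ∧ ∀ τ, ¬ Bal S typ E j0 d τ z).card ≤
        (S.filter fun z => agr j0 z.1 z0).card := by
  classical
  set N := 2 ^ Fintype.card Θ * 2 ^ Fintype.card Θ with hN
  have hN1 : 1 ≤ N := Nat.one_le_iff_ne_zero.2 (by positivity)
  set c := Fintype.card Θ with hc
  refine ⟨8 * D * N, 16 * D * N * (c + 1), ?_, ?_, ?_⟩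
  · exact Nat.one_le_iff_ne_zero.2 (by positivity)
  · exact Nat.one_le_iff_ne_zero.2 (by positivity)
  intro h w S typ _ j0 hj0 z0 hdense
  set d := 8 * D * N with hdd
  set E := 16 * D * N * (c + 1) with hE
  have hE1 : 1 ≤ E := Nat.one_le_iff_ne_zero.2 (by positivity)
  set Bad := S.filter fun z => agr j0 z.1 z0 ∧ ∀ τ, ¬ Bal S typ E j0 d τ z with hBad
  let fI : Lf h × Fin w → Finset Θ := fun z => Finset.univ.filter fun τ =>
    ∀ j ∈ Finset.Ico j0 (j0 + d), E * inm S typ τ j z ≤ 2 ^ (h - j - 1) * w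
  let fO : Lf h × Fin w → Finset Θ := fun z => Finset.univ.filter fun τ =>
    ∀ j ∈ Finset.Ico j0 (j0 + d), E * outm S typ τ j z ≤ 2 ^ (h - j - 1) * w
  have hgrp : ∀ p : Finset Θ × Finset Θ,
      E * 2 ^ d * (Bad.filter fun z => (fI z, fO z) = p).card ≤
        (E + 2 * c * 2 ^ d) * (2 ^ (h - j0) * w) := by
    intro p
    rcases Finset.eq_empty_or_nonempty (Bad.filter fun z => (fI z, fO z) = p) with he | ⟨z1, hz1⟩
    · rw [he]; simp
    · have hfz : ∀ z ∈ Bad.filter (fun z => (fI z, fO z) = p), z ∈ S ∧ agr j0 z.1 z0 ∧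
          (∀ τ, ¬ Bal S typ E j0 d τ z) ∧ fI z = p.1 ∧ fO z = p.2 := by
        intro z hz
        rw [Finset.mem_filter, hBad, Finset.mem_filter] at hz
        refine ⟨hz.1.1, hz.1.2.1, hz.1.2.2, ?_, ?_⟩
        · rw [← hz.2]
        · rw [← hz.2]
      refine ltblka_group E d j0 hj0 S typ z0 _ p.1 p.2 (fun z hz => (hfz z hz).1)
        (fun z hz => (hfz z hz).2.1) ?_ ?_ ?_
      · intro z hz τ hτ j hj
        rw [← (hfz z hz).2.2.2.1] at hτ
        exact (Finset.mem_filter.1 hτ).2 j hj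
      · intro z hz τ hτ j hj
        rw [← (hfz z hz).2.2.2.2] at hτ
        exact (Finset.mem_filter.1 hτ).2 j hj
      · intro τ
        have h1 := (hfz z1 hz1).2.2.1 τ
        rw [← (hfz z1 hz1).2.2.2.1, ← (hfz z1 hz1).2.2.2.2]
        unfold Bal at h1
        rw [not_and_or] at h1
        rcases h1 with h1 | h1
        · left
          refine Finset.mem_filter.2 ⟨Finset.mem_univ _, fun j hj => ?_⟩
          by_contra h2
          exact h1 ⟨j, hj, by omega⟩
        · right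
          refine Finset.mem_filter.2 ⟨Finset.mem_univ _, fun j hj => ?_⟩
          by_contra h2
          exact h1 ⟨j, hj, by omega⟩
  have hsum : Bad.card = ∑ p : Finset Θ × Finset Θ, (Bad.filter fun z => (fI z, fO z) = p).card :=
    Finset.card_eq_sum_card_fiberwise (fun _ _ => Finset.mem_univ _)
  have hcardP : Fintype.card (Finset Θ × Finset Θ) = N := by
    rw [Fintype.card_prod, Fintype.card_finset]
  have hbd : E * 2 ^ d * Bad.card ≤ N * ((E + 2 * c * 2 ^ d) * (2 ^ (h - j0) * w)) := by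
    rw [hsum, Finset.mul_sum]
    calc ∑ p : Finset Θ × Finset Θ, E * 2 ^ d * (Bad.filter fun z => (fI z, fO z) = p).card
        ≤ ∑ _p : Finset Θ × Finset Θ, ((E + 2 * c * 2 ^ d) * (2 ^ (h - j0) * w)) :=
          Finset.sum_le_sum fun p _ => hgrp p
      _ = N * ((E + 2 * c * 2 ^ d) * (2 ^ (h - j0) * w)) := by
          rw [Finset.sum_const, smul_eq_mul, Finset.card_univ, hcardP]
  have h2d : 8 * D * N ≤ 2 ^ d := hdd ▸ (Nat.lt_two_pow_self).le
  have hEc : 16 * D * N * c ≤ E := by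
    rw [hE]
    exact Nat.mul_le_mul_left _ (Nat.le_succ c)
  have h3 : 4 * D * N * (E + 2 * c * 2 ^ d) ≤ E * 2 ^ d := by
    have a1 : 8 * D * N * E ≤ 2 ^ d * E := Nat.mul_le_mul_right _ h2d
    have a2 : 16 * D * N * c * 2 ^ d ≤ E * 2 ^ d := Nat.mul_le_mul_right _ hEc
    have e1 : 2 * (4 * D * N * (E + 2 * c * 2 ^ d)) = 8 * D * N * E + 16 * D * N * c * 2 ^ d := by
      ring
    have e2 : 2 ^ d * E = E * 2 ^ d := Nat.mul_comm _ _
    omega
  have h4 : 4 * D * Bad.card ≤ 2 ^ (h - j0) * w := by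
    have hpos : 0 < E * 2 ^ d := by positivity
    apply Nat.le_of_mul_le_mul_left _ hpos
    calc E * 2 ^ d * (4 * D * Bad.card) = 4 * D * (E * 2 ^ d * Bad.card) := by ring
      _ ≤ 4 * D * (N * ((E + 2 * c * 2 ^ d) * (2 ^ (h - j0) * w))) := Nat.mul_le_mul_left _ hbd
      _ = (4 * D * N * (E + 2 * c * 2 ^ d)) * (2 ^ (h - j0) * w) := by ring
      _ ≤ (E * 2 ^ d) * (2 ^ (h - j0) * w) := Nat.mul_le_mul_right _ h3
  have h5 : D * (4 * Bad.card) ≤ D * (S.filter fun z => agr j0 z.1 z0).card := by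
    calc D * (4 * Bad.card) = 4 * D * Bad.card := by ring
      _ ≤ 2 ^ (h - j0) * w := h4
      _ ≤ _ := hdense
  exact Nat.le_of_mul_le_mul_left h5 (by omega)

end Pool.Agent.MP_6216ea_lc
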