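import Mathlib
import Pool.Agent.Lib.MP_6216ea_lc.LTDefs
import Pool.Agent.Lib.MP_6216ea_lc.LTBlkA

set_option autoImplicit false

namespace Pool.Agent.MP_6216ea_lc

/-- representative of a cylinder -/
private def ltblkb_key {h : ℕ} (j : ℕ) (z : Lf h) : Lf h := fun i => if i.val < j then z i else false

private lemma ltblkb_key_iff {h : ℕ} (j : ℕ) (x y : Lf h) :
    agr j x (ltblkb_key j y) ↔ ltblkb_key j x = ltblkb_key j y := by
  constructor
  · intro hxy
    funext i
    unfold ltblkb_key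
    by_cases hi : i.val < j
    · have := hxy i hi
      simp only [ltblkb_key, hi, if_true] at this ⊢
      exact this
    · simp [hi]
  · intro hxy i hi
    have := congrFun hxy i
    simp only [ltblkb_key, hi, if_true] at this ⊢
    exact this

private lemma ltblkb_card {h : ℕ} (j0 j : ℕ) (hj : j0 ≤ j) (hjh : j ≤ h) (z0 : Lf h) :
    ((Finset.univ.filter fun x : Lf h => agr j0 x z0).image (ltblkb_key j)).card
      ≤ 2 ^ (j - j0) := by
  have hc : (2 : ℕ) ^ (j - j0) = (Finset.univ : Finset (Fin (j - j0) → Bool)).card := by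
    simp
  rw [hc]
  apply Finset.card_le_card_of_injOn
    (fun (y : Lf h) (i : Fin (j - j0)) => y ⟨j0 + i.val, by omega⟩) (fun _ _ => Finset.mem_univ _)
  intro y hy y' hy' heq
  simp only [Finset.coe_image, Finset.coe_filter, Finset.mem_univ, true_and, Set.mem_image,
    Set.mem_setOf_eq] at hy hy'
  obtain ⟨x, hx, rfl⟩ := hy
  obtain ⟨x', hx', rfl⟩ := hy'
  funext i
  by_cases hi : i.val < j
  · by_cases hi0 : i.val < j0
    · simp only [ltblkb_key, hi, if_true]
      rw [hx i hi0, hx' i hi0]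
    · have := congrFun heq ⟨i.val - j0, by omega⟩
      have e : (⟨j0 + (i.val - j0), by omega⟩ : Fin h) = i := by
        apply Fin.ext
        simp
        omega
      simp only [e] at this
      exact this
  · simp [ltblkb_key, hi]

private lemma ltblkb_one {Θ : Type} [Fintype Θ] [DecidableEq Θ] (D d E h w : ℕ) (hD : 1 ≤ D)
    (S : Finset (Lf h × Fin w)) (typ : Lf h × Fin w → Lf h × Fin w → Θ)
    (j0 j : ℕ) (hj0 : j0 ≤ j) (hjh : j ≤ h) (z0 : Lf h) (hz : ∀ z ∈ S, agr j0 z.1 z0)
    (hS : 2 ^ (h - j0) * w ≤ D * S.card)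
    (hA : ∀ y : Lf h, 2 ^ (h - j) * w ≤ 4 * D * (S.filter fun z => agr j z.1 y).card →
      4 * (S.filter fun z => agr j z.1 y ∧ ∀ τ, ¬ Bal S typ E j d τ z).card ≤
        (S.filter fun z => agr j z.1 y).card) :
    S.card ≤ 2 * (S.filter fun z => ∃ τ, Bal S typ E j d τ z).card := by
  classical
  set K := (Finset.univ.filter fun x : Lf h => agr j0 x z0).image (ltblkb_key j) with hK
  have hKc := ltblkb_card j0 j hj0 hjh z0
  rw [← hK] at hKc
  have hmap : ∀ z ∈ S, ltblkb_key j z.1 ∈ K := by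
    intro z hzS
    rw [hK]
    exact Finset.mem_image_of_mem _ (Finset.mem_filter.2 ⟨Finset.mem_univ _, hz z hzS⟩)
  have hKk : ∀ y ∈ K, ltblkb_key j y = y := by
    intro y hy
    rw [hK] at hy
    obtain ⟨x, -, rfl⟩ := Finset.mem_image.1 hy
    funext i
    unfold ltblkb_key
    by_cases hi : i.val < j <;> simp [hi]
  have hagr : ∀ y ∈ K, ∀ x : Lf h, agr j x y ↔ ltblkb_key j x = y := by
    intro y hy x
    have := ltblkb_key_iff j x y
    rw [hKk y hy] at this
    exact this
  have h1 : S.card = ∑ y ∈ K, (S.filter fun z => agr j z.1 y).card := by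
    rw [Finset.card_eq_sum_card_fiberwise hmap]
    refine Finset.sum_congr rfl fun y hy => ?_
    congr 1
    refine Finset.filter_congr fun z _ => ?_
    exact (hagr y hy z.1).symm
  have h2 : (S.filter fun z => ∀ τ, ¬ Bal S typ E j d τ z).card
      = ∑ y ∈ K, (S.filter fun z => agr j z.1 y ∧ ∀ τ, ¬ Bal S typ E j d τ z).card := by
    have hmap' : ∀ z ∈ (S.filter fun z => ∀ τ, ¬ Bal S typ E j d τ z), ltblkb_key j z.1 ∈ K :=
      fun z hz' => hmap z (Finset.mem_filter.1 hz').1
    rw [Finset.card_eq_sum_card_fiberwise hmap']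
    refine Finset.sum_congr rfl fun y hy => ?_
    congr 1
    rw [Finset.filter_filter]
    refine Finset.filter_congr fun z _ => ?_
    rw [hagr y hy z.1]
    exact and_comm
  have h3 : S.card = (S.filter fun z => ∃ τ, Bal S typ E j d τ z).card
      + (S.filter fun z => ∀ τ, ¬ Bal S typ E j d τ z).card := by
    rw [← Finset.card_filter_add_card_filter_not (s := S) (p := fun z => ∃ τ, Bal S typ E j d τ z)]
    congr 2
    refine Finset.filter_congr fun z _ => ?_
    exact not_exists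
  have h4 : ∀ y ∈ K, 16 * D * (S.filter fun z => agr j z.1 y ∧ ∀ τ, ¬ Bal S typ E j d τ z).card
      ≤ 4 * D * (S.filter fun z => agr j z.1 y).card + 4 * (2 ^ (h - j) * w) := by
    intro y _
    have hle : (S.filter fun z => agr j z.1 y ∧ ∀ τ, ¬ Bal S typ E j d τ z).card
        ≤ (S.filter fun z => agr j z.1 y).card := by
      apply Finset.card_le_card
      intro z hz'
      rw [Finset.mem_filter] at hz' ⊢
      exact ⟨hz'.1, hz'.2.1⟩
    by_cases hdense : 2 ^ (h - j) * w ≤ 4 * D * (S.filter fun z => agr j z.1 y).card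
    · have := hA y hdense
      calc 16 * D * (S.filter fun z => agr j z.1 y ∧ ∀ τ, ¬ Bal S typ E j d τ z).card
          = 4 * D * (4 * (S.filter fun z => agr j z.1 y ∧ ∀ τ, ¬ Bal S typ E j d τ z).card) := by
            ring
        _ ≤ 4 * D * (S.filter fun z => agr j z.1 y).card := Nat.mul_le_mul_left _ this
        _ ≤ _ := Nat.le_add_right _ _
    · push_neg at hdense
      calc 16 * D * (S.filter fun z => agr j z.1 y ∧ ∀ τ, ¬ Bal S typ E j d τ z).card
          ≤ 16 * D * (S.filter fun z => agr j z.1 y).card := Nat.mul_le_mul_left _ hle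
        _ = 4 * (4 * D * (S.filter fun z => agr j z.1 y).card) := by ring
        _ ≤ 4 * (2 ^ (h - j) * w) := Nat.mul_le_mul_left _ hdense.le
        _ ≤ _ := Nat.le_add_left _ _
  have h5 := Finset.sum_le_sum h4
  rw [← Finset.mul_sum, ← h2, Finset.sum_add_distrib, ← Finset.mul_sum, ← h1, Finset.sum_const,
    smul_eq_mul] at h5
  have h6 : K.card * (4 * (2 ^ (h - j) * w)) ≤ 4 * (D * S.card) := by
    calc K.card * (4 * (2 ^ (h - j) * w)) ≤ 2 ^ (j - j0) * (4 * (2 ^ (h - j) * w)) :=
          Nat.mul_le_mul_right _ hKc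
      _ = 4 * ((2 ^ (j - j0) * 2 ^ (h - j)) * w) := by ring
      _ = 4 * (2 ^ (h - j0) * w) := by
          rw [← pow_add]
          congr 3
          omega
      _ ≤ _ := Nat.mul_le_mul_left _ hS
  have h7 : 16 * D * (S.filter fun z => ∀ τ, ¬ Bal S typ E j d τ z).card ≤ 8 * (D * S.card) := by
    calc _ ≤ _ := h5
      _ ≤ 4 * D * S.card + 4 * (D * S.card) := Nat.add_le_add_left h6 _
      _ = _ := by ring
  have h8 : 2 * (S.filter fun z => ∀ τ, ¬ Bal S typ E j d τ z).card ≤ S.card := by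
    have h9 : (8 * D) * (2 * (S.filter fun z => ∀ τ, ¬ Bal S typ E j d τ z).card)
        ≤ (8 * D) * S.card := by
      calc _ = 16 * D * (S.filter fun z => ∀ τ, ¬ Bal S typ E j d τ z).card := by ring
        _ ≤ 8 * (D * S.card) := h7
        _ = _ := by ring
    exact Nat.le_of_mul_le_mul_left h9 (by omega)
  omega

/-- C2: all blocks -/
theorem lt_blockB {Θ : Type} [Fintype Θ] [DecidableEq Θ] (rev : Θ → Θ) (D : ℕ) (hD : 1 ≤ D) :
    ∃ d E : ℕ, 1 ≤ d ∧ 1 ≤ E ∧ ∀ (h w : ℕ) (S : Finset (Lf h × Fin w))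
      (typ : Lf h × Fin w → Lf h × Fin w → Θ)
      (_ : ∀ x ∈ S, ∀ y ∈ S, x ≠ y → typ y x = rev (typ x y)) (j0 B : ℕ) (_ : j0 + B * d ≤ h)
      (z0 : Lf h) (_ : ∀ z ∈ S, agr j0 z.1 z0) (_ : 2 ^ (h - j0) * w ≤ D * S.card),
      B * S.card ≤ 2 * ∑ b ∈ Finset.range B,
        (S.filter fun z => ∃ τ, Bal S typ E (j0 + b * d) d τ z).card := by
  obtain ⟨d, E, hd, hE, hA⟩ := lt_blockA rev (4 * D) (by omega)
  refine ⟨d, E, hd, hE, ?_⟩
  intro h w S typ hsym j0 B hB z0 hz hS
  rw [Finset.mul_sum]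
  have hb : ∀ b ∈ Finset.range B, S.card ≤
      2 * (S.filter fun z => ∃ τ, Bal S typ E (j0 + b * d) d τ z).card := by
    intro b hb
    have hbB : b + 1 ≤ B := Finset.mem_range.1 hb
    have hle : b * d + d ≤ B * d := by
      calc b * d + d = (b + 1) * d := by ring
        _ ≤ B * d := Nat.mul_le_mul_right _ hbB
    apply ltblkb_one D d E h w hD S typ j0 (j0 + b * d) (by omega) (by omega) z0 hz hS
    intro y hy
    exact hA h w S typ hsym (j0 + b * d) (by omega) y hy
  have := Finset.sum_le_sum hb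
  simpa using this

end Pool.Agent.MP_6216ea_lc
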