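import Mathlib
import Pool.Agent.Lib.MP_6216ea_lc.LTDefs

set_option autoImplicit false

namespace Pool.Agent.MP_6216ea_lc

lemma ltext_card {h : ℕ} (j : ℕ) (hj : j < h) (z : Lf h) :
    (Finset.univ.filter fun X : Lf h => brn j X z).card ≤ 2 ^ (h - j - 1) := by
  classical
  have key : (Finset.univ.filter fun X : Lf h => brn j X z).card
      ≤ (Finset.univ : Finset (Fin (h - j - 1) → Bool)).card := by
    apply Finset.card_le_card_of_injOn
      (fun X (i : Fin (h - j - 1)) => X ⟨j + 1 + i.val, by have := i.2; omega⟩)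
    · intro X _; exact Finset.mem_coe.2 (Finset.mem_univ _)
    · intro X hX Y hY hXY
      rw [Finset.mem_coe, Finset.mem_filter] at hX hY
      have hx := hX.2
      have hy := hY.2
      have hne : ∀ X : Lf h, brn j X z → X ⟨j, hj⟩ ≠ z ⟨j, hj⟩ := by
        intro X hX he
        apply hX.2
        intro i hi
        rcases Nat.lt_succ_iff_lt_or_eq.1 hi with h1 | h1
        · exact hX.1 i h1
        · have hi' : i = ⟨j, hj⟩ := Fin.ext h1
          rw [hi']; exact he
      funext i
      rcases lt_trichotomy i.val j with h1 | h1 | h1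
      · rw [hx.1 i h1, hy.1 i h1]
      · have hi : i = ⟨j, hj⟩ := Fin.ext h1
        rw [hi]
        have h2 := hne X hx
        have h3 := hne Y hy
        revert h2 h3
        cases X ⟨j, hj⟩ <;> cases Y ⟨j, hj⟩ <;> cases z ⟨j, hj⟩ <;> simp
      · have h2 := congrFun hXY ⟨i.val - (j + 1), by have := i.2; omega⟩
        have h3 : (⟨j + 1 + (i.val - (j + 1)), by have := i.2; omega⟩ : Fin h) = i :=
          Fin.ext (by simp only []; omega)
        simp only [h3] at h2
        exact h2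
  simpa using key

lemma ltext_pigeon {h w : ℕ} (S' : Finset (Lf h × Fin w)) (E j : ℕ) (hj : j < h) (hw : 1 ≤ w)
    (z : Lf h) (hS' : ∀ x ∈ S', brn j x.1 z) (hE : 2 ^ (h - j - 1) * w ≤ E * S'.card) :
    ∃ X, brn j X z ∧ w ≤ E * (Finset.univ.filter fun t => (X, t) ∈ S').card := by
  classical
  by_contra hcon
  push Not at hcon
  set T := Finset.univ.filter fun X : Lf h => brn j X z with hT
  have h1 : S'.card = ∑ X ∈ T, (S'.filter fun x => x.1 = X).card :=
    Finset.card_eq_sum_card_fiberwise (fun x hx =>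
      Finset.mem_coe.2 (Finset.mem_filter.2 ⟨Finset.mem_univ _, hS' x hx⟩))
  have h2 : ∀ X : Lf h, (S'.filter fun x => x.1 = X).card
      ≤ (Finset.univ.filter fun t => (X, t) ∈ S').card := by
    intro X
    apply Finset.card_le_card_of_injOn (fun x => x.2)
    · intro x hx
      rw [Finset.mem_coe, Finset.mem_filter] at hx
      rw [Finset.mem_coe, Finset.mem_filter]
      refine ⟨Finset.mem_univ _, ?_⟩
      rw [← hx.2]; exact hx.1
    · intro x hx y hy hxy
      rw [Finset.mem_coe, Finset.mem_filter] at hx hy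
      exact Prod.ext (hx.2.trans hy.2.symm) hxy
  rcases T.eq_empty_or_nonempty with hT0 | hTn
  · rw [hT0, Finset.sum_empty] at h1
    rw [h1, mul_zero] at hE
    have : 0 < 2 ^ (h - j - 1) * w := by positivity
    omega
  · have h3 : E * S'.card < T.card * w := by
      rw [h1, Finset.mul_sum]
      calc ∑ X ∈ T, E * (S'.filter fun x => x.1 = X).card < ∑ X ∈ T, w := by
            apply Finset.sum_lt_sum_of_nonempty hTn
            intro X hX
            exact lt_of_le_of_lt (Nat.mul_le_mul_left _ (h2 X))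
              (hcon X (Finset.mem_filter.1 hX).2)
        _ = T.card * w := by rw [Finset.sum_const, smul_eq_mul]
    have h4 : T.card * w ≤ 2 ^ (h - j - 1) * w := Nat.mul_le_mul_right _ (ltext_card j hj z)
    omega

/-- C3 -/
theorem lt_extract {h w : ℕ} {Θ : Type} [DecidableEq Θ] (S : Finset (Lf h × Fin w))
    (typ : Lf h × Fin w → Lf h × Fin w → Θ) (E d j0 B m : ℕ) (hd : 1 ≤ d) (hw : 1 ≤ w)
    (hB : j0 + B * d ≤ h) (τ : Θ) (z : Lf h × Fin w) (bs : Finset ℕ)
    (hbs : ∀ b ∈ bs, b < B ∧ Bal S typ E (j0 + b * d) d τ z) (hm : m ≤ bs.card) :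
    ∃ (lev : ℕ → ℕ) (X Y : ℕ → Lf h), Monotone lev ∧ (∀ i, lev i ≤ h) ∧ ∀ i < m,
      (agr (lev i) (X i) z.1 ∧ ¬ agr (lev (i + 1)) (X i) z.1) ∧
      (agr (lev i) (Y i) z.1 ∧ ¬ agr (lev (i + 1)) (Y i) z.1) ∧
      w ≤ E * (Finset.univ.filter fun t => (X i, t) ∈ S ∧ typ (X i, t) z = τ).card ∧
      w ≤ E * (Finset.univ.filter fun t => (Y i, t) ∈ S ∧ typ z (Y i, t) = τ).card := by
  classical
  have _ := hd
  set e := bs.orderEmbOfFin rfl with he
  have hemem : ∀ i, e i ∈ bs := fun i => Finset.orderEmbOfFin_mem bs rfl i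
  let lev : ℕ → ℕ := fun i => if hi : i < bs.card then j0 + e ⟨i, hi⟩ * d else h
  have hle : ∀ b < B, j0 + (b + 1) * d ≤ h := fun b hb =>
    le_trans (Nat.add_le_add_left (Nat.mul_le_mul_right _ hb) _) hB
  have hlevh : ∀ i, lev i ≤ h := by
    intro i
    simp only [lev]
    split_ifs with hi
    · have := hle _ (hbs _ (hemem ⟨i, hi⟩)).1
      refine le_trans (Nat.add_le_add_left (Nat.mul_le_mul_right _ (Nat.le_succ _)) _) this
    · exact le_rfl
  have hmono : Monotone lev := by
    intro i i' hii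
    by_cases hi' : i' < bs.card
    · have hi : i < bs.card := lt_of_le_of_lt hii hi'
      simp only [lev, dif_pos hi, dif_pos hi']
      have : e ⟨i, hi⟩ ≤ e ⟨i', hi'⟩ := e.monotone (by exact hii)
      exact Nat.add_le_add_left (Nat.mul_le_mul_right _ this) _
    · have h1 : lev i' = h := by simp only [lev, dif_neg hi']
      rw [h1]
      exact hlevh i
  have hstep : ∀ i (hi : i < bs.card), j0 + e ⟨i, hi⟩ * d + d ≤ lev (i + 1) := by
    intro i hi
    by_cases hi' : i + 1 < bs.card
    · simp only [lev, dif_pos hi']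
      have : e ⟨i, hi⟩ < e ⟨i + 1, hi'⟩ := e.strictMono (by
        show i < i + 1
        exact Nat.lt_succ_self i)
      calc j0 + e ⟨i, hi⟩ * d + d = j0 + (e ⟨i, hi⟩ + 1) * d := by ring
        _ ≤ _ := Nat.add_le_add_left (Nat.mul_le_mul_right _ this) _
    · simp only [lev, dif_neg hi']
      calc j0 + e ⟨i, hi⟩ * d + d = j0 + (e ⟨i, hi⟩ + 1) * d := by ring
        _ ≤ h := hle _ (hbs _ (hemem ⟨i, hi⟩)).1
  have hX : ∀ i : ℕ, ∃ X : Lf h, i < bs.card →
      (agr (lev i) X z.1 ∧ ¬ agr (lev (i + 1)) X z.1) ∧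
      w ≤ E * (Finset.univ.filter fun t => (X, t) ∈ S ∧ typ (X, t) z = τ).card := by
    intro i
    by_cases hi : i < bs.card
    · obtain ⟨j, hj, hjE⟩ := (hbs _ (hemem ⟨i, hi⟩)).2.1
      rw [Finset.mem_Ico] at hj
      have hs := hstep i hi
      have hjh : j < h := lt_of_lt_of_le hj.2 (le_trans hs (hlevh _))
      obtain ⟨X, hX1, hX2⟩ := ltext_pigeon
        (S.filter fun x => brn j x.1 z.1 ∧ typ x z = τ) E j hjh hw z.1
        (fun x hx => (Finset.mem_filter.1 hx).2.1) hjE
      refine ⟨X, fun _ => ⟨⟨?_, ?_⟩, ?_⟩⟩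
      · intro i' hi'
        refine hX1.1 i' (lt_of_lt_of_le hi' ?_)
        simp only [lev, dif_pos hi]
        exact hj.1
      · intro hcon
        apply hX1.2
        intro i' hi'
        exact hcon i' (lt_of_lt_of_le hi' (le_trans hj.2 hs))
      · refine le_trans hX2 (Nat.mul_le_mul_left _ (Finset.card_le_card ?_))
        intro t ht
        rw [Finset.mem_filter] at ht ⊢
        have h1 := (Finset.mem_filter.1 ht.2)
        exact ⟨ht.1, h1.1, h1.2.2⟩
    · exact ⟨z.1, fun h' => absurd h' hi⟩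
  have hY : ∀ i : ℕ, ∃ X : Lf h, i < bs.card →
      (agr (lev i) X z.1 ∧ ¬ agr (lev (i + 1)) X z.1) ∧
      w ≤ E * (Finset.univ.filter fun t => (X, t) ∈ S ∧ typ z (X, t) = τ).card := by
    intro i
    by_cases hi : i < bs.card
    · obtain ⟨j, hj, hjE⟩ := (hbs _ (hemem ⟨i, hi⟩)).2.2
      rw [Finset.mem_Ico] at hj
      have hs := hstep i hi
      have hjh : j < h := lt_of_lt_of_le hj.2 (le_trans hs (hlevh _))
      obtain ⟨X, hX1, hX2⟩ := ltext_pigeon
        (S.filter fun x => brn j x.1 z.1 ∧ typ z x = τ) E j hjh hw z.1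
        (fun x hx => (Finset.mem_filter.1 hx).2.1) hjE
      refine ⟨X, fun _ => ⟨⟨?_, ?_⟩, ?_⟩⟩
      · intro i' hi'
        refine hX1.1 i' (lt_of_lt_of_le hi' ?_)
        simp only [lev, dif_pos hi]
        exact hj.1
      · intro hcon
        apply hX1.2
        intro i' hi'
        exact hcon i' (lt_of_lt_of_le hi' (le_trans hj.2 hs))
      · refine le_trans hX2 (Nat.mul_le_mul_left _ (Finset.card_le_card ?_))
        intro t ht
        rw [Finset.mem_filter] at ht ⊢
        have h1 := (Finset.mem_filter.1 ht.2)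
        exact ⟨ht.1, h1.1, h1.2.2⟩
    · exact ⟨z.1, fun h' => absurd h' hi⟩
  choose X hX using hX
  choose Y hY using hY
  refine ⟨lev, X, Y, hmono, hlevh, fun i hi => ?_⟩
  have hi' : i < bs.card := lt_of_lt_of_le hi hm
  exact ⟨(hX i hi').1, (hY i hi').1, (hX i hi').2, (hY i hi').2⟩

end Pool.Agent.MP_6216ea_lc
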