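import Mathlib
import Pool.Agent.Lib.MP_6216ea_lc.LTDefs

/-! A new reference letter. -/

set_option autoImplicit false

namespace Pool.Agent.MP_6216ea_lc

/-- The letters of a leaf as a function on `ℕ`. -/
def ltref_ext {h : ℕ} (x : Lf h) (i : ℕ) : Bool := if hi : i < h then x ⟨i, hi⟩ else false

theorem ltref_ext_eq {h : ℕ} (x : Lf h) (i : Fin h) : ltref_ext x i.val = x i := by
  unfold ltref_ext
  rw [dif_pos i.isLt]

theorem ltref_pigeon {α β : Type} [DecidableEq β] (s : Finset α) (t : Finset β) (f : α → β)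
    (hf : ∀ a ∈ s, f a ∈ t) (hs : s.Nonempty) :
    ∃ b ∈ t, s.card ≤ t.card * (s.filter fun a => f a = b).card := by
  obtain ⟨a0, ha0⟩ := hs
  have ht : t.Nonempty := ⟨f a0, hf a0 ha0⟩
  refine Finset.exists_le_of_sum_le ht ?_
  rw [Finset.sum_const, smul_eq_mul, ← Finset.mul_sum]
  exact Nat.mul_le_mul_left _ (Finset.card_eq_sum_card_fiberwise hf).le

/-- Number of leaves which branch off at level `j`, with the positions. -/
theorem ltref_sibling {h w : ℕ} (j : ℕ) (z1 : Lf h) (hj : j < h) :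
    (Finset.univ.filter fun u : Lf h × Fin w => agr j u.1 z1 ∧ ¬ agr (j + 1) u.1 z1).card ≤
      2 ^ (h - j - 1) * w := by
  have hcard : 2 ^ (h - j - 1) * w =
      (Finset.univ : Finset ((Fin (h - j - 1) → Bool) × Fin w)).card := by
    simp
  rw [hcard]
  refine Finset.card_le_card_of_injOn
    (fun u => (fun k : Fin (h - j - 1) => ltref_ext u.1 (j + 1 + k.val), u.2)) ?_ ?_
  · intro u _
    exact Finset.mem_coe.2 (Finset.mem_univ _)
  · intro u hu v hv huv
    simp only [Finset.coe_filter, Finset.mem_univ, true_and, Set.mem_ofPred_eq] at hu hv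
    obtain ⟨hu1, hu2⟩ := hu
    obtain ⟨hv1, hv2⟩ := hv
    have e2 : u.2 = v.2 := (Prod.mk.inj huv).2
    have e1 := (Prod.mk.inj huv).1
    have key : ∀ y : Lf h, agr j y z1 → ¬ agr (j + 1) y z1 → y ⟨j, hj⟩ ≠ z1 ⟨j, hj⟩ := by
      intro y h1 h2 h3
      apply h2
      intro i hi
      rcases Nat.lt_succ_iff_lt_or_eq.1 hi with h4 | h4
      · exact h1 i h4
      · have : i = ⟨j, hj⟩ := Fin.ext h4
        rw [this]; exact h3
    have hk1 := key u.1 hu1 hu2
    have hk2 := key v.1 hv1 hv2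
    refine Prod.ext ?_ e2
    funext i
    rcases lt_trichotomy i.val j with hlt | heq | hgt
    · rw [hu1 i hlt, hv1 i hlt]
    · have : i = ⟨j, hj⟩ := Fin.ext heq
      rw [this]
      cases h1 : u.1 ⟨j, hj⟩ <;> cases h2 : v.1 ⟨j, hj⟩ <;> cases h3 : z1 ⟨j, hj⟩ <;> simp_all
    · have hi := i.isLt
      have := congrFun e1 ⟨i.val - (j + 1), by omega⟩
      simp only at this
      have h5 : j + 1 + (i.val - (j + 1)) = i.val := by omega
      rw [h5, ltref_ext_eq, ltref_ext_eq] at this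
      exact this

/-- C4: a new reference letter -/
theorem lt_newref {h w : ℕ} {Θ : Type} [Fintype Θ] [DecidableEq Θ] (S : Finset (Lf h × Fin w))
    (typ : Lf h × Fin w → Lf h × Fin w → Θ) (D E d j0 j1 : ℕ) (hd : 1 ≤ d) (hw : 1 ≤ w)
    (hE : 1 ≤ E) (hj0 : j0 ≤ j1) (hj1 : j1 + d ≤ h) (z0 : Lf h)
    (hS : ∀ z ∈ S, agr j0 z.1 z0) (hD : 2 ^ (h - j0) * w ≤ D * S.card) (hSpos : 1 ≤ S.card)
    (R : Finset Θ)
    (hR : S.card ≤ 4 * (S.filter fun z => ∃ τ ∉ R, Bal S typ E j1 d τ z).card) :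
    ∃ τ ∉ R, ∃ j < j1 + d, j0 ≤ j ∧ ∃ u ∈ S, ∃ z1 : Lf h, agr j0 z1 z0 ∧
      ¬ agr (j + 1) u.1 z1 ∧
      2 ^ (h - (j + 1)) * w ≤ (4 * D * Fintype.card Θ * d * E) *
        (S.filter fun z => agr (j + 1) z.1 z1 ∧ typ u z = τ).card := by
  classical
  obtain ⟨F, hF⟩ : ∃ F, F = S.filter fun z => ∃ τ ∉ R, Bal S typ E j1 d τ z := ⟨_, rfl⟩
  rw [← hF] at hR
  have hFS : ∀ z ∈ F, z ∈ S := by
    intro z hz
    rw [hF] at hz
    exact (Finset.mem_filter.1 hz).1
  have hFne : F.Nonempty := by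
    rw [Finset.nonempty_iff_ne_empty]
    rintro rfl
    rw [Finset.card_empty] at hR
    omega
  -- choice of the type and the level
  have hch : ∀ z : Lf h × Fin w, ∃ p : Θ × ℕ, z ∈ F → p.1 ∉ R ∧ p.2 ∈ Finset.Ico j1 (j1 + d) ∧
      2 ^ (h - p.2 - 1) * w ≤ E * inm S typ p.1 p.2 z := by
    intro z
    by_cases hz : z ∈ F
    · have hz' := hz
      rw [hF] at hz'
      obtain ⟨_, τ, hτ, ⟨j, hj, hin⟩, _⟩ := Finset.mem_filter.1 hz'
      exact ⟨(τ, j), fun _ => ⟨hτ, hj, hin⟩⟩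
    · have : z ∈ F ∨ z ∉ F := Or.inr hz
      obtain ⟨z', hz'⟩ := hFne
      rw [hF] at hz'
      obtain ⟨_, τ, _⟩ := Finset.mem_filter.1 hz'
      exact ⟨(τ, 0), fun h => absurd h hz⟩
  choose p hp using hch
  obtain ⟨⟨τ, j⟩, hτj, hpig⟩ := ltref_pigeon F
    ((Finset.univ : Finset Θ) ×ˢ Finset.Ico j1 (j1 + d)) p
    (fun z hz => Finset.mem_product.2 ⟨Finset.mem_univ _, (hp z hz).2.1⟩) hFne
  have hj : j ∈ Finset.Ico j1 (j1 + d) := (Finset.mem_product.1 hτj).2
  rw [Finset.mem_Ico] at hj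
  have hcardp : ((Finset.univ : Finset Θ) ×ˢ Finset.Ico j1 (j1 + d)).card =
      Fintype.card Θ * d := by
    rw [Finset.card_product, Finset.card_univ, Nat.card_Ico, Nat.add_sub_cancel_left]
  rw [hcardp] at hpig
  obtain ⟨F1, hF1⟩ : ∃ F1, F1 = F.filter fun z => p z = (τ, j) := ⟨_, rfl⟩
  rw [← hF1] at hpig
  have hF1F : ∀ z ∈ F1, z ∈ F ∧ p z = (τ, j) := by
    intro z hz
    rw [hF1] at hz
    exact Finset.mem_filter.1 hz
  have hF1ne : F1.Nonempty := by
    rw [Finset.nonempty_iff_ne_empty]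
    rintro rfl
    rw [Finset.card_empty, mul_zero] at hpig
    have := Finset.card_pos.2 hFne
    omega
  -- cylinders
  obtain ⟨c, hc, hpig2⟩ := ltref_pigeon F1
    (Finset.univ : Finset (Fin (j + 1 - j0) → Bool))
    (fun z => fun k : Fin (j + 1 - j0) => ltref_ext z.1 (j0 + k.val))
    (fun z _ => Finset.mem_univ _) hF1ne
  have hcard2 : (Finset.univ : Finset (Fin (j + 1 - j0) → Bool)).card = 2 ^ (j + 1 - j0) := by
    simp
  rw [hcard2] at hpig2
  obtain ⟨A, hA⟩ : ∃ A, A = F1.filter fun z =>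
    (fun k : Fin (j + 1 - j0) => ltref_ext z.1 (j0 + k.val)) = c := ⟨_, rfl⟩
  rw [← hA] at hpig2
  have hAF : ∀ z ∈ A, z ∈ F1 ∧ (fun k : Fin (j + 1 - j0) => ltref_ext z.1 (j0 + k.val)) = c := by
    intro z hz
    rw [hA] at hz
    exact Finset.mem_filter.1 hz
  have hAne : A.Nonempty := by
    rw [Finset.nonempty_iff_ne_empty]
    rintro rfl
    rw [Finset.card_empty, mul_zero] at hpig2
    have := Finset.card_pos.2 hF1ne
    omega
  obtain ⟨y1, hy1⟩ := hAne
  have hAS : ∀ z ∈ A, z ∈ S := fun z hz => hFS z (hF1F z (hAF z hz).1).1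
  have hagr : ∀ z ∈ A, agr (j + 1) z.1 y1.1 := by
    intro z hz i hi
    rcases lt_or_ge i.val j0 with h1 | h1
    · rw [hS z (hAS z hz) i h1, hS y1 (hAS y1 hy1) i h1]
    · have e1 := congrFun ((hAF z hz).2.trans (hAF y1 hy1).2.symm) ⟨i.val - j0, by omega⟩
      simp only at e1
      have h5 : j0 + (i.val - j0) = i.val := by omega
      rw [h5, ltref_ext_eq, ltref_ext_eq] at e1
      exact e1
  have hin : ∀ z ∈ A, 2 ^ (h - j - 1) * w ≤ E * inm S typ τ j z := by
    intro z hz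
    have h1 := hF1F z (hAF z hz).1
    have h2 := (hp z h1.1).2.2
    rw [h1.2] at h2
    exact h2
  have hτR : τ ∉ R := by
    have h1 := hF1F y1 (hAF y1 hy1).1
    have h2 := (hp y1 h1.1).1
    rw [h1.2] at h2
    exact h2
  -- the sibling positions
  obtain ⟨B, hB⟩ : ∃ B, B = S.filter fun u : Lf h × Fin w =>
    agr j u.1 y1.1 ∧ ¬ agr (j + 1) u.1 y1.1 := ⟨_, rfl⟩
  have hBcard : B.card ≤ 2 ^ (h - j - 1) * w := by
    refine le_trans (Finset.card_le_card ?_) (ltref_sibling (w := w) j y1.1 (by omega))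
    intro u hu
    rw [hB] at hu
    exact Finset.mem_filter.2 ⟨Finset.mem_univ _, (Finset.mem_filter.1 hu).2⟩
  have hbrB : ∀ z ∈ A, ∀ u ∈ S, brn j u.1 z.1 → u ∈ B := by
    intro z hz u hu hbr
    rw [hB]
    refine Finset.mem_filter.2 ⟨hu, ?_, ?_⟩
    · intro i hi
      rw [hbr.1 i hi, hagr z hz i (by omega)]
    · intro hcon
      apply hbr.2
      intro i hi
      rw [hcon i hi, hagr z hz i hi]
  have hBne : B.Nonempty := by
    have h1 := hin y1 hy1
    have h2 : 1 ≤ 2 ^ (h - j - 1) * w := Nat.mul_pos (by positivity) hw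
    have h3 : inm S typ τ j y1 ≠ 0 := by
      intro h0
      rw [h0, mul_zero] at h1
      omega
    unfold inm at h3
    obtain ⟨u, hu⟩ := Finset.card_ne_zero.1 h3
    obtain ⟨hu1, hu2, _⟩ := Finset.mem_filter.1 hu
    exact ⟨u, hbrB y1 hy1 u hu1 hu2⟩
  have hdc : A.card * (2 ^ (h - j - 1) * w) ≤
      ∑ u ∈ B, E * (A.filter fun z => typ u z = τ).card := by
    calc A.card * (2 ^ (h - j - 1) * w) = ∑ _z ∈ A, 2 ^ (h - j - 1) * w := by
          rw [Finset.sum_const, smul_eq_mul]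
      _ ≤ ∑ z ∈ A, E * (B.filter fun u => typ u z = τ).card := by
          refine Finset.sum_le_sum fun z hz => (hin z hz).trans ?_
          refine Nat.mul_le_mul_left _ ?_
          unfold inm
          apply Finset.card_le_card
          intro u hu
          obtain ⟨hu1, hu2, hu3⟩ := Finset.mem_filter.1 hu
          exact Finset.mem_filter.2 ⟨hbrB z hz u hu1 hu2, hu3⟩
      _ = ∑ u ∈ B, E * (A.filter fun z => typ u z = τ).card := by
          rw [← Finset.mul_sum, ← Finset.mul_sum]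
          congr 1
          simp only [Finset.card_filter]
          exact Finset.sum_comm
  obtain ⟨u, huB, hu⟩ : ∃ u ∈ B, A.card ≤ E * (A.filter fun z => typ u z = τ).card := by
    refine Finset.exists_le_of_sum_le hBne ?_
    rw [Finset.sum_const, smul_eq_mul]
    refine le_trans ?_ hdc
    rw [mul_comm]
    exact Nat.mul_le_mul_left _ hBcard
  have huB' := huB
  rw [hB] at huB'
  obtain ⟨huS, hu1, hu2⟩ := Finset.mem_filter.1 huB'
  refine ⟨τ, hτR, j, hj.2, by omega, u, huS, y1.1, hS y1 (hAS y1 hy1), hu2, ?_⟩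
  obtain ⟨Z, hZ⟩ : ∃ Z, Z = (S.filter fun z => agr (j + 1) z.1 y1.1 ∧ typ u z = τ).card :=
    ⟨_, rfl⟩
  rw [← hZ]
  have hAZ : A.card ≤ E * Z := by
    refine hu.trans (Nat.mul_le_mul_left _ ?_)
    rw [hZ]
    apply Finset.card_le_card
    intro z hz
    obtain ⟨hz1, hz2⟩ := Finset.mem_filter.1 hz
    exact Finset.mem_filter.2 ⟨hAS z hz1, hagr z hz1, hz2⟩
  have hpow : 2 ^ (h - j0) = 2 ^ (j + 1 - j0) * 2 ^ (h - (j + 1)) := by
    rw [← pow_add]
    congr 1
    omega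
  have hfin : 2 ^ (j + 1 - j0) * (2 ^ (h - (j + 1)) * w) ≤
      2 ^ (j + 1 - j0) * ((4 * D * Fintype.card Θ * d * E) * Z) := by
    calc 2 ^ (j + 1 - j0) * (2 ^ (h - (j + 1)) * w) = 2 ^ (h - j0) * w := by
          rw [hpow]; ring
      _ ≤ D * S.card := hD
      _ ≤ D * (4 * (Fintype.card Θ * d * (2 ^ (j + 1 - j0) * (E * Z)))) := by
          refine Nat.mul_le_mul_left _ (hR.trans ?_)
          refine Nat.mul_le_mul_left _ (hpig.trans ?_)
          refine Nat.mul_le_mul_left _ (hpig2.trans ?_)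
          exact Nat.mul_le_mul_left _ hAZ
      _ = 2 ^ (j + 1 - j0) * ((4 * D * Fintype.card Θ * d * E) * Z) := by ring
  exact Nat.le_of_mul_le_mul_left hfin (by positivity)

end Pool.Agent.MP_6216ea_lc
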