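import Mathlib
import Pool.Agent.Lib.MP_6216ea_lc.LTBlkB
import Pool.Agent.Lib.MP_6216ea_lc.LTExt
import Pool.Agent.Lib.MP_6216ea_lc.LTRef

set_option autoImplicit false

namespace Pool.Agent.MP_6216ea_lc

theorem ltccl_mono {h w : ℕ} {Θ : Type} {G : Finset (Lf h × Fin w)}
    {typ : Lf h × Fin w → Lf h × Fin w → Θ} {D D' m : ℕ} (hD : D ≤ D')
    (H : CclOut G typ D m) : CclOut G typ D' m := by
  obtain ⟨u, z, τ, lev, X, Y, A, B, hu, hz, hl, hlh, H⟩ := H
  refine ⟨u, z, τ, lev, X, Y, A, B, hu, hz, hl, hlh, fun i hi => ?_⟩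
  obtain ⟨h1, h2, h3, h4, h5, h6⟩ := H i hi
  exact ⟨h1, h2, h3.trans (Nat.mul_le_mul_right _ hD), h4.trans (Nat.mul_le_mul_right _ hD),
    h5, h6⟩

theorem ltccl_dich {h w : ℕ} {Θ : Type} [Fintype Θ] [DecidableEq Θ] (S : Finset (Lf h × Fin w))
    (typ : Lf h × Fin w → Lf h × Fin w → Θ) (E d j0 B : ℕ) (hB : 1 ≤ B) (hS : 1 ≤ S.card)
    (R : Finset Θ)
    (hblk : B * S.card ≤ 2 * ∑ b ∈ Finset.range B,
        (S.filter fun z => ∃ τ, Bal S typ E (j0 + b * d) d τ z).card) :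
    (∃ z ∈ S, B ≤ 4 * ((Finset.range B).filter fun b =>
      ∃ τ ∈ R, Bal S typ E (j0 + b * d) d τ z).card) ∨
    (∃ b < B, S.card ≤ 4 * (S.filter fun z => ∃ τ ∉ R, Bal S typ E (j0 + b * d) d τ z).card) := by
  by_contra hcon
  push Not at hcon
  obtain ⟨h1, h2⟩ := hcon
  have e1 : ∑ b ∈ Finset.range B, (S.filter fun z => ∃ τ, Bal S typ E (j0 + b * d) d τ z).card ≤
      ∑ b ∈ Finset.range B, (S.filter fun z => ∃ τ ∈ R, Bal S typ E (j0 + b * d) d τ z).card +
      ∑ b ∈ Finset.range B, (S.filter fun z => ∃ τ ∉ R, Bal S typ E (j0 + b * d) d τ z).card := by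
    rw [← Finset.sum_add_distrib]
    refine Finset.sum_le_sum fun b _ => ?_
    refine (Finset.card_le_card ?_).trans (Finset.card_union_le _ _)
    intro z hz
    rw [Finset.mem_filter] at hz
    obtain ⟨hz, τ, hτ⟩ := hz
    rw [Finset.mem_union, Finset.mem_filter, Finset.mem_filter]
    by_cases hR : τ ∈ R
    · exact Or.inl ⟨hz, τ, hR, hτ⟩
    · exact Or.inr ⟨hz, τ, hR, hτ⟩
  have e2 : ∑ b ∈ Finset.range B, (S.filter fun z =>
      ∃ τ ∈ R, Bal S typ E (j0 + b * d) d τ z).card =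
      ∑ z ∈ S, ((Finset.range B).filter fun b =>
        ∃ τ ∈ R, Bal S typ E (j0 + b * d) d τ z).card := by
    simp only [Finset.card_filter]
    exact Finset.sum_comm
  have e3 : 4 * ∑ z ∈ S, ((Finset.range B).filter fun b =>
        ∃ τ ∈ R, Bal S typ E (j0 + b * d) d τ z).card ≤ S.card * (B - 1) := by
    rw [Finset.mul_sum, ← smul_eq_mul, ← Finset.sum_const]
    exact Finset.sum_le_sum fun z hz => by have := h1 z hz; omega
  have e4 : 4 * ∑ b ∈ Finset.range B, (S.filter fun z =>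
      ∃ τ ∉ R, Bal S typ E (j0 + b * d) d τ z).card ≤ B * (S.card - 1) := by
    have : B * (S.card - 1) = ∑ b ∈ Finset.range B, (S.card - 1) := by simp
    rw [Finset.mul_sum, this]
    exact Finset.sum_le_sum fun b hb => by have := h2 b (Finset.mem_range.1 hb); omega
  obtain ⟨B', rfl⟩ : ∃ B', B = B' + 1 := ⟨B - 1, by omega⟩
  obtain ⟨s, hs⟩ : ∃ s, S.card = s + 1 := ⟨S.card - 1, by omega⟩
  rw [hs] at hblk e3 e4
  simp only [Nat.add_sub_cancel] at e3 e4
  nlinarith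

theorem ltccl_case1 {h w : ℕ} {Θ : Type} [Fintype Θ] [DecidableEq Θ] [Nonempty Θ]
    (hw : 1 ≤ w) (G S : Finset (Lf h × Fin w)) (hSG : S ⊆ G)
    (typ : Lf h × Fin w → Lf h × Fin w → Θ) (E d j0 B m : ℕ) (hd : 1 ≤ d)
    (hB : j0 + B * d ≤ h) (R : Finset Θ)
    (href : ∀ τ ∈ R, ∃ u ∈ G, u ∉ S ∧ ∀ s ∈ S, typ u s = τ) (hm : 1 ≤ m)
    (hm4 : 4 * Fintype.card Θ * m ≤ B) (z : Lf h × Fin w) (hz : z ∈ S)
    (hzB : B ≤ 4 * ((Finset.range B).filter fun b =>
      ∃ τ ∈ R, Bal S typ E (j0 + b * d) d τ z).card) : CclOut G typ E m := by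
  classical
  have hex : ∃ τ ∈ R, m ≤ ((Finset.range B).filter fun b =>
      Bal S typ E (j0 + b * d) d τ z).card := by
    by_contra hcon
    push Not at hcon
    have e1 : ((Finset.range B).filter fun b =>
        ∃ τ ∈ R, Bal S typ E (j0 + b * d) d τ z).card ≤
        ∑ τ ∈ R, ((Finset.range B).filter fun b => Bal S typ E (j0 + b * d) d τ z).card := by
      refine (Finset.card_le_card ?_).trans Finset.card_biUnion_le
      intro b hb
      rw [Finset.mem_filter] at hb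
      obtain ⟨hb, τ, hτ, hbal⟩ := hb
      rw [Finset.mem_biUnion]
      exact ⟨τ, hτ, Finset.mem_filter.2 ⟨hb, hbal⟩⟩
    have e2 : ∑ τ ∈ R, ((Finset.range B).filter fun b =>
        Bal S typ E (j0 + b * d) d τ z).card ≤ Fintype.card Θ * (m - 1) := by
      refine (Finset.sum_le_sum fun τ hτ => Nat.le_sub_one_of_lt (hcon τ hτ)).trans ?_
      rw [Finset.sum_const, smul_eq_mul]
      exact Nat.mul_le_mul_right _ (Finset.card_le_univ R)
    have hΘ : 1 ≤ Fintype.card Θ := Fintype.card_pos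
    have hBle : B ≤ 4 * (Fintype.card Θ * (m - 1)) := hzB.trans
      (Nat.mul_le_mul_left 4 (e1.trans e2))
    obtain ⟨m', rfl⟩ : ∃ m', m = m' + 1 := ⟨m - 1, by omega⟩
    simp only [Nat.add_sub_cancel] at hBle
    nlinarith
  obtain ⟨τ, hτR, hτ⟩ := hex
  obtain ⟨u, huG, huS, hu⟩ := href τ hτR
  obtain ⟨lev, X, Y, hl, hlh, H⟩ := lt_extract S typ E d j0 B m hd hw hB τ z
    ((Finset.range B).filter fun b => Bal S typ E (j0 + b * d) d τ z)
    (fun b hb => ⟨Finset.mem_range.1 (Finset.mem_filter.1 hb).1, (Finset.mem_filter.1 hb).2⟩) hτ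
  refine ⟨u, z, τ, lev, X, Y, fun i => Finset.univ.filter fun t => (X i, t) ∈ S ∧
    typ (X i, t) z = τ, fun i => Finset.univ.filter fun t => (Y i, t) ∈ S ∧
    typ z (Y i, t) = τ, huG, hSG hz, hl, hlh, fun i hi => ?_⟩
  obtain ⟨h1, h2, h3, h4⟩ := H i hi
  refine ⟨h1, h2, h3, h4, fun t ht => ?_, fun t ht => ?_⟩
  · rw [Finset.mem_filter] at ht
    refine ⟨hSG ht.2.1, ?_, hu _ ht.2.1, ht.2.2⟩
    rintro rfl
    exact huS ht.2.1
  · rw [Finset.mem_filter] at ht
    refine ⟨hSG ht.2.1, ?_, hu _ ht.2.1, ht.2.2⟩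
    rintro rfl
    exact huS ht.2.1

theorem ltccl_aux {Θ : Type} [Fintype Θ] [DecidableEq Θ] [Nonempty Θ] (rev : Θ → Θ) :
    ∀ (N D : ℕ), 1 ≤ D → ∃ D' : ℕ, 1 ≤ D' ∧ ∀ (h w : ℕ) (_ : 1 ≤ w) (G S : Finset (Lf h × Fin w))
      (typ : Lf h × Fin w → Lf h × Fin w → Θ)
      (_ : ∀ x ∈ G, ∀ y ∈ G, x ≠ y → typ y x = rev (typ x y)) (_ : S ⊆ G) (R : Finset Θ)
      (_ : (Finset.univ \ R).card < N) (j0 : ℕ) (z0 : Lf h) (_ : ∀ z ∈ S, agr j0 z.1 z0)
      (_ : 2 ^ (h - j0) * w ≤ D * S.card)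
      (_ : ∀ τ ∈ R, ∃ u ∈ G, u ∉ S ∧ ∀ s ∈ S, typ u s = τ) (m : ℕ) (_ : 1 ≤ m)
      (_ : D' * m ≤ h - j0), CclOut G typ D' m := by
  intro N
  induction N with
  | zero =>
    intro D hD
    exact ⟨1, le_rfl, fun h w _ G S typ _ _ R hR => absurd hR (Nat.not_lt_zero _)⟩
  | succ N ih =>
    intro D hD
    obtain ⟨d, E, hd, hE, hblk⟩ := lt_blockB rev D hD
    have hΘ : 1 ≤ Fintype.card Θ := Fintype.card_pos
    have hD1 : 1 ≤ 4 * D * Fintype.card Θ * d * E := by
      have := Nat.mul_pos (Nat.mul_pos (Nat.mul_pos (Nat.mul_pos (by norm_num : 0 < 4) hD) hΘ) hd)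
        hE
      exact this
    obtain ⟨D'', hD'', H''⟩ := ih _ hD1
    refine ⟨8 * d * Fintype.card Θ + E + 2 * D'', by omega, ?_⟩
    intro h w hw G S typ htyp hSG R hR j0 z0 hS hDS href m hm hDm
    set B := (h - j0) / (2 * d) with hBdef
    have hDm1 : 8 * d * Fintype.card Θ * m ≤ h - j0 :=
      (Nat.mul_le_mul_right m (by omega)).trans hDm
    have hDm2 : 2 * D'' * m ≤ h - j0 := (Nat.mul_le_mul_right m (by omega)).trans hDm
    have hDm3 : 1 ≤ h - j0 := by
      refine le_trans ?_ hDm2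
      have := Nat.mul_pos (Nat.mul_pos (by norm_num : 0 < 2) hD'') hm
      exact this
    have hB4 : 4 * Fintype.card Θ * m ≤ B := by
      rw [hBdef, Nat.le_div_iff_mul_le (by omega)]
      calc 4 * Fintype.card Θ * m * (2 * d) = 8 * d * Fintype.card Θ * m := by ring
        _ ≤ h - j0 := hDm1
    have hBpos : 1 ≤ B := by
      refine le_trans ?_ hB4
      have := Nat.mul_pos (Nat.mul_pos (by norm_num : 0 < 4) hΘ) hm
      exact this
    have hBd2 : B * (2 * d) ≤ h - j0 := Nat.div_mul_le_self _ _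
    have hBd : j0 + B * d ≤ h := by
      have : B * d ≤ B * (2 * d) := Nat.mul_le_mul_left _ (by omega)
      omega
    have hSpos : 1 ≤ S.card := by
      by_contra hcon
      have h0 : S.card = 0 := by omega
      rw [h0, mul_zero, Nat.le_zero] at hDS
      have := Nat.mul_pos (Nat.pow_pos (n := h - j0) (by norm_num : 0 < 2)) hw
      omega
    rcases ltccl_dich S typ E d j0 B hBpos hSpos R (hblk h w S typ
      (fun x hx y hy hxy => htyp x (hSG hx) y (hSG hy) hxy) j0 B hBd z0 hS hDS) with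
      ⟨z, hz, hzB⟩ | ⟨b, hb, hbS⟩
    · exact ltccl_mono (by omega) (ltccl_case1 hw G S hSG typ E d j0 B m hd hBd R href hm hB4 z hz
        hzB)
    · have hb1 : (b + 1) * d ≤ B * d := Nat.mul_le_mul_right _ hb
      have hb2 : (b + 1) * d = b * d + d := by ring
      obtain ⟨τ, hτR, j, hj, hj0, u, hu, z1, hz1, huz1, hmass⟩ := lt_newref S typ D E d j0
        (j0 + b * d) hd hw hE (by omega) (by omega) z0 hS hDS hSpos R hbS
      refine ltccl_mono (D := D'') (by omega) ?_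
      refine H'' h w hw G (S.filter fun z => agr (j + 1) z.1 z1 ∧ typ u z = τ) typ htyp
        ((Finset.filter_subset _ _).trans hSG) (insert τ R) ?_ (j + 1) z1 ?_ hmass ?_ m hm ?_
      · have h1 : (Finset.univ \ insert τ R) = (Finset.univ \ R).erase τ := by
          ext x
          simp only [Finset.mem_sdiff, Finset.mem_univ, true_and, Finset.mem_insert,
            Finset.mem_erase]
          tauto
        rw [h1, Finset.card_erase_of_mem (by simp [hτR])]
        have : 0 < (Finset.univ \ R).card := Finset.card_pos.2 ⟨τ, by simp [hτR]⟩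
        omega
      · intro z hz
        exact (Finset.mem_filter.1 hz).2.1
      · intro τ' hτ'
        rw [Finset.mem_insert] at hτ'
        rcases hτ' with rfl | hτ'
        · refine ⟨u, hSG hu, fun hu' => huz1 (Finset.mem_filter.1 hu').2.1, fun s hs =>
            (Finset.mem_filter.1 hs).2.2⟩
        · obtain ⟨u', hu'G, hu'S, hu'⟩ := href τ' hτ'
          exact ⟨u', hu'G, fun h => hu'S (Finset.mem_filter.1 h).1, fun s hs =>
            hu' s (Finset.mem_filter.1 hs).1⟩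
      · have e1 : 2 * (B * d) ≤ h - j0 := by
          calc 2 * (B * d) = B * (2 * d) := by ring
            _ ≤ h - j0 := hBd2
        have e2 : 2 * (D'' * m) ≤ h - j0 := by
          calc 2 * (D'' * m) = 2 * D'' * m := by ring
            _ ≤ h - j0 := hDm2
        omega

/-- The combinatorial lemma. -/
theorem lt_ccl {Θ : Type} [Fintype Θ] [DecidableEq Θ] [Nonempty Θ] (rev : Θ → Θ) :
    ∃ D : ℕ, 1 ≤ D ∧ ∀ (h w : ℕ) (_ : 1 ≤ w) (G : Finset (Lf h × Fin w))
      (typ : Lf h × Fin w → Lf h × Fin w → Θ)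
      (_ : ∀ x ∈ G, ∀ y ∈ G, x ≠ y → typ y x = rev (typ x y))
      (_ : 3 * (2 ^ h * w) ≤ 4 * G.card) (m : ℕ) (_ : 1 ≤ m) (_ : D * m ≤ h),
      CclOut G typ D m := by
  obtain ⟨D, hD, H⟩ := ltccl_aux rev (Fintype.card Θ + 1) 2 (by norm_num)
  refine ⟨D, hD, fun h w hw G typ htyp hG m hm hDm => ?_⟩
  refine H h w hw G G typ htyp (Finset.Subset.refl _) ∅ ?_ 0 (fun _ => false) ?_ ?_ ?_ m hm
    (by simpa using hDm)
  · simp
  · intro z _ i hi
    exact absurd hi (Nat.not_lt_zero _)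
  · rw [Nat.sub_zero]
    omega
  · intro τ hτ
    exact absurd hτ (Finset.notMem_empty _)

end Pool.Agent.MP_6216ea_lc
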