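import Mathlib
import Pool.Agent.Lib.MP_6216ea_lc.LTDefs

/-!
# Realtime deterministic pushdown automata accept context-free languages
-/

set_option autoImplicit false

namespace Pool.Agent.MP_6216ea_lc

variable {T : Type}

/-- runs which consume exactly the given string of stack symbols -/
inductive LTCfEats (M : DPDA T) : M.Q → List M.S → List T → M.Q → Prop
  | nil (q : M.Q) : LTCfEats M q [] [] q
  | step {q q1 q' : M.Q} {t : T} {b : M.S} {g g1 : List M.S} {w : List T}
      (h : M.step q t (some b) = some (q1, g1)) (h' : LTCfEats M q1 (g1 ++ g) w q') :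
      LTCfEats M q (b :: g) (t :: w) q'

theorem ltcf_append {M : DPDA T} {q q1 q' : M.Q} {g d : List M.S} {u v : List T}
    (h : LTCfEats M q g u q1) (h' : LTCfEats M q1 d v q') : LTCfEats M q (g ++ d) (u ++ v) q' := by
  induction h with
  | nil q => exact h'
  | step h1 _ ih =>
    have h2 := ih h'
    rw [List.append_assoc] at h2
    exact LTCfEats.step h1 h2

theorem ltcf_split {M : DPDA T} (w : List T) : ∀ (q q' : M.Q) (g d : List M.S),
    LTCfEats M q (g ++ d) w q' → ∃ (q1 : M.Q) (w1 w2 : List T), w = w1 ++ w2 ∧
      LTCfEats M q g w1 q1 ∧ LTCfEats M q1 d w2 q' := by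
  induction w with
  | nil =>
    intro q q' g d h
    cases g with
    | nil => exact ⟨q, [], [], rfl, LTCfEats.nil q, h⟩
    | cons b g => cases h
  | cons t w ih =>
    intro q q' g d h
    cases g with
    | nil => exact ⟨q, [], t :: w, rfl, LTCfEats.nil q, h⟩
    | cons b g =>
      rw [List.cons_append] at h
      cases h with
      | @step _ q1 _ _ _ _ g1 _ h1 h2 =>
        rw [← List.append_assoc] at h2
        obtain ⟨q2, w1, w2, rfl, h3, h4⟩ := ih _ _ _ _ h2
        exact ⟨q2, t :: w1, w2, rfl, LTCfEats.step h1 h3, h4⟩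

theorem ltcf_run_append {M : DPDA T} {q q1 : M.Q} {g : List M.S} {u : List T}
    (h : LTCfEats M q g u q1) (s : List M.S) (w : List T) :
    M.run q (g ++ s) (u ++ w) = M.run q1 s w := by
  induction h with
  | nil q => rfl
  | @step q q1 q' t b g g1 u h1 _ ih =>
    rw [List.cons_append, List.cons_append]
    have h2 : M.run q (b :: (g ++ s)) (t :: (u ++ w)) = M.run q1 (g1 ++ (g ++ s)) (u ++ w) := by
      simp only [DPDA.run, List.head?_cons, h1, List.tail_cons]
    rw [h2, ← List.append_assoc]
    exact ih

theorem ltcf_run_split {M : DPDA T} (w : List T) : ∀ (q q' : M.Q) (g s : List M.S),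
    M.run q (g ++ s) w = some (q', []) → ∃ (q1 : M.Q) (w1 w2 : List T), w = w1 ++ w2 ∧
      LTCfEats M q g w1 q1 ∧ M.run q1 s w2 = some (q', []) := by
  induction w with
  | nil =>
    intro q q' g s h
    cases g with
    | nil => exact ⟨q, [], [], rfl, LTCfEats.nil q, h⟩
    | cons b g =>
      simp only [DPDA.run, List.cons_append, Option.some.injEq, Prod.mk.injEq] at h
      exact absurd h.2 (List.cons_ne_nil _ _)
  | cons t w ih =>
    intro q q' g s h
    cases g with
    | nil => exact ⟨q, [], t :: w, rfl, LTCfEats.nil q, h⟩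
    | cons b g =>
      rw [List.cons_append] at h
      cases hs : M.step q t (some b) with
      | none => simp [DPDA.run, hs] at h
      | some x =>
        obtain ⟨q1, g1⟩ := x
        simp only [DPDA.run, List.head?_cons, hs, List.tail_cons] at h
        rw [← List.append_assoc] at h
        obtain ⟨q2, w1, w2, rfl, h3, h4⟩ := ih _ _ _ _ h
        exact ⟨q2, t :: w1, w2, rfl, LTCfEats.step hs h3, h4⟩

/-- nonterminals -/
abbrev LTCfNT (M : DPDA T) := Option (Bool × M.Q × List M.S × M.Q)

/-- the rules of the grammar -/
inductive LTCfRule (M : DPDA T) (N : ℕ) : ContextFreeRule T (LTCfNT M) → Prop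
  | start {q : M.Q} (h : M.accept q = true) :
      LTCfRule M N ⟨none, [.nonterminal (some (true, M.start, [], q))]⟩
  | nil (c : Bool) (q : M.Q) : LTCfRule M N ⟨some (c, q, [], q), []⟩
  | cons (c : Bool) {q q1 q2 q' : M.Q} {t : T} {b : M.S} {g g1 : List M.S}
      (h : M.step q t (some b) = some (q1, g1)) (hg : g.length ≤ N) :
      LTCfRule M N ⟨some (c, q, b :: g, q'), [.terminal t,
        .nonterminal (some (false, q1, g1, q2)), .nonterminal (some (c, q2, g, q'))]⟩
  | bot {q q1 q' : M.Q} {t : T} {g1 : List M.S} (h : M.step q t none = some (q1, g1)) :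
      LTCfRule M N ⟨some (true, q, [], q'), [.terminal t,
        .nonterminal (some (true, q1, g1, q'))]⟩

theorem ltcf_finite [Finite T] (M : DPDA T) (N : ℕ) : {r | LTCfRule M N r}.Finite := by
  have hL : {g : List M.S | g.length ≤ N}.Finite := List.finite_length_le M.S N
  have : Finite {g : List M.S // g.length ≤ N} := hL.to_subtype
  let f1 : M.Q → ContextFreeRule T (LTCfNT M) :=
    fun q => ⟨none, [.nonterminal (some (true, M.start, [], q))]⟩
  let f2 : Bool × M.Q → ContextFreeRule T (LTCfNT M) := fun x => ⟨some (x.1, x.2, [], x.2), []⟩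
  let f3 : (Bool × M.Q × T × M.S) × M.Q × M.Q × {g : List M.S // g.length ≤ N} →
      ContextFreeRule T (LTCfNT M) := fun x =>
    ⟨some (x.1.1, x.1.2.1, x.1.2.2.2 :: x.2.2.2.1, x.2.2.1), [.terminal x.1.2.2.1,
      .nonterminal (some (false,
        ((M.step x.1.2.1 x.1.2.2.1 (some x.1.2.2.2)).getD (x.1.2.1, [])).1,
        ((M.step x.1.2.1 x.1.2.2.1 (some x.1.2.2.2)).getD (x.1.2.1, [])).2, x.2.1)),
      .nonterminal (some (x.1.1, x.2.1, x.2.2.2.1, x.2.2.1))]⟩
  let f4 : M.Q × T × M.Q → ContextFreeRule T (LTCfNT M) := fun x =>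
    ⟨some (true, x.1, [], x.2.2), [.terminal x.2.1,
      .nonterminal (some (true, ((M.step x.1 x.2.1 none).getD (x.1, [])).1,
        ((M.step x.1 x.2.1 none).getD (x.1, [])).2, x.2.2))]⟩
  have hfin : (Set.range f1 ∪ Set.range f2 ∪ Set.range f3 ∪ Set.range f4).Finite :=
    (((Set.finite_range f1).union (Set.finite_range f2)).union (Set.finite_range f3)).union
      (Set.finite_range f4)
  refine hfin.subset ?_
  rintro r hr
  cases hr with
  | start h => exact Or.inl (Or.inl (Or.inl ⟨_, rfl⟩))
  | nil c q => exact Or.inl (Or.inl (Or.inr ⟨(c, q), rfl⟩))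
  | @cons c q q1 q2 q' t b g g1 h hg =>
    refine Or.inl (Or.inr ⟨((c, q, t, b), q2, q', ⟨g, hg⟩), ?_⟩)
    simp only [f3, h, Option.getD_some]
  | @bot q q1 q' t g1 h =>
    refine Or.inr ⟨(q, t, q'), ?_⟩
    simp only [f4, h, Option.getD_some]

/-- the grammar -/
noncomputable def ltcfGram [Finite T] (M : DPDA T) (N : ℕ) : ContextFreeGrammar T where
  NT := LTCfNT M
  initial := none
  rules := (ltcf_finite M N).toFinset

theorem ltcf_produces [Finite T] {M : DPDA T} {N : ℕ} {r : ContextFreeRule T (LTCfNT M)}
    (hr : LTCfRule M N r) : (ltcfGram M N).Produces [.nonterminal r.input] r.output :=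
  ⟨r, (ltcf_finite M N).mem_toFinset.mpr hr, ContextFreeRule.Rewrites.input_output⟩

/-- the words described by a symbol -/
def LTCfSym (M : DPDA T) : Symbol T (LTCfNT M) → List T → Prop
  | .terminal t, u => u = [t]
  | .nonterminal none, u => ∃ q, M.accept q = true ∧ M.run M.start [] u = some (q, [])
  | .nonterminal (some (false, q, g, q')), u => LTCfEats M q g u q'
  | .nonterminal (some (true, q, g, q')), u => M.run q g u = some (q', [])

/-- the words described by a sentential form -/
def LTCfSem (M : DPDA T) : List (Symbol T (LTCfNT M)) → List T → Prop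
  | [], w => w = []
  | x :: l, w => ∃ u v, w = u ++ v ∧ LTCfSym M x u ∧ LTCfSem M l v

theorem ltcf_sem_append (M : DPDA T) (l l' : List (Symbol T (LTCfNT M))) (w : List T) :
    LTCfSem M (l ++ l') w ↔ ∃ u v, w = u ++ v ∧ LTCfSem M l u ∧ LTCfSem M l' v := by
  induction l generalizing w with
  | nil =>
    constructor
    · intro h
      exact ⟨[], w, rfl, rfl, h⟩
    · rintro ⟨u, v, rfl, hu, hv⟩
      have : u = [] := hu
      subst this
      exact hv
  | cons x l ih =>
    constructor
    · rintro ⟨u, v, rfl, hu, hv⟩
      obtain ⟨a, b, rfl, ha, hb⟩ := (ih v).mp hv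
      exact ⟨u ++ a, b, by simp, ⟨u, a, rfl, hu, ha⟩, hb⟩
    · rintro ⟨u, v, rfl, ⟨a, b, rfl, ha, hb⟩, hv⟩
      exact ⟨a, b ++ v, by simp, ha, (ih _).mpr ⟨b, v, rfl, hb, hv⟩⟩

theorem ltcf_sem_singleton (M : DPDA T) (x : Symbol T (LTCfNT M)) (w : List T) :
    LTCfSem M [x] w ↔ LTCfSym M x w := by
  constructor
  · rintro ⟨u, v, rfl, hu, hv⟩
    have : v = [] := hv
    subst this
    simpa using hu
  · intro h
    exact ⟨w, [], by simp, h, rfl⟩

theorem ltcf_sem_rule {M : DPDA T} {N : ℕ} {r : ContextFreeRule T (LTCfNT M)}
    (hr : LTCfRule M N r) {w : List T} (h : LTCfSem M r.output w) :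
    LTCfSym M (.nonterminal r.input) w := by
  cases hr with
  | start hq => exact ⟨_, hq, (ltcf_sem_singleton M _ w).mp h⟩
  | nil c q =>
    have : w = [] := h
    subst this
    cases c
    · exact LTCfEats.nil q
    · rfl
  | @cons c q q1 q2 q' t b g g1 h1 hg =>
    obtain ⟨u, v, rfl, hu, ⟨a, b', rfl, ha, hb⟩⟩ := h
    have hb' := (ltcf_sem_singleton M _ b').mp hb
    have e1 : u = [t] := hu
    subst e1
    have ha' : LTCfEats M q1 g1 a q2 := ha
    cases c
    · have hb2 : LTCfEats M q2 g b' q' := hb'
      have hb3 : LTCfEats M q1 (g1 ++ g) (a ++ b') q' := ltcf_append ha' hb2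
      exact LTCfEats.step h1 hb3
    · have e2 : M.run q (b :: g) (t :: (a ++ b')) = M.run q1 (g1 ++ g) (a ++ b') := by
        simp only [DPDA.run, List.head?_cons, h1, List.tail_cons]
      have e3 := ltcf_run_append ha' g b'
      exact (e2.trans e3).trans hb'
  | @bot q q1 q' t g1 h1 =>
    obtain ⟨u, v, rfl, hu, hv⟩ := h
    have hv' := (ltcf_sem_singleton M _ v).mp hv
    have e1 : u = [t] := hu
    subst e1
    have e2 : M.run q [] (t :: v) = M.run q1 (g1 ++ []) v := by
      simp only [DPDA.run, List.head?_nil, h1, List.tail_nil]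
    have e3 : M.run q1 g1 v = some (q', []) := hv'
    rw [List.append_nil] at e2
    exact e2.trans e3

theorem ltcf_sem_produces [Finite T] {M : DPDA T} {N : ℕ}
    {a b : List (Symbol T (LTCfNT M))} (h : (ltcfGram M N).Produces a b) {w : List T}
    (hb : LTCfSem M b w) : LTCfSem M a w := by
  obtain ⟨r, hr, hrw⟩ := h
  have hr' : LTCfRule M N r := (ltcf_finite M N).mem_toFinset.mp hr
  obtain ⟨p, q, rfl, rfl⟩ := hrw.exists_parts
  obtain ⟨u, v, rfl, hu, hv⟩ := (ltcf_sem_append M _ _ _).mp hb
  obtain ⟨u1, u2, rfl, hu1, hu2⟩ := (ltcf_sem_append M _ _ _).mp hu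
  exact (ltcf_sem_append M _ _ _).mpr ⟨u1 ++ u2, v, rfl, (ltcf_sem_append M _ _ _).mpr
    ⟨u1, u2, rfl, hu1, (ltcf_sem_singleton M _ u2).mpr (ltcf_sem_rule hr' hu2)⟩, hv⟩

theorem ltcf_sem_terminal (M : DPDA T) (w : List T) :
    LTCfSem M (w.map Symbol.terminal) w := by
  induction w with
  | nil => rfl
  | cons t w ih => exact ⟨[t], w, rfl, rfl, ih⟩

theorem ltcf_sem_derives [Finite T] {M : DPDA T} {N : ℕ}
    {a b : List (Symbol T (LTCfNT M))} (h : (ltcfGram M N).Derives a b) {w : List T}
    (hb : LTCfSem M b w) : LTCfSem M a w := by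
  induction h with
  | refl => exact hb
  | tail _ h2 ih => exact ih (ltcf_sem_produces h2 hb)

theorem ltcf_bound [Finite T] (M : DPDA T) : ∃ N : ℕ, ∀ q t o q1 g1,
    M.step q t o = some (q1, g1) → g1.length ≤ N := by
  have h1 : (Set.range fun x : M.Q × T × Option M.S =>
      ((M.step x.1 x.2.1 x.2.2).getD (x.1, [])).2.length).Finite := Set.finite_range _
  obtain ⟨N, hN⟩ := h1.bddAbove
  refine ⟨N, fun q t o q1 g1 h => ?_⟩
  have h2 := hN ⟨(q, t, o), rfl⟩
  simp only [h, Option.getD_some] at h2
  exact h2

/-- words of the grammar -/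
theorem ltcf_eats_derives [Finite T] {M : DPDA T} {N : ℕ}
    (hN : ∀ q t o q1 g1, M.step q t o = some (q1, g1) → g1.length ≤ N) :
    ∀ (n : ℕ) (q q' : M.Q) (g : List M.S) (w : List T), w.length ≤ n → g.length ≤ N →
      LTCfEats M q g w q' →
      (ltcfGram M N).Derives [.nonterminal (some (false, q, g, q'))]
        (w.map Symbol.terminal) := by
  intro n
  induction n with
  | zero =>
    intro q q' g w hw hg h
    cases h with
    | nil => exact (ltcf_produces (LTCfRule.nil false q)).single
    | step h1 h2 => exact absurd hw (by simp)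
  | succ n ih =>
    intro q q' g w hw hg h
    cases h with
    | nil => exact (ltcf_produces (LTCfRule.nil false q)).single
    | @step _ q1 _ t b g g1 w h1 h2 =>
      obtain ⟨q2, w1, w2, rfl, h3, h4⟩ := ltcf_split _ _ _ _ _ h2
      have hlen : w1.length + w2.length ≤ n := by
        simp only [List.length_cons, List.length_append] at hw
        omega
      have hg' : g.length ≤ N := by
        simp only [List.length_cons] at hg
        omega
      have e0 : (ltcfGram M N).Derives [.nonterminal (some (false, q, b :: g, q'))]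
          ([.terminal t] ++ ([.nonterminal (some (false, q1, g1, q2))] ++
            [.nonterminal (some (false, q2, g, q'))])) :=
        (ltcf_produces (LTCfRule.cons false h1 hg')).single
      have e1 := ih q1 q2 g1 w1 (by omega) (hN _ _ _ _ _ h1) h3
      have e2 := ih q2 q' g w2 (by omega) hg' h4
      have e3 := ContextFreeGrammar.Derives.append_left
        (ContextFreeGrammar.Derives.append_right e1
          [.nonterminal (some (false, q2, g, q'))]) [.terminal t]
      have e4 := ContextFreeGrammar.Derives.append_left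
        (ContextFreeGrammar.Derives.append_left e2 (w1.map Symbol.terminal)) [.terminal t]
      have e5 := (e0.trans e3).trans e4
      simpa using e5

theorem ltcf_full_derives [Finite T] {M : DPDA T} {N : ℕ}
    (hN : ∀ q t o q1 g1, M.step q t o = some (q1, g1) → g1.length ≤ N) :
    ∀ (n : ℕ) (q q' : M.Q) (g : List M.S) (w : List T), w.length ≤ n → g.length ≤ N →
      M.run q g w = some (q', []) →
      (ltcfGram M N).Derives [.nonterminal (some (true, q, g, q'))]
        (w.map Symbol.terminal) := by
  intro n
  induction n with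
  | zero =>
    intro q q' g w hw hg h
    have hw0 : w = [] := List.length_eq_zero_iff.1 (by omega)
    subst hw0
    simp only [DPDA.run, Option.some.injEq, Prod.mk.injEq] at h
    obtain ⟨rfl, rfl⟩ := h
    exact (ltcf_produces (LTCfRule.nil true q)).single
  | succ n ih =>
    intro q q' g w hw hg h
    cases w with
    | nil =>
      simp only [DPDA.run, Option.some.injEq, Prod.mk.injEq] at h
      obtain ⟨rfl, rfl⟩ := h
      exact (ltcf_produces (LTCfRule.nil true q)).single
    | cons t w =>
      have hw' : w.length ≤ n := by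
        simp only [List.length_cons] at hw
        omega
      cases g with
      | nil =>
        cases hs : M.step q t none with
        | none => simp [DPDA.run, hs] at h
        | some x =>
          obtain ⟨q1, g1⟩ := x
          simp only [DPDA.run, List.head?_nil, hs, List.tail_nil, List.append_nil] at h
          have e0 : (ltcfGram M N).Derives [.nonterminal (some (true, q, [], q'))]
              ([.terminal t] ++ [.nonterminal (some (true, q1, g1, q'))]) :=
            (ltcf_produces (LTCfRule.bot hs)).single
          have e1 := ih q1 q' g1 w hw' (hN _ _ _ _ _ hs) h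
          have e2 := ContextFreeGrammar.Derives.append_left e1 [.terminal t]
          have e3 := e0.trans e2
          simpa using e3
      | cons b g =>
        cases hs : M.step q t (some b) with
        | none => simp [DPDA.run, hs] at h
        | some x =>
          obtain ⟨q1, g1⟩ := x
          simp only [DPDA.run, List.head?_cons, hs, List.tail_cons] at h
          obtain ⟨q2, w1, w2, rfl, h3, h4⟩ := ltcf_run_split _ _ _ _ _ h
          have hlen : w1.length + w2.length ≤ n := by
            simp only [List.length_append] at hw'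
            omega
          have hg' : g.length ≤ N := by
            simp only [List.length_cons] at hg
            omega
          have e0 : (ltcfGram M N).Derives [.nonterminal (some (true, q, b :: g, q'))]
              ([.terminal t] ++ ([.nonterminal (some (false, q1, g1, q2))] ++
                [.nonterminal (some (true, q2, g, q'))])) :=
            (ltcf_produces (LTCfRule.cons true hs hg')).single
          have e1 := ltcf_eats_derives hN n q1 q2 g1 w1 (by omega) (hN _ _ _ _ _ hs) h3
          have e2 := ih q2 q' g w2 (by omega) hg' h4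
          have e3 := ContextFreeGrammar.Derives.append_left
            (ContextFreeGrammar.Derives.append_right e1
              [.nonterminal (some (true, q2, g, q'))]) [.terminal t]
          have e4 := ContextFreeGrammar.Derives.append_left
            (ContextFreeGrammar.Derives.append_left e2 (w1.map Symbol.terminal)) [.terminal t]
          have e5 := (e0.trans e3).trans e4
          simpa using e5

/-- F1 -/
theorem dpda_language_cf {T : Type} [Finite T] (M : DPDA T) : M.language.IsContextFree := by
  obtain ⟨N, hN⟩ := ltcf_bound M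
  refine ⟨ltcfGram M N, ?_⟩
  ext w
  rw [ContextFreeGrammar.mem_language_iff]
  constructor
  · intro h
    exact (ltcf_sem_singleton M _ w).mp (ltcf_sem_derives h (ltcf_sem_terminal M w))
  · rintro ⟨q, hq, h⟩
    have e1 : (ltcfGram M N).Derives [.nonterminal none]
        [.nonterminal (some (true, M.start, [], q))] :=
      (ltcf_produces (LTCfRule.start hq)).single
    exact e1.trans (ltcf_full_derives hN w.length M.start q [] w le_rfl (by simp) h)

end Pool.Agent.MP_6216ea_lc
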