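import Mathlib
import Pool.Agent.Lib.MP_6216ea_lc.LTDefs

set_option autoImplicit false

namespace Pool.Agent.MP_6216ea_lc

theorem ltdig_aux (q : ℕ) (hq : 2 ≤ q) : ∀ (n : ℕ) (c : ℕ → ℤ), (∀ i, |c i| < q) →
    (q : ℤ) ^ (n + 1) ∣ ∑ i ∈ Finset.range n, (-(q : ℤ)) ^ (i + 1) * c i →
    ∀ i < n, c i = 0 := by
  intro n
  induction n with
  | zero =>
    intro c _ _ i hi
    omega
  | succ n ih =>
    intro c hc hd
    have hq0 : (q : ℤ) ≠ 0 := by
      have : (0 : ℤ) < q := by exact_mod_cast (by omega : 0 < q)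
      exact this.ne'
    rw [Finset.sum_range_succ'] at hd
    have e1 : ∑ k ∈ Finset.range n, (-(q : ℤ)) ^ (k + 1 + 1) * c (k + 1) +
        (-(q : ℤ)) ^ (0 + 1) * c 0 = (q : ℤ) * -(c 0 +
          ∑ k ∈ Finset.range n, (-(q : ℤ)) ^ (k + 1) * c (k + 1)) := by
      have e2 : ∑ k ∈ Finset.range n, (-(q : ℤ)) ^ (k + 1 + 1) * c (k + 1) =
          (-(q : ℤ)) * ∑ k ∈ Finset.range n, (-(q : ℤ)) ^ (k + 1) * c (k + 1) := by
        rw [Finset.mul_sum]
        refine Finset.sum_congr rfl fun k _ => ?_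
        rw [pow_succ]
        ring
      rw [e2, zero_add, pow_one]
      ring
    rw [e1, pow_succ' (q : ℤ) (n + 1), mul_dvd_mul_iff_left hq0, dvd_neg] at hd
    have e3 : (q : ℤ) ∣ ∑ k ∈ Finset.range n, (-(q : ℤ)) ^ (k + 1) * c (k + 1) := by
      refine Finset.dvd_sum fun k _ => ?_
      rw [pow_succ]
      exact Dvd.dvd.mul_right (Dvd.dvd.mul_left ((dvd_neg).2 dvd_rfl) _) _
    have e4 : (q : ℤ) ∣ c 0 + ∑ k ∈ Finset.range n, (-(q : ℤ)) ^ (k + 1) * c (k + 1) :=
      (dvd_pow_self (q : ℤ) (Nat.succ_ne_zero n)).trans hd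
    have e5 : (q : ℤ) ∣ c 0 := (dvd_add_left e3).1 e4
    have e6 : c 0 = 0 := Int.eq_zero_of_abs_lt_dvd e5 (hc 0)
    rw [e6, zero_add] at hd
    have e7 := ih (fun i => c (i + 1)) (fun i => hc (i + 1)) hd
    intro i hi
    rcases Nat.eq_zero_or_pos i with h | h
    · rw [h]
      exact e6
    · have := e7 (i - 1) (by omega)
      simpa [Nat.sub_add_cancel h] using this

/-- R3: digits are injective -/
theorem dig_injective (q w : ℕ) (hq : 2 ≤ q) : Function.Injective (dig q w (q * q ^ w)) := by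
  intro x y hxy
  set c : ℕ → ℤ := fun i => if h : i < w then
    (((x (Fin.rev ⟨i, h⟩)).val : ℤ) - ((y (Fin.rev ⟨i, h⟩)).val : ℤ)) else 0 with hcdef
  have hc : ∀ i, |c i| < q := by
    intro i
    simp only [hcdef]
    split_ifs with h
    · have h1 := (x (Fin.rev ⟨i, h⟩)).isLt
      have h2 := (y (Fin.rev ⟨i, h⟩)).isLt
      rw [abs_lt]
      constructor <;> omega
    · rw [abs_zero]
      exact_mod_cast (by omega : 0 < q)
  have hsum : (((∑ i ∈ Finset.range w, (-(q : ℤ)) ^ (i + 1) * c i : ℤ)) : ZMod (q * q ^ w)) = 0 := by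
    have e1 : ∑ i ∈ Finset.range w, (-(q : ℤ)) ^ (i + 1) * c i =
        ∑ t : Fin w, (-(q : ℤ)) ^ (w - t.val) * (((x t).val : ℤ) - ((y t).val : ℤ)) := by
      rw [Finset.sum_range]
      rw [← Equiv.sum_comp Fin.revPerm]
      refine Finset.sum_congr rfl fun t _ => ?_
      have h1 : (Fin.revPerm t).val = w - (t.val + 1) := by
        simp [Fin.revPerm]
      have h2 : (Fin.revPerm t).val + 1 = w - t.val := by
        have := t.isLt
        omega
      rw [h2]
      congr 1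
      simp only [hcdef]
      rw [dif_pos (Fin.revPerm t).isLt]
      have h3 : Fin.rev ⟨(Fin.revPerm t).val, (Fin.revPerm t).isLt⟩ = t := by
        rw [Fin.eta]
        exact Fin.rev_rev t
      rw [h3]
    rw [e1]
    unfold dig at hxy
    push_cast
    have e2 : ∑ t : Fin w, (-(q : ZMod (q * q ^ w))) ^ (w - t.val) *
        (((x t).val : ZMod (q * q ^ w)) - ((y t).val : ZMod (q * q ^ w))) =
        ∑ t : Fin w, (-(q : ZMod (q * q ^ w))) ^ (w - t.val) * ((x t).val : ZMod (q * q ^ w)) -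
        ∑ t : Fin w, (-(q : ZMod (q * q ^ w))) ^ (w - t.val) * ((y t).val : ZMod (q * q ^ w)) := by
      rw [← Finset.sum_sub_distrib]
      refine Finset.sum_congr rfl fun t _ => ?_
      ring
    rw [e2, hxy, sub_self]
  have hd : (q : ℤ) ^ (w + 1) ∣ ∑ i ∈ Finset.range w, (-(q : ℤ)) ^ (i + 1) * c i := by
    have h := (ZMod.intCast_zmod_eq_zero_iff_dvd _ _).1 hsum
    rw [pow_succ']
    exact_mod_cast h
  have h0 := ltdig_aux q hq w c hc hd
  funext t
  have h1 := h0 (Fin.rev t).val (Fin.rev t).isLt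
  simp only [hcdef] at h1
  rw [dif_pos (Fin.rev t).isLt] at h1
  simp only [Fin.eta, Fin.rev_rev] at h1
  apply Fin.ext
  omega

end Pool.Agent.MP_6216ea_lc
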