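import Mathlib
import Pool.Agent.Lib.MP_6216ea_lc.LTDefs
import Pool.Agent.Lib.MP_6216ea_lc.LTDig

set_option autoImplicit false

namespace Pool.Agent.MP_6216ea_lc

theorem ltchain_card {q w : ℕ} [NeZero q] (A : Finset (Fin w)) (F : Finset (Fin w → Fin q))
    (hF : ∀ x ∈ F, ∀ t ∉ A, x t = 0) : F.card ≤ q ^ A.card := by
  classical
  have h1 : F ⊆ Fintype.piFinset (fun t => if t ∈ A then (Finset.univ : Finset (Fin q)) else {0}) := by
    intro x hx
    rw [Fintype.mem_piFinset]
    intro t
    by_cases ht : t ∈ A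
    · simp [ht]
    · rw [if_neg ht, Finset.mem_singleton]
      exact hF x hx t ht
  refine (Finset.card_le_card h1).trans ?_
  rw [Fintype.card_piFinset]
  have h2 : ∀ t : Fin w, (if t ∈ A then (Finset.univ : Finset (Fin q)) else {0}).card =
      if t ∈ A then q else 1 := by
    intro t
    split_ifs <;> simp
  rw [Finset.prod_congr rfl (fun t _ => h2 t), Finset.prod_ite, Finset.prod_const_one, mul_one,
    Finset.prod_const]
  simp

/-- one level: fibres -/
theorem ltchain_level {q w r : ℕ} [NeZero q] (hq : 2 ≤ q) (chi : ZMod (q * q ^ w) → Bool)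
    (hchi : RectP chi r) (A B : Finset (Fin w)) (g : ℕ) (hA : g ≤ A.card) (hB : g ≤ B.card)
    (F1 F2 : Finset (Fin w → Fin q)) (h1 : ∀ x ∈ F1, ∀ t ∉ A, x t = 0)
    (h2 : ∀ x ∈ F2, ∀ t ∉ B, x t = 0) (s c : ZMod (q * q ^ w)) (hs : s = 1 ∨ s = -1) (bit : Bool)
    (H : ∀ x ∈ F1, ∀ y ∈ F2, chi (c + s * (dig q w (q * q ^ w) x + dig q w (q * q ^ w) y)) = bit) :
    F1.card * F2.card * q ^ g ≤ r ^ 3 * q ^ (A.card + B.card) := by
  classical
  have hss : ∀ a b : ZMod (q * q ^ w), s * a = s * b → a = b := by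
    intro a b hab
    rcases hs with rfl | rfl
    · simpa using hab
    · simpa using hab
  set A' := F1.image (fun x => c + s * dig q w (q * q ^ w) x) with hA'
  set B' := F2.image (fun x => s * dig q w (q * q ^ w) x) with hB'
  have cA : A'.card = F1.card := by
    refine Finset.card_image_of_injective _ ?_
    intro x y hxy
    exact dig_injective q w hq (hss _ _ (add_left_cancel hxy))
  have cB : B'.card = F2.card := by
    refine Finset.card_image_of_injective _ ?_
    intro x y hxy
    exact dig_injective q w hq (hss _ _ hxy)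
  have hR := hchi A' B' bit (by
    intro a ha b hb
    obtain ⟨x, hx, rfl⟩ := Finset.mem_image.1 ha
    obtain ⟨y, hy, rfl⟩ := Finset.mem_image.1 hb
    rw [← H x hx y hy]
    congr 1
    ring)
  rw [cA, cB] at hR
  have k1 := ltchain_card A F1 h1
  have k2 := ltchain_card B F2 h2
  have hq1 : 1 ≤ q := by omega
  have k3 : max F1.card F2.card * q ^ g ≤ q ^ (A.card + B.card) := by
    rw [pow_add]
    rcases le_total F1.card F2.card with h | h
    · rw [max_eq_right h, mul_comm]
      exact Nat.mul_le_mul (Nat.pow_le_pow_right hq1 hA) k2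
    · rw [max_eq_left h]
      exact Nat.mul_le_mul k1 (Nat.pow_le_pow_right hq1 hB)
  calc F1.card * F2.card * q ^ g ≤ (r ^ 3 * max F1.card F2.card) * q ^ g :=
        Nat.mul_le_mul_right _ hR
    _ = r ^ 3 * (max F1.card F2.card * q ^ g) := by ring
    _ ≤ r ^ 3 * q ^ (A.card + B.card) := Nat.mul_le_mul_left _ k3

/-- the fibre over a tail -/
def ltchain_fib {X : Type} [DecidableEq X] {m : ℕ} (G : Finset (Fin (m + 1) → X))
    (a : Fin m → X) : Finset X := (G.filter (fun α => Fin.tail α = a)).image (fun α => α 0)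

theorem ltchain_mem_fib {X : Type} [DecidableEq X] {m : ℕ} (G : Finset (Fin (m + 1) → X))
    (a : Fin m → X) (x : X) : x ∈ ltchain_fib G a ↔ (Fin.cons x a : Fin (m + 1) → X) ∈ G := by
  unfold ltchain_fib
  rw [Finset.mem_image]
  constructor
  · rintro ⟨α, hα, rfl⟩
    obtain ⟨h1, h2⟩ := Finset.mem_filter.1 hα
    rw [← h2, Fin.cons_self_tail]
    exact h1
  · intro h
    exact ⟨_, Finset.mem_filter.2 ⟨h, Fin.tail_cons _ _⟩, Fin.cons_zero _ _⟩

/-- the set of tails -/
def ltchain_tl {X : Type} [DecidableEq X] {m : ℕ} (G : Finset (Fin (m + 1) → X)) :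
    Finset (Fin m → X) := G.image Fin.tail

theorem ltchain_max {X : Type} [DecidableEq X] {m : ℕ} (G : Finset (Fin (m + 1) → X))
    (hG : G.Nonempty) : ∃ a ∈ ltchain_tl G, G.card ≤ (ltchain_tl G).card * (ltchain_fib G a).card := by
  have hne : (ltchain_tl G).Nonempty := hG.image _
  obtain ⟨a, ha, hmax⟩ := Finset.exists_max_image (ltchain_tl G)
    (fun a => (ltchain_fib G a).card) hne
  refine ⟨a, ha, ?_⟩
  have hcard : ∀ b : Fin m → X, (G.filter (fun α => Fin.tail α = b)).card =
      (ltchain_fib G b).card := by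
    intro b
    unfold ltchain_fib
    rw [Finset.card_image_of_injOn]
    intro x hx y hy hxy
    have h1 := (Finset.mem_filter.1 hx).2
    have h2 := (Finset.mem_filter.1 hy).2
    rw [← Fin.cons_self_tail x, ← Fin.cons_self_tail y, h1, h2]
    have h3 : x 0 = y 0 := hxy
    rw [h3]
  have h := Finset.card_le_mul_card_image_of_maps_to (f := Fin.tail) (s := G)
    (t := ltchain_tl G) (fun x hx => Finset.mem_image_of_mem _ hx) (ltchain_fib G a).card ?_
  · rw [mul_comm]
    exact h
  · intro b hb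
    have h1 := hcard b
    have h2 := hmax b hb
    rw [← h1] at h2
    exact h2

/-- R4: the chain lemma for rectangles -/
theorem lt_chain {q w m r : ℕ} [NeZero q] (hq : 2 ≤ q) (chi : ZMod (q * q ^ w) → Bool)
    (hchi : RectP chi r) (A B : Fin m → Finset (Fin w)) (g : ℕ) (hA : ∀ i, g ≤ (A i).card)
    (hB : ∀ i, g ≤ (B i).card) (G1 G2 : Finset (Fin m → Fin w → Fin q))
    (h1 : ∀ α ∈ G1, ∀ i, ∀ t ∉ A i, α i t = 0) (h2 : ∀ β ∈ G2, ∀ i, ∀ t ∉ B i, β i t = 0)
    (sg cst : Fin m → ZMod (q * q ^ w)) (hsg : ∀ i, sg i = 1 ∨ sg i = -1) (bit : Fin m → Bool)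
    (H : ∀ α ∈ G1, ∀ β ∈ G2, ∀ i, chi (cst i + sg i * ∑ k ∈ Finset.univ.filter (i ≤ ·),
      (dig q w (q * q ^ w) (α k) + dig q w (q * q ^ w) (β k))) = bit i) :
    G1.card * G2.card * q ^ (g * m) ≤ (r ^ 3) ^ m * q ^ (∑ i, ((A i).card + (B i).card)) := by
  classical
  induction m with
  | zero =>
    have c1 : G1.card ≤ 1 := Finset.card_le_one.2 fun a _ b _ => Subsingleton.elim _ _
    have c2 : G2.card ≤ 1 := Finset.card_le_one.2 fun a _ b _ => Subsingleton.elim _ _
    simp only [mul_zero, pow_zero, mul_one, Finset.univ_eq_empty, Finset.sum_empty]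
    exact Nat.mul_le_mul c1 c2
  | succ m ih =>
    rcases G1.eq_empty_or_nonempty with e1 | n1
    · rw [e1]
      simp
    rcases G2.eq_empty_or_nonempty with e2 | n2
    · rw [e2]
      simp
    obtain ⟨a, ha, hga⟩ := ltchain_max G1 n1
    obtain ⟨b, hb, hgb⟩ := ltchain_max G2 n2
    have hT := ih (fun i => A i.succ) (fun i => B i.succ) (fun i => hA _) (fun i => hB _)
      (ltchain_tl G1) (ltchain_tl G2) ?_ ?_ (fun i => sg i.succ) (fun i => cst i.succ)
      (fun i => hsg _) (fun i => bit i.succ) ?_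
    · have hL := ltchain_level hq chi hchi (A 0) (B 0) g (hA 0) (hB 0) (ltchain_fib G1 a)
        (ltchain_fib G2 b) ?_ ?_ (sg 0)
        (cst 0 + sg 0 * ∑ k : Fin m, (dig q w (q * q ^ w) (a k) + dig q w (q * q ^ w) (b k)))
        (hsg 0) (bit 0) ?_
      · rw [Fin.sum_univ_succ]
        calc G1.card * G2.card * q ^ (g * (m + 1))
            ≤ ((ltchain_tl G1).card * (ltchain_fib G1 a).card) *
              ((ltchain_tl G2).card * (ltchain_fib G2 b).card) * q ^ (g * (m + 1)) :=
              Nat.mul_le_mul_right _ (Nat.mul_le_mul hga hgb)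
          _ = ((ltchain_tl G1).card * (ltchain_tl G2).card * q ^ (g * m)) *
              ((ltchain_fib G1 a).card * (ltchain_fib G2 b).card * q ^ g) := by
              rw [mul_add, mul_one, pow_add]
              ring
          _ ≤ ((r ^ 3) ^ m * q ^ (∑ i : Fin m, ((A i.succ).card + (B i.succ).card))) *
              (r ^ 3 * q ^ ((A 0).card + (B 0).card)) := Nat.mul_le_mul hT hL
          _ = (r ^ 3) ^ (m + 1) * q ^ ((A 0).card + (B 0).card +
                ∑ i : Fin m, ((A i.succ).card + (B i.succ).card)) := by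
              rw [pow_add q, pow_succ (r ^ 3)]
              ring
      · intro x hx t ht
        have h := h1 _ ((ltchain_mem_fib G1 a x).1 hx) 0 t ht
        rwa [Fin.cons_zero] at h
      · intro x hx t ht
        have h := h2 _ ((ltchain_mem_fib G2 b x).1 hx) 0 t ht
        rwa [Fin.cons_zero] at h
      · intro x hx y hy
        have h := H _ ((ltchain_mem_fib G1 a x).1 hx) _ ((ltchain_mem_fib G2 b y).1 hy) 0
        rw [Finset.filter_true_of_mem (fun k _ => Fin.zero_le k), Fin.sum_univ_succ] at h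
        simp only [Fin.cons_zero, Fin.cons_succ] at h
        rw [← h]
        congr 1
        ring
    · intro α hα i t ht
      obtain ⟨β, hβ, rfl⟩ := Finset.mem_image.1 hα
      exact h1 β hβ i.succ t ht
    · intro α hα i t ht
      obtain ⟨β, hβ, rfl⟩ := Finset.mem_image.1 hα
      exact h2 β hβ i.succ t ht
    · intro α hα β hβ i
      obtain ⟨α', hα', rfl⟩ := Finset.mem_image.1 hα
      obtain ⟨β', hβ', rfl⟩ := Finset.mem_image.1 hβ
      have h := H α' hα' β' hβ' i.succ
      rw [← h]
      congr 3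
      rw [Finset.sum_filter, Finset.sum_filter, Fin.sum_univ_succ]
      rw [if_neg (by exact not_le.2 (Fin.succ_pos i)), zero_add]
      refine Finset.sum_congr rfl fun k _ => ?_
      simp only [Fin.succ_le_succ_iff]
      rfl

end Pool.Agent.MP_6216ea_lc
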