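import Mathlib
import Pool.Agent.Lib.MP_6216ea_lc.LTDefs

set_option autoImplicit false

namespace Pool.Agent.MP_6216ea_lc

open Finset in
/-- colourings which are constant on `S` -/
theorem ltchi_const {p : ℕ} [NeZero p] (S : Finset (ZMod p)) (c : Bool) :
    (univ.filter fun chi : ZMod p → Bool => ∀ s ∈ S, chi s = c).card * 2 ^ S.card ≤ 2 ^ p := by
  classical
  have h1 : Fintype.card ({chi : ZMod p → Bool // ∀ s ∈ S, chi s = c} × (S → Bool)) ≤
      Fintype.card (ZMod p → Bool) := by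
    refine Fintype.card_le_of_injective
      (fun y x => if h : x ∈ S then y.2 ⟨x, h⟩ else y.1.1 x) ?_
    rintro ⟨⟨f, hf⟩, g⟩ ⟨⟨f', hf'⟩, g'⟩ heq
    have hg : g = g' := by
      funext s
      have := congrFun heq s.1
      simpa [s.2] using this
    have hff : f = f' := by
      funext x
      by_cases hx : x ∈ S
      · rw [hf x hx, hf' x hx]
      · have := congrFun heq x
        simpa [hx] using this
    subst hg
    subst hff
    rfl
  rw [Fintype.card_prod, Fintype.card_subtype] at h1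
  simpa [ZMod.card] using h1

/-- R1: a random table -/
theorem lt_chi (p r : ℕ) [NeZero p] (hr : 2 * p ^ (2 * r) < 2 ^ (r * r)) :
    ∃ chi : ZMod p → Bool, ∀ A B : Finset (ZMod p), A.card = r → B.card = r →
      (∀ a ∈ A, ∀ b ∈ B, ∀ a' ∈ A, ∀ b' ∈ B, a + b = a' + b' → a = a' ∧ b = b') →
      ∀ c, ¬ ∀ a ∈ A, ∀ b ∈ B, chi (a + b) = c := by
  classical
  by_contra hcon
  push Not at hcon
  -- index set
  set P : Finset (Finset (ZMod p)) := Finset.powersetCard r Finset.univ with hP
  set I : Finset (Finset (ZMod p) × Finset (ZMod p) × Bool) := P ×ˢ (P ×ˢ Finset.univ) with hI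
  set Bad : Finset (ZMod p) × Finset (ZMod p) × Bool → Finset (ZMod p → Bool) := fun y =>
    Finset.univ.filter fun chi => (∀ a ∈ y.1, ∀ b ∈ y.2.1, ∀ a' ∈ y.1, ∀ b' ∈ y.2.1,
      a + b = a' + b' → a = a' ∧ b = b') ∧ ∀ a ∈ y.1, ∀ b ∈ y.2.1, chi (a + b) = y.2.2 with hBad
  have hcover : (Finset.univ : Finset (ZMod p → Bool)) ⊆ I.biUnion Bad := by
    intro chi _
    obtain ⟨A, B, hA, hB, hAB, c, hc⟩ := hcon chi
    rw [Finset.mem_biUnion]
    refine ⟨(A, B, c), ?_, ?_⟩
    · simp [hI, hP, Finset.mem_powersetCard, hA, hB]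
    · simp only [hBad, Finset.mem_filter, Finset.mem_univ, true_and]
      exact ⟨hAB, hc⟩
  have hbad : ∀ y ∈ I, (Bad y).card * 2 ^ (r * r) ≤ 2 ^ p := by
    rintro ⟨A, B, c⟩ hy
    simp only [hI, hP, Finset.mem_product, Finset.mem_powersetCard, Finset.subset_univ, true_and,
      Finset.mem_univ, and_true] at hy
    obtain ⟨hA, hB⟩ := hy
    by_cases hAB : ∀ a ∈ A, ∀ b ∈ B, ∀ a' ∈ A, ∀ b' ∈ B, a + b = a' + b' → a = a' ∧ b = b'
    · have hS : ((A ×ˢ B).image fun x => x.1 + x.2).card = r * r := by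
        rw [Finset.card_image_of_injOn, Finset.card_product, hA, hB]
        rintro ⟨a, b⟩ hab ⟨a', b'⟩ hab' heq
        simp only [Finset.coe_product, Set.mem_prod, Finset.mem_coe] at hab hab'
        obtain ⟨h1, h2⟩ := hAB a hab.1 b hab.2 a' hab'.1 b' hab'.2 heq
        rw [h1, h2]
      have h1 := ltchi_const ((A ×ˢ B).image fun x => x.1 + x.2) c
      rw [hS] at h1
      refine le_trans (Nat.mul_le_mul_right _ (Finset.card_le_card ?_)) h1
      intro chi hchi
      simp only [hBad, Finset.mem_filter, Finset.mem_univ, true_and] at hchi ⊢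
      intro s hs
      rw [Finset.mem_image] at hs
      obtain ⟨x, hx, rfl⟩ := hs
      rw [Finset.mem_product] at hx
      exact hchi.2 x.1 hx.1 x.2 hx.2
    · have h0 : Bad (A, B, c) = ∅ := by
        rw [Finset.eq_empty_iff_forall_notMem]
        intro chi hchi
        simp only [hBad, Finset.mem_filter, Finset.mem_univ, true_and] at hchi
        exact hAB hchi.1
      rw [h0]
      simp
  have hPc : P.card ≤ p ^ r := by
    rw [hP, Finset.card_powersetCard, Finset.card_univ, ZMod.card]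
    exact Nat.choose_le_pow p r
  have hIc : I.card ≤ 2 * p ^ (2 * r) := by
    rw [hI, Finset.card_product, Finset.card_product, Finset.card_univ, Fintype.card_bool]
    calc P.card * (P.card * 2) ≤ p ^ r * (p ^ r * 2) :=
          Nat.mul_le_mul hPc (Nat.mul_le_mul_right _ hPc)
      _ = 2 * p ^ (2 * r) := by ring
  have hcard : 2 ^ p ≤ ∑ y ∈ I, (Bad y).card := by
    have h1 := (Finset.card_le_card hcover).trans Finset.card_biUnion_le
    rw [Finset.card_univ, Fintype.card_fun, Fintype.card_bool, ZMod.card] at h1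
    exact h1
  have h2 : 2 ^ p * 2 ^ (r * r) ≤ 2 * p ^ (2 * r) * 2 ^ p := by
    calc 2 ^ p * 2 ^ (r * r) ≤ (∑ y ∈ I, (Bad y).card) * 2 ^ (r * r) :=
          Nat.mul_le_mul_right _ hcard
      _ = ∑ y ∈ I, (Bad y).card * 2 ^ (r * r) := by rw [Finset.sum_mul]
      _ ≤ ∑ _y ∈ I, 2 ^ p := Finset.sum_le_sum hbad
      _ = I.card * 2 ^ p := by rw [Finset.sum_const, smul_eq_mul]
      _ ≤ 2 * p ^ (2 * r) * 2 ^ p := Nat.mul_le_mul_right _ hIc
  have h3 : (0 : ℕ) < 2 ^ p := by positivity
  nlinarith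

end Pool.Agent.MP_6216ea_lc
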