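import Mathlib
import Pool.Agent.Lib.MP_6216ea_lc.LTDefs

set_option autoImplicit false

namespace Pool.Agent.MP_6216ea_lc

theorem ltraw_valZ_congr {p : ℕ} (r : ℕ) : ∀ (c c' : List Bool → ZMod p),
    (∀ l, l.length = r → c l = c' l) → valZ r c = valZ r c' := by
  induction r with
  | zero =>
    intro c c' H
    simp only [valZ]
    exact H [] rfl
  | succ r ih =>
    intro c c' H
    simp only [valZ]
    rw [ih (fun l => c (false :: l)) (fun l => c' (false :: l)) (fun l hl => H _ (by simp [hl])),
      ih (fun l => c (true :: l)) (fun l => c' (true :: l)) (fun l hl => H _ (by simp [hl]))]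

/-- the raw value only depends on the leaves below the node -/
theorem rawZ_congr {p : ℕ} (h : ℕ) (c c' : List Bool → ZMod p) (v : List Bool)
    (H : ∀ l, l.length + v.length = h → c (v ++ l) = c' (v ++ l)) (hv : v.length < h) :
    rawZ h c v = rawZ h c' v := by
  unfold rawZ
  rw [ltraw_valZ_congr (h - 1 - v.length) (fun l => c (v ++ false :: l))
      (fun l => c' (v ++ false :: l)) (fun l hl => H _ (by simp only [List.length_cons]; omega)),
    ltraw_valZ_congr (h - 1 - v.length) (fun l => c (v ++ true :: l))
      (fun l => c' (v ++ true :: l)) (fun l hl => H _ (by simp only [List.length_cons]; omega))]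

theorem ltraw_sum_cons {p : ℕ} (r : ℕ) (F : List Bool → ZMod p) :
    ∑ y : Fin (r + 1) → Bool, F (List.ofFn y) =
      ∑ x : Fin r → Bool, (F (false :: List.ofFn x) + F (true :: List.ofFn x)) := by
  rw [← (Fin.consEquiv (fun _ : Fin (r + 1) => Bool)).sum_comp
    (fun y : Fin (r + 1) → Bool => F (List.ofFn y)), Fintype.sum_prod_type, Fintype.sum_bool,
    ← Finset.sum_add_distrib]
  refine Finset.sum_congr rfl fun x _ => ?_
  have e : ∀ b : Bool, List.ofFn ((Fin.consEquiv (fun _ : Fin (r + 1) => Bool)) (b, x)) =
      b :: List.ofFn x := by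
    intro b
    rw [List.ofFn_succ]
    rfl
  rw [e true, e false, add_comm]

theorem ltraw_valZ_sub {p : ℕ} (r : ℕ) : ∀ (c c' : List Bool → ZMod p),
    valZ r c' - valZ r c =
      (-1) ^ r * ∑ x : Fin r → Bool, (c' (List.ofFn x) - c (List.ofFn x)) := by
  induction r with
  | zero =>
    intro c c'
    simp [valZ]
  | succ r ih =>
    intro c c'
    have h1 := ih (fun l => c (false :: l)) (fun l => c' (false :: l))
    have h2 := ih (fun l => c (true :: l)) (fun l => c' (true :: l))
    rw [ltraw_sum_cons r (fun l => c' l - c l)]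
    simp only [valZ]
    rw [Finset.sum_add_distrib, mul_add, pow_succ]
    have e : -1 - (valZ r (fun l => c' (false :: l)) + valZ r (fun l => c' (true :: l)))
        - (-1 - (valZ r (fun l => c (false :: l)) + valZ r (fun l => c (true :: l))))
        = -((valZ r (fun l => c' (false :: l)) - valZ r (fun l => c (false :: l)))
          + (valZ r (fun l => c' (true :: l)) - valZ r (fun l => c (true :: l)))) := by ring
    rw [e, h1, h2]
    ring

/-- R5: the raw values depend linearly on the leaves -/
theorem rawZ_sub {p : ℕ} (h : ℕ) (c c' : List Bool → ZMod p) (z : Lf h) (j : ℕ) (hj : j < h) :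
    rawZ h c' (nodeAt z j) - rawZ h c (nodeAt z j) =
      (-1) ^ (h - 1 - j) * ∑ l ∈ Finset.univ.filter (fun l : Lf h => agr j l z),
        (c' (List.ofFn l) - c (List.ofFn l)) := by
  obtain ⟨r, rfl⟩ : ∃ r, h = j + (r + 1) := ⟨h - 1 - j, by omega⟩
  have hr : j + (r + 1) - 1 - j = r := by omega
  set z0 : Fin j → Bool := fun i => z (Fin.castAdd (r + 1) i) with hz0
  have hz : z = Fin.append z0 (fun k => z (Fin.natAdd j k)) := by
    rw [hz0, Fin.append_castAdd_natAdd]
  have hv : nodeAt z j = List.ofFn z0 := by
    unfold nodeAt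
    rw [hz, List.ofFn_fin_append]
    have : (List.ofFn z0).length = j := List.length_ofFn
    rw [List.take_append_of_le_length this.ge]
    exact List.take_of_length_le this.le
  have hlen : (nodeAt z j).length = j := by
    rw [hv, List.length_ofFn]
  have hsum : ∑ l ∈ Finset.univ.filter (fun l : Lf (j + (r + 1)) => agr j l z),
        (c' (List.ofFn l) - c (List.ofFn l)) =
      ∑ y : Fin (r + 1) → Bool, (c' (nodeAt z j ++ List.ofFn y) - c (nodeAt z j ++ List.ofFn y)) := by
    symm
    refine Finset.sum_nbij' (fun y => Fin.append z0 y) (fun l k => l (Fin.natAdd j k)) ?_ ?_ ?_ ?_ ?_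
    · intro y _
      rw [Finset.mem_filter]
      refine ⟨Finset.mem_univ _, ?_⟩
      intro i hi
      have hi' : i = Fin.castAdd (r + 1) ⟨i.val, hi⟩ := by
        apply Fin.ext
        rfl
      rw [hi', Fin.append_left]
    · intro l _
      exact Finset.mem_univ _
    · intro y _
      funext k
      rw [Fin.append_right]
    · intro l hl
      rw [Finset.mem_filter] at hl
      have hag := hl.2
      have : z0 = fun i => l (Fin.castAdd (r + 1) i) := by
        funext i
        rw [hz0]
        exact (hag (Fin.castAdd (r + 1) i) (by simp)).symm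
      rw [this]
      exact Fin.append_castAdd_natAdd
    · intro y _
      rw [List.ofFn_fin_append, hv]
  rw [hsum]
  have e1 := ltraw_sum_cons r (fun l => c' (nodeAt z j ++ l) - c (nodeAt z j ++ l))
  rw [e1, hr]
  unfold rawZ
  rw [hlen, hr]
  have h1 := ltraw_valZ_sub r (fun l => c (nodeAt z j ++ false :: l))
    (fun l => c' (nodeAt z j ++ false :: l))
  have h2 := ltraw_valZ_sub r (fun l => c (nodeAt z j ++ true :: l))
    (fun l => c' (nodeAt z j ++ true :: l))
  rw [Finset.sum_add_distrib, mul_add, ← h1, ← h2]
  ring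

end Pool.Agent.MP_6216ea_lc
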