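import Mathlib
import Pool.Agent.Lib.MP_6216ea_lc.LTDefs
import Pool.Agent.Lib.MP_6216ea_lc.LTChain
import Pool.Agent.Lib.MP_6216ea_lc.LTRaw

/-! Class lemma: the inputs of a class, free letters at the leaves `X i`, `Y i`. -/

set_option autoImplicit false

namespace Pool.Agent.MP_6216ea_lc

/-! ### positions on the path -/

theorem ltclass_agr_mono {h j j' : ℕ} (hj : j ≤ j') {x y : Lf h} (ha : agr j' x y) : agr j x y :=
  fun i hi => ha i (by omega)

theorem ltclass_iff {h m : ℕ} {z : Lf h} {lev : Fin (m + 1) → ℕ} (hlev : Monotone lev)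
    {X : Fin m → Lf h}
    (hX : ∀ i : Fin m, agr (lev i.castSucc) (X i) z ∧ ¬ agr (lev i.succ) (X i) z) (i k : Fin m) :
    agr (lev i.castSucc) (X k) z ↔ i ≤ k := by
  constructor
  · intro ha
    by_contra hlt
    push Not at hlt
    apply (hX k).2
    refine ltclass_agr_mono (hlev ?_) ha
    rw [Fin.le_def]
    simp only [Fin.val_succ, Fin.val_castSucc]
    exact hlt
  · intro hik
    refine ltclass_agr_mono (hlev ?_) (hX k).1
    rw [Fin.le_def]
    simpa using hik

theorem ltclass_inj {h m : ℕ} {z : Lf h} {lev : Fin (m + 1) → ℕ} (hlev : Monotone lev)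
    {X : Fin m → Lf h}
    (hX : ∀ i : Fin m, agr (lev i.castSucc) (X i) z ∧ ¬ agr (lev i.succ) (X i) z) :
    Function.Injective X := by
  intro i k hik
  apply le_antisymm
  · rw [← ltclass_iff hlev hX, ← hik]
    exact (hX i).1
  · rw [← ltclass_iff hlev hX, hik]
    exact (hX k).1

theorem ltclass_lev_lt {h m : ℕ} {z : Lf h} {lev : Fin (m + 1) → ℕ}
    (hlh : ∀ i, lev i ≤ h) {X : Fin m → Lf h}
    (hX : ∀ i : Fin m, agr (lev i.castSucc) (X i) z ∧ ¬ agr (lev i.succ) (X i) z) (i : Fin m) :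
    lev i.castSucc < h := by
  by_contra hge
  push Not at hge
  apply (hX i).2
  refine ltclass_agr_mono ?_ (hX i).1
  have := hlh i.succ
  omega

theorem ltclass_decL {h : ℕ} (l : Lf h) : decL h (List.ofFn l) = l := by
  funext i
  unfold decL
  rw [List.getD_eq_getElem?_getD, List.getElem?_ofFn]
  simp

/-! ### the letters -/

/-- the letters read at the leaves `X i`, sub-blocks `A i` -/
def ltclassRd {q h w M m : ℕ} [NeZero q] (Ψ : Lf h × Fin w → Fin M) (X : Fin m → Lf h)
    (A : Fin m → Finset (Fin w)) (a : Vr h w M → Fin q) : Fin m → Fin w → Fin q :=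
  fun i t => if t ∈ A i then a (X i, t, Ψ (X i, t)) else 0

/-- the base input -/
def ltclassBase {q h w M m : ℕ} [NeZero q] (Ψ : Lf h × Fin w → Fin M) (X Y : Fin m → Lf h)
    (A B : Fin m → Finset (Fin w)) (a : Vr h w M → Fin q) : Vr h w M → Fin q :=
  fun x => if isX Ψ X A x ∨ isX Ψ Y B x then 0 else a x

/-- a sum over the leaves `X k` which are equal to `l` -/
theorem ltclass_sum_one {m : ℕ} {L R : Type} [DecidableEq L] [AddCommMonoid R] {X : Fin m → L}
    (hinj : Function.Injective X) (k : Fin m) (f : Fin m → R) :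
    ∑ k', (if X k' = X k then f k' else 0) = f k := by
  rw [Finset.sum_eq_single k]
  · rw [if_pos rfl]
  · intro b _ hb
    rw [if_neg (fun h => hb (hinj h))]
  · intro h
    exact absurd (Finset.mem_univ k) h

theorem ltclass_leaf {q h w M m p : ℕ} [NeZero q] (Ψ : Lf h × Fin w → Fin M)
    {X Y : Fin m → Lf h} (hXi : Function.Injective X) (hYi : Function.Injective Y)
    {A B : Fin m → Finset (Fin w)} (hd : ∀ i j t, X i = Y j → t ∈ A i → t ∉ B j)
    (a a' a₀ : Vr h w M → Fin q)
    (h1 : ∀ x, ¬ isX Ψ X A x → ¬ isX Ψ Y B x → a x = a₀ x) (l : Lf h) (t : Fin w) :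
    ∑ i, (((lmix Ψ Y B a a' (l, t, i)).val : ZMod p)) =
      ∑ i, (((ltclassBase Ψ X Y A B a₀ (l, t, i)).val : ZMod p)) +
      (∑ k, (if X k = l then ((ltclassRd Ψ X A a k t).val : ZMod p) else 0) +
        ∑ k, (if Y k = l then ((ltclassRd Ψ Y B a' k t).val : ZMod p) else 0)) := by
  rw [← Finset.add_sum_erase _ _ (Finset.mem_univ (Ψ (l, t))),
    ← Finset.add_sum_erase (f := fun i => (((ltclassBase Ψ X Y A B a₀ (l, t, i)).val : ZMod p))) _
      (Finset.mem_univ (Ψ (l, t)))]
  have hoff : ∑ i ∈ Finset.univ.erase (Ψ (l, t)), (((lmix Ψ Y B a a' (l, t, i)).val : ZMod p)) =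
      ∑ i ∈ Finset.univ.erase (Ψ (l, t)),
        (((ltclassBase Ψ X Y A B a₀ (l, t, i)).val : ZMod p)) := by
    apply Finset.sum_congr rfl
    intro i hi
    have hi' := Finset.ne_of_mem_erase hi
    have hnX : ¬ isX Ψ X A (l, t, i) := by
      rintro ⟨k, _, _, h3⟩
      exact hi' h3
    have hnY : ¬ isX Ψ Y B (l, t, i) := by
      rintro ⟨k, _, _, h3⟩
      exact hi' h3
    unfold lmix ltclassBase
    rw [if_neg hnY, if_neg (by tauto), h1 _ hnX hnY]
  rw [hoff]
  have hon : (((lmix Ψ Y B a a' (l, t, Ψ (l, t))).val : ZMod p)) =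
      ((ltclassBase Ψ X Y A B a₀ (l, t, Ψ (l, t))).val : ZMod p) +
      (∑ k, (if X k = l then ((ltclassRd Ψ X A a k t).val : ZMod p) else 0) +
        ∑ k, (if Y k = l then ((ltclassRd Ψ Y B a' k t).val : ZMod p) else 0)) := by
    by_cases hY : isX Ψ Y B (l, t, Ψ (l, t))
    · obtain ⟨k, hk1, hk2, -⟩ := hY
      simp only at hk1 hk2
      have hY' : isX Ψ Y B (l, t, Ψ (l, t)) := ⟨k, hk1, hk2, rfl⟩
      have hXsum : ∑ k, (if X k = l then ((ltclassRd Ψ X A a k t).val : ZMod p) else 0) = 0 := by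
        apply Finset.sum_eq_zero
        intro k' _
        split_ifs with hk'
        · unfold ltclassRd
          rw [if_neg (fun h => hd k' k t (by rw [hk', hk1]) h hk2)]
          simp
        · rfl
      have hYsum : ∑ k, (if Y k = l then ((ltclassRd Ψ Y B a' k t).val : ZMod p) else 0) =
          ((ltclassRd Ψ Y B a' k t).val : ZMod p) := by
        rw [hk1]
        exact ltclass_sum_one hYi k _
      rw [hXsum, hYsum]
      unfold lmix ltclassBase ltclassRd
      rw [if_pos hY', if_pos (Or.inr hY'), if_pos hk2, ← hk1]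
      simp
    · have hYsum : ∑ k, (if Y k = l then ((ltclassRd Ψ Y B a' k t).val : ZMod p) else 0) = 0 := by
        apply Finset.sum_eq_zero
        intro k' _
        split_ifs with hk'
        · unfold ltclassRd
          rw [if_neg (fun h => hY ⟨k', hk'.symm, h, rfl⟩)]
          simp
        · rfl
      rw [hYsum, add_zero]
      by_cases hX : isX Ψ X A (l, t, Ψ (l, t))
      · obtain ⟨k, hk1, hk2, -⟩ := hX
        simp only at hk1 hk2
        have hX' : isX Ψ X A (l, t, Ψ (l, t)) := ⟨k, hk1, hk2, rfl⟩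
        have hXsum : ∑ k, (if X k = l then ((ltclassRd Ψ X A a k t).val : ZMod p) else 0) =
            ((ltclassRd Ψ X A a k t).val : ZMod p) := by
          rw [hk1]
          exact ltclass_sum_one hXi k _
        rw [hXsum]
        unfold lmix ltclassBase ltclassRd
        rw [if_neg hY, if_pos (Or.inl hX'), if_pos hk2, ← hk1]
        simp
      · have hXsum : ∑ k, (if X k = l then ((ltclassRd Ψ X A a k t).val : ZMod p) else 0) = 0 := by
          apply Finset.sum_eq_zero
          intro k' _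
          split_ifs with hk'
          · unfold ltclassRd
            rw [if_neg (fun h => hX ⟨k', hk'.symm, h, rfl⟩)]
            simp
          · rfl
        rw [hXsum, add_zero]
        unfold lmix ltclassBase
        rw [if_neg hY, if_neg (by tauto), h1 _ hX hY]
  rw [hon]
  ring

theorem ltclass_cont {q h w M m p : ℕ} [NeZero q] (Ψ : Lf h × Fin w → Fin M)
    {X Y : Fin m → Lf h} (hXi : Function.Injective X) (hYi : Function.Injective Y)
    {A B : Fin m → Finset (Fin w)} (hd : ∀ i j t, X i = Y j → t ∈ A i → t ∉ B j)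
    (a a' a₀ : Vr h w M → Fin q)
    (h1 : ∀ x, ¬ isX Ψ X A x → ¬ isX Ψ Y B x → a x = a₀ x) (l : Lf h) :
    contZ q h w M p (lmix Ψ Y B a a') (List.ofFn l) -
      contZ q h w M p (ltclassBase Ψ X Y A B a₀) (List.ofFn l) =
      -(∑ k, (if X k = l then dig q w p (ltclassRd Ψ X A a k) else 0) +
        ∑ k, (if Y k = l then dig q w p (ltclassRd Ψ Y B a' k) else 0)) := by
  unfold contZ leafZ
  rw [ltclass_decL]
  have h2 : ∀ t : Fin w, (-(q : ZMod p)) ^ (w - t.val) *
      (1 + ∑ i, (((lmix Ψ Y B a a' (l, t, i)).val : ZMod p))) =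
      (-(q : ZMod p)) ^ (w - t.val) *
        (1 + ∑ i, (((ltclassBase Ψ X Y A B a₀ (l, t, i)).val : ZMod p))) +
      (∑ k, (if X k = l then (-(q : ZMod p)) ^ (w - t.val) *
          ((ltclassRd Ψ X A a k t).val : ZMod p) else 0) +
        ∑ k, (if Y k = l then (-(q : ZMod p)) ^ (w - t.val) *
          ((ltclassRd Ψ Y B a' k t).val : ZMod p) else 0)) := by
    intro t
    have e1 : ∀ (Z : Fin m → Lf h) (f : Fin m → Fin w → Fin q),
        ∑ k, (if Z k = l then (-(q : ZMod p)) ^ (w - t.val) * ((f k t).val : ZMod p) else 0) =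
          (-(q : ZMod p)) ^ (w - t.val) * ∑ k, (if Z k = l then ((f k t).val : ZMod p) else 0) := by
      intro Z f
      rw [Finset.mul_sum]
      apply Finset.sum_congr rfl
      intro k _
      rw [mul_ite, mul_zero]
    rw [ltclass_leaf Ψ hXi hYi hd a a' a₀ h1 l t, e1, e1]
    ring
  rw [Finset.sum_congr rfl (fun t _ => h2 t), Finset.sum_add_distrib, Finset.sum_add_distrib]
  rw [Finset.sum_comm, Finset.sum_comm (f := fun (t : Fin w) (k : Fin m) =>
    if Y k = l then (-(q : ZMod p)) ^ (w - t.val) * ((ltclassRd Ψ Y B a' k t).val : ZMod p) else 0)]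
  have h3 : ∀ (Z : Fin m → Lf h) (f : Fin m → Fin w → Fin q),
      ∑ k, ∑ t : Fin w, (if Z k = l then (-(q : ZMod p)) ^ (w - t.val) *
        ((f k t).val : ZMod p) else 0) = ∑ k, (if Z k = l then dig q w p (f k) else 0) := by
    intro Z f
    apply Finset.sum_congr rfl
    intro k _
    split_ifs
    · rfl
    · simp
  rw [h3, h3]
  ring

/-- R6: class lemma -/
theorem lt_class {q h w M m r : ℕ} [NeZero q] (hq : 2 ≤ q) (chi : ZMod (q * q ^ w) → Bool)
    (hchi : RectP chi r) (Ψ : Lf h × Fin w → Fin M) (z : Lf h) (lev : Fin (m + 1) → ℕ)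
    (hlev : Monotone lev) (hlh : ∀ i, lev i ≤ h) (X Y : Fin m → Lf h)
    (A B : Fin m → Finset (Fin w))
    (hX : ∀ i : Fin m, agr (lev i.castSucc) (X i) z ∧ ¬ agr (lev i.succ) (X i) z)
    (hY : ∀ i : Fin m, agr (lev i.castSucc) (Y i) z ∧ ¬ agr (lev i.succ) (Y i) z)
    (hd : ∀ i j t, X i = Y j → t ∈ A i → t ∉ B j) (g : ℕ) (hA : ∀ i, g ≤ (A i).card)
    (hB : ∀ i, g ≤ (B i).card) (bit : Fin m → Bool) (F : Finset (Vr h w M → Fin q))
    (hF1 : ∀ a ∈ F, ∀ a' ∈ F, ∀ x, ¬ isX Ψ X A x → ¬ isX Ψ Y B x → a x = a' x)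
    (hF2 : ∀ a ∈ F, ∀ a' ∈ F, ∀ i : Fin m,
      chi (rawZ h (contZ q h w M (q * q ^ w) (lmix Ψ Y B a a')) (nodeAt z (lev i.castSucc))) =
        bit i) :
    F.card * q ^ (g * m) ≤ (r ^ 3) ^ m * q ^ (∑ i, ((A i).card + (B i).card)) := by
  classical
  rcases F.eq_empty_or_nonempty with rfl | ⟨a₀, ha₀⟩
  · simp
  have hXi := ltclass_inj hlev hX
  have hYi := ltclass_inj hlev hY
  have hcard : F.card ≤ (F.image (ltclassRd Ψ X A)).card * (F.image (ltclassRd Ψ Y B)).card := by
    rw [← Finset.card_product]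
    apply Finset.card_le_card_of_injOn (fun a => (ltclassRd Ψ X A a, ltclassRd Ψ Y B a))
    · intro a ha
      rw [Finset.mem_coe, Finset.mem_product]
      exact ⟨Finset.mem_image_of_mem _ ha, Finset.mem_image_of_mem _ ha⟩
    · intro a ha a' ha' heq
      rw [Prod.mk.injEq] at heq
      funext x
      by_cases hx : isX Ψ X A x
      · obtain ⟨k, h1, h2, h3⟩ := hx
        have := congrFun (congrFun heq.1 k) x.2.1
        unfold ltclassRd at this
        rw [if_pos h2, if_pos h2] at this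
        have hxe : x = (X k, x.2.1, Ψ (X k, x.2.1)) := by
          rw [← h1, ← h3]
        rw [hxe]
        exact this
      · by_cases hy : isX Ψ Y B x
        · obtain ⟨k, h1, h2, h3⟩ := hy
          have := congrFun (congrFun heq.2 k) x.2.1
          unfold ltclassRd at this
          rw [if_pos h2, if_pos h2] at this
          have hxe : x = (Y k, x.2.1, Ψ (Y k, x.2.1)) := by
            rw [← h1, ← h3]
          rw [hxe]
          exact this
        · exact hF1 a ha a' ha' x hx hy
  refine (Nat.mul_le_mul_right _ hcard).trans ?_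
  apply lt_chain hq chi hchi A B g hA hB (F.image (ltclassRd Ψ X A)) (F.image (ltclassRd Ψ Y B))
    ?_ ?_ (fun i => -(-1) ^ (h - 1 - lev i.castSucc))
    (fun i => rawZ h (contZ q h w M (q * q ^ w) (ltclassBase Ψ X Y A B a₀))
      (nodeAt z (lev i.castSucc))) ?_ bit ?_
  · intro α hα i t ht
    obtain ⟨a, _, rfl⟩ := Finset.mem_image.1 hα
    unfold ltclassRd
    rw [if_neg ht]
  · intro α hα i t ht
    obtain ⟨a, _, rfl⟩ := Finset.mem_image.1 hα
    unfold ltclassRd
    rw [if_neg ht]
  · intro i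
    rcases neg_one_pow_eq_or (ZMod (q * q ^ w)) (h - 1 - lev i.castSucc) with h1 | h1
    · right
      simp only [h1]
    · left
      simp only [h1, neg_neg]
  · intro α hα β hβ i
    obtain ⟨a, ha, rfl⟩ := Finset.mem_image.1 hα
    obtain ⟨a', ha', rfl⟩ := Finset.mem_image.1 hβ
    rw [← hF2 a ha a' ha' i]
    congr 1
    have h1 := rawZ_sub h (contZ q h w M (q * q ^ w) (ltclassBase Ψ X Y A B a₀))
      (contZ q h w M (q * q ^ w) (lmix Ψ Y B a a')) z (lev i.castSucc)
      (ltclass_lev_lt hlh hX i)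
    have h2 : ∑ l ∈ Finset.univ.filter (fun l : Lf h => agr (lev i.castSucc) l z),
        (contZ q h w M (q * q ^ w) (lmix Ψ Y B a a') (List.ofFn l) -
          contZ q h w M (q * q ^ w) (ltclassBase Ψ X Y A B a₀) (List.ofFn l)) =
        -∑ k ∈ Finset.univ.filter (i ≤ ·), (dig q w (q * q ^ w) (ltclassRd Ψ X A a k) +
          dig q w (q * q ^ w) (ltclassRd Ψ Y B a' k)) := by
      rw [Finset.sum_congr rfl (fun l _ => ltclass_cont Ψ hXi hYi hd a a' a₀
        (fun x hx hy => hF1 a ha a₀ ha₀ x hx hy) l), Finset.sum_neg_distrib,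
        Finset.sum_add_distrib, Finset.sum_add_distrib]
      have h3 : ∀ (Z : Fin m → Lf h) (f : Fin m → ZMod (q * q ^ w)),
          (∀ k, agr (lev i.castSucc) (Z k) z ↔ i ≤ k) →
          ∑ l ∈ Finset.univ.filter (fun l : Lf h => agr (lev i.castSucc) l z),
            ∑ k, (if Z k = l then f k else 0) = ∑ k ∈ Finset.univ.filter (i ≤ ·), f k := by
        intro Z f hZ
        rw [Finset.sum_comm, Finset.sum_filter]
        apply Finset.sum_congr rfl
        intro k _
        rw [Finset.sum_ite_eq]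
        simp only [Finset.mem_filter, Finset.mem_univ, true_and, hZ k]
      rw [h3 X _ (fun k => ltclass_iff hlev hX i k), h3 Y _ (fun k => ltclass_iff hlev hY i k)]
    rw [h2] at h1
    have h4 : rawZ h (contZ q h w M (q * q ^ w) (lmix Ψ Y B a a')) (nodeAt z (lev i.castSucc)) =
        rawZ h (contZ q h w M (q * q ^ w) (ltclassBase Ψ X Y A B a₀))
          (nodeAt z (lev i.castSucc)) + (rawZ h (contZ q h w M (q * q ^ w)
            (lmix Ψ Y B a a')) (nodeAt z (lev i.castSucc)) -
          rawZ h (contZ q h w M (q * q ^ w) (ltclassBase Ψ X Y A B a₀))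
            (nodeAt z (lev i.castSucc))) := by ring
    rw [h4, h1]
    ring

end Pool.Agent.MP_6216ea_lc
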