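import Mathlib
import Pool.Agent.Lib.MP_6216ea_lc.LTDefs
import Pool.Agent.Lib.MP_6216ea_lc.LTClass

set_option autoImplicit false

namespace Pool.Agent.MP_6216ea_lc

theorem ltdata_valZ {p : ℕ} (r : ℕ) : ∀ c c' : List Bool → ZMod p,
    (∀ l : List Bool, l.length = r → c l = c' l) → valZ r c = valZ r c' := by
  induction r with
  | zero => intro c c' hc; exact hc [] rfl
  | succ r ih =>
    intro c c' hc
    simp only [valZ]
    rw [ih (fun l => c (false :: l)) (fun l => c' (false :: l)) (fun l hl => hc _ (by simp [hl])),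
      ih (fun l => c (true :: l)) (fun l => c' (true :: l)) (fun l hl => hc _ (by simp [hl]))]

theorem ltdata_congr {p : ℕ} (h : ℕ) (c c' : List Bool → ZMod p) (v : List Bool)
    (hc : ∀ l : List Bool, l.length + v.length = h → c (v ++ l) = c' (v ++ l))
    (hv : v.length < h) : rawZ h c v = rawZ h c' v := by
  unfold rawZ
  rw [ltdata_valZ _ (fun l => c (v ++ false :: l)) (fun l => c' (v ++ false :: l))
      (fun l hl => hc _ (by simp only [List.length_cons, hl]; omega)),
    ltdata_valZ _ (fun l => c (v ++ true :: l)) (fun l => c' (v ++ true :: l))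
      (fun l hl => hc _ (by simp only [List.length_cons, hl]; omega))]

/-- A list with the length of a leaf is a prefix list of its leaf. -/
theorem ltdata_take {h : ℕ} (v l : List Bool) (hl : l.length + v.length = h) (x : Lf h)
    (hx : decL h (v ++ l) = x) : v = nodeAt x v.length := by
  subst hx
  unfold nodeAt decL
  have h1 : List.ofFn (fun i : Fin h => (v ++ l).getD i false) = v ++ l := by
    apply List.ext_getElem
    · simp; omega
    · intro i h1 h2
      simp only [List.getElem_ofFn]
      rw [List.getD_eq_getElem _ _ h2]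
  rw [h1]
  simp

theorem ltdata_lev_lt {h m : ℕ} {z : Lf h} {lev : Fin (m + 1) → ℕ} (hlh : ∀ i, lev i ≤ h)
    {X : Fin m → Lf h}
    (hX : ∀ i : Fin m, agr (lev i.castSucc) (X i) z ∧ ¬ agr (lev i.succ) (X i) z) (i : Fin m) :
    lev i.castSucc < h := by
  by_contra hcon
  push Not at hcon
  apply (hX i).2
  intro k hk
  exact (hX i).1 k (by have := hlh i.succ; omega)

theorem ltdata_inj {h m : ℕ} {z : Lf h} {lev : Fin (m + 1) → ℕ} (hlev : Monotone lev)
    {X : Fin m → Lf h}
    (hX : ∀ i : Fin m, agr (lev i.castSucc) (X i) z ∧ ¬ agr (lev i.succ) (X i) z) :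
    Function.Injective X := by
  have key : ∀ i j : Fin m, i < j → X i ≠ X j := by
    intro i j hij he
    apply (hX i).2
    rw [he]
    intro k hk
    have h1 : lev i.succ ≤ lev j.castSucc := hlev (by
      rw [Fin.le_def]
      simp only [Fin.val_succ, Fin.val_castSucc]
      exact hij)
    exact (hX j).1 k (lt_of_lt_of_le hk h1)
  intro i j hij
  rcases lt_trichotomy i j with h1 | h1 | h1
  · exact absurd hij (key i j h1)
  · exact h1
  · exact absurd hij.symm (key j i h1)

theorem ltdata_card {h w M m : ℕ} (Ψ : Lf h × Fin w → Fin M) (X Y : Fin m → Lf h)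
    (A B : Fin m → Finset (Fin w)) (hXi : Function.Injective X) (hYi : Function.Injective Y)
    (hd : ∀ i j t, X i = Y j → t ∈ A i → t ∉ B j) :
    ∑ i, ((A i).card + (B i).card) ≤
      (Finset.univ.filter fun x : Vr h w M => isX Ψ X A x ∨ isX Ψ Y B x).card := by
  classical
  have h1 : ∑ i, ((A i).card + (B i).card) =
      ((Finset.univ.sigma fun i => A i).card + (Finset.univ.sigma fun i => B i).card) := by
    rw [Finset.card_sigma, Finset.card_sigma, Finset.sum_add_distrib]
  rw [h1]
  set SA := (Finset.univ.sigma fun i => A i) with hSA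
  set SB := (Finset.univ.sigma fun i => B i) with hSB
  have h2 : (SA.image fun s : (Σ _ : Fin m, Fin w) => ((X s.1, s.2, Ψ (X s.1, s.2)) : Vr h w M)).card
      = SA.card := by
    apply Finset.card_image_of_injective
    rintro ⟨i, t⟩ ⟨j, t'⟩ hij
    simp only [Prod.mk.injEq] at hij
    obtain ⟨e1, e2, -⟩ := hij
    have := hXi e1
    subst this
    subst e2
    rfl
  have h3 : (SB.image fun s : (Σ _ : Fin m, Fin w) => ((Y s.1, s.2, Ψ (Y s.1, s.2)) : Vr h w M)).card
      = SB.card := by
    apply Finset.card_image_of_injective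
    rintro ⟨i, t⟩ ⟨j, t'⟩ hij
    simp only [Prod.mk.injEq] at hij
    obtain ⟨e1, e2, -⟩ := hij
    have := hYi e1
    subst this
    subst e2
    rfl
  rw [← h2, ← h3, ← Finset.card_union_of_disjoint]
  · apply Finset.card_le_card
    intro x hx
    simp only [Finset.mem_union, Finset.mem_image, Finset.mem_filter, Finset.mem_univ,
      true_and] at hx ⊢
    rcases hx with ⟨s, hs, rfl⟩ | ⟨s, hs, rfl⟩
    · left
      exact ⟨s.1, rfl, (Finset.mem_sigma.1 hs).2, rfl⟩
    · right
      exact ⟨s.1, rfl, (Finset.mem_sigma.1 hs).2, rfl⟩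
  · rw [Finset.disjoint_left]
    intro x hx hx'
    simp only [Finset.mem_image] at hx hx'
    obtain ⟨s, hs, rfl⟩ := hx
    obtain ⟨s', hs', he⟩ := hx'
    simp only [Prod.mk.injEq] at he
    obtain ⟨e1, e2, -⟩ := he
    refine hd s.1 s'.1 s.2 e1.symm (Finset.mem_sigma.1 hs).2 ?_
    rw [← e2]
    exact (Finset.mem_sigma.1 hs').2

/-- R7: all inputs with the same data -/
theorem lt_data {q h w M m r : ℕ} [NeZero q] (hq : 2 ≤ q) (chi : ZMod (q * q ^ w) → Bool)
    (hchi : RectP chi r) (Ψ : Lf h × Fin w → Fin M) (z : Lf h) (lev : Fin (m + 1) → ℕ)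
    (hlev : Monotone lev) (hlh : ∀ i, lev i ≤ h) (X Y : Fin m → Lf h)
    (A B : Fin m → Finset (Fin w))
    (hX : ∀ i : Fin m, agr (lev i.castSucc) (X i) z ∧ ¬ agr (lev i.succ) (X i) z)
    (hY : ∀ i : Fin m, agr (lev i.castSucc) (Y i) z ∧ ¬ agr (lev i.succ) (Y i) z)
    (hd : ∀ i j t, X i = Y j → t ∈ A i → t ∉ B j) (g : ℕ) (hA : ∀ i, g ≤ (A i).card)
    (hB : ∀ i, g ≤ (B i).card) (F : Finset (Vr h w M → Fin q))
    (hF : ∀ a ∈ F, ∀ a' ∈ F, (∀ x, ¬ isX Ψ X A x → ¬ isX Ψ Y B x → a x = a' x) →
      (∀ v : List Bool, v.length < h → chi (rawZ h (contZ q h w M (q * q ^ w) a) v) =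
        chi (rawZ h (contZ q h w M (q * q ^ w) a') v)) →
      ∀ v : List Bool, v.length < h →
        chi (rawZ h (contZ q h w M (q * q ^ w) (lmix Ψ Y B a a')) v) =
          chi (rawZ h (contZ q h w M (q * q ^ w) a) v)) :
    F.card * q ^ (g * m) ≤ (r ^ 3) ^ m * 2 ^ (2 * m * h) * q ^ (2 ^ h * w * M) := by
  classical
  set U : Finset (Vr h w M) := Finset.univ.filter fun x => isX Ψ X A x ∨ isX Ψ Y B x with hU
  -- the code of an input
  let code : (Vr h w M → Fin q) → ({x : Vr h w M // x ∉ U} → Fin q) ×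
      ((Fin m × Bool) × Fin h → Bool) := fun a =>
    (fun x => a x.1, fun s => chi (rawZ h (contZ q h w M (q * q ^ w) a)
      (nodeAt (if s.1.2 then X s.1.1 else Y s.1.1) s.2)))
  have hoff : ∀ a a', code a = code a' → ∀ x, ¬ isX Ψ X A x → ¬ isX Ψ Y B x → a x = a' x := by
    intro a a' hc x hx1 hx2
    have h1 : x ∉ U := by
      rw [hU, Finset.mem_filter]
      tauto
    exact congrFun (congrArg Prod.fst hc) ⟨x, h1⟩
  have hbits : ∀ a a', code a = code a' → ∀ v : List Bool, v.length < h →
      chi (rawZ h (contZ q h w M (q * q ^ w) a) v) =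
        chi (rawZ h (contZ q h w M (q * q ^ w) a') v) := by
    intro a a' hc v hv
    by_cases hpre : ∃ i : Fin m, ∃ s : Bool, v = nodeAt (if s then X i else Y i) v.length
    · obtain ⟨i, s, hs⟩ := hpre
      have h1 := congrFun (congrArg Prod.snd hc) ((i, s), ⟨v.length, hv⟩)
      simp only [code] at h1
      rw [← hs] at h1
      exact h1
    · push Not at hpre
      congr 1
      apply ltdata_congr h _ _ v _ hv
      intro l hl
      unfold contZ
      have h2 : ∀ t : Fin w, ∀ j : Fin M, a (decL h (v ++ l), t, j) = a' (decL h (v ++ l), t, j) := by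
        intro t j
        apply hoff a a' hc
        · rintro ⟨i, hi, -, -⟩
          exact hpre i true (ltdata_take v l hl _ hi)
        · rintro ⟨i, hi, -, -⟩
          exact hpre i false (ltdata_take v l hl _ hi)
      congr 1
      funext t j
      exact h2 t j
  -- each fibre
  have hfib : ∀ c ∈ F.image code, (F.filter fun a => code a = c).card * q ^ (g * m) ≤
      (r ^ 3) ^ m * q ^ (∑ i, ((A i).card + (B i).card)) := by
    intro c hc
    obtain ⟨a0, ha0, rfl⟩ := Finset.mem_image.1 hc
    refine lt_class hq chi hchi Ψ z lev hlev hlh X Y A B hX hY hd g hA hB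
      (fun i => chi (rawZ h (contZ q h w M (q * q ^ w) a0) (nodeAt z (lev i.castSucc)))) _ ?_ ?_
    · intro a ha a' ha' x hx1 hx2
      rw [Finset.mem_filter] at ha ha'
      exact hoff a a' (ha.2.trans ha'.2.symm) x hx1 hx2
    · intro a ha a' ha' i
      rw [Finset.mem_filter] at ha ha'
      have hlen : (nodeAt z (lev i.castSucc)).length < h := by
        unfold nodeAt
        rw [List.length_take, List.length_ofFn]
        have := ltdata_lev_lt hlh hX i
        omega
      rw [hF a ha.1 a' ha'.1 (hoff a a' (ha.2.trans ha'.2.symm))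
        (hbits a a' (ha.2.trans ha'.2.symm)) _ hlen]
      exact hbits a a0 ha.2 _ hlen
  have hsum : F.card * q ^ (g * m) ≤
      (F.image code).card * ((r ^ 3) ^ m * q ^ (∑ i, ((A i).card + (B i).card))) := by
    rw [Finset.card_eq_sum_card_image code F, Finset.sum_mul]
    refine (Finset.sum_le_sum hfib).trans ?_
    rw [Finset.sum_const, smul_eq_mul]
  have hcode : (F.image code).card ≤ q ^ (2 ^ h * w * M - U.card) * 2 ^ (2 * m * h) := by
    refine (Finset.card_le_univ _).trans ?_
    rw [Fintype.card_prod, Fintype.card_fun, Fintype.card_fun, Fintype.card_fin,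
      Fintype.card_bool, Fintype.card_prod, Fintype.card_prod, Fintype.card_bool,
      Fintype.card_fin, Fintype.card_fin, Fintype.card_subtype_compl]
    have h1 : Fintype.card (Vr h w M) = 2 ^ h * w * M := by
      simp [mul_assoc]
    rw [h1, Fintype.card_coe, show m * 2 * h = 2 * m * h by ring]
  have hUc := ltdata_card (M := M) Ψ X Y A B (ltdata_inj hlev hX) (ltdata_inj hlev hY) hd
  have hUN : U.card ≤ 2 ^ h * w * M := by
    refine (Finset.card_le_univ _).trans ?_
    simp [mul_assoc]
  have hq0 : 1 ≤ q := by omega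
  calc F.card * q ^ (g * m) ≤
      (F.image code).card * ((r ^ 3) ^ m * q ^ (∑ i, ((A i).card + (B i).card))) := hsum
    _ ≤ (q ^ (2 ^ h * w * M - U.card) * 2 ^ (2 * m * h)) * ((r ^ 3) ^ m * q ^ U.card) :=
        Nat.mul_le_mul hcode (Nat.mul_le_mul_left _ (Nat.pow_le_pow_right hq0 hUc))
    _ = (r ^ 3) ^ m * 2 ^ (2 * m * h) * (q ^ (2 ^ h * w * M - U.card) * q ^ U.card) := by ring
    _ = (r ^ 3) ^ m * 2 ^ (2 * m * h) * q ^ (2 ^ h * w * M) := by
        rw [← pow_add, Nat.sub_add_cancel hUN]

end Pool.Agent.MP_6216ea_lc
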