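import Mathlib
import Pool.Agent.Lib.MP_6216ea_lc.LTDefs

/-! Mixing two computations along segments. -/

set_option autoImplicit false

namespace Pool.Agent.MP_6216ea_lc

theorem ltmix_cseg_mono (C : Finset ℕ) {s t : ℕ} (h : s ≤ t) : cseg C s ≤ cseg C t := by
  unfold cseg
  apply Finset.card_le_card
  intro c hc
  simp only [Finset.mem_filter] at hc ⊢
  exact ⟨hc.1, hc.2.trans h⟩

theorem ltmix_cseg_le (C : Finset ℕ) (s : ℕ) : cseg C s ≤ C.card :=
  Finset.card_le_card (Finset.filter_subset _ _)

/-- `bd` as a threshold. -/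
theorem ltmix_lt_bd {ι α : Type} {P : LetterNBP ι α} {x : ι → α} (W : LWalk P x) (C : Finset ℕ)
    (g s : ℕ) (hs : s < W.L) : s < W.bd C g ↔ cseg C s < g := by
  unfold LWalk.bd
  constructor
  · intro h
    by_contra hcon
    have hsub : ((Finset.range W.L).filter fun s => cseg C s < g) ⊆ Finset.range s := by
      intro t ht
      simp only [Finset.mem_filter, Finset.mem_range] at ht ⊢
      by_contra hts
      exact hcon ((ltmix_cseg_mono C (not_lt.1 hts)).trans_lt ht.2)
    have := Finset.card_le_card hsub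
    rw [Finset.card_range] at this
    omega
  · intro h
    have hsub : Finset.range (s + 1) ⊆ ((Finset.range W.L).filter fun s => cseg C s < g) := by
      intro t ht
      simp only [Finset.mem_filter, Finset.mem_range] at ht ⊢
      exact ⟨by omega, (ltmix_cseg_mono C (by omega : t ≤ s)).trans_lt h⟩
    have := Finset.card_le_card hsub
    rw [Finset.card_range] at this
    omega

theorem ltmix_bd_le {ι α : Type} {P : LetterNBP ι α} {x : ι → α} (W : LWalk P x) (C : Finset ℕ)
    (g : ℕ) : W.bd C g ≤ W.L := by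
  unfold LWalk.bd
  refine (Finset.card_le_card (Finset.filter_subset _ _)).trans ?_
  rw [Finset.card_range]

theorem ltmix_bd_zero {ι α : Type} {P : LetterNBP ι α} {x : ι → α} (W : LWalk P x)
    (C : Finset ℕ) : W.bd C 0 = 0 := by
  unfold LWalk.bd
  simp

theorem ltmix_bd_last {ι α : Type} {P : LetterNBP ι α} {x : ι → α} (W : LWalk P x)
    (C : Finset ℕ) (N : ℕ) (h : C.card ≤ N) : W.bd C (N + 1) = W.L := by
  unfold LWalk.bd
  rw [Finset.filter_true_of_mem, Finset.card_range]
  intro s _
  have := ltmix_cseg_le C s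
  omega

theorem ltmix_bd_mono {ι α : Type} {P : LetterNBP ι α} {x : ι → α} (W : LWalk P x)
    (C : Finset ℕ) (g : ℕ) : W.bd C g ≤ W.bd C (g + 1) := by
  unfold LWalk.bd
  apply Finset.card_le_card
  intro s hs
  simp only [Finset.mem_filter] at hs ⊢
  exact ⟨hs.1, by omega⟩

/-- A stretch of a walk is a computation on `y` if all its queries are consistent with `y`. -/
theorem ltmix_stretch {ι α : Type} {P : LetterNBP ι α} {x : ι → α} (W : LWalk P x) (y : ι → α)
    (u : P.V) (a b : ℕ) (hab : a ≤ b) (hb : b ≤ W.L)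
    (hcons : ∀ s, a ≤ s → s < b → ∀ i c, W.lab s = some (i, c) → y i = c)
    (h : ∃ T, P.Path y T u (W.v a)) : ∃ T, P.Path y T u (W.v b) := by
  induction b, hab using Nat.le_induction with
  | base => exact h
  | succ b hab ih =>
    obtain ⟨T, hT⟩ := ih (by omega) (fun s h1 h2 => hcons s h1 (by omega))
    have he := W.edge b (by omega)
    cases hlab : W.lab b with
    | none =>
      rw [hlab] at he
      exact ⟨T, hT.free he⟩
    | some l =>
      obtain ⟨i, c⟩ := l
      rw [hlab, ← hcons b hab (by omega) i c hlab] at he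
      exact ⟨T + 1, hT.query i he⟩

/-- J4 -/
theorem lt_mix {ι α : Type} (P : LetterNBP ι α) (x x' y : ι → α) (W : LWalk P x)
    (W' : LWalk P x') (C C' : Finset ℕ) (N : ℕ) (hC : C.card ≤ N) (hC' : C'.card ≤ N)
    (XV YV : Set ι) (hst : ∀ g ≤ N, W.v (W.bd C g) = W'.v (W'.bd C' g))
    (hcol : ∀ g ≤ N, (∃ i ∈ XV, ∃ s ∈ W.reads i, cseg C s = g) ↔
      (∃ i ∈ XV, ∃ s ∈ W'.reads i, cseg C' s = g))
    (hsep : ∀ i ∈ XV, ∀ j ∈ YV, ∀ s ∈ W.reads i, ∀ s' ∈ W.reads j, cseg C s ≠ cseg C s')
    (hy : ∀ i ∉ YV, y i = x i) (hy' : ∀ i ∉ XV, y i = x' i) : P.Accepts y := by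
  classical
  have hread : ∀ {z : ι → α} (V : LWalk P z) (s : ℕ), s < V.L → ∀ i c, V.lab s = some (i, c) →
      s ∈ V.reads i := by
    intro z V s hs i c hl
    unfold LWalk.reads
    exact Finset.mem_filter.2 ⟨Finset.mem_range.2 hs, c, hl⟩
  have hseg : ∀ {z : ι → α} (V : LWalk P z) (D : Finset ℕ) (g s : ℕ), s < V.L → V.bd D g ≤ s →
      s < V.bd D (g + 1) → cseg D s = g := by
    intro z V D g s hs h1 h2
    have e1 := (ltmix_lt_bd V D g s hs).not
    have e2 := ltmix_lt_bd V D (g + 1) s hs
    omega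
  have main : ∀ g ≤ N + 1, ∃ T, P.Path y T P.source (W.v (W.bd C g)) := by
    intro g
    induction g with
    | zero =>
      intro _
      rw [ltmix_bd_zero, W.v0]
      exact ⟨0, .nil _⟩
    | succ g ih =>
      intro hg
      have ih' := ih (by omega)
      by_cases hc : ∃ i ∈ XV, ∃ s ∈ W.reads i, cseg C s = g
      · refine ltmix_stretch W y _ _ _ (ltmix_bd_mono W C g) (ltmix_bd_le W C _) ?_ ih'
        intro s h1 h2 i c hl
        have hsL : s < W.L := h2.trans_le (ltmix_bd_le W C _)
        have hs1 := hread W s hsL i c hl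
        have hs2 := hseg W C g s hsL h1 h2
        obtain ⟨i0, hi0, s0, hs0, hg0⟩ := hc
        have hiY : i ∉ YV := fun hi => hsep i0 hi0 i hi s0 hs0 s hs1 (hg0.trans hs2.symm)
        rw [hy i hiY]
        exact W.cons s hsL i c hl
      · have hc' : ¬ ∃ i ∈ XV, ∃ s ∈ W'.reads i, cseg C' s = g := fun h =>
          hc ((hcol g (by omega)).2 h)
        have h1 : ∃ T, P.Path y T P.source (W'.v (W'.bd C' g)) := by
          rw [← hst g (by omega)]; exact ih'
        have h2 : ∃ T, P.Path y T P.source (W'.v (W'.bd C' (g + 1))) := by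
          refine ltmix_stretch W' y _ _ _ (ltmix_bd_mono W' C' g) (ltmix_bd_le W' C' _) ?_ h1
          intro s h1 h2 i c hl
          have hsL : s < W'.L := h2.trans_le (ltmix_bd_le W' C' _)
          have hs1 := hread W' s hsL i c hl
          have hs2 := hseg W' C' g s hsL h1 h2
          have hiX : i ∉ XV := fun hi => hc' ⟨i, hi, s, hs1, hs2⟩
          rw [hy' i hiX]
          exact W'.cons s hsL i c hl
        by_cases hgN : g + 1 ≤ N
        · rw [hst (g + 1) hgN]; exact h2
        · have hge : g + 1 = N + 1 := by omega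
          rw [hge, ltmix_bd_last W C N hC, W.vL]
          rw [hge, ltmix_bd_last W' C' N hC', W'.vL] at h2
          exact h2
  have := main (N + 1) le_rfl
  rw [ltmix_bd_last W C N hC, W.vL] at this
  exact this

end Pool.Agent.MP_6216ea_lc
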