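import Mathlib
import Pool.Agent.Lib.MP_6216ea_lc.LTDefs

set_option autoImplicit false

namespace Pool.Agent.MP_6216ea_lc

theorem ltsample_avg {Y : Type} [Fintype Y] [DecidableEq Y] {M : ℕ} (y : Y) (f : Fin M → ℕ) :
    M * ∑ Ψ : Y → Fin M, f (Ψ y) = Fintype.card (Y → Fin M) * ∑ m, f m := by
  let e : (Y → Fin M) × Fin M ≃ (Y → Fin M) × Fin M :=
    { toFun := fun p => (Function.update p.1 y p.2, p.1 y)
      invFun := fun p => (Function.update p.1 y p.2, p.1 y)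
      left_inv := by rintro ⟨Ψ, s⟩; simp
      right_inv := by rintro ⟨Ψ, s⟩; simp }
  have h1 : ∑ p : (Y → Fin M) × Fin M, f ((e p).1 y) = ∑ p : (Y → Fin M) × Fin M, f (p.1 y) :=
    e.sum_comp (fun p => f (p.1 y))
  have h2 : ∑ p : (Y → Fin M) × Fin M, f (p.1 y) = M * ∑ Ψ : Y → Fin M, f (Ψ y) := by
    rw [Fintype.sum_prod_type]
    simp [Finset.mul_sum]
  have h3 : ∑ p : (Y → Fin M) × Fin M, f ((e p).1 y)
      = Fintype.card (Y → Fin M) * ∑ m, f m := by
    rw [Fintype.sum_prod_type]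
    simp only [e, Equiv.coe_fn_mk, Function.update_self, Finset.sum_const, Finset.card_univ,
      smul_eq_mul]
  rw [← h2, ← h1, h3]

/-- R8: sampling one place of every sub-block -/
theorem lt_sample {h w M K T : ℕ} (hM : 1 ≤ M) (𝒜 : Type) [Fintype 𝒜] (c : 𝒜 → Vr h w M → ℕ)
    (hc : ∀ a, ∑ x, c a x ≤ T) (hT : 8 * T ≤ K * (2 ^ h * w * M)) :
    ∃ Ψ : Lf h × Fin w → Fin M, Fintype.card 𝒜 ≤ 2 * (Finset.univ.filter fun a : 𝒜 =>
      3 * (2 ^ h * w) ≤ 4 * (Finset.univ.filter fun y : Lf h × Fin w =>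
        c a (y.1, y.2, Ψ y) ≤ K).card).card := by
  classical
  set n := 2 ^ h * w with hn
  have hcard : (Finset.univ : Finset (Lf h × Fin w)).card = n := by
    rw [Finset.card_univ, Fintype.card_prod, Fintype.card_fun, Fintype.card_bool, Fintype.card_fin,
      Fintype.card_fin]
  set NΨ := Fintype.card (Lf h × Fin w → Fin M) with hNΨ
  let bad : 𝒜 → (Lf h × Fin w → Fin M) → ℕ := fun a Ψ =>
    (Finset.univ.filter fun y : Lf h × Fin w => ¬ c a (y.1, y.2, Ψ y) ≤ K).card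
  let good : 𝒜 → (Lf h × Fin w → Fin M) → ℕ := fun a Ψ =>
    (Finset.univ.filter fun y : Lf h × Fin w => c a (y.1, y.2, Ψ y) ≤ K).card
  have hgb : ∀ a Ψ, good a Ψ + bad a Ψ = n := by
    intro a Ψ
    rw [← hcard]
    exact Finset.card_filter_add_card_filter_not _
  let ind : 𝒜 → Vr h w M → ℕ := fun a x => if ¬ c a x ≤ K then 1 else 0
  have hS1 : ∀ a, 8 * ∑ x, ind a x ≤ n * M := by
    intro a
    have h1 : (K + 1) * ∑ x, ind a x ≤ T := by
      refine le_trans ?_ (hc a)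
      rw [Finset.mul_sum]
      refine Finset.sum_le_sum fun x _ => ?_
      by_cases hx : c a x ≤ K
      · have : ind a x = 0 := if_neg (not_not.2 hx)
        rw [this, mul_zero]
        exact Nat.zero_le _
      · have : ind a x = 1 := if_pos hx
        rw [this, mul_one]
        omega
    have h2 : (K + 1) * (8 * ∑ x, ind a x) ≤ (K + 1) * (n * M) := by
      calc (K + 1) * (8 * ∑ x, ind a x) = 8 * ((K + 1) * ∑ x, ind a x) := by ring
        _ ≤ 8 * T := Nat.mul_le_mul_left 8 h1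
        _ ≤ K * (n * M) := hT
        _ ≤ (K + 1) * (n * M) := Nat.mul_le_mul_right _ (Nat.le_succ K)
    exact Nat.le_of_mul_le_mul_left h2 (Nat.succ_pos K)
  have hS2 : ∀ a, M * ∑ Ψ, bad a Ψ = NΨ * ∑ x, ind a x := by
    intro a
    have h1 : ∀ Ψ, bad a Ψ = ∑ y : Lf h × Fin w, ind a (y.1, y.2, Ψ y) := by
      intro Ψ
      simp only [bad, ind]
      rw [Finset.card_filter]
    simp only [h1]
    rw [Finset.sum_comm, Finset.mul_sum]
    have h2 : ∀ y : Lf h × Fin w, M * ∑ Ψ : Lf h × Fin w → Fin M, ind a (y.1, y.2, Ψ y)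
        = NΨ * ∑ m, ind a (y.1, y.2, m) := fun y =>
      ltsample_avg y (fun m => ind a (y.1, y.2, m))
    simp only [h2]
    rw [← Finset.mul_sum]
    congr 1
    rw [Fintype.sum_prod_type, Fintype.sum_prod_type]
    refine Finset.sum_congr rfl fun l _ => ?_
    rw [Fintype.sum_prod_type]
  have hS3 : ∀ a, 8 * ∑ Ψ, bad a Ψ ≤ n * NΨ := by
    intro a
    have h1 : M * (8 * ∑ Ψ, bad a Ψ) ≤ M * (n * NΨ) := by
      calc M * (8 * ∑ Ψ, bad a Ψ) = 8 * (M * ∑ Ψ, bad a Ψ) := by ring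
        _ = NΨ * (8 * ∑ x, ind a x) := by rw [hS2]; ring
        _ ≤ NΨ * (n * M) := Nat.mul_le_mul_left _ (hS1 a)
        _ = M * (n * NΨ) := by ring
    exact Nat.le_of_mul_le_mul_left h1 hM
  have hS4 : ∀ a, 2 * (Finset.univ.filter fun Ψ => ¬ 3 * n ≤ 4 * good a Ψ).card ≤ NΨ := by
    intro a
    have h1 : (n + 1) * (Finset.univ.filter fun Ψ => ¬ 3 * n ≤ 4 * good a Ψ).card
        ≤ 4 * ∑ Ψ, bad a Ψ := by
      rw [Finset.card_filter, Finset.mul_sum, Finset.mul_sum]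
      refine Finset.sum_le_sum fun Ψ _ => ?_
      have h2 := hgb a Ψ
      by_cases h3 : 3 * n ≤ 4 * good a Ψ
      · simp [h3]
      · simp only [h3, not_false_eq_true, if_true, mul_one]
        omega
    have h2 := hS3 a
    have h3 : (n + 1) * (2 * (Finset.univ.filter fun Ψ => ¬ 3 * n ≤ 4 * good a Ψ).card)
        ≤ (n + 1) * NΨ := by
      nlinarith [Nat.zero_le NΨ]
    exact Nat.le_of_mul_le_mul_left h3 (Nat.succ_pos n)
  by_contra hcon
  push Not at hcon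
  have hB : ∀ Ψ, Fintype.card 𝒜 + 1 ≤ 2 * (Finset.univ.filter fun a : 𝒜 =>
      ¬ 3 * n ≤ 4 * good a Ψ).card := by
    intro Ψ
    have h1 := hcon Ψ
    have h2 : (Finset.univ.filter fun a : 𝒜 => 3 * n ≤ 4 * good a Ψ).card
        + (Finset.univ.filter fun a : 𝒜 => ¬ 3 * n ≤ 4 * good a Ψ).card = Fintype.card 𝒜 := by
      rw [← Finset.card_univ]
      exact Finset.card_filter_add_card_filter_not _
    have h3 : 2 * (Finset.univ.filter fun a : 𝒜 => 3 * n ≤ 4 * good a Ψ).card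
        < Fintype.card 𝒜 := h1
    omega
  have hsum : NΨ * (Fintype.card 𝒜 + 1) ≤ Fintype.card 𝒜 * NΨ := by
    calc NΨ * (Fintype.card 𝒜 + 1) = ∑ _Ψ : Lf h × Fin w → Fin M, (Fintype.card 𝒜 + 1) := by
          rw [Finset.sum_const, Finset.card_univ, smul_eq_mul]
      _ ≤ ∑ Ψ : Lf h × Fin w → Fin M, 2 * (Finset.univ.filter fun a : 𝒜 =>
            ¬ 3 * n ≤ 4 * good a Ψ).card := Finset.sum_le_sum fun Ψ _ => hB Ψ
      _ = ∑ a : 𝒜, 2 * (Finset.univ.filter fun Ψ => ¬ 3 * n ≤ 4 * good a Ψ).card := by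
          simp only [Finset.card_filter, Finset.mul_sum]
          rw [Finset.sum_comm]
      _ ≤ ∑ _a : 𝒜, NΨ := Finset.sum_le_sum fun a _ => hS4 a
      _ = Fintype.card 𝒜 * NΨ := by rw [Finset.sum_const, Finset.card_univ, smul_eq_mul]
  have hpos : 1 ≤ NΨ := by
    have : Nonempty (Lf h × Fin w → Fin M) := ⟨fun _ => ⟨0, hM⟩⟩
    exact Fintype.card_pos
  nlinarith

end Pool.Agent.MP_6216ea_lc
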