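import Mathlib
import Pool.Agent.Lib.MP_6216ea_lc.LTDefs

set_option autoImplicit false

namespace Pool.Agent.MP_6216ea_lc

theorem ltsep_iff_of_le {C : Finset ℕ} {s s' : ℕ} (hss : s ≤ s') (h : cseg C s = cseg C s') :
    ∀ c ∈ C, (c ≤ s ↔ c ≤ s') := by
  have hsub : C.filter (· ≤ s) ⊆ C.filter (· ≤ s') := by
    intro c hc
    rw [Finset.mem_filter] at hc ⊢
    exact ⟨hc.1, hc.2.trans hss⟩
  have heq : C.filter (· ≤ s) = C.filter (· ≤ s') :=
    Finset.eq_of_subset_of_card_le hsub (le_of_eq h.symm)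
  intro c hc
  constructor
  · intro h1
    exact h1.trans hss
  · intro h1
    have : c ∈ C.filter (· ≤ s') := Finset.mem_filter.2 ⟨hc, h1⟩
    rw [← heq] at this
    exact (Finset.mem_filter.1 this).2

theorem ltsep_iff {C : Finset ℕ} {s s' : ℕ} (h : cseg C s = cseg C s') :
    ∀ c ∈ C, (c ≤ s ↔ c ≤ s') := by
  rcases le_total s s' with hss | hss
  · exact ltsep_iff_of_le hss h
  · intro c hc
    exact (ltsep_iff_of_le hss h.symm c hc).symm

/-- J3 -/
theorem lt_sep {K : ℕ} (tu tz tx ty : Fin K → ℕ) (τ : Fin K → Fin K → Bool)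
    (h1 : ∀ a b, τ a b = decide (tu a < tx b)) (h2 : ∀ a b, τ a b = decide (tu a < ty b))
    (h3 : ∀ a b, τ a b = decide (tx a < tz b)) (h4 : ∀ a b, τ a b = decide (tz a < ty b))
    (n1 : ∀ a b, tu a ≠ tx b) (n2 : ∀ a b, tu a ≠ ty b) (n3 : ∀ a b, tx a ≠ tz b)
    (n4 : ∀ a b, tz a ≠ ty b) (a b : Fin K) :
    cseg (Finset.univ.image tu ∪ Finset.univ.image tz) (tx a) ≠
      cseg (Finset.univ.image tu ∪ Finset.univ.image tz) (ty b) := by
  intro h
  have hall := ltsep_iff h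
  have hu : tu a ≤ tx a ↔ tu a ≤ ty b :=
    hall (tu a) (Finset.mem_union_left _ (Finset.mem_image_of_mem _ (Finset.mem_univ _)))
  have hz : tz a ≤ tx a ↔ tz a ≤ ty b :=
    hall (tz a) (Finset.mem_union_right _ (Finset.mem_image_of_mem _ (Finset.mem_univ _)))
  have e1 := h1 a a
  have e2 := h2 a b
  have e3 := h3 a a
  have e4 := h4 a b
  have m1 := n1 a a
  have m2 := n2 a b
  have m3 := n3 a a
  have m4 := n4 a b
  have k1 : τ a a = τ a b := by
    rw [e1, e2]
    have : (tu a < tx a) ↔ (tu a < ty b) := by omega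
    exact decide_eq_decide.2 this
  rw [e3, e4] at k1
  have k2 : (tx a < tz a) ↔ (tz a < ty b) := decide_eq_decide.1 k1
  omega

end Pool.Agent.MP_6216ea_lc
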