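import Mathlib
import Pool.Agent.Lib.MP_6216ea_lc.LTDefs

set_option autoImplicit false

namespace Pool.Agent.MP_6216ea_lc

/-- J2 -/
theorem lt_times {ι α Q : Type} [Fintype Q] {P : LetterNBP ι α} {x : ι → α} (W : LWalk P x)
    (var : Q → ι) (hinj : Function.Injective var) (K : ℕ) (hK : 1 ≤ K) (G : Finset Q)
    (hG : ∀ y ∈ G, (W.reads (var y)).card ≤ K) :
    ∃ t : Q → Fin K → ℕ, (∀ y ∈ G, ∀ s ∈ W.reads (var y), ∃ a, t y a = s) ∧
      ∀ y ∈ G, ∀ y' ∈ G, y ≠ y' → ∀ a b, t y a ≠ t y' b := by
  classical
  set e : Q → ℕ := fun y => ((Fintype.equivFin Q) y).val with he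
  have heinj : ∀ y y', e y = e y' → y = y' := by
    intro y y' h
    exact (Fintype.equivFin Q).injective (Fin.ext h)
  set t : Q → Fin K → ℕ := fun y a => (W.reads (var y)).toList.getD a.val (W.L + 1 + e y) with ht
  have hcase : ∀ y a, t y a ∈ W.reads (var y) ∨ t y a = W.L + 1 + e y := by
    intro y a
    by_cases h : a.val < (W.reads (var y)).toList.length
    · left
      rw [ht]
      simp only
      rw [List.getD_eq_getElem _ _ h]
      exact Finset.mem_toList.1 (List.getElem_mem h)
    · right
      rw [ht]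
      simp only
      exact List.getD_eq_default _ _ (not_lt.1 h)
  have hlt : ∀ i s, s ∈ W.reads i → s < W.L := by
    intro i s hs
    unfold LWalk.reads at hs
    exact Finset.mem_range.1 (Finset.mem_filter.1 hs).1
  have hlab : ∀ i s, s ∈ W.reads i → ∃ a, W.lab s = some (i, a) := by
    intro i s hs
    unfold LWalk.reads at hs
    exact (Finset.mem_filter.1 hs).2
  refine ⟨t, ?_, ?_⟩
  · intro y hy s hs
    have hs' : s ∈ (W.reads (var y)).toList := Finset.mem_toList.2 hs
    obtain ⟨i, hi, his⟩ := List.getElem_of_mem hs'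
    have hiK : i < K := by
      have := hG y hy
      rw [← Finset.length_toList] at this
      omega
    refine ⟨⟨i, hiK⟩, ?_⟩
    rw [ht]
    simp only
    rw [List.getD_eq_getElem _ _ hi]
    exact his
  · intro y _ y' _ hne a b hab
    rcases hcase y a with h1 | h1 <;> rcases hcase y' b with h2 | h2
    · rw [hab] at h1
      obtain ⟨c1, hc1⟩ := hlab _ _ h1
      obtain ⟨c2, hc2⟩ := hlab _ _ h2
      rw [hc1] at hc2
      have : var y = var y' := by
        have := Option.some.inj hc2
        exact (Prod.mk.inj this).1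
      exact hne (hinj this)
    · have := hlt _ _ h1
      omega
    · have := hlt _ _ h2
      omega
    · apply hne
      apply heinj
      omega

end Pool.Agent.MP_6216ea_lc
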