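import Mathlib
import Pool.Agent.Lib.MP_6216ea_lc.LTDefs

set_option autoImplicit false

namespace Pool.Agent.MP_6216ea_lc

lemma ltwalk_seq {ι α : Type} (P : LetterNBP ι α) (x : ι → α) (T : ℕ) (u u' : P.V)
    (hp : P.Path x T u u') :
    ∃ (L : ℕ) (v : ℕ → P.V) (lab : ℕ → Option (ι × α)), v 0 = u ∧ v L = u' ∧
      (∀ s < L, P.edge (v s) (lab s) (v (s + 1))) ∧
      (∀ s < L, ∀ i a, lab s = some (i, a) → x i = a) ∧
      ((Finset.range L).filter fun s => (lab s).isSome = true).card = T := by
  induction hp with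
  | nil u =>
    exact ⟨0, fun _ => u, fun _ => none, rfl, rfl, by simp, by simp, by simp⟩
  | @free T u v w hp he ih =>
    obtain ⟨L, vv, lab, h0, hL, hedge, hcons, hcard⟩ := ih
    refine ⟨L + 1, fun s => if s ≤ L then vv s else w, fun s => if s < L then lab s else none,
      ?_, ?_, ?_, ?_, ?_⟩
    · simp [h0]
    · simp
    · intro s hs
      rcases Nat.lt_succ_iff_lt_or_eq.1 hs with h1 | h1
      · simp only [if_pos h1.le, if_pos h1, if_pos (Nat.succ_le_of_lt h1)]
        exact hedge s h1
      · subst h1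
        simp only [le_refl, if_true, lt_irrefl, if_false, Nat.not_succ_le_self]
        rw [hL]; exact he
    · intro s hs i a hl
      beta_reduce at hl
      by_cases h1 : s < L
      · rw [if_pos h1] at hl
        exact hcons s h1 i a hl
      · rw [if_neg h1] at hl
        cases hl
    · rw [← hcard, Finset.range_add_one, Finset.filter_insert, if_neg (by simp)]
      congr 1
      apply Finset.filter_congr
      intro s hs
      beta_reduce
      rw [if_pos (Finset.mem_range.1 hs)]
  | @query T u v w i hp he ih =>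
    obtain ⟨L, vv, lab, h0, hL, hedge, hcons, hcard⟩ := ih
    refine ⟨L + 1, fun s => if s ≤ L then vv s else w,
      fun s => if s < L then lab s else some (i, x i), ?_, ?_, ?_, ?_, ?_⟩
    · simp [h0]
    · simp
    · intro s hs
      rcases Nat.lt_succ_iff_lt_or_eq.1 hs with h1 | h1
      · simp only [if_pos h1.le, if_pos h1, if_pos (Nat.succ_le_of_lt h1)]
        exact hedge s h1
      · subst h1
        simp only [le_refl, if_true, lt_irrefl, if_false, Nat.not_succ_le_self]
        rw [hL]; exact he
    · intro s hs i' a hl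
      beta_reduce at hl
      by_cases h1 : s < L
      · rw [if_pos h1] at hl
        exact hcons s h1 i' a hl
      · rw [if_neg h1] at hl
        cases hl
        rfl
    · rw [Finset.range_add_one, Finset.filter_insert, if_pos (by simp),
        Finset.card_insert_of_notMem (by simp)]
      rw [← hcard]
      congr 2
      apply Finset.filter_congr
      intro s hs
      beta_reduce
      rw [if_pos (Finset.mem_range.1 hs)]

/-- J1 -/
theorem lt_walk {ι α : Type} (P : LetterNBP ι α) (x : ι → α) (T : ℕ) (h : P.AcceptsIn x T) :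
    ∃ W : LWalk P x, ∀ F : Finset ι, ∑ i ∈ F, (W.reads i).card ≤ T := by
  classical
  obtain ⟨T', hT', hp⟩ := h
  obtain ⟨L, v, lab, h0, hL, hedge, hcons, hcard⟩ := ltwalk_seq P x T' _ _ hp
  let W : LWalk P x := ⟨L, v, lab, h0, hL, hedge, hcons⟩
  refine ⟨W, fun F => ?_⟩
  have hdisj : ∀ i ∈ F, ∀ j ∈ F, i ≠ j → Disjoint (W.reads i) (W.reads j) := by
    intro i _ j _ hij
    rw [Finset.disjoint_left]
    intro s hs hs'
    obtain ⟨a, ha⟩ := (Finset.mem_filter.1 hs).2
    obtain ⟨b, hb⟩ := (Finset.mem_filter.1 hs').2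
    rw [ha] at hb
    cases hb
    exact hij rfl
  rw [← Finset.card_biUnion hdisj]
  refine le_trans (Finset.card_le_card ?_) (le_trans hcard.le hT')
  intro s hs
  rw [Finset.mem_biUnion] at hs
  obtain ⟨i, _, hi⟩ := hs
  rw [LWalk.reads, Finset.mem_filter] at hi
  rw [Finset.mem_filter]
  refine ⟨hi.1, ?_⟩
  obtain ⟨a, ha⟩ := hi.2
  have : lab s = some (i, a) := ha
  rw [this]; rfl

end Pool.Agent.MP_6216ea_lc
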