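import Mathlib
import Pool.Agent.Lib.MP_6216ea_lc.LTData
import Pool.Agent.Lib.MP_6216ea_lc.LTSample
import Pool.Agent.Lib.MP_6216ea_lc.LTWalk
import Pool.Agent.Lib.MP_6216ea_lc.LTTimes
import Pool.Agent.Lib.MP_6216ea_lc.LTSep
import Pool.Agent.Lib.MP_6216ea_lc.LTMix

set_option autoImplicit false

namespace Pool.Agent.MP_6216ea_lc

/-- the accepted input with leaf letters `a` -/
def ltXi {q h w M : ℕ} [NeZero q] {p : ℕ} (chi : ZMod p → Bool) (a : Vr h w M → Fin q) :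
    Vr h w M ⊕ List Bool → Fin q :=
  Sum.elim a fun v =>
    if v.length < h ∧ chi (rawZ h (contZ q h w M p a) v) = true then 1 else 0

theorem ltXi_good {q h w M : ℕ} [NeZero q] (hq : 2 ≤ q) {p : ℕ} (chi : ZMod p → Bool)
    (a : Vr h w M → Fin q) : LGood h w M chi (ltXi chi a) := by
  intro v hv
  have h1 : (1 : Fin q) ≠ 0 := by
    intro h
    have h2 := congrArg Fin.val h
    rw [Fin.val_one', Fin.val_zero, Nat.mod_eq_of_lt (by omega)] at h2
    exact one_ne_zero h2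
  have h2 : (fun x => ltXi chi a (.inl x)) = a := rfl
  rw [h2]
  change _ ↔ (if v.length < h ∧ chi (rawZ h (contZ q h w M p a) v) = true then (1 : Fin q)
    else 0) ≠ 0
  by_cases hc : chi (rawZ h (contZ q h w M p a) v) = true
  · rw [if_pos ⟨hv, hc⟩]
    exact ⟨fun _ => h1, fun _ => hc⟩
  · rw [if_neg (fun h => hc h.2)]
    exact ⟨fun h => absurd h hc, fun h => absurd rfl h⟩

/-- `δ` is the data of `a` -/
def LPhi {q h w M m K : ℕ} (P : LetterNBP (Vr h w M ⊕ List Bool) (Fin q)) (D : ℕ)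
    (Ψ : Lf h × Fin w → Fin M) (ξ : Vr h w M ⊕ List Bool → Fin q) (δ : LData h w m K P.V) : Prop :=
  (Monotone fun i => (δ.2.2.2.2.2.1 i : ℕ)) ∧
  (∀ i : Fin m, agr (δ.2.2.2.2.2.1 i.castSucc : ℕ) (δ.1 i) δ.2.2.2.2.1 ∧
    ¬ agr (δ.2.2.2.2.2.1 i.succ : ℕ) (δ.1 i) δ.2.2.2.2.1) ∧
  (∀ i : Fin m, agr (δ.2.2.2.2.2.1 i.castSucc : ℕ) (δ.2.1 i) δ.2.2.2.2.1 ∧
    ¬ agr (δ.2.2.2.2.2.1 i.succ : ℕ) (δ.2.1 i) δ.2.2.2.2.1) ∧
  (∀ i, w ≤ D * (δ.2.2.1 i).card) ∧ (∀ i, w ≤ D * (δ.2.2.2.1 i).card) ∧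
  (∀ i j t, δ.1 i = δ.2.1 j → t ∈ δ.2.2.1 i → t ∉ δ.2.2.2.1 j) ∧
  ∃ (W : LWalk P ξ) (C : Finset ℕ), C.card ≤ 2 * K ∧
    (∀ i : Fin (2 * K + 1), δ.2.2.2.2.2.2.1 i = W.v (W.bd C i)) ∧
    (∀ i : Fin (2 * K + 1), (δ.2.2.2.2.2.2.2 i = true ↔
      ∃ x, isX Ψ δ.1 δ.2.2.1 x ∧ ∃ s ∈ W.reads (.inl x), cseg C s = i)) ∧
    (∀ x y, isX Ψ δ.1 δ.2.2.1 x → isX Ψ δ.2.1 δ.2.2.2.1 y → ∀ s ∈ W.reads (.inl x),
      ∀ s' ∈ W.reads (.inl y), cseg C s ≠ cseg C s')

theorem ltcore_data {q h w M m K D : ℕ} (hK : 1 ≤ K)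
    (P : LetterNBP (Vr h w M ⊕ List Bool) (Fin q)) (Ψ : Lf h × Fin w → Fin M)
    (hccl : ∀ (G : Finset (Lf h × Fin w)) (typ : Lf h × Fin w → Lf h × Fin w →
      Fin K → Fin K → Bool) (_ : ∀ x ∈ G, ∀ y ∈ G, x ≠ y → typ y x = fun a b => !(typ x y b a))
      (_ : 3 * (2 ^ h * w) ≤ 4 * G.card), CclOut G typ D m)
    (ξ : Vr h w M ⊕ List Bool → Fin q) (W : LWalk P ξ)
    (hG : 3 * (2 ^ h * w) ≤ 4 * (Finset.univ.filter fun y : Lf h × Fin w =>
        (W.reads (.inl (y.1, y.2, Ψ y))).card ≤ K).card) :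
    ∃ δ : LData h w m K P.V, LPhi P D Ψ ξ δ := by
  classical
  set G := Finset.univ.filter fun y : Lf h × Fin w =>
    (W.reads (.inl (y.1, y.2, Ψ y))).card ≤ K with hGdef
  obtain ⟨t, ht1, ht2⟩ := lt_times W (fun y : Lf h × Fin w =>
    (Sum.inl (y.1, y.2, Ψ y) : Vr h w M ⊕ List Bool)) (by
      intro y y' hyy
      simp only [Sum.inl.injEq, Prod.mk.injEq] at hyy
      exact Prod.ext hyy.1 hyy.2.1) K hK G
    (fun y hy => (Finset.mem_filter.1 hy).2)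
  set typ : Lf h × Fin w → Lf h × Fin w → Fin K → Fin K → Bool :=
    fun x y a b => decide (t x a < t y b) with htypdef
  have hrev : ∀ x ∈ G, ∀ y ∈ G, x ≠ y → typ y x = fun a b => !(typ x y b a) := by
    intro x hx y hy hxy
    funext a b
    have h1 := ht2 x hx y hy hxy b a
    simp only [htypdef]
    by_cases h2 : t x b < t y a
    · rw [decide_eq_true h2, decide_eq_false (by omega)]
      rfl
    · rw [decide_eq_false h2, decide_eq_true (by omega)]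
      rfl
  obtain ⟨u, z, τ, lev, X, Y, A, B, huG, hzG, hlev, hlh, H⟩ := hccl G typ hrev hG
  set C : Finset ℕ := Finset.univ.image (t u) ∪ Finset.univ.image (t z) with hC
  have hCcard : C.card ≤ 2 * K := by
    refine (Finset.card_union_le _ _).trans ?_
    have h1 : (Finset.univ.image (t u)).card ≤ K :=
      Finset.card_image_le.trans (by simp)
    have h2 : (Finset.univ.image (t z)).card ≤ K :=
      Finset.card_image_le.trans (by simp)
    omega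
  have hXz : ∀ i < m, ∀ s, (X i, s) ≠ z := by
    intro i hi s hs
    apply (H i hi).1.2
    rw [← hs]
    exact fun j _ => rfl
  have hYz : ∀ i < m, ∀ s, (Y i, s) ≠ z := by
    intro i hi s hs
    apply (H i hi).2.1.2
    rw [← hs]
    exact fun j _ => rfl
  refine ⟨(fun i => X i, fun i => Y i, fun i => A i, fun i => B i, z.1,
    fun i => ⟨lev i, Nat.lt_succ_of_le (hlh i)⟩, fun i => W.v (W.bd C i),
    fun i => decide (∃ x, isX Ψ (fun i : Fin m => X i) (fun i : Fin m => A i) x ∧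
      ∃ s ∈ W.reads (.inl x), cseg C s = i)), ?_, ?_, ?_, ?_, ?_, ?_, W, C, hCcard, ?_, ?_, ?_⟩
  · intro i j hij
    exact hlev hij
  · intro i
    exact (H i i.2).1
  · intro i
    exact (H i i.2).2.1
  · intro i
    exact (H i i.2).2.2.1
  · intro i
    exact (H i i.2).2.2.2.1
  · intro i j s hXY hsA hsB
    have h1 := (H i i.2).2.2.2.2.1 s hsA
    have h2 := (H j j.2).2.2.2.2.2 s hsB
    have hXY' : X i = Y j := hXY
    rw [← hXY'] at h2
    have h3 := hrev (X i, s) h1.1 z hzG (hXz i i.2 s)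
    rw [h1.2.2.2, h2.2.2.2] at h3
    have h4 := congrFun (congrFun h3 ⟨0, hK⟩) ⟨0, hK⟩
    simp at h4
  · intro i
    rfl
  · intro i
    simp
  · intro x y hx hy s hs s' hs'
    obtain ⟨i, hxi, hxA, hxΨ⟩ := hx
    obtain ⟨j, hyj, hyB, hyΨ⟩ := hy
    have h1 := (H i i.2).2.2.2.2.1 x.2.1 hxA
    have h2 := (H j j.2).2.2.2.2.2 y.2.1 hyB
    have hx' : x = (X i, x.2.1, Ψ (X i, x.2.1)) := by
      refine Prod.ext hxi (Prod.ext rfl ?_)
      rw [hxΨ, hxi]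
    have hy' : y = (Y j, y.2.1, Ψ (Y j, y.2.1)) := by
      refine Prod.ext hyj (Prod.ext rfl ?_)
      rw [hyΨ, hyj]
    rw [hx'] at hs
    rw [hy'] at hs'
    obtain ⟨a, rfl⟩ := ht1 _ h1.1 s hs
    obtain ⟨b, rfl⟩ := ht1 _ h2.1 s' hs'
    refine lt_sep (t u) (t z) (t (X i, x.2.1)) (t (Y j, y.2.1)) τ ?_ ?_ ?_ ?_ ?_ ?_ ?_ ?_ a b
    · intro a b
      rw [← h1.2.2.1]
    · intro a b
      rw [← h2.2.2.1]
    · intro a b
      rw [← h1.2.2.2]
    · intro a b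
      rw [← h2.2.2.2]
    · exact ht2 u huG _ h1.1 (fun h => h1.2.1 h.symm)
    · exact ht2 u huG _ h2.1 (fun h => h2.2.1 h.symm)
    · exact ht2 _ h1.1 z hzG (hXz i i.2 _)
    · exact ht2 z hzG _ h2.1 (fun h => hYz j j.2 _ h.symm)

theorem ltcore_class {q h w M m K D r g : ℕ} [NeZero q] (hq : 2 ≤ q)
    (chi : ZMod (q * q ^ w) → Bool) (hchi : RectP chi r)
    (P : LetterNBP (Vr h w M ⊕ List Bool) (Fin q)) (Ψ : Lf h × Fin w → Fin M)
    (hacc : ∀ ξ, P.Accepts ξ → LGood h w M chi ξ) (hg : ∀ c, w ≤ D * c → g ≤ c)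
    (δ : LData h w m K P.V) (F : Finset (Vr h w M → Fin q))
    (hF : ∀ a ∈ F, LPhi P D Ψ (ltXi chi a) δ) :
    F.card * q ^ (g * m) ≤ (r ^ 3) ^ m * 2 ^ (2 * m * h) * q ^ (2 ^ h * w * M) := by
  rcases F.eq_empty_or_nonempty with rfl | ⟨a0, ha0⟩
  · simp
  obtain ⟨X, Y, A, B, z, lev, st, col⟩ := δ
  obtain ⟨p1, p2, p3, p4, p5, p6, -⟩ := hF a0 ha0
  refine lt_data hq chi hchi Ψ z (fun i => (lev i : ℕ)) p1 (fun i => Nat.lt_succ_iff.1 (lev i).2)
    X Y A B p2 p3 p6 g (fun i => hg _ (p4 i)) (fun i => hg _ (p5 i)) F ?_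
  intro a ha a' ha' hoff hσ v hv
  obtain ⟨-, -, -, -, -, -, W, C, hC, hst, hcol, hsep⟩ := hF a ha
  obtain ⟨-, -, -, -, -, -, W', C', hC', hst', hcol', -⟩ := hF a' ha'
  have hσ' : ∀ v, ltXi chi a (.inr v) = ltXi chi a' (.inr v) := by
    intro v
    change (if v.length < h ∧ chi (rawZ h (contZ q h w M _ a) v) = true then (1 : Fin q)
      else 0) = if v.length < h ∧ chi (rawZ h (contZ q h w M _ a') v) = true then (1 : Fin q)
      else 0
    by_cases hv : v.length < h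
    · rw [hσ v hv]
    · rw [if_neg (fun h => hv h.1), if_neg (fun h => hv h.1)]
  have hacc' : P.Accepts (Sum.elim (lmix Ψ Y B a a') fun v => ltXi chi a (.inr v)) := by
    refine lt_mix P (ltXi chi a) (ltXi chi a') _ W W' C C' (2 * K) hC hC'
      {v | ∃ x, v = .inl x ∧ isX Ψ X A x} {v | ∃ x, v = .inl x ∧ isX Ψ Y B x} ?_ ?_ ?_ ?_ ?_
    · intro g hg
      have h1 := hst ⟨g, Nat.lt_succ_of_le hg⟩
      have h2 := hst' ⟨g, Nat.lt_succ_of_le hg⟩
      exact h1.symm.trans h2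
    · intro g hg
      have h1 := hcol ⟨g, Nat.lt_succ_of_le hg⟩
      have h2 := hcol' ⟨g, Nat.lt_succ_of_le hg⟩
      have h3 := h1.symm.trans h2
      constructor
      · rintro ⟨v, ⟨x, rfl, hx⟩, hs⟩
        obtain ⟨x', hx', hs'⟩ := h3.1 ⟨x, hx, hs⟩
        exact ⟨_, ⟨x', rfl, hx'⟩, hs'⟩
      · rintro ⟨v, ⟨x, rfl, hx⟩, hs⟩
        obtain ⟨x', hx', hs'⟩ := h3.2 ⟨x, hx, hs⟩
        exact ⟨_, ⟨x', rfl, hx'⟩, hs'⟩
    · rintro _ ⟨x, rfl, hx⟩ _ ⟨y, rfl, hy⟩ s hs s' hs'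
      exact hsep x y hx hy s hs s' hs'
    · rintro (x | v) hx
      · have : ¬ isX Ψ Y B x := fun h => hx ⟨x, rfl, h⟩
        change lmix Ψ Y B a a' x = a x
        rw [lmix, if_neg this]
      · rfl
    · rintro (x | v) hx
      · have hxX : ¬ isX Ψ X A x := fun h => hx ⟨x, rfl, h⟩
        change lmix Ψ Y B a a' x = a' x
        rw [lmix]
        split_ifs with hy
        · rfl
        · exact hoff x hxX hy
      · exact hσ' v
  have hgood := hacc _ hacc' v hv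
  have hgood' := ltXi_good hq chi a v hv
  have h1 : (fun x => Sum.elim (lmix Ψ Y B a a') (fun v => ltXi chi a (.inr v)) (.inl x)) =
      lmix Ψ Y B a a' := rfl
  have h2 : (fun x => ltXi chi a (.inl x)) = a := rfl
  rw [h1] at hgood
  rw [h2] at hgood'
  have h3 := hgood.trans hgood'.symm
  cases hx : chi (rawZ h (contZ q h w M (q * q ^ w) (lmix Ψ Y B a a')) v) <;>
    cases hy : chi (rawZ h (contZ q h w M (q * q ^ w) a) v) <;> simp_all

/-- The lower bound for programs which compute the function. -/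
theorem lt_core {q h w M m K D r g T : ℕ} [NeZero q] (hq : 2 ≤ q) (hK : 1 ≤ K) (hM : 1 ≤ M)
    (chi : ZMod (q * q ^ w) → Bool) (hchi : RectP chi r)
    (P : LetterNBP (Vr h w M ⊕ List Bool) (Fin q)) (hT : 8 * T ≤ K * (2 ^ h * w * M))
    (hacc : ∀ ξ, P.Accepts ξ → LGood h w M chi ξ) (hin : ∀ ξ, LGood h w M chi ξ → P.AcceptsIn ξ T)
    (hccl : ∀ (G : Finset (Lf h × Fin w)) (typ : Lf h × Fin w → Lf h × Fin w →
      Fin K → Fin K → Bool) (_ : ∀ x ∈ G, ∀ y ∈ G, x ≠ y → typ y x = fun a b => !(typ x y b a))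
      (_ : 3 * (2 ^ h * w) ≤ 4 * G.card), CclOut G typ D m)
    (hg : ∀ c, w ≤ D * c → g ≤ c) :
    q ^ (g * m) ≤ 2 * Fintype.card (LData h w m K P.V) * ((r ^ 3) ^ m * 2 ^ (2 * m * h)) := by
  classical
  have hW : ∀ a : Vr h w M → Fin q, ∃ W : LWalk P (ltXi chi a), ∀ F : Finset _,
      ∑ i ∈ F, (W.reads i).card ≤ T := fun a => lt_walk P _ T (hin _ (ltXi_good hq chi a))
  choose W hW using hW
  obtain ⟨Ψ, hΨ⟩ := lt_sample (K := K) (T := T) hM (Vr h w M → Fin q)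
    (fun a x => ((W a).reads (.inl x)).card) (fun a => by
      have h1 := hW a (Finset.univ.map ⟨Sum.inl, Sum.inl_injective⟩)
      rw [Finset.sum_map] at h1
      exact h1) hT
  set F1 := Finset.univ.filter fun a : Vr h w M → Fin q =>
      3 * (2 ^ h * w) ≤ 4 * (Finset.univ.filter fun y : Lf h × Fin w =>
        ((W a).reads (.inl (y.1, y.2, Ψ y))).card ≤ K).card with hF1
  have h1 : F1.card ≤ ∑ δ : LData h w m K P.V,
      (F1.filter fun a => LPhi P D Ψ (ltXi chi a) δ).card := by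
    refine (Finset.card_le_card ?_).trans Finset.card_biUnion_le
    intro a ha
    rw [Finset.mem_biUnion]
    obtain ⟨δ, hδ⟩ := ltcore_data hK P Ψ hccl (ltXi chi a) (W a) (Finset.mem_filter.1 ha).2
    exact ⟨δ, Finset.mem_univ _, Finset.mem_filter.2 ⟨ha, hδ⟩⟩
  have h2 : ∀ δ : LData h w m K P.V, (F1.filter fun a => LPhi P D Ψ (ltXi chi a) δ).card *
      q ^ (g * m) ≤ (r ^ 3) ^ m * 2 ^ (2 * m * h) * q ^ (2 ^ h * w * M) := fun δ =>
    ltcore_class hq chi hchi P Ψ hacc hg δ _ fun a ha => (Finset.mem_filter.1 ha).2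
  have h3 : F1.card * q ^ (g * m) ≤ Fintype.card (LData h w m K P.V) *
      ((r ^ 3) ^ m * 2 ^ (2 * m * h) * q ^ (2 ^ h * w * M)) := by
    refine (Nat.mul_le_mul_right _ h1).trans ?_
    rw [Finset.sum_mul]
    refine (Finset.sum_le_sum fun δ _ => h2 δ).trans ?_
    rw [Finset.sum_const, smul_eq_mul, Finset.card_univ]
  have h4 : Fintype.card (Vr h w M → Fin q) = q ^ (2 ^ h * w * M) := by
    simp [mul_assoc]
  rw [h4] at hΨ
  have h5 : q ^ (2 ^ h * w * M) * q ^ (g * m) ≤ q ^ (2 ^ h * w * M) *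
      (2 * Fintype.card (LData h w m K P.V) * ((r ^ 3) ^ m * 2 ^ (2 * m * h))) := by
    calc q ^ (2 ^ h * w * M) * q ^ (g * m) ≤ 2 * F1.card * q ^ (g * m) :=
          Nat.mul_le_mul_right _ hΨ
      _ = 2 * (F1.card * q ^ (g * m)) := by ring
      _ ≤ 2 * (Fintype.card (LData h w m K P.V) *
          ((r ^ 3) ^ m * 2 ^ (2 * m * h) * q ^ (2 ^ h * w * M))) := Nat.mul_le_mul_left _ h3
      _ = _ := by ring
  exact Nat.le_of_mul_le_mul_left h5 (Nat.pow_pos (by omega))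

end Pool.Agent.MP_6216ea_lc
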