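import Mathlib
import Pool.Agent.Lib.MP_6216ea_lc.LTDefs

/-! The length of the words can be fitted to `n`. -/

set_option autoImplicit false

namespace Pool.Agent.MP_6216ea_lc

theorem ltfit_bound (D w h n q G : ℕ) (hD : 1 ≤ D) (hw : 1 ≤ w) (hh : h ≤ w)
    (hq : q = 2 ^ (8 * D)) (hG : G = q ^ w) (hn : 2 ^ (32 * (D * w)) ≤ n) :
    26 * (2 ^ h * w * (q * G)) ≤ n := by
  have h1 : (2 : ℕ) ^ h ≤ 2 ^ w := Nat.pow_le_pow_right (by norm_num) hh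
  have h2 : w ≤ 2 ^ w := Nat.lt_two_pow_self.le
  have h3 : q * G = 2 ^ (8 * D + 8 * D * w) := by
    rw [hG, hq, ← pow_mul, ← pow_add]
  have h4 : 26 * (2 ^ h * w * (q * G)) ≤ 2 ^ 5 * (2 ^ w * 2 ^ w * 2 ^ (8 * D + 8 * D * w)) := by
    rw [h3]
    gcongr
    norm_num
  have h5 : 2 ^ 5 * (2 ^ w * 2 ^ w * 2 ^ (8 * D + 8 * D * w)) = 2 ^ (5 + (w + w + (8 * D + 8 * D * w))) := by
    rw [← pow_add, ← pow_add, ← pow_add]
  have h6 : 5 + (w + w + (8 * D + 8 * D * w)) ≤ 32 * (D * w) := by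
    nlinarith [Nat.mul_le_mul hD hw, Nat.mul_le_mul_right w hD, Nat.mul_le_mul_left D hw]
  calc 26 * (2 ^ h * w * (q * G)) ≤ 2 ^ (5 + (w + w + (8 * D + 8 * D * w))) := h5 ▸ h4
    _ ≤ 2 ^ (32 * (D * w)) := Nat.pow_le_pow_right (by norm_num) h6
    _ ≤ n := hn

/-- N2 -/
theorem lt_fit (D : ℕ) (hD : 1 ≤ D) : ∃ n₀ : ℕ, ∀ n ≥ n₀, ∀ w h q G : ℕ,
    w = Nat.log 2 n / (32 * D) → h = w / 8 → q = 2 ^ (8 * D) → G = q ^ w →
    D ≤ h ∧ ∃ M' j : ℕ, 1 ≤ M' ∧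
      j + (2 ^ h * (w * (G * M' + (q + M') * G + 1) + q * G + 2) + (2 ^ h - 1) * (q * G + 3)) +
        (G + 1) = n ∧ n ≤ 4 * (2 ^ h * w * (G * M')) := by
  refine ⟨2 ^ (256 * (D * D)), fun n hn w h q G hwd hhd hqd hGd => ?_⟩
  have hn0 : n ≠ 0 := by
    have : 0 < 2 ^ (256 * (D * D)) := by positivity
    omega
  have hL : 256 * (D * D) ≤ Nat.log 2 n := Nat.le_log_of_pow_le (by norm_num) hn
  have hw8 : 8 * D ≤ w := by
    rw [hwd, Nat.le_div_iff_mul_le (by omega)]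
    nlinarith
  have hDh : D ≤ h := by
    rw [hhd, Nat.le_div_iff_mul_le (by omega)]
    omega
  refine ⟨hDh, ?_⟩
  have hw1 : 1 ≤ w := by omega
  have hhw : h ≤ w := by rw [hhd]; exact Nat.div_le_self _ _
  have hwL : 32 * (D * w) ≤ Nat.log 2 n := by
    have := Nat.div_mul_le_self (Nat.log 2 n) (32 * D)
    rw [← hwd] at this
    nlinarith
  have hnp : 2 ^ (32 * (D * w)) ≤ n :=
    (Nat.pow_le_pow_right (by norm_num) hwL).trans (Nat.pow_log_le_self 2 hn0)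
  have hb := ltfit_bound D w h n q G hD hw1 hhw hqd hGd hnp
  have hq1 : 1 ≤ q := by rw [hqd]; exact Nat.one_le_two_pow
  have hG1 : 1 ≤ G := by rw [hGd]; exact Nat.one_le_pow _ _ hq1
  have hP1 : 1 ≤ 2 ^ h := Nat.one_le_two_pow
  obtain ⟨P, hP⟩ : ∃ P, P = 2 ^ h := ⟨_, rfl⟩
  rw [← hP] at hb hP1 ⊢
  -- basic comparisons
  obtain ⟨Q, hQ⟩ : ∃ Q, Q = P * w * (q * G) := ⟨_, rfl⟩
  rw [← hQ] at hb
  have e1 : P * w ≤ Q := by
    rw [hQ]; exact Nat.le_mul_of_pos_right _ (Nat.mul_pos hq1 hG1)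
  have e2 : P * (q * G) ≤ Q := by
    rw [hQ, mul_assoc]; exact Nat.mul_le_mul_left _ (Nat.le_mul_of_pos_left _ hw1)
  have e3 : P ≤ Q := le_trans (Nat.le_mul_of_pos_right _ hw1) e1
  have e4 : q * G ≤ Q := le_trans (Nat.le_mul_of_pos_left _ hP1) e2
  have e5 : G ≤ Q := le_trans (Nat.le_mul_of_pos_left _ hq1) e4
  have e6 : P * w * G ≤ Q := by
    rw [hQ]; exact Nat.mul_le_mul_left _ (Nat.le_mul_of_pos_left _ hq1)
  have e7 : 1 ≤ Q := le_trans hP1 e3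
  -- the constant
  obtain ⟨c0, hc0⟩ : ∃ c0, c0 = P * (w * (q * G + 1) + q * G + 2) + (P - 1) * (q * G + 3) + (G + 1) :=
    ⟨_, rfl⟩
  have hc0le : c0 ≤ 11 * Q := by
    have hsub : (P - 1) * (q * G + 3) ≤ P * (q * G + 3) := Nat.mul_le_mul_right _ (Nat.sub_le _ _)
    have : P * (w * (q * G + 1) + q * G + 2) = Q + P * w + P * (q * G) + 2 * P := by
      rw [hQ]; ring
    have h2 : P * (q * G + 3) = P * (q * G) + 3 * P := by ring
    rw [hc0, this]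
    omega
  obtain ⟨U, hU⟩ : ∃ U, U = 2 * (P * w * G) := ⟨_, rfl⟩
  have hUle : U ≤ 2 * Q := by omega
  have hUpos : 1 ≤ U := by
    have : 1 ≤ P * w * G := Nat.mul_pos (Nat.mul_pos hP1 hw1) hG1
    omega
  have hdm := Nat.div_add_mod (n - c0) U
  have hmod := Nat.mod_lt (n - c0) hUpos
  obtain ⟨M', hM'⟩ : ∃ M', M' = (n - c0) / U := ⟨_, rfl⟩
  obtain ⟨j, hj⟩ : ∃ j, j = (n - c0) % U := ⟨_, rfl⟩
  rw [← hM', ← hj] at hdm
  rw [← hj] at hmod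
  have hbig : c0 + U ≤ U * M' := by omega
  have hM1 : 1 ≤ M' := by
    by_contra hcon
    have : M' = 0 := by omega
    rw [this] at hbig
    omega
  refine ⟨M', j, hM1, ?_, ?_⟩
  · have key : P * (w * (G * M' + (q + M') * G + 1) + q * G + 2) =
        P * (w * (q * G + 1) + q * G + 2) + U * M' := by
      rw [hU]; ring
    rw [key]
    have : c0 ≤ n := by omega
    omega
  · have key : 4 * (P * w * (G * M')) = 2 * (U * M') := by
      rw [hU]; ring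
    rw [key]
    omega

end Pool.Agent.MP_6216ea_lc
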