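import Mathlib
import Pool.Agent.Lib.MP_6216ea_lc.LTDefs

set_option autoImplicit false

namespace Pool.Agent.MP_6216ea_lc

theorem ltlen_grpS (q : ℕ) (V : Type) (G : ℕ) (hG : 1 ≤ G) : (grpS q V G).length = G := by
  unfold grpS
  rw [List.length_append, List.length_replicate, List.length_singleton]
  omega

theorem ltlen_passS (q : ℕ) (V : Type) (G n : ℕ) (hG : 1 ≤ G) :
    (passS q V G n).length = n * G := by
  unfold passS
  rw [List.length_flatten, List.map_replicate, List.sum_replicate, ltlen_grpS q V G hG]
  simp

theorem ltlen_grpL (q : ℕ) (V : Type) (G : ℕ) (tab : Fin G → Fin q → Bool) :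
    (grpL q V G tab).length = G := by
  unfold grpL
  rw [List.length_ofFn]

theorem ltlen_passL (q : ℕ) (V : Type) (G n : ℕ) (tab : Fin G → Fin q → Bool) :
    (passL q V G n tab).length = n * G := by
  unfold passL
  rw [List.length_flatten, List.map_replicate, List.sum_replicate, ltlen_grpL]
  simp

theorem ltlen_subT (q h w M : ℕ) (l : List Bool) (t : Fin w) :
    (subT q h w M l t).length = M := by
  unfold subT
  rw [List.length_ofFn]

theorem ltlen_leafT (q h w M G e : ℕ) (hG : 1 ≤ G) (l : List Bool) :
    (leafT q h w M G e l).length = w * (M + e * G + 1) + q * G + 2 := by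
  unfold leafT
  rw [List.length_cons, List.length_append, List.length_append, List.length_flatten,
    List.map_ofFn, ltlen_passL, List.length_singleton]
  have : (List.ofFn (List.length ∘ fun t : Fin w => subT q h w M l t ++ (passS q _ G e ++
      [(LKind.ep, none)]))).sum = w * (M + e * G + 1) := by
    have h1 : (List.length ∘ fun t : Fin w => subT q h w M l t ++ (passS q _ G e ++
        [(LKind.ep, none)])) = fun _ => M + e * G + 1 := by
      funext t
      simp only [Function.comp_apply, List.length_append, ltlen_subT, ltlen_passS q _ G e hG,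
        List.length_singleton]
      omega
    rw [h1, List.ofFn_const, List.sum_replicate]
    simp
  rw [this]
  ring

theorem ltlen_nodeT (q h w M G e : ℕ) (hG : 1 ≤ G) (chi : ZMod (q * G) → Bool) (r : ℕ) :
    ∀ v : List Bool, (nodeT q h w M G e chi r v).length =
      2 ^ r * (w * (M + e * G + 1) + q * G + 2) + (2 ^ r - 1) * (q * G + 3) := by
  induction r with
  | zero =>
    intro v
    rw [nodeT, ltlen_leafT q h w M G e hG]
    simp
  | succ r ih =>
    intro v
    rw [nodeT, List.length_cons, List.length_append, List.length_append, List.length_append,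
      ih, ih, ltlen_passL]
    obtain ⟨m, hm⟩ : ∃ m, 2 ^ r = m + 1 := ⟨2 ^ r - 1, by have := Nat.one_le_two_pow (n := r); omega⟩
    have h1 : 2 ^ (r + 1) = 2 * (m + 1) := by rw [pow_succ, hm]; ring
    rw [h1, hm]
    have h2 : 2 * (m + 1) - 1 = 2 * m + 1 := by omega
    have h3 : m + 1 - 1 = m := by omega
    rw [h2, h3]
    simp only [List.length_cons, List.length_nil]
    ring

/-- W7: length -/
theorem length_wordT (q h w M G e : ℕ) (hG : 1 ≤ G) (chi : ZMod (q * G) → Bool) (j : ℕ) :
    (wordT q h w M G e chi j).length =
      j + (2 ^ h * (w * (M + e * G + 1) + q * G + 2) + (2 ^ h - 1) * (q * G + 3)) + (G + 1) := by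
  unfold wordT
  rw [List.length_append, List.length_append, List.length_replicate, List.length_replicate,
    ltlen_nodeT q h w M G e hG]
  ring

end Pool.Agent.MP_6216ea_lc
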