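import Mathlib
import Pool.Agent.Lib.MP_6216ea_lc.LTDefs

set_option autoImplicit false

namespace Pool.Agent.MP_6216ea_lc

theorem ltnum_poly (D : ℕ) : ∃ w₀ : ℕ, ∀ w ≥ w₀, (16 * D * (w + 1) + 2) ^ 3 ≤ 2 ^ (w / 8) := by
  have h := tendsto_pow_const_div_const_pow_of_one_lt 3 (one_lt_two : (1 : ℝ) < 2)
  have hpos : (0 : ℝ) < 1 / ((260 * D + 4 : ℕ) : ℝ) ^ 3 := by positivity
  have h2 := h.eventually (gt_mem_nhds hpos)
  rw [Filter.eventually_atTop] at h2
  obtain ⟨N, hN⟩ := h2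
  refine ⟨8 * (N + 1), fun w hw => ?_⟩
  set k := w / 8 with hk
  have hkN : N + 1 ≤ k := by
    rw [hk]
    omega
  have hw8 : w ≤ 8 * k + 7 := by omega
  have h3 := hN k (by omega)
  rw [div_lt_div_iff₀ (by positivity) (by positivity)] at h3
  have h4 : ((260 * D + 4 : ℕ) * k) ^ 3 ≤ 2 ^ k := by
    have h5 : (((260 * D + 4 : ℕ) * k : ℕ) : ℝ) ^ 3 ≤ ((2 ^ k : ℕ) : ℝ) := by
      push_cast at h3 ⊢
      nlinarith
    exact_mod_cast h5
  refine le_trans (Nat.pow_le_pow_left ?_ 3) h4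
  have h6 : w + 1 ≤ 16 * k := by omega
  calc 16 * D * (w + 1) + 2 ≤ 16 * D * (16 * k) + 4 * k := by
        have := Nat.mul_le_mul_left (16 * D) h6
        omega
    _ = (256 * D + 4) * k := by ring
    _ ≤ (260 * D + 4) * k := Nat.mul_le_mul_right _ (by omega)

theorem ltnum_core (K D : ℕ) (w h m r g S : ℕ) (hh : h = w / 8)
    (hr : r ^ 3 ≤ 2 ^ h) (hg : w ≤ D * g) (hm : 1 ≤ m) (hw : 2 ≤ w)
    (H : (2 ^ (8 * D)) ^ (g * m) ≤ 2 * ((2 ^ h) ^ m * ((2 ^ h) ^ m * ((2 ^ w) ^ m * ((2 ^ w) ^ m *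
      (2 ^ h * ((h + 1) ^ (m + 1) * (S ^ (2 * K + 1) * 2 ^ (2 * K + 1)))))))) *
      ((r ^ 3) ^ m * 2 ^ (2 * m * h))) :
    2 ^ (4 * (w * m)) ≤ (2 * S) ^ (2 * K + 1) := by
  have h1 : (h + 1) ^ (m + 1) ≤ 2 ^ (h * (m + 1)) := by
    rw [pow_mul]
    exact Nat.pow_le_pow_left (Nat.lt_two_pow_self (n := h)) _
  have h2 : (r ^ 3) ^ m ≤ 2 ^ (h * m) := by
    rw [pow_mul]
    exact Nat.pow_le_pow_left hr m
  have h3 : 2 * ((2 ^ h) ^ m * ((2 ^ h) ^ m * ((2 ^ w) ^ m * ((2 ^ w) ^ m *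
      (2 ^ h * ((h + 1) ^ (m + 1) * (S ^ (2 * K + 1) * 2 ^ (2 * K + 1)))))))) *
      ((r ^ 3) ^ m * 2 ^ (2 * m * h)) ≤
      2 * ((2 ^ h) ^ m * ((2 ^ h) ^ m * ((2 ^ w) ^ m * ((2 ^ w) ^ m *
      (2 ^ h * (2 ^ (h * (m + 1)) * (S ^ (2 * K + 1) * 2 ^ (2 * K + 1)))))))) *
      (2 ^ (h * m) * 2 ^ (2 * m * h)) := by
    gcongr
  have h4 : 2 * ((2 ^ h) ^ m * ((2 ^ h) ^ m * ((2 ^ w) ^ m * ((2 ^ w) ^ m *
      (2 ^ h * (2 ^ (h * (m + 1)) * (S ^ (2 * K + 1) * 2 ^ (2 * K + 1)))))))) *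
      (2 ^ (h * m) * 2 ^ (2 * m * h)) =
      2 ^ (1 + 2 * (w * m) + 6 * (h * m) + 2 * h) * (2 * S) ^ (2 * K + 1) := by
    have e1 : (2 : ℕ) ^ (1 + 2 * (w * m) + 6 * (h * m) + 2 * h) =
        2 * ((2 ^ h) ^ m * ((2 ^ h) ^ m * ((2 ^ w) ^ m * ((2 ^ w) ^ m *
      (2 ^ h * 2 ^ (h * (m + 1))))))) * (2 ^ (h * m) * 2 ^ (2 * m * h)) := by
      simp only [← pow_mul, ← pow_add, ← pow_succ']
      congr 1
      ring
    rw [e1, mul_pow]
    ring
  have h5 : 1 + 2 * (w * m) + 6 * (h * m) + 2 * h ≤ 4 * (w * m) := by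
    have a1 : 8 * h ≤ w := by
      rw [hh]
      omega
    have a2 : 8 * (h * m) ≤ w * m := by
      calc 8 * (h * m) = (8 * h) * m := by ring
        _ ≤ w * m := Nat.mul_le_mul_right _ a1
    have a3 : w ≤ w * m := Nat.le_mul_of_pos_right _ hm
    omega
  have h6 : 2 ^ (8 * (w * m)) ≤ (2 ^ (8 * D)) ^ (g * m) := by
    rw [← pow_mul]
    apply Nat.pow_le_pow_right (by norm_num)
    calc 8 * (w * m) = 8 * w * m := by ring
      _ ≤ 8 * (D * g) * m := by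
        apply Nat.mul_le_mul_right
        exact Nat.mul_le_mul_left _ hg
      _ = 8 * D * (g * m) := by ring
  have h7 : 2 ^ (8 * (w * m)) ≤ 2 ^ (4 * (w * m)) * (2 * S) ^ (2 * K + 1) := by
    calc 2 ^ (8 * (w * m)) ≤ _ := h6
      _ ≤ _ := H
      _ ≤ _ := h3
      _ = _ := h4
      _ ≤ _ := Nat.mul_le_mul_right _ (Nat.pow_le_pow_right (by norm_num) h5)
  have h8 : (2 : ℕ) ^ (8 * (w * m)) = 2 ^ (4 * (w * m)) * 2 ^ (4 * (w * m)) := by
    rw [← pow_add]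
    congr 1
    ring
  rw [h8] at h7
  exact Nat.le_of_mul_le_mul_left h7 (by positivity)

/-- N1 -/
theorem lt_num (K D : ℕ) (hD : 1 ≤ D) : ∃ c : ℝ, 0 < c ∧ ∃ n₀ : ℕ, ∀ n ≥ n₀, ∀ w h m r g S : ℕ,
    w = Nat.log 2 n / (32 * D) → h = w / 8 → m = h / D → r = 16 * D * (w + 1) + 2 →
    w ≤ D * g → 1 ≤ S →
    (2 ^ (8 * D)) ^ (g * m) ≤ 2 * ((2 ^ h) ^ m * ((2 ^ h) ^ m * ((2 ^ w) ^ m * ((2 ^ w) ^ m *
      (2 ^ h * ((h + 1) ^ (m + 1) * (S ^ (2 * K + 1) * 2 ^ (2 * K + 1)))))))) *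
      ((r ^ 3) ^ m * 2 ^ (2 * m * h)) →
    (n : ℝ) ^ (c * Real.log n) ≤ S := by
  obtain ⟨w₁, hw₁⟩ := ltnum_poly D
  set B : ℕ := 8 * D * (2 * K + 1) with hB
  set w₀ : ℕ := w₁ + B + 2 with hw₀
  have hln2 : 0 < Real.log 2 := Real.log_pos one_lt_two
  have hDpos : (0 : ℝ) < D := by exact_mod_cast hD
  refine ⟨Real.log 2 / ((B : ℝ) * (64 * D * Real.log 2) ^ 2), by positivity,
    2 ^ (32 * D * w₀), ?_⟩
  intro n hn w h m r g S hw hh hm hr hg hS H
  have hn0 : n ≠ 0 := by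
    have : 0 < 2 ^ (32 * D * w₀) := by positivity
    omega
  have hL : 32 * D * w₀ ≤ Nat.log 2 n := Nat.le_log_of_pow_le one_lt_two hn
  have hww : w₀ ≤ w := by
    rw [hw, Nat.le_div_iff_mul_le (by positivity)]
    calc w₀ * (32 * D) = 32 * D * w₀ := by ring
      _ ≤ _ := hL
  have hBpos : 8 * D ≤ B := by
    rw [hB]
    exact Nat.le_mul_of_pos_right _ (by omega)
  have hwB : B ≤ w := by omega
  have hhD : D ≤ h := by
    rw [hh, Nat.le_div_iff_mul_le (by norm_num)]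
    omega
  have hm1 : 1 ≤ m := by
    rw [hm, Nat.le_div_iff_mul_le (by omega)]
    omega
  have hr3 : r ^ 3 ≤ 2 ^ h := by
    rw [hr, hh]
    exact hw₁ w (by omega)
  have hcore := ltnum_core K D w h m r g S hh hr3 hg hm1 (by omega) H
  -- w ≤ 16 D m
  have hwm : w ≤ 16 * D * m := by
    have a1 : w < 8 * (h + 1) := by
      rw [hh]
      omega
    have a2 : h < D * (m + 1) := by
      rw [hm]
      exact Nat.lt_mul_div_succ h (by omega)
    have a3 : 8 * (h + 1) ≤ 8 * (D * (m + 1)) := Nat.mul_le_mul_left _ a2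
    have a4 : D * (m + 1) ≤ D * (2 * m) := Nat.mul_le_mul_left _ (by omega)
    have a5 : 16 * D * m = 8 * (D * (2 * m)) := by ring
    omega
  have hwR : (w : ℝ) ≤ 16 * D * m := by exact_mod_cast hwm
  have hw1R : (1 : ℝ) ≤ w := by
    have : 1 ≤ w := by omega
    exact_mod_cast this
  -- log n
  have hnR : (1 : ℝ) ≤ n := by
    have : 1 ≤ n := Nat.one_le_iff_ne_zero.2 hn0
    exact_mod_cast this
  have hlogn0 : 0 ≤ Real.log n := Real.log_nonneg hnR
  have hlogn : Real.log n ≤ 64 * D * Real.log 2 * w := by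
    have a1 : n < 2 ^ (Nat.log 2 n + 1) := Nat.lt_pow_succ_log_self one_lt_two n
    have a2 : Nat.log 2 n + 1 ≤ 64 * D * w := by
      have a3 : Nat.log 2 n < (32 * D) * (w + 1) := by
        rw [hw]
        exact Nat.lt_mul_div_succ _ (by positivity)
      have a4 : (32 * D) * (w + 1) ≤ (32 * D) * (2 * w) := Nat.mul_le_mul_left _ (by omega)
      have a5 : 64 * D * w = (32 * D) * (2 * w) := by ring
      omega
    have a6 : (n : ℝ) ≤ 2 ^ (64 * D * w) := by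
      have : n ≤ 2 ^ (64 * D * w) := a1.le.trans (Nat.pow_le_pow_right (by norm_num) a2)
      exact_mod_cast this
    have a7 := Real.log_le_log (by linarith) a6
    rw [Real.log_pow] at a7
    push_cast at a7
    linarith
  -- log S
  have hSR : (1 : ℝ) ≤ S := by exact_mod_cast hS
  have hlogS : 4 * ((w : ℝ) * m) * Real.log 2 ≤ (2 * K + 1) * (Real.log 2 + Real.log S) := by
    have a1 : (2 : ℝ) ^ (4 * (w * m)) ≤ (2 * S) ^ (2 * K + 1) := by exact_mod_cast hcore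
    have a2 := Real.log_le_log (by positivity) a1
    rw [Real.log_pow, Real.log_pow, Real.log_mul (by norm_num) (by linarith)] at a2
    push_cast at a2
    linarith
  have hBR : (B : ℝ) = 8 * D * (2 * K + 1) := by
    rw [hB]
    push_cast
    ring
  have hBpos' : (0 : ℝ) < B := by
    rw [hBR]
    positivity
  have hww2 : (B : ℝ) ≤ w ^ 2 := by
    have a1 : (B : ℝ) ≤ w := by exact_mod_cast hwB
    nlinarith
  have key : Real.log 2 / ((B : ℝ) * (64 * D * Real.log 2) ^ 2) * Real.log n * Real.log n ≤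
      Real.log S := by
    have b1 : Real.log n * Real.log n ≤ (64 * D * Real.log 2) ^ 2 * w ^ 2 := by
      calc Real.log n * Real.log n ≤ (64 * D * Real.log 2 * w) * (64 * D * Real.log 2 * w) :=
            mul_le_mul hlogn hlogn hlogn0 (by positivity)
        _ = _ := by ring
    have b2 : Real.log 2 / ((B : ℝ) * (64 * D * Real.log 2) ^ 2) * Real.log n * Real.log n ≤
        Real.log 2 * w ^ 2 / B := by
      have hc : (0 : ℝ) < (64 * D * Real.log 2) ^ 2 := by positivity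
      calc Real.log 2 / ((B : ℝ) * (64 * D * Real.log 2) ^ 2) * Real.log n * Real.log n
          = Real.log 2 / ((B : ℝ) * (64 * D * Real.log 2) ^ 2) * (Real.log n * Real.log n) := by
            ring
        _ ≤ Real.log 2 / ((B : ℝ) * (64 * D * Real.log 2) ^ 2) *
            ((64 * D * Real.log 2) ^ 2 * w ^ 2) :=
            mul_le_mul_of_nonneg_left b1 (by positivity)
        _ = _ := by
            field_simp
    refine b2.trans ?_
    rw [div_le_iff₀ hBpos']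
    -- B log S ≥ log 2 * w^2
    have b3 : (w : ℝ) ^ 2 * Real.log 2 ≤ 4 * D * (4 * ((w : ℝ) * m) * Real.log 2) := by
      have : (w : ℝ) ^ 2 ≤ 16 * D * (w * m) := by nlinarith
      nlinarith
    have b4 : 4 * D * (4 * ((w : ℝ) * m) * Real.log 2) ≤
        4 * D * ((2 * K + 1) * (Real.log 2 + Real.log S)) :=
      mul_le_mul_of_nonneg_left hlogS (by positivity)
    have b5 : 4 * D * ((2 * K + 1) * (Real.log 2 + Real.log S)) =
        B / 2 * Real.log 2 + B / 2 * Real.log S := by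
      rw [hBR]
      ring
    have b6 : (B : ℝ) / 2 * Real.log 2 ≤ w ^ 2 / 2 * Real.log 2 := by nlinarith
    have b7 : (w : ℝ) ^ 2 * Real.log 2 ≤ w ^ 2 / 2 * Real.log 2 + B / 2 * Real.log S := by
      linarith
    nlinarith
  rw [Real.rpow_def_of_pos (by linarith)]
  calc Real.exp (Real.log n * (Real.log 2 / ((B : ℝ) * (64 * D * Real.log 2) ^ 2) * Real.log n))
      ≤ Real.exp (Real.log S) := by
        apply Real.exp_le_exp.2
        linarith
    _ = S := Real.exp_log (by linarith)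

end Pool.Agent.MP_6216ea_lc
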