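import Mathlib
import Pool.Agent.Lib.MP_6216ea_lc.LTDefs

set_option autoImplicit false

namespace Pool.Agent.MP_6216ea_lc

/-- A greedy choice of a subset with distinct sums. -/
theorem ltrect_greedy {p : ℕ} (r : ℕ) (A B' : Finset (ZMod p)) (hB' : B'.card = r) (hr1 : 1 ≤ r)
    (hA : r ^ 3 < A.card) : ∀ k ≤ r, ∃ A' ⊆ A, A'.card = k ∧
      ∀ a ∈ A', ∀ b ∈ B', ∀ a' ∈ A', ∀ b' ∈ B', a + b = a' + b' → a = a' ∧ b = b' := by
  classical
  intro k
  induction k with
  | zero => exact fun _ => ⟨∅, by simp, by simp, by simp⟩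
  | succ k ih =>
    intro hk
    obtain ⟨A', hA'A, hA'c, hA'⟩ := ih (by omega)
    let E : Finset (ZMod p) := (A' ×ˢ (B' ×ˢ B')).image fun x => x.1 + x.2.1 - x.2.2
    have hE : E.card ≤ k * (r * r) := by
      refine Finset.card_image_le.trans ?_
      rw [Finset.card_product, Finset.card_product, hA'c, hB']
    have hlt : E.card < A.card := by
      have h1 : k * (r * r) ≤ r * (r * r) := Nat.mul_le_mul_right _ (by omega)
      have h2 : r * (r * r) = r ^ 3 := by ring
      omega
    obtain ⟨a, haA, haE⟩ := Finset.exists_mem_notMem_of_card_lt_card hlt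
    have hmem : ∀ x ∈ A', ∀ b ∈ B', ∀ b' ∈ B', a ≠ x + b - b' := by
      intro x hx b hb b' hb' h
      exact haE (Finset.mem_image.2 ⟨(x, b, b'), by simp [hx, hb, hb'], h.symm⟩)
    have hne : B'.Nonempty := by
      rw [← Finset.card_pos]
      omega
    obtain ⟨b0, hb0⟩ := hne
    have haA' : a ∉ A' := fun h => hmem a h b0 hb0 b0 hb0 (by simp)
    refine ⟨insert a A', ?_, ?_, ?_⟩
    · intro x hx
      rcases Finset.mem_insert.1 hx with rfl | hx
      · exact haA
      · exact hA'A hx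
    · rw [Finset.card_insert_of_notMem haA', hA'c]
    · intro x hx b hb y hy b' hb' h
      rcases Finset.mem_insert.1 hx with hxa | hx1
      · rcases Finset.mem_insert.1 hy with hya | hy1
        · rw [hxa, hya] at h
          exact ⟨hxa.trans hya.symm, add_left_cancel h⟩
        · rw [hxa] at h
          exact absurd (eq_sub_of_add_eq h) (hmem y hy1 b' hb' b hb)
      · rcases Finset.mem_insert.1 hy with hya | hy1
        · rw [hya] at h
          exact absurd (eq_sub_of_add_eq h.symm) (hmem x hx1 b hb b' hb')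
        · exact hA' x hx1 b hb y hy1 b' hb' h

/-- R2: from the colouring property to the rectangle property. -/
theorem lt_rect (p r : ℕ) [NeZero p] (hr1 : 1 ≤ r) (chi : ZMod p → Bool)
    (hchi : ∀ A B : Finset (ZMod p), A.card = r → B.card = r →
      (∀ a ∈ A, ∀ b ∈ B, ∀ a' ∈ A, ∀ b' ∈ B, a + b = a' + b' → a = a' ∧ b = b') →
      ∀ c, ¬ ∀ a ∈ A, ∀ b ∈ B, chi (a + b) = c) : RectP chi r := by
  intro A B c hc
  have key : A.card ≤ r ^ 3 ∨ B.card ≤ r ^ 3 := by
    by_contra hcon
    rw [not_or, not_le, not_le] at hcon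
    obtain ⟨hA, hB⟩ := hcon
    have hr3 : r ≤ r ^ 3 := Nat.le_self_pow (by norm_num) r
    obtain ⟨B', hB'B, hB'c⟩ := Finset.exists_subset_card_eq (show r ≤ B.card by omega)
    obtain ⟨A', hA'A, hA'c, hA'⟩ := ltrect_greedy r A B' hB'c hr1 hA r le_rfl
    exact hchi A' B' hA'c hB'c hA' c fun a ha b hb => hc a (hA'A ha) b (hB'B hb)
  rcases key with h | h
  · exact Nat.mul_le_mul h (le_max_right _ _)
  · rw [mul_comm]
    exact Nat.mul_le_mul h (le_max_left _ _)

end Pool.Agent.MP_6216ea_lc
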