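import Mathlib
import Pool.Agent.Lib.MP_6216ea_lc.LTDefs

set_option autoImplicit false

namespace Pool.Agent.MP_6216ea_lc

/-- the program which reads the slots -/
def ltslot_P {q : ℕ} [NeZero q] {V : Type} {n : ℕ} (K : Fin n → Slt q V)
    (P : LetterNBP (Fin n) (LKind q × Fin q)) : LetterNBP V (Fin q) where
  V := P.V
  fin := P.fin
  edge := fun u o u' => match o with
    | none => P.edge u none u' ∨ ∃ i : Fin n, (K i).2 = none ∧ P.edge u (some (i, ((K i).1, 0))) u'
    | some va => ∃ i : Fin n, (K i).2 = some va.1 ∧ P.edge u (some (i, ((K i).1, va.2))) u'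
  source := P.source
  target := P.target

theorem ltslot_fwd {q : ℕ} [NeZero q] {V : Type} {n : ℕ} (K : Fin n → Slt q V)
    (P : LetterNBP (Fin n) (LKind q × Fin q)) (ξ : V → Fin q) (x : Fin n → LKind q × Fin q)
    (hx : ∀ i, x i = fill ξ (K i)) {T : ℕ} {u v : P.V} (h : P.Path x T u v) :
    ∃ T' ≤ T, (ltslot_P K P).Path ξ T' u v := by
  induction h with
  | nil u => exact ⟨0, le_refl _, LetterNBP.Path.nil (P := ltslot_P K P) u⟩
  | @free T u v w hp he ih =>
    obtain ⟨T', hT, hp'⟩ := ih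
    exact ⟨T', hT, LetterNBP.Path.free (P := ltslot_P K P) hp' (Or.inl he)⟩
  | @query T u v w i hp he ih =>
    obtain ⟨T', hT, hp'⟩ := ih
    rw [hx i] at he
    unfold fill at he
    cases hK : (K i).2 with
    | none =>
      rw [hK] at he
      exact ⟨T', by omega, LetterNBP.Path.free (P := ltslot_P K P) hp' (Or.inr ⟨i, hK, he⟩)⟩
    | some y =>
      rw [hK] at he
      exact ⟨T' + 1, by omega, LetterNBP.Path.query (P := ltslot_P K P) y hp' ⟨i, hK, he⟩⟩

theorem ltslot_bwd {q : ℕ} [NeZero q] {V : Type} {n : ℕ} (K : Fin n → Slt q V)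
    (P : LetterNBP (Fin n) (LKind q × Fin q)) (ξ : V → Fin q) (x : Fin n → LKind q × Fin q)
    (hx : ∀ i, x i = fill ξ (K i)) {T : ℕ} {u v : (ltslot_P K P).V}
    (h : (ltslot_P K P).Path ξ T u v) : ∃ T', P.Path x T' u v := by
  induction h with
  | nil u => exact ⟨0, LetterNBP.Path.nil (P := P) u⟩
  | @free T u v w hp he ih =>
    obtain ⟨T', hp'⟩ := ih
    rcases he with he | ⟨i, hi, he⟩
    · exact ⟨T', LetterNBP.Path.free (P := P) hp' he⟩
    · refine ⟨T' + 1, LetterNBP.Path.query (P := P) i hp' ?_⟩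
      rw [hx i]
      unfold fill
      rw [hi]
      exact he
  | @query T u v w y hp he ih =>
    obtain ⟨T', hp'⟩ := ih
    obtain ⟨i, hi, he⟩ := he
    refine ⟨T' + 1, LetterNBP.Path.query (P := P) i hp' ?_⟩
    rw [hx i]
    unfold fill
    rw [hi]
    exact he

/-- S1 -/
theorem lt_slots {q : ℕ} [NeZero q] {V : Type} (L : List (Slt q V)) (n : ℕ) (hn : L.length = n)
    (P : LetterNBP (Fin n) (LKind q × Fin q)) :
    ∃ P' : LetterNBP V (Fin q), Fintype.card P'.V = Fintype.card P.V ∧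
      ∀ ξ : V → Fin q, ∀ x : Fin n → LKind q × Fin q, List.ofFn x = L.map (fill ξ) →
        (P'.Accepts ξ ↔ P.Accepts x) ∧ ∀ T, P.AcceptsIn x T → P'.AcceptsIn ξ T := by
  subst hn
  refine ⟨ltslot_P (fun i => L.get i) P, rfl, ?_⟩
  intro ξ x hL
  have hx : ∀ i, x i = fill ξ (L.get i) := by
    intro i
    have h1 : (List.ofFn x)[i.val]'(by simp) = (L.map (fill ξ))[i.val]'(by simp) := by
      simp only [hL]
    rw [List.getElem_ofFn, List.getElem_map] at h1
    exact h1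
  refine ⟨⟨?_, ?_⟩, ?_⟩
  · rintro ⟨T, hT⟩
    exact ltslot_bwd _ P ξ x hx hT
  · rintro ⟨T, hT⟩
    obtain ⟨T', _, h⟩ := ltslot_fwd _ P ξ x hx hT
    exact ⟨T', h⟩
  · rintro T ⟨T', hT', hp⟩
    obtain ⟨T'', h1, h⟩ := ltslot_fwd _ P ξ x hx hp
    exact ⟨T'', h1.trans hT', h⟩

end Pool.Agent.MP_6216ea_lc
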