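import Mathlib
import Pool.Agent.Lib.MP_6216ea_lc.LTDefs

/-! Runs of the machine: concatenation and variable letters. -/

set_option autoImplicit false

namespace Pool.Agent.MP_6216ea_lc

/-- The run of the machine, with plain types (use `change ltR q _ _ _ = _` to pass to it). -/
def ltR (q : ℕ) [NeZero q] (s : LMode × Fin q × Bool) (st : List (Option (Fin q)))
    (w : List (LKind q × Fin q)) : Option ((LMode × Fin q × Bool) × List (Option (Fin q))) :=
  (lM q).run s st w

theorem ltR_nil {q : ℕ} [NeZero q] (s : LMode × Fin q × Bool) (st : List (Option (Fin q))) :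
    ltR q s st [] = some (s, st) := rfl

theorem ltR_cons_of {q : ℕ} [NeZero q] {s s' : LMode × Fin q × Bool}
    {st γ : List (Option (Fin q))} {t : LKind q × Fin q} {u : List (LKind q × Fin q)}
    (h : lstep q s t st.head? = some (s', γ)) :
    ltR q s st (t :: u) = ltR q s' (γ ++ st.tail) u := by
  have h' : (lM q).step s t (List.head? (α := (lM q).S) st) = some (s', γ) := h
  unfold ltR
  rw [DPDA.run]
  rw [h']
  rfl

theorem ltR_cons_none {q : ℕ} [NeZero q] {s : LMode × Fin q × Bool}
    {st : List (Option (Fin q))} {t : LKind q × Fin q} {u : List (LKind q × Fin q)}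
    (h : lstep q s t st.head? = none) :
    ltR q s st (t :: u) = none := by
  have h' : (lM q).step s t (List.head? (α := (lM q).S) st) = none := h
  unfold ltR
  rw [DPDA.run]
  rw [h']
  rfl

theorem ltrun_head_tail {α : Type} (s : List α) : s.head?.toList ++ s.tail = s := by
  cases s <;> rfl

theorem ltR_append {q : ℕ} [NeZero q] (s : LMode × Fin q × Bool) (st : List (Option (Fin q)))
    (u v : List (LKind q × Fin q)) :
    ltR q s st (u ++ v) = (ltR q s st u).bind fun x => ltR q x.1 x.2 v := by
  induction u generalizing s st with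
  | nil => rfl
  | cons t u ih =>
    rw [List.cons_append]
    rcases h : lstep q s t st.head? with _ | ⟨s', γ⟩
    · rw [ltR_cons_none h, ltR_cons_none h]
      rfl
    · rw [ltR_cons_of h, ltR_cons_of h]
      exact ih _ _

theorem lrun_append {q : ℕ} [NeZero q] (s : LMode × Fin q × Bool) (st : List (Option (Fin q)))
    (u v : List (LKind q × Fin q)) :
    (lM q).run s st (u ++ v) = ((lM q).run s st u).bind fun x => (lM q).run x.1 x.2 v :=
  ltR_append s st u v

/-- W1 -/
theorem lrun_var {q : ℕ} [NeZero q] (hq : 2 ≤ q) (n : ℕ) (b : Bool)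
    (rest : List (Option (Fin q))) (x : Fin q) (u : List (LKind q × Fin q)) :
    (lM q).run (lst q n b) (lsk q n rest) ((.var, x) :: u) =
      (lM q).run (lst q (n + x.val) b) (lsk q (n + x.val) rest) u := by
  have hq0 : 0 < q := by omega
  have h : lstep q (lst q n b) (.var, x) (lsk q n rest).head? =
      some ((.run, Fin.ofNat q n + x, b),
        List.replicate (((Fin.ofNat q n).val + x.val) / q) none ++
          (lsk q n rest).head?.toList) := rfl
  change ltR q _ _ _ = ltR q _ _ _
  rw [ltR_cons_of h, List.append_assoc, ltrun_head_tail]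
  have h1 : (Fin.ofNat q n + x : Fin q) = Fin.ofNat q (n + x.val) := by
    apply Fin.ext
    rw [Fin.val_add, Fin.val_ofNat, Fin.val_ofNat, Nat.mod_add_mod]
  have h2 : List.replicate (((Fin.ofNat q n).val + x.val) / q) none ++ lsk q n rest =
      lsk q (n + x.val) rest := by
    unfold lsk
    rw [← List.append_assoc, ← List.replicate_add]
    congr 2
    rw [Fin.val_ofNat]
    have e1 : n + x.val = (n % q + x.val) + q * (n / q) := by
      have := Nat.mod_add_div n q
      omega
    rw [e1, Nat.add_mul_div_left _ _ hq0]
  rw [h2, h1]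
  rfl

end Pool.Agent.MP_6216ea_lc
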