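import Mathlib
import Pool.Agent.Lib.MP_6216ea_lc.LTDefs
import Pool.Agent.Lib.MP_6216ea_lc.LTRun

/-! The machine on passing letters which leave the frame. -/

set_option autoImplicit false

namespace Pool.Agent.MP_6216ea_lc

/-- The letters with the given flags and rows. -/
def ltpassl_w (q : ℕ) [NeZero q] (l : List (Bool × (Fin q → Bool))) :
    List (LKind q × Fin q) :=
  l.map fun x => (.pl x.1 x.2, 0)

theorem ltpassl_pop {q : ℕ} [NeZero q] (r : Fin q) (b : Bool) (st : List (Option (Fin q)))
    (v : List (LKind q × Fin q)) (l : List (Bool × (Fin q → Bool))) :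
    ltR q (.run, r, b) (List.replicate l.length none ++ st) (ltpassl_w q l ++ v) =
      ltR q (.run, r, b) st v := by
  induction l with
  | nil => rfl
  | cons x l ih =>
    have h : lstep q (.run, r, b) (.pl x.1 x.2, 0)
        (List.replicate (x :: l).length none ++ st).head? = some ((.run, r, b), []) := rfl
    have e : ltpassl_w q (x :: l) ++ v = (.pl x.1 x.2, 0) :: (ltpassl_w q l ++ v) := rfl
    rw [e, ltR_cons_of h]
    exact ih

theorem ltpassl_idle {q : ℕ} [NeZero q] (r : Fin q) (b : Bool) (st : List (Option (Fin q)))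
    (v : List (LKind q × Fin q)) (l : List (Bool × (Fin q → Bool))) :
    ltR q (.idle, r, b) st (ltpassl_w q l ++ v) = ltR q (.idle, r, b) st v := by
  induction l with
  | nil => rfl
  | cons x l ih =>
    have h : lstep q (.idle, r, b) (.pl x.1 x.2, 0) st.head? =
        some ((.idle, r, b), st.head?.toList) := rfl
    have e : ltpassl_w q (x :: l) ++ v = (.pl x.1 x.2, 0) :: (ltpassl_w q l ++ v) := rfl
    rw [e, ltR_cons_of h, ltrun_head_tail]
    exact ih

/-- flags and rows of a group -/
def ltpassl_g {q : ℕ} (G : ℕ) (tab : Fin G → Fin q → Bool) : List (Bool × (Fin q → Bool)) :=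
  List.ofFn fun H : Fin G => (decide (H.val + 1 = G), tab H)

theorem ltpassl_drop {q : ℕ} (G : ℕ) (tab : Fin G → Fin q → Bool) (H : ℕ) (hH : H < G) :
    (ltpassl_g G tab).drop H =
      (decide (H + 1 = G), tab ⟨H, hH⟩) :: (ltpassl_g G tab).drop (H + 1) := by
  have h : H < (ltpassl_g G tab).length := by
    unfold ltpassl_g
    rw [List.length_ofFn]
    exact hH
  rw [List.drop_eq_getElem_cons h]
  congr 1
  unfold ltpassl_g
  rw [List.getElem_ofFn]

theorem ltpassl_len {q : ℕ} (G : ℕ) (tab : Fin G → Fin q → Bool) :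
    (ltpassl_g G tab).length = G := by
  unfold ltpassl_g
  rw [List.length_ofFn]

theorem ltpassl_push {q : ℕ} [NeZero q] (G : ℕ) (tab : Fin G → Fin q → Bool) (r : Fin q)
    (b : Bool) (v : List (LKind q × Fin q)) (j : ℕ) :
    ∀ (H : ℕ), H + j + 1 = G → ∀ st : List (Option (Fin q)),
    ltR q (.push, r, b) st (ltpassl_w q ((ltpassl_g G tab).drop H) ++ v) =
      ltR q (.idle, r, b) (List.replicate (j + 1) none ++ st) v := by
  induction j with
  | zero =>
    intro H hH st
    rw [ltpassl_drop G tab H (by omega)]
    have h0 : (ltpassl_g G tab).drop (H + 1) = [] := by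
      apply List.drop_eq_nil_of_le
      rw [ltpassl_len]
      omega
    have h1 : decide (H + 1 = G) = true := by
      rw [decide_eq_true_eq]
      omega
    rw [h0, h1]
    have h : lstep q (.push, r, b) (.pl true (tab ⟨H, by omega⟩), 0) st.head? =
        some ((.idle, r, b), none :: st.head?.toList) := rfl
    have e : ltpassl_w q [(true, tab ⟨H, by omega⟩)] ++ v =
        (.pl true (tab ⟨H, by omega⟩), 0) :: v := rfl
    rw [e, ltR_cons_of h, List.cons_append, ltrun_head_tail]
    rfl
  | succ j ih =>
    intro H hH st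
    rw [ltpassl_drop G tab H (by omega)]
    have h1 : decide (H + 1 = G) = false := by
      rw [decide_eq_false_iff_not]
      omega
    rw [h1]
    have h : lstep q (.push, r, b) (.pl false (tab ⟨H, by omega⟩), 0) st.head? =
        some ((.push, r, b), none :: st.head?.toList) := rfl
    have e : ltpassl_w q ((false, tab ⟨H, by omega⟩) :: (ltpassl_g G tab).drop (H + 1)) ++ v =
        (.pl false (tab ⟨H, by omega⟩), 0) ::
          (ltpassl_w q ((ltpassl_g G tab).drop (H + 1)) ++ v) := rfl
    rw [e, ltR_cons_of h, List.cons_append, ltrun_head_tail, ih (H + 1) (by omega)]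
    congr 1
    rw [List.replicate_succ' (n := j + 1), List.append_assoc]
    rfl

theorem ltpassl_map {q : ℕ} [NeZero q] {V : Type} (ξ : V → Fin q) (G e : ℕ)
    (tab : Fin G → Fin q → Bool) :
    (passL q V G e tab).map (fill ξ) =
      ltpassl_w q (List.replicate e (ltpassl_g G tab)).flatten := by
  unfold passL ltpassl_w
  rw [List.map_flatten, List.map_flatten, List.map_replicate, List.map_replicate]
  congr 2
  unfold grpL ltpassl_g
  rw [List.map_ofFn, List.map_ofFn]
  rfl

theorem ltpassl_w_append {q : ℕ} [NeZero q] (l l' : List (Bool × (Fin q → Bool))) :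
    ltpassl_w q (l ++ l') = ltpassl_w q l ++ ltpassl_w q l' := by
  unfold ltpassl_w
  rw [List.map_append]

/-- the marker and the rest of its group, `H` the position in the group -/
theorem ltpassl_mark {q : ℕ} [NeZero q] (G H : ℕ) (hH : H < G) (tab : Fin G → Fin q → Bool)
    (r s : Fin q) (b : Bool) (rest : List (Option (Fin q))) (v : List (LKind q × Fin q)) :
    ltR q (.run, r, b) (some s :: rest) (ltpassl_w q ((ltpassl_g G tab).drop H) ++ v) =
      ltR q (.idle, s - 1 - r, tab ⟨H, hH⟩ r)
        (List.replicate (G - 1 - H + (q - 1 - r.val + s.val) / q) none ++ rest) v := by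
  rw [ltpassl_drop G tab H hH]
  rcases Nat.eq_zero_or_pos (G - 1 - H) with h0 | h0
  · have hd : (ltpassl_g G tab).drop (H + 1) = [] := by
      apply List.drop_eq_nil_of_le
      rw [ltpassl_len]
      omega
    have h1 : decide (H + 1 = G) = true := by
      rw [decide_eq_true_eq]
      omega
    rw [h0, hd, h1]
    have h' : lstep q (.run, r, b) (.pl true (tab ⟨H, hH⟩), 0) (some s :: rest).head? =
        some ((.idle, s - 1 - r, tab ⟨H, hH⟩ r),
          List.replicate ((q - 1 - r.val + s.val) / q) none) := rfl
    have e : ltpassl_w q [(true, tab ⟨H, hH⟩)] ++ v = (.pl true (tab ⟨H, hH⟩), 0) :: v := rfl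
    rw [e, ltR_cons_of h', Nat.zero_add]
    rfl
  · obtain ⟨j, hj⟩ : ∃ j, G - 1 - H = j + 1 := ⟨G - 1 - H - 1, by omega⟩
    have h1 : decide (H + 1 = G) = false := by
      rw [decide_eq_false_iff_not]
      omega
    rw [h1]
    have h' : lstep q (.run, r, b) (.pl false (tab ⟨H, hH⟩), 0) (some s :: rest).head? =
        some ((.push, s - 1 - r, tab ⟨H, hH⟩ r),
          List.replicate ((q - 1 - r.val + s.val) / q) none) := rfl
    have e : ltpassl_w q ((false, tab ⟨H, hH⟩) :: (ltpassl_g G tab).drop (H + 1)) ++ v =
        (.pl false (tab ⟨H, hH⟩), 0) ::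
          (ltpassl_w q ((ltpassl_g G tab).drop (H + 1)) ++ v) := rfl
    rw [e, ltR_cons_of h', ltpassl_push G tab _ _ v j (H + 1) (by omega)]
    congr 1
    rw [List.tail_cons, ← List.append_assoc, ← List.replicate_add, hj]

/-- W3 -/
theorem lrun_passL {q : ℕ} [NeZero q] (hq : 2 ≤ q) {V : Type} (ξ : V → Fin q) (G e n m : ℕ)
    (hG : 1 ≤ G) (hn : n < e * (q * G)) (b : Bool) (tab : Fin G → Fin q → Bool)
    (rest : List (Option (Fin q))) (u : List (LKind q × Fin q)) :
    (lM q).run (lst q n b) (lsk q n (some (Fin.ofNat q m) :: lsk q m rest))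
        ((passL q V G e tab).map (fill ξ) ++ (.ep, 0) :: u) =
      (lM q).run (lst q (m + (q * G - 1 - n % (q * G)))
          (tab ⟨n / q % G, Nat.mod_lt _ hG⟩ (Fin.ofNat q n)))
        (lsk q (m + (q * G - 1 - n % (q * G))) rest) u := by
  change ltR q _ _ _ = ltR q _ _ _
  have hq0 : 0 < q := by omega
  set U := n / q with hU
  set a := U / G with ha
  set H := U % G with hH
  have hHG : H < G := Nat.mod_lt _ hG
  have hUe : U < e * G := by
    rw [hU, Nat.div_lt_iff_lt_mul hq0]
    calc n < e * (q * G) := hn
      _ = e * G * q := by ring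
  have hae : a < e := by
    rw [ha, Nat.div_lt_iff_lt_mul hG]
    exact hUe
  have hUeq : U = a * G + H := by
    rw [ha, hH, mul_comm]
    exact (Nat.div_add_mod U G).symm
  have hglen : (ltpassl_g G tab).length = G := ltpassl_len G tab
  -- split the word
  have hsplit : (List.replicate e (ltpassl_g G tab)).flatten =
      ((List.replicate a (ltpassl_g G tab)).flatten ++ (ltpassl_g G tab).take H) ++
        ((ltpassl_g G tab).drop H ++
          (List.replicate (e - 1 - a) (ltpassl_g G tab)).flatten) := by
    have h1 : e = a + (1 + (e - 1 - a)) := by omega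
    conv_lhs => rw [h1, List.replicate_add, List.replicate_add, List.flatten_append,
      List.flatten_append]
    have h2 : (List.replicate 1 (ltpassl_g G tab)).flatten = (ltpassl_g G tab).take H ++
        (ltpassl_g G tab).drop H := by
      rw [List.take_append_drop]
      simp
    rw [h2]
    simp only [List.append_assoc]
  have hlen : ((List.replicate a (ltpassl_g G tab)).flatten ++
      (ltpassl_g G tab).take H).length = U := by
    rw [List.length_append, List.length_flatten, List.map_replicate, List.sum_replicate, hglen,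
      List.length_take, hglen, hUeq]
    simp only [smul_eq_mul]
    omega
  rw [ltpassl_map, hsplit, ltpassl_w_append, List.append_assoc]
  have hst : lsk q n (some (Fin.ofNat q m) :: lsk q m rest) = List.replicate
      ((List.replicate a (ltpassl_g G tab)).flatten ++ (ltpassl_g G tab).take H).length none ++
        (some (Fin.ofNat q m) :: lsk q m rest) := by
    rw [hlen]
    rfl
  rw [hst]
  unfold lst
  rw [ltpassl_pop, ltpassl_w_append, List.append_assoc, ltpassl_mark G H hHG, ltpassl_idle]
  have hep : ∀ (r : Fin q) (b : Bool) (st : List (Option (Fin q))),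
      ltR q (.idle, r, b) st ((.ep, 0) :: u) = ltR q (.run, r, b) st u := by
    intro r b st
    have h : lstep q (.idle, r, b) (.ep, 0) st.head? =
        some ((.run, r, b), st.head?.toList) := rfl
    rw [ltR_cons_of h, ltrun_head_tail]
  rw [hep]
  have hmod : n % (q * G) = q * H + n % q := by
    rw [Nat.mod_mul, hH, hU]
    ring
  have hr : n % q < q := Nat.mod_lt _ hq0
  have hval : q * G - 1 - n % (q * G) = q * (G - 1 - H) + (q - 1 - n % q) := by
    rw [hmod]
    obtain ⟨c, hc⟩ : ∃ c, G = H + 1 + c := ⟨G - (H + 1), by omega⟩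
    have e1 : G - 1 - H = c := by omega
    rw [e1, hc]
    have e2 : q * (H + 1 + c) = q * H + q + q * c := by ring
    rw [e2]
    omega
  have h1 : (Fin.ofNat q m - 1 - Fin.ofNat q n : Fin q) =
      Fin.ofNat q (m + (q * G - 1 - n % (q * G))) := by
    symm
    rw [eq_sub_iff_add_eq, eq_sub_iff_add_eq]
    apply Fin.ext
    rw [Fin.val_add, Fin.val_add, Fin.val_ofNat, Fin.val_ofNat, Fin.val_ofNat]
    have h3 : (1 : Fin q).val = 1 := by
      have : (1 : Fin q) = Fin.ofNat q 1 := rfl
      rw [this, Fin.val_ofNat]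
      exact Nat.mod_eq_of_lt (by omega)
    rw [h3, ← Nat.add_mod, Nat.mod_add_mod]
    have h4 : n % (q * G) < q * G := Nat.mod_lt _ (Nat.mul_pos hq0 hG)
    have h5 : m + (q * G - 1 - n % (q * G)) + n + 1 = m + q * (G + G * (n / (q * G))) := by
      have h6 := Nat.mod_add_div n (q * G)
      have h7 : q * (G + G * (n / (q * G))) = q * G + q * G * (n / (q * G)) := by ring
      rw [h7]
      omega
    rw [h5, Nat.add_mul_mod_self_left]
  have h2 : List.replicate (G - 1 - H + (q - 1 - (Fin.ofNat q n).val +
      (Fin.ofNat q m).val) / q) none ++ lsk q m rest =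
      lsk q (m + (q * G - 1 - n % (q * G))) rest := by
    unfold lsk
    rw [← List.append_assoc, ← List.replicate_add]
    congr 2
    rw [Fin.val_ofNat, Fin.val_ofNat, hval]
    have e1 : m + (q * (G - 1 - H) + (q - 1 - n % q)) =
        (q - 1 - n % q + m % q) + q * (G - 1 - H + m / q) := by
      have h6 := Nat.mod_add_div m q
      rw [Nat.mul_add]
      omega
    rw [e1, Nat.add_mul_div_left _ _ hq0]
    omega
  rw [h1, h2]

end Pool.Agent.MP_6216ea_lc
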