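import Mathlib
import Pool.Agent.Lib.MP_6216ea_lc.LTDefs
import Pool.Agent.Lib.MP_6216ea_lc.LTRun

/-! The machine on passing letters which stay in the frame. -/

set_option autoImplicit false

namespace Pool.Agent.MP_6216ea_lc

/-- The letters with the given flags. -/
def ltpasss_w (q : ℕ) [NeZero q] (l : List Bool) : List (LKind q × Fin q) :=
  l.map fun x => (.ps x, 0)

theorem ltpasss_pop {q : ℕ} [NeZero q] (r : Fin q) (b : Bool) (st : List (Option (Fin q)))
    (v : List (LKind q × Fin q)) (l : List Bool) :
    ltR q (.run, r, b) (List.replicate l.length none ++ st) (ltpasss_w q l ++ v) =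
      ltR q (.run, r, b) st v := by
  induction l with
  | nil => rfl
  | cons x l ih =>
    have h : lstep q (.run, r, b) (.ps x, 0)
        (List.replicate (x :: l).length none ++ st).head? = some ((.run, r, b), []) := rfl
    have e : ltpasss_w q (x :: l) ++ v = (.ps x, 0) :: (ltpasss_w q l ++ v) := rfl
    rw [e, ltR_cons_of h]
    exact ih

theorem ltpasss_idle {q : ℕ} [NeZero q] (r : Fin q) (b : Bool) (st : List (Option (Fin q)))
    (v : List (LKind q × Fin q)) (l : List Bool) :
    ltR q (.idle, r, b) st (ltpasss_w q l ++ v) = ltR q (.idle, r, b) st v := by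
  induction l with
  | nil => rfl
  | cons x l ih =>
    have h : lstep q (.idle, r, b) (.ps x, 0) st.head? =
        some ((.idle, r, b), st.head?.toList) := rfl
    have e : ltpasss_w q (x :: l) ++ v = (.ps x, 0) :: (ltpasss_w q l ++ v) := rfl
    rw [e, ltR_cons_of h, ltrun_head_tail]
    exact ih

theorem ltpasss_push {q : ℕ} [NeZero q] (r : Fin q) (b : Bool) (v : List (LKind q × Fin q))
    (j : ℕ) : ∀ st : List (Option (Fin q)),
    ltR q (.push, r, b) st (ltpasss_w q (List.replicate j false ++ [true]) ++ v) =
      ltR q (.idle, r, b) (List.replicate ((j + 1) * q) none ++ st) v := by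
  induction j with
  | zero =>
    intro st
    have h : lstep q (.push, r, b) (.ps true, 0) st.head? =
        some ((.idle, r, b), List.replicate q none ++ st.head?.toList) := rfl
    have e : ltpasss_w q (List.replicate 0 false ++ [true]) ++ v = (.ps true, 0) :: v := rfl
    rw [e, ltR_cons_of h, List.append_assoc, ltrun_head_tail]
    simp
  | succ j ih =>
    intro st
    have h : lstep q (.push, r, b) (.ps false, 0) st.head? =
        some ((.push, r, b), List.replicate q none ++ st.head?.toList) := rfl
    have e : ltpasss_w q (List.replicate (j + 1) false ++ [true]) ++ v =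
        (.ps false, 0) :: (ltpasss_w q (List.replicate j false ++ [true]) ++ v) := rfl
    rw [e, ltR_cons_of h, List.append_assoc, ltrun_head_tail, ih, ← List.append_assoc,
      ← List.replicate_add]
    congr 3
    ring

/-- flags of a group -/
def ltpasss_g (G : ℕ) : List Bool := List.replicate (G - 1) false ++ [true]

theorem ltpasss_map {q : ℕ} [NeZero q] {V : Type} (ξ : V → Fin q) (G e : ℕ) :
    (passS q V G e).map (fill ξ) = ltpasss_w q (List.replicate e (ltpasss_g G)).flatten := by
  unfold passS ltpasss_w
  rw [List.map_flatten, List.map_flatten, List.map_replicate, List.map_replicate]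
  congr 2
  unfold grpS ltpasss_g
  simp only [List.map_append, List.map_replicate, List.map_cons, List.map_nil, fill]
  rfl

theorem ltpasss_w_append {q : ℕ} [NeZero q] (l l' : List Bool) :
    ltpasss_w q (l ++ l') = ltpasss_w q l ++ ltpasss_w q l' := by
  unfold ltpasss_w
  rw [List.map_append]

/-- the marker and the rest of its group, `H` the position in the group -/
theorem ltpasss_mark {q : ℕ} [NeZero q] (G H : ℕ) (hH : H < G) (r s : Fin q) (b : Bool)
    (rest : List (Option (Fin q))) (v : List (LKind q × Fin q)) :
    ltR q (.run, r, b) (some s :: rest) (ltpasss_w q ((ltpasss_g G).drop H) ++ v) =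
      ltR q (.idle, 0, b)
        (List.replicate ((G - 1 - H) * q + (q - 1 - r.val)) none ++ some s :: rest) v := by
  unfold ltpasss_g
  rw [List.drop_append_of_le_length (by rw [List.length_replicate]; omega), List.drop_replicate]
  rcases Nat.eq_zero_or_pos (G - 1 - H) with h0 | h0
  · rw [h0]
    have h : lstep q (.run, r, b) (.ps true, 0) (some (some s)) =
        some ((.idle, 0, b), List.replicate (q - 1 - r.val) none ++ [some s]) := rfl
    have h' : lstep q (.run, r, b) (.ps true, 0) (some s :: rest).head? =
        some ((.idle, 0, b), List.replicate (q - 1 - r.val) none ++ [some s]) := h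
    have e : ltpasss_w q (List.replicate 0 false ++ [true]) ++ v = (.ps true, 0) :: v := rfl
    rw [e, ltR_cons_of h']
    simp
  · obtain ⟨j, hj⟩ : ∃ j, G - 1 - H = j + 1 := ⟨G - 1 - H - 1, by omega⟩
    rw [hj]
    have h' : lstep q (.run, r, b) (.ps false, 0) (some s :: rest).head? =
        some ((.push, 0, b), List.replicate (q - 1 - r.val) none ++ [some s]) := rfl
    have e : ltpasss_w q (List.replicate (j + 1) false ++ [true]) ++ v =
        (.ps false, 0) :: (ltpasss_w q (List.replicate j false ++ [true]) ++ v) := rfl
    rw [e, ltR_cons_of h', ltpasss_push]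
    congr 1
    rw [List.tail_cons, List.append_assoc, ← List.append_assoc, ← List.replicate_add]
    rfl

/-- W2 -/
theorem lrun_passS {q : ℕ} [NeZero q] (hq : 2 ≤ q) {V : Type} (ξ : V → Fin q) (G e n : ℕ)
    (hG : 1 ≤ G) (hn : n < e * (q * G)) (b : Bool) (s : Fin q) (rest : List (Option (Fin q)))
    (u : List (LKind q × Fin q)) :
    (lM q).run (lst q n b) (lsk q n (some s :: rest))
        ((passS q V G e).map (fill ξ) ++ (.ep, 0) :: u) =
      (lM q).run (lst q (q * (q * G - 1 - n % (q * G))) b)
        (lsk q (q * (q * G - 1 - n % (q * G))) (some s :: rest)) u := by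
  change ltR q _ _ _ = ltR q _ _ _
  have hq0 : 0 < q := by omega
  set U := n / q with hU
  set a := U / G with ha
  set H := U % G with hH
  have hHG : H < G := Nat.mod_lt _ hG
  have hUe : U < e * G := by
    rw [hU, Nat.div_lt_iff_lt_mul hq0]
    calc n < e * (q * G) := hn
      _ = e * G * q := by ring
  have hae : a < e := by
    rw [ha, Nat.div_lt_iff_lt_mul hG]
    exact hUe
  have hUeq : U = a * G + H := by
    rw [ha, hH, mul_comm]
    exact (Nat.div_add_mod U G).symm
  have hglen : (ltpasss_g G).length = G := by
    unfold ltpasss_g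
    rw [List.length_append, List.length_replicate, List.length_singleton]
    omega
  -- split the word
  have hsplit : (List.replicate e (ltpasss_g G)).flatten =
      ((List.replicate a (ltpasss_g G)).flatten ++ (ltpasss_g G).take H) ++
        ((ltpasss_g G).drop H ++ (List.replicate (e - 1 - a) (ltpasss_g G)).flatten) := by
    have h1 : e = a + (1 + (e - 1 - a)) := by omega
    conv_lhs => rw [h1, List.replicate_add, List.replicate_add, List.flatten_append,
      List.flatten_append]
    have h2 : (List.replicate 1 (ltpasss_g G)).flatten = (ltpasss_g G).take H ++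
        (ltpasss_g G).drop H := by
      rw [List.take_append_drop]
      simp
    rw [h2]
    simp only [List.append_assoc]
  have hlen : ((List.replicate a (ltpasss_g G)).flatten ++ (ltpasss_g G).take H).length = U := by
    rw [List.length_append, List.length_flatten, List.map_replicate, List.sum_replicate, hglen,
      List.length_take, hglen, hUeq]
    simp only [smul_eq_mul]
    omega
  rw [ltpasss_map, hsplit, ltpasss_w_append, List.append_assoc]
  have hst : lsk q n (some s :: rest) = List.replicate
      ((List.replicate a (ltpasss_g G)).flatten ++ (ltpasss_g G).take H).length none ++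
        (some s :: rest) := by
    rw [hlen]
    rfl
  rw [hst]
  unfold lst
  rw [ltpasss_pop, ltpasss_w_append, List.append_assoc, ltpasss_mark G H hHG, ltpasss_idle]
  have hep : ∀ st : List (Option (Fin q)), ltR q (.idle, 0, b) st ((.ep, 0) :: u) =
      ltR q (.run, 0, b) st u := by
    intro st
    have h : lstep q (.idle, 0, b) (.ep, 0) st.head? =
        some ((.run, 0, b), st.head?.toList) := rfl
    rw [ltR_cons_of h, ltrun_head_tail]
  rw [hep]
  have hmod : n % (q * G) = q * H + n % q := by
    rw [Nat.mod_mul, hH, hU]
    ring
  have hr : n % q < q := Nat.mod_lt _ hq0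
  have hval : (G - 1 - H) * q + (q - 1 - (Fin.ofNat q n).val) = q * G - 1 - n % (q * G) := by
    rw [Fin.val_ofNat, hmod]
    obtain ⟨c, hc⟩ : ∃ c, G = H + 1 + c := ⟨G - (H + 1), by omega⟩
    have e1 : G - 1 - H = c := by omega
    rw [e1, hc]
    have e2 : q * (H + 1 + c) = q * H + q + c * q := by ring
    rw [e2]
    omega
  have h1 : (Fin.ofNat q (q * (q * G - 1 - n % (q * G))) : Fin q) = 0 := by
    apply Fin.ext
    rw [Fin.val_ofNat]
    simp
  have h2 : lsk q (q * (q * G - 1 - n % (q * G))) (some s :: rest) =
      List.replicate (q * G - 1 - n % (q * G)) none ++ some s :: rest := by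
    unfold lsk
    rw [Nat.mul_div_cancel_left _ hq0]
  rw [h1, h2, hval]

end Pool.Agent.MP_6216ea_lc
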