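import Mathlib
import Pool.Agent.Lib.MP_6216ea_lc.LTDefs
import Pool.Agent.Lib.MP_6216ea_lc.LTRun
import Pool.Agent.Lib.MP_6216ea_lc.LTPassS
import Pool.Agent.Lib.MP_6216ea_lc.LTPassL

set_option autoImplicit false

namespace Pool.Agent.MP_6216ea_lc

theorem ltleaf_neg_val (p v : ℕ) (hp : 0 < p) :
    ((-1 - (v : ZMod p)) : ZMod p).val = p - 1 - v % p := by
  have : NeZero p := ⟨hp.ne'⟩
  have hlt : v % p < p := Nat.mod_lt _ hp
  have h1 : ((p - 1 - v % p : ℕ) : ZMod p) = -1 - (v : ZMod p) := by
    rw [Nat.cast_sub (by omega), Nat.cast_sub (by omega), ZMod.natCast_self, ZMod.natCast_mod]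
    simp
  rw [← h1, ZMod.val_natCast_of_lt (by omega)]

theorem ltleaf_opn {q : ℕ} [NeZero q] (n : ℕ) (b : Bool)
    (rest : List (Option (Fin q))) (W : List (LKind q × Fin q)) :
    (lM q).run (lst q n b) (lsk q n rest) (((LKind.opn : LKind q), (0 : Fin q)) :: W) =
      (lM q).run (lst q 0 b) (lsk q 0 (some (Fin.ofNat q n) :: lsk q n rest)) W := by
  have h0 : ∀ l : List (Option (Fin q)), lsk q 0 l = l := by
    intro l
    simp [lsk]
  rw [h0]
  have h1 : lst q 0 b = (LMode.run, 0, b) := by
    simp [lst]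
  rw [h1]
  generalize lsk q n rest = st
  cases st with
  | nil => rfl
  | cons a t => rfl

theorem ltleaf_vars {q : ℕ} [NeZero q] (hq : 2 ≤ q) {V : Type} (ξ : V → Fin q)
    (rest : List (Option (Fin q))) (b : Bool) (u : List (LKind q × Fin q)) :
    ∀ (M : ℕ) (x : Fin M → V) (m : ℕ),
      (lM q).run (lst q m b) (lsk q m rest)
        ((List.ofFn fun i : Fin M => ((LKind.var : LKind q), some (x i))).map (fill ξ) ++ u) =
      (lM q).run (lst q (m + ∑ i, (ξ (x i)).val) b) (lsk q (m + ∑ i, (ξ (x i)).val) rest) u := by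
  intro M
  induction M with
  | zero =>
    intro x m
    simp
  | succ M ih =>
    intro x m
    rw [List.ofFn_succ, List.map_cons, List.cons_append]
    have h1 : fill ξ ((LKind.var : LKind q), some (x 0)) = (LKind.var, ξ (x 0)) := rfl
    rw [h1, lrun_var hq, ih (fun i => x i.succ) (m + (ξ (x 0)).val), Fin.sum_univ_succ, add_assoc]

theorem ltleaf_blocks {q : ℕ} [NeZero q] (hq : 2 ≤ q) {V : Type} (ξ : V → Fin q) (M G e : ℕ)
    (hG : 1 ≤ G) (he : q * G + M ≤ e * G)
    (s : Fin q) (rest : List (Option (Fin q))) (b : Bool) (u : List (LKind q × Fin q)) :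
    ∀ (w : ℕ) (x : Fin w → Fin M → V) (m : ℕ), m ≤ q * (q * G - 1) →
      ∃ m' : ℕ, m' ≤ q * (q * G - 1) ∧
        (m' : ZMod (q * G)) = (-(q : ZMod (q * G))) ^ w * m +
          ∑ t : Fin w, (-(q : ZMod (q * G))) ^ (w - t.val) *
            (1 + ∑ i, ((ξ (x t i)).val : ZMod (q * G))) ∧
        (lM q).run (lst q m b) (lsk q m (some s :: rest))
          ((List.ofFn fun t : Fin w =>
            (List.ofFn fun i : Fin M => ((LKind.var : LKind q), some (x t i))) ++
              (passS q V G e ++ [((LKind.ep : LKind q), none)])).flatten.map (fill ξ) ++ u) =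
        (lM q).run (lst q m' b) (lsk q m' (some s :: rest)) u := by
  intro w
  induction w with
  | zero =>
    intro x m hm
    refine ⟨m, hm, ?_, ?_⟩
    · simp
    · simp
  | succ w ih =>
    intro x m hm
    set S : ℕ := ∑ i, (ξ (x 0 i)).val with hS
    have hSle : S ≤ M * (q - 1) := by
      have h := Finset.sum_le_card_nsmul Finset.univ (fun i => (ξ (x 0 i)).val) (q - 1)
        (fun i _ => by have := (ξ (x 0 i)).isLt; omega)
      rw [Finset.card_univ, Fintype.card_fin, smul_eq_mul] at h
      exact h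
    have hp : 0 < q * G := Nat.mul_pos (by omega) hG
    have hlt : m + S < e * (q * G) := by
      obtain ⟨p', hp'⟩ : ∃ p', q * G = p' + 1 := ⟨q * G - 1, by omega⟩
      obtain ⟨q', hq'⟩ : ∃ q', q = q' + 1 := ⟨q - 1, by omega⟩
      have h1 : q * (q * G) + q * M ≤ e * (q * G) := by nlinarith
      have h2 : q * (q * G - 1) + q = q * (q * G) := by
        rw [hp', Nat.add_sub_cancel]; ring
      have h3 : M * (q - 1) ≤ q * M := by
        rw [mul_comm]; exact Nat.mul_le_mul_right M (Nat.sub_le q 1)
      omega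
    have hmod : (m + S) % (q * G) < q * G := Nat.mod_lt _ hp
    obtain ⟨m', h1, h2, h3⟩ := ih (fun t => x t.succ) (q * (q * G - 1 - (m + S) % (q * G)))
      (Nat.mul_le_mul_left q (Nat.sub_le _ _))
    refine ⟨m', h1, ?_, ?_⟩
    · rw [h2, Fin.sum_univ_succ]
      have h4 : ((q * (q * G - 1 - (m + S) % (q * G)) : ℕ) : ZMod (q * G)) =
          -(q : ZMod (q * G)) * (m + (1 + ∑ i, ((ξ (x 0 i)).val : ZMod (q * G)))) := by
        rw [Nat.cast_mul, Nat.cast_sub (by omega), Nat.cast_sub (by omega), ZMod.natCast_self,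
          ZMod.natCast_mod, hS]
        push_cast
        ring
      rw [h4]
      have h5 : ∀ t : Fin w, w + 1 - (t.succ : Fin (w + 1)).val = w - t.val := by
        intro t
        rw [Fin.val_succ]
        omega
      simp only [h5, Fin.val_zero, Nat.sub_zero]
      ring
    · rw [List.ofFn_succ, List.flatten_cons, List.map_append, List.map_append, List.append_assoc,
        List.append_assoc, ltleaf_vars hq ξ (some s :: rest) b, ← hS, List.map_append,
        List.append_assoc]
      have h6 : List.map (fill ξ) [((LKind.ep : LKind q), (none : Option V))] ++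
          (((List.ofFn fun t : Fin w =>
            (List.ofFn fun i : Fin M => ((LKind.var : LKind q), some (x t.succ i))) ++
              (passS q V G e ++ [((LKind.ep : LKind q), none)])).flatten.map (fill ξ)) ++ u) =
          (LKind.ep, 0) :: (((List.ofFn fun t : Fin w =>
            (List.ofFn fun i : Fin M => ((LKind.var : LKind q), some (x t.succ i))) ++
              (passS q V G e ++ [((LKind.ep : LKind q), none)])).flatten.map (fill ξ)) ++ u) := rfl
      rw [h6, lrun_passS hq ξ G e (m + S) hG hlt b s rest]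
      exact h3

/-- W4: leaf word -/
theorem lrun_leaf {q : ℕ} [NeZero q] (hq : 2 ≤ q) (h w M G e : ℕ) (hG : 1 ≤ G)
    (he : q * G + M ≤ e * G) (ξ : Vr h w M ⊕ List Bool → Fin q) (l : List Bool) (n : ℕ) (b : Bool)
    (rest : List (Option (Fin q))) (u : List (LKind q × Fin q)) :
    ∃ b', (lM q).run (lst q n b) (lsk q n rest) ((leafT q h w M G e l).map (fill ξ) ++ u) =
      (lM q).run (lst q (n + (contZ q h w M (q * G) (fun x => ξ (.inl x)) l).val) b')
        (lsk q (n + (contZ q h w M (q * G) (fun x => ξ (.inl x)) l).val) rest) u := by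
  have hp : 0 < q * G := Nat.mul_pos (by omega) hG
  obtain ⟨m', h1, h2, h3⟩ := ltleaf_blocks hq ξ M G e hG he (Fin.ofNat q n) (lsk q n rest) b
    ((passL q (Vr h w M ⊕ List Bool) G q (fun _ _ => false)).map (fill ξ) ++
      (LKind.ep, 0) :: u) w (fun t i => .inl (decL h l, t, i)) 0 (Nat.zero_le _)
  have hlt : m' < q * (q * G) := by
    obtain ⟨p', hp'⟩ : ∃ p', q * G = p' + 1 := ⟨q * G - 1, by omega⟩
    rw [hp', Nat.add_sub_cancel] at h1
    rw [hp']
    have : q * (p' + 1) = q * p' + q := by ring
    omega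
  have h4 := lrun_passL hq ξ G q m' n hG hlt b (fun _ _ => false) rest u
  have hcont : (contZ q h w M (q * G) (fun x => ξ (.inl x)) l).val =
      q * G - 1 - m' % (q * G) := by
    have h5 : contZ q h w M (q * G) (fun x => ξ (.inl x)) l = -1 - (m' : ZMod (q * G)) := by
      rw [h2]
      unfold contZ leafZ
      simp
    rw [h5, ltleaf_neg_val _ _ hp]
  rw [hcont]
  refine ⟨false, ?_⟩
  rw [← h4, ← h3]
  have h7 : (leafT q h w M G e l).map (fill ξ) ++ u = ((LKind.opn : LKind q), (0 : Fin q)) ::
      ((List.ofFn fun t : Fin w =>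
            (List.ofFn fun i : Fin M => ((LKind.var : LKind q),
              some (Sum.inl (decL h l, t, i) : Vr h w M ⊕ List Bool))) ++
              (passS q (Vr h w M ⊕ List Bool) G e ++
                [((LKind.ep : LKind q), none)])).flatten.map (fill ξ) ++
        ((passL q (Vr h w M ⊕ List Bool) G q (fun _ _ => false)).map (fill ξ) ++
          (LKind.ep, 0) :: u)) := by
    unfold leafT subT
    rw [List.map_cons, List.map_append, List.map_append, List.cons_append, List.append_assoc,
      List.append_assoc]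
    rfl
  rw [h7]
  exact ltleaf_opn n b rest _

end Pool.Agent.MP_6216ea_lc
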