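import Mathlib
import Pool.Agent.Lib.MP_6216ea_lc.LTDefs
import Pool.Agent.Lib.MP_6216ea_lc.LTPassL
import Pool.Agent.Lib.MP_6216ea_lc.LTLeaf

set_option autoImplicit false

namespace Pool.Agent.MP_6216ea_lc

theorem ltnode_opn {q : ℕ} [NeZero q] (n : ℕ) (b : Bool) (rest : List (Option (Fin q)))
    (u : List (LKind q × Fin q)) :
    (lM q).run (lst q n b) (lsk q n rest) ((.opn, 0) :: u) =
      (lM q).run (lst q 0 b) (lsk q 0 (some (Fin.ofNat q n) :: lsk q n rest)) u := by
  cases lsk q n rest with
  | nil =>
    simp only [DPDA.run, lM, lstep, lst, List.head?_nil, Option.toList_none, List.tail_nil]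
    simp [lsk]
    rfl
  | cons a t =>
    simp only [DPDA.run, lM, lstep, lst, List.head?_cons, Option.toList_some, List.tail_cons]
    simp [lsk]
    rfl

theorem ltnode_kk {q : ℕ} [NeZero q] (n : ℕ) (b : Bool) (st : List (Option (Fin q))) (x : Fin q)
    (u : List (LKind q × Fin q)) :
    (lM q).run (lst q n b) st ((.kk, x) :: u) =
      if (b = true ↔ x ≠ 0) then (lM q).run (lst q n b) st u else none := by
  by_cases hb : (b = true ↔ x ≠ 0)
  · rw [if_pos hb]
    cases st with
    | nil => simp [DPDA.run, lM, lstep, lst, hb]; rfl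
    | cons a t => simp [DPDA.run, lM, lstep, lst, hb]; rfl
  · rw [if_neg hb]
    cases st with
    | nil => simp [DPDA.run, lM, lstep, lst, hb]
    | cons a t => simp [DPDA.run, lM, lstep, lst, hb]

theorem ltnode_val {p : ℕ} [NeZero p] (x y : ZMod p) :
    (-1 - (x + y)).val = p - 1 - (x.val + y.val) % p := by
  have hp : 0 < p := NeZero.pos p
  have h1 : (x.val + y.val) % p < p := Nat.mod_lt _ hp
  have h2 : ((p - 1 - (x.val + y.val) % p : ℕ) : ZMod p) = -1 - (x + y) := by
    have h3 : p - 1 - (x.val + y.val) % p = p - (1 + (x.val + y.val) % p) := by omega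
    rw [h3, Nat.cast_sub (by omega)]
    simp
    ring
  rw [← h2, ZMod.val_natCast, Nat.mod_eq_of_lt (by omega)]

theorem ltnode_iff {P : List Bool → Prop} (r : ℕ) (v : List Bool) :
    (∀ v' : List Bool, v'.length < r + 1 → P (v ++ v')) ↔
      (∀ v' : List Bool, v'.length < r → P ((v ++ [false]) ++ v')) ∧
      (∀ v' : List Bool, v'.length < r → P ((v ++ [true]) ++ v')) ∧ P v := by
  constructor
  · intro H
    refine ⟨fun v' hv' => ?_, fun v' hv' => ?_, ?_⟩
    · rw [List.append_assoc]; exact H _ (by simpa using hv')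
    · rw [List.append_assoc]; exact H _ (by simpa using hv')
    · simpa using H [] (by simp)
  · rintro ⟨h1, h2, h3⟩ v' hv'
    cases v' with
    | nil => simpa using h3
    | cons a t =>
      cases a
      · have := h1 t (by simpa using hv')
        rwa [List.append_assoc] at this
      · have := h2 t (by simpa using hv')
        rwa [List.append_assoc] at this

/-- W5: node word -/
theorem lrun_node {q : ℕ} [NeZero q] (hq : 2 ≤ q) (h w M G e : ℕ) (hG : 1 ≤ G)
    (he : q * G + M ≤ e * G) (chi : ZMod (q * G) → Bool) (ξ : Vr h w M ⊕ List Bool → Fin q)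
    (r : ℕ) (v : List Bool) (hv : v.length + r = h) (n : ℕ) (b : Bool)
    (rest : List (Option (Fin q))) (u : List (LKind q × Fin q)) :
    ((∀ v', v'.length < r →
        (chi (rawZ h (contZ q h w M (q * G) (fun x => ξ (.inl x))) (v ++ v')) = true ↔
          ξ (.inr (v ++ v')) ≠ 0)) →
      ∃ b', (lM q).run (lst q n b) (lsk q n rest)
          ((nodeT q h w M G e chi r v).map (fill ξ) ++ u) =
        (lM q).run
          (lst q (n + (valZ r fun l => contZ q h w M (q * G) (fun x => ξ (.inl x)) (v ++ l)).val) b')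
          (lsk q (n + (valZ r fun l => contZ q h w M (q * G) (fun x => ξ (.inl x)) (v ++ l)).val)
            rest) u) ∧
    ((¬ ∀ v', v'.length < r →
        (chi (rawZ h (contZ q h w M (q * G) (fun x => ξ (.inl x))) (v ++ v')) = true ↔
          ξ (.inr (v ++ v')) ≠ 0)) →
      (lM q).run (lst q n b) (lsk q n rest)
          ((nodeT q h w M G e chi r v).map (fill ξ) ++ u) = none) := by
  have : NeZero (q * G) := ⟨by positivity⟩
  induction r generalizing v n b rest u with
  | zero =>
    constructor
    · intro _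
      obtain ⟨b', hb'⟩ := lrun_leaf hq h w M G e hG he ξ v n b rest u
      refine ⟨b', ?_⟩
      simp only [nodeT, valZ, List.append_nil]
      exact hb'
    · intro H
      exact absurd (fun v' hv' => absurd hv' (Nat.not_lt_zero _)) H
  | succ r ih =>
    set C := contZ q h w M (q * G) (fun x => ξ (.inl x)) with hC
    have hw : (nodeT q h w M G e chi (r + 1) v).map (fill ξ) ++ u =
        (.opn, 0) :: ((nodeT q h w M G e chi r (v ++ [false])).map (fill ξ) ++
          ((nodeT q h w M G e chi r (v ++ [true])).map (fill ξ) ++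
            ((passL q _ G q (fun H s => chi ((q * H.val + s.val : ℕ) : ZMod (q * G)))).map (fill ξ)
              ++ (.ep, 0) :: ((.kk, ξ (.inr v)) :: u)))) := by
      simp [nodeT, fill, List.map_append]
    rw [hw, ltnode_opn]
    have hl : (v ++ [false]).length + r = h := by simp; omega
    have hr : (v ++ [true]).length + r = h := by simp; omega
    have hiff := ltnode_iff (P := fun v' => (chi (rawZ h C v') = true ↔ ξ (.inr v') ≠ 0)) r v
    -- the two subtrees
    have ihl := ih (v ++ [false]) hl 0 b (some (Fin.ofNat q n) :: lsk q n rest)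
      ((nodeT q h w M G e chi r (v ++ [true])).map (fill ξ) ++
            ((passL q _ G q (fun H s => chi ((q * H.val + s.val : ℕ) : ZMod (q * G)))).map (fill ξ)
              ++ (.ep, 0) :: ((.kk, ξ (.inr v)) :: u)))
    by_cases hL : ∀ v' : List Bool, v'.length < r →
      (chi (rawZ h C ((v ++ [false]) ++ v')) = true ↔ ξ (.inr ((v ++ [false]) ++ v')) ≠ 0)
    swap
    · refine ⟨fun H => absurd ((hiff.1 H).1) hL, fun _ => ihl.2 hL⟩
    obtain ⟨b1, hb1⟩ := ihl.1 hL
    rw [hb1]
    set cl := valZ r fun l => C ((v ++ [false]) ++ l) with hcl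
    set cr := valZ r fun l => C ((v ++ [true]) ++ l) with hcr
    have ihr := ih (v ++ [true]) hr (0 + cl.val) b1 (some (Fin.ofNat q n) :: lsk q n rest)
            ((passL q _ G q (fun H s => chi ((q * H.val + s.val : ℕ) : ZMod (q * G)))).map (fill ξ)
              ++ (.ep, 0) :: ((.kk, ξ (.inr v)) :: u))
    by_cases hR : ∀ v' : List Bool, v'.length < r →
      (chi (rawZ h C ((v ++ [true]) ++ v')) = true ↔ ξ (.inr ((v ++ [true]) ++ v')) ≠ 0)
    swap
    · refine ⟨fun H => absurd ((hiff.1 H).2.1) hR, fun _ => ihr.2 hR⟩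
    obtain ⟨b2, hb2⟩ := ihr.1 hR
    rw [hb2]
    have hlt1 : cl.val < q * G := ZMod.val_lt cl
    have hlt2 : cr.val < q * G := ZMod.val_lt cr
    have hlt : 0 + cl.val + cr.val < q * (q * G) := by nlinarith
    rw [lrun_passL hq ξ G q (0 + cl.val + cr.val) n hG hlt b2]
    -- the bit
    have hraw : rawZ h C v = cl + cr := by
      unfold rawZ
      have : h - 1 - v.length = r := by omega
      rw [this, hcl, hcr]
      simp only [List.append_assoc, List.cons_append, List.nil_append]
    have hbit : chi ((q * ((0 + cl.val + cr.val) / q % G) +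
        (Fin.ofNat q (0 + cl.val + cr.val)).val : ℕ) : ZMod (q * G)) = chi (rawZ h C v) := by
      congr 1
      have h1 : (Fin.ofNat q (0 + cl.val + cr.val)).val = (0 + cl.val + cr.val) % q := rfl
      rw [h1, hraw, add_comm (q * _), ← Nat.mod_mul, ZMod.natCast_mod]
      push_cast
      simp
    have hval : (valZ (r + 1) fun l => C (v ++ l)).val = q * G - 1 - (cl.val + cr.val) % (q * G) := by
      have h1 : (valZ (r + 1) fun l => C (v ++ l)) = -1 - (cl + cr) := by
        rw [valZ, hcl, hcr]
        simp only [List.append_assoc, List.cons_append, List.nil_append]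
      rw [h1, ltnode_val]
    rw [hval, ltnode_kk, hbit, zero_add]
    by_cases hroot : (chi (rawZ h C v) = true ↔ ξ (.inr v) ≠ 0)
    · rw [if_pos hroot]
      refine ⟨fun _ => ⟨_, rfl⟩, fun H => absurd (hiff.2 ⟨hL, hR, hroot⟩) H⟩
    · rw [if_neg hroot]
      refine ⟨fun H => absurd (hiff.1 H).2.2 hroot, fun _ => rfl⟩

end Pool.Agent.MP_6216ea_lc
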