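import Mathlib
import Pool.Agent.Lib.MP_6216ea_lc.LTDefs
import Pool.Agent.Lib.MP_6216ea_lc.LTRun
import Pool.Agent.Lib.MP_6216ea_lc.LTNode

set_option autoImplicit false

namespace Pool.Agent.MP_6216ea_lc

theorem ltword_pads {q : ℕ} [NeZero q] (n : ℕ) (b : Bool) (st : List (Option (Fin q)))
    (u : List (LKind q × Fin q)) (j : ℕ) :
    ltR q (lst q n b) st (List.replicate j (.pad, 0) ++ u) = ltR q (lst q n b) st u := by
  induction j with
  | zero => rfl
  | succ j ih =>
    rw [List.replicate_succ, List.cons_append]
    have h : lstep q (lst q n b) (.pad, 0) st.head? = some (lst q n b, st.head?.toList) := rfl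
    rw [ltR_cons_of h, ltrun_head_tail]
    exact ih

theorem ltword_clr {q : ℕ} [NeZero q] (r : Fin q) (b : Bool) (m : ℕ) :
    ∀ k : ℕ, k ≤ m → ltR q (.clr, r, b) (List.replicate k none) (List.replicate m (.cl, 0)) =
      some ((.clr, r, b), []) := by
  induction m with
  | zero =>
    intro k hk
    have : k = 0 := by omega
    subst this
    rfl
  | succ m ih =>
    intro k hk
    cases k with
    | zero =>
      have h : lstep q (.clr, r, b) (.cl, 0) (List.replicate 0 (none : Option (Fin q))).head? =
        some ((.clr, r, b), []) := rfl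
      rw [List.replicate_succ (n := m), ltR_cons_of h]
      exact ih 0 (by omega)
    | succ k =>
      have h : lstep q (.clr, r, b) (.cl, 0)
          (List.replicate (k + 1) (none : Option (Fin q))).head? =
        some ((.clr, r, b), []) := rfl
      rw [List.replicate_succ (n := m), ltR_cons_of h]
      exact ih k (by omega)

theorem ltword_run_clr {q : ℕ} [NeZero q] (r : Fin q) (b : Bool) (m k : ℕ) (hk : k ≤ m) :
    ltR q (.run, r, b) (List.replicate k none) (List.replicate (m + 1) (.cl, 0)) =
      some ((.clr, r, b), []) := by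
  cases k with
  | zero =>
    have h : lstep q (.run, r, b) (.cl, 0) (List.replicate 0 (none : Option (Fin q))).head? =
      some ((.clr, r, b), []) := rfl
    rw [List.replicate_succ (n := m), ltR_cons_of h]
    exact ltword_clr r b m 0 (by omega)
  | succ k =>
    have h : lstep q (.run, r, b) (.cl, 0)
        (List.replicate (k + 1) (none : Option (Fin q))).head? =
      some ((.clr, r, b), []) := rfl
    rw [List.replicate_succ (n := m), ltR_cons_of h]
    exact ltword_clr r b m k (by omega)

theorem ltword_map {q : ℕ} [NeZero q] (h w M G e j : ℕ) (chi : ZMod (q * G) → Bool)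
    (ξ : Vr h w M ⊕ List Bool → Fin q) :
    (wordT q h w M G e chi j).map (fill ξ) = List.replicate j (.pad, 0) ++
      ((nodeT q h w M G e chi h []).map (fill ξ) ++ List.replicate (G + 1) (.cl, 0)) := by
  unfold wordT
  rw [List.map_append, List.map_append, List.map_replicate, List.map_replicate]
  rfl

/-- W6: the whole word -/
theorem mem_language_wordT {q : ℕ} [NeZero q] (hq : 2 ≤ q) (h w M G e j : ℕ) (hG : 1 ≤ G)
    (he : q * G + M ≤ e * G) (chi : ZMod (q * G) → Bool) (ξ : Vr h w M ⊕ List Bool → Fin q) :
    (wordT q h w M G e chi j).map (fill ξ) ∈ (lM q).language ↔ LGood h w M chi ξ := by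
  haveI : NeZero (q * G) := ⟨by positivity⟩
  have hnode := lrun_node hq h w M G e hG he chi ξ h [] (by simp) 0 false []
    (List.replicate (G + 1) (.cl, 0))
  have hstart : (lM q).run (lM q).start [] ((wordT q h w M G e chi j).map (fill ξ)) =
      (lM q).run (lst q 0 false) (lsk q 0 [])
        ((nodeT q h w M G e chi h []).map (fill ξ) ++ List.replicate (G + 1) (.cl, 0)) := by
    rw [ltword_map]
    have h1 := ltword_pads 0 false (lsk q 0 []) ((nodeT q h w M G e chi h []).map (fill ξ) ++
      List.replicate (G + 1) (.cl, 0)) j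
    have h2 : lsk q 0 [] = [] := by
      unfold lsk
      rw [Nat.zero_div]
      rfl
    rw [h2] at h1 ⊢
    have h3 : (lM q).start = lst q 0 false := by
      change ((LMode.run, (0 : Fin q), false) : LMode × Fin q × Bool) = (LMode.run, Fin.ofNat q 0, false)
      rfl
    rw [h3]
    exact h1
  constructor
  · rintro ⟨q', hacc, hrun⟩
    by_contra hbad
    have hbad' : ¬ ∀ v', v'.length < h →
        (chi (rawZ h (contZ q h w M (q * G) (fun x => ξ (.inl x))) ([] ++ v')) = true ↔
          ξ (.inr ([] ++ v')) ≠ 0) := by
      intro hall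
      exact hbad (fun v hv => hall v hv)
    have h1 := hnode.2 hbad'
    rw [hstart] at hrun
    have h2 := hrun.symm.trans h1
    exact absurd h2 (by simp)
  · intro hgood
    obtain ⟨b', hb'⟩ := hnode.1 (fun v hv => hgood v hv)
    set V : ℕ := (valZ h fun l =>
      contZ q h w M (q * G) (fun x => ξ (.inl x)) ([] ++ l)).val with hV
    have hVlt : V < q * G := ZMod.val_lt _
    have hdiv : (0 + V) / q ≤ G := by
      rw [zero_add]
      have := Nat.div_lt_of_lt_mul hVlt
      omega
    have h3 := ltword_run_clr (Fin.ofNat q (0 + V)) b' G ((0 + V) / q) hdiv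
    refine ⟨(.clr, Fin.ofNat q (0 + V), b'), rfl, ?_⟩
    rw [hstart]
    refine hb'.trans ?_
    have h4 : lsk q (0 + V) [] = List.replicate ((0 + V) / q) none := by
      unfold lsk
      rw [List.append_nil]
    rw [h4]
    exact h3

end Pool.Agent.MP_6216ea_lc
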