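import Mathlib
import Pool.Agent.Lib.MP_6216ea_lc.LTCcl
import Pool.Agent.Lib.MP_6216ea_lc.LTCore
import Pool.Agent.Lib.MP_6216ea_lc.LTCf
import Pool.Agent.Lib.MP_6216ea_lc.LTWord
import Pool.Agent.Lib.MP_6216ea_lc.LTLen
import Pool.Agent.Lib.MP_6216ea_lc.LTSlot
import Pool.Agent.Lib.MP_6216ea_lc.LTChi
import Pool.Agent.Lib.MP_6216ea_lc.LTRect
import Pool.Agent.Lib.MP_6216ea_lc.LTNum
import Pool.Agent.Lib.MP_6216ea_lc.LTFit

set_option autoImplicit false

namespace Pool.Agent.MP_6216ea_lc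

theorem ltfinal_card (h w m K : ℕ) (V : Type) [Fintype V] :
    Fintype.card (LData h w m K V) = (2 ^ h) ^ m * ((2 ^ h) ^ m * ((2 ^ w) ^ m * ((2 ^ w) ^ m *
      (2 ^ h * ((h + 1) ^ (m + 1) * (Fintype.card V ^ (2 * K + 1) * 2 ^ (2 * K + 1))))))) := by
  unfold LData
  rw [Fintype.card_prod, Fintype.card_prod, Fintype.card_prod, Fintype.card_prod,
    Fintype.card_prod, Fintype.card_prod, Fintype.card_prod]
  simp only [Fintype.card_fun, Fintype.card_fin, Fintype.card_bool, Fintype.card_finset]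

theorem lt_final (k : ℕ) : ∃ (q : ℕ) (_ : NeZero q), ∃ c : ℝ, 0 < c ∧ ∃ n₀ : ℕ, ∀ n ≥ n₀,
    ∀ P : LetterNBP (Fin n) (LKind q × Fin q),
      (∀ x, P.Accepts x ↔ List.ofFn x ∈ (lM q).language) →
      (∀ x, P.Accepts x → P.AcceptsIn x (k * n)) →
      (n : ℝ) ^ (c * Real.log n) ≤ Fintype.card P.V := by
  set K := 32 * k + 1 with hKdef
  have hK : 1 ≤ K := by omega
  obtain ⟨D, hD, hccl⟩ := lt_ccl (Θ := Fin K → Fin K → Bool) (fun τ a b => !(τ b a))
  have hq0 : 2 ≤ 2 ^ (8 * D) := by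
    calc 2 = 2 ^ 1 := by norm_num
      _ ≤ 2 ^ (8 * D) := Nat.pow_le_pow_right (by norm_num) (by omega)
  set q := 2 ^ (8 * D) with hqdef
  have : NeZero q := ⟨by omega⟩
  obtain ⟨c, hc, n1, hn1⟩ := lt_num K D hD
  obtain ⟨n2, hn2⟩ := lt_fit D hD
  refine ⟨q, inferInstance, c, hc, max n1 n2, fun n hn P hP hPT => ?_⟩
  set w := Nat.log 2 n / (32 * D) with hw
  set h := w / 8 with hh
  set m := h / D with hm
  set r := 16 * D * (w + 1) + 2 with hr
  set G := q ^ w with hG
  obtain ⟨hDh, M', j, hM', hlen, hn4⟩ := hn2 n ((le_max_right _ _).trans hn) w h q G hw hh hqdef hG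
  have hG1 : 1 ≤ G := Nat.pow_pos (by omega)
  set M := G * M' with hM
  have hM1 : 1 ≤ M := Nat.mul_pos hG1 hM'
  have hm1 : 1 ≤ m := (Nat.le_div_iff_mul_le (by omega)).2 (by simpa using hDh)
  have hDm : D * m ≤ h := Nat.mul_div_le h D
  have hw1 : 1 ≤ w := by omega
  have : NeZero (q * q ^ w) := ⟨by positivity⟩
  -- the table
  have hrp : 2 * (q * q ^ w) ^ (2 * r) < 2 ^ (r * r) := by
    have e1 : (q * q ^ w) = 2 ^ (8 * D * (w + 1)) := by
      rw [hqdef, ← pow_succ', ← pow_mul]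
    rw [e1, ← pow_mul, ← pow_succ']
    refine Nat.pow_lt_pow_right (by norm_num) ?_
    have e2 : r * r = 16 * D * (w + 1) * r + 2 * r := by
      nth_rw 1 [hr]
      ring
    rw [e2]
    have e3 : 8 * D * (w + 1) * (2 * r) = 16 * D * (w + 1) * r := by ring
    rw [e3]
    omega
  obtain ⟨chi, hchi⟩ := lt_chi (q * q ^ w) r hrp
  have hrect : RectP chi r := lt_rect (q * q ^ w) r (by omega) chi hchi
  have hlen' : (wordT q h w M G (q + M') chi j).length = n := by
    rw [length_wordT q h w M G (q + M') hG1 chi j]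
    exact hlen
  have he : q * G + M ≤ (q + M') * G := by
    rw [hM]
    ring_nf
    exact le_refl _
  obtain ⟨P', hP'V, hP'⟩ := lt_slots (wordT q h w M G (q + M') chi j) n hlen' P
  have hx : ∀ ξ : Vr h w M ⊕ List Bool → Fin q, ∃ x : Fin n → LKind q × Fin q,
      List.ofFn x = (wordT q h w M G (q + M') chi j).map (fill ξ) := by
    intro ξ
    have hl : ((wordT q h w M G (q + M') chi j).map (fill ξ)).length = n := by
      rw [List.length_map, hlen']
    refine ⟨fun i => ((wordT q h w M G (q + M') chi j).map (fill ξ)).get (i.cast hl.symm), ?_⟩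
    apply List.ext_get
    · rw [List.length_ofFn, hl]
    · intro i h1 h2
      simp
  have hmem := fun ξ => mem_language_wordT hq0 h w M G (q + M') j hG1 he chi ξ
  have hcore := lt_core (m := m) (K := K) (D := D) (g := (w + D - 1) / D) (T := k * n) hq0 hK hM1
    chi hrect P' (by
      calc 8 * (k * n) ≤ 8 * (k * (4 * (2 ^ h * w * (G * M')))) := by gcongr
        _ = 32 * k * (2 ^ h * w * M) := by rw [hM]; ring
        _ ≤ K * (2 ^ h * w * M) := Nat.mul_le_mul_right _ (by omega))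
    (fun ξ hξ => by
      obtain ⟨x, hx⟩ := hx ξ
      have h1 := ((hP' ξ x hx).1).1 hξ
      have h2 := (hP x).1 h1
      rw [hx] at h2
      exact (hmem ξ).1 h2)
    (fun ξ hξ => by
      obtain ⟨x, hx⟩ := hx ξ
      have h1 : P.Accepts x := by
        rw [hP x, hx]
        exact (hmem ξ).2 hξ
      exact (hP' ξ x hx).2 _ (hPT x h1))
    (fun G typ htyp hG => hccl h w hw1 G typ htyp hG m hm1 hDm)
    (fun c hc => by
      rw [Nat.div_le_iff_le_mul_add_pred (by omega)]
      have : D * c = D * c := rfl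
      omega)
  rw [ltfinal_card, hP'V] at hcore
  refine hn1 n ((le_max_left _ _).trans hn) w h m r ((w + D - 1) / D) (Fintype.card P.V) hw hh hm
    hr ?_ ?_ ?_
  · have := Nat.div_add_mod (w + D - 1) D
    have h2 := Nat.mod_lt (w + D - 1) (show 0 < D by omega)
    omega
  · exact Fintype.card_pos_iff.2 ⟨P.source⟩
  · exact hcore

end Pool.Agent.MP_6216ea_lc
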