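import Mathlib
import Pool.Agent.Lib.MP_6216ea_lc.StackMachine

set_option autoImplicit false

namespace Pool.Agent.MP_6216ea_lc

/-- The letters of the hard language: segment marks, option marks, pushes and pops of a bit. -/
inductive Sym : Type
  | seg
  | opt
  | push (b : Bool)
  | pop (b : Bool)
deriving DecidableEq, Fintype

/-- States of the machine: still looking for an option in the current segment, reading the chosen
option, done with the current segment. -/
inductive St : Type
  | need
  | act
  | done
deriving DecidableEq, Fintype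

/-- The moves of the machine that leave the stack alone. An option can be chosen only if its mark
carries the bit `true`. -/
inductive Neu : St → Sym × Bool → St → Prop
  | need_opt (b : Bool) : Neu .need (.opt, b) .need
  | choose : Neu .need (.opt, true) .act
  | need_push (c b : Bool) : Neu .need (.push c, b) .need
  | need_pop (c b : Bool) : Neu .need (.pop c, b) .need
  | act_opt (b : Bool) : Neu .act (.opt, b) .done
  | act_seg (b : Bool) : Neu .act (.seg, b) .need
  | done_seg (b : Bool) : Neu .done (.seg, b) .need
  | done_opt (b : Bool) : Neu .done (.opt, b) .done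
  | done_push (c b : Bool) : Neu .done (.push c, b) .done
  | done_pop (c b : Bool) : Neu .done (.pop c, b) .done

inductive Pu : St → Sym × Bool → Bool → St → Prop
  | mk (c b : Bool) : Pu .act (.push c, b) c .act

inductive Po : St → Sym × Bool → Bool → St → Prop
  | mk (c b : Bool) : Po .act (.pop c, b) c .act

/-- The machine of the hard language (a version of Greibach's hardest context-free language):
from every segment exactly one enabled option has to be chosen so that the concatenation of the
chosen sequences of pushes and pops leads from the empty stack to the empty stack. -/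
def mach : SM (Sym × Bool) St Bool where
  neu := Neu
  push := Pu
  pop := Po
  start := .done
  acc := fun q => q ≠ .need

/-- Raising bits does not destroy runs. -/
theorem run_raise {p q : St} {s s' : List Bool} {w w' : List (Sym × Bool)}
    (h : mach.Run p s w q s')
    (hw : List.Forall₂ (fun t t' : Sym × Bool => t.1 = t'.1 ∧ (t.2 = true → t'.2 = true)) w w') :
    mach.Run p s w' q s' := by
  induction h generalizing w' with
  | nil q s => cases hw; exact SM.Run.nil _ _
  | @neu p q r t s s2 w hn _ ih =>
    cases hw with
    | @cons _ t' _ w'' ht hw =>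
      refine SM.Run.neu (q := q) ?_ (ih hw)
      obtain ⟨c, b'⟩ := t'
      obtain ⟨h1, h2⟩ := ht
      simp only at h1 h2
      change Neu p (c, b') q
      cases hn with
      | need_opt b => subst h1; exact Neu.need_opt _
      | choose => subst h1; rw [h2 rfl]; exact Neu.choose
      | need_push c b => subst h1; exact Neu.need_push _ _
      | need_pop c b => subst h1; exact Neu.need_pop _ _
      | act_opt b => subst h1; exact Neu.act_opt _
      | act_seg b => subst h1; exact Neu.act_seg _
      | done_seg b => subst h1; exact Neu.done_seg _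
      | done_opt b => subst h1; exact Neu.done_opt _
      | done_push c b => subst h1; exact Neu.done_push _ _
      | done_pop c b => subst h1; exact Neu.done_pop _ _
  | @push p q r t b s s2 w hn _ ih =>
    cases hw with
    | @cons _ t' _ w'' ht hw =>
      refine SM.Run.push (q := q) (b := b) ?_ (ih hw)
      obtain ⟨c, b'⟩ := t'
      obtain ⟨h1, h2⟩ := ht
      cases hn
      simp only at h1
      subst h1
      exact Pu.mk _ _
  | @pop p q r t b s s2 w hn _ ih =>
    cases hw with
    | @cons _ t' _ w'' ht hw =>
      refine SM.Run.pop (q := q) (b := b) ?_ (ih hw)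
      obtain ⟨c, b'⟩ := t'
      obtain ⟨h1, h2⟩ := ht
      cases hn
      simp only at h1
      subst h1
      exact Po.mk _ _

/-- Effect of a sequence of pushes and pops on the stack. -/
def BE : List Sym → List Bool → List Bool → Prop
  | [], s, s' => s = s'
  | .push b :: l, s, s' => BE l (b :: s) s'
  | .pop b :: l, s, s' => ∃ s1, s = b :: s1 ∧ BE l s1 s'
  | .seg :: _, _, _ => False
  | .opt :: _, _, _ => False

/-- only pushes and pops -/
def Blk (l : List Sym) : Prop := ∀ t ∈ l, ∃ b, t = .push b ∨ t = .pop b

theorem Blk.cons {t : Sym} {l : List Sym} (h : Blk (t :: l)) :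
    (∃ b, t = .push b ∨ t = .pop b) ∧ Blk l :=
  ⟨h t (by simp), fun t' ht' => h t' (by simp [ht'])⟩

theorem run_need_blk {l w : List (Sym × Bool)} {s s' : List Bool} {q : St}
    (hl : Blk (l.map Prod.fst)) :
    mach.Run .need s (l ++ w) q s' ↔ mach.Run .need s w q s' := by
  induction l with
  | nil => simp
  | cons t l ih =>
    obtain ⟨c, bt⟩ := t
    simp only [List.map_cons] at hl
    obtain ⟨⟨b, hb⟩, hl'⟩ := hl.cons
    rw [← ih hl']
    constructor
    · intro h
      cases h with
      | neu h1 h2 =>
        rcases hb with rfl | rfl <;> (cases h1; exact h2)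
      | push h1 _ => cases h1
      | pop h1 _ => cases h1
    · intro h
      rcases hb with rfl | rfl
      · exact SM.Run.neu (Neu.need_push _ _) h
      · exact SM.Run.neu (Neu.need_pop _ _) h

theorem run_done_blk {l w : List (Sym × Bool)} {s s' : List Bool} {q : St}
    (hl : Blk (l.map Prod.fst)) :
    mach.Run .done s (l ++ w) q s' ↔ mach.Run .done s w q s' := by
  induction l with
  | nil => simp
  | cons t l ih =>
    obtain ⟨c, bt⟩ := t
    simp only [List.map_cons] at hl
    obtain ⟨⟨b, hb⟩, hl'⟩ := hl.cons
    rw [← ih hl']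
    constructor
    · intro h
      cases h with
      | neu h1 h2 =>
        rcases hb with rfl | rfl <;> (cases h1; exact h2)
      | push h1 _ => cases h1
      | pop h1 _ => cases h1
    · intro h
      rcases hb with rfl | rfl
      · exact SM.Run.neu (Neu.done_push _ _) h
      · exact SM.Run.neu (Neu.done_pop _ _) h

theorem run_act_blk {l w : List (Sym × Bool)} {s s' : List Bool} {q : St}
    (hl : Blk (l.map Prod.fst)) :
    mach.Run .act s (l ++ w) q s' ↔ ∃ s1, BE (l.map Prod.fst) s s1 ∧ mach.Run .act s1 w q s' := by
  induction l generalizing s with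
  | nil => simp [BE]
  | cons t l ih =>
    obtain ⟨c, bt⟩ := t
    simp only [List.map_cons] at hl ⊢
    obtain ⟨⟨b, hb⟩, hl'⟩ := hl.cons
    rcases hb with rfl | rfl
    · simp only [BE]
      rw [← ih hl']
      constructor
      · intro h
        cases h with
        | neu h1 h2 => cases h1
        | push h1 h2 => cases h1; exact h2
        | pop h1 h2 => cases h1
      · intro h
        exact SM.Run.push (Pu.mk _ _) h
    · simp only [BE]
      constructor
      · intro h
        cases h with
        | neu h1 h2 => cases h1
        | push h1 h2 => cases h1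
        | pop h1 h2 =>
          cases h1
          obtain ⟨s1, hs1, hr⟩ := (ih hl').1 h2
          exact ⟨s1, ⟨_, rfl, hs1⟩, hr⟩
      · rintro ⟨s1, ⟨s2, rfl, hs1⟩, hr⟩
        exact SM.Run.pop (Po.mk _ _) ((ih hl').2 ⟨s1, hs1, hr⟩)

/-- The word is empty or starts with a segment mark. -/
def SegStart (w : List (Sym × Bool)) : Prop := w = [] ∨ ∃ b w', w = (.seg, b) :: w'

/-- Accepting runs from a finished segment. -/
def RR (w : List (Sym × Bool)) (s s' : List Bool) : Prop := ∃ q, q ≠ St.need ∧ mach.Run .done s w q s'

theorem RR_nil {s s' : List Bool} : RR [] s s' ↔ s = s' := by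
  constructor
  · rintro ⟨q, _, h⟩
    cases h
    rfl
  · rintro rfl
    exact ⟨.done, by simp, SM.Run.nil _ _⟩

theorem act_iff_RR {w : List (Sym × Bool)} (hw : SegStart w) {s s' : List Bool} :
    (∃ q, q ≠ St.need ∧ mach.Run .act s w q s') ↔ RR w s s' := by
  rcases hw with rfl | ⟨b, w', rfl⟩
  · rw [RR_nil]
    constructor
    · rintro ⟨q, _, h⟩
      cases h
      rfl
    · rintro rfl
      exact ⟨.act, by simp, SM.Run.nil _ _⟩
  · constructor
    · rintro ⟨q, hq, h⟩
      cases h with
      | neu h1 h2 => cases h1; exact ⟨q, hq, SM.Run.neu (Neu.done_seg _) h2⟩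
      | push h1 _ => cases h1
      | pop h1 _ => cases h1
    · rintro ⟨q, hq, h⟩
      cases h with
      | neu h1 h2 => cases h1; exact ⟨q, hq, SM.Run.neu (Neu.act_seg _) h2⟩
      | push h1 _ => cases h1
      | pop h1 _ => cases h1

/-- The options of a segment as a word. -/
def encOpts (os : List (Bool × List (Sym × Bool))) : List (Sym × Bool) :=
  os.flatMap (fun o => (.opt, o.1) :: o.2)

theorem RR_done_opts (os : List (Bool × List (Sym × Bool)))
    (hos : ∀ o ∈ os, Blk (o.2.map Prod.fst)) {w : List (Sym × Bool)} {s s' : List Bool} :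
    RR (encOpts os ++ w) s s' ↔ RR w s s' := by
  induction os with
  | nil => simp [encOpts]
  | cons o os ih =>
    rw [← ih (fun o' ho' => hos o' (by simp [ho']))]
    have e : encOpts (o :: os) ++ w = (.opt, o.1) :: (o.2 ++ (encOpts os ++ w)) := by
      simp [encOpts]
    rw [e]
    constructor
    · rintro ⟨q, hq, h⟩
      cases h with
      | neu h1 h2 =>
        cases h1
        exact ⟨q, hq, (run_done_blk (hos o (by simp))).1 h2⟩
      | push h1 _ => cases h1
      | pop h1 _ => cases h1
    · rintro ⟨q, hq, h⟩
      exact ⟨q, hq, SM.Run.neu (Neu.done_opt _) ((run_done_blk (hos o (by simp))).2 h)⟩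

theorem act_opts (os : List (Bool × List (Sym × Bool)))
    (hos : ∀ o ∈ os, Blk (o.2.map Prod.fst)) {w : List (Sym × Bool)} (hw : SegStart w)
    {s s' : List Bool} :
    (∃ q, q ≠ St.need ∧ mach.Run .act s (encOpts os ++ w) q s') ↔ RR w s s' := by
  cases os with
  | nil => simpa [encOpts] using act_iff_RR hw
  | cons o os =>
    rw [← RR_done_opts os (fun o' ho' => hos o' (by simp [ho']))]
    have e : encOpts (o :: os) ++ w = (.opt, o.1) :: (o.2 ++ (encOpts os ++ w)) := by
      simp [encOpts]
    rw [e]
    constructor
    · rintro ⟨q, hq, h⟩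
      cases h with
      | neu h1 h2 =>
        cases h1
        exact ⟨q, hq, (run_done_blk (hos o (by simp))).1 h2⟩
      | push h1 _ => cases h1
      | pop h1 _ => cases h1
    · rintro ⟨q, hq, h⟩
      exact ⟨q, hq, SM.Run.neu (Neu.act_opt _) ((run_done_blk (hos o (by simp))).2 h)⟩

theorem need_opts (os : List (Bool × List (Sym × Bool)))
    (hos : ∀ o ∈ os, Blk (o.2.map Prod.fst)) {w : List (Sym × Bool)} (hw : SegStart w)
    {s s' : List Bool} :
    (∃ q, q ≠ St.need ∧ mach.Run .need s (encOpts os ++ w) q s') ↔
      ∃ o ∈ os, o.1 = true ∧ ∃ s1, BE (o.2.map Prod.fst) s s1 ∧ RR w s1 s' := by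
  induction os with
  | nil =>
    simp only [encOpts, List.flatMap_nil, List.nil_append, List.not_mem_nil, false_and,
      exists_false, iff_false]
    rintro ⟨q, hq, h⟩
    rcases hw with rfl | ⟨b, w', rfl⟩
    · cases h; exact hq rfl
    · cases h with
      | neu h1 _ => cases h1
      | push h1 _ => cases h1
      | pop h1 _ => cases h1
  | cons o os ih =>
    have ih' := ih (fun o' ho' => hos o' (by simp [ho']))
    have hos' : ∀ o' ∈ os, Blk (o'.2.map Prod.fst) := fun o' ho' => hos o' (by simp [ho'])
    have e : encOpts (o :: os) ++ w = (.opt, o.1) :: (o.2 ++ (encOpts os ++ w)) := by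
      simp [encOpts]
    rw [e]
    simp only [List.mem_cons, exists_eq_or_imp]
    rw [← ih']
    constructor
    · rintro ⟨q, hq, h⟩
      cases h with
      | neu h1 h2 =>
        obtain ⟨c, l⟩ := o
        cases h1 with
        | need_opt => exact Or.inr ⟨q, hq, (run_need_blk (hos _ (by simp))).1 h2⟩
        | choose =>
          left
          obtain ⟨s1, hs1, h3⟩ := (run_act_blk (hos _ (by simp))).1 h2
          exact ⟨rfl, s1, hs1, (act_opts os hos' hw).1 ⟨q, hq, h3⟩⟩
      | push h1 _ => cases h1
      | pop h1 _ => cases h1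
    · rintro (⟨ho, s1, hs1, h3⟩ | ⟨q, hq, h⟩)
      · obtain ⟨q, hq, h4⟩ := (act_opts os hos' hw).2 h3
        obtain ⟨c, l⟩ := o
        simp only at ho
        subst ho
        exact ⟨q, hq, SM.Run.neu Neu.choose ((run_act_blk (hos _ (by simp))).2 ⟨s1, hs1, h4⟩)⟩
      · exact ⟨q, hq, SM.Run.neu (Neu.need_opt _) ((run_need_blk (hos _ (by simp))).2 h)⟩

/-- Semantics of one segment. -/
theorem RR_seg (b : Bool) (os : List (Bool × List (Sym × Bool)))
    (hos : ∀ o ∈ os, Blk (o.2.map Prod.fst)) {w : List (Sym × Bool)} (hw : SegStart w)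
    {s s' : List Bool} :
    RR ((.seg, b) :: (encOpts os ++ w)) s s' ↔
      ∃ o ∈ os, o.1 = true ∧ ∃ s1, BE (o.2.map Prod.fst) s s1 ∧ RR w s1 s' := by
  rw [← need_opts os hos hw]
  constructor
  · rintro ⟨q, hq, h⟩
    cases h with
    | neu h1 h2 => cases h1; exact ⟨q, hq, h2⟩
    | push h1 _ => cases h1
    | pop h1 _ => cases h1
  · rintro ⟨q, hq, h⟩
    exact ⟨q, hq, SM.Run.neu (Neu.done_seg _) h⟩

/-- Leading option marks are skipped. -/
theorem RR_pad (l : List (Sym × Bool)) (hl : ∀ t ∈ l, t.1 = .opt) {w : List (Sym × Bool)}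
    {s s' : List Bool} : RR (l ++ w) s s' ↔ RR w s s' := by
  induction l with
  | nil => simp
  | cons t l ih =>
    rw [← ih (fun t' ht' => hl t' (by simp [ht']))]
    obtain ⟨c, b⟩ := t
    have : c = .opt := hl (c, b) (by simp)
    subst this
    constructor
    · rintro ⟨q, hq, h⟩
      cases h with
      | neu h1 h2 => cases h1; exact ⟨q, hq, h2⟩
      | push h1 _ => cases h1
      | pop h1 _ => cases h1
    · rintro ⟨q, hq, h⟩
      exact ⟨q, hq, SM.Run.neu (Neu.done_opt _) h⟩

theorem mem_lang_iff (w : List (Sym × Bool)) : w ∈ mach.lang ↔ RR w [] [] := Iff.rfl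

end Pool.Agent.MP_6216ea_lc
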