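import Pool.Agent.Lib.MP_6216ea_lc.DDModel
import Pool.Agent.Lib.MP_6216ea_lc.LTModel

/-! Nondeterministic pushdown programs. -/

set_option autoImplicit false

namespace Pool.Agent.MP_6216ea_lc

/-- The instruction of a node: `jump s` goes to `s`; `read i f` goes to `f a`, `a` the letter at
position `i`; `guess f` goes to `f true` or to `f false`; `push g s` pushes `g` and goes to `s`;
`pop f` removes the top symbol `g` and goes to `f g` (no step if the stack is empty). -/
inductive NInstr (ι α Γ S : Type) : Type where
  | jump (s : S)
  | read (i : ι) (f : α → S)
  | guess (f : Bool → S)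
  | push (g : Γ) (s : S)
  | pop (f : Γ → S)

/-- A nondeterministic pushdown program: finite sets of nodes and of stack symbols, instructions, a
start node and accepting nodes. -/
structure NPushProg (ι α : Type) where
  S : Type
  Γ : Type
  finS : Fintype S
  finΓ : Fintype Γ
  instr : S → NInstr ι α Γ S
  start : S
  acc : S → Bool

attribute [instance] NPushProg.finS NPushProg.finΓ

/-- The kinds of steps: without the stack, guesses, stack operations. -/
inductive Kind : Type where
  | move
  | guess
  | op

/-- The steps of the program on the input `x`. -/
inductive NPushProg.Step {ι α : Type} (P : NPushProg ι α) (x : ι → α) :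
    P.S × List P.Γ → Kind → P.S × List P.Γ → Prop
  | jump {s s' : P.S} {z : List P.Γ} : P.instr s = .jump s' → NPushProg.Step P x (s, z) .move (s', z)
  | read {s : P.S} {i : ι} {f : α → P.S} {z : List P.Γ} : P.instr s = .read i f →
      NPushProg.Step P x (s, z) .move (f (x i), z)
  | guess {s : P.S} {f : Bool → P.S} {z : List P.Γ} (b : Bool) : P.instr s = .guess f →
      NPushProg.Step P x (s, z) .guess (f b, z)
  | push {s s' : P.S} {g : P.Γ} {z : List P.Γ} : P.instr s = .push g s' →
      NPushProg.Step P x (s, z) .op (s', g :: z)
  | pop {s : P.S} {f : P.Γ → P.S} {g : P.Γ} {z : List P.Γ} : P.instr s = .pop f →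
      NPushProg.Step P x (s, g :: z) .op (f g, z)

/-- `P.Run x h T r t g c`: on the input `x` the configuration `c` is reached from the start node
with the empty stack by a computation in which, after each configuration with at most `h` stack
symbols and before the next one, at most `T` stack operations and at most `r` guesses lead to
configurations with more than `h` stack symbols; `t` and `g` count them since the last
configuration with at most `h` symbols. -/
inductive NPushProg.Run {ι α : Type} (P : NPushProg ι α) (x : ι → α) (h T r : ℕ) :
    ℕ → ℕ → P.S × List P.Γ → Prop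
  | start : NPushProg.Run P x h T r 0 0 (P.start, [])
  | low {t g : ℕ} {c c' : P.S × List P.Γ} {k : Kind} : NPushProg.Run P x h T r t g c →
      P.Step x c k c' → c'.2.length ≤ h → NPushProg.Run P x h T r 0 0 c'
  | move {t g : ℕ} {c c' : P.S × List P.Γ} : NPushProg.Run P x h T r t g c →
      P.Step x c .move c' → h < c'.2.length → NPushProg.Run P x h T r t g c'
  | guess {t g : ℕ} {c c' : P.S × List P.Γ} : NPushProg.Run P x h T r t g c →
      P.Step x c .guess c' → h < c'.2.length → g + 1 ≤ r → NPushProg.Run P x h T r t (g + 1) c'
  | op {t g : ℕ} {c c' : P.S × List P.Γ} : NPushProg.Run P x h T r t g c →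
      P.Step x c .op c' → h < c'.2.length → t + 1 ≤ T → NPushProg.Run P x h T r (t + 1) g c'

/-- The program accepts `x` by a computation with these restrictions above the height `h`. -/
def NPushProg.Accepts {ι α : Type} (P : NPushProg ι α) (h T r : ℕ) (x : ι → α) : Prop :=
  ∃ t g c, P.Run x h T r t g c ∧ P.acc c.1 = true

end Pool.Agent.MP_6216ea_lc
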