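import Pool.Agent.Lib.MP_6216ea_lc.OPDefs
import Pool.Agent.Lib.MP_6216ea_lc.DCSplitS

/-! Steps without the stack are summarised by one letter. -/

set_option autoImplicit false

namespace Pool.Agent.MP_6216ea_lc

namespace PushProg

variable {ι α : Type} (P : PushProg ι α) (x : ι → α)

theorem next_jump {s s' : P.S} (h : P.instr s = .jump s') (z : List P.Γ) :
    P.next x s z = some (s', z) := by unfold next; rw [h]

theorem next_read {s : P.S} {i : ι} {f : α → P.S} (h : P.instr s = .read i f) (z : List P.Γ) :
    P.next x s z = some (f (x i), z) := by unfold next; rw [h]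

theorem next_push {s s' : P.S} {g : P.Γ} (h : P.instr s = .push g s') (z : List P.Γ) :
    P.next x s z = some (s', g :: z) := by unfold next; rw [h]

theorem next_pop {s : P.S} {f : P.Γ → P.S} (h : P.instr s = .pop f) (g : P.Γ) (z : List P.Γ) :
    P.next x s (g :: z) = some (f g, z) := by unfold next; rw [h]

theorem next_pop_nil {s : P.S} {f : P.Γ → P.S} (h : P.instr s = .pop f) :
    P.next x s [] = none := by unfold next; rw [h]

/-- Accepting nodes and nodes with stack operations. -/
def act (s : P.S) : Bool := P.acc s || (P.instr s).isStack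

/-- One step without the stack. -/
def wk (s : P.S) : P.S :=
  if P.act s = true then s else
    match P.instr s with
    | .jump s' => s'
    | .read i f => f (x i)
    | _ => s

theorem wk_act {s : P.S} (h : P.act s = true) : P.wk x s = s := if_pos h

theorem wk_iter_act {s : P.S} (h : P.act s = true) (m : ℕ) : (P.wk x)^[m] s = s := by
  induction m with
  | zero => rfl
  | succ m ih => rw [Function.iterate_succ_apply, P.wk_act x h, ih]

theorem wk_next {s s' : P.S} {z z' : List P.Γ} (ha : P.act s = false)
    (h : P.next x s z = some (s', z')) : P.wk x s = s' ∧ z' = z := by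
  have h1 : P.acc s = false ∧ (P.instr s).isStack = false := by
    unfold act at ha
    simpa using ha
  unfold wk
  rw [if_neg (by rw [ha]; decide)]
  unfold next at h
  cases hi : P.instr s with
  | jump s'' =>
    rw [hi] at h
    simp only [Option.some.injEq, Prod.mk.injEq] at h
    exact ⟨h.1, h.2.symm⟩
  | read i f =>
    rw [hi] at h
    simp only [Option.some.injEq, Prod.mk.injEq] at h
    exact ⟨h.1, h.2.symm⟩
  | push g s'' => rw [hi] at h1; exact absurd h1.2 (by simp [PInstr.isStack])
  | pop f => rw [hi] at h1; exact absurd h1.2 (by simp [PInstr.isStack])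

theorem reach_wk {k : ℕ} {s : P.S} {z : List P.Γ} (h : P.Reach x k s z) :
    P.Reach x k (P.wk x s) z := by
  by_cases ha : P.act s = true
  · rw [P.wk_act x ha]; exact h
  · have ha' : P.act s = false := by simpa using ha
    have h1 : P.acc s = false ∧ (P.instr s).isStack = false := by
      unfold act at ha'
      simpa using ha'
    refine .move h h1.2 ?_
    unfold wk
    rw [if_neg ha]
    unfold next
    cases hi : P.instr s with
    | jump s'' => rfl
    | read i f => rfl
    | push g s'' => rw [hi] at h1; exact absurd h1.2 (by simp [PInstr.isStack])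
    | pop f => rw [hi] at h1; exact absurd h1.2 (by simp [PInstr.isStack])

theorem reach_wk_iter {k : ℕ} {s : P.S} {z : List P.Γ} (h : P.Reach x k s z) (m : ℕ) :
    P.Reach x k ((P.wk x)^[m] s) z := by
  induction m with
  | zero => exact h
  | succ m ih =>
    rw [Function.iterate_succ_apply']
    exact P.reach_wk x ih

/-- The active node at the end of the steps without the stack. -/
def fin' (s : P.S) : P.S := (P.wk x)^[Fintype.card P.S] s

theorem fin_of_act {s : P.S} {m : ℕ} (h : P.act ((P.wk x)^[m] s) = true) :
    P.fin' x s = (P.wk x)^[m] s := by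
  -- all iterates from `m` on agree
  have stay : ∀ {m m' : ℕ}, P.act ((P.wk x)^[m] s) = true → m ≤ m' →
      (P.wk x)^[m'] s = (P.wk x)^[m] s := by
    intro m m' h hm
    obtain ⟨d, rfl⟩ := Nat.exists_eq_add_of_le hm
    rw [add_comm, Function.iterate_add_apply, P.wk_iter_act x h]
  by_cases hN : P.act (P.fin' x s) = true
  · rcases le_total m (Fintype.card P.S) with hm | hm
    · exact stay h hm
    · exact (stay hN hm).symm
  · exfalso
    have hno : ∀ k ≤ Fintype.card P.S, ¬ P.act ((P.wk x)^[k] s) = true := by
      intro k hk hc
      apply hN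
      unfold fin'
      rw [stay hc hk]
      exact hc
    obtain ⟨i, j, hij, heq⟩ := Fintype.exists_ne_map_eq_of_card_lt
      (fun k : Fin (Fintype.card P.S + 1) => (P.wk x)^[k.val] s) (by simp)
    wlog hlt : i.val < j.val generalizing i j with H
    · exact H j i hij.symm heq.symm (by
        have : i.val ≠ j.val := fun h => hij (Fin.ext h)
        omega)
    have hall : ∀ n : ℕ, ∃ k < j.val, (P.wk x)^[n] s = (P.wk x)^[k] s := by
      intro n
      induction n with
      | zero => exact ⟨0, by omega, rfl⟩
      | succ n ih =>
        obtain ⟨k, hk, hk'⟩ := ih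
        rw [Function.iterate_succ_apply', hk', ← Function.iterate_succ_apply' (P.wk x)]
        by_cases hkj : k + 1 < j.val
        · exact ⟨k + 1, hkj, rfl⟩
        · have hkj' : k + 1 = j.val := by omega
          refine ⟨i.val, hlt, ?_⟩
          change (P.wk x)^[k + 1] s = _
          rw [hkj']
          exact heq.symm
    obtain ⟨k, hk, hk'⟩ := hall m
    rw [hk'] at h
    exact hno k (by omega) h

/-- The program whose letters are the summaries: `inl s` is before, `inr s` after the steps
without the stack. -/
def sm : PushProg P.S P.S where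
  S := P.S ⊕ P.S
  Γ := P.Γ
  fin := inferInstance
  instr v := match v with
    | .inl s => .read s fun s' => .inr s'
    | .inr s =>
      match P.instr s with
      | .push g s' => .push g (.inl s')
      | .pop f => .pop fun g => .inl (f g)
      | _ => .jump (.inr s)
  start := .inl P.start
  acc v := match v with
    | .inl _ => false
    | .inr s => P.acc s

theorem sm_instr (s : P.S) : P.sm.instr (.inr s) = (match P.instr s with
    | .push g s' => .push g (.inl s')
    | .pop f => .pop fun g => .inl (f g)
    | _ => .jump (.inr s)) := rfl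

theorem sm_push {s s' : P.S} {g : P.Γ} (h : P.instr s = .push g s') :
    P.sm.instr (.inr s) = .push g (.inl s') := by rw [sm_instr, h]

theorem sm_pop {s : P.S} {f : P.Γ → P.S} (h : P.instr s = .pop f) :
    P.sm.instr (.inr s) = .pop fun g => .inl (f g) := by rw [sm_instr, h]

theorem sm_stay {s : P.S} (h : (P.instr s).isStack = false) :
    P.sm.instr (.inr s) = .jump (.inr s) := by
  rw [sm_instr]
  cases hi : P.instr s with
  | jump s'' => rfl
  | read i f => rfl
  | push g s'' => rw [hi] at h; exact absurd h (by simp [PInstr.isStack])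
  | pop f => rw [hi] at h; exact absurd h (by simp [PInstr.isStack])

theorem sm_one {t : ℕ} {v : P.sm.S} {z : List P.Γ}
    (h : P.sm.conf (P.fin' x) t P.sm.start [] = some (v, z)) :
    P.sm.conf (P.fin' x) (t + 1) P.sm.start [] = P.sm.next (P.fin' x) v z := by
  rw [P.sm.conf_add' (P.fin' x) h 1]
  simp only [conf]
  cases P.sm.next (P.fin' x) v z <;> rfl

/-- The summary program simulates the program, or it has accepted. -/
theorem sm_of_reach {k : ℕ} {s : P.S} {z : List P.Γ} (h : P.Reach x k s z) :
    (∃ t ≤ 2 * k + 1, ∃ v z', P.sm.conf (P.fin' x) t P.sm.start [] = some (v, z') ∧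
      P.sm.acc v = true) ∨
    ∃ s₀ m, P.sm.conf (P.fin' x) (2 * k) P.sm.start [] = some (.inl s₀, z) ∧
      (P.wk x)^[m] s₀ = s := by
  induction h with
  | start => exact Or.inr ⟨P.start, 0, rfl, rfl⟩
  | @move k s s' z z' h1 h2 h3 ih =>
    rcases ih with ih | ⟨s₀, m, ih, hm⟩
    · exact Or.inl ih
    · by_cases ha : P.act s = true
      · left
        have hacc : P.acc s = true := by
          unfold act at ha
          rw [h2] at ha
          simpa using ha
        have hf : P.fin' x s₀ = s := by rw [P.fin_of_act x (m := m) (by rw [hm]; exact ha), hm]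
        refine ⟨2 * k + 1, le_rfl, .inr s, z, ?_, hacc⟩
        rw [P.sm_one x ih]
        change some (Sum.inr (P.fin' x s₀), z) = _
        rw [hf]
        rfl
      · obtain ⟨h4, rfl⟩ := P.wk_next x (by simpa using ha) h3
        refine Or.inr ⟨s₀, m + 1, ih, ?_⟩
        rw [Function.iterate_succ_apply', hm, h4]
  | @op k s s' z z' h1 h2 h3 ih =>
    rcases ih with ⟨t, ht, ih⟩ | ⟨s₀, m, ih, hm⟩
    · exact Or.inl ⟨t, by omega, ih⟩
    · have ha : P.act s = true := by unfold act; rw [h2]; simp
      have hf : P.fin' x s₀ = s := by rw [P.fin_of_act x (m := m) (by rw [hm]; exact ha), hm]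
      have h5 : P.sm.conf (P.fin' x) (2 * k + 1) P.sm.start [] = some (.inr s, z) := by
        rw [P.sm_one x ih]
        change some (Sum.inr (P.fin' x s₀), z) = _
        rw [hf]
        rfl
      refine Or.inr ⟨s', 0, ?_, rfl⟩
      rw [show 2 * (k + 1) = 2 * k + 1 + 1 by ring, P.sm_one x h5]
      cases hi : P.instr s with
      | jump s'' => rw [hi] at h2; exact absurd h2 (by simp [PInstr.isStack])
      | read i f => rw [hi] at h2; exact absurd h2 (by simp [PInstr.isStack])
      | push g s'' =>
        rw [P.next_push x hi] at h3
        simp only [Option.some.injEq, Prod.mk.injEq] at h3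
        rw [← h3.1, ← h3.2]
        exact P.sm.next_push (P.fin' x) (P.sm_push hi) z
      | pop f =>
        cases z with
        | nil => rw [P.next_pop_nil x hi] at h3; cases h3
        | cons g z =>
          rw [P.next_pop x hi] at h3
          simp only [Option.some.injEq, Prod.mk.injEq] at h3
          rw [← h3.1, ← h3.2]
          exact P.sm.next_pop (P.fin' x) (P.sm_pop hi) g z

/-- Converse. -/
theorem reach_of_sm (t : ℕ) : ∀ (v : P.sm.S) (z : List P.Γ),
    P.sm.conf (P.fin' x) t P.sm.start [] = some (v, z) →
    (∀ s, v = .inl s → ∃ k, 2 * k ≤ t ∧ P.Reach x k s z) ∧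
    (∀ s, v = .inr s → ∃ k, 2 * k + 1 ≤ t ∧ P.Reach x k s z) := by
  induction t with
  | zero =>
    intro v z h
    obtain ⟨h1, h2⟩ := Prod.mk.inj (Option.some.inj h)
    subst h2
    rw [← h1]
    constructor
    · intro s hs
      have : P.start = s := Sum.inl.inj hs
      exact ⟨0, le_rfl, this ▸ .start⟩
    · intro s hs
      cases hs
  | succ t ih =>
    intro v z h
    rw [P.sm.conf_add (P.fin' x) t 1] at h
    cases hc : P.sm.conf (P.fin' x) t P.sm.start [] with
    | none => rw [hc] at h; cases h
    | some c =>
      obtain ⟨v', z'⟩ := c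
      have h6 := P.sm_one x hc
      rw [P.sm.conf_add (P.fin' x) t 1, h] at h6
      obtain ⟨ihl, ihr⟩ := ih v' z' hc
      rcases v' with s₁ | s₁
      · obtain ⟨k, hk, hr⟩ := ihl s₁ rfl
        have h7 : (v, z) = (Sum.inr (P.fin' x s₁), z') := Option.some.inj h6
        obtain ⟨h8, h9⟩ := Prod.mk.inj h7
        subst h8
        subst h9
        constructor
        · intro s hs; cases hs
        · intro s hs
          have : P.fin' x s₁ = s := Sum.inr.inj hs
          subst this
          exact ⟨k, by omega, P.reach_wk_iter x hr _⟩
      · obtain ⟨k, hk, hr⟩ := ihr s₁ rfl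
        have key : ∀ {w : P.sm.S} {z'' : List P.Γ}, P.sm.next (P.fin' x) (Sum.inr s₁) z' =
            some (w, z'') → v = w ∧ z = z'' := by
          intro w z'' h7
          exact Prod.mk.inj (Option.some.inj (h6.trans h7))
        by_cases hst : (P.instr s₁).isStack = true
        · cases hi : P.instr s₁ with
          | jump s'' => rw [hi] at hst; exact absurd hst (by simp [PInstr.isStack])
          | read i f => rw [hi] at hst; exact absurd hst (by simp [PInstr.isStack])
          | push g s'' =>
            obtain ⟨rfl, rfl⟩ := key (P.sm.next_push (P.fin' x) (P.sm_push hi) z')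
            constructor
            · intro s hs
              have : s'' = s := Sum.inl.inj hs
              subst this
              exact ⟨k + 1, by omega, .op hr hst (P.next_push x hi z')⟩
            · intro s hs; cases hs
          | pop f =>
            cases z' with
            | nil =>
              rw [P.sm.next_pop_nil (P.fin' x) (P.sm_pop hi)] at h6
              cases h6
            | cons g z' =>
              obtain ⟨rfl, rfl⟩ := key (P.sm.next_pop (P.fin' x) (P.sm_pop hi) g z')
              constructor
              · intro s hs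
                have : f g = s := Sum.inl.inj hs
                subst this
                exact ⟨k + 1, by omega, .op hr hst (P.next_pop x hi g _)⟩
              · intro s hs; cases hs
        · obtain ⟨rfl, rfl⟩ := key (P.sm.next_jump (P.fin' x)
            (P.sm_stay (by simpa using hst)) z')
          constructor
          · intro s hs; cases hs
          · intro s hs
            have : s₁ = s := Sum.inr.inj hs
            subst this
            exact ⟨k, by omega, hr⟩

theorem sm_accepts (T : ℕ) : P.sm.AcceptsIn (P.fin' x) (2 * T + 1) ↔ P.AcceptsOps x T := by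
  constructor
  · rintro ⟨t, ht, v, z, h, hv⟩
    rcases v with s | s
    · cases hv
    · obtain ⟨k, hk, hr⟩ := (P.reach_of_sm x t _ z h).2 s rfl
      exact ⟨k, by omega, s, z, hr, hv⟩
  · rintro ⟨k, hk, s, z, h, hs⟩
    rcases P.sm_of_reach x h with ⟨t, ht, v, z', h1, h2⟩ | ⟨s₀, m, h1, h2⟩
    · exact ⟨t, by omega, v, z', h1, h2⟩
    · have ha : P.act ((P.wk x)^[m] s₀) = true := by rw [h2]; unfold act; rw [hs]; rfl
      refine ⟨2 * k + 1, by omega, .inr s, z, ?_, hs⟩
      rw [P.sm_one x h1]
      change some (Sum.inr (P.fin' x s₀), z) = _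
      rw [P.fin_of_act x ha, h2]
      rfl

end PushProg

end Pool.Agent.MP_6216ea_lc
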