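import Pool.Agent.Lib.MP_6216ea_lc.NDDefs
import Pool.Agent.Lib.MP_6216ea_lc.OPWalk

/-! The part of a computation above the height `h` as a deterministic pushdown program, when the
guesses are fixed. -/

set_option autoImplicit false

namespace Pool.Agent.MP_6216ea_lc

namespace NPushProg

variable {ι α : Type} (P : NPushProg ι α) (r : ℕ)

/-- The nodes: the start node, the dead node, the end nodes and the nodes with the number of
guesses made. -/
abbrev EN : Type := Option (Option (P.S ⊕ (P.S × Fin (r + 1))))

/-- The node `s` after `j` guesses. -/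
abbrev en (s : P.S) (j : Fin (r + 1)) : P.EN r := some (some (.inr (s, j)))

/-- The end node. -/
abbrev er (s : P.S) : P.EN r := some (some (.inl s))

/-- The instructions. -/
def ei (s₁ : P.S) (g₁ : P.Γ) (c : ℕ → Bool) : P.EN r → PInstr ι α (P.Γ × Bool) (P.EN r)
  | none => .push (g₁, true) (P.en r s₁ 0)
  | some none => .jump (some none)
  | some (some (.inl s)) => .jump (P.er r s)
  | some (some (.inr (s, j))) =>
    match P.instr s with
    | .jump s' => .jump (P.en r s' j)
    | .read i f => .read i fun a => P.en r (f a) j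
    | .guess f => if h : j.val < r then .jump (P.en r (f (c j.val)) ⟨j.val + 1, by omega⟩)
        else .jump (some none)
    | .push g s' => .push (g, false) (P.en r s' j)
    | .pop f => .pop fun b => if b.2 = true then P.er r (f b.1) else P.en r (f b.1) j

/-- The accepting nodes: the end node `s'` for `o = some s'`, the accepting nodes for `none`. -/
noncomputable def ea (o : Option P.S) : P.EN r → Bool
  | some (some (.inl s)) => open Classical in decide (o = some s)
  | some (some (.inr (s, _))) => match o with
    | none => P.acc s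
    | some _ => false
  | _ => false

/-- The program of the part which starts with the push of `g₁`, then at the node `s₁`. -/
noncomputable def exc (s₁ : P.S) (g₁ : P.Γ) (c : ℕ → Bool) (o : Option P.S) : PushProg ι α where
  S := P.EN r
  Γ := P.Γ × Bool
  fin := inferInstance
  instr := P.ei r s₁ g₁ c
  start := none
  acc := P.ea r o

/-- The stack with the bottom symbol marked. -/
def mark : List P.Γ → List (P.Γ × Bool)
  | [] => []
  | g :: w => (g, w.isEmpty) :: mark w

variable {P r}

theorem mark_push {g : P.Γ} {w : List P.Γ} (hw : w ≠ []) :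
    P.mark (g :: w) = (g, false) :: P.mark w := by
  cases w with
  | nil => exact absurd rfl hw
  | cons a w => rfl

section

variable {s₁ : P.S} {g₁ : P.Γ} {c : ℕ → Bool} {o : Option P.S} {x : ι → α}

theorem ei_jump {s s' : P.S} (h : P.instr s = .jump s') (j : Fin (r + 1)) :
    (P.exc r s₁ g₁ c o).instr (P.en r s j) = .jump (P.en r s' j) := by
  change P.ei r s₁ g₁ c (P.en r s j) = _
  simp only [ei, h]
  rfl

theorem ei_read {s : P.S} {i : ι} {f : α → P.S} (h : P.instr s = .read i f) (j : Fin (r + 1)) :
    (P.exc r s₁ g₁ c o).instr (P.en r s j) = .read i fun a => P.en r (f a) j := by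
  change P.ei r s₁ g₁ c (P.en r s j) = _
  simp only [ei, h]
  rfl

theorem ei_guess {s : P.S} {f : Bool → P.S} (h : P.instr s = .guess f) {j : ℕ} (hj : j < r) :
    (P.exc r s₁ g₁ c o).instr (P.en r s ⟨j, by omega⟩) =
      .jump (P.en r (f (c j)) ⟨j + 1, by omega⟩) := by
  change P.ei r s₁ g₁ c (P.en r s ⟨j, by omega⟩) = _
  simp only [ei, h, hj, dite_true]
  rfl

theorem ei_guess' {s : P.S} {f : Bool → P.S} (h : P.instr s = .guess f) {j : Fin (r + 1)}
    (hj : ¬ j.val < r) :
    (P.exc r s₁ g₁ c o).instr (P.en r s j) = .jump (some none) := by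
  change P.ei r s₁ g₁ c (P.en r s j) = _
  simp only [ei, h, hj, dite_false]
  rfl

theorem ei_push {s s' : P.S} {g : P.Γ} (h : P.instr s = .push g s') (j : Fin (r + 1)) :
    (P.exc r s₁ g₁ c o).instr (P.en r s j) = .push (g, false) (P.en r s' j) := by
  change P.ei r s₁ g₁ c (P.en r s j) = _
  simp only [ei, h]
  rfl

theorem ei_pop {s : P.S} {f : P.Γ → P.S} (h : P.instr s = .pop f) (j : Fin (r + 1)) :
    (P.exc r s₁ g₁ c o).instr (P.en r s j) =
      .pop fun b => if b.2 = true then P.er r (f b.1) else P.en r (f b.1) j := by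
  change P.ei r s₁ g₁ c (P.en r s j) = _
  simp only [ei, h]
  rfl

/-- The meaning of the configurations of the program. -/
def EInv (P : NPushProg ι α) (r : ℕ) (x : ι → α) (h T : ℕ) (z : List P.Γ) (k : ℕ) :
    P.EN r → List (P.Γ × Bool) → Prop
  | none, y => k = 0 ∧ y = []
  | some none, _ => True
  | some (some (.inl s)), y => y = [] ∧ (k ≤ T + 1 → P.Run x h T r 0 0 (s, z))
  | some (some (.inr (s, j))), y => ∃ w : List P.Γ, w ≠ [] ∧ y = P.mark w ∧
      (k ≤ T → P.Run x h T r k j.val (s, w ++ z))

theorem len_aux {h : ℕ} {z w : List P.Γ} (hz : z.length = h) (hw : w ≠ []) :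
    h < (w ++ z).length := by
  rw [List.length_append, hz]
  have : 0 < w.length := List.length_pos_iff.2 hw
  omega

theorem exc_sound {h T : ℕ} {s₀ : P.S} {z : List P.Γ} (h0 : P.Run x h T r 0 0 (s₀, z))
    (hz : z.length = h) (hi₀ : P.instr s₀ = .push g₁ s₁) {k : ℕ}
    {v : (P.exc r s₁ g₁ c o).S} {y : List (P.exc r s₁ g₁ c o).Γ}
    (hr : (P.exc r s₁ g₁ c o).Reach x k v y) : P.EInv r x h T z k v y := by
  induction hr with
  | start => exact ⟨rfl, rfl⟩
  | @move k v v' y y' h1 h2 h3 ih =>
    rcases v with _ | _ | s | ⟨s, j⟩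
    · exact absurd h2 (by simp [exc, ei, PInstr.isStack])
    · have h4 := (P.exc r s₁ g₁ c o).next_jump x (s := some none) (s' := some none) rfl y
      obtain ⟨h5, h6⟩ := Prod.mk.inj (Option.some.inj (h3.symm.trans h4))
      rw [h5]
      trivial
    · have h4 := (P.exc r s₁ g₁ c o).next_jump x (s := P.er r s) (s' := P.er r s) rfl y
      obtain ⟨h5, h6⟩ := Prod.mk.inj (Option.some.inj (h3.symm.trans h4))
      rw [h5, h6]
      exact ih
    · obtain ⟨w, hw, hy, hrun⟩ := ih
      cases hi : P.instr s with
      | jump s' =>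
        have h4 := (P.exc r s₁ g₁ c o).next_jump x (ei_jump hi j) y
        obtain ⟨h5, h6⟩ := Prod.mk.inj (Option.some.inj (h3.symm.trans h4))
        rw [h5, h6]
        exact ⟨w, hw, hy, fun hk => .move (hrun hk) (.jump hi) (len_aux hz hw)⟩
      | read i f =>
        have h4 := (P.exc r s₁ g₁ c o).next_read x (ei_read hi j) y
        obtain ⟨h5, h6⟩ := Prod.mk.inj (Option.some.inj (h3.symm.trans h4))
        rw [h5, h6]
        exact ⟨w, hw, hy, fun hk => .move (hrun hk) (.read hi) (len_aux hz hw)⟩
      | guess f =>
        by_cases hj : j.val < r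
        · have h4 := (P.exc r s₁ g₁ c o).next_jump x (ei_guess (j := j.val) hi hj) y
          obtain ⟨h5, h6⟩ := Prod.mk.inj (Option.some.inj (h3.symm.trans h4))
          rw [h5, h6]
          exact ⟨w, hw, hy, fun hk => .guess (hrun hk) (.guess (c j.val) hi) (len_aux hz hw) hj⟩
        · have h4 := (P.exc r s₁ g₁ c o).next_jump x (ei_guess' hi hj) y
          obtain ⟨h5, h6⟩ := Prod.mk.inj (Option.some.inj (h3.symm.trans h4))
          rw [h5]
          trivial
      | push g s' =>
        have h4 := ei_push (s₁ := s₁) (g₁ := g₁) (c := c) (o := o) hi j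
        rw [h4] at h2
        cases h2
      | pop f =>
        have h4 := ei_pop (s₁ := s₁) (g₁ := g₁) (c := c) (o := o) hi j
        rw [h4] at h2
        cases h2
  | @op k v v' y y' h1 h2 h3 ih =>
    rcases v with _ | _ | s | ⟨s, j⟩
    · obtain ⟨hk, hy⟩ := ih
      have h4 := (P.exc r s₁ g₁ c o).next_push x (s := none) (g := (g₁, true))
        (s' := P.en r s₁ 0) rfl y
      obtain ⟨h5, h6⟩ := Prod.mk.inj (Option.some.inj (h3.symm.trans h4))
      rw [h5, h6, hk, hy]
      refine ⟨[g₁], by simp, rfl, fun hk => ?_⟩
      exact .op h0 (.push hi₀) (len_aux (w := [g₁]) hz (by simp)) hk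
    · cases h2
    · cases h2
    · obtain ⟨w, hw, hy, hrun⟩ := ih
      cases hi : P.instr s with
      | jump s' =>
        have h4 := ei_jump (s₁ := s₁) (g₁ := g₁) (c := c) (o := o) hi j
        rw [h4] at h2
        cases h2
      | read i f =>
        have h4 := ei_read (s₁ := s₁) (g₁ := g₁) (c := c) (o := o) hi j
        rw [h4] at h2
        cases h2
      | guess f =>
        by_cases hj : j.val < r
        · have h4 := ei_guess (s₁ := s₁) (g₁ := g₁) (c := c) (o := o) (j := j.val) hi hj
          rw [h4] at h2
          cases h2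
        · have h4 := ei_guess' (s₁ := s₁) (g₁ := g₁) (c := c) (o := o) hi hj
          rw [h4] at h2
          cases h2
      | push g s' =>
        have h4 := (P.exc r s₁ g₁ c o).next_push x (ei_push hi j) y
        obtain ⟨h5, h6⟩ := Prod.mk.inj (Option.some.inj (h3.symm.trans h4))
        rw [h5, h6, hy]
        refine ⟨g :: w, by simp, (mark_push hw).symm, fun hk => ?_⟩
        exact .op (hrun (by omega)) (.push hi) (len_aux (w := g :: w) hz (by simp)) hk
      | pop f =>
        cases w with
        | nil => exact absurd rfl hw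
        | cons g w =>
          have hy' : y = (g, w.isEmpty) :: P.mark w := hy
          rw [hy'] at h3
          have h4 := (P.exc r s₁ g₁ c o).next_pop x (ei_pop hi j) (g, w.isEmpty) (P.mark w)
          obtain ⟨h5, h6⟩ := Prod.mk.inj (Option.some.inj (h3.symm.trans h4))
          rw [h5, h6]
          cases w with
          | nil =>
            refine ⟨rfl, fun hk => ?_⟩
            have hk' : k ≤ T := by omega
            refine .low (hrun hk') (.pop hi) ?_
            change z.length ≤ h
            omega
          | cons g' w =>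
            refine ⟨g' :: w, by simp, rfl, fun hk => ?_⟩
            exact .op (hrun (by omega)) (.pop hi) (len_aux (w := g' :: w) hz (by simp)) hk

end

end NPushProg

end Pool.Agent.MP_6216ea_lc
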