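import Pool.Agent.Lib.MP_6216ea_lc.DDModel

/-! Composition of deterministic branching programs with clocked walks. -/

set_option autoImplicit false

namespace Pool.Agent.MP_6216ea_lc

namespace LetterDBP

variable {ι α κ β U : Type}

/-- The walk. -/
def wlk (mv : U → ι × (α → U)) (x : ι → α) (u : U) : U := (mv u).2 (x (mv u).1)

/-- The entry for the vertex `v` of the outer program. -/
def ent (B : LetterDBP κ β) (st : κ → U) (u₀ : U) (N : ℕ) (v : B.V) : B.V × U × Fin (N + 1) :=
  match B.node v with
  | .out _ => (v, u₀, 0)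
  | .query k _ => (v, st k, Fin.last N)

/-- Every query of the position `k` is replaced by the walk of `N` steps from `st k`. -/
def sbst [Fintype U] (B : LetterDBP κ β) (mv : U → ι × (α → U)) (st : κ → U) (out : U → β)
    (u₀ : U) (i₀ : ι) (N : ℕ) : LetterDBP ι α where
  V := B.V × U × Fin (N + 1)
  fin := inferInstance
  node w := match B.node w.1 with
    | .out b => .out b
    | .query _ f =>
      if h : w.2.2.val = 0 then .query i₀ fun _ => ent B st u₀ N (f (out w.2.1))
      else .query (mv w.2.1).1 fun a => (w.1, (mv w.2.1).2 a, ⟨w.2.2.val - 1, by omega⟩)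
  start := ent B st u₀ N B.start

variable [Fintype U] (B : LetterDBP κ β) (mv : U → ι × (α → U)) (st : κ → U) (out : U → β)
  (u₀ : U) (i₀ : ι) (N : ℕ) (x : ι → α)

theorem sbst_walk {v : B.V} {k : κ} {f : β → B.V} (hv : B.node v = .query k f) (b : Bool) (c : ℕ)
    (hc : c < N + 1) (u : U)
    (h : (B.sbst mv st out u₀ i₀ N).Outputs x
      (ent B st u₀ N (f (out ((wlk mv x)^[c] u)))) b) :
    (B.sbst mv st out u₀ i₀ N).Outputs x (v, u, (⟨c, hc⟩ : Fin (N + 1))) b := by
  induction c generalizing u with
  | zero =>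
    refine .query (i := i₀) (f := fun _ => ent B st u₀ N (f (out u))) ?_ h
    simp only [sbst, hv]
    rfl
  | succ c ih =>
    refine .query (i := (mv u).1)
      (f := fun a => (v, (mv u).2 a, (⟨c, by omega⟩ : Fin (N + 1)))) ?_ ?_
    · simp only [sbst, hv]
      rw [dif_neg (by omega)]
      simp
    · exact ih (by omega) _ (by rw [Function.iterate_succ_apply] at h; exact h)

theorem sbst_outputs {v : B.V} {b : Bool}
    (h : B.Outputs (fun k => out ((wlk mv x)^[N] (st k))) v b) :
    (B.sbst mv st out u₀ i₀ N).Outputs x (ent B st u₀ N v) b := by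
  induction h with
  | @out v b hv =>
    refine .out ?_
    have h1 : ent B st u₀ N v = (v, u₀, 0) := by unfold ent; rw [hv]
    rw [h1]
    simp only [sbst, hv]
  | @query v b k f hv _ ih =>
    have h1 : ent B st u₀ N v = (v, st k, Fin.last N) := by unfold ent; rw [hv]
    rw [h1]
    exact sbst_walk B mv st out u₀ i₀ N x hv b N (by omega) (st k) ih

theorem sbst_card : Fintype.card (B.sbst mv st out u₀ i₀ N).V =
    Fintype.card B.V * (Fintype.card U * (N + 1)) := by
  change Fintype.card (B.V × U × Fin (N + 1)) = _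
  rw [Fintype.card_prod, Fintype.card_prod, Fintype.card_fin]

theorem sbst_decides {p : (κ → β) → Prop} (h : B.Decides p) :
    (B.sbst mv st out u₀ i₀ N).Decides fun x => p fun k => out ((wlk mv x)^[N] (st k)) := by
  intro x
  rcases h (fun k => out ((wlk mv x)^[N] (st k))) with ⟨h1, h2⟩ | ⟨h1, h2⟩
  · exact Or.inl ⟨h1, sbst_outputs B mv st out u₀ i₀ N x h2⟩
  · exact Or.inr ⟨h1, sbst_outputs B mv st out u₀ i₀ N x h2⟩

/-- Constant programs. -/
theorem exists_const [IsEmpty ι] (p : (ι → α) → Prop) : ∃ B : LetterDBP ι α,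
    Fintype.card B.V = 1 ∧ B.Decides p := by
  classical
  refine ⟨⟨Unit, inferInstance, fun _ => .out (decide (p isEmptyElim)), ()⟩, rfl, fun x => ?_⟩
  have hx : x = isEmptyElim := funext fun i => isEmptyElim i
  by_cases hp : p x
  · refine Or.inl ⟨hp, .out ?_⟩
    rw [hx] at hp
    simp [hp]
  · refine Or.inr ⟨hp, .out ?_⟩
    rw [hx] at hp
    simp [hp]

end LetterDBP

end Pool.Agent.MP_6216ea_lc
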