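import Pool.Agent.Lib.MP_6216ea_lc.OPWalk
import Pool.Agent.Lib.MP_6216ea_lc.OPComp
import Pool.Agent.Lib.MP_6216ea_lc.RDMain

/-! Pushdown programs with `T` stack operations (and any number of other steps) have deterministic
branching programs of size `L ^ (C (1 + log T / log log L))`. -/

set_option autoImplicit false

namespace Pool.Agent.MP_6216ea_lc

namespace PushProg

variable {ι α : Type} (P : PushProg ι α)

/-- One step without the stack as a query. -/
def mv (i₀ : ι) (s : P.S) : ι × (α → P.S) :=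
  if P.act s = true then (i₀, fun _ => s) else
    match P.instr s with
    | .jump s' => (i₀, fun _ => s')
    | .read i f => (i, f)
    | _ => (i₀, fun _ => s)

theorem wlk_mv (i₀ : ι) (x : ι → α) : LetterDBP.wlk (P.mv i₀) x = P.wk x := by
  funext s
  unfold LetterDBP.wlk mv wk
  split_ifs with h
  · rfl
  · cases P.instr s <;> rfl

end PushProg

/-- Numerics. -/
theorem ops_num {C : ℝ} (hC : 0 < C) {L T S : ℕ} (hL : 3 ≤ L)
    (hS : (S : ℝ) ≤ ((L ^ 2 : ℕ) : ℝ) ^
      (C * (1 + Real.log ((2 * T + 1 : ℕ) : ℝ) / Real.log (Real.log ((L ^ 2 : ℕ) : ℝ))))) :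
    ((S * (L * (L + 1)) : ℕ) : ℝ) ≤
      (L : ℝ) ^ ((2 * C * (1 + Real.log 3 / Real.log (Real.log 3)) + 3) *
        (1 + Real.log T / Real.log (Real.log L))) := by
  have hL' : (3 : ℝ) ≤ L := by exact_mod_cast hL
  have hL0 : (0 : ℝ) < L := by linarith
  have he3 : Real.exp 1 < 3 := by
    have := Real.exp_one_lt_d9
    linarith
  have hl3 : 1 < Real.log 3 := by
    rw [Real.lt_log_iff_exp_lt (by norm_num)]
    exact he3
  have hlL : Real.log 3 ≤ Real.log L := Real.log_le_log (by norm_num) hL'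
  have hll3 : 0 < Real.log (Real.log 3) := Real.log_pos hl3
  have hll : Real.log (Real.log 3) ≤ Real.log (Real.log L) := Real.log_le_log (by linarith) hlL
  have hllL : 0 < Real.log (Real.log L) := by linarith
  have hT0 : 0 ≤ Real.log T := Real.log_natCast_nonneg T
  -- log (2T+1) <= log 3 + log T
  have hT : Real.log ((2 * T + 1 : ℕ) : ℝ) ≤ Real.log 3 + Real.log T := by
    rcases Nat.eq_zero_or_pos T with hT | hT
    · subst hT
      simp
      linarith
    · have hT' : (1 : ℝ) ≤ T := by exact_mod_cast hT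
      rw [← Real.log_mul (by norm_num) (by linarith)]
      apply Real.log_le_log (by positivity)
      push_cast
      linarith
  have hLL : Real.log (Real.log L) ≤ Real.log (Real.log ((L ^ 2 : ℕ) : ℝ)) := by
    apply Real.log_le_log (by linarith)
    apply Real.log_le_log hL0
    push_cast
    nlinarith
  have h1 : Real.log ((2 * T + 1 : ℕ) : ℝ) / Real.log (Real.log ((L ^ 2 : ℕ) : ℝ)) ≤
      Real.log 3 / Real.log (Real.log 3) + Real.log T / Real.log (Real.log L) := by
    calc Real.log ((2 * T + 1 : ℕ) : ℝ) / Real.log (Real.log ((L ^ 2 : ℕ) : ℝ))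
        ≤ (Real.log 3 + Real.log T) / Real.log (Real.log L) := by
          apply div_le_div₀ (by linarith) hT hllL hLL
      _ = Real.log 3 / Real.log (Real.log L) + Real.log T / Real.log (Real.log L) := by
          rw [add_div]
      _ ≤ _ := by
          gcongr
  obtain ⟨a, ha⟩ : ∃ a, a = Real.log 3 / Real.log (Real.log 3) := ⟨_, rfl⟩
  obtain ⟨t, ht⟩ : ∃ t, t = Real.log T / Real.log (Real.log L) := ⟨_, rfl⟩
  rw [← ha, ← ht] at h1
  rw [← ha, ← ht]
  have ha0 : 0 ≤ a := by rw [ha]; positivity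
  have ht0 : 0 ≤ t := by rw [ht]; positivity
  have h2 : (S : ℝ) ≤ (L : ℝ) ^ (2 * C * (1 + a) * (1 + t)) := by
    refine hS.trans ?_
    have h3 : ((L ^ 2 : ℕ) : ℝ) = (L : ℝ) ^ (2 : ℝ) := by
      push_cast
      rw [← Real.rpow_natCast]
      norm_num
    rw [h3, ← Real.rpow_mul hL0.le]
    apply Real.rpow_le_rpow_of_exponent_le (by linarith)
    rw [h3] at h1
    have h4 : 1 + Real.log ((2 * T + 1 : ℕ) : ℝ) / Real.log (Real.log ((L : ℝ) ^ (2 : ℝ))) ≤
        (1 + a) * (1 + t) := by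
      have : 0 ≤ a * t := mul_nonneg ha0 ht0
      linarith
    calc (2 : ℝ) * (C * (1 + Real.log ((2 * T + 1 : ℕ) : ℝ) /
          Real.log (Real.log ((L : ℝ) ^ (2 : ℝ)))))
        ≤ 2 * (C * ((1 + a) * (1 + t))) := by gcongr
      _ = 2 * C * (1 + a) * (1 + t) := by ring
  have h5 : ((L * (L + 1) : ℕ) : ℝ) ≤ (L : ℝ) ^ (3 * (1 + t)) := by
    have h6 : ((L * (L + 1) : ℕ) : ℝ) ≤ (L : ℝ) ^ (3 : ℝ) := by
      have h7 : L * (L + 1) ≤ L ^ 3 := by nlinarith [Nat.mul_le_mul_left L hL]
      calc ((L * (L + 1) : ℕ) : ℝ) ≤ ((L ^ 3 : ℕ) : ℝ) := by exact_mod_cast h7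
        _ = (L : ℝ) ^ (3 : ℝ) := by
            push_cast
            rw [← Real.rpow_natCast]
            norm_num
    refine h6.trans ?_
    apply Real.rpow_le_rpow_of_exponent_le (by linarith)
    linarith
  calc ((S * (L * (L + 1)) : ℕ) : ℝ) = (S : ℝ) * ((L * (L + 1) : ℕ) : ℝ) := by push_cast; ring
    _ ≤ (L : ℝ) ^ (2 * C * (1 + a) * (1 + t)) * (L : ℝ) ^ (3 * (1 + t)) := by gcongr
    _ = (L : ℝ) ^ ((2 * C * (1 + a) + 3) * (1 + t)) := by
        rw [← Real.rpow_add hL0]
        congr 1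
        ring

/-- Every pushdown program with at most `L` nodes and `T ≤ L`: the inputs accepted with at most `T`
stack operations have a deterministic branching program of size
`L ^ (C (1 + log T / log log L))`. -/
theorem push_ops : ∃ C : ℝ, 0 < C ∧ ∀ (ι α : Type) (P : PushProg ι α) (T L : ℕ), 3 ≤ L →
    Fintype.card P.S ≤ L → T ≤ L → ∃ B : LetterDBP ι α,
      (Fintype.card B.V : ℝ) ≤
        (L : ℝ) ^ (C * (1 + Real.log T / Real.log (Real.log L))) ∧
        B.Decides fun x => P.AcceptsOps x T := by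
  classical
  obtain ⟨C, hC, hmain⟩ := push_main_rd
  have he3 : Real.exp 1 < 3 := by
    have := Real.exp_one_lt_d9
    linarith
  have hl3 : 1 < Real.log 3 := by
    rw [Real.lt_log_iff_exp_lt (by norm_num)]
    exact he3
  have hll3 : 0 < Real.log (Real.log 3) := Real.log_pos hl3
  refine ⟨2 * C * (1 + Real.log 3 / Real.log (Real.log 3)) + 3, by positivity, ?_⟩
  intro ι α P T L hL hS hT
  have hcard : Fintype.card P.sm.S ≤ L ^ 2 := by
    change Fintype.card (P.S ⊕ P.S) ≤ _
    rw [Fintype.card_sum]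
    nlinarith
  have hT' : 2 * T + 1 ≤ L ^ 2 := by nlinarith
  have hL2 : 3 ≤ L ^ 2 := by nlinarith
  obtain ⟨B, hB, hdec⟩ := hmain P.S P.S P.sm (2 * T + 1) (L ^ 2) hL2 hcard hT'
  rcases isEmpty_or_nonempty ι with hι | ⟨⟨i₀⟩⟩
  · obtain ⟨B', hB', hdec'⟩ := LetterDBP.exists_const fun x : ι → α => P.AcceptsOps x T
    refine ⟨B', ?_, hdec'⟩
    rw [hB']
    have h1 : ((1 : ℕ) : ℝ) ≤ ((Fintype.card B.V * (L * (L + 1)) : ℕ) : ℝ) := by
      have h2 : 1 ≤ Fintype.card B.V := Fintype.card_pos_iff.2 ⟨B.start⟩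
      have h3 : 1 ≤ Fintype.card B.V * (L * (L + 1)) := Nat.mul_pos h2 (by positivity)
      exact_mod_cast h3
    exact h1.trans (ops_num hC hL hB)
  · refine ⟨B.sbst (P.mv i₀) id id P.start i₀ (Fintype.card P.S), ?_, ?_⟩
    · rw [LetterDBP.sbst_card]
      refine le_trans ?_ (ops_num (S := Fintype.card B.V) hC hL hB)
      have h1 : Fintype.card B.V * (Fintype.card P.S * (Fintype.card P.S + 1)) ≤
          Fintype.card B.V * (L * (L + 1)) := by gcongr
      exact_mod_cast h1
    · have h1 := B.sbst_decides (P.mv i₀) id id P.start i₀ (Fintype.card P.S) hdec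
      have e : (fun x => P.AcceptsOps x T) = fun x : ι → α => P.sm.AcceptsIn (fun k =>
          id ((LetterDBP.wlk (P.mv i₀) x)^[Fintype.card P.S] (id k))) (2 * T + 1) := by
        funext x
        rw [P.wlk_mv]
        exact propext (P.sm_accepts x T).symm
      rw [e]
      exact h1

end Pool.Agent.MP_6216ea_lc
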