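import Pool.Agent.Lib.MP_6216ea_lc.NDTop
import Pool.Agent.Lib.MP_6216ea_lc.OPMain

/-! Nondeterministic pushdown programs whose stack is used with few operations and few guesses
above a height. -/

set_option autoImplicit false

namespace Pool.Agent.MP_6216ea_lc

/-- Numerics. -/
theorem num_gen {C : ℝ} (hC : 0 < C) {L T T₁ S e m : ℕ} (hL : 3 ≤ L) (he : 1 ≤ e)
    (hT₁ : T₁ ≤ 2 * T + 1)
    (hS : (S : ℝ) ≤ ((L ^ e : ℕ) : ℝ) ^
      (C * (1 + Real.log T₁ / Real.log (Real.log ((L ^ e : ℕ) : ℝ))))) :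
    ((S * L ^ m : ℕ) : ℝ) ≤
      (L : ℝ) ^ ((e * C * (1 + Real.log 3 / Real.log (Real.log 3)) + m) *
        (1 + Real.log T / Real.log (Real.log L))) := by
  have hL' : (3 : ℝ) ≤ L := by exact_mod_cast hL
  have hL0 : (0 : ℝ) < L := by linarith
  have he' : (1 : ℝ) ≤ e := by exact_mod_cast he
  have he3 : Real.exp 1 < 3 := by
    have := Real.exp_one_lt_d9
    linarith
  have hl3 : 1 < Real.log 3 := by
    rw [Real.lt_log_iff_exp_lt (by norm_num)]
    exact he3
  have hlL : Real.log 3 ≤ Real.log L := Real.log_le_log (by norm_num) hL'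
  have hll3 : 0 < Real.log (Real.log 3) := Real.log_pos hl3
  have hll : Real.log (Real.log 3) ≤ Real.log (Real.log L) := Real.log_le_log (by linarith) hlL
  have hllL : 0 < Real.log (Real.log L) := by linarith
  have hT0 : 0 ≤ Real.log T := Real.log_natCast_nonneg T
  have hT : Real.log (T₁ : ℝ) ≤ Real.log 3 + Real.log T := by
    rcases Nat.eq_zero_or_pos T₁ with h0 | h0
    · subst h0
      simp only [Nat.cast_zero, Real.log_zero]
      linarith
    · have h1 : (0 : ℝ) < T₁ := by exact_mod_cast h0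
      have h2 : (T₁ : ℝ) ≤ 2 * T + 1 := by exact_mod_cast hT₁
      rcases Nat.eq_zero_or_pos T with hT | hT
      · subst hT
        have h3 : Real.log (T₁ : ℝ) ≤ Real.log 3 :=
          Real.log_le_log h1 (by simp only [Nat.cast_zero] at h2; linarith)
        simp only [Nat.cast_zero, Real.log_zero]
        linarith
      · have hT' : (1 : ℝ) ≤ T := by exact_mod_cast hT
        rw [← Real.log_mul (by norm_num) (by linarith)]
        exact Real.log_le_log h1 (by linarith)
  have h3 : ((L ^ e : ℕ) : ℝ) = (L : ℝ) ^ (e : ℝ) := by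
    push_cast
    rw [Real.rpow_natCast]
  have hLL : Real.log (Real.log L) ≤ Real.log (Real.log ((L ^ e : ℕ) : ℝ)) := by
    apply Real.log_le_log (by linarith)
    apply Real.log_le_log hL0
    have : L ≤ L ^ e := Nat.le_self_pow (by omega) L
    exact_mod_cast this
  have h1 : Real.log (T₁ : ℝ) / Real.log (Real.log ((L ^ e : ℕ) : ℝ)) ≤
      Real.log 3 / Real.log (Real.log 3) + Real.log T / Real.log (Real.log L) := by
    calc Real.log (T₁ : ℝ) / Real.log (Real.log ((L ^ e : ℕ) : ℝ))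
        ≤ (Real.log 3 + Real.log T) / Real.log (Real.log L) := by
          apply div_le_div₀ (by linarith) hT hllL hLL
      _ = Real.log 3 / Real.log (Real.log L) + Real.log T / Real.log (Real.log L) := by
          rw [add_div]
      _ ≤ _ := by
          gcongr
  obtain ⟨a, ha⟩ : ∃ a, a = Real.log 3 / Real.log (Real.log 3) := ⟨_, rfl⟩
  obtain ⟨t, ht⟩ : ∃ t, t = Real.log T / Real.log (Real.log L) := ⟨_, rfl⟩
  rw [← ha, ← ht] at h1
  rw [← ha, ← ht]
  have ha0 : 0 ≤ a := by rw [ha]; positivity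
  have ht0 : 0 ≤ t := by rw [ht]; positivity
  have h2 : (S : ℝ) ≤ (L : ℝ) ^ (e * C * (1 + a) * (1 + t)) := by
    refine hS.trans ?_
    rw [h3, ← Real.rpow_mul hL0.le]
    apply Real.rpow_le_rpow_of_exponent_le (by linarith)
    rw [h3] at h1
    have h4 : 1 + Real.log (T₁ : ℝ) / Real.log (Real.log ((L : ℝ) ^ (e : ℝ))) ≤
        (1 + a) * (1 + t) := by
      have : 0 ≤ a * t := mul_nonneg ha0 ht0
      linarith
    calc (e : ℝ) * (C * (1 + Real.log (T₁ : ℝ) / Real.log (Real.log ((L : ℝ) ^ (e : ℝ)))))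
        ≤ e * (C * ((1 + a) * (1 + t))) := by gcongr
      _ = e * C * (1 + a) * (1 + t) := by ring
  have h5 : ((L ^ m : ℕ) : ℝ) ≤ (L : ℝ) ^ (m * (1 + t)) := by
    push_cast
    rw [← Real.rpow_natCast]
    apply Real.rpow_le_rpow_of_exponent_le (by linarith)
    have : 0 ≤ (m : ℝ) * t := mul_nonneg (Nat.cast_nonneg m) ht0
    linarith
  calc ((S * L ^ m : ℕ) : ℝ) = (S : ℝ) * ((L ^ m : ℕ) : ℝ) := by push_cast; ring
    _ ≤ (L : ℝ) ^ (e * C * (1 + a) * (1 + t)) * (L : ℝ) ^ (m * (1 + t)) := by gcongr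
    _ = (L : ℝ) ^ ((e * C * (1 + a) + m) * (1 + t)) := by
        rw [← Real.rpow_add hL0]
        congr 1
        ring

namespace NPushProg

variable {ι α : Type} (P : NPushProg ι α)

noncomputable instance lowFintype (h : ℕ) : Fintype (P.Low h) :=
  Fintype.ofInjective (fun c : P.Low h => (c.1.1, fun i : Fin h => c.1.2[i.val]?)) (by
    rintro ⟨⟨s, z⟩, hz⟩ ⟨⟨s', z'⟩, hz'⟩ h1
    simp only [Prod.mk.injEq] at h1
    obtain ⟨h2, h3⟩ := h1
    subst h2
    have h4 : z = z' := by
      apply List.ext_getElem?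
      intro i
      by_cases hi : i < h
      · exact congrFun h3 ⟨i, hi⟩
      · simp only at hz hz'
        rw [List.getElem?_eq_none (by omega), List.getElem?_eq_none (by omega)]
    subst h4
    rfl)

theorem card_low (h : ℕ) :
    Fintype.card (P.Low h) ≤ Fintype.card P.S * (Fintype.card P.Γ + 1) ^ h := by
  have h1 := Fintype.card_le_of_injective
    (fun c : P.Low h => ((c.1.1, fun i : Fin h => c.1.2[i.val]?) : P.S × (Fin h → Option P.Γ))) (by
    rintro ⟨⟨s, z⟩, hz⟩ ⟨⟨s', z'⟩, hz'⟩ h1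
    simp only [Prod.mk.injEq] at h1
    obtain ⟨h2, h3⟩ := h1
    subst h2
    have h4 : z = z' := by
      apply List.ext_getElem?
      intro i
      by_cases hi : i < h
      · exact congrFun h3 ⟨i, hi⟩
      · simp only at hz hz'
        rw [List.getElem?_eq_none (by omega), List.getElem?_eq_none (by omega)]
    subst h4
    rfl)
  refine h1.trans (le_of_eq ?_)
  simp only [Fintype.card_prod, Fintype.card_fun, Fintype.card_option, Fintype.card_fin]

end NPushProg

/-- Let `P` be a nondeterministic pushdown program with at most `L` nodes. The inputs accepted by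
computations which, in each part above the height `h`, make at most `T ≤ L` stack operations and
at most `r ≤ L` guesses have a nondeterministic branching program of size
`2 ^ r (|Γ| + 1) ^ h L ^ (C (1 + log T / log log L))`. -/
theorem nd_main : ∃ C : ℝ, 0 < C ∧ ∀ (ι α : Type) (P : NPushProg ι α) (h T r L : ℕ), 3 ≤ L →
    Fintype.card P.S ≤ L → T ≤ L → r ≤ L → ∃ B : LetterNBP ι α,
      (Fintype.card B.V : ℝ) ≤ 2 ^ r * ((Fintype.card P.Γ : ℝ) + 1) ^ h *
        (L : ℝ) ^ (C * (1 + Real.log T / Real.log (Real.log L))) ∧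
        ∀ x, B.Accepts x ↔ P.Accepts h T r x := by
  classical
  obtain ⟨C, hC, hmain⟩ := push_ops
  have he3 : Real.exp 1 < 3 := by
    have := Real.exp_one_lt_d9
    linarith
  have hl3 : 1 < Real.log 3 := by
    rw [Real.lt_log_iff_exp_lt (by norm_num)]
    exact he3
  have hll3 : 0 < Real.log (Real.log 3) := Real.log_pos hl3
  refine ⟨(3 : ℕ) * C * (1 + Real.log 3 / Real.log (Real.log 3)) + (6 : ℕ), by positivity, ?_⟩
  intro ι α P h T r L hL hS hT hr
  have hL3 : 3 ≤ L ^ 3 := by nlinarith [Nat.pow_le_pow_left hL 3]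
  have hT1 : T + 1 ≤ L ^ 3 := by nlinarith [Nat.pow_le_pow_left hL 2, Nat.mul_le_mul_right (L ^ 2) hL]
  -- the deterministic programs of the conditions
  have hQ : ∀ m : P.Mac r, ∃ B : LetterDBP ι α,
      (Fintype.card B.V : ℝ) ≤ ((L ^ 3 : ℕ) : ℝ) ^
        (C * (1 + Real.log ((T + 1 : ℕ) : ℝ) / Real.log (Real.log ((L ^ 3 : ℕ) : ℝ)))) ∧
      ∀ s₁ g₁, P.instr m.1 = .push g₁ s₁ →
        B.Decides fun x => (P.exc r s₁ g₁ (NPushProg.ext' m.2.1) m.2.2).AcceptsOps x
          (P.TT T m.2.2) := by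
    rintro ⟨s, b, o⟩
    have hTT : P.TT T o ≤ T + 1 := by cases o <;> simp [NPushProg.TT]
    have hmono : ((L ^ 3 : ℕ) : ℝ) ^
        (C * (1 + Real.log ((P.TT T o : ℕ) : ℝ) / Real.log (Real.log ((L ^ 3 : ℕ) : ℝ)))) ≤
        ((L ^ 3 : ℕ) : ℝ) ^
        (C * (1 + Real.log ((T + 1 : ℕ) : ℝ) / Real.log (Real.log ((L ^ 3 : ℕ) : ℝ)))) := by
      have h1 : (1 : ℝ) ≤ ((L ^ 3 : ℕ) : ℝ) := by
        have : 1 ≤ L ^ 3 := by omega
        exact_mod_cast this
      have h0 : 0 < Real.log (Real.log ((L ^ 3 : ℕ) : ℝ)) := by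
        apply Real.log_pos
        rw [Real.lt_log_iff_exp_lt (by linarith)]
        have : (3 : ℝ) ≤ ((L ^ 3 : ℕ) : ℝ) := by exact_mod_cast hL3
        linarith
      apply Real.rpow_le_rpow_of_exponent_le h1
      have h2 : Real.log ((P.TT T o : ℕ) : ℝ) ≤ Real.log ((T + 1 : ℕ) : ℝ) := by
        rcases Nat.eq_zero_or_pos (P.TT T o) with h3 | h3
        · rw [h3]
          simp only [Nat.cast_zero, Real.log_zero]
          exact Real.log_natCast_nonneg _
        · exact Real.log_le_log (by exact_mod_cast h3) (by exact_mod_cast hTT)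
      gcongr
    by_cases hp : ∃ g₁ s₁, P.instr s = .push g₁ s₁
    · obtain ⟨g₁, s₁, hp⟩ := hp
      have hcard : Fintype.card (P.exc r s₁ g₁ (NPushProg.ext' b) o).S ≤ L ^ 3 := by
        change Fintype.card (Option (Option (P.S ⊕ (P.S × Fin (r + 1))))) ≤ _
        rw [Fintype.card_option, Fintype.card_option, Fintype.card_sum, Fintype.card_prod,
          Fintype.card_fin]
        have h1 : Fintype.card P.S * (r + 1) ≤ L * (L + 1) := by gcongr
        nlinarith [Nat.pow_le_pow_left hL 2, Nat.mul_le_mul_right (L ^ 2) hL]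
      obtain ⟨B, hB, hdec⟩ := hmain ι α (P.exc r s₁ g₁ (NPushProg.ext' b) o) (P.TT T o) (L ^ 3)
        hL3 hcard (hTT.trans hT1)
      refine ⟨B, hB.trans hmono, fun s₁' g₁' hp' => ?_⟩
      simp only at hp'
      rw [hp] at hp'
      obtain ⟨h1, h2⟩ := NInstr.push.inj hp'
      subst h1
      subst h2
      exact hdec
    · obtain ⟨B, hB, -⟩ := hmain ι α ⟨Unit, Unit, inferInstance, fun _ => .jump (), (),
        fun _ => true⟩ 0 (L ^ 3) hL3 (by rw [Fintype.card_unit]; omega) (Nat.zero_le _)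
      refine ⟨B, hB.trans ?_, fun s₁ g₁ hp' => absurd ⟨g₁, s₁, hp'⟩ hp⟩
      have h1 : (1 : ℝ) ≤ ((L ^ 3 : ℕ) : ℝ) := by
        have : 1 ≤ L ^ 3 := by omega
        exact_mod_cast this
      have h0 : 0 < Real.log (Real.log ((L ^ 3 : ℕ) : ℝ)) := by
        apply Real.log_pos
        rw [Real.lt_log_iff_exp_lt (by linarith)]
        have : (3 : ℝ) ≤ ((L ^ 3 : ℕ) : ℝ) := by exact_mod_cast hL3
        linarith
      apply Real.rpow_le_rpow_of_exponent_le h1
      have h2 : Real.log ((0 : ℕ) : ℝ) ≤ Real.log ((T + 1 : ℕ) : ℝ) := by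
        simp only [Nat.cast_zero, Real.log_zero]
        exact Real.log_natCast_nonneg _
      gcongr
  choose D hD1 hD2 using hQ
  have hgood : ∀ x, P.Good' T r (fun m => (D m).toN) x := by
    intro x s s₁ g₁ b o hi
    exact LetterDBP.toN_accepts (hD2 (s, b, o) s₁ g₁ hi) x
  refine ⟨expand (P.TEdge h r) (fun m => (D m).toN) (P.lowStart h) none, ?_, fun x => ?_⟩
  · -- the size
    obtain ⟨S, hS1, hS2⟩ : ∃ S : ℕ, (∀ m, Fintype.card (D m).V ≤ S) ∧
        (S : ℝ) ≤ ((L ^ 3 : ℕ) : ℝ) ^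
        (C * (1 + Real.log ((T + 1 : ℕ) : ℝ) / Real.log (Real.log ((L ^ 3 : ℕ) : ℝ)))) := by
      refine ⟨Finset.univ.sup fun m => Fintype.card (D m).V, fun m =>
        Finset.le_sup (f := fun m => Fintype.card (D m).V) (Finset.mem_univ m), ?_⟩
      have hne : (Finset.univ : Finset (P.Mac r)).Nonempty :=
        ⟨(P.start, fun _ => false, none), Finset.mem_univ _⟩
      obtain ⟨m, -, hm⟩ := Finset.exists_mem_eq_sup _ hne fun m => Fintype.card (D m).V
      rw [hm]
      exact hD1 m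
    have h1 := expand_card (P.TEdge h r) (fun m => (D m).toN) (P.lowStart h) none
      (B := S + 1) (fun m => by rw [LetterDBP.toN_card]; exact Nat.succ_le_succ (hS1 m))
    have hS1' : 1 ≤ S := lt_of_lt_of_le
      (Fintype.card_pos_iff.2 ⟨(D (P.start, fun _ => false, none)).start⟩)
      (hS1 (P.start, fun _ => false, none))
    obtain ⟨G, hG⟩ : ∃ G, G = (Fintype.card P.Γ + 1) ^ h := ⟨_, rfl⟩
    have hG1 : 1 ≤ G := by rw [hG]; exact Nat.one_le_pow _ _ (by omega)
    have h2r : 1 ≤ 2 ^ r := Nat.one_le_two_pow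
    have hV : Fintype.card (Option (P.Low h)) ≤ 2 * L * G := by
      rw [Fintype.card_option]
      have h2 := P.card_low h
      rw [← hG] at h2
      have h3 : Fintype.card P.S * G ≤ L * G := Nat.mul_le_mul_right _ hS
      have h4 : 1 ≤ L * G := Nat.mul_pos (by omega) hG1
      calc Fintype.card (P.Low h) + 1 ≤ L * G + L * G := by omega
        _ = 2 * L * G := by ring
    have hM : Fintype.card (P.Mac r) ≤ L * (L + 1) * 2 ^ r := by
      change Fintype.card (P.S × (Fin r → Bool) × Option P.S) ≤ _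
      rw [Fintype.card_prod, Fintype.card_prod, Fintype.card_option, Fintype.card_fun,
        Fintype.card_bool, Fintype.card_fin]
      calc Fintype.card P.S * (2 ^ r * (Fintype.card P.S + 1)) ≤ L * (2 ^ r * (L + 1)) := by
            gcongr
        _ = L * (L + 1) * 2 ^ r := by ring
    have h5 : Fintype.card (expand (P.TEdge h r) (fun m => (D m).toN) (P.lowStart h) none).V ≤
        2 ^ r * G * (S * L ^ 6) := by
      refine h1.trans ?_
      calc Fintype.card (Option (P.Low h)) * (1 + Fintype.card (P.Mac r) * (S + 1))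
          ≤ (2 * L * G) * (1 + (L * (L + 1) * 2 ^ r) * (S + S)) := by gcongr
        _ ≤ (2 * L * G) * (L * (L + 1) * 2 ^ r * S + (L * (L + 1) * 2 ^ r) * (S + S)) := by
            gcongr
            exact Nat.mul_pos (Nat.mul_pos (Nat.mul_pos (by omega) (by omega)) h2r) hS1'
        _ = 2 ^ r * G * (S * (6 * L ^ 2 * (L + 1))) := by ring
        _ ≤ 2 ^ r * G * (S * L ^ 6) := by
            gcongr
            have h6 : 6 * (L + 1) ≤ L ^ 4 := by
              have h7 : 27 * L ≤ L ^ 4 := by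
                calc 27 * L = 3 ^ 3 * L := by norm_num
                  _ ≤ L ^ 3 * L := by gcongr
                  _ = L ^ 4 := by ring
              omega
            calc 6 * L ^ 2 * (L + 1) = L ^ 2 * (6 * (L + 1)) := by ring
              _ ≤ L ^ 2 * L ^ 4 := by gcongr
              _ = L ^ 6 := by ring
    have h6 := num_gen (m := 6) hC hL (by norm_num : 1 ≤ 3) (show T + 1 ≤ 2 * T + 1 by omega) hS2
    calc (Fintype.card (expand (P.TEdge h r) (fun m => (D m).toN) (P.lowStart h) none).V : ℝ)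
        ≤ ((2 ^ r * G * (S * L ^ 6) : ℕ) : ℝ) := by exact_mod_cast h5
      _ = 2 ^ r * ((Fintype.card P.Γ : ℝ) + 1) ^ h * ((S * L ^ 6 : ℕ) : ℝ) := by
          rw [hG]; push_cast; ring
      _ ≤ _ := by gcongr
  · rw [expand_accepts]
    exact NPushProg.top_iff (hgood x)

end Pool.Agent.MP_6216ea_lc
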