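import Pool.Agent.Lib.MP_6216ea_lc.DDModel
import Pool.Agent.Lib.MP_6216ea_lc.LTModel

/-! Graphs whose edges are letters or conditions given by branching programs. -/

set_option autoImplicit false

namespace Pool.Agent.MP_6216ea_lc

variable {ι α M V : Type}

/-- The label may be used on the input `x`. -/
def Holds (Q : M → LetterNBP ι α) (x : ι → α) : Option ((ι × α) ⊕ M) → Prop
  | none => True
  | some (.inl (i, a)) => x i = a
  | some (.inr m) => (Q m).Accepts x

/-- The edges of the expanded program. -/
inductive XEdge (e : V → Option ((ι × α) ⊕ M) → V → Prop) (Q : M → LetterNBP ι α) :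
    (V ⊕ (V × Σ m : M, (Q m).V)) → Option (ι × α) → (V ⊕ (V × Σ m : M, (Q m).V)) → Prop
  | free {u v : V} : e u none v → XEdge e Q (.inl u) none (.inl v)
  | letter {u v : V} {i : ι} {a : α} : e u (some (.inl (i, a))) v →
      XEdge e Q (.inl u) (some (i, a)) (.inl v)
  | enter (u : V) (m : M) : XEdge e Q (.inl u) none (.inr (u, ⟨m, (Q m).source⟩))
  | inside (u : V) (m : M) {w w' : (Q m).V} {l : Option (ι × α)} : (Q m).edge w l w' →
      XEdge e Q (.inr (u, ⟨m, w⟩)) l (.inr (u, ⟨m, w'⟩))
  | leave {u v : V} {m : M} : e u (some (.inr m)) v →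
      XEdge e Q (.inr (u, ⟨m, (Q m).target⟩)) none (.inl v)

/-- Conditions are replaced by programs. -/
def expand [Fintype V] [Fintype M] (e : V → Option ((ι × α) ⊕ M) → V → Prop)
    (Q : M → LetterNBP ι α) (src tgt : V) : LetterNBP ι α where
  V := V ⊕ (V × Σ m : M, (Q m).V)
  fin := inferInstance
  edge := XEdge e Q
  source := .inl src
  target := .inl tgt

section

variable [Fintype V] [Fintype M] (e : V → Option ((ι × α) ⊕ M) → V → Prop)
  (Q : M → LetterNBP ι α) (src tgt : V) (x : ι → α)

theorem expand_card {B : ℕ} (hB : ∀ m, Fintype.card (Q m).V ≤ B) :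
    Fintype.card (expand e Q src tgt).V ≤ Fintype.card V * (1 + Fintype.card M * B) := by
  change Fintype.card (V ⊕ (V × Σ m : M, (Q m).V)) ≤ _
  rw [Fintype.card_sum, Fintype.card_prod, Fintype.card_sigma, mul_add, mul_one]
  gcongr
  calc ∑ m : M, Fintype.card (Q m).V ≤ ∑ _m : M, B := Finset.sum_le_sum fun m _ => hB m
    _ = Fintype.card M * B := by rw [Finset.sum_const, Finset.card_univ, smul_eq_mul]

/-- The graph of the usable edges. -/
def Usable (u v : V) : Prop := ∃ l, e u l v ∧ Holds Q x l

theorem expand_inside {T₀ : ℕ} {a : (expand e Q src tgt).V} (u : V) (m : M) {T : ℕ} {w : (Q m).V}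
    (h : (Q m).Path x T (Q m).source w)
    (h₀ : (expand e Q src tgt).Path x T₀ a (.inr (u, ⟨m, (Q m).source⟩))) :
    ∃ T', (expand e Q src tgt).Path x T' a (.inr (u, ⟨m, w⟩)) := by
  generalize hs : (Q m).source = s at h
  induction h with
  | nil v =>
    subst hs
    exact ⟨T₀, h₀⟩
  | free hp he ih =>
    obtain ⟨T', hT'⟩ := ih hs
    exact ⟨T', .free hT' (XEdge.inside u m he)⟩
  | query i hp he ih =>
    obtain ⟨T', hT'⟩ := ih hs
    exact ⟨T' + 1, .query i hT' (XEdge.inside u m he)⟩

theorem expand_of_usable {v : V} (h : Relation.ReflTransGen (Usable e Q x) src v) :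
    ∃ T, (expand e Q src tgt).Path x T (.inl src) (.inl v) := by
  induction h with
  | refl => exact ⟨0, .nil _⟩
  | @tail u v _ he ih =>
    obtain ⟨T, hT⟩ := ih
    obtain ⟨l, he, hl⟩ := he
    rcases l with _ | ⟨i, a⟩ | m
    · exact ⟨T, .free hT (XEdge.free he)⟩
    · have hx : x i = a := hl
      subst hx
      exact ⟨T + 1, .query i hT (XEdge.letter he)⟩
    · obtain ⟨T', hT'⟩ := (show (Q m).Accepts x from hl)
      obtain ⟨T₂, h₂⟩ := expand_inside e Q src tgt x u m hT' (.free hT (XEdge.enter u m))
      exact ⟨T₂, .free h₂ (XEdge.leave he)⟩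

/-- The meaning of a vertex. -/
def XInv : (expand e Q src tgt).V → Prop
  | .inl v => Relation.ReflTransGen (Usable e Q x) src v
  | .inr (u, ⟨m, w⟩) => Relation.ReflTransGen (Usable e Q x) src u ∧
      ∃ T, (Q m).Path x T (Q m).source w

theorem expand_edge {a b : (expand e Q src tgt).V} {l : Option (ι × α)}
    (he : (expand e Q src tgt).edge a l b) (hl : ∀ i c, l = some (i, c) → x i = c)
    (ha : XInv e Q src tgt x a) : XInv e Q src tgt x b := by
  have he' : XEdge e Q a l b := he
  clear he
  cases he' with
  | free he => exact Relation.ReflTransGen.tail ha ⟨none, he, trivial⟩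
  | @letter u v i a he =>
    exact Relation.ReflTransGen.tail ha ⟨_, he, hl i a rfl⟩
  | enter u m => exact ⟨ha, 0, .nil _⟩
  | @inside u m w w' l he =>
    obtain ⟨hu, T, hT⟩ := ha
    refine ⟨hu, ?_⟩
    cases l with
    | none => exact ⟨T, .free hT he⟩
    | some p =>
      obtain ⟨i, c⟩ := p
      have hx := hl i c rfl
      subst hx
      exact ⟨T + 1, .query i hT he⟩
  | @leave u v m he =>
    obtain ⟨hu, T, hT⟩ := ha
    exact Relation.ReflTransGen.tail hu ⟨_, he, T, hT⟩

theorem expand_accepts : (expand e Q src tgt).Accepts x ↔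
    Relation.ReflTransGen (Usable e Q x) src tgt := by
  constructor
  · rintro ⟨T, hT⟩
    have key : ∀ {T : ℕ} {a : (expand e Q src tgt).V},
        (expand e Q src tgt).Path x T (expand e Q src tgt).source a →
          XInv e Q src tgt x a := by
      intro T a h
      generalize hs : (expand e Q src tgt).source = s at h
      induction h with
      | nil v =>
        subst hs
        exact Relation.ReflTransGen.refl
      | free hp he ih => exact expand_edge e Q src tgt x he (by simp) (ih hs)
      | query i hp he ih =>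
        refine expand_edge e Q src tgt x he (fun j c hjc => ?_) (ih hs)
        simp only [Option.some.injEq, Prod.mk.injEq] at hjc
        rw [← hjc.1]; exact hjc.2
    exact key hT
  · intro h
    exact expand_of_usable e Q src tgt x h

end

/-! ### Deterministic programs as nondeterministic ones -/

/-- The nondeterministic form of a deterministic program. -/
def LetterDBP.toN (B : LetterDBP ι α) : LetterNBP ι α where
  V := Option B.V
  fin := inferInstance
  edge u l v :=
    (∃ s i f a, u = some s ∧ B.node s = .query i f ∧ l = some (i, a) ∧ v = some (f a)) ∨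
    (∃ s, u = some s ∧ B.node s = .out true ∧ l = none ∧ v = none)
  source := some B.start
  target := none

theorem LetterDBP.toN_path {B : LetterDBP ι α} {x : ι → α} {T₀ : ℕ} {s : B.V}
    (h₀ : B.toN.Path x T₀ (some B.start) (some s)) {b : Bool} (h : B.Outputs x s b)
    (hb : b = true) : ∃ T, B.toN.Path x T (some B.start) none := by
  induction h generalizing T₀ with
  | @out v b hv =>
    subst hb
    exact ⟨T₀, .free h₀ (Or.inr ⟨v, rfl, hv, rfl, rfl⟩)⟩
  | @query v b i f hv _ ih =>
    exact ih (T₀ := T₀ + 1) (.query i h₀ (Or.inl ⟨v, i, f, x i, rfl, hv, rfl, rfl⟩)) hb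

theorem LetterDBP.toN_inv {B : LetterDBP ι α} {x : ι → α} {T : ℕ} {u₀ v : B.toN.V}
    (h : B.toN.Path x T u₀ v) (hs : (some B.start : Option B.V) = u₀) :
    (∀ s : B.V, v = some s → ∀ b, B.Outputs x s b → B.Outputs x B.start b) ∧
    (v = none → B.Outputs x B.start true) := by
  induction h with
  | nil u =>
    subst hs
    constructor
    · intro s hs b hb
      obtain rfl : B.start = s := Option.some.inj hs
      exact hb
    · intro h; cases h
  | free hp he ih =>
    obtain ⟨ih1, ih2⟩ := ih hs
    rcases he with ⟨s, i, f, a, h1, h2, h3, h4⟩ | ⟨s, h1, h2, h3, h4⟩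
    · cases h3
    · subst h4
      constructor
      · intro s hs; cases hs
      · intro _
        exact ih1 s h1 true (.out h2)
  | query i hp he ih =>
    obtain ⟨ih1, ih2⟩ := ih hs
    rcases he with ⟨s, j, f, a, h1, h2, h3, h4⟩ | ⟨s, h1, h2, h3, h4⟩
    · simp only [Option.some.injEq, Prod.mk.injEq] at h3
      obtain ⟨h5, h6⟩ := h3
      subst h5
      subst h6
      subst h4
      constructor
      · intro s' hs' b hb
        obtain rfl : f (x i) = s' := Option.some.inj hs'
        exact ih1 s h1 b (.query h2 hb)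
      · intro h; cases h
    · cases h3

theorem LetterDBP.outputs_unique {B : LetterDBP ι α} {x : ι → α} {s : B.V} {b b' : Bool}
    (h : B.Outputs x s b) (h' : B.Outputs x s b') : b = b' := by
  induction h with
  | @out v b hv =>
    cases h' with
    | out hv' => rw [hv] at hv'; exact DNode.out.inj hv'
    | query hv' _ => rw [hv] at hv'; cases hv'
  | @query v b i f hv _ ih =>
    cases h' with
    | out hv' => rw [hv] at hv'; cases hv'
    | query hv' h'' =>
      rw [hv] at hv'
      obtain ⟨h1, h2⟩ := DNode.query.inj hv'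
      subst h1
      subst h2
      exact ih h''

theorem LetterDBP.toN_accepts {B : LetterDBP ι α} {p : (ι → α) → Prop} (h : B.Decides p)
    (x : ι → α) : B.toN.Accepts x ↔ p x := by
  constructor
  · rintro ⟨T, hT⟩
    have h1 := (LetterDBP.toN_inv hT rfl).2 rfl
    rcases h x with ⟨h2, _⟩ | ⟨_, h3⟩
    · exact h2
    · exact absurd (LetterDBP.outputs_unique h1 h3) (by decide)
  · intro hp
    rcases h x with ⟨_, h2⟩ | ⟨h2, _⟩
    · exact LetterDBP.toN_path (.nil _) h2 rfl
    · exact absurd hp h2

theorem LetterDBP.toN_card (B : LetterDBP ι α) :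
    Fintype.card B.toN.V = Fintype.card B.V + 1 := by
  change Fintype.card (Option B.V) = _
  rw [Fintype.card_option]

end Pool.Agent.MP_6216ea_lc
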