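import Pool.Agent.Lib.MP_6216ea_lc.NDExc
import Pool.Agent.Lib.MP_6216ea_lc.NDSub

/-! The configurations with at most `h` stack symbols as a graph. -/

set_option autoImplicit false

namespace Pool.Agent.MP_6216ea_lc

namespace NPushProg

variable {ι α : Type} (P : NPushProg ι α) (h T r : ℕ)

/-- The low configurations. -/
abbrev Low : Type := {c : P.S × List P.Γ // c.2.length ≤ h}

/-- The conditions: the node of the first push, the guesses, the end. -/
abbrev Mac : Type := P.S × (Fin r → Bool) × Option P.S

/-- The edges. -/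
inductive TEdge : Option (P.Low h) → Option ((ι × α) ⊕ P.Mac r) → Option (P.Low h) → Prop
  | free {c c' : P.Low h} {k : Kind} : (∀ x, P.Step x c.1 k c'.1) → TEdge (some c) none (some c')
  | letter {c c' : P.Low h} {i : ι} {a : α} : (∀ x, x i = a → P.Step x c.1 .move c'.1) →
      TEdge (some c) (some (.inl (i, a))) (some c')
  | ret {c c' : P.Low h} {g₁ : P.Γ} {s₁ : P.S} (b : Fin r → Bool) :
      P.instr c.1.1 = .push g₁ s₁ → c.1.2.length = h → c'.1.2 = c.1.2 →
      TEdge (some c) (some (.inr (c.1.1, b, some c'.1.1))) (some c')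
  | accIn {c : P.Low h} {g₁ : P.Γ} {s₁ : P.S} (b : Fin r → Bool) :
      P.instr c.1.1 = .push g₁ s₁ → c.1.2.length = h →
      TEdge (some c) (some (.inr (c.1.1, b, none))) none
  | acc {c : P.Low h} : P.acc c.1.1 = true → TEdge (some c) none none

/-- The start. -/
def lowStart : Option (P.Low h) := some ⟨(P.start, []), Nat.zero_le _⟩

/-- The guesses as a function on all numbers. -/
def ext' {r : ℕ} (b : Fin r → Bool) (j : ℕ) : Bool := if hj : j < r then b ⟨j, hj⟩ else false

/-- The number of stack operations of a condition. -/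
def TT (T : ℕ) : Option P.S → ℕ
  | none => T
  | some _ => T + 1

/-- The programs `Q` decide the conditions. -/
def Good' (Q : P.Mac r → LetterNBP ι α) (x : ι → α) : Prop :=
  ∀ (s s₁ : P.S) (g₁ : P.Γ) (b : Fin r → Bool) (o : Option P.S), P.instr s = .push g₁ s₁ →
    ((Q (s, b, o)).Accepts x ↔ (P.exc r s₁ g₁ (ext' b) o).AcceptsOps x (P.TT T o))

variable {P h T r}
variable {Q : P.Mac r → LetterNBP ι α} {x : ι → α}

theorem top_sound (hQ : P.Good' T r Q x) {v : Option (P.Low h)}
    (hv : Relation.ReflTransGen (Usable (P.TEdge h r) Q x) (P.lowStart h) v) :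
    (∀ c, v = some c → P.Run x h T r 0 0 c.1) ∧ (v = none → P.Accepts h T r x) := by
  induction hv with
  | refl =>
    constructor
    · intro c hc
      have h1 := Option.some.inj hc
      rw [← h1]
      exact .start
    · intro h1; cases h1
  | @tail u v _ he ih =>
    obtain ⟨l, he, hl⟩ := he
    obtain ⟨ih, -⟩ := ih
    cases he with
    | @free c c' k hs =>
      constructor
      · intro c'' hc
        rw [← Option.some.inj hc]
        exact .low (ih c rfl) (hs x) c'.2
      · intro h1; cases h1
    | @letter c c' i a hs =>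
      constructor
      · intro c'' hc
        rw [← Option.some.inj hc]
        exact .low (ih c rfl) (hs x hl) c'.2
      · intro h1; cases h1
    | @ret c c' g₁ s₁ b hi hz hz' =>
      constructor
      · intro c'' hc
        rw [← Option.some.inj hc]
        have h1 : (Q (c.1.1, b, some c'.1.1)).Accepts x := hl
        obtain ⟨k, hk, v, y, hr, ha⟩ := (hQ _ _ _ b (some c'.1.1) hi).1 h1
        have h2 := exc_sound (s₀ := c.1.1) (z := c.1.2) (ih c rfl) hz hi hr
        have ha' : P.ea r (some c'.1.1) v = true := ha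
        rcases v with _ | _ | s | ⟨s, j⟩
        · cases ha'
        · cases ha'
        · have h3 : c'.1.1 = s := by simpa [ea] using ha'
          subst h3
          have h4 := h2.2 hk
          rw [← hz'] at h4
          exact h4
        · simp [ea] at ha'
      · intro h1; cases h1
    | @accIn c g₁ s₁ b hi hz =>
      constructor
      · intro c'' hc; cases hc
      · intro _
        have h1 : (Q (c.1.1, b, none)).Accepts x := hl
        obtain ⟨k, hk, v, y, hr, ha⟩ := (hQ _ _ _ b none hi).1 h1
        have h2 := exc_sound (s₀ := c.1.1) (z := c.1.2) (ih c rfl) hz hi hr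
        have ha' : P.ea r none v = true := ha
        rcases v with _ | _ | s | ⟨s, j⟩
        · cases ha'
        · cases ha'
        · simp [ea] at ha'
        · obtain ⟨w, hw, hy, hrun⟩ := h2
          exact ⟨k, j.val, _, hrun hk, ha'⟩
    | @acc c ha =>
      constructor
      · intro c'' hc; cases hc
      · intro _
        exact ⟨0, 0, c.1, ih c rfl, ha⟩

/-- The meaning of the high configurations. -/
def High (P : NPushProg ι α) (h T r : ℕ) (Q : P.Mac r → LetterNBP ι α) (x : ι → α) (t g : ℕ)
    (c : P.S × List P.Γ) : Prop :=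
  ∃ (c₀ : P.Low h) (s₁ : P.S) (g₁ : P.Γ) (w : List P.Γ) (e : ℕ → Bool),
    Relation.ReflTransGen (Usable (P.TEdge h r) Q x) (P.lowStart h) (some c₀) ∧
    c₀.1.2.length = h ∧ P.instr c₀.1.1 = .push g₁ s₁ ∧ w ≠ [] ∧ c.2 = w ++ c₀.1.2 ∧
    ∃ hg : g < r + 1, t ≤ T ∧ ∀ c' : ℕ → Bool, (∀ i < g, c' i = e i) → ∀ o,
      (P.exc r s₁ g₁ c' o).Reach x t (P.en r c.1 ⟨g, hg⟩) (P.mark w)

theorem step_low_edge {c c' : P.Low h} {k : Kind} (hs : P.Step x c.1 k c'.1) :
    Usable (P.TEdge h r) Q x (some c) (some c') := by
  obtain ⟨⟨s, z⟩, hc⟩ := c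
  obtain ⟨⟨s', z'⟩, hc'⟩ := c'
  have hs' : P.Step x (s, z) k (s', z') := hs
  cases hs' with
  | jump hi => exact ⟨none, .free (k := .move) fun _ => .jump hi, trivial⟩
  | @read _ i f _ hi =>
    refine ⟨some (.inl (i, x i)), .letter fun y hy => ?_, rfl⟩
    have h1 := NPushProg.Step.read (x := y) (z := z) hi
    rw [hy] at h1
    exact h1
  | guess b hi => exact ⟨none, .free (k := .guess) fun _ => .guess b hi, trivial⟩
  | push hi => exact ⟨none, .free (k := .op) fun _ => .push hi, trivial⟩
  | pop hi => exact ⟨none, .free (k := .op) fun _ => .pop hi, trivial⟩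

theorem agree_ext {g : ℕ} (hg : g < r + 1) (e : ℕ → Bool) :
    ∀ i < g, ext' (fun j : Fin r => e j.val) i = e i := by
  intro i hi
  unfold ext'
  rw [dif_pos (by omega)]

theorem top_complete (hQ : P.Good' T r Q x) {t g : ℕ} {c : P.S × List P.Γ}
    (hr : P.Run x h T r t g c) :
    (∀ hc : c.2.length ≤ h, Relation.ReflTransGen (Usable (P.TEdge h r) Q x) (P.lowStart h)
      (some ⟨c, hc⟩) ∧ t = 0 ∧ g = 0) ∧ (h < c.2.length → P.High h T r Q x t g c) := by
  induction hr with
  | start =>
    constructor
    · intro _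
      exact ⟨.refl, rfl, rfl⟩
    · intro h1
      exact absurd h1 (by simp)
  | @low t g c c' k hr hs hc' ih =>
    obtain ⟨ih1, ih2⟩ := ih
    refine ⟨fun _ => ⟨?_, rfl, rfl⟩, fun h1 => absurd h1 (by omega)⟩
    by_cases hc : c.2.length ≤ h
    · exact .tail (ih1 hc).1 (step_low_edge hs)
    · obtain ⟨c₀, s₁, g₁, w, e, h1, h2, h3, h4, h5, hg, ht, h6⟩ := ih2 (by omega)
      cases hs with
      | jump _ => exact absurd hc' (by simpa using hc)
      | read _ => exact absurd hc' (by simpa using hc)
      | guess _ _ => exact absurd hc' (by simpa using hc)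
      | push _ =>
        simp only [List.length_cons] at hc'
        exact absurd hc' (by simp only at hc; omega)
      | @pop s f g' z hi =>
        -- the relative stack has one symbol
        simp only at h5 hc' hc
        cases w with
        | nil => exact absurd rfl h4
        | cons a w =>
          rw [List.cons_append, List.cons.injEq] at h5
          obtain ⟨h7, h8⟩ := h5
          subst h7
          have hw : w = [] := by
            have h9 := congrArg List.length h8
            rw [List.length_append, h2] at h9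
            have : w.length = 0 := by omega
            exact List.length_eq_zero_iff.1 this
          subst hw
          rw [List.nil_append] at h8
          refine .tail h1 ⟨some (.inr (c₀.1.1, (fun j : Fin r => e j.val), some (f g'))),
            .ret (c := c₀) (c' := ⟨(f g', z), hc'⟩) _ h3 h2 h8, ?_⟩
          change (Q (c₀.1.1, (fun j : Fin r => e j.val), some (f g'))).Accepts x
          rw [hQ _ _ _ _ _ h3]
          refine ⟨t + 1, Nat.succ_le_succ ht, P.er r (f g'), [], ?_, ?_⟩
          · have h10 := h6 _ (agree_ext hg e) (some (f g'))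
            refine .op h10 (by rw [ei_pop hi]; rfl) ?_
            exact (P.exc r s₁ g₁ _ (some (f g'))).next_pop x (ei_pop hi _) (g', true) []
          · change P.ea r (some (f g')) (P.er r (f g')) = true
            simp [ea]
  | @move t g c c' hr hs hc' ih =>
    obtain ⟨ih1, ih2⟩ := ih
    refine ⟨fun h1 => absurd h1 (by omega), fun _ => ?_⟩
    cases hs with
    | @jump s s' z hi =>
      obtain ⟨c₀, s₁, g₁, w, e, h1, h2, h3, h4, h5, hg, ht, h6⟩ := ih2 hc'
      refine ⟨c₀, s₁, g₁, w, e, h1, h2, h3, h4, h5, hg, ht, fun c' hc' o => ?_⟩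
      refine .move (h6 c' hc' o) (by rw [ei_jump hi]; rfl) ?_
      exact (P.exc r s₁ g₁ c' o).next_jump x (ei_jump hi _) _
    | @read s i f z hi =>
      obtain ⟨c₀, s₁, g₁, w, e, h1, h2, h3, h4, h5, hg, ht, h6⟩ := ih2 hc'
      refine ⟨c₀, s₁, g₁, w, e, h1, h2, h3, h4, h5, hg, ht, fun c' hc' o => ?_⟩
      refine .move (h6 c' hc' o) (by rw [ei_read hi]; rfl) ?_
      exact (P.exc r s₁ g₁ c' o).next_read x (ei_read hi _) _
  | @guess t g c c' hr hs hc' hgr ih =>
    obtain ⟨ih1, ih2⟩ := ih
    refine ⟨fun h1 => absurd h1 (by omega), fun _ => ?_⟩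
    cases hs with
    | @guess s f z b hi =>
      obtain ⟨c₀, s₁, g₁, w, e, h1, h2, h3, h4, h5, hg, ht, h6⟩ := ih2 hc'
      refine ⟨c₀, s₁, g₁, w, Function.update e g b, h1, h2, h3, h4, h5, by omega, ht,
        fun c' hc' o => ?_⟩
      have hb : c' g = b := by rw [hc' g (by omega), Function.update_self]
      have h7 := h6 c' (fun i hi => by
        rw [hc' i (by omega), Function.update_of_ne (by omega)]) o
      have h8 := ei_guess (P := P) (r := r) (s₁ := s₁) (g₁ := g₁) (c := c') (o := o) hi
        (j := g) (by omega)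
      rw [hb] at h8
      exact .move h7 (by rw [h8]; rfl) ((P.exc r s₁ g₁ c' o).next_jump x h8 _)
  | @op t g c c' hr hs hc' htT ih =>
    obtain ⟨ih1, ih2⟩ := ih
    refine ⟨fun h1 => absurd h1 (by omega), fun _ => ?_⟩
    cases hs with
    | @push s s' g' z hi =>
      by_cases hz : z.length ≤ h
      · obtain ⟨h1, h2, h3⟩ := ih1 hz
        subst h2
        subst h3
        simp only [List.length_cons] at hc'
        refine ⟨⟨(s, z), hz⟩, s', g', [g'], fun _ => false, h1, by simp only; omega, hi, by simp,
          rfl, by omega, htT, fun c' _ o => ?_⟩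
        exact .op .start rfl ((P.exc r s' g' c' o).next_push x (s := none) (g := (g', true))
          (s' := P.en r s' 0) rfl [])
      · obtain ⟨c₀, s₁, g₁, w, e, h1, h2, h3, h4, h5, hg, ht, h6⟩ := ih2 (by simp only; omega)
        simp only at h5
        refine ⟨c₀, s₁, g₁, g' :: w, e, h1, h2, h3, by simp, by rw [h5]; rfl, hg, htT,
          fun c' hc' o => ?_⟩
        rw [mark_push h4]
        refine .op (h6 c' hc' o) (by rw [ei_push hi]; rfl) ?_
        exact (P.exc r s₁ g₁ c' o).next_push x (ei_push hi _) _
    | @pop s f g' z hi =>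
      obtain ⟨c₀, s₁, g₁, w, e, h1, h2, h3, h4, h5, hg, ht, h6⟩ := ih2 (by
        simp only [List.length_cons] at hc' ⊢; omega)
      simp only at h5 hc'
      cases w with
      | nil => exact absurd rfl h4
      | cons a w =>
        rw [List.cons_append, List.cons.injEq] at h5
        obtain ⟨h7, h8⟩ := h5
        subst h7
        have hw : w ≠ [] := by
          rintro rfl
          rw [List.nil_append] at h8
          rw [h8, h2] at hc'
          exact absurd hc' (lt_irrefl _)
        refine ⟨c₀, s₁, g₁, w, e, h1, h2, h3, hw, h8, hg, htT, fun c' hc' o => ?_⟩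
        have h9 := h6 c' hc' o
        rw [mark_push hw] at h9
        refine .op h9 (by rw [ei_pop hi]; rfl) ?_
        exact (P.exc r s₁ g₁ c' o).next_pop x (ei_pop hi _) (g', false) (P.mark w)

theorem top_iff (hQ : P.Good' T r Q x) :
    Relation.ReflTransGen (Usable (P.TEdge h r) Q x) (P.lowStart h) none ↔
      P.Accepts h T r x := by
  constructor
  · intro h1
    exact (top_sound hQ h1).2 rfl
  · rintro ⟨t, g, c, hr, ha⟩
    obtain ⟨h1, h2⟩ := top_complete hQ hr
    by_cases hc : c.2.length ≤ h
    · exact .tail (h1 hc).1 ⟨none, .acc (c := ⟨c, hc⟩) ha, trivial⟩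
    · obtain ⟨c₀, s₁, g₁, w, e, h3, h4, h5, h6, h7, hg, ht, h8⟩ := h2 (by omega)
      refine .tail h3 ⟨some (.inr (c₀.1.1, (fun j : Fin r => e j.val), none)),
        .accIn (c := c₀) _ h5 h4, ?_⟩
      change (Q (c₀.1.1, (fun j : Fin r => e j.val), none)).Accepts x
      rw [hQ _ _ _ _ _ h5]
      exact ⟨t, ht, _, _, h8 _ (agree_ext hg e) none, ha⟩

end NPushProg

end Pool.Agent.MP_6216ea_lc
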