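import Mathlib

/-!
# A hybrid argument for the conjunction of many copies of a function

The gates of a scheme have levels; the value of a gate is a monotone function of the input once
the values of the gates of smaller levels are fixed. The copies with small numbers are raised to
the top element one after the other. If the values of the gates change fewer than about `M / 3`
times on the way, then for some copy the scheme cannot notice that it is replaced by a rejected
input.
-/

set_option autoImplicit false

namespace Pool.Agent.MP_6216ea_lc.NL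

open Classical Finset

noncomputable section

/-! ### Values of a scheme of gates -/

section val

variable {I Z : Type}

/-- The value of the gate `i` depends only on the values of the gates of smaller level. -/
def Local (lev : I → ℕ) (F : I → (I → Prop) → Z → Prop) : Prop :=
  ∀ i β β' z, (∀ j, lev j < lev i → (β j ↔ β' j)) → (F i β z ↔ F i β' z)

/-- `β` is the family of the values of all gates on the input `z`. -/
def IsVal (F : I → (I → Prop) → Z → Prop) (z : Z) (β : I → Prop) : Prop := ∀ i, β i ↔ F i β z

theorem exists_val (lev : I → ℕ) (F : I → (I → Prop) → Z → Prop) (hF : Local lev F) (D : ℕ)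
    (hD : ∀ i, lev i < D) (z : Z) : ∃ β : I → Prop, IsVal F z β := by
  let v : ℕ → I → Prop := fun m => Nat.rec (fun _ => False) (fun _ β i => F i β z) m
  have hv : ∀ m i, v (m + 1) i ↔ F i (v m) z := fun m i => Iff.rfl
  have hst : ∀ m i, lev i < m → (v (m + 1) i ↔ v m i) := by
    intro m
    induction m with
    | zero => intro i hi; omega
    | succ m ih =>
      intro i hi
      rw [hv (m + 1) i, hv m i]
      exact hF i _ _ z (fun j hj => ih j (by omega))
  refine ⟨v D, fun i => ?_⟩
  rw [← hst D i (hD i)]

theorem val_unique (lev : I → ℕ) (F : I → (I → Prop) → Z → Prop) (hF : Local lev F) {z : Z}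
    {β β' : I → Prop} (h : IsVal F z β) (h' : IsVal F z β') (i : I) : β i ↔ β' i := by
  obtain ⟨m, hm⟩ : ∃ m, m = lev i := ⟨_, rfl⟩
  induction m using Nat.strong_induction_on generalizing i with
  | _ m ih =>
    rw [h i, h' i]
    exact hF i _ _ z (fun j hj => ih (lev j) (by omega) j rfl)

end val

/-! ### Changes along a chain -/

/-- A sequence of truth values that can fall only at the places in `W` rises at most once more
often than there are such places. -/
theorem card_rise_le (a : ℕ → Prop) (W : ℕ → Prop) (m : ℕ)
    (h : ∀ j < m, ¬ W j → a j → a (j + 1)) :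
    ((range m).filter (fun j => ¬ W j ∧ ¬ a j ∧ a (j + 1))).card ≤
      ((range m).filter W).card + (if a m then 1 else 0) := by
  induction m with
  | zero => simp
  | succ m ih =>
    have ih' := ih (fun j hj => h j (by omega))
    rw [range_add_one, filter_insert, filter_insert]
    by_cases hW : W m
    · rw [if_neg (by tauto), if_pos hW, card_insert_of_notMem (by simp)]
      split_ifs at ih' ⊢ <;> omega
    · rw [if_neg hW]
      by_cases ha : a m
      · have ha' := h m (by omega) hW ha
        rw [if_neg (by tauto), if_pos ha']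
        rw [if_pos ha] at ih'
        exact ih'
      · rw [if_neg ha] at ih'
        by_cases ha' : a (m + 1)
        · rw [if_pos ⟨hW, ha, ha'⟩, if_pos ha', card_insert_of_notMem (by simp)]
          omega
        · rw [if_neg (by tauto), if_neg ha']
          exact ih'

section chain

variable {I Z : Type} [Fintype I] [Preorder Z]

/-- Some gate of level less than `l` changes its value between `j` and `j + 1`. -/
def Chg (lev : I → ℕ) (val : Z → I → Prop) (zs : ℕ → Z) (l j : ℕ) : Prop :=
  ∃ i, lev i < l ∧ ¬ (val (zs j) i ↔ val (zs (j + 1)) i)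

/-- The number of changes up to level `l` is bounded by the numbers of gates of the levels. -/
theorem card_chg (lev : I → ℕ) (F : I → (I → Prop) → Z → Prop) (hF : Local lev F)
    (hmono : ∀ i β, Monotone (F i β)) (val : Z → I → Prop) (hval : ∀ z, IsVal F z (val z))
    (zs : ℕ → Z) (hzs : ∀ j, zs j ≤ zs (j + 1)) (m l : ℕ) :
    ((range m).filter (Chg lev val zs l)).card + 1 ≤
      ∏ k ∈ range l, (1 + ((univ : Finset I).filter (fun i => lev i = k)).card) := by
  induction l with
  | zero =>
    have : (range m).filter (Chg lev val zs 0) = ∅ := by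
      rw [filter_eq_empty_iff]
      rintro j _ ⟨i, hi, _⟩
      omega
    rw [this]
    simp
  | succ l ih =>
    rw [prod_range_succ]
    refine le_trans ?_ (Nat.mul_le_mul_right _ ih)
    have hgate : ∀ i, lev i = l → ((range m).filter (fun j => ¬ Chg lev val zs l j ∧
        ¬ val (zs j) i ∧ val (zs (j + 1)) i)).card ≤
        ((range m).filter (Chg lev val zs l)).card + 1 := by
      intro i hi
      have h1 := card_rise_le (fun j => val (zs j) i) (Chg lev val zs l) m (by
        intro j _ hW ha
        have h2 : ∀ i', lev i' < lev i → (val (zs j) i' ↔ val (zs (j + 1)) i') := by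
          intro i' hi'
          by_contra hcon
          exact hW ⟨i', by omega, hcon⟩
        rw [hval (zs (j + 1)) i]
        rw [hval (zs j) i, hF i _ _ _ h2] at ha
        exact hmono i _ (hzs j) ha)
      refine h1.trans ?_
      split_ifs <;> omega
    have hsub : (range m).filter (Chg lev val zs (l + 1)) ⊆
        (range m).filter (Chg lev val zs l) ∪
          ((univ : Finset I).filter (fun i => lev i = l)).biUnion (fun i =>
            (range m).filter (fun j => ¬ Chg lev val zs l j ∧
              ¬ val (zs j) i ∧ val (zs (j + 1)) i)) := by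
      intro j hj
      rw [mem_filter] at hj
      rw [mem_union, mem_filter, mem_biUnion]
      by_cases hW : Chg lev val zs l j
      · exact Or.inl ⟨hj.1, hW⟩
      · right
        obtain ⟨i, hi, hne⟩ := hj.2
        have hil : lev i = l := by
          by_contra hcon
          exact hW ⟨i, by omega, hne⟩
        refine ⟨i, by simp [hil], ?_⟩
        rw [mem_filter]
        refine ⟨hj.1, hW, ?_⟩
        have h2 : ∀ i', lev i' < lev i → (val (zs j) i' ↔ val (zs (j + 1)) i') := by
          intro i' hi'
          by_contra hcon
          exact hW ⟨i', by omega, hcon⟩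
        have h3 : val (zs j) i → val (zs (j + 1)) i := by
          intro ha
          rw [hval (zs (j + 1)) i]
          rw [hval (zs j) i, hF i _ _ _ h2] at ha
          exact hmono i _ (hzs j) ha
        tauto
    have h4 := (card_le_card hsub).trans (card_union_le _ _)
    have h5 : (((univ : Finset I).filter (fun i => lev i = l)).biUnion (fun i =>
            (range m).filter (fun j => ¬ Chg lev val zs l j ∧
              ¬ val (zs j) i ∧ val (zs (j + 1)) i))).card ≤
        ((univ : Finset I).filter (fun i => lev i = l)).card *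
          (((range m).filter (Chg lev val zs l)).card + 1) := by
      apply card_biUnion_le_card_mul
      intro i hi
      rw [mem_filter] at hi
      exact hgate i hi.2
    generalize ((univ : Finset I).filter (fun i => lev i = l)).card = t at *
    generalize ((range m).filter (Chg lev val zs l)).card = w at *
    have h6 : (w + 1) * (1 + t) = w + 1 + t * (w + 1) := by ring
    rw [h6]
    omega

end chain

/-! ### Hybrids -/

variable {X Y B : Type} {M : ℕ}

/-- The copies before `j` are raised to the top. -/
def z1 (tp : B) (mX : X → B) (j : ℕ) (xs : Fin M → X) : Fin M → B :=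
  fun i => if i.1 < j then tp else mX (xs i)

/-- The copies before `j` are raised to the top, the copy `j` is replaced by a rejected input. -/
def z0 (tp : B) (mX : X → B) (mY : Y → B) (j : Fin M) (xs : Fin M → X) (y : Y) : Fin M → B :=
  Function.update (z1 tp mX j xs) j (mY y)

theorem z1_update (tp : B) (mX : X → B) (j : Fin M) (xs : Fin M → X) (x : X) :
    z1 tp mX j (Function.update xs j x) = Function.update (z1 tp mX j xs) j (mX x) := by
  funext i
  by_cases hi : i = j
  · subst hi
    simp [z1]
  · simp [z1, Function.update_of_ne hi]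

theorem update_z1_update (tp : B) (mX : X → B) (j : Fin M) (xs : Fin M → X) (x : X) (b : B) :
    Function.update (z1 tp mX j (Function.update xs j x)) j b =
      Function.update (z1 tp mX j xs) j b := by
  rw [z1_update, Function.update_idem]

theorem z1_succ_update (tp : B) (mX : X → B) (j : Fin M) (xs : Fin M → X) (x : X) :
    z1 tp mX (j.1 + 1) (Function.update xs j x) = z1 tp mX (j.1 + 1) xs := by
  funext i
  by_cases hi : i = j
  · subst hi
    simp [z1]
  · simp [z1, Function.update_of_ne hi]

theorem z1_eq_update (tp : B) (mX : X → B) (j : Fin M) (xs : Fin M → X) :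
    z1 tp mX j xs = Function.update (z1 tp mX j xs) j (mX (xs j)) := by
  rw [← z1_update, Function.update_eq_self]

/-- Resampling one coordinate. -/
theorem sum_update [Fintype X] (j : Fin M) (f : (Fin M → X) → ℕ) :
    ∑ xs : Fin M → X, ∑ x : X, f (Function.update xs j x) =
      Fintype.card X * ∑ xs : Fin M → X, f xs := by
  have hinv : Function.Involutive
      (fun p : (Fin M → X) × X => (Function.update p.1 j p.2, p.1 j)) := by
    rintro ⟨xs, x⟩
    simp
  have h1 := Equiv.sum_comp hinv.toPerm (fun p : (Fin M → X) × X => f p.1)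
  rw [Fintype.sum_prod_type, Fintype.sum_prod_type] at h1
  simp only [Function.Involutive.coe_toPerm, sum_const, card_univ, smul_eq_mul] at h1
  rw [h1, mul_sum]

section order

variable [Preorder B]

theorem z1_le_succ (tp : B) (htp : ∀ b, b ≤ tp) (mX : X → B) (j : ℕ) (xs : Fin M → X) :
    z1 tp mX j xs ≤ z1 tp mX (j + 1) xs := by
  intro i
  simp only [z1]
  split_ifs with h1 h2
  · exact le_rfl
  · omega
  · exact htp _
  · exact le_rfl

theorem z0_le_succ (tp : B) (htp : ∀ b, b ≤ tp) (mX : X → B) (mY : Y → B) (j : Fin M)
    (xs : Fin M → X) (y : Y) : z0 tp mX mY j xs y ≤ z1 tp mX (j.1 + 1) xs := by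
  intro i
  by_cases hi : i = j
  · subst hi
    have : z1 tp mX (i.1 + 1) xs i = tp := by simp [z1]
    rw [this]
    exact htp _
  · unfold z0
    rw [Function.update_of_ne hi]
    exact z1_le_succ tp htp mX j.1 xs i

variable {I : Type} [Fintype I] [Fintype X] [Fintype Y]

/-- Some gate changes its value between `z1 j` and `z1 (j + 1)`. -/
def ChgA (tp : B) (mX : X → B) (val : (Fin M → B) → I → Prop) (j : ℕ) (xs : Fin M → X) : Prop :=
  ∃ i, ¬ (val (z1 tp mX j xs) i ↔ val (z1 tp mX (j + 1) xs) i)

/-- Some gate, with the values of the other gates after the step, is not constant in the copy `j`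
and accepts at most half of the accepted inputs. -/
def HardE (tp : B) (mX : X → B) (F : I → (I → Prop) → (Fin M → B) → Prop)
    (val : (Fin M → B) → I → Prop) (j : Fin M) (xs : Fin M → X) : Prop :=
  ∃ i, 2 * ((univ : Finset X).filter (fun x => F i (val (z1 tp mX (j.1 + 1) xs))
      (Function.update (z1 tp mX j xs) j (mX x)))).card ≤ Fintype.card X ∧
    ∃ x, F i (val (z1 tp mX (j.1 + 1) xs)) (Function.update (z1 tp mX j xs) j (mX x))

omit [Preorder B] [Fintype I] [Fintype Y] in
theorem hardE_update (tp : B) (mX : X → B) (F : I → (I → Prop) → (Fin M → B) → Prop)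
    (val : (Fin M → B) → I → Prop) (j : Fin M) (xs : Fin M → X) (x : X) :
    HardE tp mX F val j (Function.update xs j x) ↔ HardE tp mX F val j xs := by
  unfold HardE
  simp only [update_z1_update, z1_succ_update]

omit [Fintype I] [Fintype Y] in
theorem card_hardE_le [Nonempty X] (tp : B) (htp : ∀ b, b ≤ tp) (mX : X → B)
    (F : I → (I → Prop) → (Fin M → B) → Prop) (hmono : ∀ i β, Monotone (F i β))
    (val : (Fin M → B) → I → Prop) (hval : ∀ z, IsVal F z (val z)) (j : Fin M) :
    ((univ : Finset (Fin M → X)).filter (HardE tp mX F val j)).card ≤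
      2 * ((univ : Finset (Fin M → X)).filter (ChgA tp mX val j)).card := by
  have hX : 0 < Fintype.card X := Fintype.card_pos
  refine Nat.le_of_mul_le_mul_left (c := Fintype.card X) ?_ hX
  rw [← mul_assoc, mul_comm (Fintype.card X) 2, mul_assoc, card_filter, card_filter,
    ← sum_update j, ← sum_update j, mul_sum]
  apply sum_le_sum
  intro xs _
  simp only [hardE_update]
  rw [← card_filter, ← card_filter]
  by_cases hH : HardE tp mX F val j xs
  · obtain ⟨i, hi1, x0, hx0⟩ := hH
    have hsucc : F i (val (z1 tp mX (j.1 + 1) xs)) (z1 tp mX (j.1 + 1) xs) := by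
      refine hmono i _ ?_ hx0
      rw [← z1_update, ← z1_succ_update tp mX j xs x0]
      exact z1_le_succ tp htp mX j.1 _
    have h1 : (univ : Finset X).filter (fun x => ¬ F i (val (z1 tp mX (j.1 + 1) xs))
        (Function.update (z1 tp mX j xs) j (mX x))) ⊆
        (univ : Finset X).filter (fun x => ChgA tp mX val j (Function.update xs j x)) := by
      intro x hx
      rw [mem_filter] at hx ⊢
      refine ⟨mem_univ _, ?_⟩
      by_contra hcon
      unfold ChgA at hcon
      push Not at hcon
      apply hx.2
      rw [← z1_update]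
      have e : val (z1 tp mX j (Function.update xs j x)) = val (z1 tp mX (j.1 + 1) xs) := by
        funext i'
        apply propext
        have := hcon i'
        rw [z1_succ_update] at this
        exact this
      rw [← e, ← hval, e, hval]
      exact hsucc
    have h2 := card_le_card h1
    have h3 := card_filter_add_card_filter_not (s := (univ : Finset X))
      (fun x => F i (val (z1 tp mX (j.1 + 1) xs)) (Function.update (z1 tp mX j xs) j (mX x)))
    rw [card_univ] at h3
    have h4 : ((univ : Finset X).filter (fun _ => HardE tp mX F val j xs)).card ≤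
        Fintype.card X := (card_filter_le _ _).trans (by rw [card_univ])
    omega
  · simp [hH]

/-- The number of samples for which the replacement of copy `j` is noticed. -/
def badJ (tp : B) (mX : X → B) (mY : Y → B) (val : (Fin M → B) → I → Prop) (j : Fin M) : ℕ :=
  ∑ xs : Fin M → X, ((univ : Finset Y).filter
    (fun y => ∃ i, ¬ (val (z1 tp mX j xs) i ↔ val (z0 tp mX mY j xs y) i))).card

omit [Fintype X] [Fintype Y] in
theorem bad_cases (lev : I → ℕ) (tp : B) (htp : ∀ b, b ≤ tp) (mX : X → B) (mY : Y → B)
    (F : I → (I → Prop) → (Fin M → B) → Prop) (hF : Local lev F)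
    (hmono : ∀ i β, Monotone (F i β)) (val : (Fin M → B) → I → Prop)
    (hval : ∀ z, IsVal F z (val z)) (j : Fin M) (xs : Fin M → X) (y : Y)
    (hchg : ¬ ChgA tp mX val j xs)
    (hbad : ∃ i, ¬ (val (z1 tp mX j xs) i ↔ val (z0 tp mX mY j xs y) i)) :
    ∃ i, F i (val (z1 tp mX (j.1 + 1) xs)) (z1 tp mX j xs) ∧
      ¬ F i (val (z1 tp mX (j.1 + 1) xs)) (z0 tp mX mY j xs y) := by
  have hne : ((univ : Finset I).filter
      (fun i => ¬ (val (z1 tp mX j xs) i ↔ val (z0 tp mX mY j xs y) i))).Nonempty := by
    obtain ⟨i, hi⟩ := hbad
    exact ⟨i, by simp [hi]⟩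
  obtain ⟨i, hi, hmin⟩ := exists_min_image _ lev hne
  rw [mem_filter] at hi
  unfold ChgA at hchg
  push Not at hchg
  have e : val (z1 tp mX j xs) = val (z1 tp mX (j.1 + 1) xs) := by
    funext i'
    exact propext (hchg i')
  have hlow : ∀ i', lev i' < lev i → (val (z0 tp mX mY j xs y) i' ↔
      val (z1 tp mX (j.1 + 1) xs) i') := by
    intro i' hi'
    rw [← e]
    by_contra hcon
    have := hmin i' (by
      rw [mem_filter]
      exact ⟨mem_univ _, fun h => hcon h.symm⟩)
    omega
  have h1 : val (z1 tp mX j xs) i ↔ F i (val (z1 tp mX (j.1 + 1) xs)) (z1 tp mX j xs) := by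
    rw [hval (z1 tp mX j xs) i, e]
  have h0 : val (z0 tp mX mY j xs y) i ↔
      F i (val (z1 tp mX (j.1 + 1) xs)) (z0 tp mX mY j xs y) := by
    rw [hval (z0 tp mX mY j xs y) i]
    exact hF i _ _ _ hlow
  refine ⟨i, ?_⟩
  by_contra hcon
  have h2 : F i (val (z1 tp mX (j.1 + 1) xs)) (z0 tp mX mY j xs y) ∧
      ¬ F i (val (z1 tp mX (j.1 + 1) xs)) (z1 tp mX j xs) := by
    have := hi.2
    rw [h1, h0] at this
    tauto
  apply h2.2
  rw [← h1, hchg i, hval]
  exact hmono i _ (z0_le_succ tp htp mX mY j xs y) h2.1

theorem badJ_le [Nonempty X] (lev : I → ℕ) (tp : B) (htp : ∀ b, b ≤ tp) (mX : X → B) (mY : Y → B)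
    (F : I → (I → Prop) → (Fin M → B) → Prop) (hF : Local lev F)
    (hmono : ∀ i β, Monotone (F i β)) (val : (Fin M → B) → I → Prop)
    (hval : ∀ z, IsVal F z (val z)) (K : ℕ) (j : Fin M)
    (hd : ∀ (i : I) (β : I → Prop) (o : Fin M → B),
      K * ((univ : Finset Y).filter (fun y => ¬ F i β (Function.update o j (mY y)))).card ≤
        Fintype.card Y ∨
      2 * ((univ : Finset X).filter (fun x => F i β (Function.update o j (mX x)))).card ≤
        Fintype.card X) :
    K * badJ tp mX mY val j ≤
      3 * (K * Fintype.card Y) * ((univ : Finset (Fin M → X)).filter (ChgA tp mX val j)).card +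
      Fintype.card I * (Fintype.card (Fin M → X) * Fintype.card Y) := by
  have hpt : ∀ xs : Fin M → X, K * ((univ : Finset Y).filter
      (fun y => ∃ i, ¬ (val (z1 tp mX j xs) i ↔ val (z0 tp mX mY j xs y) i))).card ≤
      K * Fintype.card Y * (if ChgA tp mX val j xs then 1 else 0)
      + K * Fintype.card Y * (if HardE tp mX F val j xs then 1 else 0)
      + Fintype.card I * Fintype.card Y := by
    intro xs
    have htriv : K * ((univ : Finset Y).filter
        (fun y => ∃ i, ¬ (val (z1 tp mX j xs) i ↔ val (z0 tp mX mY j xs y) i))).card ≤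
        K * Fintype.card Y := by
      apply Nat.mul_le_mul_left
      exact (card_filter_le _ _).trans (by rw [card_univ])
    by_cases hc : ChgA tp mX val j xs
    · rw [if_pos hc]
      omega
    by_cases hH : HardE tp mX F val j xs
    · rw [if_pos hH]
      omega
    rw [if_neg hc, if_neg hH, mul_zero, zero_add, zero_add]
    have hsub : (univ : Finset Y).filter
        (fun y => ∃ i, ¬ (val (z1 tp mX j xs) i ↔ val (z0 tp mX mY j xs y) i)) ⊆
        (univ : Finset I).biUnion (fun i => (univ : Finset Y).filter (fun y =>
          F i (val (z1 tp mX (j.1 + 1) xs)) (z1 tp mX j xs) ∧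
          ¬ F i (val (z1 tp mX (j.1 + 1) xs)) (z0 tp mX mY j xs y))) := by
      intro y hy
      rw [mem_filter] at hy
      obtain ⟨i, hi⟩ := bad_cases lev tp htp mX mY F hF hmono val hval j xs y hc hy.2
      rw [mem_biUnion]
      exact ⟨i, mem_univ _, by rw [mem_filter]; exact ⟨mem_univ _, hi⟩⟩
    calc K * ((univ : Finset Y).filter
        (fun y => ∃ i, ¬ (val (z1 tp mX j xs) i ↔ val (z0 tp mX mY j xs y) i))).card
        ≤ K * ∑ i : I, ((univ : Finset Y).filter (fun y =>
          F i (val (z1 tp mX (j.1 + 1) xs)) (z1 tp mX j xs) ∧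
          ¬ F i (val (z1 tp mX (j.1 + 1) xs)) (z0 tp mX mY j xs y))).card :=
          Nat.mul_le_mul_left _ ((card_le_card hsub).trans card_biUnion_le)
      _ = ∑ i : I, K * ((univ : Finset Y).filter (fun y =>
          F i (val (z1 tp mX (j.1 + 1) xs)) (z1 tp mX j xs) ∧
          ¬ F i (val (z1 tp mX (j.1 + 1) xs)) (z0 tp mX mY j xs y))).card := mul_sum _ _ _
      _ ≤ ∑ _i : I, Fintype.card Y := by
          apply sum_le_sum
          intro i _
          by_cases hfi : F i (val (z1 tp mX (j.1 + 1) xs)) (z1 tp mX j xs)
          · simp only [hfi, true_and]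
            refine (hd i (val (z1 tp mX (j.1 + 1) xs)) (z1 tp mX j xs)).resolve_right ?_
            intro h2
            apply hH
            refine ⟨i, h2, xs j, ?_⟩
            rw [← z1_eq_update]
            exact hfi
          · simp [hfi]
      _ = Fintype.card I * Fintype.card Y := by simp
  have hsum := sum_le_sum (s := univ) (fun xs _ => hpt xs)
  rw [← mul_sum, sum_add_distrib, sum_add_distrib, sum_const, card_univ, smul_eq_mul,
    ← mul_sum, ← mul_sum, ← card_filter, ← card_filter] at hsum
  have hh := card_hardE_le tp htp mX F hmono val hval j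
  refine hsum.trans ?_
  have h2 := Nat.mul_le_mul_left (K * Fintype.card Y) hh
  generalize ((univ : Finset (Fin M → X)).filter (ChgA tp mX val j)).card = c at *
  generalize ((univ : Finset (Fin M → X)).filter (HardE tp mX F val j)).card = c' at *
  have e1 : 3 * (K * Fintype.card Y) * c = K * Fintype.card Y * c + K * Fintype.card Y * (2 * c) := by
    ring
  have e2 : Fintype.card (Fin M → X) * (Fintype.card I * Fintype.card Y) =
      Fintype.card I * (Fintype.card (Fin M → X) * Fintype.card Y) := by ring
  rw [e1, e2]
  exact Nat.add_le_add_right (Nat.add_le_add_left h2 _) _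

/-- **The hybrid lemma.** -/
theorem hybrid [Nonempty X] [Nonempty Y] (lev : I → ℕ) (tp : B) (htp : ∀ b, b ≤ tp) (mX : X → B)
    (mY : Y → B) (F : I → (I → Prop) → (Fin M → B) → Prop) (hF : Local lev F)
    (hmono : ∀ i β, Monotone (F i β)) (val : (Fin M → B) → I → Prop)
    (hval : ∀ z, IsVal F z (val z)) (K D : ℕ) (hD : ∀ i, lev i < D)
    (hK : Fintype.card I * M ≤ K)
    (hM : 3 * (∏ k ∈ range D, (1 + ((univ : Finset I).filter (fun i => lev i = k)).card)) ≤ M + 1)
    (hd : ∀ (i : I) (β : I → Prop) (j : Fin M) (o : Fin M → B),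
      K * ((univ : Finset Y).filter (fun y => ¬ F i β (Function.update o j (mY y)))).card ≤
        Fintype.card Y ∨
      2 * ((univ : Finset X).filter (fun x => F i β (Function.update o j (mX x)))).card ≤
        Fintype.card X) :
    ∃ (j : Fin M) (xs : Fin M → X) (y : Y),
      ∀ i, (val (z1 tp mX j xs) i ↔ val (z0 tp mX mY j xs y) i) := by
  by_contra hcon
  push Not at hcon
  have hN : 0 < Fintype.card (Fin M → X) * Fintype.card Y := Nat.mul_pos Fintype.card_pos
    Fintype.card_pos
  obtain ⟨p, hp⟩ : ∃ p, p = ∏ k ∈ range D,
    (1 + ((univ : Finset I).filter (fun i => lev i = k)).card) := ⟨_, rfl⟩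
  rw [← hp] at hM
  have hp1 : 1 ≤ p := by
    rw [hp]
    exact Nat.one_le_iff_ne_zero.2 (prod_ne_zero_iff.2 fun k _ => by omega)
  -- everything is noticed
  have hall : ∀ j ∈ (univ : Finset (Fin M)),
      Fintype.card (Fin M → X) * Fintype.card Y ≤ badJ tp mX mY val j := by
    intro j _
    unfold badJ
    have h1 : ∀ xs ∈ (univ : Finset (Fin M → X)), Fintype.card Y ≤ ((univ : Finset Y).filter
        (fun y => ∃ i, ¬ (val (z1 tp mX j xs) i ↔ val (z0 tp mX mY j xs y) i))).card := by
      intro xs _
      rw [← card_univ]
      apply card_le_card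
      intro y _
      rw [mem_filter]
      refine ⟨mem_univ _, ?_⟩
      obtain ⟨i, hi⟩ := hcon j xs y
      exact ⟨i, by tauto⟩
    have := card_nsmul_le_sum _ _ _ h1
    simpa using this
  have h2 := card_nsmul_le_sum _ _ _ hall
  rw [card_univ, Fintype.card_fin, smul_eq_mul] at h2
  have hK1 : M ≤ K * M := by
    rcases Nat.eq_zero_or_pos K with h0 | h0
    · rw [h0, Nat.le_zero] at hK
      rcases Nat.mul_eq_zero.1 hK with h3 | h3
      · exfalso
        have : IsEmpty I := Fintype.card_eq_zero_iff.1 h3
        have hMpos : 0 < M := by omega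
        obtain ⟨x⟩ := ‹Nonempty X›
        obtain ⟨y⟩ := ‹Nonempty Y›
        obtain ⟨i, _⟩ := hcon ⟨0, hMpos⟩ (fun _ => x) y
        exact this.false i
      · omega
    · exact Nat.le_mul_of_pos_left M h0
  -- the number of changes
  have hchg : ∑ j : Fin M, ((univ : Finset (Fin M → X)).filter (ChgA tp mX val j)).card ≤
      Fintype.card (Fin M → X) * (p - 1) := by
    have h3 : ∑ j : Fin M, ((univ : Finset (Fin M → X)).filter (ChgA tp mX val j)).card =
        ∑ xs : Fin M → X, ((range M).filter (fun j => ChgA tp mX val j xs)).card := by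
      rw [Fin.sum_univ_eq_sum_range
        (fun j => ((univ : Finset (Fin M → X)).filter (ChgA tp mX val j)).card)]
      simp only [card_filter]
      rw [sum_comm]
    rw [h3]
    have h4 : ∀ xs ∈ (univ : Finset (Fin M → X)),
        ((range M).filter (fun j => ChgA tp mX val j xs)).card ≤ p - 1 := by
      intro xs _
      have h5 := card_chg lev F hF hmono val hval (fun j => z1 tp mX j xs)
        (fun j => z1_le_succ tp htp mX j xs) M D
      rw [← hp] at h5
      have h6 : (range M).filter (fun j => ChgA tp mX val j xs) =
          (range M).filter (Chg lev val (fun j => z1 tp mX j xs) D) := by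
        apply filter_congr
        intro j _
        unfold ChgA Chg
        constructor
        · rintro ⟨i, hi⟩
          exact ⟨i, hD i, hi⟩
        · rintro ⟨i, _, hi⟩
          exact ⟨i, hi⟩
      rw [h6]
      omega
    refine (sum_le_card_nsmul _ _ _ h4).trans ?_
    simp
  have h7 : K * ∑ j : Fin M, badJ tp mX mY val j ≤
      3 * (K * Fintype.card Y) * (Fintype.card (Fin M → X) * (p - 1)) +
      K * (Fintype.card (Fin M → X) * Fintype.card Y) := by
    rw [mul_sum]
    refine (sum_le_sum fun j _ => badJ_le lev tp htp mX mY F hF hmono val hval K j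
      (fun i β o => hd i β j o)).trans ?_
    rw [sum_add_distrib, ← mul_sum, sum_const, card_univ, Fintype.card_fin, smul_eq_mul]
    apply Nat.add_le_add
    · exact Nat.mul_le_mul_left _ hchg
    · rw [← mul_assoc, mul_comm M]
      exact Nat.mul_le_mul_right _ hK
  rcases Nat.eq_zero_or_pos K with h0 | h0
  · rw [h0] at hK1
    have hM0 : M = 0 := by omega
    omega
  · have h8 : ∑ j : Fin M, badJ tp mX mY val j ≤
        (3 * (p - 1) + 1) * (Fintype.card (Fin M → X) * Fintype.card Y) := by
      refine Nat.le_of_mul_le_mul_left (c := K) ?_ h0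
      refine h7.trans (le_of_eq ?_)
      ring
    have h9 := h2.trans h8
    have h10 := Nat.le_of_mul_le_mul_right h9 hN
    omega

end order

end

end Pool.Agent.MP_6216ea_lc.NL
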