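import Mathlib
import Pool.Agent.Lib.MP_6216ea_lc.Bound

/-!
# A small network rejects almost no maxterm or accepts at most half of the minterms
-/

set_option autoImplicit false

namespace Pool.Agent.MP_6216ea_lc.NL

open Classical Finset
open Pool.Agent.MP_6216ea_lc

noncomputable section

variable {h k : ℕ} {V : Type}

/-- Extension of an assignment of states to the nodes of the tree. -/
def extX (x : Nd h → Fin k) : List Bool → Fin k := fun v =>
  if hv : v ∈ nodes h then x ⟨v, hv⟩ else x ⟨[], by simp [mem_nodes]⟩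

/-- The invariant along a computation on a minterm. -/
theorem reach_inv [Fintype V] {E : V → Option (Var k) → V → Prop} {s : V} {c d r : ℕ} {δ : ℝ}
    {D : Finset (V × Finset (Pos h k) × List Bool)} (hD : Approx E s d r δ D)
    (hh : 2 * c ≤ h) (hc1 : 1 ≤ c) (hd : 2 ≤ d) (hdc : 2 * d - 2 < c)
    {x : Nd h → Fin k} (hx : x ∉ badX D d) (u : V) (hu : Reach E (minX (extX x)) s u) :
    ∃ A : Finset (Pos h k), (∀ p ∈ A, x p.1 = p.2) ∧
      A.card + 2 ≤ d ∧ crit c < wt h (QQ h D u A) := by
  induction hu with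
  | refl =>
    refine ⟨∅, by simp, by simpa using hd, ?_⟩
    have : wt h (QQ h D s ∅) = 2 ^ h := by
      rw [← card_lv h]
      unfold wt
      congr 1
      rw [filter_eq_self]
      intro w hw
      rw [mem_lv] at hw
      have hwe : w ∈ edges h := mem_edges.2 ⟨by
        rintro rfl
        simp only [List.length_nil] at hw
        omega, hw.le⟩
      exact mem_QQ.2 ⟨hwe, hD.start w hwe⟩
    rw [this]
    refine (crit_lt c).trans_le ?_
    have : (4 : ℕ) ^ c = 2 ^ (2 * c) := by rw [pow_mul]; norm_num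
    rw [this]
    exact Nat.pow_le_pow_right (by norm_num) hh
  | @tail u u' _ hstep ih =>
    obtain ⟨A, hAx, hAd, hAc⟩ := ih
    obtain ⟨A1, hA1x, hA1d, hA1c⟩ : ∃ A1 : Finset (Pos h k), (∀ p ∈ A1, x p.1 = p.2) ∧
        A1.card ≤ d ∧ wt h (QQ h D u A) ≤ wt h (QQ h D u' A1) + 1 := by
      obtain ⟨l, hl, hlX⟩ := hstep
      cases l with
      | none =>
        refine ⟨A, hAx, by omega, ?_⟩
        refine (wt_mono ?_).trans (Nat.le_succ _)
        intro w hw
        refine mem_QQ.2 ⟨(mem_QQ.1 hw).1, hD.free u u' A w (mem_QQ.1 hw).2 ?_⟩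
        intro y
        exact ⟨none, hl, by simp⟩
      | some i =>
        obtain ⟨v, b, a, a'⟩ := i
        have hX := hlX _ rfl
        by_cases hvl : v.length < h
        · have hv : v ∈ nodes h := mem_nodes.2 hvl.le
          have hbv : (b :: v) ∈ nodes h := mem_nodes.2 (by simpa using hvl)
          have hX1 : x ⟨v, hv⟩ = a := by
            have := hX.1
            simpa [extX, hv] using this
          have hX2 : x ⟨b :: v, hbv⟩ = a' := by
            have := hX.2
            simpa [extX, hbv] using this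
          have hcard : (A ∪ {((⟨v, hv⟩ : Nd h), a), (⟨b :: v, hbv⟩, a')}).card ≤ d := by
            have h1 := card_union_le A ({((⟨v, hv⟩ : Nd h), a), (⟨b :: v, hbv⟩, a')})
            have h2 : ({((⟨v, hv⟩ : Nd h), a), (⟨b :: v, hbv⟩, a')} :
              Finset (Pos h k)).card ≤ 2 := card_le_two
            omega
          refine ⟨A ∪ {((⟨v, hv⟩ : Nd h), a), (⟨b :: v, hbv⟩, a')}, ?_, hcard, ?_⟩
          · intro p hp
            rw [mem_union, mem_insert, mem_singleton] at hp
            rcases hp with hp | rfl | rfl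
            · exact hAx p hp
            · exact hX1
            · exact hX2
          · apply wt_sdiff_le h _ _ (b :: v)
            intro w hw hwne
            refine mem_QQ.2 ⟨(mem_QQ.1 hw).1, ?_⟩
            exact hD.step u u' A w v b a a' hv hbv (mem_QQ.1 hw).2 hl hwne hcard
        · refine ⟨A, hAx, by omega, ?_⟩
          refine (wt_mono ?_).trans (Nat.le_succ _)
          intro w hw
          refine mem_QQ.2 ⟨(mem_QQ.1 hw).1, hD.free u u' A w (mem_QQ.1 hw).2 ?_⟩
          intro y
          refine ⟨_, hl, ?_⟩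
          intro i hi
          simp only [Option.mem_def, Option.some.injEq] at hi
          subst hi
          rintro ⟨h1, _⟩
          simp only at h1
          unfold eff at h1
          by_cases hvh : v.length = h
          · rw [if_pos hvh] at h1; simp at h1
          · rw [if_neg hvh, if_neg (by
              rintro ⟨rfl, _⟩
              simp only [List.length_nil] at hvl hvh
              omega)] at h1
            have hvn : v ∉ nodes h := by rw [mem_nodes]; omega
            simp [extY, hvn] at h1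
    obtain ⟨A2, hA2, hA2d, hA2c⟩ := exists_shrink hd hx u' A1 hA1d hA1x
    refine ⟨A2, fun p hp => hA1x p (hA2 hp), hA2d, ?_⟩
    have h3 : wt h (QQ h D u A) ≤ wt h (QQ h D u' A2) + 1 :=
      hA1c.trans (Nat.add_le_add_right (wt_mono hA2c) 1)
    have h4 : wt h (QQ h D u' A2) ≠ crit c := by
      intro he
      have h5 := (hD.saturated u' A2).wt_SW
      rw [he] at h5
      have h6 := h5.crit_le
      have h7 : (A2.image (fun p => (p.1.1 : List Bool))).card ≤ A2.card := card_image_le
      omega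
    omega

/-- The number of irreducible sets of size `j`. -/
theorem card_Irr_le' [Fintype V] {E : V → Option (Var k) → V → Prop} {s : V} {d r : ℕ} {δ : ℝ}
    {D : Finset (V × Finset (Pos h k) × List Bool)} (hD : Approx E s d r δ D) (hr : 2 ≤ r)
    (u : V) (j : ℕ) (hj : j ≤ d) :
    (Irr D u j).card ≤ (j * r) ^ j * (2 ^ (h + 1) + 1) ^ (2 * (j + 1)) := by
  have h1 : (Irr D u j).card ≤ (j * r) ^ j *
      ((nodes h).powerset.filter (fun S => S.card ≤ 2 * (j + 1))).card := by
    apply Finset.card_le_mul_card_image_of_maps_to (f := fun A => bd h (QQ h D u A))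
    · intro A hA
      simp only [Irr, mem_filter, mem_univ, true_and] at hA
      simp only [mem_filter, mem_powerset]
      refine ⟨filter_subset _ _, ?_⟩
      refine (hD.saturated u A).card_bd.trans ?_
      have : (A.image (fun p => (p.1.1 : List Bool))).card ≤ A.card := card_image_le
      omega
    · intro b _
      apply card_le_of_no_sunflower r j (by omega)
      · intro A hA
        simp only [Irr, mem_filter, mem_univ, true_and] at hA
        exact hA.1.1
      · rintro ⟨K, S, hS, hSr, hK, hdisj⟩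
        have hmem : ∀ A ∈ S, A.card = j ∧ (∀ K, K ⊂ A → ¬ QQ h D u A ⊆ QQ h D u K) ∧
            bd h (QQ h D u A) = b := by
          intro A hA
          have := hS hA
          simp only [Irr, mem_filter, mem_univ, true_and] at this
          exact ⟨this.1.1, this.1.2, this.2⟩
        obtain ⟨A, hA, B, hB, hAB⟩ := one_lt_card.1 (show 1 < S.card by omega)
        have hKA : K ⊂ A := by
          refine ⟨hK A hA, fun hAK => hAB ?_⟩
          exact eq_of_subset_of_card_le (hAK.trans (hK B hB)) (by rw [(hmem A hA).1, (hmem B hB).1])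
        apply (hmem A hA).2.1 K hKA
        intro w hw
        have hwe := (mem_QQ.1 hw).1
        refine mem_QQ.2 ⟨hwe, hD.core u K w S hwe ?_ hSr hK hdisj ?_⟩
        · have := card_le_card (hK A hA)
          rw [(hmem A hA).1] at this
          omega
        · intro A' hA'
          have hQ : QQ h D u A' = QQ h D u A := by
            apply bd_injective (h := h)
            · intro w hw; exact mem_edges.1 (mem_QQ.1 hw).1
            · intro w hw; exact mem_edges.1 (mem_QQ.1 hw).1
            · rw [(hmem A' hA').2.2, (hmem A hA).2.2]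
          rw [← hQ] at hw
          exact (mem_QQ.1 hw).2
  refine h1.trans (Nat.mul_le_mul_left _ ?_)
  refine (card_small_subsets_le (nodes h) _).trans ?_
  apply Nat.pow_le_pow_left
  have := card_nodes_le h
  omega

/-- A simplified count of the irreducible sets. -/
theorem card_Irr_le_pow [Fintype V] {E : V → Option (Var k) → V → Prop} {s : V} {d r : ℕ} {δ : ℝ}
    {D : Finset (V × Finset (Pos h k) × List Bool)} (hD : Approx E s d r δ D) (hr : 2 ≤ r)
    (u : V) (j : ℕ) (hj1 : 1 ≤ j) (hj : j ≤ d) :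
    (Irr D u j).card ≤ ((d * r) * (2 ^ (h + 1) + 1) ^ 4) ^ j := by
  refine (card_Irr_le' hD hr u j hj).trans ?_
  rw [mul_pow (d * r), ← pow_mul (2 ^ (h + 1) + 1)]
  apply Nat.mul_le_mul
  · exact Nat.pow_le_pow_left (Nat.mul_le_mul_right _ hj) _
  · exact Nat.pow_le_pow_right (Nat.succ_pos _) (by omega)

/-- The minterms accepted by a network that has no fact with empty set at its target. -/
theorem accepted_subset [Fintype V] {E : V → Option (Var k) → V → Prop} {s t : V} {c d r : ℕ}
    {δ : ℝ} {D : Finset (V × Finset (Pos h k) × List Bool)} (hD : Approx E s d r δ D)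
    (hh : 2 * c ≤ h) (hc1 : 1 ≤ c) (hd : 2 ≤ d) (hdc : 2 * d - 2 < c)
    (hemp : QQ h D t ∅ = ∅) :
    (univ : Finset (Nd h → Fin k)).filter (fun x => Reach E (minX (extX x)) s t) ⊆
      badX D d ∪ (Icc 1 d).biUnion (fun j => (Irr D t j).biUnion
        (fun A => univ.filter (fun x => ∀ p ∈ A, x p.1 = p.2))) := by
  intro x hx
  rw [mem_filter] at hx
  rw [mem_union]
  by_cases hbad : x ∈ badX D d
  · exact Or.inl hbad
  right
  obtain ⟨A, hAx, hAd, hA⟩ := reach_inv hD hh hc1 hd hdc hbad t hx.2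
  have hne : (QQ h D t A).Nonempty := by
    rw [nonempty_iff_ne_empty]
    intro he
    rw [he] at hA
    simp [wt] at hA
  have hne' : (A.powerset.filter (fun A' => QQ h D t A ⊆ QQ h D t A')).Nonempty :=
    ⟨A, by simp⟩
  obtain ⟨A', hA', hmin⟩ := exists_min_image _ Finset.card hne'
  rw [mem_filter, mem_powerset] at hA'
  have hle := card_le_card hA'.1
  have hirr : ∀ K, K ⊂ A' → ¬ QQ h D t A' ⊆ QQ h D t K := by
    intro K hK hsub
    have := hmin K (by
      rw [mem_filter, mem_powerset]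
      exact ⟨hK.1.trans hA'.1, hA'.2.trans hsub⟩)
    have := card_lt_card hK
    omega
  have hpos : 1 ≤ A'.card := by
    rw [Nat.one_le_iff_ne_zero]
    intro h0
    rw [card_eq_zero] at h0
    subst h0
    rw [hemp] at hA'
    obtain ⟨w, hw⟩ := hne
    simpa using hA'.2 hw
  simp only [mem_biUnion, mem_Icc, mem_filter, mem_univ, true_and]
  refine ⟨A'.card, ⟨hpos, by omega⟩, A', ?_, fun p hp => hAx p (hA'.1 hp)⟩
  simp only [Irr, mem_filter, mem_univ, true_and]
  exact hirr

/-- The minterms that contain an irreducible set of size between `1` and `d`. -/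
theorem card_cover [Fintype V] {E : V → Option (Var k) → V → Prop} {s t : V} {d r : ℕ}
    {δ : ℝ} {D : Finset (V × Finset (Pos h k) × List Bool)} (hD : Approx E s d r δ D)
    (hr : 2 ≤ r) (hd : 1 ≤ d) (hk : 8 * d * ((d * r) * (2 ^ (h + 1) + 1) ^ 4) ≤ k) :
    8 * ((Icc 1 d).biUnion (fun j => (Irr D t j).biUnion
        (fun A => (univ : Finset (Nd h → Fin k)).filter (fun x => ∀ p ∈ A, x p.1 = p.2)))).card ≤
      Fintype.card (Nd h → Fin k) := by
  set W := (d * r) * (2 ^ (h + 1) + 1) ^ 4 with hW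
  have hk1 : 1 ≤ k := by
    refine le_trans ?_ hk
    have h1 : 1 ≤ (2 ^ (h + 1) + 1) ^ 4 := Nat.one_le_pow _ _ (Nat.succ_pos _)
    have h2 : 1 ≤ d * r := Nat.mul_pos (by omega) (by omega)
    have h3 : 1 ≤ W := Nat.mul_pos h2 h1
    have h4 : 1 ≤ 8 * d := by omega
    exact Nat.mul_pos h4 h3
  have hj : ∀ j ∈ Icc 1 d, 8 * d * ((Irr D t j).biUnion
        (fun A => (univ : Finset (Nd h → Fin k)).filter (fun x => ∀ p ∈ A, x p.1 = p.2))).card ≤
      Fintype.card (Nd h → Fin k) := by
    intro j hj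
    rw [mem_Icc] at hj
    have h1 := card_Irr_le_pow hD hr t j hj.1 hj.2
    have h2 : 8 * d * (Irr D t j).card ≤ k ^ j := by
      calc 8 * d * (Irr D t j).card ≤ (8 * d) ^ j * W ^ j := by
            apply Nat.mul_le_mul _ h1
            calc 8 * d = (8 * d) ^ 1 := (pow_one _).symm
              _ ≤ (8 * d) ^ j := Nat.pow_le_pow_right (by omega) hj.1
        _ = (8 * d * W) ^ j := (mul_pow _ _ _).symm
        _ ≤ k ^ j := Nat.pow_le_pow_left hk j
    have h3 : ((Irr D t j).biUnion
        (fun A => (univ : Finset (Nd h → Fin k)).filter (fun x => ∀ p ∈ A, x p.1 = p.2))).card *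
          k ^ j ≤ (Irr D t j).card * Fintype.card (Nd h → Fin k) := by
      refine (Nat.mul_le_mul_right _ card_biUnion_le).trans ?_
      rw [sum_mul]
      refine (sum_le_card_nsmul _ _ (Fintype.card (Nd h → Fin k)) ?_).trans (by simp)
      intro A hA
      have h4 := card_graph_le (N := Nd h) (K := Fin k) A
      rw [Fintype.card_fin] at h4
      simp only [Irr, mem_filter, mem_univ, true_and] at hA
      rw [hA.1] at h4
      exact h4
    have hkj : 0 < k ^ j := Nat.pow_pos hk1
    refine Nat.le_of_mul_le_mul_right (c := k ^ j) ?_ hkj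
    calc 8 * d * ((Irr D t j).biUnion
        (fun A => (univ : Finset (Nd h → Fin k)).filter (fun x => ∀ p ∈ A, x p.1 = p.2))).card * k ^ j
        = 8 * d * (((Irr D t j).biUnion
        (fun A => (univ : Finset (Nd h → Fin k)).filter (fun x => ∀ p ∈ A, x p.1 = p.2))).card *
          k ^ j) := by ring
      _ ≤ 8 * d * ((Irr D t j).card * Fintype.card (Nd h → Fin k)) := Nat.mul_le_mul_left _ h3
      _ = 8 * d * (Irr D t j).card * Fintype.card (Nd h → Fin k) := by ring
      _ ≤ k ^ j * Fintype.card (Nd h → Fin k) := Nat.mul_le_mul_right _ h2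
      _ = Fintype.card (Nd h → Fin k) * k ^ j := by ring
  refine Nat.le_of_mul_le_mul_left (c := d) ?_ hd
  calc d * (8 * ((Icc 1 d).biUnion (fun j => (Irr D t j).biUnion
        (fun A => (univ : Finset (Nd h → Fin k)).filter (fun x => ∀ p ∈ A, x p.1 = p.2)))).card)
      = 8 * d * ((Icc 1 d).biUnion (fun j => (Irr D t j).biUnion
        (fun A => (univ : Finset (Nd h → Fin k)).filter (fun x => ∀ p ∈ A, x p.1 = p.2)))).card := by
        ring
    _ ≤ 8 * d * ∑ j ∈ Icc 1 d, ((Irr D t j).biUnion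
        (fun A => (univ : Finset (Nd h → Fin k)).filter (fun x => ∀ p ∈ A, x p.1 = p.2))).card :=
        Nat.mul_le_mul_left _ card_biUnion_le
    _ = ∑ j ∈ Icc 1 d, 8 * d * ((Irr D t j).biUnion
        (fun A => (univ : Finset (Nd h → Fin k)).filter (fun x => ∀ p ∈ A, x p.1 = p.2))).card := by
        rw [mul_sum]
    _ ≤ (Icc 1 d).card • Fintype.card (Nd h → Fin k) := sum_le_card_nsmul _ _ _ hj
    _ = d * Fintype.card (Nd h → Fin k) := by simp

/-- The labellings rejected at the target if some fact with empty set is left there. -/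
theorem rejected_subset [Fintype V] {E : V → Option (Var k) → V → Prop} {s t : V}
    {D : Finset (V × Finset (Pos h k) × List Bool)} {w : List Bool} (hw : (t, ∅, w) ∈ D) :
    (univ : Finset (Pos h k → Option Bool)).filter (fun y => ¬ Reach E (maxX h (extY y)) s t) ⊆
      D.biUnion (Err E s) := by
  refine subset_trans ?_ (subset_biUnion_of_mem (Err E s) hw)
  intro y hy
  rw [mem_filter] at hy
  exact mem_Err.2 ⟨by simp [Acc], hy.2⟩

theorem one_sub_pow_le (d R : ℕ) : (1 - 1 / (3 : ℝ) ^ d) ^ (3 ^ d * R) ≤ (1 / 2) ^ R := by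
  have h3d : (0 : ℝ) < 3 ^ d := by positivity
  rw [pow_mul]
  apply pow_le_pow_left₀
  · apply pow_nonneg
    rw [sub_nonneg, div_le_one h3d]
    exact one_le_pow₀ (by norm_num)
  · have h2 : (1 - 1 / (3 : ℝ) ^ d) ≤ Real.exp (-(1 / (3 : ℝ) ^ d)) := by
      have := Real.add_one_le_exp (-(1 / (3 : ℝ) ^ d))
      linarith
    have h3 : (0 : ℝ) ≤ 1 - 1 / (3 : ℝ) ^ d := by
      rw [sub_nonneg, div_le_one h3d]
      exact one_le_pow₀ (by norm_num)
    calc (1 - 1 / (3 : ℝ) ^ d) ^ (3 ^ d) ≤ Real.exp (-(1 / (3 : ℝ) ^ d)) ^ (3 ^ d) :=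
          pow_le_pow_left₀ h3 h2 _
      _ = Real.exp (-1) := by
          rw [← Real.exp_nat_mul]
          congr 1
          push_cast
          field_simp
      _ ≤ 1 / 2 := by
          have := Real.exp_one_gt_d9
          rw [Real.exp_neg, inv_eq_one_div]
          apply one_div_le_one_div_of_le (by norm_num)
          linarith

/-- **The dichotomy**: a network with less than `2 ^ (d ^ 2)` vertices rejects at most a fraction
`2 ^ (- 2 d ^ 2)` of the maxterms or accepts at most half of the minterms. -/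
theorem dichotomy {V : Type} [Fintype V] (d : ℕ) (hd : 3 ≤ d)
    (E : V → Option (Var (2 ^ (64 * d))) → V → Prop) (s t : V) (hV : Fintype.card V < 2 ^ (d ^ 2)) :
    2 ^ (2 * d ^ 2) * ((univ : Finset (Pos (4 * d) (2 ^ (64 * d)) → Option Bool)).filter
        (fun y => ¬ Reach E (maxX (4 * d) (extY y)) s t)).card ≤
        Fintype.card (Pos (4 * d) (2 ^ (64 * d)) → Option Bool) ∨
      2 * ((univ : Finset (Nd (4 * d) → Fin (2 ^ (64 * d)))).filter
        (fun x => Reach E (minX (extX x)) s t)).card ≤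
        Fintype.card (Nd (4 * d) → Fin (2 ^ (64 * d))) := by
  obtain ⟨R, hR⟩ : ∃ R, R = 80 * d ^ 2 := ⟨_, rfl⟩
  obtain ⟨r, hr⟩ : ∃ r, r = 3 ^ d * R := ⟨_, rfl⟩
  have hr2 : 2 ≤ r := by
    have h1 : 1 ≤ 3 ^ d := Nat.one_le_pow _ _ (by norm_num)
    have h2 : 2 ≤ R := by rw [hR]; nlinarith
    rw [hr]
    calc 2 ≤ 1 * R := by omega
      _ ≤ 3 ^ d * R := Nat.mul_le_mul_right _ h1
  obtain ⟨D, hD⟩ := exists_Approx (h := 4 * d) E s d r
  have hd2 : d ≤ 2 ^ d := Nat.lt_two_pow_self.le
  have h42 : 2 ^ (4 * d + 1) + 1 ≤ 2 ^ (4 * d + 2) := by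
    have e2 : 2 ^ (4 * d + 2) = 2 * 2 ^ (4 * d + 1) := by ring
    have e3 : 1 ≤ 2 ^ (4 * d + 1) := Nat.one_le_two_pow
    omega
  have hdr : d * r ≤ 2 ^ (5 * d + 7) := by
    rw [hr, hR]
    calc d * (3 ^ d * (80 * d ^ 2)) ≤ d * (2 ^ (2 * d) * (80 * d ^ 2)) :=
          Nat.mul_le_mul_left _ (Nat.mul_le_mul_right _ (three_pow_le d))
      _ = 2 ^ (2 * d) * (80 * d ^ 3) := by ring
      _ ≤ 2 ^ (2 * d) * (2 ^ 7 * (2 ^ d) ^ 3) :=
          Nat.mul_le_mul_left _ (Nat.mul_le_mul (by norm_num) (Nat.pow_le_pow_left hd2 3))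
      _ = 2 ^ (5 * d + 7) := by rw [← pow_mul, ← pow_add, ← pow_add]; congr 1; ring
  by_cases hemp : QQ (4 * d) D t ∅ = ∅
  · right
    have h1 := accepted_subset (c := 2 * d) hD (by omega) (by omega) (by omega) (by omega) hemp
    have h2 := (card_le_card h1).trans (card_union_le _ _)
    have h3 : 8 * d * ((d * r) * (2 ^ (4 * d + 1) + 1) ^ 4) ≤ 2 ^ (64 * d) := by
      calc 8 * d * ((d * r) * (2 ^ (4 * d + 1) + 1) ^ 4)
          ≤ 2 ^ 3 * 2 ^ d * (2 ^ (5 * d + 7) * (2 ^ (4 * d + 2)) ^ 4) := by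
            apply Nat.mul_le_mul
            · exact Nat.mul_le_mul (by norm_num) hd2
            · exact Nat.mul_le_mul hdr (Nat.pow_le_pow_left h42 4)
        _ = 2 ^ (22 * d + 18) := by
            rw [← pow_mul, ← pow_add, ← pow_add, ← pow_add]; congr 1; ring
        _ ≤ 2 ^ (64 * d) := Nat.pow_le_pow_right (by norm_num) (by omega)
    have h4 := card_cover (t := t) hD hr2 (by omega) h3
    have h5 := hD.card_badX_le hr2 (by omega) Nat.one_le_two_pow
    have h6 : 4 * (Fintype.card V * (2 * (d * r) ^ d * (2 ^ (4 * d + 1) + 1) ^ (2 * (d + 1)))) ≤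
        (2 ^ (64 * d)) ^ (d - 1) := by
      calc 4 * (Fintype.card V * (2 * (d * r) ^ d * (2 ^ (4 * d + 1) + 1) ^ (2 * (d + 1))))
          ≤ 2 ^ 2 * (2 ^ (d ^ 2) * (2 ^ 1 * (2 ^ (5 * d + 7)) ^ d *
              (2 ^ (4 * d + 2)) ^ (2 * (d + 1)))) := by
            apply Nat.mul_le_mul (by norm_num)
            apply Nat.mul_le_mul hV.le
            apply Nat.mul_le_mul
            · exact Nat.mul_le_mul (by norm_num) (Nat.pow_le_pow_left hdr d)
            · exact Nat.pow_le_pow_left h42 _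
        _ = 2 ^ (14 * d ^ 2 + 19 * d + 7) := by
            rw [← pow_mul, ← pow_mul, ← pow_add, ← pow_add, ← pow_add, ← pow_add]
            congr 1; ring
        _ ≤ 2 ^ (64 * d * (d - 1)) := by
            apply Nat.pow_le_pow_right (by norm_num)
            obtain ⟨e, rfl⟩ := Nat.exists_eq_add_of_le hd
            have : 3 + e - 1 = 2 + e := by omega
            rw [this]
            nlinarith
        _ = (2 ^ (64 * d)) ^ (d - 1) := by rw [← pow_mul]
    have h7 : 4 * (badX D d).card ≤ Fintype.card (Nd (4 * d) → Fin (2 ^ (64 * d))) := by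
      have hpos : 0 < (2 ^ (64 * d)) ^ (d - 1) := by positivity
      refine Nat.le_of_mul_le_mul_right (c := (2 ^ (64 * d)) ^ (d - 1)) ?_ hpos
      calc 4 * (badX D d).card * (2 ^ (64 * d)) ^ (d - 1)
          = 4 * ((badX D d).card * (2 ^ (64 * d)) ^ (d - 1)) := by ring
        _ ≤ 4 * (Fintype.card V * (2 * (d * r) ^ d * (2 ^ (4 * d + 1) + 1) ^ (2 * (d + 1))) *
            Fintype.card (Nd (4 * d) → Fin (2 ^ (64 * d)))) := Nat.mul_le_mul_left _ h5
        _ = 4 * (Fintype.card V * (2 * (d * r) ^ d * (2 ^ (4 * d + 1) + 1) ^ (2 * (d + 1)))) *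
            Fintype.card (Nd (4 * d) → Fin (2 ^ (64 * d))) := by ring
        _ ≤ (2 ^ (64 * d)) ^ (d - 1) * Fintype.card (Nd (4 * d) → Fin (2 ^ (64 * d))) :=
            Nat.mul_le_mul_right _ h6
        _ = _ := by ring
    generalize Fintype.card (Nd (4 * d) → Fin (2 ^ (64 * d))) = N at *
    omega
  · left
    obtain ⟨w, hw⟩ := nonempty_iff_ne_empty.2 hemp
    have h1 := rejected_subset (E := E) (s := s) (mem_QQ.1 hw).2
    have h2 : (((univ : Finset (Pos (4 * d) (2 ^ (64 * d)) → Option Bool)).filter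
        (fun y => ¬ Reach E (maxX (4 * d) (extY y)) s t)).card : ℝ) ≤
        (D.biUnion (Err E s)).card := by exact_mod_cast card_le_card h1
    have h3 := hD.err
    have h4 : ((D.card : ℝ)) ≤
        ((Fintype.card V * ((2 ^ (4 * d + 1) * 2 ^ (64 * d) + 1) ^ d * 2 ^ (4 * d + 1)) : ℕ) : ℝ) := by
      exact_mod_cast (card_le_card hD.sub).trans (card_Facts_le d)
    have h5 : (1 - 1 / (3 : ℝ) ^ d) ^ r ≤ (1 / 2) ^ R := by
      rw [hr]; exact one_sub_pow_le d R
    have hk : 2 ^ (4 * d + 1) * 2 ^ (64 * d) + 1 ≤ 2 ^ (68 * d + 2) := by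
      have e1 : 2 ^ (4 * d + 1) * 2 ^ (64 * d) = 2 ^ (68 * d + 1) := by
        rw [← pow_add]; congr 1; ring
      have e2 : 2 ^ (68 * d + 2) = 2 * 2 ^ (68 * d + 1) := by ring
      have e3 : 1 ≤ 2 ^ (68 * d + 1) := Nat.one_le_two_pow
      omega
    have h6 : 2 ^ (2 * d ^ 2) *
        (Fintype.card V * ((2 ^ (4 * d + 1) * 2 ^ (64 * d) + 1) ^ d * 2 ^ (4 * d + 1))) ≤ 2 ^ R := by
      calc 2 ^ (2 * d ^ 2) *
          (Fintype.card V * ((2 ^ (4 * d + 1) * 2 ^ (64 * d) + 1) ^ d * 2 ^ (4 * d + 1)))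
          ≤ 2 ^ (2 * d ^ 2) * (2 ^ (d ^ 2) * ((2 ^ (68 * d + 2)) ^ d * 2 ^ (4 * d + 1))) := by
            apply Nat.mul_le_mul_left
            apply Nat.mul_le_mul hV.le
            exact Nat.mul_le_mul_right _ (Nat.pow_le_pow_left hk d)
        _ = 2 ^ (71 * d ^ 2 + 6 * d + 1) := by
            rw [← pow_mul, ← pow_add, ← pow_add, ← pow_add]; congr 1; ring
        _ ≤ 2 ^ R := by
            apply Nat.pow_le_pow_right (by norm_num)
            rw [hR]
            nlinarith
    have hN0 : (0 : ℝ) ≤ Fintype.card (Pos (4 * d) (2 ^ (64 * d)) → Option Bool) :=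
      Nat.cast_nonneg _
    have h7 : ((2 ^ (2 * d ^ 2) *
        (Fintype.card V * ((2 ^ (4 * d + 1) * 2 ^ (64 * d) + 1) ^ d * 2 ^ (4 * d + 1))) : ℕ) : ℝ) ≤
        2 ^ R := by exact_mod_cast h6
    have h8 : (0 : ℝ) ≤ (1 - 1 / (3 : ℝ) ^ d) ^ r := by
      apply pow_nonneg
      rw [sub_nonneg, div_le_one (by positivity)]
      exact one_le_pow₀ (by norm_num)
    have key : ((2 ^ (2 * d ^ 2) * ((univ : Finset (Pos (4 * d) (2 ^ (64 * d)) → Option Bool)).filter
        (fun y => ¬ Reach E (maxX (4 * d) (extY y)) s t)).card : ℕ) : ℝ) ≤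
        Fintype.card (Pos (4 * d) (2 ^ (64 * d)) → Option Bool) := by
      push_cast at h7 h4 ⊢
      generalize (Fintype.card (Pos (4 * d) (2 ^ (64 * d)) → Option Bool) : ℝ) = N at *
      calc (2 : ℝ) ^ (2 * d ^ 2) * _ ≤ 2 ^ (2 * d ^ 2) * (D.card * ((1 - 1 / (3 : ℝ) ^ d) ^ r * N)) :=
            mul_le_mul_of_nonneg_left (h2.trans h3) (by positivity)
        _ ≤ 2 ^ (2 * d ^ 2) * ((Fintype.card V * ((2 ^ (4 * d + 1) * 2 ^ (64 * d) + 1) ^ d *
              2 ^ (4 * d + 1))) * ((1 / 2) ^ R * N)) := by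
            apply mul_le_mul_of_nonneg_left _ (by positivity)
            apply mul_le_mul h4 (mul_le_mul_of_nonneg_right h5 hN0) (mul_nonneg h8 hN0)
            positivity
        _ = (2 ^ (2 * d ^ 2) * (Fintype.card V * ((2 ^ (4 * d + 1) * 2 ^ (64 * d) + 1) ^ d *
              2 ^ (4 * d + 1)))) * ((1 / 2) ^ R * N) := by ring
        _ ≤ 2 ^ R * ((1 / 2) ^ R * N) := by
            apply mul_le_mul_of_nonneg_right h7
            positivity
        _ = N := by rw [← mul_assoc, ← mul_pow]; norm_num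
    exact_mod_cast key

end

end Pool.Agent.MP_6216ea_lc.NL
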