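import Mathlib

/-!
# Logarithmic depth recursion for well-matched paths

A graph has neutral steps and pairs of a push step and a matching pop step. Well-matched paths
are found in logarithmically many rounds.
-/

set_option autoImplicit false

namespace Pool.Agent.MP_6216ea_lc.NU

variable {V : Type}

/-- Derivations of well-matched paths with their sizes; `pp g g'` means that the path `g'` may be
extended by a push step and a pop step to the path `g`. -/
inductive BS (nu : V × V → Prop) (pp : V × V → V × V → Prop) : ℕ → V × V → Prop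
  | nil (u : V) : BS nu pp 1 (u, u)
  | neu {g : V × V} : nu g → BS nu pp 1 g
  | app {a b : ℕ} {u v w : V} : BS nu pp a (u, v) → BS nu pp b (v, w) → BS nu pp (a + b) (u, w)
  | pp {a : ℕ} {g g' : V × V} : pp g g' → BS nu pp a g' → BS nu pp (a + 1) g

/-- Derivations with one open leaf. -/
inductive HS (nu : V × V → Prop) (pp : V × V → V × V → Prop) (f : V × V) : ℕ → V × V → Prop
  | hole : HS nu pp f 0 f
  | left {a b : ℕ} {u v w : V} : HS nu pp f a (u, v) → BS nu pp b (v, w) →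
      HS nu pp f (a + b) (u, w)
  | right {a b : ℕ} {u v w : V} : BS nu pp a (u, v) → HS nu pp f b (v, w) →
      HS nu pp f (a + b) (u, w)
  | pp {a : ℕ} {g g' : V × V} : pp g g' → HS nu pp f a g' → HS nu pp f (a + 1) g

/-- One round for the paths. -/
def stR (R : V × V → Prop) (I : V × V → V × V → Prop) (g : V × V) : Prop :=
  (∃ v, R (g.1, v) ∧ R (v, g.2)) ∨ ∃ f, R f ∧ I f g

/-- One round for the implications between paths. -/
def stI (R : V × V → Prop) (I : V × V → V × V → Prop) (f g : V × V) : Prop :=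
  (f.1 = g.1 ∧ R (f.2, g.2)) ∨ (f.2 = g.2 ∧ R (g.1, f.1)) ∨ ∃ h, I f h ∧ I h g

/-- The paths and implications found in `t` rounds. -/
def rds (nu : V × V → Prop) (pp : V × V → V × V → Prop) :
    ℕ → (V × V → Prop) × (V × V → V × V → Prop)
  | 0 => (fun g => g.1 = g.2 ∨ nu g, fun f g => f = g ∨ pp g f)
  | t + 1 => (stR (rds nu pp t).1 (rds nu pp t).2, stI (rds nu pp t).1 (rds nu pp t).2)

variable {nu : V × V → Prop} {pp : V × V → V × V → Prop}

theorem rds_refl (t : ℕ) : (∀ u, (rds nu pp t).1 (u, u)) ∧ ∀ g, (rds nu pp t).2 g g := by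
  induction t with
  | zero => exact ⟨fun u => Or.inl rfl, fun g => Or.inl rfl⟩
  | succ t ih =>
    exact ⟨fun u => Or.inl ⟨u, ih.1 u, ih.1 u⟩, fun g => Or.inr (Or.inr ⟨g, ih.2 g, ih.2 g⟩)⟩

theorem rds_succ (t : ℕ) :
    (∀ g, (rds nu pp t).1 g → (rds nu pp (t + 1)).1 g) ∧
      ∀ f g, (rds nu pp t).2 f g → (rds nu pp (t + 1)).2 f g :=
  ⟨fun g hg => Or.inl ⟨g.1, (rds_refl t).1 _, hg⟩,
    fun _ g hg => Or.inr (Or.inr ⟨g, hg, (rds_refl t).2 g⟩)⟩

theorem rds_mono {s t : ℕ} (hst : s ≤ t) :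
    (∀ g, (rds nu pp s).1 g → (rds nu pp t).1 g) ∧
      ∀ f g, (rds nu pp s).2 f g → (rds nu pp t).2 f g := by
  induction hst with
  | refl => exact ⟨fun _ h => h, fun _ _ h => h⟩
  | step _ ih => exact ⟨fun g h => (rds_succ _).1 g (ih.1 g h),
      fun f g h => (rds_succ _).2 f g (ih.2 f g h)⟩

theorem rds_pp {t : ℕ} {f g : V × V} (h : pp g f) : (rds nu pp t).2 f g :=
  (rds_mono (Nat.zero_le t)).2 f g (Or.inr h)

/-! ### Soundness -/

theorem rds_sound (t : ℕ) : (∀ g, (rds nu pp t).1 g → ∃ a, BS nu pp a g) ∧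
    ∀ f g, (rds nu pp t).2 f g → (∃ a, BS nu pp a f) → ∃ a, BS nu pp a g := by
  induction t with
  | zero =>
    constructor
    · rintro ⟨u, v⟩ (h | h)
      · simp only at h
        subst h
        exact ⟨1, BS.nil u⟩
      · exact ⟨1, BS.neu h⟩
    · rintro f g (rfl | h) ⟨a, ha⟩
      · exact ⟨a, ha⟩
      · exact ⟨a + 1, BS.pp h ha⟩
  | succ t ih =>
    constructor
    · rintro ⟨u, w⟩ (⟨v, h1, h2⟩ | ⟨f, h1, h2⟩)
      · obtain ⟨a, ha⟩ := ih.1 _ h1
        obtain ⟨b, hb⟩ := ih.1 _ h2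
        exact ⟨a + b, BS.app ha hb⟩
      · exact ih.2 f _ h2 (ih.1 f h1)
    · rintro ⟨f1, f2⟩ ⟨g1, g2⟩ (⟨h1, h2⟩ | ⟨h1, h2⟩ | ⟨h, h1, h2⟩) ⟨a, ha⟩
      · simp only at h1 h2
        subst h1
        obtain ⟨b, hb⟩ := ih.1 _ h2
        exact ⟨a + b, BS.app ha hb⟩
      · simp only at h1 h2
        subst h1
        obtain ⟨b, hb⟩ := ih.1 _ h2
        exact ⟨b + a, BS.app hb ha⟩
      · exact ih.2 _ _ h2 (ih.2 _ _ h1 ⟨a, ha⟩)

/-! ### Completeness -/

theorem BS.pos {a : ℕ} {g : V × V} (h : BS nu pp a g) : 1 ≤ a := by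
  induction h with
  | nil => exact le_rfl
  | neu => exact le_rfl
  | app _ _ h1 h2 => omega
  | pp _ _ h => omega

/-- The root of a derivation has small subderivations. -/
def Small (nu : V × V → Prop) (pp : V × V → V × V → Prop) (m r : ℕ) (g : V × V) : Prop :=
  (∃ a b v, a ≤ m ∧ b ≤ m ∧ a + b = r ∧ BS nu pp a (g.1, v) ∧ BS nu pp b (v, g.2)) ∨
    ∃ a f, a ≤ m ∧ a + 1 = r ∧ pp g f ∧ BS nu pp a f

theorem BS.split {m a : ℕ} (hm : 1 ≤ m) {g : V × V} (h : BS nu pp a g) (ha : m < a) :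
    ∃ f r s, HS nu pp f s g ∧ r + s = a ∧ m < r ∧ Small nu pp m r f := by
  induction h with
  | nil => omega
  | neu => omega
  | @app a b u v w h1 h2 ih1 ih2 =>
    by_cases h3 : m < a
    · obtain ⟨f, r, s, e1, e2, e3, e4⟩ := ih1 h3
      exact ⟨f, r, s + b, HS.left e1 h2, by omega, e3, e4⟩
    by_cases h4 : m < b
    · obtain ⟨f, r, s, e1, e2, e3, e4⟩ := ih2 h4
      exact ⟨f, r, a + s, HS.right h1 e1, by omega, e3, e4⟩
    exact ⟨(u, w), a + b, 0, HS.hole, rfl, ha,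
      Or.inl ⟨a, b, v, by omega, by omega, rfl, h1, h2⟩⟩
  | @pp a g f h1 h2 ih =>
    by_cases h3 : m < a
    · obtain ⟨f, r, s, e1, e2, e3, e4⟩ := ih h3
      exact ⟨f, r, s + 1, HS.pp h1 e1, by omega, e3, e4⟩
    exact ⟨g, a + 1, 0, HS.hole, rfl, ha, Or.inr ⟨a, f, by omega, rfl, h1, h2⟩⟩

/-- One step of a derivation with a hole. -/
def Link (nu : V × V → Prop) (pp : V × V → V × V → Prop) (r : ℕ) (f g : V × V) : Prop :=
  (f.1 = g.1 ∧ BS nu pp r (f.2, g.2)) ∨ (f.2 = g.2 ∧ BS nu pp r (g.1, f.1)) ∨ (r = 1 ∧ pp g f)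

theorem HS.split {m a : ℕ} {f g : V × V} (h : HS nu pp f a g) (ha : m < a) :
    ∃ f' g' s1 r s2, HS nu pp f s1 f' ∧ Link nu pp r f' g' ∧ HS nu pp g' s2 g ∧
      s1 + r + s2 = a ∧ s1 ≤ m ∧ m < s1 + r := by
  induction h with
  | hole => omega
  | @left a b u v w h1 h2 ih =>
    by_cases h3 : m < a
    · obtain ⟨f', g', s1, r, s2, e1, e2, e3, e4, e5, e6⟩ := ih h3
      exact ⟨f', g', s1, r, s2 + b, e1, e2, HS.left e3 h2, by omega, e5, e6⟩
    exact ⟨(u, v), (u, w), a, b, 0, h1, Or.inl ⟨rfl, h2⟩, HS.hole, rfl, by omega, ha⟩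
  | @right a b u v w h1 h2 ih =>
    by_cases h3 : m < b
    · obtain ⟨f', g', s1, r, s2, e1, e2, e3, e4, e5, e6⟩ := ih h3
      exact ⟨f', g', s1, r, a + s2, e1, e2, HS.right h1 e3, by omega, e5, e6⟩
    exact ⟨(v, w), (u, w), b, a, 0, h2, Or.inr (Or.inl ⟨rfl, h1⟩), HS.hole, by omega, by omega,
      by omega⟩
  | @pp a g g' h1 h2 ih =>
    by_cases h3 : m < a
    · obtain ⟨f', g'', s1, r, s2, e1, e2, e3, e4, e5, e6⟩ := ih h3
      exact ⟨f', g'', s1, r, s2 + 1, e1, e2, HS.pp h1 e3, by omega, e5, e6⟩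
    exact ⟨g', g, a, 1, 0, h2, Or.inr (Or.inr ⟨rfl, h1⟩), HS.hole, rfl, by omega, ha⟩

theorem rds_complete (t : ℕ) :
    (∀ a g, BS nu pp a g → a ≤ 2 ^ t → (rds nu pp (4 * t)).1 g) ∧
      ∀ a f g, HS nu pp f a g → a ≤ 2 ^ t → (rds nu pp (4 * t + 1)).2 f g := by
  induction t with
  | zero =>
    have hA : ∀ a g, BS nu pp a g → a ≤ 1 → (rds nu pp 0).1 g := by
      intro a g h ha
      cases h with
      | nil u => exact Or.inl rfl
      | neu h => exact Or.inr h
      | app h1 h2 =>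
        have := h1.pos
        have := h2.pos
        omega
      | pp _ h =>
        have := h.pos
        omega
    have hB : ∀ a f g, HS nu pp f a g → a ≤ 0 → f = g := by
      intro a f g h ha
      cases h with
      | hole => rfl
      | left _ h =>
        have := h.pos
        omega
      | right h _ =>
        have := h.pos
        omega
      | pp _ _ => omega
    refine ⟨fun a g h ha => hA a g h (by simpa using ha), ?_⟩
    intro a f g h ha
    rw [pow_zero] at ha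
    cases h with
    | hole => exact (rds_refl 1).2 _
    | @left a b u v w h1 h2 =>
      have := h2.pos
      have e := hB a f _ h1 (by omega)
      subst e
      exact Or.inl ⟨rfl, hA b _ h2 (by omega)⟩
    | @right a b u v w h1 h2 =>
      have := h1.pos
      have e := hB b f _ h2 (by omega)
      subst e
      exact Or.inr (Or.inl ⟨rfl, hA a _ h1 (by omega)⟩)
    | @pp a g g' h1 h2 =>
      have e := hB a f _ h2 (by omega)
      subst e
      exact rds_pp h1
  | succ t ih =>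
    obtain ⟨ihA, ihB⟩ := ih
    have h2t : 2 ^ (t + 1) = 2 * 2 ^ t := by ring
    have h1t : 1 ≤ 2 ^ t := Nat.one_le_two_pow
    have hA : ∀ a g, BS nu pp a g → a ≤ 2 ^ (t + 1) → (rds nu pp (4 * t + 2)).1 g := by
      intro a g h ha
      by_cases h3 : a ≤ 2 ^ t
      · exact (rds_mono (by omega)).1 g (ihA a g h h3)
      push Not at h3
      obtain ⟨f, r, s, e1, e2, e3, e4⟩ := h.split h1t h3
      have hI : (rds nu pp (4 * t + 1)).2 f g := ihB s f g e1 (by omega)
      refine Or.inr ⟨f, ?_, hI⟩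
      rcases e4 with ⟨a', b', v, f1, f2, f3, f4, f5⟩ | ⟨a', f', f1, f2, f3, f4⟩
      · exact Or.inl ⟨v, ihA a' _ f4 f1, ihA b' _ f5 f2⟩
      · exact Or.inr ⟨f', ihA a' _ f4 f1, rds_pp f3⟩
    refine ⟨fun a g h ha => (rds_mono (by omega)).1 g (hA a g h ha), ?_⟩
    intro a f g h ha
    by_cases h3 : a ≤ 2 ^ t
    · exact (rds_mono (by omega)).2 f g (ihB a f g h h3)
    push Not at h3
    obtain ⟨f', g', s1, r, s2, e1, e2, e3, e4, e5, e6⟩ := h.split h3
    have hI1 : (rds nu pp (4 * t + 3)).2 f f' := (rds_mono (by omega)).2 _ _ (ihB s1 f f' e1 e5)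
    have hI3 : (rds nu pp (4 * t + 4)).2 g' g :=
      (rds_mono (by omega)).2 _ _ (ihB s2 g' g e3 (by omega))
    have hI2 : (rds nu pp (4 * t + 3)).2 f' g' := by
      rcases e2 with ⟨f1, f2⟩ | ⟨f1, f2⟩ | ⟨_, f2⟩
      · exact Or.inl ⟨f1, hA r _ f2 (by omega)⟩
      · exact Or.inr (Or.inl ⟨f1, hA r _ f2 (by omega)⟩)
      · exact rds_pp f2
    have hI4 : (rds nu pp (4 * t + 4)).2 f g' := Or.inr (Or.inr ⟨f', hI1, hI2⟩)
    exact Or.inr (Or.inr ⟨g', hI4, hI3⟩)

end Pool.Agent.MP_6216ea_lc.NU
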