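import Mathlib
import Pool.Agent.Lib.MP_6216ea_lc.StackMachine
import Pool.Agent.Lib.MP_6216ea_lc.NURec

/-!
# Stack machines by rounds
-/

set_option autoImplicit false

namespace Pool.Agent.MP_6216ea_lc.NU

open Pool.Agent.MP_6216ea_lc

/-- `u` is the part of the word `w` from the position `i` to the position `j`. -/
def Seg {T : Type} (w : List T) (i j : ℕ) (u : List T) : Prop :=
  ∃ v v', w = v ++ (u ++ v') ∧ v.length = i ∧ i + u.length = j

section seg

variable {T : Type} {w : List T}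

theorem Seg.append {i j k : ℕ} {u u' : List T} (h : Seg w i j u) (h' : Seg w j k u') :
    Seg w i k (u ++ u') := by
  obtain ⟨v, v', e1, e2, e3⟩ := h
  obtain ⟨v2, v2', f1, f2, f3⟩ := h'
  have h1 : (v ++ u) ++ v' = v2 ++ (u' ++ v2') := by
    rw [List.append_assoc, ← e1, f1]
  have h2 : (v ++ u).length = v2.length := by
    rw [List.length_append]
    omega
  obtain ⟨h3, h4⟩ := List.append_inj h1 h2
  refine ⟨v, v2', ?_, e2, ?_⟩
  · rw [e1, h4]
    simp
  · rw [List.length_append]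
    omega

theorem Seg.split {i j : ℕ} {u u' : List T} (h : Seg w i j (u ++ u')) :
    Seg w i (i + u.length) u ∧ Seg w (i + u.length) j u' := by
  obtain ⟨v, v', e1, e2, e3⟩ := h
  rw [List.length_append] at e3
  refine ⟨⟨v, u' ++ v', by rw [e1]; simp, e2, rfl⟩, ⟨v ++ u, v', by rw [e1]; simp, ?_, ?_⟩⟩
  · rw [List.length_append, e2]
  · omega

theorem seg_single {i : ℕ} {t : T} (h : w[i]? = some t) : Seg w i (i + 1) [t] := by
  rw [List.getElem?_eq_some_iff] at h
  obtain ⟨h1, h2⟩ := h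
  refine ⟨w.take i, w.drop (i + 1), ?_, ?_, rfl⟩
  · rw [List.singleton_append, ← h2, ← List.drop_eq_getElem_cons h1, List.take_append_drop]
  · rw [List.length_take]
    omega

theorem Seg.single {i j : ℕ} {t : T} (h : Seg w i j [t]) : w[i]? = some t ∧ j = i + 1 := by
  obtain ⟨v, v', e1, e2, e3⟩ := h
  refine ⟨?_, e3.symm⟩
  rw [e1, ← e2, List.getElem?_append_right le_rfl]
  simp

theorem seg_nil {i : ℕ} (h : i ≤ w.length) : Seg w i i [] :=
  ⟨w.take i, w.drop i, by rw [List.nil_append, List.take_append_drop], by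
    rw [List.length_take]
    omega, rfl⟩

theorem Seg.le {i j : ℕ} {u : List T} (h : Seg w i j u) : j ≤ w.length := by
  obtain ⟨v, v', e1, e2, e3⟩ := h
  have := congrArg List.length e1
  rw [List.length_append, List.length_append] at this
  omega

end seg

section bal

variable {T Q S : Type} (M : SM T Q S) (w : List T) (m : ℕ)

/-- The steps that leave the stack unchanged. -/
def nuW (g : (Q × Fin (m + 1)) × (Q × Fin (m + 1))) : Prop :=
  ∃ t, w[g.1.2.1]? = some t ∧ g.2.2.1 = g.1.2.1 + 1 ∧ M.neu g.1.1 t g.2.1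

/-- The pairs of a push and a pop. -/
def ppW (g f : (Q × Fin (m + 1)) × (Q × Fin (m + 1))) : Prop :=
  ∃ t t' s, (w[g.1.2.1]? = some t ∧ f.1.2.1 = g.1.2.1 + 1 ∧ M.push g.1.1 t s f.1.1) ∧
    (w[f.2.2.1]? = some t' ∧ g.2.2.1 = f.2.2.1 + 1 ∧ M.pop f.2.1 t' s g.2.1)

variable {M w m}

theorem bs_of_bal (hm : w.length = m) {p q : Q} {u : List T} (h : M.Bal p q u)
    (i j : Fin (m + 1)) (hs : Seg w i.1 j.1 u) :
    (u = [] ∧ p = q) ∨ ∃ a, a + 1 ≤ 2 * u.length ∧ BS (nuW M w m) (ppW M w m) a ((p, i), (q, j)) := by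
  induction h generalizing i j with
  | nil p => exact Or.inl ⟨rfl, rfl⟩
  | neu h =>
    right
    obtain ⟨h1, h2⟩ := hs.single
    exact ⟨1, by simp, BS.neu ⟨_, h1, h2, h⟩⟩
  | @app p q r u v h1 h2 ih1 ih2 =>
    obtain ⟨s1, s2⟩ := hs.split
    have hk : i.1 + u.length < m + 1 := by
      have := s1.le
      omega
    obtain ⟨k, hk'⟩ : ∃ k : Fin (m + 1), k.1 = i.1 + u.length := ⟨⟨_, hk⟩, rfl⟩
    rw [← hk'] at s1 s2
    rcases ih1 i k s1 with ⟨rfl, rfl⟩ | ⟨a, ha, hA⟩
    · have hik : i = k := by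
        apply Fin.ext
        rw [hk']
        simp
      subst hik
      rw [List.nil_append]
      exact ih2 i j s2
    · rcases ih2 k j s2 with ⟨rfl, rfl⟩ | ⟨b, hb, hB⟩
      · right
        have hjk : k = j := by
          apply Fin.ext
          obtain ⟨_, _, _, _, h5⟩ := s2
          simpa using h5
        subst hjk
        rw [List.append_nil]
        exact ⟨a, ha, hA⟩
      · right
        refine ⟨a + b, ?_, BS.app hA hB⟩
        rw [List.length_append]
        omega
  | @pp p q p1 q1 t t1 b u h1 h2 h3 ih =>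
    right
    have e : t :: (u ++ [t1]) = [t] ++ (u ++ [t1]) := rfl
    rw [e] at hs
    obtain ⟨s1, s2⟩ := hs.split
    obtain ⟨s2, s3⟩ := s2.split
    obtain ⟨f1, f2⟩ := s1.single
    obtain ⟨f3, f4⟩ := s3.single
    have hk1 : i.1 + [t].length < m + 1 := by
      have := s1.le
      omega
    obtain ⟨i1, hi1⟩ : ∃ k : Fin (m + 1), k.1 = i.1 + [t].length := ⟨⟨_, hk1⟩, rfl⟩
    have hk2 : i.1 + [t].length + u.length < m + 1 := by
      have := s2.le
      omega
    obtain ⟨j1, hj1⟩ : ∃ k : Fin (m + 1), k.1 = i.1 + [t].length + u.length := ⟨⟨_, hk2⟩, rfl⟩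
    rw [← hj1] at s2 f3 f4
    rw [← hi1] at s2
    have hpp : ppW M w m ((p, i), (q, j)) ((p1, i1), (q1, j1)) :=
      ⟨t, t1, b, ⟨f1, hi1, h1⟩, ⟨f3, f4, h3⟩⟩
    rcases ih i1 j1 s2 with ⟨rfl, rfl⟩ | ⟨a, ha, hA⟩
    · have hij : i1 = j1 := by
        apply Fin.ext
        rw [hi1, hj1]
        simp
      subst hij
      exact ⟨2, by simp, BS.pp hpp (BS.nil _)⟩
    · refine ⟨a + 1, ?_, BS.pp hpp hA⟩
      simp only [List.length_cons, List.length_append, List.length_nil]
      omega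

theorem bal_of_bs (hm : w.length = m) {a : ℕ}
    {g : (Q × Fin (m + 1)) × (Q × Fin (m + 1))} (h : BS (nuW M w m) (ppW M w m) a g) :
    ∃ u, Seg w g.1.2.1 g.2.2.1 u ∧ M.Bal g.1.1 g.2.1 u := by
  induction h with
  | nil v => exact ⟨[], seg_nil (by have := v.2.2; omega), SM.Bal.nil _⟩
  | @neu g h =>
    obtain ⟨t, h1, h2, h3⟩ := h
    exact ⟨[t], by rw [h2]; exact seg_single h1, SM.Bal.neu h3⟩
  | app _ _ ih1 ih2 =>
    obtain ⟨u1, s1, b1⟩ := ih1
    obtain ⟨u2, s2, b2⟩ := ih2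
    exact ⟨u1 ++ u2, s1.append s2, SM.Bal.app b1 b2⟩
  | @pp a g f h _ ih =>
    obtain ⟨t, t', s, ⟨h1, h2, h3⟩, ⟨h4, h5, h6⟩⟩ := h
    obtain ⟨u, s1, b1⟩ := ih
    refine ⟨t :: (u ++ [t']), ?_, SM.Bal.pp h3 b1 h6⟩
    have e : t :: (u ++ [t']) = [t] ++ (u ++ [t']) := rfl
    rw [e]
    have e1 := seg_single h1
    rw [← h2] at e1
    have e2 := seg_single h4
    rw [← h5] at e2
    exact e1.append (s1.append e2)

/-- Membership by rounds. -/
theorem mem_lang_rds (hm : w.length = m) (t : ℕ) (ht : 2 * m + 1 ≤ 2 ^ t) :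
    w ∈ M.lang ↔ ∃ q, M.acc q ∧
      (rds (nuW M w m) (ppW M w m) (4 * t)).1 ((M.start, 0), (q, Fin.last m)) := by
  rw [SM.mem_lang_iff]
  refine exists_congr fun q => and_congr Iff.rfl ?_
  constructor
  · intro h
    have hs : Seg w (0 : Fin (m + 1)).1 (Fin.last m).1 w := ⟨[], [], by simp, rfl, by
      rw [Fin.val_last, hm]
      simp⟩
    rcases bs_of_bal hm h 0 (Fin.last m) hs with ⟨rfl, rfl⟩ | ⟨a, ha, hA⟩
    · have hm0 : m = 0 := by rw [← hm]; rfl
      subst hm0
      exact (rds_refl _).1 _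
    · exact (rds_complete t).1 a _ hA (by omega)
  · intro h
    obtain ⟨a, ha⟩ := (rds_sound _).1 _ h
    obtain ⟨u, ⟨v, v', e1, e2, e3⟩, hu⟩ := bal_of_bs hm ha
    have e4 : v = [] := List.length_eq_zero_iff.1 e2
    subst e4
    have e5 := congrArg List.length e1
    simp only [List.nil_append, List.length_append] at e5
    have e6 : (0 : Fin (m + 1)).1 + u.length = m := by
      rw [e3]
      rfl
    have e7 : v' = [] := by
      rw [← List.length_eq_zero_iff]
      simp only [Fin.val_zero] at e6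
      omega
    subst e7
    rw [List.nil_append, List.append_nil] at e1
    rw [e1]
    exact hu

end bal

end Pool.Agent.MP_6216ea_lc.NU
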