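import Mathlib
import Pool.Agent.Lib.MP_6216ea_lc.Machine

/-!
# A context-free language of bits

The word of bits is cut into blocks of eight bits. The first four bits of a block allow rows, the
last four bits allow columns of a table of letters. The word belongs to the language if one can
choose allowed letters such that the word of the chosen letters is accepted by the machine.
-/

set_option autoImplicit false

namespace Pool.Agent.MP_6216ea_lc.NU

open Pool.Agent.MP_6216ea_lc

/-- The table of letters; `none` is a letter that is skipped. -/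
def tab : Fin 4 → Fin 4 → Option (Sym × Bool) :=
  ![![some (.opt, true), some (.opt, true), some (.opt, false), some (.opt, false)],
    ![some (.opt, false), some (.opt, false), some (.opt, true), some (.opt, true)],
    ![some (.opt, true), some (.seg, true), some (.push false, true), some (.push true, true)],
    ![some (.opt, true), some (.pop false, true), some (.pop true, true), none]]

/-- The block `t` allows the row `a` and the column `b`. -/
def Al (t : List Bool) (a b : Fin 4) : Prop := t[a.1]? = some true ∧ t[4 + b.1]? = some true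

/-- The block `t` allows the letter `o`. -/
def Dec (t : List Bool) (o : Option (Sym × Bool)) : Prop := ∃ a b, Al t a b ∧ tab a b = o

/-- The machine on words of blocks. -/
def decM : SM (List Bool) St Bool where
  neu p t q := (∃ c, Dec t (some c) ∧ mach.neu p c q) ∨ (Dec t none ∧ p = q)
  push p t b q := ∃ c, Dec t (some c) ∧ mach.push p c b q
  pop p t b q := ∃ c, Dec t (some c) ∧ mach.pop p c b q
  start := mach.start
  acc := mach.acc

theorem decM_run {p q : St} {s s' : List Bool} {ts : List (List Bool)} :
    decM.Run p s ts q s' ↔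
      ∃ os : List (Option (Sym × Bool)), List.Forall₂ Dec ts os ∧
        mach.Run p s os.reduceOption q s' := by
  constructor
  · intro h
    induction h with
    | nil q s => exact ⟨[], List.Forall₂.nil, SM.Run.nil _ _⟩
    | neu h1 _ ih =>
      obtain ⟨os, h2, h3⟩ := ih
      rcases h1 with ⟨c, h4, h5⟩ | ⟨h4, rfl⟩
      · refine ⟨some c :: os, List.Forall₂.cons h4 h2, ?_⟩
        rw [List.reduceOption_cons_of_some]
        exact SM.Run.neu h5 h3
      · refine ⟨none :: os, List.Forall₂.cons h4 h2, ?_⟩
        rw [List.reduceOption_cons_of_none]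
        exact h3
    | push h1 _ ih =>
      obtain ⟨os, h2, h3⟩ := ih
      obtain ⟨c, h4, h5⟩ := h1
      refine ⟨some c :: os, List.Forall₂.cons h4 h2, ?_⟩
      rw [List.reduceOption_cons_of_some]
      exact SM.Run.push h5 h3
    | pop h1 _ ih =>
      obtain ⟨os, h2, h3⟩ := ih
      obtain ⟨c, h4, h5⟩ := h1
      refine ⟨some c :: os, List.Forall₂.cons h4 h2, ?_⟩
      rw [List.reduceOption_cons_of_some]
      exact SM.Run.pop h5 h3
  · rintro ⟨os, h1, h2⟩
    induction h1 generalizing p s with
    | nil =>
      cases h2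
      exact SM.Run.nil _ _
    | @cons t o ts os h3 _ ih =>
      cases o with
      | none =>
        rw [List.reduceOption_cons_of_none] at h2
        exact SM.Run.neu (Or.inr ⟨h3, rfl⟩) (ih h2)
      | some c =>
        rw [List.reduceOption_cons_of_some] at h2
        cases h2 with
        | neu h4 h5 => exact SM.Run.neu (Or.inl ⟨c, h3, h4⟩) (ih h5)
        | push h4 h5 => exact SM.Run.push ⟨c, h3, h4⟩ (ih h5)
        | pop h4 h5 => exact SM.Run.pop ⟨c, h3, h4⟩ (ih h5)

/-- Cutting a word into blocks of eight letters, where `buf` are the letters that are already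
read. The rest of the word is dropped. -/
def chop : List Bool → List Bool → List (List Bool)
  | _, [] => []
  | buf, b :: w => if buf.length = 7 then (buf ++ [b]) :: chop [] w else chop (buf ++ [b]) w

/-- Incomplete blocks. -/
abbrev Buf : Type := {l : List Bool // l.length < 8}

instance : Finite Buf := by
  have h : {l : List Bool | l.length < 8}.Finite := List.finite_length_lt Bool 8
  exact h

/-- The machine on words of bits. -/
def binM (M : SM (List Bool) St Bool) : SM Bool (St × Buf) Bool where
  neu p b q := (p.2.1.length + 1 < 8 ∧ p.1 = q.1 ∧ q.2.1 = p.2.1 ++ [b]) ∨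
    (p.2.1.length = 7 ∧ M.neu p.1 (p.2.1 ++ [b]) q.1 ∧ q.2.1 = [])
  push p b c q := p.2.1.length = 7 ∧ M.push p.1 (p.2.1 ++ [b]) c q.1 ∧ q.2.1 = []
  pop p b c q := p.2.1.length = 7 ∧ M.pop p.1 (p.2.1 ++ [b]) c q.1 ∧ q.2.1 = []
  start := (M.start, ⟨[], by simp⟩)
  acc q := M.acc q.1

theorem binM_run1 (M : SM (List Bool) St Bool) {p q : St × Buf} {s s' : List Bool}
    {w : List Bool} (h : (binM M).Run p s w q s') : M.Run p.1 s (chop p.2.1 w) q.1 s' := by
  induction h with
  | nil q s => exact SM.Run.nil _ _
  | @neu p q r b s s2 w h1 _ ih =>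
    rcases h1 with ⟨h1, h2, h3⟩ | ⟨h1, h2, h3⟩
    · rw [chop, if_neg (by omega), h2, ← h3]
      exact ih
    · rw [chop, if_pos h1]
      rw [h3] at ih
      exact SM.Run.neu h2 ih
  | push h1 _ ih =>
    obtain ⟨h1, h2, h3⟩ := h1
    rw [chop, if_pos h1]
    rw [h3] at ih
    exact SM.Run.push h2 ih
  | pop h1 _ ih =>
    obtain ⟨h1, h2, h3⟩ := h1
    rw [chop, if_pos h1]
    rw [h3] at ih
    exact SM.Run.pop h2 ih

theorem binM_run2 (M : SM (List Bool) St Bool) {w : List Bool} {p q : St} (l : Buf)
    {s s' : List Bool} (h : M.Run p s (chop l.1 w) q s') :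
    ∃ l' : Buf, (binM M).Run (p, l) s w (q, l') s' := by
  induction w generalizing p l s with
  | nil =>
    cases h
    exact ⟨l, SM.Run.nil _ _⟩
  | cons b w ih =>
    by_cases hl : l.1.length = 7
    · rw [chop, if_pos hl] at h
      cases h with
      | @neu _ q' _ _ _ _ _ h1 h2 =>
        obtain ⟨l', hl'⟩ := ih (⟨[], by simp⟩ : Buf) h2
        exact ⟨l', SM.Run.neu (q := (q', ⟨[], by simp⟩)) (Or.inr ⟨hl, h1, rfl⟩) hl'⟩
      | @push _ q' _ _ _ _ _ _ h1 h2 =>
        obtain ⟨l', hl'⟩ := ih (⟨[], by simp⟩ : Buf) h2
        exact ⟨l', SM.Run.push (q := (q', ⟨[], by simp⟩)) ⟨hl, h1, rfl⟩ hl'⟩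
      | @pop _ q' _ _ _ _ _ _ h1 h2 =>
        obtain ⟨l', hl'⟩ := ih (⟨[], by simp⟩ : Buf) h2
        exact ⟨l', SM.Run.pop (q := (q', ⟨[], by simp⟩)) ⟨hl, h1, rfl⟩ hl'⟩
    · rw [chop, if_neg hl] at h
      have h8 := l.2
      have h9 : (l.1 ++ [b]).length < 8 := by
        rw [List.length_append, List.length_singleton]
        omega
      obtain ⟨l', hl'⟩ := ih (⟨l.1 ++ [b], h9⟩ : Buf) h
      exact ⟨l', SM.Run.neu (q := (p, ⟨l.1 ++ [b], h9⟩)) (Or.inl
        ⟨by change l.1.length + 1 < 8; omega, rfl, rfl⟩) hl'⟩

/-- The language of bits. -/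
def uni : Language Bool := (binM decM).lang

theorem uni_isContextFree : uni.IsContextFree := SM.isContextFree _

theorem mem_uni (w : List Bool) : w ∈ uni ↔ chop [] w ∈ decM.lang := by
  constructor
  · rintro ⟨q, hq, h⟩
    exact ⟨q.1, hq, binM_run1 decM h⟩
  · rintro ⟨q, hq, h⟩
    obtain ⟨l', hl'⟩ := binM_run2 decM (⟨[], by simp⟩ : Buf) h
    exact ⟨(q, l'), hq, hl'⟩

theorem mem_decM (ts : List (List Bool)) : ts ∈ decM.lang ↔
    ∃ os : List (Option (Sym × Bool)), List.Forall₂ Dec ts os ∧ os.reduceOption ∈ mach.lang := by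
  constructor
  · rintro ⟨q, hq, h⟩
    obtain ⟨os, h1, h2⟩ := decM_run.1 h
    exact ⟨os, h1, q, hq, h2⟩
  · rintro ⟨os, h1, q, hq, h2⟩
    exact ⟨q, hq, decM_run.2 ⟨os, h1, h2⟩⟩

/-! ### Monotonicity -/

theorem dec_mono {t t' : List Bool} (h : List.Forall₂ (fun a b : Bool => a ≤ b) t t')
    {o : Option (Sym × Bool)} (ho : Dec t o) : Dec t' o := by
  have key : ∀ i : ℕ, t[i]? = some true → t'[i]? = some true := by
    intro i hi
    rw [List.getElem?_eq_some_iff] at hi ⊢
    obtain ⟨h1, h2⟩ := hi
    have h3 : i < t'.length := by rw [← h.length_eq]; exact h1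
    refine ⟨h3, ?_⟩
    have h4 := (List.forall₂_iff_get.1 h).2 i h1 h3
    simp only [List.get_eq_getElem] at h4
    rw [h2] at h4
    exact top_le_iff.1 h4
  obtain ⟨a, b, ⟨h1, h2⟩, h3⟩ := ho
  exact ⟨a, b, ⟨key _ h1, key _ h2⟩, h3⟩

theorem chop_mono {w w' : List Bool} (h : List.Forall₂ (fun a b : Bool => a ≤ b) w w')
    {l l' : List Bool} (hl : List.Forall₂ (fun a b : Bool => a ≤ b) l l') :
    List.Forall₂ (List.Forall₂ (fun a b : Bool => a ≤ b)) (chop l w) (chop l' w') := by
  induction h generalizing l l' with
  | nil => exact List.Forall₂.nil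
  | @cons a b w w' h1 _ ih =>
    have h2 : List.Forall₂ (fun a b : Bool => a ≤ b) (l ++ [a]) (l' ++ [b]) :=
      List.rel_append hl (List.Forall₂.cons h1 List.Forall₂.nil)
    by_cases h7 : l.length = 7
    · rw [chop, chop, if_pos h7, if_pos (by rw [← hl.length_eq]; exact h7)]
      exact List.Forall₂.cons h2 (ih List.Forall₂.nil)
    · rw [chop, chop, if_neg h7, if_neg (by rw [← hl.length_eq]; exact h7)]
      exact ih h2

theorem uni_mono {w w' : List Bool} (h : List.Forall₂ (fun a b : Bool => a ≤ b) w w')
    (hw : w ∈ uni) : w' ∈ uni := by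
  rw [mem_uni, mem_decM] at hw ⊢
  obtain ⟨os, h1, h2⟩ := hw
  refine ⟨os, ?_, h2⟩
  have h3 := chop_mono h (List.Forall₂.nil)
  generalize chop [] w = ts at h1 h3
  generalize chop [] w' = ts' at h3 ⊢
  clear h2 h
  induction h1 generalizing ts' with
  | nil =>
    cases h3
    exact List.Forall₂.nil
  | cons h4 _ ih =>
    cases h3 with
    | cons h5 h6 => exact List.Forall₂.cons (dec_mono h5 h4) (ih _ h6)

theorem uni_raise (n : ℕ) (x y : Fin n → Bool) (hxy : x ≤ y) (hx : List.ofFn x ∈ uni) :
    List.ofFn y ∈ uni := by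
  refine uni_mono ?_ hx
  rw [List.forall₂_iff_get]
  refine ⟨by simp, ?_⟩
  intro i h1 h2
  simp only [List.get_eq_getElem, List.getElem_ofFn]
  exact hxy _

/-! ### Words made of blocks -/

theorem chop_block {l b w : List Bool} (hb : (l ++ b).length = 8) (hne : b ≠ []) :
    chop l (b ++ w) = (l ++ b) :: chop [] w := by
  induction b generalizing l with
  | nil => exact absurd rfl hne
  | cons c b ih =>
    rw [List.cons_append, chop]
    by_cases h : l.length = 7
    · have h1 : b = [] := by
        rw [← List.length_eq_zero_iff]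
        rw [List.length_append, List.length_cons] at hb
        omega
      subst h1
      rw [if_pos h]
      simp
    · rw [if_neg h]
      have h2 : b ≠ [] := by
        rintro rfl
        rw [List.length_append, List.length_singleton] at hb
        omega
      rw [ih (by simpa using hb) h2]
      simp

theorem chop_rest {l w : List Bool} (h : (l ++ w).length < 8) : chop l w = [] := by
  induction w generalizing l with
  | nil => rfl
  | cons c w ih =>
    rw [List.length_append, List.length_cons] at h
    rw [chop, if_neg (by omega)]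
    exact ih (by simp only [List.length_append, List.length_singleton]; omega)

theorem chop_flatten (bs : List (List Bool)) (hbs : ∀ b ∈ bs, b.length = 8) (r : List Bool)
    (hr : r.length < 8) : chop [] (bs.flatten ++ r) = bs := by
  induction bs with
  | nil => exact chop_rest (by simpa using hr)
  | cons b bs ih =>
    have hb : b.length = 8 := hbs b (by simp)
    have hne : b ≠ [] := by
      rintro rfl
      simp at hb
    rw [List.flatten_cons, List.append_assoc, chop_block (by simpa using hb) hne,
      ih (fun b' hb' => hbs b' (by simp [hb']))]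
    simp

end Pool.Agent.MP_6216ea_lc.NU
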