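import Mathlib

/-!
# Nondeterministic branching programs with NOT gates, semi-unbounded circuits
-/

set_option autoImplicit false

namespace Pool.Agent.MP_6216ea_lc.NU

/-- A nondeterministic branching program with `T` NOT gates in the variables
`x 0, ..., x (n - 1)`: a finite directed graph with a start and a goal vertex and, for every gate
`j`, a source, a target and a level. An edge has no label, or a label `(l, v)` which stands for
`x l = v`, or a label `(j, v)` which stands for `b j = v`, where the bit `b j` says whether the
target of the gate `j` can be reached from its source (so `b j = false` is the output of the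
`j`-th NOT gate and `b j = true` its input). -/
structure NotNBP (n T : ℕ) where
  V : Type
  fin : Fintype V
  edge : V → Option ((Fin n × Bool) ⊕ (Fin T × Bool)) → V → Prop
  start : V
  goal : V
  source : Fin T → V
  target : Fin T → V
  level : Fin T → ℕ

attribute [instance] NotNBP.fin

/-- Open labels on the input `x` for the bits `b` of the gates, if only the gates in `A` may be
used. -/
def NotNBP.Open {n T : ℕ} (x : Fin n → Bool) (b : Fin T → Bool) (A : Fin T → Prop) :
    Option ((Fin n × Bool) ⊕ (Fin T × Bool)) → Prop
  | none => True
  | some (.inl (l, v)) => x l = v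
  | some (.inr (j, v)) => A j ∧ b j = v

/-- The vertex `t` can be reached from `s` along open edges. -/
def NotNBP.Reach {n T : ℕ} (P : NotNBP n T) (x : Fin n → Bool) (b : Fin T → Bool)
    (A : Fin T → Prop) (s t : P.V) : Prop :=
  Relation.ReflTransGen (fun u v => ∃ l, P.edge u l v ∧ NotNBP.Open x b A l) s t

/-- `b` is the family of the values of the gates on the input `x`: the bit `b j` says whether the
target of the gate `j` can be reached from its source by using only gates of smaller level. -/
def NotNBP.Values {n T : ℕ} (P : NotNBP n T) (x : Fin n → Bool) (b : Fin T → Bool) : Prop :=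
  ∀ j, b j = true ↔ P.Reach x b (fun i => P.level i < P.level j) (P.source j) (P.target j)

/-- The program accepts `x` if the goal can be reached from the start. -/
def NotNBP.Accepts {n T : ℕ} (P : NotNBP n T) (x : Fin n → Bool) : Prop :=
  ∃ b : Fin T → Bool, P.Values x b ∧ P.Reach x b (fun _ => True) P.start P.goal

/-- The vertex `t` can be reached from `s` along open edges on a path on which only variables in
`W` are read negatively. -/
def NotNBP.ReachNeg {n T : ℕ} (P : NotNBP n T) (x : Fin n → Bool) (b : Fin T → Bool)
    (A : Fin T → Prop) (W : Set (Fin n)) (s t : P.V) : Prop :=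
  Relation.ReflTransGen (fun u v => ∃ l, P.edge u l v ∧ NotNBP.Open x b A l ∧
    ∀ i, l = some (.inl (i, false)) → i ∈ W) s t

/-- On every input every reachability statement of the program that is true (for a gate or for
acceptance) holds by a path on which at most `r` variables in `U` are read negatively. -/
def NotNBP.NegReads {n T : ℕ} (P : NotNBP n T) (U : Set (Fin n)) (r : ℕ) : Prop :=
  ∀ (x : Fin n → Bool) (b : Fin T → Bool), P.Values x b →
    (∀ j, P.Reach x b (fun i => P.level i < P.level j) (P.source j) (P.target j) →
      ∃ W : Set (Fin n), (W ∩ U).ncard ≤ r ∧
        P.ReachNeg x b (fun i => P.level i < P.level j) W (P.source j) (P.target j)) ∧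
    (P.Reach x b (fun _ => True) P.start P.goal →
      ∃ W : Set (Fin n), (W ∩ U).ncard ≤ r ∧ P.ReachNeg x b (fun _ => True) W P.start P.goal)

/-- The product over all levels of one plus the number of NOT gates of this level. -/
noncomputable def NotNBP.gates {n T : ℕ} (P : NotNBP n T) : ℕ :=
  ∏ k ∈ Finset.univ.image P.level, (1 + (Finset.univ.filter (fun j => P.level j = k)).card)

/-- A monotone circuit with semi-unbounded fan-in in the variables `x 0, ..., x (n-1)`: every gate
is constant `true`, an input variable, the AND of two gates of smaller level, or the OR of an
arbitrary set of gates of smaller level; `val g x` is the value of the gate `g` on the input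
`x`. -/
structure SemiUnboundedCircuit (n : ℕ) where
  Gate : Type
  fin : Fintype Gate
  level : Gate → ℕ
  val : Gate → (Fin n → Bool) → Prop
  correct : ∀ g,
    (∀ x, val g x) ∨
    (∃ i, ∀ x, val g x ↔ x i = true) ∨
    (∃ a b, level a < level g ∧ level b < level g ∧ ∀ x, (val g x ↔ val a x ∧ val b x)) ∨
    (∃ S : Set Gate, (∀ a ∈ S, level a < level g) ∧ ∀ x, (val g x ↔ ∃ a ∈ S, val a x))
  out : Gate

attribute [instance] SemiUnboundedCircuit.fin

end Pool.Agent.MP_6216ea_lc.NU
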