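import Mathlib
import Pool.Agent.Lib.MP_6216ea_lc.NUDefs
import Pool.Agent.Lib.MP_6216ea_lc.NUDec
import Pool.Agent.Lib.MP_6216ea_lc.NUBal

/-!
# Monotone semi-unbounded circuits for the language of bits
-/

set_option autoImplicit false

namespace Pool.Agent.MP_6216ea_lc.NU

open Classical
open Pool.Agent.MP_6216ea_lc

noncomputable section

/-! ### Families of functions -/

/-- The family `F` is computed by a circuit with at most `s` gates of level at most `L`. -/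
def Fam (n s L : ℕ) {κ : Type} (F : κ → (Fin n → Bool) → Prop) : Prop :=
  ∃ A : SemiUnboundedCircuit n, Fintype.card A.Gate ≤ s ∧ (∀ a, A.level a ≤ L) ∧
    ∃ o : κ → A.Gate, ∀ k x, A.val (o k) x ↔ F k x

/-- The inputs and the constant `true`. -/
def F0 (n : ℕ) : Option (Fin n) → (Fin n → Bool) → Prop
  | none, _ => True
  | some i, x => x i = true

theorem fam0 (n : ℕ) : Fam n (n + 1) 0 (F0 n) := by
  refine ⟨⟨Option (Fin n), inferInstance, fun _ => 0, F0 n, ?_, none⟩, ?_, fun _ => le_rfl,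
    id, fun _ _ => Iff.rfl⟩
  · rintro (_ | i)
    · exact Or.inl (fun _ => trivial)
    · exact Or.inr (Or.inl ⟨i, fun _ => Iff.rfl⟩)
  · change Fintype.card (Option (Fin n)) ≤ n + 1
    simp

/-- The circuit with two more layers. -/
def layer {n : ℕ} (A : SemiUnboundedCircuit n) {κ κ' : Type} [Fintype κ] [Fintype κ'] (L : ℕ)
    (hA : ∀ a, A.level a ≤ L) (o : κ → A.Gate) (S : κ' → Set (κ × κ)) :
    SemiUnboundedCircuit n where
  Gate := A.Gate ⊕ ((κ × κ) ⊕ κ')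
  fin := inferInstance
  level
    | .inl a => A.level a
    | .inr (.inl _) => L + 1
    | .inr (.inr _) => L + 2
  val
    | .inl a => A.val a
    | .inr (.inl p) => fun x => A.val (o p.1) x ∧ A.val (o p.2) x
    | .inr (.inr k) => fun x => ∃ p ∈ S k, A.val (o p.1) x ∧ A.val (o p.2) x
  correct := by
    rintro (a | p | k)
    · rcases A.correct a with h | h | ⟨b, b', h1, h2, h3⟩ | ⟨S, h1, h2⟩
      · exact Or.inl h
      · exact Or.inr (Or.inl h)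
      · exact Or.inr (Or.inr (Or.inl ⟨.inl b, .inl b', h1, h2, h3⟩))
      · refine Or.inr (Or.inr (Or.inr ⟨Sum.inl '' S, ?_, ?_⟩))
        · rintro _ ⟨b, hb, rfl⟩
          exact h1 b hb
        · intro x
          rw [Set.exists_mem_image]
          exact h2 x
    · refine Or.inr (Or.inr (Or.inl ⟨.inl (o p.1), .inl (o p.2), ?_, ?_, fun x => Iff.rfl⟩))
      · exact Nat.lt_succ_of_le (hA _)
      · exact Nat.lt_succ_of_le (hA _)
    · refine Or.inr (Or.inr (Or.inr ⟨(fun p => Sum.inr (Sum.inl p)) '' S k, ?_, ?_⟩))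
      · rintro _ ⟨p, hp, rfl⟩
        exact Nat.lt_succ_self _
      · intro x
        rw [Set.exists_mem_image]
  out := .inl A.out

theorem Fam.layer {n s L : ℕ} {κ κ' : Type} [Fintype κ] [Fintype κ']
    {F : κ → (Fin n → Bool) → Prop} (h : Fam n s L F) (S : κ' → Set (κ × κ))
    {F' : κ' → (Fin n → Bool) → Prop}
    (hF : ∀ k x, F' k x ↔ ∃ p ∈ S k, F p.1 x ∧ F p.2 x) :
    Fam n (s + Fintype.card κ ^ 2 + Fintype.card κ') (L + 2) F' := by
  obtain ⟨A, hA1, hA2, o, ho⟩ := h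
  refine ⟨NU.layer A L hA2 o S, ?_, ?_, fun k => .inr (.inr k), ?_⟩
  · change Fintype.card (A.Gate ⊕ ((κ × κ) ⊕ κ')) ≤ _
    rw [Fintype.card_sum, Fintype.card_sum, Fintype.card_prod, sq]
    omega
  · rintro (a | p | k)
    · exact (hA2 a).trans (by omega)
    · exact Nat.le_succ _
    · exact le_rfl
  · intro k x
    rw [hF]
    refine exists_congr fun p => and_congr Iff.rfl (and_congr (ho _ _) (ho _ _))

/-! ### Cells of the blocks -/

theorem chop_eq (k : ℕ) (w : List Bool) (hw : w.length / 8 = k) :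
    chop [] w = (List.range k).map (fun i => (w.drop (8 * i)).take 8) := by
  induction k generalizing w with
  | zero =>
    rw [chop_rest (by rw [List.nil_append]; omega)]
    rfl
  | succ k ih =>
    have h8 : 8 ≤ w.length := by omega
    have h1 : (w.take 8).length = 8 := by rw [List.length_take]; omega
    have hne : w.take 8 ≠ [] := by
      intro h0
      rw [h0] at h1
      simp at h1
    have e := chop_block (l := []) (b := w.take 8) (w := w.drop 8) (by simpa using h1) hne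
    rw [List.take_append_drop, List.nil_append] at e
    rw [e, ih (w.drop 8) (by rw [List.length_drop]; omega), List.range_succ_eq_map, List.map_cons,
      List.map_map, Nat.mul_zero, List.drop_zero]
    congr 1
    apply List.map_congr_left
    intro i _
    simp only [Function.comp_apply]
    rw [List.drop_drop]
    congr 2
    omega

/-- The blocks of an input. -/
def wrd {n : ℕ} (x : Fin n → Bool) : List (List Bool) := chop [] (List.ofFn x)

theorem length_wrd {n : ℕ} (x : Fin n → Bool) : (wrd x).length = n / 8 := by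
  unfold wrd
  rw [chop_eq _ _ rfl]
  simp

/-- The block `i` allows the cell `(a, b)`. -/
def F1 (n : ℕ) : Option (Fin (n / 8) × Fin 4 × Fin 4) → (Fin n → Bool) → Prop
  | none, _ => True
  | some (i, a, b), x => x ⟨8 * i.1 + a.1, by omega⟩ = true ∧ x ⟨8 * i.1 + (4 + b.1), by omega⟩ = true

theorem wrd_getElem {n : ℕ} (x : Fin n → Bool) (i : ℕ) (hi : i < n / 8) :
    (wrd x)[i]? = some (((List.ofFn x).drop (8 * i)).take 8) := by
  unfold wrd
  rw [chop_eq _ _ rfl, List.getElem?_map, List.getElem?_range (by simpa using hi)]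
  rfl

theorem al_iff {n : ℕ} (x : Fin n → Bool) (i : Fin (n / 8)) (a b : Fin 4) :
    Al (((List.ofFn x).drop (8 * i.1)).take 8) a b ↔ F1 n (some (i, a, b)) x := by
  unfold Al F1
  rw [List.getElem?_take_of_lt (by omega), List.getElem?_take_of_lt (by omega),
    List.getElem?_drop, List.getElem?_drop, List.getElem?_ofFn, List.getElem?_ofFn,
    dif_pos (by omega), dif_pos (by omega)]
  simp

/-- Reading a block in terms of its cells. -/
theorem read_iff {n : ℕ} (x : Fin n → Bool) (i : ℕ) (R : List Bool → Prop)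
    (Φ : Option (Sym × Bool) → Prop) (hR : ∀ t, R t ↔ ∃ o, Dec t o ∧ Φ o) :
    (∃ t, (wrd x)[i]? = some t ∧ R t) ↔
      ∃ (i' : Fin (n / 8)) (a b : Fin 4), i'.1 = i ∧ Φ (tab a b) ∧ F1 n (some (i', a, b)) x := by
  constructor
  · rintro ⟨t, h1, h2⟩
    have hi : i < n / 8 := by
      by_contra hcon
      rw [List.getElem?_eq_none (by rw [length_wrd]; omega)] at h1
      simp at h1
    rw [wrd_getElem x i hi, Option.some.injEq] at h1
    rw [hR] at h2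
    obtain ⟨o, ⟨a, b, h3, h4⟩, h5⟩ := h2
    subst h4
    rw [← h1] at h3
    exact ⟨⟨i, hi⟩, a, b, rfl, h5, (al_iff x ⟨i, hi⟩ a b).1 h3⟩
  · rintro ⟨i', a, b, rfl, h1, h2⟩
    exact ⟨_, wrd_getElem x i'.1 i'.2, (hR _).2 ⟨_, ⟨a, b, (al_iff x i' a b).2 h2, rfl⟩, h1⟩⟩

/-! ### The first rounds -/

/-- Pairs of a state and a position. -/
abbrev Vt (n : ℕ) : Type := St × Fin (n / 8 + 1)

/-- The move on a letter that leaves the stack alone. -/
def neuO (p q : St) : Option (Sym × Bool) → Prop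
  | none => p = q
  | some c => mach.neu p c q

def pushO (p q : St) (s : Bool) : Option (Sym × Bool) → Prop
  | none => False
  | some c => mach.push p c s q

def popO (p q : St) (s : Bool) : Option (Sym × Bool) → Prop
  | none => False
  | some c => mach.pop p c s q

theorem decM_neu (p q : St) (t : List Bool) : decM.neu p t q ↔ ∃ o, Dec t o ∧ neuO p q o := by
  constructor
  · rintro (⟨c, h1, h2⟩ | ⟨h1, h2⟩)
    · exact ⟨some c, h1, h2⟩
    · exact ⟨none, h1, h2⟩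
  · rintro ⟨_ | c, h1, h2⟩
    · exact Or.inr ⟨h1, h2⟩
    · exact Or.inl ⟨c, h1, h2⟩

theorem decM_push (p q : St) (s : Bool) (t : List Bool) :
    decM.push p t s q ↔ ∃ o, Dec t o ∧ pushO p q s o := by
  constructor
  · rintro ⟨c, h1, h2⟩
    exact ⟨some c, h1, h2⟩
  · rintro ⟨_ | c, h1, h2⟩
    · exact h2.elim
    · exact ⟨c, h1, h2⟩

theorem decM_pop (p q : St) (s : Bool) (t : List Bool) :
    decM.pop p t s q ↔ ∃ o, Dec t o ∧ popO p q s o := by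
  constructor
  · rintro ⟨c, h1, h2⟩
    exact ⟨some c, h1, h2⟩
  · rintro ⟨_ | c, h1, h2⟩
    · exact h2.elim
    · exact ⟨c, h1, h2⟩

/-- The paths and implications after `t` rounds. -/
def F2 (n t : ℕ) : (Vt n × Vt n) ⊕ ((Vt n × Vt n) × (Vt n × Vt n)) → (Fin n → Bool) → Prop
  | .inl g, x => (rds (nuW decM (wrd x) (n / 8)) (ppW decM (wrd x) (n / 8)) t).1 g
  | .inr (f, g), x => (rds (nuW decM (wrd x) (n / 8)) (ppW decM (wrd x) (n / 8)) t).2 f g

theorem nuW_iff {n : ℕ} (x : Fin n → Bool) (g : Vt n × Vt n) :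
    nuW decM (wrd x) (n / 8) g ↔ ∃ (i : Fin (n / 8)) (a b : Fin 4), (i.1 = g.1.2.1 ∧
      g.2.2.1 = g.1.2.1 + 1 ∧ neuO g.1.1 g.2.1 (tab a b)) ∧ F1 n (some (i, a, b)) x := by
  have h := read_iff x g.1.2.1 (fun t => decM.neu g.1.1 t g.2.1) (neuO g.1.1 g.2.1)
    (decM_neu g.1.1 g.2.1)
  unfold nuW
  constructor
  · rintro ⟨t, h1, h2, h3⟩
    obtain ⟨i, a, b, h4, h5, h6⟩ := h.1 ⟨t, h1, h3⟩
    exact ⟨i, a, b, ⟨h4, h2, h5⟩, h6⟩
  · rintro ⟨i, a, b, ⟨h4, h2, h5⟩, h6⟩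
    obtain ⟨t, h1, h3⟩ := h.2 ⟨i, a, b, h4, h5, h6⟩
    exact ⟨t, h1, h2, h3⟩

theorem ppW_iff {n : ℕ} (x : Fin n → Bool) (g f : Vt n × Vt n) :
    ppW decM (wrd x) (n / 8) g f ↔
      ∃ (i : Fin (n / 8)) (a b : Fin 4) (j : Fin (n / 8)) (a' b' : Fin 4),
      (∃ s, (i.1 = g.1.2.1 ∧ f.1.2.1 = g.1.2.1 + 1 ∧ pushO g.1.1 f.1.1 s (tab a b)) ∧
        (j.1 = f.2.2.1 ∧ g.2.2.1 = f.2.2.1 + 1 ∧ popO f.2.1 g.2.1 s (tab a' b'))) ∧
      F1 n (some (i, a, b)) x ∧ F1 n (some (j, a', b')) x := by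
  have h := fun s => read_iff x g.1.2.1 (fun t => decM.push g.1.1 t s f.1.1)
    (pushO g.1.1 f.1.1 s) (decM_push g.1.1 f.1.1 s)
  have h' := fun s => read_iff x f.2.2.1 (fun t => decM.pop f.2.1 t s g.2.1)
    (popO f.2.1 g.2.1 s) (decM_pop f.2.1 g.2.1 s)
  unfold ppW
  constructor
  · rintro ⟨t, t', s, ⟨h1, h2, h3⟩, ⟨h4, h5, h6⟩⟩
    obtain ⟨i, a, b, e1, e2, e3⟩ := (h s).1 ⟨t, h1, h3⟩
    obtain ⟨j, a', b', e4, e5, e6⟩ := (h' s).1 ⟨t', h4, h6⟩
    exact ⟨i, a, b, j, a', b', ⟨s, ⟨e1, h2, e2⟩, ⟨e4, h5, e5⟩⟩, e3, e6⟩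
  · rintro ⟨i, a, b, j, a', b', ⟨s, ⟨e1, h2, e2⟩, ⟨e4, h5, e5⟩⟩, e3, e6⟩
    obtain ⟨t, h1, h3⟩ := (h s).2 ⟨i, a, b, e1, e2, e3⟩
    obtain ⟨t', h4, h6⟩ := (h' s).2 ⟨j, a', b', e4, e5, e6⟩
    exact ⟨t, t', s, ⟨h1, h2, h3⟩, ⟨h4, h5, h6⟩⟩

theorem fam1 (n : ℕ) :
    Fam n (n + 1 + Fintype.card (Option (Fin n)) ^ 2 +
      Fintype.card (Option (Fin (n / 8) × Fin 4 × Fin 4))) 2 (F1 n) := by
  refine (fam0 n).layer (fun k => match k with
    | none => {(none, none)}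
    | some (i, a, b) => {(some ⟨8 * i.1 + a.1, by omega⟩, some ⟨8 * i.1 + (4 + b.1), by omega⟩)}) ?_
  rintro (_ | ⟨i, a, b⟩) x
  · simp [F1, F0]
  · simp [F1, F0]

/-- The sets of the first round. -/
def S2 (n : ℕ) : (Vt n × Vt n) ⊕ ((Vt n × Vt n) × (Vt n × Vt n)) →
    Set (Option (Fin (n / 8) × Fin 4 × Fin 4) × Option (Fin (n / 8) × Fin 4 × Fin 4))
  | .inl g => {p | (p = (none, none) ∧ g.1 = g.2) ∨ ∃ (i : Fin (n / 8)) (a b : Fin 4),
      (i.1 = g.1.2.1 ∧ g.2.2.1 = g.1.2.1 + 1 ∧ neuO g.1.1 g.2.1 (tab a b)) ∧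
        p = (some (i, a, b), some (i, a, b))}
  | .inr (f, g) => {p | (p = (none, none) ∧ f = g) ∨
      ∃ (i : Fin (n / 8)) (a b : Fin 4) (j : Fin (n / 8)) (a' b' : Fin 4),
      (∃ s, (i.1 = g.1.2.1 ∧ f.1.2.1 = g.1.2.1 + 1 ∧ pushO g.1.1 f.1.1 s (tab a b)) ∧
        (j.1 = f.2.2.1 ∧ g.2.2.1 = f.2.2.1 + 1 ∧ popO f.2.1 g.2.1 s (tab a' b'))) ∧
      p = (some (i, a, b), some (j, a', b'))}

theorem fam2 (n : ℕ) {s L : ℕ} (h : Fam n s L (F1 n)) :
    Fam n (s + Fintype.card (Option (Fin (n / 8) × Fin 4 × Fin 4)) ^ 2 +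
      Fintype.card ((Vt n × Vt n) ⊕ ((Vt n × Vt n) × (Vt n × Vt n)))) (L + 2) (F2 n 0) := by
  refine h.layer (S2 n) ?_
  rintro (g | ⟨f, g⟩) x
  · change (g.1 = g.2 ∨ nuW decM (wrd x) (n / 8) g) ↔ _
    rw [nuW_iff]
    constructor
    · rintro (h1 | ⟨i, a, b, h1, h2⟩)
      · exact ⟨(none, none), Or.inl ⟨rfl, h1⟩, trivial, trivial⟩
      · exact ⟨_, Or.inr ⟨i, a, b, h1, rfl⟩, h2, h2⟩
    · rintro ⟨p, ⟨rfl, h1⟩ | ⟨i, a, b, h1, rfl⟩, h2, _⟩
      · exact Or.inl h1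
      · exact Or.inr ⟨i, a, b, h1, h2⟩
  · change (f = g ∨ ppW decM (wrd x) (n / 8) g f) ↔ _
    rw [ppW_iff]
    constructor
    · rintro (h1 | ⟨i, a, b, j, a', b', h1, h2, h3⟩)
      · exact ⟨(none, none), Or.inl ⟨rfl, h1⟩, trivial, trivial⟩
      · exact ⟨_, Or.inr ⟨i, a, b, j, a', b', h1, rfl⟩, h2, h3⟩
    · rintro ⟨p, ⟨rfl, h1⟩ | ⟨i, a, b, j, a', b', h1, rfl⟩, h2, h3⟩
      · exact Or.inl h1
      · exact Or.inr ⟨i, a, b, j, a', b', h1, h2, h3⟩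

/-- The sets of the other rounds. -/
def S3 {V : Type} : (V × V) ⊕ ((V × V) × (V × V)) →
    Set (((V × V) ⊕ ((V × V) × (V × V))) × ((V × V) ⊕ ((V × V) × (V × V))))
  | .inl g => {p | (∃ v, p = (.inl (g.1, v), .inl (v, g.2))) ∨ ∃ f, p = (.inl f, .inr (f, g))}
  | .inr (f, g) => {p | (f.1 = g.1 ∧ p = (.inl (f.2, g.2), .inl (f.2, g.2))) ∨
      (f.2 = g.2 ∧ p = (.inl (g.1, f.1), .inl (g.1, f.1))) ∨
      ∃ h, p = (.inr (f, h), .inr (h, g))}

theorem fam3 (n t : ℕ) {s L : ℕ} (h : Fam n s L (F2 n t)) :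
    Fam n (s + Fintype.card ((Vt n × Vt n) ⊕ ((Vt n × Vt n) × (Vt n × Vt n))) ^ 2 +
      Fintype.card ((Vt n × Vt n) ⊕ ((Vt n × Vt n) × (Vt n × Vt n)))) (L + 2)
      (F2 n (t + 1)) := by
  refine h.layer (S3 (V := Vt n)) ?_
  rintro (g | ⟨f, g⟩) x
  · constructor
    · rintro (⟨v, h1, h2⟩ | ⟨f, h1, h2⟩)
      · exact ⟨_, Or.inl ⟨v, rfl⟩, h1, h2⟩
      · exact ⟨_, Or.inr ⟨f, rfl⟩, h1, h2⟩
    · rintro ⟨p, ⟨v, rfl⟩ | ⟨f, rfl⟩, h1, h2⟩
      · exact Or.inl ⟨v, h1, h2⟩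
      · exact Or.inr ⟨f, h1, h2⟩
  · constructor
    · rintro (⟨h1, h2⟩ | ⟨h1, h2⟩ | ⟨h, h1, h2⟩)
      · exact ⟨_, Or.inl ⟨h1, rfl⟩, h2, h2⟩
      · exact ⟨_, Or.inr (Or.inl ⟨h1, rfl⟩), h2, h2⟩
      · exact ⟨_, Or.inr (Or.inr ⟨h, rfl⟩), h1, h2⟩
    · rintro ⟨p, ⟨h1, rfl⟩ | ⟨h1, rfl⟩ | ⟨h, rfl⟩, h2, h3⟩
      · exact Or.inl ⟨h1, h2⟩
      · exact Or.inr (Or.inl ⟨h1, h2⟩)
      · exact Or.inr (Or.inr ⟨h, h2, h3⟩)

/-- The number of functions of a round. -/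
def kap (n : ℕ) : ℕ := Fintype.card ((Vt n × Vt n) ⊕ ((Vt n × Vt n) × (Vt n × Vt n)))

theorem fam4 (n t : ℕ) {s L : ℕ} (h : Fam n s L (F2 n 0)) :
    Fam n (s + t * (kap n ^ 2 + kap n)) (L + 2 * t) (F2 n t) := by
  induction t with
  | zero => simpa using h
  | succ t ih =>
    have h1 := fam3 n t ih
    change Fam n (s + t * (kap n ^ 2 + kap n) + kap n ^ 2 + kap n) (L + 2 * t + 2) _ at h1
    have e1 : s + t * (kap n ^ 2 + kap n) + kap n ^ 2 + kap n =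
        s + (t + 1) * (kap n ^ 2 + kap n) := by ring
    have e2 : L + 2 * t + 2 = L + 2 * (t + 1) := by ring
    rw [e1, e2] at h1
    exact h1

theorem fam5 (n t : ℕ) (ht : 2 * (n / 8) + 1 ≤ 2 ^ t) {s L : ℕ} (h : Fam n s L (F2 n (4 * t))) :
    Fam n (s + kap n ^ 2 + 1) (L + 2) (fun (_ : Unit) x => List.ofFn x ∈ uni) := by
  have h1 := h.layer (κ' := Unit) (fun _ => {p | ∃ q, mach.acc q ∧
    p = (.inl ((mach.start, 0), (q, Fin.last (n / 8))),
      .inl ((mach.start, 0), (q, Fin.last (n / 8))))})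
    (F' := fun (_ : Unit) x => List.ofFn x ∈ uni) (by
      intro _ x
      rw [mem_uni]
      have h2 := mem_lang_rds (M := decM) (w := wrd x) (m := n / 8) (length_wrd x) t ht
      rw [wrd] at h2
      rw [h2]
      constructor
      · rintro ⟨q, hq, h3⟩
        exact ⟨_, ⟨q, hq, rfl⟩, h3, h3⟩
      · rintro ⟨p, ⟨q, hq, rfl⟩, h3, _⟩
        exact ⟨q, hq, h3⟩)
  exact h1

end

end Pool.Agent.MP_6216ea_lc.NU
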