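import Mathlib
import Pool.Agent.Lib.MP_6216ea_lc.Machine
import Pool.Agent.Lib.MP_6216ea_lc.MDefs

set_option autoImplicit false

namespace Pool.Agent.MP_6216ea_lc

noncomputable section

/-! ### Codes of states -/

/-- The stack code of the state `a`, top first. -/
def enc {k : ℕ} (a : Fin k) : List Bool := List.replicate a true ++ [false]

theorem enc_inj_aux (m n : ℕ) (s s' : List Bool)
    (h : List.replicate m true ++ false :: s = List.replicate n true ++ false :: s') :
    m = n ∧ s = s' := by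
  induction m generalizing n with
  | zero =>
    cases n with
    | zero => simpa using h
    | succ n => simp [List.replicate_succ] at h
  | succ m ih =>
    cases n with
    | zero => simp [List.replicate_succ] at h
    | succ n =>
      simp only [List.replicate_succ, List.cons_append, List.cons.injEq, true_and] at h
      obtain ⟨h1, h2⟩ := ih n h
      exact ⟨by rw [h1], h2⟩

theorem enc_inj {k : ℕ} {a b : Fin k} {s s' : List Bool} (h : enc a ++ s = enc b ++ s') :
    a = b ∧ s = s' := by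
  simp only [enc, List.append_assoc, List.cons_append, List.nil_append] at h
  obtain ⟨h1, h2⟩ := enc_inj_aux _ _ _ _ h
  exact ⟨Fin.ext h1, h2⟩

def pushE {k : ℕ} (a : Fin k) : List Sym := .push false :: List.replicate a (.push true)
def popE {k : ℕ} (a : Fin k) : List Sym := List.replicate a (.pop true) ++ [.pop false]

theorem BE_replicate_push (m : ℕ) (l : List Sym) (s s' : List Bool) :
    BE (List.replicate m (.push true) ++ l) s s' ↔ BE l (List.replicate m true ++ s) s' := by
  induction m generalizing s with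
  | zero => simp
  | succ m ih =>
    rw [List.replicate_succ, List.cons_append, BE, ih, List.replicate_succ', List.append_assoc]
    rfl

theorem BE_pushE {k : ℕ} (a : Fin k) (l : List Sym) (s s' : List Bool) :
    BE (pushE a ++ l) s s' ↔ BE l (enc a ++ s) s' := by
  rw [pushE, List.cons_append, BE, BE_replicate_push, enc, List.append_assoc]
  rfl

theorem BE_replicate_pop (m : ℕ) (l : List Sym) (s s' : List Bool) :
    BE (List.replicate m (.pop true) ++ l) s s' ↔
      ∃ s0, s = List.replicate m true ++ s0 ∧ BE l s0 s' := by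
  induction m generalizing s with
  | zero => simp
  | succ m ih =>
    rw [List.replicate_succ, List.cons_append, BE]
    constructor
    · rintro ⟨s1, rfl, h⟩
      obtain ⟨s0, rfl, h'⟩ := (ih _).1 h
      exact ⟨s0, by simp [List.replicate_succ], h'⟩
    · rintro ⟨s0, rfl, h⟩
      exact ⟨List.replicate m true ++ s0, by simp [List.replicate_succ], (ih _).2 ⟨s0, rfl, h⟩⟩

theorem BE_popE {k : ℕ} (a : Fin k) (l : List Sym) (s s' : List Bool) :
    BE (popE a ++ l) s s' ↔ ∃ s0, s = enc a ++ s0 ∧ BE l s0 s' := by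
  rw [popE, List.append_assoc, BE_replicate_pop]
  constructor
  · rintro ⟨s0, rfl, h⟩
    simp only [List.cons_append, List.nil_append, BE] at h
    obtain ⟨s1, rfl, h⟩ := h
    exact ⟨s1, by simp [enc], h⟩
  · rintro ⟨s0, rfl, h⟩
    refine ⟨false :: s0, by simp [enc], ?_⟩
    simp only [List.cons_append, List.nil_append, BE]
    exact ⟨s0, rfl, h⟩

theorem BE_nil {s s' : List Bool} : BE [] s s' ↔ s = s' := Iff.rfl

theorem blk_pushE {k : ℕ} (a : Fin k) : Blk (pushE a) := by
  intro t ht
  simp only [pushE, List.mem_cons, List.mem_replicate] at ht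
  rcases ht with rfl | ⟨_, rfl⟩
  · exact ⟨_, Or.inl rfl⟩
  · exact ⟨_, Or.inl rfl⟩

theorem blk_popE {k : ℕ} (a : Fin k) : Blk (popE a) := by
  intro t ht
  simp only [popE, List.mem_append, List.mem_replicate, List.mem_singleton] at ht
  rcases ht with ⟨_, rfl⟩ | rfl
  · exact ⟨_, Or.inr rfl⟩
  · exact ⟨_, Or.inr rfl⟩

theorem Blk.append {l l' : List Sym} (h : Blk l) (h' : Blk l') : Blk (l ++ l') := by
  intro t ht
  rcases List.mem_append.1 ht with ht | ht
  · exact h t ht
  · exact h' t ht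

/-- The block of an option `(a, a')` of an edge segment. -/
def edgeB {k : ℕ} (p : Fin k × Fin k) : List Sym := popE p.1 ++ (pushE p.1 ++ pushE p.2)

theorem blk_edgeB {k : ℕ} (p : Fin k × Fin k) : Blk (edgeB p) :=
  (blk_popE _).append ((blk_pushE _).append (blk_pushE _))

/-! ### Segments -/

/-- The word `W` is a segment whose enabled options are the blocks `B i` with `bit i`. -/
def SegSem {ι : Type} (B : ι → List Sym) (bit : ι → Prop) (W : List (Sym × Bool)) : Prop :=
  (∃ b W', W = (.seg, b) :: W') ∧ ∀ w s s', SegStart w →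
    (RR (W ++ w) s s' ↔ ∃ i, bit i ∧ ∃ s1, BE (B i) s s1 ∧ RR w s1 s')

theorem segSem_of {ι : Type} (B : ι → List Sym) (bit : ι → Prop) (b : Bool)
    (os : List (Bool × List (Sym × Bool))) (hos : ∀ o ∈ os, Blk (o.2.map Prod.fst))
    (hC : ∀ Φ : List Sym → Prop, (∃ o ∈ os, o.1 = true ∧ Φ (o.2.map Prod.fst)) ↔
      ∃ i, bit i ∧ Φ (B i)) : SegSem B bit ((.seg, b) :: encOpts os) := by
  refine ⟨⟨b, _, rfl⟩, ?_⟩
  intro w s s' hw
  rw [List.cons_append, RR_seg b os hos hw]
  exact hC (fun l => ∃ s1, BE l s s1 ∧ RR w s1 s')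

/-- The pattern of a segment with blocks `B i`, `i ∈ L`. -/
def optPat {ι : Type} (B : ι → List Sym) (L : List ι) : List Sym :=
  L.flatMap (fun i => .opt :: B i)

def segPat {ι : Type} [Fintype ι] (B : ι → List Sym) : List Sym :=
  .seg :: optPat B Finset.univ.toList

/-- A pattern with the bits `x o, x (o + 1), ...` -/
def wd (x : ℕ → Bool) : ℕ → List Sym → List (Sym × Bool)
  | _, [] => []
  | o, c :: P => (c, x o) :: wd x (o + 1) P

theorem wd_append (x : ℕ → Bool) (o : ℕ) (P P' : List Sym) :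
    wd x o (P ++ P') = wd x o P ++ wd x (o + P.length) P' := by
  induction P generalizing o with
  | nil => simp [wd]
  | cons c P ih =>
    simp only [List.cons_append, wd, ih, List.length_cons]
    rw [show o + 1 + P.length = o + (P.length + 1) by ring]

theorem wd_map_fst (x : ℕ → Bool) (o : ℕ) (P : List Sym) : (wd x o P).map Prod.fst = P := by
  induction P generalizing o with
  | nil => rfl
  | cons c P ih => simp [wd, ih]

/-- The position of the mark of option `i`. -/
def posOf {ι : Type} [DecidableEq ι] (B : ι → List Sym) : List ι → ℕ → ι → ℕ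
  | [], o, _ => o
  | j :: L, o, i => if i = j then o else posOf B L (o + 1 + (B j).length) i

/-- The options of `wd x o (optPat B L)`. -/
def wdOpts {ι : Type} (x : ℕ → Bool) (B : ι → List Sym) : ℕ → List ι →
    List (Bool × List (Sym × Bool))
  | _, [] => []
  | o, i :: L => (x o, wd x (o + 1) (B i)) :: wdOpts x B (o + 1 + (B i).length) L

theorem wd_optPat {ι : Type} (x : ℕ → Bool) (B : ι → List Sym) (o : ℕ) (L : List ι) :
    wd x o (optPat B L) = encOpts (wdOpts x B o L) := by
  induction L generalizing o with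
  | nil => rfl
  | cons i L ih =>
    have e : optPat B (i :: L) = (.opt :: B i) ++ optPat B L := by simp [optPat]
    rw [e, wd_append, show o + (Sym.opt :: B i).length = o + 1 + (B i).length by
      simp [add_assoc, add_comm 1], ih]
    simp [encOpts, wdOpts, wd]

theorem wdOpts_blk {ι : Type} (x : ℕ → Bool) (B : ι → List Sym) (hB : ∀ i, Blk (B i)) (o : ℕ)
    (L : List ι) : ∀ p ∈ wdOpts x B o L, Blk (p.2.map Prod.fst) := by
  induction L generalizing o with
  | nil => simp [wdOpts]
  | cons i L ih =>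
    intro p hp
    simp only [wdOpts, List.mem_cons] at hp
    rcases hp with rfl | hp
    · simp only [wd_map_fst]; exact hB i
    · exact ih _ p hp

theorem wdOpts_iff {ι : Type} [DecidableEq ι] (x : ℕ → Bool) (B : ι → List Sym) (o : ℕ)
    (L : List ι) (hL : L.Nodup) (Φ : List Sym → Prop) :
    (∃ p ∈ wdOpts x B o L, p.1 = true ∧ Φ (p.2.map Prod.fst)) ↔
      ∃ i ∈ L, x (posOf B L o i) = true ∧ Φ (B i) := by
  induction L generalizing o with
  | nil => simp [wdOpts]
  | cons j L ih =>
    rw [List.nodup_cons] at hL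
    simp only [wdOpts, List.mem_cons, exists_eq_or_imp, wd_map_fst, posOf, if_true]
    rw [ih _ hL.2]
    apply or_congr Iff.rfl
    apply exists_congr
    intro i
    constructor
    · rintro ⟨hi, h⟩
      have hij : i ≠ j := by rintro rfl; exact hL.1 hi
      rw [if_neg hij]
      exact ⟨hi, h⟩
    · rintro ⟨hi, h⟩
      have hij : i ≠ j := by rintro rfl; exact hL.1 hi
      rw [if_neg hij] at h
      exact ⟨hi, h⟩

/-- Bits of the options of a segment at offset `o`. -/
def segBit {ι : Type} [Fintype ι] [DecidableEq ι] (B : ι → List Sym) (x : ℕ → Bool) (o : ℕ)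
    (i : ι) : Prop := x (posOf B Finset.univ.toList (o + 1) i) = true

theorem segSem_wd {ι : Type} [Fintype ι] [DecidableEq ι] (B : ι → List Sym) (hB : ∀ i, Blk (B i))
    (x : ℕ → Bool) (o : ℕ) : SegSem B (segBit B x o) (wd x o (segPat B)) := by
  have e : wd x o (segPat B) = (.seg, x o) :: encOpts (wdOpts x B (o + 1) Finset.univ.toList) := by
    rw [segPat, wd, wd_optPat]
  rw [e]
  apply segSem_of
  · exact wdOpts_blk x B hB _ _
  · intro Φ
    rw [wdOpts_iff x B _ _ (Finset.nodup_toList _)]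
    simp [segBit]

/-! ### Templates -/

/-- Evaluation of a template: a letter together with a variable or the constant `true`. -/
def ev {k : ℕ} (X : Var k → Bool) (p : Sym × Option (Var k)) : Sym × Bool :=
  (p.1, match p.2 with | none => true | some i => X i)

/-- A segment with variables at the option marks. -/
def segTpl {ι : Type} [Fintype ι] {k : ℕ} (B : ι → List Sym) (v : ι → Option (Var k)) :
    List (Sym × Option (Var k)) :=
  (.seg, none) :: Finset.univ.toList.flatMap (fun i => (.opt, v i) :: (B i).map (fun c => (c, none)))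

theorem segTpl_fst {ι : Type} [Fintype ι] {k : ℕ} (B : ι → List Sym) (v : ι → Option (Var k)) :
    (segTpl B v).map Prod.fst = segPat B := by
  simp only [segTpl, segPat, optPat, List.map_cons, List.map_flatMap, List.map_map]
  congr 2
  funext i
  congr 1
  have : (Prod.fst ∘ fun c : Sym => (c, (none : Option (Var k)))) = id := rfl
  rw [this, List.map_id]

/-- the truth value of a variable or constant -/
def bitOf {k : ℕ} (X : Var k → Bool) : Option (Var k) → Prop
  | none => True
  | some i => X i = true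

theorem segSem_tpl {ι : Type} [Fintype ι] {k : ℕ} (B : ι → List Sym) (hB : ∀ i, Blk (B i))
    (v : ι → Option (Var k)) (X : Var k → Bool) :
    SegSem B (fun i => bitOf X (v i)) ((segTpl B v).map (ev X)) := by
  have e : (segTpl B v).map (ev X) = (.seg, true) :: encOpts (Finset.univ.toList.map
      (fun i => ((ev X (.opt, v i)).2, (B i).map (fun c => (c, true))))) := by
    simp only [segTpl, encOpts, List.map_cons, List.map_flatMap, List.flatMap_map, List.map_map]
    rfl
  rw [e]
  apply segSem_of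
  · intro o ho
    rw [List.mem_map] at ho
    obtain ⟨i, _, rfl⟩ := ho
    simp only [List.map_map]
    have : (Prod.fst ∘ fun c : Sym => (c, true)) = id := rfl
    rw [this, List.map_id]
    exact hB i
  · intro Φ
    have hid : (Prod.fst ∘ fun c : Sym => (c, true)) = id := rfl
    constructor
    · rintro ⟨o, ho, h1, h2⟩
      rw [List.mem_map] at ho
      obtain ⟨i, _, rfl⟩ := ho
      simp only [List.map_map, hid, List.map_id] at h2
      refine ⟨i, ?_, h2⟩
      simp only [ev] at h1
      cases hv : v i with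
      | none => trivial
      | some j => rw [hv] at h1; exact h1
    · rintro ⟨i, h1, h2⟩
      refine ⟨_, List.mem_map.2 ⟨i, by simp, rfl⟩, ?_, ?_⟩
      · simp only [ev]
        cases hv : v i with
        | none => rfl
        | some j => rw [hv] at h1; exact h1
      · simp only [List.map_map, hid, List.map_id]; exact h2

/-! ### Tree words -/

/-- The word `W` pops the code of some state `a` with `P a`. -/
def TSem {k : ℕ} (P : Fin k → Prop) (W : List (Sym × Bool)) : Prop :=
  (∃ b W', W = (.seg, b) :: W') ∧ ∀ w s s', SegStart w →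
    (RR (W ++ w) s s' ↔ ∃ a s0, P a ∧ s = enc a ++ s0 ∧ RR w s0 s')

theorem segStart_append {W w : List (Sym × Bool)} (h : ∃ b W', W = (Sym.seg, b) :: W') :
    SegStart (W ++ w) := by
  obtain ⟨b, W', rfl⟩ := h
  exact Or.inr ⟨b, W' ++ w, rfl⟩

theorem TSem_leaf {k : ℕ} {bit : Fin k → Prop} {W : List (Sym × Bool)}
    (h : SegSem (popE (k := k)) bit W) : TSem bit W := by
  refine ⟨h.1, fun w s s' hw => ?_⟩
  rw [h.2 w s s' hw]
  constructor
  · rintro ⟨a, ha, s1, h1, h2⟩
    have h3 := (BE_popE a [] s s1).1 (by simpa using h1)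
    obtain ⟨s0, rfl, h4⟩ := h3
    rw [BE_nil] at h4
    subst h4
    exact ⟨a, s0, ha, rfl, h2⟩
  · rintro ⟨a, s0, ha, rfl, h2⟩
    refine ⟨a, ha, s0, ?_, h2⟩
    have h3 := (BE_popE a [] (enc a ++ s0) s0).2 ⟨s0, rfl, rfl⟩
    simpa using h3

theorem edge_sem {k : ℕ} {bit : Fin k × Fin k → Prop} {W : List (Sym × Bool)}
    (h : SegSem (edgeB (k := k)) bit W) (w : List (Sym × Bool)) (hw : SegStart w)
    (s s' : List Bool) :
    RR (W ++ w) s s' ↔ ∃ a a' s0, bit (a, a') ∧ s = enc a ++ s0 ∧
      RR w (enc a' ++ (enc a ++ s0)) s' := by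
  rw [h.2 w s s' hw]
  constructor
  · rintro ⟨⟨a, a'⟩, ha, s1, h1, h2⟩
    have h3 := (BE_popE a (pushE a ++ pushE a') s s1).1 h1
    obtain ⟨s0, rfl, h4⟩ := h3
    rw [BE_pushE] at h4
    have h5 := (BE_pushE a' [] _ _).1 (by simpa using h4)
    rw [BE_nil] at h5
    subst h5
    exact ⟨a, a', s0, ha, rfl, h2⟩
  · rintro ⟨a, a', s0, ha, rfl, h2⟩
    refine ⟨(a, a'), ha, enc a' ++ (enc a ++ s0), ?_, h2⟩
    refine (BE_popE a (pushE a ++ pushE a') _ _).2 ⟨s0, rfl, ?_⟩
    rw [BE_pushE]
    have := (BE_pushE a' [] (enc a ++ s0) (enc a' ++ (enc a ++ s0))).2 rfl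
    simpa using this

theorem TSem_node {k : ℕ} {x0 x1 : Fin k × Fin k → Prop} {P0 P1 e : Fin k → Prop}
    {E0 W0 E1 W1 E : List (Sym × Bool)} (hE0 : SegSem (edgeB (k := k)) x0 E0) (hW0 : TSem P0 W0)
    (hE1 : SegSem (edgeB (k := k)) x1 E1) (hW1 : TSem P1 W1) (hE : SegSem (popE (k := k)) e E) :
    TSem (fun a => (∃ a', x0 (a, a') ∧ P0 a') ∧ (∃ a', x1 (a, a') ∧ P1 a') ∧ e a)
      (E0 ++ (W0 ++ (E1 ++ (W1 ++ E)))) := by
  have hT := TSem_leaf hE
  refine ⟨?_, fun w s s' hw => ?_⟩
  · obtain ⟨b, W', rfl⟩ := hE0.1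
    exact ⟨b, _, rfl⟩
  · simp only [List.append_assoc]
    have hs4 : SegStart (E ++ w) := segStart_append hE.1
    have hs3 : SegStart (W1 ++ (E ++ w)) := segStart_append hW1.1
    have hs2 : SegStart (E1 ++ (W1 ++ (E ++ w))) := segStart_append hE1.1
    have hs1 : SegStart (W0 ++ (E1 ++ (W1 ++ (E ++ w)))) := segStart_append hW0.1
    rw [edge_sem hE0 _ hs1]
    constructor
    · rintro ⟨a, a', s0, hx0, rfl, h⟩
      rw [hW0.2 _ _ _ hs2] at h
      obtain ⟨a1, s1, hP0, he, h⟩ := h
      obtain ⟨rfl, rfl⟩ := enc_inj he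
      rw [edge_sem hE1 _ hs3] at h
      obtain ⟨a2, a3, s2, hx1, he, h⟩ := h
      obtain ⟨rfl, rfl⟩ := enc_inj he
      rw [hW1.2 _ _ _ hs4] at h
      obtain ⟨a4, s4, hP1, he, h⟩ := h
      obtain ⟨rfl, rfl⟩ := enc_inj he
      rw [hT.2 _ _ _ hw] at h
      obtain ⟨a5, s5, hP5, he, h⟩ := h
      obtain ⟨rfl, rfl⟩ := enc_inj he
      exact ⟨a, s0, ⟨⟨_, hx0, hP0⟩, ⟨_, hx1, hP1⟩, hP5⟩, rfl, h⟩
    · rintro ⟨a, s0, ⟨⟨a0, hx0, hP0⟩, ⟨a1, hx1, hP1⟩, he⟩, rfl, h⟩
      refine ⟨a, a0, s0, hx0, rfl, ?_⟩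
      rw [hW0.2 _ _ _ hs2]
      refine ⟨a0, enc a ++ s0, hP0, rfl, ?_⟩
      rw [edge_sem hE1 _ hs3]
      refine ⟨a, a1, s0, hx1, rfl, ?_⟩
      rw [hW1.2 _ _ _ hs4]
      refine ⟨a1, enc a ++ s0, hP1, rfl, ?_⟩
      rw [hT.2 _ _ _ hw]
      exact ⟨a, s0, he, rfl, h⟩

/-- Semantics of the whole word. -/
theorem full_sem {k : ℕ} {i P : Fin k → Prop} {pad I W : List (Sym × Bool)}
    (hpad : ∀ t ∈ pad, t.1 = Sym.opt)
    (hI : SegSem (pushE (k := k)) i I) (hW : TSem P W) :
    pad ++ (I ++ W) ∈ mach.lang ↔ ∃ a, i a ∧ P a := by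
  rw [mem_lang_iff, RR_pad pad hpad, hI.2 W [] [] (by
    obtain ⟨b, W', rfl⟩ := hW.1
    exact Or.inr ⟨b, W', rfl⟩)]
  have hW' : ∀ s s', RR W s s' ↔ ∃ a s0, P a ∧ s = enc a ++ s0 ∧ s0 = s' := by
    intro s s'
    have := hW.2 [] s s' (Or.inl rfl)
    rw [List.append_nil] at this
    rw [this]
    simp only [RR_nil]
  constructor
  · rintro ⟨a, hi, s1, h1, h2⟩
    have h3 := (BE_pushE a [] [] s1).1 (by simpa using h1)
    rw [BE_nil] at h3
    subst h3
    rw [hW'] at h2
    obtain ⟨a', s0, hP, he, _⟩ := h2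
    obtain ⟨rfl, _⟩ := enc_inj he
    exact ⟨a, hi, hP⟩
  · rintro ⟨a, hi, hP⟩
    refine ⟨a, hi, enc a ++ [], ?_, ?_⟩
    · have := (BE_pushE a [] [] (enc a ++ [])).2 rfl
      simpa using this
    · rw [hW']
      exact ⟨a, [], hP, rfl, rfl⟩

end

end Pool.Agent.MP_6216ea_lc
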