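import Mathlib
import Pool.Agent.Lib.MP_6216ea_lc.Words

set_option autoImplicit false

namespace Pool.Agent.MP_6216ea_lc

noncomputable section

theorem TSem.congr {k : ℕ} {P P' : Fin k → Prop} {W : List (Sym × Bool)} (h : TSem P W)
    (hP : ∀ a, P a ↔ P' a) : TSem P' W := by
  have : P = P' := funext fun a => propext (hP a)
  rw [← this]
  exact h

/-- The pattern of the word of a tree of height `m`. -/
def pat (k : ℕ) : ℕ → List Sym
  | 0 => segPat (popE (k := k))
  | m + 1 => segPat (edgeB (k := k)) ++ (pat k m ++ (segPat (edgeB (k := k)) ++
      (pat k m ++ segPat (popE (k := k)))))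

/-- The template of the word of the subtree at `v`. -/
def tpl (k : ℕ) : ℕ → List Bool → List (Sym × Option (Var k))
  | 0, _ => segTpl (popE (k := k)) (fun _ => none)
  | m + 1, v => segTpl (edgeB (k := k)) (fun p => some (v, false, p.1, p.2)) ++
      (tpl k m (false :: v) ++ (segTpl (edgeB (k := k)) (fun p => some (v, true, p.1, p.2)) ++
      (tpl k m (true :: v) ++ segTpl (popE (k := k)) (fun _ => none))))

theorem tpl_fst (k m : ℕ) (v : List Bool) : (tpl k m v).map Prod.fst = pat k m := by
  induction m generalizing v with
  | zero => exact segTpl_fst _ _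
  | succ m ih => simp only [tpl, pat, List.map_append, segTpl_fst, ih]

theorem tpl_sem (k m : ℕ) (v : List Bool) (X : Var k → Bool) :
    TSem (G (fun i => X i = true) m v) ((tpl k m v).map (ev X)) := by
  induction m generalizing v with
  | zero =>
    refine (TSem_leaf (segSem_tpl popE blk_popE (fun _ => none) X)).congr ?_
    intro a
    simp [bitOf, G]
  | succ m ih =>
    simp only [tpl, List.map_append]
    refine (TSem_node (segSem_tpl edgeB blk_edgeB _ X) (ih (false :: v))
      (segSem_tpl edgeB blk_edgeB _ X) (ih (true :: v))
      (segSem_tpl popE blk_popE (fun _ => none) X)).congr ?_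
    intro a
    simp [bitOf, G]

/-- Length of an edge segment. -/
def lenE (k : ℕ) : ℕ := (segPat (edgeB (k := k))).length

variable (k h o0 : ℕ)

/-- The offset of the subtree word of `v` in the whole word. -/
def off : List Bool → ℕ
  | [] => o0
  | b :: v => off v + lenE k + (if b then (pat k (h - v.length - 1)).length + lenE k else 0)

/-- The bit of the option `(a, a')` of the segment of the edge from `v` to `b :: v`. -/
def eBit (x : ℕ → Bool) (v : List Bool) (b : Bool) (a a' : Fin k) : Prop :=
  segBit (edgeB (k := k)) x
    (off k h o0 v + (if b then lenE k + (pat k (h - v.length - 1)).length else 0)) (a, a')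

/-- The bit of the option `a` of the last segment of the subtree at `v`. -/
def nBit (x : ℕ → Bool) (v : List Bool) (a : Fin k) : Prop :=
  segBit (popE (k := k)) x
    (off k h o0 v + (if v.length < h then
      lenE k + (pat k (h - v.length - 1)).length + lenE k + (pat k (h - v.length - 1)).length
      else 0)) a

/-- The predicate of states of `v` popped by the word of the subtree at `v`. -/
def GB (x : ℕ → Bool) : ℕ → List Bool → Fin k → Prop
  | 0, v, a => nBit k h o0 x v a
  | m + 1, v, a => (∃ a', eBit k h o0 x v false a a' ∧ GB x m (false :: v) a') ∧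
      (∃ a', eBit k h o0 x v true a a' ∧ GB x m (true :: v) a') ∧ nBit k h o0 x v a

theorem wd_sem (x : ℕ → Bool) (m : ℕ) (v : List Bool) (hm : v.length + m = h) :
    TSem (GB k h o0 x m v) (wd x (off k h o0 v) (pat k m)) := by
  induction m generalizing v with
  | zero =>
    refine (TSem_leaf (segSem_wd popE blk_popE x _)).congr ?_
    intro a
    have : ¬ v.length < h := by omega
    simp [GB, nBit, this]
  | succ m ih =>
    have h1 : h - v.length - 1 = m := by omega
    have h2 : v.length < h := by omega
    have ihf := ih (false :: v) (by simp; omega)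
    have iht := ih (true :: v) (by simp; omega)
    simp only [pat, wd_append]
    have e1 : off k h o0 v + (segPat (edgeB (k := k))).length = off k h o0 (false :: v) := by
      simp [off, lenE]
    have e2 : off k h o0 (false :: v) + (pat k m).length + (segPat (edgeB (k := k))).length =
        off k h o0 (true :: v) := by
      simp only [off, lenE, h1, if_true, Bool.false_eq_true, if_false]
      ring
    rw [e1, e2]
    refine (TSem_node (segSem_wd edgeB blk_edgeB x _) ihf (segSem_wd edgeB blk_edgeB x _) iht
      (segSem_wd popE blk_popE x _)).congr ?_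
    intro a
    have e3 : off k h o0 (false :: v) + (pat k m).length =
        off k h o0 v + (lenE k + (pat k m).length) := by
      simp only [off, Bool.false_eq_true, if_false]
      ring
    have e4 : off k h o0 (true :: v) + (pat k m).length =
        off k h o0 v + (lenE k + (pat k m).length + lenE k + (pat k m).length) := by
      simp only [off, h1, if_true]
      ring
    rw [e3, e4]
    simp only [GB, eBit, nBit, h1, h2, if_true, Bool.false_eq_true, if_false, Nat.add_zero]

/-! ### Lengths -/

theorem length_optPat_le {ι : Type} (B : ι → List Sym) (M : ℕ) (hB : ∀ i, (B i).length ≤ M)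
    (L : List ι) : (optPat B L).length ≤ L.length * (1 + M) := by
  induction L with
  | nil => simp [optPat]
  | cons i L ih =>
    have e : optPat B (i :: L) = (.opt :: B i) ++ optPat B L := by simp [optPat]
    rw [e, List.length_append, List.length_cons, List.length_cons]
    have := hB i
    nlinarith

theorem length_segPat_le {ι : Type} [Fintype ι] (B : ι → List Sym) (M : ℕ)
    (hB : ∀ i, (B i).length ≤ M) : (segPat B).length ≤ 1 + Fintype.card ι * (1 + M) := by
  have := length_optPat_le B M hB Finset.univ.toList
  rw [Finset.length_toList, Finset.card_univ] at this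
  simp only [segPat, List.length_cons]
  omega

theorem length_pushE {k : ℕ} (a : Fin k) : (pushE a).length ≤ k := by
  simp only [pushE, List.length_cons, List.length_replicate]
  exact a.2

theorem length_popE {k : ℕ} (a : Fin k) : (popE a).length ≤ k := by
  simp only [popE, List.length_append, List.length_replicate, List.length_singleton]
  exact a.2

theorem length_edgeB {k : ℕ} (p : Fin k × Fin k) : (edgeB p).length ≤ 3 * k := by
  simp only [edgeB, List.length_append]
  have := length_popE p.1
  have := length_pushE p.1
  have := length_pushE p.2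
  omega

theorem lenE_le {k : ℕ} (hk : 1 ≤ k) : lenE k ≤ 5 * k ^ 3 := by
  unfold lenE
  refine (length_segPat_le edgeB (3 * k) length_edgeB).trans ?_
  simp only [Fintype.card_prod, Fintype.card_fin]
  have h2 : k ≤ k * k := Nat.le_mul_of_pos_left k hk
  have h3 : k * k ≤ k * k * k := Nat.le_mul_of_pos_right _ hk
  nlinarith

theorem length_segPop_le {k : ℕ} (hk : 1 ≤ k) : (segPat (popE (k := k))).length ≤ 5 * k ^ 3 := by
  refine (length_segPat_le popE k length_popE).trans ?_
  simp only [Fintype.card_fin]
  have h2 : k ≤ k * k := Nat.le_mul_of_pos_left k hk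
  have h3 : k * k ≤ k * k * k := Nat.le_mul_of_pos_right _ hk
  nlinarith

theorem length_segPush_le {k : ℕ} (hk : 1 ≤ k) : (segPat (pushE (k := k))).length ≤ 5 * k ^ 3 := by
  refine (length_segPat_le pushE k length_pushE).trans ?_
  simp only [Fintype.card_fin]
  have h2 : k ≤ k * k := Nat.le_mul_of_pos_left k hk
  have h3 : k * k ≤ k * k * k := Nat.le_mul_of_pos_right _ hk
  nlinarith

theorem length_pat_le {k : ℕ} (hk : 1 ≤ k) (m : ℕ) :
    (pat k m).length + 15 * k ^ 3 ≤ 2 ^ m * (20 * k ^ 3) := by
  induction m with
  | zero =>
    have := length_segPop_le hk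
    simp only [pat]
    omega
  | succ m ih =>
    have h1 := length_segPop_le hk
    have h2 := lenE_le hk
    unfold lenE at h2
    simp only [pat, List.length_append]
    have e : 2 ^ (m + 1) * (20 * k ^ 3) = 2 * (2 ^ m * (20 * k ^ 3)) := by ring
    rw [e]
    omega

/-- The length of the whole word. -/
theorem length_full_le {k : ℕ} (hk : 1 ≤ k) (m : ℕ) :
    (segPat (pushE (k := k)) ++ pat k m).length ≤ 2 ^ (m + 5) * k ^ 3 := by
  rw [List.length_append]
  have h1 := length_segPush_le hk
  have h2 := length_pat_le hk m
  have e : 2 ^ (m + 5) * k ^ 3 = 2 ^ m * (20 * k ^ 3) + 12 * (2 ^ m * k ^ 3) := by ring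
  rw [e]
  omega

end

end Pool.Agent.MP_6216ea_lc
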