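import Mathlib
import Pool.Agent.Lib.MP_6216ea_lc.Pattern

/-!
# The word of many copies of the hard function, every option is repeated
-/

set_option autoImplicit false

namespace Pool.Agent.MP_6216ea_lc.NU

open Pool.Agent.MP_6216ea_lc

noncomputable section

/-! ### Blocks -/

/-- The word `B` can be read exactly if `Q` holds, and then it leaves every stack unchanged. -/
def BSem (Q : Prop) (B : List (Sym × Bool)) : Prop :=
  (∃ b W', B = (.seg, b) :: W') ∧
    ∀ w s s', SegStart w → (RR (B ++ w) s s' ↔ Q ∧ RR w s s')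

theorem BSem_of {k : ℕ} {i P : Fin k → Prop} {I W : List (Sym × Bool)}
    (hI : SegSem (pushE (k := k)) i I) (hW : TSem P W) : BSem (∃ a, i a ∧ P a) (I ++ W) := by
  refine ⟨?_, fun w s s' hw => ?_⟩
  · obtain ⟨b, W', rfl⟩ := hI.1
    exact ⟨b, _, rfl⟩
  · rw [List.append_assoc, hI.2 (W ++ w) s s' (segStart_append hW.1)]
    constructor
    · rintro ⟨a, hi, s1, h1, h2⟩
      have h3 := (BE_pushE a [] s s1).1 (by simpa using h1)
      rw [BE_nil] at h3
      subst h3
      rw [hW.2 _ _ _ hw] at h2
      obtain ⟨a', s0, hP, he, hr⟩ := h2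
      obtain ⟨rfl, rfl⟩ := enc_inj he
      exact ⟨⟨a, hi, hP⟩, hr⟩
    · rintro ⟨⟨a, hi, hP⟩, hr⟩
      refine ⟨a, hi, enc a ++ s, ?_, ?_⟩
      · have := (BE_pushE a [] s (enc a ++ s)).2 rfl
        simpa using this
      · rw [hW.2 _ _ _ hw]
        exact ⟨a, s, hP, rfl, hr⟩

theorem BSem.congr {Q Q' : Prop} {B : List (Sym × Bool)} (h : BSem Q B) (hQ : Q ↔ Q') :
    BSem Q' B := by
  rw [← propext hQ]
  exact h

theorem segStart_flat (l : List (Prop × List (Sym × Bool))) (hl : ∀ p ∈ l, BSem p.1 p.2) :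
    SegStart (l.flatMap Prod.snd) := by
  cases l with
  | nil => exact Or.inl rfl
  | cons p l =>
    obtain ⟨b, W', h⟩ := (hl p (by simp)).1
    right
    exact ⟨b, W' ++ l.flatMap Prod.snd, by simp [h]⟩

theorem BSem_list (l : List (Prop × List (Sym × Bool))) (hl : ∀ p ∈ l, BSem p.1 p.2)
    (s s' : List Bool) : RR (l.flatMap Prod.snd) s s' ↔ (∀ p ∈ l, p.1) ∧ s = s' := by
  induction l with
  | nil => simp [RR_nil]
  | cons p l ih =>
    have hl' : ∀ q ∈ l, BSem q.1 q.2 := fun q hq => hl q (by simp [hq])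
    rw [List.flatMap_cons, (hl p (by simp)).2 _ s s' (segStart_flat l hl'), ih hl']
    simp [and_assoc]

/-- Membership of a concatenation of blocks. -/
theorem mem_lang_blocks (l : List (Prop × List (Sym × Bool))) (hl : ∀ p ∈ l, BSem p.1 p.2) :
    l.flatMap Prod.snd ∈ mach.lang ↔ ∀ p ∈ l, p.1 := by
  rw [mem_lang_iff, BSem_list l hl]
  simp

/-! ### Templates with arbitrary labels -/

/-- Evaluation of a label. -/
def bitA {α : Type} (Z : α → Bool) : Option α → Bool
  | none => true
  | some a => Z a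

/-- Evaluation of a template with labels in `α`. -/
def evA {α : Type} (Z : α → Bool) (p : Sym × Option α) : Sym × Bool := (p.1, bitA Z p.2)

/-- Variables occur only at option marks. -/
def OptOnly {α : Type} (L : List (Sym × Option α)) : Prop := ∀ p ∈ L, p.2 ≠ none → p.1 = .opt

theorem optOnly_append {α : Type} {L L' : List (Sym × Option α)} (h : OptOnly L)
    (h' : OptOnly L') : OptOnly (L ++ L') := by
  intro p hp
  rw [List.mem_append] at hp
  rcases hp with hp | hp
  · exact h p hp
  · exact h' p hp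

/-- A segment with labels at the option marks. -/
def segT {ι β : Type} [Fintype ι] (B : ι → List Sym) (v : ι → Option β) :
    List (Sym × Option β) :=
  (.seg, none) :: Finset.univ.toList.flatMap (fun i => (.opt, v i) :: (B i).map (fun c => (c, none)))

theorem optOnly_segT {ι β : Type} [Fintype ι] (B : ι → List Sym) (v : ι → Option β) :
    OptOnly (segT B v) := by
  intro p hp hne
  unfold segT at hp
  rw [List.mem_cons, List.mem_flatMap] at hp
  rcases hp with rfl | ⟨i, _, hp⟩
  · exact absurd rfl hne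
  · rw [List.mem_cons, List.mem_map] at hp
    rcases hp with rfl | ⟨c, _, rfl⟩
    · rfl
    · exact absurd rfl hne

theorem length_segT {ι β : Type} [Fintype ι] (B : ι → List Sym) (v : ι → Option β) (M : ℕ)
    (hB : ∀ i, (B i).length ≤ M) : (segT B v).length ≤ 1 + Fintype.card ι * (1 + M) := by
  have h : ∀ L : List ι, (L.flatMap (fun i => ((Sym.opt, v i) : Sym × Option β) ::
      (B i).map (fun c => (c, none)))).length ≤ L.length * (1 + M) := by
    intro L
    induction L with
    | nil => simp
    | cons i L ih =>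
      rw [List.flatMap_cons, List.length_append, List.length_cons, List.length_map,
        List.length_cons]
      have := hB i
      nlinarith
  have h1 := h Finset.univ.toList
  rw [Finset.length_toList, Finset.card_univ] at h1
  simp only [segT, List.length_cons]
  omega

theorem segSem_segT {ι β : Type} [Fintype ι] (B : ι → List Sym) (hB : ∀ i, Blk (B i))
    (v : ι → Option β) (X : β → Bool) :
    SegSem B (fun i => bitA X (v i) = true) ((segT B v).map (evA X)) := by
  have e : (segT B v).map (evA X) = (.seg, true) :: encOpts (Finset.univ.toList.map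
      (fun i => (bitA X (v i), (B i).map (fun c => (c, true))))) := by
    simp only [segT, encOpts, List.map_cons, List.map_flatMap, List.flatMap_map, List.map_map]
    rfl
  rw [e]
  have hid : (Prod.fst ∘ fun c : Sym => (c, true)) = id := rfl
  apply segSem_of
  · intro o ho
    rw [List.mem_map] at ho
    obtain ⟨i, _, rfl⟩ := ho
    simp only [List.map_map]
    rw [hid, List.map_id]
    exact hB i
  · intro Φ
    constructor
    · rintro ⟨o, ho, h1, h2⟩
      rw [List.mem_map] at ho
      obtain ⟨i, _, rfl⟩ := ho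
      simp only [List.map_map, hid, List.map_id] at h2
      exact ⟨i, h1, h2⟩
    · rintro ⟨i, h1, h2⟩
      refine ⟨_, List.mem_map.2 ⟨i, by simp, rfl⟩, h1, ?_⟩
      simp only [List.map_map, hid, List.map_id]
      exact h2

/-- Repeated options. -/
theorem segSem_rep {ι κ : Type} {B : ι → List Sym} {bit : ι × κ → Prop} {W : List (Sym × Bool)}
    (h : SegSem (fun p : ι × κ => B p.1) bit W) : SegSem B (fun i => ∃ e, bit (i, e)) W := by
  refine ⟨h.1, fun w s s' hw => ?_⟩
  rw [h.2 w s s' hw]
  constructor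
  · rintro ⟨⟨i, e⟩, h1, h2⟩
    exact ⟨i, ⟨e, h1⟩, h2⟩
  · rintro ⟨i, ⟨e, h1⟩, h2⟩
    exact ⟨(i, e), h1, h2⟩

/-! ### The word of a tree, every option is repeated -/

/-- The template of the word of the subtree at `v`; every option is repeated for all `e : κ`. -/
def tpR (k : ℕ) (κ : Type) [Fintype κ] : ℕ → List Bool → List (Sym × Option (Var k × κ))
  | 0, _ => segT (popE (k := k)) (fun _ => none)
  | m + 1, v => segT (fun p : (Fin k × Fin k) × κ => edgeB p.1)
        (fun p => some ((v, false, p.1.1, p.1.2), p.2)) ++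
      (tpR k κ m (false :: v) ++ (segT (fun p : (Fin k × Fin k) × κ => edgeB p.1)
        (fun p => some ((v, true, p.1.1, p.1.2), p.2)) ++
      (tpR k κ m (true :: v) ++ segT (popE (k := k)) (fun _ => none))))

variable {κ : Type} [Fintype κ]

theorem tpR_sem (k m : ℕ) (v : List Bool) (X : Var k × κ → Bool) :
    TSem (G (fun i => ∃ e, X (i, e) = true) m v) ((tpR k κ m v).map (evA X)) := by
  induction m generalizing v with
  | zero =>
    refine (TSem_leaf (segSem_segT popE blk_popE (fun _ => none) X)).congr ?_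
    intro a
    simp [bitA, G]
  | succ m ih =>
    simp only [tpR, List.map_append]
    refine (TSem_node
      (segSem_rep (segSem_segT (fun p : (Fin k × Fin k) × κ => edgeB p.1)
        (fun p => blk_edgeB p.1) _ X)) (ih (false :: v))
      (segSem_rep (segSem_segT (fun p : (Fin k × Fin k) × κ => edgeB p.1)
        (fun p => blk_edgeB p.1) _ X)) (ih (true :: v))
      (segSem_segT popE blk_popE (fun _ => none) X)).congr ?_
    intro a
    simp [bitA, G]

theorem optOnly_tpR (k m : ℕ) (v : List Bool) : OptOnly (tpR k κ m v) := by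
  induction m generalizing v with
  | zero => exact optOnly_segT _ _
  | succ m ih =>
    rw [tpR]
    exact optOnly_append (optOnly_segT _ _) (optOnly_append (ih _) (optOnly_append
      (optOnly_segT _ _) (optOnly_append (ih _) (optOnly_segT _ _))))

theorem length_tpR {k : ℕ} (hk : 1 ≤ k) (hκ : 1 ≤ Fintype.card κ) (m : ℕ) (v : List Bool) :
    (tpR k κ m v).length + 15 * (Fintype.card κ * k ^ 3) ≤
      2 ^ m * (20 * (Fintype.card κ * k ^ 3)) := by
  obtain ⟨c, hc⟩ : ∃ c, c = Fintype.card κ := ⟨_, rfl⟩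
  rw [← hc] at hκ ⊢
  have h2 : k ≤ k * k := Nat.le_mul_of_pos_left k hk
  have h3 : k * k ≤ k * k * k := Nat.le_mul_of_pos_right _ hk
  have h4 : k ^ 3 ≤ c * k ^ 3 := Nat.le_mul_of_pos_left _ hκ
  have e3 : k ^ 3 = k * k * k := by ring
  have hpop : (segT (β := Var k × κ) (popE (k := k)) (fun _ => none)).length ≤
      5 * (c * k ^ 3) := by
    refine (length_segT popE (fun _ => none) k length_popE).trans ?_
    simp only [Fintype.card_fin]
    nlinarith
  have hedge : ∀ u : Fin k × Fin k → Var k,
      (segT (fun p : (Fin k × Fin k) × κ => edgeB p.1) (fun p => some (u p.1, p.2))).length ≤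
      5 * (c * k ^ 3) := by
    intro u
    refine (length_segT (fun p : (Fin k × Fin k) × κ => edgeB p.1) _ (3 * k)
      (fun p => length_edgeB p.1)).trans ?_
    simp only [Fintype.card_prod, Fintype.card_fin]
    rw [← hc]
    have e1 : 1 + k * k * c * (1 + 3 * k) = 1 + c * (k * k) + 3 * (c * (k * k * k)) := by ring
    have h5 : c * (k * k) ≤ c * (k * k * k) := Nat.mul_le_mul_left _ h3
    have h6 : 1 ≤ c * (k * k * k) := Nat.mul_pos hκ (Nat.mul_pos (Nat.mul_pos hk hk) hk)
    rw [e1, e3]
    omega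
  induction m generalizing v with
  | zero =>
    simp only [tpR]
    omega
  | succ m ih =>
    have h1 := ih (false :: v)
    have h2 := ih (true :: v)
    have h5 := hedge (fun p => (v, false, p.1, p.2))
    have h6 := hedge (fun p => (v, true, p.1, p.2))
    simp only [tpR, List.length_append]
    have e : 2 ^ (m + 1) * (20 * (c * k ^ 3)) = 2 * (2 ^ m * (20 * (c * k ^ 3))) := by ring
    rw [e]
    omega

/-! ### Templates of blocks -/

/-- The number of states used in the blocks of parameter `d`. -/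
def kk (d : ℕ) : ℕ := 2 ^ (64 * d)

theorem kk_pos (d : ℕ) : 0 < kk d := by unfold kk; positivity

/-- The template of a block. -/
def blR (d : ℕ) (κ : Type) [Fintype κ] : List (Sym × Option (Var (kk d) × κ)) :=
  segT (pushE (k := kk d)) (fun _ => none) ++ tpR (kk d) κ (4 * d) []

theorem length_blR (d : ℕ) (hd : 3 ≤ d) (hκ : 1 ≤ Fintype.card κ) :
    (blR d κ).length ≤ Fintype.card κ * 2 ^ (198 * d) := by
  obtain ⟨k, hk⟩ : ∃ k, k = kk d := ⟨_, rfl⟩
  obtain ⟨c, hc⟩ : ∃ c, c = Fintype.card κ := ⟨_, rfl⟩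
  have hk1 : 1 ≤ k := by rw [hk]; exact kk_pos d
  have h2 : k ≤ k * k := Nat.le_mul_of_pos_left k hk1
  have h3 : k * k ≤ k * k * k := Nat.le_mul_of_pos_right _ hk1
  have h1 := length_tpR (κ := κ) (k := kk d) (kk_pos d) hκ (4 * d) []
  rw [← hk, ← hc] at h1
  rw [← hc] at hκ ⊢
  have hpush : (segT (β := Var (kk d) × κ) (pushE (k := kk d)) (fun _ => none)).length ≤
      5 * (c * k ^ 3) := by
    refine (length_segT pushE (fun _ => none) (kk d) length_pushE).trans ?_
    simp only [Fintype.card_fin]
    rw [← hk]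
    have h4 : k ^ 3 ≤ c * k ^ 3 := Nat.le_mul_of_pos_left _ hκ
    have e3 : k ^ 3 = k * k * k := by ring
    nlinarith
  rw [blR, List.length_append]
  have h5 : 2 ^ (4 * d) * (20 * (c * k ^ 3)) ≤ c * 2 ^ (198 * d) := by
    have e1 : 2 ^ (4 * d) * (20 * (c * k ^ 3)) = c * (20 * (2 ^ (4 * d) * k ^ 3)) := by ring
    rw [e1]
    apply Nat.mul_le_mul_left
    rw [hk, kk, ← pow_mul, ← pow_add]
    calc 20 * 2 ^ (4 * d + 64 * d * 3) ≤ 2 ^ 5 * 2 ^ (4 * d + 64 * d * 3) :=
          Nat.mul_le_mul_right _ (by norm_num)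
      _ = 2 ^ (5 + (4 * d + 64 * d * 3)) := by rw [← pow_add]
      _ ≤ 2 ^ (198 * d) := Nat.pow_le_pow_right (by norm_num) (by omega)
  have e4 : 5 * (c * k ^ 3) ≤ 15 * (c * k ^ 3) := Nat.mul_le_mul_right _ (by norm_num)
  rw [hk] at *
  omega

theorem optOnly_blR (d : ℕ) : OptOnly (blR d κ) :=
  optOnly_append (optOnly_segT _ _) (optOnly_tpR _ _ _)

theorem blR_sem (d : ℕ) (X : Var (kk d) × κ → Bool) :
    BSem (∃ a, G (fun i => ∃ e, X (i, e) = true) (4 * d) [] a) ((blR d κ).map (evA X)) := by
  rw [blR, List.map_append]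
  refine (BSem_of (segSem_segT pushE blk_pushE (fun _ => none) X)
    (tpR_sem (kk d) (4 * d) [] X)).congr ?_
  simp [bitA]

/-- A block with variables of the copy `j`. -/
def cpR (M d : ℕ) (κ : Type) [Fintype κ] (j : Fin M) :
    List (Sym × Option ((Fin M × Var (kk d)) × κ)) :=
  (blR d κ).map (fun p => (p.1, p.2.map (fun q => ((j, q.1), q.2))))

theorem cpR_ev (M d : ℕ) (j : Fin M) (Z : (Fin M × Var (kk d)) × κ → Bool) :
    (cpR M d κ j).map (evA Z) = (blR d κ).map (evA (fun q => Z ((j, q.1), q.2))) := by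
  rw [cpR, List.map_map]
  apply List.map_congr_left
  rintro ⟨c, o⟩ _
  cases o with
  | none => rfl
  | some q => rfl

/-- The template of `M` copies of blocks of parameter `d`. -/
def tmp (M d : ℕ) (κ : Type) [Fintype κ] : List (Sym × Option ((Fin M × Var (kk d)) × κ)) :=
  (List.finRange M).flatMap (cpR M d κ)

theorem length_tmp (M d : ℕ) (hd : 3 ≤ d) (hκ : 1 ≤ Fintype.card κ) :
    (tmp M d κ).length ≤ M * (Fintype.card κ * 2 ^ (198 * d)) := by
  have h1 : (tmp M d κ).length = M * (blR d κ).length := by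
    unfold tmp
    rw [List.length_flatMap]
    simp [cpR]
  rw [h1]
  exact Nat.mul_le_mul_left _ (length_blR d hd hκ)

theorem optOnly_tmp (M d : ℕ) : OptOnly (tmp M d κ) := by
  intro p hp hne
  unfold tmp at hp
  rw [List.mem_flatMap] at hp
  obtain ⟨j, _, hp⟩ := hp
  rw [cpR, List.mem_map] at hp
  obtain ⟨q, hq, rfl⟩ := hp
  refine optOnly_blR d q hq ?_
  intro h0
  rw [h0] at hne
  exact hne rfl

/-- Semantics of the template. -/
theorem tmp_sem (M d : ℕ) (Z : (Fin M × Var (kk d)) × κ → Bool) :
    (tmp M d κ).map (evA Z) ∈ mach.lang ↔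
      ∀ j : Fin M, ∃ a, G (fun i => ∃ e, Z ((j, i), e) = true) (4 * d) [] a := by
  have h1 := mem_lang_blocks
    ((List.finRange M).map (fun j => ((∃ a, G (fun i => ∃ e, Z ((j, i), e) = true) (4 * d) [] a),
      (cpR M d κ j).map (evA Z)))) (by
      intro q hq
      rw [List.mem_map] at hq
      obtain ⟨j, _, rfl⟩ := hq
      simp only [cpR_ev]
      exact blR_sem d _)
  have e1 : (tmp M d κ).map (evA Z) =
      ((List.finRange M).map (fun j => ((∃ a, G (fun i => ∃ e, Z ((j, i), e) = true) (4 * d) [] a),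
      (cpR M d κ j).map (evA Z)))).flatMap Prod.snd := by
    simp only [tmp, List.map_flatMap, List.flatMap_map]
  rw [e1, h1]
  constructor
  · intro h j
    exact h _ (List.mem_map.2 ⟨j, List.mem_finRange j, rfl⟩)
  · intro h q hq
    rw [List.mem_map] at hq
    obtain ⟨j, _, rfl⟩ := hq
    exact h j

theorem G_top {k : ℕ} (X : Var k → Prop) (hX : ∀ q, X q) (m : ℕ) (v : List Bool) (a : Fin k) :
    G X m v a := by
  induction m generalizing v a with
  | zero => trivial
  | succ m ih => exact fun b => ⟨a, hX _, ih _ _⟩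

end

end Pool.Agent.MP_6216ea_lc.NU
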