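import Mathlib
import Pool.Agent.Lib.MP_6216ea_lc.NUDec
import Pool.Agent.Lib.MP_6216ea_lc.NUWord

/-!
# Templates on arbitrary sets of variables

A template whose variables occur only at option marks can be written into the language of bits
such that its variables are placed at variables of a given set, as long as this set is large
enough.
-/

set_option autoImplicit false

namespace Pool.Agent.MP_6216ea_lc.NU

open Classical
open Pool.Agent.MP_6216ea_lc

noncomputable section

/-! ### Placement of letters on blocks -/

/-- Placement of a list of letters on blocks; `bs` gives for every block a coordinate that may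
carry a variable, if there is one. -/
def place {β : Type} : List β → List (Option (Fin 8)) → List (Option (β × Fin 8))
  | _, [] => []
  | [], _ :: bs => none :: place [] bs
  | t :: ts, none :: bs => none :: place (t :: ts) bs
  | t :: ts, some c :: bs => some (t, c) :: place ts bs

theorem length_place {β : Type} (ts : List β) (bs : List (Option (Fin 8))) :
    (place ts bs).length = bs.length := by
  induction bs generalizing ts with
  | nil => cases ts <;> rfl
  | cons b bs ih =>
    cases ts with
    | nil => simp [place, ih]
    | cons t ts => cases b <;> simp [place, ih]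

theorem place_red {β : Type} (ts : List β) (bs : List (Option (Fin 8)))
    (h : ts.length ≤ bs.reduceOption.length) :
    (place ts bs).reduceOption.map Prod.fst = ts := by
  induction bs generalizing ts with
  | nil =>
    have : ts = [] := by
      rw [← List.length_eq_zero_iff]
      simpa using h
    subst this
    rfl
  | cons b bs ih =>
    cases ts with
    | nil =>
      rw [place, List.reduceOption_cons_of_none]
      exact ih [] (by simp)
    | cons t ts =>
      cases b with
      | none =>
        rw [place, List.reduceOption_cons_of_none]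
        rw [List.reduceOption_cons_of_none] at h
        exact ih _ h
      | some c =>
        rw [place, List.reduceOption_cons_of_some, List.map_cons]
        rw [List.reduceOption_cons_of_some, List.length_cons, List.length_cons] at h
        rw [ih ts (by omega)]

theorem place_some {β : Type} (ts : List β) (bs : List (Option (Fin 8))) (i : ℕ) (t : β)
    (c : Fin 8) (h : (place ts bs)[i]? = some (some (t, c))) : t ∈ ts ∧ bs[i]? = some (some c) := by
  induction bs generalizing ts i with
  | nil => cases ts <;> simp [place] at h
  | cons b bs ih =>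
    cases ts with
    | nil =>
      rw [place] at h
      cases i with
      | zero => simp at h
      | succ i =>
        rw [List.getElem?_cons_succ] at h ⊢
        exact ih [] i h
    | cons t' ts =>
      cases b with
      | none =>
        rw [place] at h
        cases i with
        | zero => simp at h
        | succ i =>
          rw [List.getElem?_cons_succ] at h ⊢
          exact ih _ i h
      | some c' =>
        rw [place] at h
        cases i with
        | zero =>
          simp only [List.getElem?_cons_zero, Option.some.injEq, Prod.mk.injEq] at h ⊢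
          obtain ⟨rfl, rfl⟩ := h
          exact ⟨List.mem_cons_self, rfl⟩
        | succ i =>
          rw [List.getElem?_cons_succ] at h ⊢
          obtain ⟨h1, h2⟩ := ih ts i h
          exact ⟨List.mem_cons_of_mem _ h1, h2⟩

/-! ### Blocks of letters -/

/-- The bits of a cell of the table. -/
def cb (o : Fin 4 × Fin 4) (c : Fin 8) : Bool := c.1 = o.1.1 || c.1 = 4 + o.2.1

/-- The cell of a closed option for a variable at the coordinate `c`. -/
def offc : Fin 8 → Fin 4 × Fin 4 :=
  ![(1, 0), (0, 2), (1, 0), (1, 0), (0, 2), (0, 2), (1, 0), (1, 0)]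

/-- The cell of an open option for a variable at the coordinate `c`. -/
def onc : Fin 8 → Fin 4 × Fin 4 :=
  ![(0, 0), (1, 2), (2, 0), (3, 0), (0, 0), (0, 1), (1, 2), (1, 3)]

/-- The cell of a letter. -/
def cel : Sym → Fin 4 × Fin 4
  | .opt => (0, 0)
  | .seg => (2, 1)
  | .push false => (2, 2)
  | .push true => (2, 3)
  | .pop false => (3, 1)
  | .pop true => (3, 2)

/-- The bits and variables of a block. -/
def lblk {α : Type} : Option ((Sym × Option α) × Fin 8) → Fin 8 → Bool ⊕ α
  | none, c' => .inl (cb (3, 3) c')
  | some ((s, none), _), c' => .inl (cb (cel s) c')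
  | some ((_, some a), c), c' => if c' = c then .inr a else .inl (cb (offc c) c' || cb (onc c) c')

/-- Evaluation of a bit or variable. -/
def bitL {α : Type} (Z : α → Bool) : Bool ⊕ α → Bool := Sum.elim id Z

/-- The bits of a block. -/
def blkB {α : Type} (Z : α → Bool) (e : Option ((Sym × Option α) × Fin 8)) : List Bool :=
  List.ofFn (fun c => bitL Z (lblk e c))

theorem dec_ofFn (f : Fin 8 → Bool) (r : Option (Sym × Bool)) :
    Dec (List.ofFn f) r ↔ ∃ a b : Fin 4, (f ⟨a.1, by omega⟩ = true ∧ f ⟨4 + b.1, by omega⟩ = true) ∧
      tab a b = r := by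
  unfold Dec Al
  refine exists_congr fun a => exists_congr fun b => and_congr (and_congr ?_ ?_) Iff.rfl
  · rw [List.getElem?_ofFn, dif_pos (by omega)]
    simp
  · rw [List.getElem?_ofFn, dif_pos (by omega)]
    simp

theorem cb_spec : ∀ (o : Fin 4 × Fin 4) (a b : Fin 4),
    (cb o ⟨a.1, by omega⟩ = true ∧ cb o ⟨4 + b.1, by omega⟩ = true) ↔ o = (a, b) := by
  decide

theorem var_spec : ∀ (c : Fin 8) (z : Bool) (a b : Fin 4),
    ((if (⟨a.1, by omega⟩ : Fin 8) = c then z else
        (cb (offc c) ⟨a.1, by omega⟩ || cb (onc c) ⟨a.1, by omega⟩)) = true ∧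
      (if (⟨4 + b.1, by omega⟩ : Fin 8) = c then z else
        (cb (offc c) ⟨4 + b.1, by omega⟩ || cb (onc c) ⟨4 + b.1, by omega⟩)) = true) ↔
      (offc c = (a, b) ∨ (z = true ∧ onc c = (a, b))) := by
  decide

theorem tab_off : ∀ c : Fin 8, tab (offc c).1 (offc c).2 = some (.opt, false) := by decide
theorem tab_on : ∀ c : Fin 8, tab (onc c).1 (onc c).2 = some (.opt, true) := by decide
theorem tab_cel (s : Sym) : tab (cel s).1 (cel s).2 = some (s, true) := by
  rcases s with _ | _ | (_ | _) | (_ | _) <;> rfl

theorem dec_cb (o : Fin 4 × Fin 4) (r : Option (Sym × Bool)) :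
    Dec (List.ofFn (cb o)) r ↔ tab o.1 o.2 = r := by
  rw [dec_ofFn]
  constructor
  · rintro ⟨a, b, h1, h2⟩
    rw [cb_spec] at h1
    subst h1
    exact h2
  · intro h
    exact ⟨o.1, o.2, (cb_spec o _ _).2 rfl, h⟩

theorem dec_var (c : Fin 8) (z : Bool) (r : Option (Sym × Bool)) :
    Dec (List.ofFn (fun c' => if c' = c then z else (cb (offc c) c' || cb (onc c) c'))) r ↔
      r = some (.opt, false) ∨ (z = true ∧ r = some (.opt, true)) := by
  rw [dec_ofFn]
  constructor
  · rintro ⟨a, b, h1, h2⟩
    rw [var_spec] at h1
    rcases h1 with h1 | ⟨hz, h1⟩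
    · left
      rw [← h2]
      have := tab_off c
      rwa [h1] at this
    · right
      refine ⟨hz, ?_⟩
      rw [← h2]
      have := tab_on c
      rwa [h1] at this
  · rintro (rfl | ⟨hz, rfl⟩)
    · exact ⟨(offc c).1, (offc c).2, (var_spec c z _ _).2 (Or.inl rfl), tab_off c⟩
    · exact ⟨(onc c).1, (onc c).2, (var_spec c z _ _).2 (Or.inr ⟨hz, rfl⟩), tab_on c⟩

/-- The best letter of a block. -/
def best {α : Type} (Z : α → Bool) (e : Option ((Sym × Option α) × Fin 8)) : Option (Sym × Bool) :=
  e.map (fun p => evA Z p.1)

/-- The letter of the block is admissible. -/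
def Good {α : Type} (e : Option ((Sym × Option α) × Fin 8)) : Prop :=
  ∀ p ∈ e, p.1.2 ≠ none → p.1.1 = Sym.opt

theorem dec_blkB {α : Type} (Z : α → Bool) (e : Option ((Sym × Option α) × Fin 8)) (he : Good e)
    (r : Option (Sym × Bool)) : Dec (blkB Z e) r ↔
      (r = best Z e ∨ (r = some (.opt, false) ∧ best Z e = some (.opt, true) ∧
        ∃ p ∈ e, p.1.2 ≠ none)) := by
  rcases e with _ | ⟨⟨s, o⟩, c⟩
  · have h1 : blkB Z none = List.ofFn (cb (3, 3)) := rfl
    rw [h1, dec_cb]
    have h2 : tab (3, 3).1 (3, 3).2 = none := rfl
    rw [h2]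
    simp [best, eq_comm]
  · cases o with
    | none =>
      have h1 : blkB Z (some ((s, none), c)) = List.ofFn (cb (cel s)) := rfl
      rw [h1, dec_cb, tab_cel]
      simp [best, evA, bitA, eq_comm]
    | some a =>
      have hs : s = .opt := he _ rfl (by simp)
      subst hs
      have h1 : blkB Z (some ((Sym.opt, some a), c)) =
          List.ofFn (fun c' => if c' = c then Z a else (cb (offc c) c' || cb (onc c) c')) := by
        unfold blkB
        congr 1
        funext c'
        simp only [lblk]
        split_ifs <;> rfl
      rw [h1, dec_var]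
      cases hz : Z a <;> simp [best, evA, bitA, hz, or_comm]

theorem dec_best {α : Type} (Z : α → Bool) (e : Option ((Sym × Option α) × Fin 8)) (he : Good e) :
    Dec (blkB Z e) (best Z e) := (dec_blkB Z e he _).2 (Or.inl rfl)

theorem dec_le {α : Type} (Z : α → Bool) (es : List (Option ((Sym × Option α) × Fin 8)))
    (hes : ∀ e ∈ es, Good e) (os : List (Option (Sym × Bool)))
    (h : List.Forall₂ Dec (es.map (blkB Z)) os) :
    List.Forall₂ (fun t t' : Sym × Bool => t.1 = t'.1 ∧ (t.2 = true → t'.2 = true))
      os.reduceOption (es.map (best Z)).reduceOption := by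
  induction es generalizing os with
  | nil =>
    cases h
    exact List.Forall₂.nil
  | cons e es ih =>
    rw [List.map_cons] at h ⊢
    cases h with
    | @cons _ r _ os h1 h2 =>
      have h3 := ih (fun e' he' => hes e' (List.mem_cons_of_mem _ he')) os h2
      rw [dec_blkB Z e (hes e List.mem_cons_self)] at h1
      rcases h1 with rfl | ⟨rfl, h4, _⟩
      · cases hb : best Z e with
        | none =>
          rw [List.reduceOption_cons_of_none, List.reduceOption_cons_of_none]
          exact h3
        | some t =>
          rw [List.reduceOption_cons_of_some, List.reduceOption_cons_of_some]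
          exact List.Forall₂.cons ⟨rfl, fun h => h⟩ h3
      · rw [h4, List.reduceOption_cons_of_some, List.reduceOption_cons_of_some]
        exact List.Forall₂.cons ⟨rfl, fun _ => rfl⟩ h3

theorem forall₂_best {α : Type} (Z : α → Bool) (es : List (Option ((Sym × Option α) × Fin 8)))
    (hes : ∀ e ∈ es, Good e) : List.Forall₂ Dec (es.map (blkB Z)) (es.map (best Z)) := by
  induction es with
  | nil => exact List.Forall₂.nil
  | cons e es ih =>
    exact List.Forall₂.cons (dec_best Z e (hes e List.mem_cons_self))
      (ih (fun e' he' => hes e' (List.mem_cons_of_mem _ he')))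

theorem red_best {α : Type} (Z : α → Bool) (es : List (Option ((Sym × Option α) × Fin 8))) :
    (es.map (best Z)).reduceOption = (es.reduceOption.map Prod.fst).map (evA Z) := by
  induction es with
  | nil => rfl
  | cons e es ih =>
    cases e with
    | none =>
      rw [List.map_cons, List.reduceOption_cons_of_none]
      exact ih
    | some p =>
      rw [List.map_cons]
      change (some (evA Z p.1) :: es.map (best Z)).reduceOption = _
      rw [List.reduceOption_cons_of_some, List.reduceOption_cons_of_some, ih]
      rfl

/-- Membership of the word of the blocks. -/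
theorem mem_blocks {α : Type} (Z : α → Bool) (es : List (Option ((Sym × Option α) × Fin 8)))
    (hes : ∀ e ∈ es, Good e) (r : List Bool) (hr : r.length < 8) :
    (es.map (blkB Z)).flatten ++ r ∈ uni ↔
      (es.reduceOption.map Prod.fst).map (evA Z) ∈ mach.lang := by
  rw [mem_uni, chop_flatten _ (by
    intro b hb
    rw [List.mem_map] at hb
    obtain ⟨e, _, rfl⟩ := hb
    simp [blkB]) r hr, mem_decM, ← red_best]
  constructor
  · rintro ⟨os, h1, q, hq, h2⟩
    exact ⟨q, hq, run_raise h2 (dec_le Z es hes os h1)⟩
  · intro h
    exact ⟨_, forall₂_best Z es hes, h⟩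

/-! ### Labels of the variables -/

/-- The label of the position `l`. -/
def labN {α : Type} (es : List (Option ((Sym × Option α) × Fin 8))) (l : ℕ) : Bool ⊕ α :=
  match es[l / 8]? with
  | none => .inl false
  | some e => lblk e ⟨l % 8, Nat.mod_lt _ (by norm_num)⟩

theorem labN_shift {α : Type} (e : Option ((Sym × Option α) × Fin 8))
    (es : List (Option ((Sym × Option α) × Fin 8))) (l : ℕ) :
    labN (e :: es) (8 + l) = labN es l := by
  unfold labN
  have h1 : (8 + l) / 8 = l / 8 + 1 := by omega
  rw [h1, List.getElem?_cons_succ]
  have h2 : (⟨(8 + l) % 8, Nat.mod_lt _ (by norm_num)⟩ : Fin 8) =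
      ⟨l % 8, Nat.mod_lt _ (by norm_num)⟩ := by
    apply Fin.ext
    change (8 + l) % 8 = l % 8
    omega
  cases es[l / 8]? with
  | none => rfl
  | some e' => rw [h2]

theorem labN_head {α : Type} (e : Option ((Sym × Option α) × Fin 8))
    (es : List (Option ((Sym × Option α) × Fin 8))) (Z : α → Bool) :
    (List.range 8).map (fun l => bitL Z (labN (e :: es) l)) = blkB Z e := by
  apply List.ext_getElem
  · simp [blkB]
  · intro i h1 h2
    have hi : i < 8 := by simpa using h1
    simp only [List.getElem_map, List.getElem_range, blkB, List.getElem_ofFn]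
    unfold labN
    have h3 : i / 8 = 0 := Nat.div_eq_of_lt hi
    rw [h3]
    simp only [List.getElem?_cons_zero]
    congr 2
    apply Fin.ext
    exact Nat.mod_eq_of_lt hi

theorem range_labN {α : Type} (Z : α → Bool) (es : List (Option ((Sym × Option α) × Fin 8)))
    (r : ℕ) : (List.range (8 * es.length + r)).map (fun l => bitL Z (labN es l)) =
      (es.map (blkB Z)).flatten ++ List.replicate r false := by
  induction es with
  | nil =>
    rw [List.length_nil, Nat.mul_zero, Nat.zero_add, List.map_nil, List.flatten_nil,
      List.nil_append]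
    apply List.ext_getElem
    · simp
    · intro i h1 h2
      simp [labN, bitL]
  | cons e es ih =>
    have h1 : 8 * (e :: es).length + r = 8 + (8 * es.length + r) := by
      rw [List.length_cons]
      ring
    rw [h1, List.range_add, List.map_append, labN_head, List.map_map, List.map_cons,
      List.flatten_cons, List.append_assoc, ← ih]
    congr 1
    apply List.map_congr_left
    intro l _
    simp only [Function.comp_apply]
    rw [labN_shift]

theorem ofFn_labN {α : Type} (Z : α → Bool) (es : List (Option ((Sym × Option α) × Fin 8)))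
    (n : ℕ) (hn : es.length = n / 8) :
    List.ofFn (fun l : Fin n => bitL Z (labN es l.1)) =
      (es.map (blkB Z)).flatten ++ List.replicate (n % 8) false := by
  rw [← range_labN, hn]
  have h1 : 8 * (n / 8) + n % 8 = n := by omega
  rw [h1]
  apply List.ext_getElem
  · simp
  · intro i h2 h3
    simp

/-! ### Blocks with free coordinates -/

/-- A free coordinate of the block `i`, if there is one. -/
def crd {n : ℕ} (N : Set (Fin n)) (i : ℕ) : Option (Fin 8) :=
  if h : ∃ c : Fin 8, ∃ hl : 8 * i + c.1 < n, (⟨8 * i + c.1, hl⟩ : Fin n) ∉ N then some h.choose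
  else none

theorem crd_spec {n : ℕ} {N : Set (Fin n)} {i : ℕ} {c : Fin 8} (h : crd N i = some c) :
    ∃ hl : 8 * i + c.1 < n, (⟨8 * i + c.1, hl⟩ : Fin n) ∉ N := by
  unfold crd at h
  split_ifs at h with h1
  simp only [Option.some.injEq] at h
  subst h
  exact h1.choose_spec

theorem crd_isSome {n : ℕ} {N : Set (Fin n)} {i : ℕ} {c : Fin 8} (hl : 8 * i + c.1 < n)
    (h : (⟨8 * i + c.1, hl⟩ : Fin n) ∉ N) : (crd N i).isSome := by
  unfold crd
  rw [dif_pos ⟨c, hl, h⟩]
  rfl

theorem length_red (f : ℕ → Option (Fin 8)) (m : ℕ) :
    ((List.range m).map f).reduceOption.length =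
      ((Finset.range m).filter (fun i => (f i).isSome)).card := by
  induction m with
  | zero => rfl
  | succ m ih =>
    rw [List.range_succ, List.map_append, List.reduceOption_append, List.length_append, ih,
      Finset.range_add_one, Finset.filter_insert]
    cases hf : f m with
    | none => simp [hf, List.reduceOption_cons_of_none]
    | some c =>
      rw [if_pos (show (some c).isSome = true from rfl), Finset.card_insert_of_notMem (by simp)]
      simp [hf, List.reduceOption_cons_of_some]

theorem free_le {n : ℕ} (N : Set (Fin n)) :
    n ≤ N.ncard + (8 * ((List.range (n / 8)).map (crd N)).reduceOption.length + 7) := by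
  rw [length_red]
  obtain ⟨G, hG⟩ : ∃ G, G = (Finset.range (n / 8)).filter (fun i => (crd N i).isSome) := ⟨_, rfl⟩
  rw [← hG]
  have h1 : (N.toFinset)ᶜ.image (fun l : Fin n => l.1) ⊆
      (G ×ˢ Finset.range 8).image (fun p => 8 * p.1 + p.2) ∪
        (Finset.range 7).image (fun r => 8 * (n / 8) + r) := by
    intro l hl
    rw [Finset.mem_image] at hl
    obtain ⟨l, hl, rfl⟩ := hl
    rw [Finset.mem_compl, Set.mem_toFinset] at hl
    have h2 := l.2
    have h3 := Nat.div_add_mod l.1 8
    have h4 : l.1 % 8 < 8 := Nat.mod_lt _ (by norm_num)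
    rw [Finset.mem_union, Finset.mem_image, Finset.mem_image]
    by_cases h5 : l.1 / 8 < n / 8
    · left
      refine ⟨(l.1 / 8, l.1 % 8), ?_, h3⟩
      rw [Finset.mem_product, hG, Finset.mem_filter, Finset.mem_range, Finset.mem_range]
      refine ⟨⟨h5, ?_⟩, h4⟩
      refine crd_isSome (c := ⟨l.1 % 8, h4⟩) (by omega) ?_
      have h6 : (⟨8 * (l.1 / 8) + l.1 % 8, by omega⟩ : Fin n) = l := Fin.ext h3
      intro h7
      apply hl
      rw [← h6]
      exact h7
    · right
      refine ⟨l.1 - 8 * (n / 8), ?_, by omega⟩
      rw [Finset.mem_range]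
      omega
  have h2 := (Finset.card_le_card h1).trans (Finset.card_union_le _ _)
  rw [Finset.card_image_of_injective _ Fin.val_injective, Finset.card_compl, Fintype.card_fin,
    ← Set.ncard_eq_toFinset_card'] at h2
  have h3 : ((G ×ˢ Finset.range 8).image (fun p : ℕ × ℕ => 8 * p.1 + p.2)).card ≤ G.card * 8 := by
    refine Finset.card_image_le.trans ?_
    rw [Finset.card_product, Finset.card_range]
  have h4 : ((Finset.range 7).image (fun r => 8 * (n / 8) + r)).card ≤ 7 := by
    refine Finset.card_image_le.trans ?_
    rw [Finset.card_range]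
  omega

/-- **A template on the free variables.** -/
theorem exists_labels {α : Type} {n : ℕ} (N : Set (Fin n)) (Tm : List (Sym × Option α))
    (hopt : OptOnly Tm) (hlen : N.ncard + (8 * Tm.length + 7) ≤ n) :
    ∃ lb : Fin n → Bool ⊕ α, (∀ l ∈ N, ∃ b, lb l = .inl b) ∧
      ∀ Z : α → Bool, List.ofFn (fun l => bitL Z (lb l)) ∈ uni ↔ Tm.map (evA Z) ∈ mach.lang := by
  obtain ⟨bs, hbs⟩ : ∃ bs, bs = (List.range (n / 8)).map (crd N) := ⟨_, rfl⟩
  obtain ⟨es, hes⟩ : ∃ es, es = place Tm bs := ⟨_, rfl⟩
  have hle : Tm.length ≤ bs.reduceOption.length := by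
    have := free_le N
    rw [← hbs] at this
    omega
  have hred : es.reduceOption.map Prod.fst = Tm := by
    rw [hes]
    exact place_red Tm bs hle
  have hlen' : es.length = n / 8 := by
    rw [hes, length_place, hbs]
    simp
  have hgood : ∀ e ∈ es, Good e := by
    intro e he p hp hne
    obtain ⟨i, hi⟩ := List.mem_iff_getElem?.1 he
    rw [Option.mem_def] at hp
    subst hp
    obtain ⟨t, c⟩ := p
    rw [hes] at hi
    exact hopt t (place_some Tm bs i t c hi).1 hne
  refine ⟨fun l => labN es l.1, ?_, ?_⟩
  · intro l hl
    simp only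
    unfold labN
    cases hi : es[l.1 / 8]? with
    | none => exact ⟨false, rfl⟩
    | some e =>
      rcases e with _ | ⟨⟨s, o⟩, c⟩
      · exact ⟨_, rfl⟩
      · cases o with
        | none => exact ⟨_, rfl⟩
        | some a =>
          simp only [lblk]
          split_ifs with hc
          · exfalso
            rw [hes] at hi
            have h1 := (place_some Tm bs _ _ c hi).2
            rw [hbs, List.getElem?_map] at h1
            have h2 : l.1 / 8 < n / 8 := by
              by_contra hcon
              rw [List.getElem?_eq_none (by simpa using hcon)] at h1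
              simp at h1
            rw [List.getElem?_range h2] at h1
            simp only [Option.map_some, Option.some.injEq] at h1
            obtain ⟨hl', h3⟩ := crd_spec h1
            apply h3
            have h4 : (⟨8 * (l.1 / 8) + c.1, hl'⟩ : Fin n) = l := by
              apply Fin.ext
              change 8 * (l.1 / 8) + c.1 = l.1
              rw [← hc]
              exact Nat.div_add_mod l.1 8
            rw [h4]
            exact hl
          · exact ⟨_, rfl⟩
  · intro Z
    rw [ofFn_labN Z es n hlen', mem_blocks Z es hgood _ (by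
      rw [List.length_replicate]
      exact Nat.mod_lt _ (by norm_num)), hred]

end

end Pool.Agent.MP_6216ea_lc.NU
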