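import Mathlib
import Pool.Agent.Lib.MP_6216ea_lc.NLChain

/-!
# The number of samples for which a replacement is noticed
-/

set_option autoImplicit false

namespace Pool.Agent.MP_6216ea_lc.NU

open Classical Finset
open Pool.Agent.MP_6216ea_lc.NL

noncomputable section

/-- Resampling one coordinate. -/
theorem sum_resample {A X : Type} [DecidableEq A] [Fintype A] [Fintype X] (a : A) (f : (A → X) → ℕ) :
    ∑ c : A → X, ∑ e : X, f (Function.update c a e) = Fintype.card X * ∑ c : A → X, f c := by
  have hinv : Function.Involutive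
      (fun p : (A → X) × X => (Function.update p.1 a p.2, p.1 a)) := by
    rintro ⟨xs, x⟩
    simp
  have h1 := Equiv.sum_comp hinv.toPerm (fun p : (A → X) × X => f p.1)
  rw [Fintype.sum_prod_type, Fintype.sum_prod_type] at h1
  simp only [Function.Involutive.coe_toPerm, sum_const, card_univ, smul_eq_mul] at h1
  rw [h1, mul_sum]

variable {X Y B : Type} {M : ℕ} [Preorder B] {I : Type} [Fintype I] [Fintype X] [Fintype Y]

/-- **The hybrid lemma**, counted. -/
theorem sum_badJ [Nonempty X] [Nonempty Y] (lev : I → ℕ) (tp : B) (htp : ∀ b, b ≤ tp) (mX : X → B)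
    (mY : Y → B) (F : I → (I → Prop) → (Fin M → B) → Prop) (hF : Local lev F)
    (hmono : ∀ i β, Monotone (F i β)) (val : (Fin M → B) → I → Prop)
    (hval : ∀ z, IsVal F z (val z)) (K D : ℕ) (hD : ∀ i, lev i < D) (hK0 : 0 < K)
    (hK : Fintype.card I * M ≤ K)
    (hd : ∀ (i : I) (β : I → Prop) (j : Fin M) (o : Fin M → B),
      K * ((univ : Finset Y).filter (fun y => ¬ F i β (Function.update o j (mY y)))).card ≤
        Fintype.card Y ∨
      2 * ((univ : Finset X).filter (fun x => F i β (Function.update o j (mX x)))).card ≤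
        Fintype.card X) :
    ∑ j : Fin M, badJ tp mX mY val j ≤
      (3 * ∏ k ∈ range D, (1 + ((univ : Finset I).filter (fun i => lev i = k)).card)) *
        (Fintype.card (Fin M → X) * Fintype.card Y) := by
  obtain ⟨p, hp⟩ : ∃ p, p = ∏ k ∈ range D,
    (1 + ((univ : Finset I).filter (fun i => lev i = k)).card) := ⟨_, rfl⟩
  rw [← hp]
  have hp1 : 1 ≤ p := by
    rw [hp]
    exact Nat.one_le_iff_ne_zero.2 (prod_ne_zero_iff.2 fun k _ => by omega)
  -- the number of changes
  have hchg : ∑ j : Fin M, ((univ : Finset (Fin M → X)).filter (ChgA tp mX val j)).card ≤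
      Fintype.card (Fin M → X) * (p - 1) := by
    have h3 : ∑ j : Fin M, ((univ : Finset (Fin M → X)).filter (ChgA tp mX val j)).card =
        ∑ xs : Fin M → X, ((range M).filter (fun j => ChgA tp mX val j xs)).card := by
      rw [Fin.sum_univ_eq_sum_range
        (fun j => ((univ : Finset (Fin M → X)).filter (ChgA tp mX val j)).card)]
      simp only [card_filter]
      rw [sum_comm]
    rw [h3]
    have h4 : ∀ xs ∈ (univ : Finset (Fin M → X)),
        ((range M).filter (fun j => ChgA tp mX val j xs)).card ≤ p - 1 := by
      intro xs _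
      have h5 := card_chg lev F hF hmono val hval (fun j => z1 tp mX j xs)
        (fun j => z1_le_succ tp htp mX j xs) M D
      rw [← hp] at h5
      have h6 : (range M).filter (fun j => ChgA tp mX val j xs) =
          (range M).filter (Chg lev val (fun j => z1 tp mX j xs) D) := by
        apply filter_congr
        intro j _
        unfold ChgA Chg
        constructor
        · rintro ⟨i, hi⟩
          exact ⟨i, hD i, hi⟩
        · rintro ⟨i, _, hi⟩
          exact ⟨i, hi⟩
      rw [h6]
      omega
    refine (sum_le_card_nsmul _ _ _ h4).trans ?_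
    simp
  have h7 : K * ∑ j : Fin M, badJ tp mX mY val j ≤
      3 * (K * Fintype.card Y) * (Fintype.card (Fin M → X) * (p - 1)) +
      K * (Fintype.card (Fin M → X) * Fintype.card Y) := by
    rw [mul_sum]
    refine (sum_le_sum fun j _ => badJ_le lev tp htp mX mY F hF hmono val hval K j
      (fun i β o => hd i β j o)).trans ?_
    rw [sum_add_distrib, ← mul_sum, sum_const, card_univ, Fintype.card_fin, smul_eq_mul]
    apply Nat.add_le_add
    · exact Nat.mul_le_mul_left _ hchg
    · rw [← mul_assoc, mul_comm M]
      exact Nat.mul_le_mul_right _ hK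
  have h8 : ∑ j : Fin M, badJ tp mX mY val j ≤
      (3 * (p - 1) + 1) * (Fintype.card (Fin M → X) * Fintype.card Y) := by
    refine Nat.le_of_mul_le_mul_left (c := K) ?_ hK0
    refine h7.trans (le_of_eq ?_)
    ring
  exact h8.trans (Nat.mul_le_mul_right _ (by omega))

end

end Pool.Agent.MP_6216ea_lc.NU
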