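import Mathlib
import Pool.Agent.Lib.MP_6216ea_lc.NUDefs
import Pool.Agent.Lib.MP_6216ea_lc.NUEmb
import Pool.Agent.Lib.MP_6216ea_lc.NUHyb
import Pool.Agent.Lib.MP_6216ea_lc.Core

/-!
# The positive part of a program

The variables of the hard function are placed at random places among many candidates. A path that
reads few variables negatively does not read one of them negatively, with high probability, and so
it is a path of the program without the negative reads.
-/

set_option autoImplicit false

namespace Pool.Agent.MP_6216ea_lc.NU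

open Classical Finset
open Pool.Agent.MP_6216ea_lc
open Pool.Agent.MP_6216ea_lc.NL (Local IsVal exists_val val_unique)

noncomputable section

/-- The input bits given by a family of inputs of the copies. -/
def bits {n M : ℕ} {α : Type} (lb : Fin n → Bool ⊕ (Fin M × α)) (Z : Fin M → α → Prop) :
    Fin n → Bool := fun i => bitL (fun p => decide (Z p.1 p.2)) (lb i)

theorem bits_inl {n M : ℕ} {α : Type} {lb : Fin n → Bool ⊕ (Fin M × α)} (Z : Fin M → α → Prop)
    {i : Fin n} {b : Bool} (h : lb i = .inl b) : bits lb Z i = b := by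
  unfold bits
  rw [h]
  rfl

theorem bits_inr {n M : ℕ} {α : Type} {lb : Fin n → Bool ⊕ (Fin M × α)} (Z : Fin M → α → Prop)
    {i : Fin n} {p : Fin M × α} (h : lb i = .inr p) : bits lb Z i = true ↔ Z p.1 p.2 := by
  unfold bits
  rw [h]
  simp [bitL]

section stages

variable {n T : ℕ} (P : NotNBP n T)

/-! ### The stages of a program: its gates and the output -/

/-- The levels of the stages. -/
def slev : Option (Fin T) → ℕ
  | none => univ.sup P.level + 1
  | some j => P.level j

/-- The gates that may be used in a stage. -/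
def sA : Option (Fin T) → Fin T → Prop
  | none => fun _ => True
  | some j => fun i => P.level i < P.level j

def ssrc : Option (Fin T) → P.V
  | none => P.start
  | some j => P.source j

def stgt : Option (Fin T) → P.V
  | none => P.goal
  | some j => P.target j

theorem level_lt (j : Fin T) : P.level j < univ.sup P.level + 1 :=
  Nat.lt_succ_of_le (le_sup (f := P.level) (mem_univ j))

theorem sA_slev {i : Option (Fin T)} {j : Fin T} (h : sA P i j) :
    slev P (some j) < slev P i := by
  cases i with
  | none => exact level_lt P j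
  | some i => exact h

theorem slev_lt (i : Option (Fin T)) : slev P i < univ.sup P.level + 2 := by
  cases i with
  | none => exact Nat.lt_succ_self _
  | some j => exact (level_lt P j).trans (Nat.lt_succ_self _)

/-- The function computed at a stage. -/
def stX (i : Option (Fin T)) (β : Option (Fin T) → Prop) (x : Fin n → Bool) : Prop :=
  P.Reach x (fun j => decide (β (some j))) (sA P i) (ssrc P i) (stgt P i)

theorem stX_local : Local (slev P) (stX P) := by
  intro i β β' x h
  have key : ∀ γ γ' : Option (Fin T) → Prop,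
      (∀ j, slev P j < slev P i → (γ j ↔ γ' j)) → stX P i γ x → stX P i γ' x := by
    intro γ γ' hγ hr
    refine Relation.ReflTransGen.mono ?_ _ _ hr
    rintro u v ⟨l, hl, ho⟩
    refine ⟨l, hl, ?_⟩
    rcases l with _ | ⟨m, w⟩ | ⟨j, w⟩
    · trivial
    · exact ho
    · obtain ⟨h1, h2⟩ := ho
      refine ⟨h1, ?_⟩
      rw [← h2]
      have := hγ (some j) (sA_slev P h1)
      simp [this]
  exact ⟨key β β' h, key β' β (fun j hj => (h j hj).symm)⟩

theorem exists_valX (x : Fin n → Bool) : ∃ β : Option (Fin T) → Prop, IsVal (stX P) x β :=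
  exists_val (slev P) (stX P) (stX_local P) _ (slev_lt P) x

/-- The values of the stages. -/
def valX (x : Fin n → Bool) : Option (Fin T) → Prop := (exists_valX P x).choose

theorem valX_spec (x : Fin n → Bool) : IsVal (stX P) x (valX P x) := (exists_valX P x).choose_spec

theorem values_valX (x : Fin n → Bool) : P.Values x (fun j => decide (valX P x (some j))) := by
  intro j
  rw [decide_eq_true_iff]
  exact valX_spec P x (some j)

/-- Acceptance in terms of the values of the stages. -/
theorem accepts_iff (x : Fin n → Bool) : P.Accepts x ↔ valX P x none := by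
  constructor
  · rintro ⟨b, hb, hl⟩
    have h1 : IsVal (stX P) x (fun i => match i with
        | none => True
        | some j => b j = true) := by
      intro i
      cases i with
      | none =>
        simp only [true_iff]
        unfold stX
        simp only [Bool.decide_eq_true]
        exact hl
      | some j =>
        unfold stX
        simp only [Bool.decide_eq_true]
        exact hb j
    have h2 := val_unique (slev P) (stX P) (stX_local P) h1 (valX_spec P x) none
    exact h2.1 trivial
  · intro h
    exact ⟨_, values_valX P x, (valX_spec P x none).1 h⟩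

/-- The variables that are read negatively by a witness of a stage. -/
theorem exists_wit {U : Set (Fin n)} {r : ℕ} (hr : P.NegReads U r) (x : Fin n → Bool)
    (i : Option (Fin T)) : ∃ W : Set (Fin n), (W ∩ U).ncard ≤ r ∧ (valX P x i →
      P.ReachNeg x (fun j => decide (valX P x (some j))) (sA P i) W (ssrc P i) (stgt P i)) := by
  by_cases h : valX P x i
  · have h1 := hr x _ (values_valX P x)
    have h2 := (valX_spec P x i).1 h
    cases i with
    | none =>
      obtain ⟨W, h3, h4⟩ := h1.2 h2
      exact ⟨W, h3, fun _ => h4⟩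
    | some j =>
      obtain ⟨W, h3, h4⟩ := h1.1 j h2
      exact ⟨W, h3, fun _ => h4⟩
  · exact ⟨∅, by simp, fun h' => absurd h' h⟩

/-! ### The positive part -/

/-- The function computed at a stage without negative reads of the variables. -/
def stP {M : ℕ} {α : Type} (lb : Fin n → Bool ⊕ (Fin M × α)) (i : Option (Fin T))
    (β : Option (Fin T) → Prop) (Z : Fin M → α → Prop) : Prop :=
  Relation.ReflTransGen (fun u v => ∃ l, P.edge u l v ∧
    NotNBP.Open (bits lb Z) (fun j => decide (β (some j))) (sA P i) l ∧
    ∀ m, l = some (.inl (m, false)) → ∃ b, lb m = .inl b) (ssrc P i) (stgt P i)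

theorem stP_local {M : ℕ} {α : Type} (lb : Fin n → Bool ⊕ (Fin M × α)) :
    Local (slev P) (stP P lb) := by
  intro i β β' Z h
  have key : ∀ γ γ' : Option (Fin T) → Prop,
      (∀ j, slev P j < slev P i → (γ j ↔ γ' j)) → stP P lb i γ Z → stP P lb i γ' Z := by
    intro γ γ' hγ hr
    refine Relation.ReflTransGen.mono ?_ _ _ hr
    rintro u v ⟨l, hl, ho, hp⟩
    refine ⟨l, hl, ?_, hp⟩
    rcases l with _ | ⟨m, w⟩ | ⟨j, w⟩
    · trivial
    · exact ho
    · obtain ⟨h1, h2⟩ := ho
      refine ⟨h1, ?_⟩
      rw [← h2]
      have := hγ (some j) (sA_slev P h1)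
      simp [this]
  exact ⟨key β β' h, key β' β (fun j hj => (h j hj).symm)⟩

theorem stP_mono {M : ℕ} {α : Type} (lb : Fin n → Bool ⊕ (Fin M × α))
    (i : Option (Fin T)) (β : Option (Fin T) → Prop) : Monotone (stP P lb i β) := by
  intro Z Z' hZ hr
  refine Relation.ReflTransGen.mono ?_ _ _ hr
  rintro u v ⟨l, hl, ho, hp⟩
  refine ⟨l, hl, ?_, hp⟩
  rcases l with _ | ⟨m, w⟩ | ⟨j, w⟩
  · trivial
  · have h1 : bits lb Z m = w := ho
    change bits lb Z' m = w
    cases hm : lb m with
    | inl b =>
      rw [bits_inl _ hm] at h1 ⊢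
      exact h1
    | inr p =>
      cases w with
      | true =>
        rw [bits_inr _ hm] at h1 ⊢
        exact hZ p.1 p.2 h1
      | false =>
        obtain ⟨b, hb⟩ := hp m rfl
        rw [hm] at hb
        exact absurd hb (by simp)
  · exact ho

/-- The network of a stage in the variables of the copy `j`. -/
def net {M k : ℕ} (lb : Fin n → Bool ⊕ (Fin M × Var k)) (i : Option (Fin T))
    (β : Option (Fin T) → Prop) (j : Fin M) (o : Fin M → Var k → Prop) :
    P.V → Option (Var k) → P.V → Prop := fun u l v =>
  ∃ l0, P.edge u l0 v ∧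
    ((l0 = none ∧ l = none) ∨
     (∃ jv : Fin T × Bool, l0 = some (.inr jv) ∧
        (sA P i jv.1 ∧ decide (β (some jv.1)) = jv.2) ∧ l = none) ∨
     (∃ (m : Fin n) (w : Bool), l0 = some (.inl (m, w)) ∧ lb m = .inl w ∧ l = none) ∨
     (∃ (m : Fin n), l0 = some (.inl (m, true)) ∧
        ((∃ q, lb m = .inr (j, q) ∧ l = some q) ∨
         (∃ p, lb m = .inr p ∧ p.1 ≠ j ∧ o p.1 p.2 ∧ l = none))))

theorem net_spec {M k : ℕ} (lb : Fin n → Bool ⊕ (Fin M × Var k))
    (i : Option (Fin T)) (β : Option (Fin T) → Prop) (j : Fin M) (o : Fin M → Var k → Prop)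
    (X : Var k → Prop) :
    stP P lb i β (Function.update o j X) ↔
      Reach (net P lb i β j o) X (ssrc P i) (stgt P i) := by
  have hstep : (fun u v => ∃ l, P.edge u l v ∧
      NotNBP.Open (bits lb (Function.update o j X)) (fun j => decide (β (some j))) (sA P i) l ∧
      ∀ m, l = some (.inl (m, false)) → ∃ b, lb m = .inl b) =
      Step (net P lb i β j o) X := by
    funext u v
    apply propext
    constructor
    · rintro ⟨l0, hl0, ho, hp⟩
      rcases l0 with _ | ⟨m, w⟩ | jv
      · exact ⟨none, ⟨none, hl0, Or.inl ⟨rfl, rfl⟩⟩, by simp⟩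
      · have ho' : bits lb (Function.update o j X) m = w := ho
        cases hm : lb m with
        | inl b =>
          rw [bits_inl _ hm] at ho'
          subst ho'
          exact ⟨none, ⟨_, hl0, Or.inr (Or.inr (Or.inl ⟨m, b, rfl, hm, rfl⟩))⟩, by simp⟩
        | inr p =>
          cases w with
          | false =>
            obtain ⟨b, hb⟩ := hp m rfl
            rw [hm] at hb
            exact absurd hb (by simp)
          | true =>
            rw [bits_inr _ hm] at ho'
            by_cases hpj : p.1 = j
            · refine ⟨some p.2, ⟨_, hl0, Or.inr (Or.inr (Or.inr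
                ⟨m, rfl, Or.inl ⟨p.2, ?_, rfl⟩⟩))⟩, ?_⟩
              · rw [hm, ← hpj]
              · intro q hq
                simp only [Option.mem_def, Option.some.injEq] at hq
                subst hq
                rw [hpj, Function.update_self] at ho'
                exact ho'
            · rw [Function.update_of_ne hpj] at ho'
              exact ⟨none, ⟨_, hl0, Or.inr (Or.inr (Or.inr
                ⟨m, rfl, Or.inr ⟨p, hm, hpj, ho', rfl⟩⟩))⟩, by simp⟩
      · exact ⟨none, ⟨_, hl0, Or.inr (Or.inl ⟨jv, rfl, ho, rfl⟩)⟩, by simp⟩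
    · rintro ⟨l, ⟨l0, hl0, h⟩, hX⟩
      refine ⟨l0, hl0, ?_⟩
      rcases h with ⟨rfl, _⟩ | ⟨jv, rfl, ho, _⟩ | ⟨m, w, rfl, hm, _⟩ | ⟨m, rfl, h⟩
      · exact ⟨trivial, by simp⟩
      · exact ⟨ho, by simp⟩
      · refine ⟨bits_inl _ hm, ?_⟩
        intro m' he
        simp only [Option.some.injEq, Sum.inl.injEq, Prod.mk.injEq] at he
        obtain ⟨rfl, _⟩ := he
        exact ⟨w, hm⟩
      · refine ⟨?_, by simp⟩
        change bits lb (Function.update o j X) m = true
        rcases h with ⟨q, hm, rfl⟩ | ⟨p', hm, hne, ho, _⟩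
        · rw [bits_inr _ hm, Function.update_self]
          exact hX q rfl
        · rw [bits_inr _ hm, Function.update_of_ne hne]
          exact ho
  unfold stP Reach
  rw [hstep]

/-- The product over the levels of the stages. -/
theorem prod_levels :
    ∏ k ∈ range (univ.sup P.level + 2),
      (1 + ((univ : Finset (Option (Fin T))).filter (fun i => slev P i = k)).card) =
    2 * P.gates := by
  unfold NotNBP.gates
  obtain ⟨D, hD⟩ : ∃ D, D = univ.sup P.level + 1 := ⟨_, rfl⟩
  have e1 : univ.sup P.level + 2 = D + 1 := by omega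
  rw [e1, prod_range_succ]
  have h1 : ((univ : Finset (Option (Fin T))).filter (fun i => slev P i = D)) = {none} := by
    ext i
    rw [mem_filter, mem_singleton]
    constructor
    · rintro ⟨_, hi⟩
      cases i with
      | none => rfl
      | some j =>
        exfalso
        have h2 := level_lt P j
        change P.level j = D at hi
        omega
    · rintro rfl
      exact ⟨mem_univ _, hD.symm⟩
  rw [h1, card_singleton, mul_comm]
  congr 1
  have h2 : ∀ k ∈ range D, (1 + ((univ : Finset (Option (Fin T))).filter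
      (fun i => slev P i = k)).card) =
      (1 + ((univ : Finset (Fin T)).filter (fun j => P.level j = k)).card) := by
    intro k hk
    rw [mem_range] at hk
    have h3 : (univ : Finset (Option (Fin T))).filter (fun i => slev P i = k) =
        ((univ : Finset (Fin T)).filter (fun j => P.level j = k)).map Function.Embedding.some := by
      ext i
      rw [mem_filter, mem_map]
      constructor
      · rintro ⟨_, hi⟩
        cases i with
        | none =>
          exfalso
          change univ.sup P.level + 1 = k at hi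
          omega
        | some j => exact ⟨j, by rw [mem_filter]; exact ⟨mem_univ _, hi⟩, rfl⟩
      · rintro ⟨j, hj, rfl⟩
        rw [mem_filter] at hj
        exact ⟨mem_univ _, hj.2⟩
    rw [h3, card_map]
  rw [prod_congr rfl h2]
  symm
  apply prod_subset
  · intro k hk
    rw [mem_image] at hk
    obtain ⟨j, _, rfl⟩ := hk
    rw [mem_range, hD]
    exact level_lt P j
  · intro k _ hk
    have : ((univ : Finset (Fin T)).filter (fun j => P.level j = k)) = ∅ := by
      rw [filter_eq_empty_iff]
      rintro j _ rfl
      exact hk (mem_image_of_mem _ (mem_univ j))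
    rw [this]
    simp

end stages

/-! ### Random places -/

section places

variable {n M : ℕ} {α κ : Type}

/-- The labels if the variable `a` is placed at its candidate `c a`. -/
def lbc (lb : Fin n → Bool ⊕ ((Fin M × α) × κ)) (c : Fin M × α → κ) : Fin n → Bool ⊕ (Fin M × α) :=
  fun m => match lb m with
    | .inl b => .inl b
    | .inr (a, e) => if e = c a then .inr a else .inl false

theorem lbc_inr {lb : Fin n → Bool ⊕ ((Fin M × α) × κ)} {c : Fin M × α → κ} {m : Fin n}
    {a : Fin M × α} (h : lbc lb c m = .inr a) : lb m = .inr (a, c a) := by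
  unfold lbc at h
  cases hm : lb m with
  | inl b =>
    rw [hm] at h
    simp at h
  | inr p =>
    obtain ⟨a', e⟩ := p
    rw [hm] at h
    simp only at h
    split_ifs at h with he
    simp only [Sum.inr.injEq] at h
    subst h
    rw [he]

/-- The bits in terms of the candidates. -/
theorem bits_lbc (lb : Fin n → Bool ⊕ ((Fin M × α) × κ)) (c : Fin M × α → κ)
    (Z : Fin M → α → Prop) : bits (lbc lb c) Z =
      fun m => bitL (fun p : (Fin M × α) × κ => decide (Z p.1.1 p.1.2 ∧ p.2 = c p.1)) (lb m) := by
  funext m
  unfold bits lbc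
  cases hm : lb m with
  | inl b => rfl
  | inr p =>
    obtain ⟨a, e⟩ := p
    simp only
    by_cases he : e = c a
    · simp [he, bitL]
    · simp [he, bitL]

/-- Changing the place of a variable with value `false` does not change the input. -/
theorem bits_update [DecidableEq α] (lb : Fin n → Bool ⊕ ((Fin M × α) × κ)) (c : Fin M × α → κ)
    (Z : Fin M → α → Prop) (a : Fin M × α) (ha : ¬ Z a.1 a.2) (e : κ) :
    bits (lbc lb (Function.update c a e)) Z = bits (lbc lb c) Z := by
  rw [bits_lbc, bits_lbc]
  funext m
  cases hm : lb m with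
  | inl b => rfl
  | inr p =>
    by_cases hp : p.1 = a
    · simp [bitL, hp, ha]
    · simp [bitL, Function.update_of_ne hp]

/-- Some variable in `W (input)` is read negatively. -/
def Bad (lb : Fin n → Bool ⊕ ((Fin M × α) × κ)) (W : (Fin n → Bool) → Set (Fin n))
    (U : Set (Fin n)) (Z : Fin M → α → Prop) (c : Fin M × α → κ) : Prop :=
  ∃ m, m ∈ W (bits (lbc lb c) Z) ∩ U ∧ ∃ a, lb m = .inr (a, c a) ∧ ¬ Z a.1 a.2

/-- Extension of a choice of candidates for the variables in `A`. -/
def extc {A : Finset (Fin M × α)} (e0 : κ) (c : {a // a ∈ A} → κ) : Fin M × α → κ :=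
  fun a => if h : a ∈ A then c ⟨a, h⟩ else e0

theorem extc_update [DecidableEq α] {A : Finset (Fin M × α)} (e0 : κ) (c : {a // a ∈ A} → κ) (a : Fin M × α)
    (ha : a ∈ A) (e : κ) :
    extc e0 (Function.update c ⟨a, ha⟩ e) = Function.update (extc e0 c) a e := by
  funext a'
  by_cases h : a' = a
  · subst h
    simp [extc, ha]
  · rw [Function.update_of_ne h]
    unfold extc
    split_ifs with h1
    · rw [Function.update_of_ne]
      intro h2
      exact h (congrArg Subtype.val h2)
    · rfl

theorem card_Bad [DecidableEq α] [Fintype κ] (A : Finset (Fin M × α)) (e0 : κ)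
    (lb : Fin n → Bool ⊕ ((Fin M × α) × κ)) (hA : ∀ m a e, lb m = .inr (a, e) → a ∈ A)
    (W : (Fin n → Bool) → Set (Fin n)) (U : Set (Fin n)) (r : ℕ) (hW : ∀ x, (W x ∩ U).ncard ≤ r)
    (Z : Fin M → α → Prop) :
    Fintype.card κ * ((univ : Finset ({a // a ∈ A} → κ)).filter
      (fun c => Bad lb W U Z (extc e0 c))).card ≤ r * Fintype.card ({a // a ∈ A} → κ) := by
  have h1 : ((univ : Finset ({a // a ∈ A} → κ)).filter
      (fun c => Bad lb W U Z (extc e0 c))).card ≤
      ∑ c : {a // a ∈ A} → κ, ∑ m : Fin n,
        (if m ∈ W (bits (lbc lb (extc e0 c)) Z) ∩ U ∧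
          ∃ a, lb m = .inr (a, extc e0 c a) ∧ ¬ Z a.1 a.2 then 1 else 0) := by
    rw [card_filter]
    apply sum_le_sum
    intro c _
    split_ifs with hc
    · obtain ⟨m, hm⟩ := hc
      refine le_trans ?_ (single_le_sum (f := fun m =>
        if m ∈ W (bits (lbc lb (extc e0 c)) Z) ∩ U ∧
          ∃ a, lb m = .inr (a, extc e0 c a) ∧ ¬ Z a.1 a.2 then 1 else 0)
        (fun _ _ => Nat.zero_le _) (mem_univ m))
      rw [if_pos hm]
    · exact Nat.zero_le _
  have h2 : ∀ m : Fin n, Fintype.card κ * ∑ c : {a // a ∈ A} → κ,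
      (if m ∈ W (bits (lbc lb (extc e0 c)) Z) ∩ U ∧
        ∃ a, lb m = .inr (a, extc e0 c a) ∧ ¬ Z a.1 a.2 then 1 else 0) ≤
      ∑ c : {a // a ∈ A} → κ,
        (if m ∈ W (bits (lbc lb (extc e0 c)) Z) ∩ U then 1 else 0) := by
    intro m
    cases hm : lb m with
    | inl b => simp
    | inr p =>
      obtain ⟨a, e⟩ := p
      have haA : a ∈ A := hA m a e hm
      by_cases ha : Z a.1 a.2
      · have h3 : ∀ c : {a // a ∈ A} → κ, ¬ (m ∈ W (bits (lbc lb (extc e0 c)) Z) ∩ U ∧
            ∃ a', (Sum.inr (a, e) : Bool ⊕ ((Fin M × α) × κ)) = .inr (a', extc e0 c a') ∧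
              ¬ Z a'.1 a'.2) := by
          rintro c ⟨_, a', h4, h5⟩
          simp only [Sum.inr.injEq, Prod.mk.injEq] at h4
          obtain ⟨rfl, _⟩ := h4
          exact h5 ha
        simp only [h3, if_false]
        simp
      · rw [← sum_resample (⟨a, haA⟩ : {a // a ∈ A})]
        apply sum_le_sum
        intro c _
        have h3 : ∀ e' : κ, (m ∈ W (bits (lbc lb (extc e0
              (Function.update c ⟨a, haA⟩ e'))) Z) ∩ U ∧
            ∃ a', (Sum.inr (a, e) : Bool ⊕ ((Fin M × α) × κ)) =
              .inr (a', extc e0 (Function.update c ⟨a, haA⟩ e') a') ∧ ¬ Z a'.1 a'.2) →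
            (e' = e ∧ m ∈ W (bits (lbc lb (extc e0 c)) Z) ∩ U) := by
          rintro e' ⟨h5, a', h4, _⟩
          rw [extc_update, bits_update lb _ Z a ha e'] at h5
          rw [extc_update] at h4
          simp only [Sum.inr.injEq, Prod.mk.injEq] at h4
          obtain ⟨rfl, h6⟩ := h4
          rw [Function.update_self] at h6
          exact ⟨h6.symm, h5⟩
        calc ∑ e' : κ, (if m ∈ W (bits (lbc lb (extc e0
              (Function.update c ⟨a, haA⟩ e'))) Z) ∩ U ∧
            ∃ a', (Sum.inr (a, e) : Bool ⊕ ((Fin M × α) × κ)) =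
              .inr (a', extc e0 (Function.update c ⟨a, haA⟩ e') a') ∧ ¬ Z a'.1 a'.2 then 1 else 0)
            ≤ ∑ e' : κ, (if e' = e then
                (if m ∈ W (bits (lbc lb (extc e0 c)) Z) ∩ U then 1 else 0) else 0) := by
              apply sum_le_sum
              intro e' _
              split_ifs with g1 g2 g3 g4 g5
              · exact le_rfl
              · exact absurd (h3 e' g1).2 g3
              · exact absurd (h3 e' g1).1 g2
              · exact Nat.zero_le _
              · exact le_rfl
              · exact le_rfl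
          _ = if m ∈ W (bits (lbc lb (extc e0 c)) Z) ∩ U then 1 else 0 := by
              rw [sum_ite_eq' univ e]
              simp
  calc Fintype.card κ * ((univ : Finset ({a // a ∈ A} → κ)).filter
        (fun c => Bad lb W U Z (extc e0 c))).card
      ≤ Fintype.card κ * ∑ c : {a // a ∈ A} → κ, ∑ m : Fin n,
        (if m ∈ W (bits (lbc lb (extc e0 c)) Z) ∩ U ∧
          ∃ a, lb m = .inr (a, extc e0 c a) ∧ ¬ Z a.1 a.2 then 1 else 0) :=
        Nat.mul_le_mul_left _ h1
    _ = ∑ m : Fin n, Fintype.card κ * ∑ c : {a // a ∈ A} → κ,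
        (if m ∈ W (bits (lbc lb (extc e0 c)) Z) ∩ U ∧
          ∃ a, lb m = .inr (a, extc e0 c a) ∧ ¬ Z a.1 a.2 then 1 else 0) := by
        rw [sum_comm, mul_sum]
    _ ≤ ∑ m : Fin n, ∑ c : {a // a ∈ A} → κ,
        (if m ∈ W (bits (lbc lb (extc e0 c)) Z) ∩ U then 1 else 0) :=
        sum_le_sum fun m _ => h2 m
    _ = ∑ c : {a // a ∈ A} → κ, ∑ m : Fin n,
        (if m ∈ W (bits (lbc lb (extc e0 c)) Z) ∩ U then 1 else 0) :=
        sum_comm
    _ ≤ ∑ _c : {a // a ∈ A} → κ, r := by
        apply sum_le_sum
        intro c _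
        rw [← card_filter]
        refine le_trans (le_of_eq ?_) (hW (bits (lbc lb (extc e0 c)) Z))
        rw [Set.ncard_eq_toFinset_card']
        congr 1
        ext m
        simp
    _ = r * Fintype.card ({a // a ∈ A} → κ) := by
        rw [sum_const, card_univ, smul_eq_mul, mul_comm]

/-- If no variable is read negatively, then the values are those of the positive part. -/
theorem isVal_of_good {T : ℕ} (P : NotNBP n T) {U : Set (Fin n)}
    (W : Option (Fin T) → (Fin n → Bool) → Set (Fin n))
    (hW : ∀ i x, valX P x i → P.ReachNeg x (fun j => decide (valX P x (some j))) (sA P i) (W i x)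
      (ssrc P i) (stgt P i))
    (lb : Fin n → Bool ⊕ ((Fin M × α) × κ)) (hlb : ∀ m, m ∉ U → ∃ b, lb m = .inl b)
    (Z : Fin M → α → Prop) (c : Fin M × α → κ) (hgood : ∀ i, ¬ Bad lb (W i) U Z c) :
    IsVal (stP P (lbc lb c)) Z (valX P (bits (lbc lb c) Z)) := by
  intro i
  constructor
  · intro hi
    have h1 := hW i _ hi
    refine Relation.ReflTransGen.mono ?_ _ _ h1
    rintro u v ⟨l, hl, ho, hneg⟩
    refine ⟨l, hl, ho, ?_⟩
    intro m hm
    have hmW := hneg m hm
    subst hm
    have hx : bits (lbc lb c) Z m = false := ho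
    cases hlm : lbc lb c m with
    | inl b => exact ⟨b, rfl⟩
    | inr a =>
      exfalso
      have h2 := lbc_inr hlm
      have hU : m ∈ U := by
        by_contra hcon
        obtain ⟨b, hb⟩ := hlb m hcon
        rw [h2] at hb
        simp at hb
      refine hgood i ⟨m, ⟨hmW, hU⟩, a, h2, ?_⟩
      intro hZ
      rw [(bits_inr Z hlm).2 hZ] at hx
      simp at hx
  · intro h
    rw [valX_spec P _ i]
    refine Relation.ReflTransGen.mono ?_ _ _ h
    rintro u v ⟨l, hl, ho, _⟩
    exact ⟨l, hl, ho⟩

end places

end

end Pool.Agent.MP_6216ea_lc.NU
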