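import Mathlib
import Pool.Agent.Lib.MP_6216ea_lc.NUPos
import Pool.Agent.Lib.MP_6216ea_lc.NLPair

/-!
# The lower bound for negative reads and NOT gates
-/

set_option autoImplicit false

namespace Pool.Agent.MP_6216ea_lc.NU

open Classical Finset
open Pool.Agent.MP_6216ea_lc
open Pool.Agent.MP_6216ea_lc.NL (Local IsVal exists_val val_unique z1 z0 badJ dichotomy extX)

noncomputable section

/-- A union bound on pairs. -/
theorem count_pairs {A Θ : Type} [Fintype A] [Fintype Θ] [Nonempty A] (n1 n2 n3 : A → Θ → Prop)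
    (h : ∀ c θ, n1 c θ ∨ n2 c θ ∨ n3 c θ) (D q s : ℕ)
    (h1 : ∀ c, ((univ : Finset Θ).filter (fun θ => n1 c θ)).card ≤ s)
    (h2 : ∀ θ, D * ((univ : Finset A).filter (fun c => n2 c θ)).card ≤ q * Fintype.card A)
    (h3 : ∀ θ, D * ((univ : Finset A).filter (fun c => n3 c θ)).card ≤ q * Fintype.card A) :
    D * Fintype.card Θ ≤ D * s + 2 * (q * Fintype.card Θ) := by
  have hA : 0 < Fintype.card A := Fintype.card_pos
  refine Nat.le_of_mul_le_mul_left (c := Fintype.card A) ?_ hA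
  have e0 : Fintype.card A * Fintype.card Θ = ∑ c : A, ∑ θ : Θ, 1 := by simp
  have hpt : ∀ c θ, 1 ≤ (if n1 c θ then 1 else 0) + ((if n2 c θ then 1 else 0) +
      (if n3 c θ then 1 else 0)) := by
    intro c θ
    rcases h c θ with h | h | h
    · rw [if_pos h]; omega
    · rw [if_pos h]; omega
    · rw [if_pos h]; omega
  have e1 : Fintype.card A * Fintype.card Θ ≤ ∑ c : A, ∑ θ : Θ, (if n1 c θ then 1 else 0) +
      (∑ θ : Θ, ∑ c : A, (if n2 c θ then 1 else 0) +
        ∑ θ : Θ, ∑ c : A, (if n3 c θ then 1 else 0)) := by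
    rw [e0, sum_comm (s := (univ : Finset Θ)) (t := (univ : Finset A)),
      sum_comm (s := (univ : Finset Θ)) (t := (univ : Finset A)),
      ← sum_add_distrib, ← sum_add_distrib]
    refine sum_le_sum fun c _ => ?_
    rw [← sum_add_distrib, ← sum_add_distrib]
    exact sum_le_sum fun θ _ => hpt c θ
  have f1 : ∑ c : A, ∑ θ : Θ, (if n1 c θ then 1 else 0) ≤ Fintype.card A * s := by
    calc ∑ c : A, ∑ θ : Θ, (if n1 c θ then 1 else 0) ≤ ∑ _c : A, s := by
          refine sum_le_sum fun c _ => ?_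
          rw [← card_filter]
          exact h1 c
      _ = Fintype.card A * s := by rw [sum_const, card_univ, smul_eq_mul]
  have f2 : ∀ (nn : A → Θ → Prop),
      (∀ θ, D * ((univ : Finset A).filter (fun c => nn c θ)).card ≤ q * Fintype.card A) →
      D * ∑ θ : Θ, ∑ c : A, (if nn c θ then 1 else 0) ≤
        Fintype.card Θ * (q * Fintype.card A) := by
    intro nn hn
    rw [mul_sum]
    calc ∑ θ : Θ, D * ∑ c : A, (if nn c θ then 1 else 0) ≤ ∑ _θ : Θ, q * Fintype.card A := by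
          refine sum_le_sum fun θ _ => ?_
          rw [← card_filter]
          exact hn θ
      _ = Fintype.card Θ * (q * Fintype.card A) := by rw [sum_const, card_univ, smul_eq_mul]
  have g1 := Nat.mul_le_mul_left D e1
  have g2 := Nat.mul_le_mul_left D f1
  have g3 := f2 n2 h2
  have g4 := f2 n3 h3
  generalize ∑ c : A, ∑ θ : Θ, (if n1 c θ then 1 else 0) = s1 at *
  generalize ∑ θ : Θ, ∑ c : A, (if n2 c θ then 1 else 0) = s2 at *
  generalize ∑ θ : Θ, ∑ c : A, (if n3 c θ then 1 else 0) = s3 at *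
  have i1 : Fintype.card A * (D * Fintype.card Θ) = D * (Fintype.card A * Fintype.card Θ) := by
    ring
  have i2 : Fintype.card A * (D * s + 2 * (q * Fintype.card Θ)) = D * (Fintype.card A * s) +
      (Fintype.card Θ * (q * Fintype.card A) + Fintype.card Θ * (q * Fintype.card A)) := by ring
  have i3 : D * (s1 + (s2 + s3)) = D * s1 + (D * s2 + D * s3) := by ring
  rw [i1, i2]
  rw [i3] at g1
  omega

/-- A union bound over the stages. -/
theorem card_exists_bad {A : Type} [Fintype A] {T r : ℕ} (D : ℕ) (B : Option (Fin T) → A → Prop)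
    (N : A → Prop) (hN : ∀ c, N c → ∃ i, B i c)
    (hB : ∀ i, D * ((univ : Finset A).filter (B i)).card ≤ r * Fintype.card A) :
    D * ((univ : Finset A).filter N).card ≤ (T + 1) * r * Fintype.card A := by
  have h1 : (univ : Finset A).filter N ⊆
      (univ : Finset (Option (Fin T))).biUnion (fun i => (univ : Finset A).filter (B i)) := by
    intro c hc
    rw [mem_filter] at hc
    obtain ⟨i, hi⟩ := hN c hc.2
    rw [mem_biUnion]
    exact ⟨i, mem_univ _, by rw [mem_filter]; exact ⟨mem_univ _, hi⟩⟩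
  calc D * ((univ : Finset A).filter N).card
      ≤ D * ∑ i : Option (Fin T), ((univ : Finset A).filter (B i)).card :=
        Nat.mul_le_mul_left _ ((card_le_card h1).trans card_biUnion_le)
    _ = ∑ i : Option (Fin T), D * ((univ : Finset A).filter (B i)).card := mul_sum _ _ _
    _ ≤ ∑ _i : Option (Fin T), r * Fintype.card A := sum_le_sum fun i _ => hB i
    _ = (T + 1) * r * Fintype.card A := by
        rw [sum_const, card_univ, Fintype.card_option, Fintype.card_fin, smul_eq_mul]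
        ring

/-- The number of noticed replacements. -/
theorem card_noticed {X Y B I : Type} [Fintype X] [Fintype Y] [Fintype I] {M : ℕ} (tp : B)
    (mX : X → B) (mY : Y → B) (val : (Fin M → B) → I → Prop)
    (N : Fin M × ((Fin M → X) × Y) → Prop)
    (hN : ∀ θ, N θ ↔ ∃ i, ¬ (val (z1 tp mX θ.1.1 θ.2.1) i ↔ val (z0 tp mX mY θ.1 θ.2.1 θ.2.2) i)) :
    ((univ : Finset (Fin M × ((Fin M → X) × Y))).filter N).card =
      ∑ j : Fin M, badJ tp mX mY val j := by
  rw [card_filter, Fintype.sum_prod_type]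
  refine sum_congr rfl fun j _ => ?_
  rw [Fintype.sum_prod_type]
  unfold badJ
  refine sum_congr rfl fun xs _ => ?_
  rw [card_filter]
  refine sum_congr rfl fun y _ => ?_
  exact if_congr (hN (j, xs, y)) rfl rfl

/-- **The lower bound** for one scale. -/
theorem lower (d : ℕ) (hd : 3 ≤ d) (M r D : ℕ) {n T : ℕ} (P : NotNBP n T) (U : Set (Fin n))
    (hr : P.NegReads U r) (hD : D = 4 * ((T + 1) * r) + 1)
    (hU : 8 * (M * (D * 2 ^ (198 * d))) + 7 ≤ U.ncard)
    (hV : Fintype.card P.V < 2 ^ (d ^ 2)) (hTM : (T + 1) * M ≤ 2 ^ (2 * d ^ 2))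
    (hP : ∀ x, P.Accepts x ↔ List.ofFn x ∈ uni) :
    M ≤ 12 * P.gates := by
  have hD1 : 1 ≤ Fintype.card (Fin D) := by
    rw [Fintype.card_fin]
    omega
  have hlen := length_tmp (κ := Fin D) M d hd hD1
  rw [Fintype.card_fin] at hlen
  have hcompl : U.ncard + Uᶜ.ncard = n := by
    rw [Set.ncard_add_ncard_compl, Nat.card_eq_fintype_card, Fintype.card_fin]
  obtain ⟨lb, hlbN, hlb⟩ := exists_labels Uᶜ (tmp M d (Fin D)) (optOnly_tmp M d) (by omega)
  have hlbU : ∀ m, m ∉ U → ∃ b, lb m = .inl b := fun m hm => hlbN m hm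
  have hsem : ∀ (c : Fin M × Var (kk d) → Fin D) (Z : Fin M → Var (kk d) → Prop),
      P.Accepts (bits (lbc lb c) Z) ↔ ∀ j : Fin M, ∃ a, G (Z j) (4 * d) [] a := by
    intro c Z
    rw [hP, bits_lbc]
    refine (hlb _).trans ?_
    rw [tmp_sem]
    refine forall_congr' fun j => exists_congr fun a => ?_
    simp
  choose W hW1 hW2 using fun x i => exists_wit P hr x i
  have hex := fun (c : Fin M × Var (kk d) → Fin D) =>
    exists_val (slev P) (stP P (lbc lb c)) (stP_local P (lbc lb c)) _ (slev_lt P)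
  choose valP hvalP using hex
  have : Nonempty (Fin (kk d)) := ⟨⟨0, kk_pos d⟩⟩
  have : Nonempty (Fin D) := ⟨⟨0, by omega⟩⟩
  obtain ⟨A, hA⟩ : ∃ A : Finset (Fin M × Var (kk d)), ∀ m a e, lb m = .inr (a, e) → a ∈ A := by
    refine ⟨univ.biUnion (fun m => Sum.elim (fun _ => ∅) (fun p => {p.1}) (lb m)), ?_⟩
    intro m a e hm
    rw [mem_biUnion]
    refine ⟨m, mem_univ _, ?_⟩
    rw [hm]
    simp
  obtain ⟨e0⟩ : Nonempty (Fin D) := inferInstance
  -- the samples
  obtain ⟨N, hN⟩ : ∃ N, N = Fintype.card (Fin M → (Nd (4 * d) → Fin (kk d))) *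
    Fintype.card (Pos (4 * d) (kk d) → Option Bool) := ⟨_, rfl⟩
  have hN0 : 0 < N := by
    rw [hN]
    exact Nat.mul_pos Fintype.card_pos Fintype.card_pos
  obtain ⟨p1, hp1⟩ : ∃ p1 : Fin M → (Fin M → (Nd (4 * d) → Fin (kk d))) →
      (Fin M → Var (kk d) → Prop),
      p1 = fun j xs => z1 (fun _ => True) (fun x => minX (extX x)) j.1 xs := ⟨_, rfl⟩
  obtain ⟨p0, hp0⟩ : ∃ p0 : Fin M → (Fin M → (Nd (4 * d) → Fin (kk d))) →
      (Pos (4 * d) (kk d) → Option Bool) → (Fin M → Var (kk d) → Prop),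
      p0 = fun j xs y => z0 (fun _ => True) (fun x => minX (extX x))
        (fun y => maxX (4 * d) (extY y)) j xs y := ⟨_, rfl⟩
  have hacc : ∀ c j xs, P.Accepts (bits (lbc lb c) (p1 j xs)) := by
    intro c j xs
    rw [hsem]
    intro i
    rw [hp1]
    simp only [z1]
    split_ifs with hi
    · exact ⟨⟨0, kk_pos d⟩, G_top _ (fun _ => trivial) _ _ _⟩
    · exact ⟨_, G_minX _ _ _⟩
  have hrej : ∀ c j xs y, ¬ P.Accepts (bits (lbc lb c) (p0 j xs y)) := by
    intro c j xs y
    rw [hsem]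
    intro h
    obtain ⟨a, ha⟩ := h j
    rw [hp0] at ha
    simp only [z0, Function.update_self] at ha
    exact not_F_maxX (4 * d) (by omega) _ a ha
  have key := count_pairs (A := {a // a ∈ A} → Fin D)
    (Θ := Fin M × ((Fin M → (Nd (4 * d) → Fin (kk d))) × (Pos (4 * d) (kk d) → Option Bool)))
    (fun c θ => ∃ i, ¬ (valP (extc e0 c) (p1 θ.1 θ.2.1) i ↔
      valP (extc e0 c) (p0 θ.1 θ.2.1 θ.2.2) i))
    (fun c θ => ∃ i, Bad lb (fun x => W x i) U (p1 θ.1 θ.2.1) (extc e0 c))
    (fun c θ => ∃ i, Bad lb (fun x => W x i) U (p0 θ.1 θ.2.1 θ.2.2) (extc e0 c))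
    (by
      intro c θ
      by_contra hcon
      push Not at hcon
      obtain ⟨h1, h2, h3⟩ := hcon
      have g1 := isVal_of_good P (fun i x => W x i) (fun i x => hW2 x i) lb hlbU _ _ h2
      have g2 := isVal_of_good P (fun i x => W x i) (fun i x => hW2 x i) lb hlbU _ _ h3
      have k1 := val_unique (slev P) _ (stP_local P (lbc lb (extc e0 c))) g1 (hvalP _ _) none
      have k2 := val_unique (slev P) _ (stP_local P (lbc lb (extc e0 c))) g2 (hvalP _ _) none
      have k3 := hacc (extc e0 c) θ.1 θ.2.1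
      have k4 := hrej (extc e0 c) θ.1 θ.2.1 θ.2.2
      rw [accepts_iff] at k3 k4
      exact k4 (k2.2 ((h1 none).1 (k1.1 k3))))
    D ((T + 1) * r) (6 * P.gates * N)
    (by
      intro c'
      generalize extc e0 c' = c
      have h1 := sum_badJ (X := Nd (4 * d) → Fin (kk d))
        (Y := Pos (4 * d) (kk d) → Option Bool) (B := Var (kk d) → Prop)
        (I := Option (Fin T)) (M := M) (slev P)
        (fun _ => True) (fun b q _ => trivial) (fun x => minX (extX x))
        (fun y => maxX (4 * d) (extY y)) (stP P (lbc lb c)) (stP_local P _)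
        (stP_mono P _) (valP c) (hvalP c) (2 ^ (2 * d ^ 2)) _ (slev_lt P) (by positivity)
        (by
          rw [Fintype.card_option, Fintype.card_fin]
          exact hTM)
        (by
          intro i β j o
          simp only [net_spec P (lbc lb c)]
          exact dichotomy d hd (net P (lbc lb c) i β j o) (ssrc P i) (stgt P i) hV)
      rw [prod_levels, ← hN] at h1
      rw [card_noticed (fun _ => True) (fun x => minX (extX x))
        (fun y => maxX (4 * d) (extY y)) (valP c) _ (fun θ => by rw [hp1, hp0])]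
      refine h1.trans (le_of_eq ?_)
      ring)
    (by
      intro θ
      refine card_exists_bad D
        (fun i c => Bad lb (fun x => W x i) U (p1 θ.1 θ.2.1) (extc e0 c)) _ (fun c h => h) ?_
      intro i
      have := card_Bad A e0 lb hA (fun x => W x i) U r (fun x => hW1 x i) (p1 θ.1 θ.2.1)
      rwa [Fintype.card_fin] at this)
    (by
      intro θ
      refine card_exists_bad D
        (fun i c => Bad lb (fun x => W x i) U (p0 θ.1 θ.2.1 θ.2.2) (extc e0 c)) _
        (fun c h => h) ?_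
      intro i
      have := card_Bad A e0 lb hA (fun x => W x i) U r (fun x => hW1 x i) (p0 θ.1 θ.2.1 θ.2.2)
      rwa [Fintype.card_fin] at this)
  have hΘ : Fintype.card (Fin M × ((Fin M → (Nd (4 * d) → Fin (kk d))) ×
      (Pos (4 * d) (kk d) → Option Bool))) = M * N := by
    rw [Fintype.card_prod, Fintype.card_prod, Fintype.card_fin, hN]
  rw [hΘ] at key
  obtain ⟨q, hq⟩ : ∃ q, q = (T + 1) * r := ⟨_, rfl⟩
  rw [← hq] at key hD
  have k1 : D * M ≤ D * (6 * P.gates) + 2 * (q * M) := by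
    refine Nat.le_of_mul_le_mul_right (c := N) ?_ hN0
    have e1 : D * M * N = D * (M * N) := by ring
    have e2 : (D * (6 * P.gates) + 2 * (q * M)) * N =
        D * (6 * P.gates * N) + 2 * (q * (M * N)) := by ring
    rw [e1, e2]
    exact key
  rw [hD] at k1
  refine Nat.le_of_mul_le_mul_left (c := 2 * q + 1) ?_ (by omega)
  have e3 : (4 * q + 1) * M = (2 * q + 1) * M + 2 * (q * M) := by ring
  have e4 : (2 * q + 1) * (12 * P.gates) = (4 * q + 1) * (6 * P.gates) + 6 * P.gates := by ring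
  rw [e3] at k1
  rw [e4]
  omega

/-- The number of gates is bounded by the product over the levels. -/
theorem gates_le {T : ℕ} (lev : Fin T → ℕ) :
    1 + T ≤ ∏ k ∈ Finset.univ.image lev, (1 + (Finset.univ.filter (fun j => lev j = k)).card) := by
  have h1 : T = ∑ k ∈ Finset.univ.image lev, (Finset.univ.filter (fun j => lev j = k)).card := by
    have := Finset.card_eq_sum_card_image lev (Finset.univ : Finset (Fin T))
    rwa [Finset.card_univ, Fintype.card_fin] at this
  have h2 : ∀ s : Finset ℕ, 1 + ∑ k ∈ s, (Finset.univ.filter (fun j => lev j = k)).card ≤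
      ∏ k ∈ s, (1 + (Finset.univ.filter (fun j => lev j = k)).card) := by
    intro s
    induction s using Finset.induction_on with
    | empty => simp
    | insert a s ha ih =>
      rw [Finset.sum_insert ha, Finset.prod_insert ha]
      generalize (Finset.univ.filter (fun j => lev j = a)).card = c at *
      generalize ∑ k ∈ s, (Finset.univ.filter (fun j => lev j = k)).card = u at *
      generalize ∏ k ∈ s, (1 + (Finset.univ.filter (fun j => lev j = k)).card) = w at *
      have h3 : c ≤ c * w := Nat.le_mul_of_pos_right c (by omega)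
      have h4 : (1 + c) * w = w + c * w := by ring
      rw [h4]
      omega
  have h3 := h2 (Finset.univ.image lev)
  rw [← h1] at h3
  exact h3

/-- The lower bound in exponents. -/
theorem uni_lower (n : ℕ) (hn : 16 ≤ n) (S T r : ℕ) (P : NotNBP n T) (U : Set (Fin n))
    (hr : P.NegReads U r) (hnS : n ≤ S) (hPS : Fintype.card P.V ≤ S)
    (hP : ∀ x, P.Accepts x ↔ List.ofFn x ∈ uni) :
    U.ncard ≤ P.gates * (1 + (T + 1) * r) * 2 ^ (201 * (Nat.sqrt (Nat.log 2 S) + 1)) := by
  obtain ⟨s, hs⟩ : ∃ s, s = Nat.log 2 S := ⟨_, rfl⟩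
  obtain ⟨d, hd⟩ : ∃ d, d = Nat.sqrt s + 1 := ⟨_, rfl⟩
  rw [← hs, ← hd]
  have hgates : 1 + T ≤ P.gates := gates_le P.level
  obtain ⟨u, hu⟩ : ∃ u, u = U.ncard := ⟨_, rfl⟩
  obtain ⟨q, hq⟩ : ∃ q, q = (T + 1) * r := ⟨_, rfl⟩
  have hun : u ≤ n := by
    rw [hu]
    have := Set.ncard_le_card U
    rwa [Nat.card_eq_fintype_card, Fintype.card_fin] at this
  rw [← hu, ← hq]
  by_contra hcon
  push Not at hcon
  have hs1 : 4 ≤ s := by
    rw [hs]
    exact Nat.le_log_of_pow_le (by norm_num) ((by norm_num : 2 ^ 4 ≤ 16).trans (hn.trans hnS))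
  have hd3 : 3 ≤ d := by
    have : 2 ≤ Nat.sqrt s := by
      rw [Nat.le_sqrt]
      omega
    omega
  have hsd : s + 1 ≤ d ^ 2 := by
    have := Nat.lt_succ_sqrt s
    rw [hd, sq]
    exact this
  have hSd : S < 2 ^ (d ^ 2) := by
    have h1 : S < 2 ^ (s + 1) := by
      rw [hs]
      exact Nat.lt_pow_succ_log_self (by norm_num) S
    exact h1.trans_le (Nat.pow_le_pow_right (by norm_num) hsd)
  obtain ⟨K, hK⟩ : ∃ K, K = 2 ^ (198 * d) := ⟨_, rfl⟩
  have hK0 : 0 < K := by rw [hK]; positivity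
  have hpow : 512 * K ≤ 2 ^ (201 * d) := by
    have h1 : 2 ^ (201 * d) = 2 ^ (3 * d) * K := by
      rw [hK, ← pow_add]
      congr 1
      ring
    rw [h1]
    apply Nat.mul_le_mul_right
    calc 512 = 2 ^ 9 := by norm_num
      _ ≤ 2 ^ (3 * d) := Nat.pow_le_pow_right (by norm_num) (by omega)
  obtain ⟨g, hg⟩ : ∃ g, g = P.gates := ⟨_, rfl⟩
  rw [← hg] at hcon hgates
  obtain ⟨E, hE⟩ : ∃ E, E = g * (1 + q) * K := ⟨_, rfl⟩
  have hE1 : g * (1 + q) * (512 * K) = 512 * E := by rw [hE]; ring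
  have hbig : 512 * E < u := by
    rw [← hE1]
    exact (Nat.mul_le_mul_left _ hpow).trans_lt hcon
  have hgE : g ≤ E := by
    rw [hE, mul_assoc]
    exact Nat.le_mul_of_pos_right _ (Nat.mul_pos (by omega) hK0)
  obtain ⟨D, hD⟩ : ∃ D, D = 4 * q + 1 := ⟨_, rfl⟩
  have hDK : 0 < D * K := Nat.mul_pos (by omega) hK0
  obtain ⟨M, hM⟩ : ∃ M, M = (u - 7) / (8 * (D * K)) := ⟨_, rfl⟩
  have hM1 : 8 * (M * (D * K)) ≤ u - 7 := by
    have h1 := Nat.div_mul_le_self (u - 7) (8 * (D * K))
    rw [← hM] at h1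
    calc 8 * (M * (D * K)) = M * (8 * (D * K)) := by ring
      _ ≤ u - 7 := h1
  have hM2 : u - 7 < (M + 1) * (8 * (D * K)) := by
    have h1 := Nat.lt_div_mul_add (a := u - 7) (b := 8 * (D * K)) (by omega)
    rw [← hM] at h1
    rw [add_mul, one_mul]
    exact h1
  have hn2 : n < 2 ^ (d ^ 2) := hnS.trans_lt hSd
  have hMn : M ≤ 2 ^ (d ^ 2) := by
    have h1 : M ≤ M * (D * K) := Nat.le_mul_of_pos_right _ hDK
    omega
  have hT : T + 1 ≤ 2 ^ (d ^ 2) := by omega
  have key : M ≤ 12 * g := by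
    rw [hg]
    refine lower d hd3 M r D P U hr (by rw [hD, hq]) ?_ (hPS.trans_lt hSd) ?_ hP
    · rw [← hu, ← hK]
      omega
    · calc (T + 1) * M ≤ 2 ^ (d ^ 2) * 2 ^ (d ^ 2) := Nat.mul_le_mul hT hMn
        _ = 2 ^ (2 * d ^ 2) := by rw [← pow_add]; congr 1; ring
  have h5 : (M + 1) * (8 * (D * K)) ≤ (13 * g) * (8 * (D * K)) := Nat.mul_le_mul_right _ (by omega)
  have h6 : (13 * g) * (8 * (D * K)) ≤ 416 * E := by
    calc (13 * g) * (8 * (D * K)) ≤ (13 * g) * (8 * ((4 * (1 + q)) * K)) :=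
          Nat.mul_le_mul_left _ (Nat.mul_le_mul_left _ (Nat.mul_le_mul_right _ (by omega)))
      _ = 416 * E := by rw [hE]; ring
  omega

/-- The lower bound in logarithms. -/
theorem uni_lower_real (n : ℕ) (hn : 16 ≤ n) (S T r : ℕ) (P : NotNBP n T) (U : Set (Fin n))
    (hr : P.NegReads U r) (hnS : n ≤ S) (hPS : Fintype.card P.V ≤ S)
    (hP : ∀ x, P.Accepts x ↔ List.ofFn x ∈ uni) :
    (U.ncard : ℝ) ≤ P.gates * (1 + (T + 1) * r) * 2 ^ (402 * √(Real.logb 2 S)) := by
  have h0 : (0 : ℝ) ≤ P.gates * (1 + (T + 1) * r) := by positivity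
  have h1 := uni_lower n hn S T r P U hr hnS hPS hP
  have hS0 : 0 < S := by omega
  have h3 : ((Nat.log 2 S : ℕ) : ℝ) ≤ Real.logb 2 S := by
    rw [Real.le_logb_iff_rpow_le (by norm_num) (by exact_mod_cast hS0), Real.rpow_natCast]
    exact_mod_cast Nat.pow_log_le_self 2 hS0.ne'
  have h4 : ((Nat.sqrt (Nat.log 2 S) : ℕ) : ℝ) ≤ √(Real.logb 2 S) := by
    refine le_trans ?_ (Real.sqrt_le_sqrt h3)
    exact Real.nat_sqrt_le_real_sqrt
  have h5 : (1 : ℝ) ≤ √(Real.logb 2 S) := by
    rw [Real.one_le_sqrt]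
    refine le_trans ?_ h3
    have : 4 ≤ Nat.log 2 S :=
      Nat.le_log_of_pow_le (by norm_num) ((by norm_num : 2 ^ 4 ≤ 16).trans (hn.trans hnS))
    exact_mod_cast (by omega : 1 ≤ Nat.log 2 S)
  have h6 : (2 : ℝ) ^ (201 * (Nat.sqrt (Nat.log 2 S) + 1)) ≤ 2 ^ (402 * √(Real.logb 2 S)) := by
    rw [← Real.rpow_natCast]
    apply Real.rpow_le_rpow_of_exponent_le (by norm_num)
    push_cast
    linarith
  calc (U.ncard : ℝ) ≤ ((P.gates * (1 + (T + 1) * r) *
          2 ^ (201 * (Nat.sqrt (Nat.log 2 S) + 1)) : ℕ) : ℝ) := Nat.cast_le.2 h1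
    _ = P.gates * (1 + (T + 1) * r) * (2 : ℝ) ^ (201 * (Nat.sqrt (Nat.log 2 S) + 1)) := by
        push_cast; ring
    _ ≤ P.gates * (1 + (T + 1) * r) * 2 ^ (402 * √(Real.logb 2 S)) :=
        mul_le_mul_of_nonneg_left h6 h0

end

end Pool.Agent.MP_6216ea_lc.NU
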