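import Mathlib
import Pool.Agent.Lib.MP_6216ea_lc.NUCirc
import Pool.Agent.Lib.MP_6216ea_lc.NULower

/-!
# The size of the circuits
-/

set_option autoImplicit false

namespace Pool.Agent.MP_6216ea_lc.NU

open Pool.Agent.MP_6216ea_lc

theorem card_St : Fintype.card St = 3 := rfl

theorem kap_le (n : ℕ) (hn : 8 ≤ n) : kap n ≤ 2 * n ^ 4 := by
  have e : kap n = (3 * (n / 8 + 1)) * (3 * (n / 8 + 1)) +
      ((3 * (n / 8 + 1)) * (3 * (n / 8 + 1))) * ((3 * (n / 8 + 1)) * (3 * (n / 8 + 1))) := by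
    unfold kap
    simp only [Fintype.card_sum, Fintype.card_prod, Fintype.card_fin, card_St]
  have h1 : 3 * (n / 8 + 1) ≤ n := by omega
  have h2 : (3 * (n / 8 + 1)) * (3 * (n / 8 + 1)) ≤ n * n := Nat.mul_le_mul h1 h1
  have h3 : ((3 * (n / 8 + 1)) * (3 * (n / 8 + 1))) * ((3 * (n / 8 + 1)) * (3 * (n / 8 + 1))) ≤
      (n * n) * (n * n) := Nat.mul_le_mul h2 h2
  have h4 : n * n ≤ (n * n) * (n * n) := Nat.le_mul_of_pos_left _ (Nat.mul_pos (by omega) (by omega))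
  have e2 : 2 * n ^ 4 = (n * n) * (n * n) + (n * n) * (n * n) := by ring
  rw [e, e2]
  omega

theorem log_bound (n : ℕ) (hn : 256 ≤ n) : 24 * (Nat.log 2 n + 2) ≤ n := by
  obtain ⟨l, hl⟩ : ∃ l, l = Nat.log 2 n := ⟨_, rfl⟩
  have h1 : 2 ^ l ≤ n := by
    rw [hl]
    exact Nat.pow_log_le_self 2 (by omega)
  have h2 : 8 ≤ l := by
    rw [hl]
    exact Nat.le_log_of_pow_le (by norm_num) ((by norm_num : 2 ^ 8 ≤ 256).trans hn)
  rw [← hl]
  have h3 : ∀ k : ℕ, 24 * (k + 10) ≤ 2 ^ (k + 8) := by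
    intro k
    induction k with
    | zero => norm_num
    | succ k ih =>
      have e : 2 ^ (k + 1 + 8) = 2 * 2 ^ (k + 8) := by ring
      rw [e]
      omega
  have h4 := h3 (l - 8)
  have e1 : l - 8 + 8 = l := by omega
  have e2 : l - 8 + 10 = l + 2 := by omega
  rw [e1, e2] at h4
  exact h4.trans h1

/-- **The circuits**. -/
theorem uni_circ (n : ℕ) (hn : 256 ≤ n) :
    ∃ A : SemiUnboundedCircuit n, Fintype.card A.Gate ≤ n ^ 9 ∧
      (∀ a, A.level a ≤ 8 * Nat.log 2 n + 14) ∧ ∀ x, A.val A.out x ↔ List.ofFn x ∈ uni := by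
  obtain ⟨t, ht⟩ : ∃ t, t = Nat.log 2 n + 1 := ⟨_, rfl⟩
  have ht2 : 2 * (n / 8) + 1 ≤ 2 ^ t := by
    have h1 : n < 2 ^ t := by
      rw [ht]
      exact Nat.lt_pow_succ_log_self (by norm_num) n
    omega
  obtain ⟨A, hA1, hA2, o, ho⟩ := fam5 n t ht2 (fam4 n (4 * t) (fam2 n (fam1 n)))
  refine ⟨⟨A.Gate, A.fin, A.level, A.val, A.correct, o ()⟩, ?_, ?_, fun x => ho () x⟩
  · change Fintype.card A.Gate ≤ n ^ 9
    refine hA1.trans ?_
    change n + 1 + Fintype.card (Option (Fin n)) ^ 2 +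
      Fintype.card (Option (Fin (n / 8) × Fin 4 × Fin 4)) +
      Fintype.card (Option (Fin (n / 8) × Fin 4 × Fin 4)) ^ 2 + kap n +
      4 * t * (kap n ^ 2 + kap n) + kap n ^ 2 + 1 ≤ n ^ 9
    have hK := kap_le n (by omega)
    have hlog := log_bound n hn
    generalize kap n = K at *
    have c1 : Fintype.card (Option (Fin n)) = n + 1 := by simp
    have c2 : Fintype.card (Option (Fin (n / 8) × Fin 4 × Fin 4)) = n / 8 * (4 * 4) + 1 := by
      simp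
    rw [c1, c2]
    have c3 : n / 8 * (4 * 4) + 1 ≤ 3 * n := by omega
    have c4 : (n / 8 * (4 * 4) + 1) ^ 2 ≤ (3 * n) ^ 2 := Nat.pow_le_pow_left c3 2
    have c5 : (n + 1) ^ 2 ≤ (2 * n) ^ 2 := Nat.pow_le_pow_left (by omega) 2
    have c6 : K ^ 2 ≤ (2 * n ^ 4) ^ 2 := Nat.pow_le_pow_left hK 2
    have e1 : (3 * n) ^ 2 = 9 * n ^ 2 := by ring
    have e2 : (2 * n) ^ 2 = 4 * n ^ 2 := by ring
    have e3 : (2 * n ^ 4) ^ 2 = 4 * n ^ 8 := by ring
    rw [e1] at c4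
    rw [e2] at c5
    rw [e3] at c6
    have hn1 : 1 ≤ n := by omega
    have p1 : n ≤ n ^ 2 := by
      calc n = n ^ 1 := (pow_one n).symm
        _ ≤ n ^ 2 := Nat.pow_le_pow_right hn1 (by norm_num)
    have p2 : 10 * n ^ 2 ≤ n ^ 4 := by
      calc 10 * n ^ 2 ≤ n ^ 2 * n ^ 2 := Nat.mul_le_mul_right _ (by nlinarith)
        _ = n ^ 4 := by ring
    have p3 : 10 * n ^ 4 ≤ n ^ 8 := by
      calc 10 * n ^ 4 ≤ n ^ 4 * n ^ 4 := Nat.mul_le_mul_right _ (by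
            have : 0 < n ^ 2 := by positivity
            omega)
        _ = n ^ 8 := by ring
    have c7 : K ^ 2 + K ≤ 5 * n ^ 8 := by omega
    have c8 : 4 * t * (K ^ 2 + K) ≤ 4 * t * (5 * n ^ 8) := Nat.mul_le_mul_left _ c7
    have e4 : 4 * t * (5 * n ^ 8) = 20 * t * n ^ 8 := by ring
    rw [e4] at c8
    have c9 : 24 * (t + 1) * n ^ 8 ≤ n * n ^ 8 := Nat.mul_le_mul_right _ (by omega)
    have e5 : n ^ 9 = n * n ^ 8 := by ring
    rw [e5]
    have e6 : 24 * (t + 1) * n ^ 8 = 20 * t * n ^ 8 + 4 * (t * n ^ 8) + 24 * n ^ 8 := by ring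
    rw [e6] at c9
    have p0 : 1 ≤ n ^ 2 := by omega
    omega
  · intro a
    have h1 := hA2 a
    change A.level a ≤ _
    omega

/-- The depth in logarithms. -/
theorem level_bound (n : ℕ) (hn : 256 ≤ n) (l : ℕ) (hl : l ≤ 8 * Nat.log 2 n + 14) :
    (l : ℝ) ≤ 402 * Real.log n := by
  have hn0 : (0 : ℝ) < n := by
    have : 0 < n := by omega
    exact_mod_cast this
  have h1 : ((Nat.log 2 n : ℕ) : ℝ) * Real.log 2 ≤ Real.log n := by
    have h2 : (2 : ℝ) ^ (Nat.log 2 n) ≤ n := by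
      exact_mod_cast Nat.pow_log_le_self 2 (by omega)
    have h3 := Real.log_le_log (by positivity) h2
    rwa [Real.log_pow] at h3
  have h4 : (0.5 : ℝ) ≤ Real.log 2 := by
    have := Real.log_two_gt_d9
    linarith
  have h5 : (8 : ℝ) ≤ ((Nat.log 2 n : ℕ) : ℝ) := by
    have : 8 ≤ Nat.log 2 n :=
      Nat.le_log_of_pow_le (by norm_num) ((by norm_num : 2 ^ 8 ≤ 256).trans hn)
    exact_mod_cast this
  have h7 : (l : ℝ) ≤ 8 * (Nat.log 2 n : ℕ) + 14 := by exact_mod_cast hl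
  nlinarith

end Pool.Agent.MP_6216ea_lc.NU
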