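import Pool.Agent.Lib.MP_6216ea_lc.DCModel

/-! Counting the stack operations of a pushdown program. -/

set_option autoImplicit false

namespace Pool.Agent.MP_6216ea_lc

/-- The instruction is a push or a pop. -/
def PInstr.isStack {ι α Γ S : Type} : PInstr ι α Γ S → Bool
  | .push _ _ => true
  | .pop _ => true
  | _ => false

/-- `P.Reach x k s z`: on the input `x` the program, started in the start node with the empty
stack, reaches the node `s` with the stack `z` (top first) by a computation with exactly `k` stack
operations (pushes and pops). -/
inductive PushProg.Reach {ι α : Type} (P : PushProg ι α) (x : ι → α) :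
    ℕ → P.S → List P.Γ → Prop
  | start : PushProg.Reach P x 0 P.start []
  | move {k : ℕ} {s s' : P.S} {z z' : List P.Γ} : PushProg.Reach P x k s z →
      (P.instr s).isStack = false → P.next x s z = some (s', z') → PushProg.Reach P x k s' z'
  | op {k : ℕ} {s s' : P.S} {z z' : List P.Γ} : PushProg.Reach P x k s z →
      (P.instr s).isStack = true → P.next x s z = some (s', z') → PushProg.Reach P x (k + 1) s' z'

/-- The program, started in the start node with the empty stack, reaches an accepting node by a
computation with at most `T` stack operations (and any number of other steps). -/
def PushProg.AcceptsOps {ι α : Type} (P : PushProg ι α) (x : ι → α) (T : ℕ) : Prop :=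
  ∃ k ≤ T, ∃ s z, P.Reach x k s z ∧ P.acc s = true

end Pool.Agent.MP_6216ea_lc
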