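import Pool.Agent.Lib.MP_6216ea_lc.DDExt

/-! Extensions from a grid over a finite field and interpolation at all nonzero elements. -/

set_option autoImplicit false

namespace Pool.Agent.MP_6216ea_lc

namespace GExt

open Polynomial

variable {K : Type} [Field K] [Fintype K] {I : Type} [Fintype I] [DecidableEq I] {h : ℕ}

/-- The extension of `f` from the grid of the points `ν k`. -/
noncomputable def ext (ν : Fin h → K) (f : (I → Fin h) → K) (r : I → K) : K :=
  ∑ e : I → Fin h, f e * ∏ i, (Lagrange.basis Finset.univ ν (e i)).eval (r i)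

omit [Fintype K] in
theorem ext_grid (ν : Fin h → K) (hν : Function.Injective ν) (f : (I → Fin h) → K)
    (e₀ : I → Fin h) : ext ν f (fun i => ν (e₀ i)) = f e₀ := by
  classical
  unfold ext
  rw [Finset.sum_eq_single e₀]
  · have : ∏ i, (Lagrange.basis Finset.univ ν (e₀ i)).eval (ν (e₀ i)) = 1 := by
      apply Finset.prod_eq_one
      intro i _
      exact Lagrange.eval_basis_self hν.injOn (Finset.mem_univ _)
    rw [this, mul_one]
  · intro e _ he
    obtain ⟨i, hi⟩ : ∃ i, e i ≠ e₀ i := by
      by_contra h
      push Not at h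
      exact he (funext h)
    have : ∏ i, (Lagrange.basis Finset.univ ν (e i)).eval (ν (e₀ i)) = 0 := by
      apply Finset.prod_eq_zero (Finset.mem_univ i)
      exact Lagrange.eval_basis_of_ne hi (Finset.mem_univ _)
    rw [this, mul_zero]
  · intro h
    exact absurd (Finset.mem_univ _) h

/-- The restriction of the extension to a line, as a polynomial. -/
noncomputable def line (ν : Fin h → K) (f : (I → Fin h) → K) (u v : I → K) : K[X] :=
  ∑ e : I → Fin h, C (f e) *
    ∏ i, (Lagrange.basis Finset.univ ν (e i)).comp (C (u i) * X + C (v i))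

omit [Fintype K] in
theorem line_eval (ν : Fin h → K) (f : (I → Fin h) → K) (u v : I → K) (t : K) :
    (line ν f u v).eval t = ext ν f (t • u + v) := by
  unfold line ext
  rw [Polynomial.eval_finsetSum]
  apply Finset.sum_congr rfl
  intro e _
  rw [Polynomial.eval_mul, Polynomial.eval_C, Polynomial.eval_prod]
  congr 1
  apply Finset.prod_congr rfl
  intro i _
  rw [Polynomial.eval_comp]
  simp only [Pi.add_apply, Pi.smul_apply, smul_eq_mul, eval_add, eval_mul, eval_C, eval_X]
  rw [mul_comm]

omit [Fintype K] in
theorem line_deg (ν : Fin h → K) (hν : Function.Injective ν) (f : (I → Fin h) → K)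
    (u v : I → K) : (line ν f u v).natDegree ≤ Fintype.card I * (h - 1) := by
  unfold line
  apply Polynomial.natDegree_sum_le_of_forall_le
  intro e _
  refine (Polynomial.natDegree_C_mul_le _ _).trans ?_
  refine (Polynomial.natDegree_prod_le _ _).trans ?_
  refine (Finset.sum_le_sum (g := fun _ => h - 1) ?_).trans ?_
  · intro i _
    refine (Polynomial.natDegree_comp_le).trans ?_
    have h1 : (Lagrange.basis Finset.univ ν (e i)).natDegree = h - 1 := by
      rw [Lagrange.natDegree_basis hν.injOn (Finset.mem_univ _)]
      simp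
    rw [h1]
    calc (h - 1) * (C (u i) * X + C (v i)).natDegree ≤ (h - 1) * 1 :=
          Nat.mul_le_mul_left _ Polynomial.natDegree_linear_le
      _ = h - 1 := mul_one _
  · simp

/-- Interpolation at all nonzero elements. -/
theorem sum_ext [DecidableEq K] (ν : Fin h → K) (hν : Function.Injective ν)
    (f : (I → Fin h) → K) (u v : I → K)
    (hd : Fintype.card I * (h - 1) < Fintype.card K - 1) :
    ∑ t ∈ (Finset.univ.erase (0 : K)), ext ν f (t • u + v) = - ext ν f v := by
  have h1 := MExt.sum_poly (line ν f u v) ((line_deg ν hν f u v).trans_lt hd)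
  rw [Finset.sum_erase_eq_sub (Finset.mem_univ _)]
  simp_rw [← line_eval]
  rw [h1, line_eval, zero_sub]
  simp

end GExt

end Pool.Agent.MP_6216ea_lc
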