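import Pool.Agent.Lib.MP_6216ea_lc.RDOp

/-! Programs which add a value to a register: a family of maps applied to a value. -/

set_option autoImplicit false

namespace Pool.Agent.MP_6216ea_lc

namespace Reg

variable {ι α X K : Type} [Field K] {h D m : ℕ} {ν : Fin h → K} {code : X → Fin D → Fin h}

/-- Scale one register. -/
def scale1 (r : Fin (m + 1)) (t : K) (s : St K m D) : St K m D :=
  fun k => if k = r then t • s k else s k

/-- The extension of the indicator of `c`. -/
noncomputable def ind (ν : Fin h → K) (code : X → Fin D → Fin h) (c : X) (r : Fin D → K) : K :=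
  open Classical in GExt.ext ν (fun e => if e = code c then (1 : K) else 0) r

/-- One question. -/
noncomputable def Q1 (ν : Fin h → K) (code : X → Fin D → Fin h) (j r u : Fin (m + 1)) (σ : K)
    (B : X → (ι → α) → Fin D → K) (c : X) (x : ι → α) (s : St K m D) : St K m D :=
  (fun s : St K m D => s + Pi.single u (-(B c x)))
    ((fun s : St K m D => s + Pi.single j ((-(σ * ind ν code c (s r))) • s u))
      ((fun s : St K m D => s + Pi.single u (B c x))
        ((fun s : St K m D => s + Pi.single j ((σ * ind ν code c (s r)) • s u)) s)))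

theorem Q1_eq {j r u : Fin (m + 1)} (hjr : r ≠ j) (hju : u ≠ j) (hru : r ≠ u) (σ : K)
    (B : X → (ι → α) → Fin D → K) (c : X) (x : ι → α) (s : St K m D) :
    Q1 ν code j r u σ B c x s =
      s + Pi.single j ((-(σ * ind ν code c (s r))) • B c x) := by
  unfold Q1
  simp only [Pi.add_apply, Pi.single_eq_of_ne hjr, Pi.single_eq_of_ne hju,
    Pi.single_eq_of_ne hru, add_zero, Pi.single_eq_same]
  rw [smul_add, Pi.single_add, neg_smul, Pi.single_neg, Pi.single_neg]
  abel

theorem Q1_comp (j r u : Fin (m + 1)) (σ : K) (B : X → (ι → α) → Fin D → K) (c : X) {L : ℕ}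
    (h1 : Comp L (fun x (s : St K m D) => s + Pi.single u (B c x)))
    (h2 : Comp L (fun x (s : St K m D) => s + Pi.single u (-(B c x)))) :
    Comp (2 * L) (Q1 ν code j r u σ B c) := by
  have h3 := ((((Comp.const (ι := ι) (α := α) (fun s : St K m D =>
    s + Pi.single j ((σ * ind ν code c (s r)) • s u))).comp h1).comp (Comp.const
      (fun s : St K m D => s + Pi.single j ((-(σ * ind ν code c (s r))) • s u)))).comp h2)
  exact (h3.mono (b := 2 * L) (by omega)).of_eq fun x s => rfl

section

variable [Fintype X] [Fintype K] [DecidableEq K]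

/-- A map applied to a value. -/
theorem HasProg.app (hm : 2 ≤ m) (hν : Function.Injective ν) (hcode : Function.Injective code)
    (hd : D * (h - 1) < Fintype.card K - 1) {A : (ι → α) → X → X} {L : ℕ}
    (hA : ∀ c, HasProg ν code m L (fun x => A x c)) {v : (ι → α) → X} {l : ℕ}
    (hv : HasProg ν code m l v) :
    HasProg ν code m (2 * Fintype.card K * (l + Fintype.card X * L)) (fun x => A x (v x)) := by
  classical
  intro j σ
  obtain ⟨r, hrj⟩ : ∃ r : Fin (m + 1), r = j.succAbove ⟨0, by omega⟩ := ⟨_, rfl⟩
  obtain ⟨u, huj⟩ : ∃ u : Fin (m + 1), u = j.succAbove ⟨1, by omega⟩ := ⟨_, rfl⟩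
  have hjr : r ≠ j := by rw [hrj]; exact Fin.succAbove_ne j _
  have hju : u ≠ j := by rw [huj]; exact Fin.succAbove_ne j _
  have hru : r ≠ u := by
    rw [hrj, huj]
    intro h
    have := Fin.succAbove_right_injective h
    simp at this
  let W : List X := (Finset.univ : Finset X).toList
  have hW : W.length = Fintype.card X := by
    simp only [W, Finset.length_toList, Finset.card_univ]
  let B : X → (ι → α) → Fin D → K := fun c x => enc ν code (A x c)
  have hB1 : ∀ c, Comp L (fun x (s : St K m D) => s + Pi.single u (B c x)) := fun c =>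
    (hA c u 1).of_eq fun x s => by simp only [one_smul, B]
  have hB2 : ∀ c, Comp L (fun x (s : St K m D) => s + Pi.single u (-(B c x))) := fun c =>
    (hA c u (-1)).of_eq fun x s => by simp only [neg_smul, one_smul, B]
  let Rd : K → (ι → α) → St K m D → St K m D := fun t x s =>
    scale1 r t⁻¹ ((fun s : St K m D => s + Pi.single r ((-1 : K) • enc ν code (v x)))
      (Comp.runs (Q1 ν code j r u σ B) W x
        ((fun s : St K m D => s + Pi.single r ((1 : K) • enc ν code (v x))) (scale1 r t s))))
  have hRc : ∀ t ∈ Cat.nz K, Comp (2 * (l + Fintype.card X * L)) (Rd t) := by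
    intro t _
    refine (((((Comp.const (scale1 r t)).comp (hv r 1)).comp
      (Comp.runs_comp _ (2 * L) W (fun c _ => Q1_comp j r u σ B c (hB1 c) (hB2 c)))).comp
        (hv r (-1))).comp (Comp.const (scale1 r t⁻¹))).mono ?_
    rw [hW]
    ring_nf
    omega
  let g : K → (ι → α) → St K m D → Fin D → K := fun t x s =>
    (W.map fun c => (-(σ * ind ν code c (t • s r + enc ν code (v x)))) • B c x).sum
  have hRe : ∀ t ∈ Cat.nz K, ∀ x s, Rd t x s = s + Pi.single j (g t x s) := by
    intro t ht x s
    have ht' := Cat.nz_ne ht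
    simp only [Rd, one_smul, neg_smul]
    rw [runs_shift j (Q1 ν code j r u σ B)
      (fun c x s => (-(σ * ind ν code c (s r))) • B c x) ?_ W
      (fun c _ x s => Q1_eq hjr hju hru σ B c x s)]
    · have h0 : (scale1 r t s + Pi.single r (enc ν code (v x)) : St K m D) r =
          t • s r + enc ν code (v x) := by
        simp only [Pi.add_apply, scale1, if_true, Pi.single_eq_same]
      simp only [h0]
      funext k
      simp only [scale1, Pi.add_apply]
      by_cases hk : k = r
      · subst hk
        simp only [if_true, Pi.single_eq_same, Pi.single_eq_of_ne hjr, add_zero]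
        rw [add_neg_cancel_right, smul_smul, inv_mul_cancel₀ ht', one_smul]
      · rw [if_neg hk, if_neg hk, Pi.single_eq_of_ne hk, Pi.single_eq_of_ne hk]
        simp only [add_zero]
        rfl
    · intro c x s v
      simp only [Pi.add_apply, Pi.single_eq_of_ne hjr, add_zero]
  have hg : ∀ t x s v, g t x (s + Pi.single j v) = g t x s := by
    intro t x s v
    simp only [g, Pi.add_apply, Pi.single_eq_of_ne hjr, add_zero]
  refine ((Comp.runs_comp Rd _ (Cat.nz K) hRc).mono ?_).of_eq fun x s => ?_
  · rw [Cat.nz_len]
    calc (Fintype.card K - 1) * (2 * (l + Fintype.card X * L)) ≤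
          Fintype.card K * (2 * (l + Fintype.card X * L)) :=
          Nat.mul_le_mul_right _ (Nat.sub_le _ _)
      _ = 2 * Fintype.card K * (l + Fintype.card X * L) := by ring
  rw [runs_shift j Rd g hg (Cat.nz K) hRe]
  congr 2
  rw [Cat.nz_sum]
  simp only [g, W, Finset.sum_map_toList]
  rw [Finset.sum_comm]
  have h1 : ∀ c : X, ∑ t ∈ Finset.univ.erase (0 : K),
      (-(σ * ind ν code c (t • s r + enc ν code (v x)))) • B c x =
        (if v x = c then σ else 0) • B c x := by
    intro c
    rw [← Finset.sum_smul]
    congr 1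
    unfold ind
    rw [Finset.sum_neg_distrib, ← Finset.mul_sum, GExt.sum_ext ν hν _ _ _ (by
      rw [Fintype.card_fin]; exact hd)]
    have h2 := GExt.ext_grid ν hν (fun e => if e = code c then (1 : K) else 0) (code (v x))
    have h3 : enc ν code (v x) = fun i => ν (code (v x) i) := rfl
    rw [h3, h2, mul_neg, neg_neg]
    by_cases h4 : v x = c
    · rw [h4]; simp
    · rw [if_neg (fun h => h4 (hcode h)), if_neg h4]; simp
  rw [Finset.sum_congr rfl fun c _ => h1 c, Finset.sum_eq_single (v x)]
  · rw [if_pos rfl]
  · intro c _ hne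
    rw [if_neg (fun h => hne h.symm), zero_smul]
  · intro h
    exact absurd (Finset.mem_univ _) h

end

end Reg

end Pool.Agent.MP_6216ea_lc
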