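import Pool.Agent.Lib.MP_6216ea_lc.RDLeaf

/-! Adaptive protocols applied to a value which is never stored openly, and all levels. -/

set_option autoImplicit false

namespace Pool.Agent.MP_6216ea_lc

namespace Reg

open Prot

variable {ι α X K : Type} [Field K] {h D m M : ℕ} {ν : Fin h → K} {code : X → Fin D → Fin h}

/-- The maps `B x` can be applied to a value which has programs. -/
def App (ν : Fin h → K) (code : X → Fin D → Fin h) (m κ a : ℕ) (B : (ι → α) → X → X) : Prop :=
  ∀ (l : ℕ) (v : (ι → α) → X), HasProg ν code m l v →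
    HasProg ν code m (κ * (l + a)) (fun x => B x (v x))

/-- The answers among the operands. -/
def yy (d : X) (z : Fin (M + 1) → X) (k : ℕ) : X := if hk : k < M + 1 then z ⟨k, hk⟩ else d

/-- The operands: the first `j` answers and the question. -/
def fam (d : X) (Y : ℕ → (ι → α) → X) (v : (ι → α) → X) (j : ℕ) (k : Fin (M + 1))
    (x : ι → α) : X := if k.val = M then v x else if k.val < j then Y k.val x else d

theorem fam_prog (d : X) (Y : ℕ → (ι → α) → X) (v : (ι → α) → X) (j n : ℕ)
    (hv : HasProg ν code m n v) (hY : ∀ k < j, HasProg ν code m n (Y k)) (k : Fin (M + 1)) :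
    HasProg ν code m n (fam d Y v j k) := by
  by_cases h1 : k.val = M
  · have : fam d Y v j k = v := by funext x; exact if_pos h1
    rw [this]; exact hv
  · by_cases h2 : k.val < j
    · have : fam d Y v j k = Y k.val := by
        funext x; unfold fam; rw [if_neg h1, if_pos h2]
      rw [this]; exact hY _ h2
    · have : fam d Y v j k = fun _ => d := by
        funext x; unfold fam; rw [if_neg h1, if_neg h2]
      rw [this]; exact (HasProg.const d).mono (Nat.zero_le _)

theorem yy_fam (d : X) (Y : ℕ → (ι → α) → X) (v : (ι → α) → X) (j k : ℕ) (hj : j ≤ M)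
    (hk : k < j) (x : ι → α) : yy d (fun i : Fin (M + 1) => fam d Y v j i x) k = Y k x := by
  unfold yy fam
  rw [dif_pos (by omega)]
  simp only
  rw [if_neg (by omega), if_pos hk]

theorem fam_last (d : X) (Y : ℕ → (ι → α) → X) (v : (ι → α) → X) (j : ℕ) (x : ι → α) :
    fam d Y v j (Fin.last M) x = v x := if_pos rfl

section

variable [Fintype K] [DecidableEq K]

/-- One level. -/
theorem App.step [Nonempty X] (hν : Function.Injective ν) (hcode : Function.Injective code)
    (hd : (M + 1) * D * (h - 1) < Fintype.card K - 1) {κ a R : ℕ}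
    (hR : R = 2 * (M + 1) * Fintype.card K + 1) (hκ : 1 ≤ κ)
    {B : (ι → α) → X → X} (hB : App ν code (M + 1) κ a B) (d : X) (P : X → Prot X)
    (hP : ∀ q, Hgt M (P q)) :
    App ν code (M + 1) (R ^ (M + 1) * κ ^ M) a (fun x q => eval (B x) (P q)) := by
  intro l v hv
  let Y : ℕ → (ι → α) → X := fun k x => Cat.ans (B x) d (P (v x)) k
  have hR1 : 1 ≤ R := by omega
  have hκR : 1 ≤ κ * R := Nat.mul_pos hκ hR1
  have hmono : ∀ j, l + a ≤ (κ * R) ^ j * (l + a) := fun j =>
    Nat.le_mul_of_pos_left _ (Nat.pow_pos hκR)
  have key : ∀ j ≤ M, ∀ i < j, HasProg ν code (M + 1) ((κ * R) ^ j * (l + a)) (Y i) := by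
    intro j
    induction j with
    | zero => intro _ i hi; omega
    | succ j ih =>
      intro hj i hi
      by_cases hij : i < j
      · refine (ih (by omega) i hij).mono (Nat.mul_le_mul_right _ ?_)
        exact Nat.pow_le_pow_right hκR (by omega)
      · have : i = j := by omega
        subst this
        have h1 := HasProg.op hν hcode hd
          (fam_prog (M := M) d Y v i ((κ * R) ^ i * (l + a)) (hv.mono (by
            have := hmono i
            omega)) (ih (by omega)))
          (fun z => ask d (walk (P (z (Fin.last M))) (yy d z) i))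
        have h2 := hB _ _ h1
        have e : (fun x => B x (ask d (walk (P (fam d Y v i (Fin.last M) x))
            (yy d fun k : Fin (M + 1) => fam d Y v i k x) i))) = Y i := by
          funext x
          rw [fam_last, walk_congr (P (v x)) _ (Cat.ans (B x) d (P (v x))) i
            (fun k hk => yy_fam d Y v i k (by omega) hk x)]
          exact (Cat.ans_eq (B x) d (P (v x)) i).symm
        have h3 : HasProg ν code (M + 1)
            (κ * (2 * (M + 1) * Fintype.card K * ((κ * R) ^ i * (l + a)) + a)) (Y i) := e ▸ h2
        refine h3.mono ?_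
        calc κ * (2 * (M + 1) * Fintype.card K * ((κ * R) ^ i * (l + a)) + a)
            ≤ κ * (2 * (M + 1) * Fintype.card K * ((κ * R) ^ i * (l + a)) +
              (κ * R) ^ i * (l + a)) := by
              have := hmono i
              exact Nat.mul_le_mul_left _ (by omega)
          _ = (κ * R) ^ (i + 1) * (l + a) := by
              rw [pow_succ]
              nth_rewrite 4 [hR]
              ring
  have h1 := HasProg.op hν hcode hd
    (fam_prog (M := M) d Y v M ((κ * R) ^ M * (l + a)) (hv.mono (by
      have := hmono M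
      omega)) (key M le_rfl))
    (fun z => res d (walk (P (z (Fin.last M))) (yy d z) M))
  have e : (fun x => res d (walk (P (fam d Y v M (Fin.last M) x))
      (yy d fun k : Fin (M + 1) => fam d Y v M k x) M)) = fun x => eval (B x) (P (v x)) := by
    funext x
    rw [fam_last, walk_congr (P (v x)) _ (Cat.ans (B x) d (P (v x))) M
      (fun k hk => yy_fam d Y v M k le_rfl hk x)]
    exact res_walk (B x) d (hP (v x)) _ (fun k _ => Cat.ans_eq (B x) d (P (v x)) k)
  have h2 : HasProg ν code (M + 1)
      (2 * (M + 1) * Fintype.card K * ((κ * R) ^ M * (l + a)))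
      (fun x => eval (B x) (P (v x))) := e ▸ h1
  refine h2.mono ?_
  calc 2 * (M + 1) * Fintype.card K * ((κ * R) ^ M * (l + a))
      ≤ R * ((κ * R) ^ M * (l + a)) := Nat.mul_le_mul_right _ (by omega)
    _ = R ^ (M + 1) * κ ^ M * (l + a) := by ring

/-- The cost of `b` levels. -/
def kap (R M : ℕ) : ℕ → ℕ
  | 0 => R
  | b + 1 => R ^ (M + 1) * kap R M b ^ M

theorem kap_pos {R : ℕ} (hR : 1 ≤ R) (M b : ℕ) : 1 ≤ kap R M b := by
  induction b with
  | zero => exact hR
  | succ b ih => exact Nat.mul_pos (Nat.pow_pos hR) (Nat.pow_pos ih)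

theorem App.iter [Nonempty X] (hν : Function.Injective ν) (hcode : Function.Injective code)
    (hd : (M + 1) * D * (h - 1) < Fintype.card K - 1) {a R : ℕ}
    (hR : R = 2 * (M + 1) * Fintype.card K + 1) (d : X) (A : (ι → α) → ℕ → X → X)
    (P : ℕ → X → Prot X) (hP : ∀ i q, Hgt M (P i q))
    (hA : ∀ x i q, A x (i + 1) q = eval (A x i) (P i q)) (i : ℕ)
    (h0 : App ν code (M + 1) R a (fun x => A x i)) (b : ℕ) :
    App ν code (M + 1) (kap R M b) a (fun x => A x (i + b)) := by
  induction b with
  | zero => exact h0
  | succ b ih =>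
    have h1 := App.step hν hcode hd hR (kap_pos (by omega) M b) ih d (P (i + b)) (hP (i + b))
    have e : (fun (x : ι → α) q => eval (A x (i + b)) (P (i + b) q)) =
        fun x => A x (i + (b + 1)) := by
      funext x q
      exact (hA x (i + b) q).symm
    rw [e] at h1
    exact h1

/-- The programs of all levels. -/
theorem levels [Fintype X] (hM : 1 ≤ M) (hν : Function.Injective ν)
    (hcode : Function.Injective code)
    (hd : (M + 1) * D * (h - 1) < Fintype.card K - 1) {R : ℕ}
    (hR : R = 2 * (M + 1) * Fintype.card K + 1) (d : X) (A : (ι → α) → ℕ → X → X)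
    (pos : X → Option ι) (bs : X → Option α → X) (h0 : ∀ x q, A x 0 q = bs q ((pos q).map x))
    (P : ℕ → X → Prot X) (hP : ∀ i q, Hgt M (P i q))
    (hA : ∀ x i q, A x (i + 1) q = eval (A x i) (P i q)) (b g : ℕ) (c : X) :
    HasProg ν code (M + 1) ((kap R M b * Fintype.card X) ^ g) (fun x => A x (b * g) c) := by
  have : Nonempty X := ⟨d⟩
  induction g generalizing c with
  | zero =>
    intro j σ
    rw [pow_zero, Nat.mul_zero]
    cases hp : pos c with
    | none =>
      exact ((Comp.const (fun s : St K (M + 1) D =>
        s + Pi.single j (σ • enc ν code (bs c none)))).mono (by omega)).of_eq fun x s => by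
          simp only [h0, hp]; rfl
    | some i =>
      exact (Comp.read i (fun y (s : St K (M + 1) D) =>
        s + Pi.single j (σ • enc ν code (bs c (some y))))).of_eq fun x s => by
          simp only [h0, hp]; rfl
  | succ g ih =>
    have h1 : App ν code (M + 1) R (Fintype.card X * (kap R M b * Fintype.card X) ^ g)
        (fun x => A x (b * g)) := by
      intro l v hv
      refine (HasProg.app (by omega) hν hcode ?_ ih hv).mono ?_
      · refine lt_of_le_of_lt (Nat.mul_le_mul_right _ ?_) hd
        exact Nat.le_mul_of_pos_left _ (by omega)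
      · refine Nat.mul_le_mul_right _ ?_
        rw [hR]
        have : 2 * Fintype.card K ≤ 2 * (M + 1) * Fintype.card K :=
          Nat.mul_le_mul_right _ (by omega)
        omega
    have h2 := App.iter hν hcode hd hR d A P hP hA (b * g) h1 b
    have h3 := h2 0 (fun _ => c) (HasProg.const c)
    have e : b * (g + 1) = b * g + b := by ring
    rw [e]
    refine h3.mono (le_of_eq ?_)
    rw [pow_succ]
    ring

end

end Reg

end Pool.Agent.MP_6216ea_lc
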