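import Pool.Agent.Lib.MP_6216ea_lc.DDStep
import Pool.Agent.Lib.MP_6216ea_lc.RDExt

/-! Programs which add a value to a register: functions of several values, and a family of maps
applied to a value. -/

set_option autoImplicit false

namespace Pool.Agent.MP_6216ea_lc

namespace Reg

variable {ι α X K : Type} [Field K] {h D m : ℕ}

/-- The registers. -/
abbrev St (K : Type) (m D : ℕ) : Type := Fin (m + 1) → Fin D → K

/-- The code of a value. -/
def enc (ν : Fin h → K) (code : X → Fin D → Fin h) (a : X) : Fin D → K := fun i => ν (code a i)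

/-- There are programs of length `l` which add a multiple of the code of `v x` to a register. -/
def HasProg (ν : Fin h → K) (code : X → Fin D → Fin h) (m l : ℕ) (v : (ι → α) → X) : Prop :=
  ∀ (j : Fin (m + 1)) (σ : K),
    Comp l (fun x (s : St K m D) => s + Pi.single j (σ • enc ν code (v x)))

variable {ν : Fin h → K} {code : X → Fin D → Fin h}

theorem HasProg.mono {l l' : ℕ} {v : (ι → α) → X} (hl : l ≤ l') (hv : HasProg ν code m l v) :
    HasProg ν code m l' v := fun j σ => (hv j σ).mono hl

theorem HasProg.const (c : X) : HasProg ν code m 0 (fun _ : ι → α => c) :=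
  fun j σ => Comp.const fun (s : St K m D) => s + Pi.single j (σ • enc ν code c)

theorem runs_shift {B : Type} (j : Fin (m + 1)) (F : B → (ι → α) → St K m D → St K m D)
    (g : B → (ι → α) → St K m D → Fin D → K)
    (hg : ∀ a x s v, g a x (s + Pi.single j v) = g a x s) (l : List B)
    (hF : ∀ a ∈ l, ∀ x s, F a x s = s + Pi.single j (g a x s)) (x : ι → α) (s : St K m D) :
    Comp.runs F l x s = s + Pi.single j ((l.map fun a => g a x s).sum) := by
  induction l generalizing s with
  | nil => simp [Comp.runs]
  | cons a l ih =>
    change Comp.runs F l x (F a x s) = _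
    rw [hF a (by simp), ih fun b hb => hF b (by simp [hb])]
    simp only [hg, List.map_cons, List.sum_cons]
    rw [add_assoc, ← Pi.single_add]

/-- Scale all registers but the target. -/
def scale (j : Fin (m + 1)) (t : K) (s : St K m D) : St K m D :=
  fun k => if k = j then s k else t • s k

/-- The operands as one vector. -/
def opd (j : Fin (m + 1)) (s : St K m D) : Fin m × Fin D → K :=
  fun i => s (j.succAbove i.1) i.2

/-- The shift of the operand registers. -/
def shf (ν : Fin h → K) (code : X → Fin D → Fin h) (j : Fin (m + 1)) (V : Fin m → X) :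
    St K m D := ∑ k : Fin m, Pi.single (j.succAbove k) (enc ν code (V k))

theorem shf_self (j : Fin (m + 1)) (V : Fin m → X) : shf ν code j V j = 0 := by
  unfold shf
  rw [Finset.sum_apply]
  apply Finset.sum_eq_zero
  intro k _
  rw [Pi.single_eq_of_ne (Fin.ne_succAbove j k)]

theorem shf_succ (j : Fin (m + 1)) (V : Fin m → X) (k : Fin m) :
    shf ν code j V (j.succAbove k) = enc ν code (V k) := by
  unfold shf
  rw [Finset.sum_apply, Finset.sum_eq_single k]
  · rw [Pi.single_eq_same]
  · intro k' _ hk'
    rw [Pi.single_eq_of_ne]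
    intro h
    exact hk' (Fin.succAbove_right_injective h).symm
  · intro h
    exact absurd (Finset.mem_univ _) h

theorem opd_single (j : Fin (m + 1)) (s : St K m D) (v : Fin D → K) :
    opd j (s + Pi.single j v) = opd j s := by
  funext i
  simp only [opd, Pi.add_apply]
  rw [Pi.single_eq_of_ne (Fin.succAbove_ne j i.1)]
  simp

theorem opd_shf (j : Fin (m + 1)) (t : K) (s : St K m D) (V : Fin m → X) :
    opd j (scale j t s + shf ν code j V) =
      t • opd j s + fun i => ν (code (V i.1) i.2) := by
  funext i
  simp only [opd, Pi.add_apply, shf_succ, scale, Pi.smul_apply, smul_eq_mul]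
  rw [if_neg (Fin.succAbove_ne j i.1)]
  rfl

theorem shift_comp {v : Fin m → (ι → α) → X} {l : ℕ} (hv : ∀ k, HasProg ν code m l (v k))
    (j : Fin (m + 1)) (σ : K) :
    Comp (m * l) (fun x (s : St K m D) => s + σ • shf ν code j (fun k => v k x)) := by
  classical
  have h1 := Comp.runs_comp (ι := ι) (α := α) (fun (k : Fin m) x (s : St K m D) =>
    s + Pi.single (j.succAbove k) (σ • enc ν code (v k x))) l (List.finRange m)
      (fun k _ => hv k _ σ)
  rw [List.length_finRange] at h1
  refine h1.of_eq fun x s => ?_
  have h2 : ∀ (L : List (Fin m)) (s : St K m D), Comp.runs (fun (k : Fin m) x (s : St K m D) =>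
      s + Pi.single (j.succAbove k) (σ • enc ν code (v k x))) L x s = s + (L.map fun k =>
        (Pi.single (j.succAbove k) (σ • enc ν code (v k x)) : St K m D)).sum := by
    intro L
    induction L with
    | nil => intro s; simp [Comp.runs]
    | cons k L ih =>
      intro s
      change Comp.runs _ L x (s + _) = _
      rw [ih, List.map_cons, List.sum_cons, add_assoc]
  rw [h2]
  congr 1
  unfold shf
  rw [Finset.smul_sum, ← List.sum_ofFn, List.ofFn_eq_map]
  congr 1
  apply List.map_congr_left
  intro k _
  rw [Pi.single_smul]

section op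

variable [Fintype K] [DecidableEq K]

/-- A function of several values. -/
theorem HasProg.op [Nonempty X] (hν : Function.Injective ν) (hcode : Function.Injective code)
    (hd : m * D * (h - 1) < Fintype.card K - 1) {v : Fin m → (ι → α) → X} {l : ℕ}
    (hv : ∀ k, HasProg ν code m l (v k)) (f : (Fin m → X) → X) :
    HasProg ν code m (2 * m * Fintype.card K * l) (fun x => f fun k => v k x) := by
  classical
  intro j σ
  let dec : (Fin D → Fin h) → X := Function.invFun code
  have hdec : ∀ a, dec (code a) = a := Function.leftInverse_invFun hcode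
  let F : (Fin m × Fin D → K) → Fin D → K := fun r i =>
    GExt.ext ν (fun e => ν (code (f fun k => dec fun i => e (k, i)) i)) r
  let V : (ι → α) → Fin m → X := fun x k => v k x
  let Rd : K → (ι → α) → St K m D → St K m D := fun t x s =>
    scale j t⁻¹ ((fun s => s + (-1 : K) • shf ν code j (V x))
      ((fun s => s + Pi.single j (-(σ • F (opd j s))))
        ((fun s => s + (1 : K) • shf ν code j (V x)) (scale j t s))))
  have hRc : ∀ t ∈ Cat.nz K, Comp (2 * m * l) (Rd t) := by
    intro t _
    exact (((((Comp.const (scale j t)).comp (shift_comp hv j 1)).comp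
      (Comp.const (fun s : St K m D => s + Pi.single j (-(σ • F (opd j s)))))).comp
        (shift_comp hv j (-1))).comp (Comp.const (scale j t⁻¹))).mono (by
          rw [mul_assoc 2 m l]; omega)
  let g : K → (ι → α) → St K m D → Fin D → K := fun t x s =>
    -(σ • F (t • opd j s + fun i => ν (code (V x i.1) i.2)))
  have hRe : ∀ t ∈ Cat.nz K, ∀ x s, Rd t x s = s + Pi.single j (g t x s) := by
    intro t ht x s
    have ht' := Cat.nz_ne ht
    simp only [Rd, g, one_smul, neg_smul]
    rw [opd_shf]
    funext k
    simp only [scale, Pi.add_apply, Pi.neg_apply]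
    by_cases hk : k = j
    · subst hk
      simp only [if_true, Pi.single_eq_same, shf_self]
      simp
    · obtain ⟨k', rfl⟩ := Fin.exists_succAbove_eq hk
      rw [if_neg hk, if_neg hk, Pi.single_eq_of_ne hk]
      simp only [add_zero, add_neg_cancel_right]
      rw [smul_smul, inv_mul_cancel₀ ht', one_smul]
  have hg : ∀ t x s v, g t x (s + Pi.single j v) = g t x s := by
    intro t x s v
    simp only [g, opd_single]
  refine ((Comp.runs_comp Rd _ (Cat.nz K) hRc).mono ?_).of_eq fun x s => ?_
  · rw [Cat.nz_len]
    calc (Fintype.card K - 1) * (2 * m * l) ≤ Fintype.card K * (2 * m * l) :=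
          Nat.mul_le_mul_right _ (Nat.sub_le _ _)
      _ = 2 * m * Fintype.card K * l := by ring
  rw [runs_shift j Rd g hg (Cat.nz K) hRe]
  congr 2
  rw [Cat.nz_sum]
  funext i
  rw [Finset.sum_apply]
  simp only [g, Pi.neg_apply, Pi.smul_apply, smul_eq_mul, F]
  rw [Finset.sum_neg_distrib, ← Finset.mul_sum, GExt.sum_ext ν hν _ _ _ (by
    rw [Fintype.card_prod, Fintype.card_fin, Fintype.card_fin]; exact hd)]
  have h1 := GExt.ext_grid ν hν (I := Fin m × Fin D)
    (fun e => ν (code (f fun k => dec fun i => e (k, i)) i)) (fun i => code (V x i.1) i.2)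
  rw [h1]
  simp only [hdec, V, enc]
  ring

end op

end Reg

end Pool.Agent.MP_6216ea_lc
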