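import Pool.Agent.Lib.MP_6216ea_lc.RDLev
import Pool.Agent.Lib.MP_6216ea_lc.DCBase

/-! Iterated adaptive composition and pushdown programs: explicit bounds with few registers. -/

set_option autoImplicit false

namespace Pool.Agent.MP_6216ea_lc

namespace Reg

open Prot

/-- Iterated adaptive composition. -/
theorem thm_rd {ι α X : Type} [Fintype X] (d : X) (D h M p : ℕ) (hM : 1 ≤ M) (hp : p.Prime)
    (hpc : (M + 1) * D * (h - 1) < p - 1) (hh : h ≤ p) (code : X → Fin D → Fin h)
    (hcode : Function.Injective code) (pos : X → Option ι) (bs : X → Option α → X)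
    (A : (ι → α) → ℕ → X → X) (h0 : ∀ x q, A x 0 q = bs q ((pos q).map x))
    (P : ℕ → X → Prot X) (hP : ∀ i q, Prot.Hgt M (P i q))
    (hA : ∀ x i q, A x (i + 1) q = Prot.eval (A x i) (P i q)) (acc : X → Prop) (q₀ : X)
    (b g : ℕ) :
    ∃ B : LetterDBP ι α, Fintype.card B.V ≤
        ((kap (2 * (M + 1) * p + 1) M b * Fintype.card X) ^ g + 1) * p ^ (D * (M + 2)) ∧
      B.Decides fun x => acc (A x (b * g) q₀) := by
  classical
  have : Fact p.Prime := ⟨hp⟩
  have hcard : Fintype.card (ZMod p) = p := ZMod.card p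
  let ν : Fin h → ZMod p := fun k => (k.val : ZMod p)
  have hν : Function.Injective ν := by
    intro k k' hk
    have h1 := congrArg ZMod.val hk
    simp only [ν] at h1
    rw [ZMod.val_natCast_of_lt (lt_of_lt_of_le k.2 hh),
      ZMod.val_natCast_of_lt (lt_of_lt_of_le k'.2 hh)] at h1
    exact Fin.ext h1
  have h1 := levels (K := ZMod p) hM hν hcode (by rw [hcard]; exact hpc)
    (R := 2 * (M + 1) * p + 1) (by rw [hcard]) d A pos bs h0 P hP hA b g q₀ 0 1
  obtain ⟨B, hB, hdec⟩ := h1.exists_dbp (0 : St (ZMod p) (M + 1) D) (fun s => ∃ a, acc a ∧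
    s 0 = enc ν code a)
  refine ⟨B, hB.trans (le_of_eq ?_), ?_⟩
  · have hS : Fintype.card (St (ZMod p) (M + 1) D) = p ^ (D * (M + 2)) := by
      simp only [Fintype.card_fun, Fintype.card_fin, hcard]
      rw [← pow_mul]
    rw [hS]
  · have e : (fun x => acc (A x (b * g) q₀)) = fun x => ∃ a, acc a ∧
        ((0 : St (ZMod p) (M + 1) D) +
          (Pi.single 0 ((1 : ZMod p) • enc ν code (A x (b * g) q₀)) :
            St (ZMod p) (M + 1) D)) 0 = enc ν code a := by
      funext x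
      apply propext
      rw [zero_add, one_smul, Pi.single_eq_same]
      constructor
      · intro h
        exact ⟨_, h, rfl⟩
      · rintro ⟨a, ha, h⟩
        have h2 : A x (b * g) q₀ = a := by
          apply hcode
          funext i
          exact hν (congrFun h i)
        rw [h2]; exact ha
    rw [e]
    exact hdec

theorem kap_le {R : ℕ} (hR : 1 ≤ R) (b : ℕ) : kap R 6 b * R ^ 2 ≤ R ^ (3 * 6 ^ b) := by
  induction b with
  | zero =>
    change R * R ^ 2 ≤ _
    rw [pow_zero, mul_one]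
    exact le_of_eq (by ring)
  | succ b ih =>
    calc kap R 6 (b + 1) * R ^ 2 = kap R 6 b ^ 6 * R ^ 9 := by rw [kap]; ring
      _ ≤ kap R 6 b ^ 6 * R ^ 12 := Nat.mul_le_mul_left _ (Nat.pow_le_pow_right hR (by norm_num))
      _ = (kap R 6 b * R ^ 2) ^ 6 := by ring
      _ ≤ (R ^ (3 * 6 ^ b)) ^ 6 := Nat.pow_le_pow_left ih 6
      _ = R ^ (3 * 6 ^ (b + 1)) := by rw [← pow_mul, pow_succ]; congr 1; ring

theorem kap_le' {R : ℕ} (hR : 1 ≤ R) (b : ℕ) : kap R 6 b ≤ R ^ (3 * 6 ^ b) :=
  (Nat.le_mul_of_pos_right _ (Nat.pow_pos hR)).trans (kap_le hR b)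

open QA in
/-- Pushdown programs. -/
theorem push_explicit_rd {ι α : Type} (P : PushProg ι α) (b g h D t p N : ℕ) (hp : p.Prime)
    (hpc : 7 * D * (h - 1) < p - 1) (hh : h ≤ p) (hb : t ≤ 2 ^ (b * g))
    (hD : 2 * (Fintype.card P.S * (2 ^ (b * g) + 1)) ^ 2 ≤ h ^ D)
    (hN : 2 * (Fintype.card P.S * (2 ^ (b * g) + 1)) ^ 2 ≤ N) :
    ∃ B : LetterDBP ι α, Fintype.card B.V ≤
        (((14 * p + 1) ^ (3 * 6 ^ b) * N) ^ g + 1) * p ^ (D * 8) ∧
      B.Decides fun x => P.AcceptsIn x t := by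
  classical
  obtain ⟨T, hT⟩ : ∃ T, T = 2 ^ (b * g) := ⟨_, rfl⟩
  rw [← hT] at hb hD hN
  have hcard : Fintype.card (QA P.S T) ≤ Fintype.card (Fin D → Fin h) := by
    rw [QA.card]
    simpa using hD
  obtain ⟨code⟩ := Function.Embedding.nonempty_of_card_le hcard
  have h1 := thm_rd (ι := ι) (α := α) (X := QA P.S T)
    (QA.ask P.start 0 P.start 0) D h 6 p (by norm_num) hp hpc hh code code.injective
    P.absorb.qpos P.absorb.qbas (fun x i => P.absorb.lev T x i)
    (fun x q => rfl) (fun i q => split (2 ^ i) q) (fun i q => hgt_split _ _)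
    (fun x i q => rfl)
    P.absorb.QAcc (QA.ask P.start 0 P.start t) b g
  obtain ⟨B, hB, hacc⟩ := h1
  refine ⟨B, hB.trans ?_, ?_⟩
  · have h2 : Fintype.card (QA P.S T) ≤ N := by rw [QA.card]; exact hN
    have h3 : 2 * (6 + 1) * p + 1 = 14 * p + 1 := by ring
    have h4 := kap_le' (R := 14 * p + 1) (by omega) b
    rw [h3]
    gcongr
  · have e : (fun x => P.AcceptsIn x t) = fun x => P.absorb.QAcc
        (P.absorb.lev T x (b * g) (QA.ask P.start 0 P.start t)) := by
      funext x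
      exact propext (P.accepts_lev x (b * g) t (by rw [hT]) (by rw [← hT]; exact hb))
    rw [e]
    exact hacc

end Reg

end Pool.Agent.MP_6216ea_lc
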