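import Mathlib
import Pool.Agent.Lib.MP_6216ea_lc.RKDefs

set_option autoImplicit false

namespace Pool.Agent.MP_6216ea_lc

variable {ι : Type}

/-- Some walk from `u` to `v` tests the variable `i`. -/
def NBP.Readable (P : NBP ι) (i : ι) (u v : P.V) : Prop :=
  ∃ r, P.Walk i u v (r + 1)

/-- Description of the cut edges of a walk: colour of the segment before the cut edge, tail,
label and head of the cut edge. -/
abbrev NBP.Item (P : NBP ι) : Type := Bool × P.V × Option (ι × Bool) × P.V

/-- `P.Comp x bad c d u`: there is an `x`-open walk from `u` to the target through the cut edges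
listed in `d`, and between consecutive cut edges no variable that is bad for the colour of the
segment can be tested (`c` is the colour of the last segment). -/
def NBP.Comp (P : NBP ι) (x : ι → Bool) (bad : Bool → ι → Prop) (c : Bool) :
    List P.Item → P.V → Prop
  | [], u => P.Reach x u P.target ∧ ∀ i, bad c i → ¬ P.Readable i u P.target
  | (c', p, l, q) :: d, u => P.Reach x u p ∧ (∀ i, bad c' i → ¬ P.Readable i u p) ∧
      P.edge p l q ∧ Opens x l ∧ NBP.Comp P x bad c d q

/-- The times `T` of the variables in `X` and in `Y` are separated by the cut set `C`. -/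
def Sep {k : ℕ} (T : ι → Fin k → ℕ) (X Y : ι → Prop) (C : Finset ℕ) : Prop :=
  ∀ i j, X i → Y j → ∀ a b, T i a ∉ C → T j b ∉ C →
    ∃ c ∈ C, (T i a < c ∧ c < T j b) ∨ (T j b < c ∧ c < T i a)

/-- any edge extends a walk -/
theorem NBP.Walk.edge_ext {P : NBP ι} {i : ι} {u v w : P.V} {l : Option (ι × Bool)} {r : ℕ}
    (h : P.Walk i u v r) (he : P.edge v l w) : ∃ r', r ≤ r' ∧ P.Walk i u w r' := by
  by_cases hl : ∃ b, l = some (i, b)
  · obtain ⟨b, rfl⟩ := hl
    exact ⟨r + 1, Nat.le_succ r, .read h he⟩
  · exact ⟨r, le_rfl, .skip h he fun b hb => hl ⟨b, hb⟩⟩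

theorem NBP.Walk.trans {P : NBP ι} {i : ι} {u v w : P.V} {r s : ℕ}
    (h : P.Walk i u v r) (h' : P.Walk i v w s) : P.Walk i u w (r + s) := by
  induction h' with
  | nil => exact h
  | skip _ he hl ih => exact .skip ih he hl
  | read _ he ih => exact .read ih he

theorem NBP.exists_walk_of_reach {P : NBP ι} {x : ι → Bool} {u v : P.V} (h : P.Reach x u v)
    (i : ι) : ∃ r, P.Walk i u v r := by
  induction h with
  | refl => exact ⟨0, .nil _⟩
  | tail _ hbc ih =>
    obtain ⟨r, hr⟩ := ih
    obtain ⟨l, hl, _⟩ := hbc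
    obtain ⟨r', _, hr'⟩ := hr.edge_ext hl
    exact ⟨r', hr'⟩

/-- A walk can be changed inside its segments if the inputs differ only in variables that cannot be
tested there. -/
theorem reach_congr (P : NBP ι) {x y : ι → Bool} {u v : P.V} (h : P.Reach x u v)
    (hxy : ∀ i, y i ≠ x i → ¬ P.Readable i u v) : P.Reach y u v := by
  -- generalise: the endpoint `v` stays the reference
  have key : ∀ w, P.Reach x u w → P.Reach x w v → P.Reach y u w := by
    intro w hw
    induction hw with
    | refl => intro _; exact .refl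
    | @tail b c hb hbc ih =>
      intro hcv
      have hbv : P.Reach x b v := Relation.ReflTransGen.head hbc hcv
      refine Relation.ReflTransGen.tail (ih hbv) ?_
      obtain ⟨l, hl, ho⟩ := hbc
      refine ⟨l, hl, ?_⟩
      rintro i b' rfl
      by_contra hne
      have h1 : y i ≠ x i := by
        intro he
        exact hne (he.trans (ho i b' rfl))
      apply hxy i h1
      obtain ⟨r, hr⟩ := NBP.exists_walk_of_reach hb i
      obtain ⟨s, hs⟩ := NBP.exists_walk_of_reach hcv i
      refine ⟨r + s, ?_⟩
      have := (NBP.Walk.read hr hl).trans hs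
      rw [show r + s + 1 = r + 1 + s by ring]
      exact this
  exact key v h .refl

/-- Splicing of two accepted inputs with the same cut edges. -/
theorem comp_mix (P : NBP ι) {x x' y : ι → Bool} {bad bad' : Bool → ι → Prop} {c : Bool}
    {d : List P.Item} {u : P.V} (h : P.Comp x bad c d u) (h' : P.Comp x' bad' c d u)
    (h0 : ∀ i, y i = x i ∨ y i = x' i)
    (h1 : ∀ i, y i ≠ x i → bad true i ∨ bad' true i)
    (h2 : ∀ i, y i ≠ x' i → bad false i ∨ bad' false i) : P.Reach y u P.target := by
  have seg : ∀ (c' : Bool) (p q : P.V), P.Reach x p q → P.Reach x' p q →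
      (∀ i, bad c' i → ¬ P.Readable i p q) → (∀ i, bad' c' i → ¬ P.Readable i p q) →
      P.Reach y p q := by
    intro c' p q hx hx' hb hb'
    cases c'
    · exact reach_congr P hx' fun i hi => (h2 i hi).elim (hb i) (hb' i)
    · exact reach_congr P hx fun i hi => (h1 i hi).elim (hb i) (hb' i)
  induction d generalizing u with
  | nil => exact seg c u P.target h.1 h'.1 h.2 h'.2
  | cons it d ih =>
    obtain ⟨c', p, l, q⟩ := it
    obtain ⟨a1, a2, a3, a4, a5⟩ := h
    obtain ⟨b1, b2, b3, b4, b5⟩ := h'
    refine (seg c' u p a1 b1 a2 b2).trans (Relation.ReflTransGen.head ⟨l, a3, ?_⟩ (ih a5 b5))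
    intro i b hl
    rcases h0 i with h | h
    · rw [h]; exact a4 i b hl
    · rw [h]; exact b4 i b hl

end Pool.Agent.MP_6216ea_lc
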