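import Mathlib
import Pool.Agent.Lib.MP_6216ea_lc.RKCut

set_option autoImplicit false

namespace Pool.Agent.MP_6216ea_lc

variable {ι : Type}

/-- An accepting walk as a sequence. -/
theorem exists_path (P : NBP ι) {x : ι → Bool} {u v : P.V} (h : P.Reach x u v) :
    ∃ (L : ℕ) (f : ℕ → P.V) (g : ℕ → Option (ι × Bool)), f 0 = u ∧ f L = v ∧
      ∀ i < L, P.edge (f i) (g i) (f (i + 1)) ∧ Opens x (g i) := by
  induction h with
  | refl => exact ⟨0, fun _ => u, fun _ => none, rfl, rfl, by simp⟩
  | @tail b c hb hbc ih =>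
    obtain ⟨L, f, g, h0, hL, h⟩ := ih
    obtain ⟨l, hl, ho⟩ := hbc
    refine ⟨L + 1, fun i => if i ≤ L then f i else c, fun i => if i < L then g i else l, ?_, ?_, ?_⟩
    · simp [h0]
    · simp
    · intro i hi
      by_cases hiL : i < L
      · have := h i hiL
        simp only [hiL.le, if_true, hiL, Nat.succ_le_of_lt hiL]
        exact this
      · have : i = L := by omega
        subst this
        simp only [le_refl, if_true, lt_irrefl, if_false, Nat.not_succ_le_self]
        rw [hL]
        exact ⟨hl, ho⟩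

theorem reach_sub {P : NBP ι} {x : ι → Bool} {L : ℕ} {f : ℕ → P.V}
    {g : ℕ → Option (ι × Bool)} (h : ∀ i < L, P.edge (f i) (g i) (f (i + 1)) ∧ Opens x (g i))
    {i j : ℕ} (hij : i ≤ j) (hj : j ≤ L) : P.Reach x (f i) (f j) := by
  induction j, hij using Nat.le_induction with
  | base => exact .refl
  | succ j hij ih =>
    exact Relation.ReflTransGen.tail (ih (by omega)) ⟨g j, h j (by omega)⟩

/-- The times of the tests. -/
theorem exists_times (P : NBP ι) {k : ℕ} (hk : P.ReadAtMost k) {x : ι → Bool} {L : ℕ}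
    {f : ℕ → P.V} {g : ℕ → Option (ι × Bool)} (h0 : f 0 = P.source) (hL : f L = P.target)
    (h : ∀ i < L, P.edge (f i) (g i) (f (i + 1)) ∧ Opens x (g i)) :
    ∃ T : ι → Fin k → ℕ, ∀ z i j, i ≤ j → j ≤ L → P.Readable z (f i) (f j) →
      ∃ a, i < T z a ∧ T z a ≤ j := by
  classical
  let R : ι → ℕ → ℕ → Prop := fun z c t => t ≤ L ∧ ∃ r, c ≤ r ∧ P.Walk z P.source (f t) r
  refine ⟨fun z a => if hz : ∃ t, R z (a + 1) t then Nat.find hz else 0, ?_⟩
  intro z i j hij hj hr
  -- the maximal number of tests on walks to `f i`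
  have hbound : ∀ c t, R z c t → c ≤ k := by
    rintro c t ⟨ht, r, hcr, hw⟩
    obtain ⟨s, hs⟩ := NBP.exists_walk_of_reach (reach_sub h ht le_rfl) z
    have := hk z _ (hL ▸ hw.trans hs)
    omega
  have hR0 : R z 0 i := by
    refine ⟨hij.trans hj, ?_⟩
    obtain ⟨s, hs⟩ := NBP.exists_walk_of_reach (reach_sub h (Nat.zero_le i) (hij.trans hj)) z
    exact ⟨s, Nat.zero_le s, h0 ▸ hs⟩
  obtain ⟨c, hc, hcmax⟩ : ∃ c, R z c i ∧ ∀ c', R z c' i → c' ≤ c := by
    have hfin : ∃ c, R z c i := ⟨0, hR0⟩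
    have hc := Nat.findGreatest_spec (P := fun c => R z c i) (n := k) (hbound 0 i hR0) hR0
    refine ⟨Nat.findGreatest (fun c => R z c i) k, hc, ?_⟩
    intro c' hc'
    exact Nat.le_findGreatest (hbound c' i hc') hc'
  have hcj : R z (c + 1) j := by
    obtain ⟨_, r, hcr, hw⟩ := hc
    obtain ⟨s, hs⟩ := hr
    exact ⟨hj, r + (s + 1), by omega, hw.trans hs⟩
  have hck : c < k := hbound _ _ hcj
  refine ⟨⟨c, hck⟩, ?_⟩
  have hz : ∃ t, R z (c + 1) t := ⟨j, hcj⟩
  simp only [hz, dite_true]
  constructor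
  · by_contra hlt
    push Not at hlt
    have hsp := Nat.find_spec hz
    set t := Nat.find hz with ht
    -- walk to `f t` with `c + 1` tests extends to `f i`
    obtain ⟨_, r, hcr, hw⟩ := hsp
    obtain ⟨s, hs⟩ := NBP.exists_walk_of_reach (reach_sub h hlt (hij.trans hj)) z
    have h3 : R z (c + 1) i := ⟨hij.trans hj, r + s, by omega, hw.trans hs⟩
    have := hcmax _ h3
    omega
  · exact Nat.find_min' hz hcj

theorem exists_comp (P : NBP ι) {k : ℕ} (hk : P.ReadAtMost k) {x : ι → Bool}
    (hx : P.Accepts x) : ∃ T : ι → Fin k → ℕ, ∀ (X Y : ι → Prop) (C : Finset ℕ), Sep T X Y C →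
      ∃ (c : Bool) (d : List P.Item), d.length ≤ C.card ∧
        P.Comp x (fun b => if b then Y else X) c d P.source := by
  classical
  obtain ⟨L, f, g, h0, hL, h⟩ := exists_path P hx
  obtain ⟨T, hT⟩ := exists_times P hk h0 hL h
  refine ⟨T, ?_⟩
  intro X Y C hC
  -- the colour of a segment without cuts
  have colour : ∀ i j, i ≤ j → j ≤ L → (∀ c ∈ C, ¬ (i < c ∧ c ≤ j)) →
      ∃ c : Bool, ∀ z, (if c then Y else X) z → ¬ P.Readable z (f i) (f j) := by
    intro i j hij hj hno
    by_cases hX : ∃ z, X z ∧ P.Readable z (f i) (f j)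
    · refine ⟨true, ?_⟩
      simp only [if_true]
      intro z' hz' hr'
      obtain ⟨z, hz, hr⟩ := hX
      obtain ⟨a, ha1, ha2⟩ := hT z i j hij hj hr
      obtain ⟨b, hb1, hb2⟩ := hT z' i j hij hj hr'
      obtain ⟨c, hc, hc'⟩ := hC z z' hz hz' a b (fun hm => hno _ hm ⟨ha1, ha2⟩)
        (fun hm => hno _ hm ⟨hb1, hb2⟩)
      exact hno c hc (by omega)
    · refine ⟨false, ?_⟩
      simp only [Bool.false_eq_true, if_false]
      intro z hz hr
      exact hX ⟨z, hz, hr⟩
  -- induction on the number of cuts to the right of `i`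
  have main : ∀ (N i : ℕ), i ≤ L → (C.filter (fun c => i < c ∧ c ≤ L)).card ≤ N →
      ∃ (c : Bool) (d : List P.Item), d.length ≤ N ∧
        P.Comp x (fun b => if b then Y else X) c d (f i) := by
    intro N
    induction N with
    | zero =>
      intro i hi hcard
      have hno : ∀ c ∈ C, ¬ (i < c ∧ c ≤ L) := by
        intro c hc hc'
        have : c ∈ C.filter (fun c => i < c ∧ c ≤ L) := Finset.mem_filter.2 ⟨hc, hc'⟩
        rw [Finset.card_eq_zero.1 (Nat.le_zero.1 hcard)] at this
        simp at this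
      obtain ⟨c, hc⟩ := colour i L hi le_rfl hno
      refine ⟨c, [], le_rfl, ?_⟩
      refine ⟨?_, ?_⟩
      · rw [← hL]; exact reach_sub h hi le_rfl
      · intro z hz
        rw [← hL]
        exact hc z hz
    | succ N ih =>
      intro i hi hcard
      by_cases hne : (C.filter (fun c => i < c ∧ c ≤ L)).Nonempty
      · obtain ⟨t, ht, htmin⟩ : ∃ t ∈ C.filter (fun c => i < c ∧ c ≤ L),
            ∀ c ∈ C.filter (fun c => i < c ∧ c ≤ L), t ≤ c :=
          ⟨_, Finset.min'_mem _ hne, fun c hc => Finset.min'_le _ c hc⟩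
        rw [Finset.mem_filter] at ht
        obtain ⟨htC, hit, htL⟩ := ht
        have hcard' : (C.filter (fun c => t < c ∧ c ≤ L)).card ≤ N := by
          have hsub : C.filter (fun c => t < c ∧ c ≤ L) ⊆
              (C.filter (fun c => i < c ∧ c ≤ L)).erase t := by
            intro c hc
            rw [Finset.mem_filter] at hc
            rw [Finset.mem_erase, Finset.mem_filter]
            exact ⟨by omega, hc.1, by omega, hc.2.2⟩
          have h1 := Finset.card_le_card hsub
          rw [Finset.card_erase_of_mem (Finset.mem_filter.2 ⟨htC, hit, htL⟩)] at h1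
          omega
        obtain ⟨c, d, hd, hcomp⟩ := ih t htL hcard'
        have hno : ∀ c ∈ C, ¬ (i < c ∧ c ≤ t - 1) := by
          intro c hc hc'
          have := htmin c (Finset.mem_filter.2 ⟨hc, by omega, by omega⟩)
          omega
        obtain ⟨c', hc'⟩ := colour i (t - 1) (by omega) (by omega) hno
        have he := h (t - 1) (by omega)
        rw [show t - 1 + 1 = t by omega] at he
        refine ⟨c, (c', f (t - 1), g (t - 1), f t) :: d, by simpa using hd, ?_⟩
        exact ⟨reach_sub h (by omega) (by omega), hc', he.1, he.2, hcomp⟩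
      · have hcard0 : (C.filter (fun c => i < c ∧ c ≤ L)).card ≤ N := by
          rw [Finset.not_nonempty_iff_eq_empty.1 hne]
          simp
        obtain ⟨c, d, hd, hcomp⟩ := ih i hi hcard0
        exact ⟨c, d, by omega, hcomp⟩
  obtain ⟨c, d, hd, hcomp⟩ := main C.card 0 (Nat.zero_le L) (Finset.card_filter_le _ _)
  rw [h0] at hcomp
  exact ⟨c, d, hd, hcomp⟩

end Pool.Agent.MP_6216ea_lc
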