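import Pool.Agent.Lib.MP_6216ea_lc.RKTree

set_option autoImplicit false

namespace Pool.Agent.MP_6216ea_lc

lemma Ch.mono {k : ℕ} {q : List Bool → Fin k → ℕ} {τ : Fin k → Fin k → Bool} {ε : Bool}
    {v v' : List Bool} (h : v <:+ v') {L : List (List Bool × List Bool)} {z : List Bool}
    (hC : Ch q τ ε v' L z) : Ch q τ ε v L z := by
  cases L with
  | nil => exact h.trans hC
  | cons r L =>
    obtain ⟨w, p⟩ := r
    obtain ⟨h1, h2⟩ := hC
    exact ⟨h.trans h1, h2⟩

lemma child_of_suffix {v ℓ : List Bool} (h : v <:+ ℓ) (hl : v.length < ℓ.length) :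
    false :: v <:+ ℓ ∨ true :: v <:+ ℓ := by
  obtain ⟨t, rfl⟩ := h
  rcases t.eq_nil_or_concat with rfl | ⟨s, b, rfl⟩
  · simp at hl
  · cases b
    · left; exact ⟨s, by simp⟩
    · right; exact ⟨s, by simp⟩

lemma child_unique {v ℓ : List Bool} (h1 : false :: v <:+ ℓ) (h2 : true :: v <:+ ℓ) : False := by
  have := List.suffix_of_suffix_length_le h1 h2 (by simp)
  have h3 := this.eq_of_length (by simp)
  simp at h3

/-- The leaves of depth `H` below `v`. -/
theorem chain_step {k : ℕ} (H : ℕ) (q : List Bool → Fin k → ℕ) (h : ℕ) :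
    ∀ (v : List Bool) (S : Finset (List Bool)) (c : (Fin k → Fin k → Bool) → ℕ)
      (ε : (Fin k → Fin k → Bool) → Bool), v.length + h = H → S.Nonempty →
      (∀ ℓ ∈ S, ℓ.length = H ∧ v <:+ ℓ) →
      4 ^ h * (2 ^ (k ^ 2 + 2)) ^ (∑ τ, c τ) ≤ 3 ^ h * S.card →
      ∃ τ L z, L.length = c τ ∧ z ∈ S ∧ (∀ r ∈ L, r.2 ∈ S ∧ r.1.length < H) ∧
        Ch q τ (ε τ) v L z := by
  classical
  induction h with
  | zero =>
    intro v S c ε hv hS hSl hcard
    obtain ⟨z, hz⟩ := hS
    have hS1 : S.card ≤ 1 := by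
      rw [Finset.card_le_one]
      intro a ha b hb
      have h1 := (hSl a ha).2.eq_of_length (by rw [(hSl a ha).1]; omega)
      have h2 := (hSl b hb).2.eq_of_length (by rw [(hSl b hb).1]; omega)
      rw [← h1, ← h2]
    by_cases hc : ∃ τ, c τ = 0
    · obtain ⟨τ, hτ⟩ := hc
      exact ⟨τ, [], z, hτ.symm, hz, by simp, (hSl z hz).2⟩
    · exfalso
      push Not at hc
      have h1 : ∑ τ, c τ ≠ 0 := by
        intro h0
        exact hc (fun _ _ => true) (Finset.sum_eq_zero_iff.1 h0 _ (Finset.mem_univ _))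
      have h2 : 2 ^ (k ^ 2 + 2) ≤ (2 ^ (k ^ 2 + 2)) ^ (∑ τ, c τ) :=
        Nat.le_self_pow h1 _
      have h3 : 2 ^ 1 ≤ 2 ^ (k ^ 2 + 2) := Nat.pow_le_pow_right (by norm_num) (by omega)
      simp only [pow_zero, one_mul] at hcard
      omega
  | succ h ih =>
    intro v S c ε hv hS hSl hcard
    by_cases hc : ∃ τ, c τ = 0
    · obtain ⟨τ, hτ⟩ := hc
      obtain ⟨z, hz⟩ := hS
      exact ⟨τ, [], z, hτ.symm, hz, by simp, (hSl z hz).2⟩
    push Not at hc
    have hScard : 0 < S.card := Finset.card_pos.2 hS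
    -- the two halves
    let Sb : Bool → Finset (List Bool) := fun b => S.filter fun ℓ => b :: v <:+ ℓ
    have hSb : ∀ b, Sb b ⊆ S := fun b => Finset.filter_subset _ _
    have hSbl : ∀ b, ∀ ℓ ∈ Sb b, ℓ.length = H ∧ b :: v <:+ ℓ := by
      intro b ℓ hℓ
      rw [Finset.mem_filter] at hℓ
      exact ⟨(hSl ℓ hℓ.1).1, hℓ.2⟩
    have hsum : S.card = (Sb false).card + (Sb true).card := by
      rw [← Finset.card_union_of_disjoint]
      · congr 1
        ext ℓ
        simp only [Sb, Finset.mem_union, Finset.mem_filter]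
        constructor
        · intro hℓ
          rcases child_of_suffix (hSl ℓ hℓ).2 (by rw [(hSl ℓ hℓ).1]; omega) with h1 | h1
          · exact Or.inl ⟨hℓ, h1⟩
          · exact Or.inr ⟨hℓ, h1⟩
        · rintro (h1 | h1) <;> exact h1.1
      · rw [Finset.disjoint_left]
        intro ℓ h1 h2
        exact child_unique (hSbl _ _ h1).2 (hSbl _ _ h2).2
    set E : ℕ := 2 ^ (k ^ 2 + 2) with hE
    have hE0 : 0 < E := by positivity
    -- going to a large child
    have hbig : ∀ b, 3 * S.card ≤ 4 * (Sb b).card → ∃ τ L z, L.length = c τ ∧ z ∈ S ∧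
        (∀ r ∈ L, r.2 ∈ S ∧ r.1.length < H) ∧ Ch q τ (ε τ) v L z := by
      intro b hb
      have hne : (Sb b).Nonempty := by
        rw [← Finset.card_pos]; omega
      obtain ⟨τ, L, z, h1, h2, h3, h4⟩ := ih (b :: v) (Sb b) c ε (by simp; omega) hne (hSbl b) (by
        have e1 : 4 * (4 ^ h * E ^ (∑ τ, c τ)) ≤ 4 * (3 ^ h * (Sb b).card) := by
          calc 4 * (4 ^ h * E ^ (∑ τ, c τ)) = 4 ^ (h + 1) * E ^ (∑ τ, c τ) := by ring
            _ ≤ 3 ^ (h + 1) * S.card := hcard
            _ = 3 ^ h * (3 * S.card) := by ring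
            _ ≤ 3 ^ h * (4 * (Sb b).card) := Nat.mul_le_mul_left _ hb
            _ = 4 * (3 ^ h * (Sb b).card) := by ring
        omega)
      exact ⟨τ, L, z, h1, hSb b h2, fun r hr => ⟨hSb b (h3 r hr).1, (h3 r hr).2⟩,
        h4.mono (List.suffix_cons _ _)⟩
    by_cases hf : 3 * S.card ≤ 4 * (Sb false).card
    · exact hbig false hf
    by_cases ht : 3 * S.card ≤ 4 * (Sb true).card
    · exact hbig true ht
    have hf' : S.card ≤ 4 * (Sb false).card := by omega
    have ht' : S.card ≤ 4 * (Sb true).card := by omega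
    obtain ⟨S0, hS0, S1, hS1, τ, hc0, hc1, hrel⟩ := homogenize q (Sb false) (Sb true)
    have hE0' : S.card ≤ E * S0.card := by
      calc S.card ≤ 4 * (Sb false).card := hf'
        _ ≤ 4 * (2 ^ (k ^ 2) * S0.card) := Nat.mul_le_mul_left _ hc0
        _ = E * S0.card := by rw [hE, pow_add]; ring
    have hE1' : S.card ≤ E * S1.card := by
      calc S.card ≤ 4 * (Sb true).card := ht'
        _ ≤ 4 * (2 ^ (k ^ 2) * S1.card) := Nat.mul_le_mul_left _ hc1
        _ = E * S1.card := by rw [hE, pow_add]; ring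
    have hne0 : S0.Nonempty := by
      rw [← Finset.card_pos]
      by_contra h0
      have : S0.card = 0 := by omega
      rw [this, mul_zero] at hE0'
      omega
    have hne1 : S1.Nonempty := by
      rw [← Finset.card_pos]
      by_contra h0
      have : S1.card = 0 := by omega
      rw [this, mul_zero] at hE1'
      omega
    let c' : (Fin k → Fin k → Bool) → ℕ := fun σ => if σ = τ then c τ - 1 else c σ
    let ε' : (Fin k → Fin k → Bool) → Bool := fun σ => if σ = τ then !ε τ else ε σ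
    have hcs : ∑ σ, c σ = ∑ σ, c' σ + 1 := by
      have : ∀ σ, c σ = c' σ + if σ = τ then 1 else 0 := by
        intro σ
        by_cases hσ : σ = τ
        · have := hc τ
          subst hσ
          simp only [c', if_true]
          omega
        · simp [c', hσ]
      rw [Finset.sum_congr rfl fun σ _ => this σ, Finset.sum_add_distrib, Finset.sum_ite_eq']
      simp
    have key : ∀ S' : Finset (List Bool), S.card ≤ E * S'.card →
        4 ^ h * E ^ (∑ σ, c' σ) ≤ 3 ^ h * S'.card := by
      intro S' hS'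
      have e1 : 4 * E * (4 ^ h * E ^ (∑ σ, c' σ)) ≤ 4 * E * (3 ^ h * S'.card) := by
        calc 4 * E * (4 ^ h * E ^ (∑ σ, c' σ)) = 4 ^ (h + 1) * E ^ (∑ σ, c σ) := by
              rw [hcs]; ring
          _ ≤ 3 ^ (h + 1) * S.card := hcard
          _ ≤ 3 ^ (h + 1) * (E * S'.card) := Nat.mul_le_mul_left _ hS'
          _ = 3 * E * (3 ^ h * S'.card) := by ring
          _ ≤ 4 * E * (3 ^ h * S'.card) := by
            apply Nat.mul_le_mul_right
            apply Nat.mul_le_mul_right
            norm_num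
      exact Nat.le_of_mul_le_mul_left e1 (by positivity)
    -- assembling
    have asm : ∀ (b : Bool) (S' : Finset (List Bool)) (p : List Bool), S' ⊆ Sb b →
        S'.Nonempty → S.card ≤ E * S'.card → p ∈ S → ¬ b :: v <:+ p → v <:+ p →
        (∀ r ∈ S', if ε τ then RelT q τ p r else RelT q τ r p) →
        ∃ τ L z, L.length = c τ ∧ z ∈ S ∧ (∀ r ∈ L, r.2 ∈ S ∧ r.1.length < H) ∧
          Ch q τ (ε τ) v L z := by
      intro b S' p hS' hne hcard' hp hnp hvp hr
      obtain ⟨σ, L, z, h1, h2, h3, h4⟩ := ih (b :: v) S' c' ε' (by simp; omega) hne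
        (fun ℓ hℓ => hSbl b ℓ (hS' hℓ)) (key S' hcard')
      by_cases hσ : σ = τ
      · subst hσ
        refine ⟨σ, (v, p) :: L, z, ?_, hSb b (hS' h2), ?_, ?_⟩
        · have := hc σ
          simp only [c', if_true] at h1
          rw [List.length_cons, h1]
          omega
        · intro r hr'
          rcases List.mem_cons.1 hr' with rfl | hr'
          · exact ⟨hp, by simp only; omega⟩
          · exact ⟨hSb b (hS' (h3 r hr').1), (h3 r hr').2⟩
        · refine ⟨List.suffix_rfl, hvp, ?_, fun r hr' => hr _ (h3 r hr').1, hr _ h2, b :: v,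
            List.suffix_cons _ _, hnp, ?_⟩
          · exact (hSl z (hSb b (hS' h2))).2
          · simpa [ε'] using h4
      · refine ⟨σ, L, z, ?_, hSb b (hS' h2), fun r hr' => ⟨hSb b (hS' (h3 r hr').1), (h3 r hr').2⟩,
          ?_⟩
        · simpa [c', hσ] using h1
        · have h5 : ε' σ = ε σ := by simp [ε', hσ]
          rw [h5] at h4
          exact h4.mono (List.suffix_cons _ _)
    by_cases hετ : ε τ = true
    · obtain ⟨p, hp⟩ := hne0
      have hp' := hSbl _ _ (hS0 hp)
      refine asm true S1 p hS1 hne1 hE1' (hSb _ (hS0 hp)) (fun h => child_unique hp'.2 h)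
        ((List.suffix_cons _ _).trans hp'.2) fun r hr => ?_
      rw [if_pos hετ]
      exact hrel p hp r hr
    · obtain ⟨p, hp⟩ := hne1
      have hp' := hSbl _ _ (hS1 hp)
      refine asm false S0 p hS0 hne0 hE0' (hSb _ (hS1 hp)) (fun h => child_unique h hp'.2)
        ((List.suffix_cons _ _).trans hp'.2) fun r hr => ?_
      rw [if_neg hετ]
      exact hrel r hr p hp

end Pool.Agent.MP_6216ea_lc
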