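import Mathlib

set_option autoImplicit false

namespace Pool.Agent.MP_6216ea_lc

/-- The order type of the times of `x` and `y` is `τ`. -/
def RelT {k : ℕ} (q : List Bool → Fin k → ℕ) (τ : Fin k → Fin k → Bool) (x y : List Bool) :
    Prop := ∀ a b, q x a < q y b ↔ τ a b = true

/-- Two finite sets can be halved so that all comparisons have the same outcome. -/
theorem halve {α : Type} [DecidableEq α] (S T : Finset α) (f g : α → ℕ) :
    ∃ S' ⊆ S, ∃ T' ⊆ T, S.card ≤ 2 * S'.card ∧ T.card ≤ 2 * T'.card ∧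
      ((∀ x ∈ S', ∀ y ∈ T', f x < g y) ∨ (∀ x ∈ S', ∀ y ∈ T', ¬ f x < g y)) := by
  -- the median of `f`
  have hex : ∃ m, S.card ≤ 2 * (S.filter (fun x => f x ≤ m)).card := by
    refine ⟨S.sup f, ?_⟩
    rw [Finset.filter_true_of_mem (fun x hx => Finset.le_sup hx)]
    omega
  set m := Nat.find hex with hm
  have h1 : S.card ≤ 2 * (S.filter (fun x => f x ≤ m)).card := Nat.find_spec hex
  have h2 : S.card ≤ 2 * (S.filter (fun x => m ≤ f x)).card := by
    rcases Nat.eq_zero_or_pos m with h0 | h0
    · rw [Finset.filter_true_of_mem (fun x _ => by rw [h0]; exact Nat.zero_le _)]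
      omega
    · have h3 := Nat.find_min hex (m := m - 1) (by omega)
      have h4 := Finset.card_filter_add_card_filter_not (s := S) (fun x => f x ≤ m - 1)
      have h5 : S.filter (fun x => ¬ f x ≤ m - 1) = S.filter (fun x => m ≤ f x) := by
        apply Finset.filter_congr
        intro x _
        omega
      rw [h5] at h4
      omega
  have h6 := Finset.card_filter_add_card_filter_not (s := T) (fun y => m < g y)
  by_cases h7 : T.card ≤ 2 * (T.filter (fun y => m < g y)).card
  · refine ⟨_, Finset.filter_subset _ _, _, Finset.filter_subset _ _, h1, h7, Or.inl ?_⟩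
    intro x hx y hy
    rw [Finset.mem_filter] at hx hy
    omega
  · refine ⟨_, Finset.filter_subset _ _, T.filter (fun y => ¬ m < g y), Finset.filter_subset _ _,
      h2, by omega, Or.inr ?_⟩
    intro x hx y hy
    rw [Finset.mem_filter] at hx hy
    omega

theorem homogenize {k : ℕ} (q : List Bool → Fin k → ℕ) (S T : Finset (List Bool)) :
    ∃ S' ⊆ S, ∃ T' ⊆ T, ∃ τ : Fin k → Fin k → Bool, S.card ≤ 2 ^ (k ^ 2) * S'.card ∧
      T.card ≤ 2 ^ (k ^ 2) * T'.card ∧ ∀ x ∈ S', ∀ y ∈ T', RelT q τ x y := by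
  classical
  have main : ∀ I : Finset (Fin k × Fin k), ∃ S' ⊆ S, ∃ T' ⊆ T, ∃ τ : Fin k → Fin k → Bool,
      S.card ≤ 2 ^ I.card * S'.card ∧ T.card ≤ 2 ^ I.card * T'.card ∧
      ∀ x ∈ S', ∀ y ∈ T', ∀ i ∈ I, q x i.1 < q y i.2 ↔ τ i.1 i.2 = true := by
    intro I
    induction I using Finset.induction_on with
    | empty => exact ⟨S, subset_rfl, T, subset_rfl, fun _ _ => true, by simp, by simp, by simp⟩
    | @insert i I hi ih =>
      obtain ⟨S1, hS1, T1, hT1, τ, h1, h2, h3⟩ := ih
      obtain ⟨S2, hS2, T2, hT2, h4, h5, h6⟩ := halve S1 T1 (fun x => q x i.1) (fun y => q y i.2)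
      have hc : ∃ b : Bool, ∀ x ∈ S2, ∀ y ∈ T2, q x i.1 < q y i.2 ↔ b = true := by
        rcases h6 with h6 | h6
        · exact ⟨true, fun x hx y hy => by simpa using h6 x hx y hy⟩
        · exact ⟨false, fun x hx y hy => by simpa using h6 x hx y hy⟩
      obtain ⟨b, hb⟩ := hc
      refine ⟨S2, hS2.trans hS1, T2, hT2.trans hT1,
        fun a c => if (a, c) = i then b else τ a c, ?_, ?_, ?_⟩
      · rw [Finset.card_insert_of_notMem hi, pow_succ]
        calc S.card ≤ 2 ^ I.card * S1.card := h1
          _ ≤ 2 ^ I.card * (2 * S2.card) := Nat.mul_le_mul_left _ h4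
          _ = _ := by ring
      · rw [Finset.card_insert_of_notMem hi, pow_succ]
        calc T.card ≤ 2 ^ I.card * T1.card := h2
          _ ≤ 2 ^ I.card * (2 * T2.card) := Nat.mul_le_mul_left _ h5
          _ = _ := by ring
      · intro x hx y hy j hj
        by_cases hji : j = i
        · subst hji
          simp only [Prod.mk.eta, if_true]
          exact hb x hx y hy
        · have : (j.1, j.2) ≠ i := hji
          simp only [this, if_false]
          exact h3 x (hS2 hx) y (hT2 hy) j ((Finset.mem_insert.1 hj).resolve_left hji)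
  obtain ⟨S', hS', T', hT', τ, h1, h2, h3⟩ := main Finset.univ
  refine ⟨S', hS', T', hT', τ, ?_, ?_, fun x hx y hy a b => h3 x hx y hy (a, b) (Finset.mem_univ _)⟩
  · simpa [sq] using h1
  · simpa [sq] using h2

/-- Chains: `Ch q τ ε v L z`: the list `L` of pairs (node, leaf) starts at a node at or below `v`;
the leaf of every pair lies below its node, but not below the next node, and it precedes
(`ε = true`) or follows (`ε = false`) all later leaves and `z` in the sense of the order type `τ`;
the signs `ε` alternate. -/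
def Ch {k : ℕ} (q : List Bool → Fin k → ℕ) (τ : Fin k → Fin k → Bool) :
    Bool → List Bool → List (List Bool × List Bool) → List Bool → Prop
  | _, v, [], z => v <:+ z
  | ε, v, (w, p) :: L, z => v <:+ w ∧ w <:+ p ∧ w <:+ z ∧
      (∀ r ∈ L, (if ε then RelT q τ p r.2 else RelT q τ r.2 p)) ∧
      (if ε then RelT q τ p z else RelT q τ z p) ∧
      ∃ v', w <:+ v' ∧ ¬ v' <:+ p ∧ Ch q τ (!ε) v' L z

end Pool.Agent.MP_6216ea_lc
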