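import Pool.Agent.Lib.MP_6216ea_lc.SQRun

/-! The composite levels, and their iteration. -/

set_option autoImplicit false

namespace Pool.Agent.MP_6216ea_lc

namespace SQ

open Ins Pass

/-- The clear memory of one composite level. -/
@[ext]
structure Fr (X F : Type) (m : ℕ) : Type where
  q : X
  a : X
  φ : Fin m → F

variable {ι α X Md F W : Type} [AddCommGroup Md] [AddCommGroup F] {m n₀ : ℕ}

/-- The memory of a level with its frame split off. -/
def toS (s : Sta X Md (Fr X F m × W) m) : St X Md F W m :=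
  ⟨s.c, s.w.1.q, s.w.1.a, s.w.1.φ, s.r, s.w.2⟩

/-- The converse of `toS`. -/
def ofS (s : St X Md F W m) : Sta X Md (Fr X F m × W) m := ⟨s.c, (⟨s.q, s.a, s.φ⟩, s.w), s.r⟩

section

variable {lv ix : Fin m → ℕ} {G : MFP X Md F n₀} {d : X} {P : ℕ → X → Prot X} {M : ℕ}

theorem compU_sem {x : ι → α} {A : ℕ → X → X} {w₀ : W}
    (hix : ∀ κ, ix κ ≤ M) (hP : ∀ i q, Prot.Hgt M (P i q)) (hn₀ : 4 * M + 1 ≤ n₀)
    (hA : ∀ i q, A (i + 1) q = Prot.eval (A i) (P i q))
    {low : List (Ins ι α (Sta X Md W m))} (hlow : Computes x (A 0) w₀ low) (b : ℕ)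
    (hK : ∀ i' ≤ b, ∀ k ≤ M, ∃ κ, lv κ = i' ∧ ix κ = k) (s t : St X Md F W m)
    (hq : s.q = d) (hsa : s.a = d) (hφs : ∀ κ, s.φ κ = 0) (hw : s.w = w₀) :
    Run x (compU lv ix G d P M low b) s t ↔ t = ⟨A b s.c, s.q, s.a, s.φ, s.r, s.w⟩ := by
  have hcnt : cnt M b ≤ n₀ := by
    cases b with
    | zero =>
      change 1 ≤ n₀
      omega
    | succ i => exact hn₀
  obtain ⟨z, hz⟩ : ∃ z, z = s.c := ⟨_, rfl⟩
  obtain ⟨s₁, hs₁⟩ : ∃ s₁ : St X Md F W m, s₁ = ⟨d, s.c, s.a,
    fun κ => if lv κ = b ∧ ix κ = M then G.χ s.c (s.r κ) else s.φ κ, s.r, s.w⟩ := ⟨_, rfl⟩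
  have f1 : ∀ κ, s₁.φ κ = if lv κ = b ∧ ix κ = M then G.χ z (s.r κ) else s.φ κ := by
    intro κ; rw [hs₁, hz]
  have f2 : ∀ κ, s₁.r κ = s.r κ := by
    intro κ; rw [hs₁]
  obtain ⟨s₂, hs₂⟩ : ∃ s₂ : St X Md F W m, s₂ = Hon lv ix G d .last (A b z) (ZB lv ix M b)
    (δB lv ix G M b z) s₁ := ⟨_, rfl⟩
  have r1 : ∀ κ, s₂.φ κ = if ZB lv ix M b κ then 0 else s₁.φ κ := by
    intro κ; rw [hs₂]; rfl
  have r2 : ∀ κ, s₂.r κ = s₁.r κ + δB lv ix G M b z κ := by
    intro κ; rw [hs₂]; rfl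
  have r3 : s₂.q = z := by rw [hs₂, hs₁, hz]; rfl
  have r4 : s₂.a = A b z := by rw [hs₂]; rfl
  have r5 : s₂.w = s.w := by rw [hs₂, hs₁]; rfl
  have hend : (⟨s₂.a, d, d, fun κ => if lv κ = b ∧ ix κ = M then 0 else s₂.φ κ,
      fun κ => if lv κ = b ∧ ix κ = M then s₂.r κ - cnt M b • G.t s₂.q else s₂.r κ, s₂.w⟩ :
      St X Md F W m) = ⟨A b s.c, s.q, s.a, s.φ, s.r, s.w⟩ := by
    apply St.ext
    · exact r4.trans (by rw [hz])
    · exact hq.symm
    · exact hsa.symm
    · funext κ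
      change (if lv κ = b ∧ ix κ = M then 0 else s₂.φ κ) = s.φ κ
      rw [hφs κ]
      by_cases h1 : lv κ = b ∧ ix κ = M
      · rw [if_pos h1]
      · rw [if_neg h1, r1]
        by_cases h2 : ZB lv ix M b κ
        · rw [if_pos h2]
        · rw [if_neg h2, f1, if_neg h1, hφs κ]
    · funext κ
      change (if lv κ = b ∧ ix κ = M then s₂.r κ - cnt M b • G.t s₂.q else s₂.r κ) = s.r κ
      rw [r2, r3, f2]
      unfold δB
      by_cases h1 : lv κ = b ∧ ix κ = M
      · rw [if_pos h1, if_pos h1, add_sub_cancel_right]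
      · rw [if_neg h1, if_neg h1, add_zero]
    · exact r5
  constructor
  · intro hrun
    unfold compU at hrun
    rw [run_cons] at hrun
    obtain ⟨u₁, hu₁, hrun⟩ := hrun
    unfold initI at hu₁
    rw [rel_free, ← hs₁] at hu₁
    subst hu₁
    rw [run_append] at hrun
    obtain ⟨u₂, hu₂, hrun⟩ := hrun
    rw [run_one] at hrun
    unfold finI at hrun
    rw [rel_free] at hrun
    obtain ⟨hchk, ht⟩ := hrun
    have hw₁ : u₁.w = w₀ := by rw [hs₁]; exact hw
    obtain ⟨b1, b2, b3, l, b4, b5, b6⟩ := br_ok (G := G) (d := d) (P := P) hix hP hn₀ hA hlow b hK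
      (h := .last) trivial u₁ u₂ hw₁ hu₂
    have hq2 : u₂.q = z := by rw [b2, hs₁, hz]
    obtain ⟨κ₀, k1, k2⟩ := hK b le_rfl M le_rfl
    have hall : ∀ y ∈ l, y = z := by
      apply G.multi _ l (by rw [b4]; exact hcnt)
      have h1 := hchk κ₀ k1 k2
      obtain ⟨h2, h3⟩ := b5 κ₀ k1 k2
      have h4 := f1 κ₀
      rw [if_pos ⟨k1, k2⟩] at h4
      rw [hq2, h3, h4, h2, f2, map_sub, map_add, sub_eq_iff_eq_add] at h1
      rw [b4]
      exact add_left_cancel h1
    obtain ⟨-, c2⟩ := b6 z hall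
    rw [← hs₂] at c2
    subst c2
    rw [ht]
    exact hend
  · intro ht
    unfold compU
    rw [run_cons]
    refine ⟨s₁, ?_, ?_⟩
    · unfold initI
      rw [rel_free]
      exact hs₁
    rw [run_append]
    refine ⟨s₂, ?_, ?_⟩
    · rw [hs₂]
      exact br_run (G := G) (d := d) (P := P) hix hP hA hlow b (h := .last) trivial s₁ z
        (by rw [hs₁]; exact hw) trivial
    rw [run_one]
    unfold finI
    rw [rel_free]
    refine ⟨?_, by rw [ht, ← hend]⟩
    intro κ h1 h2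
    rw [r1, r2, r3, f2, if_neg (by unfold ZB; omega), f1, if_pos ⟨h1, h2⟩]
    unfold δB
    rw [if_pos ⟨h1, h2⟩, add_sub_cancel_right]

end

/-- The level of a register. -/
def lvl (M m : ℕ) (κ : Fin m) : ℕ := κ.val / (M + 1)

/-- The item of a register. -/
def itm (M m : ℕ) (κ : Fin m) : ℕ := κ.val % (M + 1)

theorem itm_le (M m : ℕ) (κ : Fin m) : itm M m κ ≤ M := by
  unfold itm
  exact Nat.lt_succ_iff.mp (Nat.mod_lt κ.val (Nat.succ_pos M))

theorem exists_reg (M b : ℕ) : ∀ i' ≤ b, ∀ k ≤ M, ∃ κ : Fin ((b + 1) * (M + 1)),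
    lvl M _ κ = i' ∧ itm M _ κ = k := by
  intro i' hi k hk
  have hlt : i' * (M + 1) + k < (b + 1) * (M + 1) := by
    have h1 : i' * (M + 1) ≤ b * (M + 1) := Nat.mul_le_mul_right _ hi
    have h2 : (b + 1) * (M + 1) = b * (M + 1) + (M + 1) := by ring
    omega
  refine ⟨⟨i' * (M + 1) + k, hlt⟩, ?_, ?_⟩
  · change (i' * (M + 1) + k) / (M + 1) = i'
    rw [Nat.mul_comm i' (M + 1), Nat.mul_add_div (Nat.succ_pos M), Nat.div_eq_of_lt (by omega)]
    rfl
  · change (i' * (M + 1) + k) % (M + 1) = k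
    rw [Nat.mul_comm i' (M + 1), Nat.mul_add_mod, Nat.mod_eq_of_lt (by omega)]

/-- The program of one composite of `b` levels. -/
def comp (G : MFP X Md F n₀) (d : X) (P : ℕ → X → Prot X) (M b : ℕ)
    (low : List (Ins ι α (Sta X Md W ((b + 1) * (M + 1))))) :
    List (Ins ι α (Sta X Md (Fr X F ((b + 1) * (M + 1)) × W) ((b + 1) * (M + 1)))) :=
  (compU (lvl M _) (itm M _) G d P M low b).map (lift toS fun _ u => ofS u)

theorem comp_computes (G : MFP X Md F n₀) (d : X) (P : ℕ → X → Prot X) (M b : ℕ)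
    {x : ι → α} {A : ℕ → X → X} {w₀ : W} (hP : ∀ i q, Prot.Hgt M (P i q))
    (hn₀ : 4 * M + 1 ≤ n₀) (hA : ∀ i q, A (i + 1) q = Prot.eval (A i) (P i q))
    {low : List (Ins ι α (Sta X Md W ((b + 1) * (M + 1))))} (hlow : Computes x (A 0) w₀ low) :
    Computes x (A b) ((⟨d, d, fun _ => 0⟩ : Fr X F ((b + 1) * (M + 1))), w₀)
      (comp G d P M b low) := by
  intro s t hs
  unfold comp
  rw [run_lift toS (fun _ u => ofS u) (fun _ => rfl) (fun _ _ => rfl) (fun _ _ _ => rfl)]
  have h := fun u => compU_sem (G := G) (d := d) (P := P) (itm_le M _) hP hn₀ hA hlow b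
    (exists_reg M b) (toS s) u (by simp [toS, hs]) (by simp [toS, hs]) (by simp [toS, hs])
    (by simp [toS, hs])
  constructor
  · rintro ⟨u, hu, rfl⟩
    rw [(h u).1 hu]
    rfl
  · rintro rfl
    exact ⟨_, (h _).2 rfl, rfl⟩

/-! ### Lengths -/

theorem len_nst {m : ℕ} (lv ix : Fin m → ℕ) (G : MFP X Md F n₀) (d : X) (P : ℕ → X → Prot X)
    (M : ℕ) (L : Hk → List (Ins ι α (St X Md F W m))) (l : ℕ) (hL : ∀ h, (L h).length = l)
    (i : ℕ) (h : Hk) (n : ℕ) :
    (nst lv ix G d P M L i h n).length = 2 + n * (2 * (l + 2)) := by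
  induction n with
  | zero => simp [nst]
  | succ n ih =>
    unfold nst
    rw [List.length_append, List.length_append, ih]
    unfold call
    simp only [List.length_append, List.length_cons, List.length_nil, hL]
    ring

theorem len_br {m : ℕ} (lv ix : Fin m → ℕ) (G : MFP X Md F n₀) (d : X) (P : ℕ → X → Prot X)
    (M : ℕ) (low : List (Ins ι α (Sta X Md W m))) (i : ℕ) :
    ∃ l, (∀ h, (br lv ix G d P M low i h : List (Ins ι α (St X Md F W m))).length = l) ∧
      l + 3 ≤ (low.length + 5) * (2 * M + 2) ^ i := by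
  induction i with
  | zero =>
    refine ⟨low.length + 2, ?_, by simp⟩
    intro h
    unfold br
    simp only [List.length_append, List.length_cons, List.length_nil, List.length_map]
  | succ i ih =>
    obtain ⟨l, h1, h2⟩ := ih
    refine ⟨2 + M * (2 * (l + 2)), ?_, ?_⟩
    · intro h
      unfold br
      exact len_nst lv ix G d P M _ l h1 i h M
    · calc 2 + M * (2 * (l + 2)) + 3 ≤ (l + 3) * (2 * M + 2) := by nlinarith
        _ ≤ ((low.length + 5) * (2 * M + 2) ^ i) * (2 * M + 2) := Nat.mul_le_mul_right _ h2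
        _ = (low.length + 5) * (2 * M + 2) ^ (i + 1) := by rw [pow_succ]; ring

theorem len_comp (G : MFP X Md F n₀) (d : X) (P : ℕ → X → Prot X) (M b : ℕ)
    (low : List (Ins ι α (Sta X Md W ((b + 1) * (M + 1))))) :
    (comp G d P M b low).length + 5 ≤ (low.length + 5) * (2 * M + 2) ^ (b + 1) := by
  obtain ⟨l, h1, h2⟩ := len_br (lvl M ((b + 1) * (M + 1))) (itm M _) G d P M low b
  unfold comp compU
  simp only [List.length_map, List.length_append, List.length_cons, List.length_nil, h1]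
  have h0 : 5 ≤ (low.length + 5) * (2 * M + 2) ^ b := by
    have := Nat.one_le_pow b (2 * M + 2) (by omega)
    nlinarith
  calc l + (0 + 1) + 1 + 5 ≤ ((low.length + 5) * (2 * M + 2) ^ b) * 2 := by omega
    _ ≤ ((low.length + 5) * (2 * M + 2) ^ b) * (2 * M + 2) := Nat.mul_le_mul_left _ (by omega)
    _ = (low.length + 5) * (2 * M + 2) ^ (b + 1) := by rw [pow_succ]; ring

/-! ### Iteration -/

/-- The clear memory of `g` composites. -/
def Wc (X F : Type) (m : ℕ) : ℕ → Type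
  | 0 => Unit
  | i + 1 => Fr X F m × Wc X F m i

/-- The empty clear memory. -/
def wc (d : X) : (i : ℕ) → Wc X F m i
  | 0 => ()
  | i + 1 => (⟨d, d, fun _ => 0⟩, wc d i)

/-- The program of `g` composites of `b` levels. -/
def progS (G : MFP X Md F n₀) (d : X) (P : ℕ → X → Prot X) (M b : ℕ)
    (base : Ins ι α (Sta X Md Unit ((b + 1) * (M + 1)))) :
    (i : ℕ) → List (Ins ι α (Sta X Md (Wc X F ((b + 1) * (M + 1)) i) ((b + 1) * (M + 1))))
  | 0 => [base]
  | i + 1 => comp G d (fun k => P (b * i + k)) M b (progS G d P M b base i)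

theorem progS_computes (G : MFP X Md F n₀) (d : X) (P : ℕ → X → Prot X) (M b : ℕ)
    (hP : ∀ i q, Prot.Hgt M (P i q)) (hn₀ : 4 * M + 1 ≤ n₀)
    (base : Ins ι α (Sta X Md Unit ((b + 1) * (M + 1)))) (x : ι → α)
    (A : ℕ → X → X) (h0 : Computes x (A 0) () [base])
    (hA : ∀ i q, A (i + 1) q = Prot.eval (A i) (P i q)) (g : ℕ) :
    Computes x (A (b * g)) (wc d g) (progS G d P M b base g) := by
  induction g with
  | zero => exact h0
  | succ g ih =>
    have h := comp_computes (F := F) G d (fun k => P (b * g + k)) M b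
      (A := fun k => A (b * g + k)) (fun i q => hP _ q) hn₀ (fun i q => hA _ q) ih
    exact h

theorem len_progS (G : MFP X Md F n₀) (d : X) (P : ℕ → X → Prot X) (M b : ℕ)
    (base : Ins ι α (Sta X Md Unit ((b + 1) * (M + 1)))) (g : ℕ) :
    (progS G d P M b base g).length + 5 ≤ 6 * (2 * M + 2) ^ ((b + 1) * g) := by
  induction g with
  | zero => simp [progS]
  | succ g ih =>
    refine (len_comp G d _ M b (progS G d P M b base g)).trans ?_
    calc ((progS G d P M b base g).length + 5) * (2 * M + 2) ^ (b + 1)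
        ≤ 6 * (2 * M + 2) ^ ((b + 1) * g) * (2 * M + 2) ^ (b + 1) := Nat.mul_le_mul_right _ ih
      _ = 6 * (2 * M + 2) ^ ((b + 1) * (g + 1)) := by
        rw [mul_assoc, ← pow_add]
        congr 2

/-! ### Sizes -/

/-- `Fr` as a product. -/
def frE (X F : Type) (m : ℕ) : Fr X F m ≃ X × X × (Fin m → F) where
  toFun s := (s.q, s.a, s.φ)
  invFun s := ⟨s.1, s.2.1, s.2.2⟩
  left_inv _ := rfl
  right_inv _ := rfl

noncomputable instance [Fintype X] [Fintype F] : Fintype (Fr X F m) :=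
  Fintype.ofEquiv _ (frE X F m).symm

noncomputable instance wcFin [Fintype X] [Fintype F] : (i : ℕ) → Fintype (Wc X F m i)
  | 0 => inferInstanceAs (Fintype Unit)
  | i + 1 => @instFintypeProd (Fr X F m) (Wc X F m i) _ (wcFin i)

omit [AddCommGroup F] in
theorem card_wc [Fintype X] [Fintype F] (i : ℕ) :
    Fintype.card (Wc X F m i) = (Fintype.card X ^ 2 * Fintype.card F ^ m) ^ i := by
  induction i with
  | zero => exact Fintype.card_unit
  | succ i ih =>
    have h1 : Fintype.card (Fr X F m) = Fintype.card X ^ 2 * Fintype.card F ^ m := by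
      rw [Fintype.card_congr (frE X F m)]
      simp only [Fintype.card_prod, Fintype.card_fun, Fintype.card_fin]
      ring
    change Fintype.card (Fr X F m × Wc X F m i) = _
    rw [Fintype.card_prod, ih, h1]
    exact (pow_succ' _ _).symm

end SQ

end Pool.Agent.MP_6216ea_lc
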