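import Pool.Agent.Lib.MP_6216ea_lc.SQHeadC
import Pool.Agent.Lib.MP_6216ea_lc.DCDpda

/-! Deterministic context-free languages in unambiguous size `n ^ O(sqrt (log n))`. -/

set_option autoImplicit false

namespace Pool.Agent.MP_6216ea_lc

namespace SQ

/-- The words of length `n` of a deterministic context-free language, and the words of length `n`
which are not in it, have unambiguous branching programs of size `n ^ O(sqrt (log n))` which make
at most `n ^ c` queries. -/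
theorem dpda_sqrtU {α : Type} [Fintype α] (M : DPDA α) : ∃ (C : ℝ) (c : ℕ), ∀ n : ℕ, 2 ≤ n →
    ∀ y : Bool, ∃ B : LetterNBP (Fin n) α,
      (Fintype.card B.V : ℝ) ≤ (n : ℝ) ^ (C * Real.sqrt (Real.log n)) ∧
        B.Unambiguous ∧ B.QueriesAtMost (n ^ c) ∧
        ∀ x, B.Accepts x ↔ (List.ofFn x ∈ M.language ↔ y = true) := by
  obtain ⟨a, h⟩ := dpda_prog M
  obtain ⟨E, hE⟩ : ∃ E, E = a + 2 := ⟨_, rfl⟩
  refine ⟨45420 * E * Real.sqrt E, E * 70, fun n hn y => ?_⟩
  obtain ⟨P, hP, hacc⟩ := h n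
  have h0 : n + 1 ≤ n ^ 2 := by nlinarith
  have h1 : a * (n + 1) ≤ n ^ E := by
    have h3 : a ≤ n ^ a := (Nat.lt_pow_self (by omega)).le
    calc a * (n + 1) ≤ n ^ a * n ^ 2 := by gcongr
      _ = n ^ E := by rw [← pow_add, hE]
  have h2 : 2 ≤ a * (n + 1) := by
    have h4 : 0 < Fintype.card P.S := Fintype.card_pos_iff.2 ⟨P.start⟩
    have h5 : a ≠ 0 := by
      rintro rfl
      omega
    have h6 : 1 ≤ a := by omega
    calc 2 ≤ 1 * (n + 1) := by omega
      _ ≤ a * (n + 1) := Nat.mul_le_mul_right _ h6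
  obtain ⟨B, hB, hU, hQ, hB'⟩ := push_sqrtU P (a * (n + 1)) (n ^ E) h2 h1 (hP.trans h1) y
  refine ⟨B, hB.trans (pow_sqrt_bound hn h2 h1), hU, fun x T v hv => ?_, fun x => ?_⟩
  · refine (hQ x T v hv).trans ?_
    rw [pow_mul]
    exact Nat.pow_le_pow_left h1 70
  · rw [hB' x, hacc x]

end SQ

end Pool.Agent.MP_6216ea_lc
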