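import Mathlib

/-! Fingerprints which verify several uses of a masked value at once. -/

set_option autoImplicit false

namespace Pool.Agent.MP_6216ea_lc

/-- Translations `t x` and linear maps `χ x` such that `χ z` sees whether all members of a list
`l` of at most `m` values are equal to `z`. -/
structure MFP (X Md F : Type) [AddCommGroup Md] [AddCommGroup F] (m : ℕ) where
  t : X → Md
  χ : X → Md →+ F
  multi : ∀ (z : X) (l : List X), l.length ≤ m →
    χ z ((l.map t).sum) = χ z (l.length • t z) → ∀ y ∈ l, y = z

namespace MFP

/-- The square of the distance of two codes. -/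
def sqd {X : Type} {D e : ℕ} (code : X → Fin D → Fin e) (x y : X) : ℕ :=
  ∑ i, (((code y i).val : ℤ) - ((code x i).val : ℤ)).natAbs ^ 2

theorem sqd_le {X : Type} {D e : ℕ} (code : X → Fin D → Fin e) (x y : X) :
    sqd code x y ≤ D * e ^ 2 := by
  unfold sqd
  calc ∑ i, (((code y i).val : ℤ) - ((code x i).val : ℤ)).natAbs ^ 2
      ≤ ∑ _i : Fin D, e ^ 2 := by
        refine Finset.sum_le_sum fun i _ => ?_
        refine Nat.pow_le_pow_left ?_ 2
        have h1 := (code y i).isLt
        have h2 := (code x i).isLt
        omega
    _ = D * e ^ 2 := by simp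

theorem sqd_zero {X : Type} {D e : ℕ} {code : X → Fin D → Fin e} (hc : Function.Injective code)
    {x y : X} (h : sqd code x y = 0) : y = x := by
  apply hc
  unfold sqd at h
  rw [Finset.sum_eq_zero_iff] at h
  funext i
  have h1 := h i (Finset.mem_univ i)
  have h2 := pow_eq_zero_iff (two_ne_zero) |>.mp h1
  apply Fin.ext
  omega

theorem cast_natAbs_sq (p : ℕ) (a b : ℕ) :
    ((((a : ℤ) - (b : ℤ)).natAbs ^ 2 : ℕ) : ZMod p) = ((a : ZMod p) - (b : ZMod p)) ^ 2 := by
  have h1 : ((((a : ℤ) - (b : ℤ)).natAbs ^ 2 : ℕ) : ℤ) = ((a : ℤ) - (b : ℤ)) ^ 2 := by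
    rw [Nat.cast_pow, Int.natAbs_sq]
  have h2 := congrArg (fun z : ℤ => (z : ZMod p)) h1
  simp only [Int.cast_natCast, Int.cast_pow, Int.cast_sub] at h2
  exact h2

/-- The fingerprints given by an injective code with `D` digits below `e`. -/
def ofCode {X : Type} {D e : ℕ} (p m : ℕ) (code : X → Fin D → Fin e)
    (hc : Function.Injective code) (hp : m * (D * e ^ 2) < p) :
    MFP X ((Fin D → ZMod p) × ZMod p) (ZMod p) m where
  t x := (fun i => ((code x i).val : ZMod p), ∑ i, ((code x i).val : ZMod p) ^ 2)
  χ x :=
    { toFun := fun u => u.2 - 2 * ∑ i, ((code x i).val : ZMod p) * u.1 i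
      map_zero' := by simp
      map_add' := by
        intro u u'
        simp only [Prod.snd_add, Prod.fst_add, Pi.add_apply, mul_add, Finset.sum_add_distrib]
        ring }
  multi := by
    intro z l hl h
    set T : X → (Fin D → ZMod p) × ZMod p := fun x =>
      (fun i => ((code x i).val : ZMod p), ∑ i, ((code x i).val : ZMod p) ^ 2) with hT
    set C : ((Fin D → ZMod p) × ZMod p) →+ ZMod p :=
    { toFun := fun u => u.2 - 2 * ∑ i, ((code z i).val : ZMod p) * u.1 i
      map_zero' := by simp
      map_add' := by
        intro u u'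
        simp only [Prod.snd_add, Prod.fst_add, Pi.add_apply, mul_add, Finset.sum_add_distrib]
        ring } with hC
    have key : ∀ y, C (T y) = C (T z) + ((sqd code z y : ℕ) : ZMod p) := by
      intro y
      have h1 : ((sqd code z y : ℕ) : ZMod p) =
          ∑ i, (((code y i).val : ZMod p) - ((code z i).val : ZMod p)) ^ 2 := by
        unfold sqd
        rw [Nat.cast_sum]
        exact Finset.sum_congr rfl fun i _ => cast_natAbs_sq p _ _
      rw [h1]
      change (∑ i, ((code y i).val : ZMod p) ^ 2) -
          2 * ∑ i, ((code z i).val : ZMod p) * ((code y i).val : ZMod p) =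
        (∑ i, ((code z i).val : ZMod p) ^ 2) -
          2 * (∑ i, ((code z i).val : ZMod p) * ((code z i).val : ZMod p)) + _
      rw [Finset.mul_sum, Finset.mul_sum, ← Finset.sum_sub_distrib, ← Finset.sum_sub_distrib,
        ← Finset.sum_add_distrib]
      exact Finset.sum_congr rfl fun i _ => by ring
    have hsum : ∀ l : List X, C ((l.map T).sum) =
        C (l.length • T z) + (((l.map (sqd code z)).sum : ℕ) : ZMod p) := by
      intro l
      induction l with
      | nil => simp
      | cons y l ih =>
        rw [List.map_cons, List.sum_cons, map_add, ih, key, List.length_cons, succ_nsmul, map_add,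
          List.map_cons, List.sum_cons, Nat.cast_add]
        ring
    have h1 := hsum l
    have h : C ((l.map T).sum) = C (l.length • T z) := h
    rw [h] at h1
    have h2 : (((l.map (sqd code z)).sum : ℕ) : ZMod p) = 0 := by
      have := h1
      rwa [left_eq_add] at this
    have h3 : (l.map (sqd code z)).sum ≤ l.length * (D * e ^ 2) := by
      have h5 : ∀ y ∈ l.map (sqd code z), y ≤ D * e ^ 2 := by
        intro y hy
        rw [List.mem_map] at hy
        obtain ⟨y', _, rfl⟩ := hy
        exact sqd_le code z y'
      have := List.sum_le_card_nsmul _ _ h5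
      simpa using this
    have h4 : (l.map (sqd code z)).sum = 0 := by
      refine Nat.eq_zero_of_dvd_of_lt ((ZMod.natCast_eq_zero_iff _ _).mp h2) ?_
      exact lt_of_le_of_lt (h3.trans (Nat.mul_le_mul_right _ hl)) hp
    intro y hy
    have h6 : sqd code z y = 0 := by
      have h7 : sqd code z y ≤ (l.map (sqd code z)).sum :=
        List.single_le_sum (by simp) _ (List.mem_map_of_mem hy)
      omega
    exact sqd_zero hc h6

end MFP

end Pool.Agent.MP_6216ea_lc
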