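import Pool.Agent.Lib.MP_6216ea_lc.TUProg

/-! The simulation with segments is complete: `2 T` stack operations suffice for `T` turns. -/

set_option autoImplicit false
set_option linter.unusedSimpArgs false

namespace Pool.Agent.MP_6216ea_lc

namespace PushProg

variable {ι α : Type} (P : PushProg ι α) (x : ι → α)

theorem turn_instr {T : ℕ} (n : TNode P.S T (Fintype.card P.S)) :
    (P.turn T).instr n = P.tI T (Fintype.card P.S) n := rfl

/-- The simulating program runs through a part without pops. -/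
theorem up_walk {T j : ℕ} {y : List (P.S × Fin (Fintype.card P.S + 1))} {k : Fin (T + 1)}
    {s₀ : P.S} (h : (P.turn T).Reach x j (.up k s₀ s₀ 0) y) (t : ℕ) (ht : t ≤ Fintype.card P.S) :
    ∃ m : Fin (Fintype.card P.S + 1), m.val = (P.tj x s₀ t).2.length ∧
      (P.turn T).Reach x j (.up k s₀ (P.tj x s₀ t).1 m) y := by
  induction t with
  | zero => exact ⟨0, rfl, h⟩
  | succ t ih =>
    obtain ⟨m, hm, hr⟩ := ih (by omega)
    cases hi : P.instr (P.tj x s₀ t).1 with
    | jump u' =>
      obtain ⟨e1, e2⟩ := P.tj_jump x rfl hi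
      have hI : (P.turn T).instr (.up k s₀ (P.tj x s₀ t).1 m) = .jump (.up k s₀ u' m) := by
        rw [P.turn_instr]
        simp only [tI, hi]
        rfl
      refine ⟨m, by rw [e2]; exact hm, ?_⟩
      rw [e1]
      exact .move hr (by rw [hI]; rfl) ((P.turn T).next_jump x hI y)
    | read i f =>
      obtain ⟨e1, e2⟩ := P.tj_read x rfl hi
      have hI : (P.turn T).instr (.up k s₀ (P.tj x s₀ t).1 m) =
          .read i fun a => .up k s₀ (f a) m := by
        rw [P.turn_instr]
        simp only [tI, hi]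
        rfl
      refine ⟨m, by rw [e2]; exact hm, ?_⟩
      rw [e1]
      exact .move hr (by rw [hI]; rfl) ((P.turn T).next_read x hI y)
    | push g u' =>
      obtain ⟨e1, e2⟩ := P.tj_push x rfl hi
      have hl := P.tj_len x s₀ (t + 1)
      rw [e2, List.length_cons, ← hm] at hl
      have hlt : m.val + 1 < Fintype.card P.S + 1 := by omega
      have hI : (P.turn T).instr (.up k s₀ (P.tj x s₀ t).1 m) =
          .jump (.up k s₀ u' ⟨m.val + 1, hlt⟩) := by
        rw [P.turn_instr]
        simp only [tI, hi]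
        rw [dif_pos hlt]
        rfl
      refine ⟨⟨m.val + 1, hlt⟩, by rw [e2, List.length_cons]; exact congrArg (· + 1) hm, ?_⟩
      rw [e1]
      exact .move hr (by rw [hI]; rfl) ((P.turn T).next_jump x hI y)
    | pop f =>
      have e := P.tj_stay x s₀ hi 1
      exact ⟨m, by rw [e]; exact hm, by rw [e]; exact hr⟩

/-- The simulating program looks for the symbol at the top of a segment. -/
theorem inn_walk {T j : ℕ} {y : List (P.S × Fin (Fintype.card P.S + 1))} {k : Fin (T + 1)}
    {q s₀ : P.S} {m : Fin (Fintype.card P.S + 1)}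
    (h : (P.turn T).Reach x j (.inn k q s₀ m s₀ 0) y) (t : ℕ)
    (ht : (P.tj x s₀ t).2.length < m.val) :
    ∃ i : Fin (Fintype.card P.S + 1), i.val = (P.tj x s₀ t).2.length ∧
      (P.turn T).Reach x j (.inn k q s₀ m (P.tj x s₀ t).1 i) y := by
  induction t with
  | zero => exact ⟨0, rfl, h⟩
  | succ t ih =>
    obtain ⟨w, hw⟩ := P.tj_mono x s₀ t 1
    have hlen : (P.tj x s₀ t).2.length ≤ (P.tj x s₀ (t + 1)).2.length := by
      rw [hw, List.length_append]
      omega
    obtain ⟨i, hi', hr⟩ := ih (by omega)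
    cases hi : P.instr (P.tj x s₀ t).1 with
    | jump u' =>
      obtain ⟨e1, e2⟩ := P.tj_jump x rfl hi
      have hI : (P.turn T).instr (.inn k q s₀ m (P.tj x s₀ t).1 i) =
          .jump (.inn k q s₀ m u' i) := by
        rw [P.turn_instr]
        simp only [tI, hi]
        rfl
      refine ⟨i, by rw [e2]; exact hi', ?_⟩
      rw [e1]
      exact .move hr (by rw [hI]; rfl) ((P.turn T).next_jump x hI y)
    | read l f =>
      obtain ⟨e1, e2⟩ := P.tj_read x rfl hi
      have hI : (P.turn T).instr (.inn k q s₀ m (P.tj x s₀ t).1 i) =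
          .read l fun a => .inn k q s₀ m (f a) i := by
        rw [P.turn_instr]
        simp only [tI, hi]
        rfl
      refine ⟨i, by rw [e2]; exact hi', ?_⟩
      rw [e1]
      exact .move hr (by rw [hI]; rfl) ((P.turn T).next_read x hI y)
    | push g u' =>
      obtain ⟨e1, e2⟩ := P.tj_push x rfl hi
      rw [e2, List.length_cons, ← hi'] at ht
      have hlt : i.val + 1 < Fintype.card P.S + 1 := by
        have := m.isLt
        omega
      have hI : (P.turn T).instr (.inn k q s₀ m (P.tj x s₀ t).1 i) =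
          .jump (.inn k q s₀ m u' ⟨i.val + 1, hlt⟩) := by
        rw [P.turn_instr]
        simp only [tI, hi]
        rw [if_neg (by omega), dif_pos hlt]
        rfl
      refine ⟨⟨i.val + 1, hlt⟩, by rw [e2, List.length_cons]; exact congrArg (· + 1) hi', ?_⟩
      rw [e1]
      exact .move hr (by rw [hI]; rfl) ((P.turn T).next_jump x hI y)
    | pop f =>
      have e := P.tj_stay x s₀ hi 1
      exact ⟨i, by rw [e]; exact hi', by rw [e]; exact hr⟩

/-- The simulating program pops one symbol of a segment. -/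
theorem pop_seg {T j : ℕ} {y : List (P.S × Fin (Fintype.card P.S + 1))} {k : Fin (T + 1)}
    {q s₀ : P.S} {m : Fin (Fintype.card P.S + 1)} {f : P.Γ → P.S} {g : P.Γ} {w : List P.Γ} {t : ℕ}
    (h : (P.turn T).Reach x j (.dn k q s₀ m) y) (hq : P.instr q = .pop f)
    (hm : (P.tj x s₀ t).2.length = m.val) (hg : (P.tj x s₀ t).2 = g :: w) :
    ∃ (m' : Fin (Fintype.card P.S + 1)) (t' : ℕ), (P.tj x s₀ t').2 = w ∧ w.length = m'.val ∧
      (P.turn T).Reach x j (.dn k (f g) s₀ m') y := by
  have hm0 : m.val = w.length + 1 := by rw [← hm, hg, List.length_cons]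
  obtain ⟨t', s', ht', hi, hw⟩ := P.tj_last x s₀ hg
  have h1 : (P.turn T).Reach x j (.inn k q s₀ m s₀ 0) y := by
    have hI : (P.turn T).instr (.dn k q s₀ m) = .jump (.inn k q s₀ m s₀ 0) := by
      rw [P.turn_instr]
      simp only [tI, hq]
      rw [if_neg (by omega)]
      rfl
    exact .move h (by rw [hI]; rfl) ((P.turn T).next_jump x hI y)
  obtain ⟨i, hi', hr⟩ := P.inn_walk x h1 t' (by rw [hw]; omega)
  refine ⟨i, t', hw, by rw [hi', hw], ?_⟩
  have hI : (P.turn T).instr (.inn k q s₀ m (P.tj x s₀ t').1 i) = .jump (.dn k (f g) s₀ i) := by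
    rw [P.turn_instr]
    simp only [tI, hi]
    rw [if_pos (by rw [hi', hw]; omega), hq]
    rfl
  exact .move hr (by rw [hI]; rfl) ((P.turn T).next_jump x hI y)

/-- What a configuration of the program means for the simulating program. -/
inductive CInv (T : ℕ) (k : ℕ) (b : Bool) (s : P.S) (z : List P.Γ) : Prop
  | up (j : ℕ) (kk : Fin (T + 1)) (s₀ : P.S) (t : ℕ) (z₀ : List P.Γ)
      (y : List (P.S × Fin (Fintype.card P.S + 1))) (hk : kk.val = k)
      (hs : (P.tj x s₀ t).1 = s) (hz : z = (P.tj x s₀ t).2 ++ z₀)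
      (hr : (P.turn T).Reach x j (.up kk s₀ s₀ 0) y) (hy : P.Rep x y z₀)
      (hb : ((P.tj x s₀ t).2 = [] ∧ z₀ = []) ∨ ((P.tj x s₀ t).2 ≠ [] ∧ b = true))
      (hj : j + y.length ≤ 2 * k)
  | dn (j : ℕ) (kk : Fin (T + 1)) (s₀ : P.S) (m : Fin (Fintype.card P.S + 1)) (t : ℕ)
      (z₀ : List P.Γ) (y : List (P.S × Fin (Fintype.card P.S + 1))) (hk : kk.val = k)
      (hm : (P.tj x s₀ t).2.length = m.val) (hz : z = (P.tj x s₀ t).2 ++ z₀)
      (hr : (P.turn T).Reach x j (.dn kk s s₀ m) y) (hy : P.Rep x y z₀) (hb : b = false)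
      (hj : j + y.length + 2 ≤ 2 * k)

/-- Pop in the mode `dn`. -/
theorem CInv_pop {T j : ℕ} {kk : Fin (T + 1)} {s s₀ : P.S} {m : Fin (Fintype.card P.S + 1)} {t : ℕ}
    {z₀ z : List P.Γ} {y : List (P.S × Fin (Fintype.card P.S + 1))} {f : P.Γ → P.S} {g : P.Γ}
    (hi : P.instr s = .pop f) (hm : (P.tj x s₀ t).2.length = m.val)
    (hz : g :: z = (P.tj x s₀ t).2 ++ z₀) (hr : (P.turn T).Reach x j (.dn kk s s₀ m) y)
    (hy : P.Rep x y z₀) (hj : j + y.length + 2 ≤ 2 * kk.val) : P.CInv x T kk.val false (f g) z := by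
  cases hw : (P.tj x s₀ t).2 with
  | cons g' w =>
    rw [hw] at hz
    simp only [List.cons_append, List.cons.injEq] at hz
    obtain ⟨rfl, rfl⟩ := hz
    obtain ⟨m', t', h1, h2, h3⟩ := P.pop_seg x hr hi hm hw
    exact .dn j kk s₀ m' t' z₀ y rfl (by rw [h1]; exact h2) (by rw [h1]) h3 hy rfl hj
  | nil =>
    rw [hw] at hz hm
    simp only [List.nil_append] at hz
    have hm0 : m.val = 0 := hm.symm
    cases hy with
    | nil => cases hz
    | @cons s' t' m' y' z' h1 h2 h3 =>
      have h4 : (P.turn T).Reach x (j + 1) (.dn kk s s' m') y' := by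
        have hI : (P.turn T).instr (.dn kk s s₀ m) = .pop fun g => .dn kk s g.1 g.2 := by
          rw [P.turn_instr]
          simp only [tI, hi]
          rw [if_pos hm0]
          rfl
        exact .op hr (by rw [hI]; rfl) ((P.turn T).next_pop x hI (s', m') y')
      cases hw' : (P.tj x s' t').2 with
      | nil => rw [hw'] at h1; simp only [List.length_nil] at h1; omega
      | cons g' w =>
        rw [hw'] at hz
        simp only [List.cons_append, List.cons.injEq] at hz
        obtain ⟨rfl, rfl⟩ := hz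
        obtain ⟨m'', t'', h5, h6, h7⟩ := P.pop_seg x h4 hi h1 hw'
        refine .dn (j + 1) kk s' m'' t'' z' y' rfl (by rw [h5]; exact h6) (by rw [h5]) h7 h3 rfl ?_
        simp only [List.length_cons] at hj
        omega

/-- Completeness. -/
theorem CInv_of_reach {T k : ℕ} {b : Bool} {s : P.S} {z : List P.Γ}
    (h : P.TReach x k b s z) (hk : k ≤ T) : P.CInv x T k b s z := by
  induction h with
  | start =>
    exact .up 0 0 P.start 0 [] [] rfl rfl rfl .start .nil (Or.inl ⟨rfl, rfl⟩) le_rfl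
  | @jump k b s s' z hp hi ih =>
    rcases ih hk with ⟨j, kk, s₀, t, z₀, y, hkk, hs, hz, hr, hy, hb, hj⟩ |
      ⟨j, kk, s₀, m, t, z₀, y, hkk, hm, hz, hr, hy, hb, hj⟩
    · obtain ⟨e1, e2⟩ := P.tj_jump x hs hi
      exact .up j kk s₀ (t + 1) z₀ y hkk e1 (by rw [e2]; exact hz) hr hy (by rw [e2]; exact hb) hj
    · have hI : (P.turn T).instr (.dn kk s s₀ m) = .jump (.dn kk s' s₀ m) := by
        rw [P.turn_instr]
        simp only [tI, hi]
        rfl
      exact .dn j kk s₀ m t z₀ y hkk hm hz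
        (.move hr (by rw [hI]; rfl) ((P.turn T).next_jump x hI y)) hy hb hj
  | @read k b s i f z hp hi ih =>
    rcases ih hk with ⟨j, kk, s₀, t, z₀, y, hkk, hs, hz, hr, hy, hb, hj⟩ |
      ⟨j, kk, s₀, m, t, z₀, y, hkk, hm, hz, hr, hy, hb, hj⟩
    · obtain ⟨e1, e2⟩ := P.tj_read x hs hi
      exact .up j kk s₀ (t + 1) z₀ y hkk e1 (by rw [e2]; exact hz) hr hy (by rw [e2]; exact hb) hj
    · have hI : (P.turn T).instr (.dn kk s s₀ m) = .read i fun a => .dn kk (f a) s₀ m := by
        rw [P.turn_instr]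
        simp only [tI, hi]
        rfl
      exact .dn j kk s₀ m t z₀ y hkk hm hz
        (.move hr (by rw [hI]; rfl) ((P.turn T).next_read x hI y)) hy hb hj
  | @push k b s s' g z hp hi ih =>
    rcases ih hk with ⟨j, kk, s₀, t, z₀, y, hkk, hs, hz, hr, hy, hb, hj⟩ |
      ⟨j, kk, s₀, m, t, z₀, y, hkk, hm, hz, hr, hy, hb, hj⟩
    · obtain ⟨e1, e2⟩ := P.tj_push x hs hi
      exact .up j kk s₀ (t + 1) z₀ y hkk e1 (by rw [e2, hz]; rfl) hr hy
        (Or.inr ⟨by rw [e2]; exact List.cons_ne_nil _ _, rfl⟩) hj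
    · obtain ⟨e1, e2⟩ := P.tj_push x (s := s) (t := 0) rfl hi
      by_cases hm0 : m.val = 0
      · have hI : (P.turn T).instr (.dn kk s s₀ m) = .jump (.up kk s s 0) := by
          rw [P.turn_instr]
          simp only [tI, hi]
          rw [if_pos hm0]
          rfl
        have e : (P.tj x s₀ t).2 = [] := List.length_eq_zero_iff.1 (hm.trans hm0)
        refine .up j kk s 1 z₀ y hkk e1 ?_
          (.move hr (by rw [hI]; rfl) ((P.turn T).next_jump x hI y)) hy
          (Or.inr ⟨by rw [e2]; exact List.cons_ne_nil _ _, rfl⟩) (by omega)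
        rw [e2, hz, e]
        rfl
      · have hI : (P.turn T).instr (.dn kk s s₀ m) = .push (s₀, m) (.up kk s s 0) := by
          rw [P.turn_instr]
          simp only [tI, hi]
          rw [if_neg hm0]
          rfl
        refine .up (j + 1) kk s 1 z ((s₀, m) :: y) hkk e1 ?_
          (.op hr (by rw [hI]; rfl) ((P.turn T).next_push x hI y)) ?_
          (Or.inr ⟨by rw [e2]; exact List.cons_ne_nil _ _, rfl⟩) ?_
        · rw [e2]
          rfl
        · rw [hz]
          exact .cons hm (by omega) hy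
        · simp only [List.length_cons]
          omega
  | @pop k b s f g z hp hi ih =>
    have hk' : k ≤ T := (le_tn b k).trans hk
    rcases ih hk' with ⟨j, kk, s₀, t, z₀, y, hkk, hs, hz, hr, hy, hb, hj⟩ |
      ⟨j, kk, s₀, m, t, z₀, y, hkk, hm, hz, hr, hy, hb, hj⟩
    · rcases hb with ⟨h1, h2⟩ | ⟨h1, h2⟩
      · rw [h1, h2] at hz
        cases hz
      · subst h2
        have hkT : k + 1 ≤ T := by simpa [tn] using hk
        obtain ⟨t', ht', he⟩ := P.tj_pop x s₀ (t := t) (f := f) (by rw [hs]; exact hi)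
        obtain ⟨m, hm, hr'⟩ := P.up_walk x hr t' ht'
        rw [he, hs] at hr'
        rw [he] at hm
        have hlt : kk.val + 1 < T + 1 := by omega
        have hI : (P.turn T).instr (.up kk s₀ s m) = .jump (.dn ⟨kk.val + 1, hlt⟩ s s₀ m) := by
          rw [P.turn_instr]
          simp only [tI, hi]
          rw [dif_pos hlt]
          rfl
        have hr'' : (P.turn T).Reach x j (.dn ⟨kk.val + 1, hlt⟩ s s₀ m) y :=
          .move hr' (by rw [hI]; rfl) ((P.turn T).next_jump x hI y)
        have := P.CInv_pop x hi hm.symm hz hr'' hy (by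
          change j + y.length + 2 ≤ 2 * (kk.val + 1)
          omega)
        have e : tn true k = kk.val + 1 := by simp [tn, hkk]
        rw [e]
        exact this
    · subst hb
      have := P.CInv_pop x hi hm hz hr hy (by rw [hkk]; exact hj)
      have e : tn false k = kk.val := by simp [tn, hkk]
      rw [e]
      exact this

/-- Completeness. -/
theorem turn_complete {T : ℕ} (h : P.AcceptsTurns x T) : (P.turn T).AcceptsOps x (2 * T) := by
  obtain ⟨k, hk, b, s, z, hr, ha⟩ := h
  rcases P.CInv_of_reach x hr hk with ⟨j, kk, s₀, t, z₀, y, hkk, hs, hz, hr, hy, hb, hj⟩ |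
    ⟨j, kk, s₀, m, t, z₀, y, hkk, hm, hz, hr, hy, hb, hj⟩
  · obtain ⟨t', ht', he⟩ := P.tj_node x s₀ t
    obtain ⟨m, hm, hr'⟩ := P.up_walk x hr t' ht'
    rw [he, hs] at hr'
    exact ⟨j, by omega, _, _, hr', ha⟩
  · exact ⟨j, by omega, _, _, hr, ha⟩

theorem turn_accepts (T : ℕ) : (P.turn T).AcceptsOps x (2 * T) ↔ P.AcceptsTurns x T :=
  ⟨fun ⟨_, _, _, _, hr, ha⟩ => P.turn_sound x hr ha, P.turn_complete x⟩

end PushProg

end Pool.Agent.MP_6216ea_lc
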