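import Pool.Agent.Lib.MP_6216ea_lc.SQSub
import Pool.Agent.Lib.MP_6216ea_lc.SQThmU
import Pool.Agent.Lib.MP_6216ea_lc.TUComp
import Pool.Agent.Lib.MP_6216ea_lc.OPMain

/-! Deterministic pushdown programs with `T` turns of the stack have unambiguous branching programs
of size `L ^ (C sqrt (log T))`. -/

set_option autoImplicit false

namespace Pool.Agent.MP_6216ea_lc

namespace LetterNBP

/-- The constant program. -/
def cst {ι α : Type} (b : Bool) : LetterNBP ι α where
  V := Bool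
  fin := inferInstance
  edge _ _ _ := False
  source := true
  target := b

/-- Constant programs. -/
theorem exists_const {ι α : Type} [IsEmpty ι] (p : (ι → α) → Prop) : ∃ B : LetterNBP ι α,
    Fintype.card B.V ≤ 2 ∧ B.Unambiguous ∧ B.QueriesAtMost 0 ∧ ∀ x, B.Accepts x ↔ p x := by
  classical
  refine ⟨cst (decide (p isEmptyElim)), le_rfl, ?_, ?_, fun x => ?_⟩
  · intro x tr tr' h h'
    have key : ∀ {tr : List (Option (ι × α) × (cst (ι := ι) (α := α)
        (decide (p isEmptyElim))).V)} {u v : (cst (ι := ι) (α := α) (decide (p isEmptyElim))).V},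
        (cst (ι := ι) (α := α) (decide (p isEmptyElim))).Comp x u tr v → tr = [] := by
      intro tr u v h
      cases h with
      | nil => rfl
      | cons he _ _ => exact he.elim
    rw [key h, key h']
  · intro x T' v h
    cases h with
    | nil => exact le_rfl
    | free _ he => exact he.elim
    | query _ _ he => exact he.elim
  · have hx : x = isEmptyElim := funext fun i => isEmptyElim i
    constructor
    · rintro ⟨T, h⟩
      generalize hv : (cst (ι := ι) (α := α) (decide (p isEmptyElim))).target = v at h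
      cases h with
      | nil =>
        have h1 : decide (p isEmptyElim) = true := hv
        rw [hx]
        exact of_decide_eq_true h1
      | free _ he => exact he.elim
      | query _ _ he => exact he.elim
    · intro hp
      rw [hx] at hp
      have h1 : decide (p isEmptyElim) = true := decide_eq_true hp
      rw [h1]
      exact ⟨0, .nil _⟩

end LetterNBP

/-- Numerics. -/
theorem sq_gen {C : ℝ} (hC : 0 ≤ C) {L T T₁ S e m c : ℕ} (hL : 2 ≤ L) (hT : 2 ≤ T)
    (hc : 1 ≤ c) (hT₁ : T₁ ≤ T ^ c)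
    (hS : (S : ℝ) ≤ ((L ^ e : ℕ) : ℝ) ^ (C * Real.sqrt (Real.log T₁))) :
    ((S * L ^ m : ℕ) : ℝ) ≤ (L : ℝ) ^ ((e * C * c + 2 * m) * Real.sqrt (Real.log T)) := by
  have hL' : (2 : ℝ) ≤ L := by exact_mod_cast hL
  have hL0 : (0 : ℝ) < L := by linarith
  have hT' : (2 : ℝ) ≤ T := by exact_mod_cast hT
  have hc' : (1 : ℝ) ≤ c := by exact_mod_cast hc
  have hlT : Real.log 2 ≤ Real.log T := Real.log_le_log (by norm_num) hT'
  have hl2 : (0.6931 : ℝ) < Real.log 2 := by have := Real.log_two_gt_d9; linarith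
  have hlT0 : 0 ≤ Real.log T := by linarith
  obtain ⟨q, hq⟩ : ∃ q, q = Real.sqrt (Real.log T) := ⟨_, rfl⟩
  have hq0 : 0 ≤ q := by rw [hq]; exact Real.sqrt_nonneg _
  have hq1 : 1 ≤ 2 * q := by
    have h1 : Real.sqrt (1 / 4) ≤ q := by rw [hq]; exact Real.sqrt_le_sqrt (by linarith)
    have h2 : Real.sqrt (1 / 4) = 1 / 2 := by
      rw [show (1 / 4 : ℝ) = (1 / 2) ^ 2 by norm_num, Real.sqrt_sq (by norm_num)]
    rw [h2] at h1
    linarith
  have h1 : Real.sqrt (Real.log T₁) ≤ c * q := by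
    have h2 : Real.log T₁ ≤ c * Real.log T := by
      rcases Nat.eq_zero_or_pos T₁ with h0 | h0
      · subst h0
        simp only [Nat.cast_zero, Real.log_zero]
        positivity
      · rw [← Real.log_pow]
        exact Real.log_le_log (by exact_mod_cast h0) (by exact_mod_cast hT₁)
    have h3 : Real.log T₁ ≤ c ^ 2 * Real.log T := by
      refine h2.trans (mul_le_mul_of_nonneg_right ?_ hlT0)
      nlinarith
    calc Real.sqrt (Real.log T₁) ≤ Real.sqrt (c ^ 2 * Real.log T) := Real.sqrt_le_sqrt h3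
      _ = c * q := by rw [Real.sqrt_mul (by positivity), Real.sqrt_sq (by linarith), hq]
  have h3 : ((L ^ e : ℕ) : ℝ) = (L : ℝ) ^ (e : ℝ) := by
    push_cast
    rw [Real.rpow_natCast]
  have h4 : (S : ℝ) ≤ (L : ℝ) ^ (e * C * c * q) := by
    refine hS.trans ?_
    rw [h3, ← Real.rpow_mul hL0.le]
    apply Real.rpow_le_rpow_of_exponent_le (by linarith)
    have he : (0 : ℝ) ≤ e := Nat.cast_nonneg e
    calc (e : ℝ) * (C * Real.sqrt (Real.log T₁)) ≤ e * (C * (c * q)) := by gcongr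
      _ = e * C * c * q := by ring
  have h5 : ((L ^ m : ℕ) : ℝ) ≤ (L : ℝ) ^ (2 * m * q) := by
    push_cast
    rw [← Real.rpow_natCast]
    apply Real.rpow_le_rpow_of_exponent_le (by linarith)
    have hm : (0 : ℝ) ≤ m := Nat.cast_nonneg m
    nlinarith
  rw [← hq]
  calc ((S * L ^ m : ℕ) : ℝ) = (S : ℝ) * ((L ^ m : ℕ) : ℝ) := by push_cast; ring
    _ ≤ (L : ℝ) ^ (e * C * c * q) * (L : ℝ) ^ (2 * m * q) := by gcongr
    _ = (L : ℝ) ^ ((e * C * c + 2 * m) * q) := by
        rw [← Real.rpow_add hL0]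
        congr 1
        ring

/-- At most `T` stack operations (and any number of other steps). -/
theorem ops_sqrtU : ∃ C : ℝ, 0 < C ∧ ∀ (ι α : Type) (P : PushProg ι α) (T L : ℕ), 2 ≤ T → T ≤ L →
    Fintype.card P.S ≤ L → ∀ y : Bool, ∃ B : LetterNBP ι α,
      (Fintype.card B.V : ℝ) ≤ (L : ℝ) ^ (C * Real.sqrt (Real.log T)) ∧
      B.Unambiguous ∧ B.QueriesAtMost (L ^ 212) ∧
      ∀ x, B.Accepts x ↔ (P.AcceptsOps x T ↔ y = true) := by
  classical
  refine ⟨(3 : ℕ) * 45420 * (3 : ℕ) + 2 * (4 : ℕ), by positivity, ?_⟩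
  intro ι α P T L hT hTL hS y
  have hL : 2 ≤ L := hT.trans hTL
  have hL3 : 4 * L ≤ L ^ 3 := by
    calc 4 * L = 2 ^ 2 * L := by norm_num
      _ ≤ L ^ 2 * L := Nat.mul_le_mul_right _ (Nat.pow_le_pow_left hL 2)
      _ = L ^ 3 := by ring
  have hT3 : 4 * T ≤ T ^ 3 := by
    calc 4 * T = 2 ^ 2 * T := by norm_num
      _ ≤ T ^ 2 * T := Nat.mul_le_mul_right _ (Nat.pow_le_pow_left hT 2)
      _ = T ^ 3 := by ring
  have hcard : Fintype.card P.sm.S ≤ L ^ 3 := by
    change Fintype.card (P.S ⊕ P.S) ≤ _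
    rw [Fintype.card_sum]
    omega
  obtain ⟨B, hB, hU, hQ, hacc⟩ := SQ.push_sqrtU P.sm (2 * T + 1) (L ^ 3) (by omega) (by omega)
    hcard y
  rcases isEmpty_or_nonempty ι with hι | ⟨⟨i₀⟩⟩
  · obtain ⟨B', hB', hU', hQ', hacc'⟩ := LetterNBP.exists_const
      fun x : ι → α => (P.AcceptsOps x T ↔ y = true)
    refine ⟨B', ?_, hU', fun x T' v h => (hQ' x T' v h).trans (Nat.zero_le _), hacc'⟩
    have h1 : 1 ≤ Fintype.card B.V := Fintype.card_pos_iff.2 ⟨B.source⟩
    have h2 : Fintype.card B'.V ≤ Fintype.card B.V * L ^ 4 := by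
      calc Fintype.card B'.V ≤ 2 := hB'
        _ ≤ L ^ 4 := by
          calc 2 ≤ L := hL
            _ ≤ L ^ 4 := Nat.le_self_pow (by norm_num) L
        _ = 1 * L ^ 4 := (one_mul _).symm
        _ ≤ _ := Nat.mul_le_mul_right _ h1
    refine le_trans (by exact_mod_cast h2) (sq_gen (m := 4) (c := 3) (e := 3) (by norm_num) hL hT
      (by norm_num) (by omega) hB)
  · refine ⟨B.sbst (P.mv i₀) id id (Fintype.card P.S), ?_,
      LetterNBP.sbst_unambiguous B _ _ _ _ hU, ?_, fun x => ?_⟩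
    · rw [LetterNBP.sbst_card]
      have h2 : Fintype.card B.V * (1 + Fintype.card P.S *
          (Fintype.card P.S * (Fintype.card P.S + 1))) ≤ Fintype.card B.V * L ^ 4 := by
        apply Nat.mul_le_mul_left
        calc 1 + Fintype.card P.S * (Fintype.card P.S * (Fintype.card P.S + 1))
            ≤ 1 + L * (L * (L + 1)) := by gcongr
          _ = L ^ 3 + (L ^ 2 + 1) := by ring
          _ ≤ L ^ 3 + L ^ 3 := by
              have : L ^ 3 = L * L ^ 2 := by ring
              have h4 : 4 ≤ L ^ 2 := by nlinarith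
              have h5 : 2 * L ^ 2 ≤ L * L ^ 2 := Nat.mul_le_mul_right _ hL
              omega
          _ = 2 * L ^ 3 := by ring
          _ ≤ L * L ^ 3 := Nat.mul_le_mul_right _ hL
          _ = L ^ 4 := by ring
      refine le_trans (by exact_mod_cast h2) (sq_gen (m := 4) (c := 3) (e := 3) (by norm_num) hL hT
        (by norm_num) (by omega) hB)
    · intro x T' v h
      refine (LetterNBP.sbst_queries B (P.mv i₀) id id (Fintype.card P.S) hQ x T' v h).trans ?_
      calc ((2 * T + 1) ^ 70 + 1) * Fintype.card P.S ≤ ((L ^ 3) ^ 70 + 1) * L := by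
            have : 2 * T + 1 ≤ L ^ 3 := by omega
            gcongr
        _ ≤ ((L ^ 3) ^ 70 + (L ^ 3) ^ 70) * L := by
            gcongr
            exact Nat.one_le_pow _ _ (by positivity)
        _ = 2 * L ^ 211 := by rw [← pow_mul]; ring
        _ ≤ L * L ^ 211 := Nat.mul_le_mul_right _ hL
        _ = L ^ 212 := by ring
    · rw [LetterNBP.sbst_accepts, hacc]
      have h1 : LetterNBP.ltr (P.mv i₀) id id (Fintype.card P.S) x = P.fin' x := by
        funext k
        unfold LetterNBP.ltr PushProg.fin'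
        rw [P.wlk_mv]
        rfl
      rw [h1, P.sm_accepts]

/-- The number of nodes of the program with segments. -/
theorem turn_card {ι α : Type} (P : PushProg ι α) {T L : ℕ} (hL : 2 ≤ L) (hTL : T ≤ L)
    (hS : Fintype.card P.S ≤ L) : Fintype.card (P.turn T).S ≤ L ^ 10 := by
  change Fintype.card (TNode P.S T (Fintype.card P.S)) ≤ _
  refine TNode.card_le.trans ?_
  have h1 : L + 1 ≤ L ^ 2 := by nlinarith
  have h2 : T + 1 ≤ L ^ 2 := by omega
  have h3 : Fintype.card P.S + 1 ≤ L ^ 2 := by omega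
  calc 2 * ((T + 1) * (Fintype.card P.S * (Fintype.card P.S * (Fintype.card P.S + 1)))) +
      (T + 1) * (Fintype.card P.S * (Fintype.card P.S * ((Fintype.card P.S + 1) *
        (Fintype.card P.S * (Fintype.card P.S + 1))))) + 1
      ≤ 2 * (L ^ 2 * (L * (L * L ^ 2))) + L ^ 2 * (L * (L * (L ^ 2 * (L * L ^ 2)))) + 1 := by
        gcongr
    _ = 2 * L ^ 6 + L ^ 9 + 1 := by ring
    _ ≤ L ^ 9 + L ^ 9 := by
        have h4 : L ^ 9 = L ^ 3 * L ^ 6 := by ring
        have h5 : 8 * L ^ 6 ≤ L ^ 3 * L ^ 6 :=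
          Nat.mul_le_mul_right _ (by
            calc 8 = 2 ^ 3 := by norm_num
              _ ≤ L ^ 3 := Nat.pow_le_pow_left hL 3)
        have h6 : 1 ≤ L ^ 6 := Nat.one_le_pow _ _ (by omega)
        omega
    _ = 2 * L ^ 9 := by ring
    _ ≤ L * L ^ 9 := Nat.mul_le_mul_right _ hL
    _ = L ^ 10 := by ring

/-- At most `T` turns of the stack (and any number of pushes, pops and other steps). -/
theorem turns_sqrtU : ∃ C : ℝ, 0 < C ∧ ∀ (ι α : Type) (P : PushProg ι α) (T L : ℕ), 2 ≤ T →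
    T ≤ L → Fintype.card P.S ≤ L → ∀ y : Bool, ∃ B : LetterNBP ι α,
      (Fintype.card B.V : ℝ) ≤ (L : ℝ) ^ (C * Real.sqrt (Real.log T)) ∧
      B.Unambiguous ∧ B.QueriesAtMost (L ^ 2120) ∧
      ∀ x, B.Accepts x ↔ (P.AcceptsTurns x T ↔ y = true) := by
  obtain ⟨C, hC, hmain⟩ := ops_sqrtU
  refine ⟨(10 : ℕ) * C * (2 : ℕ) + 2 * (0 : ℕ), by positivity, ?_⟩
  intro ι α P T L hT hTL hS y
  have hL : 2 ≤ L := hT.trans hTL
  have h1 : 2 * T ≤ L ^ 10 := by
    calc 2 * T ≤ L * L := Nat.mul_le_mul hL hTL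
      _ = L ^ 2 := by ring
      _ ≤ L ^ 10 := Nat.pow_le_pow_right (by omega) (by norm_num)
  obtain ⟨B, hB, hU, hQ, hacc⟩ := hmain ι α (P.turn T) (2 * T) (L ^ 10) (by omega) h1
    (turn_card P hL hTL hS) y
  refine ⟨B, ?_, hU, ?_, fun x => ?_⟩
  · have h2 := sq_gen (m := 0) (c := 2) (e := 10) hC.le hL hT (by norm_num)
      (by calc 2 * T ≤ T * T := Nat.mul_le_mul_right _ hT
            _ = T ^ 2 := by ring) hB
    simpa using h2
  · intro x T' v h
    refine (hQ x T' v h).trans (le_of_eq ?_)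
    rw [← pow_mul]
  · rw [hacc x, P.turn_accepts]

end Pool.Agent.MP_6216ea_lc
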