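import Pool.Agent.Lib.MP_6216ea_lc.TNTop
import Pool.Agent.Lib.MP_6216ea_lc.NDMain
import Pool.Agent.Lib.MP_6216ea_lc.SQTurns

/-! Nondeterministic pushdown programs whose stack is used with few turns and few guesses above a
height: branching programs of size `2 ^ r (|Γ| + 1) ^ h L ^ (C sqrt (log T))`. -/

set_option autoImplicit false

namespace Pool.Agent.MP_6216ea_lc

/-- Let `P` be a nondeterministic pushdown program with at most `L` nodes. The inputs accepted by
computations in which each part above the height `h` has at most `T` turns, `2 ≤ T ≤ L`, and at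
most `r ≤ L` guesses have a nondeterministic branching program of size
`2 ^ r (|Γ| + 1) ^ h L ^ (C sqrt (log T))`. -/
theorem nd_sqrt : ∃ C : ℝ, 0 < C ∧ ∀ (ι α : Type) (P : NPushProg ι α) (h T r L : ℕ), 2 ≤ T →
    T ≤ L → Fintype.card P.S ≤ L → r ≤ L → ∃ B : LetterNBP ι α,
      (Fintype.card B.V : ℝ) ≤ 2 ^ r * ((Fintype.card P.Γ : ℝ) + 1) ^ h *
        (L : ℝ) ^ (C * Real.sqrt (Real.log T)) ∧
        ∀ x, B.Accepts x ↔ P.TAccepts h T r x := by
  classical
  obtain ⟨C, hC, hmain⟩ := turns_sqrtU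
  refine ⟨(4 : ℕ) * C * (1 : ℕ) + 2 * (6 : ℕ), by positivity, ?_⟩
  intro ι α P h T r L hT hTL hS hr
  have hL : 2 ≤ L := hT.trans hTL
  have hL2 : 4 ≤ L ^ 2 := by nlinarith
  have hL1 : L + 1 ≤ L ^ 2 := by nlinarith
  have hL4 : L ^ 2 ≤ L ^ 4 := Nat.pow_le_pow_right (by omega) (by norm_num)
  have hTL4 : T ≤ L ^ 4 := by omega
  -- the programs of the conditions
  have hQ : ∀ m : P.Mac r, ∃ B : LetterNBP ι α,
      (Fintype.card B.V : ℝ) ≤ ((L ^ 4 : ℕ) : ℝ) ^ (C * Real.sqrt (Real.log T)) ∧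
      ∀ s₁ g₁, P.instr m.1 = .push g₁ s₁ → ∀ x,
        (B.Accepts x ↔ (P.exc r s₁ g₁ (NPushProg.ext' m.2.1) m.2.2).AcceptsTurns x T) := by
    rintro ⟨s, b, o⟩
    by_cases hp : ∃ g₁ s₁, P.instr s = .push g₁ s₁
    · obtain ⟨g₁, s₁, hp⟩ := hp
      have hcard : Fintype.card (P.exc r s₁ g₁ (NPushProg.ext' b) o).S ≤ L ^ 4 := by
        change Fintype.card (Option (Option (P.S ⊕ (P.S × Fin (r + 1))))) ≤ _
        rw [Fintype.card_option, Fintype.card_option, Fintype.card_sum, Fintype.card_prod,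
          Fintype.card_fin]
        have h1 : Fintype.card P.S * (r + 1) ≤ L * (L + 1) := by gcongr
        have h2 : L ^ 4 = L ^ 2 * L ^ 2 := by ring
        nlinarith
      obtain ⟨B, hB, -, -, hacc⟩ := hmain ι α (P.exc r s₁ g₁ (NPushProg.ext' b) o) T (L ^ 4)
        hT hTL4 hcard true
      refine ⟨B, hB, fun s₁' g₁' hp' x => ?_⟩
      simp only at hp'
      rw [hp] at hp'
      obtain ⟨h1, h2⟩ := NInstr.push.inj hp'
      subst h1
      subst h2
      rw [hacc x]
      simp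
    · obtain ⟨B, hB, -⟩ := hmain ι α ⟨Unit, Unit, inferInstance, fun _ => .jump (), (),
        fun _ => true⟩ T (L ^ 4) hT hTL4 (by rw [Fintype.card_unit]; omega) true
      exact ⟨B, hB, fun s₁ g₁ hp' => absurd ⟨g₁, s₁, hp'⟩ hp⟩
  choose D hD1 hD2 using hQ
  have hgood : ∀ x, P.TGood T r D x := by
    intro x s s₁ g₁ b o hi
    exact hD2 (s, b, o) s₁ g₁ hi x
  refine ⟨expand (P.UEdge h r) D (P.lowStart h) none, ?_, fun x => ?_⟩
  · -- the size
    obtain ⟨S, hS1, hS2⟩ : ∃ S : ℕ, (∀ m, Fintype.card (D m).V ≤ S) ∧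
        (S : ℝ) ≤ ((L ^ 4 : ℕ) : ℝ) ^ (C * Real.sqrt (Real.log T)) := by
      refine ⟨Finset.univ.sup fun m => Fintype.card (D m).V, fun m =>
        Finset.le_sup (f := fun m => Fintype.card (D m).V) (Finset.mem_univ m), ?_⟩
      have hne : (Finset.univ : Finset (P.Mac r)).Nonempty :=
        ⟨(P.start, fun _ => false, none), Finset.mem_univ _⟩
      obtain ⟨m, -, hm⟩ := Finset.exists_mem_eq_sup _ hne fun m => Fintype.card (D m).V
      rw [hm]
      exact hD1 m
    have h1 := expand_card (P.UEdge h r) D (P.lowStart h) none (B := S) hS1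
    have hS1' : 1 ≤ S := lt_of_lt_of_le
      (Fintype.card_pos_iff.2 ⟨(D (P.start, fun _ => false, none)).source⟩)
      (hS1 (P.start, fun _ => false, none))
    obtain ⟨G, hG⟩ : ∃ G, G = (Fintype.card P.Γ + 1) ^ h := ⟨_, rfl⟩
    have hG1 : 1 ≤ G := by rw [hG]; exact Nat.one_le_pow _ _ (by omega)
    have h2r : 1 ≤ 2 ^ r := Nat.one_le_two_pow
    have hV : Fintype.card (Option (P.Low h)) ≤ 2 * L * G := by
      rw [Fintype.card_option]
      have h2 := P.card_low h
      rw [← hG] at h2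
      have h3 : Fintype.card P.S * G ≤ L * G := Nat.mul_le_mul_right _ hS
      have h4 : 1 ≤ L * G := Nat.mul_pos (by omega) hG1
      calc Fintype.card (P.Low h) + 1 ≤ L * G + L * G := by omega
        _ = 2 * L * G := by ring
    have hM : Fintype.card (P.Mac r) ≤ L * (L + 1) * 2 ^ r := by
      change Fintype.card (P.S × (Fin r → Bool) × Option P.S) ≤ _
      rw [Fintype.card_prod, Fintype.card_prod, Fintype.card_option, Fintype.card_fun,
        Fintype.card_bool, Fintype.card_fin]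
      calc Fintype.card P.S * (2 ^ r * (Fintype.card P.S + 1)) ≤ L * (2 ^ r * (L + 1)) := by
            gcongr
        _ = L * (L + 1) * 2 ^ r := by ring
    have h5 : Fintype.card (expand (P.UEdge h r) D (P.lowStart h) none).V ≤
        2 ^ r * G * (S * L ^ 6) := by
      refine h1.trans ?_
      calc Fintype.card (Option (P.Low h)) * (1 + Fintype.card (P.Mac r) * S)
          ≤ (2 * L * G) * (1 + (L * (L + 1) * 2 ^ r) * S) := by gcongr
        _ ≤ (2 * L * G) * (L * (L + 1) * 2 ^ r * S + (L * (L + 1) * 2 ^ r) * S) := by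
            gcongr
            exact Nat.mul_pos (Nat.mul_pos (Nat.mul_pos (by omega) (by omega)) h2r) hS1'
        _ = 2 ^ r * G * (S * (4 * L ^ 2 * (L + 1))) := by ring
        _ ≤ 2 ^ r * G * (S * (L ^ 2 * L ^ 2 * L ^ 2)) := by gcongr
        _ = 2 ^ r * G * (S * L ^ 6) := by ring
    have h6 := sq_gen (m := 6) (c := 1) (e := 4) hC.le hL hT le_rfl
      (show T ≤ T ^ 1 by rw [pow_one]) hS2
    calc (Fintype.card (expand (P.UEdge h r) D (P.lowStart h) none).V : ℝ)
        ≤ ((2 ^ r * G * (S * L ^ 6) : ℕ) : ℝ) := by exact_mod_cast h5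
      _ = 2 ^ r * ((Fintype.card P.Γ : ℝ) + 1) ^ h * ((S * L ^ 6 : ℕ) : ℝ) := by
          rw [hG]; push_cast; ring
      _ ≤ _ := by gcongr
  · rw [expand_accepts]
    exact NPushProg.ttop_iff (hgood x)

end Pool.Agent.MP_6216ea_lc
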