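import Pool.Agent.Lib.MP_6216ea_lc.SQFp
import Pool.Agent.Lib.MP_6216ea_lc.DCThmA

/-! The program of one composite level: every use of a question or of an answer is a guess which
is added to a register; all uses are verified at once. -/

set_option autoImplicit false

namespace Pool.Agent.MP_6216ea_lc

namespace SQ

open Ins Pass

/-- The memory of one composite level: the clear cell `c`, question `q`, answer `a`, one
fingerprint `φ` for each register, the registers `r`, memory `w` of the lower levels. -/
@[ext]
structure St (X Md F W : Type) (m : ℕ) : Type where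
  c : X
  q : X
  a : X
  φ : Fin m → F
  r : Fin m → Md
  w : W

/-- The hooks: store the fingerprint of register `(i, j)`; remove `u` copies of the clear value
from register `(i, j)` and check; keep the clear value as the answer. -/
inductive Hk : Type where
  | store (i j : ℕ)
  | check (i j u : ℕ)
  | last

/-- The hook acts above level `i`. -/
def Above (i : ℕ) : Hk → Prop
  | .store i' _ => i < i'
  | .check i' _ _ => i < i'
  | .last => True

variable {ι α X Md F W : Type} [AddCommGroup Md] [AddCommGroup F] {m n₀ : ℕ}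
  (lv ix : Fin m → ℕ)

/-- The hook acts on the register `κ`. -/
def At (κ : Fin m) : Hk → Prop
  | .store i j => lv κ = i ∧ ix κ = j
  | .check i j _ => lv κ = i ∧ ix κ = j
  | .last => False

variable (G : MFP X Md F n₀) (d : X)

/-- The new fingerprint. -/
def hφ (h : Hk) (c : X) (κ : Fin m) (ρ : Md) (ψ : F) : F :=
  match h with
  | .store i j => if lv κ = i ∧ ix κ = j then G.χ c ρ else ψ
  | .check i j _ => if lv κ = i ∧ ix κ = j then 0 else ψ
  | .last => ψ

/-- The new register content. -/
def hr (h : Hk) (c : X) (κ : Fin m) (ρ : Md) : Md :=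
  match h with
  | .store _ _ => ρ
  | .check i j u => if lv κ = i ∧ ix κ = j then ρ - u • G.t c else ρ
  | .last => ρ

/-- The new answer. -/
def ha (h : Hk) (c a : X) : X :=
  match h with
  | .store _ _ => a
  | .check _ _ _ => a
  | .last => c

/-- The check. -/
def HC (h : Hk) (c : X) (r : Fin m → Md) (φ : Fin m → F) : Prop :=
  match h with
  | .store _ _ => True
  | .check i j u => ∀ κ, lv κ = i → ix κ = j → G.χ c (r κ - u • G.t c) = φ κ
  | .last => True

/-- The hook as a relation. -/
def hook (h : Hk) (s t : St X Md F W m) : Prop :=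
  HC lv ix G h s.c s.r s.φ ∧ t = ⟨d, s.q, ha h s.c s.a, fun κ => hφ lv ix G h s.c κ (s.r κ) (s.φ κ),
    fun κ => hr lv ix G h s.c κ (s.r κ), s.w⟩

/-- The part of the memory used by the lower levels. -/
def getL (s : St X Md F W m) : Sta X Md W m := ⟨s.c, s.w, s.r⟩

/-- Change the part used by the lower levels. -/
def putL (s : St X Md F W m) (u : Sta X Md W m) : St X Md F W m := ⟨u.c, s.q, s.a, s.φ, u.r, u.w⟩

/-- The items known before question `j`: the answers `k < j` and the question `M` of the level. -/
def InS (M j k : ℕ) : Prop := k = M ∨ k < j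

instance (M j k : ℕ) : Decidable (InS M j k) := inferInstanceAs (Decidable (k = M ∨ k < j))

/-- Add the guesses. -/
def useR (M i j : ℕ) (Y : ℕ → X) (r : Fin m → Md) : Fin m → Md :=
  fun κ => if lv κ = i ∧ InS M j (ix κ) then r κ + G.t (Y (ix κ)) else r κ

/-- The number of uses of the question of level `i`. -/
def cnt (M : ℕ) : ℕ → ℕ
  | 0 => 1
  | _ + 1 => 4 * M + 1

variable (P : ℕ → X → Prot X) (M : ℕ)

/-- Question `j` of level `i + 1`, computed from the guesses. -/
def wq (i j : ℕ) (Y : ℕ → X) : X := Prot.ask d (Prot.walk (P i (Y M)) Y j)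

/-- Begin of a call. -/
def beginI (i j : ℕ) : Ins ι α (St X Md F W m) :=
  free fun s t => ∃ Y : ℕ → X, t = ⟨d, s.q, s.a,
    fun κ => if lv κ = i ∧ ix κ = M then G.χ (wq d P M i j Y) (s.r κ) else s.φ κ,
    useR lv ix G M (i + 1) j Y s.r, s.w⟩

/-- End of a call. -/
def endI (i j : ℕ) : Ins ι α (St X Md F W m) :=
  free fun s t => ∃ Y : ℕ → X,
    (∀ κ, lv κ = i → ix κ = M → G.χ (wq d P M i j Y)
      (s.r κ - cnt M i • G.t (wq d P M i j Y)) = s.φ κ) ∧
    t = ⟨d, s.q, s.a, fun κ => if lv κ = i ∧ ix κ = M then 0 else s.φ κ,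
      fun κ => if lv κ = i ∧ ix κ = M then s.r κ - cnt M i • G.t (wq d P M i j Y)
        else useR lv ix G M (i + 1) j Y s.r κ, s.w⟩

/-- The result of level `i + 1`, computed from the guesses. -/
def midI (i : ℕ) : Ins ι α (St X Md F W m) :=
  free fun s t => ∃ Y : ℕ → X, t = ⟨Prot.res d (Prot.walk (P i (Y M)) Y M), s.q, s.a,
    fun κ => if lv κ < i + 1 then 0 else s.φ κ, useR lv ix G M (i + 1) M Y s.r, s.w⟩

/-- A call of question `j` at level `i + 1`. -/
def call (br : Hk → List (Ins ι α (St X Md F W m))) (i j : ℕ) (h : Hk) :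
    List (Ins ι α (St X Md F W m)) :=
  beginI lv ix G d P M i j :: (br h ++ [endI lv ix G d P M i j])

/-- The nested passes of level `i + 1` from item `M - n` on. -/
def nst (br : Hk → List (Ins ι α (St X Md F W m))) (i : ℕ) (h : Hk) :
    ℕ → List (Ins ι α (St X Md F W m))
  | 0 => [midI lv ix G d P M i, free (hook lv ix G d h)]
  | n + 1 => call lv ix G d P M br i (M - (n + 1)) (.store (i + 1) (M - (n + 1))) ++
      (nst br i h n ++
        call lv ix G d P M br i (M - (n + 1)) (.check (i + 1) (M - (n + 1)) (4 * n + 1)))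

/-- The guess of the question at level `0`. -/
def guess0 : Ins ι α (St X Md F W m) :=
  free fun s t => ∃ z : X, t = ⟨z, s.q, s.a, fun κ => if lv κ = 0 ∧ ix κ < M then 0 else s.φ κ,
    fun κ => if lv κ = 0 ∧ ix κ = M then s.r κ + G.t z else s.r κ, s.w⟩

/-- The bracket of level `i` with a hook. -/
def br (low : List (Ins ι α (Sta X Md W m))) : ℕ → Hk → List (Ins ι α (St X Md F W m))
  | 0, h => guess0 lv ix G M :: (low.map (lift getL putL) ++ [free (hook lv ix G d h)])
  | i + 1, h => nst lv ix G d P M (br low i) i h M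

/-- The first instruction of the composite. -/
def initI (b : ℕ) : Ins ι α (St X Md F W m) :=
  free fun s t => t = ⟨d, s.c, s.a,
    fun κ => if lv κ = b ∧ ix κ = M then G.χ s.c (s.r κ) else s.φ κ, s.r, s.w⟩

/-- The last instruction of the composite. -/
def finI (b : ℕ) : Ins ι α (St X Md F W m) :=
  free fun s t => (∀ κ, lv κ = b → ix κ = M → G.χ s.q (s.r κ - cnt M b • G.t s.q) = s.φ κ) ∧
    t = ⟨s.a, d, d, fun κ => if lv κ = b ∧ ix κ = M then 0 else s.φ κ,
      fun κ => if lv κ = b ∧ ix κ = M then s.r κ - cnt M b • G.t s.q else s.r κ, s.w⟩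

/-- The composite. -/
def compU (low : List (Ins ι α (Sta X Md W m))) (b : ℕ) : List (Ins ι α (St X Md F W m)) :=
  initI lv ix G d M b :: (br lv ix G d P M low b .last ++ [finI lv ix G d M b])

/-! ### The honest result -/

/-- The result of a program which applies the hook `h` to the value `V`, empties the fingerprints
`Z` and adds `δ` to the registers. -/
def Hon (h : Hk) (V : X) (Z : Fin m → Prop) [DecidablePred Z] (δ : Fin m → Md)
    (s : St X Md F W m) : St X Md F W m :=
  ⟨d, s.q, ha h V s.a, fun κ => if Z κ then 0 else hφ lv ix G h V κ (s.r κ) (s.φ κ),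
    fun κ => hr lv ix G h V κ (s.r κ) + δ κ, s.w⟩

end SQ

end Pool.Agent.MP_6216ea_lc
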