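import Mathlib

/-! The size of the nondeterministic programs with private registers: choice of the parameters. -/

set_option autoImplicit false

namespace Pool.Agent.MP_6216ea_lc

namespace SQNum

theorem sq_le_pow (s : ℕ) : s ^ 2 ≤ 2 ^ (s + 1) := by
  induction s with
  | zero => norm_num
  | succ n ih =>
    rcases Nat.lt_or_ge n 3 with h | h
    · interval_cases n <;> norm_num
    · have h1 : (n + 1) ^ 2 ≤ 2 * n ^ 2 := by nlinarith
      calc (n + 1) ^ 2 ≤ 2 * n ^ 2 := h1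
        _ ≤ 2 * 2 ^ (n + 1) := Nat.mul_le_mul_left _ ih
        _ = 2 ^ (n + 1 + 1) := by rw [pow_succ 2 (n + 1)]; ring

/-- The digits and the prime. -/
theorem digits (k m l : ℕ) (hl : 1 ≤ l) : ∃ s D p c : ℕ, 1 ≤ s ∧ s = Nat.log 2 l + 1 ∧ 1 ≤ D ∧
    k * l ≤ s * D ∧ p.Prime ∧ m * (D * (2 ^ s - 1) ^ 2) < p ∧ c = Nat.clog 2 (2 * (m * (k + 1) + 1)) + 3
    ∧ p ≤ 2 ^ (c * s) ∧ (D + 1) * s ≤ (k + 2) * l := by
  obtain ⟨s, hs⟩ : ∃ s, s = Nat.log 2 l + 1 := ⟨_, rfl⟩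
  have hs1 : 1 ≤ s := by omega
  have hls : l < 2 ^ s := by rw [hs]; exact Nat.lt_pow_succ_log_self (by norm_num) _
  have hsl : s ≤ l := by
    rw [hs]
    have : Nat.log 2 l < l := Nat.log_lt_self 2 (by omega)
    omega
  obtain ⟨D, hD⟩ : ∃ D, D = k * l / s + 1 := ⟨_, rfl⟩
  have hDs : k * l ≤ s * D := by
    rw [hD]
    have := Nat.div_add_mod (k * l) s
    have h2 := Nat.mod_lt (k * l) (show s > 0 by omega)
    rw [mul_add, mul_one]
    omega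
  have hD2 : D ≤ (k + 1) * 2 ^ s := by
    have h1 : k * l / s ≤ k * l := Nat.div_le_self _ _
    have h2 : k * l ≤ k * 2 ^ s := Nat.mul_le_mul_left _ hls.le
    have h3 : 1 ≤ 2 ^ s := Nat.one_le_two_pow
    rw [hD, add_mul, one_mul]
    omega
  obtain ⟨p, hp, hp1, hp2⟩ := Nat.exists_prime_lt_and_le_two_mul
    (m * (D * (2 ^ s - 1) ^ 2) + 1) (by omega)
  have hD1 : 1 ≤ D := by rw [hD]; exact Nat.succ_pos _
  refine ⟨s, D, p, _, hs1, hs, hD1, hDs, hp, by omega, rfl, ?_, ?_⟩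
  · have h1 : m * (D * (2 ^ s - 1) ^ 2) ≤ m * ((k + 1) * 2 ^ s * (2 ^ s) ^ 2) :=
      Nat.mul_le_mul_left _ (Nat.mul_le_mul hD2 (Nat.pow_le_pow_left (Nat.sub_le _ _) 2))
    have h2 : m * ((k + 1) * 2 ^ s * (2 ^ s) ^ 2) + 1 ≤ (m * (k + 1) + 1) * 2 ^ (3 * s) := by
      have e1 : 2 ^ (3 * s) = 2 ^ s * (2 ^ s) ^ 2 := by rw [← pow_succ']; rw [← pow_mul]; ring_nf
      have e2 : 1 ≤ 2 ^ (3 * s) := Nat.one_le_two_pow
      calc m * ((k + 1) * 2 ^ s * (2 ^ s) ^ 2) + 1 = m * (k + 1) * 2 ^ (3 * s) + 1 := by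
            rw [e1]; ring
        _ ≤ m * (k + 1) * 2 ^ (3 * s) + 2 ^ (3 * s) := by omega
        _ = _ := by ring
    have h3 : 2 * (m * (k + 1) + 1) ≤ 2 ^ Nat.clog 2 (2 * (m * (k + 1) + 1)) :=
      Nat.le_pow_clog (by norm_num) _
    calc p ≤ 2 * (m * (D * (2 ^ s - 1) ^ 2) + 1) := hp2
      _ ≤ 2 * ((m * (k + 1) + 1) * 2 ^ (3 * s)) := by omega
      _ = 2 * (m * (k + 1) + 1) * 2 ^ (3 * s) := by ring
      _ ≤ 2 ^ Nat.clog 2 (2 * (m * (k + 1) + 1)) * 2 ^ (3 * s) := Nat.mul_le_mul_right _ h3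
      _ = 2 ^ (Nat.clog 2 (2 * (m * (k + 1) + 1)) + 3 * s) := (pow_add _ _ _).symm
      _ ≤ _ := Nat.pow_le_pow_right (by norm_num) (by nlinarith)
  · have h1 : s * (k * l / s) ≤ k * l := Nat.mul_div_le _ _
    rw [hD]
    nlinarith

/-- The exponent in natural numbers. -/
theorem expo (a k m : ℕ) : ∃ A : ℕ, ∀ l t h : ℕ, 1 ≤ t → t ≤ l → h ≤ k * (t + 1) →
    ∃ e D p b : ℕ, 2 ≤ e ∧ 2 ^ (k * l) ≤ e ^ D ∧ 1 ≤ D ∧ p.Prime ∧ m * (D * (e - 1) ^ 2) < p ∧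
      1 ≤ b ∧ h ≤ b * b ∧ ∃ E : ℕ,
      a ^ (h + 1) * (2 ^ (k * l)) ^ (k * (1 + b)) * p ^ (k * (b + 1) * b) *
        (p ^ (D + 1)) ^ (k * (b + 1)) ≤ 2 ^ E ∧ (E : ℝ) ≤ A * (l * Real.sqrt t) := by
  obtain ⟨ca, hca⟩ : ∃ ca, a ≤ 2 ^ ca := ⟨a, Nat.lt_two_pow_self.le⟩
  obtain ⟨c, hc⟩ : ∃ c, c = Nat.clog 2 (2 * (m * (k + 1) + 1)) + 3 := ⟨_, rfl⟩
  refine ⟨ca * (2 * k + 1) + k * k * (2 * k + 3) + c * k * (2 * k + 3) * (2 * k + 2) * 2 +
    c * (k + 2) * k * (2 * k + 3), ?_⟩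
  intro l t h ht htl hh
  obtain ⟨s, D, p, c', hs1, hs, hD, hsD, hp, hmp, hc', hp2, hDs⟩ := digits k m l (ht.trans htl)
  obtain rfl : c' = c := by rw [hc', hc]
  obtain ⟨b, hb⟩ : ∃ b, b = Nat.sqrt h + 1 := ⟨_, rfl⟩
  refine ⟨2 ^ s, D, p, b, ?_, ?_, hD, hp, hmp, by omega, ?_, ?_⟩
  · calc 2 = 2 ^ 1 := rfl
      _ ≤ 2 ^ s := Nat.pow_le_pow_right (by norm_num) hs1
  · rw [← pow_mul]
    exact Nat.pow_le_pow_right (by norm_num) hsD
  · rw [hb]
    exact (Nat.lt_succ_sqrt h).le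
  refine ⟨ca * (h + 1) + k * l * (k * (1 + b)) + c' * s * (k * (b + 1) * b) +
    c' * s * (D + 1) * (k * (b + 1)), ?_, ?_⟩
  · calc a ^ (h + 1) * (2 ^ (k * l)) ^ (k * (1 + b)) * p ^ (k * (b + 1) * b) *
          (p ^ (D + 1)) ^ (k * (b + 1))
        ≤ (2 ^ ca) ^ (h + 1) * (2 ^ (k * l)) ^ (k * (1 + b)) * (2 ^ (c' * s)) ^ (k * (b + 1) * b) *
          ((2 ^ (c' * s)) ^ (D + 1)) ^ (k * (b + 1)) := by gcongr
      _ = _ := by
        rw [← pow_mul, ← pow_mul, ← pow_mul, ← pow_mul, ← pow_mul, ← pow_add, ← pow_add,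
          ← pow_add, mul_assoc (c' * s) (D + 1)]
  · have hx0 : 0 ≤ Real.sqrt t := Real.sqrt_nonneg _
    have hx1 : 1 ≤ Real.sqrt t := by
      rw [Real.one_le_sqrt]; exact_mod_cast ht
    have hxx : Real.sqrt t * Real.sqrt t = t := Real.mul_self_sqrt (by positivity)
    obtain ⟨x, hx⟩ : ∃ x, x = Real.sqrt t := ⟨_, rfl⟩
    rw [← hx] at hx0 hx1 hxx ⊢
    have hl1 : (1 : ℝ) ≤ l := by exact_mod_cast (ht.trans htl)
    have htl' : (t : ℝ) ≤ l := by exact_mod_cast htl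
    -- sqrt l
    have hy0 : 0 ≤ Real.sqrt l := Real.sqrt_nonneg _
    have hyy : Real.sqrt l * Real.sqrt l = l := Real.mul_self_sqrt (by positivity)
    have hxy : x ≤ Real.sqrt l := by rw [hx]; exact Real.sqrt_le_sqrt htl'
    obtain ⟨y, hy⟩ : ∃ y, y = Real.sqrt l := ⟨_, rfl⟩
    rw [← hy] at hy0 hyy hxy
    have hsy : (s : ℝ) ≤ 2 * y := by
      have h1 : 2 ^ (s - 1) ≤ l := by
        rw [hs, Nat.add_sub_cancel]
        exact Nat.pow_log_le_self 2 (by omega)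
      have h2 : s ^ 2 ≤ 4 * l := by
        have h3 := sq_le_pow s
        have h4 : 2 ^ (s + 1) = 4 * 2 ^ (s - 1) := by
          obtain ⟨s', rfl⟩ := Nat.exists_eq_add_of_le hs1
          rw [Nat.add_sub_cancel_left, show 1 + s' + 1 = s' + 2 by ring, pow_add]
          ring
        omega
      have h3 : (s : ℝ) ^ 2 ≤ 4 * l := by exact_mod_cast h2
      have h4 : (s : ℝ) ^ 2 ≤ (2 * y) ^ 2 := by nlinarith
      exact le_of_sq_le_sq h4 (by positivity)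
    have hxl : x * x ≤ l * x := by nlinarith
    have hsx : (s : ℝ) * (x * x) ≤ 2 * (l * x) := by
      have h1 : (s : ℝ) * x ≤ 2 * y * y := mul_le_mul hsy hxy hx0 (by positivity)
      nlinarith
    -- b
    have hbx : (b : ℝ) ≤ (2 * k + 2) * x := by
      have h1 : ((Nat.sqrt h : ℕ) : ℝ) ^ 2 ≤ h := by exact_mod_cast Nat.sqrt_le' h
      have h2 : (h : ℝ) ≤ k * (t + 1) := by exact_mod_cast hh
      have h3 : ((Nat.sqrt h : ℕ) : ℝ) ≤ (2 * k + 1) * x := by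
        apply le_of_sq_le_sq _ (by positivity)
        have ht1 : (1 : ℝ) ≤ t := by exact_mod_cast ht
        have hk0 : (0 : ℝ) ≤ k := by positivity
        nlinarith [mul_nonneg hk0 hk0, mul_nonneg hk0 (by linarith : (0 : ℝ) ≤ t - 1)]
      rw [hb]
      push_cast
      nlinarith
    have hh1 : ((h : ℝ) + 1) ≤ (2 * k + 1) * (l * x) := by
      have h2 : (h : ℝ) ≤ k * (t + 1) := by exact_mod_cast hh
      have hk0 : (0 : ℝ) ≤ k := by positivity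
      have h3 : (t : ℝ) + 1 ≤ 2 * (l * x) := by nlinarith
      have h4 : (1 : ℝ) ≤ l * x := by nlinarith
      nlinarith
    have hb1 : (b : ℝ) + 1 ≤ (2 * k + 3) * x := by linarith
    have hb0 : (0 : ℝ) ≤ b := by positivity
    have hk0 : (0 : ℝ) ≤ k := by positivity
    have hc0 : (0 : ℝ) ≤ c' := by positivity
    have hs0 : (0 : ℝ) ≤ s := by positivity
    have e1 : (ca : ℝ) * (h + 1) ≤ (ca * (2 * k + 1)) * (l * x) := by
      have : (0 : ℝ) ≤ ca := by positivity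
      calc (ca : ℝ) * (h + 1) ≤ ca * ((2 * k + 1) * (l * x)) := mul_le_mul_of_nonneg_left hh1 this
        _ = _ := by ring
    have e2 : (k : ℝ) * l * (k * (1 + b)) ≤ (k * k * (2 * k + 3)) * (l * x) := by
      calc (k : ℝ) * l * (k * (1 + b)) = k * l * k * (b + 1) := by ring
        _ ≤ k * l * k * ((2 * k + 3) * x) := mul_le_mul_of_nonneg_left hb1 (by positivity)
        _ = _ := by ring
    have e3 : (c' : ℝ) * s * (k * (b + 1) * b) ≤
        (c' * k * (2 * k + 3) * (2 * k + 2) * 2) * (l * x) := by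
      calc (c' : ℝ) * s * (k * (b + 1) * b) = c' * s * k * ((b + 1) * b) := by ring
        _ ≤ c' * s * k * (((2 * k + 3) * x) * ((2 * k + 2) * x)) :=
          mul_le_mul_of_nonneg_left (mul_le_mul hb1 hbx hb0 (by positivity)) (by positivity)
        _ = c' * k * (2 * k + 3) * (2 * k + 2) * (s * (x * x)) := by ring
        _ ≤ c' * k * (2 * k + 3) * (2 * k + 2) * (2 * (l * x)) :=
          mul_le_mul_of_nonneg_left hsx (by positivity)
        _ = _ := by ring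
    have e4 : (c' : ℝ) * s * (D + 1) * (k * (b + 1)) ≤
        (c' * (k + 2) * k * (2 * k + 3)) * (l * x) := by
      have h1 : ((D : ℝ) + 1) * s ≤ (k + 2) * l := by exact_mod_cast hDs
      calc (c' : ℝ) * s * (D + 1) * (k * (b + 1)) = c' * (((D : ℝ) + 1) * s) * (k * (b + 1)) := by
            ring
        _ ≤ c' * ((k + 2) * l) * (k * ((2 * k + 3) * x)) := by gcongr
        _ = _ := by ring
    push_cast
    linarith

/-- The choice of the parameters, and the size. -/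
theorem sq_num (a k m : ℕ) : ∃ C : ℝ, 0 < C ∧ ∀ L T N h : ℕ, 2 ≤ L → 2 ≤ T → T ≤ L → N ≤ L ^ k →
    h ≤ k * (Nat.clog 2 T + 1) → ∃ e D p b : ℕ, 2 ≤ e ∧ N ≤ e ^ D ∧ 1 ≤ D ∧ p.Prime ∧
      m * (D * (e - 1) ^ 2) < p ∧ 1 ≤ b ∧ h ≤ b * b ∧
      (a : ℝ) ^ (h + 1) * (N : ℝ) ^ (k * (1 + b)) * (p : ℝ) ^ (k * (b + 1) * b) *
        ((p : ℝ) ^ (D + 1)) ^ (k * (b + 1)) ≤ (L : ℝ) ^ (C * Real.sqrt (Real.log T)) := by
  obtain ⟨A, hA⟩ := expo a k m
  refine ⟨4 * A + 1, by positivity, ?_⟩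
  intro L T N h hL hT hTL hN hh
  obtain ⟨l, hl⟩ : ∃ l, l = Nat.clog 2 L := ⟨_, rfl⟩
  obtain ⟨t, ht⟩ : ∃ t, t = Nat.clog 2 T := ⟨_, rfl⟩
  have ht1 : 1 ≤ t := by rw [ht]; exact Nat.clog_pos (by norm_num) hT
  have htl : t ≤ l := by rw [ht, hl]; exact Nat.clog_mono_right 2 hTL
  obtain ⟨e, D, p, b, he, hD1, hD, hp, hmp, hb, hhb, E, hE, hE2⟩ := hA l t h ht1 htl (ht ▸ hh)
  have hLl : L ≤ 2 ^ l := by rw [hl]; exact Nat.le_pow_clog (by norm_num) _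
  have hNl : N ≤ 2 ^ (k * l) := by
    calc N ≤ L ^ k := hN
      _ ≤ (2 ^ l) ^ k := Nat.pow_le_pow_left hLl k
      _ = 2 ^ (k * l) := by rw [← pow_mul]; ring_nf
  refine ⟨e, D, p, b, he, hNl.trans hD1, hD, hp, hmp, hb, hhb, ?_⟩
  -- logarithms
  have hlog2 : (0 : ℝ) < Real.log 2 := Real.log_pos (by norm_num)
  have hlog2' : (0.6931 : ℝ) < Real.log 2 := by have := Real.log_two_gt_d9; linarith
  have key : ∀ z : ℕ, 2 ≤ z → ((Nat.clog 2 z : ℕ) : ℝ) * Real.log 2 ≤ 2 * Real.log z := by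
    intro z hz
    have h1 : 2 ^ (Nat.clog 2 z - 1) < z := by
      have := Nat.pow_pred_clog_lt_self (b := 2) (by norm_num) (x := z) (by omega)
      simpa using this
    have h2 : 1 ≤ Nat.clog 2 z := Nat.clog_pos (by norm_num) hz
    have h3 : ((Nat.clog 2 z - 1 : ℕ) : ℝ) * Real.log 2 ≤ Real.log z := by
      rw [← Real.log_pow]
      apply Real.log_le_log (by positivity)
      exact_mod_cast h1.le
    have h4 : Real.log 2 ≤ Real.log z := Real.log_le_log (by norm_num) (by exact_mod_cast hz)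
    rw [Nat.cast_sub h2] at h3
    push_cast at h3
    linarith
  have hlL : (l : ℝ) * Real.log 2 ≤ 2 * Real.log L := by rw [hl]; exact key L hL
  have htT : (t : ℝ) * Real.log 2 ≤ 2 * Real.log T := by rw [ht]; exact key T hT
  have hT0 : 0 ≤ Real.log T := Real.log_nonneg (by exact_mod_cast (by omega : 1 ≤ T))
  have hL0 : 0 ≤ Real.log L := Real.log_nonneg (by exact_mod_cast (by omega : 1 ≤ L))
  have hst : Real.sqrt t ≤ 2 * Real.sqrt (Real.log T) := by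
    have h1 : (t : ℝ) ≤ 4 * Real.log T := by nlinarith
    calc Real.sqrt t ≤ Real.sqrt (4 * Real.log T) := Real.sqrt_le_sqrt h1
      _ = 2 * Real.sqrt (Real.log T) := by
        rw [Real.sqrt_mul (by norm_num), show (4 : ℝ) = 2 ^ 2 by norm_num,
          Real.sqrt_sq (by norm_num)]
  have hNr : (N : ℝ) ≤ ((2 ^ (k * l) : ℕ) : ℝ) := by exact_mod_cast hNl
  calc (a : ℝ) ^ (h + 1) * (N : ℝ) ^ (k * (1 + b)) * (p : ℝ) ^ (k * (b + 1) * b) *
        ((p : ℝ) ^ (D + 1)) ^ (k * (b + 1))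
      ≤ (a : ℝ) ^ (h + 1) * (((2 ^ (k * l) : ℕ) : ℝ)) ^ (k * (1 + b)) *
        (p : ℝ) ^ (k * (b + 1) * b) * ((p : ℝ) ^ (D + 1)) ^ (k * (b + 1)) := by gcongr
    _ = ((a ^ (h + 1) * (2 ^ (k * l)) ^ (k * (1 + b)) * p ^ (k * (b + 1) * b) *
        (p ^ (D + 1)) ^ (k * (b + 1)) : ℕ) : ℝ) := by push_cast; ring
    _ ≤ ((2 ^ E : ℕ) : ℝ) := by exact_mod_cast hE
    _ = (2 : ℝ) ^ (E : ℝ) := by push_cast; rw [Real.rpow_natCast]
    _ = Real.exp (Real.log 2 * E) := Real.rpow_def_of_pos (by norm_num) _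
    _ ≤ Real.exp (Real.log L * ((4 * A + 1) * Real.sqrt (Real.log T))) := by
      apply Real.exp_le_exp.2
      have hs0 : 0 ≤ Real.sqrt (Real.log T) := Real.sqrt_nonneg _
      have hA0 : (0 : ℝ) ≤ A := by positivity
      calc Real.log 2 * E ≤ Real.log 2 * (A * (l * Real.sqrt t)) :=
            mul_le_mul_of_nonneg_left hE2 hlog2.le
        _ = A * ((l * Real.log 2) * Real.sqrt t) := by ring
        _ ≤ A * ((2 * Real.log L) * (2 * Real.sqrt (Real.log T))) := by gcongr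
        _ = Real.log L * ((4 * A) * Real.sqrt (Real.log T)) := by ring
        _ ≤ Real.log L * ((4 * A + 1) * Real.sqrt (Real.log T)) := by
          apply mul_le_mul_of_nonneg_left _ hL0
          apply mul_le_mul_of_nonneg_right _ hs0
          linarith
    _ = (L : ℝ) ^ ((4 * A + 1) * Real.sqrt (Real.log T)) :=
      (Real.rpow_def_of_pos (by exact_mod_cast (by omega : 0 < L)) _).symm

end SQNum

end Pool.Agent.MP_6216ea_lc
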