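import Pool.Agent.Lib.MP_6216ea_lc.SQSound

/-! Completeness of all brackets. -/

set_option autoImplicit false

namespace Pool.Agent.MP_6216ea_lc

namespace SQ

open Ins Pass

variable {ι α X Md F W : Type} [AddCommGroup Md] [AddCommGroup F] {m n₀ : ℕ}
  {lv ix : Fin m → ℕ} {G : MFP X Md F n₀} {d : X} {P : ℕ → X → Prot X} {M : ℕ}

/-- Completeness of a bracket `L` of level `i`. -/
def BrRun (lv ix : Fin m → ℕ) (G : MFP X Md F n₀) (d : X) (M : ℕ) (x : ι → α) (A : ℕ → X → X)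
    (w₀ : W) (i : ℕ) (h : Hk) (L : List (Ins ι α (St X Md F W m))) : Prop :=
  ∀ (s : St X Md F W m) (z : X), s.w = w₀ → HC lv ix G h (A i z) s.r s.φ →
    Run x L s (Hon lv ix G d h (A i z) (ZB lv ix M i) (δB lv ix G M i z) s)

theorem call_run {x : ι → α} {A : ℕ → X → X} {w₀ : W} {i j : ℕ} {h : Hk}
    {L : Hk → List (Ins ι α (St X Md F W m))}
    (hix : ∀ κ, ix κ ≤ M) (hj : j < M) (hat : ∀ κ, At lv ix κ h → lv κ = i + 1 ∧ ix κ = j)
    (hL : BrRun lv ix G d M x A w₀ i h (L h)) (s : St X Md F W m) (Y₀ : ℕ → X) (hw : s.w = w₀)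
    (hC : HC lv ix G h (A i (wq d P M i j Y₀)) s.r s.φ) :
    Run x (call lv ix G d P M L i j h) s
      (Hon lv ix G d h (A i (wq d P M i j Y₀)) (fun κ => lv κ < i + 1)
        (δC lv ix G M i j Y₀) s) := by
  have hjS : ¬ InS M j j := by
    rintro (h1 | h1) <;> omega
  obtain ⟨w, hwq⟩ : ∃ w, w = wq d P M i j Y₀ := ⟨_, rfl⟩
  obtain ⟨V, hV⟩ : ∃ V, V = A i w := ⟨_, rfl⟩
  rw [← hwq, ← hV] at hC
  rw [← hwq, ← hV]
  obtain ⟨s₁, hs₁⟩ : ∃ s₁ : St X Md F W m, s₁ = ⟨d, s.q, s.a,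
    fun κ => if lv κ = i ∧ ix κ = M then G.χ w (s.r κ) else s.φ κ,
    useR lv ix G M (i + 1) j Y₀ s.r, s.w⟩ := ⟨_, rfl⟩
  have f1 : ∀ κ, s₁.φ κ = if lv κ = i ∧ ix κ = M then G.χ w (s.r κ) else s.φ κ := by
    intro κ; rw [hs₁]
  have f2 : ∀ κ, s₁.r κ = useR lv ix G M (i + 1) j Y₀ s.r κ := by
    intro κ; rw [hs₁]
  have hloc : ∀ κ, At lv ix κ h → s.r κ = s₁.r κ ∧ s.φ κ = s₁.φ κ := by
    intro κ hκ
    obtain ⟨h1, h2⟩ := hat κ hκ
    rw [f1, f2, if_neg fun h' => by omega]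
    unfold useR
    rw [if_neg fun h' => hjS (by have h3 := h'.2; rwa [h2] at h3)]
    exact ⟨rfl, rfl⟩
  have hC₁ : HC lv ix G h (A i w) s₁.r s₁.φ := by
    rw [← hV]
    exact HC_congr lv ix G h V hloc hC
  have hrun := hL s₁ w (by rw [hs₁]; exact hw) hC₁
  rw [← hV] at hrun
  obtain ⟨s₂, hs₂⟩ : ∃ s₂ : St X Md F W m, s₂ = Hon lv ix G d h V (ZB lv ix M i)
    (δB lv ix G M i w) s₁ := ⟨_, rfl⟩
  rw [← hs₂] at hrun
  have g1 : ∀ κ, s₂.φ κ = if ZB lv ix M i κ then 0
      else hφ lv ix G h V κ (s₁.r κ) (s₁.φ κ) := by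
    intro κ; rw [hs₂]; rfl
  have g2 : ∀ κ, s₂.r κ = hr lv ix G h V κ (s₁.r κ) + δB lv ix G M i w κ := by
    intro κ; rw [hs₂]; rfl
  unfold call
  rw [run_cons]
  refine ⟨s₁, ?_, ?_⟩
  · unfold beginI
    rw [rel_free]
    exact ⟨Y₀, by rw [hs₁, hwq]⟩
  rw [run_append]
  refine ⟨s₂, hrun, ?_⟩
  rw [run_one]
  unfold endI
  rw [rel_free]
  refine ⟨Y₀, ?_, ?_⟩
  · intro κ h1 h2
    have hA : ¬ At lv ix κ h := fun h' => by have := (hat κ h').1; omega
    rw [← hwq, g1, g2, if_neg (by unfold ZB; omega), hφ_off lv ix G hA, hr_off lv ix G hA, f1, f2,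
      if_pos ⟨h1, h2⟩]
    unfold useR δB
    rw [if_neg fun h' => by omega, if_pos ⟨h1, h2⟩, add_sub_cancel_right]
  · rw [← hwq]
    apply St.ext
    · rfl
    · change s.q = s₂.q
      rw [hs₂, hs₁]
      rfl
    · change ha h V s.a = s₂.a
      rw [hs₂, hs₁]
      rfl
    · funext κ
      change (if lv κ < i + 1 then 0 else hφ lv ix G h V κ (s.r κ) (s.φ κ)) =
        if lv κ = i ∧ ix κ = M then 0 else s₂.φ κ
      by_cases hlt : lv κ < i + 1
      · rw [if_pos hlt]
        by_cases hM : lv κ = i ∧ ix κ = M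
        · rw [if_pos hM]
        · rw [if_neg hM, g1, if_pos]
          have := hix κ
          unfold ZB
          omega
      · rw [if_neg hlt, if_neg fun h' => by omega, g1, if_neg (by unfold ZB; omega), f1,
          if_neg fun h' => by omega]
        by_cases hκ : At lv ix κ h
        · rw [(hloc κ hκ).1]
        · rw [hφ_off lv ix G hκ, hφ_off lv ix G hκ]
    · funext κ
      change hr lv ix G h V κ (s.r κ) + δC lv ix G M i j Y₀ κ =
        if lv κ = i ∧ ix κ = M then s₂.r κ - cnt M i • G.t w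
          else useR lv ix G M (i + 1) j Y₀ s₂.r κ
      by_cases hM : lv κ = i ∧ ix κ = M
      · have hA : ¬ At lv ix κ h := fun h' => by have := (hat κ h').1; omega
        rw [if_pos hM, g2, hr_off lv ix G hA, hr_off lv ix G hA, f2]
        unfold useR δB δC
        rw [if_pos hM, if_neg fun h' => by omega, if_neg fun h' => by omega,
          add_sub_cancel_right, add_zero]
      · rw [if_neg hM]
        unfold useR
        rw [g2, f2]
        unfold useR δB δC
        rw [if_neg hM]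
        by_cases hS : lv κ = i + 1 ∧ InS M j (ix κ)
        · have hA : ¬ At lv ix κ h := fun h' => by
            have h2 := (hat κ h').2
            have h3 := hS.2
            rw [h2] at h3
            exact hjS h3
          rw [if_pos hS, if_pos hS, if_pos hS, hr_off lv ix G hA, hr_off lv ix G hA, add_zero,
            two_nsmul, add_assoc]
        · rw [if_neg hS, if_neg hS, if_neg hS]
    · change s.w = s₂.w
      rw [hs₂, hs₁]
      rfl

theorem nst_run {x : ι → α} {A : ℕ → X → X} {w₀ : W} {i : ℕ} {h : Hk}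
    (hix : ∀ κ, ix κ ≤ M) (hP : ∀ i q, Prot.Hgt M (P i q)) (hab : Above (i + 1) h)
    {L : Hk → List (Ins ι α (St X Md F W m))}
    (hL : ∀ h', Above i h' → BrRun lv ix G d M x A w₀ i h' (L h')) (n : ℕ) (hn : n ≤ M)
    (s : St X Md F W m) (Y₀ : ℕ → X) (hw : s.w = w₀)
    (hC : HC lv ix G h (Prot.eval (A i) (Prot.walk (P i (Y₀ M)) Y₀ (M - n))) s.r s.φ) :
    Run x (nst lv ix G d P M L i h n) s
      (Hon lv ix G d h (Prot.eval (A i) (Prot.walk (P i (Y₀ M)) Y₀ (M - n)))
        (ZN lv ix M i n) (δN lv ix G M i n Y₀) s) := by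
  induction n generalizing s Y₀ with
  | zero =>
    rw [Nat.sub_zero] at hC ⊢
    obtain ⟨V, hV⟩ : ∃ V, V = Prot.eval (A i) (Prot.walk (P i (Y₀ M)) Y₀ M) := ⟨_, rfl⟩
    rw [← hV] at hC ⊢
    have hres : Prot.res d (Prot.walk (P i (Y₀ M)) Y₀ M) = V := by
      rw [hV]
      exact res_eq (hP _ _) (A i) Y₀
    obtain ⟨s₁, hs₁⟩ : ∃ s₁ : St X Md F W m, s₁ = ⟨V, s.q, s.a,
      fun κ => if lv κ < i + 1 then 0 else s.φ κ, useR lv ix G M (i + 1) M Y₀ s.r, s.w⟩ :=
      ⟨_, rfl⟩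
    have f1 : ∀ κ, s₁.φ κ = if lv κ < i + 1 then 0 else s.φ κ := by
      intro κ; rw [hs₁]
    have f2 : ∀ κ, s₁.r κ = useR lv ix G M (i + 1) M Y₀ s.r κ := by
      intro κ; rw [hs₁]
    have hloc : ∀ κ, At lv ix κ h → s.r κ = s₁.r κ ∧ s.φ κ = s₁.φ κ := by
      intro κ hκ
      have h1 := lv_of_at lv ix hab hκ
      rw [f1, f2, if_neg (by omega)]
      unfold useR
      rw [if_neg fun h' => by omega]
      exact ⟨rfl, rfl⟩
    unfold nst
    rw [run_cons]
    refine ⟨s₁, ?_, ?_⟩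
    · unfold midI
      rw [rel_free]
      exact ⟨Y₀, by rw [hs₁, hres]⟩
    rw [run_one, rel_free]
    have hc : s₁.c = V := by rw [hs₁]
    refine ⟨?_, ?_⟩
    · rw [hc]
      exact HC_congr lv ix G h V hloc hC
    · rw [hc]
      apply St.ext
      · rfl
      · change s.q = s₁.q
        rw [hs₁]
      · change ha h V s.a = ha h V s₁.a
        rw [hs₁]
      · funext κ
        change (if ZN lv ix M i 0 κ then 0 else hφ lv ix G h V κ (s.r κ) (s.φ κ)) =
          hφ lv ix G h V κ (s₁.r κ) (s₁.φ κ)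
        by_cases hκ : At lv ix κ h
        · have h1 := lv_of_at lv ix hab hκ
          rw [if_neg (by unfold ZN; omega), (hloc κ hκ).1, (hloc κ hκ).2]
        · rw [hφ_off lv ix G hκ, hφ_off lv ix G hκ, f1]
          by_cases hlt : lv κ < i + 1
          · rw [if_pos hlt, if_pos (show ZN lv ix M i 0 κ from Or.inl hlt)]
          · rw [if_neg hlt, if_neg (by unfold ZN; omega)]
      · funext κ
        change hr lv ix G h V κ (s.r κ) + δN lv ix G M i 0 Y₀ κ = hr lv ix G h V κ (s₁.r κ)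
        by_cases hκ : At lv ix κ h
        · have h1 := lv_of_at lv ix hab hκ
          rw [(hloc κ hκ).1]
          unfold δN
          rw [if_neg fun h' => by omega, add_zero]
        · rw [hr_off lv ix G hκ, hr_off lv ix G hκ, f2]
          unfold useR δN
          rw [Nat.sub_zero]
          by_cases hS : lv κ = i + 1 ∧ InS M M (ix κ)
          · rw [if_pos hS, if_pos hS]
            simp
          · rw [if_neg hS, if_neg hS, add_zero]
      · change s.w = s₁.w
        rw [hs₁]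
  | succ n ih =>
    obtain ⟨j, hj⟩ : ∃ j, j = M - (n + 1) := ⟨_, rfl⟩
    have hjn : M - n = j + 1 := by omega
    have hjM : j < M := by omega
    have hjS : ¬ InS M j j := by
      rintro (h1 | h1) <;> omega
    rw [← hj] at hC ⊢
    obtain ⟨a, ha'⟩ : ∃ a, a = A i (wq d P M i j Y₀) := ⟨_, rfl⟩
    obtain ⟨Z₀, hZ⟩ : ∃ Z₀, Z₀ = Function.update Y₀ j a := ⟨_, rfl⟩
    have z1 : Z₀ j = a := by rw [hZ, Function.update_self]
    have z2 : ∀ k, k ≠ j → Z₀ k = Y₀ k := fun k hk => by rw [hZ, Function.update_of_ne hk]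
    have hV : Prot.eval (A i) (Prot.walk (P i (Z₀ M)) Z₀ (j + 1)) =
        Prot.eval (A i) (Prot.walk (P i (Y₀ M)) Y₀ j) := by
      rw [z2 M (by omega)]
      have hwk : Prot.walk (P i (Y₀ M)) Z₀ j = Prot.walk (P i (Y₀ M)) Y₀ j :=
        Prot.walk_congr _ _ _ _ fun k hk => z2 k (by omega)
      rw [eval_step (d := d) (A i) (P i (Y₀ M)) Z₀ j, hwk]
      rw [z1, ha', hwk]
      rfl
    obtain ⟨V, hV'⟩ : ∃ V, V = Prot.eval (A i) (Prot.walk (P i (Y₀ M)) Y₀ j) := ⟨_, rfl⟩
    rw [← hV'] at hC ⊢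
    -- first call
    obtain ⟨s₁, hs₁⟩ : ∃ s₁ : St X Md F W m, s₁ = Hon lv ix G d (.store (i + 1) j) a
      (fun κ => lv κ < i + 1) (δC lv ix G M i j Y₀) s := ⟨_, rfl⟩
    have hr1 := call_run (P := P) hix hjM (h := .store (i + 1) j) (fun κ hκ => hκ)
      (hL (.store (i + 1) j) (Nat.lt_succ_self i)) s Y₀ hw trivial
    rw [← ha', ← hs₁] at hr1
    have p1 : ∀ κ, s₁.φ κ = if lv κ < i + 1 then 0 else
        if lv κ = i + 1 ∧ ix κ = j then G.χ a (s.r κ) else s.φ κ := by
      intro κ; rw [hs₁]; rfl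
    have p2 : ∀ κ, s₁.r κ = s.r κ + δC lv ix G M i j Y₀ κ := by
      intro κ; rw [hs₁]; rfl
    have hup : ∀ κ, i + 1 < lv κ → s.r κ = s₁.r κ ∧ s.φ κ = s₁.φ κ := by
      intro κ hκ
      rw [p1, p2, if_neg (by omega), if_neg fun h' => by omega]
      unfold δC
      rw [if_neg fun h' => by omega, add_zero]
      exact ⟨rfl, rfl⟩
    have hloc : ∀ κ, At lv ix κ h → s.r κ = s₁.r κ ∧ s.φ κ = s₁.φ κ := fun κ hκ =>
      hup κ (lv_of_at lv ix hab hκ)
    -- the passes in between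
    obtain ⟨s₂, hs₂⟩ : ∃ s₂ : St X Md F W m, s₂ = Hon lv ix G d h V
      (ZN lv ix M i n) (δN lv ix G M i n Z₀) s₁ := ⟨_, rfl⟩
    have hr2 := ih (by omega) s₁ Z₀ (by rw [hs₁]; exact hw) (by
      rw [hjn, hV, ← hV']
      exact HC_congr lv ix G h V hloc hC)
    rw [hjn, hV, ← hV', ← hs₂] at hr2
    have r1 : ∀ κ, s₂.φ κ = if ZN lv ix M i n κ then 0
        else hφ lv ix G h V κ (s₁.r κ) (s₁.φ κ) := by
      intro κ; rw [hs₂]; rfl
    have r2 : ∀ κ, s₂.r κ = hr lv ix G h V κ (s₁.r κ) + δN lv ix G M i n Z₀ κ := by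
      intro κ; rw [hs₂]; rfl
    -- second call
    have hC3 : HC lv ix G (.check (i + 1) j (4 * n + 1)) (A i (wq d P M i j Y₀)) s₂.r s₂.φ := by
      intro κ h1 h2
      rw [← ha']
      have hA : ¬ At lv ix κ h := fun h' => by have := lv_of_at lv ix hab h'; omega
      rw [r1, r2, if_neg (by unfold ZN; omega), hφ_off lv ix G hA, hr_off lv ix G hA, p1, p2,
        if_neg (by omega), if_pos ⟨h1, h2⟩]
      unfold δN δC
      rw [if_neg (fun h' => hjS (by have h6 := h'.2; rwa [h2] at h6)),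
        if_pos ⟨h1, Or.inr (by omega)⟩, h2, z1, add_zero, add_sub_cancel_right]
    have hr3 := call_run (P := P) hix hjM (h := .check (i + 1) j (4 * n + 1)) (fun κ hκ => hκ)
      (hL (.check (i + 1) j (4 * n + 1)) (Nat.lt_succ_self i)) s₂ Y₀
      (by rw [hs₂, hs₁]; exact hw) hC3
    rw [← ha'] at hr3
    obtain ⟨t, ht⟩ : ∃ t : St X Md F W m, t = Hon lv ix G d (.check (i + 1) j (4 * n + 1)) a
      (fun κ => lv κ < i + 1) (δC lv ix G M i j Y₀) s₂ := ⟨_, rfl⟩
    rw [← ht] at hr3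
    have u1 : ∀ κ, t.φ κ = if lv κ < i + 1 then 0 else
        if lv κ = i + 1 ∧ ix κ = j then 0 else s₂.φ κ := by
      intro κ; rw [ht]; rfl
    have u2 : ∀ κ, t.r κ = (if lv κ = i + 1 ∧ ix κ = j then s₂.r κ - (4 * n + 1) • G.t a
        else s₂.r κ) + δC lv ix G M i j Y₀ κ := by
      intro κ; rw [ht]; rfl
    have hfin : Hon lv ix G d h V (ZN lv ix M i (n + 1)) (δN lv ix G M i (n + 1) Y₀) s = t := by
      symm
      apply St.ext
      · rw [ht]; rfl
      · change t.q = s.q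
        rw [ht, hs₂, hs₁]
        rfl
      · change t.a = ha h V s.a
        rw [ht, hs₂, hs₁]
        rfl
      · funext κ
        change t.φ κ = if ZN lv ix M i (n + 1) κ then 0 else hφ lv ix G h V κ (s.r κ) (s.φ κ)
        rw [u1]
        by_cases hlt : lv κ < i + 1
        · rw [if_pos hlt, if_pos (show ZN lv ix M i (n + 1) κ from Or.inl hlt)]
        rw [if_neg hlt]
        by_cases hκj : lv κ = i + 1 ∧ ix κ = j
        · rw [if_pos hκj, if_pos (show ZN lv ix M i (n + 1) κ from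
            Or.inr ⟨hκj.1, by omega, by omega⟩)]
        rw [if_neg hκj, r1]
        by_cases hZn : ZN lv ix M i n κ
        · rw [if_pos hZn, if_pos]
          unfold ZN at hZn ⊢
          omega
        · rw [if_neg hZn, if_neg (by unfold ZN at hZn ⊢; omega)]
          by_cases hκ : At lv ix κ h
          · rw [(hloc κ hκ).1, (hloc κ hκ).2]
          · rw [hφ_off lv ix G hκ, hφ_off lv ix G hκ, p1, if_neg hlt, if_neg hκj]
      · funext κ
        change t.r κ = hr lv ix G h V κ (s.r κ) + δN lv ix G M i (n + 1) Y₀ κ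
        rw [u2]
        by_cases hκ : At lv ix κ h
        · have h1 := lv_of_at lv ix hab hκ
          rw [if_neg fun h' => by omega, r2, (hloc κ hκ).1]
          unfold δN δC
          rw [if_neg fun h' => by omega, if_neg fun h' => by omega, if_neg fun h' => by omega,
            add_zero, add_zero]
        rw [hr_off lv ix G hκ]
        by_cases hκj : lv κ = i + 1 ∧ ix κ = j
        · rw [if_pos hκj, r2, hr_off lv ix G hκ, p2]
          unfold δN δC
          have hn1 : ¬ (lv κ = i + 1 ∧ InS M j (ix κ)) := fun h' => hjS (by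
            have h6 := h'.2
            rwa [hκj.2] at h6)
          have hn2 : ¬ (lv κ = i + 1 ∧ InS M (M - (n + 1)) (ix κ)) := by rw [← hj]; exact hn1
          have hn3 : lv κ = i + 1 ∧ InS M (M - n) (ix κ) := ⟨hκj.1, Or.inr (by omega)⟩
          rw [if_neg hn1, if_neg hn2, if_pos hn3, hκj.2, z1]
          abel
        · rw [if_neg hκj, r2, hr_off lv ix G hκ, p2]
          unfold δN δC
          rw [← hj, hjn]
          by_cases hS : lv κ = i + 1 ∧ InS M j (ix κ)
          · have hne : ix κ ≠ j := fun h' => hκj ⟨hS.1, h'⟩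
            rw [if_pos hS, if_pos hS, if_pos ⟨hS.1, inS_mono (by omega) hS.2⟩, z2 _ hne]
            have h7 : (4 * (n + 1) + 1) • G.t (Y₀ (ix κ)) = 2 • G.t (Y₀ (ix κ)) +
                (4 * n + 1) • G.t (Y₀ (ix κ)) + 2 • G.t (Y₀ (ix κ)) := by
              rw [← add_nsmul, ← add_nsmul]
              congr 1
              ring
            rw [h7]
            generalize (4 * n + 1) • G.t (Y₀ (ix κ)) = T₀
            generalize 2 • G.t (Y₀ (ix κ)) = T₁
            rw [add_assoc (s.r κ), add_assoc (s.r κ)]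
          · have hS' : ¬ (lv κ = i + 1 ∧ InS M (j + 1) (ix κ)) := by
              rintro ⟨h1, h2 | h2⟩
              · exact hS ⟨h1, Or.inl h2⟩
              · exact hS ⟨h1, Or.inr (by
                  have : ix κ ≠ j := fun h' => hκj ⟨h1, h'⟩
                  omega)⟩
            rw [if_neg hS, if_neg hS, if_neg hS']
            simp
      · change t.w = s.w
        rw [ht, hs₂, hs₁]
        rfl
    rw [hfin]
    unfold nst
    rw [← hj, run_append]
    refine ⟨s₁, hr1, ?_⟩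
    rw [run_append]
    exact ⟨s₂, hr2, hr3⟩

theorem br_zero_run {x : ι → α} {A : ℕ → X → X} {w₀ : W} {h : Hk}
    {low : List (Ins ι α (Sta X Md W m))} (hlow : Computes x (A 0) w₀ low) (hab : Above 0 h) :
    BrRun lv ix G d M x A w₀ 0 h (br lv ix G d P M low 0 h) := by
  intro s z hw hC
  obtain ⟨V, hV⟩ : ∃ V, V = A 0 z := ⟨_, rfl⟩
  rw [← hV] at hC ⊢
  obtain ⟨s₁, hs₁⟩ : ∃ s₁ : St X Md F W m, s₁ = ⟨z, s.q, s.a,
    fun κ => if lv κ = 0 ∧ ix κ < M then 0 else s.φ κ,
    fun κ => if lv κ = 0 ∧ ix κ = M then s.r κ + G.t z else s.r κ, s.w⟩ := ⟨_, rfl⟩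
  have hw₁ : (getL s₁).w = w₀ := by rw [hs₁]; exact hw
  obtain ⟨s₂, hs₂⟩ : ∃ s₂ : St X Md F W m, s₂ = putL s₁ ⟨A 0 (getL s₁).c, (getL s₁).w,
    (getL s₁).r⟩ := ⟨_, rfl⟩
  have f1 : ∀ κ, s₂.φ κ = if lv κ = 0 ∧ ix κ < M then 0 else s.φ κ := by
    intro κ; rw [hs₂, hs₁]; rfl
  have f2 : ∀ κ, s₂.r κ = if lv κ = 0 ∧ ix κ = M then s.r κ + G.t z else s.r κ := by
    intro κ; rw [hs₂, hs₁]; rfl
  have f6 : s₂.c = V := by rw [hs₂, hs₁, hV]; rfl
  have hloc : ∀ κ, At lv ix κ h → s.r κ = s₂.r κ ∧ s.φ κ = s₂.φ κ := by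
    intro κ hκ
    have h1 := lv_of_at lv ix hab hκ
    rw [f1, f2, if_neg fun h' => by omega, if_neg fun h' => by omega]
    exact ⟨rfl, rfl⟩
  unfold br
  rw [run_cons]
  refine ⟨s₁, ?_, ?_⟩
  · unfold guess0
    rw [rel_free]
    exact ⟨z, hs₁⟩
  rw [run_append]
  refine ⟨s₂, ?_, ?_⟩
  · rw [run_lift getL putL (fun _ => rfl) (fun _ _ => rfl) (fun _ _ _ => rfl)]
    exact ⟨_, (hlow _ _ hw₁).2 rfl, hs₂⟩
  rw [run_one, rel_free]
  refine ⟨?_, ?_⟩
  · rw [f6]
    exact HC_congr lv ix G h V hloc hC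
  · rw [f6]
    apply St.ext
    · rfl
    · change s.q = s₂.q
      rw [hs₂, hs₁]
      rfl
    · change ha h V s.a = ha h V s₂.a
      rw [hs₂, hs₁]
      rfl
    · funext κ
      change (if ZB lv ix M 0 κ then 0 else hφ lv ix G h V κ (s.r κ) (s.φ κ)) =
        hφ lv ix G h V κ (s₂.r κ) (s₂.φ κ)
      by_cases hκ : At lv ix κ h
      · have h1 := lv_of_at lv ix hab hκ
        rw [if_neg (by unfold ZB; omega), (hloc κ hκ).1, (hloc κ hκ).2]
      · rw [hφ_off lv ix G hκ, hφ_off lv ix G hκ, f1]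
        by_cases hlt : lv κ = 0 ∧ ix κ < M
        · rw [if_pos hlt, if_pos (show ZB lv ix M 0 κ from Or.inr hlt)]
        · rw [if_neg hlt, if_neg (by unfold ZB; omega)]
    · funext κ
      change hr lv ix G h V κ (s.r κ) + δB lv ix G M 0 z κ = hr lv ix G h V κ (s₂.r κ)
      by_cases hκ : At lv ix κ h
      · have h1 := lv_of_at lv ix hab hκ
        rw [(hloc κ hκ).1]
        unfold δB
        rw [if_neg fun h' => by omega, add_zero]
      · rw [hr_off lv ix G hκ, hr_off lv ix G hκ, f2]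
        unfold δB
        by_cases hS : lv κ = 0 ∧ ix κ = M
        · rw [if_pos hS, if_pos hS]
          unfold cnt
          rw [one_nsmul]
        · rw [if_neg hS, if_neg hS, add_zero]
    · change s.w = s₂.w
      rw [hs₂, hs₁]
      rfl

theorem br_run {x : ι → α} {A : ℕ → X → X} {w₀ : W}
    (hix : ∀ κ, ix κ ≤ M) (hP : ∀ i q, Prot.Hgt M (P i q))
    (hA : ∀ i q, A (i + 1) q = Prot.eval (A i) (P i q))
    {low : List (Ins ι α (Sta X Md W m))} (hlow : Computes x (A 0) w₀ low) (i : ℕ)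
    {h : Hk} (hab : Above i h) :
    BrRun lv ix G d M x A w₀ i h (br lv ix G d P M low i h) := by
  induction i generalizing h with
  | zero => exact br_zero_run hlow hab
  | succ i ih =>
    intro s z hw hC
    have h2 : Prot.eval (A i) (Prot.walk (P i z) (fun _ => z) 0) = A (i + 1) z := (hA i z).symm
    have hN := nst_run (G := G) (d := d) (P := P) (A := A) hix hP hab
      (L := br lv ix G d P M low i) (fun h' hh' => ih hh') M le_rfl s (fun _ => z) hw
    rw [Nat.sub_self, h2] at hN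
    have h1 := hN hC
    have h4 : Hon lv ix G d h (A (i + 1) z) (ZN lv ix M i M)
        (δN lv ix G M i M fun _ => z) s =
        Hon lv ix G d h (A (i + 1) z) (ZB lv ix M (i + 1)) (δB lv ix G M (i + 1) z) s := by
      unfold Hon
      congr 1
      · funext κ
        have h3 : ZN lv ix M i M κ ↔ ZB lv ix M (i + 1) κ := by
          unfold ZN ZB
          omega
        by_cases h4 : ZB lv ix M (i + 1) κ
        · rw [if_pos h4, if_pos (h3.2 h4)]
        · rw [if_neg h4, if_neg (fun h5 => h4 (h3.1 h5))]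
      · funext κ
        congr 1
        unfold δN δB
        have h3 : (lv κ = i + 1 ∧ InS M (M - M) (ix κ)) ↔ (lv κ = i + 1 ∧ ix κ = M) := by
          unfold InS
          omega
        by_cases h4 : lv κ = i + 1 ∧ ix κ = M
        · rw [if_pos h4, if_pos (h3.2 h4)]
          rfl
        · rw [if_neg h4, if_neg (fun h5 => h4 (h3.1 h5))]
    rw [← h4]
    exact h1

end SQ

end Pool.Agent.MP_6216ea_lc
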