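import Pool.Agent.Lib.MP_6216ea_lc.SQNest

/-! Soundness of the brackets of one composite level. -/

set_option autoImplicit false

namespace Pool.Agent.MP_6216ea_lc

namespace SQ

open Ins Pass

variable {ι α X Md F W : Type} [AddCommGroup Md] [AddCommGroup F] {m n₀ : ℕ}
  (lv ix : Fin m → ℕ) (G : MFP X Md F n₀) (d : X) (P : ℕ → X → Prot X) (M : ℕ)

/-! ### Hooks -/

theorem hφ_off {h : Hk} {κ : Fin m} (hκ : ¬ At lv ix κ h) (c : X) (ρ : Md) (ψ : F) :
    hφ lv ix G h c κ ρ ψ = ψ := by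
  cases h with
  | store i j => exact if_neg hκ
  | check i j u => exact if_neg hκ
  | last => rfl

theorem hr_off {h : Hk} {κ : Fin m} (hκ : ¬ At lv ix κ h) (c : X) (ρ : Md) :
    hr lv ix G h c κ ρ = ρ := by
  cases h with
  | store i j => rfl
  | check i j u => exact if_neg hκ
  | last => rfl

theorem HC_congr (h : Hk) (c : X) {r r' : Fin m → Md} {φ φ' : Fin m → F}
    (hh : ∀ κ, At lv ix κ h → r κ = r' κ ∧ φ κ = φ' κ) (H : HC lv ix G h c r φ) :
    HC lv ix G h c r' φ' := by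
  cases h with
  | store i j => trivial
  | check i j u =>
    intro κ h1 h2
    obtain ⟨h3, h4⟩ := hh κ ⟨h1, h2⟩
    rw [← h3, ← h4]
    exact H κ h1 h2
  | last => trivial

theorem lv_of_at {i : ℕ} {h : Hk} (hh : Above i h) {κ : Fin m} (hκ : At lv ix κ h) :
    i < lv κ := by
  cases h with
  | store i' j => rw [hκ.1]; exact hh
  | check i' j u => rw [hκ.1]; exact hh
  | last => exact hκ.elim

theorem wq_congr {i j : ℕ} {Y Y' : ℕ → X} (h : ∀ k, InS M j k → Y k = Y' k) :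
    wq d P M i j Y = wq d P M i j Y' := by
  unfold wq
  rw [h M (Or.inl rfl), Prot.walk_congr _ Y Y' j fun k hk => h k (Or.inr hk)]

/-! ### The claims -/

/-- The fingerprints emptied by a bracket of level `i`. -/
def ZB (i : ℕ) (κ : Fin m) : Prop := lv κ < i ∨ (lv κ = i ∧ ix κ < M)

instance (i : ℕ) : DecidablePred (ZB lv ix M i) := fun κ =>
  inferInstanceAs (Decidable (lv κ < i ∨ (lv κ = i ∧ ix κ < M)))

/-- The additions of a bracket of level `i`. -/
def δB (i : ℕ) (z : X) (κ : Fin m) : Md := if lv κ = i ∧ ix κ = M then cnt M i • G.t z else 0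

/-- The fingerprints emptied by the passes from item `M - n` on. -/
def ZN (i n : ℕ) (κ : Fin m) : Prop := lv κ < i + 1 ∨ (lv κ = i + 1 ∧ M - n ≤ ix κ ∧ ix κ < M)

instance (i n : ℕ) : DecidablePred (ZN lv ix M i n) := fun κ =>
  inferInstanceAs (Decidable (lv κ < i + 1 ∨ (lv κ = i + 1 ∧ M - n ≤ ix κ ∧ ix κ < M)))

/-- The additions of the passes from item `M - n` on. -/
def δN (i n : ℕ) (Y : ℕ → X) (κ : Fin m) : Md :=
  if lv κ = i + 1 ∧ InS M (M - n) (ix κ) then (4 * n + 1) • G.t (Y (ix κ)) else 0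

/-- The additions of a call. -/
def δC (i j : ℕ) (Y : ℕ → X) (κ : Fin m) : Md :=
  if lv κ = i + 1 ∧ InS M j (ix κ) then 2 • G.t (Y (ix κ)) else 0

/-- Soundness of a bracket `L` of level `i`. -/
def BrOK (x : ι → α) (A : ℕ → X → X) (w₀ : W) (i : ℕ) (h : Hk)
    (L : List (Ins ι α (St X Md F W m))) : Prop :=
  ∀ s t : St X Md F W m, s.w = w₀ → Run x L s t →
    t.w = s.w ∧ t.q = s.q ∧
    (∀ κ, i < lv κ → ¬ At lv ix κ h → t.r κ = s.r κ ∧ t.φ κ = s.φ κ) ∧
    ∃ l : List X, l.length = cnt M i ∧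
      (∀ κ, lv κ = i → ix κ = M → t.r κ = s.r κ + (l.map G.t).sum ∧ t.φ κ = s.φ κ) ∧
      ∀ z, (∀ y ∈ l, y = z) → HC lv ix G h (A i z) s.r s.φ ∧
        t = Hon lv ix G d h (A i z) (ZB lv ix M i) (δB lv ix G M i z) s

/-- Soundness of a call. -/
def CallOK (x : ι → α) (A : ℕ → X → X) (w₀ : W) (i j : ℕ) (h : Hk)
    (L : List (Ins ι α (St X Md F W m))) : Prop :=
  ∀ s t : St X Md F W m, s.w = w₀ → Run x L s t →
    t.w = s.w ∧ t.q = s.q ∧
    (∀ κ, i + 1 < lv κ → t.r κ = s.r κ ∧ t.φ κ = s.φ κ) ∧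
    ∃ Y₁ Y₂ : ℕ → X,
      (∀ κ, lv κ = i + 1 → InS M j (ix κ) →
        t.r κ = s.r κ + (G.t (Y₁ (ix κ)) + G.t (Y₂ (ix κ))) ∧ t.φ κ = s.φ κ) ∧
      ∀ Y₀ : ℕ → X, (∀ k, InS M j k → Y₁ k = Y₀ k ∧ Y₂ k = Y₀ k) →
        HC lv ix G h (A i (wq d P M i j Y₀)) s.r s.φ ∧
        t = Hon lv ix G d h (A i (wq d P M i j Y₀)) (fun κ => lv κ < i + 1)
          (δC lv ix G M i j Y₀) s

/-- Soundness of the passes from item `M - n` on. -/
def NOK (x : ι → α) (A : ℕ → X → X) (w₀ : W) (i : ℕ) (h : Hk) (n : ℕ)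
    (L : List (Ins ι α (St X Md F W m))) : Prop :=
  ∀ s t : St X Md F W m, s.w = w₀ → Run x L s t →
    t.w = s.w ∧ t.q = s.q ∧
    (∀ κ, i + 1 < lv κ → ¬ At lv ix κ h → t.r κ = s.r κ ∧ t.φ κ = s.φ κ) ∧
    ∃ LY : List (ℕ → X), LY.length = 4 * n + 1 ∧
      (∀ κ, lv κ = i + 1 → InS M (M - n) (ix κ) →
        t.r κ = s.r κ + (LY.map fun Y => G.t (Y (ix κ))).sum ∧ t.φ κ = s.φ κ) ∧
      ∀ Y₀ : ℕ → X, (∀ Y ∈ LY, ∀ k, InS M (M - n) k → Y k = Y₀ k) →
        HC lv ix G h (Prot.eval (A i) (Prot.walk (P i (Y₀ M)) Y₀ (M - n))) s.r s.φ ∧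
        t = Hon lv ix G d h (Prot.eval (A i) (Prot.walk (P i (Y₀ M)) Y₀ (M - n)))
          (ZN lv ix M i n) (δN lv ix G M i n Y₀) s

variable {lv ix G d P M}

theorem call_ok {x : ι → α} {A : ℕ → X → X} {w₀ : W} {i j : ℕ} {h : Hk}
    {L : Hk → List (Ins ι α (St X Md F W m))}
    (hix : ∀ κ, ix κ ≤ M) (hK : ∃ κ, lv κ = i ∧ ix κ = M) (hn : cnt M i ≤ n₀)
    (hj : j < M) (hat : ∀ κ, At lv ix κ h → lv κ = i + 1 ∧ ix κ = j)
    (hL : BrOK lv ix G d M x A w₀ i h (L h)) :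
    CallOK lv ix G d P M x A w₀ i j h (call lv ix G d P M L i j h) := by
  intro s t hw hrun
  have hjS : ¬ InS M j j := by
    rintro (h1 | h1) <;> omega
  unfold call at hrun
  rw [run_cons] at hrun
  obtain ⟨s₁, hs₁, hrun⟩ := hrun
  unfold beginI at hs₁
  rw [rel_free] at hs₁
  obtain ⟨Y₁, hs₁⟩ := hs₁
  rw [run_append] at hrun
  obtain ⟨s₂, hs₂, hrun⟩ := hrun
  rw [run_one] at hrun
  unfold endI at hrun
  rw [rel_free] at hrun
  obtain ⟨Y₂, hchk, ht⟩ := hrun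
  have hw₁ : s₁.w = w₀ := by rw [hs₁]; exact hw
  obtain ⟨b1, b2, b3, l, b4, b5, b6⟩ := hL s₁ s₂ hw₁ hs₂
  -- the first instruction
  have f1 : ∀ κ, s₁.φ κ = if lv κ = i ∧ ix κ = M then G.χ (wq d P M i j Y₁) (s.r κ)
      else s.φ κ := by
    intro κ; rw [hs₁]
  have f2 : ∀ κ, s₁.r κ = useR lv ix G M (i + 1) j Y₁ s.r κ := by
    intro κ; rw [hs₁]
  have f3 : s₁.q = s.q := by rw [hs₁]
  have f4 : s₁.a = s.a := by rw [hs₁]
  have f5 : s₁.w = s.w := by rw [hs₁]
  -- the last instruction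
  have e1 : ∀ κ, t.φ κ = if lv κ = i ∧ ix κ = M then 0 else s₂.φ κ := by
    intro κ; rw [ht]
  have e2 : ∀ κ, t.r κ = if lv κ = i ∧ ix κ = M then
      s₂.r κ - cnt M i • G.t (wq d P M i j Y₂) else useR lv ix G M (i + 1) j Y₂ s₂.r κ := by
    intro κ; rw [ht]
  have e3 : t.q = s₂.q := by rw [ht]
  have e4 : t.a = s₂.a := by rw [ht]
  have e5 : t.w = s₂.w := by rw [ht]
  have e6 : t.c = d := by rw [ht]
  refine ⟨by rw [e5, b1, f5], by rw [e3, b2, f3], ?_, Y₁, Y₂, ?_, ?_⟩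
  · intro κ hκ
    have hA : ¬ At lv ix κ h := fun h' => by have := (hat κ h').1; omega
    obtain ⟨c1, c2⟩ := b3 κ (by omega) hA
    have g1 : ¬ (lv κ = i ∧ ix κ = M) := fun h' => by omega
    have g2 : ¬ (lv κ = i + 1 ∧ InS M j (ix κ)) := fun h' => by omega
    rw [e1, e2, if_neg g1, if_neg g1, c2, f1, if_neg g1]
    unfold useR
    rw [if_neg g2, c1, f2]
    unfold useR
    rw [if_neg g2]
    exact ⟨rfl, rfl⟩
  · intro κ hκ hS
    have hA : ¬ At lv ix κ h := fun h' => by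
      have h2 := (hat κ h').2
      rw [h2] at hS
      exact hjS hS
    obtain ⟨c1, c2⟩ := b3 κ (by omega) hA
    have g1 : ¬ (lv κ = i ∧ ix κ = M) := fun h' => by omega
    rw [e1, e2, if_neg g1, if_neg g1, c2, f1, if_neg g1]
    unfold useR
    rw [if_pos ⟨hκ, hS⟩, c1, f2]
    unfold useR
    rw [if_pos ⟨hκ, hS⟩, add_assoc]
    exact ⟨rfl, rfl⟩
  · intro Y₀ hY
    have w1 : wq d P M i j Y₁ = wq d P M i j Y₀ := wq_congr d P M fun k hk => (hY k hk).1
    have w2 : wq d P M i j Y₂ = wq d P M i j Y₀ := wq_congr d P M fun k hk => (hY k hk).2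
    rw [w1] at f1
    rw [w2] at e2 hchk
    obtain ⟨κ₀, k1, k2⟩ := hK
    have hall : ∀ y ∈ l, y = wq d P M i j Y₀ := by
      apply G.multi _ l (by rw [b4]; exact hn)
      have h1 := hchk κ₀ k1 k2
      obtain ⟨h2, h3⟩ := b5 κ₀ k1 k2
      have h4 := f1 κ₀
      rw [if_pos ⟨k1, k2⟩] at h4
      have h5 : s₁.r κ₀ = s.r κ₀ := by
        rw [f2]
        unfold useR
        rw [if_neg fun h' => by omega]
      rw [h3, h4, h2, h5, map_sub, map_add] at h1
      rw [b4]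
      rw [sub_eq_iff_eq_add] at h1
      exact add_left_cancel h1
    obtain ⟨c1, c2⟩ := b6 _ hall
    obtain ⟨V, hV⟩ : ∃ V, V = A i (wq d P M i j Y₀) := ⟨_, rfl⟩
    rw [← hV] at c1 c2 ⊢
    have hloc : ∀ κ, At lv ix κ h → s₁.r κ = s.r κ ∧ s₁.φ κ = s.φ κ := by
      intro κ hκ
      obtain ⟨h1, h2⟩ := hat κ hκ
      rw [f1, f2, if_neg fun h' => by omega]
      unfold useR
      rw [if_neg fun h' => hjS (by have h3 := h'.2; rwa [h2] at h3)]
      exact ⟨rfl, rfl⟩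
    refine ⟨HC_congr lv ix G h V hloc c1, ?_⟩
    have g1 : ∀ κ, s₂.φ κ = if ZB lv ix M i κ then 0
        else hφ lv ix G h V κ (s₁.r κ) (s₁.φ κ) := by
      intro κ; rw [c2]; rfl
    have g2 : ∀ κ, s₂.r κ = hr lv ix G h V κ (s₁.r κ) +
        δB lv ix G M i (wq d P M i j Y₀) κ := by
      intro κ; rw [c2]; rfl
    apply St.ext
    · exact e6
    · change t.q = s.q
      rw [e3, b2, f3]
    · change t.a = ha h V s.a
      rw [e4, c2, ← f4]
      rfl
    · funext κ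
      change t.φ κ = if lv κ < i + 1 then 0 else hφ lv ix G h V κ (s.r κ) (s.φ κ)
      by_cases hlt : lv κ < i + 1
      · rw [if_pos hlt, e1]
        by_cases hM : lv κ = i ∧ ix κ = M
        · rw [if_pos hM]
        · rw [if_neg hM, g1, if_pos]
          have := hix κ
          unfold ZB
          omega
      · rw [if_neg hlt, e1, if_neg fun h' => by omega, g1, if_neg (by unfold ZB; omega), f1,
          if_neg fun h' => by omega]
        by_cases hκ : At lv ix κ h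
        · rw [(hloc κ hκ).1]
        · rw [hφ_off lv ix G hκ, hφ_off lv ix G hκ]
    · funext κ
      change t.r κ = hr lv ix G h V κ (s.r κ) + δC lv ix G M i j Y₀ κ
      rw [e2]
      by_cases hM : lv κ = i ∧ ix κ = M
      · have hA : ¬ At lv ix κ h := fun h' => by have := (hat κ h').1; omega
        rw [if_pos hM, g2, hr_off lv ix G hA, hr_off lv ix G hA, f2]
        unfold useR δB δC
        rw [if_pos hM, if_neg fun h' => by omega, if_neg fun h' => by omega,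
          add_sub_cancel_right, add_zero]
      · rw [if_neg hM]
        unfold useR
        rw [g2, f2]
        unfold useR δB δC
        rw [if_neg hM]
        by_cases hS : lv κ = i + 1 ∧ InS M j (ix κ)
        · have hA : ¬ At lv ix κ h := fun h' => by
            have h2 := (hat κ h').2
            have h3 := hS.2
            rw [h2] at h3
            exact hjS h3
          rw [if_pos hS, if_pos hS, if_pos hS, hr_off lv ix G hA, hr_off lv ix G hA,
            (hY _ hS.2).1, (hY _ hS.2).2, add_zero, two_nsmul, add_assoc]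
        · rw [if_neg hS, if_neg hS, if_neg hS]
    · change t.w = s.w
      rw [e5, b1, f5]

end SQ

end Pool.Agent.MP_6216ea_lc
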