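import Pool.Agent.Lib.MP_6216ea_lc.SQSem

/-! Soundness of all brackets. -/

set_option autoImplicit false

namespace Pool.Agent.MP_6216ea_lc

namespace SQ

open Ins Pass

variable {ι α X Md F W : Type} [AddCommGroup Md] [AddCommGroup F] {m n₀ : ℕ}
  {lv ix : Fin m → ℕ} {G : MFP X Md F n₀} {d : X} {P : ℕ → X → Prot X} {M : ℕ}

theorem res_eq {Q : Prot X} (hQ : Prot.Hgt M Q) (A : X → X) (Y : ℕ → X) :
    Prot.res d (Prot.walk Q Y M) = Prot.eval A (Prot.walk Q Y M) := by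
  have h1 := Prot.hgt_walk hQ Y M
  rw [Nat.sub_self] at h1
  generalize Prot.walk Q Y M = R at h1
  cases R with
  | ret x => rfl
  | call q k => exact h1.elim

theorem eval_step (A : X → X) (Q : Prot X) (Y : ℕ → X) (j : ℕ)
    (hY : Y j = A (Prot.ask d (Prot.walk Q Y j))) :
    Prot.eval A (Prot.walk Q Y (j + 1)) = Prot.eval A (Prot.walk Q Y j) := by
  rw [Prot.walk, hY]
  generalize Prot.walk Q Y j = R
  cases R with
  | ret x => rfl
  | call q k => rfl

theorem inS_mono {j j' k : ℕ} (h : j ≤ j') (hk : InS M j k) : InS M j' k := by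
  rcases hk with h1 | h1
  · exact Or.inl h1
  · exact Or.inr (lt_of_lt_of_le h1 h)

theorem nst_zero_ok {x : ι → α} {A : ℕ → X → X} {w₀ : W} {i : ℕ} {h : Hk}
    (hP : ∀ i q, Prot.Hgt M (P i q)) (hab : Above (i + 1) h)
    (L : Hk → List (Ins ι α (St X Md F W m))) :
    NOK lv ix G d P M x A w₀ i h 0 (nst lv ix G d P M L i h 0) := by
  intro s t hw hrun
  unfold nst at hrun
  rw [run_cons] at hrun
  obtain ⟨s₁, hs₁, hrun⟩ := hrun
  unfold midI at hs₁
  rw [rel_free] at hs₁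
  obtain ⟨Y, hs₁⟩ := hs₁
  rw [run_one, rel_free] at hrun
  obtain ⟨hC, ht⟩ := hrun
  have f1 : ∀ κ, s₁.φ κ = if lv κ < i + 1 then 0 else s.φ κ := by
    intro κ; rw [hs₁]
  have f2 : ∀ κ, s₁.r κ = useR lv ix G M (i + 1) M Y s.r κ := by
    intro κ; rw [hs₁]
  have f3 : s₁.q = s.q := by rw [hs₁]
  have f4 : s₁.a = s.a := by rw [hs₁]
  have f5 : s₁.w = s.w := by rw [hs₁]
  have f6 : s₁.c = Prot.res d (Prot.walk (P i (Y M)) Y M) := by rw [hs₁]
  have e1 : ∀ κ, t.φ κ = hφ lv ix G h s₁.c κ (s₁.r κ) (s₁.φ κ) := by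
    intro κ; rw [ht]
  have e2 : ∀ κ, t.r κ = hr lv ix G h s₁.c κ (s₁.r κ) := by
    intro κ; rw [ht]
  have e3 : t.q = s₁.q := by rw [ht]
  have e4 : t.a = ha h s₁.c s₁.a := by rw [ht]
  have e5 : t.w = s₁.w := by rw [ht]
  have e6 : t.c = d := by rw [ht]
  have hup : ∀ κ, i + 1 < lv κ → s₁.r κ = s.r κ ∧ s₁.φ κ = s.φ κ := by
    intro κ hκ
    rw [f1, f2, if_neg (by omega)]
    unfold useR
    rw [if_neg fun h' => by omega]
    exact ⟨rfl, rfl⟩
  refine ⟨by rw [e5, f5], by rw [e3, f3], ?_, [Y], rfl, ?_, ?_⟩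
  · intro κ hκ hA
    rw [e1, e2, hφ_off lv ix G hA, hr_off lv ix G hA]
    exact hup κ hκ
  · intro κ hκ hS
    have hA : ¬ At lv ix κ h := fun h' => by have := lv_of_at lv ix hab h'; omega
    rw [e1, e2, hφ_off lv ix G hA, hr_off lv ix G hA, f1, f2, if_neg (by omega)]
    unfold useR
    rw [Nat.sub_zero] at hS
    rw [if_pos ⟨hκ, hS⟩]
    simp
  · intro Y₀ hY
    rw [Nat.sub_zero] at hY ⊢
    have hY' : ∀ k, InS M M k → Y k = Y₀ k := fun k hk => hY Y (by simp) k hk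
    have hV : s₁.c = Prot.eval (A i) (Prot.walk (P i (Y₀ M)) Y₀ M) := by
      rw [f6, res_eq (hP _ _) (A i), hY' M (Or.inl rfl),
        Prot.walk_congr _ Y Y₀ M fun k hk => hY' k (Or.inr hk)]
    rw [← hV]
    have hloc : ∀ κ, At lv ix κ h → s₁.r κ = s.r κ ∧ s₁.φ κ = s.φ κ := fun κ hκ =>
      hup κ (lv_of_at lv ix hab hκ)
    refine ⟨HC_congr lv ix G h _ hloc hC, ?_⟩
    apply St.ext
    · exact e6
    · change t.q = s.q
      rw [e3, f3]
    · change t.a = ha h s₁.c s.a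
      rw [e4, f4]
    · funext κ
      change t.φ κ = if ZN lv ix M i 0 κ then 0 else hφ lv ix G h s₁.c κ (s.r κ) (s.φ κ)
      rw [e1]
      by_cases hκ : At lv ix κ h
      · have h1 := lv_of_at lv ix hab hκ
        rw [if_neg (by unfold ZN; omega), (hloc κ hκ).1, (hloc κ hκ).2]
      · rw [hφ_off lv ix G hκ, hφ_off lv ix G hκ, f1]
        by_cases hlt : lv κ < i + 1
        · rw [if_pos hlt, if_pos (show ZN lv ix M i 0 κ from Or.inl hlt)]
        · rw [if_neg hlt, if_neg (by unfold ZN; omega)]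
    · funext κ
      change t.r κ = hr lv ix G h s₁.c κ (s.r κ) + δN lv ix G M i 0 Y₀ κ
      rw [e2]
      by_cases hκ : At lv ix κ h
      · have h1 := lv_of_at lv ix hab hκ
        rw [(hloc κ hκ).1]
        unfold δN
        rw [if_neg fun h' => by omega, add_zero]
      · rw [hr_off lv ix G hκ, hr_off lv ix G hκ, f2]
        unfold useR δN
        rw [Nat.sub_zero]
        by_cases hS : lv κ = i + 1 ∧ InS M M (ix κ)
        · rw [if_pos hS, if_pos hS, hY' _ hS.2]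
          simp
        · rw [if_neg hS, if_neg hS, add_zero]
    · change t.w = s.w
      rw [e5, f5]

theorem nst_succ_ok {x : ι → α} {A : ℕ → X → X} {w₀ : W} {i : ℕ} {h : Hk}
    (hix : ∀ κ, ix κ ≤ M) (hK : ∀ i' ≤ i + 1, ∀ k ≤ M, ∃ κ, lv κ = i' ∧ ix κ = k)
    (hn₀ : 4 * M + 1 ≤ n₀) (hab : Above (i + 1) h)
    {L : Hk → List (Ins ι α (St X Md F W m))}
    (hL : ∀ h', Above i h' → BrOK lv ix G d M x A w₀ i h' (L h')) {n : ℕ} (hn : n + 1 ≤ M)
    (ih : NOK lv ix G d P M x A w₀ i h n (nst lv ix G d P M L i h n)) :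
    NOK lv ix G d P M x A w₀ i h (n + 1) (nst lv ix G d P M L i h (n + 1)) := by
  intro s t hw hrun
  unfold nst at hrun
  obtain ⟨j, hj⟩ : ∃ j, j = M - (n + 1) := ⟨_, rfl⟩
  have hjn : M - n = j + 1 := by omega
  have hjM : j < M := by omega
  have hcnt : cnt M i ≤ n₀ := by
    cases i with
    | zero =>
      change 1 ≤ n₀
      omega
    | succ i => exact hn₀
  rw [← hj] at hrun ⊢
  rw [run_append] at hrun
  obtain ⟨s₁, hr1, hrun⟩ := hrun
  rw [run_append] at hrun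
  obtain ⟨s₂, hr2, hr3⟩ := hrun
  have hC1 := call_ok (P := P) hix (hK i (by omega) M le_rfl) hcnt hjM
    (h := .store (i + 1) j) (fun κ hκ => hκ) (hL (.store (i + 1) j) (Nat.lt_succ_self i))
  have hC3 := call_ok (P := P) hix (hK i (by omega) M le_rfl) hcnt hjM
    (h := .check (i + 1) j (4 * n + 1)) (fun κ hκ => hκ)
    (hL (.check (i + 1) j (4 * n + 1)) (Nat.lt_succ_self i))
  obtain ⟨a1, a2, a3, Y₁, Y₂, a4, a5⟩ := hC1 s s₁ hw hr1
  obtain ⟨b1, b2, b3, LY, b4, b5, b6⟩ := ih s₁ s₂ (by rw [a1]; exact hw) hr2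
  obtain ⟨c1, c2, c3, Y₃, Y₄, c4, c5⟩ := hC3 s₂ t (by rw [b1, a1]; exact hw) hr3
  rw [hjn] at b5 b6
  have hjS : ¬ InS M j j := by
    rintro (h1 | h1) <;> omega
  refine ⟨by rw [c1, b1, a1], by rw [c2, b2, a2], ?_, Y₁ :: Y₂ :: (LY ++ [Y₃, Y₄]), ?_, ?_, ?_⟩
  · intro κ hκ hA
    obtain ⟨h1, h2⟩ := a3 κ hκ
    obtain ⟨h3, h4⟩ := b3 κ hκ hA
    obtain ⟨h5, h6⟩ := c3 κ hκ
    exact ⟨by rw [h5, h3, h1], by rw [h6, h4, h2]⟩
  · simp only [List.length_cons, List.length_append, List.length_nil, b4]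
    ring
  · intro κ hκ hS
    obtain ⟨h1, h2⟩ := a4 κ hκ hS
    obtain ⟨h3, h4⟩ := b5 κ hκ (inS_mono (by omega) hS)
    obtain ⟨h5, h6⟩ := c4 κ hκ hS
    refine ⟨?_, by rw [h6, h4, h2]⟩
    rw [h5, h3, h1]
    simp only [List.map_cons, List.map_append, List.map_nil, List.sum_cons, List.sum_append,
      List.sum_nil]
    abel
  · intro Y₀ hY
    have hY1 : ∀ k, InS M j k → Y₁ k = Y₀ k ∧ Y₂ k = Y₀ k := fun k hk =>
      ⟨hY Y₁ (by simp) k hk, hY Y₂ (by simp) k hk⟩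
    have hY3 : ∀ k, InS M j k → Y₃ k = Y₀ k ∧ Y₄ k = Y₀ k := fun k hk =>
      ⟨hY Y₃ (by simp) k hk, hY Y₄ (by simp) k hk⟩
    obtain ⟨a, ha'⟩ : ∃ a, a = A i (wq d P M i j Y₀) := ⟨_, rfl⟩
    obtain ⟨-, g1⟩ := a5 Y₀ hY1
    obtain ⟨g2, g3⟩ := c5 Y₀ hY3
    rw [← ha'] at g1 g2 g3
    -- the state after the first call
    have p1 : ∀ κ, s₁.φ κ = if lv κ < i + 1 then 0 else
        if lv κ = i + 1 ∧ ix κ = j then G.χ a (s.r κ) else s.φ κ := by
      intro κ; rw [g1]; rfl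
    have p2 : ∀ κ, s₁.r κ = s.r κ + δC lv ix G M i j Y₀ κ := by
      intro κ; rw [g1]; rfl
    have p3 : s₁.q = s.q := by rw [g1]; rfl
    have p4 : s₁.a = s.a := by rw [g1]; rfl
    -- the answers
    obtain ⟨κ₁, k1, k2⟩ := hK (i + 1) le_rfl j (by omega)
    have hall : ∀ Y ∈ LY, Y j = a := by
      have hl : ∀ y ∈ LY.map (fun Y : ℕ → X => Y j), y = a := by
        apply G.multi _ (LY.map (fun Y : ℕ → X => Y j)) (by rw [List.length_map, b4]; omega)
        have h1 := g2 κ₁ k1 k2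
        obtain ⟨h2, h3⟩ := b5 κ₁ k1 (Or.inr (by omega))
        have h4 := p1 κ₁
        rw [if_neg (by omega), if_pos ⟨k1, k2⟩] at h4
        have h5 := p2 κ₁
        unfold δC at h5
        rw [if_neg (fun h' => hjS (by have h6 := h'.2; rwa [k2] at h6)), add_zero] at h5
        rw [h3, h4, h2, h5, map_sub, map_add, sub_eq_iff_eq_add] at h1
        have h6 := add_left_cancel h1
        rw [List.length_map, b4, List.map_map]
        rw [k2] at h6
        exact h6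
      intro Y hYL
      exact hl _ (List.mem_map_of_mem hYL)
    obtain ⟨Z₀, hZ⟩ : ∃ Z₀, Z₀ = Function.update Y₀ j a := ⟨_, rfl⟩
    have z1 : Z₀ j = a := by rw [hZ, Function.update_self]
    have z2 : ∀ k, k ≠ j → Z₀ k = Y₀ k := fun k hk => by rw [hZ, Function.update_of_ne hk]
    have hLY : ∀ Y ∈ LY, ∀ k, InS M (j + 1) k → Y k = Z₀ k := by
      intro Y hYL k hk
      by_cases hkj : k = j
      · rw [hkj, z1]
        exact hall Y hYL
      · rw [z2 k hkj]
        refine hY Y (by simp [hYL]) k ?_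
        rcases hk with h1 | h1
        · exact Or.inl h1
        · exact Or.inr (by omega)
    obtain ⟨q1, q2⟩ := b6 Z₀ hLY
    have hV : Prot.eval (A i) (Prot.walk (P i (Z₀ M)) Z₀ (j + 1)) =
        Prot.eval (A i) (Prot.walk (P i (Y₀ M)) Y₀ j) := by
      rw [z2 M (by omega)]
      have hwk : Prot.walk (P i (Y₀ M)) Z₀ j = Prot.walk (P i (Y₀ M)) Y₀ j :=
        Prot.walk_congr _ _ _ _ fun k hk => z2 k (by omega)
      rw [eval_step (d := d) (A i) (P i (Y₀ M)) Z₀ j, hwk]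
      rw [z1, ha', hwk]
      rfl
    rw [hV] at q1 q2
    obtain ⟨V, hV'⟩ : ∃ V, V = Prot.eval (A i) (Prot.walk (P i (Y₀ M)) Y₀ j) := ⟨_, rfl⟩
    rw [← hV'] at q1 q2 ⊢
    have hup : ∀ κ, i + 1 < lv κ → s₁.r κ = s.r κ ∧ s₁.φ κ = s.φ κ := a3
    have hloc : ∀ κ, At lv ix κ h → s₁.r κ = s.r κ ∧ s₁.φ κ = s.φ κ := fun κ hκ =>
      hup κ (lv_of_at lv ix hab hκ)
    have r1 : ∀ κ, s₂.φ κ = if ZN lv ix M i n κ then 0
        else hφ lv ix G h V κ (s₁.r κ) (s₁.φ κ) := by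
      intro κ; rw [q2]; rfl
    have r2 : ∀ κ, s₂.r κ = hr lv ix G h V κ (s₁.r κ) + δN lv ix G M i n Z₀ κ := by
      intro κ; rw [q2]; rfl
    have u1 : ∀ κ, t.φ κ = if lv κ < i + 1 then 0 else
        if lv κ = i + 1 ∧ ix κ = j then 0 else s₂.φ κ := by
      intro κ; rw [g3]; rfl
    have u2 : ∀ κ, t.r κ = (if lv κ = i + 1 ∧ ix κ = j then s₂.r κ - (4 * n + 1) • G.t a
        else s₂.r κ) + δC lv ix G M i j Y₀ κ := by
      intro κ; rw [g3]; rfl
    refine ⟨HC_congr lv ix G h V hloc q1, ?_⟩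
    apply St.ext
    · rw [g3]; rfl
    · change t.q = s.q
      rw [c2, b2, a2]
    · change t.a = ha h V s.a
      rw [← p4]
      have h1 : t.a = s₂.a := by rw [g3]; rfl
      rw [h1, q2]
      rfl
    · funext κ
      change t.φ κ = if ZN lv ix M i (n + 1) κ then 0 else hφ lv ix G h V κ (s.r κ) (s.φ κ)
      rw [u1]
      by_cases hlt : lv κ < i + 1
      · rw [if_pos hlt, if_pos (show ZN lv ix M i (n + 1) κ from Or.inl hlt)]
      rw [if_neg hlt]
      by_cases hκj : lv κ = i + 1 ∧ ix κ = j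
      · rw [if_pos hκj, if_pos (show ZN lv ix M i (n + 1) κ from
          Or.inr ⟨hκj.1, by omega, by omega⟩)]
      rw [if_neg hκj, r1]
      by_cases hZn : ZN lv ix M i n κ
      · rw [if_pos hZn, if_pos]
        unfold ZN at hZn ⊢
        omega
      · rw [if_neg hZn, if_neg (by unfold ZN at hZn ⊢; omega)]
        by_cases hκ : At lv ix κ h
        · rw [(hloc κ hκ).1, (hloc κ hκ).2]
        · rw [hφ_off lv ix G hκ, hφ_off lv ix G hκ, p1, if_neg hlt, if_neg hκj]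
    · funext κ
      change t.r κ = hr lv ix G h V κ (s.r κ) + δN lv ix G M i (n + 1) Y₀ κ
      rw [u2]
      by_cases hκ : At lv ix κ h
      · have h1 := lv_of_at lv ix hab hκ
        rw [if_neg fun h' => by omega, r2, (hloc κ hκ).1]
        unfold δN δC
        rw [if_neg fun h' => by omega, if_neg fun h' => by omega, if_neg fun h' => by omega,
          add_zero, add_zero]
      rw [hr_off lv ix G hκ]
      by_cases hκj : lv κ = i + 1 ∧ ix κ = j
      · rw [if_pos hκj, r2, hr_off lv ix G hκ, p2]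
        unfold δN δC
        have hn1 : ¬ (lv κ = i + 1 ∧ InS M j (ix κ)) := fun h' => hjS (by
          have h6 := h'.2
          rwa [hκj.2] at h6)
        have hn2 : ¬ (lv κ = i + 1 ∧ InS M (M - (n + 1)) (ix κ)) := by rw [← hj]; exact hn1
        have hn3 : lv κ = i + 1 ∧ InS M (M - n) (ix κ) := ⟨hκj.1, Or.inr (by omega)⟩
        rw [if_neg hn1, if_neg hn2, if_pos hn3, hκj.2, z1]
        abel
      · rw [if_neg hκj, r2, hr_off lv ix G hκ, p2]
        unfold δN δC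
        rw [← hj, hjn]
        by_cases hS : lv κ = i + 1 ∧ InS M j (ix κ)
        · have hne : ix κ ≠ j := fun h' => hκj ⟨hS.1, h'⟩
          rw [if_pos hS, if_pos hS, if_pos ⟨hS.1, inS_mono (by omega) hS.2⟩, z2 _ hne]
          have h7 : (4 * (n + 1) + 1) • G.t (Y₀ (ix κ)) = 2 • G.t (Y₀ (ix κ)) +
              (4 * n + 1) • G.t (Y₀ (ix κ)) + 2 • G.t (Y₀ (ix κ)) := by
            rw [← add_nsmul, ← add_nsmul]
            congr 1
            ring
          rw [h7]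
          generalize (4 * n + 1) • G.t (Y₀ (ix κ)) = T₀
          generalize 2 • G.t (Y₀ (ix κ)) = T₁
          rw [add_assoc (s.r κ), add_assoc (s.r κ)]
        · have hS' : ¬ (lv κ = i + 1 ∧ InS M (j + 1) (ix κ)) := by
            rintro ⟨h1, h2 | h2⟩
            · exact hS ⟨h1, Or.inl h2⟩
            · exact hS ⟨h1, Or.inr (by
                have : ix κ ≠ j := fun h' => hκj ⟨h1, h'⟩
                omega)⟩
          rw [if_neg hS, if_neg hS, if_neg hS']
          simp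
    · change t.w = s.w
      rw [c1, b1, a1]

theorem nst_ok {x : ι → α} {A : ℕ → X → X} {w₀ : W} {i : ℕ} {h : Hk}
    (hix : ∀ κ, ix κ ≤ M) (hK : ∀ i' ≤ i + 1, ∀ k ≤ M, ∃ κ, lv κ = i' ∧ ix κ = k)
    (hP : ∀ i q, Prot.Hgt M (P i q)) (hn₀ : 4 * M + 1 ≤ n₀) (hab : Above (i + 1) h)
    {L : Hk → List (Ins ι α (St X Md F W m))}
    (hL : ∀ h', Above i h' → BrOK lv ix G d M x A w₀ i h' (L h')) {n : ℕ} (hn : n ≤ M) :
    NOK lv ix G d P M x A w₀ i h n (nst lv ix G d P M L i h n) := by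
  induction n with
  | zero => exact nst_zero_ok hP hab L
  | succ n ih => exact nst_succ_ok hix hK hn₀ hab hL hn (ih (by omega))

theorem br_zero_ok {x : ι → α} {A : ℕ → X → X} {w₀ : W} {h : Hk}
    {low : List (Ins ι α (Sta X Md W m))} (hlow : Computes x (A 0) w₀ low) (hab : Above 0 h) :
    BrOK lv ix G d M x A w₀ 0 h (br lv ix G d P M low 0 h) := by
  intro s t hw hrun
  unfold br at hrun
  rw [run_cons] at hrun
  obtain ⟨s₁, hs₁, hrun⟩ := hrun
  unfold guess0 at hs₁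
  rw [rel_free] at hs₁
  obtain ⟨z, hs₁⟩ := hs₁
  rw [run_append] at hrun
  obtain ⟨s₂, hs₂, hrun⟩ := hrun
  rw [run_lift getL putL (fun _ => rfl) (fun _ _ => rfl) (fun _ _ _ => rfl)] at hs₂
  obtain ⟨v, hv, hs₂⟩ := hs₂
  have hw₁ : s₁.w = s.w := by rw [hs₁]
  rw [hlow _ _ (show (getL s₁).w = w₀ by change s₁.w = w₀; rw [hw₁]; exact hw)] at hv
  rw [run_one, rel_free] at hrun
  obtain ⟨hC, ht⟩ := hrun
  have f1 : ∀ κ, s₂.φ κ = if lv κ = 0 ∧ ix κ < M then 0 else s.φ κ := by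
    intro κ; rw [hs₂, hs₁]; rfl
  have f2 : ∀ κ, s₂.r κ = if lv κ = 0 ∧ ix κ = M then s.r κ + G.t z else s.r κ := by
    intro κ; rw [hs₂, hv, hs₁]; rfl
  have f3 : s₂.q = s.q := by rw [hs₂, hs₁]; rfl
  have f4 : s₂.a = s.a := by rw [hs₂, hs₁]; rfl
  have f5 : s₂.w = s.w := by rw [hs₂, hv]; exact hw₁
  have f6 : s₂.c = A 0 z := by rw [hs₂, hv, hs₁]; rfl
  have e1 : ∀ κ, t.φ κ = hφ lv ix G h s₂.c κ (s₂.r κ) (s₂.φ κ) := by
    intro κ; rw [ht]
  have e2 : ∀ κ, t.r κ = hr lv ix G h s₂.c κ (s₂.r κ) := by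
    intro κ; rw [ht]
  have e3 : t.q = s₂.q := by rw [ht]
  have e4 : t.a = ha h s₂.c s₂.a := by rw [ht]
  have e5 : t.w = s₂.w := by rw [ht]
  have e6 : t.c = d := by rw [ht]
  have hup : ∀ κ, 0 < lv κ → s₂.r κ = s.r κ ∧ s₂.φ κ = s.φ κ := by
    intro κ hκ
    rw [f1, f2, if_neg fun h' => by omega, if_neg fun h' => by omega]
    exact ⟨rfl, rfl⟩
  refine ⟨by rw [e5, f5], by rw [e3, f3], ?_, [z], rfl, ?_, ?_⟩
  · intro κ hκ hA
    rw [e1, e2, hφ_off lv ix G hA, hr_off lv ix G hA]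
    exact hup κ hκ
  · intro κ h1 h2
    have hA : ¬ At lv ix κ h := fun h' => by have := lv_of_at lv ix hab h'; omega
    rw [e1, e2, hφ_off lv ix G hA, hr_off lv ix G hA, f1, f2, if_pos ⟨h1, h2⟩,
      if_neg fun h' => absurd h'.2 (by omega)]
    simp
  · intro z' hz'
    have hzz : z = z' := hz' z (by simp)
    rw [← hzz, ← f6]
    have hloc : ∀ κ, At lv ix κ h → s₂.r κ = s.r κ ∧ s₂.φ κ = s.φ κ := fun κ hκ =>
      hup κ (lv_of_at lv ix hab hκ)
    refine ⟨HC_congr lv ix G h _ hloc hC, ?_⟩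
    apply St.ext
    · exact e6
    · change t.q = s.q
      rw [e3, f3]
    · change t.a = ha h s₂.c s.a
      rw [e4, f4]
    · funext κ
      change t.φ κ = if ZB lv ix M 0 κ then 0 else hφ lv ix G h s₂.c κ (s.r κ) (s.φ κ)
      rw [e1]
      by_cases hκ : At lv ix κ h
      · have h1 := lv_of_at lv ix hab hκ
        rw [if_neg (by unfold ZB; omega), (hloc κ hκ).1, (hloc κ hκ).2]
      · rw [hφ_off lv ix G hκ, hφ_off lv ix G hκ, f1]
        by_cases hlt : lv κ = 0 ∧ ix κ < M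
        · rw [if_pos hlt, if_pos (show ZB lv ix M 0 κ from Or.inr hlt)]
        · rw [if_neg hlt, if_neg (by unfold ZB; omega)]
    · funext κ
      change t.r κ = hr lv ix G h s₂.c κ (s.r κ) + δB lv ix G M 0 z κ
      rw [e2]
      by_cases hκ : At lv ix κ h
      · have h1 := lv_of_at lv ix hab hκ
        rw [(hloc κ hκ).1]
        unfold δB
        rw [if_neg fun h' => by omega, add_zero]
      · rw [hr_off lv ix G hκ, hr_off lv ix G hκ, f2]
        unfold δB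
        by_cases hS : lv κ = 0 ∧ ix κ = M
        · rw [if_pos hS, if_pos hS]
          unfold cnt
          rw [one_nsmul]
        · rw [if_neg hS, if_neg hS, add_zero]
    · change t.w = s.w
      rw [e5, f5]

theorem br_ok {x : ι → α} {A : ℕ → X → X} {w₀ : W}
    (hix : ∀ κ, ix κ ≤ M) (hP : ∀ i q, Prot.Hgt M (P i q)) (hn₀ : 4 * M + 1 ≤ n₀)
    (hA : ∀ i q, A (i + 1) q = Prot.eval (A i) (P i q))
    {low : List (Ins ι α (Sta X Md W m))} (hlow : Computes x (A 0) w₀ low) (i : ℕ)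
    (hK : ∀ i' ≤ i, ∀ k ≤ M, ∃ κ, lv κ = i' ∧ ix κ = k) {h : Hk} (hab : Above i h) :
    BrOK lv ix G d M x A w₀ i h (br lv ix G d P M low i h) := by
  induction i generalizing h with
  | zero => exact br_zero_ok hlow hab
  | succ i ih =>
    intro s t hw hrun
    have hN := nst_ok (G := G) (d := d) (P := P) (A := A) hix hK hP hn₀ hab
      (L := br lv ix G d P M low i)
      (fun h' hh' => ih (fun i' hi' k hk => hK i' (by omega) k hk) hh') (le_refl M)
    obtain ⟨a1, a2, a3, LY, a4, a5, a6⟩ := hN s t hw hrun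
    rw [Nat.sub_self] at a5 a6
    refine ⟨a1, a2, a3, LY.map (fun Y : ℕ → X => Y M), ?_, ?_, ?_⟩
    · rw [List.length_map, a4]
      rfl
    · intro κ h1 h2
      have h3 := a5 κ h1 (Or.inl h2)
      rw [h2] at h3
      rw [List.map_map]
      exact h3
    · intro z hz
      have h1 := a6 (fun _ => z) (by
        intro Y hY k hk
        rcases hk with h2 | h2
        · rw [h2]
          exact hz _ (List.mem_map_of_mem hY)
        · omega)
      have h2 : Prot.eval (A i) (Prot.walk (P i z) (fun _ => z) 0) = A (i + 1) z := (hA i z).symm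
      rw [h2] at h1
      refine ⟨h1.1, h1.2.trans ?_⟩
      unfold Hon
      congr 1
      · funext κ
        have h3 : ZN lv ix M i M κ ↔ ZB lv ix M (i + 1) κ := by
          unfold ZN ZB
          omega
        by_cases h4 : ZB lv ix M (i + 1) κ
        · rw [if_pos h4, if_pos (h3.2 h4)]
        · rw [if_neg h4, if_neg (fun h5 => h4 (h3.1 h5))]
      · funext κ
        congr 1
        unfold δN δB
        have h3 : (lv κ = i + 1 ∧ InS M (M - M) (ix κ)) ↔ (lv κ = i + 1 ∧ ix κ = M) := by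
          unfold InS
          omega
        by_cases h4 : lv κ = i + 1 ∧ ix κ = M
        · rw [if_pos h4, if_pos (h3.2 h4)]
          rfl
        · rw [if_neg h4, if_neg (fun h5 => h4 (h3.1 h5))]

end SQ

end Pool.Agent.MP_6216ea_lc
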