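import Pool.Agent.Lib.MP_6216ea_lc.DCUniDefs
import Pool.Agent.Lib.MP_6216ea_lc.OPComp

/-! Letters of a nondeterministic branching program are replaced by clocked walks; unambiguity and
the number of queries. -/

set_option autoImplicit false

namespace Pool.Agent.MP_6216ea_lc

namespace LetterNBP

variable {ι α κ β U : Type}

/-- Paths and lists of steps. -/
theorem comp_snoc {P : LetterNBP ι α} {x : ι → α} {u v w : P.V} {l : Option (ι × α)}
    {tr : List (Option (ι × α) × P.V)} (h : P.Comp x u tr v) (he : P.edge v l w)
    (hl : ∀ i a, l = some (i, a) → x i = a) : P.Comp x u (tr ++ [(l, w)]) w := by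
  induction h with
  | nil u => exact .cons he hl (.nil _)
  | cons he' hl' _ ih => exact .cons he' hl' (ih he)

theorem comp_of_path {P : LetterNBP ι α} {x : ι → α} {T : ℕ} {u v : P.V} (h : P.Path x T u v) :
    ∃ tr, P.Comp x u tr v := by
  induction h with
  | nil u => exact ⟨[], .nil _⟩
  | free _ he ih =>
    obtain ⟨tr, htr⟩ := ih
    exact ⟨_, comp_snoc htr he (by simp)⟩
  | query i _ he ih =>
    obtain ⟨tr, htr⟩ := ih
    refine ⟨_, comp_snoc htr he ?_⟩
    intro j a hja
    simp only [Option.some.injEq, Prod.mk.injEq] at hja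
    rw [← hja.1]
    exact hja.2

theorem path_trans {P : LetterNBP ι α} {x : ι → α} {T T' : ℕ} {u v w : P.V}
    (h : P.Path x T u v) (h' : P.Path x T' v w) : ∃ T'', P.Path x T'' u w := by
  induction h' with
  | nil _ => exact ⟨T, h⟩
  | free _ he ih =>
    obtain ⟨T'', hT⟩ := ih h
    exact ⟨T'', .free hT he⟩
  | query i _ he ih =>
    obtain ⟨T'', hT⟩ := ih h
    exact ⟨T'' + 1, .query i hT he⟩

theorem path_of_comp {P : LetterNBP ι α} {x : ι → α} {u v : P.V}
    {tr : List (Option (ι × α) × P.V)} (h : P.Comp x u tr v) : ∃ T, P.Path x T u v := by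
  induction h with
  | nil u => exact ⟨0, .nil _⟩
  | @cons u v w l tr he hl _ ih =>
    obtain ⟨T, hT⟩ := ih
    cases l with
    | none => exact path_trans (.free (.nil u) he) hT
    | some p =>
      obtain ⟨i, a⟩ := p
      have hx := hl i a rfl
      subst hx
      exact path_trans (.query i (.nil u) he) hT

theorem accepts_iff_comp {P : LetterNBP ι α} {x : ι → α} :
    P.Accepts x ↔ ∃ tr, P.Comp x P.source tr P.target :=
  ⟨fun ⟨_, h⟩ => comp_of_path h, fun ⟨_, h⟩ => path_of_comp h⟩

/-! ### The substitution -/

/-- The vertices: old vertices, and (target, expected letter, node of the walk, remaining steps). -/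
abbrev SV (B : LetterNBP κ β) (U : Type) (N : ℕ) : Type := B.V ⊕ (B.V × β × U × Fin (N + 1))

/-- The edges of the program with walks. -/
inductive SEdge (B : LetterNBP κ β) (mv : U → ι × (α → U)) (st : κ → U) (out : U → β) (N : ℕ) :
    SV B U N → Option (ι × α) → SV B U N → Prop
  | free {u v : B.V} : B.edge u none v → SEdge B mv st out N (.inl u) none (.inl v)
  | enter {u v : B.V} {k : κ} {b : β} : B.edge u (some (k, b)) v →
      SEdge B mv st out N (.inl u) none (.inr (v, b, st k, Fin.last N))
  | step (v : B.V) (b : β) (w : U) {c : ℕ} (hc : c + 1 < N + 1) (a : α) :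
      SEdge B mv st out N (.inr (v, b, w, ⟨c + 1, hc⟩)) (some ((mv w).1, a))
        (.inr (v, b, (mv w).2 a, ⟨c, by omega⟩))
  | leave (v : B.V) {b : β} {w : U} : out w = b →
      SEdge B mv st out N (.inr (v, b, w, 0)) none (.inl v)

/-- Every letter is replaced by a walk of `N` steps. -/
def sbst [Fintype U] [Fintype β] (B : LetterNBP κ β) (mv : U → ι × (α → U)) (st : κ → U)
    (out : U → β) (N : ℕ) : LetterNBP ι α where
  V := SV B U N
  fin := inferInstance
  edge := SEdge B mv st out N
  source := .inl B.source
  target := .inl B.target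

variable [Fintype U] [Fintype β] (B : LetterNBP κ β) (mv : U → ι × (α → U)) (st : κ → U)
  (out : U → β) (N : ℕ) (x : ι → α)

theorem sbst_card : Fintype.card (B.sbst mv st out N).V =
    Fintype.card B.V * (1 + Fintype.card β * (Fintype.card U * (N + 1))) := by
  change Fintype.card (B.V ⊕ (B.V × β × U × Fin (N + 1))) = _
  simp only [Fintype.card_sum, Fintype.card_prod, Fintype.card_fin]
  ring

/-- The list of steps of a walk. -/
def wl (v : B.V) (b : β) : (c : ℕ) → c < N + 1 → U → List (Option (ι × α) × SV B U N)
  | 0, _, _ => []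
  | c + 1, hc, w => (some ((mv w).1, x (mv w).1), .inr (v, b, (mv w).2 (x (mv w).1),
      ⟨c, by omega⟩)) :: wl v b c (by omega) ((mv w).2 (x (mv w).1))

/-- The list of steps for a list of steps of the old program. -/
def fl : List (Option (κ × β) × B.V) → List (Option (ι × α) × SV B U N)
  | [] => []
  | (none, v) :: o => (none, .inl v) :: fl o
  | (some (k, b), v) :: o => (none, .inr (v, b, st k, Fin.last N)) ::
      (wl B mv N x v b N (by omega) (st k) ++ (none, .inl v) :: fl o)

/-- The walk from a vertex. -/
theorem sbst_walk {v : B.V} {b : β} (c : ℕ) (hc : c < N + 1) (w : U)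
    {tr : List (Option (ι × α) × SV B U N)} {z : (B.sbst mv st out N).V}
    (hout : out ((LetterDBP.wlk mv x)^[c] w) = b)
    (h : (B.sbst mv st out N).Comp x (.inl v) tr z) :
    (B.sbst mv st out N).Comp x (.inr (v, b, w, (⟨c, hc⟩ : Fin (N + 1))))
      (wl B mv N x v b c hc w ++ (none, .inl v) :: tr) z := by
  induction c generalizing w with
  | zero => exact .cons (SEdge.leave v hout) (by simp) h
  | succ c ih =>
    refine .cons (SEdge.step v b w hc (x (mv w).1)) ?_ (ih (by omega) _ ?_)
    · intro i a hia
      simp only [Option.some.injEq, Prod.mk.injEq] at hia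
      rw [← hia.1]
      exact hia.2
    · rw [Function.iterate_succ_apply] at hout
      exact hout

/-- The letters. -/
def ltr (k : κ) : β := out ((LetterDBP.wlk mv x)^[N] (st k))

theorem sbst_comp {u v : B.V} {o : List (Option (κ × β) × B.V)}
    (h : B.Comp (ltr mv st out N x) u o v) :
    (B.sbst mv st out N).Comp x (.inl u) (fl B mv st N x o) (.inl v) := by
  induction h with
  | nil u => exact .nil _
  | @cons u v w l tr he hl _ ih =>
    cases l with
    | none => exact .cons (SEdge.free he) (by simp) ih
    | some p =>
      obtain ⟨k, b⟩ := p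
      exact .cons (SEdge.enter he) (by simp)
        (sbst_walk B mv st out N x N (by omega) (st k) (hl k b rfl) ih)

/-- Every computation is of this form. -/
theorem comp_sbst (tr : List (Option (ι × α) × (B.sbst mv st out N).V)) :
    ∀ s : (B.sbst mv st out N).V,
    (B.sbst mv st out N).Comp x s tr (B.sbst mv st out N).target →
    (∀ u, s = .inl u → ∃ o, B.Comp (ltr mv st out N x) u o B.target ∧ tr = fl B mv st N x o) ∧
    (∀ v b w c (hc : c < N + 1), s = .inr (v, b, w, ⟨c, hc⟩) →
      out ((LetterDBP.wlk mv x)^[c] w) = b ∧ ∃ o, B.Comp (ltr mv st out N x) v o B.target ∧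
        tr = wl B mv N x v b c hc w ++ (none, .inl v) :: fl B mv st N x o) := by
  induction tr with
  | nil =>
    intro s h
    generalize ht : (B.sbst mv st out N).target = t at h
    cases h
    subst ht
    constructor
    · intro u hu
      have : B.target = u := Sum.inl.inj hu
      subst this
      exact ⟨[], .nil _, rfl⟩
    · intro v b w c hc hs
      cases hs
  | cons p tr ih =>
    intro s h
    generalize ht : (B.sbst mv st out N).target = t at h
    cases h with
    | @cons _ s' _ l _ he hl hr =>
      subst ht
      obtain ⟨ih1, ih2⟩ := ih s' hr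
      have he' : SEdge B mv st out N s l s' := he
      cases he' with
      | @free u v he1 =>
        constructor
        · intro u' hu'
          have := Sum.inl.inj hu'
          subst this
          obtain ⟨o, ho, htr⟩ := ih1 v rfl
          exact ⟨(none, v) :: o, .cons he1 (by simp) ho, by rw [htr]; rfl⟩
        · intro v b w c hc hs
          cases hs
      | @enter u v k b he1 =>
        constructor
        · intro u' hu'
          have := Sum.inl.inj hu'
          subst this
          obtain ⟨h1, o, ho, htr⟩ := ih2 v b (st k) N (by omega) rfl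
          refine ⟨(some (k, b), v) :: o, .cons he1 ?_ ho, by rw [htr]; rfl⟩
          intro k' b' hkb
          simp only [Option.some.injEq, Prod.mk.injEq] at hkb
          rw [← hkb.1, ← hkb.2]
          exact h1
        · intro v b w c hc hs
          cases hs
      | @step v b w c hc a =>
        constructor
        · intro u hu
          cases hu
        · intro v' b' w' c' hc' hs
          have h0 := Sum.inr.inj hs
          simp only [Prod.mk.injEq, Fin.mk.injEq] at h0
          obtain ⟨rfl, rfl, rfl, rfl⟩ := h0
          have hx : x (mv w).1 = a := hl _ _ rfl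
          subst hx
          obtain ⟨h1, o, ho, htr⟩ := ih2 _ _ _ c (by omega) rfl
          refine ⟨?_, o, ho, by rw [htr]; rfl⟩
          rw [Function.iterate_succ_apply]
          exact h1
      | @leave v b w hw =>
        constructor
        · intro u hu
          cases hu
        · intro v' b' w' c' hc' hs
          have h0 := Sum.inr.inj hs
          simp only [Prod.mk.injEq] at h0
          obtain ⟨rfl, rfl, rfl, h3⟩ := h0
          have h4 : c' = 0 := by
            have := congrArg Fin.val h3
            exact this.symm
          subst h4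
          obtain ⟨o, ho, htr⟩ := ih1 v rfl
          exact ⟨hw, o, ho, by rw [htr]; rfl⟩

theorem sbst_accepts : (B.sbst mv st out N).Accepts x ↔ B.Accepts (ltr mv st out N x) := by
  rw [accepts_iff_comp, accepts_iff_comp]
  constructor
  · rintro ⟨tr, h⟩
    obtain ⟨o, ho, -⟩ := (comp_sbst B mv st out N x tr _ h).1 B.source rfl
    exact ⟨o, ho⟩
  · rintro ⟨o, h⟩
    exact ⟨_, sbst_comp B mv st out N x h⟩

theorem sbst_unambiguous (hB : B.Unambiguous) : (B.sbst mv st out N).Unambiguous := by
  intro x tr tr' h h'
  obtain ⟨o, ho, h1⟩ := (comp_sbst B mv st out N x tr _ h).1 B.source rfl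
  obtain ⟨o', ho', h1'⟩ := (comp_sbst B mv st out N x tr' _ h').1 B.source rfl
  rw [h1, h1', hB _ _ _ ho ho']

/-- What a vertex reached with `T` queries means. -/
def SInv (T : ℕ) : SV B U N → Prop
  | .inl v => ∃ q, T ≤ q * N ∧ B.Path (ltr mv st out N x) q B.source v
  | .inr (v, b, w, c) => ∃ q u k, T + c.val ≤ (q + 1) * N ∧
      B.Path (ltr mv st out N x) q B.source u ∧ B.edge u (some (k, b)) v ∧
      (LetterDBP.wlk mv x)^[c.val] w = (LetterDBP.wlk mv x)^[N] (st k)

omit [Fintype U] [Fintype β] in
theorem sinv_edge {T T' : ℕ} {s s' : SV B U N} {l : Option (ι × α)}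
    (he : SEdge B mv st out N s l s') (hl : ∀ i a, l = some (i, a) → x i = a)
    (hT : T' = T + if l.isSome then 1 else 0) (h : SInv B mv st out N x T s) :
    SInv B mv st out N x T' s' := by
  cases he with
  | free he =>
    obtain ⟨q, hq, hp⟩ := h
    exact ⟨q, by simpa [hT] using hq, .free hp he⟩
  | @enter u v k b he =>
    obtain ⟨q, hq, hp⟩ := h
    refine ⟨q, u, k, ?_, hp, he, rfl⟩
    simp only [Option.isSome_none, Bool.false_eq_true, if_false, add_zero] at hT
    rw [hT, Fin.val_last, add_mul, one_mul]
    omega
  | @step v b w c hc a =>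
    obtain ⟨q, u, k, hq, hp, he, hw⟩ := h
    have hx : x (mv w).1 = a := hl _ _ rfl
    subst hx
    refine ⟨q, u, k, ?_, hp, he, ?_⟩
    · simp only [Option.isSome_some, if_true] at hT
      simp only at hq ⊢
      omega
    · simp only at hw ⊢
      rw [Function.iterate_succ_apply] at hw
      exact hw
  | @leave v b w hw =>
    obtain ⟨q, u, k, hq, hp, he, hw'⟩ := h
    refine ⟨q + 1, ?_, ?_⟩
    · simp only [Option.isSome_none, Bool.false_eq_true, if_false, add_zero] at hT
      rw [hT]
      exact (Nat.le_add_right _ _).trans hq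
    · have hk : ltr mv st out N x k = b := by
        unfold ltr
        rw [← hw', ← hw]
        rfl
      rw [← hk] at he
      exact .query k hp he

theorem sbst_queries {T : ℕ} (hB : B.QueriesAtMost T) :
    (B.sbst mv st out N).QueriesAtMost ((T + 1) * N) := by
  intro x T' v h
  have key : ∀ {T' : ℕ} {s v : (B.sbst mv st out N).V}, (B.sbst mv st out N).Path x T' s v →
      s = .inl B.source → SInv B mv st out N x T' v := by
    intro T' s v h
    induction h with
    | nil u =>
      intro hs
      subst hs
      exact ⟨0, by omega, .nil _⟩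
    | free _ he ih => exact fun hs => sinv_edge B mv st out N x he (by simp) (by simp) (ih hs)
    | query i _ he ih =>
      intro hs
      refine sinv_edge B mv st out N x he ?_ (by simp) (ih hs)
      intro j a hja
      simp only [Option.some.injEq, Prod.mk.injEq] at hja
      rw [← hja.1]
      exact hja.2
  have h1 := key h rfl
  rcases v with v | ⟨v, b, w, c⟩
  · obtain ⟨q, hq, hp⟩ := h1
    have h2 := hB _ _ _ hp
    calc T' ≤ q * N := hq
      _ ≤ (T + 1) * N := Nat.mul_le_mul_right _ (by omega)
  · obtain ⟨q, u, k, hq, hp, -, -⟩ := h1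
    have h2 := hB _ _ _ hp
    calc T' ≤ T' + c.val := Nat.le_add_right _ _
      _ ≤ (q + 1) * N := hq
      _ ≤ (T + 1) * N := Nat.mul_le_mul_right _ (by omega)

end LetterNBP

end Pool.Agent.MP_6216ea_lc
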