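import Pool.Agent.Lib.MP_6216ea_lc.SQComp
import Pool.Agent.Lib.MP_6216ea_lc.DCUni
import Pool.Agent.Lib.MP_6216ea_lc.DCBase

/-! The branching program for iterated adaptive composition with multi-use registers. -/

set_option autoImplicit false

namespace Pool.Agent.MP_6216ea_lc

namespace SQ

open Ins Pass

/-- Iterated adaptive composition: `b * g` levels with `g` clear questions. -/
theorem thmS {ι α X : Type} [Fintype X] (d : X) (D e p M : ℕ) (code : X → Fin D → Fin e)
    (hcode : Function.Injective code) (hp : (4 * M + 1) * (D * e ^ 2) < p)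
    (pos : X → Option ι) (bs : X → Option α → X)
    (A : (ι → α) → ℕ → X → X) (h0 : ∀ x q, A x 0 q = bs q ((pos q).map x))
    (P : ℕ → X → Prot X) (hP : ∀ i q, Prot.Hgt M (P i q))
    (hA : ∀ x i q, A x (i + 1) q = Prot.eval (A x i) (P i q)) (acc : X → Prop) (q₀ : X)
    (b g : ℕ) :
    ∃ B : LetterNBP ι α, Fintype.card B.V ≤ 6 * (2 * M + 2) ^ ((b + 1) * g) *
        (Fintype.card X ^ (2 * g + 1) * p ^ ((b + 1) * (M + 1) * (g + (D + 1)))) ∧
      B.QueriesAtMost (6 * (2 * M + 2) ^ ((b + 1) * g)) ∧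
      ∀ x, B.Accepts x ↔ acc (A x (b * g) q₀) := by
  classical
  have : NeZero p := ⟨by omega⟩
  let G := MFP.ofCode p (4 * M + 1) code hcode hp
  let base : Ins ι α (Sta X ((Fin D → ZMod p) × ZMod p) Unit ((b + 1) * (M + 1))) :=
    baseI pos bs
  let L := progS (F := ZMod p) G d P M b base g ++
    [free fun s t => acc s.c ∧ t = ⟨d, s.w, s.r⟩]
  have hlen : L.length + 1 ≤ 6 * (2 * M + 2) ^ ((b + 1) * g) := by
    have := len_progS (F := ZMod p) G d P M b base g
    simp only [L, List.length_append, List.length_cons, List.length_nil]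
    omega
  refine ⟨compile L ⟨q₀, wc d g, 0⟩ ⟨d, wc d g, 0⟩, ?_, ?_, ?_⟩
  · rw [card_compile, card_sta, card_wc]
    have hF : Fintype.card (ZMod p) = p := ZMod.card _
    have hMd : Fintype.card ((Fin D → ZMod p) × ZMod p) = p ^ (D + 1) := by
      rw [Fintype.card_prod, Fintype.card_fun, Fintype.card_fin, hF, pow_succ]
    rw [hF, hMd]
    refine Nat.mul_le_mul hlen (le_of_eq ?_)
    rw [mul_pow, ← pow_mul (Fintype.card X) 2 g, ← pow_mul p ((b + 1) * (M + 1)) g,
      ← pow_mul p (D + 1) ((b + 1) * (M + 1)), mul_add ((b + 1) * (M + 1)) g (D + 1),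
      pow_add p, mul_comm (D + 1) ((b + 1) * (M + 1)), pow_succ (Fintype.card X) (2 * g)]
    ring
  · intro x T v h
    exact (compile_queries _ _ _ x T v h).trans (by omega)
  · intro x
    rw [compile_accepts]
    have hc := progS_computes (F := ZMod p) G d P M b hP le_rfl base x (A x)
      (by
        have := base_computes (Md := (Fin D → ZMod p) × ZMod p) (m := (b + 1) * (M + 1)) pos bs x
        have e : A x 0 = fun q => bs q ((pos q).map x) := funext fun q => h0 x q
        rw [e]
        exact this) (hA x) g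
    simp only [L]
    rw [run_append]
    constructor
    · rintro ⟨u, hu, hv⟩
      rw [hc _ _ rfl] at hu
      subst hu
      rw [run_one, rel_free] at hv
      exact hv.1
    · intro h
      refine ⟨_, (hc _ _ rfl).2 rfl, ?_⟩
      rw [run_one, rel_free]
      exact ⟨h, rfl⟩

open QA

/-- Explicit form for pushdown programs. -/
theorem push_explicitS {ι α : Type} (P : PushProg ι α) (b g D e p t : ℕ) (hb : t ≤ 2 ^ (b * g))
    (hD : 2 * (Fintype.card P.S * (2 ^ (b * g) + 1)) ^ 2 ≤ e ^ D)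
    (hp : 25 * (D * e ^ 2) < p) :
    ∃ B : LetterNBP ι α, Fintype.card B.V ≤ 6 * 14 ^ ((b + 1) * g) *
        ((e ^ D) ^ (2 * g + 1) * p ^ ((b + 1) * 7 * (g + (D + 1)))) ∧
      B.QueriesAtMost (6 * 14 ^ ((b + 1) * g)) ∧ ∀ x, B.Accepts x ↔ P.AcceptsIn x t := by
  classical
  obtain ⟨T, hT⟩ : ∃ T, T = 2 ^ (b * g) := ⟨_, rfl⟩
  rw [← hT] at hb hD
  have hcX : Fintype.card (QA P.S T) ≤ e ^ D := by
    rw [QA.card]
    exact hD
  have hcard : Fintype.card (QA P.S T) ≤ Fintype.card (Fin D → Fin e) := by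
    rw [Fintype.card_fun, Fintype.card_fin, Fintype.card_fin]
    exact hcX
  obtain ⟨code⟩ := Function.Embedding.nonempty_of_card_le hcard
  have h := thmS (ι := ι) (α := α) (X := QA P.S T)
    (QA.ask P.start 0 P.start 0) D e p 6 code code.injective hp
    P.absorb.qpos P.absorb.qbas (fun x i => P.absorb.lev T x i)
    (fun x q => rfl) (fun i q => split (2 ^ i) q) (fun i q => hgt_split _ _)
    (fun x i q => rfl) P.absorb.QAcc (QA.ask P.start 0 P.start t) b g
  obtain ⟨B, hB, hQ, hacc⟩ := h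
  refine ⟨B, hB.trans ?_, hQ, fun x => ?_⟩
  · refine Nat.mul_le_mul_left _ (Nat.mul_le_mul_right _ (Nat.pow_le_pow_left hcX _))
  · rw [hacc x]
    exact (P.accepts_lev x (b * g) t (by rw [hT]) (by rw [← hT]; exact hb)).symm

end SQ

end Pool.Agent.MP_6216ea_lc
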