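import Pool.Agent.Lib.MP_6216ea_lc.SQComp
import Pool.Agent.Lib.MP_6216ea_lc.DCLevelU

/-! The programs have at most one complete run. -/

set_option autoImplicit false

namespace Pool.Agent.MP_6216ea_lc

namespace SQ

open Ins Pass

variable {ι α X Md F W : Type} [AddCommGroup Md] [AddCommGroup F] {m n₀ : ℕ}
  {lv ix : Fin m → ℕ} {G : MFP X Md F n₀} {d : X} {P : ℕ → X → Prot X} {M : ℕ}

/-- A bracket has at most one run to an honest end. -/
def BrMid (lv ix : Fin m → ℕ) (G : MFP X Md F n₀) (d : X) (M : ℕ) (x : ι → α) (A : ℕ → X → X)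
    (w₀ : W) (i : ℕ) (h : Hk) (L : List (Ins ι α (St X Md F W m))) : Prop :=
  ∀ (s : St X Md F W m) (z : X), s.w = w₀ →
    Mid x L s (Hon lv ix G d h (A i z) (ZB lv ix M i) (δB lv ix G M i z) s)

theorem multi_eq (G : MFP X Md F n₀) {l : List X} {k : ℕ} {z : X} (hl : l.length = k)
    (hk : k ≤ n₀) (h : (l.map G.t).sum = k • G.t z) : ∀ y ∈ l, y = z := by
  subst hl
  exact G.multi z l hk (by rw [h])

/-- The memory after the begin of a call with the guesses `Y`. -/
def begS (lv ix : Fin m → ℕ) (G : MFP X Md F n₀) (d : X) (P : ℕ → X → Prot X) (M i j : ℕ)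
    (Y : ℕ → X) (s : St X Md F W m) : St X Md F W m :=
  ⟨d, s.q, s.a, fun κ => if lv κ = i ∧ ix κ = M then G.χ (wq d P M i j Y) (s.r κ) else s.φ κ,
    useR lv ix G M (i + 1) j Y s.r, s.w⟩

theorem begS_congr {i j : ℕ} {Y Y' : ℕ → X} (h : ∀ k, InS M j k → Y k = Y' k)
    (s : St X Md F W m) : begS lv ix G d P M i j Y s = begS lv ix G d P M i j Y' s := by
  unfold begS
  rw [wq_congr d P M h]
  congr 1
  funext κ
  unfold useR
  by_cases h1 : lv κ = i + 1 ∧ InS M j (ix κ)
  · rw [if_pos h1, if_pos h1, h _ h1.2]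
  · rw [if_neg h1, if_neg h1]

theorem call_forced {x : ι → α} {A : ℕ → X → X} {w₀ : W} {i j : ℕ} {h : Hk}
    {L : Hk → List (Ins ι α (St X Md F W m))}
    (hK : ∃ κ, lv κ = i ∧ ix κ = M) (hK' : ∀ k ≤ M, ∃ κ, lv κ = i + 1 ∧ ix κ = k)
    (hn : cnt M i ≤ n₀) (hn2 : 2 ≤ n₀)
    (hj : j < M) (hat : ∀ κ, At lv ix κ h → lv κ = i + 1 ∧ ix κ = j)
    (hL : BrOK lv ix G d M x A w₀ i h (L h)) {s s₂ t : St X Md F W m} (hw : s.w = w₀)
    (Y₀ Y₁ Y₂ : ℕ → X) (hrun : Run x (L h) (begS lv ix G d P M i j Y₁ s) s₂)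
    (hchk : ∀ κ, lv κ = i → ix κ = M → G.χ (wq d P M i j Y₂)
      (s₂.r κ - cnt M i • G.t (wq d P M i j Y₂)) = s₂.φ κ)
    (ht : ∀ κ, lv κ = i + 1 → t.r κ = useR lv ix G M (i + 1) j Y₂ s₂.r κ)
    (ht' : t = Hon lv ix G d h (A i (wq d P M i j Y₀)) (fun κ => lv κ < i + 1)
        (δC lv ix G M i j Y₀) s) :
    begS lv ix G d P M i j Y₁ s = begS lv ix G d P M i j Y₀ s ∧
      s₂ = Hon lv ix G d h (A i (wq d P M i j Y₀)) (ZB lv ix M i)
        (δB lv ix G M i (wq d P M i j Y₀)) (begS lv ix G d P M i j Y₀ s) := by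
  have hjS : ¬ InS M j j := by
    rintro (h1 | h1) <;> omega
  obtain ⟨b1, b2, b3, l, b4, b5, b6⟩ := hL _ s₂ (show (begS lv ix G d P M i j Y₁ s).w = w₀
    from hw) hrun
  have hYY : ∀ k, InS M j k → Y₁ k = Y₀ k ∧ Y₂ k = Y₀ k := by
    intro k hk
    have hkM : k ≤ M := by
      rcases hk with h1 | h1 <;> omega
    obtain ⟨κ, k1, k2⟩ := hK' k hkM
    have hS : InS M j (ix κ) := by rw [k2]; exact hk
    have hA : ¬ At lv ix κ h := fun h' => by
      have h2 := (hat κ h').2
      rw [h2] at hS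
      exact hjS hS
    have h1 := ht κ k1
    unfold useR at h1
    rw [if_pos ⟨k1, hS⟩, (b3 κ (by omega) hA).1] at h1
    have h2 : (begS lv ix G d P M i j Y₁ s).r κ = s.r κ + G.t (Y₁ (ix κ)) := by
      change useR lv ix G M (i + 1) j Y₁ s.r κ = _
      unfold useR
      rw [if_pos ⟨k1, hS⟩]
    have h3 : t.r κ = s.r κ + 2 • G.t (Y₀ (ix κ)) := by
      rw [ht']
      change hr lv ix G h _ κ (s.r κ) + δC lv ix G M i j Y₀ κ = _
      rw [hr_off lv ix G hA]
      unfold δC
      rw [if_pos ⟨k1, hS⟩]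
    rw [h2, h3, add_assoc] at h1
    have h4 := add_left_cancel h1
    rw [k2] at h4
    have h5 := multi_eq G (l := [Y₁ k, Y₂ k]) (k := 2) (z := Y₀ k) rfl hn2 (by
      rw [h4]
      simp)
    exact ⟨h5 _ (by simp), h5 _ (by simp)⟩
  have w1 : begS lv ix G d P M i j Y₁ s = begS lv ix G d P M i j Y₀ s :=
    begS_congr (fun k hk => (hYY k hk).1) s
  have w2 : wq d P M i j Y₂ = wq d P M i j Y₀ := wq_congr d P M fun k hk => (hYY k hk).2
  refine ⟨w1, ?_⟩
  rw [w1] at b5 b6
  rw [w2] at hchk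
  obtain ⟨κ₀, k1, k2⟩ := hK
  have hall : ∀ y ∈ l, y = wq d P M i j Y₀ := by
    apply G.multi _ l (by rw [b4]; exact hn)
    have h1 := hchk κ₀ k1 k2
    obtain ⟨h2, h3⟩ := b5 κ₀ k1 k2
    have h4 : (begS lv ix G d P M i j Y₀ s).φ κ₀ = G.χ (wq d P M i j Y₀) (s.r κ₀) :=
      if_pos ⟨k1, k2⟩
    have h5 : (begS lv ix G d P M i j Y₀ s).r κ₀ = s.r κ₀ := if_neg fun h' => by omega
    rw [h3, h4, h2, h5, map_sub, map_add, sub_eq_iff_eq_add] at h1
    rw [b4]
    exact add_left_cancel h1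
  exact (b6 _ hall).2

theorem call_mid {x : ι → α} {A : ℕ → X → X} {w₀ : W} {i j : ℕ} {h : Hk}
    {L : Hk → List (Ins ι α (St X Md F W m))}
    (hK : ∃ κ, lv κ = i ∧ ix κ = M) (hK' : ∀ k ≤ M, ∃ κ, lv κ = i + 1 ∧ ix κ = k)
    (hn : cnt M i ≤ n₀) (hn2 : 2 ≤ n₀)
    (hj : j < M) (hat : ∀ κ, At lv ix κ h → lv κ = i + 1 ∧ ix κ = j)
    (hL : BrOK lv ix G d M x A w₀ i h (L h)) (hM : BrMid lv ix G d M x A w₀ i h (L h))
    (s : St X Md F W m) (Y₀ : ℕ → X) (hw : s.w = w₀) :
    Mid x (call lv ix G d P M L i j h) s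
      (Hon lv ix G d h (A i (wq d P M i j Y₀)) (fun κ => lv κ < i + 1)
        (δC lv ix G M i j Y₀) s) := by
  obtain ⟨t, ht⟩ : ∃ t, t = Hon lv ix G d h (A i (wq d P M i j Y₀)) (fun κ => lv κ < i + 1)
        (δC lv ix G M i j Y₀) s := ⟨_, rfl⟩
  rw [← ht]
  have key : ∀ v s₂ : St X Md F W m, Rel x (beginI lv ix G d P M i j) s v → Run x (L h) v s₂ →
      Run x [endI lv ix G d P M i j] s₂ t → v = begS lv ix G d P M i j Y₀ s ∧
      s₂ = Hon lv ix G d h (A i (wq d P M i j Y₀)) (ZB lv ix M i)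
        (δB lv ix G M i (wq d P M i j Y₀)) (begS lv ix G d P M i j Y₀ s) := by
    intro v s₂ h1 h2 h3
    unfold beginI at h1
    rw [rel_free] at h1
    obtain ⟨Y₁, hY₁⟩ := h1
    have hv : v = begS lv ix G d P M i j Y₁ s := hY₁
    rw [run_one] at h3
    unfold endI at h3
    rw [rel_free] at h3
    obtain ⟨Y₂, hchk, hY₂⟩ := h3
    rw [hv] at h2
    have h4 := call_forced (P := P) hK hK' hn hn2 hj hat hL hw Y₀ Y₁ Y₂ h2 hchk
      (t := t) (by
        intro κ hκ
        rw [hY₂]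
        exact if_neg fun h' => by omega) ht
    exact ⟨hv.trans h4.1, h4.2⟩
  unfold call
  refine mid_cons ?_ ?_
  · intro v v' h1 h2 h3 h4
    rw [run_append] at h2 h4
    obtain ⟨u, hu, hu'⟩ := h2
    obtain ⟨u₁, hu₁, hu₁'⟩ := h4
    rw [(key v u h1 hu hu').1, (key v' u₁ h3 hu₁ hu₁').1]
  · intro v h1 h2
    refine mid_append ?_ ?_ ?_
    · intro u u' a1 a2 a3 a4
      rw [(key v u h1 a1 a2).2, (key v u' h1 a3 a4).2]
    · intro u a1 a2
      obtain ⟨e1, e2⟩ := key v u h1 a1 a2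
      rw [e1, e2]
      exact hM _ _ (by exact hw)
    · intro u _ _
      exact mid_one _ _ _ _

theorem nst_mid {x : ι → α} {A : ℕ → X → X} {w₀ : W} {i : ℕ} {h : Hk}
    (hix : ∀ κ, ix κ ≤ M) (hK : ∀ i' ≤ i + 1, ∀ k ≤ M, ∃ κ, lv κ = i' ∧ ix κ = k)
    (hP : ∀ i q, Prot.Hgt M (P i q)) (hn₀ : 4 * M + 1 ≤ n₀) (hab : Above (i + 1) h)
    {L : Hk → List (Ins ι α (St X Md F W m))}
    (hL : ∀ h', Above i h' → BrOK lv ix G d M x A w₀ i h' (L h'))
    (hM : ∀ h', Above i h' → BrMid lv ix G d M x A w₀ i h' (L h')) (n : ℕ) (hn : n ≤ M)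
    (s : St X Md F W m) (Y₀ : ℕ → X) (hw : s.w = w₀) :
    Mid x (nst lv ix G d P M L i h n) s
      (Hon lv ix G d h (Prot.eval (A i) (Prot.walk (P i (Y₀ M)) Y₀ (M - n)))
        (ZN lv ix M i n) (δN lv ix G M i n Y₀) s) := by
  induction n generalizing s Y₀ with
  | zero =>
    rw [Nat.sub_zero]
    obtain ⟨V, hV⟩ : ∃ V, V = Prot.eval (A i) (Prot.walk (P i (Y₀ M)) Y₀ M) := ⟨_, rfl⟩
    rw [← hV]
    obtain ⟨t, ht⟩ : ∃ t, t = Hon lv ix G d h V (ZN lv ix M i 0) (δN lv ix G M i 0 Y₀) s :=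
      ⟨_, rfl⟩
    rw [← ht]
    unfold nst
    refine mid_cons ?_ ?_
    · have key : ∀ v : St X Md F W m, Rel x (midI lv ix G d P M i) s v →
          Run x [free (hook lv ix G d h)] v t → v = ⟨Prot.res d (Prot.walk (P i (Y₀ M)) Y₀ M),
            s.q, s.a, fun κ => if lv κ < i + 1 then 0 else s.φ κ,
            useR lv ix G M (i + 1) M Y₀ s.r, s.w⟩ := by
        intro v h1 h2
        unfold midI at h1
        rw [rel_free] at h1
        obtain ⟨Y, hY⟩ := h1
        rw [run_one, rel_free] at h2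
        obtain ⟨-, h3⟩ := h2
        have hYY : ∀ k, InS M M k → Y k = Y₀ k := by
          intro k hk
          have hkM : k ≤ M := by
            rcases hk with h1 | h1 <;> omega
          obtain ⟨κ, k1, k2⟩ := hK (i + 1) le_rfl k hkM
          have hS : InS M M (ix κ) := by rw [k2]; exact hk
          have hA : ¬ At lv ix κ h := fun h' => by have := lv_of_at lv ix hab h'; omega
          have h4 : t.r κ = v.r κ := by
            rw [h3]
            exact hr_off lv ix G hA _ _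
          have h5 : t.r κ = s.r κ + G.t (Y₀ (ix κ)) := by
            rw [ht]
            change hr lv ix G h V κ (s.r κ) + δN lv ix G M i 0 Y₀ κ = _
            rw [hr_off lv ix G hA]
            unfold δN
            rw [Nat.sub_zero, if_pos ⟨k1, hS⟩]
            simp
          have h6 : v.r κ = s.r κ + G.t (Y (ix κ)) := by
            rw [hY]
            change useR lv ix G M (i + 1) M Y s.r κ = _
            unfold useR
            rw [if_pos ⟨k1, hS⟩]
          rw [h5, h6] at h4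
          have h7 := add_left_cancel h4
          rw [k2] at h7
          exact multi_eq G (l := [Y k]) (k := 1) (z := Y₀ k) rfl (by omega) (by
            rw [one_nsmul, h7]
            simp) _ (by simp)
        rw [hY, hYY M (Or.inl rfl), Prot.walk_congr _ Y Y₀ M fun k hk => hYY k (Or.inr hk)]
        congr 1
        funext κ
        unfold useR
        by_cases h1 : lv κ = i + 1 ∧ InS M M (ix κ)
        · rw [if_pos h1, if_pos h1, hYY _ h1.2]
        · rw [if_neg h1, if_neg h1]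
      intro v v' h1 h2 h3 h4
      rw [key v h1 h2, key v' h3 h4]
    · intro v _ _
      exact mid_one _ _ _ _
  | succ n ih =>
    obtain ⟨j, hj⟩ : ∃ j, j = M - (n + 1) := ⟨_, rfl⟩
    have hjn : M - n = j + 1 := by omega
    have hjM : j < M := by omega
    have hjS : ¬ InS M j j := by
      rintro (h1 | h1) <;> omega
    have hcnt : cnt M i ≤ n₀ := by
      cases i with
      | zero =>
        change 1 ≤ n₀
        omega
      | succ i => exact hn₀
    rw [← hj]
    obtain ⟨a, ha'⟩ : ∃ a, a = A i (wq d P M i j Y₀) := ⟨_, rfl⟩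
    obtain ⟨Z₀, hZ⟩ : ∃ Z₀, Z₀ = Function.update Y₀ j a := ⟨_, rfl⟩
    have z1 : Z₀ j = a := by rw [hZ, Function.update_self]
    have z2 : ∀ k, k ≠ j → Z₀ k = Y₀ k := fun k hk => by rw [hZ, Function.update_of_ne hk]
    have hV : Prot.eval (A i) (Prot.walk (P i (Z₀ M)) Z₀ (j + 1)) =
        Prot.eval (A i) (Prot.walk (P i (Y₀ M)) Y₀ j) := by
      rw [z2 M (by omega)]
      have hwk : Prot.walk (P i (Y₀ M)) Z₀ j = Prot.walk (P i (Y₀ M)) Y₀ j :=
        Prot.walk_congr _ _ _ _ fun k hk => z2 k (by omega)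
      rw [eval_step (d := d) (A i) (P i (Y₀ M)) Z₀ j, hwk]
      rw [z1, ha', hwk]
      rfl
    obtain ⟨V, hV'⟩ : ∃ V, V = Prot.eval (A i) (Prot.walk (P i (Y₀ M)) Y₀ j) := ⟨_, rfl⟩
    rw [← hV']
    obtain ⟨t, ht⟩ : ∃ t, t = Hon lv ix G d h V (ZN lv ix M i (n + 1))
      (δN lv ix G M i (n + 1) Y₀) s := ⟨_, rfl⟩
    rw [← ht]
    obtain ⟨s₁, hs₁⟩ : ∃ s₁ : St X Md F W m, s₁ = Hon lv ix G d (.store (i + 1) j) a
      (fun κ => lv κ < i + 1) (δC lv ix G M i j Y₀) s := ⟨_, rfl⟩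
    obtain ⟨s₂, hs₂⟩ : ∃ s₂ : St X Md F W m, s₂ = Hon lv ix G d h V
      (ZN lv ix M i n) (δN lv ix G M i n Z₀) s₁ := ⟨_, rfl⟩
    have hC1 := call_ok (P := P) hix (hK i (by omega) M le_rfl) hcnt hjM
      (h := .store (i + 1) j) (fun κ hκ => hκ) (hL (.store (i + 1) j) (Nat.lt_succ_self i))
    have hC3 := call_ok (P := P) hix (hK i (by omega) M le_rfl) hcnt hjM
      (h := .check (i + 1) j (4 * n + 1)) (fun κ hκ => hκ)
      (hL (.check (i + 1) j (4 * n + 1)) (Nat.lt_succ_self i))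
    have hN := nst_ok (G := G) (d := d) (P := P) (A := A) hix hK hP hn₀ hab (L := L) hL
      (n := n) (by omega)
    have key : ∀ v u : St X Md F W m,
        Run x (call lv ix G d P M L i j (.store (i + 1) j)) s v →
        Run x (nst lv ix G d P M L i h n) v u →
        Run x (call lv ix G d P M L i j (.check (i + 1) j (4 * n + 1))) u t →
        v = s₁ ∧ u = s₂ ∧ t = Hon lv ix G d (.check (i + 1) j (4 * n + 1)) a
          (fun κ => lv κ < i + 1) (δC lv ix G M i j Y₀) u := by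
      intro v u hr1 hr2 hr3
      obtain ⟨a1, a2, a3, Y₁, Y₂, a4, a5⟩ := hC1 s v hw hr1
      obtain ⟨b1, b2, b3, LY, b4, b5, b6⟩ := hN v u (by rw [a1]; exact hw) hr2
      obtain ⟨c1, c2, c3, Y₃, Y₄, c4, c5⟩ := hC3 u t (by rw [b1, a1]; exact hw) hr3
      rw [hjn] at b5 b6
      have hY : ∀ Y ∈ Y₁ :: Y₂ :: (LY ++ [Y₃, Y₄]), ∀ k, InS M j k → Y k = Y₀ k := by
        intro Y hYL k hk
        have hkM : k ≤ M := by
          rcases hk with h1 | h1 <;> omega
        obtain ⟨κ, k1, k2⟩ := hK (i + 1) le_rfl k hkM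
        have hS : InS M j (ix κ) := by rw [k2]; exact hk
        have hA : ¬ At lv ix κ h := fun h' => by have := lv_of_at lv ix hab h'; omega
        have e1 := (a4 κ k1 hS).1
        have e2 := (b5 κ k1 (inS_mono (by omega) hS)).1
        have e3 := (c4 κ k1 hS).1
        have e4 : t.r κ = s.r κ + (4 * (n + 1) + 1) • G.t (Y₀ (ix κ)) := by
          rw [ht]
          change hr lv ix G h V κ (s.r κ) + δN lv ix G M i (n + 1) Y₀ κ = _
          rw [hr_off lv ix G hA]
          unfold δN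
          rw [if_pos ⟨k1, by rw [← hj]; exact hS⟩]
        rw [e3, e2, e1] at e4
        have h5 := multi_eq G
          (l := (Y₁ :: Y₂ :: (LY ++ [Y₃, Y₄])).map (fun Y : ℕ → X => Y k))
          (k := 4 * (n + 1) + 1) (z := Y₀ k) (by
            simp only [List.length_map, List.length_cons, List.length_append,
              List.length_nil, b4]
            ring) (by omega) (by
            rw [k2] at e4
            have e5 : s.r κ + (G.t (Y₁ k) + G.t (Y₂ k)) +
                (LY.map fun Y : ℕ → X => G.t (Y k)).sum + (G.t (Y₃ k) + G.t (Y₄ k)) =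
                s.r κ + (G.t (Y₁ k) + (G.t (Y₂ k) +
                ((LY.map fun Y : ℕ → X => G.t (Y k)).sum + (G.t (Y₃ k) + G.t (Y₄ k))))) := by
              abel
            rw [e5] at e4
            have e6 := add_left_cancel e4
            rw [← e6]
            simp only [List.map_cons, List.map_append, List.map_nil, List.sum_cons,
              List.sum_append, List.sum_nil, List.map_map, add_zero]
            rfl)
        exact h5 _ (List.mem_map_of_mem hYL)
      have hY1 : ∀ k, InS M j k → Y₁ k = Y₀ k ∧ Y₂ k = Y₀ k := fun k hk =>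
        ⟨hY Y₁ (by simp) k hk, hY Y₂ (by simp) k hk⟩
      have hY3 : ∀ k, InS M j k → Y₃ k = Y₀ k ∧ Y₄ k = Y₀ k := fun k hk =>
        ⟨hY Y₃ (by simp) k hk, hY Y₄ (by simp) k hk⟩
      obtain ⟨-, g1⟩ := a5 Y₀ hY1
      obtain ⟨g2, g3⟩ := c5 Y₀ hY3
      rw [← ha'] at g1 g2 g3
      have p1 : ∀ κ, v.φ κ = if lv κ < i + 1 then 0 else
          if lv κ = i + 1 ∧ ix κ = j then G.χ a (s.r κ) else s.φ κ := by
        intro κ; rw [g1]; rfl
      have p2 : ∀ κ, v.r κ = s.r κ + δC lv ix G M i j Y₀ κ := by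
        intro κ; rw [g1]; rfl
      obtain ⟨κ₁, k1, k2⟩ := hK (i + 1) le_rfl j (by omega)
      have hall : ∀ Y ∈ LY, Y j = a := by
        have hl : ∀ y ∈ LY.map (fun Y : ℕ → X => Y j), y = a := by
          apply G.multi _ (LY.map (fun Y : ℕ → X => Y j)) (by rw [List.length_map, b4]; omega)
          have h1 := g2 κ₁ k1 k2
          obtain ⟨h2, h3⟩ := b5 κ₁ k1 (Or.inr (by omega))
          have h4 := p1 κ₁
          rw [if_neg (by omega), if_pos ⟨k1, k2⟩] at h4
          have h5 := p2 κ₁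
          unfold δC at h5
          rw [if_neg (fun h' => hjS (by have h6 := h'.2; rwa [k2] at h6)), add_zero] at h5
          rw [h3, h4, h2, h5, map_sub, map_add, sub_eq_iff_eq_add] at h1
          have h6 := add_left_cancel h1
          rw [List.length_map, b4, List.map_map]
          rw [k2] at h6
          exact h6
        intro Y hYL
        exact hl _ (List.mem_map_of_mem hYL)
      have hLY : ∀ Y ∈ LY, ∀ k, InS M (j + 1) k → Y k = Z₀ k := by
        intro Y hYL k hk
        by_cases hkj : k = j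
        · rw [hkj, z1]
          exact hall Y hYL
        · rw [z2 k hkj]
          refine hY Y (by simp [hYL]) k ?_
          rcases hk with h1 | h1
          · exact Or.inl h1
          · exact Or.inr (by omega)
      obtain ⟨-, q2⟩ := b6 Z₀ hLY
      rw [hV, ← hV'] at q2
      have hv : v = s₁ := by rw [g1, hs₁]
      refine ⟨hv, ?_, g3⟩
      rw [q2, hs₂, hv]
    unfold nst
    rw [← hj]
    refine mid_append ?_ ?_ ?_
    · intro v v' h1 h2 h3 h4
      rw [run_append] at h2 h4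
      obtain ⟨u, hu, hu'⟩ := h2
      obtain ⟨u₁, hu₁, hu₁'⟩ := h4
      rw [(key v u h1 hu hu').1, (key v' u₁ h3 hu₁ hu₁').1]
    · intro v h1 h2
      rw [run_append] at h2
      obtain ⟨u, hu, hu'⟩ := h2
      rw [(key v u h1 hu hu').1, hs₁, ha']
      exact call_mid (P := P) (hK i (by omega) M le_rfl) (hK (i + 1) le_rfl) hcnt (by omega) hjM
        (h := .store (i + 1) j) (fun κ hκ => hκ) (hL (.store (i + 1) j) (Nat.lt_succ_self i))
        (hM (.store (i + 1) j) (Nat.lt_succ_self i)) s Y₀ hw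
    · intro v h1 h2
      have hv : v = s₁ := by
        rw [run_append] at h2
        obtain ⟨u, hu, hu'⟩ := h2
        exact (key v u h1 hu hu').1
      refine mid_append ?_ ?_ ?_
      · intro u u' a1 a2 a3 a4
        rw [(key v u h1 a1 a2).2.1, (key v u' h1 a3 a4).2.1]
      · intro u a1 a2
        rw [(key v u h1 a1 a2).2.1, hs₂, hv]
        have h5 := ih (by omega) s₁ Z₀ (by rw [hs₁]; exact hw)
        rw [hjn, hV, ← hV'] at h5
        exact h5
      · intro u a1 a2
        obtain ⟨-, e2, e3⟩ := key v u h1 a1 a2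
        rw [e3, ha']
        exact call_mid (P := P) (hK i (by omega) M le_rfl) (hK (i + 1) le_rfl) hcnt (by omega)
          hjM (h := .check (i + 1) j (4 * n + 1)) (fun κ hκ => hκ)
          (hL (.check (i + 1) j (4 * n + 1)) (Nat.lt_succ_self i))
          (hM (.check (i + 1) j (4 * n + 1)) (Nat.lt_succ_self i)) u Y₀
          (by rw [e2, hs₂, hs₁]; exact hw)

theorem br_zero_mid {x : ι → α} {A : ℕ → X → X} {w₀ : W} {h : Hk}
    {low : List (Ins ι α (Sta X Md W m))} (hlow : Computes x (A 0) w₀ low)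
    (hlowU : ComputesU x w₀ low) (hK : ∃ κ, lv κ = 0 ∧ ix κ = M) (hn : 1 ≤ n₀)
    (hab : Above 0 h) :
    BrMid lv ix G d M x A w₀ 0 h (br lv ix G d P M low 0 h) := by
  intro s z hw
  obtain ⟨t, ht⟩ : ∃ t, t = Hon lv ix G d h (A 0 z) (ZB lv ix M 0) (δB lv ix G M 0 z) s :=
    ⟨_, rfl⟩
  rw [← ht]
  have key : ∀ v : St X Md F W m, Rel x (guess0 lv ix G M) s v →
      Run x (low.map (lift getL putL) ++ [free (hook lv ix G d h)]) v t →
      v = ⟨z, s.q, s.a, fun κ => if lv κ = 0 ∧ ix κ < M then 0 else s.φ κ,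
        fun κ => if lv κ = 0 ∧ ix κ = M then s.r κ + G.t z else s.r κ, s.w⟩ := by
    intro v h1 h2
    unfold guess0 at h1
    rw [rel_free] at h1
    obtain ⟨z', hz'⟩ := h1
    rw [run_append] at h2
    obtain ⟨u, hu, hu'⟩ := h2
    rw [run_lift getL putL (fun _ => rfl) (fun _ _ => rfl) (fun _ _ _ => rfl)] at hu
    obtain ⟨y, hy, hu⟩ := hu
    rw [hlow _ _ (show (getL v).w = w₀ by rw [hz']; exact hw)] at hy
    rw [run_one, rel_free] at hu'
    obtain ⟨-, h3⟩ := hu'
    obtain ⟨κ, k1, k2⟩ := hK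
    have hA : ¬ At lv ix κ h := fun h' => by have := lv_of_at lv ix hab h'; omega
    have h4 : t.r κ = u.r κ := by
      rw [h3]
      exact hr_off lv ix G hA _ _
    have h5 : t.r κ = s.r κ + G.t z := by
      rw [ht]
      change hr lv ix G h _ κ (s.r κ) + δB lv ix G M 0 z κ = _
      rw [hr_off lv ix G hA]
      unfold δB
      rw [if_pos ⟨k1, k2⟩]
      unfold cnt
      rw [one_nsmul]
    have h6 : u.r κ = s.r κ + G.t z' := by
      rw [hu, hy, hz']
      exact if_pos ⟨k1, k2⟩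
    rw [h5, h6] at h4
    have h7 := add_left_cancel h4
    have h8 : z' = z := multi_eq G (l := [z']) (k := 1) (z := z) rfl hn (by
      rw [one_nsmul, h7]
      simp) _ (by simp)
    rw [hz', h8]
  unfold br
  refine mid_cons ?_ ?_
  · intro v v' h1 h2 h3 h4
    rw [key v h1 h2, key v' h3 h4]
  · intro v h1 h2
    have hv := key v h1 h2
    have hvw : (getL v).w = w₀ := by rw [hv]; exact hw
    refine mid_append' ?_ ?_ ?_
    · intro u u' a1 a2
      rw [run_lift getL putL (fun _ => rfl) (fun _ _ => rfl) (fun _ _ _ => rfl)] at a1 a2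
      obtain ⟨y, hy, hu⟩ := a1
      obtain ⟨y', hy', hu'⟩ := a2
      rw [hlow _ _ hvw] at hy hy'
      rw [hu, hu', hy, hy']
    · intro u _
      exact mid_lift getL putL (fun _ => rfl) (fun _ _ => rfl) (fun _ _ _ => rfl)
        (fun y hy => hlowU _ _ hvw hy)
    · intro u _ _
      exact mid_one _ _ _ _

theorem br_mid {x : ι → α} {A : ℕ → X → X} {w₀ : W}
    (hix : ∀ κ, ix κ ≤ M) (hP : ∀ i q, Prot.Hgt M (P i q)) (hn₀ : 4 * M + 1 ≤ n₀)
    (hA : ∀ i q, A (i + 1) q = Prot.eval (A i) (P i q))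
    {low : List (Ins ι α (Sta X Md W m))} (hlow : Computes x (A 0) w₀ low)
    (hlowU : ComputesU x w₀ low) (i : ℕ)
    (hK : ∀ i' ≤ i, ∀ k ≤ M, ∃ κ, lv κ = i' ∧ ix κ = k) {h : Hk} (hab : Above i h) :
    BrMid lv ix G d M x A w₀ i h (br lv ix G d P M low i h) := by
  induction i generalizing h with
  | zero => exact br_zero_mid hlow hlowU (hK 0 le_rfl M le_rfl) (by omega) hab
  | succ i ih =>
    intro s z hw
    have hK' : ∀ i' ≤ i, ∀ k ≤ M, ∃ κ, lv κ = i' ∧ ix κ = k :=
      fun i' hi' k hk => hK i' (by omega) k hk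
    have h2 : Prot.eval (A i) (Prot.walk (P i z) (fun _ => z) 0) = A (i + 1) z := (hA i z).symm
    have hN := nst_mid (G := G) (d := d) (P := P) (A := A) hix hK hP hn₀ hab
      (L := br lv ix G d P M low i)
      (fun h' hh' => br_ok hix hP hn₀ hA hlow i hK' hh') (fun h' hh' => ih hK' hh') M le_rfl s
      (fun _ => z) hw
    rw [Nat.sub_self, h2] at hN
    have h4 : Hon lv ix G d h (A (i + 1) z) (ZN lv ix M i M)
        (δN lv ix G M i M fun _ => z) s =
        Hon lv ix G d h (A (i + 1) z) (ZB lv ix M (i + 1)) (δB lv ix G M (i + 1) z) s := by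
      unfold Hon
      congr 1
      · funext κ
        have h3 : ZN lv ix M i M κ ↔ ZB lv ix M (i + 1) κ := by
          unfold ZN ZB
          omega
        by_cases h4 : ZB lv ix M (i + 1) κ
        · rw [if_pos h4, if_pos (h3.2 h4)]
        · rw [if_neg h4, if_neg (fun h5 => h4 (h3.1 h5))]
      · funext κ
        congr 1
        unfold δN δB
        have h3 : (lv κ = i + 1 ∧ InS M (M - M) (ix κ)) ↔ (lv κ = i + 1 ∧ ix κ = M) := by
          unfold InS
          omega
        by_cases h4 : lv κ = i + 1 ∧ ix κ = M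
        · rw [if_pos h4, if_pos (h3.2 h4)]
          rfl
        · rw [if_neg h4, if_neg (fun h5 => h4 (h3.1 h5))]
    rw [← h4]
    exact hN

theorem compU_mid {x : ι → α} {A : ℕ → X → X} {w₀ : W}
    (hix : ∀ κ, ix κ ≤ M) (hP : ∀ i q, Prot.Hgt M (P i q)) (hn₀ : 4 * M + 1 ≤ n₀)
    (hA : ∀ i q, A (i + 1) q = Prot.eval (A i) (P i q))
    {low : List (Ins ι α (Sta X Md W m))} (hlow : Computes x (A 0) w₀ low)
    (hlowU : ComputesU x w₀ low) (b : ℕ)
    (hK : ∀ i' ≤ b, ∀ k ≤ M, ∃ κ, lv κ = i' ∧ ix κ = k) (s t : St X Md F W m)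
    (hw : s.w = w₀) :
    Mid x (compU lv ix G d P M low b) s t := by
  have hcnt : cnt M b ≤ n₀ := by
    cases b with
    | zero =>
      change 1 ≤ n₀
      omega
    | succ i => exact hn₀
  obtain ⟨z, hz⟩ : ∃ z, z = s.c := ⟨_, rfl⟩
  obtain ⟨s₁, hs₁⟩ : ∃ s₁ : St X Md F W m, s₁ = ⟨d, s.c, s.a,
    fun κ => if lv κ = b ∧ ix κ = M then G.χ s.c (s.r κ) else s.φ κ, s.r, s.w⟩ := ⟨_, rfl⟩
  have f1 : ∀ κ, s₁.φ κ = if lv κ = b ∧ ix κ = M then G.χ z (s.r κ) else s.φ κ := by
    intro κ; rw [hs₁, hz]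
  have f2 : ∀ κ, s₁.r κ = s.r κ := by
    intro κ; rw [hs₁]
  have hw₁ : s₁.w = w₀ := by rw [hs₁]; exact hw
  have key0 : ∀ v : St X Md F W m, Rel x (initI lv ix G d M b) s v → v = s₁ := by
    intro v hv
    unfold initI at hv
    rw [rel_free] at hv
    rw [hv, hs₁]
  have key : ∀ u : St X Md F W m, Run x (br lv ix G d P M low b .last) s₁ u →
      Run x [finI lv ix G d M b] u t → u = Hon lv ix G d .last (A b z) (ZB lv ix M b)
        (δB lv ix G M b z) s₁ := by
    intro u hu hrun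
    rw [run_one] at hrun
    unfold finI at hrun
    rw [rel_free] at hrun
    obtain ⟨hchk, -⟩ := hrun
    obtain ⟨b1, b2, b3, l, b4, b5, b6⟩ := br_ok (G := G) (d := d) (P := P) hix hP hn₀ hA hlow b hK
      (h := .last) trivial s₁ u hw₁ hu
    have hq2 : u.q = z := by rw [b2, hs₁, hz]
    obtain ⟨κ₀, k1, k2⟩ := hK b le_rfl M le_rfl
    have hall : ∀ y ∈ l, y = z := by
      apply G.multi _ l (by rw [b4]; exact hcnt)
      have h1 := hchk κ₀ k1 k2
      obtain ⟨h2, h3⟩ := b5 κ₀ k1 k2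
      have h4 := f1 κ₀
      rw [if_pos ⟨k1, k2⟩] at h4
      rw [hq2, h3, h4, h2, f2, map_sub, map_add, sub_eq_iff_eq_add] at h1
      rw [b4]
      exact add_left_cancel h1
    exact (b6 z hall).2
  unfold compU
  refine mid_cons ?_ ?_
  · intro v v' h1 _ h3 _
    rw [key0 v h1, key0 v' h3]
  · intro v h1 _
    rw [key0 v h1]
    refine mid_append ?_ ?_ ?_
    · intro u u' a1 a2 a3 a4
      rw [key u a1 a2, key u' a3 a4]
    · intro u a1 a2
      rw [key u a1 a2]
      exact br_mid hix hP hn₀ hA hlow hlowU b hK (h := .last) trivial s₁ z hw₁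
    · intro u _ _
      exact mid_one _ _ _ _

theorem comp_mid (G : MFP X Md F n₀) (d : X) (P : ℕ → X → Prot X) (M b : ℕ)
    {x : ι → α} {A : ℕ → X → X} {w₀ : W} (hP : ∀ i q, Prot.Hgt M (P i q))
    (hn₀ : 4 * M + 1 ≤ n₀) (hA : ∀ i q, A (i + 1) q = Prot.eval (A i) (P i q))
    {low : List (Ins ι α (Sta X Md W ((b + 1) * (M + 1))))} (hlow : Computes x (A 0) w₀ low)
    (hlowU : ComputesU x w₀ low) :
    ComputesU x ((⟨d, d, fun _ => 0⟩ : Fr X F ((b + 1) * (M + 1))), w₀)
      (comp G d P M b low) := by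
  intro s t hs _
  unfold comp
  exact mid_lift toS (fun _ u => ofS u) (fun _ => rfl) (fun _ _ => rfl) (fun _ _ _ => rfl)
    (fun u _ => compU_mid (G := G) (d := d) (P := P) (itm_le M _) hP hn₀ hA hlow hlowU b
      (exists_reg M b) (toS s) u (by simp [toS, hs]))

theorem progS_mid (G : MFP X Md F n₀) (d : X) (P : ℕ → X → Prot X) (M b : ℕ)
    (hP : ∀ i q, Prot.Hgt M (P i q)) (hn₀ : 4 * M + 1 ≤ n₀)
    (base : Ins ι α (Sta X Md Unit ((b + 1) * (M + 1)))) (x : ι → α)
    (A : ℕ → X → X) (h0 : Computes x (A 0) () [base])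
    (hA : ∀ i q, A (i + 1) q = Prot.eval (A i) (P i q)) (g : ℕ) :
    ComputesU x (wc d g) (progS (F := F) G d P M b base g) := by
  induction g with
  | zero => intro s t _ _; exact mid_one _ _ _ _
  | succ g ih =>
    exact comp_mid (F := F) G d (fun k => P (b * g + k)) M b
      (A := fun k => A (b * g + k)) (fun i q => hP _ q) hn₀ (fun i q => hA _ q)
      (progS_computes (F := F) G d P M b hP hn₀ base x A h0 hA g) ih

/-! ### Labels -/

theorem labU_nst {x : ι → α} (lv ix : Fin m → ℕ) (G : MFP X Md F n₀) (d : X)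
    (P : ℕ → X → Prot X) (M : ℕ) (L : Hk → List (Ins ι α (St X Md F W m)))
    (hL : ∀ h, ∀ I ∈ L h, LabU x I) (i : ℕ) (h : Hk) (n : ℕ) :
    ∀ I ∈ nst lv ix G d P M L i h n, LabU x I := by
  have hcall : ∀ j h', ∀ I ∈ call lv ix G d P M L i j h', LabU x I := by
    intro j h' I hI
    unfold call at hI
    simp only [List.mem_append, List.mem_cons, List.not_mem_nil, or_false] at hI
    rcases hI with rfl | hI | rfl
    · exact labU_free _ _
    · exact hL h' I hI
    · exact labU_free _ _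
  induction n with
  | zero =>
    intro I hI
    unfold nst at hI
    simp only [List.mem_cons, List.not_mem_nil, or_false] at hI
    rcases hI with rfl | rfl
    · exact labU_free _ _
    · exact labU_free _ _
  | succ n ih =>
    intro I hI
    unfold nst at hI
    simp only [List.mem_append] at hI
    rcases hI with hI | hI | hI
    · exact hcall _ _ I hI
    · exact ih I hI
    · exact hcall _ _ I hI

theorem labU_br {x : ι → α} (lv ix : Fin m → ℕ) (G : MFP X Md F n₀) (d : X)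
    (P : ℕ → X → Prot X) (M : ℕ) (low : List (Ins ι α (Sta X Md W m)))
    (hlow : ∀ I ∈ low, LabU x I) (i : ℕ) (h : Hk) :
    ∀ I ∈ (br lv ix G d P M low i h : List (Ins ι α (St X Md F W m))), LabU x I := by
  induction i generalizing h with
  | zero =>
    intro I hI
    unfold br at hI
    simp only [List.mem_append, List.mem_cons, List.not_mem_nil, or_false, List.mem_map] at hI
    rcases hI with rfl | ⟨J, hJ, rfl⟩ | rfl
    · exact labU_free _ _
    · exact labU_lift getL putL (fun _ _ => rfl) (hlow J hJ)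
    · exact labU_free _ _
  | succ i ih =>
    unfold br
    exact labU_nst lv ix G d P M _ (fun h' => ih h') i h M

theorem labU_comp {x : ι → α} (G : MFP X Md F n₀) (d : X) (P : ℕ → X → Prot X) (M b : ℕ)
    (low : List (Ins ι α (Sta X Md W ((b + 1) * (M + 1))))) (hlow : ∀ I ∈ low, LabU x I) :
    ∀ I ∈ (comp G d P M b low : List (Ins ι α (Sta X Md (Fr X F ((b + 1) * (M + 1)) × W)
      ((b + 1) * (M + 1))))), LabU x I := by
  intro I hI
  unfold comp at hI
  rw [List.mem_map] at hI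
  obtain ⟨J, hJ, rfl⟩ := hI
  refine labU_lift toS (fun _ u => ofS u) (fun _ _ => rfl) ?_
  unfold compU at hJ
  simp only [List.mem_append, List.mem_cons, List.not_mem_nil, or_false] at hJ
  rcases hJ with rfl | hJ | rfl
  · exact labU_free _ _
  · exact labU_br _ _ G d P M low hlow b _ J hJ
  · exact labU_free _ _

theorem labU_progS {x : ι → α} (G : MFP X Md F n₀) (d : X) (P : ℕ → X → Prot X) (M b : ℕ)
    (base : Ins ι α (Sta X Md Unit ((b + 1) * (M + 1)))) (hb : LabU x base) (g : ℕ) :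
    ∀ I ∈ progS (F := F) G d P M b base g, LabU x I := by
  induction g with
  | zero =>
    intro I hI
    simp only [progS, List.mem_singleton] at hI
    rw [hI]; exact hb
  | succ g ih => exact labU_comp G d _ M b (progS G d P M b base g) ih

end SQ

end Pool.Agent.MP_6216ea_lc
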