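import Mathlib
import Pool.Agent.Lib.MP_6216ea_lc.Compile

/-!
# Small thrifty nondeterministic branching programs for tree evaluation

The memory of the program is a vector over `ZMod m`; a guessed value with digit vector `y` adds
`(y, |y| ^ 2)` to the memory, and the fingerprint `|y| ^ 2 - 2 * ⟨x, y⟩` of this change, which is
compared with the one for the true digit vector `x`, detects whether `y = x`.
-/

namespace Pool.Agent.Results.MP_6216ea_lc.SmallThrifty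

open Pool.Agent.Lib.MP_6216ea_lc

section gadget

variable (d q : ℕ)

/-- the vector of a value -/
def vec (e : Fin d → Fin (q + 1)) : (Fin d → ZMod (d * q ^ 2 + 1)) × ZMod (d * q ^ 2 + 1) :=
  (fun i => ((e i : ℕ) : ZMod (d * q ^ 2 + 1)), ∑ i, ((e i : ℕ) : ZMod (d * q ^ 2 + 1)) ^ 2)

/-- the fingerprint of a value -/
def fing (e : Fin d → Fin (q + 1)) :
    (Fin d → ZMod (d * q ^ 2 + 1)) × ZMod (d * q ^ 2 + 1) →+ ZMod (d * q ^ 2 + 1) :=
  AddMonoidHom.mk' (fun u => u.2 - 2 * ∑ i, ((e i : ℕ) : ZMod (d * q ^ 2 + 1)) * u.1 i) (by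
    intro u v
    have : ∑ i, ((e i : ℕ) : ZMod (d * q ^ 2 + 1)) * (u + v).1 i =
        ∑ i, ((e i : ℕ) : ZMod (d * q ^ 2 + 1)) * u.1 i +
        ∑ i, ((e i : ℕ) : ZMod (d * q ^ 2 + 1)) * v.1 i := by
      rw [← Finset.sum_add_distrib]
      refine Finset.sum_congr rfl fun i _ => ?_
      rw [Prod.fst_add, Pi.add_apply, mul_add]
    rw [this, Prod.snd_add]
    ring)

theorem fing_vec (e f : Fin d → Fin (q + 1)) :
    fing d q e (vec d q f) - fing d q e (vec d q e) =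
      ((∑ i, (((e i : ℕ) : ℤ) - ((f i : ℕ) : ℤ)) ^ 2 : ℤ) : ZMod (d * q ^ 2 + 1)) := by
  simp only [fing, vec, AddMonoidHom.mk'_apply]
  push_cast
  have h : ∑ i, (((e i : ℕ) : ZMod (d * q ^ 2 + 1)) - ((f i : ℕ) : ZMod (d * q ^ 2 + 1))) ^ 2 =
      ∑ i, ((e i : ℕ) : ZMod (d * q ^ 2 + 1)) ^ 2 + ∑ i, ((f i : ℕ) : ZMod (d * q ^ 2 + 1)) ^ 2 -
      2 * ∑ i, ((e i : ℕ) : ZMod (d * q ^ 2 + 1)) * ((f i : ℕ) : ZMod (d * q ^ 2 + 1)) := by
    rw [Finset.mul_sum, ← Finset.sum_add_distrib, ← Finset.sum_sub_distrib]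
    refine Finset.sum_congr rfl fun i _ => ?_
    ring
  have h2 : ∑ i, ((e i : ℕ) : ZMod (d * q ^ 2 + 1)) * ((e i : ℕ) : ZMod (d * q ^ 2 + 1)) =
      ∑ i, ((e i : ℕ) : ZMod (d * q ^ 2 + 1)) ^ 2 :=
    Finset.sum_congr rfl fun i _ => by ring
  rw [h, h2]
  ring

theorem fing_inj (e f : Fin d → Fin (q + 1))
    (h : fing d q e (vec d q f) = fing d q e (vec d q e)) : f = e := by
  have h1 := fing_vec d q e f
  rw [h, sub_self] at h1
  have h2 : ((d * q ^ 2 + 1 : ℕ) : ℤ) ∣ ∑ i, (((e i : ℕ) : ℤ) - ((f i : ℕ) : ℤ)) ^ 2 :=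
    (ZMod.intCast_zmod_eq_zero_iff_dvd _ _).mp h1.symm
  have h3 : ∑ i, (((e i : ℕ) : ℤ) - ((f i : ℕ) : ℤ)) ^ 2 ≤ d * (q : ℤ) ^ 2 := by
    have : ∀ i ∈ (Finset.univ : Finset (Fin d)),
        (((e i : ℕ) : ℤ) - ((f i : ℕ) : ℤ)) ^ 2 ≤ (q : ℤ) ^ 2 := by
      intro i _
      have he := (e i).isLt
      have hf := (f i).isLt
      exact sq_le_sq' (by omega) (by omega)
    calc _ ≤ ∑ _i : Fin d, (q : ℤ) ^ 2 := Finset.sum_le_sum this
      _ = _ := by simp
  have h4 : 0 ≤ ∑ i, (((e i : ℕ) : ℤ) - ((f i : ℕ) : ℤ)) ^ 2 :=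
    Finset.sum_nonneg fun i _ => sq_nonneg _
  have h5 : ∑ i, (((e i : ℕ) : ℤ) - ((f i : ℕ) : ℤ)) ^ 2 = 0 := by
    refine Int.eq_zero_of_dvd_of_nonneg_of_lt h4 ?_ h2
    push_cast
    linarith
  have h6 := (Finset.sum_eq_zero_iff_of_nonneg (fun i _ => sq_nonneg _)).mp h5
  funext i
  have h7 := h6 i (Finset.mem_univ i)
  apply Fin.ext
  have h8 : ((e i : ℕ) : ℤ) - ((f i : ℕ) : ℤ) = 0 := by
    simpa using h7
  omega

end gadget

/-- **Small thrifty nondeterministic branching programs for tree evaluation.** For all `n`, `k`,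
`q`, `d` with `k ≤ (q + 1) ^ d` and all `r`, the inputs of the tree evaluation problem of depth
`n` over `k` values whose root has the value `r` are accepted by a thrifty nondeterministic
branching program with at most `4 ^ (n + 1) * (k ^ 2 + 1) * (d * q ^ 2 + 1) ^ (4 * d + 2 * n + 6)`
states, in which every such input has an accepting computation with at most
`(4 ^ (n + 1) - 1) / 3` queries. -/
theorem result (n k q d : ℕ) (hk : k ≤ (q + 1) ^ d) (r : Fin k) :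
    ∃ (Q : Type) (_ : Fintype Q) (P : NBP n k Q), Solves P r ∧ Thrifty P ∧
      TimeAtMost P r ((4 ^ (n + 1) - 1) / 3) ∧
      Fintype.card Q ≤ 4 ^ (n + 1) * (k ^ 2 + 1) * (d * q ^ 2 + 1) ^ (4 * d + 2 * n + 6) := by
  have hemb : Nonempty (Fin k ↪ (Fin d → Fin (q + 1))) := by
    apply Function.Embedding.nonempty_of_card_le
    simpa using hk
  obtain ⟨e⟩ := hemb
  have : NeZero (d * q ^ 2 + 1) := ⟨by omega⟩
  obtain ⟨Q, hQ, P, h1, h2, h3, h4⟩ := Catalytic.exists_nbp (t := fun c => vec d q (e c))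
    (χ := fun c => fing d q (e c)) r
    (fun c c' h => e.injective (fing_inj d q (e c) (e c') h)) n
  refine ⟨Q, hQ, P, h1, h2, h3, h4.trans (le_of_eq ?_)⟩
  have hG : Fintype.card ((Fin d → ZMod (d * q ^ 2 + 1)) × ZMod (d * q ^ 2 + 1)) =
      (d * q ^ 2 + 1) ^ (d + 1) := by
    rw [Fintype.card_prod, Fintype.card_fun, ZMod.card, Fintype.card_fin,
      pow_succ (d * q ^ 2 + 1) d]
  rw [hG, ZMod.card, ← pow_mul, ← pow_add]
  congr 2
  ring

end Pool.Agent.Results.MP_6216ea_lc.SmallThrifty
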