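import Pool.Agent.Lib.MP_6216ea_lc.DCModel

/-! Counting the turns of the stack of a pushdown program. -/

set_option autoImplicit false

namespace Pool.Agent.MP_6216ea_lc

/-- The number of turns after a pop; `b` says that the last stack operation was a push. -/
def tn (b : Bool) (k : ℕ) : ℕ := if b = true then k + 1 else k

/-- `P.TReach x k b s z`: on the input `x` the program, started in the start node with the empty
stack, reaches the node `s` with the stack `z` (top first) by a computation with exactly `k` turns
(a turn is a pop whose preceding stack operation is a push); `b` says that the last stack operation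
was a push. -/
inductive PushProg.TReach {ι α : Type} (P : PushProg ι α) (x : ι → α) :
    ℕ → Bool → P.S → List P.Γ → Prop
  | start : PushProg.TReach P x 0 false P.start []
  | jump {k : ℕ} {b : Bool} {s s' : P.S} {z : List P.Γ} : PushProg.TReach P x k b s z →
      P.instr s = .jump s' → PushProg.TReach P x k b s' z
  | read {k : ℕ} {b : Bool} {s : P.S} {i : ι} {f : α → P.S} {z : List P.Γ} :
      PushProg.TReach P x k b s z → P.instr s = .read i f → PushProg.TReach P x k b (f (x i)) z
  | push {k : ℕ} {b : Bool} {s s' : P.S} {g : P.Γ} {z : List P.Γ} :
      PushProg.TReach P x k b s z → P.instr s = .push g s' →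
      PushProg.TReach P x k true s' (g :: z)
  | pop {k : ℕ} {b : Bool} {s : P.S} {f : P.Γ → P.S} {g : P.Γ} {z : List P.Γ} :
      PushProg.TReach P x k b s (g :: z) → P.instr s = .pop f →
      PushProg.TReach P x (tn b k) false (f g) z

/-- The program, started in the start node with the empty stack, reaches an accepting node by a
computation with at most `T` turns. -/
def PushProg.AcceptsTurns {ι α : Type} (P : PushProg ι α) (x : ι → α) (T : ℕ) : Prop :=
  ∃ k ≤ T, ∃ b s z, P.TReach x k b s z ∧ P.acc s = true

end Pool.Agent.MP_6216ea_lc
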