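import Pool.Agent.Lib.MP_6216ea_lc.NDDefs
import Pool.Agent.Lib.MP_6216ea_lc.TUDefs

/-! Nondeterministic pushdown programs: turns and guesses above a height. -/

set_option autoImplicit false

namespace Pool.Agent.MP_6216ea_lc

/-- The kinds of steps. -/
inductive SKind : Type where
  | move
  | guess
  | push
  | pop

/-- The steps of the program on the input `x`. -/
inductive NPushProg.TStep {ι α : Type} (P : NPushProg ι α) (x : ι → α) :
    P.S × List P.Γ → SKind → P.S × List P.Γ → Prop
  | jump {s s' : P.S} {z : List P.Γ} : P.instr s = .jump s' →
      NPushProg.TStep P x (s, z) .move (s', z)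
  | read {s : P.S} {i : ι} {f : α → P.S} {z : List P.Γ} : P.instr s = .read i f →
      NPushProg.TStep P x (s, z) .move (f (x i), z)
  | guess {s : P.S} {f : Bool → P.S} {z : List P.Γ} (b : Bool) : P.instr s = .guess f →
      NPushProg.TStep P x (s, z) .guess (f b, z)
  | push {s s' : P.S} {g : P.Γ} {z : List P.Γ} : P.instr s = .push g s' →
      NPushProg.TStep P x (s, z) .push (s', g :: z)
  | pop {s : P.S} {f : P.Γ → P.S} {g : P.Γ} {z : List P.Γ} : P.instr s = .pop f →
      NPushProg.TStep P x (s, g :: z) .pop (f g, z)

/-- `P.TRun x h T r t g b c`: on the input `x` the configuration `c` is reached from the start node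
with the empty stack by a computation in which each part with more than `h` stack symbols, from the
push to the pop, has at most `T` turns (pops whose preceding stack operation is a push) and at most
`r` guesses; `t` and `g` are the numbers of turns and guesses of the present part (`0` if `c` has at
most `h` stack symbols), `b` says that the last stack operation of the present part was a push. -/
inductive NPushProg.TRun {ι α : Type} (P : NPushProg ι α) (x : ι → α) (h T r : ℕ) :
    ℕ → ℕ → Bool → P.S × List P.Γ → Prop
  | start : NPushProg.TRun P x h T r 0 0 false (P.start, [])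
  | low {t g : ℕ} {b : Bool} {c c' : P.S × List P.Γ} {k : SKind} :
      NPushProg.TRun P x h T r t g b c → P.TStep x c k c' → c.2.length ≤ h → c'.2.length ≤ h →
      NPushProg.TRun P x h T r 0 0 false c'
  | move {t g : ℕ} {b : Bool} {c c' : P.S × List P.Γ} : NPushProg.TRun P x h T r t g b c →
      P.TStep x c .move c' → h < c'.2.length → NPushProg.TRun P x h T r t g b c'
  | guess {t g : ℕ} {b : Bool} {c c' : P.S × List P.Γ} : NPushProg.TRun P x h T r t g b c →
      P.TStep x c .guess c' → h < c'.2.length → g + 1 ≤ r →
      NPushProg.TRun P x h T r t (g + 1) b c'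
  | push {t g : ℕ} {b : Bool} {c c' : P.S × List P.Γ} : NPushProg.TRun P x h T r t g b c →
      P.TStep x c .push c' → h < c'.2.length → NPushProg.TRun P x h T r t g true c'
  | pop {t g : ℕ} {b : Bool} {c c' : P.S × List P.Γ} : NPushProg.TRun P x h T r t g b c →
      P.TStep x c .pop c' → h < c'.2.length → tn b t ≤ T →
      NPushProg.TRun P x h T r (tn b t) g false c'
  | leave {t g : ℕ} {b : Bool} {c c' : P.S × List P.Γ} : NPushProg.TRun P x h T r t g b c →
      P.TStep x c .pop c' → h < c.2.length → c'.2.length ≤ h → tn b t ≤ T →
      NPushProg.TRun P x h T r 0 0 false c'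

/-- The program accepts `x` by a computation in which each part above the height `h` has at most
`T` turns and at most `r` guesses. -/
def NPushProg.TAccepts {ι α : Type} (P : NPushProg ι α) (h T r : ℕ) (x : ι → α) : Prop :=
  ∃ t g b c, P.TRun x h T r t g b c ∧ P.acc c.1 = true

end Pool.Agent.MP_6216ea_lc
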