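import Pool.Agent.Lib.MP_6216ea_lc.TNDefs
import Pool.Agent.Lib.MP_6216ea_lc.NDExc

/-! The part of a computation above the height `h`, counting turns. -/

set_option autoImplicit false

namespace Pool.Agent.MP_6216ea_lc

namespace NPushProg

variable {ι α : Type} {P : NPushProg ι α} {r : ℕ} {s₁ : P.S} {g₁ : P.Γ} {c : ℕ → Bool}
  {o : Option P.S} {x : ι → α}

/-- The meaning of the configurations of the program. -/
def TEInv (P : NPushProg ι α) (r : ℕ) (x : ι → α) (h T : ℕ) (z : List P.Γ) (k : ℕ) (b : Bool) :
    P.EN r → List (P.Γ × Bool) → Prop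
  | none, y => k = 0 ∧ b = false ∧ y = []
  | some none, _ => True
  | some (some (.inl s)), y => y = [] ∧ (k ≤ T → P.TRun x h T r 0 0 false (s, z))
  | some (some (.inr (s, j))), y => ∃ w : List P.Γ, w ≠ [] ∧ y = P.mark w ∧
      (k ≤ T → P.TRun x h T r k j.val b (s, w ++ z))

theorem le_tn' (b : Bool) (k : ℕ) : k ≤ tn b k := by
  unfold tn
  split_ifs <;> omega

theorem texc_sound {h T : ℕ} {s₀ : P.S} {z : List P.Γ} (h0 : P.TRun x h T r 0 0 false (s₀, z))
    (hz : z.length = h) (hi₀ : P.instr s₀ = .push g₁ s₁) {k : ℕ} {b : Bool}
    {v : (P.exc r s₁ g₁ c o).S} {y : List (P.exc r s₁ g₁ c o).Γ}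
    (hr : (P.exc r s₁ g₁ c o).TReach x k b v y) : P.TEInv r x h T z k b v y := by
  induction hr with
  | start => exact ⟨rfl, rfl, rfl⟩
  | @jump k b v v' y h1 h2 ih =>
    rcases v with _ | _ | s | ⟨s, j⟩
    · cases h2
    · have h5 : some none = v' := PInstr.jump.inj h2
      rw [← h5]
      trivial
    · have h5 : P.er r s = v' := PInstr.jump.inj h2
      rw [← h5]
      exact ih
    · obtain ⟨w, hw, hy, hrun⟩ := ih
      cases hi : P.instr s with
      | jump s' =>
        have h5 : P.en r s' j = v' := PInstr.jump.inj ((ei_jump hi j).symm.trans h2)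
        rw [← h5]
        exact ⟨w, hw, hy, fun hk => .move (hrun hk) (.jump hi) (len_aux hz hw)⟩
      | read i f => exact absurd ((ei_read hi j).symm.trans h2) (by simp)
      | guess f =>
        by_cases hj : j.val < r
        · have h5 : P.en r (f (c j.val)) ⟨j.val + 1, by omega⟩ = v' :=
            PInstr.jump.inj ((ei_guess (j := j.val) hi hj).symm.trans h2)
          rw [← h5]
          exact ⟨w, hw, hy, fun hk => .guess (hrun hk) (.guess (c j.val) hi) (len_aux hz hw) hj⟩
        · have h5 : some none = v' := PInstr.jump.inj ((ei_guess' hi hj).symm.trans h2)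
          rw [← h5]
          trivial
      | push g s' => exact absurd ((ei_push hi j).symm.trans h2) (by simp)
      | pop f => exact absurd ((ei_pop hi j).symm.trans h2) (by simp)
  | @read k b v i f' y h1 h2 ih =>
    rcases v with _ | _ | s | ⟨s, j⟩
    · cases h2
    · cases h2
    · cases h2
    · obtain ⟨w, hw, hy, hrun⟩ := ih
      cases hi : P.instr s with
      | jump s' => exact absurd ((ei_jump hi j).symm.trans h2) (by simp)
      | read i' f =>
        obtain ⟨h5, h6⟩ := PInstr.read.inj ((ei_read hi j).symm.trans h2)
        subst h5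
        rw [← h6]
        exact ⟨w, hw, hy, fun hk => .move (hrun hk) (.read hi) (len_aux hz hw)⟩
      | guess f =>
        by_cases hj : j.val < r
        · exact absurd ((ei_guess (j := j.val) hi hj).symm.trans h2) (by simp)
        · exact absurd ((ei_guess' hi hj).symm.trans h2) (by simp)
      | push g s' => exact absurd ((ei_push hi j).symm.trans h2) (by simp)
      | pop f => exact absurd ((ei_pop hi j).symm.trans h2) (by simp)
  | @push k b v v' g' y h1 h2 ih =>
    rcases v with _ | _ | s | ⟨s, j⟩
    · obtain ⟨hk, hb, hy⟩ := ih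
      obtain ⟨h5, h6⟩ := PInstr.push.inj h2
      rw [← h5, ← h6, hk, hy]
      refine ⟨[g₁], by simp, rfl, fun _ => ?_⟩
      exact .push h0 (.push hi₀) (len_aux (w := [g₁]) hz (by simp))
    · cases h2
    · cases h2
    · obtain ⟨w, hw, hy, hrun⟩ := ih
      cases hi : P.instr s with
      | jump s' => exact absurd ((ei_jump hi j).symm.trans h2) (by simp)
      | read i f => exact absurd ((ei_read hi j).symm.trans h2) (by simp)
      | guess f =>
        by_cases hj : j.val < r
        · exact absurd ((ei_guess (j := j.val) hi hj).symm.trans h2) (by simp)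
        · exact absurd ((ei_guess' hi hj).symm.trans h2) (by simp)
      | push g s' =>
        obtain ⟨h5, h6⟩ := PInstr.push.inj ((ei_push hi j).symm.trans h2)
        rw [← h5, ← h6, hy]
        refine ⟨g :: w, by simp, (mark_push hw).symm, fun hk => ?_⟩
        exact .push (hrun hk) (.push hi) (len_aux (w := g :: w) hz (by simp))
      | pop f => exact absurd ((ei_pop hi j).symm.trans h2) (by simp)
  | @pop k b v f' g' y h1 h2 ih =>
    rcases v with _ | _ | s | ⟨s, j⟩
    · cases h2
    · cases h2
    · cases h2
    · obtain ⟨w, hw, hy, hrun⟩ := ih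
      cases hi : P.instr s with
      | jump s' => exact absurd ((ei_jump hi j).symm.trans h2) (by simp)
      | read i f => exact absurd ((ei_read hi j).symm.trans h2) (by simp)
      | guess f =>
        by_cases hj : j.val < r
        · exact absurd ((ei_guess (j := j.val) hi hj).symm.trans h2) (by simp)
        · exact absurd ((ei_guess' hi hj).symm.trans h2) (by simp)
      | push g s' => exact absurd ((ei_push hi j).symm.trans h2) (by simp)
      | pop f =>
        have h5 := PInstr.pop.inj ((ei_pop hi j).symm.trans h2)
        rw [← h5]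
        cases w with
        | nil => exact absurd rfl hw
        | cons g w =>
          obtain ⟨h6, h7⟩ := List.cons.inj (show g' :: y = (g, w.isEmpty) :: P.mark w from hy)
          rw [h6, h7]
          cases w with
          | nil =>
            refine ⟨rfl, fun hk => ?_⟩
            have hk' : k ≤ T := (le_tn' b k).trans hk
            refine .leave (hrun hk') (.pop hi) (len_aux (w := [g]) hz (by simp)) ?_ hk
            change z.length ≤ h
            omega
          | cons g'' w =>
            refine ⟨g'' :: w, by simp, rfl, fun hk => ?_⟩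
            exact .pop (hrun ((le_tn' b k).trans hk)) (.pop hi)
              (len_aux (w := g'' :: w) hz (by simp)) hk

end NPushProg

end Pool.Agent.MP_6216ea_lc
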