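import Pool.Agent.Lib.MP_6216ea_lc.TNExc
import Pool.Agent.Lib.MP_6216ea_lc.NDTop

/-! The configurations with at most `h` stack symbols as a graph, counting turns. -/

set_option autoImplicit false

namespace Pool.Agent.MP_6216ea_lc

namespace NPushProg

variable {ι α : Type} (P : NPushProg ι α) (h T r : ℕ)

/-- The edges. -/
inductive UEdge : Option (P.Low h) → Option ((ι × α) ⊕ P.Mac r) → Option (P.Low h) → Prop
  | free {c c' : P.Low h} {k : SKind} : (∀ x, P.TStep x c.1 k c'.1) → UEdge (some c) none (some c')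
  | letter {c c' : P.Low h} {i : ι} {a : α} : (∀ x, x i = a → P.TStep x c.1 .move c'.1) →
      UEdge (some c) (some (.inl (i, a))) (some c')
  | ret {c c' : P.Low h} {g₁ : P.Γ} {s₁ : P.S} (b : Fin r → Bool) :
      P.instr c.1.1 = .push g₁ s₁ → c.1.2.length = h → c'.1.2 = c.1.2 →
      UEdge (some c) (some (.inr (c.1.1, b, some c'.1.1))) (some c')
  | accIn {c : P.Low h} {g₁ : P.Γ} {s₁ : P.S} (b : Fin r → Bool) :
      P.instr c.1.1 = .push g₁ s₁ → c.1.2.length = h →
      UEdge (some c) (some (.inr (c.1.1, b, none))) none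
  | acc {c : P.Low h} : P.acc c.1.1 = true → UEdge (some c) none none

/-- The programs `Q` decide the conditions. -/
def TGood (Q : P.Mac r → LetterNBP ι α) (x : ι → α) : Prop :=
  ∀ (s s₁ : P.S) (g₁ : P.Γ) (b : Fin r → Bool) (o : Option P.S), P.instr s = .push g₁ s₁ →
    ((Q (s, b, o)).Accepts x ↔ (P.exc r s₁ g₁ (ext' b) o).AcceptsTurns x T)

variable {P h T r}
variable {Q : P.Mac r → LetterNBP ι α} {x : ι → α}

theorem ttop_sound (hQ : P.TGood T r Q x) {v : Option (P.Low h)}
    (hv : Relation.ReflTransGen (Usable (P.UEdge h r) Q x) (P.lowStart h) v) :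
    (∀ c, v = some c → P.TRun x h T r 0 0 false c.1) ∧ (v = none → P.TAccepts h T r x) := by
  induction hv with
  | refl =>
    constructor
    · intro c hc
      have h1 := Option.some.inj hc
      rw [← h1]
      exact .start
    · intro h1; cases h1
  | @tail u v _ he ih =>
    obtain ⟨l, he, hl⟩ := he
    obtain ⟨ih, -⟩ := ih
    cases he with
    | @free c c' k hs =>
      constructor
      · intro c'' hc
        rw [← Option.some.inj hc]
        exact .low (ih c rfl) (hs x) c.2 c'.2
      · intro h1; cases h1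
    | @letter c c' i a hs =>
      constructor
      · intro c'' hc
        rw [← Option.some.inj hc]
        exact .low (ih c rfl) (hs x hl) c.2 c'.2
      · intro h1; cases h1
    | @ret c c' g₁ s₁ b hi hz hz' =>
      constructor
      · intro c'' hc
        rw [← Option.some.inj hc]
        have h1 : (Q (c.1.1, b, some c'.1.1)).Accepts x := hl
        obtain ⟨k, hk, bb, v, y, hr, ha⟩ := (hQ _ _ _ b (some c'.1.1) hi).1 h1
        have h2 := texc_sound (s₀ := c.1.1) (z := c.1.2) (ih c rfl) hz hi hr
        have ha' : P.ea r (some c'.1.1) v = true := ha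
        rcases v with _ | _ | s | ⟨s, j⟩
        · cases ha'
        · cases ha'
        · have h3 : c'.1.1 = s := by simpa [ea] using ha'
          subst h3
          have h4 := h2.2 hk
          rw [← hz'] at h4
          exact h4
        · simp [ea] at ha'
      · intro h1; cases h1
    | @accIn c g₁ s₁ b hi hz =>
      constructor
      · intro c'' hc; cases hc
      · intro _
        have h1 : (Q (c.1.1, b, none)).Accepts x := hl
        obtain ⟨k, hk, bb, v, y, hr, ha⟩ := (hQ _ _ _ b none hi).1 h1
        have h2 := texc_sound (s₀ := c.1.1) (z := c.1.2) (ih c rfl) hz hi hr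
        have ha' : P.ea r none v = true := ha
        rcases v with _ | _ | s | ⟨s, j⟩
        · cases ha'
        · cases ha'
        · simp [ea] at ha'
        · obtain ⟨w, hw, hy, hrun⟩ := h2
          exact ⟨k, j.val, bb, _, hrun hk, ha'⟩
    | @acc c ha =>
      constructor
      · intro c'' hc; cases hc
      · intro _
        exact ⟨0, 0, false, c.1, ih c rfl, ha⟩

/-- The meaning of the high configurations. -/
def THigh (P : NPushProg ι α) (h T r : ℕ) (Q : P.Mac r → LetterNBP ι α) (x : ι → α) (t g : ℕ)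
    (b : Bool) (c : P.S × List P.Γ) : Prop :=
  ∃ (c₀ : P.Low h) (s₁ : P.S) (g₁ : P.Γ) (w : List P.Γ) (e : ℕ → Bool),
    Relation.ReflTransGen (Usable (P.UEdge h r) Q x) (P.lowStart h) (some c₀) ∧
    c₀.1.2.length = h ∧ P.instr c₀.1.1 = .push g₁ s₁ ∧ w ≠ [] ∧ c.2 = w ++ c₀.1.2 ∧
    ∃ hg : g < r + 1, t ≤ T ∧ ∀ c' : ℕ → Bool, (∀ i < g, c' i = e i) → ∀ o,
      (P.exc r s₁ g₁ c' o).TReach x t b (P.en r c.1 ⟨g, hg⟩) (P.mark w)

theorem tstep_low_edge {c c' : P.Low h} {k : SKind} (hs : P.TStep x c.1 k c'.1) :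
    Usable (P.UEdge h r) Q x (some c) (some c') := by
  obtain ⟨⟨s, z⟩, hc⟩ := c
  obtain ⟨⟨s', z'⟩, hc'⟩ := c'
  have hs' : P.TStep x (s, z) k (s', z') := hs
  cases hs' with
  | jump hi => exact ⟨none, .free (k := .move) fun _ => .jump hi, trivial⟩
  | @read _ i f _ hi =>
    refine ⟨some (.inl (i, x i)), .letter fun y hy => ?_, rfl⟩
    have h1 := NPushProg.TStep.read (x := y) (z := z) hi
    rw [hy] at h1
    exact h1
  | guess b hi => exact ⟨none, .free (k := .guess) fun _ => .guess b hi, trivial⟩
  | push hi => exact ⟨none, .free (k := .push) fun _ => .push hi, trivial⟩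
  | pop hi => exact ⟨none, .free (k := .pop) fun _ => .pop hi, trivial⟩

theorem ttop_complete (hQ : P.TGood T r Q x) {t g : ℕ} {b : Bool} {c : P.S × List P.Γ}
    (hr : P.TRun x h T r t g b c) :
    (∀ hc : c.2.length ≤ h, Relation.ReflTransGen (Usable (P.UEdge h r) Q x) (P.lowStart h)
      (some ⟨c, hc⟩) ∧ t = 0 ∧ g = 0) ∧ (h < c.2.length → P.THigh h T r Q x t g b c) := by
  induction hr with
  | start =>
    constructor
    · intro _
      exact ⟨.refl, rfl, rfl⟩
    · intro h1
      exact absurd h1 (by simp)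
  | @low t g b c c' k hr hs hc hc' ih =>
    obtain ⟨ih1, ih2⟩ := ih
    exact ⟨fun _ => ⟨.tail (ih1 hc).1 (tstep_low_edge hs), rfl, rfl⟩,
      fun h1 => absurd h1 (by omega)⟩
  | @leave t g b c c' hr hs hc hc' htT ih =>
    obtain ⟨ih1, ih2⟩ := ih
    refine ⟨fun _ => ⟨?_, rfl, rfl⟩, fun h1 => absurd h1 (by omega)⟩
    obtain ⟨c₀, s₁, g₁, w, e, h1, h2, h3, h4, h5, hg, ht, h6⟩ := ih2 hc
    cases hs with
    | @pop s f g' z hi =>
      -- the relative stack has one symbol
      simp only at h5 hc' hc
      cases w with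
      | nil => exact absurd rfl h4
      | cons a w =>
        rw [List.cons_append, List.cons.injEq] at h5
        obtain ⟨h7, h8⟩ := h5
        subst h7
        have hw : w = [] := by
          have h9 := congrArg List.length h8
          rw [List.length_append, h2] at h9
          have : w.length = 0 := by omega
          exact List.length_eq_zero_iff.1 this
        subst hw
        rw [List.nil_append] at h8
        refine .tail h1 ⟨some (.inr (c₀.1.1, (fun j : Fin r => e j.val), some (f g'))),
          .ret (c := c₀) (c' := ⟨(f g', z), hc'⟩) _ h3 h2 h8, ?_⟩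
        change (Q (c₀.1.1, (fun j : Fin r => e j.val), some (f g'))).Accepts x
        rw [hQ _ _ _ _ _ h3]
        refine ⟨tn b t, htT, false, P.er r (f g'), [], ?_, ?_⟩
        · have h10 := h6 _ (agree_ext hg e) (some (f g'))
          exact PushProg.TReach.pop h10 (ei_pop hi _)
        · change P.ea r (some (f g')) (P.er r (f g')) = true
          simp [ea]
  | @move t g b c c' hr hs hc' ih =>
    obtain ⟨ih1, ih2⟩ := ih
    refine ⟨fun h1 => absurd h1 (by omega), fun _ => ?_⟩
    cases hs with
    | @jump s s' z hi =>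
      obtain ⟨c₀, s₁, g₁, w, e, h1, h2, h3, h4, h5, hg, ht, h6⟩ := ih2 hc'
      exact ⟨c₀, s₁, g₁, w, e, h1, h2, h3, h4, h5, hg, ht, fun c' hc' o =>
        .jump (h6 c' hc' o) (ei_jump hi _)⟩
    | @read s i f z hi =>
      obtain ⟨c₀, s₁, g₁, w, e, h1, h2, h3, h4, h5, hg, ht, h6⟩ := ih2 hc'
      exact ⟨c₀, s₁, g₁, w, e, h1, h2, h3, h4, h5, hg, ht, fun c' hc' o =>
        .read (f := fun a => P.en r (f a) ⟨g, hg⟩) (h6 c' hc' o) (ei_read hi _)⟩
  | @guess t g b c c' hr hs hc' hgr ih =>
    obtain ⟨ih1, ih2⟩ := ih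
    refine ⟨fun h1 => absurd h1 (by omega), fun _ => ?_⟩
    cases hs with
    | @guess s f z b' hi =>
      obtain ⟨c₀, s₁, g₁, w, e, h1, h2, h3, h4, h5, hg, ht, h6⟩ := ih2 hc'
      refine ⟨c₀, s₁, g₁, w, Function.update e g b', h1, h2, h3, h4, h5, by omega, ht,
        fun c' hc' o => ?_⟩
      have hb : c' g = b' := by rw [hc' g (by omega), Function.update_self]
      have h7 := h6 c' (fun i hi => by
        rw [hc' i (by omega), Function.update_of_ne (by omega)]) o
      have h8 := ei_guess (P := P) (r := r) (s₁ := s₁) (g₁ := g₁) (c := c') (o := o) hi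
        (j := g) (by omega)
      rw [hb] at h8
      exact .jump h7 h8
  | @push t g b c c' hr hs hc' ih =>
    obtain ⟨ih1, ih2⟩ := ih
    refine ⟨fun h1 => absurd h1 (by omega), fun _ => ?_⟩
    cases hs with
    | @push s s' g' z hi =>
      by_cases hz : z.length ≤ h
      · obtain ⟨h1, h2, h3⟩ := ih1 hz
        subst h2
        subst h3
        simp only [List.length_cons] at hc'
        refine ⟨⟨(s, z), hz⟩, s', g', [g'], fun _ => false, h1, by simp only; omega, hi, by simp,
          rfl, by omega, Nat.zero_le _, fun c' _ o => ?_⟩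
        exact PushProg.TReach.push (P := P.exc r s' g' c' o) (s := none) (g := (g', true))
          (s' := P.en r s' 0) .start rfl
      · obtain ⟨c₀, s₁, g₁, w, e, h1, h2, h3, h4, h5, hg, ht, h6⟩ := ih2 (by simp only; omega)
        simp only at h5
        refine ⟨c₀, s₁, g₁, g' :: w, e, h1, h2, h3, by simp, by rw [h5]; rfl, hg, ht,
          fun c' hc' o => ?_⟩
        rw [mark_push h4]
        exact .push (h6 c' hc' o) (ei_push hi _)
  | @pop t g b c c' hr hs hc' htT ih =>
    obtain ⟨ih1, ih2⟩ := ih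
    refine ⟨fun h1 => absurd h1 (by omega), fun _ => ?_⟩
    cases hs with
    | @pop s f g' z hi =>
      obtain ⟨c₀, s₁, g₁, w, e, h1, h2, h3, h4, h5, hg, ht, h6⟩ := ih2 (by
        simp only [List.length_cons] at hc' ⊢; omega)
      simp only at h5 hc'
      cases w with
      | nil => exact absurd rfl h4
      | cons a w =>
        rw [List.cons_append, List.cons.injEq] at h5
        obtain ⟨h7, h8⟩ := h5
        subst h7
        have hw : w ≠ [] := by
          rintro rfl
          rw [List.nil_append] at h8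
          rw [h8, h2] at hc'
          exact absurd hc' (lt_irrefl _)
        refine ⟨c₀, s₁, g₁, w, e, h1, h2, h3, hw, h8, hg, htT, fun c' hc' o => ?_⟩
        have h9 := h6 c' hc' o
        rw [mark_push hw] at h9
        exact PushProg.TReach.pop h9 (ei_pop hi _)

theorem ttop_iff (hQ : P.TGood T r Q x) :
    Relation.ReflTransGen (Usable (P.UEdge h r) Q x) (P.lowStart h) none ↔
      P.TAccepts h T r x := by
  constructor
  · intro h1
    exact (ttop_sound hQ h1).2 rfl
  · rintro ⟨t, g, b, c, hr, ha⟩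
    obtain ⟨h1, h2⟩ := ttop_complete hQ hr
    by_cases hc : c.2.length ≤ h
    · exact .tail (h1 hc).1 ⟨none, .acc (c := ⟨c, hc⟩) ha, trivial⟩
    · obtain ⟨c₀, s₁, g₁, w, e, h3, h4, h5, h6, h7, hg, ht, h8⟩ := h2 (by omega)
      refine .tail h3 ⟨some (.inr (c₀.1.1, (fun j : Fin r => e j.val), none)),
        .accIn (c := c₀) _ h5 h4, ?_⟩
      change (Q (c₀.1.1, (fun j : Fin r => e j.val), none)).Accepts x
      rw [hQ _ _ _ _ _ h5]
      exact ⟨t, ht, b, _, _, h8 _ (agree_ext hg e) none, ha⟩

end NPushProg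

end Pool.Agent.MP_6216ea_lc
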