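import Pool.Agent.Lib.MP_6216ea_lc.TUComp
import Pool.Agent.Lib.MP_6216ea_lc.NDMain

/-! Deterministic pushdown programs with `T` turns of the stack have deterministic branching
programs of size `L ^ (C (1 + log T / log log L))`. -/

set_option autoImplicit false

namespace Pool.Agent.MP_6216ea_lc

/-- The number of nodes of the program with segments. -/
theorem turn_card10 {ι α : Type} (P : PushProg ι α) {T L : ℕ} (hL : 2 ≤ L) (hTL : T ≤ L)
    (hS : Fintype.card P.S ≤ L) : Fintype.card (P.turn T).S ≤ L ^ 10 := by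
  change Fintype.card (TNode P.S T (Fintype.card P.S)) ≤ _
  refine TNode.card_le.trans ?_
  have h1 : L + 1 ≤ L ^ 2 := by nlinarith
  have h2 : T + 1 ≤ L ^ 2 := by omega
  have h3 : Fintype.card P.S + 1 ≤ L ^ 2 := by omega
  calc 2 * ((T + 1) * (Fintype.card P.S * (Fintype.card P.S * (Fintype.card P.S + 1)))) +
      (T + 1) * (Fintype.card P.S * (Fintype.card P.S * ((Fintype.card P.S + 1) *
        (Fintype.card P.S * (Fintype.card P.S + 1))))) + 1
      ≤ 2 * (L ^ 2 * (L * (L * L ^ 2))) + L ^ 2 * (L * (L * (L ^ 2 * (L * L ^ 2)))) + 1 := by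
        gcongr
    _ = 2 * L ^ 6 + L ^ 9 + 1 := by ring
    _ ≤ L ^ 9 + L ^ 9 := by
        have h4 : L ^ 9 = L ^ 3 * L ^ 6 := by ring
        have h5 : 8 * L ^ 6 ≤ L ^ 3 * L ^ 6 :=
          Nat.mul_le_mul_right _ (by
            calc 8 = 2 ^ 3 := by norm_num
              _ ≤ L ^ 3 := Nat.pow_le_pow_left hL 3)
        have h6 : 1 ≤ L ^ 6 := Nat.one_le_pow _ _ (by omega)
        omega
    _ = 2 * L ^ 9 := by ring
    _ ≤ L * L ^ 9 := Nat.mul_le_mul_right _ hL
    _ = L ^ 10 := by ring

/-- Every pushdown program with at most `L` nodes and `T ≤ L`: the inputs accepted by computations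
with at most `T` turns of the stack have a deterministic branching program of size
`L ^ (C (1 + log T / log log L))`. -/
theorem push_turns : ∃ C : ℝ, 0 < C ∧ ∀ (ι α : Type) (P : PushProg ι α) (T L : ℕ), 3 ≤ L →
    Fintype.card P.S ≤ L → T ≤ L → ∃ B : LetterDBP ι α,
      (Fintype.card B.V : ℝ) ≤
        (L : ℝ) ^ (C * (1 + Real.log T / Real.log (Real.log L))) ∧
        B.Decides fun x => P.AcceptsTurns x T := by
  obtain ⟨C, hC, hmain⟩ := push_ops
  have he3 : Real.exp 1 < 3 := by
    have := Real.exp_one_lt_d9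
    linarith
  have hl3 : 1 < Real.log 3 := by
    rw [Real.lt_log_iff_exp_lt (by norm_num)]
    exact he3
  have hll3 : 0 < Real.log (Real.log 3) := Real.log_pos hl3
  refine ⟨(10 : ℕ) * C * (1 + Real.log 3 / Real.log (Real.log 3)) + (0 : ℕ), by positivity, ?_⟩
  intro ι α P T L hL hS hT
  have hL10 : L ^ 2 ≤ L ^ 10 := Nat.pow_le_pow_right (by omega) (by norm_num)
  have h2T : 2 * T ≤ L ^ 10 := by
    calc 2 * T ≤ L * L := Nat.mul_le_mul (by omega) hT
      _ = L ^ 2 := by ring
      _ ≤ L ^ 10 := hL10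
  have h3 : 3 ≤ L ^ 10 := by nlinarith
  obtain ⟨B, hB, hdec⟩ := hmain ι α (P.turn T) (2 * T) (L ^ 10) h3
    (turn_card10 P (by omega) hT hS) h2T
  refine ⟨B, ?_, fun x => ?_⟩
  · have h4 := num_gen (m := 0) (e := 10) hC hL (by norm_num)
      (show 2 * T ≤ 2 * T + 1 by omega) hB
    simpa using h4
  · have h5 := hdec x
    simp only [P.turn_accepts] at h5
    exact h5

end Pool.Agent.MP_6216ea_lc
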