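import Pool.Agent.Lib.MP_6216ea_lc.TUDefs

/-! Parts of a computation without pops. -/

set_option autoImplicit false

namespace Pool.Agent.MP_6216ea_lc

namespace PushProg

variable {ι α : Type} (P : PushProg ι α) (x : ι → α)

/-- One step, but at a pop nothing happens. -/
def un (c : P.S × List P.Γ) : P.S × List P.Γ :=
  match P.instr c.1 with
  | .jump s' => (s', c.2)
  | .read i f => (f (x i), c.2)
  | .push g s' => (s', g :: c.2)
  | .pop _ => c

/-- The computation without pops from the node `s` with the empty stack. -/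
def tj (s : P.S) (t : ℕ) : P.S × List P.Γ := (P.un x)^[t] (s, [])

theorem tj_zero (s : P.S) : P.tj x s 0 = (s, []) := rfl

theorem tj_succ (s : P.S) (t : ℕ) : P.tj x s (t + 1) = P.un x (P.tj x s t) :=
  Function.iterate_succ_apply' _ _ _

theorem un_len (c : P.S × List P.Γ) :
    (P.un x c).2.length = c.2.length ∧ (P.un x c).2 = c.2 ∨
    ∃ g s', P.instr c.1 = .push g s' ∧ P.un x c = (s', g :: c.2) := by
  unfold un
  cases h : P.instr c.1 with
  | jump s' => exact Or.inl ⟨rfl, rfl⟩
  | read i f => exact Or.inl ⟨rfl, rfl⟩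
  | push g s' => exact Or.inr ⟨g, s', rfl, rfl⟩
  | pop f => exact Or.inl ⟨rfl, rfl⟩

theorem tj_mono (s : P.S) (t d : ℕ) : ∃ y, (P.tj x s (t + d)).2 = y ++ (P.tj x s t).2 := by
  induction d with
  | zero => exact ⟨[], rfl⟩
  | succ d ih =>
    obtain ⟨y, hy⟩ := ih
    rw [← add_assoc, tj_succ]
    rcases P.un_len x (P.tj x s (t + d)) with ⟨_, h⟩ | ⟨g, s', _, h⟩
    · exact ⟨y, by rw [h, hy]⟩
    · exact ⟨g :: y, by rw [h]; simp only; rw [hy]; rfl⟩

theorem tj_len (s : P.S) (t : ℕ) : (P.tj x s t).2.length ≤ t := by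
  induction t with
  | zero => exact le_rfl
  | succ t ih =>
    rw [tj_succ]
    rcases P.un_len x (P.tj x s t) with ⟨h, _⟩ | ⟨g, s', _, h⟩
    · omega
    · rw [h]; simp only [List.length_cons]; omega

/-- The content is determined by its length. -/
theorem tj_unique (s : P.S) (t t' : ℕ)
    (h : (P.tj x s t).2.length = (P.tj x s t').2.length) : (P.tj x s t).2 = (P.tj x s t').2 := by
  wlog hle : t ≤ t' generalizing t t' with H
  · exact (H t' t h.symm (by omega)).symm
  · obtain ⟨d, rfl⟩ := Nat.exists_eq_add_of_le hle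
    obtain ⟨y, hy⟩ := P.tj_mono x s t d
    rw [hy, List.length_append] at h
    have : y.length = 0 := by omega
    rw [hy, List.length_eq_zero_iff.1 this]
    rfl

/-- The node after a step without pops. -/
def nd (u : P.S) : P.S :=
  match P.instr u with
  | .jump s' => s'
  | .read i f => f (x i)
  | .push _ s' => s'
  | .pop _ => u

theorem un_fst (c : P.S × List P.Γ) : (P.un x c).1 = P.nd x c.1 := by
  unfold un nd
  cases P.instr c.1 <;> rfl

theorem tj_fst (s : P.S) (t : ℕ) : (P.tj x s t).1 = (P.nd x)^[t] s := by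
  induction t with
  | zero => rfl
  | succ t ih => rw [tj_succ, un_fst, ih, Function.iterate_succ_apply']

/-- Every node is visited in the first `card` steps. -/
theorem tj_node (s : P.S) (t : ℕ) :
    ∃ t' ≤ Fintype.card P.S, (P.tj x s t').1 = (P.tj x s t).1 := by
  obtain ⟨i, j, hij, heq⟩ := Fintype.exists_ne_map_eq_of_card_lt
    (fun k : Fin (Fintype.card P.S + 1) => (P.nd x)^[k.val] s) (by simp)
  wlog hlt : i.val < j.val generalizing i j with H
  · exact H j i hij.symm heq.symm (by
      have : i.val ≠ j.val := fun h => hij (Fin.ext h)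
      omega)
  have hall : ∀ n : ℕ, ∃ k < j.val, (P.nd x)^[n] s = (P.nd x)^[k] s := by
    intro n
    induction n with
    | zero => exact ⟨0, by omega, rfl⟩
    | succ n ih =>
      obtain ⟨k, hk, hk'⟩ := ih
      rw [Function.iterate_succ_apply', hk', ← Function.iterate_succ_apply' (P.nd x)]
      by_cases hkj : k + 1 < j.val
      · exact ⟨k + 1, hkj, rfl⟩
      · have hkj' : k + 1 = j.val := by omega
        refine ⟨i.val, hlt, ?_⟩
        change (P.nd x)^[k + 1] s = _
        rw [hkj']
        exact heq.symm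
  obtain ⟨k, hk, hk'⟩ := hall t
  refine ⟨k, by omega, ?_⟩
  rw [tj_fst, tj_fst, hk']

theorem tj_stay (s : P.S) {t : ℕ} {f : P.Γ → P.S} (h : P.instr (P.tj x s t).1 = .pop f) (d : ℕ) :
    P.tj x s (t + d) = P.tj x s t := by
  induction d with
  | zero => rfl
  | succ d ih =>
    rw [← add_assoc, tj_succ, ih]
    unfold un
    rw [h]

/-- A pop is reached in the first `card` steps. -/
theorem tj_pop (s : P.S) {t : ℕ} {f : P.Γ → P.S} (h : P.instr (P.tj x s t).1 = .pop f) :
    ∃ t' ≤ Fintype.card P.S, P.tj x s t' = P.tj x s t := by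
  obtain ⟨t', ht', he⟩ := P.tj_node x s t
  refine ⟨t', ht', ?_⟩
  have h' : P.instr (P.tj x s t').1 = .pop f := by rw [he]; exact h
  rcases le_total t t' with hle | hle
  · obtain ⟨d, rfl⟩ := Nat.exists_eq_add_of_le hle
    exact P.tj_stay x s h d
  · obtain ⟨d, rfl⟩ := Nat.exists_eq_add_of_le hle
    exact (P.tj_stay x s h' d).symm

/-- The step which pushes the last symbol. -/
theorem tj_last (s : P.S) {t : ℕ} {g : P.Γ} {w : List P.Γ} (h : (P.tj x s t).2 = g :: w) :
    ∃ t' s', t' < t ∧ P.instr (P.tj x s t').1 = .push g s' ∧ (P.tj x s t').2 = w := by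
  induction t with
  | zero => cases h
  | succ t ih =>
    rw [tj_succ] at h
    rcases P.un_len x (P.tj x s t) with ⟨_, h1⟩ | ⟨g', s', h1, h2⟩
    · rw [h1] at h
      obtain ⟨t', s', ht', h3, h4⟩ := ih h
      exact ⟨t', s', by omega, h3, h4⟩
    · rw [h2] at h
      simp only [List.cons.injEq] at h
      obtain ⟨h3, h4⟩ := h
      subst h3
      exact ⟨t, s', by omega, h1, h4⟩

end PushProg

end Pool.Agent.MP_6216ea_lc
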