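import Pool.Agent.Lib.MP_6216ea_lc.TVStep
import Pool.Agent.Lib.MP_6216ea_lc.DUAlg

/-! The algorithm with eight registers is computable in small space. -/

set_option autoImplicit false
set_option linter.unreachableTactic false
set_option linter.unusedTactic false

namespace Pool.Agent.MP_6216ea_lc

namespace TV

open SP
open DU (Rg addB mulB runN runN_zero runN_succ One fineA)
open DU.Nm (pack invN invN_lt comp_pack comp_invN comp_dg)

variable {α : Type} {K : List α → ℕ} {σ τ : Type} [Tup σ] [Tup τ]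

/-- A computable family of recursions. -/
structure Good (K : List α → ℕ) (P : List α → σ → Par) (O : List α → σ → One)
    (base : List α → σ → ℕ → ℕ) (g : List α → σ → ℕ) : Prop where
  cp : Comp K fun x w => (P x w).p
  cn : Comp K fun x w => (P x w).n
  cE : Comp K fun x w => (P x w).E
  cb : Comp K fun x w => (P x w).b
  cg : Comp K fun x w => g x w
  cphi : Comp K fun x (v : σ × ℕ × ℕ × ℕ) =>
    phi (O x v.1) v.2.1 v.2.2.1 (yn (P x v.1).N v.2.2.2 6)
      (fun m => if m = 6 then 0 else yn (P x v.1).N v.2.2.2 m)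
  cbase : Comp K fun x (v : σ × ℕ) => base x v.1 v.2
  prime : ∀ x w, (P x w).p.Prime
  np : ∀ x w, (P x w).n ≤ (P x w).p
  npos : ∀ x w, 0 < (P x w).n
  bR : Bd K fun x w => (P x w).p ^ ((7 + 1) * (P x w).E)
  bZ : Bd K fun x w => (P x w).zz ^ (g x w + 1)

theorem Good.comp {P : List α → σ → Par} {O : List α → σ → One} {base : List α → σ → ℕ → ℕ}
    {g : List α → σ → ℕ} (h : Good K P O base g) {f : List α → τ → σ} (hf : Comp K f) :
    Good K (fun x t => P x (f x t)) (fun x t => O x (f x t)) (fun x t => base x (f x t))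
      (fun x t => g x (f x t)) where
  cp := h.cp.comp hf
  cn := h.cn.comp hf
  cE := h.cE.comp hf
  cb := h.cb.comp hf
  cg := h.cg.comp hf
  cphi := h.cphi.comp (Comp.pair (hf.comp Comp.id.fst) Comp.id.snd)
  cbase := h.cbase.comp (Comp.pair (hf.comp Comp.id.fst) Comp.id.snd)
  prime x t := h.prime x (f x t)
  np x t := h.np x (f x t)
  npos x t := h.npos x (f x t)
  bR := h.bR.comp hf
  bZ := h.bZ.comp hf

/-! ### Nodes -/

theorem comp_sA {j k : List α → σ → ℕ} (hj : Comp K j) (hk : Comp K k) :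
    Comp K fun x w => sA (j x w) (k x w) := Comp.ite (CompP.lt hk hj) hk hk.succ

theorem comp_ngN {p t : List α → σ → ℕ} (hp : Comp K p) (ht : Comp K t) :
    Comp K fun x w => ngN (p x w) (t x w) := Comp.sub hp (Comp.mod ht hp)

theorem comp_opN {b β s w c j t : List α → σ → ℕ} (hb : Comp K b) (hβ : Comp K β) (hs : Comp K s)
    (hw : Comp K w) (hc : Comp K c) (hj : Comp K j) (ht : Comp K t) :
    Comp K fun x v => opN (b x v) (β x v) (s x v) (w x v) (c x v) (j x v) (t x v) := by
  unfold opN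
  with_reducible repeat' (first
    | assumption | exact Comp.const _
    | apply Comp.ite | apply CompP.lt | apply Comp.pair)

theorem comp_lowN {b β c j t : List α → σ → ℕ} (hb : Comp K b) (hβ : Comp K β)
    (hc : Comp K c) (hj : Comp K j) (ht : Comp K t) :
    Comp K fun x v => lowN (b x v) (β x v) (c x v) (j x v) (t x v) := by
  unfold lowN
  with_reducible repeat' (first
    | assumption | exact Comp.const _
    | apply Comp.ite | apply CompP.eq | apply Comp.sub | apply Comp.pair)

theorem comp_slotO {p b β s w k c j t m : List α → σ → ℕ} (hp : Comp K p) (hb : Comp K b)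
    (hβ : Comp K β) (hs : Comp K s) (hw : Comp K w) (hk : Comp K k) (hc : Comp K c)
    (hj : Comp K j) (ht : Comp K t) (hm : Comp K m) :
    Comp K fun x v => slotO (p x v) (b x v) (β x v) (s x v) (w x v) (k x v) (c x v) (j x v)
      (t x v) (m x v) := by
  have h1 : Comp K fun x v => invN (p x v) (m x v / 17 + 1) :=
    comp_invN hp (Comp.add (Comp.div hm (Comp.const 17)) (Comp.const 1))
  have h2 : Comp K fun x v => ngN (p x v) 1 := comp_ngN hp (Comp.const 1)
  have h3 := comp_ngN hp ht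
  have h4 : Comp K fun x v => opN (b x v) (β x v) (s x v + 1) (w x v) (c x v) (sA (j x v) 6) 1 :=
    comp_opN hb hβ (Comp.add hs (Comp.const 1)) hw hc (comp_sA hj (Comp.const 6)) (Comp.const 1)
  have h5 : Comp K fun x v => opN (b x v) (β x v) (s x v + 1) (w x v) (c x v) (sA (j x v) 6)
      (ngN (p x v) 1) :=
    comp_opN hb hβ (Comp.add hs (Comp.const 1)) hw hc (comp_sA hj (Comp.const 6)) h2
  have h6 : Comp K fun x v => sA (j x v) (m x v % 17 - 1) :=
    comp_sA hj (Comp.sub (Comp.mod hm (Comp.const 17)) (Comp.const 1))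
  have h7 : Comp K fun x v => sA (j x v) (m x v % 17 - 9) :=
    comp_sA hj (Comp.sub (Comp.mod hm (Comp.const 17)) (Comp.const 9))
  unfold slotO idN
  with_reducible repeat' (first
    | assumption | exact Comp.id | exact Comp.const _ | exact CompP.const _
    | apply Comp.ite | apply Comp.fst | apply Comp.snd | apply Comp.add | apply Comp.sub
    | apply Comp.mul | apply Comp.div | apply Comp.mod | apply Comp.min | apply CompP.and
    | apply CompP.or | apply CompP.not | apply CompP.ne | apply CompP.eq | apply CompP.le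
    | apply CompP.lt | apply CompP.testBit | apply Comp.pair)

theorem comp_slotA {p b β w c j t m : List α → σ → ℕ} (hp : Comp K p) (hb : Comp K b)
    (hβ : Comp K β) (hw : Comp K w) (hc : Comp K c)
    (hj : Comp K j) (ht : Comp K t) (hm : Comp K m) :
    Comp K fun x v => slotA (p x v) (b x v) (β x v) (w x v) (c x v) (j x v)
      (t x v) (m x v) := by
  have h1 : Comp K fun x v => invN (p x v) (m x v / 17 + 1) :=
    comp_invN hp (Comp.add (Comp.div hm (Comp.const 17)) (Comp.const 1))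
  have h2 : Comp K fun x v => ngN (p x v) 1 := comp_ngN hp (Comp.const 1)
  have h4 : Comp K fun x v => opN (b x v) (β x v) 0 (w x v) (c x v) (sA (j x v) 0) 1 :=
    comp_opN hb hβ (Comp.const 0) hw hc (comp_sA hj (Comp.const 0)) (Comp.const 1)
  have h5 : Comp K fun x v => opN (b x v) (β x v) 0 (w x v) (c x v) (sA (j x v) 0)
      (ngN (p x v) 1) :=
    comp_opN hb hβ (Comp.const 0) hw hc (comp_sA hj (Comp.const 0)) h2
  have h6 : Comp K fun x v => sA (j x v) 0 := comp_sA hj (Comp.const 0)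
  unfold slotA idN
  with_reducible repeat' (first
    | assumption | exact Comp.id | exact Comp.const _ | exact CompP.const _
    | apply Comp.ite | apply Comp.fst | apply Comp.snd | apply Comp.add | apply Comp.sub
    | apply Comp.mul | apply Comp.div | apply Comp.mod | apply Comp.min | apply CompP.and
    | apply CompP.or | apply CompP.not | apply CompP.ne | apply CompP.eq | apply CompP.le
    | apply CompP.lt | apply CompP.testBit | apply Comp.pair)

theorem comp_ch1 {p b m : List α → σ → ℕ} {v : List α → σ → N7} (hp : Comp K p) (hb : Comp K b)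
    (hv : Comp K v) (hm : Comp K m) :
    Comp K fun x w => ch1 (p x w) (b x w) (v x w) (m x w) := by
  have v2 := hv.snd
  have v3 := v2.snd
  have v4 := v3.snd
  have v5 := v4.snd
  have v6 := v5.snd
  have h1 := comp_slotA hp hb v2.fst v4.fst v5.fst v6.fst v6.snd hm
  have h2 := comp_slotO hp hb v2.fst (Comp.sub v3.fst (Comp.const 1)) v4.fst (Comp.const 6)
    v5.fst v6.fst v6.snd hm
  have h3 := comp_slotO hp hb v2.fst v3.fst (Comp.div v4.fst (Comp.const 7))
    (Comp.mod v4.fst (Comp.const 7)) v5.fst v6.fst v6.snd hm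
  exact Comp.ite (CompP.eq hv.fst (Comp.const 7)) (Comp.ite (CompP.eq v3.fst (Comp.const 0)) h1 h2)
    (Comp.ite (CompP.eq hv.fst (Comp.const 8)) h3
      (Comp.ite (CompP.eq hm (Comp.const 0)) hv (Comp.const idN)))

theorem comp_ch2 {p b m : List α → σ → ℕ} {v : List α → σ → N7} (hp : Comp K p) (hb : Comp K b)
    (hv : Comp K v) (hm : Comp K m) :
    Comp K fun x w => ch2 (p x w) (b x w) (v x w) (m x w) := by
  have v2 := hv.snd
  have v6 := v2.snd.snd.snd.snd
  have hm4 : Comp K fun x w => m x w / 4 := Comp.div hm (Comp.const 4)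
  have hr : Comp K fun x w => m x w % 4 := Comp.mod hm (Comp.const 4)
  have hs := comp_sA v6.fst (Comp.const 1)
  have h1 := comp_lowN hb v2.fst hm4 hs (Comp.const 1)
  have h2 := comp_lowN hb v2.fst hm4 hs (comp_ngN hp (Comp.const 1))
  have h0 : Comp K fun (_ : List α) (_ : σ) => 0 := Comp.const 0
  have h3 : Comp K fun (_ : List α) (_ : σ) => 3 := Comp.const 3
  have h4 := Comp.pair h3 (Comp.pair h0 (Comp.pair h0 (Comp.pair h0 (Comp.pair hm4
    (Comp.pair v6.fst v6.snd)))))
  have h5 := Comp.pair h3 (Comp.pair h0 (Comp.pair h0 (Comp.pair h0 (Comp.pair hm4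
    (Comp.pair v6.fst (comp_ngN hp v6.snd))))))
  exact Comp.ite (CompP.eq hv.fst (Comp.const 9)) (Comp.ite (CompP.eq hr (Comp.const 0)) h4
    (Comp.ite (CompP.eq hr (Comp.const 1)) h1 (Comp.ite (CompP.eq hr (Comp.const 2)) h5 h2)))
      (Comp.ite (CompP.eq hm (Comp.const 0)) hv (Comp.const idN))

/-! ### Extensions -/

theorem comp_lgN {p n a r : List α → σ → ℕ} (hp : Comp K p) (hn : Comp K n) (ha : Comp K a)
    (hr : Comp K r) : Comp K fun x w => lgN (p x w) (n x w) (a x w) (r x w) := by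
  have hp' : Comp K fun x (v : σ × ℕ) => p x v.1 := hp.comp Comp.id.fst
  have ha' : Comp K fun x (v : σ × ℕ) => a x v.1 := ha.comp Comp.id.fst
  have hr' : Comp K fun x (v : σ × ℕ) => r x v.1 := hr.comp Comp.id.fst
  have hi : Comp K fun (_ : List α) (v : σ × ℕ) => v.2 := Comp.id.snd
  refine Comp.prodMod (f := fun x w b => if b = a x w then 1 else
    (r x w + p x w - b) * invN (p x w) (a x w + p x w - b)) (T := n) (m := fun x w => p x w - 1)
    ?_ hn (Comp.pred hp)
  exact Comp.ite (CompP.eq hi ha') (Comp.const 1) (Comp.mul (Comp.sub (Comp.add hr' hp') hi)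
    (comp_invN hp' (Comp.sub (Comp.add ha' hp') hi)))

theorem comp_gextN {p n m : List α → σ → ℕ} {f r : List α → σ → ℕ → ℕ} (hp : Comp K p)
    (hn : Comp K n) (hm : Comp K m) (hf : Comp K fun x (v : σ × ℕ) => f x v.1 v.2)
    (hr : Comp K fun x (v : σ × ℕ) => r x v.1 v.2) (hb : Bd K fun x w => n x w ^ m x w) :
    Comp K fun x w => gextN (p x w) (n x w) (m x w) (f x w) (r x w) := by
  have hnm : Comp K fun x w => n x w ^ m x w := Comp.pow hn hm hb
  have hp' : Comp K fun x (v : (σ × ℕ) × ℕ) => p x v.1.1 := hp.comp Comp.id.fst.fst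
  have hn' : Comp K fun x (v : (σ × ℕ) × ℕ) => n x v.1.1 := hn.comp Comp.id.fst.fst
  have hr' : Comp K fun x (v : (σ × ℕ) × ℕ) => r x v.1.1 v.2 :=
    hr.comp (Comp.pair Comp.id.fst.fst Comp.id.snd)
  refine Comp.mod (Comp.sum (f := fun x w e => f x w e * ((∏ i ∈ Finset.range (m x w),
    lgN (p x w) (n x w) (e / n x w ^ i % n x w) (r x w i)) % (p x w - 1 + 1)))
    (Comp.mul hf (Comp.prodMod (f := fun x (v : σ × ℕ) i =>
      lgN (p x v.1) (n x v.1) (v.2 / n x v.1 ^ i % n x v.1) (r x v.1 i))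
      (T := fun x (v : σ × ℕ) => m x v.1) (m := fun x (v : σ × ℕ) => p x v.1 - 1) ?_
      (hm.comp Comp.id.fst) (Comp.pred (hp.comp Comp.id.fst)))) hnm) hp
  exact comp_lgN hp' hn' (Comp.digit Comp.id.fst.snd hn' Comp.id.snd) hr'

section

variable {P : List α → σ → Par} {O : List α → σ → One} {base : List α → σ → ℕ → ℕ}
  {g : List α → σ → ℕ}

theorem Good.pos (h : Good K P O base g) (x : List α) (w : σ) : 0 < (P x w).p :=
  (h.prime x w).pos

theorem Good.bN (h : Good K P O base g) (e : ℕ) (he : e ≤ 8) :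
    Bd K fun x w => (P x w).n ^ (e * (P x w).E) := by
  refine h.bR.mono fun x w => ?_
  exact (Nat.pow_le_pow_left (h.np x w) _).trans
    (Nat.pow_le_pow_right (h.pos x w) (Nat.mul_le_mul_right _ he))

theorem Good.cN (h : Good K P O base g) : Comp K fun x w => (P x w).N :=
  Comp.pow h.cn h.cE ((h.bN 1 (by norm_num)).mono fun x w => by rw [Nat.one_mul])

theorem Good.cr1 (h : Good K P O base g) : Comp K fun x w => (P x w).r1 :=
  Comp.mul (Comp.pred h.cp) (Comp.const 17)

theorem Good.cr2 (h : Good K P O base g) : Comp K fun x w => (P x w).r2 :=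
  Comp.mul (Comp.const 4) h.cN

theorem r1_ge (P : Par) (hp : P.p.Prime) : 17 ≤ P.r1 := by
  have := hp.two_le
  unfold Par.r1
  omega

theorem r2_pos (P : Par) (hn : 0 < P.n) : 1 ≤ P.r2 :=
  Nat.mul_pos (by norm_num) (Nat.pow_pos hn)

theorem zz_pos (P : Par) (hp : P.p.Prime) (hn : 0 < P.n) : 1 ≤ P.zz :=
  Nat.mul_pos (Nat.pow_pos (by have := r1_ge P hp; omega)) (r2_pos P hn)

theorem Good.bz1 (h : Good K P O base g) : Bd K fun x w => (P x w).zz :=
  h.bZ.mono fun x w => Nat.le_self_pow (Nat.succ_ne_zero _) _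

theorem Good.br1U (h : Good K P O base g) : Bd K fun x w => (P x w).r1 ^ (P x w).U :=
  h.bz1.mono fun x w => Nat.le_mul_of_pos_right _ (r2_pos _ (h.npos x w))

theorem mu_mono : Monotone mu := monotone_nat_of_le_succ fun n => by
  rw [mu]
  omega

theorem le_mu (b : ℕ) : b ≤ mu b := by
  induction b with
  | zero => exact Nat.zero_le _
  | succ b ih => rw [mu]; omega

theorem Good.bU (h : Good K P O base g) : Bd K fun x w => (P x w).U := by
  refine h.br1U.mono fun x w => ?_
  have h1 := r1_ge (P x w) (h.prime x w)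
  exact (Nat.lt_pow_self (by omega)).le

theorem itr_mu (b : ℕ) : itr (fun _ v => 2 + 6 * v) 2 b = mu b := by
  induction b with
  | zero => rfl
  | succ b ih => rw [itr, ih, mu]

theorem Good.cU (h : Good K P O base g) : Comp K fun x w => (P x w).U :=
  (Comp.itr_nat (h := fun _ _ _ v => 2 + 6 * v) (g := fun _ _ => 2)
    (T := fun x w => (P x w).b) (F := fun x w => (P x w).U)
    (Comp.add (Comp.const 2) (Comp.mul (Comp.const 6) Comp.id.snd.snd)) (Comp.const 2) h.cb h.bU
    fun x w i hi => by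
      change itr (fun _ v => 2 + 6 * v) 2 i ≤ _
      rw [itr_mu]
      exact mu_mono hi).of_eq fun x w => itr_mu _

theorem Good.b7 (h : Good K P O base g) : Bd K fun x w => 7 ^ (P x w).b := by
  refine h.br1U.mono fun x w => ?_
  have h1 := r1_ge (P x w) (h.prime x w)
  exact (Nat.pow_le_pow_left (by omega) _).trans (Nat.pow_le_pow_right (by omega) (le_mu _))

theorem Good.czz (h : Good K P O base g) : Comp K fun x w => (P x w).zz :=
  Comp.mul (Comp.pow h.cr1 h.cU h.br1U) h.cr2

theorem Good.czzg (h : Good K P O base g) : Comp K fun x w => (P x w).zz ^ g x w :=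
  Comp.pow h.czz h.cg (h.bZ.mono fun x w =>
    Nat.pow_le_pow_right (zz_pos _ (h.prime x w) (h.npos x w)) (Nat.le_succ _))

/-- A bound for the entries of the nodes. -/
def FB (P : Par) (g q : ℕ) : ℕ := 9 + g + P.b + (7 ^ P.b + 6) + (P.N + q) + 7 + P.p

theorem Bdd.lt {P : Par} {g q : ℕ} {v : N7} (h : Bdd P g (P.N + q) v) :
    Lt v (FB P g q + 1) := by
  obtain ⟨h1, h2, h3, -, -, h6, h7, h8, h9⟩ := h
  have h0 : ∀ a, a ≤ 9 ∨ a ≤ g ∨ a ≤ P.b ∨ a ≤ 7 ^ P.b + 6 ∨ a ≤ P.N + q ∨ a ≤ 7 ∨ a ≤ P.p →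
      a < FB P g q + 1 := by
    intro a ha
    unfold FB
    generalize 7 ^ P.b + 6 = z at *
    omega
  exact lt_prod.2 ⟨lt_nat.2 (h0 _ (by tauto)), lt_prod.2 ⟨lt_nat.2 (h0 _ (by tauto)), lt_prod.2
    ⟨lt_nat.2 (h0 _ (by tauto)), lt_prod.2 ⟨lt_nat.2 (h0 _ (by tauto)), lt_prod.2
    ⟨lt_nat.2 (h0 _ (by tauto)), lt_prod.2 ⟨lt_nat.2 (h0 _ (by tauto)),
    lt_nat.2 (h0 _ (by tauto))⟩⟩⟩⟩⟩⟩

theorem Good.bFB (h : Good K P O base g) {q : List α → σ → ℕ} (hq : Comp K q) :
    Bd K fun x w => FB (P x w) (g x w) (q x w) := by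
  have h1 := (((((h.b7.add (Bd.const 6)).add (h.cN.bd.add hq.bd)).add (Bd.const 7)).add
    h.cp.bd).add (((Bd.const 9).add h.cg.bd).add h.cb.bd))
  refine h1.mono fun x w => ?_
  unfold FB
  omega

theorem comp_dsN (h : Good K P O base g) {v : List α → σ → N7} {q a : List α → σ → ℕ}
    (hv : Comp K v) (ha : Comp K a) (hq : Comp K q)
    (hvb : ∀ x w, Bdd (P x w) (g x w) ((P x w).N + q x w) (v x w)) :
    Comp K fun x w => dsN (P x w) (v x w) (a x w) (P x w).U := by
  have h' := h.comp (Comp.id.fst : Comp K fun x (t : σ × ℕ × N7) => t.1)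
  have ha' : Comp K fun x (t : σ × ℕ × N7) => a x t.1 := ha.comp Comp.id.fst
  have hu : Comp K fun x (t : σ × ℕ × N7) => (P x t.1).U - 1 - t.2.1 :=
    Comp.sub (Comp.pred h'.cU) Comp.id.snd.fst
  have hdig : Comp K fun x (t : σ × ℕ × N7) => a x t.1 /
      (P x t.1).r1 ^ ((P x t.1).U - 1 - t.2.1) / (P x t.1).r2 % (P x t.1).r1 :=
    Comp.mod (Comp.div (Comp.divPow ha' h'.cr1 hu) h'.cr2) h'.cr1
  refine Comp.itr_le (h := fun x w u v => ch1 (P x w).p (P x w).b v
    (a x w / (P x w).r1 ^ ((P x w).U - 1 - u) / (P x w).r2 % (P x w).r1))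
    (F := fun x w => FB (P x w) (g x w) (q x w))
    (comp_ch1 h'.cp h'.cb Comp.id.snd.snd hdig) hv h.cU (h.bFB hq) fun x w i _ => ?_
  exact (dsN_bdd (h.prime x w).two_le (a x w) i (hvb x w)).lt

theorem comp_dzN (h : Good K P O base g) {v : List α → σ → N7} {q a : List α → σ → ℕ}
    (hv : Comp K v) (ha : Comp K a) (hq : Comp K q)
    (hvb : ∀ x w, Bdd (P x w) (g x w) ((P x w).N + q x w) (v x w)) :
    Comp K fun x w => dzN (P x w) (v x w) (a x w) :=
  comp_ch2 h.cp h.cb (comp_dsN h hv ha hq hvb) (Comp.mod ha h.cr2)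

/-- The bounds as a decidable property. -/
noncomputable def cut (P : Par) (g Q : ℕ) (v : N7) : N7 :=
  open Classical in if Bdd P g Q v then v else idN

theorem cut_bdd (P : Par) (g Q : ℕ) (v : N7) : Bdd P g Q (cut P g Q v) := by
  unfold cut
  split_ifs with h
  · exact h
  · exact idN_bdd P g Q

theorem cut_eq {P : Par} {g Q : ℕ} {v : N7} (h : Bdd P g Q v) : cut P g Q v = v := by
  unfold cut
  rw [if_pos h]

theorem CompP.bdd (h : Good K P O base g) {v : List α → σ → N7} {Q : List α → σ → ℕ}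
    (hv : Comp K v) (hQ : Comp K Q) :
    CompP K fun x w => Bdd (P x w) (g x w) (Q x w) (v x w) := by
  have v2 := hv.snd
  have v3 := v2.snd
  have v4 := v3.snd
  have v5 := v4.snd
  have v6 := v5.snd
  have h7b : Comp K fun x w => 7 ^ (P x w).b := Comp.pow (Comp.const 7) h.cb h.b7
  have h1 : CompP K fun x w => ((v x w).2.2.2.1 + 1) * 7 ^ (v x w).2.2.1 ≤ 7 ^ (P x w).b := by
    refine (CompP.le (Comp.mul (Comp.succ v4.fst) (Comp.minPow (Comp.succ h7b) (Comp.const 7)
      v3.fst)) h7b).congr fun x w => ?_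
    rcases le_total (7 ^ (P x w).b + 1) (7 ^ (v x w).2.2.1) with h2 | h2
    · rw [min_eq_left h2]
      constructor
      · intro h3
        exfalso
        have : 1 * (7 ^ (P x w).b + 1) ≤ ((v x w).2.2.2.1 + 1) * (7 ^ (P x w).b + 1) :=
          Nat.mul_le_mul_right _ (by omega)
        omega
      · intro h3
        exfalso
        have : 1 * (7 ^ (v x w).2.2.1) ≤ ((v x w).2.2.2.1 + 1) * (7 ^ (v x w).2.2.1) :=
          Nat.mul_le_mul_right _ (by omega)
        omega
    · rw [min_eq_right h2]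
  exact (CompP.le hv.fst (Comp.const 9)).and ((CompP.le v2.fst h.cg).and
    ((CompP.le v3.fst h.cb).and ((CompP.imp (CompP.or (CompP.eq hv.fst (Comp.const 7))
      (CompP.eq hv.fst (Comp.const 8))) h1).and ((CompP.imp (CompP.eq hv.fst (Comp.const 8))
      (CompP.lt v3.fst h.cb)).and ((CompP.le v4.fst (Comp.add h7b (Comp.const 6))).and
      ((CompP.le v5.fst hQ).and ((CompP.le v6.fst (Comp.const 7)).and
        (CompP.le v6.snd h.cp))))))))

theorem comp_cut (h : Good K P O base g) {v : List α → σ → N7} {Q : List α → σ → ℕ}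
    (hv : Comp K v) (hQ : Comp K Q) :
    Comp K fun x w => cut (P x w) (g x w) (Q x w) (v x w) := by
  classical
  refine (Comp.ite (CompP.bdd h hv hQ) hv (Comp.const idN)).of_eq fun x w => ?_
  unfold cut
  split_ifs <;> rfl

theorem comp_deN (h : Good K P O base g) {q a : List α → σ → ℕ}
    (ha : Comp K a) (hq : Comp K q) :
    Comp K fun x w => deN (P x w) (g x w) (stN (P x w).b (g x w) (q x w)) (a x w) (g x w) := by
  have h' := h.comp (Comp.id.fst : Comp K fun x (t : σ × ℕ × N7) => t.1)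
  have hz := h'.czz
  have hg := h'.cg
  have hQ : Comp K fun x (t : σ × ℕ × N7) => (P x t.1).N + q x t.1 :=
    Comp.add h'.cN (hq.comp Comp.id.fst)
  have hst : Comp K fun x w => stN (P x w).b (g x w) (q x w) :=
    Comp.pair (Comp.const 7) (Comp.pair (Comp.sub h.cg (Comp.const 1)) (Comp.pair h.cb
      (Comp.pair (Comp.const 0) (Comp.pair hq (Comp.pair (Comp.const 0) (Comp.const 1))))))
  have ha' : Comp K fun x (t : σ × ℕ × N7) => a x t.1 := ha.comp Comp.id.fst
  have hu : Comp K fun x (t : σ × ℕ × N7) => g x t.1 - 1 - t.2.1 :=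
    Comp.sub (Comp.pred hg) Comp.id.snd.fst
  have hdig : Comp K fun x (t : σ × ℕ × N7) => a x t.1 /
      (P x t.1).zz ^ (g x t.1 - 1 - t.2.1) % (P x t.1).zz :=
    Comp.mod (Comp.divPow ha' hz hu) hz
  have hbdd : ∀ x w i, Bdd (P x w) (g x w) ((P x w).N + q x w)
      (deN (P x w) (g x w) (stN (P x w).b (g x w) (q x w)) (a x w) i) := fun x w i =>
    deN_bdd (h.prime x w).two_le (h.npos x w) (Nat.le_add_right _ _) _ _
      (stN_bdd (h.prime x w).two_le (Nat.le_add_left _ _))
  have key : ∀ x w i, itr (fun u v => dzN (P x w) (cut (P x w) (g x w) ((P x w).N + q x w) v)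
      (a x w / (P x w).zz ^ (g x w - 1 - u) % (P x w).zz))
        (stN (P x w).b (g x w) (q x w)) i =
      deN (P x w) (g x w) (stN (P x w).b (g x w) (q x w)) (a x w) i := by
    intro x w i
    induction i with
    | zero => rfl
    | succ i ih =>
      rw [itr, ih, cut_eq (hbdd x w i)]
      rfl
  refine (Comp.itr_le (h := fun x w u v => dzN (P x w)
    (cut (P x w) (g x w) ((P x w).N + q x w) v)
    (a x w / (P x w).zz ^ (g x w - 1 - u) % (P x w).zz))
    (F := fun x w => FB (P x w) (g x w) (q x w))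
    (comp_dzN h' (comp_cut h' Comp.id.snd.snd hQ) hdig (hq.comp Comp.id.fst)
      fun x w => cut_bdd _ _ _ _) hst h.cg (h.bFB hq) fun x w i _ => ?_).of_eq
    fun x w => key x w _
  rw [key]
  exact (hbdd x w i).lt

/-! ### Elementary steps -/

theorem comp_indN (h : Good K P O base g) {c k X : List α → σ → ℕ} (hc : Comp K c)
    (hk : Comp K k) (hX : Comp K X) :
    Comp K fun x w => indN (P x w) (c x w) (k x w) (X x w) := by
  have h' := h.comp (Comp.id.fst : Comp K fun x (t : σ × ℕ) => t.1)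
  refine Comp.prodMod (f := fun x w i => lgN (P x w).p (P x w).n
    (c x w / (P x w).n ^ i % (P x w).n) (dg (P x w).p (X x w) (k x w * (P x w).E + i)))
    (T := fun x w => (P x w).E) (m := fun x w => (P x w).p - 1) ?_ h.cE (Comp.pred h.cp)
  exact comp_lgN h'.cp h'.cn (Comp.digit (hc.comp Comp.id.fst) h'.cn Comp.id.snd)
    (comp_dg h'.cp (hX.comp Comp.id.fst) (Comp.add (Comp.mul (hk.comp Comp.id.fst) h'.cE)
      Comp.id.snd))

theorem comp_opdN (h : Good K P O base g) {k j X i : List α → σ → ℕ} (hk : Comp K k)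
    (hj : Comp K j) (hX : Comp K X) (hi : Comp K i) :
    Comp K fun x w => opdN (P x w) (k x w) (j x w) (X x w) (i x w) := by
  have hd : Comp K fun x w => i x w / (P x w).E := Comp.div hi h.cE
  have hm : Comp K fun x w => i x w % (P x w).E := Comp.mod hi h.cE
  exact Comp.ite (CompP.and (CompP.lt hi (Comp.mul (Comp.const 7) h.cE))
    (CompP.or (CompP.lt hd hk) (CompP.eq hd (Comp.const 6))))
    (comp_dg h.cp hX (Comp.add (Comp.mul (comp_sA hj hd) h.cE) hm)) (Comp.const 0)

theorem comp_locN (h : Good K P O base g) {L k j X u : List α → σ → ℕ} (hL : Comp K L)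
    (hk : Comp K k) (hj : Comp K j) (hX : Comp K X) (hu : Comp K u) :
    Comp K fun x w => locN (P x w) (O x w) (L x w) (k x w) (j x w) (X x w) (u x w) := by
  have h' := h.comp (Comp.id.fst : Comp K fun x (t : σ × ℕ) => t.1)
  refine comp_gextN (f := fun x w e => phi (O x w) (L x w) (k x w) (yn (P x w).N e 6)
    (fun m => if m = 6 then 0 else yn (P x w).N e m) / (P x w).n ^ u x w % (P x w).n)
    (r := fun x w => opdN (P x w) (k x w) (j x w) (X x w)) h.cp h.cn
    (Comp.mul (Comp.const 7) h.cE) ?_ ?_ (h.bN 7 (by norm_num))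
  · refine Comp.digit ?_ h'.cn (hu.comp Comp.id.fst)
    exact h.cphi.comp (Comp.pair Comp.id.fst (Comp.pair (hL.comp Comp.id.fst)
      (Comp.pair (hk.comp Comp.id.fst) Comp.id.snd)))
  · exact comp_opdN h' (hk.comp Comp.id.fst) (hj.comp Comp.id.fst) (hX.comp Comp.id.fst)
      Comp.id.snd

/-- Replacing digits. -/
theorem comp_upd (h : Good K P O base g) {f : List α → σ → ℕ → ℕ}
    (hf : Comp K fun x (t : σ × ℕ) => f x t.1 t.2) :
    Comp K fun x w => pack (P x w).p (fun l => f x w l) ((7 + 1) * (P x w).E) :=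
  comp_pack (d := f) hf (Comp.mul (Comp.const (7 + 1)) h.cE) h.cp h.bR

theorem comp_stepN (h : Good K P O base g) {v : List α → σ → N7} {X : List α → σ → ℕ}
    (hv : Comp K v) (hX : Comp K X) :
    Comp K fun x w => stepN (P x w) (O x w) (base x w) (v x w) (X x w) := by
  have h' := h.comp (Comp.id.fst : Comp K fun x (t : σ × ℕ) => t.1)
  have hv' : Comp K fun x (t : σ × ℕ) => v x t.1 := hv.comp Comp.id.fst
  have hX' : Comp K fun x (t : σ × ℕ) => X x t.1 := hX.comp Comp.id.fst
  have hl : Comp K fun (_ : List α) (t : σ × ℕ) => t.2 := Comp.id.snd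
  have v2 := hv'.snd
  have v3 := v2.snd
  have v4 := v3.snd
  have v5 := v4.snd
  have v6 := v5.snd
  have hu : Comp K fun x (t : σ × ℕ) => t.2 % (P x t.1).E := Comp.mod hl h'.cE
  have hb : Comp K fun x (t : σ × ℕ) => t.2 / (P x t.1).E := Comp.div hl h'.cE
  have hd := comp_dg h'.cp hX' hl
  have hp' := h'.cp
  have hif : ∀ {f : List α → σ → ℕ → ℕ}, (Comp K fun x (t : σ × ℕ) => f x t.1 t.2) →
      Comp K fun x w => pack (P x w).p (fun l => if l / (P x w).E = (v x w).2.2.2.2.2.1 then
        f x w l else dg (P x w).p (X x w) l) ((7 + 1) * (P x w).E) := fun {f} hf =>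
    comp_upd h (f := fun x w l => if l / (P x w).E = (v x w).2.2.2.2.2.1 then
        f x w l else dg (P x w).p (X x w) l) (Comp.ite (CompP.eq hb v6.fst) hf hd)
  refine Comp.ite (CompP.eq hv.fst (Comp.const 1)) ?_ (Comp.ite (CompP.eq hv.fst (Comp.const 2))
    ?_ (Comp.ite (CompP.eq hv.fst (Comp.const 3)) ?_ (Comp.ite (CompP.eq hv.fst (Comp.const 4))
    ?_ (Comp.ite (CompP.eq hv.fst (Comp.const 5)) ?_ (Comp.ite (CompP.eq hv.fst (Comp.const 6))
    ?_ hX)))))
  · exact comp_upd h (f := fun x w l => if l / (P x w).E = (v x w).2.2.2.2.2.1 then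
      dg (P x w).p (X x w) l else (v x w).2.2.2.2.2.2 * dg (P x w).p (X x w) l % (P x w).p)
      (Comp.ite (CompP.eq hb v6.fst) hd (Comp.mod (Comp.mul v6.snd hd) hp'))
  · exact hif (f := fun x w l => (v x w).2.2.2.2.2.2 * dg (P x w).p (X x w) l % (P x w).p)
      (Comp.mod (Comp.mul v6.snd hd) hp')
  · have hi := comp_indN h' v5.fst (comp_sA v6.fst (Comp.const 0)) hX'
    have hd2 := comp_dg hp' hX' (Comp.add (Comp.mul (comp_sA v6.fst (Comp.const 1)) h'.cE) hu)
    exact hif (f := fun x w l => (dg (P x w).p (X x w) l + (v x w).2.2.2.2.2.2 *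
      indN (P x w) (v x w).2.2.2.2.1 (sA (v x w).2.2.2.2.2.1 0) (X x w) % (P x w).p *
        dg (P x w).p (X x w) (sA (v x w).2.2.2.2.2.1 1 * (P x w).E + l % (P x w).E)) % (P x w).p)
      (Comp.mod (Comp.add hd (Comp.mul (Comp.mod (Comp.mul v6.snd hi) hp') hd2)) hp')
  · have ho := comp_locN h' (Comp.add (Comp.mul h'.cb v2.fst) v3.fst) v4.fst v6.fst hX' hu
    exact hif (f := fun x w l => (dg (P x w).p (X x w) l + (v x w).2.2.2.2.2.2 *
        locN (P x w) (O x w) ((P x w).b * (v x w).2.1 + (v x w).2.2.1) (v x w).2.2.2.1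
          (v x w).2.2.2.2.2.1 (X x w) (l % (P x w).E)) % (P x w).p)
      (Comp.mod (Comp.add hd (Comp.mul v6.snd ho)) hp')
  · exact hif (f := fun x w l => (dg (P x w).p (X x w) l + (v x w).2.2.2.2.2.2 *
        ((v x w).2.2.2.2.1 / (P x w).n ^ (l % (P x w).E) % (P x w).n)) % (P x w).p)
      (Comp.mod (Comp.add hd (Comp.mul v6.snd (Comp.digit v5.fst h'.cn hu))) hp')
  · have hbs : Comp K fun x (t : σ × ℕ) => base x t.1 (v x t.1).2.2.2.2.1 :=
      h.cbase.comp (Comp.pair Comp.id.fst v5.fst)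
    exact hif (f := fun x w l => (dg (P x w).p (X x w) l + (v x w).2.2.2.2.2.2 *
        (base x w (v x w).2.2.2.2.1 / (P x w).n ^ (l % (P x w).E) % (P x w).n)) % (P x w).p)
      (Comp.mod (Comp.add hd (Comp.mul v6.snd (Comp.digit hbs h'.cn hu))) hp')

theorem comp_runX (h : Good K P O base g) {q : List α → σ → ℕ} (hq : Comp K q) :
    Comp K fun x w => runX (P x w) (O x w) (base x w) (g x w) (q x w)
      ((P x w).zz ^ g x w) := by
  have h' := h.comp (Comp.id.fst : Comp K fun x (t : σ × ℕ × ℕ) => t.1)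
  have hd := comp_deN h' (q := fun x (t : σ × ℕ × ℕ) => q x t.1)
    (a := fun x (t : σ × ℕ × ℕ) => t.2.1) Comp.id.snd.fst (hq.comp Comp.id.fst)
  exact Comp.itr_nat (h := fun x w pos X => stepN (P x w) (O x w) (base x w)
    (deN (P x w) (g x w) (stN (P x w).b (g x w) (q x w)) pos (g x w)) X)
    (F := fun x w => (P x w).p ^ ((7 + 1) * (P x w).E))
    (comp_stepN h' hd Comp.id.snd.snd) (Comp.const 0) h.czzg h.bR
    fun x w i _ => (runX_lt (h.pos x w) _ _ _).le

/-- The answer of the recursion is computable in small space. -/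
theorem comp_valR (h : Good K P O base g) {q : List α → σ → ℕ} (hq : Comp K q) :
    Comp K fun x w => valR (P x w) (O x w) (base x w) (g x w) (q x w) := by
  have h' := h.comp (Comp.id.fst : Comp K fun x (t : σ × ℕ) => t.1)
  have hX := (comp_runX h hq).comp (Comp.id.fst : Comp K fun x (t : σ × ℕ) => t.1)
  exact comp_pack (p := fun x w => (P x w).n) (n := fun x w => (P x w).E)
    (d := fun x w u => dg (P x w).p (runX (P x w) (O x w) (base x w) (g x w) (q x w)
      ((P x w).zz ^ g x w)) u % (P x w).n)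
    (Comp.mod (comp_dg h'.cp hX Comp.id.snd) h'.cn) h.cE h.cn
    ((h.bN 1 (by norm_num)).mono fun x w => by rw [Nat.one_mul])

end

end TV

end Pool.Agent.MP_6216ea_lc
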