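import Pool.Agent.Lib.MP_6216ea_lc.TVAlg
import Pool.Agent.Lib.MP_6216ea_lc.DUFinal

/-! The algorithm with eight registers for pushdown programs. -/

set_option autoImplicit false

namespace Pool.Agent.MP_6216ea_lc

namespace TV

open SP
open DU (Pm NP PC NC One oneN baseN absN Cod qcd mkq fB fC fineA)

/-- The parameters of the algorithm. -/
def toPar (P : Pm) (n E : ℕ) : Par := ⟨P.p, n, E, P.b⟩

/-- The value of the recursion for the start configuration. -/
def valA (P : Pm) (n E : ℕ) (N : NP) (lt : ℕ → ℕ) (T₀ : ℕ) : ℕ :=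
  valR (toPar P n E) (oneN P) (baseN P N lt) P.g (mkq P N.start N.start 0 T₀ 0)

/-- The answer. -/
def ansA (P : Pm) (n E : ℕ) (N : NP) (lt : ℕ → ℕ) (T₀ : ℕ) : ℕ :=
  if fB (valA P n E N lt T₀) = 0 ∧ N.acc (fC P (valA P n E N lt T₀)) = 1 then 1 else 0

/-- The answer of the recursion. -/
theorem ansA_spec {ι α : Type} {PP : PushProg ι α} {P : Pm} {n E : ℕ} {N : NP} {x : ι → α}
    {lt : ℕ → ℕ} {cd : PP.S → ℕ} (h : Cod PP P.NS N x lt cd)
    (hD : 2 * (P.NS * (P.T + 1)) ^ 2 ≤ 2 ^ P.D) (hE : n ^ E = 2 ^ P.D) (hpr : P.p.Prime)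
    (hn : 0 < n) (hnp : n ≤ P.p) (hdeg : 7 * E * (n - 1) < P.p - 1) (hg : 1 ≤ P.g)
    (hT : P.T = 2 ^ (P.b * P.g)) (T₀ : ℕ) (hT₀ : T₀ ≤ P.T) :
    ansA P n E (absN N) lt T₀ ≤ 1 ∧ (ansA P n E (absN N) lt T₀ = 1 ↔ PP.AcceptsIn x T₀) := by
  have ha := h.absorb
  have hq : mkq P (absN N).start (absN N).start 0 T₀ 0 =
      qcd P cd (QA.ask PP.start 0 PP.start T₀) := by
    have h1 : (absN N).start = cd PP.start := h.start
    unfold qcd mkq QA.ask QA.clip
    rw [h1]
    simp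
  have hNS : 1 ≤ P.NS := lt_of_le_of_lt (Nat.zero_le _) (h.lt_NS PP.start)
  have hN : (toPar P n E).N = 2 ^ P.D := hE
  have hst : (absN N).start < P.NS := by
    have h1 : (absN N).start = cd PP.start := h.start
    rw [h1]
    exact h.lt_NS _
  have hval : valA P n E (absN N) lt T₀ =
      qcd P cd (PP.absorb.lev P.T x (P.b * P.g) (QA.ask PP.start 0 PP.start T₀)) := by
    unfold valA
    rw [valR_eq (toPar P n E) hpr (oneN P) (baseN P (absN N) lt) hn hnp hdeg
      (fun q => by rw [hN]; exact DU.baseN_lt hNS hD _ _ _)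
      (fun L q m a => by rw [hN]; exact DU.oh_lt hNS hD L q m a)
      (fun L q a => by rw [hN]; exact DU.oe_lt hNS hD L q a) _ _ hg
      (by rw [hN]; exact DU.mkq_lt hNS hD _ _ _ _ _ hst hst (by omega)), hq]
    exact DU.fineA_eq (PP := PP.absorb) ha hD (P.b * P.g) (by rw [hT]; omega) _
  have hacc := PP.accepts_lev x (P.b * P.g) T₀ (T := P.T) hT.ge (by rw [← hT]; exact hT₀)
  have hf := DU.fields (PP := PP.absorb) (P := P) ha.lt_NS
    (PP.absorb.lev P.T x (P.b * P.g) (QA.ask PP.start 0 PP.start T₀))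
  unfold ansA
  rw [hval]
  constructor
  · split_ifs <;> omega
  · rw [hacc]
    obtain ⟨hc, -, -, -, hB⟩ := hf
    have hlt : fB (qcd P cd (PP.absorb.lev P.T x (P.b * P.g)
        (QA.ask PP.start 0 PP.start T₀))) < 2 := Nat.mod_lt _ (by norm_num)
    have h2 : PP.absorb.start = PP.start := rfl
    rw [h2]
    generalize PP.absorb.lev P.T x (P.b * P.g) (QA.ask PP.start 0 PP.start T₀) = a at *
    have hB' : fB (qcd P cd a) = 0 ↔ a.b = false := by
      rw [← Bool.not_eq_true, ← hB]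
      change fB (qcd P cd a) < 2 at hlt
      change fB (qcd P cd a) = 0 ↔ ¬ fB (qcd P cd a) = 1
      omega
    have hA : (absN N).acc (fC P (qcd P cd a)) = 1 ↔ PP.absorb.acc a.c = true := by
      have h3 : fC P (qcd P cd a) = cd a.c := hc
      rw [h3]
      exact ha.acc a.c
    split_ifs with h4
    · exact iff_of_true rfl ⟨hB'.1 h4.1, hA.1 h4.2⟩
    · refine iff_of_false (by norm_num) fun h5 => h4 ⟨hB'.2 h5.1, hA.2 h5.2⟩

variable {α : Type} {K : List α → ℕ} {σ τ : Type} [Tup σ] [Tup τ]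

/-- Computable numeric programs in a context. -/
structure NS' (K : List α → ℕ) (N : List α → σ → NP) : Prop where
  nc : NC K N
  acc : Comp K fun x (v : σ × ℕ) => (N x v.1).acc v.2
  start : Comp K fun x w => (N x w).start

theorem NS'.absN {N : List α → σ → NP} (hN : NS' K N) : NS' K fun x w => absN (N x w) where
  nc := {
    kind := Comp.ite (CompP.eq hN.acc (Comp.const 1)) (Comp.const 0) hN.nc.kind
    pos := hN.nc.pos
    sym := hN.nc.sym
    nx := Comp.ite (CompP.eq (hN.acc.comp (Comp.pair Comp.id.fst Comp.id.snd.fst)) (Comp.const 1))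
      Comp.id.snd.fst hN.nc.nx }
  acc := hN.acc
  start := hN.start

/-- Computable parameters with the necessary bounds. -/
structure PR (K : List α → ℕ) (P : List α → σ → Pm) (n E : List α → σ → ℕ) : Prop where
  pc : PC K P
  cp : Comp K fun x w => (P x w).p
  cg : Comp K fun x w => (P x w).g
  cn : Comp K n
  cE : Comp K E
  prime : ∀ x w, (P x w).p.Prime
  np : ∀ x w, n x w ≤ (P x w).p
  npos : ∀ x w, 0 < n x w
  bR : Bd K fun x w => (P x w).p ^ ((7 + 1) * E x w)
  bZ : Bd K fun x w => (toPar (P x w) (n x w) (E x w)).zz ^ ((P x w).g + 1)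

theorem comp_yn {N e k : List α → σ → ℕ} (hN : Comp K N) (he : Comp K e) (hk : Comp K k) :
    Comp K fun x w => yn (N x w) (e x w) (k x w) := Comp.digit he hN hk

theorem good_R {P : List α → σ → Pm} {n E : List α → σ → ℕ} (hP : PR K P n E)
    {N : List α → σ → NP} (hN : NS' K N) {lt : List α → σ → ℕ → ℕ}
    (hlt : Comp K fun x (v : σ × ℕ) => lt x v.1 v.2) :
    Good K (fun x w => toPar (P x w) (n x w) (E x w)) (fun x w => oneN (P x w))
      (fun x w => baseN (P x w) (N x w) (lt x w)) (fun x w => (P x w).g) where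
  cp := hP.cp
  cn := hP.cn
  cE := hP.cE
  cb := hP.pc.b
  cg := hP.cg
  cphi := by
    have hNN : Comp K fun x w => n x w ^ E x w := Comp.pow hP.cn hP.cE (hP.bR.mono fun x w =>
      (Nat.pow_le_pow_left (hP.np x w) _).trans (Nat.pow_le_pow_right (hP.prime x w).pos
        (Nat.le_mul_of_pos_left _ (by norm_num))))
    have hpc := hP.pc.comp (Comp.id.fst : Comp K fun x (v : σ × ℕ × ℕ × ℕ) => v.1)
    have hN1 : Comp K fun x (v : σ × ℕ × ℕ × ℕ) => n x v.1 ^ E x v.1 := hNN.comp Comp.id.fst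
    have hN2 : Comp K fun x (v : (σ × ℕ × ℕ × ℕ) × ℕ) => n x v.1.1 ^ E x v.1.1 :=
      hNN.comp Comp.id.fst.fst
    have hq : Comp K fun x (v : σ × ℕ × ℕ × ℕ) => yn (n x v.1 ^ E x v.1) v.2.2.2 6 :=
      comp_yn hN1 Comp.id.snd.snd.snd (Comp.const 6)
    have ha : Comp K fun x (v : (σ × ℕ × ℕ × ℕ) × ℕ) =>
        if v.2 = 6 then 0 else yn (n x v.1.1 ^ E x v.1.1) v.1.2.2.2 v.2 :=
      Comp.ite (CompP.eq Comp.id.snd (Comp.const 6)) (Comp.const 0)
        (comp_yn hN2 Comp.id.fst.snd.snd.snd Comp.id.snd)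
    exact Comp.ite (CompP.eq Comp.id.snd.snd.fst (Comp.const 6))
      (DU.comp_oe hpc Comp.id.snd.fst hq
        (a := fun x v m => if m = 6 then 0 else yn (n x v.1 ^ E x v.1) v.2.2.2 m) ha)
      (DU.comp_oh hpc Comp.id.snd.fst hq Comp.id.snd.snd.fst
        (a := fun x v m => if m = 6 then 0 else yn (n x v.1 ^ E x v.1) v.2.2.2 m) ha)
  cbase := DU.comp_baseN (hP.pc.comp Comp.id.fst) (N := fun x (v : σ × ℕ) => N x v.1)
    ⟨hN.nc.kind.comp (Comp.pair Comp.id.fst.fst Comp.id.snd),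
      hN.nc.pos.comp (Comp.pair Comp.id.fst.fst Comp.id.snd),
      hN.nc.sym.comp (Comp.pair Comp.id.fst.fst Comp.id.snd),
      hN.nc.nx.comp (Comp.pair Comp.id.fst.fst Comp.id.snd)⟩
    (lt := fun x (v : σ × ℕ) => lt x v.1) (hlt.comp (Comp.pair Comp.id.fst.fst Comp.id.snd))
    Comp.id.snd
  prime := hP.prime
  np := hP.np
  npos := hP.npos
  bR := hP.bR
  bZ := hP.bZ

/-- The answer is computable. -/
theorem comp_ansA {P : List α → σ → Pm} {n E : List α → σ → ℕ} (hP : PR K P n E)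
    {N : List α → σ → NP} (hN : NS' K N) {lt : List α → σ → ℕ → ℕ}
    (hlt : Comp K fun x (v : σ × ℕ) => lt x v.1 v.2) {T₀ : List α → σ → ℕ} (hT : Comp K T₀) :
    Comp K fun x w => ansA (P x w) (n x w) (E x w) (N x w) (lt x w) (T₀ x w) := by
  have hv : Comp K fun x w => valA (P x w) (n x w) (E x w) (N x w) (lt x w) (T₀ x w) :=
    comp_valR (good_R hP hN hlt)
      (DU.comp_mkq hP.pc hN.start hN.start (Comp.const 0) hT (Comp.const 0))
  have hacc : Comp K fun x w => (N x w).acc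
      (fC (P x w) (valA (P x w) (n x w) (E x w) (N x w) (lt x w) (T₀ x w))) :=
    hN.acc.comp (Comp.pair Comp.id (DU.comp_fC hP.pc hv))
  exact Comp.ite (CompP.and (CompP.eq (DU.comp_fB hv) (Comp.const 0))
    (CompP.eq hacc (Comp.const 1))) (Comp.const 1) (Comp.const 0)

end TV

end Pool.Agent.MP_6216ea_lc
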