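import Pool.Agent.Lib.MP_6216ea_lc.DLDefs

/-! The turns of a deterministic pushdown automaton. -/

set_option autoImplicit false

namespace Pool.Agent.MP_6216ea_lc

/-- `M.TReach w k b c`: the automaton, started on the word `w`, reaches the configuration `c` by a
computation with exactly `k` turns (a turn is a step which lowers the stack, where the preceding
change of the height of the stack was a rise); `b` says that the last change of the height of the
stack was a rise. -/
inductive DetPDA.TReach {β : Type} (M : DetPDA β) (w : List β) : ℕ → Bool → M.Conf → Prop
  | start : DetPDA.TReach M w 0 false (M.start, w, [M.bottom])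
  | same {k : ℕ} {b : Bool} {c c' : M.Conf} : DetPDA.TReach M w k b c → M.step c = some c' →
      c'.2.2.length = c.2.2.length → DetPDA.TReach M w k b c'
  | up {k : ℕ} {b : Bool} {c c' : M.Conf} : DetPDA.TReach M w k b c → M.step c = some c' →
      c.2.2.length < c'.2.2.length → DetPDA.TReach M w k true c'
  | down {k : ℕ} {b : Bool} {c c' : M.Conf} : DetPDA.TReach M w k b c → M.step c = some c' →
      c'.2.2.length < c.2.2.length → DetPDA.TReach M w (if b = true then k + 1 else k) false c'

/-- The computation on the word `w` has at most `T` turns. -/
def DetPDA.TurnsLe {β : Type} (M : DetPDA β) (w : List β) (T : ℕ) : Prop :=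
  ∀ (k : ℕ) (b : Bool) (c : M.Conf), M.TReach w k b c → k ≤ T

end Pool.Agent.MP_6216ea_lc
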