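import Pool.Agent.Lib.MP_6216ea_lc.DUPos

/-! Recursive programs as one loop over the positions, for any kind of nodes. -/

set_option autoImplicit false

namespace Pool.Agent.MP_6216ea_lc

namespace TV

open DU (runN runN_zero runN_succ runN_congr runN_add runN_mul runN_first digit_shift digit_top)

section

variable {V S : Type} (c1 c2 : V → ℕ → V) (r1 r2 U : ℕ) (pr : V → S → S)

/-- `u` digits of the first kind and one of the second kind. -/
def FF (E : V → S → S) : ℕ → V → S → S
  | 0, nd => runN r2 fun m => E (c2 nd m)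
  | u + 1, nd => runN r1 fun m => FF E u (c1 nd m)

/-- The effect of a node with `g` levels below it. -/
def EE : ℕ → V → S → S
  | 0 => pr
  | g + 1 => FF c1 c2 r1 r2 (EE g) U

/-- The number of positions of one level. -/
def zz : ℕ := r1 ^ U * r2

/-- The nodes reached by digits of the first kind. -/
def ds (nd : V) (W a : ℕ) : ℕ → V
  | 0 => nd
  | u + 1 => c1 (ds nd W a u) (a / (r1 ^ (W - 1 - u) * r2) % r1)

/-- The node reached from `nd` by the digits of `a < zz`. -/
def descZ (nd : V) (a : ℕ) : V := c2 (ds c1 r1 r2 nd U a U) (a % r2)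

/-- The node reached from `nd` by the first `h` of the `g` blocks of digits of a position. -/
def desc (nd : V) (g pos : ℕ) : ℕ → V
  | 0 => nd
  | h + 1 => descZ c1 c2 r1 r2 U (desc nd g pos h) (pos / zz r1 r2 U ^ (g - 1 - h) % zz r1 r2 U)

variable {r1 r2 U}

theorem ds_shift (hr : 0 < r2) (nd : V) (W m a u : ℕ) (hm : m < r1) (ha : a < r1 ^ W * r2)
    (hu : u ≤ W) :
    ds c1 r1 r2 nd (W + 1) (m * (r1 ^ W * r2) + a) (u + 1) = ds c1 r1 r2 (c1 nd m) W a u := by
  induction u with
  | zero =>
    simp only [ds]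
    rw [show W + 1 - 1 - 0 = W by omega, digit_top _ _ _ _ _ hm ha]
  | succ u ih =>
    rw [ds, ih (by omega)]
    conv_rhs => rw [ds]
    congr 1
    rw [show W + 1 - 1 - (u + 1) = W - 1 - u by omega]
    exact digit_shift _ _ _ _ _ _ hr (by omega)

theorem FF_pos (hr : 0 < r2) (E : V → S → S) (W : ℕ) (nd : V) (s : S) :
    FF c1 c2 r1 r2 E W nd s = runN (r1 ^ W * r2)
      (fun a => E (c2 (ds c1 r1 r2 nd W a W) (a % r2))) s := by
  induction W generalizing nd s with
  | zero =>
    rw [pow_zero, Nat.one_mul]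
    refine runN_congr _ _ _ _ fun m hm s => ?_
    rw [Nat.mod_eq_of_lt hm]
    rfl
  | succ W ih =>
    rw [pow_succ', Nat.mul_assoc, runN_mul]
    refine runN_congr _ _ _ _ fun m hm s => ?_
    rw [ih]
    refine runN_congr _ _ _ _ fun a ha s => ?_
    rw [ds_shift c1 hr nd W m a W hm ha le_rfl]
    congr 2
    have : m * (r1 ^ W * r2) = r2 * (m * r1 ^ W) := by ring
    rw [this, Nat.mul_add_mod]

theorem desc_shift (nd : V) (g m a h : ℕ) (hm : m < zz r1 r2 U) (ha : a < zz r1 r2 U ^ g)
    (hh : h ≤ g) : desc c1 c2 r1 r2 U nd (g + 1) (m * zz r1 r2 U ^ g + a) (h + 1) =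
      desc c1 c2 r1 r2 U (descZ c1 c2 r1 r2 U nd m) g a h := by
  induction h with
  | zero =>
    simp only [desc]
    have h1 := digit_top (zz r1 r2 U) 1 m a g hm (by rw [Nat.mul_one]; exact ha)
    rw [Nat.mul_one] at h1
    rw [show g + 1 - 1 - 0 = g by omega, h1]
  | succ h ih =>
    rw [desc, ih (by omega)]
    conv_rhs => rw [desc]
    congr 1
    have h1 := digit_shift (zz r1 r2 U) 1 m a h g (by norm_num) (by omega)
    simp only [Nat.mul_one] at h1
    rw [show g + 1 - 1 - (h + 1) = g - 1 - h by omega]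
    exact h1

/-- The effect of `g` levels as one loop over the positions. -/
theorem EE_pos (hr : 0 < r2) (g : ℕ) (nd : V) (s : S) :
    EE c1 c2 r1 r2 U pr g nd s = runN (zz r1 r2 U ^ g)
      (fun pos => pr (desc c1 c2 r1 r2 U nd g pos g)) s := by
  induction g generalizing nd s with
  | zero => rfl
  | succ g ih =>
    change FF c1 c2 r1 r2 (EE c1 c2 r1 r2 U pr g) U nd s = _
    rw [FF_pos c1 c2 hr, show r1 ^ U * r2 = zz r1 r2 U from rfl, pow_succ', runN_mul]
    refine runN_congr _ _ _ _ fun m hm s => ?_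
    rw [ih]
    refine runN_congr _ _ _ _ fun a ha s => ?_
    rw [desc_shift c1 c2 nd g m a g hm ha le_rfl]
    rfl

end

end TV

end Pool.Agent.MP_6216ea_lc
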