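import Pool.Agent.Lib.MP_6216ea_lc.DUExt

/-! Extensions from a grid of functions of the digits of a number. -/

set_option autoImplicit false

namespace Pool.Agent.MP_6216ea_lc

namespace TV

open Polynomial

variable {p : ℕ}

/-- The polynomial which is `1` at `a` and `0` at the other points of the grid. -/
def lg (p n a : ℕ) (r : ZMod p) : ZMod p :=
  ∏ b ∈ Finset.range n, if b = a then 1 else (r - (b : ZMod p)) * ((a : ZMod p) - (b : ZMod p))⁻¹

/-- The extension of a function `f` of the first `m` digits. -/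
def gext (p n m : ℕ) (f : ℕ → ZMod p) (r : ℕ → ZMod p) : ZMod p :=
  ∑ e ∈ Finset.range (n ^ m), f e * ∏ i ∈ Finset.range m, lg p n (e / n ^ i % n) (r i)

/-- The digits of a number. -/
def gv (p n e : ℕ) : ℕ → ZMod p := fun i => ((e / n ^ i % n : ℕ) : ZMod p)

theorem cast_inj {a b : ℕ} (ha : a < p) (hb : b < p) (h : (a : ZMod p) = (b : ZMod p)) :
    a = b := by
  rw [ZMod.natCast_eq_natCast_iff] at h
  exact Nat.ModEq.eq_of_lt_of_lt h ha hb

theorem lg_self {n a : ℕ} [Fact p.Prime] (hn : n ≤ p) (ha : a < n) :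
    lg p n a (a : ZMod p) = 1 := by
  unfold lg
  apply Finset.prod_eq_one
  intro b hb
  by_cases h : b = a
  · rw [if_pos h]
  · rw [if_neg h]
    apply mul_inv_cancel₀
    intro h0
    have := cast_inj (by omega) (by have := Finset.mem_range.1 hb; omega) (sub_eq_zero.1 h0)
    exact h this.symm

theorem lg_ne {n a a' : ℕ} (ha : a' < n) (h : a' ≠ a) : lg p n a (a' : ZMod p) = 0 := by
  unfold lg
  refine Finset.prod_eq_zero (Finset.mem_range.2 ha) ?_
  rw [if_neg h, sub_self, zero_mul]

theorem digits_inj {n m e e' : ℕ} (he : e < n ^ m) (he' : e' < n ^ m)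
    (h : ∀ i < m, e / n ^ i % n = e' / n ^ i % n) : e = e' := by
  have key : ∀ k ≤ m, e % n ^ k = e' % n ^ k := by
    intro k
    induction k with
    | zero => intro _; rw [pow_zero, Nat.mod_one, Nat.mod_one]
    | succ k ih =>
      intro hk
      rw [Nat.mod_pow_succ, Nat.mod_pow_succ, ih (by omega), h k (by omega)]
  have h1 := key m le_rfl
  rwa [Nat.mod_eq_of_lt he, Nat.mod_eq_of_lt he'] at h1

theorem gext_congr (n m : ℕ) (f : ℕ → ZMod p) {r r' : ℕ → ZMod p} (h : ∀ i < m, r i = r' i) :
    gext p n m f r = gext p n m f r' := by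
  unfold gext
  refine Finset.sum_congr rfl fun e _ => ?_
  congr 1
  exact Finset.prod_congr rfl fun i hi => by rw [h i (Finset.mem_range.1 hi)]

theorem gext_gv [Fact p.Prime] {n m : ℕ} (hn : n ≤ p) (hn0 : 0 < n) (f : ℕ → ZMod p) (e₀ : ℕ)
    (h : e₀ < n ^ m) : gext p n m f (gv p n e₀) = f e₀ := by
  unfold gext
  rw [Finset.sum_eq_single e₀]
  · have : ∏ i ∈ Finset.range m, lg p n (e₀ / n ^ i % n) (gv p n e₀ i) = 1 := by
      apply Finset.prod_eq_one
      intro i _
      exact lg_self hn (Nat.mod_lt _ hn0)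
    rw [this, mul_one]
  · intro e he hne
    obtain ⟨i, him, hi⟩ : ∃ i < m, e₀ / n ^ i % n ≠ e / n ^ i % n := by
      by_contra h'
      push Not at h'
      exact hne (digits_inj (Finset.mem_range.1 he) h fun i hi => (h' i hi).symm)
    have : ∏ i ∈ Finset.range m, lg p n (e / n ^ i % n) (gv p n e₀ i) = 0 :=
      Finset.prod_eq_zero (Finset.mem_range.2 him) (lg_ne (Nat.mod_lt _ hn0) hi)
    rw [this, mul_zero]
  · intro h'
    exact absurd (Finset.mem_range.2 h) h'

/-- The restriction of a basis polynomial to a line. -/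
noncomputable def lgP (p n a : ℕ) (u v : ZMod p) : (ZMod p)[X] :=
  ∏ b ∈ Finset.range n, if b = a then 1 else
    (C u * X + C (v - (b : ZMod p))) * C (((a : ZMod p) - (b : ZMod p))⁻¹)

theorem lgP_eval (n a : ℕ) (u v t : ZMod p) : (lgP p n a u v).eval t = lg p n a (t * u + v) := by
  unfold lgP lg
  rw [Polynomial.eval_prod]
  refine Finset.prod_congr rfl fun b _ => ?_
  split_ifs
  · simp
  · simp only [Polynomial.eval_mul, Polynomial.eval_add, Polynomial.eval_C, Polynomial.eval_X]
    ring

theorem lgP_deg {n a : ℕ} (ha : a < n) (u v : ZMod p) : (lgP p n a u v).natDegree ≤ n - 1 := by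
  unfold lgP
  rw [← Finset.mul_prod_erase _ _ (Finset.mem_range.2 ha), if_pos rfl, one_mul]
  refine (Polynomial.natDegree_prod_le _ _).trans ?_
  refine (Finset.sum_le_sum (g := fun _ => 1) ?_).trans ?_
  · intro b hb
    rw [if_neg (Finset.ne_of_mem_erase hb)]
    refine (Polynomial.natDegree_mul_le).trans ?_
    have h1 : (C u * X + C (v - (b : ZMod p))).natDegree ≤ 1 := Polynomial.natDegree_linear_le
    have h2 : (C (((a : ZMod p) - (b : ZMod p))⁻¹)).natDegree = 0 := Polynomial.natDegree_C _
    omega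
  · rw [Finset.sum_const, Finset.card_erase_of_mem (Finset.mem_range.2 ha), Finset.card_range]
    simp

/-- The restriction of the extension to a line, as a polynomial. -/
noncomputable def line (p n m : ℕ) (f : ℕ → ZMod p) (u v : ℕ → ZMod p) : (ZMod p)[X] :=
  ∑ e ∈ Finset.range (n ^ m), C (f e) * ∏ i ∈ Finset.range m, lgP p n (e / n ^ i % n) (u i) (v i)

theorem line_eval (n m : ℕ) (f : ℕ → ZMod p) (u v : ℕ → ZMod p) (t : ZMod p) :
    (line p n m f u v).eval t = gext p n m f (fun i => t * u i + v i) := by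
  unfold line gext
  rw [Polynomial.eval_finsetSum]
  apply Finset.sum_congr rfl
  intro e _
  rw [Polynomial.eval_mul, Polynomial.eval_C, Polynomial.eval_prod]
  congr 1
  exact Finset.prod_congr rfl fun i _ => lgP_eval _ _ _ _ _

theorem line_deg {n : ℕ} (hn : 0 < n) (m : ℕ) (f : ℕ → ZMod p) (u v : ℕ → ZMod p) :
    (line p n m f u v).natDegree ≤ m * (n - 1) := by
  unfold line
  apply Polynomial.natDegree_sum_le_of_forall_le
  intro e _
  refine (Polynomial.natDegree_C_mul_le _ _).trans ?_
  refine (Polynomial.natDegree_prod_le _ _).trans ?_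
  refine (Finset.sum_le_sum (g := fun _ => n - 1) ?_).trans ?_
  · intro i _
    exact lgP_deg (Nat.mod_lt _ hn) _ _
  · simp

/-- Interpolation at all nonzero elements. -/
theorem sum_gext [Fact p.Prime] {n : ℕ} (hn : 0 < n) (m : ℕ) (f : ℕ → ZMod p) (u v : ℕ → ZMod p)
    (h : m * (n - 1) < p - 1) :
    ∑ t ∈ Finset.range (p - 1), gext p n m f (fun i => ((t + 1 : ℕ) : ZMod p) * u i + v i) =
      - gext p n m f v := by
  have h1 := MExt.sum_poly (line p n m f u v) (by
    rw [ZMod.card]
    exact (line_deg hn m f u v).trans_lt h)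
  rw [DU.sum_zmod (fun t => gext p n m f (fun i => t * u i + v i))]
  have h2 : ∑ t : ZMod p, gext p n m f (fun i => t * u i + v i) = 0 := by
    rw [← h1]
    exact Finset.sum_congr rfl fun t _ => (line_eval n m f u v t).symm
  rw [h2, zero_sub]
  simp

end TV

end Pool.Agent.MP_6216ea_lc
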