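import Pool.Agent.Lib.MP_6216ea_lc.TVTdef
import Pool.Agent.Lib.MP_6216ea_lc.DLHead

/-! Deterministic pushdown automata as head automata, with the same turns. -/

set_option autoImplicit false
set_option linter.unusedSimpArgs false

namespace Pool.Agent.MP_6216ea_lc

namespace TVH

open DLH (BL bl_finite letter letter_spec Reach)

variable {β : Type} (M : DetPDA β) (m : ℕ)

/-- the states of the simulating machine -/
inductive St : Type where
  | top (q : M.Q) (g : M.Γ)
  | pp (q : M.Q)
  | rt (q : M.Q) (u : BL M m)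
  | psh (q : M.Q) (u : BL M m)
  | yes
  | dead

/-- an injection into a finite type -/
def St.code : St M m → Fin 8 × Option M.Q × Option M.Γ × Option (BL M m)
  | .top q g => (1, some q, some g, none)
  | .pp q => (2, some q, none, none)
  | .rt q u => (4, some q, none, some u)
  | .psh q u => (5, some q, none, some u)
  | .yes => (6, none, none, none)
  | .dead => (7, none, none, none)

theorem St.code_inj : Function.Injective (St.code M m) := by
  intro a b h
  cases a <;> cases b <;> simp [St.code] at h ⊢ <;> assumption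

theorem st_finite : Finite (St M m) := by
  have := bl_finite M m
  exact Finite.of_injective _ (St.code_inj M m)

/-- the state which pushes the string `u` -/
def pshL (q : M.Q) (u : List M.Γ) : St M m :=
  if h : u.length ≤ m then .psh q ⟨u, h⟩ else .dead

/-- the state which moves to the right and then pushes the string `u` -/
def rtL (q : M.Q) (u : List M.Γ) : St M m :=
  if h : u.length ≤ m then .rt q ⟨u, h⟩ else .dead

/-- the result of reading a letter -/
def lkR (q : M.Q) (g : M.Γ) (o : Option β) : St M m :=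
  match o with
  | none => .dead
  | some a =>
    match M.move q g a with
    | some r => rtL M m r.1 r.2
    | none => .dead

/-- the result of a look with the top symbol -/
def topR (q : M.Q) (g : M.Γ) (o : Option β) : St M m :=
  if (o.isNone && M.acc q) = true then .yes else
    match M.eps q g with
    | some r => pshL M m r.1 r.2
    | none => lkR M m q g o

/-- the result of a look before a pop -/
def endR (q : M.Q) (o : Option β) : St M m :=
  if (o.isNone && M.acc q) = true then .yes else .pp q

/-- the result of popping -/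
def ppR (q : M.Q) (o : Option M.Γ) : St M m :=
  match o with
  | none => .dead
  | some g => .top q g

/-- the instructions -/
def ins : St M m → HInstr 1 β M.Γ (St M m)
  | .top q g => .look 0 (topR M m q g)
  | .pp q => .pop (ppR M m q)
  | .rt q u => .right 0 (.psh q u)
  | .psh q u =>
    if h : u.1 = [] then .look 0 (endR M m q)
    else if u.1.length = 1 then .look 0 (fun _ => .top q (u.1.getLast h))
    else .push (u.1.getLast h) (.psh q ⟨u.1.dropLast, by
      rw [List.length_dropLast]
      exact (Nat.sub_le _ _).trans u.2⟩)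
  | .yes => .look 0 (fun _ => .yes)
  | .dead => .look 0 (fun _ => .dead)

/-- the accepting state -/
def ac : St M m → Bool
  | .yes => true
  | _ => false

/-- the simulating machine -/
noncomputable def mach : HeadPDA β where
  k := 1
  Q := St M m
  Γ := M.Γ
  finQ := @Fintype.ofFinite _ (st_finite M m)
  finΓ := M.finΓ
  instr := ins M m
  start := .top M.start M.bottom
  acc := ac M m

/-- configurations of the simulating machine -/
abbrev Cf (n : ℕ) : Type := St M m × (Fin 1 → Fin (n + 1)) × List M.Γ

/-- a step of the simulating machine -/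
noncomputable def stp {n : ℕ} (x : Fin n → β) (c : Cf M m n) : Cf M m n :=
  (mach M m).step x c

/-- the count -/
noncomputable def ct {n : ℕ} (c : Cf M m n) (kb : ℕ × Bool) : ℕ × Bool := (mach M m).cnt c kb

theorem stp_top {n : ℕ} (x : Fin n → β) (p : Fin 1 → Fin (n + 1)) (z : List M.Γ) (q : M.Q)
    (g : M.Γ) : stp M m x (.top q g, p, z) = (topR M m q g (letter x p), p, z) := rfl

theorem stp_pp {n : ℕ} (x : Fin n → β) (p : Fin 1 → Fin (n + 1)) (z : List M.Γ) (q : M.Q) :
    stp M m x (.pp q, p, z) = (ppR M m q z.head?, p, z.tail) := rfl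

theorem stp_rt {n : ℕ} (x : Fin n → β) (p : Fin 1 → Fin (n + 1)) (z : List M.Γ) (q : M.Q)
    (u : BL M m) : stp M m x (.rt q u, p, z) =
      (.psh q u, Function.update p 0 ⟨min ((p 0).val + 1) n, by omega⟩, z) := rfl

theorem stp_psh_nil {n : ℕ} (x : Fin n → β) (p : Fin 1 → Fin (n + 1)) (z : List M.Γ)
    (q : M.Q) (u : BL M m) (hu : u.1 = []) :
    stp M m x (.psh q u, p, z) = (endR M m q (letter x p), p, z) :=
  DLH.step_look (mach M m) x (.psh q u, p, z) (0 : Fin 1) (endR M m q) (dif_pos hu)

theorem stp_psh_one {n : ℕ} (x : Fin n → β) (p : Fin 1 → Fin (n + 1)) (z : List M.Γ)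
    (q : M.Q) (u : BL M m) (hu : u.1 ≠ []) (h1 : u.1.length = 1) :
    stp M m x (.psh q u, p, z) = (.top q (u.1.getLast hu), p, z) :=
  DLH.step_look (mach M m) x (.psh q u, p, z) (0 : Fin 1) (fun _ => .top q (u.1.getLast hu))
    ((dif_neg hu).trans (if_pos h1))

theorem stp_psh_cons {n : ℕ} (x : Fin n → β) (p : Fin 1 → Fin (n + 1)) (z : List M.Γ)
    (q : M.Q) (u : BL M m) (hu : u.1 ≠ []) (h1 : u.1.length ≠ 1) :
    stp M m x (.psh q u, p, z) = (.psh q ⟨u.1.dropLast, by
      rw [List.length_dropLast]
      exact (Nat.sub_le _ _).trans u.2⟩, p, u.1.getLast hu :: z) :=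
  DLH.step_push (mach M m) x (.psh q u, p, z) (u.1.getLast hu) _
    ((dif_neg hu).trans (if_neg h1))

theorem stp_yes {n : ℕ} (x : Fin n → β) (p : Fin 1 → Fin (n + 1)) (z : List M.Γ) :
    stp M m x (.yes, p, z) = (.yes, p, z) := rfl

theorem stp_dead {n : ℕ} (x : Fin n → β) (p : Fin 1 → Fin (n + 1)) (z : List M.Γ) :
    stp M m x (.dead, p, z) = (.dead, p, z) := rfl

theorem cnt_look {α : Type} (M' : HeadPDA α) {n : ℕ} (c : M'.Conf n) (kb : ℕ × Bool)
    (h : Fin M'.k) (f : Option α → M'.Q) (hi : M'.instr c.1 = .look h f) :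
    M'.cnt c kb = kb := by
  unfold HeadPDA.cnt
  rw [hi]

theorem cnt_push {α : Type} (M' : HeadPDA α) {n : ℕ} (c : M'.Conf n) (kb : ℕ × Bool)
    (g : M'.Γ) (q : M'.Q) (hi : M'.instr c.1 = .push g q) :
    M'.cnt c kb = (kb.1, true) := by
  unfold HeadPDA.cnt
  rw [hi]

theorem ct_top {n : ℕ} (p : Fin 1 → Fin (n + 1)) (z : List M.Γ) (q : M.Q) (g : M.Γ)
    (kb : ℕ × Bool) : ct M m (.top q g, p, z) kb = kb := rfl

theorem ct_pp {n : ℕ} (p : Fin 1 → Fin (n + 1)) (z : List M.Γ) (q : M.Q)
    (kb : ℕ × Bool) : ct M m (.pp q, p, z) kb = (tn kb.2 kb.1, z.isEmpty) := rfl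

theorem ct_rt {n : ℕ} (p : Fin 1 → Fin (n + 1)) (z : List M.Γ) (q : M.Q) (u : BL M m)
    (kb : ℕ × Bool) : ct M m (.rt q u, p, z) kb = kb := rfl

theorem ct_yes {n : ℕ} (p : Fin 1 → Fin (n + 1)) (z : List M.Γ)
    (kb : ℕ × Bool) : ct M m (.yes, p, z) kb = kb := rfl

theorem ct_dead {n : ℕ} (p : Fin 1 → Fin (n + 1)) (z : List M.Γ)
    (kb : ℕ × Bool) : ct M m (.dead, p, z) kb = kb := rfl

theorem ct_psh_nil {n : ℕ} (p : Fin 1 → Fin (n + 1)) (z : List M.Γ)
    (q : M.Q) (u : BL M m) (hu : u.1 = []) (kb : ℕ × Bool) :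
    ct M m (.psh q u, p, z) kb = kb :=
  cnt_look (mach M m) (.psh q u, p, z) kb (0 : Fin 1) (endR M m q) (dif_pos hu)

theorem ct_psh_one {n : ℕ} (p : Fin 1 → Fin (n + 1)) (z : List M.Γ)
    (q : M.Q) (u : BL M m) (hu : u.1 ≠ []) (h1 : u.1.length = 1) (kb : ℕ × Bool) :
    ct M m (.psh q u, p, z) kb = kb :=
  cnt_look (mach M m) (.psh q u, p, z) kb (0 : Fin 1) (fun _ => .top q (u.1.getLast hu))
    ((dif_neg hu).trans (if_pos h1))

theorem ct_psh_cons {n : ℕ} (p : Fin 1 → Fin (n + 1)) (z : List M.Γ)
    (q : M.Q) (u : BL M m) (hu : u.1 ≠ []) (h1 : u.1.length ≠ 1) (kb : ℕ × Bool) :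
    ct M m (.psh q u, p, z) kb = (kb.1, true) :=
  cnt_push (mach M m) (.psh q u, p, z) kb (u.1.getLast hu) (.psh q ⟨u.1.dropLast, by
      rw [List.length_dropLast]
      exact (Nat.sub_le _ _).trans u.2⟩)
    ((dif_neg hu).trans (if_neg h1))

/-- The relation of the counts before the string `u` is pushed. -/
def PC (u : List M.Γ) (k : ℕ) (b : Bool) (k' : ℕ) (b' : Bool) : Prop :=
  (u = [] → b = false ∧ tn b' k' ≤ k + 1) ∧
  (u.length = 1 → (b = true → b' = true) ∧ tn b' k' ≤ tn b k + 1) ∧
  (2 ≤ u.length → b = true ∧ k' ≤ k + 1)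

/-- The invariant. -/
def Inv (w : List β) (kb : ℕ × Bool) (c : Cf M m w.length) : Prop :=
  match c with
  | (.top q g, p, z) => ∃ k b, M.TReach w k b (q, w.drop (p 0).val, g :: z) ∧
      (b = true → kb.2 = true) ∧ tn kb.2 kb.1 ≤ tn b k + 1
  | (.rt q u, p, z) => ∃ k b, M.TReach w k b (q, w.drop ((p 0).val + 1), u.1 ++ z) ∧
      (p 0).val < w.length ∧ PC M u.1 k b kb.1 kb.2
  | (.psh q u, p, z) => ∃ k b, M.TReach w k b (q, w.drop (p 0).val, u.1 ++ z) ∧
      PC M u.1 k b kb.1 kb.2
  | (.pp q, p, z) => ∃ k b, M.TReach w k b (q, w.drop (p 0).val, z) ∧ b = false ∧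
      tn kb.2 kb.1 ≤ k + 1
  | (.yes, _, _) => M.Accepts w ∧ ∃ k b c, M.TReach w k b c ∧ kb.1 ≤ k + 1
  | (.dead, _, _) => ∃ k b c, M.TReach w k b c ∧ kb.1 ≤ k + 1

theorem tn_ge (b : Bool) (k : ℕ) : k ≤ tn b k := by unfold tn; split_ifs <;> omega

/-- A step with the counts. -/
theorem treach_step {w : List β} {k : ℕ} {b : Bool} {q q' : M.Q} {g : M.Γ} {v v' : List β}
    {z : List M.Γ} {u : List M.Γ} (h : M.TReach w k b (q, v, g :: z))
    (hs : M.step (q, v, g :: z) = some (q', v', u ++ z)) {k' : ℕ} {b' : Bool}
    (h1 : b = true → b' = true) (h2 : tn b' k' ≤ tn b k + 1) :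
    ∃ k b, M.TReach w k b (q', v', u ++ z) ∧ PC M u k b k' b' := by
  rcases Nat.lt_trichotomy u.length 1 with hu | hu | hu
  · have hu0 : u = [] := List.length_eq_zero_iff.1 (by omega)
    subst hu0
    refine ⟨_, _, .down h hs (by simp), fun _ => ⟨rfl, h2⟩, fun h3 => ?_, fun h3 => ?_⟩
    · simp at h3
    · simp at h3
  · refine ⟨k, b, .same h hs (by simp [hu]; omega), fun h3 => ?_, fun _ => ⟨h1, h2⟩,
      fun h3 => ?_⟩
    · rw [h3] at hu; simp at hu
    · omega
  · refine ⟨k, true, .up h hs (by simp; omega), fun h3 => ?_, fun h3 => ?_, fun _ => ⟨rfl, ?_⟩⟩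
    · rw [h3] at hu; simp at hu
    · omega
    · cases b
      · have := tn_ge b' k'
        unfold tn at h2 this
        simp only [Bool.false_eq_true, if_false] at h2
        omega
      · rw [h1 rfl] at h2
        unfold tn at h2
        simp only [if_true] at h2
        omega

theorem inv_step (w : List β) (kb : ℕ × Bool) (c : Cf M m w.length) (h : Inv M m w kb c) :
    Inv M m w (ct M m c kb) (stp M m w.get c) := by
  obtain ⟨s, p, z⟩ := c
  obtain ⟨k', b'⟩ := kb
  cases s with
  | top q g =>
    rw [stp_top, ct_top]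
    obtain ⟨k, b, hr, h1, h2⟩ := h
    simp only at h1 h2
    have hk : k' ≤ tn b k + 1 := (tn_ge b' k').trans h2
    have hk' : (b = true → b' = true) → k' ≤ k + 1 := by
      intro h1
      cases b
      · unfold tn at hk
        simpa using hk
      · rw [h1 rfl] at h2
        unfold tn at h2
        simp only [if_true] at h2
        omega
    by_cases hacc : ((letter w.get p).isNone && M.acc q) = true
    · have h3 : topR M m q g (letter w.get p) = .yes := if_pos hacc
      rw [h3]
      rw [Bool.and_eq_true] at hacc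
      refine ⟨?_, k, b, _, hr, hk' h1⟩
      have h4 : letter w.get p = none := Option.isNone_iff_eq_none.1 hacc.1
      have h5 : w.drop (p 0).val = [] := by
        rcases letter_spec w p with ⟨-, h5, -⟩ | ⟨a, h5, -, -⟩
        · exact h5
        · rw [h4] at h5; cases h5
      rw [h5] at hr
      have hc : ∀ {k b c}, M.TReach w k b c → Reach M w c := by
        intro k b c hc
        induction hc with
        | start => exact ⟨0, rfl⟩
        | same _ h2 _ ih => exact ih.step M h2
        | up _ h2 _ ih => exact ih.step M h2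
        | down _ h2 _ ih => exact ih.step M h2
      obtain ⟨t, ht⟩ := hc hr
      exact ⟨t, q, _, ht, hacc.2⟩
    · cases he : M.eps q g with
      | some r =>
        have h3 : topR M m q g (letter w.get p) = pshL M m r.1 r.2 := by
          unfold topR
          rw [if_neg hacc, he]
        rw [h3]
        have h4 := treach_step M (u := r.2) (q' := r.1) (v' := w.drop (p 0).val) hr (by
          unfold DetPDA.step
          simp only [he]) h1 h2
        unfold pshL
        split_ifs
        · exact h4
        · exact ⟨k, b, _, hr, hk' h1⟩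
      | none =>
        have h3 : topR M m q g (letter w.get p) = lkR M m q g (letter w.get p) := by
          unfold topR
          rw [if_neg hacc, he]
        rw [h3]
        rcases letter_spec w p with ⟨h5, -, -⟩ | ⟨a, h5, h6, hp⟩
        · rw [h5]
          exact ⟨k, b, _, hr, hk' h1⟩
        · rw [h5]
          cases hm : M.move q g a with
          | none =>
            have h7 : lkR M m q g (some a) = .dead := by
              unfold lkR
              simp only [hm]
            rw [h7]
            exact ⟨k, b, _, hr, hk' h1⟩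
          | some r =>
            have h7 : lkR M m q g (some a) = rtL M m r.1 r.2 := by
              unfold lkR
              simp only [hm]
            rw [h7]
            have h4 := treach_step M (u := r.2) (q' := r.1) (v' := w.drop ((p 0).val + 1)) hr (by
              unfold DetPDA.step
              simp only [he, h6, hm, Option.map_some]) h1 h2
            unfold rtL
            split_ifs
            · obtain ⟨k₁, b₁, h8, h9⟩ := h4
              exact ⟨k₁, b₁, h8, hp, h9⟩
            · exact ⟨k, b, _, hr, hk' h1⟩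
  | pp q =>
    rw [stp_pp, ct_pp]
    obtain ⟨k, b, hr, rfl, h2⟩ := h
    simp only at h2
    cases z with
    | nil => exact ⟨k, false, _, hr, h2⟩
    | cons g z =>
      refine ⟨k, false, hr, fun h => absurd h (by decide), ?_⟩
      change tn false (tn b' k') ≤ tn false k + 1
      have e : ∀ a, tn false a = a := fun a => by simp [tn]
      rw [e, e]
      exact h2
  | rt q u =>
    rw [stp_rt, ct_rt]
    obtain ⟨k, b, hr, hp, h2⟩ := h
    have e : (Function.update p 0 ⟨min ((p 0).val + 1) w.length, by omega⟩ 0 :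
        Fin (w.length + 1)).val = (p 0).val + 1 := by
      rw [Function.update_self]
      simp only
      omega
    refine ⟨k, b, ?_, h2⟩
    rw [e]
    exact hr
  | psh q u =>
    obtain ⟨k, b, hr, h1, h2, h3⟩ := h
    simp only at h1 h2 h3
    by_cases hu : u.1 = []
    · rw [stp_psh_nil M m _ _ _ _ _ hu, ct_psh_nil M m _ _ _ _ hu]
      rw [hu, List.nil_append] at hr
      obtain ⟨rfl, h5⟩ := h1 hu
      unfold endR
      by_cases hacc : ((letter w.get p).isNone && M.acc q) = true
      · rw [if_pos hacc]
        rw [Bool.and_eq_true] at hacc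
        refine ⟨?_, k, false, _, hr, (tn_ge b' k').trans h5⟩
        have h4 : letter w.get p = none := Option.isNone_iff_eq_none.1 hacc.1
        have h5 : w.drop (p 0).val = [] := by
          rcases letter_spec w p with ⟨-, h5, -⟩ | ⟨a, h5, -, -⟩
          · exact h5
          · rw [h4] at h5; cases h5
        rw [h5] at hr
        have hc : ∀ {k b c}, M.TReach w k b c → Reach M w c := by
          intro k b c hc
          induction hc with
          | start => exact ⟨0, rfl⟩
          | same _ h2 _ ih => exact ih.step M h2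
          | up _ h2 _ ih => exact ih.step M h2
          | down _ h2 _ ih => exact ih.step M h2
        obtain ⟨t, ht⟩ := hc hr
        exact ⟨t, q, _, ht, hacc.2⟩
      · rw [if_neg hacc]
        exact ⟨k, false, hr, rfl, h5⟩
    · by_cases hu1 : u.1.length = 1
      · rw [stp_psh_one M m _ _ _ _ _ hu hu1, ct_psh_one M m _ _ _ _ hu hu1]
        obtain ⟨h4, h5⟩ := h2 hu1
        refine ⟨k, b, ?_, h4, h5⟩
        obtain ⟨g, hg⟩ := List.length_eq_one_iff.1 hu1
        have e : u.1.getLast hu = g := by simp [hg]
        rw [e]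
        rw [hg] at hr
        exact hr
      · rw [stp_psh_cons M m _ _ _ _ _ hu hu1, ct_psh_cons M m _ _ _ _ hu hu1]
        have hpos : u.1.length ≠ 0 := fun h => hu (List.length_eq_zero_iff.1 h)
        obtain ⟨rfl, h5⟩ := h3 (by omega)
        refine ⟨k, true, ?_, fun h => ?_, fun h => ⟨fun _ => rfl, ?_⟩, fun h => ⟨rfl, h5⟩⟩
        · have h6 : u.1.dropLast ++ u.1.getLast hu :: z = u.1 ++ z := by
            conv_rhs => rw [← List.dropLast_append_getLast hu]
            rw [List.append_assoc]
            rfl
          rw [h6]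
          exact hr
        · have h7 : u.1.dropLast.length = 0 := List.length_eq_zero_iff.2 h
          rw [List.length_dropLast] at h7
          omega
        · change tn true k' ≤ tn true k + 1
          unfold tn
          simp only [if_true]
          omega
  | yes =>
    rw [stp_yes, ct_yes]
    exact h
  | dead =>
    rw [stp_dead, ct_dead]
    exact h

/-- The invariant holds in every configuration of the program. -/
theorem inv_prog (w : List β) {k : ℕ} {b : Bool} {s : ((mach M m).prog w.length).S}
    {y : List ((mach M m).prog w.length).Γ}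
    (h : ((mach M m).prog w.length).TReach w.get k b s y) :
    (mach M m).PInv (Inv M m w) k b s y := by
  refine HeadPDA.treach_inv (mach M m) w.get (Inv M m w) ?_ ?_ h
  · refine ⟨0, false, .start, fun h => absurd h (by decide), ?_⟩
    change tn true 0 ≤ tn false 0 + 1
    simp [tn]
  · intro kb c hc
    exact inv_step M m w kb c hc

theorem inv_count (w : List β) {kb : ℕ × Bool} {c : Cf M m w.length} (h : Inv M m w kb c) :
    ∃ k b c', M.TReach w k b c' ∧ kb.1 ≤ k + 1 := by
  obtain ⟨s, p, z⟩ := c
  obtain ⟨k', b'⟩ := kb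
  have key : ∀ {k b}, (b = true → b' = true) → tn b' k' ≤ tn b k + 1 → k' ≤ k + 1 := by
    intro k b h1 h2
    cases b
    · have := tn_ge b' k'
      unfold tn at h2 this
      simp only [Bool.false_eq_true, if_false] at h2
      omega
    · rw [h1 rfl] at h2
      unfold tn at h2
      simp only [if_true] at h2
      omega
  have pc : ∀ {u : List M.Γ} {k b}, PC M u k b k' b' → k' ≤ k + 1 := by
    intro u k b ⟨h1, h2, h3⟩
    rcases Nat.lt_trichotomy u.length 1 with hu | hu | hu
    · exact (tn_ge b' k').trans (h1 (List.length_eq_zero_iff.1 (by omega))).2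
    · exact key (h2 hu).1 (h2 hu).2
    · exact (h3 (by omega)).2
  cases s with
  | top q g =>
    obtain ⟨k, b, hr, h1, h2⟩ := h
    exact ⟨k, b, _, hr, key h1 h2⟩
  | pp q =>
    obtain ⟨k, b, hr, rfl, h2⟩ := h
    exact ⟨k, false, _, hr, (tn_ge b' k').trans h2⟩
  | rt q u =>
    obtain ⟨k, b, hr, -, h2⟩ := h
    exact ⟨k, b, _, hr, pc h2⟩
  | psh q u =>
    obtain ⟨k, b, hr, h2⟩ := h
    exact ⟨k, b, _, hr, pc h2⟩
  | yes => exact h.2
  | dead => exact h

/-- The turns of the program. -/
theorem prog_turns (w : List β) {T : ℕ} (hT : M.TurnsLe w T) {k : ℕ} {b : Bool}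
    {s : ((mach M m).prog w.length).S} {y : List ((mach M m).prog w.length).Γ}
    (h : ((mach M m).prog w.length).TReach w.get k b s y) : k ≤ T + 1 := by
  have h1 := inv_prog M m w h
  rcases s with _ | ⟨q, p⟩ | ⟨q, p⟩ | ⟨q, p⟩
  · obtain ⟨h2, -⟩ := h1
    omega
  · obtain ⟨z, -, h2⟩ := h1
    obtain ⟨k', b', c', h3, h4⟩ := inv_count M m w (c := (q, p, z)) h2
    have := hT _ _ _ h3
    simp only at h4
    omega
  · obtain ⟨z, -, h2⟩ := h1
    obtain ⟨k', b', c', h3, h4⟩ := inv_count M m w (c := (q, p, z)) h2
    have := hT _ _ _ h3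
    simp only at h4
    omega
  · obtain ⟨-, h2⟩ := h1
    obtain ⟨k', b', c', h3, h4⟩ := inv_count M m w (c := (q, p, [])) h2
    have := hT _ _ _ h3
    simp only at h4
    omega

/-- Soundness. -/
theorem prog_sound (w : List β) {k : ℕ} {b : Bool} {s : ((mach M m).prog w.length).S}
    {y : List ((mach M m).prog w.length).Γ}
    (h : ((mach M m).prog w.length).TReach w.get k b s y)
    (ha : ((mach M m).prog w.length).acc s = true) : M.Accepts w := by
  have h1 := inv_prog M m w h
  rcases s with _ | ⟨q, p⟩ | ⟨q, p⟩ | ⟨q, p⟩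
  · exact absurd ha (by simp [HeadPDA.prog, HeadPDA.nodeAcc])
  · obtain ⟨z, -, h2⟩ := h1
    have ha : ac M m q = true := ha
    cases q with
    | yes =>
      have h2 : Inv M m w (k, b) (.yes, p, z) := h2
      exact h2.1
    | top q g => exact absurd ha (by simp [ac])
    | pp q => exact absurd ha (by simp [ac])
    | rt q u => exact absurd ha (by simp [ac])
    | psh q u => exact absurd ha (by simp [ac])
    | dead => exact absurd ha (by simp [ac])
  · exact absurd ha (by simp [HeadPDA.prog, HeadPDA.nodeAcc])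
  · exact absurd ha (by simp [HeadPDA.prog, HeadPDA.nodeAcc])

end TVH

end Pool.Agent.MP_6216ea_lc
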