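import Pool.Agent.Lib.MP_6216ea_lc.TVHead
import Pool.Agent.Lib.MP_6216ea_lc.DLTime

/-! The head automaton accepts what the pushdown automaton accepts. -/

set_option autoImplicit false
set_option linter.unusedSimpArgs false

namespace Pool.Agent.MP_6216ea_lc

namespace TVH

open DLH (BL bl_finite letter letter_spec Reach)

variable {β : Type} (M : DetPDA β) (m : ℕ)

/-- pushing a string -/
theorem push_run {n : ℕ} (x : Fin n → β) (q : M.Q) (p : Fin 1 → Fin (n + 1)) (g : M.Γ) (l : ℕ) :
    ∀ (u : BL M m) (u' z : List M.Γ), u.1 = g :: u' → u'.length = l →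
      (stp M m x)^[l + 1] (.psh q u, p, z) = (.top q g, p, u' ++ z) := by
  induction l with
  | zero =>
    intro u u' z hu hl
    have h0 : u' = [] := List.length_eq_zero_iff.1 hl
    subst h0
    have hne : u.1 ≠ [] := by rw [hu]; simp
    have h1 : u.1.length = 1 := by rw [hu]; rfl
    change stp M m x (.psh q u, p, z) = _
    rw [stp_psh_one M m _ _ _ _ _ hne h1]
    have e : u.1.getLast hne = g := by simp [hu]
    rw [e]
    rfl
  | succ l ih =>
    intro u u' z hu hl
    have hne : u.1 ≠ [] := by rw [hu]; simp
    have h1 : u.1.length ≠ 1 := by rw [hu, List.length_cons, hl]; omega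
    have hu' : u' ≠ [] := by intro h; rw [h] at hl; simp at hl
    rw [Function.iterate_succ_apply, stp_psh_cons M m _ _ _ _ _ hne h1]
    have e1 : u.1.dropLast = g :: u'.dropLast := by
      rw [hu, List.dropLast_cons_of_ne_nil hu']
    have e2 : u.1.getLast hne = u'.getLast hu' := by
      simp only [hu]
      exact List.getLast_cons hu'
    rw [ih _ u'.dropLast (u.1.getLast hne :: z) e1 (by rw [List.length_dropLast, hl]; rfl), e2]
    have h2 : u'.dropLast ++ u'.getLast hu' :: z = u' ++ z := by
      conv_rhs => rw [← List.dropLast_append_getLast hu']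
      rw [List.append_assoc]
      rfl
    rw [h2]

/-- the configuration `c` is represented -/
def Rep (w : List β) (d : Cf M m w.length) (c : M.Conf) : Prop :=
  ∃ p' : Fin 1 → Fin (w.length + 1), w.drop (p' 0).val = c.2.1 ∧
    ((∃ g z', c.2.2 = g :: z' ∧ d = (.top c.1 g, p', z')) ∨
    (c.2.2 = [] ∧ d = (.psh c.1 ⟨[], Nat.zero_le _⟩, p', [])))

/-- the result of a run: the accepting state is reached, or the configuration `c` is represented -/
def Res (w : List β) (N : ℕ) (c0 : Cf M m w.length) (c : M.Conf) : Prop :=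
  (∃ s ≤ N, ∃ p' z', (stp M m w.get)^[s] c0 = (.yes, p', z')) ∨
  ∃ s ≤ N, Rep M m w ((stp M m w.get)^[s] c0) c

/-- after a string is pushed -/
theorem psh_res (w : List β) (q : M.Q) (p : Fin 1 → Fin (w.length + 1)) (u : BL M m)
    (z : List M.Γ) : Res M m w (m + 2) (.psh q u, p, z) (q, w.drop (p 0).val, u.1 ++ z) := by
  cases hu : u.1 with
  | nil =>
    obtain ⟨u, hum⟩ := u
    simp only at hu
    subst hu
    cases z with
    | nil =>
      right
      exact ⟨0, by omega, p, rfl, Or.inr ⟨rfl, rfl⟩⟩
    | cons g z =>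
      have h1 := stp_psh_nil M m w.get p (g :: z) q ⟨[], hum⟩ rfl
      by_cases hacc : ((letter w.get p).isNone && M.acc q) = true
      · left
        refine ⟨1, by omega, p, g :: z, ?_⟩
        change stp M m w.get (.psh q ⟨[], hum⟩, p, g :: z) = _
        rw [h1]
        unfold endR
        rw [if_pos hacc]
      · right
        refine ⟨2, by omega, p, rfl, Or.inl ⟨g, z, rfl, ?_⟩⟩
        change stp M m w.get (stp M m w.get (.psh q ⟨[], hum⟩, p, g :: z)) = _
        rw [h1]
        unfold endR
        rw [if_neg hacc, stp_pp]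
        rfl
  | cons g u' =>
    right
    have h1 := push_run M m w.get q p g u'.length u u' z hu rfl
    have h2 := u.2
    rw [hu, List.length_cons] at h2
    exact ⟨u'.length + 1, by omega, p, rfl, Or.inl ⟨g, u' ++ z, rfl, h1⟩⟩

theorem res_step {w : List β} {N N' : ℕ} {c0 d : Cf M m w.length} {c : M.Conf} (a : ℕ)
    (h0 : (stp M m w.get)^[a] c0 = d) (h : Res M m w N d c) (hN : N + a ≤ N') :
    Res M m w N' c0 c := by
  rcases h with ⟨s, hs, p', z', h1⟩ | ⟨s, hs, h1⟩
  · left
    refine ⟨s + a, by omega, p', z', ?_⟩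
    rw [Function.iterate_add_apply, h0, h1]
  · right
    refine ⟨s + a, by omega, ?_⟩
    rw [Function.iterate_add_apply, h0]
    exact h1

theorem macro_step (he : ∀ q g r, M.eps q g = some r → r.2.length ≤ m)
    (hm : ∀ q g a r, M.move q g a = some r → r.2.length ≤ m) (w : List β)
    (p : Fin 1 → Fin (w.length + 1)) (z : List M.Γ) (q : M.Q) (g : M.Γ) (c1 : M.Conf)
    (h : M.step (q, w.drop (p 0).val, g :: z) = some c1) :
    Res M m w (m + 5) (.top q g, p, z) c1 := by
  by_cases hacc : ((letter w.get p).isNone && M.acc q) = true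
  · left
    refine ⟨1, by omega, p, z, ?_⟩
    change stp M m w.get (.top q g, p, z) = _
    rw [stp_top]
    have h3 : topR M m q g (letter w.get p) = .yes := if_pos hacc
    rw [h3]
  cases hq : M.eps q g with
  | some r =>
    have h3 : topR M m q g (letter w.get p) = pshL M m r.1 r.2 := by
      unfold topR
      rw [if_neg hacc, hq]
    have h4 : pshL M m r.1 r.2 = .psh r.1 ⟨r.2, he _ _ _ hq⟩ := dif_pos (he _ _ _ hq)
    have h5 : c1 = (r.1, w.drop (p 0).val, r.2 ++ z) := by
      unfold DetPDA.step at h
      simp only [hq] at h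
      exact (Option.some.inj h).symm
    rw [h5]
    refine res_step M m 1 ?_ (psh_res M m w r.1 p ⟨r.2, he _ _ _ hq⟩ z) (by omega)
    change stp M m w.get (.top q g, p, z) = _
    rw [stp_top, h3, h4]
  | none =>
    have h3 : topR M m q g (letter w.get p) = lkR M m q g (letter w.get p) := by
      unfold topR
      rw [if_neg hacc, hq]
    rcases letter_spec w p with ⟨-, h7, -⟩ | ⟨a, h7, h8, hp⟩
    · unfold DetPDA.step at h
      simp only [hq, h7] at h
      simp at h
    · cases hmv : M.move q g a with
      | none =>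
        unfold DetPDA.step at h
        simp only [hq, h8, hmv, Option.map_none] at h
        simp at h
      | some r =>
        have h4 : lkR M m q g (some a) = rtL M m r.1 r.2 := by
          unfold lkR
          simp only [hmv]
        have h5 : rtL M m r.1 r.2 = .rt r.1 ⟨r.2, hm _ _ _ _ hmv⟩ :=
          dif_pos (hm _ _ _ _ hmv)
        have h6 : c1 = (r.1, w.drop ((p 0).val + 1), r.2 ++ z) := by
          unfold DetPDA.step at h
          simp only [hq, h8, hmv, Option.map_some] at h
          exact (Option.some.inj h).symm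
        have h9 := psh_res M m w r.1
          (Function.update p 0 ⟨min ((p 0).val + 1) w.length, by omega⟩)
          ⟨r.2, hm _ _ _ _ hmv⟩ z
        have h10 : min ((p 0).val + 1) w.length = (p 0).val + 1 := by omega
        rw [Function.update_self] at h9
        simp only [h10] at h9
        rw [h6]
        refine res_step M m 2 ?_ h9 (by omega)
        change stp M m w.get (stp M m w.get (.top q g, p, z)) = _
        rw [stp_top, h3, h7, h4, h5, stp_rt]
        simp only [h10]

theorem run (he : ∀ q g r, M.eps q g = some r → r.2.length ≤ m)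
    (hm : ∀ q g a r, M.move q g a = some r → r.2.length ≤ m) (w : List β) (t : ℕ) :
    ∀ (p : Fin 1 → Fin (w.length + 1)) (z : List M.Γ) (q : M.Q) (g : M.Γ) (c1 : M.Conf),
      M.conf t (q, w.drop (p 0).val, g :: z) = some c1 →
      Res M m w ((m + 5) * t) (.top q g, p, z) c1 := by
  induction t with
  | zero =>
    intro p z q g c1 h
    right
    have h1 : (q, w.drop (p 0).val, g :: z) = c1 := Option.some.inj h
    subst h1
    exact ⟨0, by omega, p, rfl, Or.inl ⟨g, z, rfl, rfl⟩⟩
  | succ t ih =>
    intro p z q g c1 h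
    have h0 : (M.step (q, w.drop (p 0).val, g :: z)).bind (M.conf t) = some c1 := h
    cases hs : M.step (q, w.drop (p 0).val, g :: z) with
    | none =>
      rw [hs] at h0
      simp at h0
    | some c2 =>
      rw [hs, Option.bind_some] at h0
      rcases macro_step M m he hm w p z q g c2 hs with ⟨s, hs1, p', z', h1⟩ |
          ⟨s, hs1, p', h2, ⟨g', z', h3, h4⟩ | ⟨h3, h4⟩⟩
      · left
        refine ⟨s, ?_, p', z', h1⟩
        rw [Nat.mul_succ]
        omega
      · have e : c2 = (c2.1, w.drop (p' 0).val, g' :: z') := by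
          obtain ⟨a, b, c⟩ := c2
          simp only at h2 h3
          rw [h2, h3]
        rw [e] at h0
        have h5 := ih p' z' c2.1 g' c1 h0
        exact res_step M m s h4 h5 (by rw [Nat.mul_succ]; omega)
      · cases t with
        | zero =>
          have h5 : c2 = c1 := Option.some.inj h0
          subst h5
          right
          exact ⟨s, by omega, p', h2, Or.inr ⟨h3, h4⟩⟩
        | succ t =>
          have h5 : M.step c2 = none := by
            obtain ⟨a, b, c⟩ := c2
            simp only at h3
            subst h3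
            rfl
          have h6 : (M.step c2).bind (M.conf t) = some c1 := h0
          rw [h5] at h6
          cases h6

/-- Completeness. -/
theorem mach_complete (he : ∀ q g r, M.eps q g = some r → r.2.length ≤ m)
    (hm : ∀ q g a r, M.move q g a = some r → r.2.length ≤ m) (w : List β) (t : ℕ)
    (h : M.AccAt w t) : (mach M m).AcceptsIn w.get ((m + 5) * t + 1) := by
  obtain ⟨q, z, h, hq⟩ := h
  have h0 : M.conf t (M.start, w.drop ((fun _ => 0 : Fin 1 → Fin (w.length + 1)) 0).val,
      [M.bottom]) = some (q, [], z) := h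
  have hyes : ∀ s ≤ (m + 5) * t + 1, ∀ p' z', (stp M m w.get)^[s]
      (.top M.start M.bottom, fun _ => 0, []) = (.yes, p', z') →
      (mach M m).AcceptsIn w.get ((m + 5) * t + 1) := by
    intro s hs p' z' h1
    refine ⟨s, hs, ?_⟩
    change ac M m ((stp M m w.get)^[s] (.top M.start M.bottom, fun _ => 0, [])).1 = true
    rw [h1]
    rfl
  have hlet : ∀ p' : Fin 1 → Fin (w.length + 1), w.drop (p' 0).val = [] →
      letter w.get p' = none := by
    intro p' h2
    rcases letter_spec w p' with ⟨h3, -, -⟩ | ⟨a, -, h3, -⟩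
    · exact h3
    · rw [h3] at h2
      simp at h2
  rcases run M m he hm w t (fun _ => 0) [] M.start M.bottom (q, [], z) h0 with
    ⟨s, hs, p', z', h1⟩ | ⟨s, hs, p', h2, ⟨g', z', h3, h4⟩ | ⟨h3, h4⟩⟩
  · exact hyes s (by omega) p' z' h1
  · refine hyes (s + 1) (by omega) p' z' ?_
    rw [Function.iterate_succ_apply', h4]
    change stp M m w.get (.top q g', p', z') = _
    rw [stp_top, hlet p' h2]
    unfold topR
    rw [if_pos (by rw [hq]; rfl)]
  · refine hyes (s + 1) (by omega) p' [] ?_
    rw [Function.iterate_succ_apply', h4]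
    change stp M m w.get (.psh q ⟨[], Nat.zero_le _⟩, p', []) = _
    rw [stp_psh_nil M m _ _ _ _ _ rfl, hlet p' h2]
    unfold endR
    rw [if_pos (by rw [hq]; rfl)]

end TVH

open TVH in
/-- A head automaton with the turns of a deterministic pushdown automaton. -/
theorem DetPDA.exists_turn {β : Type} [Finite β] (M : DetPDA β) :
    ∃ (M' : HeadPDA β) (C : ℕ), M'.k = 1 ∧
      (∀ (w : List β) (T : ℕ), (M'.prog w.length).AcceptsTurns w.get T → M.Accepts w) ∧
      (∀ w : List β, M.Accepts w → (M'.prog w.length).AcceptsTurns w.get (C * (w.length + 2))) ∧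
      (∀ (w : List β) (T : ℕ), M.TurnsLe w T →
        ∀ k b s z, (M'.prog w.length).TReach w.get k b s z → k ≤ T + 1) := by
  obtain ⟨m, he, hm⟩ := DLH.exists_bound M
  obtain ⟨C, hC⟩ := M.time
  refine ⟨mach M m, 2 * (m + 5) * C + 3, rfl, ?_, ?_, ?_⟩
  · rintro w T ⟨k, -, b, s, z, h1, h2⟩
    exact prog_sound M m w h1 h2
  · intro w hw
    obtain ⟨t, ht, hacc⟩ := hC w hw
    obtain ⟨u, hu, h1⟩ := mach_complete M m he hm w t hacc
    have h2 : ((mach M m).prog w.length).conf w.get (2 * u + 1)
        ((mach M m).prog w.length).start [] = some (some (.inl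
        ((((mach M m).step w.get)^[u] ((mach M m).start, fun _ => 0, [])).1,
        (((mach M m).step w.get)^[u] ((mach M m).start, fun _ => 0, [])).2.1)),
        (mach M m).stk (((mach M m).step w.get)^[u] ((mach M m).start, fun _ => 0, [])).2.2) :=
      (mach M m).prog_even w.get u ((mach M m).start, fun _ => 0, [])
    obtain ⟨k, b, hk, h3⟩ := PushProg.treach_of_conf _ _ h2
    refine ⟨k, hk.trans ?_, b, _, _, h3, h1⟩
    have h4 : u ≤ (m + 5) * (C * (w.length + 2)) + 1 := hu.trans (by gcongr)
    calc 2 * u + 1 ≤ 2 * ((m + 5) * (C * (w.length + 2)) + 1) + 1 := by omega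
      _ = 2 * (m + 5) * C * (w.length + 2) + 3 := by ring
      _ ≤ 2 * (m + 5) * C * (w.length + 2) + 3 * (w.length + 2) := by omega
      _ = (2 * (m + 5) * C + 3) * (w.length + 2) := by ring
  · intro w T hT k b s z h
    exact prog_turns M m w hT h

end Pool.Agent.MP_6216ea_lc
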