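import Pool.Agent.Lib.MP_6216ea_lc.TVSem

/-! The effect of the nodes of the algorithm with eight registers. -/

set_option autoImplicit false

namespace Pool.Agent.MP_6216ea_lc

namespace TV

open DU (Rg addB mulB runN runN_zero runN_succ runN_congr runN_add runN_mul runN_first runN_addB
  One fineA fs fs_ge addB_addB addB_zero)
open DU.Nm (pack pack_digit pack_lt invN invN_cast)

section

variable (P : Par) [Fact P.p.Prime] (O : One) (base : ℕ → ℕ)

/-- The round of the value of a composite level. -/
theorem slotA_run (F : N7 → Rg P.p → Rg P.p)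
    (hF : ∀ v, isPrim v → ∀ R, F v R = prim P O base v R) (hn : 0 < P.n) (hnp : P.n ≤ P.p)
    (hdeg : 7 * P.E * (P.n - 1) < P.p - 1)
    (A : ℕ → ℕ) (β w c j t v : ℕ) (hv : v < P.N)
    (hQ : ∀ (t : ℕ) R, F (opN P.b β 0 w c (sA j 0) t) R =
      addB (sA j 0) ((t : ZMod P.p) • cv P.p P.n P.E v) R)
    (hM : ∀ R, F (9, β, 0, 0, 0, j, t) R = addB j (∑ c' ∈ Finset.range P.N,
      (-((t : ZMod P.p) * ind P.p P.n P.E c' (R (sA j 0)))) • cv P.p P.n P.E (A c')) R)
    (R : Rg P.p) :
    runN ((P.p - 1) * 17) (fun m => F (slotA P.p P.b β w c j t m)) R =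
      addB j ((t : ZMod P.p) • cv P.p P.n P.E (A v)) R := by
  have hp : P.p.Prime := Fact.out
  obtain ⟨r, hr0⟩ : ∃ r, r = sA j 0 := ⟨_, rfl⟩
  have hrj : r ≠ j := by rw [hr0]; exact sA_ne j 0
  have key : ∀ τ < P.p - 1, ∀ R, runN 17 (fun m => F (slotA P.p P.b β w c j t (τ * 17 + m))) R =
      addB j (∑ c' ∈ Finset.range P.N, (-((t : ZMod P.p) * ind P.p P.n P.E c'
        (((τ + 1 : ℕ) : ZMod P.p) • R r + cv P.p P.n P.E v))) • cv P.p P.n P.E (A c')) R := by
    intro τ hτ R
    have hr : ∀ r < 17, (τ * 17 + r) % 17 = r ∧ (τ * 17 + r) / 17 = τ := by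
      intro r hr
      omega
    obtain ⟨x, hx⟩ : ∃ x : ZMod P.p, x = ((τ + 1 : ℕ) : ZMod P.p) := ⟨_, rfl⟩
    have hx0 : x ≠ 0 := by
      rw [hx]
      intro h0
      rw [ZMod.natCast_eq_zero_iff] at h0
      have := Nat.le_of_dvd (by omega) h0
      omega
    rw [← hx]
    rw [show 17 = 1 + (1 + (1 + (1 + (1 + 12)))) by norm_num, runN_add, runN_add, runN_add,
      runN_add, runN_add]
    have h0 : ∀ R, runN 1 (fun m => F (slotA P.p P.b β w c j t
        (τ * (1 + (1 + (1 + (1 + (1 + 12))))) + m))) R = mulB r x R := by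
      intro R
      change F (slotA P.p P.b β w c j t (τ * 17 + 0)) R = _
      obtain ⟨e1, e2⟩ := hr 0 (by norm_num)
      unfold slotA
      rw [e1, e2, if_pos rfl, hF _ (by unfold isPrim; norm_num), prim_2, hx, hr0]
    have h1 : ∀ R, runN 1 (fun m => F (slotA P.p P.b β w c j t
        (τ * (1 + (1 + (1 + (1 + (1 + 12))))) + (1 + m)))) R =
        addB r (cv P.p P.n P.E v) R := by
      intro R
      change F (slotA P.p P.b β w c j t (τ * 17 + 1)) R = _
      obtain ⟨e1, e2⟩ := hr 1 (by norm_num)
      unfold slotA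
      rw [e1, e2, if_neg (by norm_num), if_pos rfl, hQ, Nat.cast_one, one_smul, hr0]
    have h2 : ∀ R, runN 1 (fun m => F (slotA P.p P.b β w c j t
        (τ * (1 + (1 + (1 + (1 + (1 + 12))))) + (1 + (1 + m))))) R =
        addB j (∑ c' ∈ Finset.range P.N,
      (-((t : ZMod P.p) * ind P.p P.n P.E c' (R r))) • cv P.p P.n P.E (A c')) R := by
      intro R
      change F (slotA P.p P.b β w c j t (τ * 17 + 2)) R = _
      obtain ⟨e1, e2⟩ := hr 2 (by norm_num)
      unfold slotA
      rw [e1, e2, if_neg (by norm_num), if_neg (by norm_num), if_pos rfl, hM, hr0]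
    have h3 : ∀ R, runN 1 (fun m => F (slotA P.p P.b β w c j t
        (τ * (1 + (1 + (1 + (1 + (1 + 12))))) + (1 + (1 + (1 + m)))))) R =
        addB r (-(cv P.p P.n P.E v)) R := by
      intro R
      change F (slotA P.p P.b β w c j t (τ * 17 + 3)) R = _
      obtain ⟨e1, e2⟩ := hr 3 (by norm_num)
      unfold slotA
      rw [e1, e2, if_neg (by norm_num), if_neg (by norm_num), if_neg (by norm_num), if_pos rfl,
        hQ, ngN_cast hp.pos, Nat.cast_one, neg_one_smul, hr0]
    have h4 : ∀ R, runN 1 (fun m => F (slotA P.p P.b β w c j t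
        (τ * (1 + (1 + (1 + (1 + (1 + 12))))) + (1 + (1 + (1 + (1 + m))))))) R =
        mulB r x⁻¹ R := by
      intro R
      change F (slotA P.p P.b β w c j t (τ * 17 + 4)) R = _
      obtain ⟨e1, e2⟩ := hr 4 (by norm_num)
      unfold slotA
      rw [e1, e2, if_neg (by norm_num), if_neg (by norm_num), if_neg (by norm_num),
        if_neg (by norm_num), if_pos rfl, hF _ (by unfold isPrim; norm_num), prim_2, invN_cast,
        ← hx, hr0]
    have h5 : ∀ R, runN 12 (fun m => F (slotA P.p P.b β w c j t
        (τ * (1 + (1 + (1 + (1 + (1 + 12))))) + (1 + (1 + (1 + (1 + (1 + m)))))))) R = R := by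
      intro R
      rw [runN_congr 12 _ (fun _ R => R) R (fun m hm s => ?_)]
      · rfl
      · change F (slotA P.p P.b β w c j t (τ * 17 + (1 + (1 + (1 + (1 + (1 + m))))))) s = _
        obtain ⟨e1, e2⟩ := hr (1 + (1 + (1 + (1 + (1 + m))))) (by omega)
        unfold slotA
        rw [e1, e2, if_neg (by omega), if_neg (by omega), if_neg (by omega), if_neg (by omega),
          if_neg (by omega), hF _ (by unfold isPrim idN; norm_num)]
        rfl
    rw [h0, h1, h2, h3, h4, h5]
    have e1 : addB r (cv P.p P.n P.E v) (mulB r x R) r = x • R r + cv P.p P.n P.E v := by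
      unfold addB mulB
      rw [Function.update_self, Function.update_self]
    rw [e1]
    funext i
    unfold mulB addB
    by_cases hij : i = j
    · subst hij
      simp [hrj, Function.update_of_ne hrj.symm]
    · by_cases hir : i = r
      · subst hir
        simp only [Function.update_self, Function.update_of_ne hij]
        rw [add_neg_cancel_right, smul_smul, inv_mul_cancel₀ hx0, one_smul]
      · simp only [Function.update_of_ne hij, Function.update_of_ne hir]
  rw [runN_mul, runN_addB (P.p - 1) j _ (fun τ R => ∑ c' ∈ Finset.range P.N,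
    (-((t : ZMod P.p) * ind P.p P.n P.E c'
        (((τ + 1 : ℕ) : ZMod P.p) • R r + cv P.p P.n P.E v))) • cv P.p P.n P.E (A c')) key ?_ R]
  · congr 1
    rw [Finset.sum_comm]
    have h3 : ∀ c' ∈ Finset.range P.N, ∑ τ ∈ Finset.range (P.p - 1),
        (-((t : ZMod P.p) * ind P.p P.n P.E c'
          (((τ + 1 : ℕ) : ZMod P.p) • R r + cv P.p P.n P.E v))) • cv P.p P.n P.E (A c') =
        (if v = c' then (t : ZMod P.p) else 0) • cv P.p P.n P.E (A c') := by
      intro c' hc'
      rw [← Finset.sum_smul]
      congr 1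
      rw [Finset.sum_neg_distrib, ← Finset.mul_sum]
      have h4 : ∀ τ : ℕ, ind P.p P.n P.E c'
          (((τ + 1 : ℕ) : ZMod P.p) • R r + cv P.p P.n P.E v) =
          gext P.p P.n P.E (fun e => if e = c' then 1 else 0)
            (fun i => ((τ + 1 : ℕ) : ZMod P.p) * R r i + gv P.p P.n v i) := by
        intro τ
        unfold gext
        rw [Finset.sum_eq_single c']
        · beta_reduce
          rw [if_pos rfl, one_mul]
          unfold ind
          refine Finset.prod_congr rfl fun i hi => ?_
          congr 1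
          simp only [Pi.add_apply, Pi.smul_apply, smul_eq_mul, cv, if_pos (Finset.mem_range.1 hi)]
        · intro e _ he
          beta_reduce
          rw [if_neg he, zero_mul]
        · intro h
          exact absurd hc' h
      simp only [h4]
      have hdeg' : P.E * (P.n - 1) < P.p - 1 := by
        refine lt_of_le_of_lt ?_ hdeg
        rw [Nat.mul_assoc]
        exact Nat.le_mul_of_pos_left _ (by norm_num)
      rw [sum_gext hn P.E _ _ _ hdeg', gext_gv hnp hn _ v hv]
      by_cases h5 : v = c'
      · rw [if_pos h5, if_pos h5]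
        ring
      · rw [if_neg h5, if_neg h5]
        ring
    rw [Finset.sum_congr rfl h3, Finset.sum_eq_single v]
    · rw [if_pos rfl]
    · intro c' _ hc'
      rw [if_neg (fun h => hc' h.symm), zero_smul]
    · intro h
      exact absurd (Finset.mem_range.2 hv) h
  · intro τ _ v' R
    have h6 : addB j v' R r = R r := by
      unfold addB
      rw [Function.update_of_ne hrj]
    simp only [h6]

/-! ### Elementary nodes -/

theorem ch1_prim (v : N7) (h : isPrim v ∨ v.1 = 9) (m : ℕ) :
    ch1 P.p P.b v m = if m = 0 then v else idN := by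
  unfold isPrim at h
  unfold ch1
  rw [if_neg (by omega), if_neg (by omega)]

theorem ch2_prim (v : N7) (h : isPrim v) (m : ℕ) :
    ch2 P.p P.b v m = if m = 0 then v else idN := by
  unfold isPrim at h
  unfold ch2
  rw [if_neg (by omega)]

theorem prim_idN : isPrim idN := by unfold isPrim idN; norm_num

/-- The radix of the digits of the first kind. -/
def Par.r1 (P : Par) : ℕ := (P.p - 1) * 17

/-- The radix of the digits of the second kind. -/
def Par.r2 (P : Par) : ℕ := 4 * P.N

theorem r1_pos : 1 ≤ P.r1 := by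
  have hp : P.p.Prime := Fact.out
  have := hp.two_le
  unfold Par.r1
  omega

/-- The nested loops of a composite level. -/
abbrev FP (E' : N7 → Rg P.p → Rg P.p) : ℕ → N7 → Rg P.p → Rg P.p :=
  FF (ch1 P.p P.b) (ch2 P.p P.b) P.r1 P.r2 E'

theorem FP_prim (hn : 0 < P.n) (E' : N7 → Rg P.p → Rg P.p)
    (hE : ∀ v, isPrim v → ∀ R, E' v R = prim P O base v R) (u : ℕ) (v : N7) (h : isPrim v)
    (R : Rg P.p) : FP P E' u v R = prim P O base v R := by
  induction u generalizing v R with
  | zero =>
    have hN : 1 ≤ P.r2 := Nat.mul_pos (by norm_num) (Nat.pow_pos hn)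
    refine runN_first _ hN _ (prim P O base v) R ?_ ?_
    · intro s
      rw [ch2_prim P v h, if_pos rfl, hE v h]
    · intro m hm s
      rw [ch2_prim P v h, if_neg (by omega), hE _ prim_idN]
      rfl
  | succ u ih =>
    refine runN_first _ (r1_pos P) _ (prim P O base v) R ?_ ?_
    · intro s
      rw [ch1_prim P v (Or.inl h), if_pos rfl]
      exact ih v h s
    · intro m hm s
      rw [ch1_prim P v (Or.inl h), if_neg (by omega)]
      exact ih idN prim_idN s

theorem FP_mid (hn : 0 < P.n) (E' : N7 → Rg P.p → Rg P.p)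
    (hE : ∀ v, isPrim v → ∀ R, E' v R = prim P O base v R) (u : ℕ) (v : N7) (h : v.1 = 9)
    (R : Rg P.p) : FP P E' u v R = FP P E' 0 v R := by
  induction u generalizing R with
  | zero => rfl
  | succ u ih =>
    refine runN_first _ (r1_pos P) _ (FP P E' 0 v) R ?_ ?_
    · intro s
      rw [ch1_prim P v (Or.inr h), if_pos rfl]
      exact ih s
    · intro m hm s
      rw [ch1_prim P v (Or.inr h), if_neg (by omega)]
      exact FP_prim P O base hn E' hE u idN prim_idN s

/-- The loop over the questions. -/
theorem mid_eq (E' : N7 → Rg P.p → Rg P.p)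
    (hE : ∀ v, isPrim v → ∀ R, E' v R = prim P O base v R) (A : ℕ → ℕ) (β j t : ℕ)
    (hL : ∀ c (t : ℕ) R, c < P.N → E' (lowN P.b β c (sA j 1) t) R =
      addB (sA j 1) ((t : ZMod P.p) • cv P.p P.n P.E (A c)) R) (R : Rg P.p) :
    FP P E' 0 (9, β, 0, 0, 0, j, t) R = addB j (∑ c' ∈ Finset.range P.N,
      (-((t : ZMod P.p) * ind P.p P.n P.E c' (R (sA j 0)))) • cv P.p P.n P.E (A c')) R := by
  have hp : P.p.Prime := Fact.out
  obtain ⟨r, hr⟩ : ∃ r, r = sA j 0 := ⟨_, rfl⟩
  obtain ⟨u, hu⟩ : ∃ u, u = sA j 1 := ⟨_, rfl⟩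
  have hrj : r ≠ j := by rw [hr]; exact sA_ne j 0
  have huj : u ≠ j := by rw [hu]; exact sA_ne j 1
  have hru : r ≠ u := by
    rw [hr, hu]
    intro h
    have := sA_inj h
    omega
  change runN (4 * P.N) (fun m => E' (ch2 P.p P.b (9, β, 0, 0, 0, j, t) m)) R = _
  rw [Nat.mul_comm, runN_mul]
  refine runN_addB _ j _ (fun c' R => (-((t : ZMod P.p) * ind P.p P.n P.E c' (R (sA j 0)))) •
    cv P.p P.n P.E (A c')) ?_ ?_ R
  · intro c' hc' R
    have h0 : ∀ r < 4, ch2 P.p P.b (9, β, 0, 0, 0, j, t) (c' * 4 + r) =
        if r = 0 then (3, 0, 0, 0, c', j, t)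
        else if r = 1 then lowN P.b β c' (sA j 1) 1
        else if r = 2 then (3, 0, 0, 0, c', j, ngN P.p t)
        else lowN P.b β c' (sA j 1) (ngN P.p 1) := by
      intro r hr
      have h1 : (c' * 4 + r) % 4 = r := by omega
      have h2 : (c' * 4 + r) / 4 = c' := by omega
      unfold ch2
      rw [h1, h2, if_pos rfl]
    change E' (ch2 P.p P.b (9, β, 0, 0, 0, j, t) (c' * 4 + 3))
      (E' (ch2 P.p P.b (9, β, 0, 0, 0, j, t) (c' * 4 + 2))
      (E' (ch2 P.p P.b (9, β, 0, 0, 0, j, t) (c' * 4 + 1))
      (E' (ch2 P.p P.b (9, β, 0, 0, 0, j, t) (c' * 4 + 0)) R))) = _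
    rw [h0 0 (by norm_num), h0 1 (by norm_num), h0 2 (by norm_num), h0 3 (by norm_num)]
    simp only [if_true, OfNat.ofNat_ne_zero, if_false, one_ne_zero, OfNat.ofNat_ne_one,
      OfNat.ofNat_eq_ofNat]
    rw [hE (3, 0, 0, 0, c', j, t) (by unfold isPrim; norm_num), hL _ _ _ hc',
      hE (3, 0, 0, 0, c', j, ngN P.p t) (by unfold isPrim; norm_num)]
    norm_num
    rw [hL _ _ _ hc', prim_3, prim_3, ngN_cast hp.pos, ngN_cast hp.pos, ← hr, ← hu]
    have e1 : ∀ (v w : ℕ → ZMod P.p) (R : Rg P.p), addB u v (addB j w R) r = R r := by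
      intro v w R
      unfold addB
      rw [Function.update_of_ne hru, Function.update_of_ne hrj]
    rw [e1]
    funext k
    unfold addB
    by_cases h1 : k = u
    · subst h1
      simp [Function.update_of_ne huj]
    · by_cases h2 : k = j
      · subst h2
        simp [Function.update_of_ne huj.symm, Function.update_of_ne huj, smul_add]
      · simp [Function.update_of_ne h1, Function.update_of_ne h2]
  · intro c' _ v R
    have : addB j v R (sA j 0) = R (sA j 0) := by
      unfold addB
      rw [← hr, Function.update_of_ne hrj]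
    simp only [this]

/-! ### The values and the depth of the nodes -/

/-- The value of a path: the operands at the levels `L`, `L + 1`, …. -/
def tv (O : One) (base : ℕ → ℕ) : ℕ → ℕ → ℕ → ℕ → ℕ
  | 0, _, _, c => c
  | l + 1, L, w, c => phi O L (w % 7) (tv O base l (L + 1) (w / 7) c)
      (fs O (fineA O base L) L (tv O base l (L + 1) (w / 7) c) (w % 7))

/-- The depth of a level. -/
def mu : ℕ → ℕ
  | 0 => 2
  | s + 1 => 2 + 6 * mu s

/-- The depth of a path. -/
def rk (b : ℕ) : ℕ → ℕ → ℕ
  | 0, _ => 0
  | l + 1, w => rk b l (w / 7) + 1 + (w % 7) * mu (b - (l + 1))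

theorem mu_pos (s : ℕ) : 2 ≤ mu s := by
  cases s with
  | zero => exact le_rfl
  | succ s => rw [mu]; omega

variable {O base}

omit [Fact P.p.Prime] in
theorem fs_lt (hb : ∀ q, base q < P.N) (hh : ∀ L q m a, O.h L q m a < P.N)
    (he : ∀ L q a, O.e L q a < P.N) (L q k m : ℕ) : fs O (fineA O base L) L q k m < P.N := by
  have hA : ∀ q, fineA O base L q < P.N := by
    intro q
    cases L with
    | zero => exact hb q
    | succ L => exact he _ _ _
  have h0 : 0 < P.N := lt_of_le_of_lt (Nat.zero_le _) (hb 0)
  induction k generalizing m with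
  | zero => exact h0
  | succ k ih =>
    rw [fs]
    by_cases h : m = k
    · subst h
      rw [Function.update_self]
      exact hA _
    · rw [Function.update_of_ne h]
      exact ih m

omit [Fact P.p.Prime] in
theorem tv_lt (hb : ∀ q, base q < P.N) (hh : ∀ L q m a, O.h L q m a < P.N)
    (he : ∀ L q a, O.e L q a < P.N) (l L w c : ℕ) (hc : c < P.N) : tv O base l L w c < P.N := by
  cases l with
  | zero => exact hc
  | succ l =>
    rw [tv, phi]
    split_ifs
    · exact he _ _ _
    · exact hh _ _ _ _

theorem fs_item (A : ℕ → ℕ) (L q k m : ℕ) (h : m < k) :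
    fs O A L q k m = A (O.h L q m (fs O A L q m)) := by
  induction k with
  | zero => omega
  | succ k ih =>
    rw [fs]
    by_cases hm : m = k
    · subst hm
      rw [Function.update_self]
    · rw [Function.update_of_ne hm, ih (by omega)]

/-- The values of the earlier operands. -/
theorem fine_tv (l L w c m k : ℕ) (hm : m < k) (hk : k ≤ 6) :
    fineA O base L (tv O base (l + 1) L (7 * w + m) c) =
      fs O (fineA O base L) L (tv O base l (L + 1) w c) k m := by
  have h1 : (7 * w + m) % 7 = m := by omega
  have h2 : (7 * w + m) / 7 = w := by omega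
  rw [fs_item _ _ _ _ _ hm, tv, h1, h2, phi, if_neg (by omega)]

variable (O base)

/-- The effect of the nodes of a composite level. -/
theorem block (hn : 0 < P.n) (hnp : P.n ≤ P.p) (hdeg : 7 * P.E * (P.n - 1) < P.p - 1)
    (hb : ∀ q, base q < P.N) (hh : ∀ L q m a, O.h L q m a < P.N)
    (he : ∀ L q a, O.e L q a < P.N) (E' : N7 → Rg P.p → Rg P.p)
    (hE : ∀ v, isPrim v → ∀ R, E' v R = prim P O base v R) (β : ℕ)
    (hL : ∀ j c (t : ℕ) R, c < P.N → E' (lowN P.b β c j t) R =
      addB j ((t : ZMod P.p) • cv P.p P.n P.E (fineA O base (P.b * β) c)) R) (u : ℕ) :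
    (∀ s w c j (t : ℕ) R, s ≤ P.b → c < P.N → rk P.b (P.b - s) w ≤ u →
      FP P E' u (opN P.b β s w c j t) R = addB j ((t : ZMod P.p) •
        cv P.p P.n P.E (tv O base (P.b - s) (P.b * β + s) w c)) R) ∧
    (∀ s w c j (t : ℕ) R, s ≤ P.b → c < P.N → rk P.b (P.b - s) w + mu s ≤ u + 1 →
      FP P E' u (7, β, s, w, c, j, t) R = addB j ((t : ZMod P.p) •
        cv P.p P.n P.E (fineA O base (P.b * β + s)
          (tv O base (P.b - s) (P.b * β + s) w c))) R) := by
  induction u with
  | zero =>
    constructor
    · intro s w c j t R hs hc hr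
      have hsb : s = P.b := by
        by_contra h
        have h1 : P.b - s = (P.b - s - 1) + 1 := by omega
        rw [h1, rk] at hr
        omega
      subst hsb
      unfold opN
      rw [if_neg (lt_irrefl _), FP_prim P O base hn E' hE 0 _ (by unfold isPrim; norm_num),
        prim_5, Nat.sub_self]
      rfl
    · intro s w c j t R hs hc hr
      have := mu_pos s
      omega
  | succ u ih =>
    obtain ⟨ihO, ihL⟩ := ih
    have hprim : ∀ v, isPrim v → ∀ R, FP P E' u v R = prim P O base v R :=
      fun v hv R => FP_prim P O base hn E' hE u v hv R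
    constructor
    · intro s w c j t R hs hc hr
      by_cases hsb : s = P.b
      · subst hsb
        unfold opN
        rw [if_neg (lt_irrefl _), FP_prim P O base hn E' hE _ _ (by unfold isPrim; norm_num),
          prim_5, Nat.sub_self]
        rfl
      · have hlt : s < P.b := by omega
        have h1 : P.b - s = (P.b - (s + 1)) + 1 := by omega
        have h2 : P.b - (P.b - (s + 1) + 1) = s := by omega
        rw [h1, rk, h2] at hr
        unfold opN
        rw [if_pos hlt]
        have h3 : ∀ m, ch1 P.p P.b (8, β, s, w, c, j, t) m =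
            slotO P.p P.b β s (w / 7) (w % 7) c j t m := fun m => rfl
        change runN P.r1 (fun m => FP P E' u (ch1 P.p P.b (8, β, s, w, c, j, t) m)) R = _
        simp only [h3]
        have hk : w % 7 ≤ 6 := by omega
        rw [show P.r1 = (P.p - 1) * 17 from rfl,
          slotO_run P O base (FP P E' u) hprim hn hnp hdeg β s (w / 7) (w % 7) c j t hk
          (fs O (fineA O base (P.b * β + s)) (P.b * β + s)
            (tv O base (P.b - (s + 1)) (P.b * β + s + 1) (w / 7) c) (w % 7))
          (tv O base (P.b - (s + 1)) (P.b * β + s + 1) (w / 7) c)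
          (fun m => fs_lt P hb hh he _ _ _ _) (fun m hm => fs_ge _ _ _ _ _ _ hm)
          (tv_lt P hb hh he _ _ _ _ hc) ?_ ?_ R, h1]
        · rfl
        · intro m hm t R
          rw [ihL s _ c _ t R hs hc, h1, fine_tv _ _ _ _ _ _ hm hk]
          rw [h1, rk, h2, show (7 * (w / 7) + m) / 7 = w / 7 by omega,
            show (7 * (w / 7) + m) % 7 = m by omega]
          have h4 : (m + 1) * mu s ≤ (w % 7) * mu s := Nat.mul_le_mul_right _ hm
          rw [Nat.succ_mul] at h4
          omega
        · intro t R
          exact ihO (s + 1) _ c _ t R hlt hc (by omega)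
    · intro s w c j t R hs hc hr
      cases s with
      | zero =>
        have h3 : ∀ m, ch1 P.p P.b (7, β, 0, w, c, j, t) m = slotA P.p P.b β w c j t m :=
          fun m => rfl
        change runN P.r1 (fun m => FP P E' u (ch1 P.p P.b (7, β, 0, w, c, j, t) m)) R = _
        simp only [h3]
        rw [show P.r1 = (P.p - 1) * 17 from rfl,
          slotA_run P O base (FP P E' u) hprim hn hnp hdeg (fineA O base (P.b * β)) β w c j t
          (tv O base (P.b - 0) (P.b * β + 0) w c) (tv_lt P hb hh he _ _ _ _ hc) ?_ ?_ R]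
        · rfl
        · intro t R
          refine ihO 0 w c _ t R hs hc ?_
          rw [mu] at hr
          omega
        · intro R
          rw [FP_mid P O base hn E' hE u _ rfl]
          exact mid_eq P O base E' hE _ β j t (fun c t R hc => hL _ c t R hc) R
      | succ s =>
        have h3 : ∀ m, ch1 P.p P.b (7, β, s + 1, w, c, j, t) m =
            slotO P.p P.b β s w 6 c j t m := fun m => rfl
        change runN P.r1 (fun m => FP P E' u (ch1 P.p P.b (7, β, s + 1, w, c, j, t) m)) R = _
        simp only [h3]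
        have h1 : P.b - s = (P.b - (s + 1)) + 1 := by omega
        have h2 : P.b - (P.b - (s + 1) + 1) = s := by omega
        rw [mu] at hr
        rw [show P.r1 = (P.p - 1) * 17 from rfl,
          slotO_run P O base (FP P E' u) hprim hn hnp hdeg β s w 6 c j t le_rfl
          (fs O (fineA O base (P.b * β + s)) (P.b * β + s)
            (tv O base (P.b - (s + 1)) (P.b * β + s + 1) w c) 6)
          (tv O base (P.b - (s + 1)) (P.b * β + s + 1) w c)
          (fun m => fs_lt P hb hh he _ _ _ _) (fun m hm => fs_ge _ _ _ _ _ _ hm)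
          (tv_lt P hb hh he _ _ _ _ hc) ?_ ?_ R]
        · rfl
        · intro m hm t R
          rw [ihL s _ c _ t R (by omega) hc, h1, fine_tv _ _ _ _ _ _ hm le_rfl]
          rw [h1, rk, h2, show (7 * w + m) / 7 = w by omega, show (7 * w + m) % 7 = m by omega]
          have h4 : (m + 1) * mu s ≤ 6 * mu s := Nat.mul_le_mul_right _ hm
          rw [Nat.succ_mul] at h4
          omega
        · intro t R
          refine ihO (s + 1) _ c _ t R hs hc ?_
          have := mu_pos s
          omega

/-- The number of digits of the first kind. -/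
def Par.U (P : Par) : ℕ := mu P.b

/-- The effect of a node with `g` composite levels. -/
abbrev EP (g : ℕ) : N7 → Rg P.p → Rg P.p :=
  EE (ch1 P.p P.b) (ch2 P.p P.b) P.r1 P.r2 P.U (prim P O base) g

theorem EP_prim (hn : 0 < P.n) (g : ℕ) (v : N7) (h : isPrim v) (R : Rg P.p) :
    EP P O base g v R = prim P O base v R := by
  induction g generalizing v R with
  | zero => rfl
  | succ g ih => exact FP_prim P O base hn (EP P O base g) ih P.U v h R

/-- The effect of `g` composite levels. -/
theorem EP_lev (hn : 0 < P.n) (hnp : P.n ≤ P.p) (hdeg : 7 * P.E * (P.n - 1) < P.p - 1)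
    (hb : ∀ q, base q < P.N) (hh : ∀ L q m a, O.h L q m a < P.N)
    (he : ∀ L q a, O.e L q a < P.N) (g β : ℕ) (hβ : β < g) (c j t : ℕ) (hc : c < P.N)
    (R : Rg P.p) : EP P O base g (7, β, P.b, 0, c, j, t) R =
      addB j ((t : ZMod P.p) • cv P.p P.n P.E (fineA O base (P.b * β + P.b) c)) R := by
  induction g generalizing β c j t R with
  | zero => omega
  | succ g ih =>
    have h1 := (block P O base hn hnp hdeg hb hh he (EP P O base g)
      (fun v hv R => EP_prim P O base hn g v hv R) β (fun j c t R hc => by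
        cases β with
        | zero =>
          unfold lowN
          rw [if_pos rfl, EP_prim P O base hn g _ (by unfold isPrim; norm_num), prim_6]
          rfl
        | succ β =>
          unfold lowN
          rw [if_neg (by omega), show β + 1 - 1 = β by omega, ih β (by omega) c j t hc R]
          rfl) P.U).2 P.b 0 c j t R le_rfl hc (by
            rw [Nat.sub_self, rk]
            unfold Par.U
            omega)
    rw [Nat.sub_self] at h1
    exact h1

end

end TV

end Pool.Agent.MP_6216ea_lc
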