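import Pool.Agent.Lib.MP_6216ea_lc.TVParC

/-! The search for a sufficient scale. -/

set_option autoImplicit false

namespace Pool.Agent.MP_6216ea_lc

namespace TV

open SP
open DU (lP bP gP lP_ge n_lt lb_aux)

variable {α : Type}

/-- The scale `S` is sufficient. -/
def Stop (A m : ℕ) (AN EX : List α → ℕ → ℕ) (x : List α) (S : ℕ) : Prop :=
  AN x S = 1 ∨ EX x S ≠ 1 ∨ gP m x.length ≤ Nat.log (WW A x.length) S

instance (A m : ℕ) (AN EX : List α → ℕ → ℕ) (x : List α) (S : ℕ) :
    Decidable (Stop A m AN EX x S) := by unfold Stop; infer_instance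

/-- The next scale. -/
def nextS (A m : ℕ) (AN EX : List α → ℕ → ℕ) (x : List α) (S : ℕ) : ℕ :=
  if Stop A m AN EX x S then S else S * WW A x.length

theorem exists_stop (A m : ℕ) (AN EX : List α → ℕ → ℕ) (x : List α) :
    ∃ g, 1 ≤ g ∧ Stop A m AN EX x (WW A x.length ^ g) := by
  refine ⟨gP m x.length, gP_pos _ _, Or.inr (Or.inr ?_)⟩
  have hW := WW_two A x.length
  rw [Nat.log_pow (by omega)]

/-- The number of composite levels which is reached. -/
noncomputable def gs (A m : ℕ) (AN EX : List α → ℕ → ℕ) (x : List α) : ℕ := by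
  classical exact Nat.find (exists_stop A m AN EX x)

section

variable (A m : ℕ) (AN EX : List α → ℕ → ℕ) (x : List α)

theorem gs_spec : 1 ≤ gs A m AN EX x ∧ Stop A m AN EX x (WW A x.length ^ gs A m AN EX x) := by
  classical
  exact Nat.find_spec (exists_stop A m AN EX x)

theorem gs_min {g : ℕ} (h1 : 1 ≤ g) (h2 : g < gs A m AN EX x) :
    ¬ Stop A m AN EX x (WW A x.length ^ g) := by
  classical
  intro h
  exact Nat.find_min (exists_stop A m AN EX x) h2 ⟨h1, h⟩

theorem gs_le : gs A m AN EX x ≤ gP m x.length := by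
  by_contra h
  refine gs_min A m AN EX x (gP_pos m x.length) (by omega) (Or.inr (Or.inr ?_))
  have hW := WW_two A x.length
  rw [Nat.log_pow (by omega)]

theorem itr_nextS (t : ℕ) : itr (fun _ S => nextS A m AN EX x S) (WW A x.length) t =
    WW A x.length ^ min (t + 1) (gs A m AN EX x) := by
  have hs := gs_spec A m AN EX x
  induction t with
  | zero =>
    rw [itr, min_eq_left hs.1, pow_one]
  | succ t ih =>
    rw [itr, ih]
    unfold nextS
    rcases Nat.lt_or_ge (t + 1) (gs A m AN EX x) with h | h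
    · rw [min_eq_left h.le, if_neg (gs_min A m AN EX x (by omega) h), min_eq_left (by omega)]
      exact (pow_succ _ _).symm
    · rw [min_eq_right h, if_pos hs.2, min_eq_right (by omega)]

end

/-- The search. -/
theorem loop_run (A m : ℕ) (AN EX : List α → ℕ → ℕ)
    (hAN : ∀ K : List α → ℕ, (∀ x, x.length ≤ K x) → Comp K fun x (S : ℕ) => AN x S)
    (hEX : ∀ K : List α → ℕ, (∀ x, x.length ≤ K x) → Comp K fun x (S : ℕ) => EX x S) :
    ∃ (c : Cmd α) (e : ℕ), ∀ x : List α, ∃ g, 1 ≤ g ∧ g ≤ gP m x.length ∧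
      Stop A m AN EX x (WW A x.length ^ g) ∧
      (∀ g', 1 ≤ g' → g' < g → ¬ Stop A m AN EX x (WW A x.length ^ g')) ∧
      Run x ((WW A x.length ^ g + 1) ^ e) c (fun _ => 0)
        (Function.update (fun _ => 0) 0 (AN x (WW A x.length ^ g))) := by
  obtain ⟨K, hKd⟩ : ∃ K : List α → ℕ, K = fun x => WW A x.length ^ gs A m AN EX x := ⟨_, rfl⟩
  have hWK : ∀ x : List α, WW A x.length ≤ K x := by
    intro x
    rw [hKd]
    exact Nat.le_self_pow (by have := (gs_spec A m AN EX x).1; omega) _
  have hK : ∀ x : List α, x.length ≤ K x := by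
    intro x
    refine le_trans ?_ (hWK x)
    refine (n_lt x.length).le.trans (Nat.pow_le_pow_right (by norm_num) ?_)
    exact Nat.le_mul_of_pos_left _ (by unfold cW; omega)
  have cA := hAN K hK
  have cE := hEX K hK
  have cW' : Comp K fun x (_ : Unit) => WW A x.length := comp_WW hK A
  have cstep : Comp K fun x (p : Unit × ℕ × ℕ) => nextS A m AN EX x p.2.2 := by
    have c2 : Comp K fun _ (p : Unit × ℕ × ℕ) => p.2.2 := Comp.id.snd.snd
    have cw : Comp K fun x (_ : Unit × ℕ × ℕ) => WW A x.length := comp_WW hK A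
    have h : CompP K fun x (p : Unit × ℕ × ℕ) => Stop A m AN EX x p.2.2 :=
      CompP.or (CompP.eq (cA.comp c2) (Comp.const 1))
        (CompP.or (CompP.ne (cE.comp c2) (Comp.const 1))
          (CompP.le (comp_gP hK m) (Comp.log cw c2)))
    exact Comp.ite h c2 (Comp.mul c2 cw)
  have citr : Comp K fun x (_ : Unit) =>
      itr (fun _ S => nextS A m AN EX x S) (WW A x.length) (gP m x.length) := by
    refine Comp.itr_nat (h := fun x (_ : Unit) _ S => nextS A m AN EX x S)
      (g := fun x _ => WW A x.length) (T := fun x _ => gP m x.length) (F := fun x _ => K x)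
      cstep cW' (comp_gP hK m) Bd.scale ?_
    intro x _ i _
    change itr (fun _ S => nextS A m AN EX x S) (WW A x.length) i ≤ K x
    rw [itr_nextS, hKd]
    exact Nat.pow_le_pow_right (by have := WW_two A x.length; omega) (min_le_right _ _)
  obtain ⟨c, e, hrun⟩ := (cA.comp citr).run
  refine ⟨c, e, fun x => ?_⟩
  have hg := gs_spec A m AN EX x
  have hle := gs_le A m AN EX x
  have h2 := hWK x
  have h3 := WW_two A x.length
  refine ⟨gs A m AN EX x, hg.1, hle, hg.2, fun g' h1 h2 => gs_min A m AN EX x h1 h2, ?_⟩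
  have h1 := hrun x (K x + 1) (by omega) (by omega)
  rw [itr_nextS, min_eq_right (by omega)] at h1
  have h4 : K x = WW A x.length ^ gs A m AN EX x := by rw [hKd]
  rw [h4] at h1
  exact h1

end TV

end Pool.Agent.MP_6216ea_lc
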