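import Pool.Agent.Lib.MP_6216ea_lc.TVLoop
import Pool.Agent.Lib.MP_6216ea_lc.TVHeadC
import Pool.Agent.Lib.MP_6216ea_lc.DLHeadN
import Pool.Agent.Lib.MP_6216ea_lc.RDNum

/-! The space depends on the number of turns. -/

set_option autoImplicit false

namespace Pool.Agent.MP_6216ea_lc

/-- The number of nodes of the program of a head automaton. -/
theorem HeadPDA.card_prog {α : Type} (M : HeadPDA α) (n : ℕ) :
    Fintype.card (M.prog n).S ≤ (3 * Fintype.card M.Q + 1) * (n + 1) ^ M.k := by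
  have h1 : Fintype.card (M.prog n).S = Fintype.card (M.Node n) := rfl
  rw [h1]
  simp only [HeadPDA.Node, Fintype.card_option, Fintype.card_sum, Fintype.card_prod,
    Fintype.card_fun, Fintype.card_fin]
  have h2 : 1 ≤ (n + 1) ^ M.k := Nat.one_le_pow _ _ (Nat.succ_pos n)
  nlinarith

namespace TV

open SP
open DU (NP Cod lP bP gP lP_ge n_lt lb_aux add_two_le headN_gen)

theorem gA_pow {A m n g : ℕ} (h1 : 1 ≤ g) (h2 : g ≤ gP m n) : gA A m n (WW A n ^ g) = g := by
  unfold gA
  rw [Nat.log_pow (by have := WW_two A n; omega)]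
  omega

theorem TA_pow {A m n g : ℕ} (h1 : 1 ≤ g) (h2 : g ≤ gP m n) :
    TA A m n (WW A n ^ g) = (2 ^ (bP n * g) - 1) / 4 := by
  unfold TA
  rw [gA_pow h1 h2]

/-- The exponent of the space. -/
theorem exp_bound {A m n g e t : ℕ} (hg : 1 ≤ g)
    (hb : bP n * (g - 1) ≤ (m + 1) * (t + 3)) :
    (WW A n ^ g + 1) ^ e ≤ 2 ^ (cW A * lP n * (g + 1) * e) ∧
    cW A * lP n * (g + 1) * e * (eP n + 1) ≤
      cW A * e * (24 * (m + 1) + 2) * lP n * ((eP n + 1) + t) := by
  constructor
  · have h1 : WW A n ^ g + 1 ≤ WW A n ^ (g + 1) := by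
      have h2 := WW_two A n
      have h3 : 1 ≤ WW A n ^ g := Nat.pow_pos (by omega)
      calc WW A n ^ g + 1 ≤ WW A n ^ g * 2 := by omega
        _ ≤ WW A n ^ g * WW A n := Nat.mul_le_mul_left _ h2
        _ = WW A n ^ (g + 1) := (pow_succ _ _).symm
    calc (WW A n ^ g + 1) ^ e ≤ (WW A n ^ (g + 1)) ^ e := Nat.pow_le_pow_left h1 e
      _ = 2 ^ (cW A * lP n * (g + 1) * e) := by
          unfold WW
          rw [← pow_mul, ← pow_mul]
          congr 1
          ring
  · obtain ⟨b, hbd⟩ : ∃ b, b = bP n := ⟨_, rfl⟩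
    obtain ⟨u, hu⟩ : ∃ u, u = eP n + 1 := ⟨_, rfl⟩
    obtain ⟨g₀, rfl⟩ : ∃ g₀, g = g₀ + 1 := ⟨g - 1, by omega⟩
    rw [Nat.add_sub_cancel] at hb
    have h8 : u ≤ 8 * b := by
      rw [hu, hbd]
      exact (lb_aux n).2.2.1
    have hu1 : 1 ≤ u := by omega
    rw [← hbd] at hb
    rw [← hu]
    have h1 : (g₀ + 1 + 1) * u ≤ (24 * (m + 1) + 2) * (u + t) := by
      calc (g₀ + 1 + 1) * u = g₀ * u + 2 * u := by ring
        _ ≤ g₀ * (8 * b) + 2 * u := Nat.add_le_add_right (Nat.mul_le_mul_left _ h8) _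
        _ = 8 * (b * g₀) + 2 * u := by ring
        _ ≤ 8 * ((m + 1) * (t + 3)) + 2 * u := by omega
        _ = 8 * (m + 1) * t + 24 * (m + 1) * 1 + 2 * u := by ring
        _ ≤ (24 * (m + 1) + 2) * t + 24 * (m + 1) * u + 2 * u := by
            refine Nat.add_le_add_right (Nat.add_le_add (Nat.mul_le_mul_right _ (by omega))
              (Nat.mul_le_mul_left _ hu1)) _
        _ = (24 * (m + 1) + 2) * (u + t) := by ring
    calc cW A * lP n * (g₀ + 1 + 1) * e * u = cW A * e * lP n * ((g₀ + 1 + 1) * u) := by ring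
      _ ≤ cW A * e * lP n * ((24 * (m + 1) + 2) * (u + t)) := Nat.mul_le_mul_left _ h1
      _ = cW A * e * (24 * (m + 1) + 2) * lP n * (u + t) := by ring

/-- The real bound. -/
theorem real_bound {n T c E X : ℕ} (hn : 3 ≤ n) (h1 : X ≤ 2 ^ E)
    (h2 : E * (eP n + 1) ≤ c * lP n * ((eP n + 1) + Nat.clog 2 T)) :
    (X : ℝ) ≤ (n : ℝ) ^ ((16 * c : ℝ) * (1 + Real.log T / Real.log (Real.log n))) := by
  obtain ⟨l, hl⟩ : ∃ l, l = Nat.clog 2 n := ⟨_, rfl⟩
  obtain ⟨e, he⟩ : ∃ e, e = Nat.log 2 l := ⟨_, rfl⟩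
  have hlog : Nat.log 2 n ≤ l := by
    rw [hl]
    exact Nat.log_le_clog 2 n
  have hl2 : 2 ≤ l := by
    rw [hl]
    have h3 : 2 ^ 1 < n := by omega
    exact (Nat.lt_clog_iff_pow_lt (by norm_num)).2 h3
  have hlP : lP n ≤ 2 * l := by
    unfold lP
    omega
  have hlP' : l ≤ lP n := by
    rw [hl]
    unfold lP
    have := Nat.lt_pow_succ_log_self (b := 2) (by norm_num) n
    refine (Nat.clog_le_iff_le_pow (by norm_num)).2 (this.le.trans ?_)
    exact Nat.pow_le_pow_right (by norm_num) (by omega)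
  have he1 : e ≤ eP n := by
    rw [he]
    exact Nat.log_mono_right hlP'
  have he2 : eP n ≤ e + 1 := by
    rw [he]
    have h3 : Nat.log 2 (lP n) ≤ Nat.log 2 (2 * l) := Nat.log_mono_right hlP
    have h4 : Nat.log 2 (2 * l) = Nat.log 2 l + 1 := by
      rw [Nat.mul_comm]
      exact Nat.log_mul_base (by norm_num) (by omega)
    unfold eP
    omega
  have h3 : E * (e + 1) ≤ (4 * c) * l * ((e + 1) + Nat.clog 2 T) := by
    calc E * (e + 1) ≤ E * (eP n + 1) := Nat.mul_le_mul_left _ (by omega)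
      _ ≤ c * lP n * ((eP n + 1) + Nat.clog 2 T) := h2
      _ ≤ c * (2 * l) * (2 * ((e + 1) + Nat.clog 2 T)) :=
          Nat.mul_le_mul (Nat.mul_le_mul_left _ hlP) (by omega)
      _ = (4 * c) * l * ((e + 1) + Nat.clog 2 T) := by ring
  have h4 := Reg.real_bound_T (4 * c) n T l E e (Nat.clog 2 T) X hn hl he rfl h1 h3
  push_cast at h4
  rw [show (16 * c : ℝ) = 4 * (4 * c) by ring]
  exact h4

theorem log_succ_le (T : ℕ) {a : ℕ} (h : 2 ^ a ≤ 4 * T + 4) : a ≤ Nat.clog 2 T + 3 := by
  have h1 : T ≤ 2 ^ Nat.clog 2 T := Nat.le_pow_clog (by norm_num) T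
  have h2 : 1 ≤ 2 ^ Nat.clog 2 T := Nat.one_le_two_pow
  have h3 : 2 ^ a ≤ 2 ^ (Nat.clog 2 T + 3) := by
    rw [pow_add]
    omega
  exact (Nat.pow_le_pow_iff_right (by norm_num)).1 h3

/-- **Deterministic context-free languages: the space depends on the number of turns.** -/
theorem turns_main {α β : Type} [Finite β] (M : DetPDA β) {f : List α → List β}
    (hf : LogSpace f) :
    ∃ (c : Cmd α) (C : ℝ), ∀ x : List α, 3 ≤ x.length → ∃ (B : ℕ) (t : ℕ → ℕ),
      Run x B c (fun _ => 0) t ∧ t 0 ≤ 1 ∧ (t 0 = 1 ↔ M.Accepts (f x)) ∧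
      ∀ T : ℕ, (x.length ≤ T ∨ M.TurnsLe (f x) T) →
        (B : ℝ) ≤ (x.length : ℝ) ^ (C * (1 + Real.log T / Real.log (Real.log x.length))) := by
  obtain ⟨M', C₀, hk, hsound, hcompl, hturns⟩ := M.exists_turn
  obtain ⟨N, cd, la, a, ha, hcod, hcomp⟩ := headN_gen M'
  have hlen : ∃ k, ∀ x, (f x).length < (x.length + 2) ^ k := by
    obtain ⟨_, _, k, _, h⟩ := hf
    exact ⟨k, fun x => (h x).1⟩
  obtain ⟨k, hkf⟩ := hlen
  obtain ⟨a', had⟩ : ∃ a', a' = a + (3 * Fintype.card M'.Q + 1) := ⟨_, rfl⟩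
  obtain ⟨m, hm⟩ : ∃ m, m = 8 * C₀ + 1 + k := ⟨_, rfl⟩
  obtain ⟨c, hc⟩ : ∃ c, c = m + 1 + (a' + k) := ⟨_, rfl⟩
  obtain ⟨A, hA⟩ : ∃ A, A = 12 * c + 2 * m + 9 := ⟨_, rfl⟩
  -- the lengths
  have hy : ∀ x : List α, (f x).length + 1 ≤ 2 ^ (lP x.length * k) := by
    intro x
    rw [pow_mul]
    exact (hkf x).trans_le (Nat.pow_le_pow_left (add_two_le x.length) _)
  have hR : ∀ x : List α, a' * ((f x).length + 1) < 2 ^ (c * lP x.length) := by
    intro x
    have h1 : a' < 2 ^ a' := Nat.lt_two_pow_self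
    have h2 := hy x
    have hl := lP_ge x.length
    calc a' * ((f x).length + 1) < 2 ^ a' * ((f x).length + 1) :=
          Nat.mul_lt_mul_of_pos_right h1 (Nat.succ_pos _)
      _ ≤ 2 ^ a' * 2 ^ (lP x.length * k) := Nat.mul_le_mul_left _ h2
      _ = 2 ^ (a' + lP x.length * k) := (pow_add _ _ _).symm
      _ ≤ 2 ^ (c * lP x.length) := by
          refine Nat.pow_le_pow_right (by norm_num) ?_
          rw [hc]
          have h3 : a' * 1 ≤ a' * lP x.length := Nat.mul_le_mul_left _ (by omega)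
          calc a' + lP x.length * k = a' * 1 + k * lP x.length := by ring
            _ ≤ a' * lP x.length + k * lP x.length := Nat.add_le_add_right h3 _
            _ = (a' + k) * lP x.length := by ring
            _ ≤ (m + 1 + (a' + k)) * lP x.length := Nat.mul_le_mul_right _ (by omega)
  -- the answers
  obtain ⟨AN, hAN⟩ : ∃ AN : List α → ℕ → ℕ, AN = fun x S =>
    ansT (N (f x).length) (fun i => la (f x)[i]?) false A c m x.length S := ⟨_, rfl⟩
  obtain ⟨EX, hEX⟩ : ∃ EX : List α → ℕ → ℕ, EX = fun x S =>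
    ansT (N (f x).length) (fun i => la (f x)[i]?) true A c m x.length S := ⟨_, rfl⟩
  have hspec : ∀ x S, AN x S ≤ 1 ∧
      (AN x S = 1 ↔ (M'.prog (f x).length).AcceptsTurns (f x).get (TA A m x.length S)) ∧
      EX x S ≤ 1 ∧
      (EX x S = 1 ↔ (M'.prog (f x).length).Exceeds (f x).get (TA A m x.length S)) := by
    intro x S
    rw [hAN, hEX]
    refine ansT_spec (hcod (f x)) S ?_ ?_ (by omega) (by omega)
    · have h1 := hR x
      have h2 : a * ((f x).length + 1) ≤ a' * ((f x).length + 1) :=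
        Nat.mul_le_mul_right _ (by omega)
      rw [hk, pow_one]
      omega
    · have h1 := hR x
      have h2 := M'.card_prog (f x).length
      have h3 : (3 * Fintype.card M'.Q + 1) * ((f x).length + 1) ≤ a' * ((f x).length + 1) :=
        Nat.mul_le_mul_right _ (by omega)
      rw [hk, pow_one] at h2
      omega
  have hcmp : ∀ (ov : Bool) (K : List α → ℕ), (∀ x, x.length ≤ K x) →
      Comp K fun x (S : ℕ) =>
        ansT (N (f x).length) (fun i => la (f x)[i]?) ov A c m x.length S := by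
    intro ov K hK
    obtain ⟨hla, hfl⟩ := logSpace_comp hK hf la
    obtain ⟨h1, h2, h3, h4, h5, h6⟩ := hcomp α K (fun x => (f x).length) hfl
    have hN : NS' K fun x (_ : ℕ) => N (f x).length :=
      ⟨⟨h1.comp Comp.id.snd, h2.comp Comp.id.snd, h3.comp Comp.id.snd, h4.comp Comp.id.snd⟩,
        h5.comp Comp.id.snd, h6.comp (Comp.const ())⟩
    exact comp_ansT hK hN (lt := fun x _ i => la (f x)[i]?) (hla.comp Comp.id.snd) ov A c m
      Comp.id
  obtain ⟨cc, e, hrun⟩ := loop_run A m AN EX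
    (fun K hK => by rw [hAN]; exact hcmp false K hK)
    (fun K hK => by rw [hEX]; exact hcmp true K hK)
  refine ⟨cc, 16 * (cW A * e * (24 * (m + 1) + 2) : ℕ), fun x hx => ?_⟩
  obtain ⟨g, hg1, hg2, hstop, hmin, hr⟩ := hrun x
  refine ⟨(WW A x.length ^ g + 1) ^ e, _, hr, ?_, ?_, ?_⟩
  · rw [Function.update_self]
    exact (hspec x _).1
  · rw [Function.update_self]
    obtain ⟨-, h1, -, h2⟩ := hspec x (WW A x.length ^ g)
    constructor
    · intro h
      exact hsound (f x) _ (h1.1 h)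
    · intro h
      have h3 := hcompl (f x) h
      rcases hstop with h4 | h4 | h4
      · exact h4
      · rw [h1]
        obtain ⟨k', -, b, s, z, h5, h6⟩ := h3
        refine ⟨k', ?_, b, s, z, h5, h6⟩
        by_contra h7
        exact h4 (h2.2 ⟨k', b, s, z, h5, by omega⟩)
      · rw [h1]
        obtain ⟨k', hk', b, s, z, h5, h6⟩ := h3
        refine ⟨k', hk'.trans ?_, b, s, z, h5, h6⟩
        rw [Nat.log_pow (by have := WW_two A x.length; omega)] at h4
        have h7 : g = gP m x.length := le_antisymm hg2 h4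
        rw [TA_pow hg1 hg2, h7]
        have h8 : 2 ^ (m * lP x.length) ≤ 2 ^ (bP x.length * gP m x.length) :=
          Nat.pow_le_pow_right (by norm_num) (DU.bg_ge m x.length)
        have h9 : 4 * (C₀ * ((f x).length + 2)) + 1 ≤ 2 ^ (m * lP x.length) := by
          have h10 := hy x
          have h11 : 1 ≤ 2 ^ (lP x.length * k) := Nat.one_le_two_pow
          have h12 : 8 * C₀ + 1 < 2 ^ (8 * C₀ + 1) := Nat.lt_two_pow_self
          have hl := lP_ge x.length
          calc 4 * (C₀ * ((f x).length + 2)) + 1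
              ≤ 4 * (C₀ * (2 * 2 ^ (lP x.length * k))) + 2 ^ (lP x.length * k) := by
                refine Nat.add_le_add (Nat.mul_le_mul_left _ (Nat.mul_le_mul_left _ ?_)) h11
                omega
            _ = (8 * C₀ + 1) * 2 ^ (lP x.length * k) := by ring
            _ ≤ 2 ^ (8 * C₀ + 1) * 2 ^ (lP x.length * k) := Nat.mul_le_mul_right _ h12.le
            _ = 2 ^ (8 * C₀ + 1 + lP x.length * k) := (pow_add _ _ _).symm
            _ ≤ 2 ^ (m * lP x.length) := by
                refine Nat.pow_le_pow_right (by norm_num) ?_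
                rw [hm]
                calc 8 * C₀ + 1 + lP x.length * k = (8 * C₀ + 1) * 1 + k * lP x.length := by ring
                  _ ≤ (8 * C₀ + 1) * lP x.length + k * lP x.length :=
                      Nat.add_le_add_right (Nat.mul_le_mul_left _ (by omega)) _
                  _ = (8 * C₀ + 1 + k) * lP x.length := by ring
        omega
  · intro T hT
    have hb : bP x.length * (g - 1) ≤ (m + 1) * (Nat.clog 2 T + 3) := by
      rcases Nat.lt_or_ge g 2 with h1 | h1
      · have h2 : g - 1 = 0 := by omega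
        rw [h2, Nat.mul_zero]
        exact Nat.zero_le _
      · rcases hT with h2 | h2
        · -- the input is not longer than the bound
          have h3 : bP x.length * (g - 1) ≤ m * lP x.length := by
            have h4 : g - 1 ≤ m * lP x.length / bP x.length := by
              unfold gP at hg2
              omega
            exact (Nat.mul_le_mul_left _ h4).trans (Nat.mul_div_le _ _)
          have h4 : lP x.length ≤ Nat.clog 2 T + 3 := by
            have h5 : Nat.log 2 x.length ≤ Nat.clog 2 T :=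
              (Nat.log_mono_right h2).trans (Nat.log_le_clog 2 T)
            unfold lP
            omega
          calc bP x.length * (g - 1) ≤ m * lP x.length := h3
            _ ≤ (m + 1) * (Nat.clog 2 T + 3) := Nat.mul_le_mul (by omega) h4
        · have h3 := hmin (g - 1) (by omega) (by omega)
          have h4 : EX x (WW A x.length ^ (g - 1)) = 1 := by
            by_contra h5
            exact h3 (Or.inr (Or.inl h5))
          obtain ⟨-, -, -, h5⟩ := hspec x (WW A x.length ^ (g - 1))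
          obtain ⟨k', b, s, z, h6, h7⟩ := h5.1 h4
          have h8 := hturns (f x) T h2 k' b s z h6
          rw [TA_pow (by omega) (by omega)] at h7
          have h9 : bP x.length * (g - 1) ≤ Nat.clog 2 T + 3 := log_succ_le T (by omega)
          refine h9.trans (Nat.le_mul_of_pos_left _ (Nat.succ_pos _))
    obtain ⟨h1, h2⟩ := exp_bound (A := A) (e := e) hg1 hb
    exact real_bound hx h1 h2

end TV

end Pool.Agent.MP_6216ea_lc
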