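import Pool.Agent.Lib.MP_6216ea_lc.TVGen
import Pool.Agent.Lib.MP_6216ea_lc.TVGrid
import Pool.Agent.Lib.MP_6216ea_lc.DUReg
import Pool.Agent.Lib.MP_6216ea_lc.DUStep

/-! The algorithm with eight registers: nodes and their effect. -/

set_option autoImplicit false

namespace Pool.Agent.MP_6216ea_lc

namespace TV

open DU (Rg addB mulB runN runN_zero runN_succ runN_congr runN_add runN_mul runN_first runN_addB
  One fineA fs fs_ge)
open DU.Nm (pack pack_digit pack_lt invN invN_cast)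

/-- The parameters: the prime `p`, the number `n` of points of the grid, the number `E` of digits
of a number, the number `b` of levels of a composite level. -/
structure Par where
  p : ℕ
  n : ℕ
  E : ℕ
  b : ℕ

/-- The numbers of the recursion are smaller. -/
def Par.N (P : Par) : ℕ := P.n ^ P.E

/-- Nodes: kind (`0` idle, `1` scale all blocks but `j`, `2` scale block `j`, `3` add a multiple of
a block, `4` local value, `5` constant, `6` lowest level, `7` value of a level, `8` operand, `9`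
loop over all questions), composite level, level in it, path, constant, block `j`, scalar. -/
abbrev N7 : Type := ℕ × ℕ × ℕ × ℕ × ℕ × ℕ × ℕ

/-- The idle node. -/
def idN : N7 := (0, 0, 0, 0, 0, 0, 0)

/-- The block of operand `k` when the target is block `j`. -/
def sA (j k : ℕ) : ℕ := if k < j then k else k + 1

/-- The operand of a block. -/
def uA (j i : ℕ) : ℕ := if i < j then i else i - 1

/-- The negative modulo `p`. -/
def ngN (p t : ℕ) : ℕ := p - t % p

/-- The operand node. -/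
def opN (b β s w c j t : ℕ) : N7 := if s < b then (8, β, s, w, c, j, t) else (5, 0, 0, 0, c, j, t)

/-- The value of the next lower composite level. -/
def lowN (b β c j t : ℕ) : N7 := if β = 0 then (6, 0, 0, 0, c, j, t) else (7, β - 1, b, 0, c, j, t)

/-- The child `m` of operand `k`; `w` is the path of the question. -/
def slotO (p b β s w k c j t m : ℕ) : N7 :=
  if m % 17 = 0 then (1, 0, 0, 0, 0, j, m / 17 + 1)
  else if m % 17 < 7 then
    (if m % 17 - 1 < k then (7, β, s, 7 * w + (m % 17 - 1), c, sA j (m % 17 - 1), 1) else idN)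
  else if m % 17 = 7 then opN b β (s + 1) w c (sA j 6) 1
  else if m % 17 = 8 then (4, β, s, k, 0, j, ngN p t)
  else if m % 17 < 15 then
    (if m % 17 - 9 < k then (7, β, s, 7 * w + (m % 17 - 9), c, sA j (m % 17 - 9), ngN p 1)
      else idN)
  else if m % 17 = 15 then opN b β (s + 1) w c (sA j 6) (ngN p 1)
  else (1, 0, 0, 0, 0, j, invN p (m / 17 + 1))

/-- The child `m` of the value of the lowest level of a composite level. -/
def slotA (p b β w c j t m : ℕ) : N7 :=
  if m % 17 = 0 then (2, 0, 0, 0, 0, sA j 0, m / 17 + 1)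
  else if m % 17 = 1 then opN b β 0 w c (sA j 0) 1
  else if m % 17 = 2 then (9, β, 0, 0, 0, j, t)
  else if m % 17 = 3 then opN b β 0 w c (sA j 0) (ngN p 1)
  else if m % 17 = 4 then (2, 0, 0, 0, 0, sA j 0, invN p (m / 17 + 1))
  else idN

/-- The child for a digit of the first kind. -/
def ch1 (p b : ℕ) (v : N7) (m : ℕ) : N7 :=
  if v.1 = 7 then
    (if v.2.2.1 = 0 then slotA p b v.2.1 v.2.2.2.1 v.2.2.2.2.1 v.2.2.2.2.2.1 v.2.2.2.2.2.2 m
      else slotO p b v.2.1 (v.2.2.1 - 1) v.2.2.2.1 6 v.2.2.2.2.1 v.2.2.2.2.2.1 v.2.2.2.2.2.2 m)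
  else if v.1 = 8 then
    slotO p b v.2.1 v.2.2.1 (v.2.2.2.1 / 7) (v.2.2.2.1 % 7) v.2.2.2.2.1 v.2.2.2.2.2.1
      v.2.2.2.2.2.2 m
  else if m = 0 then v else idN

/-- The child for a digit of the second kind. -/
def ch2 (p b : ℕ) (v : N7) (m : ℕ) : N7 :=
  if v.1 = 9 then
    (if m % 4 = 0 then (3, 0, 0, 0, m / 4, v.2.2.2.2.2.1, v.2.2.2.2.2.2)
      else if m % 4 = 1 then lowN b v.2.1 (m / 4) (sA v.2.2.2.2.2.1 1) 1
      else if m % 4 = 2 then (3, 0, 0, 0, m / 4, v.2.2.2.2.2.1, ngN p v.2.2.2.2.2.2)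
      else lowN b v.2.1 (m / 4) (sA v.2.2.2.2.2.1 1) (ngN p 1))
  else if m = 0 then v else idN

variable {p : ℕ}

/-- The code of a number. -/
def cv (p n E a : ℕ) : ℕ → ZMod p := fun u => if u < E then gv p n a u else 0

/-- The numbers coded by `e`. -/
def yn (N e k : ℕ) : ℕ := e / N ^ k % N

/-- The operand `k`. -/
def phi (O : One) (L k q : ℕ) (y : ℕ → ℕ) : ℕ := if k = 6 then O.e L q y else O.h L q k y

/-- The operands as one vector. -/
def opd (E k j : ℕ) (R : Rg p) : ℕ → ZMod p :=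
  fun i => if i < 7 * E ∧ (i / E < k ∨ i / E = 6) then R (sA j (i / E)) (i % E) else 0

/-- The extension of the indicator of `c`. -/
def ind (p n E c : ℕ) (r : ℕ → ZMod p) : ZMod p :=
  ∏ i ∈ Finset.range E, lg p n (c / n ^ i % n) (r i)

/-- The extension of digit `u` of operand `k`. -/
def locE (P : Par) (O : One) (L k j : ℕ) (R : Rg P.p) (u : ℕ) : ZMod P.p :=
  gext P.p P.n (7 * P.E) (fun e => cv P.p P.n P.E (phi O L k (yn P.N e 6)
    (fun m => if m = 6 then 0 else yn P.N e m)) u) (opd P.E k j R)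

/-- Scale all blocks but `j`. -/
def mulA (j : ℕ) (t : ZMod p) (R : Rg p) : Rg p := fun i => if i = j then R i else t • R i

/-- The elementary steps. -/
def prim (P : Par) (O : One) (base : ℕ → ℕ) (v : N7) (R : Rg P.p) : Rg P.p :=
  if v.1 = 1 then mulA v.2.2.2.2.2.1 (v.2.2.2.2.2.2 : ZMod P.p) R
  else if v.1 = 2 then mulB v.2.2.2.2.2.1 (v.2.2.2.2.2.2 : ZMod P.p) R
  else if v.1 = 3 then addB v.2.2.2.2.2.1 (((v.2.2.2.2.2.2 : ZMod P.p) *
    ind P.p P.n P.E v.2.2.2.2.1 (R (sA v.2.2.2.2.2.1 0))) • R (sA v.2.2.2.2.2.1 1)) R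
  else if v.1 = 4 then addB v.2.2.2.2.2.1 ((v.2.2.2.2.2.2 : ZMod P.p) •
    locE P O (P.b * v.2.1 + v.2.2.1) v.2.2.2.1 v.2.2.2.2.2.1 R) R
  else if v.1 = 5 then addB v.2.2.2.2.2.1 ((v.2.2.2.2.2.2 : ZMod P.p) •
    cv P.p P.n P.E v.2.2.2.2.1) R
  else if v.1 = 6 then addB v.2.2.2.2.2.1 ((v.2.2.2.2.2.2 : ZMod P.p) •
    cv P.p P.n P.E (base v.2.2.2.2.1)) R
  else R

/-! ### Elementary facts -/

theorem sA_ne (j k : ℕ) : sA j k ≠ j := by unfold sA; split_ifs <;> omega

theorem uA_sA (j k : ℕ) : uA j (sA j k) = k := by unfold uA sA; split_ifs <;> omega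

theorem sA_uA {j i : ℕ} (h : i ≠ j) : sA j (uA j i) = i := by unfold uA sA; split_ifs <;> omega

theorem sA_le {j k : ℕ} (hk : k ≤ 6) : sA j k ≤ 7 := by unfold sA; split_ifs <;> omega

theorem sA_inj {j k k' : ℕ} (h : sA j k = sA j k') : k = k' := by
  rw [← uA_sA j k, h, uA_sA]

theorem ngN_cast (hp : 0 < p) (t : ℕ) : ((ngN p t : ℕ) : ZMod p) = -(t : ZMod p) := by
  unfold ngN
  rw [Nat.cast_sub (Nat.mod_lt _ hp).le, ZMod.natCast_self, ZMod.natCast_mod, zero_sub]

theorem digit_yn (n E e i : ℕ) (hi : i < 7 * E) :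
    e / n ^ i % n = (yn (n ^ E) e (i / E)) / n ^ (i % E) % n := by
  have hE : 0 < E := by
    rcases Nat.eq_zero_or_pos E with h | h
    · subst h; simp at hi
    · exact h
  have h1 : n ^ i = (n ^ E) ^ (i / E) * n ^ (i % E) := by
    rw [← pow_mul, ← pow_add, Nat.div_add_mod]
  rw [h1, ← Nat.div_div_eq_div_mul]
  apply DU.digit_of_mod
  unfold yn
  rw [Nat.mod_mod_of_dvd _ (pow_dvd_pow n (Nat.mod_lt i hE))]

end TV

end Pool.Agent.MP_6216ea_lc
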