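import Pool.Agent.Lib.MP_6216ea_lc.OPWalk

/-! Steps without the stack are summarised by one letter, for any number of iterations. -/

set_option autoImplicit false

namespace Pool.Agent.MP_6216ea_lc

namespace PushProg

variable {ι α : Type} (P : PushProg ι α) (x : ι → α)

theorem smF_one (F : P.S → P.S) {t : ℕ} {v : P.sm.S} {z : List P.Γ}
    (h : P.sm.conf F t P.sm.start [] = some (v, z)) :
    P.sm.conf F (t + 1) P.sm.start [] = P.sm.next F v z := by
  rw [P.sm.conf_add' F h 1]
  simp only [conf]
  cases P.sm.next F v z <;> rfl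

/-- The summary program simulates the program, or it has accepted. -/
theorem smF_of_reach {F : P.S → P.S} (H1 : ∀ s m, P.act ((P.wk x)^[m] s) = true → F s = (P.wk x)^[m] s) {k : ℕ} {s : P.S} {z : List P.Γ} (h : P.Reach x k s z) :
    (∃ t ≤ 2 * k + 1, ∃ v z', P.sm.conf F t P.sm.start [] = some (v, z') ∧
      P.sm.acc v = true) ∨
    ∃ s₀ m, P.sm.conf F (2 * k) P.sm.start [] = some (.inl s₀, z) ∧
      (P.wk x)^[m] s₀ = s := by
  induction h with
  | start => exact Or.inr ⟨P.start, 0, rfl, rfl⟩
  | @move k s s' z z' h1 h2 h3 ih =>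
    rcases ih with ih | ⟨s₀, m, ih, hm⟩
    · exact Or.inl ih
    · by_cases ha : P.act s = true
      · left
        have hacc : P.acc s = true := by
          unfold act at ha
          rw [h2] at ha
          simpa using ha
        have hf : F s₀ = s := by rw [H1 s₀ m (by rw [hm]; exact ha), hm]
        refine ⟨2 * k + 1, le_rfl, .inr s, z, ?_, hacc⟩
        rw [P.smF_one F ih]
        change some (Sum.inr (F s₀), z) = _
        rw [hf]
        rfl
      · obtain ⟨h4, rfl⟩ := P.wk_next x (by simpa using ha) h3
        refine Or.inr ⟨s₀, m + 1, ih, ?_⟩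
        rw [Function.iterate_succ_apply', hm, h4]
  | @op k s s' z z' h1 h2 h3 ih =>
    rcases ih with ⟨t, ht, ih⟩ | ⟨s₀, m, ih, hm⟩
    · exact Or.inl ⟨t, by omega, ih⟩
    · have ha : P.act s = true := by unfold act; rw [h2]; simp
      have hf : F s₀ = s := by rw [H1 s₀ m (by rw [hm]; exact ha), hm]
      have h5 : P.sm.conf F (2 * k + 1) P.sm.start [] = some (.inr s, z) := by
        rw [P.smF_one F ih]
        change some (Sum.inr (F s₀), z) = _
        rw [hf]
        rfl
      refine Or.inr ⟨s', 0, ?_, rfl⟩
      rw [show 2 * (k + 1) = 2 * k + 1 + 1 by ring, P.smF_one F h5]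
      cases hi : P.instr s with
      | jump s'' => rw [hi] at h2; exact absurd h2 (by simp [PInstr.isStack])
      | read i f => rw [hi] at h2; exact absurd h2 (by simp [PInstr.isStack])
      | push g s'' =>
        rw [P.next_push x hi] at h3
        simp only [Option.some.injEq, Prod.mk.injEq] at h3
        rw [← h3.1, ← h3.2]
        exact P.sm.next_push F (P.sm_push hi) z
      | pop f =>
        cases z with
        | nil => rw [P.next_pop_nil x hi] at h3; cases h3
        | cons g z =>
          rw [P.next_pop x hi] at h3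
          simp only [Option.some.injEq, Prod.mk.injEq] at h3
          rw [← h3.1, ← h3.2]
          exact P.sm.next_pop F (P.sm_pop hi) g z

/-- Converse. -/
theorem reach_of_smF {F : P.S → P.S} (H2 : ∀ s, ∃ m, F s = (P.wk x)^[m] s) (t : ℕ) : ∀ (v : P.sm.S) (z : List P.Γ),
    P.sm.conf F t P.sm.start [] = some (v, z) →
    (∀ s, v = .inl s → ∃ k, 2 * k ≤ t ∧ P.Reach x k s z) ∧
    (∀ s, v = .inr s → ∃ k, 2 * k + 1 ≤ t ∧ P.Reach x k s z) := by
  induction t with
  | zero =>
    intro v z h
    obtain ⟨h1, h2⟩ := Prod.mk.inj (Option.some.inj h)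
    subst h2
    rw [← h1]
    constructor
    · intro s hs
      have : P.start = s := Sum.inl.inj hs
      exact ⟨0, le_rfl, this ▸ .start⟩
    · intro s hs
      cases hs
  | succ t ih =>
    intro v z h
    rw [P.sm.conf_add F t 1] at h
    cases hc : P.sm.conf F t P.sm.start [] with
    | none => rw [hc] at h; cases h
    | some c =>
      obtain ⟨v', z'⟩ := c
      have h6 := P.smF_one F hc
      rw [P.sm.conf_add F t 1, h] at h6
      obtain ⟨ihl, ihr⟩ := ih v' z' hc
      rcases v' with s₁ | s₁
      · obtain ⟨k, hk, hr⟩ := ihl s₁ rfl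
        have h7 : (v, z) = (Sum.inr (F s₁), z') := Option.some.inj h6
        obtain ⟨h8, h9⟩ := Prod.mk.inj h7
        subst h8
        subst h9
        constructor
        · intro s hs; cases hs
        · intro s hs
          have : F s₁ = s := Sum.inr.inj hs
          subst this
          obtain ⟨m₁, hm₁⟩ := H2 s₁
          exact ⟨k, by omega, by rw [hm₁]; exact P.reach_wk_iter x hr m₁⟩
      · obtain ⟨k, hk, hr⟩ := ihr s₁ rfl
        have key : ∀ {w : P.sm.S} {z'' : List P.Γ}, P.sm.next F (Sum.inr s₁) z' =
            some (w, z'') → v = w ∧ z = z'' := by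
          intro w z'' h7
          exact Prod.mk.inj (Option.some.inj (h6.trans h7))
        by_cases hst : (P.instr s₁).isStack = true
        · cases hi : P.instr s₁ with
          | jump s'' => rw [hi] at hst; exact absurd hst (by simp [PInstr.isStack])
          | read i f => rw [hi] at hst; exact absurd hst (by simp [PInstr.isStack])
          | push g s'' =>
            obtain ⟨rfl, rfl⟩ := key (P.sm.next_push F (P.sm_push hi) z')
            constructor
            · intro s hs
              have : s'' = s := Sum.inl.inj hs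
              subst this
              exact ⟨k + 1, by omega, .op hr hst (P.next_push x hi z')⟩
            · intro s hs; cases hs
          | pop f =>
            cases z' with
            | nil =>
              rw [P.sm.next_pop_nil F (P.sm_pop hi)] at h6
              cases h6
            | cons g z' =>
              obtain ⟨rfl, rfl⟩ := key (P.sm.next_pop F (P.sm_pop hi) g z')
              constructor
              · intro s hs
                have : f g = s := Sum.inl.inj hs
                subst this
                exact ⟨k + 1, by omega, .op hr hst (P.next_pop x hi g _)⟩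
              · intro s hs; cases hs
        · obtain ⟨rfl, rfl⟩ := key (P.sm.next_jump F
            (P.sm_stay (by simpa using hst)) z')
          constructor
          · intro s hs; cases hs
          · intro s hs
            have : s₁ = s := Sum.inr.inj hs
            subst this
            exact ⟨k, by omega, hr⟩

theorem smF_accepts {F : P.S → P.S} (H1 : ∀ s m, P.act ((P.wk x)^[m] s) = true → F s = (P.wk x)^[m] s)
    (H2 : ∀ s, ∃ m, F s = (P.wk x)^[m] s) (T : ℕ) : P.sm.AcceptsIn F (2 * T + 1) ↔ P.AcceptsOps x T := by
  constructor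
  · rintro ⟨t, ht, v, z, h, hv⟩
    rcases v with s | s
    · cases hv
    · obtain ⟨k, hk, hr⟩ := (P.reach_of_smF x H2 t _ z h).2 s rfl
      exact ⟨k, by omega, s, z, hr, hv⟩
  · rintro ⟨k, hk, s, z, h, hs⟩
    rcases P.smF_of_reach x H1 h with ⟨t, ht, v, z', h1, h2⟩ | ⟨s₀, m, h1, h2⟩
    · exact ⟨t, by omega, v, z', h1, h2⟩
    · have ha : P.act ((P.wk x)^[m] s₀) = true := by rw [h2]; unfold act; rw [hs]; rfl
      refine ⟨2 * k + 1, by omega, .inr s, z, ?_, hs⟩
      rw [P.smF_one F h1]
      change some (Sum.inr (F s₀), z) = _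
      rw [H1 s₀ m ha, h2]
      rfl

/-- Enough iterations. -/
theorem iter_accepts (T W : ℕ) (hW : Fintype.card P.S ≤ W) :
    P.sm.AcceptsIn ((P.wk x)^[W]) (2 * T + 1) ↔ P.AcceptsOps x T := by
  refine P.smF_accepts x (fun s m h => ?_) (fun s => ⟨W, rfl⟩) T
  obtain ⟨d, rfl⟩ := Nat.exists_eq_add_of_le hW
  have h1 : P.fin' x s = (P.wk x)^[m] s := P.fin_of_act x h
  rw [Nat.add_comm, Function.iterate_add_apply]
  change (P.wk x)^[d] (P.fin' x s) = _
  rw [h1, P.wk_iter_act x h]

end PushProg

end Pool.Agent.MP_6216ea_lc
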