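import Pool.Agent.Lib.MP_6216ea_lc.TVComp
import Pool.Agent.Lib.MP_6216ea_lc.TVWalk
import Pool.Agent.Lib.MP_6216ea_lc.TVAns

/-! The numeric programs of the simulating program and of the summary program. -/

set_option autoImplicit false
set_option linter.unusedSimpArgs false

namespace Pool.Agent.MP_6216ea_lc

namespace TV

open SP
open DU (NP NC Cod)

/-- The fields of a node. -/
def vi (R v : ℕ) : ℕ := v % R

def vu (R v : ℕ) : ℕ := v / R % R

def vm (R v : ℕ) : ℕ := v / R / R % R

def vb (R v : ℕ) : ℕ := v / R / R / R % R

def va (R v : ℕ) : ℕ := v / R / R / R / R % R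

def vk (R v : ℕ) : ℕ := v / R / R / R / R / R % R

def vt (R v : ℕ) : ℕ := v / R / R / R / R / R / R

/-- The number of a node. -/
def vmk (R t k a b m u i : ℕ) : ℕ := (((((t * R + k) * R + a) * R + b) * R + m) * R + u) * R + i

theorem md1 {R i : ℕ} (w : ℕ) (h : i < R) : (w * R + i) / R = w := by
  rw [Nat.add_comm, Nat.add_mul_div_right _ _ (by omega), Nat.div_eq_of_lt h, Nat.zero_add]

theorem md2 {R i : ℕ} (w : ℕ) (h : i < R) : (w * R + i) % R = i := by
  rw [Nat.add_comm, Nat.add_mul_mod_self_right, Nat.mod_eq_of_lt h]

section

variable {R t k a b m u i : ℕ} (hk : k < R) (ha : a < R) (hb : b < R) (hm : m < R) (hu : u < R)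
  (hi : i < R)

include hi in
theorem vi_mk : vi R (vmk R t k a b m u i) = i := by
  unfold vi vmk
  rw [md2 _ hi]

include hu hi in
theorem vu_mk : vu R (vmk R t k a b m u i) = u := by
  unfold vu vmk
  rw [md1 _ hi, md2 _ hu]

include hm hu hi in
theorem vm_mk : vm R (vmk R t k a b m u i) = m := by
  unfold vm vmk
  rw [md1 _ hi, md1 _ hu, md2 _ hm]

include hb hm hu hi in
theorem vb_mk : vb R (vmk R t k a b m u i) = b := by
  unfold vb vmk
  rw [md1 _ hi, md1 _ hu, md1 _ hm, md2 _ hb]

include ha hb hm hu hi in
theorem va_mk : va R (vmk R t k a b m u i) = a := by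
  unfold va vmk
  rw [md1 _ hi, md1 _ hu, md1 _ hm, md1 _ hb, md2 _ ha]

include hk ha hb hm hu hi in
theorem vk_mk : vk R (vmk R t k a b m u i) = k := by
  unfold vk vmk
  rw [md1 _ hi, md1 _ hu, md1 _ hm, md1 _ hb, md1 _ ha, md2 _ hk]

include hk ha hb hm hu hi in
theorem vt_mk : vt R (vmk R t k a b m u i) = t := by
  unfold vt vmk
  rw [md1 _ hi, md1 _ hu, md1 _ hm, md1 _ hb, md1 _ ha, md1 _ hk]

include hk ha hb hm hu hi in
theorem vmk_lt (ht : t < 5) : vmk R t k a b m u i < 5 * R ^ 6 := by
  have key : ∀ {w W j : ℕ}, w < W → j < R → w * R + j < W * R := by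
    intro w W j hw hj
    calc w * R + j < w * R + R := by omega
      _ = (w + 1) * R := by ring
      _ ≤ W * R := Nat.mul_le_mul_right _ hw
  have h := key (key (key (key (key (key ht hk) ha) hb) hm) hu) hi
  calc vmk R t k a b m u i < 5 * R * R * R * R * R * R := h
    _ = 5 * R ^ 6 := by ring

end

/-- The numeric form of the simulating program. -/
def vN (N₀ : NP) (ov : Bool) (R T N : ℕ) : NP where
  kind v :=
    if vt R v = 2 then (if N₀.kind (vb R v) = 1 then 1 else 0)
    else if vt R v = 3 then
      (if N₀.kind (va R v) = 0 then 0 else if N₀.kind (va R v) = 1 then 1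
        else if N₀.kind (va R v) = 2 then (if vm R v = 0 then 0 else 2)
        else if vm R v = 0 then 3 else 0)
    else if vt R v = 4 then (if N₀.kind (vu R v) = 1 then 1 else 0)
    else 0
  pos v := if vt R v = 2 then N₀.pos (vb R v) else if vt R v = 3 then N₀.pos (va R v)
    else N₀.pos (vu R v)
  sym v := vb R v * R + vm R v
  nx v c :=
    if vt R v = 2 then
      (if N₀.kind (vb R v) = 0 then vmk R 2 (vk R v) (va R v) (N₀.nx (vb R v) 0) (vm R v) 0 0
      else if N₀.kind (vb R v) = 1 then vmk R 2 (vk R v) (va R v) (N₀.nx (vb R v) c) (vm R v) 0 0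
      else if N₀.kind (vb R v) = 2 then
        (if vm R v + 1 < N + 1 then vmk R 2 (vk R v) (va R v) (N₀.nx (vb R v) 0) (vm R v + 1) 0 0
        else 0)
      else if vm R v = 0 then 0
      else if vk R v + 1 < T + 1 then vmk R 3 (vk R v + 1) (vb R v) (va R v) (vm R v) 0 0
      else vmk R 1 0 0 0 0 0 0)
    else if vt R v = 3 then
      (if N₀.kind (va R v) = 0 then vmk R 3 (vk R v) (N₀.nx (va R v) 0) (vb R v) (vm R v) 0 0
      else if N₀.kind (va R v) = 1 then vmk R 3 (vk R v) (N₀.nx (va R v) c) (vb R v) (vm R v) 0 0
      else if N₀.kind (va R v) = 2 then vmk R 2 (vk R v) (va R v) (va R v) 0 0 0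
      else if vm R v = 0 then vmk R 3 (vk R v) (va R v) (c / R) (c % R) 0 0
      else vmk R 4 (vk R v) (va R v) (vb R v) (vm R v) (vb R v) 0)
    else if vt R v = 4 then
      (if N₀.kind (vu R v) = 0 then
        vmk R 4 (vk R v) (va R v) (vb R v) (vm R v) (N₀.nx (vu R v) 0) (vi R v)
      else if N₀.kind (vu R v) = 1 then
        vmk R 4 (vk R v) (va R v) (vb R v) (vm R v) (N₀.nx (vu R v) c) (vi R v)
      else if N₀.kind (vu R v) = 2 then
        (if vi R v + 1 = vm R v then
          (if N₀.kind (va R v) = 3 then
            vmk R 3 (vk R v) (N₀.nx (va R v) (N₀.sym (vu R v))) (vb R v) (vi R v) 0 0 else 0)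
        else if vi R v + 1 < N + 1 then
          vmk R 4 (vk R v) (va R v) (vb R v) (vm R v) (N₀.nx (vu R v) 0) (vi R v + 1)
        else 0)
      else 0)
    else v
  acc v := if vt R v = 1 then (if ov = true then 1 else 0)
    else if ov = true then 0
    else if vt R v = 2 then N₀.acc (vb R v)
    else if vt R v = 3 then N₀.acc (va R v)
    else 0
  start := vmk R 2 0 N₀.start N₀.start 0 0 0

/-- The numbers of the nodes. -/
def vcd {S : Type} {T N : ℕ} (R : ℕ) (cd : S → ℕ) : VNode S T N → ℕ
  | .dead => 0
  | .exc => vmk R 1 0 0 0 0 0 0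
  | .up k s u m => vmk R 2 k.val (cd s) (cd u) m.val 0 0
  | .dn k q s m => vmk R 3 k.val (cd q) (cd s) m.val 0 0
  | .inn k q s m u i => vmk R 4 k.val (cd q) (cd s) m.val (cd u) i.val

theorem vmk_zero (R : ℕ) : vmk R 0 0 0 0 0 0 0 = 0 := by simp [vmk]

section cod

variable {ι α : Type} {P : PushProg ι α} {NS₀ : ℕ} {N₀ : NP} {x : ι → α} {lt : ℕ → ℕ}
  {cd : P.S → ℕ}

/-- The kinds of the given program. -/
theorem kind_iff (h : Cod P NS₀ N₀ x lt cd) (s : P.S) :
    (∃ s', P.instr s = .jump s' ∧ N₀.kind (cd s) = 0 ∧ N₀.nx (cd s) 0 = cd s') ∨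
    (∃ i f, P.instr s = .read i f ∧ N₀.kind (cd s) = 1 ∧
      N₀.nx (cd s) (lt (N₀.pos (cd s))) = cd (f (x i))) ∨
    (∃ g s', P.instr s = .push g s' ∧ N₀.kind (cd s) = 2 ∧ N₀.nx (cd s) 0 = cd s') ∨
    (∃ f, P.instr s = .pop f ∧ N₀.kind (cd s) = 3 ∧
      ∀ c g s', P.instr c = .push g s' → N₀.nx (cd s) (N₀.sym (cd c)) = cd (f g)) := by
  cases hs : P.instr s with
  | jump s' => exact Or.inl ⟨s', rfl, h.jump s s' hs⟩
  | read i f => exact Or.inr (Or.inl ⟨i, f, rfl, h.read s i f hs⟩)
  | push g s' => exact Or.inr (Or.inr (Or.inl ⟨g, s', rfl, h.push s g s' hs⟩))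
  | pop f => exact Or.inr (Or.inr (Or.inr ⟨f, rfl, h.pop s f hs⟩))

/-- The numeric simulating program is correct. -/
theorem cod_vN (h : Cod P NS₀ N₀ x lt cd) (ov : Bool) {R T N : ℕ} (h1 : NS₀ ≤ R) (h2 : T + 1 ≤ R)
    (h3 : N + 1 ≤ R) :
    Cod (P.vturn ov T N) (5 * R ^ 6) (vN N₀ ov R T N) x lt (vcd R cd) := by
  have hR : 0 < R := by omega
  have hcd : ∀ s, cd s < R := fun s => lt_of_lt_of_le (h.lt_NS s) h1
  have hT : ∀ k : Fin (T + 1), k.val < R := fun k => lt_of_lt_of_le k.isLt h2
  have hN : ∀ k : Fin (N + 1), k.val < R := fun k => lt_of_lt_of_le k.isLt h3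
  refine ⟨?_, ?_, ?_, ?_, ?_, ?_, ?_⟩
  · -- bound
    intro n
    cases n with
    | dead => exact Nat.mul_pos (by norm_num) (Nat.pow_pos hR)
    | exc => exact vmk_lt hR hR hR hR hR hR (by norm_num)
    | up k s u m => exact vmk_lt (hT k) (hcd s) (hcd u) (hN m) hR hR (by norm_num)
    | dn k q s m => exact vmk_lt (hT k) (hcd q) (hcd s) (hN m) hR hR (by norm_num)
    | inn k q s m u i => exact vmk_lt (hT k) (hcd q) (hcd s) (hN m) (hcd u) (hN i) (by norm_num)
  · -- jump
    intro n n' hn
    have hn : P.vI T N n = .jump n' := hn
    cases n with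
    | dead =>
      simp only [PushProg.vI, PInstr.jump.injEq] at hn
      subst hn
      have e : vt R 0 = 0 := by
        have := vt_mk (R := R) (t := 0) hR hR hR hR hR hR
        rwa [vmk_zero] at this
      simp only [vcd, vN, e]
      simp
    | exc =>
      simp only [PushProg.vI, PInstr.jump.injEq] at hn
      subst hn
      have e := vt_mk (R := R) (t := 1) hR hR hR hR hR hR
      simp only [vcd, vN, e]
      simp
    | up k s u m =>
      have a1 := vt_mk (R := R) (t := 2) (hT k) (hcd s) (hcd u) (hN m) hR hR
      have a2 := vk_mk (R := R) (t := 2) (hT k) (hcd s) (hcd u) (hN m) hR hR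
      have a3 := va_mk (R := R) (t := 2) (k := k.val) (hcd s) (hcd u) (hN m) hR hR
      have a4 := vb_mk (R := R) (t := 2) (k := k.val) (a := cd s) (hcd u) (hN m) hR hR
      have a5 := vm_mk (R := R) (t := 2) (k := k.val) (a := cd s) (b := cd u) (hN m) hR hR
      simp only [vcd, vN, a1, a2, a3, a4, a5]
      simp only [PushProg.vI] at hn
      rcases kind_iff h u with ⟨u', hi, e1, e2⟩ | ⟨i, f, hi, e1, e2⟩ | ⟨g, u', hi, e1, e2⟩ |
          ⟨f, hi, e1, e2⟩
      · simp only [hi, PInstr.jump.injEq] at hn
        subst hn
        simp [e1, e2]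
      · simp only [hi] at hn
        cases hn
      · simp only [hi] at hn
        by_cases hm : m.val + 1 < N + 1
        · rw [dif_pos hm] at hn
          simp only [PInstr.jump.injEq] at hn
          subst hn
          simp [e1, e2]
          omega
        · rw [dif_neg hm] at hn
          simp only [PInstr.jump.injEq] at hn
          subst hn
          simp [e1, e2]
          omega
      · simp only [hi] at hn
        by_cases hm : m.val = 0
        · rw [if_pos hm] at hn
          simp only [PInstr.jump.injEq] at hn
          subst hn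
          simp [e1, hm]
        · rw [if_neg hm] at hn
          by_cases hk : k.val + 1 < T + 1
          · rw [dif_pos hk] at hn
            simp only [PInstr.jump.injEq] at hn
            subst hn
            simp [e1, hm]
            omega
          · rw [dif_neg hk] at hn
            simp only [PInstr.jump.injEq] at hn
            subst hn
            simp [e1, hm]
            omega
    | dn k q s m =>
      have a1 := vt_mk (R := R) (t := 3) (hT k) (hcd q) (hcd s) (hN m) hR hR
      have a2 := vk_mk (R := R) (t := 3) (hT k) (hcd q) (hcd s) (hN m) hR hR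
      have a3 := va_mk (R := R) (t := 3) (k := k.val) (hcd q) (hcd s) (hN m) hR hR
      have a4 := vb_mk (R := R) (t := 3) (k := k.val) (a := cd q) (hcd s) (hN m) hR hR
      have a5 := vm_mk (R := R) (t := 3) (k := k.val) (a := cd q) (b := cd s) (hN m) hR hR
      simp only [vcd, vN, a1, a2, a3, a4, a5]
      simp only [PushProg.vI] at hn
      rcases kind_iff h q with ⟨u', hi, e1, e2⟩ | ⟨i, f, hi, e1, e2⟩ | ⟨g, u', hi, e1, e2⟩ |
          ⟨f, hi, e1, e2⟩
      · simp only [hi, PInstr.jump.injEq] at hn
        subst hn
        simp [e1, e2]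
      · simp only [hi] at hn
        cases hn
      · simp only [hi] at hn
        by_cases hm : m.val = 0
        · rw [if_pos hm] at hn
          simp only [PInstr.jump.injEq] at hn
          subst hn
          simp [e1, hm]
        · rw [if_neg hm] at hn
          cases hn
      · simp only [hi] at hn
        by_cases hm : m.val = 0
        · rw [if_pos hm] at hn
          cases hn
        · rw [if_neg hm] at hn
          simp only [PInstr.jump.injEq] at hn
          subst hn
          simp [e1, hm]
    | inn k q s m u i =>
      have a1 := vt_mk (R := R) (t := 4) (hT k) (hcd q) (hcd s) (hN m) (hcd u) (hN i)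
      have a2 := vk_mk (R := R) (t := 4) (hT k) (hcd q) (hcd s) (hN m) (hcd u) (hN i)
      have a3 := va_mk (R := R) (t := 4) (k := k.val) (hcd q) (hcd s) (hN m) (hcd u) (hN i)
      have a4 := vb_mk (R := R) (t := 4) (k := k.val) (a := cd q) (hcd s) (hN m) (hcd u) (hN i)
      have a5 := vm_mk (R := R) (t := 4) (k := k.val) (a := cd q) (b := cd s) (hN m) (hcd u) (hN i)
      have a6 := vu_mk (R := R) (t := 4) (k := k.val) (a := cd q) (b := cd s) (m := m.val) (hcd u)
        (hN i)
      have a7 := vi_mk (R := R) (t := 4) (k := k.val) (a := cd q) (b := cd s) (m := m.val)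
        (u := cd u) (hN i)
      simp only [vcd, vN, a1, a2, a3, a4, a5, a6, a7]
      simp only [PushProg.vI] at hn
      rcases kind_iff h u with ⟨u', hi, e1, e2⟩ | ⟨i', f, hi, e1, e2⟩ | ⟨g, u', hi, e1, e2⟩ |
          ⟨f, hi, e1, e2⟩
      · simp only [hi, PInstr.jump.injEq] at hn
        subst hn
        simp [e1, e2]
      · simp only [hi] at hn
        cases hn
      · simp only [hi] at hn
        by_cases hm : i.val + 1 = m.val
        · rw [if_pos hm] at hn
          rcases kind_iff h q with ⟨q', hq, f1, f2⟩ | ⟨j, f, hq, f1, f2⟩ | ⟨g', q', hq, f1, f2⟩ |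
              ⟨f, hq, f1, f2⟩
          · simp only [hq, PInstr.jump.injEq] at hn
            subst hn
            simp [e1, f1, hm]
          · simp only [hq, PInstr.jump.injEq] at hn
            subst hn
            simp [e1, f1, hm]
          · simp only [hq, PInstr.jump.injEq] at hn
            subst hn
            simp [e1, f1, hm]
          · simp only [hq, PInstr.jump.injEq] at hn
            subst hn
            simp [e1, f1, hm, f2 u g u' hi]
        · rw [if_neg hm] at hn
          by_cases hk : i.val + 1 < N + 1
          · rw [dif_pos hk] at hn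
            simp only [PInstr.jump.injEq] at hn
            subst hn
            simp [e1, e2, hm]
            omega
          · rw [dif_neg hk] at hn
            simp only [PInstr.jump.injEq] at hn
            subst hn
            simp [e1, hm]
            omega
      · simp only [hi, PInstr.jump.injEq] at hn
        subst hn
        simp [e1]
  · -- read
    intro n j F hn
    have hn : P.vI T N n = .read j F := hn
    cases n with
    | dead => cases hn
    | exc => cases hn
    | up k s u m =>
      have a1 := vt_mk (R := R) (t := 2) (hT k) (hcd s) (hcd u) (hN m) hR hR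
      have a2 := vk_mk (R := R) (t := 2) (hT k) (hcd s) (hcd u) (hN m) hR hR
      have a3 := va_mk (R := R) (t := 2) (k := k.val) (hcd s) (hcd u) (hN m) hR hR
      have a4 := vb_mk (R := R) (t := 2) (k := k.val) (a := cd s) (hcd u) (hN m) hR hR
      have a5 := vm_mk (R := R) (t := 2) (k := k.val) (a := cd s) (b := cd u) (hN m) hR hR
      simp only [vcd, vN, a1, a2, a3, a4, a5]
      simp only [PushProg.vI] at hn
      rcases kind_iff h u with ⟨u', hi, e1, e2⟩ | ⟨i, f, hi, e1, e2⟩ | ⟨g, u', hi, e1, e2⟩ |
          ⟨f, hi, e1, e2⟩
      · simp only [hi] at hn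
        cases hn
      · simp only [hi, PInstr.read.injEq] at hn
        obtain ⟨rfl, rfl⟩ := hn
        simp [e1, e2]
      · simp only [hi] at hn
        split_ifs at hn
      · simp only [hi] at hn
        split_ifs at hn
    | dn k q s m =>
      have a1 := vt_mk (R := R) (t := 3) (hT k) (hcd q) (hcd s) (hN m) hR hR
      have a2 := vk_mk (R := R) (t := 3) (hT k) (hcd q) (hcd s) (hN m) hR hR
      have a3 := va_mk (R := R) (t := 3) (k := k.val) (hcd q) (hcd s) (hN m) hR hR
      have a4 := vb_mk (R := R) (t := 3) (k := k.val) (a := cd q) (hcd s) (hN m) hR hR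
      have a5 := vm_mk (R := R) (t := 3) (k := k.val) (a := cd q) (b := cd s) (hN m) hR hR
      simp only [vcd, vN, a1, a2, a3, a4, a5]
      simp only [PushProg.vI] at hn
      rcases kind_iff h q with ⟨u', hi, e1, e2⟩ | ⟨i, f, hi, e1, e2⟩ | ⟨g, u', hi, e1, e2⟩ |
          ⟨f, hi, e1, e2⟩
      · simp only [hi] at hn
        cases hn
      · simp only [hi, PInstr.read.injEq] at hn
        obtain ⟨rfl, rfl⟩ := hn
        simp [e1, e2]
      · simp only [hi] at hn
        split_ifs at hn
      · simp only [hi] at hn
        split_ifs at hn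
    | inn k q s m u i =>
      have a1 := vt_mk (R := R) (t := 4) (hT k) (hcd q) (hcd s) (hN m) (hcd u) (hN i)
      have a2 := vk_mk (R := R) (t := 4) (hT k) (hcd q) (hcd s) (hN m) (hcd u) (hN i)
      have a3 := va_mk (R := R) (t := 4) (k := k.val) (hcd q) (hcd s) (hN m) (hcd u) (hN i)
      have a4 := vb_mk (R := R) (t := 4) (k := k.val) (a := cd q) (hcd s) (hN m) (hcd u) (hN i)
      have a5 := vm_mk (R := R) (t := 4) (k := k.val) (a := cd q) (b := cd s) (hN m) (hcd u) (hN i)
      have a6 := vu_mk (R := R) (t := 4) (k := k.val) (a := cd q) (b := cd s) (m := m.val) (hcd u)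
        (hN i)
      have a7 := vi_mk (R := R) (t := 4) (k := k.val) (a := cd q) (b := cd s) (m := m.val)
        (u := cd u) (hN i)
      simp only [vcd, vN, a1, a2, a3, a4, a5, a6, a7]
      simp only [PushProg.vI] at hn
      rcases kind_iff h u with ⟨u', hi, e1, e2⟩ | ⟨i', f, hi, e1, e2⟩ | ⟨g, u', hi, e1, e2⟩ |
          ⟨f, hi, e1, e2⟩
      · simp only [hi] at hn
        cases hn
      · simp only [hi, PInstr.read.injEq] at hn
        obtain ⟨rfl, rfl⟩ := hn
        simp [e1, e2]
      · simp only [hi] at hn
        by_cases hm : i.val + 1 = m.val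
        · rw [if_pos hm] at hn
          cases hq : P.instr q <;> rw [hq] at hn <;> cases hn
        · rw [if_neg hm] at hn
          split_ifs at hn
      · simp only [hi] at hn
        cases hn
  · -- push
    intro n g n' hn
    have hn : P.vI T N n = .push g n' := hn
    cases n with
    | dead => cases hn
    | exc => cases hn
    | up k s u m =>
      simp only [PushProg.vI] at hn
      cases hi : P.instr u <;> simp only [hi] at hn <;> first | cases hn | split_ifs at hn
    | dn k q s m =>
      have a1 := vt_mk (R := R) (t := 3) (hT k) (hcd q) (hcd s) (hN m) hR hR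
      have a2 := vk_mk (R := R) (t := 3) (hT k) (hcd q) (hcd s) (hN m) hR hR
      have a3 := va_mk (R := R) (t := 3) (k := k.val) (hcd q) (hcd s) (hN m) hR hR
      have a4 := vb_mk (R := R) (t := 3) (k := k.val) (a := cd q) (hcd s) (hN m) hR hR
      have a5 := vm_mk (R := R) (t := 3) (k := k.val) (a := cd q) (b := cd s) (hN m) hR hR
      simp only [vcd, vN, a1, a2, a3, a4, a5]
      simp only [PushProg.vI] at hn
      rcases kind_iff h q with ⟨u', hi, e1, e2⟩ | ⟨i, f, hi, e1, e2⟩ | ⟨g, u', hi, e1, e2⟩ |
          ⟨f, hi, e1, e2⟩
      · simp only [hi] at hn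
        cases hn
      · simp only [hi] at hn
        cases hn
      · simp only [hi] at hn
        by_cases hm : m.val = 0
        · rw [if_pos hm] at hn
          cases hn
        · rw [if_neg hm] at hn
          simp only [PInstr.push.injEq] at hn
          obtain ⟨rfl, rfl⟩ := hn
          simp [e1, hm]
      · simp only [hi] at hn
        split_ifs at hn
    | inn k q s m u i =>
      simp only [PushProg.vI] at hn
      cases hi : P.instr u with
      | jump u' => simp only [hi] at hn; cases hn
      | read j f => simp only [hi] at hn; cases hn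
      | push g' u' =>
        simp only [hi] at hn
        by_cases hm : i.val + 1 = m.val
        · rw [if_pos hm] at hn
          cases hq : P.instr q <;> rw [hq] at hn <;> cases hn
        · rw [if_neg hm] at hn
          split_ifs at hn
      | pop f => simp only [hi] at hn; cases hn
  · -- pop
    intro n F hn
    have hn : P.vI T N n = .pop F := hn
    cases n with
    | dead => cases hn
    | exc => cases hn
    | up k s u m =>
      simp only [PushProg.vI] at hn
      cases hi : P.instr u <;> simp only [hi] at hn <;> first | cases hn | split_ifs at hn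
    | dn k q s m =>
      have a1 := vt_mk (R := R) (t := 3) (hT k) (hcd q) (hcd s) (hN m) hR hR
      have a2 := vk_mk (R := R) (t := 3) (hT k) (hcd q) (hcd s) (hN m) hR hR
      have a3 := va_mk (R := R) (t := 3) (k := k.val) (hcd q) (hcd s) (hN m) hR hR
      have a4 := vb_mk (R := R) (t := 3) (k := k.val) (a := cd q) (hcd s) (hN m) hR hR
      have a5 := vm_mk (R := R) (t := 3) (k := k.val) (a := cd q) (b := cd s) (hN m) hR hR
      simp only [PushProg.vI] at hn
      rcases kind_iff h q with ⟨u', hi, e1, e2⟩ | ⟨i, f, hi, e1, e2⟩ | ⟨g, u', hi, e1, e2⟩ |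
          ⟨f, hi, e1, e2⟩
      · simp only [hi] at hn
        cases hn
      · simp only [hi] at hn
        cases hn
      · simp only [hi] at hn
        split_ifs at hn
      · simp only [hi] at hn
        by_cases hm : m.val = 0
        · rw [if_pos hm] at hn
          simp only [PInstr.pop.injEq] at hn
          subst hn
          constructor
          · simp only [vcd, vN, a1, a2, a3, a4, a5]
            simp [e1, hm]
          · intro c g c' hc
            have hc : P.vI T N c = .push g c' := hc
            cases c with
            | dead => cases hc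
            | exc => cases hc
            | up k' s' u' m' =>
              simp only [PushProg.vI] at hc
              cases hi' : P.instr u' <;> simp only [hi'] at hc <;>
                first | cases hc | split_ifs at hc
            | dn k' q' s' m' =>
              have b4 := vb_mk (R := R) (t := 3) (k := k'.val) (a := cd q') (hcd s') (hN m') hR hR
              have b5 := vm_mk (R := R) (t := 3) (k := k'.val) (a := cd q') (b := cd s') (hN m')
                hR hR
              simp only [PushProg.vI] at hc
              cases hi' : P.instr q' with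
              | jump u' => simp only [hi'] at hc; cases hc
              | read j f => simp only [hi'] at hc; cases hc
              | push g' u' =>
                simp only [hi'] at hc
                by_cases hm' : m'.val = 0
                · rw [if_pos hm'] at hc
                  cases hc
                · rw [if_neg hm'] at hc
                  simp only [PInstr.push.injEq] at hc
                  obtain ⟨rfl, rfl⟩ := hc
                  have hsym : (vN N₀ ov R T N).sym (vcd R cd (VNode.dn k' q' s' m')) =
                      cd s' * R + m'.val := by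
                    simp only [vcd, vN, b4, b5]
                  rw [hsym]
                  simp only [vcd, vN, a1, a2, a3, a4, a5]
                  simp [e1, hm, md1 _ (hN m'), md2 _ (hN m')]
              | pop f => simp only [hi'] at hc; split_ifs at hc
            | inn k' q' s' m' u' i' =>
              simp only [PushProg.vI] at hc
              cases hi' : P.instr u' with
              | jump u' => simp only [hi'] at hc; cases hc
              | read j f => simp only [hi'] at hc; cases hc
              | push g' u' =>
                simp only [hi'] at hc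
                by_cases hm' : i'.val + 1 = m'.val
                · rw [if_pos hm'] at hc
                  cases hq : P.instr q' <;> rw [hq] at hc <;> cases hc
                · rw [if_neg hm'] at hc
                  split_ifs at hc
              | pop f => simp only [hi'] at hc; cases hc
        · rw [if_neg hm] at hn
          cases hn
    | inn k q s m u i =>
      simp only [PushProg.vI] at hn
      cases hi : P.instr u with
      | jump u' => simp only [hi] at hn; cases hn
      | read j f => simp only [hi] at hn; cases hn
      | push g' u' =>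
        simp only [hi] at hn
        by_cases hm : i.val + 1 = m.val
        · rw [if_pos hm] at hn
          cases hq : P.instr q <;> rw [hq] at hn <;> cases hn
        · rw [if_neg hm] at hn
          split_ifs at hn
      | pop f => simp only [hi] at hn; cases hn
  · -- acc
    intro n
    have hacc : (P.vturn ov T N).acc n = P.vacc ov T N n := rfl
    rw [hacc]
    cases n with
    | dead =>
      have e : vt R 0 = 0 := by
        have := vt_mk (R := R) (t := 0) hR hR hR hR hR hR
        rwa [vmk_zero] at this
      simp only [vcd, vN, e, PushProg.vacc]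
      simp
    | exc =>
      have e := vt_mk (R := R) (t := 1) hR hR hR hR hR hR
      simp only [vcd, vN, e, PushProg.vacc]
      cases ov <;> simp
    | up k s u m =>
      have a1 := vt_mk (R := R) (t := 2) (hT k) (hcd s) (hcd u) (hN m) hR hR
      have a4 := vb_mk (R := R) (t := 2) (k := k.val) (a := cd s) (hcd u) (hN m) hR hR
      simp only [vcd, vN, a1, a4, PushProg.vacc]
      cases ov
      · simp [h.acc u]
      · simp
    | dn k q s m =>
      have a1 := vt_mk (R := R) (t := 3) (hT k) (hcd q) (hcd s) (hN m) hR hR
      have a3 := va_mk (R := R) (t := 3) (k := k.val) (hcd q) (hcd s) (hN m) hR hR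
      simp only [vcd, vN, a1, a3, PushProg.vacc]
      cases ov
      · simp [h.acc q]
      · simp
    | inn k q s m u i =>
      have a1 := vt_mk (R := R) (t := 4) (hT k) (hcd q) (hcd s) (hN m) (hcd u) (hN i)
      simp only [vcd, vN, a1, PushProg.vacc]
      simp
  · -- start
    have hst : N₀.start = cd P.start := h.start
    change vmk R 2 0 N₀.start N₀.start 0 0 0 = vmk R 2 0 (cd P.start) (cd P.start) 0 0 0
    rw [hst]

end cod

end TV

end Pool.Agent.MP_6216ea_lc
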