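import Pool.Agent.Lib.MP_6216ea_lc.TVNum

/-! The computability of the numeric programs. -/

set_option autoImplicit false
set_option linter.unusedSimpArgs false

namespace Pool.Agent.MP_6216ea_lc

namespace TV

open SP
open DU (NP NC Cod)

variable {α : Type} {K : List α → ℕ} {σ : Type} [Tup σ]

theorem comp_vi {R v : List α → σ → ℕ} (hR : Comp K R) (hv : Comp K v) :
    Comp K fun x w => vi (R x w) (v x w) := Comp.mod hv hR

theorem comp_vu {R v : List α → σ → ℕ} (hR : Comp K R) (hv : Comp K v) :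
    Comp K fun x w => vu (R x w) (v x w) := Comp.mod (Comp.div hv hR) hR

theorem comp_vm {R v : List α → σ → ℕ} (hR : Comp K R) (hv : Comp K v) :
    Comp K fun x w => vm (R x w) (v x w) := Comp.mod (Comp.div (Comp.div hv hR) hR) hR

theorem comp_vb {R v : List α → σ → ℕ} (hR : Comp K R) (hv : Comp K v) :
    Comp K fun x w => vb (R x w) (v x w) :=
  Comp.mod (Comp.div (Comp.div (Comp.div hv hR) hR) hR) hR

theorem comp_va {R v : List α → σ → ℕ} (hR : Comp K R) (hv : Comp K v) :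
    Comp K fun x w => va (R x w) (v x w) :=
  Comp.mod (Comp.div (Comp.div (Comp.div (Comp.div hv hR) hR) hR) hR) hR

theorem comp_vk {R v : List α → σ → ℕ} (hR : Comp K R) (hv : Comp K v) :
    Comp K fun x w => vk (R x w) (v x w) :=
  Comp.mod (Comp.div (Comp.div (Comp.div (Comp.div (Comp.div hv hR) hR) hR) hR) hR) hR

theorem comp_vt {R v : List α → σ → ℕ} (hR : Comp K R) (hv : Comp K v) :
    Comp K fun x w => vt (R x w) (v x w) :=
  Comp.div (Comp.div (Comp.div (Comp.div (Comp.div (Comp.div hv hR) hR) hR) hR) hR) hR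

theorem comp_vmk {R t k a b m u i : List α → σ → ℕ} (hR : Comp K R) (ht : Comp K t)
    (hk : Comp K k) (ha : Comp K a) (hb : Comp K b) (hm : Comp K m) (hu : Comp K u)
    (hi : Comp K i) : Comp K fun x w => vmk (R x w) (t x w) (k x w) (a x w) (b x w) (m x w)
      (u x w) (i x w) :=
  Comp.add (Comp.mul (Comp.add (Comp.mul (Comp.add (Comp.mul (Comp.add (Comp.mul (Comp.add
    (Comp.mul (Comp.add (Comp.mul ht hR) hk) hR) ha) hR) hb) hR) hm) hR) hu) hR) hi

/-- The numeric simulating program is computable. -/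
theorem comp_vN {N₀ : List α → σ → NP} (hN₀ : NS' K N₀) (ov : Bool) {R T N : List α → σ → ℕ}
    (hR : Comp K R) (hT : Comp K T) (hN : Comp K N) :
    NS' K fun x w => vN (N₀ x w) ov (R x w) (T x w) (N x w) := by
  have kd : ∀ {τ : Type} [Tup τ] {s : List α → τ → σ} {f : List α → τ → ℕ}, Comp K s → Comp K f →
      Comp K fun x v => (N₀ x (s x v)).kind (f x v) := fun hs hf =>
    hN₀.nc.kind.comp (Comp.pair hs hf)
  have ps : ∀ {τ : Type} [Tup τ] {s : List α → τ → σ} {f : List α → τ → ℕ}, Comp K s → Comp K f →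
      Comp K fun x v => (N₀ x (s x v)).pos (f x v) := fun hs hf =>
    hN₀.nc.pos.comp (Comp.pair hs hf)
  have sy : ∀ {τ : Type} [Tup τ] {s : List α → τ → σ} {f : List α → τ → ℕ}, Comp K s → Comp K f →
      Comp K fun x v => (N₀ x (s x v)).sym (f x v) := fun hs hf =>
    hN₀.nc.sym.comp (Comp.pair hs hf)
  have nx : ∀ {τ : Type} [Tup τ] {s : List α → τ → σ} {f g : List α → τ → ℕ}, Comp K s →
      Comp K f → Comp K g → Comp K fun x v => (N₀ x (s x v)).nx (f x v) (g x v) :=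
    fun hs hf hg => hN₀.nc.nx.comp (Comp.pair hs (Comp.pair hf hg))
  have ac : ∀ {τ : Type} [Tup τ] {s : List α → τ → σ} {f : List α → τ → ℕ}, Comp K s → Comp K f →
      Comp K fun x v => (N₀ x (s x v)).acc (f x v) := fun hs hf =>
    hN₀.acc.comp (Comp.pair hs hf)
  refine ⟨⟨?_, ?_, ?_, ?_⟩, ?_, ?_⟩
  · -- kind
    have R1 : Comp K fun x (v : σ × ℕ) => R x v.1 := hR.comp Comp.id.fst
    have V1 : Comp K fun _ (v : σ × ℕ) => v.2 := Comp.id.snd
    have S1 : Comp K fun _ (v : σ × ℕ) => v.1 := Comp.id.fst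
    have c0 : Comp K fun _ (_ : σ × ℕ) => 0 := Comp.const 0
    have c1 : Comp K fun _ (_ : σ × ℕ) => 1 := Comp.const 1
    have c2 : Comp K fun _ (_ : σ × ℕ) => 2 := Comp.const 2
    have c3 : Comp K fun _ (_ : σ × ℕ) => 3 := Comp.const 3
    have c4 : Comp K fun _ (_ : σ × ℕ) => 4 := Comp.const 4
    have xt := comp_vt R1 V1
    have xa := comp_va R1 V1
    have xb := comp_vb R1 V1
    have xm := comp_vm R1 V1
    have xu := comp_vu R1 V1
    refine Comp.ite (CompP.eq xt c2) (Comp.ite (CompP.eq (kd S1 xb) c1) c1 c0) ?_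
    refine Comp.ite (CompP.eq xt c3) ?_ ?_
    · refine Comp.ite (CompP.eq (kd S1 xa) c0) c0 (Comp.ite (CompP.eq (kd S1 xa) c1) c1 ?_)
      exact Comp.ite (CompP.eq (kd S1 xa) c2) (Comp.ite (CompP.eq xm c0) c0 c2)
        (Comp.ite (CompP.eq xm c0) c3 c0)
    · exact Comp.ite (CompP.eq xt c4) (Comp.ite (CompP.eq (kd S1 xu) c1) c1 c0) c0
  · -- pos
    have R1 : Comp K fun x (v : σ × ℕ) => R x v.1 := hR.comp Comp.id.fst
    have V1 : Comp K fun _ (v : σ × ℕ) => v.2 := Comp.id.snd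
    have S1 : Comp K fun _ (v : σ × ℕ) => v.1 := Comp.id.fst
    have c2 : Comp K fun _ (_ : σ × ℕ) => 2 := Comp.const 2
    have c3 : Comp K fun _ (_ : σ × ℕ) => 3 := Comp.const 3
    exact Comp.ite (CompP.eq (comp_vt R1 V1) c2) (ps S1 (comp_vb R1 V1))
      (Comp.ite (CompP.eq (comp_vt R1 V1) c3) (ps S1 (comp_va R1 V1)) (ps S1 (comp_vu R1 V1)))
  · -- sym
    have R1 : Comp K fun x (v : σ × ℕ) => R x v.1 := hR.comp Comp.id.fst
    have V1 : Comp K fun _ (v : σ × ℕ) => v.2 := Comp.id.snd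
    exact Comp.add (Comp.mul (comp_vb R1 V1) R1) (comp_vm R1 V1)
  · -- nx
    have R1 : Comp K fun x (v : σ × ℕ × ℕ) => R x v.1 := hR.comp Comp.id.fst
    have T1 : Comp K fun x (v : σ × ℕ × ℕ) => T x v.1 + 1 := Comp.succ (hT.comp Comp.id.fst)
    have N1 : Comp K fun x (v : σ × ℕ × ℕ) => N x v.1 + 1 := Comp.succ (hN.comp Comp.id.fst)
    have V1 : Comp K fun _ (v : σ × ℕ × ℕ) => v.2.1 := Comp.id.snd.fst
    have C1 : Comp K fun _ (v : σ × ℕ × ℕ) => v.2.2 := Comp.id.snd.snd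
    have S1 : Comp K fun _ (v : σ × ℕ × ℕ) => v.1 := Comp.id.fst
    have c0 : Comp K fun _ (_ : σ × ℕ × ℕ) => 0 := Comp.const 0
    have c1 : Comp K fun _ (_ : σ × ℕ × ℕ) => 1 := Comp.const 1
    have c2 : Comp K fun _ (_ : σ × ℕ × ℕ) => 2 := Comp.const 2
    have c3 : Comp K fun _ (_ : σ × ℕ × ℕ) => 3 := Comp.const 3
    have c4 : Comp K fun _ (_ : σ × ℕ × ℕ) => 4 := Comp.const 4
    have xt := comp_vt R1 V1
    have xk := comp_vk R1 V1
    have xa := comp_va R1 V1
    have xb := comp_vb R1 V1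
    have xm := comp_vm R1 V1
    have xu := comp_vu R1 V1
    have xi := comp_vi R1 V1
    refine Comp.ite (CompP.eq xt c2) ?_ (Comp.ite (CompP.eq xt c3) ?_
      (Comp.ite (CompP.eq xt c4) ?_ V1))
    · refine Comp.ite (CompP.eq (kd S1 xb) c0) (comp_vmk R1 c2 xk xa (nx S1 xb c0) xm c0 c0) ?_
      refine Comp.ite (CompP.eq (kd S1 xb) c1) (comp_vmk R1 c2 xk xa (nx S1 xb C1) xm c0 c0) ?_
      refine Comp.ite (CompP.eq (kd S1 xb) c2) (Comp.ite (CompP.lt (Comp.succ xm) N1)
        (comp_vmk R1 c2 xk xa (nx S1 xb c0) (Comp.succ xm) c0 c0) c0) ?_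
      refine Comp.ite (CompP.eq xm c0) c0 ?_
      exact Comp.ite (CompP.lt (Comp.succ xk) T1) (comp_vmk R1 c3 (Comp.succ xk) xb xa xm c0 c0)
        (comp_vmk R1 c1 c0 c0 c0 c0 c0 c0)
    · refine Comp.ite (CompP.eq (kd S1 xa) c0) (comp_vmk R1 c3 xk (nx S1 xa c0) xb xm c0 c0) ?_
      refine Comp.ite (CompP.eq (kd S1 xa) c1) (comp_vmk R1 c3 xk (nx S1 xa C1) xb xm c0 c0) ?_
      refine Comp.ite (CompP.eq (kd S1 xa) c2) (comp_vmk R1 c2 xk xa xa c0 c0 c0) ?_
      exact Comp.ite (CompP.eq xm c0) (comp_vmk R1 c3 xk xa (Comp.div C1 R1) (Comp.mod C1 R1) c0 c0)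
        (comp_vmk R1 c4 xk xa xb xm xb c0)
    · refine Comp.ite (CompP.eq (kd S1 xu) c0) (comp_vmk R1 c4 xk xa xb xm (nx S1 xu c0) xi) ?_
      refine Comp.ite (CompP.eq (kd S1 xu) c1) (comp_vmk R1 c4 xk xa xb xm (nx S1 xu C1) xi) ?_
      refine Comp.ite (CompP.eq (kd S1 xu) c2) ?_ c0
      refine Comp.ite (CompP.eq (Comp.succ xi) xm) (Comp.ite (CompP.eq (kd S1 xa) c3)
        (comp_vmk R1 c3 xk (nx S1 xa (sy S1 xu)) xb xi c0 c0) c0) ?_
      exact Comp.ite (CompP.lt (Comp.succ xi) N1)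
        (comp_vmk R1 c4 xk xa xb xm (nx S1 xu c0) (Comp.succ xi)) c0
  · -- acc
    have R1 : Comp K fun x (v : σ × ℕ) => R x v.1 := hR.comp Comp.id.fst
    have V1 : Comp K fun _ (v : σ × ℕ) => v.2 := Comp.id.snd
    have S1 : Comp K fun _ (v : σ × ℕ) => v.1 := Comp.id.fst
    have c0 : Comp K fun _ (_ : σ × ℕ) => 0 := Comp.const 0
    have c1 : Comp K fun _ (_ : σ × ℕ) => 1 := Comp.const 1
    have c2 : Comp K fun _ (_ : σ × ℕ) => 2 := Comp.const 2
    have c3 : Comp K fun _ (_ : σ × ℕ) => 3 := Comp.const 3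
    have xt := comp_vt R1 V1
    refine Comp.ite (CompP.eq xt c1) (Comp.const (if ov = true then 1 else 0)) ?_
    refine Comp.ite (CompP.const (ov = true)) c0 ?_
    exact Comp.ite (CompP.eq xt c2) (ac S1 (comp_vb R1 V1)) (Comp.ite (CompP.eq xt c3)
      (ac S1 (comp_va R1 V1)) c0)
  · -- start
    have c0 : Comp K fun _ (_ : σ) => 0 := Comp.const 0
    exact comp_vmk hR (Comp.const 2) c0 hN₀.start hN₀.start c0 c0 c0

/-! ### The summary program -/

/-- The numeric summary program. -/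
def smN (N : NP) : NP where
  kind v := if v % 2 = 0 then 1 else if N.kind (v / 2) = 2 then 2
    else if N.kind (v / 2) = 3 then 3 else 0
  pos v := v / 2
  sym v := N.sym (v / 2)
  nx v c := if v % 2 = 0 then 2 * c + 1 else if N.kind (v / 2) = 2 then 2 * N.nx (v / 2) 0
    else if N.kind (v / 2) = 3 then 2 * N.nx (v / 2) c else v
  acc v := if v % 2 = 0 then 0 else N.acc (v / 2)
  start := 2 * N.start

/-- One numeric step without the stack. -/
def wkN (N : NP) (lt : ℕ → ℕ) (v : ℕ) : ℕ :=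
  if N.acc v = 1 then v else if N.kind v = 0 then N.nx v 0
  else if N.kind v = 1 then N.nx v (lt (N.pos v)) else v

/-- The letters of the summary program. -/
def ltS (N : NP) (lt : ℕ → ℕ) (NS W v : ℕ) : ℕ := itr (fun _ u => wkN N lt u % NS) v W

/-- The nodes of the summary program. -/
def cdS {S : Type} (cd : S → ℕ) : S ⊕ S → ℕ
  | .inl s => 2 * cd s
  | .inr s => 2 * cd s + 1

section cod

variable {ι β : Type} {P : PushProg ι β} {NS : ℕ} {N : NP} {x : ι → β} {lt : ℕ → ℕ}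
  {cd : P.S → ℕ}

theorem wkN_cd (h : Cod P NS N x lt cd) (s : P.S) : wkN N lt (cd s) = cd (P.wk x s) := by
  unfold wkN
  by_cases ha : P.acc s = true
  · rw [if_pos ((h.acc s).2 ha), P.wk_act x (by unfold PushProg.act; rw [ha]; rfl)]
  · have ha' : P.acc s = false := by simpa using ha
    rw [if_neg fun hc => ha ((h.acc s).1 hc)]
    rcases kind_iff h s with ⟨u', hi, e1, e2⟩ | ⟨i, f, hi, e1, e2⟩ | ⟨g, u', hi, e1, e2⟩ |
          ⟨f, hi, e1, e2⟩
    · rw [if_pos e1, e2]
      unfold PushProg.wk PushProg.act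
      rw [hi, ha']
      rfl
    · rw [if_neg (by omega), if_pos e1, e2]
      unfold PushProg.wk PushProg.act
      rw [hi, ha']
      rfl
    · rw [if_neg (by omega), if_neg (by omega), P.wk_act x (by
        unfold PushProg.act; rw [hi, ha']; rfl)]
    · rw [if_neg (by omega), if_neg (by omega), P.wk_act x (by
        unfold PushProg.act; rw [hi, ha']; rfl)]

theorem ltS_cd (h : Cod P NS N x lt cd) (s : P.S) (W : ℕ) :
    ltS N lt NS W (cd s) = cd ((P.wk x)^[W] s) := by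
  unfold ltS
  induction W with
  | zero => rfl
  | succ W ih =>
    rw [itr, ih, wkN_cd h, Nat.mod_eq_of_lt (h.lt_NS _), Function.iterate_succ_apply']

/-- The numeric summary program is correct. -/
theorem cod_smN (h : Cod P NS N x lt cd) (W : ℕ) :
    Cod P.sm (2 * NS) (smN N) ((P.wk x)^[W]) (ltS N lt NS W) (cdS cd) := by
  have p0 : ∀ c, 2 * c % 2 = 0 := fun c => by omega
  have p1 : ∀ c, (2 * c + 1) % 2 = 1 := fun c => by omega
  have p2 : ∀ c, (2 * c + 1) / 2 = c := fun c => by omega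
  have p3 : ∀ c, (2 * c) / 2 = c := fun c => by omega
  refine ⟨?_, ?_, ?_, ?_, ?_, ?_, ?_⟩
  · rintro (s | s)
    · have := h.lt_NS s
      change 2 * cd s < 2 * NS
      omega
    · have := h.lt_NS s
      change 2 * cd s + 1 < 2 * NS
      omega
  · -- jump
    rintro (s | s) s' hs
    · cases hs
    · rw [P.sm_instr] at hs
      rcases kind_iff h s with ⟨u', hi, e1, e2⟩ | ⟨i, f, hi, e1, e2⟩ | ⟨g, u', hi, e1, e2⟩ |
          ⟨f, hi, e1, e2⟩
      · simp only [hi, PInstr.jump.injEq] at hs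
        subst hs
        simp [smN, cdS, p1, p2, e1]
      · simp only [hi, PInstr.jump.injEq] at hs
        subst hs
        simp [smN, cdS, p1, p2, e1]
      · simp only [hi] at hs
        cases hs
      · simp only [hi] at hs
        cases hs
  · -- read
    rintro (s | s) i f hs
    · have hs : (PInstr.read s (fun s' => Sum.inr s') : PInstr P.S P.S P.Γ (P.S ⊕ P.S)) =
        PInstr.read i f := hs
      cases hs
      have e := ltS_cd h s W
      have e1 : (smN N).pos (2 * cd s) = cd s := p3 (cd s)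
      change (smN N).kind (2 * cd s) = 1 ∧ (smN N).nx (2 * cd s)
        (ltS N lt NS W ((smN N).pos (2 * cd s))) = 2 * cd ((P.wk x)^[W] s) + 1
      rw [e1, e]
      exact ⟨if_pos (p0 _), if_pos (p0 _)⟩
    · rw [P.sm_instr] at hs
      cases hi : P.instr s <;> simp only [hi] at hs <;> cases hs
  · -- push
    rintro (s | s) g s' hs
    · cases hs
    · rw [P.sm_instr] at hs
      rcases kind_iff h s with ⟨u', hi, e1, e2⟩ | ⟨i, f, hi, e1, e2⟩ | ⟨g', u', hi, e1, e2⟩ |
          ⟨f, hi, e1, e2⟩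
      · simp only [hi] at hs; cases hs
      · simp only [hi] at hs; cases hs
      · simp only [hi, PInstr.push.injEq] at hs
        obtain ⟨rfl, rfl⟩ := hs
        simp [smN, cdS, p1, p2, e1, e2]
      · simp only [hi] at hs; cases hs
  · -- pop
    rintro (s | s) f hs
    · cases hs
    · rw [P.sm_instr] at hs
      rcases kind_iff h s with ⟨u', hi, e1, e2⟩ | ⟨i, f', hi, e1, e2⟩ | ⟨g', u', hi, e1, e2⟩ |
          ⟨f', hi, e1, e2⟩
      · simp only [hi] at hs; cases hs
      · simp only [hi] at hs; cases hs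
      · simp only [hi] at hs; cases hs
      · simp only [hi, PInstr.pop.injEq] at hs
        subst hs
        constructor
        · simp [smN, cdS, p1, p2, e1]
        · rintro (c | c) g s' hc
          · cases hc
          · rw [P.sm_instr] at hc
            cases hi' : P.instr c with
            | jump u' => simp only [hi'] at hc; cases hc
            | read i f => simp only [hi'] at hc; cases hc
            | push g' u' =>
              simp only [hi', PInstr.push.injEq] at hc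
              obtain ⟨rfl, rfl⟩ := hc
              have e3 := e2 c g' u' hi'
              simp [smN, cdS, p1, p2, e1, e3]
            | pop f => simp only [hi'] at hc; cases hc
  · -- acc
    rintro (s | s)
    · simp [smN, cdS, p0, PushProg.sm]
    · have e := h.acc s
      simp [smN, cdS, p1, p2, PushProg.sm, e]
  · change 2 * N.start = 2 * cd P.start
    rw [h.start]

end cod

/-- The numeric summary program is computable. -/
theorem comp_smN {N : List α → σ → NP} (hN : NS' K N) : NS' K fun x w => smN (N x w) := by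
  refine ⟨⟨?_, ?_, ?_, ?_⟩, ?_, ?_⟩
  · have V1 : Comp K fun _ (v : σ × ℕ) => v.2 := Comp.id.snd
    have S1 : Comp K fun _ (v : σ × ℕ) => v.1 := Comp.id.fst
    have c0 : Comp K fun _ (_ : σ × ℕ) => 0 := Comp.const 0
    have c1 : Comp K fun _ (_ : σ × ℕ) => 1 := Comp.const 1
    have c2 : Comp K fun _ (_ : σ × ℕ) => 2 := Comp.const 2
    have c3 : Comp K fun _ (_ : σ × ℕ) => 3 := Comp.const 3
    have kd : Comp K fun x (v : σ × ℕ) => (N x v.1).kind (v.2 / 2) :=
      hN.nc.kind.comp (Comp.pair S1 (Comp.div V1 c2))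
    exact Comp.ite (CompP.eq (Comp.mod V1 c2) c0) c1 (Comp.ite (CompP.eq kd c2) c2
      (Comp.ite (CompP.eq kd c3) c3 c0))
  · exact Comp.div Comp.id.snd (Comp.const 2)
  · exact hN.nc.sym.comp (Comp.pair Comp.id.fst (Comp.div Comp.id.snd (Comp.const 2)))
  · have V1 : Comp K fun _ (v : σ × ℕ × ℕ) => v.2.1 := Comp.id.snd.fst
    have C1 : Comp K fun _ (v : σ × ℕ × ℕ) => v.2.2 := Comp.id.snd.snd
    have S1 : Comp K fun _ (v : σ × ℕ × ℕ) => v.1 := Comp.id.fst
    have c0 : Comp K fun _ (_ : σ × ℕ × ℕ) => 0 := Comp.const 0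
    have c1 : Comp K fun _ (_ : σ × ℕ × ℕ) => 1 := Comp.const 1
    have c2 : Comp K fun _ (_ : σ × ℕ × ℕ) => 2 := Comp.const 2
    have c3 : Comp K fun _ (_ : σ × ℕ × ℕ) => 3 := Comp.const 3
    have kd : Comp K fun x (v : σ × ℕ × ℕ) => (N x v.1).kind (v.2.1 / 2) :=
      hN.nc.kind.comp (Comp.pair S1 (Comp.div V1 c2))
    have n0 : Comp K fun x (v : σ × ℕ × ℕ) => (N x v.1).nx (v.2.1 / 2) 0 :=
      hN.nc.nx.comp (Comp.pair S1 (Comp.pair (Comp.div V1 c2) c0))
    have n1 : Comp K fun x (v : σ × ℕ × ℕ) => (N x v.1).nx (v.2.1 / 2) v.2.2 :=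
      hN.nc.nx.comp (Comp.pair S1 (Comp.pair (Comp.div V1 c2) C1))
    exact Comp.ite (CompP.eq (Comp.mod V1 c2) c0) (Comp.succ (Comp.mul c2 C1))
      (Comp.ite (CompP.eq kd c2) (Comp.mul c2 n0) (Comp.ite (CompP.eq kd c3) (Comp.mul c2 n1) V1))
  · exact Comp.ite (CompP.eq (Comp.mod Comp.id.snd (Comp.const 2)) (Comp.const 0)) (Comp.const 0)
      (hN.acc.comp (Comp.pair Comp.id.fst (Comp.div Comp.id.snd (Comp.const 2))))
  · exact Comp.mul (Comp.const 2) hN.start

/-- The letters of the summary program are computable. -/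
theorem comp_ltS {N : List α → σ → NP} (hN : NS' K N) {lt : List α → σ → ℕ → ℕ}
    (hlt : Comp K fun x (v : σ × ℕ) => lt x v.1 v.2) {NS W : List α → σ → ℕ} (hNS : Comp K NS)
    (hNS0 : ∀ x w, 0 < NS x w) (hW : Comp K W) :
    Comp K fun x (v : σ × ℕ) => ltS (N x v.1) (lt x v.1) (NS x v.1) (W x v.1) v.2 := by
  have hstep : Comp K fun x (v : (σ × ℕ) × ℕ × ℕ) =>
      wkN (N x v.1.1) (lt x v.1.1) v.2.2 % NS x v.1.1 := by
    have S1 : Comp K fun _ (v : (σ × ℕ) × ℕ × ℕ) => v.1.1 := Comp.id.fst.fst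
    have V1 : Comp K fun _ (v : (σ × ℕ) × ℕ × ℕ) => v.2.2 := Comp.id.snd.snd
    have ac : Comp K fun x (v : (σ × ℕ) × ℕ × ℕ) => (N x v.1.1).acc v.2.2 :=
      hN.acc.comp (Comp.pair S1 V1)
    have kd : Comp K fun x (v : (σ × ℕ) × ℕ × ℕ) => (N x v.1.1).kind v.2.2 :=
      hN.nc.kind.comp (Comp.pair S1 V1)
    have ps : Comp K fun x (v : (σ × ℕ) × ℕ × ℕ) => (N x v.1.1).pos v.2.2 :=
      hN.nc.pos.comp (Comp.pair S1 V1)
    have le : Comp K fun x (v : (σ × ℕ) × ℕ × ℕ) => lt x v.1.1 ((N x v.1.1).pos v.2.2) :=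
      hlt.comp (Comp.pair S1 ps)
    have n0 : Comp K fun x (v : (σ × ℕ) × ℕ × ℕ) => (N x v.1.1).nx v.2.2 0 :=
      hN.nc.nx.comp (Comp.pair S1 (Comp.pair V1 (Comp.const 0)))
    have n1 : Comp K fun x (v : (σ × ℕ) × ℕ × ℕ) => (N x v.1.1).nx v.2.2
        (lt x v.1.1 ((N x v.1.1).pos v.2.2)) := hN.nc.nx.comp (Comp.pair S1 (Comp.pair V1 le))
    exact Comp.mod (Comp.ite (CompP.eq ac (Comp.const 1)) V1
      (Comp.ite (CompP.eq kd (Comp.const 0)) n0 (Comp.ite (CompP.eq kd (Comp.const 1)) n1 V1)))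
      (hNS.comp S1)
  refine Comp.itr_nat (h := fun x (v : σ × ℕ) _ u => wkN (N x v.1) (lt x v.1) u % NS x v.1)
    (g := fun _ (v : σ × ℕ) => v.2) (T := fun x v => W x v.1)
    (F := fun x v => NS x v.1 + v.2) hstep Comp.id.snd (hW.comp Comp.id.fst)
    (Comp.add (hNS.comp Comp.id.fst) Comp.id.snd).bd ?_
  intro x v i _
  cases i with
  | zero => exact Nat.le_add_left _ _
  | succ i =>
    rw [itr]
    have := Nat.mod_lt (wkN (N x v.1) (lt x v.1)
      (itr (fun _ u => wkN (N x v.1) (lt x v.1) u % NS x v.1) v.2 i)) (hNS0 x v.1)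
    omega

end TV

end Pool.Agent.MP_6216ea_lc
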