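import Pool.Agent.Lib.MP_6216ea_lc.TVNumC
import Pool.Agent.Lib.MP_6216ea_lc.DLPar

/-! The parameters of the algorithm with eight registers. -/

set_option autoImplicit false

namespace Pool.Agent.MP_6216ea_lc

namespace TV

open SP
open DU (NP NC Cod Pm lP bP gP Mc lP_ge n_lt lb_aux absN)

/-- About `log log n`. -/
def eP (n : ℕ) : ℕ := Nat.log 2 (lP n)

/-- The size of the grid. -/
def nP (n : ℕ) : ℕ := 2 ^ (eP n + 1)

/-- The number of digits. -/
def EQ (A n : ℕ) : ℕ := A * lP n / (eP n + 1) + 1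

/-- The number of bits. -/
def DQ (A n : ℕ) : ℕ := (eP n + 1) * EQ A n

/-- The prime. -/
noncomputable def pQ (A n : ℕ) : ℕ := nextPrime (7 * EQ A n * nP n + 2)

theorem nP_EQ (A n : ℕ) : nP n ^ EQ A n = 2 ^ DQ A n := by
  unfold nP DQ
  rw [← pow_mul]

theorem DQ_ge (A n : ℕ) : A * lP n ≤ DQ A n := by
  unfold DQ EQ
  have h := Nat.div_add_mod (A * lP n) (eP n + 1)
  have h1 := Nat.mod_lt (A * lP n) (Nat.succ_pos (eP n))
  rw [Nat.mul_add, Nat.mul_one]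
  rw [Nat.succ_eq_add_one] at h1
  omega

theorem eP_le (n : ℕ) : eP n + 1 ≤ lP n := (lb_aux n).2.1

theorem DQ_le (A n : ℕ) : DQ A n ≤ (A + 1) * lP n := by
  unfold DQ EQ
  have h : (eP n + 1) * (A * lP n / (eP n + 1)) ≤ A * lP n := Nat.mul_div_le _ _
  have h1 := eP_le n
  calc (eP n + 1) * (A * lP n / (eP n + 1) + 1)
      = (eP n + 1) * (A * lP n / (eP n + 1)) + (eP n + 1) := by ring
    _ ≤ A * lP n + lP n := Nat.add_le_add h h1
    _ = (A + 1) * lP n := by ring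

theorem EQ_le (A n : ℕ) : EQ A n ≤ (A + 1) * lP n := by
  refine le_trans ?_ (DQ_le A n)
  unfold DQ
  exact Nat.le_mul_of_pos_left _ (Nat.succ_pos _)

theorem nP_pos (n : ℕ) : 0 < nP n := Nat.two_pow_pos _

theorem EQ_pos (A n : ℕ) : 0 < EQ A n := Nat.succ_pos _

theorem nP_le_pQ (A n : ℕ) : nP n ≤ pQ A n := by
  have h : 7 * EQ A n * nP n + 2 < pQ A n := lt_nextPrime _
  have h1 : nP n ≤ 7 * EQ A n * nP n :=
    Nat.le_mul_of_pos_left _ (Nat.mul_pos (by norm_num) (EQ_pos A n))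
  omega

theorem pQ_deg (A n : ℕ) : 7 * EQ A n * (nP n - 1) < pQ A n - 1 := by
  have h : 7 * EQ A n * nP n + 2 < pQ A n := lt_nextPrime _
  have h1 : 7 * EQ A n * (nP n - 1) ≤ 7 * EQ A n * nP n := Nat.mul_le_mul_left _ (by omega)
  omega

theorem pQ_prime (A n : ℕ) : (pQ A n).Prime := nextPrime_prime _

/-- The size of the prime. -/
theorem pQ_le (A n : ℕ) : pQ A n ≤ 2 ^ (2 * eP n + A + 7) := by
  have h1 : pQ A n ≤ 2 * (7 * EQ A n * nP n + 2) + 2 := nextPrime_le _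
  have h2 : lP n ≤ 2 * 2 ^ eP n := by
    have := (lb_aux n).2.2.2.2.2.2.1
    unfold eP
    rw [pow_succ] at this
    omega
  have h3 : EQ A n ≤ (A + 1) * (2 * 2 ^ eP n) :=
    (EQ_le A n).trans (Nat.mul_le_mul_left _ h2)
  have h4 : 7 * EQ A n * nP n ≤ 7 * ((A + 1) * (2 * 2 ^ eP n)) * (2 * 2 ^ eP n) := by
    unfold nP
    rw [pow_succ, Nat.mul_comm (2 ^ eP n) 2]
    exact Nat.mul_le_mul_right _ (Nat.mul_le_mul_left _ h3)
  have h5 : 7 * ((A + 1) * (2 * 2 ^ eP n)) * (2 * 2 ^ eP n) =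
      28 * ((A + 1) * (2 ^ eP n * 2 ^ eP n)) := by ring
  have h6 : 1 ≤ (A + 1) * (2 ^ eP n * 2 ^ eP n) :=
    Nat.mul_pos (Nat.succ_pos _) (Nat.mul_pos (Nat.two_pow_pos _) (Nat.two_pow_pos _))
  have h7 : A + 1 ≤ 2 ^ A := Nat.lt_two_pow_self
  have h8 : 2 ^ (2 * eP n + A + 7) = 128 * (2 ^ A * (2 ^ eP n * 2 ^ eP n)) := by
    rw [pow_add, pow_add, two_mul, pow_add]
    norm_num
    ring
  have h9 : (A + 1) * (2 ^ eP n * 2 ^ eP n) ≤ 2 ^ A * (2 ^ eP n * 2 ^ eP n) :=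
    Nat.mul_le_mul_right _ h7
  rw [h5] at h4
  rw [h8]
  omega

theorem mu_le (s : ℕ) : mu s + 1 ≤ 3 * 6 ^ s := by
  induction s with
  | zero => rw [mu]; norm_num
  | succ s ih => rw [mu, pow_succ]; omega

/-- The exponent of the space in a composite level. -/
theorem zz_exp (A n : ℕ) :
    (2 * eP n + A + 12) * (3 * 6 ^ bP n) ≤ 18 * (A + 28) * lP n := by
  obtain ⟨q, hq⟩ : ∃ q, q = eP n / 8 := ⟨_, rfl⟩
  have hb : bP n = q + 1 := by rw [hq]; rfl
  have h1 : 2 * eP n + A + 12 ≤ (A + 28) * 2 ^ q := by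
    have h2 : q + 1 ≤ 2 ^ q := Nat.lt_two_pow_self
    calc 2 * eP n + A + 12 ≤ (A + 28) * (q + 1) := by
          rw [mul_add, mul_one, add_mul]
          have : eP n ≤ 8 * q + 7 := by omega
          have := Nat.zero_le (A * q)
          omega
      _ ≤ (A + 28) * 2 ^ q := Nat.mul_le_mul_left _ h2
  have h2 : 256 ^ q ≤ lP n := by
    calc 256 ^ q = 2 ^ (8 * q) := by rw [pow_mul]; norm_num
      _ ≤ 2 ^ eP n := Nat.pow_le_pow_right (by norm_num) (by omega)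
      _ ≤ lP n := (lb_aux n).1
  rw [hb]
  calc (2 * eP n + A + 12) * (3 * 6 ^ (q + 1))
      ≤ ((A + 28) * 2 ^ q) * (3 * 6 ^ (q + 1)) := Nat.mul_le_mul_right _ h1
    _ = 18 * (A + 28) * (2 * 6) ^ q := by rw [mul_pow, pow_succ]; ring
    _ ≤ 18 * (A + 28) * 256 ^ q := Nat.mul_le_mul_left _ (Nat.pow_le_pow_left (by norm_num) _)
    _ ≤ 18 * (A + 28) * lP n := Nat.mul_le_mul_left _ h2

/-- The constant of the space. -/
def cW (A : ℕ) : ℕ := 18 * (A + 28) + (A + 1) + 1 + 8 * (A + 7) * (A + 1)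

/-- The number of positions in a composite level. -/
theorem zz_le (A n : ℕ) :
    (⟨pQ A n, nP n, EQ A n, bP n⟩ : Par).zz ≤ 2 ^ (cW A * lP n) := by
  have hp := pQ_le A n
  have h1 : (⟨pQ A n, nP n, EQ A n, bP n⟩ : Par).r1 ≤ 2 ^ (2 * eP n + A + 12) := by
    change (pQ A n - 1) * 17 ≤ _
    have : 2 ^ (2 * eP n + A + 12) = 32 * 2 ^ (2 * eP n + A + 7) := by
      rw [show 2 * eP n + A + 12 = (2 * eP n + A + 7) + 5 by ring, pow_add]; ring
    omega
  have h2 : (⟨pQ A n, nP n, EQ A n, bP n⟩ : Par).r2 = 2 ^ (2 + DQ A n) := by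
    change 4 * nP n ^ EQ A n = _
    rw [nP_EQ, pow_add]
    norm_num
  have h3 : (⟨pQ A n, nP n, EQ A n, bP n⟩ : Par).U ≤ 3 * 6 ^ bP n := by
    have := mu_le (bP n)
    change mu (bP n) ≤ _
    omega
  unfold Par.zz
  rw [h2]
  calc (⟨pQ A n, nP n, EQ A n, bP n⟩ : Par).r1 ^ (⟨pQ A n, nP n, EQ A n, bP n⟩ : Par).U *
        2 ^ (2 + DQ A n)
      ≤ (2 ^ (2 * eP n + A + 12)) ^ (3 * 6 ^ bP n) * 2 ^ (2 + DQ A n) := by
        refine Nat.mul_le_mul_right _ ?_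
        exact (Nat.pow_le_pow_left h1 _).trans (Nat.pow_le_pow_right (Nat.two_pow_pos _) h3)
    _ = 2 ^ ((2 * eP n + A + 12) * (3 * 6 ^ bP n) + (2 + DQ A n)) := by
        rw [← pow_mul, ← pow_add]
    _ ≤ 2 ^ (cW A * lP n) := by
        refine Nat.pow_le_pow_right (by norm_num) ?_
        have h4 := zz_exp A n
        have h5 := DQ_le A n
        have h6 := lP_ge n
        unfold cW
        have h7 : (18 * (A + 28) + (A + 1) + 1 + 8 * (A + 7) * (A + 1)) * lP n =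
            18 * (A + 28) * lP n + (A + 1) * lP n + lP n + 8 * (A + 7) * (A + 1) * lP n := by
          ring
        rw [h7]
        have := Nat.zero_le (8 * (A + 7) * (A + 1) * lP n)
        omega

/-- The space for the registers. -/
theorem reg_le (A n : ℕ) : pQ A n ^ ((7 + 1) * EQ A n) ≤ 2 ^ (cW A * lP n) := by
  calc pQ A n ^ ((7 + 1) * EQ A n) ≤ (2 ^ (2 * eP n + A + 7)) ^ ((7 + 1) * EQ A n) :=
        Nat.pow_le_pow_left (pQ_le A n) _
    _ = 2 ^ ((2 * eP n + A + 7) * ((7 + 1) * EQ A n)) := (pow_mul _ _ _).symm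
    _ ≤ 2 ^ (cW A * lP n) := by
        refine Nat.pow_le_pow_right (by norm_num) ?_
        have h1 : 2 * eP n + A + 7 ≤ (A + 7) * (eP n + 1) := by
          rw [mul_add, mul_one, add_mul]
          have := Nat.zero_le (A * eP n)
          omega
        calc (2 * eP n + A + 7) * ((7 + 1) * EQ A n)
            ≤ ((A + 7) * (eP n + 1)) * ((7 + 1) * EQ A n) := Nat.mul_le_mul_right _ h1
          _ = 8 * (A + 7) * DQ A n := by unfold DQ; ring
          _ ≤ 8 * (A + 7) * ((A + 1) * lP n) := Nat.mul_le_mul_left _ (DQ_le A n)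
          _ = 8 * (A + 7) * (A + 1) * lP n := by ring
          _ ≤ cW A * lP n := by
              refine Nat.mul_le_mul_right _ ?_
              unfold cW
              omega

/-! ### The parameters as functions of the scale -/

/-- The unit of the scale. -/
def WW (A n : ℕ) : ℕ := 2 ^ (cW A * lP n)

/-- The number of composite levels for the scale `S`. -/
def gA (A m n S : ℕ) : ℕ := max 1 (min (gP m n) (Nat.log (WW A n) S))

/-- The bound for the turns. -/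
def TA (A m n S : ℕ) : ℕ := (2 ^ (bP n * gA A m n S) - 1) / 4

/-- The parameters. -/
noncomputable def PA (A c m n S : ℕ) : Pm where
  p := pQ A n
  D := DQ A n
  b := bP n
  g := gA A m n S
  NS := 2 * (5 * (2 ^ (c * lP n)) ^ 6)
  T := 2 ^ (bP n * gA A m n S)
  C := 0

theorem gP_pos (m n : ℕ) : 1 ≤ gP m n := Nat.succ_pos _

theorem gA_le (A m n S : ℕ) : gA A m n S ≤ gP m n := max_le (gP_pos m n) (min_le_left _ _)

theorem gA_pos (A m n S : ℕ) : 1 ≤ gA A m n S := le_max_left _ _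

theorem TA_le (A m n S : ℕ) : 2 ^ (bP n * gA A m n S) ≤ 2 ^ ((m + 1) * lP n) := by
  refine Nat.pow_le_pow_right (by norm_num) ?_
  calc bP n * gA A m n S ≤ bP n * gP m n := Nat.mul_le_mul_left _ (gA_le A m n S)
    _ ≤ m * lP n + bP n := DU.bg_le m n
    _ ≤ (m + 1) * lP n := by
        have := (lb_aux n).2.2.2.2.1
        rw [add_mul, one_mul]
        omega

theorem PA_bits {A c m : ℕ} (hA : 12 * c + 2 * m + 9 ≤ A) (n S : ℕ) :
    2 * ((PA A c m n S).NS * ((PA A c m n S).T + 1)) ^ 2 ≤ 2 ^ (PA A c m n S).D := by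
  have hl := lP_ge n
  have hNS : (PA A c m n S).NS ≤ 2 ^ (4 + 6 * (c * lP n)) := by
    change 2 * (5 * (2 ^ (c * lP n)) ^ 6) ≤ _
    have e : (2 ^ (c * lP n)) ^ 6 = 2 ^ (6 * (c * lP n)) := by rw [← pow_mul, Nat.mul_comm]
    rw [e, pow_add]
    obtain ⟨X, hX⟩ : ∃ X, X = 2 ^ (6 * (c * lP n)) := ⟨_, rfl⟩
    rw [← hX]
    norm_num
    omega
  have hT : (PA A c m n S).T + 1 ≤ 2 ^ ((m + 1) * lP n + 1) := by
    have h1 := TA_le A m n S
    have h2 : 1 ≤ 2 ^ ((m + 1) * lP n) := Nat.one_le_two_pow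
    change 2 ^ (bP n * gA A m n S) + 1 ≤ _
    rw [pow_succ]
    omega
  calc 2 * ((PA A c m n S).NS * ((PA A c m n S).T + 1)) ^ 2
      ≤ 2 * (2 ^ (4 + 6 * (c * lP n)) * 2 ^ ((m + 1) * lP n + 1)) ^ 2 :=
        Nat.mul_le_mul_left _ (Nat.pow_le_pow_left (Nat.mul_le_mul hNS hT) _)
    _ = 2 ^ (2 * ((4 + 6 * (c * lP n)) + ((m + 1) * lP n + 1)) + 1) := by
        rw [← pow_add, ← pow_mul, pow_succ]; ring
    _ ≤ 2 ^ (PA A c m n S).D := by
        refine Nat.pow_le_pow_right (by norm_num) ?_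
        refine le_trans ?_ (DQ_ge A n)
        calc 2 * ((4 + 6 * (c * lP n)) + ((m + 1) * lP n + 1)) + 1
            = 11 + (12 * c + 2 * m + 2) * lP n := by ring
          _ ≤ 7 * lP n + (12 * c + 2 * m + 2) * lP n := by omega
          _ = (12 * c + 2 * m + 9) * lP n := by ring
          _ ≤ A * lP n := Nat.mul_le_mul_right _ hA

/-- The numeric simulating program. -/
def NA (N₀ : NP) (ov : Bool) (A c m n S : ℕ) : NP :=
  vN N₀ ov (2 ^ (c * lP n)) (TA A m n S) (2 ^ (c * lP n) - 1)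

/-- The answer of the algorithm. -/
noncomputable def ansT (N₀ : NP) (lt : ℕ → ℕ) (ov : Bool) (A c m n S : ℕ) : ℕ :=
  ansA (PA A c m n S) (nP n) (EQ A n) (absN (smN (NA N₀ ov A c m n S)))
    (ltS (NA N₀ ov A c m n S) lt (5 * (2 ^ (c * lP n)) ^ 6) (5 * (2 ^ (c * lP n)) ^ 6))
    (2 * (2 * TA A m n S) + 1)

theorem card_vnode {S : Type} [Fintype S] {T N R : ℕ} (hS : Fintype.card S ≤ R) (hT : T + 1 ≤ R)
    (hN : N + 1 ≤ R) : Fintype.card (VNode S T N) ≤ 5 * R ^ 6 := by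
  have h1 := Fintype.card_le_of_injective _ (VNode.toSum_inj (S := S) (T := T) (N := N))
  refine h1.trans ?_
  simp only [Fintype.card_option, Fintype.card_sum, Fintype.card_prod, Fintype.card_fin]
  have hR : 1 ≤ R := by omega
  obtain ⟨s, hs⟩ : ∃ s, s = Fintype.card S := ⟨_, rfl⟩
  rw [← hs] at hS ⊢
  have h2 : (T + 1) * (s * (s * (N + 1))) ≤ R * (R * (R * R)) :=
    Nat.mul_le_mul hT (Nat.mul_le_mul hS (Nat.mul_le_mul hS hN))
  have h3 : (T + 1) * (s * (s * ((N + 1) * (s * (N + 1))))) ≤ R * (R * (R * (R * (R * R)))) :=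
    Nat.mul_le_mul hT (Nat.mul_le_mul hS (Nat.mul_le_mul hS (Nat.mul_le_mul hN
      (Nat.mul_le_mul hS hN))))
  have h4 : R * (R * (R * R)) ≤ R ^ 6 := by
    calc R * (R * (R * R)) = R ^ 4 := by ring
      _ ≤ R ^ 6 := Nat.pow_le_pow_right hR (by norm_num)
  have h5 : R * (R * (R * (R * (R * R)))) = R ^ 6 := by ring
  have h6 : 1 ≤ R ^ 6 := Nat.pow_pos hR
  omega

/-- The answer of the recursion. -/
theorem ansT_spec {ι α : Type} {P₀ : PushProg ι α} {NS₀ : ℕ} {N₀ : NP} {x : ι → α} {lt : ℕ → ℕ}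
    {cd : P₀.S → ℕ} (h : Cod P₀ NS₀ N₀ x lt cd) {A c m n : ℕ} (S : ℕ)
    (hNS : NS₀ ≤ 2 ^ (c * lP n)) (hcard : Fintype.card P₀.S < 2 ^ (c * lP n))
    (hc : m + 1 ≤ c) (hA : 12 * c + 2 * m + 9 ≤ A) :
    ansT N₀ lt false A c m n S ≤ 1 ∧
    (ansT N₀ lt false A c m n S = 1 ↔ P₀.AcceptsTurns x (TA A m n S)) ∧
    ansT N₀ lt true A c m n S ≤ 1 ∧
    (ansT N₀ lt true A c m n S = 1 ↔ P₀.Exceeds x (TA A m n S)) := by
  obtain ⟨R, hR⟩ : ∃ R, R = 2 ^ (c * lP n) := ⟨_, rfl⟩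
  obtain ⟨T, hT⟩ : ∃ T, T = TA A m n S := ⟨_, rfl⟩
  have hR1 : 1 ≤ R := by rw [hR]; exact Nat.one_le_two_pow
  have hTT : 4 * T + 1 ≤ 2 ^ (bP n * gA A m n S) := by
    rw [hT]
    unfold TA
    have : 1 ≤ 2 ^ (bP n * gA A m n S) := Nat.one_le_two_pow
    omega
  have hTR : T + 1 ≤ R := by
    have h1 := TA_le A m n S
    have h2 : 2 ^ ((m + 1) * lP n) ≤ 2 ^ (c * lP n) :=
      Nat.pow_le_pow_right (by norm_num) (Nat.mul_le_mul_right _ hc)
    rw [hR]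
    omega
  have hN1 : (R - 1) + 1 ≤ R := by omega
  have hcard' : Fintype.card P₀.S ≤ R - 1 := by rw [hR]; omega
  have hcod : ∀ ov, Cod (P₀.vturn ov T (R - 1)) (5 * R ^ 6) (vN N₀ ov R T (R - 1)) x lt
      (vcd R cd) := fun ov => cod_vN h ov (by rw [hR]; exact hNS) hTR hN1
  have hcs : ∀ ov, Fintype.card (P₀.vturn ov T (R - 1)).S ≤ 5 * R ^ 6 := by
    intro ov
    exact card_vnode (S := P₀.S) (hcard'.trans (by omega)) hTR hN1
  have key : ∀ ov, ansT N₀ lt ov A c m n S ≤ 1 ∧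
      (ansT N₀ lt ov A c m n S = 1 ↔ (P₀.vturn ov T (R - 1)).AcceptsOps x (2 * T)) := by
    intro ov
    subst hR
    have h1 := cod_smN (hcod ov) (5 * (2 ^ (c * lP n)) ^ 6)
    have h2 := ansA_spec (P := PA A c m n S) (n := nP n) (E := EQ A n) h1 (PA_bits hA n S)
      (nP_EQ A n) (pQ_prime A n) (nP_pos n) (nP_le_pQ A n) (pQ_deg A n) (gA_pos A m n S) rfl
      (2 * (2 * T) + 1) (by
        change _ ≤ 2 ^ (bP n * gA A m n S)
        omega)
    have h3 := (P₀.vturn ov T (2 ^ (c * lP n) - 1)).iter_accepts x (2 * T)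
      (5 * (2 ^ (c * lP n)) ^ 6) (hcs ov)
    subst hT
    exact ⟨h2.1, h2.2.trans h3⟩
  refine ⟨(key false).1, (key false).2.trans ?_, (key true).1, (key true).2.trans ?_⟩
  · rw [← hT]
    exact P₀.vturn_accepts x hcard'
  · rw [← hT]
    exact P₀.vturn_accepts' x hcard'

end TV

end Pool.Agent.MP_6216ea_lc
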