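import Pool.Agent.Lib.MP_6216ea_lc.TVPar
import Pool.Agent.Lib.MP_6216ea_lc.DLRun

/-! The algorithm with eight registers is computable in small space. -/

set_option autoImplicit false

namespace Pool.Agent.MP_6216ea_lc

namespace TV

open SP
open DU (NP NC Cod Pm PC lP bP gP Mc lP_ge n_lt lb_aux absN hn_comp_powc)

variable {α : Type} {K : List α → ℕ} {σ : Type} [Tup σ]

theorem pow_lP (n : ℕ) : 2 ^ lP n ≤ 4 * (n + 1) := by
  unfold lP
  rw [pow_add]
  rcases Nat.eq_zero_or_pos n with h | h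
  · subst h
    simp
  · have := Nat.pow_log_le_self 2 (x := n) (by omega)
    omega

theorem comp_lP (hK : ∀ x, x.length ≤ K x) : Comp K fun x (_ : σ) => lP x.length :=
  Comp.succ (Comp.succ (Comp.log (Comp.const 2) (Comp.length hK)))

theorem comp_eP (hK : ∀ x, x.length ≤ K x) : Comp K fun x (_ : σ) => eP x.length :=
  Comp.log (Comp.const 2) (comp_lP hK)

theorem comp_bP (hK : ∀ x, x.length ≤ K x) : Comp K fun x (_ : σ) => bP x.length :=
  Comp.succ (Comp.div (comp_eP hK) (Comp.const 8))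

theorem comp_pw (hK : ∀ x, x.length ≤ K x) (j : ℕ) :
    Comp K fun x (_ : σ) => 2 ^ (j * lP x.length) := by
  refine Comp.pow (Comp.const 2) (Comp.mul (Comp.const j) (comp_lP hK)) ?_
  refine (hn_comp_powc (Comp.mul (Comp.const 4) (Comp.succ (Comp.length hK))) j).bd.mono
    fun x _ => ?_
  rw [Nat.mul_comm, pow_mul]
  exact Nat.pow_le_pow_left (pow_lP _) _

theorem comp_nP (hK : ∀ x, x.length ≤ K x) : Comp K fun x (_ : σ) => nP x.length := by
  refine Comp.pow (Comp.const 2) (Comp.succ (comp_eP hK)) ?_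
  refine (Comp.mul (Comp.const 2) (comp_lP hK)).bd.mono fun x _ => ?_
  have := (lb_aux x.length).1
  unfold eP
  rw [pow_succ]
  omega

theorem comp_EQ (hK : ∀ x, x.length ≤ K x) (A : ℕ) : Comp K fun x (_ : σ) => EQ A x.length :=
  Comp.succ (Comp.div (Comp.mul (Comp.const A) (comp_lP hK)) (Comp.succ (comp_eP hK)))

theorem comp_DQ (hK : ∀ x, x.length ≤ K x) (A : ℕ) : Comp K fun x (_ : σ) => DQ A x.length :=
  Comp.mul (Comp.succ (comp_eP hK)) (comp_EQ hK A)

theorem comp_pQ (hK : ∀ x, x.length ≤ K x) (A : ℕ) : Comp K fun x (_ : σ) => pQ A x.length :=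
  Comp.nextPrime (Comp.add (Comp.mul (Comp.mul (Comp.const 7) (comp_EQ hK A)) (comp_nP hK))
    (Comp.const 2))

theorem comp_WW (hK : ∀ x, x.length ≤ K x) (A : ℕ) : Comp K fun x (_ : σ) => WW A x.length :=
  comp_pw hK _

theorem comp_gP (hK : ∀ x, x.length ≤ K x) (m : ℕ) : Comp K fun x (_ : σ) => gP m x.length :=
  Comp.succ (Comp.div (Comp.mul (Comp.const m) (comp_lP hK)) (comp_bP hK))

theorem comp_gA (hK : ∀ x, x.length ≤ K x) (A m : ℕ) {S : List α → σ → ℕ} (hS : Comp K S) :
    Comp K fun x w => gA A m x.length (S x w) :=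
  Comp.max (Comp.const 1) (Comp.min (comp_gP hK m) (Comp.log (comp_WW hK A) hS))

theorem comp_TT (hK : ∀ x, x.length ≤ K x) (A m : ℕ) {S : List α → σ → ℕ} (hS : Comp K S) :
    Comp K fun x w => 2 ^ (bP x.length * gA A m x.length (S x w)) := by
  refine Comp.pow (Comp.const 2) (Comp.mul (comp_bP hK) (comp_gA hK A m hS)) ?_
  exact (comp_pw (σ := σ) hK (m + 1)).bd.mono fun x w => TA_le A m x.length (S x w)

theorem comp_TA (hK : ∀ x, x.length ≤ K x) (A m : ℕ) {S : List α → σ → ℕ} (hS : Comp K S) :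
    Comp K fun x w => TA A m x.length (S x w) :=
  Comp.div (Comp.sub (comp_TT hK A m hS) (Comp.const 1)) (Comp.const 4)

theorem WW_two (A n : ℕ) : 2 ≤ WW A n := by
  have hl := lP_ge n
  have h1 : 1 ≤ cW A * lP n := by
    have : 1 ≤ cW A := by unfold cW; omega
    exact Nat.mul_pos this (by omega)
  calc 2 = 2 ^ 1 := rfl
    _ ≤ 2 ^ (cW A * lP n) := Nat.pow_le_pow_right (by norm_num) h1

/-- The number of positions. -/
theorem zz_pow (A m n S : ℕ) :
    (⟨pQ A n, nP n, EQ A n, bP n⟩ : Par).zz ^ (gA A m n S + 1) ≤ (S + WW A n) * WW A n := by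
  have h1 := zz_le A n
  have hW := WW_two A n
  have h2 : (⟨pQ A n, nP n, EQ A n, bP n⟩ : Par).zz ^ (gA A m n S + 1) ≤
      WW A n ^ (gA A m n S + 1) := Nat.pow_le_pow_left h1 _
  refine h2.trans ?_
  rw [pow_succ]
  refine Nat.mul_le_mul_right _ ?_
  rcases Nat.eq_zero_or_pos (Nat.log (WW A n) S) with h3 | h3
  · have h4 : gA A m n S = 1 := by
      unfold gA
      rw [h3]
      simp
    rw [h4, pow_one]
    exact Nat.le_add_left _ _
  · have h4 : gA A m n S ≤ Nat.log (WW A n) S := by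
      unfold gA
      omega
    have hS : S ≠ 0 := by
      rintro rfl
      simp at h3
    calc WW A n ^ gA A m n S ≤ WW A n ^ Nat.log (WW A n) S :=
          Nat.pow_le_pow_right (by omega) h4
      _ ≤ S := Nat.pow_log_le_self _ hS
      _ ≤ S + WW A n := Nat.le_add_right _ _

/-- The parameters are computable. -/
theorem comp_PA (hK : ∀ x, x.length ≤ K x) (A c m : ℕ) {S : List α → σ → ℕ} (hS : Comp K S) :
    PR K (fun x w => PA A c m x.length (S x w)) (fun x _ => nP x.length)
      (fun x _ => EQ A x.length) where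
  pc := {
    D := comp_DQ hK A
    b := comp_bP hK
    NS := Comp.mul (Comp.const 2) (Comp.mul (Comp.const 5) (hn_comp_powc (comp_pw hK c) 6))
    T := comp_TT hK A m hS
    NS_pos := fun x w => by
      change 1 ≤ 2 * (5 * (2 ^ (c * lP x.length)) ^ 6)
      have : 0 < (2 ^ (c * lP x.length)) ^ 6 := Nat.pow_pos (Nat.two_pow_pos _)
      omega
    M := by
      refine (Comp.mul (σ := σ) (Comp.const 18) (comp_lP hK)).bd.mono fun x w => ?_
      change Mc (bP x.length) ≤ 18 * lP x.length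
      have h1 := DU.Mc_le (bP x.length)
      obtain ⟨h2, -, -, -, -, -, -, h3, -⟩ := lb_aux x.length
      have h4 : 6 ^ bP x.length = 6 * 6 ^ (Nat.log 2 (lP x.length) / 8) := by
        unfold bP
        rw [pow_succ]; ring
      rw [h4] at h1
      omega }
  cp := comp_pQ hK A
  cg := comp_gA hK A m hS
  cn := comp_nP hK
  cE := comp_EQ hK A
  prime := fun x _ => pQ_prime A x.length
  np := fun x _ => nP_le_pQ A x.length
  npos := fun x _ => nP_pos x.length
  bR := (comp_WW (σ := σ) hK A).bd.mono fun x _ => reg_le A x.length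
  bZ := (Comp.mul (Comp.add hS (comp_WW hK A)) (comp_WW hK A)).bd.mono fun x w =>
    zz_pow A m x.length (S x w)

/-- The answer of the algorithm is computable. -/
theorem comp_ansT (hK : ∀ x, x.length ≤ K x) {N : List α → σ → NP} (hN : NS' K N)
    {lt : List α → σ → ℕ → ℕ} (hlt : Comp K fun x (v : σ × ℕ) => lt x v.1 v.2) (ov : Bool)
    (A c m : ℕ) {S : List α → σ → ℕ} (hS : Comp K S) :
    Comp K fun x w => ansT (N x w) (lt x w) ov A c m x.length (S x w) := by
  have cR : Comp K fun x (_ : σ) => 2 ^ (c * lP x.length) := comp_pw hK c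
  have cTA : Comp K fun x (w : σ) => TA A m x.length (S x w) := comp_TA hK A m hS
  have h1 : NS' K fun x w => NA (N x w) ov A c m x.length (S x w) :=
    comp_vN hN ov cR cTA (Comp.sub cR (Comp.const 1))
  have c5 : Comp K fun x (_ : σ) => 5 * (2 ^ (c * lP x.length)) ^ 6 :=
    Comp.mul (Comp.const 5) (hn_comp_powc cR 6)
  have h2 := comp_ltS h1 hlt c5 (fun x w =>
    Nat.mul_pos (by norm_num) (Nat.pow_pos (Nat.two_pow_pos _))) c5
  exact comp_ansA (comp_PA hK A c m hS) (comp_smN h1).absN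
    (lt := fun x w => ltS (NA (N x w) ov A c m x.length (S x w)) (lt x w)
      (5 * (2 ^ (c * lP x.length)) ^ 6) (5 * (2 ^ (c * lP x.length)) ^ 6)) h2
    (Comp.succ (Comp.mul (Comp.const 2) (Comp.mul (Comp.const 2) cTA)))

end TV

end Pool.Agent.MP_6216ea_lc
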