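import Pool.Agent.Lib.MP_6216ea_lc.TVNode

/-! The effect of one round of the algorithm with eight registers. -/

set_option autoImplicit false

namespace Pool.Agent.MP_6216ea_lc

namespace TV

open DU (Rg addB mulB runN runN_zero runN_succ runN_congr runN_add runN_mul runN_first runN_addB
  One fineA fs fs_ge addB_addB addB_zero)
open DU.Nm (pack pack_digit pack_lt invN invN_cast)

section

variable {p : ℕ}

theorem opd_addB (E k j : ℕ) (v : ℕ → ZMod p) (R : Rg p) :
    opd E k j (addB j v R) = opd E k j R := by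
  funext i
  unfold opd addB
  split_ifs
  · rw [Function.update_of_ne (sA_ne j _)]
  · rfl

/-- The codes of the operands, in their blocks. -/
def Wd (n E j k : ℕ) (V : ℕ → ℕ) (N : ℕ) : Rg p := fun i =>
  if i ≠ j ∧ uA j i < N ∧ (uA j i < k ∨ uA j i = 6) then cv p n E (V (uA j i)) else 0

theorem adds (n E j k : ℕ) (V : ℕ → ℕ) (x : ZMod p) (f : ℕ → Rg p → Rg p) (N : ℕ)
    (hf : ∀ r < N, ∀ R, f r R = if r < k ∨ r = 6 then addB (sA j r) (x • cv p n E (V r)) R else R)
    (R : Rg p) : runN N f R = fun i => R i + x • Wd n E j k V N i := by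
  induction N with
  | zero =>
    funext i
    have h : ¬ (i ≠ j ∧ uA j i < 0 ∧ (uA j i < k ∨ uA j i = 6)) := by
      rintro ⟨-, h, -⟩
      omega
    simp only [Wd, runN_zero, if_neg h, smul_zero, add_zero]
  | succ N ih =>
    rw [runN_succ, ih (fun r hr => hf r (by omega)), hf N (by omega)]
    funext i
    by_cases hN : N < k ∨ N = 6
    · rw [if_pos hN]
      unfold addB
      by_cases hi : i = sA j N
      · subst hi
        rw [Function.update_self]
        have h1 : uA j (sA j N) = N := uA_sA j N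
        have h2 : ¬ (sA j N ≠ j ∧ uA j (sA j N) < N ∧ (uA j (sA j N) < k ∨ uA j (sA j N) = 6)) := by
          rintro ⟨-, h, -⟩
          omega
        have h3 : sA j N ≠ j ∧ uA j (sA j N) < N + 1 ∧
            (uA j (sA j N) < k ∨ uA j (sA j N) = 6) := ⟨sA_ne j N, by omega, by rw [h1]; exact hN⟩
        have e0 : Wd n E j k V N (sA j N) = (0 : ℕ → ZMod p) := if_neg h2
        have e1 : Wd n E j k V (N + 1) (sA j N) = (cv p n E (V N) : ℕ → ZMod p) := by
          unfold Wd
          rw [if_pos h3, h1]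
        beta_reduce
        rw [e0, e1, smul_zero, add_zero]
      · rw [Function.update_of_ne hi]
        have h1 : (i ≠ j ∧ uA j i < N + 1 ∧ (uA j i < k ∨ uA j i = 6)) ↔
            (i ≠ j ∧ uA j i < N ∧ (uA j i < k ∨ uA j i = 6)) := by
          constructor
          · rintro ⟨h1, h2, h3⟩
            refine ⟨h1, ?_, h3⟩
            by_contra h4
            have h5 : uA j i = N := by omega
            exact hi (by rw [← h5, sA_uA h1])
          · rintro ⟨h1, h2, h3⟩
            exact ⟨h1, by omega, h3⟩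
        simp only [Wd, h1]
    · rw [if_neg hN]
      have h1 : (i ≠ j ∧ uA j i < N + 1 ∧ (uA j i < k ∨ uA j i = 6)) ↔
          (i ≠ j ∧ uA j i < N ∧ (uA j i < k ∨ uA j i = 6)) := by
        constructor
        · rintro ⟨h1, h2, h3⟩
          refine ⟨h1, ?_, h3⟩
          by_contra h4
          have h5 : uA j i = N := by omega
          rw [h5] at h3
          exact hN h3
        · rintro ⟨h1, h2, h3⟩
          exact ⟨h1, by omega, h3⟩
      simp only [Wd, h1]

/-- The number which codes the operands. -/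
def eV (N k : ℕ) (V : ℕ → ℕ) : ℕ := pack N (fun m => if m < k ∨ m = 6 then V m else 0) 7

theorem eV_lt {n E : ℕ} (hN : 0 < n ^ E) (k : ℕ) {V : ℕ → ℕ} (hV : ∀ m, V m < n ^ E) :
    eV (n ^ E) k V < n ^ (7 * E) := by
  rw [Nat.mul_comm, pow_mul]
  refine pack_lt 7 fun l _ => ?_
  split_ifs
  · exact hV l
  · exact hN

theorem yn_eV {N : ℕ} (hN : 0 < N) (k : ℕ) {V : ℕ → ℕ} (hV : ∀ m, V m < N) (m : ℕ) :
    yn N (eV N k V) m = if (m < k ∨ m = 6) ∧ m < 7 then V m else 0 := by
  unfold yn
  by_cases hm : m < 7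
  · have h1 := pack_digit (p := N) (d := fun m => if m < k ∨ m = 6 then V m else 0) 7
      (fun l _ => by
        split_ifs
        · exact hV l
        · exact hN) m hm
    unfold eV
    rw [h1]
    simp only [hm, and_true]
  · rw [if_neg (fun h => hm h.2)]
    have h1 : eV N k V < N ^ 7 := by
      refine pack_lt 7 fun l _ => ?_
      split_ifs
      · exact hV l
      · exact hN
    have h2 : N ^ 7 ≤ N ^ m := Nat.pow_le_pow_right hN (by omega)
    rw [Nat.div_eq_of_lt (h1.trans_le h2), Nat.zero_mod]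

theorem opd_up {n E : ℕ} (hN : 0 < n ^ E) (j k : ℕ) {V : ℕ → ℕ}
    (hV : ∀ m, V m < n ^ E) (t : ZMod p) (R : Rg p) (i : ℕ) (hi : i < 7 * E) :
    opd E k j (fun i => mulA j t R i + Wd n E j k V 7 i) i =
      t * opd E k j R i + gv p n (eV (n ^ E) k V) i := by
  have hE : 0 < E := by
    rcases Nat.eq_zero_or_pos E with h | h
    · subst h; simp at hi
    · exact h
  have hm : i / E < 7 := Nat.div_lt_of_lt_mul (by rw [Nat.mul_comm]; exact hi)
  have hu : i % E < E := Nat.mod_lt _ hE
  have h1 : gv p n (eV (n ^ E) k V) i = if (i / E < k ∨ i / E = 6) ∧ i / E < 7 then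
      gv p n (V (i / E)) (i % E) else 0 := by
    unfold gv
    rw [digit_yn n E _ i hi, yn_eV hN k hV]
    split_ifs
    · rfl
    · simp
  rw [h1]
  unfold opd
  by_cases h : i / E < k ∨ i / E = 6
  · have e1 : i < 7 * E ∧ (i / E < k ∨ i / E = 6) := ⟨hi, h⟩
    have e2 : (i / E < k ∨ i / E = 6) ∧ i / E < 7 := ⟨h, hm⟩
    have e3 : sA j (i / E) ≠ j ∧ uA j (sA j (i / E)) < 7 ∧
        (uA j (sA j (i / E)) < k ∨ uA j (sA j (i / E)) = 6) := by
      rw [uA_sA]
      exact ⟨sA_ne j _, hm, h⟩
    have e4 : mulA j t R (sA j (i / E)) = t • R (sA j (i / E)) := if_neg (sA_ne j _)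
    have e5 : Wd n E j k V 7 (sA j (i / E)) = (cv p n E (V (i / E)) : ℕ → ZMod p) := by
      unfold Wd
      rw [if_pos e3, uA_sA]
    rw [if_pos e1, if_pos e1, if_pos e2]
    change (mulA j t R (sA j (i / E)) + Wd n E j k V 7 (sA j (i / E)) : ℕ → ZMod p) (i % E) = _
    rw [e4, e5]
    simp only [Pi.add_apply, Pi.smul_apply, smul_eq_mul, cv, if_pos hu]
  · rw [if_neg (fun h' => h h'.2), if_neg (fun h' => h h'.2), if_neg (fun h' => h h'.1)]
    simp

end

section

variable (P : Par) [Fact P.p.Prime] (O : One) (base : ℕ → ℕ)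

/-- The elementary nodes. -/
def isPrim (v : N7) : Prop := v.1 < 7

theorem prim_0 (R : Rg P.p) : prim P O base idN R = R := rfl

theorem prim_1 (β s w c j t : ℕ) (R : Rg P.p) :
    prim P O base (1, β, s, w, c, j, t) R = mulA j (t : ZMod P.p) R := rfl

theorem prim_2 (β s w c j t : ℕ) (R : Rg P.p) :
    prim P O base (2, β, s, w, c, j, t) R = mulB j (t : ZMod P.p) R := rfl

theorem prim_3 (β s w c j t : ℕ) (R : Rg P.p) :
    prim P O base (3, β, s, w, c, j, t) R = addB j (((t : ZMod P.p) *
      ind P.p P.n P.E c (R (sA j 0))) • R (sA j 1)) R := rfl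

theorem prim_4 (β s w c j t : ℕ) (R : Rg P.p) :
    prim P O base (4, β, s, w, c, j, t) R = addB j ((t : ZMod P.p) •
      locE P O (P.b * β + s) w j R) R := rfl

theorem prim_5 (β s w c j t : ℕ) (R : Rg P.p) :
    prim P O base (5, β, s, w, c, j, t) R = addB j ((t : ZMod P.p) • cv P.p P.n P.E c) R := rfl

theorem prim_6 (β s w c j t : ℕ) (R : Rg P.p) :
    prim P O base (6, β, s, w, c, j, t) R = addB j ((t : ZMod P.p) • cv P.p P.n P.E (base c)) R :=
  rfl

/-- The round of an operand. -/
theorem slotO_run (F : N7 → Rg P.p → Rg P.p)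
    (hF : ∀ v, isPrim v → ∀ R, F v R = prim P O base v R) (hn : 0 < P.n) (hnp : P.n ≤ P.p)
    (hdeg : 7 * P.E * (P.n - 1) < P.p - 1)
    (β s w k c j t : ℕ) (hk : k ≤ 6) (y : ℕ → ℕ) (q : ℕ) (hy : ∀ m, y m < P.N)
    (hy0 : ∀ m, k ≤ m → y m = 0) (hq : q < P.N)
    (hY : ∀ m < k, ∀ (t : ℕ) R, F (7, β, s, 7 * w + m, c, sA j m, t) R =
      addB (sA j m) ((t : ZMod P.p) • cv P.p P.n P.E (y m)) R)
    (hQ : ∀ (t : ℕ) R, F (opN P.b β (s + 1) w c (sA j 6) t) R =
      addB (sA j 6) ((t : ZMod P.p) • cv P.p P.n P.E q) R) (R : Rg P.p) :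
    runN ((P.p - 1) * 17) (fun m => F (slotO P.p P.b β s w k c j t m)) R =
      addB j ((t : ZMod P.p) • cv P.p P.n P.E (phi O (P.b * β + s) k q y)) R := by
  have hp : P.p.Prime := Fact.out
  obtain ⟨V, hVd⟩ : ∃ V : ℕ → ℕ, V = fun m => if m = 6 then q else y m := ⟨_, rfl⟩
  have hNp : 0 < P.N := Nat.pow_pos hn
  have hV : ∀ m, V m < P.N := by
    intro m
    rw [hVd]
    simp only
    split_ifs
    · exact hq
    · exact hy m
  obtain ⟨e, he⟩ : ∃ e, e = eV P.N k V := ⟨_, rfl⟩
  have heN : e < P.n ^ (7 * P.E) := by rw [he]; exact eV_lt hNp k hV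
  have hyq : yn P.N e 6 = q := by
    rw [he, yn_eV hNp k hV, if_pos ⟨Or.inr rfl, by norm_num⟩, hVd]
    rfl
  have hyy : (fun m => if m = 6 then 0 else yn P.N e m) = y := by
    funext m
    rw [he, yn_eV hNp k hV]
    by_cases h6 : m = 6
    · subst h6
      rw [if_pos rfl, hy0 6 hk]
    · rw [if_neg h6]
      by_cases hmk : m < k
      · rw [if_pos ⟨Or.inl hmk, by omega⟩, hVd]
        simp only [if_neg h6]
      · rw [if_neg (by omega), hy0 m (by omega)]
  -- one round
  have key : ∀ τ < P.p - 1, ∀ R, runN 17 (fun r => F (slotO P.p P.b β s w k c j t (τ * 17 + r))) R =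
      addB j ((-(t : ZMod P.p)) • locE P O (P.b * β + s) k j
        (fun i => mulA j ((τ + 1 : ℕ) : ZMod P.p) R i + Wd P.n P.E j k V 7 i)) R := by
    intro τ hτ R
    have hr : ∀ r < 17, (τ * 17 + r) % 17 = r ∧ (τ * 17 + r) / 17 = τ := by
      intro r hr
      omega
    obtain ⟨x, hx⟩ : ∃ x : ZMod P.p, x = ((τ + 1 : ℕ) : ZMod P.p) := ⟨_, rfl⟩
    have hx0 : x ≠ 0 := by
      rw [hx]
      intro h0
      rw [ZMod.natCast_eq_zero_iff] at h0
      have := Nat.le_of_dvd (by omega) h0
      omega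
    rw [← hx]
    rw [show 17 = 1 + (7 + (1 + (7 + 1))) by norm_num, runN_add, runN_add, runN_add, runN_add]
    -- scale
    have h1 : ∀ R, runN 1 (fun r => F (slotO P.p P.b β s w k c j t (τ * (1 + (7 + (1 + (7 + 1)))) +
        r))) R = mulA j x R := by
      intro R
      change F (slotO P.p P.b β s w k c j t (τ * 17 + 0)) R = _
      obtain ⟨e1, e2⟩ := hr 0 (by norm_num)
      unfold slotO
      rw [e1, e2, if_pos rfl, hF _ (by unfold isPrim; norm_num), prim_1, hx]
    rw [h1]
    -- add the operands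
    have h2 : ∀ R, runN 7 (fun r => F (slotO P.p P.b β s w k c j t (τ * (1 + (7 + (1 + (7 + 1)))) +
        (1 + r)))) R = fun i => R i + (1 : ZMod P.p) • Wd P.n P.E j k V 7 i := by
      intro R
      refine adds P.n P.E j k V 1 _ 7 (fun r hr7 R => ?_) R
      change F (slotO P.p P.b β s w k c j t (τ * 17 + (1 + r))) R = _
      obtain ⟨e1, e2⟩ := hr (1 + r) (by omega)
      unfold slotO
      rw [e1, e2, if_neg (by omega)]
      by_cases h6 : r = 6
      · subst h6
        rw [if_neg (by norm_num), if_pos (by norm_num), if_pos (Or.inr rfl), hQ, hVd]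
        simp
      · rw [if_pos (by omega), show 1 + r - 1 = r by omega]
        by_cases hrk : r < k
        · rw [if_pos hrk, if_pos (Or.inl hrk), hY r hrk, hVd]
          simp [h6]
        · rw [if_neg hrk, if_neg (by omega), hF _ (by unfold isPrim idN; norm_num)]
          rfl
    rw [h2]
    -- the local value
    have h3 : ∀ R, runN 1 (fun r => F (slotO P.p P.b β s w k c j t (τ * (1 + (7 + (1 + (7 + 1)))) +
        (1 + (7 + r))))) R = addB j ((-(t : ZMod P.p)) • locE P O (P.b * β + s) k j R) R := by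
      intro R
      change F (slotO P.p P.b β s w k c j t (τ * 17 + 8)) R = _
      obtain ⟨e1, e2⟩ := hr 8 (by norm_num)
      unfold slotO
      rw [e1, e2, if_neg (by norm_num), if_neg (by norm_num), if_neg (by norm_num),
        if_pos rfl, hF _ (by unfold isPrim; norm_num), prim_4, ngN_cast hp.pos]
    rw [h3]
    -- subtract the operands
    have h4 : ∀ R, runN 7 (fun r => F (slotO P.p P.b β s w k c j t (τ * (1 + (7 + (1 + (7 + 1)))) +
        (1 + (7 + (1 + r)))))) R = fun i => R i + (-1 : ZMod P.p) • Wd P.n P.E j k V 7 i := by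
      intro R
      refine adds P.n P.E j k V (-1) _ 7 (fun r hr7 R => ?_) R
      change F (slotO P.p P.b β s w k c j t (τ * 17 + (1 + (7 + (1 + r))))) R = _
      obtain ⟨e1, e2⟩ := hr (1 + (7 + (1 + r))) (by omega)
      have hneg : ((ngN P.p 1 : ℕ) : ZMod P.p) = -1 := by rw [ngN_cast hp.pos, Nat.cast_one]
      unfold slotO
      rw [e1, e2, if_neg (by omega), if_neg (by omega), if_neg (by omega), if_neg (by omega)]
      by_cases h6 : r = 6
      · subst h6
        rw [if_neg (by norm_num), if_pos (by norm_num), if_pos (Or.inr rfl), hQ, hVd, hneg]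
        simp
      · rw [if_pos (by omega), show 1 + (7 + (1 + r)) - 9 = r by omega]
        by_cases hrk : r < k
        · rw [if_pos hrk, if_pos (Or.inl hrk), hY r hrk, hVd, hneg]
          simp [h6]
        · rw [if_neg hrk, if_neg (by omega), hF _ (by unfold isPrim idN; norm_num)]
          rfl
    rw [h4]
    -- scale back
    have h5 : ∀ R, runN 1 (fun r => F (slotO P.p P.b β s w k c j t (τ * (1 + (7 + (1 + (7 + 1)))) +
        (1 + (7 + (1 + (7 + r))))))) R = mulA j x⁻¹ R := by
      intro R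
      change F (slotO P.p P.b β s w k c j t (τ * 17 + 16)) R = _
      obtain ⟨e1, e2⟩ := hr 16 (by norm_num)
      unfold slotO
      rw [e1, e2, if_neg (by norm_num), if_neg (by norm_num), if_neg (by norm_num),
        if_neg (by norm_num), if_neg (by norm_num), if_neg (by norm_num),
        hF _ (by unfold isPrim; norm_num), prim_1, invN_cast, ← hx]
    rw [h5]
    simp only [one_smul]
    funext i
    unfold mulA addB
    by_cases hij : i = j
    · subst hij
      have hW : Wd P.n P.E i k V 7 i = (0 : ℕ → ZMod P.p) := by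
        unfold Wd
        rw [if_neg (fun h => h.1 rfl)]
      simp only [if_true, Function.update_self, hW, add_zero, smul_zero]
    · simp only [if_neg hij, Function.update_of_ne hij]
      rw [neg_one_smul, add_neg_cancel_right, smul_smul, inv_mul_cancel₀ hx0, one_smul]
  rw [runN_mul, runN_addB (P.p - 1) j _ (fun τ R => (-(t : ZMod P.p)) • locE P O (P.b * β + s) k j
        (fun i => mulA j ((τ + 1 : ℕ) : ZMod P.p) R i + Wd P.n P.E j k V 7 i)) key ?_ R]
  · congr 1
    rw [← Finset.smul_sum]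
    funext u
    simp only [Pi.smul_apply, Finset.sum_apply, smul_eq_mul]
    have h1 : ∀ τ : ℕ, locE P O (P.b * β + s) k j
        (fun i => mulA j ((τ + 1 : ℕ) : ZMod P.p) R i + Wd P.n P.E j k V 7 i) u =
        gext P.p P.n (7 * P.E) (fun e => cv P.p P.n P.E (phi O (P.b * β + s) k (yn P.N e 6)
          (fun m => if m = 6 then 0 else yn P.N e m)) u)
          (fun i => ((τ + 1 : ℕ) : ZMod P.p) * opd P.E k j R i + gv P.p P.n e i) := by
      intro τ
      unfold locE
      refine gext_congr _ _ _ fun i hi => ?_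
      rw [he]
      exact opd_up hNp j k hV _ R i hi
    simp only [h1]
    rw [sum_gext hn (7 * P.E) _ _ _ hdeg, gext_gv hnp hn _ e heN, hyq, hyy]
    ring
  · intro τ _ v R
    have h1 : ∀ R : Rg P.p, locE P O (P.b * β + s) k j
        (fun i => mulA j ((τ + 1 : ℕ) : ZMod P.p) R i + Wd P.n P.E j k V 7 i) =
        fun u => gext P.p P.n (7 * P.E) (fun e => cv P.p P.n P.E (phi O (P.b * β + s) k (yn P.N e 6)
          (fun m => if m = 6 then 0 else yn P.N e m)) u)
          (fun i => ((τ + 1 : ℕ) : ZMod P.p) * opd P.E k j R i + gv P.p P.n e i) := by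
      intro R
      funext u
      unfold locE
      refine gext_congr _ _ _ fun i hi => ?_
      rw [he]
      exact opd_up hNp j k hV _ R i hi
    simp only [h1, opd_addB]

end

end TV

end Pool.Agent.MP_6216ea_lc
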