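import Pool.Agent.Lib.MP_6216ea_lc.TVLev

/-! The algorithm with eight registers on one number. -/

set_option autoImplicit false

namespace Pool.Agent.MP_6216ea_lc

namespace TV

open SP
open DU (Rg addB mulB runN runN_zero runN_succ One fineA)
open DU.Nm (pack pack_digit pack_lt invN invN_cast invN_lt rg rg_upd rg_zero lt_block)

/-- The digits. -/
abbrev dg (p X l : ℕ) : ℕ := DU.Nm.dg p X l

/-- The numeric form of `lg`. -/
def lgN (p n a r : ℕ) : ℕ :=
  (∏ b ∈ Finset.range n, if b = a then 1 else (r + p - b) * invN p (a + p - b)) % (p - 1 + 1)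

theorem lgN_cast {p : ℕ} [Fact p.Prime] {n : ℕ} (hn : n ≤ p) (a r : ℕ) :
    ((lgN p n a r : ℕ) : ZMod p) = lg p n a (r : ZMod p) := by
  have hp : 0 < p := (Fact.out : p.Prime).pos
  have hp1 : p - 1 + 1 = p := by omega
  unfold lgN lg
  rw [hp1, ZMod.natCast_mod, Nat.cast_prod]
  refine Finset.prod_congr rfl fun b hb => ?_
  have hb' := Finset.mem_range.1 hb
  split_ifs
  · simp
  · rw [Nat.cast_mul, invN_cast, Nat.cast_sub (by omega), Nat.cast_sub (by omega), Nat.cast_add,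
      Nat.cast_add, ZMod.natCast_self, add_zero, add_zero]

/-- The numeric form of `gext`. -/
def gextN (p n m : ℕ) (f r : ℕ → ℕ) : ℕ :=
  (∑ e ∈ Finset.range (n ^ m), f e * ((∏ i ∈ Finset.range m, lgN p n (e / n ^ i % n) (r i)) %
    (p - 1 + 1))) % p

theorem gextN_cast {p : ℕ} [Fact p.Prime] {n : ℕ} (hn : n ≤ p) (m : ℕ) (f r : ℕ → ℕ) :
    ((gextN p n m f r : ℕ) : ZMod p) =
      gext p n m (fun e => (f e : ZMod p)) fun i => (r i : ZMod p) := by
  have hp : 0 < p := (Fact.out : p.Prime).pos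
  have hp1 : p - 1 + 1 = p := by omega
  unfold gextN gext
  rw [hp1, ZMod.natCast_mod, Nat.cast_sum]
  refine Finset.sum_congr rfl fun e _ => ?_
  rw [Nat.cast_mul, ZMod.natCast_mod, Nat.cast_prod]
  congr 1
  exact Finset.prod_congr rfl fun i _ => lgN_cast hn _ _

/-- The numeric form of `ind`. -/
def indN (P : Par) (c k X : ℕ) : ℕ :=
  (∏ i ∈ Finset.range P.E, lgN P.p P.n (c / P.n ^ i % P.n) (dg P.p X (k * P.E + i))) %
    (P.p - 1 + 1)

/-- The numeric form of `opd`. -/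
def opdN (P : Par) (k j X i : ℕ) : ℕ :=
  if i < 7 * P.E ∧ (i / P.E < k ∨ i / P.E = 6) then dg P.p X (sA j (i / P.E) * P.E + i % P.E)
  else 0

/-- The numeric form of `locE`. -/
def locN (P : Par) (O : One) (L k j X u : ℕ) : ℕ :=
  gextN P.p P.n (7 * P.E) (fun e => phi O L k (yn P.N e 6)
    (fun m => if m = 6 then 0 else yn P.N e m) / P.n ^ u % P.n) (opdN P k j X)

/-- The numeric form of the elementary steps. -/
def stepN (P : Par) (O : One) (base : ℕ → ℕ) (v : N7) (X : ℕ) : ℕ :=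
  if v.1 = 1 then
    pack P.p (fun l => if l / P.E = v.2.2.2.2.2.1 then dg P.p X l
      else v.2.2.2.2.2.2 * dg P.p X l % P.p) ((7 + 1) * P.E)
  else if v.1 = 2 then
    pack P.p (fun l => if l / P.E = v.2.2.2.2.2.1 then v.2.2.2.2.2.2 * dg P.p X l % P.p
      else dg P.p X l) ((7 + 1) * P.E)
  else if v.1 = 3 then
    pack P.p (fun l => if l / P.E = v.2.2.2.2.2.1 then
      (dg P.p X l + v.2.2.2.2.2.2 * indN P v.2.2.2.2.1 (sA v.2.2.2.2.2.1 0) X % P.p *
        dg P.p X (sA v.2.2.2.2.2.1 1 * P.E + l % P.E)) % P.p else dg P.p X l) ((7 + 1) * P.E)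
  else if v.1 = 4 then
    pack P.p (fun l => if l / P.E = v.2.2.2.2.2.1 then
      (dg P.p X l + v.2.2.2.2.2.2 *
        locN P O (P.b * v.2.1 + v.2.2.1) v.2.2.2.1 v.2.2.2.2.2.1 X (l % P.E)) % P.p
      else dg P.p X l) ((7 + 1) * P.E)
  else if v.1 = 5 then
    pack P.p (fun l => if l / P.E = v.2.2.2.2.2.1 then
      (dg P.p X l + v.2.2.2.2.2.2 * (v.2.2.2.2.1 / P.n ^ (l % P.E) % P.n)) % P.p
      else dg P.p X l) ((7 + 1) * P.E)
  else if v.1 = 6 then
    pack P.p (fun l => if l / P.E = v.2.2.2.2.2.1 then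
      (dg P.p X l + v.2.2.2.2.2.2 * (base v.2.2.2.2.1 / P.n ^ (l % P.E) % P.n)) % P.p
      else dg P.p X l) ((7 + 1) * P.E)
  else X

theorem dg_lt {p : ℕ} (hp : 0 < p) (X l : ℕ) : dg p X l < p := Nat.mod_lt _ hp

theorem stepN_lt {P : Par} {O : One} {base : ℕ → ℕ} (hp : 0 < P.p) (v : N7) {X : ℕ}
    (hX : X < P.p ^ ((7 + 1) * P.E)) : stepN P O base v X < P.p ^ ((7 + 1) * P.E) := by
  unfold stepN
  split_ifs
  all_goals first
    | exact hX
    | (refine pack_lt _ fun l _ => ?_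
       split_ifs
       all_goals exact Nat.mod_lt _ hp)

theorem rg_mulA {p E X j : ℕ} (hp : 0 < p) (t : ℕ) :
    rg p E 7 (pack p (fun l => if l / E = j then dg p X l else t * dg p X l % p)
      ((7 + 1) * E)) = mulA j (t : ZMod p) (rg p E 7 X) := by
  have hd : ∀ l < (7 + 1) * E, (fun l => if l / E = j then dg p X l else t * dg p X l % p) l < p := by
    intro l _
    beta_reduce
    split_ifs
    · exact Nat.mod_lt _ hp
    · exact Nat.mod_lt _ hp
  funext k u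
  by_cases h : k ≤ 7 ∧ u < E
  · have h1 : (k * E + u) / E = k := by
      rw [Nat.add_comm, Nat.add_mul_div_right _ _ (by omega), Nat.div_eq_of_lt h.2, Nat.zero_add]
    have h2 := pack_digit ((7 + 1) * E) hd (k * E + u) (lt_block h.1 h.2)
    have h3 : rg p E 7 (pack p (fun l => if l / E = j then dg p X l else t * dg p X l % p)
      ((7 + 1) * E)) k u = (((if k = j then dg p X (k * E + u) else t * dg p X (k * E + u) % p) :
        ℕ) : ZMod p) := by
      unfold rg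
      rw [if_pos h]
      congr 1
      change _ / _ % _ = _
      rw [h2]
      beta_reduce
      rw [h1]
    have h4 : rg p E 7 X k u = ((dg p X (k * E + u) : ℕ) : ZMod p) := if_pos h
    rw [h3]
    unfold mulA
    by_cases hk : k = j
    · rw [if_pos hk, if_pos hk, h4]
    · rw [if_neg hk, if_neg hk]
      simp only [Pi.smul_apply, smul_eq_mul]
      rw [h4, ZMod.natCast_mod, Nat.cast_mul]
  · have h3 : ∀ X, rg p E 7 X k u = 0 := fun X => if_neg h
    unfold mulA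
    by_cases hk : k = j
    · rw [if_pos hk, h3, h3]
    · rw [if_neg hk, h3]
      simp only [Pi.smul_apply, smul_eq_mul]
      rw [h3, mul_zero]

theorem step_rg (P : Par) [Fact P.p.Prime] (O : One) (base : ℕ → ℕ) (hnp : P.n ≤ P.p)
    (hn : 0 < P.n) (v : N7) (X : ℕ) (hv : v.2.2.2.2.2.1 ≤ 7) :
    rg P.p P.E 7 (stepN P O base v X) = prim P O base v (rg P.p P.E 7 X) := by
  have hp : 0 < P.p := (Fact.out : P.p.Prime).pos
  obtain ⟨kd, β, s, w, c, j, t⟩ := v
  change j ≤ 7 at hv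
  have hmod : ∀ {u D k : ℕ}, u < D → (k * D + u) % D = u := fun {u D k} hu => by
    rw [Nat.add_comm, Nat.add_mul_mod_self_right, Nat.mod_eq_of_lt hu]
  have hrg : ∀ k u, k ≤ 7 → u < P.E →
      rg P.p P.E 7 X k u = ((dg P.p X (k * P.E + u) : ℕ) : ZMod P.p) :=
    fun k u hk hu => if_pos ⟨hk, hu⟩
  have hrg0 : ∀ k u, ¬ u < P.E → rg P.p P.E 7 X k u = 0 :=
    fun k u hu => if_neg fun h => hu h.2
  unfold stepN
  simp only
  by_cases h1 : kd = 1
  · subst h1
    rw [if_pos rfl, prim_1]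
    exact rg_mulA hp t
  rw [if_neg h1]
  by_cases h2 : kd = 2
  · subst h2
    rw [if_pos rfl, rg_upd hp hv _ (fun l => Nat.mod_lt _ hp) _ fun u => rfl, prim_2]
    unfold mulB
    congr 1
    funext u
    change _ = (t : ZMod P.p) * rg P.p P.E 7 X j u
    by_cases hu : u < P.E
    · rw [if_pos hu, hrg j u hv hu, ZMod.natCast_mod, Nat.cast_mul]
    · rw [if_neg hu, hrg0 j u hu, mul_zero]
  rw [if_neg h2]
  by_cases h3 : kd = 3
  · subst h3
    rw [if_pos rfl, rg_upd hp hv _ (fun l => Nat.mod_lt _ hp) _ fun u => rfl, prim_3]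
    unfold addB
    congr 1
    funext u
    change _ = rg P.p P.E 7 X j u + (t : ZMod P.p) *
      ind P.p P.n P.E c (rg P.p P.E 7 X (sA j 0)) * rg P.p P.E 7 X (sA j 1) u
    have hind : ind P.p P.n P.E c (rg P.p P.E 7 X (sA j 0)) =
        ((indN P c (sA j 0) X : ℕ) : ZMod P.p) := by
      have hp1 : P.p - 1 + 1 = P.p := by omega
      unfold ind indN
      rw [hp1, ZMod.natCast_mod, Nat.cast_prod]
      refine Finset.prod_congr rfl fun i hi => ?_
      rw [lgN_cast hnp, hrg _ _ (sA_le (by norm_num)) (Finset.mem_range.1 hi)]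
    rw [hind]
    by_cases hu : u < P.E
    · rw [if_pos hu, hrg j u hv hu, hrg _ u (sA_le (by norm_num)) hu, ZMod.natCast_mod,
        Nat.cast_add, Nat.cast_mul, ZMod.natCast_mod, Nat.cast_mul, hmod hu]
    · rw [if_neg hu, hrg0 j u hu, hrg0 _ u hu, mul_zero, add_zero]
  rw [if_neg h3]
  by_cases h4 : kd = 4
  · subst h4
    rw [if_pos rfl, rg_upd hp hv _ (fun l => Nat.mod_lt _ hp) _ fun u => rfl, prim_4]
    unfold addB
    congr 1
    funext u
    change _ = rg P.p P.E 7 X j u + (t : ZMod P.p) *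
      locE P O (P.b * β + s) w j (rg P.p P.E 7 X) u
    by_cases hu : u < P.E
    · have hloc : locE P O (P.b * β + s) w j (rg P.p P.E 7 X) u =
          ((locN P O (P.b * β + s) w j X u : ℕ) : ZMod P.p) := by
        have hE : 0 < P.E := by omega
        unfold locE locN
        rw [gextN_cast hnp]
        have e1 : opd P.E w j (rg P.p P.E 7 X) =
            fun i => ((opdN P w j X i : ℕ) : ZMod P.p) := by
          funext i
          unfold opd opdN
          split_ifs with hi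
          · have h5 : i / P.E < 7 := Nat.div_lt_of_lt_mul (by rw [Nat.mul_comm]; exact hi.1)
            rw [hrg _ _ (sA_le (by omega)) (Nat.mod_lt _ hE)]
          · rw [Nat.cast_zero]
        rw [e1]
        congr 1
        funext e
        unfold cv
        rw [if_pos hu]
        rfl
      rw [if_pos hu, hrg j u hv hu, hloc, ZMod.natCast_mod, Nat.cast_add, Nat.cast_mul, hmod hu]
    · have hloc : locE P O (P.b * β + s) w j (rg P.p P.E 7 X) u = 0 := by
        unfold locE gext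
        refine Finset.sum_eq_zero fun e _ => ?_
        unfold cv
        beta_reduce
        rw [if_neg hu, zero_mul]
      rw [if_neg hu, hrg0 j u hu, hloc, mul_zero, add_zero]
  rw [if_neg h4]
  by_cases h5 : kd = 5
  · subst h5
    rw [if_pos rfl, rg_upd hp hv _ (fun l => Nat.mod_lt _ hp) _ fun u => rfl, prim_5]
    unfold addB
    congr 1
    funext u
    change _ = rg P.p P.E 7 X j u + (t : ZMod P.p) * cv P.p P.n P.E c u
    unfold cv
    by_cases hu : u < P.E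
    · rw [if_pos hu, if_pos hu, hrg j u hv hu, ZMod.natCast_mod, Nat.cast_add, Nat.cast_mul,
        hmod hu]
      rfl
    · rw [if_neg hu, if_neg hu, hrg0 j u hu, mul_zero, add_zero]
  rw [if_neg h5]
  by_cases h6 : kd = 6
  · subst h6
    rw [if_pos rfl, rg_upd hp hv _ (fun l => Nat.mod_lt _ hp) _ fun u => rfl, prim_6]
    unfold addB
    congr 1
    funext u
    change _ = rg P.p P.E 7 X j u + (t : ZMod P.p) * cv P.p P.n P.E (base c) u
    unfold cv
    by_cases hu : u < P.E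
    · rw [if_pos hu, if_pos hu, hrg j u hv hu, ZMod.natCast_mod, Nat.cast_add, Nat.cast_mul,
        hmod hu]
      rfl
    · rw [if_neg hu, if_neg hu, hrg0 j u hu, mul_zero, add_zero]
  rw [if_neg h6]
  unfold prim
  simp only
  rw [if_neg h1, if_neg h2, if_neg h3, if_neg h4, if_neg h5, if_neg h6]

/-! ### Bounds for the nodes -/

/-- The nodes which occur. -/
def Bdd (P : Par) (g Q : ℕ) (v : N7) : Prop :=
  v.1 ≤ 9 ∧ v.2.1 ≤ g ∧ v.2.2.1 ≤ P.b ∧
    ((v.1 = 7 ∨ v.1 = 8) → (v.2.2.2.1 + 1) * 7 ^ v.2.2.1 ≤ 7 ^ P.b) ∧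
    (v.1 = 8 → v.2.2.1 < P.b) ∧ v.2.2.2.1 ≤ 7 ^ P.b + 6 ∧ v.2.2.2.2.1 ≤ Q ∧
    v.2.2.2.2.2.1 ≤ 7 ∧ v.2.2.2.2.2.2 ≤ P.p

theorem prim_bdd {P : Par} {g Q kd β s w c j t : ℕ} (h1 : kd ≤ 6) (h2 : β ≤ g) (h3 : s ≤ P.b)
    (h4 : w ≤ 6) (h5 : c ≤ Q) (h6 : j ≤ 7) (h7 : t ≤ P.p) :
    Bdd P g Q (kd, β, s, w, c, j, t) := by
  refine ⟨by change kd ≤ 9; omega, h2, h3, ?_, ?_, h4.trans (Nat.le_add_left 6 _), h5, h6, h7⟩
  · intro h
    change kd = 7 ∨ kd = 8 at h
    omega
  · intro h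
    change kd = 8 at h
    omega

theorem idN_bdd (P : Par) (g Q : ℕ) : Bdd P g Q idN :=
  prim_bdd (Nat.zero_le _) (Nat.zero_le _) (Nat.zero_le _) (Nat.zero_le _) (Nat.zero_le _)
    (Nat.zero_le _) (Nat.zero_le _)

theorem path_le {b s w : ℕ} (h : (w + 1) * 7 ^ s ≤ 7 ^ b) : w ≤ 7 ^ b := by
  have h1 : 1 ≤ 7 ^ s := Nat.one_le_pow _ _ (by norm_num)
  have h2 : w + 1 ≤ (w + 1) * 7 ^ s := Nat.le_mul_of_pos_right _ h1
  omega

theorem lev_bdd {P : Par} {g Q β s w c j t : ℕ} (h2 : β ≤ g) (h3 : s ≤ P.b)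
    (h4 : (w + 1) * 7 ^ s ≤ 7 ^ P.b) (h5 : c ≤ Q) (h6 : j ≤ 7) (h7 : t ≤ P.p) :
    Bdd P g Q (7, β, s, w, c, j, t) := by
  have := path_le h4
  refine ⟨by norm_num, h2, h3, fun _ => h4, ?_, this.trans (Nat.le_add_right _ 6), h5, h6, h7⟩
  intro h
  simp at h

theorem opN_bdd {P : Par} {g Q β s w c j t : ℕ} (h2 : β ≤ g)
    (h4 : s < P.b → (w + 1) * 7 ^ s ≤ 7 ^ P.b) (h5 : c ≤ Q) (h6 : j ≤ 7) (h7 : t ≤ P.p) :
    Bdd P g Q (opN P.b β s w c j t) := by
  unfold opN
  split_ifs with h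
  · have := path_le (h4 h)
    exact ⟨by norm_num, h2, h.le, fun _ => h4 h, fun _ => h, this.trans (Nat.le_add_right _ 6),
      h5, h6, h7⟩
  · exact prim_bdd (by norm_num) (Nat.zero_le _) (Nat.zero_le _) (Nat.zero_le _) h5 h6 h7

theorem slotO_bdd {P : Par} {g Q : ℕ} (hp : 0 < P.p) {β s w k c j t m : ℕ} (h2 : β ≤ g)
    (h3 : s < P.b) (h4 : (w + 1) * 7 ^ (s + 1) ≤ 7 ^ P.b) (hk : k ≤ 6) (h5 : c ≤ Q)
    (h6 : j ≤ 7) (hm : m < P.r1) : Bdd P g Q (slotO P.p P.b β s w k c j t m) := by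
  have hm' : m / 17 + 1 ≤ P.p := by
    have : m / 17 < P.p - 1 := Nat.div_lt_of_lt_mul (by rw [Nat.mul_comm]; exact hm)
    omega
  have hng : ∀ t, ngN P.p t ≤ P.p := fun t => Nat.sub_le _ _
  have hpath : ∀ r ≤ 6, (7 * w + r + 1) * 7 ^ s ≤ 7 ^ P.b := by
    intro r hr
    refine le_trans ?_ h4
    rw [pow_succ', ← Nat.mul_assoc]
    exact Nat.mul_le_mul_right _ (by omega)
  unfold slotO
  split_ifs with a1 a2 a3 a4 a5 a6 a7 a8
  · exact prim_bdd (by norm_num) (Nat.zero_le _) (Nat.zero_le _) (Nat.zero_le _) (Nat.zero_le _)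
      h6 hm'
  · exact lev_bdd h2 h3.le (hpath _ (by omega)) h5 (sA_le (by omega)) (by omega)
  · exact idN_bdd P g Q
  · exact opN_bdd h2 (fun _ => h4) h5 (sA_le le_rfl) (by omega)
  · exact prim_bdd (by norm_num) h2 h3.le hk (Nat.zero_le _) h6 (hng _)
  · exact lev_bdd h2 h3.le (hpath _ (by omega)) h5 (sA_le (by omega)) (hng _)
  · exact idN_bdd P g Q
  · exact opN_bdd h2 (fun _ => h4) h5 (sA_le le_rfl) (hng _)
  · exact prim_bdd (by norm_num) (Nat.zero_le _) (Nat.zero_le _) (Nat.zero_le _) (Nat.zero_le _)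
      h6 (invN_lt hp _).le

theorem slotA_bdd {P : Par} {g Q : ℕ} (hp : 0 < P.p) {β w c j t m : ℕ} (h2 : β ≤ g)
    (h4 : (w + 1) * 7 ^ 0 ≤ 7 ^ P.b) (h5 : c ≤ Q)
    (h6 : j ≤ 7) (h7 : t ≤ P.p) (hm : m < P.r1) :
    Bdd P g Q (slotA P.p P.b β w c j t m) := by
  have hm' : m / 17 + 1 ≤ P.p := by
    have : m / 17 < P.p - 1 := Nat.div_lt_of_lt_mul (by rw [Nat.mul_comm]; exact hm)
    omega
  have hng : ∀ t, ngN P.p t ≤ P.p := fun t => Nat.sub_le _ _
  unfold slotA
  split_ifs with a1 a2 a3 a4 a5 a6 a7 a8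
  · exact prim_bdd (by norm_num) (Nat.zero_le _) (Nat.zero_le _) (Nat.zero_le _) (Nat.zero_le _)
      (sA_le (by norm_num)) hm'
  · exact opN_bdd h2 (fun _ => h4) h5 (sA_le (by norm_num)) (by omega)
  · refine ⟨le_rfl, h2, Nat.zero_le _, ?_, ?_, Nat.zero_le _, Nat.zero_le _, h6, h7⟩
    · intro h
      simp at h
    · intro h
      simp at h
  · exact opN_bdd h2 (fun _ => h4) h5 (sA_le (by norm_num)) (hng _)
  · exact prim_bdd (by norm_num) (Nat.zero_le _) (Nat.zero_le _) (Nat.zero_le _) (Nat.zero_le _)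
      (sA_le (by norm_num)) (invN_lt hp _).le
  · exact idN_bdd P g Q

theorem ch1_bdd {P : Par} {g Q : ℕ} (hp : 0 < P.p) {v : N7} {m : ℕ} (h : Bdd P g Q v)
    (hm : m < P.r1) : Bdd P g Q (ch1 P.p P.b v m) := by
  obtain ⟨kd, β, s, w, c, j, t⟩ := v
  obtain ⟨h1, h2, h3, h4, h5, h6, h7, h8, h9⟩ := h
  simp only at h1 h2 h3 h4 h5 h6 h7 h8 h9
  unfold ch1
  simp only
  split_ifs with a1 a2 a3 a4
  · subst a2
    exact slotA_bdd hp h2 (h4 (Or.inl a1)) h7 h8 h9 hm
  · have h10 := h4 (Or.inl a1)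
    refine slotO_bdd hp h2 (by omega) ?_ le_rfl h7 h8 hm
    rw [show s - 1 + 1 = s by omega]
    exact h10
  · have h10 := h4 (Or.inr a3)
    have h11 := h5 a3
    refine slotO_bdd hp h2 h11 ?_ (by omega) h7 h8 hm
    have e1 : (7 : ℕ) ^ P.b = 7 ^ (P.b - (s + 1)) * 7 ^ (s + 1) := by
      rw [← pow_add]
      congr 1
      omega
    have e2 : (7 : ℕ) ^ P.b = 7 ^ (P.b - s) * 7 ^ s := by
      rw [← pow_add]
      congr 1
      omega
    have e3 : (7 : ℕ) ^ (P.b - s) = 7 * 7 ^ (P.b - (s + 1)) := by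
      rw [← pow_succ']
      congr 1
      omega
    rw [e2] at h10
    have h12 : w + 1 ≤ 7 ^ (P.b - s) := Nat.le_of_mul_le_mul_right h10 (Nat.pow_pos (by norm_num))
    rw [e3] at h12
    rw [e1]
    refine Nat.mul_le_mul_right _ ?_
    omega
  · exact ⟨h1, h2, h3, h4, h5, h6, h7, h8, h9⟩
  · exact idN_bdd P g Q

theorem lowN_bdd {P : Par} {g Q : ℕ} {β c j t : ℕ} (h2 : β ≤ g) (h5 : c ≤ Q) (h6 : j ≤ 7)
    (h7 : t ≤ P.p) : Bdd P g Q (lowN P.b β c j t) := by
  unfold lowN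
  split_ifs
  · exact prim_bdd le_rfl (Nat.zero_le _) (Nat.zero_le _) (Nat.zero_le _) h5 h6 h7
  · exact lev_bdd (by omega) le_rfl (by omega) h5 h6 h7

theorem ch2_bdd {P : Par} {g Q : ℕ} (hp : 0 < P.p) {v : N7} {m : ℕ} (hQ : P.N ≤ Q)
    (h : Bdd P g Q v) (hm : m < P.r2) : Bdd P g Q (ch2 P.p P.b v m) := by
  obtain ⟨kd, β, s, w, c, j, t⟩ := v
  obtain ⟨h1, h2, h3, h4, h5, h6, h7, h8, h9⟩ := h
  simp only at h1 h2 h3 h4 h5 h6 h7 h8 h9
  have hng : ∀ t, ngN P.p t ≤ P.p := fun t => Nat.sub_le _ _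
  have hm' : m / 4 ≤ Q := by
    unfold Par.r2 at hm
    omega
  unfold ch2
  simp only
  split_ifs with a1 a2 a3 a4
  · exact prim_bdd (by norm_num) (Nat.zero_le _) (Nat.zero_le _) (Nat.zero_le _) hm' h8 h9
  · exact lowN_bdd h2 hm' (sA_le (by norm_num)) (by omega)
  · exact prim_bdd (by norm_num) (Nat.zero_le _) (Nat.zero_le _) (Nat.zero_le _) hm' h8 (hng _)
  · exact lowN_bdd h2 hm' (sA_le (by norm_num)) (hng _)
  · exact ⟨h1, h2, h3, h4, h5, h6, h7, h8, h9⟩
  · exact idN_bdd P g Q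

/-! ### The algorithm -/

/-- The descent by the digits of the first kind. -/
def dsN (P : Par) (v : N7) (a u : ℕ) : N7 :=
  itr (fun u v => ch1 P.p P.b v (a / P.r1 ^ (P.U - 1 - u) / P.r2 % P.r1)) v u

/-- The descent through a composite level. -/
def dzN (P : Par) (v : N7) (a : ℕ) : N7 := ch2 P.p P.b (dsN P v a P.U) (a % P.r2)

/-- The number of positions of a composite level. -/
def Par.zz (P : Par) : ℕ := P.r1 ^ P.U * P.r2

/-- The descent to a position. -/
def deN (P : Par) (g : ℕ) (v : N7) (pos h : ℕ) : N7 :=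
  itr (fun h v => dzN P v (pos / P.zz ^ (g - 1 - h) % P.zz)) v h

theorem dsN_eq (P : Par) (v : N7) (a u : ℕ) :
    dsN P v a u = ds (ch1 P.p P.b) P.r1 P.r2 v P.U a u := by
  induction u with
  | zero => rfl
  | succ u ih =>
    rw [ds, ← ih, ← Nat.div_div_eq_div_mul]
    rfl

theorem deN_eq (P : Par) (g : ℕ) (v : N7) (pos h : ℕ) :
    deN P g v pos h = desc (ch1 P.p P.b) (ch2 P.p P.b) P.r1 P.r2 P.U v g pos h := by
  induction h with
  | zero => rfl
  | succ h ih =>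
    rw [desc, ← ih, descZ, ← dsN_eq]
    rfl

theorem dsN_bdd {P : Par} {g Q : ℕ} (hp : 2 ≤ P.p) {v : N7} (a u : ℕ) (h : Bdd P g Q v) :
    Bdd P g Q (dsN P v a u) := by
  have hr1 : 0 < P.r1 := by unfold Par.r1; omega
  induction u with
  | zero => exact h
  | succ u ih => exact ch1_bdd (by omega) ih (Nat.mod_lt _ hr1)

theorem dzN_bdd {P : Par} {g Q : ℕ} (hp : 2 ≤ P.p) (hn : 0 < P.n) (hQ : P.N ≤ Q) {v : N7} (a : ℕ)
    (h : Bdd P g Q v) : Bdd P g Q (dzN P v a) :=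
  ch2_bdd (by omega) hQ (dsN_bdd hp a _ h)
    (Nat.mod_lt _ (Nat.mul_pos (by norm_num) (Nat.pow_pos hn)))

theorem deN_bdd {P : Par} {g' g Q : ℕ} (hp : 2 ≤ P.p) (hn : 0 < P.n) (hQ : P.N ≤ Q) {v : N7}
    (pos h : ℕ) (hv : Bdd P g Q v) : Bdd P g Q (deN P g' v pos h) := by
  induction h with
  | zero => exact hv
  | succ h ih => exact dzN_bdd hp hn hQ _ ih

/-- The start node. -/
def stN (b g q : ℕ) : N7 := (7, g - 1, b, 0, q, 0, 1)

theorem stN_bdd {P : Par} {g Q q : ℕ} (hp : 2 ≤ P.p) (hq : q ≤ Q) :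
    Bdd P g Q (stN P.b g q) :=
  lev_bdd (by omega) le_rfl (by omega) hq (by norm_num) (by omega)

/-- The content of the registers after `n` steps. -/
def runX (P : Par) (O : One) (base : ℕ → ℕ) (g q n : ℕ) : ℕ :=
  itr (fun pos X => stepN P O base (deN P g (stN P.b g q) pos g) X) 0 n

theorem runX_lt {P : Par} {O : One} {base : ℕ → ℕ} (hp : 0 < P.p) (g q n : ℕ) :
    runX P O base g q n < P.p ^ ((7 + 1) * P.E) := by
  induction n with
  | zero => exact Nat.pow_pos hp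
  | succ n ih => exact stepN_lt hp _ ih

theorem rg_runX (P : Par) [Fact P.p.Prime] (O : One) (base : ℕ → ℕ) (hnp : P.n ≤ P.p)
    (hn : 0 < P.n) (g q n : ℕ) :
    rg P.p P.E 7 (runX P O base g q n) =
      runN n (fun pos => prim P O base (desc (ch1 P.p P.b) (ch2 P.p P.b) P.r1 P.r2 P.U
        (stN P.b g q) g pos g)) (fun _ _ => 0) := by
  have hp : P.p.Prime := Fact.out
  have hp2 := hp.two_le
  induction n with
  | zero => exact rg_zero P.p P.E 7
  | succ n ih =>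
    have h1 := deN_bdd (P := P) (g' := g) (g := g) (Q := P.N + q) hp2 hn (Nat.le_add_right _ _) n g
      (stN_bdd hp2 (Nat.le_add_left q P.N))
    rw [runN_succ, ← ih, ← deN_eq]
    exact step_rg P O base hnp hn _ _ h1.2.2.2.2.2.2.2.1

/-- The number in block `0`. -/
def valX (P : Par) (X : ℕ) : ℕ := pack P.n (fun u => dg P.p X u % P.n) P.E

theorem pack_digits {n : ℕ} (hn : 0 < n) (E a : ℕ) (ha : a < n ^ E) :
    pack n (fun u => a / n ^ u % n) E = a := by
  have hd : ∀ l < E, (fun u => a / n ^ u % n) l < n := fun l _ => Nat.mod_lt _ hn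
  refine digits_inj (pack_lt E hd) ha fun i hi => ?_
  exact pack_digit E hd i hi

/-- The answer of the recursion. -/
def valR (P : Par) (O : One) (base : ℕ → ℕ) (g q : ℕ) : ℕ :=
  valX P (runX P O base g q (P.zz ^ g))

/-- **The algorithm computes the level `b * g` of the recursion.** -/
theorem valR_eq (P : Par) (hpr : P.p.Prime) (O : One) (base : ℕ → ℕ) (hn : 0 < P.n)
    (hnp : P.n ≤ P.p) (hdeg : 7 * P.E * (P.n - 1) < P.p - 1) (hb : ∀ q, base q < P.N)
    (hh : ∀ L q m a, O.h L q m a < P.N) (he : ∀ L q a, O.e L q a < P.N) (g q : ℕ) (hg : 1 ≤ g)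
    (hq : q < P.N) : valR P O base g q = fineA O base (P.b * g) q := by
  have : Fact P.p.Prime := ⟨hpr⟩
  have hr2 : 0 < P.r2 := Nat.mul_pos (by norm_num) (Nat.pow_pos hn)
  have h1 := rg_runX P O base hnp hn g q (P.zz ^ g)
  have h2 := EE_pos (ch1 P.p P.b) (ch2 P.p P.b) (r1 := P.r1) (U := P.U) (prim P O base) hr2 g
    (stN P.b g q) (fun _ _ => (0 : ZMod P.p))
  have h3 := EP_lev P O base hn hnp hdeg hb hh he g (g - 1) (by omega) q 0 1 hq
    (fun _ _ => (0 : ZMod P.p))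
  have h4 : P.b * (g - 1) + P.b = P.b * g := by
    obtain ⟨g', rfl⟩ : ∃ g', g = g' + 1 := ⟨g - 1, by omega⟩
    rw [show g' + 1 - 1 = g' by omega]
    ring
  rw [h4] at h3
  have hA : fineA O base (P.b * g) q < P.N := by
    generalize P.b * g = L
    cases L with
    | zero => exact hb _
    | succ L => exact he _ _ _
  have h5 : rg P.p P.E 7 (runX P O base g q (P.zz ^ g)) =
      addB 0 ((1 : ℕ) • cv P.p P.n P.E (fineA O base (P.b * g) q)) (fun _ _ => 0) := by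
    rw [h1]
    refine h2.symm.trans (h3.trans ?_)
    rw [Nat.cast_one, one_smul, one_smul]
  unfold valR valX
  rw [← pack_digits hn P.E _ hA]
  refine Finset.sum_congr rfl fun u hu => ?_
  have hu' := Finset.mem_range.1 hu
  congr 1
  have h6 := congrFun (congrFun h5 0) u
  have h7 : rg P.p P.E 7 (runX P O base g q (P.zz ^ g)) 0 u =
      ((dg P.p (runX P O base g q (P.zz ^ g)) u : ℕ) : ZMod P.p) := by
    unfold rg
    rw [if_pos ⟨Nat.zero_le _, hu'⟩, Nat.zero_mul, Nat.zero_add]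
  have h8 : addB 0 ((1 : ℕ) • cv P.p P.n P.E (fineA O base (P.b * g) q))
      (fun _ _ => (0 : ZMod P.p)) 0 u =
      ((fineA O base (P.b * g) q / P.n ^ u % P.n : ℕ) : ZMod P.p) := by
    unfold addB
    rw [Function.update_self, one_smul]
    simp only [Pi.add_apply, zero_add, cv, if_pos hu']
    rfl
  rw [h7, h8] at h6
  have h9 : fineA O base (P.b * g) q / P.n ^ u % P.n < P.n := Nat.mod_lt _ hn
  have h10 := cast_inj (dg_lt hpr.pos _ _) (h9.trans_le hnp) h6
  beta_reduce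
  rw [h10, Nat.mod_eq_of_lt h9]

end TV

end Pool.Agent.MP_6216ea_lc
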