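import Pool.Agent.Lib.MP_6216ea_lc.TVDefs
import Pool.Agent.Lib.MP_6216ea_lc.TUDefs
import Pool.Agent.Lib.MP_6216ea_lc.DCHead

/-! Counting turns along computations. -/

set_option autoImplicit false

namespace Pool.Agent.MP_6216ea_lc

namespace PushProg

variable {ι α : Type} (P : PushProg ι α) (x : ι → α)

theorem conf_last (t : ℕ) (s : P.S) (z : List P.Γ) :
    P.conf x (t + 1) s z = (P.conf x t s z).bind fun c => P.next x c.1 c.2 := by
  induction t generalizing s z with
  | zero =>
    change (P.next x s z).bind (fun c => some c) = _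
    rw [PushProg.conf, Option.bind_some]
    cases P.next x s z <;> rfl
  | succ t ih =>
    rw [PushProg.conf]
    conv_rhs => rw [PushProg.conf]
    cases h : P.next x s z with
    | none => rfl
    | some c =>
      simp only [Option.bind_some]
      exact ih c.1 c.2

/-- There are at most as many turns as steps. -/
theorem treach_of_conf {t : ℕ} : ∀ {s : P.S} {z : List P.Γ},
    P.conf x t P.start [] = some (s, z) → ∃ k b, k ≤ t ∧ P.TReach x k b s z := by
  induction t with
  | zero =>
    intro s z h
    obtain ⟨rfl, rfl⟩ := Prod.mk.inj (Option.some.inj h)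
    exact ⟨0, false, le_rfl, .start⟩
  | succ t ih =>
    intro s z h
    rw [P.conf_last] at h
    cases h1 : P.conf x t P.start [] with
    | none => rw [h1] at h; cases h
    | some c =>
      obtain ⟨s', z'⟩ := c
      rw [h1, Option.bind_some] at h
      obtain ⟨k, b, hk, h2⟩ := ih h1
      unfold PushProg.next at h
      simp only at h
      cases hi : P.instr s' with
      | jump s'' =>
        rw [hi] at h
        simp only [Option.some.injEq, Prod.mk.injEq] at h
        obtain ⟨rfl, rfl⟩ := h
        exact ⟨k, b, by omega, .jump h2 hi⟩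
      | read i f =>
        rw [hi] at h
        simp only [Option.some.injEq, Prod.mk.injEq] at h
        obtain ⟨rfl, rfl⟩ := h
        exact ⟨k, b, by omega, .read h2 hi⟩
      | push g s'' =>
        rw [hi] at h
        simp only [Option.some.injEq, Prod.mk.injEq] at h
        obtain ⟨rfl, rfl⟩ := h
        exact ⟨k, true, by omega, .push h2 hi⟩
      | pop f =>
        rw [hi] at h
        cases z' with
        | nil => cases h
        | cons g z' =>
          simp only [Option.some.injEq, Prod.mk.injEq] at h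
          obtain ⟨rfl, rfl⟩ := h
          refine ⟨tn b k, false, ?_, .pop h2 hi⟩
          unfold tn
          split_ifs <;> omega

theorem conf_of_treach {k : ℕ} {b : Bool} {s : P.S} {z : List P.Γ} (h : P.TReach x k b s z) :
    ∃ t, P.conf x t P.start [] = some (s, z) := by
  induction h with
  | start => exact ⟨0, rfl⟩
  | jump h1 h2 ih =>
    obtain ⟨t, ht⟩ := ih
    refine ⟨t + 1, ?_⟩
    rw [P.conf_last, ht, Option.bind_some]
    unfold PushProg.next
    rw [h2]
  | read h1 h2 ih =>
    obtain ⟨t, ht⟩ := ih
    refine ⟨t + 1, ?_⟩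
    rw [P.conf_last, ht, Option.bind_some]
    unfold PushProg.next
    rw [h2]
  | push h1 h2 ih =>
    obtain ⟨t, ht⟩ := ih
    refine ⟨t + 1, ?_⟩
    rw [P.conf_last, ht, Option.bind_some]
    unfold PushProg.next
    rw [h2]
  | pop h1 h2 ih =>
    obtain ⟨t, ht⟩ := ih
    refine ⟨t + 1, ?_⟩
    rw [P.conf_last, ht, Option.bind_some]
    unfold PushProg.next
    rw [h2]

end PushProg

/-! ### Turns of the program of a head automaton -/

/-- What happens to the count. -/
def HeadPDA.cnt {α : Type} (M : HeadPDA α) {n : ℕ} (c : M.Conf n) (kb : ℕ × Bool) : ℕ × Bool :=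
  match M.instr c.1 with
  | .look _ _ => kb
  | .right _ _ => kb
  | .left _ _ _ => kb
  | .push _ _ => (kb.1, true)
  | .pop _ => (tn kb.2 kb.1, c.2.2.isEmpty)

/-- The invariants of the program. -/
def HeadPDA.PInv {α : Type} (M : HeadPDA α) {n : ℕ} (I : ℕ × Bool → M.Conf n → Prop) (k : ℕ)
    (b : Bool) (s : M.Node n) (y : List (Option M.Γ)) : Prop :=
  match s with
  | none => k = 0 ∧ b = false ∧ y = []
  | some (.inl (q, p)) => ∃ z, y = M.stk z ∧ I (k, b) (q, p, z)
  | some (.inr (.inl (q, p))) => ∃ z, y = M.stk z ∧ I (k, b) (q, p, z)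
  | some (.inr (.inr (q, p))) => y = [] ∧ I (k, true) (q, p, [])

/-- Invariants of the computation of the automaton give invariants of the program. -/
theorem HeadPDA.treach_inv {α : Type} (M : HeadPDA α) {n : ℕ} (x : Fin n → α)
    (I : ℕ × Bool → M.Conf n → Prop) (h0 : I (0, true) (M.start, fun _ => 0, []))
    (hI : ∀ kb c, I kb c → I (M.cnt c kb) (M.step x c)) {k : ℕ} {b : Bool} {s : (M.prog n).S}
    {y : List (M.prog n).Γ} (h : (M.prog n).TReach x k b s y) : M.PInv I k b s y := by
  induction h with
  | start => exact ⟨rfl, rfl, rfl⟩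
  | @jump k b s s' y h1 h2 ih =>
    have h2 : M.nodeInstr n s = .jump s' := h2
    rcases s with _ | ⟨q, p⟩ | ⟨q, p⟩ | ⟨q, p⟩
    · cases h2
    · obtain ⟨z, hz, hi⟩ := ih
      have h3 := hI _ _ hi
      rw [HeadPDA.nodeInstr] at h2
      rcases hq : M.instr q with ⟨h, f⟩ | ⟨h, q'⟩ | ⟨h, q', q''⟩ | ⟨g, q'⟩ | ⟨f⟩
      · simp only [hq] at h2
        by_cases hp : (p h).val < n
        · rw [dif_pos hp] at h2; cases h2
        · rw [dif_neg hp] at h2
          cases h2
          refine ⟨z, hz, ?_⟩
          simp only [HeadPDA.cnt, HeadPDA.step, hq, dif_neg hp] at h3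
          exact h3
      · simp only [hq] at h2
        cases h2
        refine ⟨z, hz, ?_⟩
        simp only [HeadPDA.cnt, HeadPDA.step, hq] at h3
        exact h3
      · simp only [hq] at h2
        by_cases hp : (p h).val = 0
        · rw [if_pos hp] at h2
          cases h2
          refine ⟨z, hz, ?_⟩
          simp only [HeadPDA.cnt, HeadPDA.step, hq, if_pos hp] at h3
          exact h3
        · rw [if_neg hp] at h2
          cases h2
          refine ⟨z, hz, ?_⟩
          simp only [HeadPDA.cnt, HeadPDA.step, hq, if_neg hp] at h3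
          exact h3
      · simp only [hq] at h2; cases h2
      · simp only [hq] at h2; cases h2
    · cases h2
      exact ih
    · cases h2
  | @read k b s i F y h1 h2 ih =>
    have h2 : M.nodeInstr n s = .read i F := h2
    rcases s with _ | ⟨q, p⟩ | ⟨q, p⟩ | ⟨q, p⟩
    · cases h2
    · obtain ⟨z, hz, hi⟩ := ih
      have h3 := hI _ _ hi
      rw [HeadPDA.nodeInstr] at h2
      rcases hq : M.instr q with ⟨h, f⟩ | ⟨h, q'⟩ | ⟨h, q', q''⟩ | ⟨g, q'⟩ | ⟨f⟩
      · simp only [hq] at h2
        by_cases hp : (p h).val < n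
        · rw [dif_pos hp] at h2
          cases h2
          refine ⟨z, hz, ?_⟩
          simp only [HeadPDA.cnt, HeadPDA.step, hq, dif_pos hp] at h3
          exact h3
        · rw [dif_neg hp] at h2; cases h2
      · simp only [hq] at h2; cases h2
      · simp only [hq] at h2; split_ifs at h2
      · simp only [hq] at h2; cases h2
      · simp only [hq] at h2; cases h2
    · cases h2
    · cases h2
  | @push k b s s' g y h1 h2 ih =>
    have h2 : M.nodeInstr n s = .push g s' := h2
    rcases s with _ | ⟨q, p⟩ | ⟨q, p⟩ | ⟨q, p⟩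
    · obtain ⟨rfl, rfl, rfl⟩ := ih
      cases h2
      exact ⟨[], rfl, h0⟩
    · obtain ⟨z, hz, hi⟩ := ih
      have h3 := hI _ _ hi
      rw [HeadPDA.nodeInstr] at h2
      rcases hq : M.instr q with ⟨h, f⟩ | ⟨h, q'⟩ | ⟨h, q', q''⟩ | ⟨g', q'⟩ | ⟨f⟩
      · simp only [hq] at h2; split_ifs at h2
      · simp only [hq] at h2; cases h2
      · simp only [hq] at h2; split_ifs at h2
      · simp only [hq] at h2
        cases h2
        refine ⟨g' :: z, ?_, ?_⟩
        · rw [hz]; rfl
        · simp only [HeadPDA.cnt, HeadPDA.step, hq] at h3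
          exact h3
      · simp only [hq] at h2; cases h2
    · cases h2
    · cases h2
      obtain ⟨rfl, hi⟩ := ih
      exact ⟨[], rfl, hi⟩
  | @pop k b s F g y h1 h2 ih =>
    have h2 : M.nodeInstr n s = .pop F := h2
    rcases s with _ | ⟨q, p⟩ | ⟨q, p⟩ | ⟨q, p⟩
    · cases h2
    · obtain ⟨z, hz, hi⟩ := ih
      have h3 := hI _ _ hi
      rw [HeadPDA.nodeInstr] at h2
      rcases hq : M.instr q with ⟨h, f⟩ | ⟨h, q'⟩ | ⟨h, q', q''⟩ | ⟨g', q'⟩ | ⟨f⟩
      · simp only [hq] at h2; split_ifs at h2
      · simp only [hq] at h2; cases h2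
      · simp only [hq] at h2; split_ifs at h2
      · simp only [hq] at h2; cases h2
      · simp only [hq] at h2
        cases h2
        simp only [HeadPDA.cnt, HeadPDA.step, hq] at h3
        rcases z with _ | ⟨g', z⟩
        · have h4 : g :: y = [none] := hz
          cases h4
          exact ⟨rfl, h3⟩
        · have h4 : g :: y = some g' :: M.stk z := hz
          cases h4
          exact ⟨z, rfl, h3⟩
    · cases h2
    · cases h2

end Pool.Agent.MP_6216ea_lc
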