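import Pool.Agent.Lib.MP_6216ea_lc.TUUp
import Pool.Agent.Lib.MP_6216ea_lc.OPWalk
import Pool.Agent.Lib.MP_6216ea_lc.TUProg

/-! A computation with `T` turns is simulated with `2 T` stack operations, and it is detected if
there are more turns. -/

set_option autoImplicit false
set_option linter.unusedSimpArgs false

namespace Pool.Agent.MP_6216ea_lc

/-- The nodes of the simulating program. -/
inductive VNode (S : Type) (T N : ℕ) : Type where
  | dead
  | exc
  | up (k : Fin (T + 1)) (s u : S) (m : Fin (N + 1))
  | dn (k : Fin (T + 1)) (q s : S) (m : Fin (N + 1))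
  | inn (k : Fin (T + 1)) (q s : S) (m : Fin (N + 1)) (u : S) (i : Fin (N + 1))

namespace VNode

variable {S : Type} {T N : ℕ}

/-- The nodes as an option of a sum. -/
def toSum : VNode S T N → Option (Option ((Fin (T + 1) × S × S × Fin (N + 1)) ⊕
    (Fin (T + 1) × S × S × Fin (N + 1)) ⊕ (Fin (T + 1) × S × S × Fin (N + 1) × S × Fin (N + 1))))
  | dead => none
  | exc => some none
  | up k s u m => some (some (.inl (k, s, u, m)))
  | dn k q s m => some (some (.inr (.inl (k, q, s, m))))
  | inn k q s m u i => some (some (.inr (.inr (k, q, s, m, u, i))))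

theorem toSum_inj : Function.Injective (toSum : VNode S T N → _) := by
  intro a b h
  cases a <;> cases b <;> simp_all [toSum]

noncomputable instance [Fintype S] : Fintype (VNode S T N) := Fintype.ofInjective _ toSum_inj

end VNode

namespace PushProg

variable {ι α : Type} (P : PushProg ι α) (x : ι → α)

/-- The instructions of the simulating program. -/
def vI (T N : ℕ) : VNode P.S T N → PInstr ι α (P.S × Fin (N + 1)) (VNode P.S T N)
  | .dead => .jump .dead
  | .exc => .jump .exc
  | .up k s u m =>
    match P.instr u with
    | .jump u' => .jump (.up k s u' m)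
    | .read i f => .read i fun a => .up k s (f a) m
    | .push _ u' => if h : m.val + 1 < N + 1 then .jump (.up k s u' ⟨m.val + 1, h⟩) else .jump .dead
    | .pop _ => if m.val = 0 then .jump .dead
        else if h : k.val + 1 < T + 1 then .jump (.dn ⟨k.val + 1, h⟩ u s m) else .jump .exc
  | .dn k q s m =>
    match P.instr q with
    | .jump q' => .jump (.dn k q' s m)
    | .read i f => .read i fun a => .dn k (f a) s m
    | .push _ _ => if m.val = 0 then .jump (.up k q q 0) else .push (s, m) (.up k q q 0)
    | .pop _ => if m.val = 0 then .pop fun g => .dn k q g.1 g.2 else .jump (.inn k q s m s 0)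
  | .inn k q s m u i =>
    match P.instr u with
    | .jump u' => .jump (.inn k q s m u' i)
    | .read j f => .read j fun a => .inn k q s m (f a) i
    | .push g u' =>
      if i.val + 1 = m.val then
        match P.instr q with
        | .pop f => .jump (.dn k (f g) s i)
        | _ => .jump .dead
      else
        if h : i.val + 1 < N + 1 then .jump (.inn k q s m u' ⟨i.val + 1, h⟩) else .jump .dead
    | .pop _ => .jump .dead

/-- The accepting nodes. -/
def vacc (ov : Bool) (T N : ℕ) : VNode P.S T N → Bool
  | .dead => false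
  | .exc => ov
  | .up _ _ u _ => !ov && P.acc u
  | .dn _ q _ _ => !ov && P.acc q
  | .inn _ _ _ _ _ _ => false

/-- The simulating program. -/
noncomputable def vturn (ov : Bool) (T N : ℕ) : PushProg ι α where
  S := VNode P.S T N
  Γ := P.S × Fin (N + 1)
  fin := inferInstance
  instr := P.vI T N
  start := .up 0 P.start P.start 0
  acc := P.vacc ov T N

/-- The segments represent the content. -/
inductive VRep (N : ℕ) : List (P.S × Fin (N + 1)) → List P.Γ → Prop
  | nil : VRep N [] []
  | cons {s : P.S} {t : ℕ} {m : Fin (N + 1)}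
      {y : List (P.S × Fin (N + 1))} {z : List P.Γ} :
      (P.tj x s t).2.length = m.val → 0 < m.val → VRep N y z →
      VRep N ((s, m) :: y) ((P.tj x s t).2 ++ z)

/-- The number of turns is exceeded. -/
def Exceeds (T : ℕ) : Prop := ∃ k b s z, P.TReach x k b s z ∧ T < k

/-- What a configuration of the simulating program means. -/
def VInv (T N : ℕ) (n : VNode P.S T N) (y : List (P.S × Fin (N + 1))) : Prop :=
  match n with
  | .dead => True
  | .exc => P.Exceeds x T
  | .up k s u m => ∃ t z k' b, (P.tj x s t).1 = u ∧ (P.tj x s t).2.length = m.val ∧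
      P.VRep x N y z ∧ P.TReach x k' b u ((P.tj x s t).2 ++ z) ∧ k' = k.val ∧
      (m.val ≠ 0 → b = true)
  | .dn k q s m => ∃ t z k' b, (P.tj x s t).2.length = m.val ∧ P.VRep x N y z ∧
      P.TReach x k' b q ((P.tj x s t).2 ++ z) ∧ tn b k' = k.val ∧
      (b = true → ∃ f, P.instr q = .pop f)
  | .inn k q s m u i => ∃ t z k' b t' f, (P.tj x s t).2.length = m.val ∧ P.VRep x N y z ∧
      P.TReach x k' b q ((P.tj x s t).2 ++ z) ∧ tn b k' = k.val ∧ P.instr q = .pop f ∧
      (P.tj x s t').1 = u ∧ (P.tj x s t').2.length = i.val ∧ i.val < m.val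

/-- Soundness of one step. -/
theorem VInv_next {ov : Bool} {T N : ℕ} {n n' : VNode P.S T N}
    {y y' : List (P.S × Fin (N + 1))} (hI : P.VInv x T N n y)
    (h : (P.vturn ov T N).next x n y = some (n', y')) : P.VInv x T N n' y' := by
  have hinstr : (P.vturn ov T N).instr n = P.vI T N n := rfl
  unfold PushProg.next at h
  rw [hinstr] at h
  cases n with
  | dead =>
    simp only [vI, Option.some.injEq, Prod.mk.injEq] at h
    obtain ⟨rfl, rfl⟩ := h
    trivial
  | exc =>
    simp only [vI, Option.some.injEq, Prod.mk.injEq] at h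
    obtain ⟨rfl, rfl⟩ := h
    exact hI
  | up k s u m =>
    obtain ⟨t, z, k', b, h1, h2, h3, h4, h5, h6⟩ := hI
    cases hi : P.instr u with
    | jump u' =>
      simp only [vI, hi, Option.some.injEq, Prod.mk.injEq] at h
      obtain ⟨rfl, rfl⟩ := h
      obtain ⟨e1, e2⟩ := P.tj_jump x h1 hi
      exact ⟨t + 1, z, k', b, e1, by rw [e2]; exact h2, h3, by rw [e2]; exact .jump h4 hi, h5, h6⟩
    | read i f =>
      simp only [vI, hi, Option.some.injEq, Prod.mk.injEq] at h
      obtain ⟨rfl, rfl⟩ := h
      obtain ⟨e1, e2⟩ := P.tj_read x h1 hi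
      exact ⟨t + 1, z, k', b, e1, by rw [e2]; exact h2, h3, by rw [e2]; exact .read h4 hi, h5, h6⟩
    | push g u' =>
      simp only [vI, hi] at h
      split_ifs at h with hm
      · simp only [Option.some.injEq, Prod.mk.injEq] at h
        obtain ⟨rfl, rfl⟩ := h
        obtain ⟨e1, e2⟩ := P.tj_push x h1 hi
        exact ⟨t + 1, z, k', true, e1, by rw [e2, List.length_cons, h2], h3,
          by rw [e2]; exact .push h4 hi, h5, fun _ => rfl⟩
      · simp only [Option.some.injEq, Prod.mk.injEq] at h
        obtain ⟨rfl, rfl⟩ := h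
        trivial
    | pop f =>
      simp only [vI, hi] at h
      by_cases hm0 : m.val = 0
      · rw [if_pos hm0] at h
        simp only [Option.some.injEq, Prod.mk.injEq] at h
        obtain ⟨rfl, rfl⟩ := h
        trivial
      · rw [if_neg hm0] at h
        have hb := h6 hm0
        subst hb
        split_ifs at h with hm
        · simp only [Option.some.injEq, Prod.mk.injEq] at h
          obtain ⟨rfl, rfl⟩ := h
          refine ⟨t, z, k', true, h2, h3, h4, ?_, fun _ => ⟨f, hi⟩⟩
          unfold tn
          simp only [if_true]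
          omega
        · simp only [Option.some.injEq, Prod.mk.injEq] at h
          obtain ⟨rfl, rfl⟩ := h
          cases hw : (P.tj x s t).2 with
          | nil => rw [hw] at h2; exact absurd h2.symm hm0
          | cons g w =>
            rw [hw] at h4
            refine ⟨_, _, _, _, .pop h4 hi, ?_⟩
            have := k.isLt
            simp only [tn, if_true]
            omega
  | dn k q s m =>
    obtain ⟨t, z, k', b, h2, h3, h4, h5, h6⟩ := hI
    cases hi : P.instr q with
    | jump u' =>
      simp only [vI, hi, Option.some.injEq, Prod.mk.injEq] at h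
      obtain ⟨rfl, rfl⟩ := h
      refine ⟨t, z, k', b, h2, h3, .jump h4 hi, h5, fun hb => ?_⟩
      obtain ⟨f, hf⟩ := h6 hb
      rw [hi] at hf
      cases hf
    | read i f =>
      simp only [vI, hi, Option.some.injEq, Prod.mk.injEq] at h
      obtain ⟨rfl, rfl⟩ := h
      refine ⟨t, z, k', b, h2, h3, .read h4 hi, h5, fun hb => ?_⟩
      obtain ⟨f, hf⟩ := h6 hb
      rw [hi] at hf
      cases hf
    | push g u' =>
      have hbf : b = false := by
        cases b with
        | false => rfl
        | true =>
          obtain ⟨f, hf⟩ := h6 rfl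
          rw [hi] at hf
          cases hf
      subst hbf
      have h7 : k' = k.val := by simpa [tn] using h5
      simp only [vI, hi] at h
      by_cases hm : m.val = 0
      · rw [if_pos hm] at h
        simp only [Option.some.injEq, Prod.mk.injEq] at h
        obtain ⟨rfl, rfl⟩ := h
        refine ⟨0, z, k', false, rfl, rfl, h3, ?_, h7, fun h8 => absurd rfl h8⟩
        have e : (P.tj x s t).2 = [] := List.length_eq_zero_iff.1 (h2.trans hm)
        rw [e] at h4
        exact h4
      · rw [if_neg hm] at h
        simp only [Option.some.injEq, Prod.mk.injEq] at h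
        obtain ⟨rfl, rfl⟩ := h
        exact ⟨0, _, k', false, rfl, rfl, .cons h2 (by omega) h3, h4, h7, fun h8 => absurd rfl h8⟩
    | pop f =>
      simp only [vI, hi] at h
      by_cases hm : m.val = 0
      · rw [if_pos hm] at h
        have e : (P.tj x s t).2 = [] := List.length_eq_zero_iff.1 (h2.trans hm)
        rw [e] at h4
        cases h3 with
        | nil => simp at h
        | @cons s' t' m' y'' z' h6' h7 h8 =>
          simp only [Option.some.injEq, Prod.mk.injEq] at h
          obtain ⟨rfl, rfl⟩ := h
          exact ⟨t', z', k', b, h6', h8, h4, h5, fun _ => ⟨f, hi⟩⟩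
      · rw [if_neg hm] at h
        simp only [Option.some.injEq, Prod.mk.injEq] at h
        obtain ⟨rfl, rfl⟩ := h
        exact ⟨t, z, k', b, 0, f, h2, h3, h4, h5, hi, rfl, rfl, by
          change 0 < m.val
          omega⟩
  | inn k q s m u i =>
    obtain ⟨t, z, k', b, t', f, h2, h3, h4, h5, h6, h7, h8, h9⟩ := hI
    cases hi : P.instr u with
    | jump u' =>
      simp only [vI, hi, Option.some.injEq, Prod.mk.injEq] at h
      obtain ⟨rfl, rfl⟩ := h
      obtain ⟨e1, e2⟩ := P.tj_jump x h7 hi
      exact ⟨t, z, k', b, t' + 1, f, h2, h3, h4, h5, h6, e1, by rw [e2]; exact h8, h9⟩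
    | read j f' =>
      simp only [vI, hi, Option.some.injEq, Prod.mk.injEq] at h
      obtain ⟨rfl, rfl⟩ := h
      obtain ⟨e1, e2⟩ := P.tj_read x h7 hi
      exact ⟨t, z, k', b, t' + 1, f, h2, h3, h4, h5, h6, e1, by rw [e2]; exact h8, h9⟩
    | push g u' =>
      obtain ⟨e1, e2⟩ := P.tj_push x h7 hi
      simp only [vI, hi] at h
      by_cases hm : i.val + 1 = m.val
      · rw [if_pos hm, h6] at h
        simp only [Option.some.injEq, Prod.mk.injEq] at h
        obtain ⟨rfl, rfl⟩ := h
        have e3 : (P.tj x s t).2 = (P.tj x s (t' + 1)).2 := by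
          apply P.tj_unique
          rw [e2, List.length_cons, h8, h2, hm]
        rw [e3, e2] at h4
        exact ⟨t', z, _, false, h8, h3, .pop h4 h6, by simpa [tn] using h5,
          fun hb => absurd hb (by decide)⟩
      · rw [if_neg hm] at h
        split_ifs at h with hN
        · simp only [Option.some.injEq, Prod.mk.injEq] at h
          obtain ⟨rfl, rfl⟩ := h
          exact ⟨t, z, k', b, t' + 1, f, h2, h3, h4, h5, h6, e1, by
            rw [e2, List.length_cons, h8], by
            change i.val + 1 < m.val
            omega⟩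
        · simp only [Option.some.injEq, Prod.mk.injEq] at h
          obtain ⟨rfl, rfl⟩ := h
          trivial
    | pop f' =>
      simp only [vI, hi, Option.some.injEq, Prod.mk.injEq] at h
      obtain ⟨rfl, rfl⟩ := h
      trivial

theorem VInv_reach {ov : Bool} {T N j : ℕ} {n : (P.vturn ov T N).S}
    {y : List (P.vturn ov T N).Γ} (h : (P.vturn ov T N).Reach x j n y) : P.VInv x T N n y := by
  induction h with
  | start => exact ⟨0, [], 0, false, rfl, rfl, .nil, .start, rfl, fun h => absurd rfl h⟩
  | move _ _ hn ih => exact P.VInv_next x ih hn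
  | op _ _ hn ih => exact P.VInv_next x ih hn

/-- Soundness. -/
theorem vturn_sound {T N j : ℕ} {n : (P.vturn false T N).S} {y : List (P.vturn false T N).Γ}
    (h : (P.vturn false T N).Reach x j n y) (ha : (P.vturn false T N).acc n = true) :
    P.AcceptsTurns x T := by
  have hI := P.VInv_reach x h
  cases n with
  | dead => exact absurd ha (by simp [vturn, vacc])
  | exc => exact absurd ha (by simp [vturn, vacc])
  | up k s u m =>
    obtain ⟨t, z, k', b, h1, h2, h3, h4, h5, -⟩ := hI
    exact ⟨k', h5.le.trans (Nat.lt_succ_iff.1 k.isLt), b, u, _, h4, by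
      simpa [vturn, vacc] using ha⟩
  | dn k q s m =>
    obtain ⟨t, z, k', b, h2, h3, h4, h5, -⟩ := hI
    exact ⟨k', ((le_tn b k').trans h5.le).trans (Nat.lt_succ_iff.1 k.isLt), b, q, _, h4, by
      simpa [vturn, vacc] using ha⟩
  | inn k q s m u i => exact absurd ha (by simp [vturn, vacc])

theorem vturn_sound' {T N j : ℕ} {n : (P.vturn true T N).S} {y : List (P.vturn true T N).Γ}
    (h : (P.vturn true T N).Reach x j n y) (ha : (P.vturn true T N).acc n = true) :
    P.Exceeds x T := by
  have hI := P.VInv_reach x h
  cases n with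
  | dead => exact absurd ha (by simp [vturn, vacc])
  | exc => exact hI
  | up k s u m => exact absurd ha (by simp [vturn, vacc])
  | dn k q s m => exact absurd ha (by simp [vturn, vacc])
  | inn k q s m u i => exact absurd ha (by simp [vturn, vacc])

end PushProg

end Pool.Agent.MP_6216ea_lc
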