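import Mathlib

/-!
# Words over the nodes of a complete binary tree

A word `w` over the nodes of the complete binary tree of depth `n` (nodes are lists of Booleans of
length at most `n`, the children of `x` are `b :: x`) which contains every node, and in which every
window (infix) contains the parent but not the node itself for at most `D` nodes, has length at
least `2 ^ n * (3 / 2) ^ (n / (8 * D + 1))`.
-/

namespace MP6216ea

open List

/-- the children `b :: p` (of depth at most `n`) of members `p` of the word `u`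
that are not themselves members of `u` -/
def defect (n : ℕ) (u : List (List Bool)) : Finset (List Bool) :=
  (u.flatMap (fun p => if p.length < n then [false :: p, true :: p] else [])).toFinset.filter
    (fun j => j ∉ u)

theorem mem_defect {n : ℕ} {u : List (List Bool)} {j : List Bool} :
    j ∈ defect n u ↔ ∃ b p, j = b :: p ∧ p ∈ u ∧ p.length < n ∧ j ∉ u := by
  unfold defect
  simp only [Finset.mem_filter, List.mem_toFinset, List.mem_flatMap]
  constructor
  · rintro ⟨⟨p, hp, hj⟩, hju⟩
    by_cases h : p.length < n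
    · rw [if_pos h] at hj
      simp only [List.mem_cons, List.not_mem_nil, or_false] at hj
      rcases hj with rfl | rfl
      · exact ⟨false, p, rfl, hp, h, hju⟩
      · exact ⟨true, p, rfl, hp, h, hju⟩
    · rw [if_neg h] at hj
      simp at hj
  · rintro ⟨b, p, rfl, hp, h, hju⟩
    refine ⟨⟨p, hp, ?_⟩, hju⟩
    rw [if_pos h]
    cases b <;> simp

/-- every node of the subtree of `x` occurs in `u` -/
def Cover (n : ℕ) (u : List (List Bool)) (x : List Bool) : Prop :=
  ∀ z, x <:+ z → z.length ≤ n → z ∈ u

theorem Cover.sub {n : ℕ} {u : List (List Bool)} {x y : List Bool} (h : Cover n u x)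
    (hxy : x <:+ y) : Cover n u y :=
  fun z hz hn => h z (hxy.trans hz) hn

/-- number of occurrences in `u` of nodes of the subtree of `x` -/
def occ (u : List (List Bool)) (x : List Bool) : ℕ :=
  u.countP (fun z => decide (x <:+ z))

theorem suffix_cons_excl {x z : List Bool} (h1 : (false :: x) <:+ z) (h2 : (true :: x) <:+ z) :
    False := by
  obtain ⟨a, rfl⟩ := h1
  have h3 : (false :: x) <:+ a ++ false :: x := ⟨a, rfl⟩
  have h4 := List.suffix_of_suffix_length_le h3 h2 (by simp)
  have h5 := h4.eq_of_length (by simp)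
  simp at h5

theorem occ_split (u : List (List Bool)) (x : List Bool) :
    occ u (false :: x) + occ u (true :: x) ≤ occ u x := by
  unfold occ
  induction u with
  | nil => simp
  | cons z u ih =>
    simp only [List.countP_cons]
    have key : (if decide ((false :: x) <:+ z) = true then 1 else 0) +
        (if decide ((true :: x) <:+ z) = true then 1 else 0) ≤
        (if decide (x <:+ z) = true then 1 else 0) := by
      by_cases h1 : (false :: x) <:+ z
      · have h2 : ¬ (true :: x) <:+ z := fun h => suffix_cons_excl h1 h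
        have h3 : x <:+ z := (List.suffix_cons false x).trans h1
        simp [h1, h2, h3]
      · by_cases h2 : (true :: x) <:+ z
        · have h3 : x <:+ z := (List.suffix_cons true x).trans h2
          simp [h1, h2, h3]
        · simp [h1, h2]
    omega

theorem occ_append (u v : List (List Bool)) (x : List Bool) :
    occ (u ++ v) x = occ u x + occ v x := by
  unfold occ; rw [List.countP_append]

theorem occ_pos {n : ℕ} {u : List (List Bool)} {x : List Bool} (h : Cover n u x)
    (hx : x.length ≤ n) : 1 ≤ occ u x := by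
  unfold occ
  have hm : x ∈ u := h x (List.suffix_refl x) hx
  have : 0 < u.countP (fun z => decide (x <:+ z)) := by
    rw [List.countP_pos_iff]
    exact ⟨x, hm, by simp⟩
  omega

theorem two_pow_le_occ {n : ℕ} {u : List (List Bool)} :
    ∀ (m : ℕ) (x : List Bool), x.length + m = n → Cover n u x → 2 ^ m ≤ occ u x := by
  intro m
  induction m with
  | zero =>
    intro x hx h
    simpa using occ_pos h (by omega)
  | succ m ih =>
    intro x hx h
    have h1 := ih (false :: x) (by simp; omega) (h.sub (List.suffix_cons _ _))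
    have h2 := ih (true :: x) (by simp; omega) (h.sub (List.suffix_cons _ _))
    have h3 := occ_split u x
    rw [pow_succ]
    omega

/-- at no cut of `u` do both halves contain the whole subtree of `y` -/
def Single (n : ℕ) (u : List (List Bool)) (y : List Bool) : Prop :=
  ∀ t, ¬ (Cover n (u.take t) y ∧ Cover n (u.drop t) y)

open Classical in
/-- number of single nodes `d` levels below `z` -/
noncomputable def cntS (n : ℕ) (u : List (List Bool)) : ℕ → List Bool → ℕ
  | 0, z => if Single n u z then 1 else 0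
  | d + 1, z => cntS n u d (false :: z) + cntS n u d (true :: z)

/-- there is a complete binary tree of height `ρ` (a topological minor) whose leaves are single
nodes `d` levels below `z` -/
def Rich (n : ℕ) (u : List (List Bool)) : ℕ → ℕ → List Bool → Prop
  | 0, 0, z => Single n u z
  | 0, d + 1, z => Rich n u 0 d (false :: z) ∨ Rich n u 0 d (true :: z)
  | _ + 1, 0, _ => False
  | ρ + 1, d + 1, z => Rich n u (ρ + 1) d (false :: z) ∨ Rich n u (ρ + 1) d (true :: z) ∨
      (Rich n u ρ d (false :: z) ∧ Rich n u ρ d (true :: z))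

/-- the partial binomial sum -/
def Mx (d ρ : ℕ) : ℕ := ∑ i ∈ Finset.range ρ, d.choose i

theorem Mx_succ (d ρ : ℕ) : Mx (d + 1) (ρ + 1) = Mx d (ρ + 1) + Mx d ρ := by
  unfold Mx
  induction ρ with
  | zero => simp
  | succ ρ ih =>
    rw [Finset.sum_range_succ, ih, Nat.choose_succ_succ, Finset.sum_range_succ _ (ρ + 1)]
    rw [Finset.sum_range_succ _ ρ]
    ring

theorem cntS_le {n : ℕ} {u : List (List Bool)} :
    ∀ (d ρ : ℕ) (z : List Bool), ¬ Rich n u ρ d z → cntS n u d z ≤ Mx d ρ := by
  intro d
  induction d with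
  | zero =>
    intro ρ z h
    cases ρ with
    | zero =>
      simp only [Rich] at h
      simp [cntS, h]
    | succ ρ =>
      have : Mx 0 (ρ + 1) = 1 := by
        unfold Mx
        rw [Finset.sum_range_succ']
        simp
      rw [this]
      simp only [cntS]
      split_ifs <;> simp
  | succ d ih =>
    intro ρ z h
    cases ρ with
    | zero =>
      simp only [Rich, not_or] at h
      have h1 := ih 0 _ h.1
      have h2 := ih 0 _ h.2
      simp only [Mx, Finset.range_zero, Finset.sum_empty, Nat.le_zero_eq] at h1 h2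
      simp [cntS, h1, h2]
    | succ ρ =>
      simp only [Rich, not_or, not_and_or] at h
      obtain ⟨h1, h2, h3⟩ := h
      rw [Mx_succ]
      simp only [cntS]
      rcases h3 with h3 | h3
      · have h4 := ih ρ _ h3
        have h5 := ih (ρ + 1) _ h2
        omega
      · have h4 := ih ρ _ h3
        have h5 := ih (ρ + 1) _ h1
        omega

/-- the counted edges (named by their lower end) below `x` at the cut `t` -/
def E (n : ℕ) (u : List (List Bool)) (x : List Bool) (t : ℕ) : Finset (List Bool) :=
  (defect n (u.take t) ∪ defect n (u.drop t)).filter (fun j => x <:+ j.tail)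

/-- the cut `t` is a peak of order `r` below `x` -/
def Peak (n : ℕ) (u : List (List Bool)) (r : ℕ) (x : List Bool) (t : ℕ) : Prop :=
  (∃ z, x <:+ z ∧ z.length ≤ n ∧ z ∉ u.drop t) ∧
  (∃ z, x <:+ z ∧ z.length ≤ n ∧ z ∉ u.take t) ∧
  r ≤ (E n u x t).card

/-- climbing: if a node `z` below `x` is missing in `v`, then `x` is missing in `v`, or some edge
on the way from `z` to `x` is counted -/
theorem climb {n : ℕ} {v : List (List Bool)} {x : List Bool} :
    ∀ z : List Bool, x <:+ z → z.length ≤ n → z ∉ v →
      x ∉ v ∨ ∃ j ∈ defect n v, x <:+ j.tail ∧ j <:+ z := by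
  intro z
  induction z with
  | nil =>
    intro hx _ hz
    left
    have : x = [] := by simpa using hx
    rw [this]; exact hz
  | cons b z ih =>
    intro hx hn hz
    by_cases hxz : x = b :: z
    · left; rw [hxz]; exact hz
    · have hx' : x <:+ z := by
        rcases List.suffix_cons_iff.mp hx with h | h
        · exact absurd h hxz
        · exact h
      by_cases hzv : z ∈ v
      · right
        refine ⟨b :: z, mem_defect.mpr ⟨b, z, rfl, hzv, ?_, hz⟩, hx', List.suffix_refl _⟩
        simpa using hn
      · rcases ih hx' (by simp at hn; omega) hzv with h | ⟨j, hj, h1, h2⟩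
        · left; exact h
        · right; exact ⟨j, hj, h1, h2.trans (List.suffix_cons _ _)⟩

/-- If `z1` is missing after the cut and `z3` is missing before it, there is a counted edge
on the way from `z1` to `x` or on the way from `z3` to `x`. -/
theorem extra_edge {n : ℕ} {u : List (List Bool)} {x z1 z3 : List Bool} {t : ℕ}
    (hxu : x ∈ u) (h1 : x <:+ z1) (n1 : z1.length ≤ n) (m1 : z1 ∉ u.drop t)
    (h3 : x <:+ z3) (n3 : z3.length ≤ n) (m3 : z3 ∉ u.take t) :
    ∃ j ∈ E n u x t, j <:+ z1 ∨ j <:+ z3 := by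
  rcases climb z1 h1 n1 m1 with h | ⟨j, hj, ha, hb⟩
  · rcases climb z3 h3 n3 m3 with h' | ⟨j, hj, ha, hb⟩
    · exfalso
      rw [← List.take_append_drop t u] at hxu
      rcases List.mem_append.mp hxu with h'' | h''
      · exact h' h''
      · exact h h''
    · refine ⟨j, ?_, Or.inr hb⟩
      unfold E
      rw [Finset.mem_filter, Finset.mem_union]
      exact ⟨Or.inl hj, ha⟩
  · refine ⟨j, ?_, Or.inl hb⟩
    unfold E
    rw [Finset.mem_filter, Finset.mem_union]
    exact ⟨Or.inr hj, ha⟩

/-- disjointness of the subtrees of `x` and `y` -/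
def Disj (x y : List Bool) : Prop := ∀ z, x <:+ z → y <:+ z → False

theorem Disj.symm {x y : List Bool} (h : Disj x y) : Disj y x := fun z a b => h z b a

theorem Disj.mono {x y x' y' : List Bool} (h : Disj x y) (hx : x <:+ x') (hy : y <:+ y') :
    Disj x' y' := fun z a b => h z (hx.trans a) (hy.trans b)

theorem disj_children (x : List Bool) : Disj (false :: x) (true :: x) :=
  fun _ a b => suffix_cons_excl a b

/-- a rich node of order `ρ + 1` has two disjoint descendants of order `ρ` -/
theorem rich_split {n : ℕ} {u : List (List Bool)} (ρ : ℕ) :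
    ∀ (d : ℕ) (x : List Bool), x.length + d ≤ n → Rich n u (ρ + 1) d x →
      ∃ y1 y2 d1 d2, x <:+ y1 ∧ x <:+ y2 ∧ Disj y1 y2 ∧ y1.length + d1 ≤ n ∧ y2.length + d2 ≤ n ∧
        Rich n u ρ d1 y1 ∧ Rich n u ρ d2 y2 := by
  intro d
  induction d with
  | zero =>
    intro x _ h
    simp only [Rich] at h
  | succ d ih =>
    intro x hx h
    simp only [Rich] at h
    rcases h with h | h | h
    · obtain ⟨y1, y2, d1, d2, a1, a2, a3, a4, a5, a6, a7⟩ := ih _ (by simp; omega) h
      exact ⟨y1, y2, d1, d2, (List.suffix_cons _ _).trans a1, (List.suffix_cons _ _).trans a2,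
        a3, a4, a5, a6, a7⟩
    · obtain ⟨y1, y2, d1, d2, a1, a2, a3, a4, a5, a6, a7⟩ := ih _ (by simp; omega) h
      exact ⟨y1, y2, d1, d2, (List.suffix_cons _ _).trans a1, (List.suffix_cons _ _).trans a2,
        a3, a4, a5, a6, a7⟩
    · exact ⟨false :: x, true :: x, d, d, List.suffix_cons _ _, List.suffix_cons _ _,
        disj_children x, by simp; omega, by simp; omega, h.1, h.2⟩

/-- a rich node of order `0` has a single descendant -/
theorem rich_zero {n : ℕ} {u : List (List Bool)} :
    ∀ (d : ℕ) (x : List Bool), x.length + d ≤ n → Rich n u 0 d x →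
      ∃ y, x <:+ y ∧ y.length ≤ n ∧ Single n u y := by
  intro d
  induction d with
  | zero =>
    intro x hx h
    simp only [Rich] at h
    exact ⟨x, List.suffix_refl x, by omega, h⟩
  | succ d ih =>
    intro x hx h
    simp only [Rich] at h
    rcases h with h | h
    · obtain ⟨y, a1, a2, a3⟩ := ih _ (by simp; omega) h
      exact ⟨y, (List.suffix_cons _ _).trans a1, a2, a3⟩
    · obtain ⟨y, a1, a2, a3⟩ := ih _ (by simp; omega) h
      exact ⟨y, (List.suffix_cons _ _).trans a1, a2, a3⟩

/-- first time at which a subtree has been covered -/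
theorem first_cover {n : ℕ} {u : List (List Bool)} {y : List Bool} (hy : y.length ≤ n)
    (h : Cover n u y) :
    ∃ a, Cover n (u.take (a + 1)) y ∧ (∀ t, t ≤ a → ¬ Cover n (u.take t) y) ∧
      ∃ z, u[a]? = some z ∧ y <:+ z := by
  classical
  have hex : ∃ t, Cover n (u.take t) y := ⟨u.length, by rw [List.take_length]; exact h⟩
  have h0 : Nat.find hex ≠ 0 := by
    intro h0
    have := Nat.find_spec hex
    rw [h0] at this
    have := this y (List.suffix_refl y) hy
    simp at this
  obtain ⟨a, ha⟩ := Nat.exists_eq_succ_of_ne_zero h0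
  have h1 : Cover n (u.take (a + 1)) y := by
    have := Nat.find_spec hex
    rw [ha] at this; exact this
  have h2 : ∀ t, t ≤ a → ¬ Cover n (u.take t) y := by
    intro t ht
    exact Nat.find_min hex (by omega)
  refine ⟨a, h1, h2, ?_⟩
  have h3 := h2 a le_rfl
  unfold Cover at h3
  push Not at h3
  obtain ⟨z, hz1, hz2, hz3⟩ := h3
  have h4 := h1 z hz1 hz2
  rw [List.take_add_one, List.mem_append] at h4
  rcases h4 with h4 | h4
  · exact absurd h4 hz3
  · refine ⟨z, ?_, hz1⟩
    simpa using h4

theorem peak_one {n : ℕ} {u : List (List Bool)} {x y1 y2 : List Bool}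
    (hx : x.length ≤ n) (hc : Cover n u x)
    (h1 : x <:+ y1) (h2 : x <:+ y2) (hd : Disj y1 y2) (l1 : y1.length ≤ n) (l2 : y2.length ≤ n)
    (s1 : Single n u y1) (s2 : Single n u y2) : ∃ t, Peak n u 1 x t := by
  obtain ⟨a1, c1, e1, w1, v1, t1⟩ := first_cover l1 (hc.sub h1)
  obtain ⟨a2, c2, e2, w2, v2, t2⟩ := first_cover l2 (hc.sub h2)
  have hne : a1 ≠ a2 := by
    rintro rfl
    rw [v1] at v2
    have : w1 = w2 := by simpa using v2
    subst this
    exact hd _ t1 t2
  have main : ∀ (y1 y2 : List Bool) (a1 a2 : ℕ), x <:+ y1 → x <:+ y2 →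
      Single n u y1 → Cover n (u.take (a1 + 1)) y1 → (∀ t, t ≤ a2 → ¬ Cover n (u.take t) y2) →
      a1 < a2 → ∃ t, Peak n u 1 x t := by
    intro y1 y2 a1 a2 h1 h2 s1 c1 e2 hlt
    have hA : ¬ Cover n (u.drop (a1 + 1)) y1 := fun h => s1 _ ⟨c1, h⟩
    have hB := e2 (a1 + 1) hlt
    unfold Cover at hA hB
    push Not at hA hB
    obtain ⟨z1, p1, p2, p3⟩ := hA
    obtain ⟨z2, r1, r2, r3⟩ := hB
    refine ⟨a1 + 1, ⟨z1, h1.trans p1, p2, p3⟩, ⟨z2, h2.trans r1, r2, r3⟩, ?_⟩
    obtain ⟨j, hj, _⟩ := extra_edge (hc x (List.suffix_refl x) hx) (h1.trans p1) p2 p3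
      (h2.trans r1) r2 r3
    exact Finset.card_pos.mpr ⟨j, hj⟩
  rcases Nat.lt_or_gt_of_ne hne with h | h
  · exact main y1 y2 a1 a2 h1 h2 s1 c1 e2 h
  · exact main y2 y1 a2 a1 h2 h1 s2 c2 e1 h

theorem peak_step {n : ℕ} {u : List (List Bool)} {x y1 y2 y3 : List Bool} {r t1 t2 t3 : ℕ}
    (hx : x.length ≤ n) (hc : Cover n u x)
    (h1 : x <:+ y1) (h2 : x <:+ y2) (h3 : x <:+ y3) (d12 : Disj y1 y2) (d23 : Disj y2 y3)
    (p1 : Peak n u r y1 t1) (p2 : Peak n u r y2 t2) (p3 : Peak n u r y3 t3)
    (h12 : t1 ≤ t2) (h23 : t2 ≤ t3) : Peak n u (r + 1) x t2 := by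
  obtain ⟨z1, a1, b1, c1⟩ := p1.1
  obtain ⟨z3, a3, b3, c3⟩ := p3.2.1
  have c1' : z1 ∉ u.drop t2 := by
    intro h
    apply c1
    have : u.drop t2 = (u.drop t1).drop (t2 - t1) := by
      rw [List.drop_drop]; congr 1; omega
    rw [this] at h
    exact List.mem_of_mem_drop h
  have c3' : z3 ∉ u.take t2 := by
    intro h
    apply c3
    have : u.take t2 = (u.take t3).take t2 := by
      rw [List.take_take]; congr 1; omega
    rw [this] at h
    exact List.mem_of_mem_take h
  obtain ⟨z2, a2, b2, c2⟩ := p2.1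
  obtain ⟨z2', a2', b2', c2'⟩ := p2.2.1
  refine ⟨⟨z2, h2.trans a2, b2, c2⟩, ⟨z2', h2.trans a2', b2', c2'⟩, ?_⟩
  obtain ⟨j, hj, hj'⟩ := extra_edge (t := t2) (hc x (List.suffix_refl x) hx) (h1.trans a1) b1 c1'
    (h3.trans a3) b3 c3'
  have hnot : j ∉ E n u y2 t2 := by
    intro hj2
    unfold E at hj2
    rw [Finset.mem_filter] at hj2
    have hjy : y2 <:+ j := by
      have : j.tail <:+ j := List.tail_suffix j
      exact hj2.2.trans this
    rcases hj' with h | h
    · exact d12 z1 a1 (hjy.trans h)
    · exact d23 z3 (hjy.trans h) a3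
  have hsub : insert j (E n u y2 t2) ⊆ E n u x t2 := by
    intro i hi
    rw [Finset.mem_insert] at hi
    rcases hi with rfl | hi
    · exact hj
    · unfold E at hi ⊢
      rw [Finset.mem_filter] at hi ⊢
      exact ⟨hi.1, h2.trans hi.2⟩
  calc r + 1 ≤ (E n u y2 t2).card + 1 := by have := p2.2.2; omega
    _ = (insert j (E n u y2 t2)).card := (Finset.card_insert_of_notMem hnot).symm
    _ ≤ _ := Finset.card_le_card hsub

theorem rich_peak {n : ℕ} {u : List (List Bool)} :
    ∀ (r d : ℕ) (x : List Bool), x.length + d ≤ n → Cover n u x → Rich n u (2 * r + 1) d x →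
      ∃ t, Peak n u (r + 1) x t := by
  intro r
  induction r with
  | zero =>
    intro d x hx hc h
    obtain ⟨y1, y2, d1, d2, a1, a2, a3, a4, a5, a6, a7⟩ := rich_split 0 d x hx h
    obtain ⟨z1, b1, b2, b3⟩ := rich_zero d1 y1 a4 a6
    obtain ⟨z2, c1, c2, c3⟩ := rich_zero d2 y2 a5 a7
    exact peak_one (by omega) hc (a1.trans b1) (a2.trans c1) (a3.mono b1 c1) b2 c2 b3 c3
  | succ r ih =>
    intro d x hx hc h
    have h' : Rich n u (2 * r + 1 + 1 + 1) d x := h
    obtain ⟨y1, y2, d1, d2, a1, a2, a3, a4, a5, a6, a7⟩ := rich_split (2 * r + 1 + 1) d x hx h'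
    obtain ⟨y11, y12, d11, d12, b1, b2, b3, b4, b5, b6, b7⟩ := rich_split (2 * r + 1) d1 y1 a4 a6
    obtain ⟨y21, y22, d21, d22, c1, c2, c3, c4, c5, c6, c7⟩ := rich_split (2 * r + 1) d2 y2 a5 a7
    obtain ⟨t1, p1⟩ := ih d11 y11 b4 (hc.sub (a1.trans b1)) b6
    obtain ⟨t2, p2⟩ := ih d12 y12 b5 (hc.sub (a1.trans b2)) b7
    obtain ⟨t3, p3⟩ := ih d21 y21 c4 (hc.sub (a2.trans c1)) c6
    have e1 : x <:+ y11 := a1.trans b1
    have e2 : x <:+ y12 := a1.trans b2
    have e3 : x <:+ y21 := a2.trans c1
    have D12 : Disj y11 y12 := b3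
    have D13 : Disj y11 y21 := a3.mono b1 c1
    have D23 : Disj y12 y21 := a3.mono b2 c1
    have hxn : x.length ≤ n := by omega
    rcases le_total t1 t2 with u12 | u12
    · rcases le_total t2 t3 with u23 | u23
      · exact ⟨t2, peak_step hxn hc e1 e2 e3 D12 D23 p1 p2 p3 u12 u23⟩
      · rcases le_total t1 t3 with u13 | u13
        · exact ⟨t3, peak_step hxn hc e1 e3 e2 D13 D23.symm p1 p3 p2 u13 u23⟩
        · exact ⟨t1, peak_step hxn hc e3 e1 e2 D13.symm D12 p3 p1 p2 u13 u12⟩
    · rcases le_total t1 t3 with u13 | u13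
      · exact ⟨t1, peak_step hxn hc e2 e1 e3 D12.symm D13 p2 p1 p3 u12 u13⟩
      · rcases le_total t2 t3 with u23 | u23
        · exact ⟨t3, peak_step hxn hc e2 e3 e1 D23 D13.symm p2 p3 p1 u23 u13⟩
        · exact ⟨t2, peak_step hxn hc e3 e2 e1 D23.symm D12.symm p3 p2 p1 u23 u12⟩

/-- counting occurrences with single nodes counted once and the other ones twice -/
theorem occ_count {n : ℕ} {u : List (List Bool)} {m P R : ℕ}
    (H : ∀ (y : List Bool) (v : List (List Bool)), y.length + m = n → v <:+: u → Cover n v y →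
      P ≤ R * occ v y) :
    ∀ (d : ℕ) (z : List Bool), z.length + d + m = n → Cover n u z →
      2 * P * 2 ^ d ≤ R * occ u z + P * cntS n u d z := by
  intro d
  induction d with
  | zero =>
    intro z hz hc
    simp only [cntS, pow_zero, mul_one]
    by_cases hs : Single n u z
    · rw [if_pos hs]
      have := H z u (by omega) (List.infix_refl u) hc
      omega
    · rw [if_neg hs]
      unfold Single at hs
      push Not at hs
      obtain ⟨t, h1, h2⟩ := hs
      have i1 := H z (u.take t) (by omega) (List.take_prefix t u).isInfix h1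
      have i2 := H z (u.drop t) (by omega) (List.drop_suffix t u).isInfix h2
      have i3 := occ_append (u.take t) (u.drop t) z
      rw [List.take_append_drop] at i3
      rw [i3, Nat.mul_add]
      omega
  | succ d ih =>
    intro z hz hc
    have i1 := ih (false :: z) (by simp; omega) (hc.sub (List.suffix_cons _ _))
    have i2 := ih (true :: z) (by simp; omega) (hc.sub (List.suffix_cons _ _))
    have i3 := Nat.mul_le_mul_left R (occ_split u z)
    simp only [cntS]
    rw [Nat.mul_add] at i3 ⊢
    rw [pow_succ]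
    have : 2 * P * (2 ^ d * 2) = 2 * P * 2 ^ d + 2 * P * 2 ^ d := by ring
    rw [this]
    omega

theorem defect_E_card {n D : ℕ} {u : List (List Bool)} {x : List Bool} {t : ℕ}
    (H : ∀ v, v <:+: u → (defect n v).card ≤ D) : (E n u x t).card ≤ 2 * D := by
  unfold E
  calc _ ≤ (defect n (u.take t) ∪ defect n (u.drop t)).card := Finset.card_filter_le _ _
    _ ≤ (defect n (u.take t)).card + (defect n (u.drop t)).card := Finset.card_union_le _ _
    _ ≤ D + D := Nat.add_le_add (H _ (List.take_prefix t u).isInfix)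
        (H _ (List.drop_suffix t u).isInfix)
    _ = 2 * D := by ring

/-- the word lemma -/
theorem word_main {n D : ℕ} {w : List (List Bool)}
    (H : ∀ u, u <:+: w → (defect n u).card ≤ D) :
    ∀ (m : ℕ) (x : List Bool) (u : List (List Bool)), x.length + m = n → u <:+: w →
      Cover n u x →
      3 ^ (m / (8 * D + 1)) * 2 ^ m ≤ 2 ^ (m / (8 * D + 1)) * occ u x := by
  intro m
  induction m using Nat.strong_induction_on with
  | _ m ih =>
    intro x u hx hu hc
    by_cases hm : m < 8 * D + 1
    · rw [Nat.div_eq_of_lt hm]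
      simpa using two_pow_le_occ m x hx hc
    · push Not at hm
      obtain ⟨m', rfl⟩ := Nat.exists_eq_add_of_le hm
      have hdiv : (8 * D + 1 + m') / (8 * D + 1) = m' / (8 * D + 1) + 1 := by
        rw [Nat.add_comm, Nat.add_div_right _ (by omega)]
      have hcount := occ_count (u := u) (m := m')
        (P := 3 ^ (m' / (8 * D + 1)) * 2 ^ m') (R := 2 ^ (m' / (8 * D + 1)))
        (fun y v hy hv hcv => ih m' (by omega) y v hy (hv.trans hu) hcv)
        (8 * D + 1) x (by omega) hc
      have hnr : ¬ Rich n u (4 * D + 1) (8 * D + 1) x := by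
        intro hr
        have hr' : Rich n u (2 * (2 * D) + 1) (8 * D + 1) x := by
          have : 2 * (2 * D) + 1 = 4 * D + 1 := by ring
          rw [this]; exact hr
        obtain ⟨t, ht⟩ := rich_peak (2 * D) (8 * D + 1) x (by omega) hc hr'
        have h1 := ht.2.2
        have h2 := defect_E_card (x := x) (t := t)
          (fun v hv => H v (hv.trans hu))
        omega
      have hS := cntS_le (8 * D + 1) (4 * D + 1) x hnr
      have hMx : Mx (8 * D + 1) (4 * D + 1) = 2 ^ (8 * D) := by
        unfold Mx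
        have := Nat.sum_range_choose_halfway (4 * D)
        have e : 2 * (4 * D) + 1 = 8 * D + 1 := by ring
        rw [e] at this
        rw [this]
        have : (4 : ℕ) = 2 ^ 2 := by norm_num
        rw [this, ← pow_mul]
        congr 1; ring
      rw [hMx] at hS
      rw [hdiv]
      generalize hP : 3 ^ (m' / (8 * D + 1)) * 2 ^ m' = P at hcount
      generalize hR : 2 ^ (m' / (8 * D + 1)) = R at hcount
      have h1 : P * cntS n u (8 * D + 1) x ≤ P * 2 ^ (8 * D) := Nat.mul_le_mul_left _ hS
      have h2 : 2 * P * 2 ^ (8 * D + 1) = 4 * (P * 2 ^ (8 * D)) := by rw [pow_succ]; ring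
      have h3 : 3 ^ (m' / (8 * D + 1) + 1) * 2 ^ (8 * D + 1 + m') = 6 * (P * 2 ^ (8 * D)) := by
        rw [← hP, pow_succ, pow_add, pow_succ]; ring
      have h4 : 2 ^ (m' / (8 * D + 1) + 1) * occ u x = 2 * (R * occ u x) := by
        rw [← hR, pow_succ]; ring
      rw [h3, h4]
      rw [h2] at hcount
      omega

/-- the word lemma at the root -/
theorem word_length {n D : ℕ} {w : List (List Bool)}
    (H : ∀ u, u <:+: w → (defect n u).card ≤ D)
    (hc : ∀ z : List Bool, z.length ≤ n → z ∈ w) :
    3 ^ (n / (8 * D + 1)) * 2 ^ n ≤ 2 ^ (n / (8 * D + 1)) * w.length := by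
  have h := word_main H n [] w (by simp) (List.infix_refl w) (fun z _ hz => hc z hz)
  have h2 : occ w [] ≤ w.length := List.countP_le_length
  exact h.trans (Nat.mul_le_mul_left _ h2)

end MP6216ea
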