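import Mathlib
import Pool.Agent.Lib.MP_6216ea_lc.Word
import Pool.Agent.Lib.MP_6216ea_lc.Defs

/-!
# A time-space tradeoff for nondeterministic thrifty branching programs for tree evaluation
-/

namespace Pool.Agent.Lib.MP_6216ea_lc.ThriftyTimeSpaceKept

open Pool.Agent.Lib.MP_6216ea_lc

section proofs

variable {n k : ℕ} {Q : Type} {P : NBP n k Q}

/-- the node of a variable -/
def node : Var n k → List Bool
  | Var.leaf x _ => x
  | Var.fn x _ _ _ => x

theorem path_congr {I I' : Var n k → Fin k} {q q' : Q} {l : List (Var n k)}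
    (h : Path P I q l q') : (∀ X ∈ l, I X = I' X) → Path P I' q l q' := by
  induction h with
  | nil q => intro _; exact Path.nil q
  | free q q' q'' l h _ ih => intro hI; exact Path.free q q' q'' l h (ih hI)
  | query q q' q'' X l hX h _ ih =>
    intro hI
    refine Path.query q q' q'' X l hX ?_ (ih fun Y hY => hI Y (List.mem_cons_of_mem _ hY))
    rw [← hI X List.mem_cons_self]; exact h

theorem path_append {I : Var n k → Fin k} {q q' q'' : Q} {l l' : List (Var n k)}
    (h : Path P I q l q') : Path P I q' l' q'' → Path P I q (l ++ l') q'' := by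
  induction h with
  | nil q => intro h'; simpa using h'
  | free q q1 q2 l h _ ih => intro h'; exact Path.free q q1 _ _ h (ih h')
  | query q q1 q2 X l hX h _ ih => intro h'; exact Path.query q q1 _ X _ hX h (ih h')

theorem path_split {I : Var n k → Fin k} {q q'' : Q} {L : List (Var n k)}
    (h : Path P I q L q'') : ∀ l l', L = l ++ l' → ∃ q', Path P I q l q' ∧ Path P I q' l' q'' := by
  induction h with
  | nil q =>
    intro l l' hl
    have h1 := List.append_eq_nil_iff.mp hl.symm
    rw [h1.1, h1.2]
    exact ⟨q, Path.nil q, Path.nil q⟩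
  | free q q1 q2 L h _ ih =>
    intro l l' hl
    obtain ⟨q', h1, h2⟩ := ih l l' hl
    exact ⟨q', Path.free q q1 q' l h h1, h2⟩
  | query q q1 q2 X L hX h hp ih =>
    intro l l' hl
    cases l with
    | nil =>
      rw [List.nil_append] at hl
      rw [← hl]
      exact ⟨q, Path.nil q, Path.query q q1 q2 X L hX h hp⟩
    | cons Y l =>
      rw [List.cons_append, List.cons.injEq] at hl
      obtain ⟨rfl, hl⟩ := hl
      obtain ⟨q', h1, h2⟩ := ih l l' hl
      exact ⟨q', Path.query q q1 q' X l hX h h1, h2⟩

/-- the input in which every node `x` has the constant function `v x` -/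
def inp (n : ℕ) (v : List Bool → Fin k) : Var n k → Fin k := fun X => v (node X)

theorem value_inp (v : List Bool → Fin k) (m : ℕ) (x : List Bool) (h : x.length + m = n) :
    value (inp n v) m x h = v x := by
  cases m with
  | zero => rfl
  | succ m => rfl

/-- every node is queried in every accepting computation on a constant input -/
theorem covers (hk : 2 ≤ k) {r : Fin k} (hs : Solves P r) (ht : Thrifty P)
    {v : List Bool → Fin k} {l : List (Var n k)} (hl : Accepts P (inp n v) l) :
    ∀ z : List Bool, z.length ≤ n → z ∈ l.map node := by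
  have hne : ∀ c : Fin k, ∃ c', c' ≠ c := by
    intro c
    by_cases h : c.val = 0
    · exact ⟨⟨1, by omega⟩, fun h' => by rw [← h'] at h; simp at h⟩
    · exact ⟨⟨0, by omega⟩, fun h' => h (by rw [← h'])⟩
  have hcongr : ∀ (z : List Bool) (c : Fin k), z ∉ l.map node →
      Accepts P (inp n (Function.update v z c)) l := by
    intro z c hz
    obtain ⟨q, hq, hp⟩ := hl
    refine ⟨q, hq, path_congr hp ?_⟩
    intro X hX
    have : node X ≠ z := by
      rintro rfl
      exact hz (List.mem_map_of_mem hX)
    simp only [inp]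
    rw [Function.update_of_ne this]
  intro z
  induction z with
  | nil =>
    intro _
    by_contra hz
    obtain ⟨c, hc⟩ := hne r
    have h1 := (hs _).mp ⟨l, hcongr [] c hz⟩
    rw [value_inp, Function.update_self] at h1
    exact hc h1
  | cons b p ih =>
    intro hn
    rw [List.length_cons] at hn
    by_contra hz
    have hp := ih (by omega)
    obtain ⟨X, hX, hXp⟩ := List.mem_map.mp hp
    obtain ⟨c, hc⟩ := hne (v (b :: p))
    obtain ⟨m, hm⟩ : ∃ m, p.length + (m + 1) = n := ⟨n - (p.length + 1), by omega⟩
    cases X with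
    | leaf x hx =>
      simp only [node] at hXp
      rw [hXp] at hx
      omega
    | fn x hx a a' =>
      simp only [node] at hXp
      subst hXp
      have h1 := ht _ l hl m x hm a a' hX
      have h2 := ht _ l (hcongr (b :: x) c hz) m x hm a a' hX
      simp only [value_inp] at h1 h2
      cases b with
      | false =>
        rw [Function.update_self] at h2
        exact hc (h2.1.symm.trans h1.1)
      | true =>
        rw [Function.update_self] at h2
        exact hc (h2.2.symm.trans h1.2)

/-- what is recorded about the window of an accepting computation -/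
def Good (P : NBP n k Q) (D : ℕ) (v : List Bool → Fin k) (q1 q2 : Q)
    (F : Fin (D + 1) → List Bool) : Prop :=
  ∃ l1 l2 l3 q3, P.accept q3 ∧ Path P (inp n v) P.start l1 q1 ∧ Path P (inp n v) q1 l2 q2 ∧
    Path P (inp n v) q2 l3 q3 ∧
    ∀ i, F i ∉ l2.map node ∧ ∃ b p, F i = b :: p ∧ p.length < n ∧ p ∈ l2.map node

/-- the cut and paste argument -/
theorem splice (ht : Thrifty P) {D : ℕ} {v v' : List Bool → Fin k} {q1 q2 : Q}
    {F : Fin (D + 1) → List Bool} (h : Good P D v q1 q2 F) (h' : Good P D v' q1 q2 F)
    (hvv : ∀ z, (∀ i, F i ≠ z) → v z = v' z) (i : Fin (D + 1)) : v (F i) = v' (F i) := by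
  obtain ⟨l1, l2, l3, q3, hq3, p1, p2, p3, hF⟩ := h
  obtain ⟨l1', l2', l3', q3', hq3', p1', p2', p3', hF'⟩ := h'
  have hp2 : Path P (inp n v) q1 l2' q2 := by
    refine path_congr p2' ?_
    intro X hX
    simp only [inp]
    refine (hvv _ ?_).symm
    intro j hj
    exact (hF' j).1 (hj ▸ List.mem_map_of_mem hX)
  have hacc : Accepts P (inp n v) (l1 ++ (l2' ++ l3)) := ⟨q3, hq3, path_append p1 (path_append hp2 p3)⟩
  have hacc' : Accepts P (inp n v') (l1' ++ (l2' ++ l3')) :=
    ⟨q3', hq3', path_append p1' (path_append p2' p3')⟩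
  obtain ⟨b, p, hFp, hpn, hp⟩ := (hF' i).2
  obtain ⟨X, hX, hXp⟩ := List.mem_map.mp hp
  obtain ⟨m, hm⟩ : ∃ m, p.length + (m + 1) = n := ⟨n - (p.length + 1), by omega⟩
  cases X with
  | leaf x hx =>
    simp only [node] at hXp
    rw [hXp] at hx
    omega
  | fn x hx a a' =>
    simp only [node] at hXp
    subst hXp
    have h1 := ht _ _ hacc m x hm a a' (by simp [hX])
    have h2 := ht _ _ hacc' m x hm a a' (by simp [hX])
    simp only [value_inp] at h1 h2
    rw [hFp]
    cases b with
    | false => exact h1.1.symm.trans h2.1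
    | true => exact h1.2.symm.trans h2.2

/-- the nodes of the tree other than the root -/
def nr : ℕ → Finset (List Bool)
  | 0 => ∅
  | n + 1 => {[false], [true]} ∪ ((nr n).image (fun x => false :: x) ∪
      (nr n).image (fun x => true :: x))

theorem mem_nr : ∀ (n : ℕ) (x : List Bool), x ∈ nr n ↔ x ≠ [] ∧ x.length ≤ n := by
  intro n
  induction n with
  | zero =>
    intro x
    simp only [nr, Finset.notMem_empty, false_iff, not_and]
    intro hx h
    exact hx (List.length_eq_zero_iff.mp (by omega))
  | succ n ih =>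
    intro x
    simp only [nr, Finset.mem_union, Finset.mem_insert, Finset.mem_singleton, Finset.mem_image]
    constructor
    · rintro ((rfl | rfl) | (⟨y, hy, rfl⟩ | ⟨y, hy, rfl⟩))
      · simp
      · simp
      · have := ((ih y).mp hy).2; simp; omega
      · have := ((ih y).mp hy).2; simp; omega
    · rintro ⟨h1, h2⟩
      cases x with
      | nil => exact absurd rfl h1
      | cons b y =>
        rw [List.length_cons] at h2
        by_cases hy : y = []
        · left
          subst hy
          cases b <;> simp
        · right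
          have := (ih y).mpr ⟨hy, by omega⟩
          cases b
          · left; exact ⟨y, this, rfl⟩
          · right; exact ⟨y, this, rfl⟩

theorem card_nr : ∀ n : ℕ, (nr n).card + 2 ≤ 2 ^ (n + 1) := by
  intro n
  induction n with
  | zero => simp [nr]
  | succ n ih =>
    have h1 : (nr (n + 1)).card ≤ 2 + ((nr n).card + (nr n).card) := by
      simp only [nr]
      refine (Finset.card_union_le _ _).trans (Nat.add_le_add Finset.card_le_two ?_)
      exact (Finset.card_union_le _ _).trans
        (Nat.add_le_add Finset.card_image_le Finset.card_image_le)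
    rw [pow_succ]
    omega

/-- extension of an assignment of values to the nonroot nodes -/
def ext (r : Fin k) (v : nr n → Fin k) : List Bool → Fin k :=
  fun z => if h : z ∈ nr n then v ⟨z, h⟩ else r

theorem ext_root (r : Fin k) (v : nr n → Fin k) : ext r v [] = r := by
  unfold ext
  rw [dif_neg]
  rw [mem_nr]
  simp

theorem ext_coe (r : Fin k) (v : nr n → Fin k) (z : nr n) : ext r v z = v z := by
  unfold ext
  rw [dif_pos z.2]

/-- for every assignment there is a window with many unprotected edges -/
theorem exists_good (hk : 2 ≤ k) {r : Fin k} (hs : Solves P r) (ht : Thrifty P) {T D : ℕ}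
    (hT : TimeAtMost P r T) (hlt : T * 2 ^ (n / (8 * D + 1)) < 3 ^ (n / (8 * D + 1)) * 2 ^ n)
    (v : nr n → Fin k) : ∃ (q1 q2 : Q) (F : Fin (D + 1) → nr n), Function.Injective F ∧
      Good P D (ext r v) q1 q2 (fun i => (F i : List Bool)) := by
  obtain ⟨l, hl, hlen⟩ := hT (inp n (ext r v)) (by rw [value_inp, ext_root])
  have hcov := covers hk hs ht hl
  have hex : ∃ u, u <:+: l.map node ∧ D < (MP6216ea.defect n u).card := by
    by_contra hno
    push Not at hno
    have h1 := MP6216ea.word_length hno hcov
    rw [List.length_map] at h1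
    have h2 : 2 ^ (n / (8 * D + 1)) * l.length ≤ T * 2 ^ (n / (8 * D + 1)) := by
      rw [Nat.mul_comm]; exact Nat.mul_le_mul_right _ hlen
    omega
  obtain ⟨u, ⟨s, t, hst⟩, hu⟩ := hex
  -- split the list of variables
  obtain ⟨L, l3, hL, hLs, hl3⟩ := List.map_eq_append_iff.mp hst.symm
  obtain ⟨l1, l2, hL', hl1, hl2⟩ := List.map_eq_append_iff.mp hLs
  obtain ⟨q, hq, hp⟩ := hl
  obtain ⟨q2, hp12, hp3⟩ := path_split hp L l3 hL
  obtain ⟨q1, hp1, hp2⟩ := path_split hp12 l1 l2 hL'
  obtain ⟨S, hS, hcard⟩ := Finset.exists_subset_card_eq (show D + 1 ≤ _ from hu)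
  have hmem : ∀ j ∈ S, j ∈ nr n := by
    intro j hj
    obtain ⟨b, p, rfl, _, hpn, _⟩ := MP6216ea.mem_defect.mp (hS hj)
    rw [mem_nr]
    refine ⟨by simp, ?_⟩
    rw [List.length_cons]; omega
  let e := S.equivFinOfCardEq hcard
  refine ⟨q1, q2, fun i => ⟨(e.symm i : List Bool), hmem _ (e.symm i).2⟩, ?_, ?_⟩
  · intro i j hij
    have : ((e.symm i : S) : List Bool) = (e.symm j : S) := by
      simpa using hij
    exact e.symm.injective (Subtype.ext this)
  · refine ⟨l1, l2, l3, q, hq, hp1, hp2, hp3, ?_⟩
    intro i
    obtain ⟨b, p, hj, hpu, hpn, hnu⟩ := MP6216ea.mem_defect.mp (hS (e.symm i).2)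
    rw [hl2]
    exact ⟨hnu, b, p, hj, hpn, hpu⟩

end proofs

/-- **Time-space tradeoff for nondeterministic thrifty branching programs.** Let `P` be a thrifty
nondeterministic branching program with states `Q` for the tree evaluation problem of depth `n`
over `k` values (it accepts exactly the inputs whose root has the value `r`), such that every
yes-input has an accepting computation with at most `T` queries. If
`T < 2 ^ n * (3 / 2) ^ ⌊n / (8 * D + 1)⌋` then
`k ^ (D + 1) ≤ |Q| ^ 2 * (2 ^ (n + 1) - 2) ^ (D + 1)`. -/
theorem result (n k D T : ℕ) (hk : 2 ≤ k) (r : Fin k) (Q : Type) [Fintype Q] (P : NBP n k Q)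
    (hs : Solves P r) (ht : Thrifty P) (hT : TimeAtMost P r T)
    (hlt : T * 2 ^ (n / (8 * D + 1)) < 3 ^ (n / (8 * D + 1)) * 2 ^ n) :
    k ^ (D + 1) ≤ Fintype.card Q ^ 2 * (2 ^ (n + 1) - 2) ^ (D + 1) := by
  classical
  choose q1 q2 F hFi hG using exists_good (n := n) hk hs ht hT hlt
  let Φ : (nr n → Fin k) × (Fin (D + 1) → Fin k) →
      ((Q × Q) × (Fin (D + 1) → nr n)) × (nr n → Fin k) :=
    fun p => (((q1 p.1, q2 p.1), F p.1), Function.extend (F p.1) p.2 p.1)
  have hΦ : Function.Injective Φ := by
    rintro ⟨v, u⟩ ⟨v', u'⟩ h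
    simp only [Φ, Prod.mk.injEq] at h
    obtain ⟨⟨⟨h1, h2⟩, h3⟩, h4⟩ := h
    have hout : ∀ z : nr n, (∀ i, F v i ≠ z) → v z = v' z := by
      intro z hz
      have e1 : Function.extend (F v) u v z = v z := by
        apply Function.extend_apply'
        rintro ⟨i, hi⟩
        exact hz i hi
      have e2 : Function.extend (F v') u' v' z = v' z := by
        apply Function.extend_apply'
        rintro ⟨i, hi⟩
        rw [← h3] at hi
        exact hz i hi
      rw [← e1, ← e2, h4]
    have hG' : Good P D (ext r v') (q1 v) (q2 v) (fun i => (F v i : List Bool)) := by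
      have := hG v'
      rw [← h1, ← h2, ← h3] at this
      exact this
    have hin := splice ht (hG v) hG' (by
      intro z hz
      by_cases hzn : z ∈ nr n
      · have := hout ⟨z, hzn⟩ (fun i hi => hz i (by rw [hi]))
        simpa only [ext, hzn, dif_pos] using this
      · simp only [ext, hzn, dif_neg, not_false_eq_true])
    have hvv : v = v' := by
      funext z
      by_cases hz : ∃ i, F v i = z
      · obtain ⟨i, rfl⟩ := hz
        have := hin i
        rwa [ext_coe, ext_coe] at this
      · push Not at hz
        exact hout z hz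
    subst hvv
    have huu : u = u' := by
      funext i
      have := congrFun h4 (F v i)
      rwa [(hFi v).extend_apply, (hFi v).extend_apply] at this
    rw [huu]
  have hcard := Fintype.card_le_of_injective Φ hΦ
  simp only [Fintype.card_prod, Fintype.card_fun, Fintype.card_fin, Fintype.card_coe] at hcard
  have hpos : 0 < k ^ (nr n).card := by positivity
  have h1 : k ^ (D + 1) ≤ Fintype.card Q * Fintype.card Q * (nr n).card ^ (D + 1) := by
    rw [Nat.mul_comm (k ^ (nr n).card)] at hcard
    exact Nat.le_of_mul_le_mul_right hcard hpos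
  refine h1.trans ?_
  rw [pow_two]
  refine Nat.mul_le_mul_left _ (Nat.pow_le_pow_left ?_ _)
  have := card_nr n
  omega

end Pool.Agent.Lib.MP_6216ea_lc.ThriftyTimeSpaceKept
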